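import Pool.Agent.Helper649.BilTwoB

set_option autoImplicit false

namespace Pool.Agent.Helper649.Bil

open Complex

lemma Sys.B.finset_sum {Ω ι J : Type} [AddCommMonoid ι] {S : Sys Ω ι} {C : J → ℝ} {f : J → Ω → ℂ}
    (t : Finset J) (hf : ∀ j ∈ t, S.B (C j) (f j)) : S.B (∑ j ∈ t, C j) (fun p => ∑ j ∈ t, f j p) := by
  classical
  induction t using Finset.induction_on with
  | empty => simpa using Sys.B.zero S
  | insert j t hj ih =>
    have h1 := hf j (Finset.mem_insert_self j t)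
    have h2 := ih (fun k hk => hf k (Finset.mem_insert_of_mem hk))
    have := h1.add h2
    simp only [Finset.sum_insert hj]
    exact this

/-- the quotient of `(z^(a+1) - w^(a+1)) * (z^a - w^a)` by `(z - w)^2` -/
noncomputable def Gs (n : ℕ) (p : ℂ × ℂ) : ℂ := ∑ i ∈ Finset.range n, p.1 ^ i * p.2 ^ (n - 1 - i)

lemma Gs_mul (n : ℕ) (p : ℂ × ℂ) : (p.1 - p.2) * Gs n p = p.1 ^ n - p.2 ^ n := by
  unfold Gs
  have := (Commute.all p.1 p.2).geom_sum₂_mul n
  rw [mul_comm]; exact this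

lemma Gs_B {r : ℝ} (hr : 0 < r) (n : ℕ) : (S2 r).B (n * r ^ (n - 1)) (Gs n) := by
  have h := Sys.B.finset_sum (S := S2 r) (C := fun _ => r ^ (n - 1))
    (f := fun i p => p.1 ^ i * p.2 ^ (n - 1 - i)) (Finset.range n) (fun i hi => by
      have h1 := (B_fst hr).pow i
      have h2 := (B_snd hr).pow (n - 1 - i)
      have h3 := h1.mul h2
      have : r ^ i * r ^ (n - 1 - i) = r ^ (n - 1) := by
        rw [← pow_add]; congr 1
        have := Finset.mem_range.mp hi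
        omega
      rw [this] at h3; exact h3)
  rw [Finset.sum_const, Finset.card_range, nsmul_eq_mul] at h
  exact h

noncomputable def Tq (i : ℕ × ℕ) (p : ℂ × ℂ) : ℂ :=
  (p.1 * p.2) ^ (min i.1 i.2) * (Gs ((max i.1 i.2 - min i.1 i.2 - 1) / 2 + 1) p * Gs ((max i.1 i.2 - min i.1 i.2 - 1) / 2) p)

lemma odd_identity (i : ℕ × ℕ) (hi : ¬ Even (i.1 + i.2)) (p : ℂ × ℂ) :
    p.1 ^ i.1 * p.2 ^ i.2 + p.1 ^ i.2 * p.2 ^ i.1
      = (p.1 - p.2) ^ 2 * Tq i p + (p.1 + p.2) * (p.1 * p.2) ^ ((i.1 + i.2 - 1) / 2) := by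
  rcases i with ⟨m, n⟩
  simp only at hi ⊢
  unfold Tq
  simp only
  wlog h : n ≤ m generalizing m n with H
  · have := H n m (by rwa [add_comm]) (by omega)
    rw [add_comm n m, max_comm n m, min_comm n m] at this
    rw [← this]; ring
  rw [max_eq_left h, min_eq_right h]
  have hodd : (m + n) % 2 = 1 := by
    rw [Nat.even_iff] at hi; omega
  obtain ⟨a, ha⟩ : ∃ a, m = n + 2 * a + 1 := ⟨(m - n - 1) / 2, by omega⟩
  have e1 : (m - n - 1) / 2 = a := by omega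
  have e2 : (m + n - 1) / 2 = n + a := by omega
  rw [e1, e2, ha]
  have h1 := Gs_mul (a + 1) p
  have h2 := Gs_mul a p
  have : (p.1 - p.2) ^ 2 * ((p.1 * p.2) ^ n * (Gs (a + 1) p * Gs a p))
      = (p.1 * p.2) ^ n * (((p.1 - p.2) * Gs (a + 1) p) * ((p.1 - p.2) * Gs a p)) := by ring
  rw [this, h1, h2]
  ring

lemma decomp {r M s : ℝ} (hr : 0 < r) (hs0 : 0 < s) (hs1 : s < 1) {b : ℕ × ℕ → ℂ} {g : ℂ × ℂ → ℂ}
    (hg : (S2 r).BC M b g) (hsym : ∀ i : ℕ × ℕ, b i.swap = b i)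
    (hodd : ∀ i : ℕ × ℕ, Even (i.1 + i.2) → b i = 0) (hreal : ∀ i, starRingEnd ℂ (b i) = b i) :
    ∃ s0 γ : ℂ × ℂ → ℂ, (S2 (r * s ^ 2)).B (1 / (r * (1 - s)) ^ 2 * M) s0 ∧ (S2 r).B (1 / r * M) γ ∧
      (∀ p ∈ (S2 (r * s ^ 2)).D, g p = (p.1 - p.2) ^ 2 * s0 p + (1 / 2) * (p.1 + p.2) * γ p) ∧
      (∀ p q : ℂ × ℂ, p.1 * p.2 = q.1 * q.2 → γ p = γ q) ∧
      (∀ p, starRingEnd ℂ (γ (cj p)) = γ p) := by
  obtain ⟨g1, g2, g3⟩ := hg
  have h1s : 0 < 1 - s := by linarith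
  have hrs : 0 < r * s ^ 2 := by positivity
  have hrs2 : r * s ^ 2 ≤ r := by
    have : s ^ 2 ≤ 1 := pow_le_one₀ hs0.le hs1.le
    nlinarith
  -- the gamma part
  have hγB : ∀ i : ℕ × ℕ, (S2 r).B (1 / r * (‖b i‖ * (S2 r).W i)) (fun p => b i * (p.1 * p.2) ^ ((i.1 + i.2 - 1) / 2)) := by
    intro i
    by_cases hi : Even (i.1 + i.2)
    · rw [hodd i hi]
      simpa using Sys.B.zero (S2 r)
    · have h1 := (((B_fst hr).mul (B_snd hr)).pow ((i.1 + i.2 - 1) / 2)).const_mul (b i)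
      refine h1.mono ?_
      rw [W_S2 hr]
      have hodd' : (i.1 + i.2) % 2 = 1 := by
        rw [Nat.even_iff] at hi; omega
      obtain ⟨k, hk⟩ : ∃ k, i.1 + i.2 = 2 * k + 1 := ⟨(i.1 + i.2) / 2, by omega⟩
      have e : (i.1 + i.2 - 1) / 2 = k := by omega
      rw [e, hk]
      apply le_of_eq
      field_simp
      ring
  have hγs : Summable (fun i : ℕ × ℕ => 1 / r * (‖b i‖ * (S2 r).W i)) := g1.mul_left _
  have hγ := Sys.B.tsum hγB hγs
  -- the quotient part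
  have hsB : ∀ i : ℕ × ℕ, (S2 (r * s ^ 2)).B (1 / (r * (1 - s)) ^ 2 * (‖b i‖ * (S2 r).W i)) (fun p => (1 / 2 * b i) * Tq i p) := by
    intro i
    by_cases hi : Even (i.1 + i.2)
    · rw [hodd i hi]
      simpa using Sys.B.zero (S2 (r * s ^ 2))
    · have hodd' : (i.1 + i.2) % 2 = 1 := by
        rw [Nat.even_iff] at hi; omega
      obtain ⟨a, ha⟩ : ∃ a, max i.1 i.2 = min i.1 i.2 + 2 * a + 1 := ⟨(max i.1 i.2 - min i.1 i.2 - 1) / 2, by
        omega⟩
      have e1 : (max i.1 i.2 - min i.1 i.2 - 1) / 2 = a := by omega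
      have hN : i.1 + i.2 = 2 * min i.1 i.2 + 2 * a + 1 := by omega
      have h1 := (((B_fst hrs).mul (B_snd hrs)).pow (min i.1 i.2)).mul ((Gs_B hrs (a + 1)).mul (Gs_B hrs a))
      have h2 := h1.const_mul (1 / 2 * b i)
      have e2 : (fun p : ℂ × ℂ => (1 / 2 * b i) * Tq i p) = fun p => (1 / 2 * b i) * ((p.1 * p.2) ^ (min i.1 i.2) * (Gs (a + 1) p * Gs a p)) := by
        funext p; unfold Tq; rw [e1]
      rw [e2]
      refine h2.mono ?_
      rw [W_S2 hr, hN]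
      rcases Nat.eq_zero_or_pos a with ha0 | ha0
      · subst ha0; simp; positivity
      · have hn : ‖(1 / 2 * b i : ℂ)‖ = 1 / 2 * ‖b i‖ := by rw [norm_mul]; norm_num
        rw [hn]
        have h3 := sq_succ_mul_pow_le hs0.le hs1 (2 * min i.1 i.2 + 2 * a - 1) 0
        obtain ⟨c, rfl⟩ : ∃ c, a = c + 1 := ⟨a - 1, by omega⟩
        set mn := min i.1 i.2
        have e3 : 2 * mn + 2 * (c + 1) - 1 = 2 * mn + 2 * c + 1 := by omega
        rw [e3] at h3
        push_cast at h3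
        have h4 : ((c : ℝ) + 1 + 1) * ((c : ℝ) + 1) ≤ (2 * (mn : ℝ) + 2 * c + 1 + 0 + 1) ^ 2 := by
          have : (0 : ℝ) ≤ mn := Nat.cast_nonneg _
          have : (0 : ℝ) ≤ c := Nat.cast_nonneg _
          nlinarith
        have hs2 : (0 : ℝ) ≤ (s ^ 2) ^ (2 * mn + 2 * c + 1 + 0) := by positivity
        have h5 : (((c : ℝ) + 1 + 1) * ((c : ℝ) + 1)) * (s ^ 2) ^ (2 * mn + 2 * c + 1 + 0) ≤ 1 / (1 - s) ^ 2 :=
          (mul_le_mul_of_nonneg_right h4 hs2).trans h3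
        push_cast
        simp only [Nat.add_sub_cancel, add_zero] at h5 ⊢
        calc 1 / 2 * ‖b i‖ * ((r * s ^ 2 * (r * s ^ 2)) ^ mn * (((c : ℝ) + 1 + 1) * (r * s ^ 2) ^ (c + 1) * (((c : ℝ) + 1) * (r * s ^ 2) ^ c)))
            = 1 / 2 * ‖b i‖ * r ^ (2 * mn + 2 * c + 1) * ((((c : ℝ) + 1 + 1) * ((c : ℝ) + 1)) * (s ^ 2) ^ (2 * mn + 2 * c + 1)) := by
              ring
          _ ≤ 1 / 2 * ‖b i‖ * r ^ (2 * mn + 2 * c + 1) * (1 / (1 - s) ^ 2) := by gcongr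
          _ = 1 / 2 * (1 / (r * (1 - s)) ^ 2 * (‖b i‖ * r ^ (2 * mn + 2 * (c + 1) + 1))) := by
              field_simp; ring
          _ ≤ _ := by
              have : 0 ≤ (1 / (r * (1 - s)) ^ 2 * (‖b i‖ * r ^ (2 * mn + 2 * (c + 1) + 1))) := by positivity
              linarith
  have hss : Summable (fun i : ℕ × ℕ => 1 / (r * (1 - s)) ^ 2 * (‖b i‖ * (S2 r).W i)) := g1.mul_left _
  have hs := Sys.B.tsum hsB hss
  refine ⟨_, _, hs.mono ?_, hγ.mono ?_, ?_, ?_, ?_⟩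
  · rw [tsum_mul_left]; gcongr
  · rw [tsum_mul_left]; gcongr
  · intro p hp
    have hp' : p ∈ (S2 r).D := mem_mono hrs hrs2 hp
    have a1 := g3 p hp'
    have a2 := (BC_swap ⟨g1, g2, g3⟩).2.2 p hp'
    have a2' : HasSum (fun i : ℕ × ℕ => b i * (p.1 ^ i.2 * p.2 ^ i.1)) (g p) := by
      have := (Equiv.prodComm ℕ ℕ).hasSum_iff.mpr a1
      refine this.congr_fun (fun i => ?_)
      simp only [Function.comp, Equiv.prodComm_apply, chi_S2, Prod.fst_swap, Prod.snd_swap, hsym]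
    have a3 := (a1.add a2').mul_left (1 / 2 : ℂ)
    have b1 : Summable (fun i : ℕ × ℕ => (1 / 2 * b i) * Tq i p) := by
      apply Summable.of_norm
      exact Summable.of_nonneg_of_le (fun _ => norm_nonneg _) (fun i => (hsB i).norm_le hp) hss
    have b2 : Summable (fun i : ℕ × ℕ => b i * (p.1 * p.2) ^ ((i.1 + i.2 - 1) / 2)) := by
      apply Summable.of_norm
      exact Summable.of_nonneg_of_le (fun _ => norm_nonneg _) (fun i => (hγB i).norm_le hp') hγs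
    have b3 := (b1.hasSum.mul_left ((p.1 - p.2) ^ 2)).add (b2.hasSum.mul_left ((1 / 2) * (p.1 + p.2)))
    have e : (1 / 2 : ℂ) * (g p + g p) = g p := by ring
    rw [e] at a3
    refine a3.unique (b3.congr_fun (fun i => ?_))
    by_cases hi : Even (i.1 + i.2)
    · simp [hodd i hi]
    · have := odd_identity i hi p
      simp only [chi_S2]
      linear_combination (1 / 2 * b i) * this
  · intro p q hpq
    simp only [hpq]
  · intro p
    simp only [cj]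
    rw [Complex.conj_tsum]
    refine tsum_congr (fun i => ?_)
    rw [map_mul, map_pow, map_mul, Complex.conj_conj, Complex.conj_conj, hreal]

end Pool.Agent.Helper649.Bil
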