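import Pool.Agent.Helper649.BilQ
import Pool.Agent.Helper649.BilDec

set_option autoImplicit false

namespace Pool.Agent.Helper649.Bil

open Complex

/-- constants of the linear problem -/
structure Cst where
  ν : ℂ
  μ : ℝ
  q1 : ℝ
  T : ℝ
  Γ : ℝ
  hν : ‖ν‖ = 1
  hμ0 : 0 < μ
  hμ1 : μ ≤ 1
  hΓ : 0 ≤ Γ
  hdiv : ∀ k : ℤ, k ≠ 0 → 1 ≤ Γ * (k : ℝ) ^ 2 * ‖(ν ^ 2) ^ k - 1‖
  hq1 : (q1 : ℂ) * (ν + ν⁻¹) = 2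
  hT : (q1 : ℂ) * (ν - ν⁻¹) = 2 * I * T

namespace Cst

variable (C : Cst)

lemma ν0 : C.ν ≠ 0 := by
  intro h; have := C.hν; rw [h, norm_zero] at this; norm_num at this

lemma hν' : ‖C.ν⁻¹‖ = 1 := by rw [norm_inv, C.hν, inv_one]

lemma hω : ‖C.ν ^ 2‖ = 1 := by rw [norm_pow, C.hν, one_pow]

lemma hω' : ‖(C.ν ^ 2)⁻¹‖ = 1 := by rw [norm_inv, C.hω, inv_one]

lemma ω0 : C.ν ^ 2 ≠ 0 := pow_ne_zero _ C.ν0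

lemma conj_ν : starRingEnd ℂ C.ν = C.ν⁻¹ := (Complex.inv_eq_conj C.hν).symm

lemma conj_ω : starRingEnd ℂ (C.ν ^ 2) = (C.ν ^ 2)⁻¹ := (Complex.inv_eq_conj C.hω).symm

/-- the error of the invariance equation -/
noncomputable def Ef (l : ℕ → ℝ) (q : ℂ × ℂ → ℂ) (p : ℂ × ℂ) : ℂ :=
  Uf C.μ l (q p) (q (rot (C.ν ^ 2) p)) + Uf C.μ l (q p) (q (rot (C.ν ^ 2)⁻¹ p))

/-- the linearised operator -/
noncomputable def Jf (l : ℕ → ℝ) (q f : ℂ × ℂ → ℂ) (p : ℂ × ℂ) : ℂ :=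
  (S11f C.μ l (q p) (q (rot (C.ν ^ 2) p)) + S11f C.μ l (q p) (q (rot (C.ν ^ 2)⁻¹ p))) * f p
    + S12f C.μ l (q p) (q (rot (C.ν ^ 2) p)) * f (rot (C.ν ^ 2) p)
    + S12f C.μ l (q p) (q (rot (C.ν ^ 2)⁻¹ p)) * f (rot (C.ν ^ 2)⁻¹ p)

/-- the reduced action -/
noncomputable def Wh (l : ℕ → ℝ) (q : ℂ × ℂ → ℂ) (p : ℂ × ℂ) : ℂ :=
  Wf C.μ l (q (rot C.ν⁻¹ p)) (q (rot C.ν p))

/-- the reference value of the bracket -/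
noncomputable def g0 : ℂ := ((C.T : ℂ) ^ 2 + 1) / 2 * (C.q1 : ℂ) ^ 2 * ((C.ν ^ 2)⁻¹ - C.ν ^ 2)

lemma rot_vv (p : ℂ × ℂ) : rot C.ν (rot C.ν p) = rot (C.ν ^ 2) p := by rw [rot_rot, sq]
lemma rot_v'v' (p : ℂ × ℂ) : rot C.ν⁻¹ (rot C.ν⁻¹ p) = rot (C.ν ^ 2)⁻¹ p := by
  rw [rot_rot, sq, mul_inv]
lemma rot_v'v (p : ℂ × ℂ) : rot C.ν⁻¹ (rot C.ν p) = p := by
  rw [rot_rot, inv_mul_cancel₀ C.ν0, rot_one]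
lemma rot_vv' (p : ℂ × ℂ) : rot C.ν (rot C.ν⁻¹ p) = p := by
  rw [rot_rot, mul_inv_cancel₀ C.ν0, rot_one]
lemma rot_ww' (p : ℂ × ℂ) : rot (C.ν ^ 2) (rot (C.ν ^ 2)⁻¹ p) = p := by
  rw [rot_rot, mul_inv_cancel₀ C.ω0, rot_one]
lemma rot_w'w (p : ℂ × ℂ) : rot (C.ν ^ 2)⁻¹ (rot (C.ν ^ 2) p) = p := by
  rw [rot_rot, inv_mul_cancel₀ C.ω0, rot_one]

end Cst

lemma swap_rot (l : ℂ) (p : ℂ × ℂ) : (rot l p).swap = rot l⁻¹ p.swap := by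
  unfold rot; simp

lemma swap_rot' (l : ℂ) (p : ℂ × ℂ) : rot l p.swap = (rot l⁻¹ p).swap := by
  unfold rot; simp

lemma neg_rot (l : ℂ) (p : ℂ × ℂ) : rot l (-p) = -rot l p := by
  unfold rot; simp

lemma cj_rot {l : ℂ} (hl : ‖l‖ = 1) (p : ℂ × ℂ) : cj (rot l p) = rot l⁻¹ (cj p) := by
  have h := Complex.inv_eq_conj hl
  unfold rot cj
  simp only [map_mul, map_inv₀, ← h]

lemma rot_cj {l : ℂ} (hl : ‖l‖ = 1) (p : ℂ × ℂ) : rot l (cj p) = cj (rot l⁻¹ p) := by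
  rw [cj_rot (by rw [norm_inv, hl, inv_one]), inv_inv]

lemma cj_cj (p : ℂ × ℂ) : cj (cj p) = p := by unfold cj; simp

lemma cj_swap (p : ℂ × ℂ) : cj p.swap = (cj p).swap := rfl

lemma cj_neg (p : ℂ × ℂ) : cj (-p) = -cj p := by unfold cj; ext <;> simp

/-- state of the iteration -/
structure St (C : Cst) (ML r κ ε : ℝ) (q qz qw st : ℂ × ℂ → ℂ) (l : ℕ → ℝ) : Prop where
  dz : ∀ p : ℂ × ℂ, ‖p.1‖ < r → ‖p.2‖ < r → HasDerivAt (fun z => q (z, p.2)) (qz p) p.1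
  dw : ∀ p : ℂ × ℂ, ‖p.1‖ < r → ‖p.2‖ < r → HasDerivAt (fun w => q (p.1, w)) (qw p) p.2
  sym : ∀ p ∈ (S2 r).D, q p.swap = q p
  odd : ∀ p ∈ (S2 r).D, q (-p) = -q p
  real : ∀ p ∈ (S2 r).D, starRingEnd ℂ (q (cj p)) = q p
  sreal : ∀ p ∈ (S2 r).D, starRingEnd ℂ (st (cj p)) = st p
  xrel : ∀ p ∈ (S2 r).D, (q (rot C.ν p) + q (rot C.ν⁻¹ p)) / 2 = (p.1 + p.2) + (p.1 - p.2) ^ 2 * st p
  bq : (S2 r).B κ (fun p => q p - C.q1 * (p.1 + p.2))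
  bqz : (S2 r).B κ (fun p => qz p - C.q1)
  bqw : (S2 r).B κ (fun p => qw p - C.q1)
  bs : (S2 r).B κ st
  bl : NL r (ML + κ) l
  b12 : (S2 r).B κ (fun p => S12f C.μ l (q p) (q (rot (C.ν ^ 2) p)) - ((C.T : ℂ) ^ 2 + 1) / 2)
  avg : ∃ a K, (S2 r).BC K a (C.Wh l q) ∧ ∀ m : ℕ, a (m, m) = 0
  bE : (S2 r).B ε (C.Ef l q)

/-- the largeness conditions -/
structure Big (C : Cst) (ML r κ ε Λ s : ℝ) : Prop where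
  hΛ : 400 ≤ Λ
  hs0 : 0 < s
  hs1 : s < 1
  hsΛ : 1 / (1 - s) ≤ Λ
  hr2 : r ≤ 2
  hr1 : 1 ≤ r * s ^ 8
  hML : ML + 1 ≤ Λ
  hML0 : 0 ≤ ML
  hq1 : 4 * |C.q1| + 1 ≤ Λ
  hT : 4 * |C.T| + 2 ≤ Λ
  hTc : Real.cosh (4 * |C.T| + 2) ≤ Λ
  hΓ : C.Γ ≤ Λ
  hg : 2 / ‖C.g0‖ ≤ Λ
  hg0 : C.g0 ≠ 0
  hκ : κ ≤ 1 / 400
  hκg : (2 * (C.T ^ 2 + 1 + |C.q1| + 1) * (|C.q1| + 1) ^ 2 * 2) * κ ≤ ‖C.g0‖ / 2
  hμ8 : C.μ ^ 2 * Real.cosh (4 * |C.T| + 2) ≤ 1 / 8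
  hε0 : 0 ≤ ε
  hε : Λ ^ 44 * ε ≤ 1

namespace Big

variable {C : Cst} {ML r κ ε Λ s : ℝ}

lemma Λ0 (h : Big C ML r κ ε Λ s) : 0 < Λ := by have := h.hΛ; linarith
lemma Λ1 (h : Big C ML r κ ε Λ s) : 1 ≤ Λ := by have := h.hΛ; linarith
lemma Λ2 (h : Big C ML r κ ε Λ s) : 2 ≤ Λ := by have := h.hΛ; linarith

lemma sk (h : Big C ML r κ ε Λ s) {a b : ℕ} (hab : a ≤ b) : s ^ b ≤ s ^ a :=
  pow_le_pow_of_le_one h.hs0.le h.hs1.le hab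

lemma r0 (h : Big C ML r κ ε Λ s) : 0 < r := by
  have h1 := h.hr1
  by_contra hc
  push Not at hc
  have : 0 < s ^ 8 := pow_pos h.hs0 8
  nlinarith

lemma rk (h : Big C ML r κ ε Λ s) {a b : ℕ} (hab : a ≤ b) : r * s ^ b ≤ r * s ^ a :=
  mul_le_mul_of_nonneg_left (h.sk hab) h.r0.le

lemma rpos (h : Big C ML r κ ε Λ s) (a : ℕ) : 0 < r * s ^ a := mul_pos h.r0 (pow_pos h.hs0 a)

lemma rle (h : Big C ML r κ ε Λ s) (a : ℕ) : r * s ^ a ≤ r := by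
  have := h.rk (Nat.zero_le a); simpa using this

lemma rk1 (h : Big C ML r κ ε Λ s) {a : ℕ} (ha : a ≤ 8) : 1 ≤ r * s ^ a := h.hr1.trans (h.rk ha)

lemma r1 (h : Big C ML r κ ε Λ s) : 1 ≤ r := by have := h.rk1 (Nat.zero_le 8); simpa using this

lemma rk2 (h : Big C ML r κ ε Λ s) (a : ℕ) : r * s ^ a ≤ 2 := (h.rle a).trans h.hr2

lemma rlt (h : Big C ML r κ ε Λ s) {a b : ℕ} (hab : a < b) : r * s ^ b < r * s ^ a := by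
  have h1 : s ^ b < s ^ a := pow_lt_pow_right_of_lt_one₀ h.hs0 h.hs1 hab
  exact mul_lt_mul_of_pos_left h1 h.r0

end Big

/-- the square of the argument is in the disc of radius `4 ρ ^ 2`. -/
lemma xsq_lt {ρ : ℝ} {z w s : ℂ} (hz : ‖z‖ < ρ) (hw : ‖w‖ < ρ) (hs : ‖s‖ ≤ 1 / 200) (hρ : ρ ≤ 2) :
    ‖((z + w) + (z - w) ^ 2 * s) ^ 2‖ < 4 * ρ ^ 2 := by
  have e : ((z + w) + (z - w) ^ 2 * s) ^ 2 = (z + w) ^ 2 + (z - w) ^ 2 * (2 * (z + w) * s + (z - w) ^ 2 * s ^ 2) := by ring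
  have hρ0 : 0 < ρ := lt_of_le_of_lt (norm_nonneg _) hz
  have h1 : ‖z + w‖ ≤ 4 := (norm_add_le _ _).trans (by linarith)
  have h2 : ‖z - w‖ ≤ 4 := (norm_sub_le _ _).trans (by linarith)
  have h3 : ‖2 * (z + w) * s + (z - w) ^ 2 * s ^ 2‖ ≤ 1 := by
    refine (norm_add_le _ _).trans ?_
    rw [norm_mul, norm_mul, norm_mul, norm_pow, norm_pow]
    have n2 : ‖(2 : ℂ)‖ = 2 := by norm_num
    rw [n2]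
    have h4 : 2 * ‖z + w‖ * ‖s‖ ≤ 2 * 4 * (1 / 200) := by gcongr
    have h5 : ‖z - w‖ ^ 2 * ‖s‖ ^ 2 ≤ 4 ^ 2 * (1 / 200) ^ 2 := by gcongr
    linarith
  have h6 : ‖z + w‖ ^ 2 + ‖z - w‖ ^ 2 = 2 * (‖z‖ ^ 2 + ‖w‖ ^ 2) := by
    have := parallelogram_law_with_norm ℝ z w
    nlinarith
  rw [e]
  calc ‖(z + w) ^ 2 + (z - w) ^ 2 * (2 * (z + w) * s + (z - w) ^ 2 * s ^ 2)‖
      ≤ ‖z + w‖ ^ 2 + ‖z - w‖ ^ 2 * 1 := by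
        refine (norm_add_le _ _).trans ?_
        rw [norm_mul, norm_pow, norm_pow]
        gcongr
    _ = 2 * (‖z‖ ^ 2 + ‖w‖ ^ 2) := by rw [mul_one, h6]
    _ < 4 * ρ ^ 2 := by
        have h7 : ‖z‖ ^ 2 < ρ ^ 2 := pow_lt_pow_left₀ hz (norm_nonneg _) (by norm_num)
        have h8 : ‖w‖ ^ 2 < ρ ^ 2 := pow_lt_pow_left₀ hw (norm_nonneg _) (by norm_num)
        linarith

end Pool.Agent.Helper649.Bil
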