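import Mathlib

set_option autoImplicit false

namespace Pool.Agent.Helper649.Bil

lemma swap_tsum (f : ℕ → ℕ → ℝ) (h : Summable (fun x : ℕ × ℕ => f x.1 x.2)) :
    ∑' a, ∑' b, f a b = ∑' b, ∑' a, f a b := by
  have h' : Summable (Function.uncurry f) := h
  exact (h'.tsum_comm).symm

/-- one application of a matrix with small column sums -/
lemma mat_apply (M : ℕ → ℕ → ℝ) (hM : ∀ j, Summable (fun m => |M m j|)) (hM2 : ∀ j, ∑' m, |M m j| ≤ 1 / 2)
    (u : ℕ → ℝ) (hu : Summable fun m => |u m|) :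
    (∀ m, Summable (fun j => M m j * u j)) ∧ Summable (fun m => |∑' j, M m j * u j|) ∧
      ∑' m, |∑' j, M m j * u j| ≤ (1 / 2) * ∑' m, |u m| := by
  have h0 : ∀ x : ℕ × ℕ, 0 ≤ |M x.2 x.1| * |u x.1| := fun x => by positivity
  have e1 : ∀ j, ∑' m, |M m j| * |u j| = (∑' m, |M m j|) * |u j| := fun j => tsum_mul_right
  have hle1 : ∀ j, ∑' m, |M m j| * |u j| ≤ (1 / 2) * |u j| := fun j => by
    rw [e1]; have := hM2 j; gcongr
  have hF : Summable (fun x : ℕ × ℕ => |M x.2 x.1| * |u x.1|) := by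
    rw [summable_prod_of_nonneg h0]
    refine ⟨fun j => (hM j).mul_right |u j|, ?_⟩
    exact Summable.of_nonneg_of_le (fun j => tsum_nonneg fun m => h0 (j, m)) hle1 (hu.mul_left _)
  have hF' : Summable (fun x : ℕ × ℕ => |M x.1 x.2| * |u x.2|) := by
    have := (Equiv.prodComm ℕ ℕ).summable_iff.mpr hF
    exact this
  have hrow : ∀ m, Summable (fun j => |M m j * u j|) := fun m => by
    refine (hF'.prod_factor m).congr (fun j => ?_)
    rw [abs_mul]
  have hle2 : ∀ m, |∑' j, M m j * u j| ≤ ∑' j, |M m j| * |u j| := fun m => by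
    have h := norm_tsum_le_tsum_norm (f := fun j => M m j * u j) (by simpa [Real.norm_eq_abs] using hrow m)
    simpa [Real.norm_eq_abs, abs_mul] using h
  have hs2 : Summable (fun m => ∑' j, |M m j| * |u j|) := hF'.prod
  have hs : Summable (fun m => |∑' j, M m j * u j|) :=
    Summable.of_nonneg_of_le (fun m => abs_nonneg _) hle2 hs2
  refine ⟨fun m => (hrow m).of_abs, hs, ?_⟩
  calc ∑' m, |∑' j, M m j * u j| ≤ ∑' m, ∑' j, |M m j| * |u j| := hs.tsum_le_tsum hle2 hs2
    _ = ∑' j, ∑' m, |M m j| * |u j| := swap_tsum (fun m j => |M m j| * |u j|) hF'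
    _ ≤ ∑' j, (1 / 2) * |u j| := (hF.prod).tsum_le_tsum hle1 (hu.mul_left _)
    _ = (1 / 2) * ∑' j, |u j| := tsum_mul_left

/-- Neumann series for infinite matrices acting on absolutely summable sequences -/
lemma neumann (M : ℕ → ℕ → ℝ) (hM : ∀ j, Summable (fun m => |M m j|)) (hM2 : ∀ j, ∑' m, |M m j| ≤ 1 / 2)
    (g : ℕ → ℝ) (hg : Summable fun m => |g m|) :
    ∃ k : ℕ → ℝ, Summable (fun m => |k m|) ∧ ∑' m, |k m| ≤ 2 * ∑' m, |g m| ∧
      ∀ m, Summable (fun j => M m j * k j) ∧ k m + ∑' j, M m j * k j = g m := by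
  set G := ∑' m, |g m| with hG
  have hG0 : 0 ≤ G := tsum_nonneg fun m => abs_nonneg _
  let u : ℕ → ℕ → ℝ := fun n => Nat.rec g (fun _ v m => -∑' j, M m j * v j) n
  have hu0 : u 0 = g := rfl
  have hus : ∀ n m, u (n + 1) m = -∑' j, M m j * u n j := fun n m => rfl
  have hub : ∀ n, Summable (fun m => |u n m|) ∧ ∑' m, |u n m| ≤ (1 / 2) ^ n * G := by
    intro n
    induction n with
    | zero => rw [hu0]; exact ⟨hg, by simp [hG]⟩
    | succ n ih =>
      obtain ⟨h1, h2, h3⟩ := mat_apply M hM hM2 (u n) ih.1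
      have e : ∀ m, |u (n + 1) m| = |∑' j, M m j * u n j| := fun m => by rw [hus, abs_neg]
      refine ⟨h2.congr (fun m => (e m).symm), ?_⟩
      rw [tsum_congr e]
      refine h3.trans ?_
      have := ih.2
      calc (1 / 2) * ∑' m, |u n m| ≤ (1 / 2) * ((1 / 2) ^ n * G) := by gcongr
        _ = _ := by ring
  have h0 : ∀ x : ℕ × ℕ, 0 ≤ |u x.1 x.2| := fun x => abs_nonneg _
  have hgeo : Summable (fun n : ℕ => (1 / 2 : ℝ) ^ n * G) :=
    (summable_geometric_of_lt_one (by norm_num) (by norm_num)).mul_right G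
  have hU : Summable (fun x : ℕ × ℕ => |u x.1 x.2|) := by
    rw [summable_prod_of_nonneg h0]
    refine ⟨fun n => (hub n).1, ?_⟩
    exact Summable.of_nonneg_of_le (fun n => tsum_nonneg fun m => h0 (n, m)) (fun n => (hub n).2) hgeo
  have hU' : Summable (fun x : ℕ × ℕ => |u x.2 x.1|) := (Equiv.prodComm ℕ ℕ).summable_iff.mpr hU
  have hcol : ∀ m, Summable (fun n => |u n m|) := fun m => hU'.prod_factor m
  have hkle : ∀ m, |∑' n, u n m| ≤ ∑' n, |u n m| := fun m => by
    have h := norm_tsum_le_tsum_norm (f := fun n => u n m) (by simpa [Real.norm_eq_abs] using hcol m)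
    simpa [Real.norm_eq_abs] using h
  have hks : Summable (fun m => |∑' n, u n m|) :=
    Summable.of_nonneg_of_le (fun m => abs_nonneg _) hkle hU'.prod
  refine ⟨fun m => ∑' n, u n m, hks, ?_, fun m => ?_⟩
  · calc ∑' m, |∑' n, u n m| ≤ ∑' m, ∑' n, |u n m| := hks.tsum_le_tsum hkle hU'.prod
      _ = ∑' n, ∑' m, |u n m| := swap_tsum (fun m n => |u n m|) hU'
      _ ≤ ∑' n, (1 / 2 : ℝ) ^ n * G := (hU.prod).tsum_le_tsum (fun n => (hub n).2) hgeo
      _ = 2 * G := by
          rw [tsum_mul_right, tsum_geometric_of_lt_one (by norm_num) (by norm_num)]; norm_num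
  · obtain ⟨h1, _, _⟩ := mat_apply M hM hM2 _ hks
    refine ⟨h1 m, ?_⟩
    have hMle : ∀ j, |M m j| ≤ 1 / 2 := fun j => by
      refine le_trans ?_ (hM2 j)
      exact (hM j).le_tsum m (fun i _ => abs_nonneg _)
    have hP : Summable (fun x : ℕ × ℕ => M m x.1 * u x.2 x.1) := by
      apply Summable.of_abs
      refine Summable.of_nonneg_of_le (fun x => abs_nonneg _) (fun x => ?_) (hU'.mul_left (1 / 2))
      rw [abs_mul]
      have := hMle x.1
      gcongr
    have e1 : ∑' j, M m j * ∑' n, u n j = ∑' j, ∑' n, M m j * u n j := by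
      refine tsum_congr (fun j => ?_)
      rw [tsum_mul_left]
    have e2 : ∑' j, ∑' n, M m j * u n j = ∑' n, ∑' j, M m j * u n j :=
      swap_tsum (fun j n => M m j * u n j) hP
    have e3 : ∑' n, ∑' j, M m j * u n j = ∑' n, (-u (n + 1) m) := by
      refine tsum_congr (fun n => ?_)
      rw [hus, neg_neg]
    have e4 : ∑' n, u n m = u 0 m + ∑' n, u (n + 1) m := (hcol m).of_abs.tsum_eq_zero_add
    show ∑' n, u n m + ∑' j, M m j * ∑' n, u n j = g m
    rw [e1, e2, e3, tsum_neg, e4, hu0]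
    ring

end Pool.Agent.Helper649.Bil
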