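import Pool.Agent.Helper649.BilPow
import Pool.Agent.Helper649.BilNeu

set_option autoImplicit false

namespace Pool.Agent.Helper649.Bil

open Complex

lemma Sys.BC.tsum {Ω ι : Type} [AddCommMonoid ι] {S : Sys Ω ι} {C : ℕ → ℝ} {a : ℕ → ι → ℂ} {f : ℕ → Ω → ℂ}
    (hf : ∀ j, S.BC (C j) (a j) (f j)) (hC : Summable C) :
    (∀ i, Summable (fun j => ‖a j i‖)) ∧
    S.BC (∑' j, C j) (fun i => ∑' j, a j i) (fun p => ∑' j, f j p) := by
  have h0 : ∀ x : ℕ × ι, 0 ≤ ‖a x.1 x.2‖ * S.W x.2 := fun x =>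
    mul_nonneg (norm_nonneg _) (S.W_pos _).le
  have hs : Summable (fun x : ℕ × ι => ‖a x.1 x.2‖ * S.W x.2) := by
    rw [summable_prod_of_nonneg h0]
    refine ⟨fun j => (hf j).1, ?_⟩
    exact Summable.of_nonneg_of_le (fun j => tsum_nonneg fun i => h0 (j, i)) (fun j => (hf j).2.1) hC
  have hs' : Summable (fun x : ι × ℕ => ‖a x.2 x.1‖ * S.W x.1) := (Equiv.prodComm ι ℕ).summable_iff.mpr hs
  have hrow : ∀ i, Summable (fun j => ‖a j i‖ * S.W i) := fun i => hs'.prod_factor i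
  have hrow' : ∀ i, Summable (fun j => ‖a j i‖) := fun i => by
    refine ((hrow i).mul_right (S.W i)⁻¹).congr (fun j => ?_)
    rw [mul_assoc, mul_inv_cancel₀ (S.W_pos i).ne', mul_one]
  have hle : ∀ i, ‖∑' j, a j i‖ * S.W i ≤ ∑' j, ‖a j i‖ * S.W i := fun i => by
    rw [tsum_mul_right]
    exact mul_le_mul_of_nonneg_right (norm_tsum_le_tsum_norm (hrow' i)) (S.W_pos i).le
  have hsum : Summable (fun i => ‖∑' j, a j i‖ * S.W i) :=
    Summable.of_nonneg_of_le (fun i => mul_nonneg (norm_nonneg _) (S.W_pos i).le) hle hs'.prod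
  refine ⟨hrow', hsum, ?_, fun p hp => ?_⟩
  · refine (hsum.tsum_le_tsum hle hs'.prod).trans ?_
    have e1 : ∑' i, ∑' j, ‖a j i‖ * S.W i = ∑' x : ι × ℕ, ‖a x.2 x.1‖ * S.W x.1 := (hs'.tsum_prod).symm
    have e2 : ∑' x : ι × ℕ, ‖a x.2 x.1‖ * S.W x.1 = ∑' x : ℕ × ι, ‖a x.1 x.2‖ * S.W x.2 :=
      (Equiv.prodComm ι ℕ).tsum_eq (fun x : ℕ × ι => ‖a x.1 x.2‖ * S.W x.2)
    rw [e1, e2, hs.tsum_prod]
    exact Summable.tsum_le_tsum (fun j => (hf j).2.1) hs.prod hC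
  · have hsp : Summable (fun x : ℕ × ι => a x.1 x.2 * S.χ p x.2) := by
      apply Summable.of_norm
      refine Summable.of_nonneg_of_le (fun x => norm_nonneg _) (fun x => ?_) hs
      rw [norm_mul]; exact mul_le_mul_of_nonneg_left (S.norm_le p hp _) (norm_nonneg _)
    have h1 := hsp.hasSum
    have h2 : ∑' x : ℕ × ι, a x.1 x.2 * S.χ p x.2 = ∑' j, f j p := by
      rw [hsp.tsum_prod]
      exact tsum_congr (fun j => ((hf j).2.2 p hp).tsum_eq)
    rw [h2] at h1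
    have h3 : HasSum (fun x : ι × ℕ => a x.2 x.1 * S.χ p x.1) (∑' j, f j p) :=
      (Equiv.prodComm ι ℕ).hasSum_iff.mpr h1
    refine h3.prod_fiberwise (fun i => ?_)
    have h4 := (hrow' i).of_norm.hasSum.mul_right (S.χ p i)
    exact h4

/-- weight of the diagonal -/
noncomputable def dgw (i : ℕ × ℕ) : ℝ := if i.1 = i.2 then 1 else 0

lemma dgw_nonneg (i : ℕ × ℕ) : 0 ≤ dgw i := by unfold dgw; split_ifs <;> norm_num
lemma dgw_le (i : ℕ × ℕ) : dgw i ≤ 1 := by unfold dgw; split_ifs <;> norm_num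

/-- diagonal bound -/
def DB (r M : ℝ) (f : ℂ × ℂ → ℂ) : Prop :=
  ∃ a K, (S2 r).BC K a f ∧ ∑' i, dgw i * (‖a i‖ * (S2 r).W i) ≤ M

lemma dg_summable {r K : ℝ} {a : ℕ × ℕ → ℂ} {f : ℂ × ℂ → ℂ} (h : (S2 r).BC K a f) :
    Summable (fun i => dgw i * (‖a i‖ * (S2 r).W i)) := by
  have h0 : ∀ i, 0 ≤ ‖a i‖ * (S2 r).W i := fun i => mul_nonneg (norm_nonneg _) ((S2 r).W_pos i).le
  refine Summable.of_nonneg_of_le (fun i => mul_nonneg (dgw_nonneg i) (h0 i)) (fun i => ?_) h.1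
  have := dgw_le i
  have := h0 i
  nlinarith

lemma DB.mono {r M N : ℝ} {f : ℂ × ℂ → ℂ} (h : DB r M f) (hM : M ≤ N) : DB r N f := by
  obtain ⟨a, K, h1, h2⟩ := h; exact ⟨a, K, h1, h2.trans hM⟩

lemma DB.congr {r M : ℝ} {f g : ℂ × ℂ → ℂ} (h : DB r M f) (hfg : ∀ p ∈ (S2 r).D, f p = g p) : DB r M g := by
  obtain ⟨a, K, h1, h2⟩ := h; exact ⟨a, K, h1.congr hfg, h2⟩

lemma DB.of_B {r M : ℝ} {f : ℂ × ℂ → ℂ} (h : (S2 r).B M f) : DB r M f := by
  obtain ⟨a, ha⟩ := h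
  have h0 : ∀ i, 0 ≤ ‖a i‖ * (S2 r).W i := fun i => mul_nonneg (norm_nonneg _) ((S2 r).W_pos i).le
  refine ⟨a, M, ha, ((dg_summable ha).tsum_le_tsum (fun i => ?_) ha.1).trans ha.2.1⟩
  have := dgw_le i
  have := h0 i
  nlinarith

lemma DB.add {r M N : ℝ} {f g : ℂ × ℂ → ℂ} (hf : DB r M f) (hg : DB r N g) :
    DB r (M + N) (fun p => f p + g p) := by
  obtain ⟨a, K, h1, h2⟩ := hf
  obtain ⟨b, L, h3, h4⟩ := hg
  refine ⟨_, _, h1.add h3, ?_⟩
  have s1 := dg_summable h1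
  have s2 := dg_summable h3
  have s3 := dg_summable (h1.add h3)
  refine (s3.tsum_le_tsum (fun i => ?_) (s1.add s2)).trans ?_
  · have h5 : ‖a i + b i‖ * (S2 r).W i ≤ ‖a i‖ * (S2 r).W i + ‖b i‖ * (S2 r).W i := by
      rw [← add_mul]
      exact mul_le_mul_of_nonneg_right (norm_add_le _ _) ((S2 r).W_pos i).le
    have := mul_le_mul_of_nonneg_left h5 (dgw_nonneg i)
    linarith
  · rw [s1.tsum_add s2]; linarith

lemma DB.const_mul {r M : ℝ} {f : ℂ × ℂ → ℂ} (c : ℂ) (hf : DB r M f) :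
    DB r (‖c‖ * M) (fun p => c * f p) := by
  obtain ⟨a, K, h1, h2⟩ := hf
  refine ⟨_, _, h1.const_mul c, ?_⟩
  have e : (fun i => dgw i * (‖c * a i‖ * (S2 r).W i)) = fun i => ‖c‖ * (dgw i * (‖a i‖ * (S2 r).W i)) := by
    funext i; rw [norm_mul]; ring
  rw [e, tsum_mul_left]
  exact mul_le_mul_of_nonneg_left h2 (norm_nonneg _)

lemma DB.finset_sum {r : ℝ} {J : Type} {C : J → ℝ} {f : J → ℂ × ℂ → ℂ}
    (t : Finset J) (hf : ∀ j ∈ t, DB r (C j) (f j)) : DB r (∑ j ∈ t, C j) (fun p => ∑ j ∈ t, f j p) := by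
  classical
  induction t using Finset.induction_on with
  | empty => simpa using DB.of_B (Sys.B.zero (S2 r))
  | insert j t hj ih =>
    have h1 := hf j (Finset.mem_insert_self j t)
    have h2 := ih (fun k hk => hf k (Finset.mem_insert_of_mem hk))
    have := h1.add h2
    simp only [Finset.sum_insert hj]
    exact this

/-- the diagonal of a product with a homogeneous polynomial -/
lemma DB_poly {r K c : ℝ} (hr : 0 < r) {f : ℂ × ℂ → ℂ} (hf : (S2 r).B K f) (a b : ℕ)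
    (hc : ∀ p, |(Pq (2 * a) (2 * b)).coeff p| ≤ c) :
    DB r (c * K * r ^ (2 * (a + b))) (fun x => (x.1 + x.2) ^ (2 * a) * (x.1 - x.2) ^ (2 * b) * f x) := by
  obtain ⟨u, hu⟩ := hf
  obtain ⟨u1, u2, u3⟩ := hu
  have hc0 : 0 ≤ c := (abs_nonneg _).trans (hc 0)
  set N := 2 * a + 2 * b with hN
  have hN2 : 2 * (a + b) = N := by omega
  set q : ℕ → ℝ := fun p => (Pq (2 * a) (2 * b)).coeff p with hq
  have hqbig : ∀ p, N < p → q p = 0 := fun p hp => Pq_big hp
  have huW : ∀ i : ℕ × ℕ, ‖u i‖ * (S2 r).W i = ‖u i‖ * r ^ (i.1 + i.2) := fun i => by rw [W_S2 hr]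
  let cc : (ℕ × ℕ) × ℕ → ℂ := fun x => (q x.2 : ℂ) * u x.1
  let ee : (ℕ × ℕ) × ℕ → ℕ × ℕ := fun x => (x.2 + x.1.1, (N - x.2) + x.1.2)
  have hW : ∀ x : (ℕ × ℕ) × ℕ, ‖cc x‖ * (S2 r).W (ee x) = (‖u x.1‖ * (S2 r).W x.1) * (|q x.2| * r ^ N) := by
    intro x
    rw [W_S2 hr, W_S2 hr]
    simp only [cc, ee]
    rw [norm_mul, Complex.norm_real, Real.norm_eq_abs]
    by_cases hx : N < x.2
    · rw [hqbig _ hx]; simp
    · have : x.2 + x.1.1 + (N - x.2 + x.1.2) = N + (x.1.1 + x.1.2) := by omega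
      rw [this, pow_add]; ring
  have hqs : Summable (fun p => |q p| * r ^ N) := by
    have hh : HasSum (fun p : ℕ => |q p| * r ^ N) (∑ p ∈ Finset.range (N + 1), |q p| * r ^ N) :=
      hasSum_sum_of_ne_finset_zero (f := fun p : ℕ => |q p| * r ^ N) (s := Finset.range (N + 1)) (by
        intro p hp
        rw [Finset.mem_range, not_lt] at hp
        rw [hqbig p (by omega)]; simp)
    exact hh.summable
  have hprod : Summable (fun x : (ℕ × ℕ) × ℕ => (‖u x.1‖ * (S2 r).W x.1) * (|q x.2| * r ^ N)) :=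
    u1.mul_of_nonneg hqs (fun i => mul_nonneg (norm_nonneg _) ((S2 r).W_pos i).le) (fun p => by positivity)
  have hs : Summable (fun x => ‖cc x‖ * (S2 r).W (ee x)) := by
    refine hprod.congr (fun x => ?_); rw [hW]
  have hsum : ∀ p ∈ (S2 r).D, HasSum (fun x => cc x * (S2 r).χ p (ee x))
      ((p.1 + p.2) ^ (2 * a) * (p.1 - p.2) ^ (2 * b) * f p) := by
    intro p hp
    have h1 := u3 p hp
    have h2 : HasSum (fun k : ℕ => (q k : ℂ) * (p.1 ^ k * p.2 ^ (N - k))) ((p.1 + p.2) ^ (2 * a) * (p.1 - p.2) ^ (2 * b)) := by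
      rw [homog]
      exact hasSum_sum_of_ne_finset_zero (f := fun k : ℕ => (q k : ℂ) * (p.1 ^ k * p.2 ^ (N - k))) (s := Finset.range (N + 1)) (by
        intro k hk
        rw [Finset.mem_range, not_lt] at hk
        rw [hqbig k (by omega)]; simp)
    have hss : Summable (fun x : (ℕ × ℕ) × ℕ => (u x.1 * (S2 r).χ p x.1) * ((q x.2 : ℂ) * (p.1 ^ x.2 * p.2 ^ (N - x.2)))) := by
      apply Summable.of_norm
      refine Summable.of_nonneg_of_le (fun x => norm_nonneg _) (fun x => ?_) hprod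
      rw [norm_mul, norm_mul, norm_mul, norm_mul, norm_pow, norm_pow, Complex.norm_real, Real.norm_eq_abs]
      have h3 := (S2 r).norm_le p hp x.1
      rw [mem_S2 hr] at hp
      have hWp := ((S2 r).W_pos x.1).le
      by_cases hx : N < x.2
      · rw [hqbig _ hx]; simp
      · have h4 : ‖p.1‖ ^ x.2 * ‖p.2‖ ^ (N - x.2) ≤ r ^ N := by
          have h5 := pow_le_pow_left₀ (norm_nonneg _) hp.1 x.2
          have h6 := pow_le_pow_left₀ (norm_nonneg _) hp.2 (N - x.2)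
          calc ‖p.1‖ ^ x.2 * ‖p.2‖ ^ (N - x.2) ≤ r ^ x.2 * r ^ (N - x.2) := by gcongr
            _ = r ^ N := by rw [← pow_add]; congr 1; omega
        gcongr
    have h3 := HasSum.mul h1 h2 hss
    have e : f p * ((p.1 + p.2) ^ (2 * a) * (p.1 - p.2) ^ (2 * b)) = (p.1 + p.2) ^ (2 * a) * (p.1 - p.2) ^ (2 * b) * f p := by ring
    rw [e] at h3
    refine h3.congr_fun (fun x => ?_)
    simp only [cc, ee, chi_S2, pow_add]; ring
  have hBC := Sys.BC_of_family (S := S2 r) hs le_rfl hsum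
  have hgs : Summable (fun x => dgw (ee x) * (‖cc x‖ * (S2 r).W (ee x))) := by
    have h0 : ∀ x, 0 ≤ ‖cc x‖ * (S2 r).W (ee x) := fun x => mul_nonneg (norm_nonneg _) ((S2 r).W_pos _).le
    refine Summable.of_nonneg_of_le (fun x => mul_nonneg (dgw_nonneg _) (h0 x)) (fun x => ?_) hs
    have := dgw_le (ee x)
    have := h0 x
    nlinarith
  have hw := Sys.fam_weight (S := S2 r) hs dgw_nonneg hgs
  refine ⟨_, _, hBC, hw.2.trans ?_⟩
  rw [hgs.tsum_prod]
  have hinner : ∀ i : ℕ × ℕ, ∑' k : ℕ, dgw (ee (i, k)) * (‖cc (i, k)‖ * (S2 r).W (ee (i, k)))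
      ≤ (c * r ^ N) * (‖u i‖ * (S2 r).W i) := by
    intro i
    have hWi : 0 ≤ ‖u i‖ * (S2 r).W i := mul_nonneg (norm_nonneg _) ((S2 r).W_pos i).le
    by_cases hex : ∃ k, k ≤ N ∧ k + i.1 = N - k + i.2
    · obtain ⟨k, hk1, hk2⟩ := hex
      rw [tsum_eq_single k]
      · rw [hW]
        have h1 := dgw_le (ee (i, k))
        have h2 := hc k
        have h3 := dgw_nonneg (ee (i, k))
        calc dgw (ee (i, k)) * ((‖u i‖ * (S2 r).W i) * (|q k| * r ^ N))
            ≤ 1 * ((‖u i‖ * (S2 r).W i) * (c * r ^ N)) := by gcongr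
          _ = _ := by ring
      · intro k' hk'
        by_cases hb : N < k'
        · simp only [cc]; rw [hqbig _ hb]; simp
        · have : dgw (ee (i, k')) = 0 := by
            unfold dgw; rw [if_neg]
            simp only [ee]
            omega
          rw [this, zero_mul]
    · have : ∀ k : ℕ, dgw (ee (i, k)) * (‖cc (i, k)‖ * (S2 r).W (ee (i, k))) = 0 := by
        intro k
        by_cases hb : N < k
        · simp only [cc]; rw [hqbig _ hb]; simp
        · have : dgw (ee (i, k)) = 0 := by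
            unfold dgw; rw [if_neg]
            simp only [ee]
            intro h
            exact hex ⟨k, by omega, by omega⟩
          rw [this, zero_mul]
      rw [tsum_congr this, tsum_zero]
      positivity
  refine ((hgs.prod).tsum_le_tsum hinner (u1.mul_left _)).trans ?_
  rw [tsum_mul_left, hN2]
  calc c * r ^ N * ∑' i, ‖u i‖ * (S2 r).W i ≤ c * r ^ N * K := by gcongr
    _ = c * K * r ^ N := by ring

end Pool.Agent.Helper649.Bil
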