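import Pool.Agent.Helper649.BilAbel

set_option autoImplicit false

namespace Pool.Agent.Helper649.Bil

open Complex

/-- norm of a coefficient sequence at radius `r` -/
def NL (r M : ℝ) (l : ℕ → ℝ) : Prop :=
  Summable (fun j => |l j| * (4 * r ^ 2) ^ j) ∧ ∑' j, |l j| * (4 * r ^ 2) ^ j ≤ M

lemma NL.nonneg {r M : ℝ} {l : ℕ → ℝ} (h : NL r M l) : 0 ≤ M :=
  (tsum_nonneg fun j => by positivity).trans h.2

lemma NL.mono {r r' M N : ℝ} {l : ℕ → ℝ} (h : NL r M l) (hr' : 0 ≤ r') (hr : r' ≤ r) (hM : M ≤ N) : NL r' N l := by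
  have hle : ∀ j, |l j| * (4 * r' ^ 2) ^ j ≤ |l j| * (4 * r ^ 2) ^ j := fun j => by
    have : r' ^ 2 ≤ r ^ 2 := pow_le_pow_left₀ hr' hr 2
    gcongr
  have hs : Summable (fun j => |l j| * (4 * r' ^ 2) ^ j) :=
    Summable.of_nonneg_of_le (fun j => by positivity) hle h.1
  exact ⟨hs, (hs.tsum_le_tsum hle h.1).trans (h.2.trans hM)⟩

lemma NL.add {r M N : ℝ} {l k : ℕ → ℝ} (h : NL r M l) (h' : NL r N k) : NL r (M + N) (fun j => l j + k j) := by
  have hle : ∀ j, |l j + k j| * (4 * r ^ 2) ^ j ≤ |l j| * (4 * r ^ 2) ^ j + |k j| * (4 * r ^ 2) ^ j := fun j => by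
    rw [← add_mul]
    have := abs_add_le (l j) (k j)
    gcongr
  have hs : Summable (fun j => |l j + k j| * (4 * r ^ 2) ^ j) :=
    Summable.of_nonneg_of_le (fun j => by positivity) hle (h.1.add h'.1)
  refine ⟨hs, (hs.tsum_le_tsum hle (h.1.add h'.1)).trans ?_⟩
  rw [h.1.tsum_add h'.1]
  linarith [h.2, h'.2]

/-- coefficients of the derivative -/
noncomputable def dl (l : ℕ → ℝ) (j : ℕ) : ℝ := ((j : ℝ) + 1) * l (j + 1)

lemma NL.deriv {r M s : ℝ} {l : ℕ → ℝ} (hr : 1 ≤ r) (hs0 : 0 < s) (hs1 : s < 1) (h : NL r M l) :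
    NL (r * s) (1 / (1 - s) * M) (dl l) := by
  have h1s : 0 < 1 - s := by linarith
  have hr0 : 0 < r := by linarith
  obtain ⟨h1, h2⟩ := h
  have g1 : Summable (fun j => |l (j + 1)| * (4 * r ^ 2) ^ (j + 1)) := (summable_nat_add_iff 1).mpr h1
  have g2 : ∑' j, |l (j + 1)| * (4 * r ^ 2) ^ (j + 1) ≤ M := by
    rw [h1.tsum_eq_zero_add] at h2
    have : 0 ≤ |l 0| * (4 * r ^ 2) ^ 0 := by positivity
    linarith
  have hle : ∀ j, |dl l j| * (4 * (r * s) ^ 2) ^ j ≤ 1 / (1 - s) * (|l (j + 1)| * (4 * r ^ 2) ^ (j + 1)) := by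
    intro j
    unfold dl
    rw [abs_mul, abs_of_nonneg (by positivity : (0 : ℝ) ≤ (j : ℝ) + 1)]
    have h3 := succ_mul_pow_le hs0.le hs1 j
    have h4 : (4 * (r * s) ^ 2) ^ j = (4 * r ^ 2) ^ j * (s ^ j * s ^ j) := by
      rw [← mul_pow, ← mul_pow]; congr 1; ring
    have h5 : s ^ j ≤ 1 := pow_le_one₀ hs0.le hs1.le
    have h6 : (1 : ℝ) ≤ 4 * r ^ 2 := by nlinarith
    rw [h4, pow_succ]
    calc ((j : ℝ) + 1) * |l (j + 1)| * ((4 * r ^ 2) ^ j * (s ^ j * s ^ j))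
        = (((j : ℝ) + 1) * s ^ j) * (|l (j + 1)| * ((4 * r ^ 2) ^ j * s ^ j)) := by ring
      _ ≤ (1 / (1 - s)) * (|l (j + 1)| * ((4 * r ^ 2) ^ j * (4 * r ^ 2))) := by
          have : s ^ j ≤ 4 * r ^ 2 := h5.trans h6
          gcongr
  have hs : Summable (fun j => |dl l j| * (4 * (r * s) ^ 2) ^ j) :=
    Summable.of_nonneg_of_le (fun j => by positivity) hle (g1.mul_left _)
  refine ⟨hs, (hs.tsum_le_tsum hle (g1.mul_left _)).trans ?_⟩
  rw [tsum_mul_left]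
  gcongr

/-- the function of a coefficient sequence -/
noncomputable def Lf (l : ℕ → ℝ) (y : ℂ) : ℂ := ∑' j, (l j : ℂ) * y ^ j

/-- composition -/
lemma NL.comp {Ω ι : Type} [AddCommMonoid ι] {S : Sys Ω ι} {r M s σ : ℝ} {Z Y s2 : Ω → ℂ} {l : ℕ → ℝ}
    (hs0 : 0 < s) (hs1 : s < 1) (hr0 : 0 < r)
    (h : NL r M l) (hZ : S.B (r * s) Z) (hY : S.B (r * s) Y) (hs : S.B σ s2) (hσ : σ ≤ 1 / 4) :
    S.B (4 / (1 - s) * M) (fun x => Lf l ((Z x + Y x) ^ 2 + (Z x - Y x) ^ 2 * s2 x)) ∧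
    ∀ x ∈ S.D, Summable (fun j => (l j : ℂ) * ((Z x + Y x) ^ 2 + (Z x - Y x) ^ 2 * s2 x) ^ j) := by
  have h1s : 0 < 1 - s := by linarith
  have hpow := fun k => X_pow_B hZ hY hs hσ k
  have hle : ∀ j, ‖(l j : ℂ)‖ * (2 * (2 * (j : ℝ) + 1) * (4 * (r * s) ^ 2) ^ j) ≤ 4 / (1 - s) * (|l j| * (4 * r ^ 2) ^ j) := by
    intro j
    rw [Complex.norm_real, Real.norm_eq_abs]
    have h3 := succ_mul_pow_le hs0.le hs1 j
    have h4 : (4 * (r * s) ^ 2) ^ j = (4 * r ^ 2) ^ j * (s ^ j * s ^ j) := by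
      rw [← mul_pow, ← mul_pow]; congr 1; ring
    have h5 : s ^ j ≤ 1 := pow_le_one₀ hs0.le hs1.le
    have h6 : 0 < s ^ j := by positivity
    rw [h4]
    calc |l j| * (2 * (2 * (j : ℝ) + 1) * ((4 * r ^ 2) ^ j * (s ^ j * s ^ j)))
        ≤ |l j| * (2 * (2 * ((j : ℝ) + 1)) * ((4 * r ^ 2) ^ j * (s ^ j * 1))) := by
          gcongr; linarith
      _ = 4 * (((j : ℝ) + 1) * s ^ j) * (|l j| * (4 * r ^ 2) ^ j) := by ring
      _ ≤ 4 * (1 / (1 - s)) * (|l j| * (4 * r ^ 2) ^ j) := by gcongr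
      _ = _ := by ring
  have hC : Summable (fun j => ‖(l j : ℂ)‖ * (2 * (2 * (j : ℝ) + 1) * (4 * (r * s) ^ 2) ^ j)) :=
    Summable.of_nonneg_of_le (fun j => by positivity) hle (h.1.mul_left _)
  have h1 := Sys.B.comp (S := S) (φ := fun j => (l j : ℂ)) hpow hC
  refine ⟨h1.mono ?_, fun x hx => Sys.B.summable_comp (S := S) (φ := fun j => (l j : ℂ)) hpow hC hx⟩
  refine (hC.tsum_le_tsum hle (h.1.mul_left _)).trans ?_
  rw [tsum_mul_left]
  have := h.2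
  gcongr

lemma geo8 (j : ℕ) : ∑ m ∈ Finset.range j, (1 / 8 : ℝ) ^ (j - m) ≤ 1 / 7 := by
  induction j with
  | zero => simp
  | succ j ih =>
    rw [Finset.sum_range_succ]
    have e : ∑ m ∈ Finset.range j, (1 / 8 : ℝ) ^ (j + 1 - m) = (1 / 8) * ∑ m ∈ Finset.range j, (1 / 8 : ℝ) ^ (j - m) := by
      rw [Finset.mul_sum]
      refine Finset.sum_congr rfl (fun m hm => ?_)
      have := Finset.mem_range.mp hm
      rw [show j + 1 - m = (j - m) + 1 from by omega, pow_succ]; ring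
    rw [e]
    have : j + 1 - j = 1 := by omega
    rw [this, pow_one]
    linarith

/-- The column bound. -/
lemma column {r : ℝ} (hr : 0 < r) {s2 c : ℂ × ℂ → ℂ} (hs : (S2 r).B (1 / 16) s2)
    (hc : (S2 r).B (1 / 8) (fun p => c p - 1)) (j : ℕ) :
    DB r ((1 / 2) * ((Nat.centralBinom j : ℝ) * r ^ (2 * j)))
      (fun p => ((p.1 + p.2) ^ 2 + (p.1 - p.2) ^ 2 * s2 p) ^ j * c p - (p.1 + p.2) ^ (2 * j)) := by
  have hcB : (S2 r).B (9 / 8) c := by
    have := hc.add (Sys.B.const (S2 r) 1)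
    simp only [norm_one, sub_add_cancel] at this
    exact this.mono (by norm_num)
  have hcb0 : (0 : ℝ) ≤ (Nat.centralBinom j : ℝ) * r ^ (2 * j) := by positivity
  -- the top term
  have h1 : DB r ((1 / 8) * ((Nat.centralBinom j : ℝ) * r ^ (2 * j)))
      (fun x => (x.1 + x.2) ^ (2 * j) * (x.1 - x.2) ^ (2 * 0) * (c x - 1)) := by
    have := DB_poly hr hc j 0 (c := Nat.centralBinom j) (fun p => by
      have := comb_sup j 0 p
      simpa using this)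
    refine this.mono (le_of_eq ?_)
    simp only [add_zero]; ring
  have h2 : ∀ m ∈ Finset.range j, DB r ((1 / 8) ^ (j - m) * ((9 / 8) * ((Nat.centralBinom j : ℝ) * r ^ (2 * j))))
      (fun x => (j.choose m : ℂ) * ((x.1 + x.2) ^ (2 * m) * (x.1 - x.2) ^ (2 * (j - m)) * (s2 x ^ (j - m) * c x))) := by
    intro m hm
    have hmj := Finset.mem_range.mp hm
    obtain ⟨b, rfl⟩ : ∃ b, j = m + b := ⟨j - m, by omega⟩
    have e0 : m + b - m = b := by omega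
    rw [e0]
    have hch := choose_pos' m b
    have h3 := DB_poly hr ((hs.pow b).mul hcB) m b (c := 2 ^ b * Nat.centralBinom (m + b) / ((m + b).choose m : ℝ)) (fun p => by
      rw [le_div_iff₀ hch]
      have := comb_sup m b p
      linarith)
    have h4 := h3.const_mul (((m + b).choose m : ℕ) : ℂ)
    refine h4.mono (le_of_eq ?_)
    rw [Complex.norm_natCast]
    have e1 : (1 / 8 : ℝ) ^ b = 2 ^ b * (1 / 16) ^ b := by rw [← mul_pow]; norm_num
    rw [e1]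
    field_simp
  have h3 := DB.finset_sum _ h2
  have h4 := h1.add h3
  refine (h4.mono ?_).congr (fun p _ => ?_)
  · rw [← Finset.sum_mul]
    have := geo8 j
    have h5 : (∑ i ∈ Finset.range j, (1 / 8 : ℝ) ^ (j - i)) * (9 / 8 * ((Nat.centralBinom j : ℝ) * r ^ (2 * j)))
        ≤ 1 / 7 * (9 / 8 * ((Nat.centralBinom j : ℝ) * r ^ (2 * j))) := by gcongr
    nlinarith
  · have e1 := add_pow ((p.1 + p.2) ^ 2) ((p.1 - p.2) ^ 2 * s2 p) j
    rw [e1, Finset.sum_range_succ]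
    simp only [Nat.sub_self, pow_zero, mul_one, Nat.choose_self, Nat.cast_one, mul_zero]
    have e2 : ∑ m ∈ Finset.range j, ((p.1 + p.2) ^ 2) ^ m * ((p.1 - p.2) ^ 2 * s2 p) ^ (j - m) * (j.choose m : ℂ) * c p
        = ∑ m ∈ Finset.range j, (j.choose m : ℂ) * ((p.1 + p.2) ^ (2 * m) * (p.1 - p.2) ^ (2 * (j - m)) * (s2 p ^ (j - m) * c p)) := by
      refine Finset.sum_congr rfl (fun m _ => ?_)
      generalize p.1 + p.2 = u
      generalize p.1 - p.2 = v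
      ring
    rw [← e2, add_mul, Finset.sum_mul, ← pow_mul]
    ring

end Pool.Agent.Helper649.Bil
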