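import Pool.Agent.Helper649.BilAbel2

set_option autoImplicit false

namespace Pool.Agent.Helper649.Bil

open Complex

/-- coefficients of `(z+w)^(2j)` -/
noncomputable def bj (j : ℕ) (i : ℕ × ℕ) : ℂ :=
  if i ∈ Finset.HasAntidiagonal.antidiagonal (2 * j) then ((2 * j).choose i.1 : ℂ) else 0

lemma bj_BC {r : ℝ} (j : ℕ) : ∃ K, (S2 r).BC K (bj j) (fun p => (p.1 + p.2) ^ (2 * j)) := by
  have h1 : Summable (fun i => ‖bj j i‖ * (S2 r).W i) := by
    have hh : HasSum (fun i => ‖bj j i‖ * (S2 r).W i) (∑ i ∈ Finset.HasAntidiagonal.antidiagonal (2 * j), ‖bj j i‖ * (S2 r).W i) :=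
      hasSum_sum_of_ne_finset_zero (f := fun i => ‖bj j i‖ * (S2 r).W i) (s := Finset.HasAntidiagonal.antidiagonal (2 * j)) (by
        intro i hi
        unfold bj; rw [if_neg hi]; simp)
    exact hh.summable
  refine ⟨_, h1, le_rfl, fun p hp => ?_⟩
  have e : (p.1 + p.2) ^ (2 * j) = ∑ i ∈ Finset.HasAntidiagonal.antidiagonal (2 * j), bj j i * (S2 r).χ p i := by
    rw [(Commute.all p.1 p.2).add_pow']
    refine Finset.sum_congr rfl (fun i hi => ?_)
    unfold bj; rw [if_pos hi, chi_S2, nsmul_eq_mul]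
  show HasSum _ ((p.1 + p.2) ^ (2 * j))
  rw [e]
  exact hasSum_sum_of_ne_finset_zero (f := fun i => bj j i * (S2 r).χ p i) (s := Finset.HasAntidiagonal.antidiagonal (2 * j)) (by
    intro i hi
    unfold bj; rw [if_neg hi]; simp)

lemma bj_diag (j m : ℕ) : bj j (m, m) = if m = j then (Nat.centralBinom j : ℂ) else 0 := by
  unfold bj
  simp only [Finset.HasAntidiagonal.mem_antidiagonal]
  by_cases h : m = j
  · subst h
    rw [if_pos (by ring), if_pos rfl]; rfl
  · rw [if_neg (by omega), if_neg h]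

lemma diag_inj : Function.Injective (fun m : ℕ => ((m, m) : ℕ × ℕ)) := fun a b h => by
  simpa using h

lemma diag_tsum {r : ℝ} (hr : 0 < r) {K : ℝ} {a : ℕ × ℕ → ℂ} {f : ℂ × ℂ → ℂ} (h : (S2 r).BC K a f) :
    Summable (fun m : ℕ => ‖a (m, m)‖ * r ^ (2 * m)) ∧
    ∑' m : ℕ, ‖a (m, m)‖ * r ^ (2 * m) = ∑' i, dgw i * (‖a i‖ * (S2 r).W i) := by
  have e : ∀ m : ℕ, dgw (m, m) * (‖a (m, m)‖ * (S2 r).W (m, m)) = ‖a (m, m)‖ * r ^ (2 * m) := fun m => by
    rw [W_S2 hr]; unfold dgw; rw [if_pos rfl, one_mul]; congr 2; ring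
  constructor
  · have := (dg_summable h).comp_injective diag_inj
    refine this.congr (fun m => ?_)
    exact e m
  · have h1 := diag_inj.tsum_eq (f := fun i => dgw i * (‖a i‖ * (S2 r).W i)) (by
      intro i hi
      rcases i with ⟨m, n⟩
      by_cases hmn : m = n
      · exact ⟨m, by rw [hmn]⟩
      · exfalso; apply hi
        show dgw (m, n) * _ = 0
        unfold dgw; rw [if_neg hmn, zero_mul])
    rw [← h1]
    exact tsum_congr (fun m => (e m).symm)

/-- Solution of the averaged equation. -/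
theorem abel {r : ℝ} (hr : 0 < r) {s2 c : ℂ × ℂ → ℂ} (hs : (S2 r).B (1 / 16) s2)
    (hc : (S2 r).B (1 / 8) (fun p => c p - 1))
    (hsr : ∀ p ∈ (S2 r).D, starRingEnd ℂ (s2 (cj p)) = s2 p)
    (hcr : ∀ p ∈ (S2 r).D, starRingEnd ℂ (c (cj p)) = c p)
    (g : ℕ → ℝ) (hg : Summable (fun m => |g m| * r ^ (2 * m))) :
    ∃ l : ℕ → ℝ, Summable (fun j => |l j| * ((Nat.centralBinom j : ℝ) * r ^ (2 * j))) ∧
      ∑' j, |l j| * ((Nat.centralBinom j : ℝ) * r ^ (2 * j)) ≤ 2 * ∑' m, |g m| * r ^ (2 * m) ∧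
      ∀ s, 0 < s → s < 1 → ∃ a K, (S2 (r * s)).BC K a
        (fun p => Lf l ((p.1 + p.2) ^ 2 + (p.1 - p.2) ^ 2 * s2 p) * c p) ∧ ∀ m, a (m, m) = g m := by
  have hcB : (S2 r).B (9 / 8) c := by
    have := hc.add (Sys.B.const (S2 r) 1)
    simp only [norm_one, sub_add_cancel] at this
    exact this.mono (by norm_num)
  have hXB : ∀ j : ℕ, (S2 r).B (2 * (2 * (j : ℝ) + 1) * (4 * r ^ 2) ^ j * (9 / 8))
      (fun p => ((p.1 + p.2) ^ 2 + (p.1 - p.2) ^ 2 * s2 p) ^ j * c p) := fun j =>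
    (X_pow_B (B_fst hr) (B_snd hr) hs (by norm_num) j).mul hcB
  choose a ha using hXB
  -- reality of the coefficients
  have hreal : ∀ j i, starRingEnd ℂ (a j i) = a j i := by
    intro j i
    have h1 := BC_unique hr (BC_cj (ha j)) (ha j) (fun p hp => by
      simp only [cj, map_mul, map_pow, map_add, map_sub, Complex.conj_conj]
      have e1 := hsr p hp
      have e2 := hcr p hp
      simp only [cj] at e1 e2
      rw [e1, e2])
    exact congrFun h1 i
  have hre : ∀ j i, ((a j i).re : ℂ) = a j i := fun j i => Complex.conj_eq_iff_re.mp (hreal j i)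
  -- column sums
  have hcol : ∀ j, Summable (fun m : ℕ => ‖a j (m, m) - bj j (m, m)‖ * r ^ (2 * m)) ∧
      ∑' m : ℕ, ‖a j (m, m) - bj j (m, m)‖ * r ^ (2 * m) ≤ (1 / 2) * ((Nat.centralBinom j : ℝ) * r ^ (2 * j)) := by
    intro j
    obtain ⟨d, K, hd1, hd2⟩ := column hr hs hc j
    obtain ⟨K2, hb⟩ := bj_BC (r := r) j
    have h1 := (ha j).sub hb
    have h2 := BC_unique hr hd1 h1 (fun p _ => rfl)
    rw [h2] at hd2
    have h3 := diag_tsum hr h1
    exact ⟨h3.1, h3.2.trans_le hd2⟩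
  have hcbpos : ∀ j, (0 : ℝ) < (Nat.centralBinom j : ℝ) * r ^ (2 * j) := fun j => by
    have := Nat.centralBinom_pos j
    positivity
  set Mx : ℕ → ℕ → ℝ := fun m j =>
    (((a j (m, m)).re - if m = j then (Nat.centralBinom j : ℝ) else 0) * r ^ (2 * m)) / ((Nat.centralBinom j : ℝ) * r ^ (2 * j)) with hMx
  have hMabs : ∀ m j, |Mx m j| = (‖a j (m, m) - bj j (m, m)‖ * r ^ (2 * m)) * ((Nat.centralBinom j : ℝ) * r ^ (2 * j))⁻¹ := by
    intro m j
    have e : a j (m, m) - bj j (m, m) = (((a j (m, m)).re - if m = j then (Nat.centralBinom j : ℝ) else 0 : ℝ) : ℂ) := by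
      rw [bj_diag]
      split_ifs with h
      · push_cast; rw [hre]
      · push_cast; rw [hre]
    rw [e, Complex.norm_real, Real.norm_eq_abs]
    simp only [hMx]
    rw [abs_div, abs_mul, abs_of_pos (hcbpos j), abs_of_pos (by positivity : (0 : ℝ) < r ^ (2 * m)), div_eq_mul_inv]
  have hM1 : ∀ j, Summable (fun m => |Mx m j|) := fun j => by
    simp only [hMabs]; exact (hcol j).1.mul_right _
  have hM2 : ∀ j, ∑' m, |Mx m j| ≤ 1 / 2 := fun j => by
    simp only [hMabs]
    rw [tsum_mul_right]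
    have := (hcol j).2
    rw [← div_eq_mul_inv, div_le_iff₀ (hcbpos j)]
    exact this
  obtain ⟨k, hk1, hk2, hk3⟩ := neumann Mx hM1 hM2 (fun m => g m * r ^ (2 * m)) (by
    refine hg.congr (fun m => ?_)
    rw [abs_mul, abs_of_pos (by positivity : (0 : ℝ) < r ^ (2 * m))])
  have ek : ∀ j, |k j / ((Nat.centralBinom j : ℝ) * r ^ (2 * j))| * ((Nat.centralBinom j : ℝ) * r ^ (2 * j)) = |k j| := fun j => by
    rw [abs_div, abs_of_pos (hcbpos j), div_mul_cancel₀ _ (hcbpos j).ne']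
  refine ⟨fun j => k j / ((Nat.centralBinom j : ℝ) * r ^ (2 * j)), ?_, ?_, ?_⟩
  · simp only [ek]; exact hk1
  · simp only [ek]
    refine hk2.trans (le_of_eq ?_)
    congr 1
    refine tsum_congr (fun m => ?_)
    rw [abs_mul, abs_of_pos (by positivity : (0 : ℝ) < r ^ (2 * m))]
  · intro s hs0 hs1
    set l : ℕ → ℝ := fun j => k j / ((Nat.centralBinom j : ℝ) * r ^ (2 * j)) with hl
    have hrs : 0 < r * s := by positivity
    have h1s : 0 < 1 - s := by linarith
    have hXs : ∀ j : ℕ, (S2 (r * s)).BC (‖(l j : ℂ)‖ * (2 * (2 * (j : ℝ) + 1) * (4 * (r * s) ^ 2) ^ j * (9 / 8)))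
        (fun i => (l j : ℂ) * a j i)
        (fun p => (l j : ℂ) * (((p.1 + p.2) ^ 2 + (p.1 - p.2) ^ 2 * s2 p) ^ j * c p)) := by
      intro j
      refine Sys.BC.const_mul (l j : ℂ) ?_
      have hsm : (S2 (r * s)).B (1 / 16) s2 := B_rmono hrs (by nlinarith) hs le_rfl
      have hcm : (S2 (r * s)).B (9 / 8) c := B_rmono hrs (by nlinarith) hcB le_rfl
      obtain ⟨a', ha'⟩ := (X_pow_B (B_fst hrs) (B_snd hrs) hsm (by norm_num) j).mul hcm
      have h1 := BC_rmono hrs (by nlinarith : r * s ≤ r) (ha j) le_rfl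
      have h2 := BC_unique hrs ha' h1 (fun p _ => rfl)
      rw [h2] at ha'
      exact ha'
    have hCs : Summable (fun j => ‖(l j : ℂ)‖ * (2 * (2 * (j : ℝ) + 1) * (4 * (r * s) ^ 2) ^ j * (9 / 8))) := by
      refine Summable.of_nonneg_of_le (fun j => by positivity) (fun j => ?_) (hk1.mul_left (9 / (1 - s) ^ 2))
      rw [Complex.norm_real, Real.norm_eq_abs]
      have h4 : (4 : ℝ) ^ j ≤ (2 * (j : ℝ) + 1) * Nat.centralBinom j := by
        rcases Nat.eq_zero_or_pos j with h | h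
        · subst h; simp
        · have h5 := Nat.four_pow_le_two_mul_self_mul_centralBinom j h
          have h6 : ((4 ^ j : ℕ) : ℝ) ≤ ((2 * j * Nat.centralBinom j : ℕ) : ℝ) := by exact_mod_cast h5
          push_cast at h6
          have : (0 : ℝ) ≤ Nat.centralBinom j := Nat.cast_nonneg _
          nlinarith
      have h5 := sq_succ_mul_pow_le hs0.le hs1 j 0
      simp only [Nat.cast_zero, add_zero] at h5
      have e1 : (4 * (r * s) ^ 2) ^ j = 4 ^ j * r ^ (2 * j) * (s ^ 2) ^ j := by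
        rw [mul_pow, mul_pow, mul_pow, ← pow_mul]; ring
      have e2 : |k j| = |l j| * ((Nat.centralBinom j : ℝ) * r ^ (2 * j)) := (ek j).symm
      rw [e1, e2]
      calc |l j| * (2 * (2 * (j : ℝ) + 1) * (4 ^ j * r ^ (2 * j) * (s ^ 2) ^ j) * (9 / 8))
          ≤ |l j| * (2 * (2 * (j : ℝ) + 1) * (((2 * (j : ℝ) + 1) * Nat.centralBinom j) * r ^ (2 * j) * (s ^ 2) ^ j) * (9 / 8)) := by gcongr
        _ = (9 / 4) * ((2 * (j : ℝ) + 1) ^ 2 * (s ^ 2) ^ j) * (|l j| * ((Nat.centralBinom j : ℝ) * r ^ (2 * j))) := by ring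
        _ ≤ (9 / 4) * ((2 * ((j : ℝ) + 1)) ^ 2 * (s ^ 2) ^ j) * (|l j| * ((Nat.centralBinom j : ℝ) * r ^ (2 * j))) := by
            have : (2 * (j : ℝ) + 1) ^ 2 ≤ (2 * ((j : ℝ) + 1)) ^ 2 := by
              apply pow_le_pow_left₀ (by positivity); linarith
            gcongr
        _ = 9 * (((j : ℝ) + 1) ^ 2 * (s ^ 2) ^ j) * (|l j| * ((Nat.centralBinom j : ℝ) * r ^ (2 * j))) := by ring
        _ ≤ 9 * (1 / (1 - s) ^ 2) * (|l j| * ((Nat.centralBinom j : ℝ) * r ^ (2 * j))) := by gcongr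
        _ = _ := by ring
    obtain ⟨hrow, hBC⟩ := Sys.BC.tsum hXs hCs
    refine ⟨_, _, hBC.congr (fun p hp => ?_), fun m => ?_⟩
    · unfold Lf
      rw [← tsum_mul_right]
      exact tsum_congr (fun j => by ring)
    · obtain ⟨h1, h2⟩ := hk3 m
      have hrm : (0 : ℝ) < r ^ (2 * m) := by positivity
      have e1 : ∀ j, Mx m j * k j = (((a j (m, m)).re - if m = j then (Nat.centralBinom j : ℝ) else 0) * l j) * r ^ (2 * m) := by
        intro j
        have : k j = l j * ((Nat.centralBinom j : ℝ) * r ^ (2 * j)) := by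
          simp only [hl]; rw [div_mul_cancel₀ _ (hcbpos j).ne']
        rw [this]
        simp only [hMx]
        have hcj : (Nat.centralBinom j : ℝ) ≠ 0 := Nat.cast_ne_zero.mpr (Nat.centralBinom_pos j).ne'
        have hrj : r ^ (2 * j) ≠ 0 := by positivity
        field_simp
      simp only [e1] at h1 h2
      have s1 : Summable (fun j => ((a j (m, m)).re - if m = j then (Nat.centralBinom j : ℝ) else 0) * l j) := by
        refine (h1.mul_right (r ^ (2 * m))⁻¹).congr (fun j => ?_)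
        field_simp
      have s2' : HasSum (fun j => (if m = j then (Nat.centralBinom j : ℝ) else 0) * l j) ((Nat.centralBinom m : ℝ) * l m) := by
        have := hasSum_single (f := fun j => (if m = j then (Nat.centralBinom j : ℝ) else 0) * l j) m (by
          intro j hj; rw [if_neg (Ne.symm hj), zero_mul])
        simpa using this
      have s3 := s1.hasSum.add s2'
      have e2 : (fun j => ((a j (m, m)).re - if m = j then (Nat.centralBinom j : ℝ) else 0) * l j
          + (if m = j then (Nat.centralBinom j : ℝ) else 0) * l j) = fun j => l j * (a j (m, m)).re := by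
        funext j; ring
      rw [e2] at s3
      rw [tsum_mul_right] at h2
      have ekm : k m = l m * ((Nat.centralBinom m : ℝ) * r ^ (2 * m)) := by
        simp only [hl]; rw [div_mul_cancel₀ _ (hcbpos m).ne']
      rw [ekm] at h2
      have e3 : ∑' j, ((a j (m, m)).re - if m = j then (Nat.centralBinom j : ℝ) else 0) * l j + (Nat.centralBinom m : ℝ) * l m = g m := by
        have : (∑' j, ((a j (m, m)).re - if m = j then (Nat.centralBinom j : ℝ) else 0) * l j + (Nat.centralBinom m : ℝ) * l m) * r ^ (2 * m)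
            = g m * r ^ (2 * m) := by linarith
        exact mul_right_cancel₀ hrm.ne' this
      rw [e3] at s3
      have s4 : HasSum (fun j => (((l j * (a j (m, m)).re : ℝ)) : ℂ)) ((g m : ℝ) : ℂ) := by
        exact_mod_cast (Complex.hasSum_ofReal.mpr s3)
      rw [← s4.tsum_eq]
      refine tsum_congr (fun j => ?_)
      push_cast
      rw [hre]

end Pool.Agent.Helper649.Bil
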