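import Pool.Agent.Helper649.BilA

set_option autoImplicit false

namespace Pool.Agent.Helper649.Bil

open Complex

section gen

variable {Ω ι : Type} [AddCommMonoid ι] {S : Sys Ω ι}
variable {C : Cst} {ML r κ ε Λ s : ℝ}

/-- base bounds for the generating functions -/
lemma base_fam (h : Big C ML r κ ε Λ s) {l : ℕ → ℝ} {M : ℝ} (hM : M ≤ Λ) (hl : NL r M l)
    {Z Y st a b : Ω → ℂ} (hZ : S.B (r * s ^ 3) Z) (hY : S.B (r * s ^ 3) Y) (hst : S.B (1 / 200) st)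
    (hD : S.B (4 * |C.T| + 2) (fun x => (b x - a x) / 2))
    (hx : ∀ x ∈ S.D, (a x + b x) / 2 = (Z x + Y x) + (Z x - Y x) ^ 2 * st x) :
    S.B (Λ ^ 9) (fun x => Uf C.μ l (a x) (b x)) ∧ S.B (Λ ^ 9) (fun x => Uf C.μ l (b x) (a x)) ∧
    S.B (Λ ^ 10) (fun x => S12f C.μ l (a x) (b x)) ∧ S.B (Λ ^ 6) (fun x => Wf C.μ l (a x) (b x)) := by
  have h1 := fam_f (S := S) h.hΛ h.hs0 h.hs1 h.hsΛ h.r1 (h.rk2 3) (h.rk1 (by norm_num)) hl hM hZ hY hst le_rfl hD h.hT h.hTc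
    C.hμ0 C.hμ1 hx (fun x _ => rfl)
  have hD' : S.B (4 * |C.T| + 2) (fun x => (a x - b x) / 2) := (hD.neg).congr (fun x _ => by ring)
  have h2 := fam_f (S := S) h.hΛ h.hs0 h.hs1 h.hsΛ h.r1 (h.rk2 3) (h.rk1 (by norm_num)) hl hM hZ hY hst le_rfl hD' h.hT h.hTc
    C.hμ0 C.hμ1 (a := b) (b := a) (fun x hxD => by rw [add_comm (b x), hx x hxD]; rfl) (fun x _ => rfl)
  exact ⟨h1.1, h2.1, h1.2.1, h1.2.2⟩

end gen

section st

variable {C : Cst} {ML r κ ε Λ s : ℝ} {q qz qw st : ℂ × ℂ → ℂ} {l : ℕ → ℝ}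

lemma St.dz_rot (hS : St C ML r κ ε q qz qw st l) {c : ℂ} (hc : ‖c‖ = 1) {p : ℂ × ℂ} (h1 : ‖p.1‖ < r) (h2 : ‖p.2‖ < r) :
    HasDerivAt (fun z => q (rot c (z, p.2))) (c * qz (rot c p)) p.1 := by
  have hc0 : ‖c⁻¹‖ = 1 := by rw [norm_inv, hc, inv_one]
  have h3 := hS.dz (rot c p) (by simp only [rot, norm_mul, hc, one_mul]; exact h1)
    (by simp only [rot, norm_mul, hc0, one_mul]; exact h2)
  have h4 : HasDerivAt (fun z : ℂ => c * z) (c * 1) p.1 := (hasDerivAt_id p.1).const_mul c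
  have h5 := HasDerivAt.comp p.1 h3 h4
  rw [mul_one, mul_comm] at h5
  exact h5

lemma St.dw_rot (hS : St C ML r κ ε q qz qw st l) {c : ℂ} (hc : ‖c‖ = 1) {p : ℂ × ℂ} (h1 : ‖p.1‖ < r) (h2 : ‖p.2‖ < r) :
    HasDerivAt (fun w => q (rot c (p.1, w))) (c⁻¹ * qw (rot c p)) p.2 := by
  have hc0 : ‖c⁻¹‖ = 1 := by rw [norm_inv, hc, inv_one]
  have h3 := hS.dw (rot c p) (by simp only [rot, norm_mul, hc, one_mul]; exact h1)
    (by simp only [rot, norm_mul, hc0, one_mul]; exact h2)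
  have h4 : HasDerivAt (fun z : ℂ => c⁻¹ * z) (c⁻¹ * 1) p.2 := (hasDerivAt_id p.2).const_mul c⁻¹
  have h5 := HasDerivAt.comp p.2 h3 h4
  rw [mul_one, mul_comm] at h5
  exact h5

lemma St.κ0 (hS : St C ML r κ ε q qz qw st l) : 0 ≤ κ := hS.bs.nonneg

lemma St.q_B (hS : St C ML r κ ε q qz qw st l) (h : Big C ML r κ ε Λ s) : (S2 r).B Λ q := by
  have h1 := ((B_fst h.r0).add (B_snd h.r0)).const_mul (C.q1 : ℂ)
  have h2 := hS.bq.add h1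
  refine (h2.mono ?_).congr (fun p _ => by ring)
  rw [Complex.norm_real, Real.norm_eq_abs]
  have := h.hr2
  have := h.hκ
  have := h.hq1
  have h3 : |C.q1| * (r + r) ≤ |C.q1| * (2 + 2) := by gcongr
  linarith

lemma St.qz_B (hS : St C ML r κ ε q qz qw st l) (h : Big C ML r κ ε Λ s) : (S2 r).B Λ qz := by
  have h2 := hS.bqz.add (Sys.B.const (S2 r) (C.q1 : ℂ))
  refine (h2.mono ?_).congr (fun p _ => by ring)
  rw [Complex.norm_real, Real.norm_eq_abs]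
  have := h.hκ
  have := h.hq1
  have := abs_nonneg C.q1
  linarith

lemma St.qw_B (hS : St C ML r κ ε q qz qw st l) (h : Big C ML r κ ε Λ s) : (S2 r).B Λ qw := by
  have h2 := hS.bqw.add (Sys.B.const (S2 r) (C.q1 : ℂ))
  refine (h2.mono ?_).congr (fun p _ => by ring)
  rw [Complex.norm_real, Real.norm_eq_abs]
  have := h.hκ
  have := h.hq1
  have := abs_nonneg C.q1
  linarith

lemma D_bound {ρ κ' : ℝ} (hρ : 0 < ρ) (hρ2 : ρ ≤ 2) (hκ' : κ' ≤ 1) {q : ℂ × ℂ → ℂ}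
    (bq : (S2 ρ).B κ' (fun p => q p - C.q1 * (p.1 + p.2))) :
    (S2 ρ).B (4 * |C.T| + 1) (fun p => (q (rot C.ν p) - q (rot C.ν⁻¹ p)) / 2) := by
  have h1 := B_rot C.hν bq
  have h2 := B_rot C.hν' bq
  have h3 := ((B_fst hρ).sub (B_snd hρ)).const_mul (I * C.T)
  have h4 := (h1.sub h2).const_mul (1 / 2)
  have h5 := h4.add h3
  refine (h5.mono ?_).congr (fun p _ => ?_)
  · rw [norm_mul, Complex.norm_real, Real.norm_eq_abs, Complex.norm_I, one_mul]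
    have n2 : ‖(1 / 2 : ℂ)‖ = 1 / 2 := by norm_num
    rw [n2]
    have : |C.T| * (ρ + ρ) ≤ |C.T| * (2 + 2) := by gcongr
    linarith
  · have e := C.hT
    simp only [rot, inv_inv]
    linear_combination (1 / 2 * (p.2 - p.1)) * e

lemma St.D_B (hS : St C ML r κ ε q qz qw st l) (h : Big C ML r κ ε Λ s) :
    (S2 r).B (4 * |C.T| + 1) (fun p => (q (rot C.ν p) - q (rot C.ν⁻¹ p)) / 2) :=
  D_bound h.r0 h.hr2 (by have := h.hκ; linarith) hS.bq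

lemma St.MLle (hS : St C ML r κ ε q qz qw st l) (h : Big C ML r κ ε Λ s) : ML + κ ≤ Λ := by
  have := h.hκ; have := h.hML; linarith

/-- base bounds in two variables -/
lemma St.base (hS : St C ML r κ ε q qz qw st l) (h : Big C ML r κ ε Λ s) :
    (S2 (r * s ^ 3)).B (Λ ^ 9) (fun p => Uf C.μ l (q (rot C.ν⁻¹ p)) (q (rot C.ν p))) ∧
    (S2 (r * s ^ 3)).B (Λ ^ 9) (fun p => Uf C.μ l (q (rot C.ν p)) (q (rot C.ν⁻¹ p))) ∧
    (S2 (r * s ^ 3)).B (Λ ^ 10) (fun p => S12f C.μ l (q (rot C.ν⁻¹ p)) (q (rot C.ν p))) ∧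
    (S2 (r * s ^ 3)).B (Λ ^ 6) (fun p => Wf C.μ l (q (rot C.ν⁻¹ p)) (q (rot C.ν p))) := by
  have hκ := h.hκ
  refine base_fam (S := S2 (r * s ^ 3)) h (hS.MLle h) hS.bl (B_fst (h.rpos 3)) (B_snd (h.rpos 3))
    (st := st) (B_rmono (h.rpos 3) (h.rle 3) hS.bs (by linarith))
    (B_rmono (h.rpos 3) (h.rle 3) (hS.D_B h) (by linarith)) (fun p hp => ?_)
  rw [← hS.xrel p (mem_mono (h.rpos 3) (h.rle 3) hp), add_comm]

lemma St.mid (hS : St C ML r κ ε q qz qw st l) {p : ℂ × ℂ} (hp : p ∈ (S2 r).D) :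
    (q p + q (rot (C.ν ^ 2) p)) / 2 = ((rot C.ν p).1 + (rot C.ν p).2) + ((rot C.ν p).1 - (rot C.ν p).2) ^ 2 * st (rot C.ν p) := by
  rw [← hS.xrel (rot C.ν p) (rot_mem C.hν hp), C.rot_vv, C.rot_v'v, add_comm]

lemma St.mid' (hS : St C ML r κ ε q qz qw st l) {p : ℂ × ℂ} (hp : p ∈ (S2 r).D) :
    (q p + q (rot (C.ν ^ 2)⁻¹ p)) / 2 = ((rot C.ν⁻¹ p).1 + (rot C.ν⁻¹ p).2) + ((rot C.ν⁻¹ p).1 - (rot C.ν⁻¹ p).2) ^ 2 * st (rot C.ν⁻¹ p) := by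
  rw [← hS.xrel (rot C.ν⁻¹ p) (rot_mem C.hν' hp), C.rot_v'v', C.rot_vv']

lemma rot_lt {ρ : ℝ} {c : ℂ} (hc : ‖c‖ = 1) {p : ℂ × ℂ} (h1 : ‖p.1‖ < ρ) (h2 : ‖p.2‖ < ρ) :
    ‖(rot c p).1‖ < ρ ∧ ‖(rot c p).2‖ < ρ := by
  have hc0 : ‖c⁻¹‖ = 1 := by rw [norm_inv, hc, inv_one]
  exact ⟨by simp only [rot, norm_mul, hc, one_mul]; exact h1, by simp only [rot, norm_mul, hc0, one_mul]; exact h2⟩

lemma St.st_le (hS : St C ML r κ ε q qz qw st l) (h : Big C ML r κ ε Λ s) {p : ℂ × ℂ} (hp : p ∈ (S2 r).D) :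
    ‖st p‖ ≤ 1 / 200 := by
  have := hS.bs.norm_le hp
  have := h.hκ
  linarith

lemma memlt {ρ ρ' : ℝ} (hρ' : 0 < ρ') (hlt : ρ' < ρ) {p : ℂ × ℂ} (hp : p ∈ (S2 ρ').D) :
    ‖p.1‖ < ρ ∧ ‖p.2‖ < ρ := by
  rw [mem_S2 hρ'] at hp
  exact ⟨hp.1.trans_lt hlt, hp.2.trans_lt hlt⟩

/-- midpoint bound at a rotated point -/
lemma St.mid_lt (hS : St C ML r κ ε q qz qw st l) (h : Big C ML r κ ε Λ s) {p : ℂ × ℂ}
    (hp : p ∈ (S2 (r * s ^ 2)).D) :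
    ‖((q p + q (rot (C.ν ^ 2) p)) / 2) ^ 2‖ < 4 * (r * s) ^ 2 ∧
    ‖((q p + q (rot (C.ν ^ 2)⁻¹ p)) / 2) ^ 2‖ < 4 * (r * s) ^ 2 ∧
    ‖((q (rot C.ν⁻¹ p) + q (rot C.ν p)) / 2) ^ 2‖ < 4 * (r * s) ^ 2 := by
  have hpr := mem_mono (h.rpos 2) (h.rle 2) hp
  have hlt : r * s ^ 2 < r * s := by have := h.rlt (a := 1) (b := 2) (by norm_num); simpa using this
  obtain ⟨h1, h2⟩ := memlt (h.rpos 2) hlt hp
  have hρ2 : r * s ≤ 2 := by have := h.rk2 1; simpa using this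
  have a1 := rot_lt C.hν h1 h2
  have a2 := rot_lt C.hν' h1 h2
  refine ⟨?_, ?_, ?_⟩
  · rw [hS.mid hpr]
    exact xsq_lt a1.1 a1.2 (hS.st_le h (rot_mem C.hν hpr)) hρ2
  · rw [hS.mid' hpr]
    exact xsq_lt a2.1 a2.2 (hS.st_le h (rot_mem C.hν' hpr)) hρ2
  · rw [add_comm, hS.xrel p hpr]
    exact xsq_lt h1 h2 (hS.st_le h hpr) hρ2

/-- derivative of the error in w -/
lemma St.Ew (hS : St C ML r κ ε q qz qw st l) (h : Big C ML r κ ε Λ s) {p : ℂ × ℂ}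
    (hp : p ∈ (S2 (r * s ^ 2)).D) :
    HasDerivAt (fun w => C.Ef l q (p.1, w))
      ((S11f C.μ l (q p) (q (rot (C.ν ^ 2) p)) + S11f C.μ l (q p) (q (rot (C.ν ^ 2)⁻¹ p))) * qw p
        + S12f C.μ l (q p) (q (rot (C.ν ^ 2) p)) * ((C.ν ^ 2)⁻¹ * qw (rot (C.ν ^ 2) p))
        + S12f C.μ l (q p) (q (rot (C.ν ^ 2)⁻¹ p)) * (C.ν ^ 2 * qw (rot (C.ν ^ 2)⁻¹ p))) p.2 := by
  have hlt : r * s ^ 2 < r := by have := h.rlt (a := 0) (b := 2) (by norm_num); simpa using this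
  obtain ⟨h1, h2⟩ := memlt (h.rpos 2) hlt hp
  obtain ⟨m1, m2, m3⟩ := hS.mid_lt h hp
  have d0 := hS.dw p h1 h2
  have d1 := hS.dw_rot C.hω h1 h2
  have d2 := hS.dw_rot C.hω' h1 h2
  rw [inv_inv] at d2
  have u1 := U_deriv h.r1 h.hs0 h.hs1 hS.bl C.hμ0.ne' d0 d1 m1
  have u2 := U_deriv h.r1 h.hs0 h.hs1 hS.bl C.hμ0.ne' d0 d2 m2
  refine (u1.add u2).congr_deriv ?_
  ring

/-- derivative of the error in z -/
lemma St.Ez (hS : St C ML r κ ε q qz qw st l) (h : Big C ML r κ ε Λ s) {p : ℂ × ℂ}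
    (hp : p ∈ (S2 (r * s ^ 2)).D) :
    HasDerivAt (fun z => C.Ef l q (z, p.2))
      ((S11f C.μ l (q p) (q (rot (C.ν ^ 2) p)) + S11f C.μ l (q p) (q (rot (C.ν ^ 2)⁻¹ p))) * qz p
        + S12f C.μ l (q p) (q (rot (C.ν ^ 2) p)) * (C.ν ^ 2 * qz (rot (C.ν ^ 2) p))
        + S12f C.μ l (q p) (q (rot (C.ν ^ 2)⁻¹ p)) * ((C.ν ^ 2)⁻¹ * qz (rot (C.ν ^ 2)⁻¹ p))) p.1 := by
  have hlt : r * s ^ 2 < r := by have := h.rlt (a := 0) (b := 2) (by norm_num); simpa using this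
  obtain ⟨h1, h2⟩ := memlt (h.rpos 2) hlt hp
  obtain ⟨m1, m2, m3⟩ := hS.mid_lt h hp
  have d0 := hS.dz p h1 h2
  have d1 := hS.dz_rot C.hω h1 h2
  have d2 := hS.dz_rot C.hω' h1 h2
  have u1 := U_deriv h.r1 h.hs0 h.hs1 hS.bl C.hμ0.ne' d0 d1 m1
  have u2 := U_deriv h.r1 h.hs0 h.hs1 hS.bl C.hμ0.ne' d0 d2 m2
  refine (u1.add u2).congr_deriv ?_
  ring

lemma HasDerivAt.of_congr_fun {f g : ℂ → ℂ} {f' x : ℂ} (h : HasDerivAt f f' x) (e : f = g) : HasDerivAt g f' x := e ▸ h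

/-- resonance -/
lemma St.resw (hS : St C ML r κ ε q qz qw st l) (h : Big C ML r κ ε Λ s) :
    ∃ b, (S2 r).BC (Λ * ε) b (fun p => qw p * C.Ef l q p) ∧ ∀ m n : ℕ, (m : ℤ) - n = 1 → b (m, n) = 0 := by
  obtain ⟨a, K, ha, hd⟩ := hS.avg
  obtain ⟨Ww, hWw, hWd⟩ := BC_dw h.r0 h.hs0 h.hs1 ha
  obtain ⟨b, hb⟩ := (hS.qw_B h).mul hS.bE
  refine ⟨b, hb, ?_⟩
  obtain ⟨u1, u2, -, -⟩ := hS.base h
  have w1 := B_rmono (h.rpos 3) (h.rle 3) (B_rot C.hν' (hS.qw_B h)) le_rfl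
  have w2 := B_rmono (h.rpos 3) (h.rle 3) (B_rot C.hν (hS.qw_B h)) le_rfl
  obtain ⟨α, hα⟩ := u1.mul w1
  obtain ⟨β, hβ⟩ := u2.mul w2
  have hlt : r * s ^ 3 < r := by have := h.rlt (a := 0) (b := 3) (by norm_num); simpa using this
  have h3 := (BC_rot C.hν hα).add (BC_rot C.hν' hβ)
  have e1 := BC_unique (h.rpos 3) (BC_rmono (h.rpos 3) (h.rle 3) hb le_rfl) h3 (fun p hp => by
    rw [C.rot_v'v, C.rot_vv, C.rot_vv', C.rot_v'v']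
    unfold Cst.Ef; ring)
  have hrs : r * s ^ 3 ≤ r * s := by have := h.rk (a := 1) (b := 3) (by norm_num); simpa using this
  have h4 := ((hα.const_mul C.ν).add (hβ.const_mul C.ν⁻¹)).const_mul (1 / 2)
  have e2 := BC_unique (h.rpos 3) (BC_rmono (h.rpos 3) hrs hWw le_rfl) h4 (fun p hp => by
    have hp2 : p ∈ (S2 (r * s ^ 2)).D := mem_mono (h.rpos 3) (h.rk (by norm_num)) hp
    obtain ⟨h1, h2⟩ := memlt (h.rpos 3) hlt hp
    obtain ⟨m1, m2, m3⟩ := hS.mid_lt h hp2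
    have d1 := hS.dw_rot C.hν' h1 h2
    have d2 := hS.dw_rot C.hν h1 h2
    rw [inv_inv] at d1
    have u := W_deriv h.r1 h.hs0 h.hs1 hS.bl C.hμ0.ne' d1 d2 m3
    have := (hWd p h1 h2).unique u
    rw [this]; ring)
  intro m n hmn
  have e1' := congrFun e1 (m, n)
  have e2' := congrFun e2 (m, n)
  simp only at e1' e2'
  have hm : m = n + 1 := by omega
  rw [hm] at e2' e1' ⊢
  rw [hd (n + 1), mul_zero] at e2'
  rw [e1']
  have hν0 := C.ν0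
  have f1 : C.ν ^ (n + 1) * C.ν⁻¹ ^ n = C.ν := by
    rw [pow_succ]; rw [mul_right_comm, ← mul_pow, mul_inv_cancel₀ hν0, one_pow, one_mul]
  have f2 : C.ν⁻¹ ^ (n + 1) * C.ν⁻¹⁻¹ ^ n = C.ν⁻¹ := by
    rw [pow_succ]; rw [mul_right_comm, ← mul_pow, mul_inv_cancel₀ (inv_ne_zero hν0), one_pow, one_mul]
  rw [f1, f2]
  linear_combination (-2 : ℂ) * e2'

lemma St.sw (hS : St C ML r κ ε q qz qw st l) {p : ℂ × ℂ} (h1 : ‖p.1‖ < r) (h2 : ‖p.2‖ < r) :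
    qw p.swap = qz p := by
  have hr0 : 0 < r := lt_of_le_of_lt (norm_nonneg _) h1
  have d1 := hS.dz p h1 h2
  have d2 := hS.dw p.swap h2 h1
  have e : (fun z => q (z, p.2)) =ᶠ[nhds p.1] fun z => q (p.swap.1, z) := by
    have ho : Metric.ball (0 : ℂ) r ∈ nhds p.1 := Metric.isOpen_ball.mem_nhds (by rw [mem_ball_zero_iff]; exact h1)
    filter_upwards [ho] with z hz
    rw [mem_ball_zero_iff] at hz
    have := hS.sym (z, p.2) (by rw [mem_S2 hr0]; exact ⟨hz.le, h2.le⟩)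
    rw [← this]; rfl
  exact (d2.congr_of_eventuallyEq e).unique d1

lemma St.Ef_swap (hS : St C ML r κ ε q qz qw st l) {p : ℂ × ℂ} (hp : p ∈ (S2 r).D) :
    C.Ef l q p.swap = C.Ef l q p := by
  unfold Cst.Ef
  rw [swap_rot' (C.ν ^ 2), swap_rot' (C.ν ^ 2)⁻¹, inv_inv, hS.sym p hp, hS.sym _ (rot_mem C.hω' hp), hS.sym _ (rot_mem C.hω hp),
    add_comm]

lemma St.Ef_neg (hS : St C ML r κ ε q qz qw st l) {p : ℂ × ℂ} (hp : p ∈ (S2 r).D) :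
    C.Ef l q (-p) = -C.Ef l q p := by
  unfold Cst.Ef
  rw [neg_rot, neg_rot, hS.odd p hp, hS.odd _ (rot_mem C.hω' hp), hS.odd _ (rot_mem C.hω hp), Uf_neg, Uf_neg]
  ring

lemma St.real' (hS : St C ML r κ ε q qz qw st l) {p : ℂ × ℂ} (hp : p ∈ (S2 r).D) :
    starRingEnd ℂ (q p) = q (cj p) := by
  have := hS.real (cj p) (cj_mem hp)
  rw [cj_cj] at this; exact this

lemma St.Ef_cj (hS : St C ML r κ ε q qz qw st l) {p : ℂ × ℂ} (hp : p ∈ (S2 r).D) :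
    starRingEnd ℂ (C.Ef l q (cj p)) = C.Ef l q p := by
  unfold Cst.Ef
  rw [map_add, Uf_conj, Uf_conj, hS.real p hp, rot_cj C.hω, rot_cj C.hω', hS.real _ (rot_mem C.hω' hp), inv_inv,
    hS.real _ (rot_mem C.hω hp), add_comm]

/-- resonance for the other variable -/
lemma St.resz (hS : St C ML r κ ε q qz qw st l) (h : Big C ML r κ ε Λ s) :
    ∃ b, (S2 r).BC (Λ * ε) b (fun p => qz p * C.Ef l q p) ∧ ∀ m n : ℕ, (m : ℤ) - n = -1 → b (m, n) = 0 := by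
  obtain ⟨b, hb, hres⟩ := hS.resw h
  obtain ⟨b', hb'⟩ := (hS.qz_B h).mul hS.bE
  refine ⟨b', hb', fun m n hmn => ?_⟩
  have hlt : r * s ^ 1 < r := by have := h.rlt (a := 0) (b := 1) (by norm_num); simpa using this
  have e := BC_unique (h.rpos 1) (BC_rmono (h.rpos 1) (h.rle 1) hb' le_rfl)
    (BC_rmono (h.rpos 1) (h.rle 1) (BC_swap hb) le_rfl) (fun p hp => by
    obtain ⟨h1, h2⟩ := memlt (h.rpos 1) hlt hp
    rw [hS.sw h1 h2, hS.Ef_swap (mem_mono (h.rpos 1) (h.rle 1) hp)])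
  have := congrFun e (m, n)
  rw [this]
  exact hres n m (by omega)

end st

end Pool.Agent.Helper649.Bil
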