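import Pool.Agent.Helper649.BilB

set_option autoImplicit false

namespace Pool.Agent.Helper649.Bil

open Complex

/-- the bracket -/
noncomputable def Cst.Gf (C : Cst) (l : ℕ → ℝ) (q qz qw : ℂ × ℂ → ℂ) (p : ℂ × ℂ) : ℂ :=
  S12f C.μ l (q (rot (C.ν ^ 2)⁻¹ p)) (q p)
    * ((C.ν ^ 2)⁻¹ * (qz (rot (C.ν ^ 2)⁻¹ p) * qw p) - C.ν ^ 2 * (qw (rot (C.ν ^ 2)⁻¹ p) * qz p))

section st

variable {C : Cst} {ML r κ ε Λ s : ℝ} {q qz qw st : ℂ × ℂ → ℂ} {l : ℕ → ℝ}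

/-- derivatives of the error -/
lemma St.EzEw (hS : St C ML r κ ε q qz qw st l) (h : Big C ML r κ ε Λ s) :
    ∃ Ez Ew : ℂ × ℂ → ℂ, Q (S2 (r * s)) Λ ε 1 1 Ez ∧ Q (S2 (r * s)) Λ ε 1 1 Ew ∧
      (∀ p ∈ (S2 (r * s ^ 2)).D, Ez p =
        ((S11f C.μ l (q p) (q (rot (C.ν ^ 2) p)) + S11f C.μ l (q p) (q (rot (C.ν ^ 2)⁻¹ p))) * qz p
        + S12f C.μ l (q p) (q (rot (C.ν ^ 2) p)) * (C.ν ^ 2 * qz (rot (C.ν ^ 2) p))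
        + S12f C.μ l (q p) (q (rot (C.ν ^ 2)⁻¹ p)) * ((C.ν ^ 2)⁻¹ * qz (rot (C.ν ^ 2)⁻¹ p)))) ∧
      (∀ p ∈ (S2 (r * s ^ 2)).D, Ew p =
        ((S11f C.μ l (q p) (q (rot (C.ν ^ 2) p)) + S11f C.μ l (q p) (q (rot (C.ν ^ 2)⁻¹ p))) * qw p
        + S12f C.μ l (q p) (q (rot (C.ν ^ 2) p)) * ((C.ν ^ 2)⁻¹ * qw (rot (C.ν ^ 2) p))
        + S12f C.μ l (q p) (q (rot (C.ν ^ 2)⁻¹ p)) * (C.ν ^ 2 * qw (rot (C.ν ^ 2)⁻¹ p)))) := by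
  obtain ⟨Ez, hz1, hz2⟩ := B_dz h.r0 h.hs0 h.hs1 hS.bE
  obtain ⟨Ew, hw1, hw2⟩ := B_dw h.r0 h.hs0 h.hs1 hS.bE
  have h1s : 0 < 1 - s := by have := h.hs1; linarith
  have hb : 1 / (r * (1 - s)) * ε ≤ Λ ^ 1 * ε ^ 1 := by
    rw [pow_one, pow_one]
    have h1 : 1 / (r * (1 - s)) ≤ 1 / (1 - s) := by
      apply one_div_le_one_div_of_le h1s
      have := h.r1
      nlinarith
    have := h.hε0
    have := h.hsΛ
    gcongr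
    linarith
  have hlt : r * s ^ 2 < r := by have := h.rlt (a := 0) (b := 2) (by norm_num); simpa using this
  refine ⟨Ez, Ew, hz1.mono hb, hw1.mono hb, fun p hp => ?_, fun p hp => ?_⟩
  · obtain ⟨h1, h2⟩ := memlt (h.rpos 2) hlt hp
    exact (hz2 p h1 h2).unique (hS.Ez h hp)
  · obtain ⟨h1, h2⟩ := memlt (h.rpos 2) hlt hp
    exact (hw2 p h1 h2).unique (hS.Ew h hp)

/-- closeness of the bracket -/
lemma St.G_close (hS : St C ML r κ ε q qz qw st l) (h : Big C ML r κ ε Λ s) :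
    (S2 r).B (‖C.g0‖ / 2) (fun p => C.Gf l q qz qw p - C.g0) := by
  have hκ0 := hS.κ0
  have hκ := h.hκ
  have c1 := B_rot C.hω' hS.b12
  have z' := B_rot C.hω' hS.bqz
  have w' := B_rot C.hω' hS.bqw
  have Cq := Sys.B.const (S2 r) (C.q1 : ℂ)
  have Z' := z'.add Cq
  have W' := w'.add Cq
  have Z := hS.bqz.add Cq
  have W := hS.bqw.add Cq
  simp only [sub_add_cancel] at Z' W' Z W
  have n1 : ‖(C.q1 : ℂ)‖ = |C.q1| := by rw [Complex.norm_real, Real.norm_eq_abs]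
  have t1 := (Z'.mul W).const_mul (C.ν ^ 2)⁻¹
  have t2 := (W'.mul Z).const_mul (C.ν ^ 2)
  have t3 := c1.mul (t1.sub t2)
  have t4 := ((z'.mul W).add (hS.bqw.const_mul (C.q1 : ℂ))).const_mul (C.ν ^ 2)⁻¹
  have t5 := ((w'.mul Z).add (hS.bqz.const_mul (C.q1 : ℂ))).const_mul (C.ν ^ 2)
  have t6 := (t4.sub t5).const_mul (((C.T : ℂ) ^ 2 + 1) / 2)
  have t7 := t3.add t6
  refine (t7.mono ?_).congr (fun p hp => ?_)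
  · refine le_trans ?_ h.hκg
    rw [C.hω, C.hω', n1]
    have n2 : ‖((C.T : ℂ) ^ 2 + 1) / 2‖ = (C.T ^ 2 + 1) / 2 := by
      have : ((C.T : ℂ) ^ 2 + 1) / 2 = (((C.T ^ 2 + 1) / 2 : ℝ) : ℂ) := by push_cast; ring
      rw [this, Complex.norm_real, Real.norm_of_nonneg (by positivity)]
    rw [n2]
    have ha := abs_nonneg C.q1
    have hT2 := sq_nonneg C.T
    set a := |C.q1|
    have e1 : κ * (1 * ((κ + a) * (κ + a)) + 1 * ((κ + a) * (κ + a))) ≤ κ * (2 * (a + 1) ^ 2) := by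
      have : (κ + a) ≤ a + 1 := by linarith
      have : (κ + a) * (κ + a) ≤ (a + 1) * (a + 1) := by gcongr
      gcongr
      linarith
    have e2 : (C.T ^ 2 + 1) / 2 * (1 * (κ * (κ + a) + a * κ) + 1 * (κ * (κ + a) + a * κ)) ≤ κ * ((C.T ^ 2 + 1) * (2 * (a + 1) ^ 2)) := by
      have : κ * (κ + a) + a * κ ≤ κ * (2 * (a + 1)) := by nlinarith
      have h3 : κ * (2 * (a + 1)) ≤ κ * (2 * (a + 1) ^ 2) := by
        gcongr; nlinarith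
      have h4 : 0 ≤ (C.T ^ 2 + 1) := by positivity
      nlinarith
    have e3 : 0 ≤ κ * (a + 1) ^ 2 := by positivity
    nlinarith
  · have e0 : rot (C.ν ^ 2) (rot (C.ν ^ 2)⁻¹ p) = p := C.rot_ww' p
    unfold Cst.Gf Cst.g0
    simp only [e0]
    ring

/-- the bracket identity -/
lemma St.G_id (hS : St C ML r κ ε q qz qw st l) (h : Big C ML r κ ε Λ s) {Ez Ew : ℂ × ℂ → ℂ}
    (hz : ∀ p ∈ (S2 (r * s ^ 2)).D, Ez p =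
        ((S11f C.μ l (q p) (q (rot (C.ν ^ 2) p)) + S11f C.μ l (q p) (q (rot (C.ν ^ 2)⁻¹ p))) * qz p
        + S12f C.μ l (q p) (q (rot (C.ν ^ 2) p)) * (C.ν ^ 2 * qz (rot (C.ν ^ 2) p))
        + S12f C.μ l (q p) (q (rot (C.ν ^ 2)⁻¹ p)) * ((C.ν ^ 2)⁻¹ * qz (rot (C.ν ^ 2)⁻¹ p))))
    (hw : ∀ p ∈ (S2 (r * s ^ 2)).D, Ew p =
        ((S11f C.μ l (q p) (q (rot (C.ν ^ 2) p)) + S11f C.μ l (q p) (q (rot (C.ν ^ 2)⁻¹ p))) * qw p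
        + S12f C.μ l (q p) (q (rot (C.ν ^ 2) p)) * ((C.ν ^ 2)⁻¹ * qw (rot (C.ν ^ 2) p))
        + S12f C.μ l (q p) (q (rot (C.ν ^ 2)⁻¹ p)) * (C.ν ^ 2 * qw (rot (C.ν ^ 2)⁻¹ p))))
    {p : ℂ × ℂ} (hp : p ∈ (S2 (r * s ^ 2)).D) :
    C.Gf l q qz qw (rot (C.ν ^ 2) p) - C.Gf l q qz qw p = qz p * Ew p - qw p * Ez p := by
  rw [hz p hp, hw p hp]
  unfold Cst.Gf
  rw [C.rot_w'w, S12f_symm C.μ l (q p) (q (rot (C.ν ^ 2)⁻¹ p))]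
  ring

/-- solution of the linearised equation -/
lemma St.lin (hS : St C ML r κ ε q qz qw st l) (h : Big C ML r κ ε Λ s) :
    ∃ f e1 : ℂ × ℂ → ℂ, Q (S2 (r * s ^ 2)) Λ ε 7 1 f ∧ Q (S2 (r * s ^ 4)) Λ ε 8 2 e1 ∧
      ∀ p ∈ (S2 (r * s ^ 4)).D, C.Ef l q p + C.Jf l q f p = e1 p := by
  have hΛ2 := h.Λ2
  have hΛ0 := h.Λ0
  have hε0 := h.hε0
  have h1s : 0 < 1 - s := by have := h.hs1; linarith
  obtain ⟨Ez, Ew, hz1, hw1, hz2, hw2⟩ := hS.EzEw h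
  obtain ⟨a, ha⟩ := hS.G_close h
  have hΓ0 := C.hΓ
  have hdivc : C.Γ / (1 - s) ^ 2 ≤ Λ ^ 3 := by
    have e : C.Γ / (1 - s) ^ 2 = C.Γ * (1 / (1 - s)) * (1 / (1 - s)) := by field_simp
    rw [e]
    have h1 := h.hsΛ
    have h2 := h.hΓ
    have h3 : 0 ≤ 1 / (1 - s) := by positivity
    calc C.Γ * (1 / (1 - s)) * (1 / (1 - s)) ≤ Λ * Λ * Λ := by gcongr
      _ = Λ ^ 3 := by ring
  -- functions on smaller discs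
  have hqz2 : Q (S2 (r * s ^ 2)) Λ ε 1 0 qz :=
    B_rmono (h.rpos 2) (h.rle 2) (hS.qz_B h) (by simp)
  have hqw2 : Q (S2 (r * s ^ 2)) Λ ε 1 0 qw :=
    B_rmono (h.rpos 2) (h.rle 2) (hS.qw_B h) (by simp)
  have hs12 : r * s ^ 2 ≤ r * s := by have := h.rk (a := 1) (b := 2) (by norm_num); simpa using this
  have hz1' := Q_r hz1 (h.rpos 2) hs12
  have hw1' := Q_r hw1 (h.rpos 2) hs12
  have hd : Q (S2 (r * s ^ 2)) Λ ε 3 1 (fun p => qz p * Ew p - qw p * Ez p) :=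
    (hqz2.mul hw1' hΛ2 hε0 (p := 2) (by norm_num) (by norm_num)).sub
      (hqw2.mul hz1' hΛ2 hε0 (p := 2) (by norm_num) (by norm_num)) hΛ2 hε0 (by norm_num) (by norm_num)
  have hoff := offdiag (h.rpos 2) (h.rle 2) h.hs0 h.hs1 hΓ0 C.hω C.hdiv ha hd (fun p hp => by
    have := hS.G_id h hz2 hw2 hp
    rw [← this]; ring)
  have er4 : r * s ^ 2 * s ^ 2 = r * s ^ 4 := by ring
  rw [er4] at hoff
  set H0 : ℂ × ℂ → ℂ := fun p => ∑' i, dg a i * (p.1 ^ i.1 * p.2 ^ i.2) with hH0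
  have hH0B : (S2 r).B (‖C.g0‖ / 2) H0 := ⟨_, BC_dg ha⟩
  have hH0rot : ∀ p, H0 (rot (C.ν ^ 2) p) = H0 p := fun p => dg_rot C.ω0 p
  have hH0rot' : ∀ p, H0 (rot (C.ν ^ 2)⁻¹ p) = H0 p := fun p => dg_rot (inv_ne_zero C.ω0) p
  set G0 : ℂ × ℂ → ℂ := fun p => C.g0 + H0 p with hG0
  obtain ⟨hinv, hGne⟩ := Sys.B.inv (S := S2 r) (c := C.g0) h.hg0 (f := G0) (by
    refine hH0B.congr (fun p _ => ?_)
    simp only [hG0]; ring)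
  have hoff6 : Q (S2 (r * s ^ 4)) Λ ε 6 1 (fun p => G0 p - C.Gf l q qz qw p) := by
    refine (hoff.neg.mono ?_).congr (fun p _ => ?_)
    · calc C.Γ / (1 - s) ^ 2 * (Λ ^ 3 * ε ^ 1) ≤ Λ ^ 3 * (Λ ^ 3 * ε ^ 1) := by gcongr
        _ = Λ ^ 6 * ε ^ 1 := by ring
    · simp only [hG0, hH0]; ring
  have hiG4 : ∀ n, Q (S2 (r * s ^ n)) Λ ε 1 0 (fun p => (G0 p)⁻¹) := fun n =>
    B_rmono (h.rpos n) (h.rle n) hinv (by have := h.hg; simpa using this)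
  obtain ⟨b1, hb1, hres1⟩ := hS.resw h
  obtain ⟨b2, hb2, hres2⟩ := hS.resz h
  obtain ⟨ξ0, hξB, hξ⟩ := solve h.r0 h.hs0 h.hs1 hΓ0 C.hω C.hdiv 1 (by norm_num) hb1 hres1
  obtain ⟨ζ0, hζB, hζ⟩ := solve h.r0 h.hs0 h.hs1 hΓ0 C.hω C.hdiv (-1) (by norm_num) hb2.neg (fun m n hmn => by
    rw [hres2 m n hmn, neg_zero])
  have hξQ : Q (S2 (r * s ^ 2)) Λ ε 4 1 ξ0 := by
    refine hξB.mono ?_
    calc C.Γ / (1 - s) ^ 2 * (Λ * ε) ≤ Λ ^ 3 * (Λ * ε) := by gcongr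
      _ = Λ ^ 4 * ε ^ 1 := by ring
  have hζQ : Q (S2 (r * s ^ 2)) Λ ε 4 1 ζ0 := by
    refine hζB.mono ?_
    calc C.Γ / (1 - s) ^ 2 * (Λ * ε) ≤ Λ ^ 3 * (Λ * ε) := by gcongr
      _ = Λ ^ 4 * ε ^ 1 := by ring
  have hξ5 := hξQ.mul (hiG4 2) hΛ2 hε0 (p := 5) (j := 1) (by norm_num) (by norm_num)
  have hζ5 := hζQ.mul (hiG4 2) hΛ2 hε0 (p := 5) (j := 1) (by norm_num) (by norm_num)
  have hf := (hqz2.mul hξ5 hΛ2 hε0 (p := 6) (j := 1) (by norm_num) (by norm_num)).add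
    (hqw2.mul hζ5 hΛ2 hε0 (p := 6) (j := 1) (by norm_num) (by norm_num)) hΛ2 hε0 (p := 7) (by norm_num) (by norm_num)
  have h42 : r * s ^ 4 ≤ r * s ^ 2 := h.rk (by norm_num)
  have hξ54 := Q_r hξ5 (h.rpos 4) h42
  have hζ54 := Q_r hζ5 (h.rpos 4) h42
  have hz4 := Q_r hz1' (h.rpos 4) h42
  have hw4 := Q_r hw1' (h.rpos 4) h42
  have hE4 : Q (S2 (r * s ^ 4)) Λ ε 0 1 (C.Ef l q) := B_rmono (h.rpos 4) (h.rle 4) hS.bE (by simp)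
  have he := ((hξ54.mul hz4 hΛ2 hε0 (p := 6) (j := 2) (by norm_num) (by norm_num)).add
    (hζ54.mul hw4 hΛ2 hε0 (p := 6) (j := 2) (by norm_num) (by norm_num)) hΛ2 hε0 (p := 7) (by norm_num) (by norm_num)).add
    ((hE4.mul hoff6 hΛ2 hε0 (p := 6) (j := 2) (by norm_num) (by norm_num)).mul (hiG4 4) hΛ2 hε0 (p := 7) (j := 2) (by norm_num) (by norm_num))
    hΛ2 hε0 (p := 8) (by norm_num) (by norm_num)
  refine ⟨_, _, hf, he, fun p hp => ?_⟩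
  have hp2 : p ∈ (S2 (r * s ^ 2)).D := mem_mono (h.rpos 4) h42 hp
  have hpr : p ∈ (S2 r).D := mem_mono (h.rpos 4) (h.rle 4) hp
  have hm2 : rot (C.ν ^ 2)⁻¹ p ∈ (S2 (r * s ^ 2)).D := rot_mem C.hω' hp2
  have a1 := hξ p hp2
  have a2 := hξ _ hm2
  have b1 := hζ p hp2
  have b2 := hζ _ hm2
  rw [C.rot_ww'] at a2 b2
  rw [zpow_one] at a1 a2
  rw [zpow_neg_one] at b1 b2
  have g1 : G0 (rot (C.ν ^ 2) p) = G0 p := by simp only [hG0]; rw [hH0rot]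
  have g2 : G0 (rot (C.ν ^ 2)⁻¹ p) = G0 p := by simp only [hG0]; rw [hH0rot']
  have hGp := hGne p hpr
  have hω0 := C.ω0
  have a1' : ξ0 (rot (C.ν ^ 2) p) = C.ν ^ 2 * ξ0 p + qw (rot (C.ν ^ 2) p) * C.Ef l q (rot (C.ν ^ 2) p) := by
    linear_combination a1
  have b1' : ζ0 (rot (C.ν ^ 2) p) = (C.ν ^ 2)⁻¹ * ζ0 p - qz (rot (C.ν ^ 2) p) * C.Ef l q (rot (C.ν ^ 2) p) := by
    linear_combination b1
  have a2' : ξ0 (rot (C.ν ^ 2)⁻¹ p) = (C.ν ^ 2)⁻¹ * (ξ0 p - qw p * C.Ef l q p) := by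
    rw [eq_inv_mul_iff_mul_eq₀ hω0]
    linear_combination -a2
  have b2' : ζ0 (rot (C.ν ^ 2)⁻¹ p) = C.ν ^ 2 * (ζ0 p + qz p * C.Ef l q p) := by
    have : (C.ν ^ 2)⁻¹ * ζ0 (rot (C.ν ^ 2)⁻¹ p) = ζ0 p + qz p * C.Ef l q p := by linear_combination -b2
    rw [← this, mul_inv_cancel_left₀ hω0]
  rw [hz2 p hp2, hw2 p hp2]
  have hgf : C.Gf l q qz qw p = S12f C.μ l (q p) (q (rot (C.ν ^ 2)⁻¹ p))
    * ((C.ν ^ 2)⁻¹ * (qz (rot (C.ν ^ 2)⁻¹ p) * qw p) - C.ν ^ 2 * (qw (rot (C.ν ^ 2)⁻¹ p) * qz p)) := by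
    unfold Cst.Gf; rw [S12f_symm]
  rw [hgf]
  unfold Cst.Jf
  simp only [g1, g2]
  rw [a1', b1', a2', b2']
  generalize hiG : (G0 p)⁻¹ = iG
  have hGi : G0 p * iG = 1 := by rw [← hiG]; exact mul_inv_cancel₀ hGp
  linear_combination (-(C.Ef l q p)) * hGi

end st

end Pool.Agent.Helper649.Bil
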