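import Mathlib

set_option autoImplicit false

namespace Pool.Agent.Helper649.Bil

open Polynomial Finset

/-- `(X+1)^a (X-1)^b` -/
noncomputable def Pq (a b : ℕ) : ℝ[X] := (X + 1) ^ a * (X - 1) ^ b

lemma Pq_deg (a b : ℕ) : (Pq a b).natDegree ≤ a + b := by
  unfold Pq
  refine natDegree_mul_le.trans ?_
  refine add_le_add ?_ ?_
  · refine natDegree_pow_le.trans ?_
    have : (X + 1 : ℝ[X]).natDegree ≤ 1 := by compute_degree
    nlinarith
  · refine natDegree_pow_le.trans ?_
    have : (X - 1 : ℝ[X]).natDegree ≤ 1 := by compute_degree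
    nlinarith

lemma Pq_big {a b n : ℕ} (h : a + b < n) : (Pq a b).coeff n = 0 :=
  coeff_eq_zero_of_natDegree_lt ((Pq_deg a b).trans_lt h)

lemma Pq_succ_right (a b : ℕ) : Pq a (b + 1) = Pq a b * X - Pq a b := by
  unfold Pq; ring

lemma Pq_succ_left (a b : ℕ) : Pq (a + 1) b = Pq a b * X + Pq a b := by
  unfold Pq; ring

lemma Pq_symm (a b : ℕ) : ∀ i j, i + j = a + b → (Pq a b).coeff j = (-1) ^ b * (Pq a b).coeff i := by
  induction b with
  | zero =>
    induction a with
    | zero =>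
      intro i j h
      have : i = 0 := by omega
      have : j = 0 := by omega
      subst_vars; simp
    | succ a ih =>
      intro i j h
      rw [Pq_succ_left, coeff_add, coeff_add]
      rcases i with _ | i
      · rcases j with _ | j
        · omega
        · rw [coeff_mul_X, coeff_mul_X_zero, Pq_big (n := j + 1) (by omega)]
          have := ih 0 j (by omega)
          rw [this]; ring
      · rcases j with _ | j
        · rw [coeff_mul_X, coeff_mul_X_zero, Pq_big (n := i + 1) (by omega)]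
          have := ih i 0 (by omega)
          rw [this]; ring
        · rw [coeff_mul_X, coeff_mul_X]
          have h1 := ih (i + 1) j (by omega)
          have h2 := ih i (j + 1) (by omega)
          rw [h1, h2]; ring
  | succ b ih =>
    intro i j h
    rw [Pq_succ_right, coeff_sub, coeff_sub]
    rcases i with _ | i
    · rcases j with _ | j
      · omega
      · rw [coeff_mul_X, coeff_mul_X_zero, Pq_big (n := j + 1) (by omega)]
        have := ih 0 j (by omega)
        rw [this, pow_succ]; ring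
    · rcases j with _ | j
      · rw [coeff_mul_X, coeff_mul_X_zero, Pq_big (n := i + 1) (by omega)]
        have := ih i 0 (by omega)
        rw [this, pow_succ]; ring
      · rw [coeff_mul_X, coeff_mul_X]
        have h1 := ih (i + 1) j (by omega)
        have h2 := ih i (j + 1) (by omega)
        rw [h1, h2, pow_succ]; ring

/-- the central value -/
noncomputable def Fc (a b : ℕ) : ℝ := (Nat.centralBinom a : ℝ) * Nat.centralBinom b / ((a + b).choose a : ℝ)

lemma choose_pos' (a b : ℕ) : (0 : ℝ) < ((a + b).choose a : ℝ) := by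
  exact_mod_cast Nat.choose_pos (Nat.le_add_right a b)

lemma cB_succ (a : ℕ) : (Nat.centralBinom (a + 1) : ℝ) = 2 * (2 * a + 1) / (a + 1) * Nat.centralBinom a := by
  have h := Nat.succ_mul_centralBinom_succ a
  have h' : ((a : ℝ) + 1) * (Nat.centralBinom (a + 1) : ℝ) = 2 * (2 * a + 1) * Nat.centralBinom a := by
    exact_mod_cast h
  have : (0 : ℝ) < (a : ℝ) + 1 := by positivity
  field_simp
  linarith

lemma Fc_left (a b : ℕ) : Fc (a + 1) b = 2 * (2 * a + 1) / (a + b + 1) * Fc a b := by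
  unfold Fc
  have h := Nat.add_one_mul_choose_eq (a + b) a
  have h' : ((a : ℝ) + b + 1) * ((a + b).choose a : ℝ) = ((a + b + 1).choose (a + 1) : ℝ) * (a + 1) := by
    exact_mod_cast h
  have e : a + 1 + b = a + b + 1 := by ring
  have h1 := choose_pos' a b
  have h2 : (0 : ℝ) < ((a + b + 1).choose (a + 1) : ℝ) := by
    exact_mod_cast Nat.choose_pos (by omega)
  rw [e, cB_succ]
  have : (0 : ℝ) < (a : ℝ) + 1 := by positivity
  have : (0 : ℝ) < (a : ℝ) + b + 1 := by positivity
  field_simp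
  linear_combination ((Nat.centralBinom a : ℝ) * Nat.centralBinom b) * h' 

lemma Fc_right (a b : ℕ) : Fc a (b + 1) = 2 * (2 * b + 1) / (a + b + 1) * Fc a b := by
  unfold Fc
  have h := Nat.choose_mul_succ_eq (a + b) a
  have e0 : a + b + 1 - a = b + 1 := by omega
  rw [e0] at h
  have h' : ((a + b).choose a : ℝ) * ((a : ℝ) + b + 1) = ((a + b + 1).choose a : ℝ) * (b + 1) := by
    exact_mod_cast h
  have e : a + (b + 1) = a + b + 1 := by ring
  have h1 := choose_pos' a b
  have h2 : (0 : ℝ) < ((a + b + 1).choose a : ℝ) := by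
    exact_mod_cast Nat.choose_pos (by omega)
  rw [e, cB_succ b]
  have : (0 : ℝ) < (b : ℝ) + 1 := by positivity
  have : (0 : ℝ) < (a : ℝ) + b + 1 := by positivity
  field_simp
  linear_combination ((Nat.centralBinom a : ℝ) * Nat.centralBinom b) * h' 

lemma Fc_nonneg (a b : ℕ) : 0 ≤ Fc a b := by unfold Fc; positivity

lemma central (b : ℕ) : ∀ a, (Pq (2 * a) (2 * b)).coeff (a + b) = (-1) ^ b * Fc a b := by
  induction b with
  | zero =>
    intro a
    unfold Pq Fc
    simp only [mul_zero, pow_zero, mul_one, add_zero, Nat.choose_self, Nat.cast_one, div_one,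
      Nat.centralBinom_zero, one_mul]
    rw [coeff_X_add_one_pow]; rfl
  | succ b ih =>
    intro a
    have e : Pq (2 * a) (2 * (b + 1)) = Pq (2 * (a + 1)) (2 * b) - C 4 * (Pq (2 * a) (2 * b) * X) := by
      unfold Pq
      have : (C 4 : ℝ[X]) = 4 := rfl
      rw [this]; ring
    rw [e, coeff_sub, coeff_C_mul, show a + (b + 1) = (a + b) + 1 from by ring, coeff_mul_X, ih a]
    have h1 := ih (a + 1)
    rw [show a + 1 + b = a + b + 1 from by ring] at h1
    rw [h1, Fc_left, Fc_right]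
    have : (0 : ℝ) < (a : ℝ) + b + 1 := by positivity
    field_simp
    ring

lemma Pq_sq (a b : ℕ) : Pq a b * Pq a b = Pq (2 * a) (2 * b) := by
  unfold Pq; ring

lemma sum_sq (a b : ℕ) : ∑ i ∈ range (a + b + 1), (Pq a b).coeff i ^ 2 = Fc a b := by
  have h1 := central b a
  rw [← Pq_sq, coeff_mul, Finset.Nat.sum_antidiagonal_eq_sum_range_succ_mk] at h1
  have h2 : ∑ k ∈ range (a + b).succ, (Pq a b).coeff k * (Pq a b).coeff (a + b - k)
      = (-1) ^ b * ∑ i ∈ range (a + b + 1), (Pq a b).coeff i ^ 2 := by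
    rw [Finset.mul_sum]
    refine Finset.sum_congr rfl (fun i hi => ?_)
    have := Pq_symm a b i (a + b - i) (by have := Finset.mem_range.mp hi; omega)
    rw [this]; ring
  simp only at h1
  rw [h2] at h1
  have h3 : ((-1 : ℝ) ^ b) ≠ 0 := by positivity
  exact mul_left_cancel₀ h3 h1

lemma coeff_le (a b p : ℕ) : |(Pq (2 * a) (2 * b)).coeff p| ≤ Fc a b := by
  rw [← Pq_sq, coeff_mul]
  have hS : ∀ n, ∑ i ∈ range (n + 1), (Pq a b).coeff i ^ 2 ≤ Fc a b := by
    intro n
    rw [← sum_sq]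
    rcases le_total n (a + b) with h | h
    · exact Finset.sum_le_sum_of_subset_of_nonneg (Finset.range_subset_range.mpr (by omega)) (fun _ _ _ => sq_nonneg _)
    · rw [← Finset.sum_subset (Finset.range_subset_range.mpr (by omega : a + b + 1 ≤ n + 1))]
      intro i _ hi
      rw [Finset.mem_range, not_lt] at hi
      rw [Pq_big (by omega)]; ring
  refine (Finset.abs_sum_le_sum_abs _ _).trans ?_
  have h1 : ∑ x ∈ antidiagonal p, |(Pq a b).coeff x.1 * (Pq a b).coeff x.2|
      ≤ ∑ x ∈ antidiagonal p, ((1 / 2) * (Pq a b).coeff x.1 ^ 2 + (1 / 2) * (Pq a b).coeff x.2 ^ 2) := by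
    refine Finset.sum_le_sum (fun x _ => ?_)
    rw [abs_le]; constructor <;> nlinarith [sq_nonneg ((Pq a b).coeff x.1 + (Pq a b).coeff x.2), sq_nonneg ((Pq a b).coeff x.1 - (Pq a b).coeff x.2)]
  refine h1.trans ?_
  rw [Finset.sum_add_distrib, ← Finset.mul_sum, ← Finset.mul_sum]
  have h2 : ∑ x ∈ antidiagonal p, (Pq a b).coeff x.1 ^ 2 = ∑ i ∈ range (p + 1), (Pq a b).coeff i ^ 2 := by
    rw [Finset.Nat.sum_antidiagonal_eq_sum_range_succ_mk]
  have h3 : ∑ x ∈ antidiagonal p, (Pq a b).coeff x.2 ^ 2 = ∑ i ∈ range (p + 1), (Pq a b).coeff i ^ 2 := by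
    rw [← h2]
    have := Finset.Nat.sum_antidiagonal_swap (n := p) (f := fun x => (Pq a b).coeff x.1 ^ 2)
    exact this
  rw [h2, h3]
  have := hS p
  linarith

lemma choose_Fc (a b : ℕ) : ((a + b).choose a : ℝ) * Fc a b = (Nat.centralBinom a : ℝ) * Nat.centralBinom b := by
  unfold Fc
  have := choose_pos' a b
  field_simp

lemma cB_mul_le (b : ℕ) : ∀ a, (Nat.centralBinom a : ℝ) * Nat.centralBinom b ≤ 2 ^ b * Nat.centralBinom (a + b) := by
  induction b with
  | zero => intro a; simp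
  | succ b ih =>
    intro a
    have h := ih a
    rw [cB_succ b, show a + (b + 1) = a + b + 1 from by ring, cB_succ (a + b)]
    have h1 : 2 * (2 * (b : ℝ) + 1) / (b + 1) ≤ 4 := by
      rw [div_le_iff₀ (by positivity)]; nlinarith
    have h2 : 2 ≤ 2 * (2 * ((a + b : ℕ) : ℝ) + 1) / (((a + b : ℕ) : ℝ) + 1) := by
      rw [le_div_iff₀ (by positivity)]
      have : (0 : ℝ) ≤ ((a + b : ℕ) : ℝ) := Nat.cast_nonneg _
      nlinarith
    have h3 : (0 : ℝ) ≤ Nat.centralBinom (a + b) := Nat.cast_nonneg _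
    have h4 : (0 : ℝ) ≤ (Nat.centralBinom a : ℝ) * Nat.centralBinom b := by positivity
    calc (Nat.centralBinom a : ℝ) * (2 * (2 * (b : ℝ) + 1) / (b + 1) * Nat.centralBinom b)
        = (2 * (2 * (b : ℝ) + 1) / (b + 1)) * ((Nat.centralBinom a : ℝ) * Nat.centralBinom b) := by ring
      _ ≤ 4 * (2 ^ b * Nat.centralBinom (a + b)) := by gcongr
      _ = 2 ^ (b + 1) * (2 * Nat.centralBinom (a + b)) := by ring
      _ ≤ 2 ^ (b + 1) * ((2 * (2 * ((a + b : ℕ) : ℝ) + 1) / (((a + b : ℕ) : ℝ) + 1)) * Nat.centralBinom (a + b)) := by gcongr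

/-- the coefficient bound -/
lemma comb_sup (a b p : ℕ) : ((a + b).choose a : ℝ) * |(Pq (2 * a) (2 * b)).coeff p|
    ≤ 2 ^ b * Nat.centralBinom (a + b) := by
  refine le_trans ?_ (cB_mul_le b a)
  rw [← choose_Fc]
  have := coeff_le a b p
  have := choose_pos' a b
  gcongr

/-- the summed bound -/
lemma comb_sum (a b : ℕ) : ((a + b).choose a : ℝ) * ∑ p ∈ range (2 * a + 2 * b + 1), |(Pq (2 * a) (2 * b)).coeff p|
    ≤ (2 * ((a + b : ℕ) : ℝ) + 1) * 2 ^ b * 4 ^ (a + b) := by
  have h1 := sq_sum_le_card_mul_sum_sq (s := range (2 * a + 2 * b + 1)) (f := fun p => |(Pq (2 * a) (2 * b)).coeff p|)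
  simp only [sq_abs, card_range] at h1
  rw [sum_sq] at h1
  have h2 : ((a + b).choose a : ℝ) ^ 2 ≤ ((2 * a + 2 * b).choose (2 * a) : ℝ) := by
    have h3 : (a + b).choose a * (a + b).choose a ≤ ((a + b) + (a + b)).choose (2 * a) := by
      rw [Nat.add_choose_eq (a + b) (a + b) (2 * a)]
      exact Finset.single_le_sum (f := fun ij : ℕ × ℕ => (a + b).choose ij.1 * (a + b).choose ij.2)
        (fun _ _ => Nat.zero_le _) (s := Finset.HasAntidiagonal.antidiagonal (2 * a)) (a := (a, a))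
        (by rw [Finset.HasAntidiagonal.mem_antidiagonal]; ring)
    rw [show (a + b) + (a + b) = 2 * a + 2 * b from by ring] at h3
    rw [pow_two]
    exact_mod_cast h3
  have h3 := choose_Fc (2 * a) (2 * b)
  have h4 := cB_mul_le (2 * b) (2 * a)
  have h5 : (Nat.centralBinom (2 * a + 2 * b) : ℝ) ≤ 4 ^ (2 * a + 2 * b) := by
    have : Nat.centralBinom (2 * a + 2 * b) ≤ 4 ^ (2 * a + 2 * b) := Nat.centralBinom_le_four_pow _
    exact_mod_cast this
  have hF := Fc_nonneg (2 * a) (2 * b)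
  have h6 : (((a + b).choose a : ℝ) * ∑ p ∈ range (2 * a + 2 * b + 1), |(Pq (2 * a) (2 * b)).coeff p|) ^ 2
      ≤ ((2 * ((a + b : ℕ) : ℝ) + 1) * 2 ^ b * 4 ^ (a + b)) ^ 2 := by
    rw [mul_pow]
    have hN : ((2 * a + 2 * b + 1 : ℕ) : ℝ) = 2 * ((a + b : ℕ) : ℝ) + 1 := by push_cast; ring
    rw [hN] at h1
    set N : ℝ := 2 * ((a + b : ℕ) : ℝ) + 1 with hNd
    have hN1 : 1 ≤ N := by rw [hNd]; have : (0 : ℝ) ≤ ((a + b : ℕ) : ℝ) := Nat.cast_nonneg _
                           linarith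
    calc ((a + b).choose a : ℝ) ^ 2 * (∑ p ∈ range (2 * a + 2 * b + 1), |(Pq (2 * a) (2 * b)).coeff p|) ^ 2
        ≤ ((2 * a + 2 * b).choose (2 * a) : ℝ) * (N * Fc (2 * a) (2 * b)) := by gcongr
      _ = N * (((2 * a + 2 * b).choose (2 * a) : ℝ) * Fc (2 * a) (2 * b)) := by ring
      _ ≤ N * (2 ^ (2 * b) * 4 ^ (2 * a + 2 * b)) := by
          rw [h3]
          have := h4.trans (mul_le_mul_of_nonneg_left h5 (by positivity : (0 : ℝ) ≤ 2 ^ (2 * b)))
          gcongr
      _ ≤ N ^ 2 * (2 ^ (2 * b) * 4 ^ (2 * a + 2 * b)) := by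
          have : N ≤ N ^ 2 := by nlinarith
          gcongr
      _ = (N * 2 ^ b * 4 ^ (a + b)) ^ 2 := by ring
  exact le_of_sq_le_sq h6 (by positivity)

/-- homogenisation -/
lemma homog (a b : ℕ) (z w : ℂ) : (z + w) ^ (2 * a) * (z - w) ^ (2 * b)
    = ∑ p ∈ range (2 * a + 2 * b + 1), ((Pq (2 * a) (2 * b)).coeff p : ℂ) * (z ^ p * w ^ (2 * a + 2 * b - p)) := by
  have hev : ∀ x : ℂ, ∑ p ∈ range (2 * a + 2 * b + 1), ((Pq (2 * a) (2 * b)).coeff p : ℂ) * x ^ p
      = (x + 1) ^ (2 * a) * (x - 1) ^ (2 * b) := by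
    intro x
    have h1 := Polynomial.eval₂_eq_sum_range' (Complex.ofRealHom) (p := Pq (2 * a) (2 * b)) (n := 2 * a + 2 * b + 1)
      (by have := Pq_deg (2 * a) (2 * b); omega) x
    have h2 : eval₂ Complex.ofRealHom x (Pq (2 * a) (2 * b)) = (x + 1) ^ (2 * a) * (x - 1) ^ (2 * b) := by
      unfold Pq
      rw [eval₂_mul, eval₂_pow, eval₂_pow, eval₂_add, eval₂_sub, eval₂_X, eval₂_one]
    rw [← h2, h1]; rfl
  by_cases hw : w = 0
  · subst hw
    rw [Finset.sum_eq_single (2 * a + 2 * b)]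
    · have : (Pq (2 * a) (2 * b)).coeff (2 * a + 2 * b) = 1 := by
        have h := Pq_symm (2 * a) (2 * b) 0 (2 * a + 2 * b) (by ring)
        rw [h, coeff_zero_eq_eval_zero]
        unfold Pq; simp
      rw [this]; simp; ring
    · intro p hp hne
      have := Finset.mem_range.mp hp
      rw [zero_pow (by omega)]; ring
    · intro h; exact absurd (Finset.mem_range.mpr (by omega)) h
  · have h := hev (z / w)
    have e1 : (z + w) ^ (2 * a) * (z - w) ^ (2 * b)
        = w ^ (2 * a + 2 * b) * ((z / w + 1) ^ (2 * a) * (z / w - 1) ^ (2 * b)) := by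
      have h1 : z + w = w * (z / w + 1) := by field_simp
      have h2 : z - w = w * (z / w - 1) := by field_simp
      rw [h1, h2, mul_pow, mul_pow, pow_add]
      have h3 : w * (z / w + 1) / w = z / w + 1 := by field_simp
      have h4 : w * (z / w - 1) / w = z / w - 1 := by field_simp
      ring
    rw [e1, ← h, Finset.mul_sum]
    refine Finset.sum_congr rfl (fun p hp => ?_)
    have hp' := Finset.mem_range.mp hp
    have e2 : w ^ (2 * a + 2 * b) = w ^ p * w ^ (2 * a + 2 * b - p) := by rw [← pow_add]; congr 1; omega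
    rw [e2, div_pow]
    have : w ^ p ≠ 0 := pow_ne_zero _ hw
    field_simp

end Pool.Agent.Helper649.Bil
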