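import Pool.Agent.Helper649.BilC

set_option autoImplicit false

namespace Pool.Agent.Helper649.Bil

open Complex

noncomputable def swf (f : ℂ × ℂ → ℂ) (p : ℂ × ℂ) : ℂ := (f p + f p.swap) / 2
noncomputable def ngf (f : ℂ × ℂ → ℂ) (p : ℂ × ℂ) : ℂ := (f p - f (-p)) / 2
noncomputable def ccf (f : ℂ × ℂ → ℂ) (p : ℂ × ℂ) : ℂ := (f p + starRingEnd ℂ (f (cj p))) / 2

lemma half_B {ρ M : ℝ} {f g : ℂ × ℂ → ℂ} (hf : (S2 ρ).B M f) (hg : (S2 ρ).B M g) :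
    (S2 ρ).B M (fun p => (f p + g p) / 2) := by
  have h := (hf.add hg).const_mul (1 / 2)
  refine (h.mono ?_).congr (fun p _ => by ring)
  have n2 : ‖(1 / 2 : ℂ)‖ = 1 / 2 := by norm_num
  rw [n2]; linarith

lemma swf_B {ρ M : ℝ} {f : ℂ × ℂ → ℂ} (hf : (S2 ρ).B M f) : (S2 ρ).B M (swf f) := half_B hf (B_swap hf)
lemma ngf_B {ρ M : ℝ} {f : ℂ × ℂ → ℂ} (hf : (S2 ρ).B M f) : (S2 ρ).B M (ngf f) :=
  (half_B hf (B_neg hf).neg).congr (fun p _ => by unfold ngf; ring)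
lemma ccf_B {ρ M : ℝ} {f : ℂ × ℂ → ℂ} (hf : (S2 ρ).B M f) : (S2 ρ).B M (ccf f) := half_B hf (B_cj hf)

/-- symmetrisation -/
noncomputable def Pf (f : ℂ × ℂ → ℂ) : ℂ × ℂ → ℂ := ccf (ngf (swf f))

lemma Pf_B {ρ M : ℝ} {f : ℂ × ℂ → ℂ} (hf : (S2 ρ).B M f) : (S2 ρ).B M (Pf f) := ccf_B (ngf_B (swf_B hf))

lemma cj_zero_neg (p : ℂ × ℂ) : cj (-p) = -cj p := cj_neg p

lemma Pf_swap (f : ℂ × ℂ → ℂ) (p : ℂ × ℂ) : Pf f p.swap = Pf f p := by
  have e : (-p).swap = -p.swap := rfl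
  have e2 : (-cj p).swap = -(cj p).swap := rfl
  unfold Pf ccf ngf swf
  rw [cj_swap, ← e, ← e2]
  simp only [Prod.swap_swap]
  rw [add_comm (f p.swap), add_comm (f (-p).swap), add_comm (f (cj p).swap), add_comm (f (-cj p).swap)]

lemma Pf_neg (f : ℂ × ℂ → ℂ) (p : ℂ × ℂ) : Pf f (-p) = -Pf f p := by
  unfold Pf ccf ngf swf
  rw [cj_neg]
  simp only [neg_neg, map_div₀, map_sub, map_add, map_ofNat]
  ring

lemma Pf_cj (f : ℂ × ℂ → ℂ) (p : ℂ × ℂ) : starRingEnd ℂ (Pf f (cj p)) = Pf f p := by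
  unfold Pf ccf
  rw [cj_cj]
  simp only [map_div₀, map_add, map_ofNat, Complex.conj_conj]
  rw [add_comm]

section st

variable {C : Cst} {ML r κ ε Λ s : ℝ} {q qz qw st : ℂ × ℂ → ℂ} {l : ℕ → ℝ}

lemma Cst.Jf_half (C : Cst) (l : ℕ → ℝ) (q f g : ℂ × ℂ → ℂ) (p : ℂ × ℂ) :
    C.Jf l q (fun p => (f p + g p) / 2) p = (C.Jf l q f p + C.Jf l q g p) / 2 := by
  unfold Cst.Jf; ring

lemma Cst.Jf_neg' (C : Cst) (l : ℕ → ℝ) (q f : ℂ × ℂ → ℂ) (p : ℂ × ℂ) :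
    C.Jf l q (fun p => -f p) p = -C.Jf l q f p := by
  unfold Cst.Jf; ring

lemma St.Jf_swap (hS : St C ML r κ ε q qz qw st l) (f : ℂ × ℂ → ℂ) {p : ℂ × ℂ} (hp : p ∈ (S2 r).D) :
    C.Jf l q (fun p => f p.swap) p = C.Jf l q f p.swap := by
  unfold Cst.Jf
  rw [swap_rot' (C.ν ^ 2), swap_rot' (C.ν ^ 2)⁻¹, inv_inv, hS.sym p hp, hS.sym _ (rot_mem C.hω' hp), hS.sym _ (rot_mem C.hω hp)]
  ring

lemma St.Jf_neg (hS : St C ML r κ ε q qz qw st l) (f : ℂ × ℂ → ℂ) {p : ℂ × ℂ} (hp : p ∈ (S2 r).D) :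
    C.Jf l q (fun p => f (-p)) p = C.Jf l q f (-p) := by
  unfold Cst.Jf
  rw [neg_rot, neg_rot, hS.odd p hp, hS.odd _ (rot_mem C.hω' hp), hS.odd _ (rot_mem C.hω hp), S12f_neg, S12f_neg,
    S11f_neg, S11f_neg]

lemma St.Jf_cj (hS : St C ML r κ ε q qz qw st l) (f : ℂ × ℂ → ℂ) {p : ℂ × ℂ} (hp : p ∈ (S2 r).D) :
    C.Jf l q (fun p => starRingEnd ℂ (f (cj p))) p = starRingEnd ℂ (C.Jf l q f (cj p)) := by
  unfold Cst.Jf
  simp only [map_add, map_mul, S11f_conj, S12f_conj]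
  rw [hS.real p hp, rot_cj C.hω, rot_cj C.hω', hS.real _ (rot_mem C.hω' hp), inv_inv,
    hS.real _ (rot_mem C.hω hp)]
  ring

/-- symmetrisation commutes with the linearised equation -/
lemma St.lin_Pf (hS : St C ML r κ ε q qz qw st l) {ρ : ℝ} (hρ : 0 < ρ) (hρr : ρ ≤ r) {f e : ℂ × ℂ → ℂ}
    (he : ∀ p ∈ (S2 ρ).D, C.Ef l q p + C.Jf l q f p = e p) :
    ∀ p ∈ (S2 ρ).D, C.Ef l q p + C.Jf l q (Pf f) p = Pf e p := by
  have step1 : ∀ p ∈ (S2 ρ).D, C.Ef l q p + C.Jf l q (swf f) p = swf e p := by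
    intro p hp
    have hpr := mem_mono hρ hρr hp
    have h1 : C.Jf l q (swf f) p = (C.Jf l q f p + C.Jf l q f p.swap) / 2 := by
      rw [← hS.Jf_swap f hpr]; exact C.Jf_half l q f (fun p => f p.swap) p
    have h2 := he p hp
    have h3 := he p.swap (swap_mem hp)
    rw [hS.Ef_swap hpr] at h3
    unfold swf at h1 ⊢
    rw [h1, ← h2, ← h3]; ring
  have step2 : ∀ p ∈ (S2 ρ).D, C.Ef l q p + C.Jf l q (ngf (swf f)) p = ngf (swf e) p := by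
    intro p hp
    have hpr := mem_mono hρ hρr hp
    have h1 : C.Jf l q (ngf (swf f)) p = (C.Jf l q (swf f) p + -C.Jf l q (swf f) (-p)) / 2 := by
      rw [← hS.Jf_neg (swf f) hpr, ← C.Jf_neg' l q (fun p => swf f (-p)) p]
      have := C.Jf_half l q (swf f) (fun p => -(swf f (-p))) p
      rw [← this]; unfold ngf; congr 1
    have h2 := step1 p hp
    have h3 := step1 (-p) (neg_mem hp)
    rw [hS.Ef_neg hpr] at h3
    rw [h1]
    unfold ngf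
    rw [← h2, ← h3]; ring
  intro p hp
  have hpr := mem_mono hρ hρr hp
  have h1 : C.Jf l q (Pf f) p = (C.Jf l q (ngf (swf f)) p + starRingEnd ℂ (C.Jf l q (ngf (swf f)) (cj p))) / 2 := by
    rw [← hS.Jf_cj (ngf (swf f)) hpr]
    exact C.Jf_half l q (ngf (swf f)) (fun p => starRingEnd ℂ (ngf (swf f) (cj p))) p
  have h2 := step2 p hp
  have h3 := step2 (cj p) (cj_mem hp)
  have h4 := hS.Ef_cj hpr
  rw [h1]
  show _ = ccf (ngf (swf e)) p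
  unfold ccf
  rw [← h2, ← h3, map_add, h4]; ring

lemma St.negz (hS : St C ML r κ ε q qz qw st l) {p : ℂ × ℂ} (h1 : ‖p.1‖ < r) (h2 : ‖p.2‖ < r) :
    qz (-p) = qz p := by
  have hr0 : 0 < r := lt_of_le_of_lt (norm_nonneg _) h1
  have d1 := hS.dz p h1 h2
  have d2 := hS.dz (-p) (by rw [Prod.fst_neg, norm_neg]; exact h1) (by rw [Prod.snd_neg, norm_neg]; exact h2)
  have d3 : HasDerivAt (fun z => -q (-z, -p.2)) (qz (-p)) p.1 := by
    have d4 : HasDerivAt (fun z : ℂ => -z) (-1) p.1 := (hasDerivAt_id p.1).neg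
    have d5 := (HasDerivAt.comp p.1 (h₂ := fun z => q (z, -p.2)) (h := fun z : ℂ => -z) d2 d4).neg
    rw [mul_neg_one, neg_neg] at d5
    exact d5
  refine d3.unique (d1.congr_of_eventuallyEq ?_)
  have ho : Metric.ball (0 : ℂ) r ∈ nhds p.1 := Metric.isOpen_ball.mem_nhds (by rw [mem_ball_zero_iff]; exact h1)
  filter_upwards [ho] with z hz
  rw [mem_ball_zero_iff] at hz
  have := hS.odd (z, p.2) (by rw [mem_S2 hr0]; exact ⟨hz.le, h2.le⟩)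
  have e : -((z, p.2) : ℂ × ℂ) = (-z, -p.2) := rfl
  rw [e] at this
  rw [this, neg_neg]

lemma St.negw (hS : St C ML r κ ε q qz qw st l) {p : ℂ × ℂ} (h1 : ‖p.1‖ < r) (h2 : ‖p.2‖ < r) :
    qw (-p) = qw p := by
  have e1 := hS.sw (p := p.swap) h2 h1
  have e2 := hS.sw (p := (-p).swap) (by
    show ‖-p.2‖ < r
    rw [norm_neg]; exact h2) (by
    show ‖-p.1‖ < r
    rw [norm_neg]; exact h1)
  rw [Prod.swap_swap] at e1 e2
  rw [e1, e2]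
  have e : (-p).swap = -p.swap := rfl
  rw [e]
  exact hS.negz (p := p.swap) h2 h1

lemma St.cjz (hS : St C ML r κ ε q qz qw st l) {p : ℂ × ℂ} (h1 : ‖p.1‖ < r) (h2 : ‖p.2‖ < r) :
    starRingEnd ℂ (qz (cj p)) = qz p := by
  have hr0 : 0 < r := lt_of_le_of_lt (norm_nonneg _) h1
  have d1 := hS.dz p h1 h2
  have d2 := hS.dz (cj p) (by unfold cj; rw [RCLike.norm_conj]; exact h1) (by unfold cj; rw [RCLike.norm_conj]; exact h2)
  have d3 := d2.conj_conj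
  have e0 : starRingEnd ℂ ((cj p).1) = p.1 := by unfold cj; simp
  rw [e0] at d3
  refine d3.unique (d1.congr_of_eventuallyEq ?_)
  have ho : Metric.ball (0 : ℂ) r ∈ nhds p.1 := Metric.isOpen_ball.mem_nhds (by rw [mem_ball_zero_iff]; exact h1)
  filter_upwards [ho] with z hz
  rw [mem_ball_zero_iff] at hz
  have := hS.real (z, p.2) (by rw [mem_S2 hr0]; exact ⟨hz.le, h2.le⟩)
  rw [← this]; rfl

lemma St.cjw (hS : St C ML r κ ε q qz qw st l) {p : ℂ × ℂ} (h1 : ‖p.1‖ < r) (h2 : ‖p.2‖ < r) :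
    starRingEnd ℂ (qw (cj p)) = qw p := by
  have e1 := hS.sw (p := p.swap) h2 h1
  have e2 := hS.sw (p := (cj p).swap) (by
    show ‖starRingEnd ℂ p.2‖ < r
    rw [RCLike.norm_conj]; exact h2) (by
    show ‖starRingEnd ℂ p.1‖ < r
    rw [RCLike.norm_conj]; exact h1)
  rw [Prod.swap_swap] at e1 e2
  rw [e1, e2]
  exact hS.cjz (p := p.swap) h2 h1

end st

/-- coefficient symmetries of a symmetric function -/
lemma coef_sym {ρ M : ℝ} (hρ : 0 < ρ) {b : ℕ × ℕ → ℂ} {g : ℂ × ℂ → ℂ} (hg : (S2 ρ).BC M b g)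
    (h1 : ∀ p ∈ (S2 ρ).D, g p.swap = g p) (h2 : ∀ p ∈ (S2 ρ).D, g (-p) = -g p)
    (h3 : ∀ p ∈ (S2 ρ).D, starRingEnd ℂ (g (cj p)) = g p) :
    (∀ i : ℕ × ℕ, b i.swap = b i) ∧ (∀ i : ℕ × ℕ, Even (i.1 + i.2) → b i = 0) ∧ (∀ i, starRingEnd ℂ (b i) = b i) := by
  have e1 := BC_unique hρ (BC_swap hg) hg h1
  have e2 := BC_unique hρ (BC_neg hg) hg.neg h2
  have e3 := BC_unique hρ (BC_cj hg) hg h3
  refine ⟨fun i => congrFun e1 i, fun i hi => ?_, fun i => congrFun e3 i⟩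
  have := congrFun e2 i
  simp only [hi.neg_one_pow, one_mul] at this
  have h4 : (2 : ℂ) * b i = 0 := by linear_combination this
  simpa using h4

/-- reality of coefficients -/
lemma coef_real {ρ M : ℝ} (hρ : 0 < ρ) {b : ℕ × ℕ → ℂ} {g : ℂ × ℂ → ℂ} (hg : (S2 ρ).BC M b g)
    (h3 : ∀ p ∈ (S2 ρ).D, starRingEnd ℂ (g (cj p)) = g p) : ∀ i, starRingEnd ℂ (b i) = b i := by
  have e3 := BC_unique hρ (BC_cj hg) hg h3
  exact fun i => congrFun e3 i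

end Pool.Agent.Helper649.Bil
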