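import Mathlib

set_option autoImplicit false

namespace Pool.Agent.Helper649.Billiard

/-- Oriented lines of the plane `ℂ`: a unit vector and a signed distance. -/
abbrev OLine : Type := Circle × ℝ

/-- The points of the oriented line `(u, d)`: all `z` with `Im (conj u * z) = d`. -/
def pts (ℓ : OLine) : Set ℂ := {z | (starRingEnd ℂ (ℓ.1 : ℂ) * z).im = ℓ.2}

/-- `Ω` is a bounded strictly convex domain whose boundary is the smooth regular simple closed
curve `γ` (of period `2 π`), of positive curvature. -/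
structure IsTable (Ω : Set ℂ) (γ : ℝ → ℂ) : Prop where
  isOpen : IsOpen Ω
  nonempty : Ω.Nonempty
  convex : Convex ℝ Ω
  bounded : Bornology.IsBounded Ω
  strictConvex : StrictConvex ℝ (closure Ω)
  smooth : ContDiff ℝ (⊤ : ℕ∞) γ
  periodic : ∀ t, γ (t + 2 * Real.pi) = γ t
  injOn : Set.InjOn γ (Set.Ico 0 (2 * Real.pi))
  regular : ∀ t, deriv γ t ≠ 0
  curved : ∀ t, 0 < (starRingEnd ℂ (deriv γ t) * deriv (deriv γ) t).im
  boundary : frontier Ω = Set.range γ

/-- Invariance under the two reflections `x + i y ↦ x - i y` and `x + i y ↦ -x + i y`. -/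
def EllipseSymm (Ω : Set ℂ) : Prop :=
  (∀ z ∈ Ω, starRingEnd ℂ z ∈ Ω) ∧ ∀ z ∈ Ω, -starRingEnd ℂ z ∈ Ω

/-- The billiard reflection law. The oriented line `ℓ` leaves `Ω` at the boundary point `γ t`; the
oriented line `ℓ'` passes through this point, and its direction is the mirror image of the
direction of `ℓ` in the tangent line of the boundary at this point. -/
def Reflects (Ω : Set ℂ) (γ : ℝ → ℂ) (ℓ ℓ' : OLine) : Prop :=
  ∃ t : ℝ, γ t ∈ pts ℓ ∧ (∃ s : ℝ, 0 < s ∧ γ t - s * (ℓ.1 : ℂ) ∈ Ω) ∧ γ t ∈ pts ℓ' ∧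
    (ℓ'.1 : ℂ) = deriv γ t ^ 2 / (‖deriv γ t‖ : ℂ) ^ 2 * starRingEnd ℂ (ℓ.1 : ℂ)

open Classical in
/-- The billiard map on oriented lines. -/
noncomputable def billiard (Ω : Set ℂ) (γ : ℝ → ℂ) (ℓ : OLine) : OLine :=
  if h : ∃ ℓ', Reflects Ω γ ℓ ℓ' then h.choose else ℓ

end Pool.Agent.Helper649.Billiard
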