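import Pool.Agent.Helper649.BilD

set_option autoImplicit false

namespace Pool.Agent.Helper649.Bil

open Complex

section st

variable {C : Cst} {ML r κ ε Λ s : ℝ} {q qz qw st : ℂ × ℂ → ℂ} {l : ℕ → ℝ}

/-- differentiated normalisation relation -/
lemma St.xder (hS : St C ML r κ ε q qz qw st l) (h : Big C ML r κ ε Λ s) :
    ∃ sz sw : ℂ × ℂ → ℂ, Q (S2 (r * s)) Λ ε 1 0 sz ∧ Q (S2 (r * s)) Λ ε 1 0 sw ∧
      ∀ p : ℂ × ℂ, ‖p.1‖ < r → ‖p.2‖ < r →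
        (p.1 * ((C.ν * qz (rot C.ν p) + C.ν⁻¹ * qz (rot C.ν⁻¹ p)) / 2) + p.2 * ((C.ν⁻¹ * qw (rot C.ν p) + C.ν * qw (rot C.ν⁻¹ p)) / 2)
          = (p.1 + p.2) + (p.1 - p.2) ^ 2 * (2 * st p + p.1 * sz p + p.2 * sw p)) := by
  obtain ⟨sz, hz1, hz2⟩ := B_dz h.r0 h.hs0 h.hs1 hS.bs
  obtain ⟨sw, hw1, hw2⟩ := B_dw h.r0 h.hs0 h.hs1 hS.bs
  have h1s : 0 < 1 - s := by have := h.hs1; linarith
  have hb : 1 / (r * (1 - s)) * κ ≤ Λ ^ 1 * ε ^ 0 := by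
    rw [pow_one, pow_zero, mul_one]
    have h1 : 1 / (r * (1 - s)) ≤ 1 / (1 - s) := by
      apply one_div_le_one_div_of_le h1s
      have := h.r1
      nlinarith
    have h2 := hS.κ0
    have h3 := h.hκ
    have h4 := h.hsΛ
    have h5 := h.Λ0
    have h6 : 1 / (r * (1 - s)) ≤ Λ := h1.trans h4
    have h7 : κ ≤ 1 := by linarith
    calc 1 / (r * (1 - s)) * κ ≤ Λ * 1 := by gcongr
      _ = Λ := mul_one _
  refine ⟨sz, sw, hz1.mono hb, hw1.mono hb, fun p h1 h2 => ?_⟩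
  have dz0 := ((hS.dz_rot C.hν h1 h2).add (hS.dz_rot C.hν' h1 h2)).div_const 2
  have dw0 := ((hS.dw_rot C.hν h1 h2).add (hS.dw_rot C.hν' h1 h2)).div_const 2
  rw [inv_inv] at dw0
  have hr0 := h.r0
  have ezn : (fun z => ((z + p.2) + (z - p.2) ^ 2 * st (z, p.2))) =ᶠ[nhds p.1]
      fun z => (q (rot C.ν (z, p.2)) + q (rot C.ν⁻¹ (z, p.2))) / 2 := by
    have ho : Metric.ball (0 : ℂ) r ∈ nhds p.1 := Metric.isOpen_ball.mem_nhds (by rw [mem_ball_zero_iff]; exact h1)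
    filter_upwards [ho] with z hz
    rw [mem_ball_zero_iff] at hz
    exact (hS.xrel (z, p.2) (by rw [mem_S2 hr0]; exact ⟨hz.le, h2.le⟩)).symm
  have ewn : (fun w => ((p.1 + w) + (p.1 - w) ^ 2 * st (p.1, w))) =ᶠ[nhds p.2]
      fun w => (q (rot C.ν (p.1, w)) + q (rot C.ν⁻¹ (p.1, w))) / 2 := by
    have ho : Metric.ball (0 : ℂ) r ∈ nhds p.2 := Metric.isOpen_ball.mem_nhds (by rw [mem_ball_zero_iff]; exact h2)
    filter_upwards [ho] with z hz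
    rw [mem_ball_zero_iff] at hz
    exact (hS.xrel (p.1, z) (by rw [mem_S2 hr0]; exact ⟨h1.le, hz.le⟩)).symm
  have dz1 : HasDerivAt (fun z => ((z + p.2) + (z - p.2) ^ 2 * st (z, p.2)))
      (1 + ((2 * (p.1 - p.2)) * st p + (p.1 - p.2) ^ 2 * sz p)) p.1 := by
    have a1 : HasDerivAt (fun z : ℂ => z + p.2) 1 p.1 := (hasDerivAt_id p.1).add_const _
    have a2 : HasDerivAt (fun z : ℂ => z - p.2) 1 p.1 := (hasDerivAt_id p.1).sub_const _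
    have a3 := a2.pow 2
    refine (a1.add (a3.mul (hz2 p h1 h2))).congr_deriv ?_
    simp only [Pi.pow_apply]
    push_cast
    ring
  have dw1 : HasDerivAt (fun w => ((p.1 + w) + (p.1 - w) ^ 2 * st (p.1, w)))
      (1 + (-(2 * (p.1 - p.2)) * st p + (p.1 - p.2) ^ 2 * sw p)) p.2 := by
    have a1 : HasDerivAt (fun z : ℂ => p.1 + z) 1 p.2 := (hasDerivAt_id p.2).const_add _
    have a2 : HasDerivAt (fun z : ℂ => p.1 - z) (-1) p.2 := (hasDerivAt_id p.2).const_sub _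
    have a3 := a2.pow 2
    refine (a1.add (a3.mul (hw2 p h1 h2))).congr_deriv ?_
    simp only [Pi.pow_apply]
    push_cast
    ring
  have e1 := dz0.unique (dz1.congr_of_eventuallyEq ezn.symm)
  have e2 := dw0.unique (dw1.congr_of_eventuallyEq ewn.symm)
  rw [e1, e2]; ring

lemma Cst.Jf_add (C : Cst) (l : ℕ → ℝ) (q f g : ℂ × ℂ → ℂ) (p : ℂ × ℂ) :
    C.Jf l q (fun p => f p + g p) p = C.Jf l q f p + C.Jf l q g p := by
  unfold Cst.Jf; ring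

/-- the full correction -/
lemma St.corr (hS : St C ML r κ ε q qz qw st l) (h : Big C ML r κ ε Λ s) :
    ∃ δq δz δw δs e2 : ℂ × ℂ → ℂ, Q (S2 (r * s ^ 2)) Λ ε 11 1 δq ∧ Q (S2 (r * s ^ 3)) Λ ε 12 1 δz ∧
      Q (S2 (r * s ^ 3)) Λ ε 12 1 δw ∧ Q (S2 (r * s ^ 4)) Λ ε 12 1 δs ∧ Q (S2 (r * s ^ 4)) Λ ε 11 2 e2 ∧
      (∀ p : ℂ × ℂ, ‖p.1‖ < r * s ^ 2 → ‖p.2‖ < r * s ^ 2 → HasDerivAt (fun z => δq (z, p.2)) (δz p) p.1) ∧
      (∀ p : ℂ × ℂ, ‖p.1‖ < r * s ^ 2 → ‖p.2‖ < r * s ^ 2 → HasDerivAt (fun w => δq (p.1, w)) (δw p) p.2) ∧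
      (∀ p ∈ (S2 (r * s ^ 2)).D, δq p.swap = δq p) ∧ (∀ p ∈ (S2 (r * s ^ 2)).D, δq (-p) = -δq p) ∧
      (∀ p ∈ (S2 (r * s ^ 2)).D, starRingEnd ℂ (δq (cj p)) = δq p) ∧
      (∀ p ∈ (S2 (r * s ^ 4)).D, starRingEnd ℂ (δs (cj p)) = δs p) ∧
      (∀ p ∈ (S2 (r * s ^ 4)).D, (δq (rot C.ν p) + δq (rot C.ν⁻¹ p)) / 2 = (p.1 - p.2) ^ 2 * δs p) ∧
      (∀ p ∈ (S2 (r * s ^ 4)).D, C.Ef l q p + C.Jf l q δq p = e2 p) := by
  have hΛ2 := h.Λ2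
  have hΛ0 := h.Λ0
  have hε0 := h.hε0
  have h1s : 0 < 1 - s := by have := h.hs1; linarith
  obtain ⟨f, e1, hf, he1, hfe⟩ := hS.lin h
  have hFB : Q (S2 (r * s ^ 2)) Λ ε 7 1 (Pf f) := Pf_B hf
  have hPe : Q (S2 (r * s ^ 4)) Λ ε 8 2 (Pf e1) := Pf_B he1
  have hlinP := hS.lin_Pf (h.rpos 4) (h.rle 4) hfe
  -- the mean
  set gx : ℂ × ℂ → ℂ := fun p => (Pf f (rot C.ν p) + Pf f (rot C.ν⁻¹ p)) / 2 with hgx
  have hgxB : (S2 (r * s ^ 2)).B (Λ ^ 7 * ε ^ 1) gx := half_B (B_rot C.hν hFB) (B_rot C.hν' hFB)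
  have hgx1 : ∀ p, gx p.swap = gx p := fun p => by
    simp only [hgx]
    rw [swap_rot' C.ν, swap_rot' C.ν⁻¹, inv_inv, Pf_swap, Pf_swap, add_comm]
  have hgx2 : ∀ p, gx (-p) = -gx p := fun p => by
    simp only [hgx]
    rw [neg_rot, neg_rot, Pf_neg, Pf_neg]; ring
  have hgx3 : ∀ p, starRingEnd ℂ (gx (cj p)) = gx p := fun p => by
    simp only [hgx]
    rw [rot_cj C.hν, rot_cj C.hν', inv_inv, map_div₀, map_add, map_ofNat, Pf_cj, Pf_cj, add_comm]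
  obtain ⟨b, hb⟩ := hgxB
  obtain ⟨c1, c2, c3⟩ := coef_sym (h.rpos 2) hb (fun p _ => hgx1 p) (fun p _ => hgx2 p) (fun p _ => hgx3 p)
  obtain ⟨s0, γ, hs0B, hγB, hdec, hγ1, hγ2⟩ := decomp (h.rpos 2) h.hs0 h.hs1 hb c1 c2 c3
  have er4 : r * s ^ 2 * s ^ 2 = r * s ^ 4 := by ring
  rw [er4] at hs0B hdec
  have hr21 : 1 ≤ r * s ^ 2 := h.rk1 (by norm_num)
  have hs0Q : Q (S2 (r * s ^ 4)) Λ ε 9 1 s0 := by
    refine hs0B.mono ?_
    have h1 : 1 / (r * s ^ 2 * (1 - s)) ^ 2 ≤ Λ ^ 2 := by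
      rw [← one_div_pow]
      have h2 : 1 / (r * s ^ 2 * (1 - s)) ≤ 1 / (1 - s) := by
        apply one_div_le_one_div_of_le h1s
        nlinarith
      have h3 := h.hsΛ
      have h4 : 0 < r * s ^ 2 * (1 - s) := by positivity
      exact pow_le_pow_left₀ (by positivity) (h2.trans h3) 2
    calc 1 / (r * s ^ 2 * (1 - s)) ^ 2 * (Λ ^ 7 * ε ^ 1) ≤ Λ ^ 2 * (Λ ^ 7 * ε ^ 1) := by gcongr
      _ = Λ ^ 9 * ε ^ 1 := by ring
  have hγQ : Q (S2 (r * s ^ 2)) Λ ε 7 1 γ := by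
    refine hγB.mono ?_
    have h1 : 1 / (r * s ^ 2) ≤ 1 := by
      rw [div_le_one (by positivity)]; exact hr21
    have h2 : 0 ≤ Λ ^ 7 * ε ^ 1 := by positivity
    nlinarith
  have hκf := hγQ.cmul (-(1 / 2) : ℂ) (by norm_num) hΛ2 hε0
  have hrotγ : ∀ (c : ℂ), c ≠ 0 → ∀ p, γ (rot c p) = γ p := fun c hc p => hγ1 _ _ (by
    simp only [rot]; field_simp)
  -- the Euler field
  have hz2 : Q (S2 (r * s ^ 2)) Λ ε 1 0 (fun p => p.1) := by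
    refine (B_fst (h.rpos 2)).mono ?_
    have := h.rk2 2
    simp only [pow_one, pow_zero, mul_one]; linarith
  have hw2 : Q (S2 (r * s ^ 2)) Λ ε 1 0 (fun p => p.2) := by
    refine (B_snd (h.rpos 2)).mono ?_
    have := h.rk2 2
    simp only [pow_one, pow_zero, mul_one]; linarith
  have hqz2 : Q (S2 (r * s ^ 2)) Λ ε 1 0 qz :=
    B_rmono (h.rpos 2) (h.rle 2) (hS.qz_B h) (by simp)
  have hqw2 : Q (S2 (r * s ^ 2)) Λ ε 1 0 qw :=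
    B_rmono (h.rpos 2) (h.rle 2) (hS.qw_B h) (by simp)
  have hEu : Q (S2 (r * s ^ 2)) Λ ε 3 0 (fun p => p.1 * qz p + p.2 * qw p) :=
    (hz2.mul hqz2 hΛ2 hε0 (p := 2) (j := 0) (by norm_num) (by norm_num)).add
      (hw2.mul hqw2 hΛ2 hε0 (p := 2) (j := 0) (by norm_num) (by norm_num)) hΛ2 hε0 (by norm_num) (by norm_num)
  set δq : ℂ × ℂ → ℂ := fun p => Pf f p + (-(1 / 2) * γ p) * (p.1 * qz p + p.2 * qw p) with hδq
  have hδqQ : Q (S2 (r * s ^ 2)) Λ ε 11 1 δq :=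
    hFB.add (hκf.mul hEu hΛ2 hε0 (p := 10) (j := 1) (by norm_num) (by norm_num)) hΛ2 hε0 (by norm_num) (by norm_num)
  obtain ⟨δz, dz1, dz2⟩ := B_dz (h.rpos 2) h.hs0 h.hs1 hδqQ
  obtain ⟨δw, dw1, dw2⟩ := B_dw (h.rpos 2) h.hs0 h.hs1 hδqQ
  have er3 : r * s ^ 2 * s = r * s ^ 3 := by ring
  rw [er3] at dz1 dw1
  have hdb : 1 / (r * s ^ 2 * (1 - s)) * (Λ ^ 11 * ε ^ 1) ≤ Λ ^ 12 * ε ^ 1 := by
    have h2 : 1 / (r * s ^ 2 * (1 - s)) ≤ 1 / (1 - s) := by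
      apply one_div_le_one_div_of_le h1s
      nlinarith
    have h3 := h.hsΛ
    calc 1 / (r * s ^ 2 * (1 - s)) * (Λ ^ 11 * ε ^ 1) ≤ Λ * (Λ ^ 11 * ε ^ 1) := by
          have := h2.trans h3
          gcongr
      _ = Λ ^ 12 * ε ^ 1 := by ring
  -- the normalisation function
  obtain ⟨sz, sw, hsz, hsw, hxd⟩ := hS.xder h
  have hs14 : r * s ^ 4 ≤ r * s := by have := h.rk (a := 1) (b := 4) (by norm_num); simpa using this
  have h42 : r * s ^ 4 ≤ r * s ^ 2 := h.rk (by norm_num)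
  have hst4 : Q (S2 (r * s ^ 4)) Λ ε 1 0 (fun p => 2 * st p) := by
    have := (hS.bs.const_mul 2)
    refine B_rmono (h.rpos 4) (h.rle 4) this ?_
    have n2 : ‖(2 : ℂ)‖ = 2 := by norm_num
    rw [n2]
    have := h.hκ
    simp only [pow_one, pow_zero, mul_one]; linarith
  have hz4 := Q_r hz2 (h.rpos 4) h42
  have hw4 := Q_r hw2 (h.rpos 4) h42
  have hsz4 := Q_r hsz (h.rpos 4) hs14
  have hsw4 := Q_r hsw (h.rpos 4) hs14
  have hsum : Q (S2 (r * s ^ 4)) Λ ε 4 0 (fun p => 2 * st p + p.1 * sz p + p.2 * sw p) :=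
    (hst4.add (hz4.mul hsz4 hΛ2 hε0 (p := 2) (j := 0) (by norm_num) (by norm_num)) hΛ2 hε0 (p := 3) (by norm_num) (by norm_num)).add
      (hw4.mul hsw4 hΛ2 hε0 (p := 2) (j := 0) (by norm_num) (by norm_num)) hΛ2 hε0 (by norm_num) (by norm_num)
  have hκf4 := Q_r hκf (h.rpos 4) h42
  set δs0 : ℂ × ℂ → ℂ := fun p => s0 p + (-(1 / 2) * γ p) * (2 * st p + p.1 * sz p + p.2 * sw p) with hδs0
  have hδs0Q : Q (S2 (r * s ^ 4)) Λ ε 12 1 δs0 :=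
    hs0Q.add (hκf4.mul hsum hΛ2 hε0 (p := 11) (j := 1) (by norm_num) (by norm_num)) hΛ2 hε0 (by norm_num) (by norm_num)
  have hlt4 : r * s ^ 4 < r := by have := h.rlt (a := 0) (b := 4) (by norm_num); simpa using this
  have hlt2 : r * s ^ 2 < r := by have := h.rlt (a := 0) (b := 2) (by norm_num); simpa using this
  have hδx0 : ∀ p ∈ (S2 (r * s ^ 4)).D, (δq (rot C.ν p) + δq (rot C.ν⁻¹ p)) / 2 = (p.1 - p.2) ^ 2 * δs0 p := by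
    intro p hp
    obtain ⟨h1, h2⟩ := memlt (h.rpos 4) hlt4 hp
    have a1 := hdec p hp
    have a2 := hxd p h1 h2
    simp only [hδq, hδs0]
    rw [hrotγ C.ν C.ν0, hrotγ C.ν⁻¹ (inv_ne_zero C.ν0)]
    simp only [hgx] at a1
    have e1 : (rot C.ν p).1 = C.ν * p.1 := rfl
    have e2 : (rot C.ν p).2 = C.ν⁻¹ * p.2 := rfl
    have e3 : (rot C.ν⁻¹ p).1 = C.ν⁻¹ * p.1 := rfl
    have e4 : (rot C.ν⁻¹ p).2 = C.ν * p.2 := by simp [rot]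
    rw [e1, e2, e3, e4]
    linear_combination a1 + (-(1 / 2) * γ p) * a2
  -- symmetries of the correction
  have hs1 : ∀ p ∈ (S2 (r * s ^ 2)).D, δq p.swap = δq p := by
    intro p hp
    obtain ⟨h1, h2⟩ := memlt (h.rpos 2) hlt2 hp
    have a1 := hS.sw h1 h2
    have a2 := hS.sw (p := p.swap) h2 h1
    rw [Prod.swap_swap] at a2
    simp only [hδq]
    rw [Pf_swap, hγ1 p.swap p (by simp only [Prod.fst_swap, Prod.snd_swap]; ring), a1, ← a2]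
    simp only [Prod.fst_swap, Prod.snd_swap]
    ring
  have hs2 : ∀ p ∈ (S2 (r * s ^ 2)).D, δq (-p) = -δq p := by
    intro p hp
    obtain ⟨h1, h2⟩ := memlt (h.rpos 2) hlt2 hp
    simp only [hδq]
    rw [Pf_neg, hγ1 (-p) p (by simp only [Prod.fst_neg, Prod.snd_neg]; ring), hS.negz h1 h2, hS.negw h1 h2]
    simp only [Prod.fst_neg, Prod.snd_neg]
    ring
  have hs3 : ∀ p ∈ (S2 (r * s ^ 2)).D, starRingEnd ℂ (δq (cj p)) = δq p := by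
    intro p hp
    obtain ⟨h1, h2⟩ := memlt (h.rpos 2) hlt2 hp
    simp only [hδq, map_add, map_mul, hS.cjz h1 h2, hS.cjw h1 h2, Pf_cj, hγ2]
    have e1 : starRingEnd ℂ (cj p).1 = p.1 := by unfold cj; simp
    have e2 : starRingEnd ℂ (cj p).2 = p.2 := by unfold cj; simp
    have e3 : starRingEnd ℂ (-(1 / 2) : ℂ) = -(1 / 2) := by
      rw [map_neg, map_div₀, map_one, map_ofNat]
    rw [e1, e2, e3]
  have hδx : ∀ p ∈ (S2 (r * s ^ 4)).D, (δq (rot C.ν p) + δq (rot C.ν⁻¹ p)) / 2 = (p.1 - p.2) ^ 2 * ccf δs0 p := by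
    intro p hp
    have a1 := hδx0 p hp
    have a2 := hδx0 (cj p) (cj_mem hp)
    have hp2 := mem_mono (h.rpos 4) h42 hp
    have a3 := congrArg (starRingEnd ℂ) a2
    rw [rot_cj C.hν, rot_cj C.hν', inv_inv, map_div₀, map_add, map_ofNat, hs3 _ (rot_mem C.hν' hp2), hs3 _ (rot_mem C.hν hp2),
      map_mul, map_pow, map_sub] at a3
    have e1 : starRingEnd ℂ (cj p).1 = p.1 := by unfold cj; simp
    have e2 : starRingEnd ℂ (cj p).2 = p.2 := by unfold cj; simp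
    rw [e1, e2] at a3
    unfold ccf
    linear_combination (1 / 2) * a1 + (1 / 2) * a3
  -- the new error of the linear equation
  obtain ⟨Ez, Ew, hz1, hw1, hzf, hwf⟩ := hS.EzEw h
  have hEz4 := Q_r hz1 (h.rpos 4) hs14
  have hEw4 := Q_r hw1 (h.rpos 4) hs14
  have hEE : Q (S2 (r * s ^ 4)) Λ ε 3 1 (fun p => p.1 * Ez p + p.2 * Ew p) :=
    (hz4.mul hEz4 hΛ2 hε0 (p := 2) (j := 1) (by norm_num) (by norm_num)).add
      (hw4.mul hEw4 hΛ2 hε0 (p := 2) (j := 1) (by norm_num) (by norm_num)) hΛ2 hε0 (by norm_num) (by norm_num)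
  have he2 : Q (S2 (r * s ^ 4)) Λ ε 11 2 (fun p => Pf e1 p + (-(1 / 2) * γ p) * (p.1 * Ez p + p.2 * Ew p)) :=
    hPe.add (hκf4.mul hEE hΛ2 hε0 (p := 10) (j := 2) (by norm_num) (by norm_num)) hΛ2 hε0 (by norm_num) (by norm_num)
  refine ⟨δq, δz, δw, ccf δs0, _, hδqQ, dz1.mono hdb, dw1.mono hdb, ccf_B hδs0Q, he2, dz2, dw2, hs1, hs2, hs3, ?_, hδx, ?_⟩
  · intro p _
    unfold ccf
    rw [cj_cj]
    simp only [map_div₀, map_add, map_ofNat, Complex.conj_conj]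
    rw [add_comm]
  · intro p hp
    have hp2 := mem_mono (h.rpos 4) h42 hp
    have a1 := hlinP p hp
    rw [hzf p hp2, hwf p hp2]
    have e0 : C.Jf l q δq p = C.Jf l q (Pf f) p + C.Jf l q (fun p => (-(1 / 2) * γ p) * (p.1 * qz p + p.2 * qw p)) p :=
      C.Jf_add l q (Pf f) (fun p => (-(1 / 2) * γ p) * (p.1 * qz p + p.2 * qw p)) p
    rw [e0]
    have e1' : C.Jf l q (fun p => (-(1 / 2) * γ p) * (p.1 * qz p + p.2 * qw p)) p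
        = (-(1 / 2) * γ p) * ((S11f C.μ l (q p) (q (rot (C.ν ^ 2) p)) + S11f C.μ l (q p) (q (rot (C.ν ^ 2)⁻¹ p))) * (p.1 * qz p + p.2 * qw p)
          + S12f C.μ l (q p) (q (rot (C.ν ^ 2) p)) * (((C.ν ^ 2) * p.1) * qz (rot (C.ν ^ 2) p) + ((C.ν ^ 2)⁻¹ * p.2) * qw (rot (C.ν ^ 2) p))
          + S12f C.μ l (q p) (q (rot (C.ν ^ 2)⁻¹ p)) * (((C.ν ^ 2)⁻¹ * p.1) * qz (rot (C.ν ^ 2)⁻¹ p) + ((C.ν ^ 2) * p.2) * qw (rot (C.ν ^ 2)⁻¹ p))) := by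
      unfold Cst.Jf
      beta_reduce
      rw [hrotγ (C.ν ^ 2) C.ω0, hrotγ (C.ν ^ 2)⁻¹ (inv_ne_zero C.ω0)]
      have r1 : (rot (C.ν ^ 2) p).1 = C.ν ^ 2 * p.1 := rfl
      have r2 : (rot (C.ν ^ 2) p).2 = (C.ν ^ 2)⁻¹ * p.2 := rfl
      have r3 : (rot (C.ν ^ 2)⁻¹ p).1 = (C.ν ^ 2)⁻¹ * p.1 := rfl
      have r4 : (rot (C.ν ^ 2)⁻¹ p).2 = C.ν ^ 2 * p.2 := by simp [rot]
      simp only [r1, r2, r3, r4]
      ring
    rw [e1', ← a1]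
    ring

end st

end Pool.Agent.Helper649.Bil
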