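import Pool.Agent.Helper649.BilE

set_option autoImplicit false

namespace Pool.Agent.Helper649.Bil

open Complex

section st

variable {C : Cst} {ML r κ ε Λ s : ℝ} {q qz qw st : ℂ × ℂ → ℂ} {l : ℕ → ℝ} {δq δs e2 : ℂ × ℂ → ℂ}

lemma Big.τ1 (h : Big C ML r κ ε Λ s) (hε : 0 < ε) : 1 ≤ (Λ ^ 13 * ε)⁻¹ := by
  have h1 := h.hε
  have h2 := h.Λ1
  have hΛ0 := h.Λ0
  rw [one_le_inv₀ (by positivity)]
  refine le_trans ?_ h1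
  have : Λ ^ 13 ≤ Λ ^ 44 := pow_le_pow_right₀ h2 (by norm_num)
  gcongr

lemma Big.invΛ (h : Big C ML r κ ε Λ s) : Λ⁻¹ ≤ 1 / 400 := by
  rw [one_div]
  exact inv_anti₀ (by norm_num) h.hΛ

/-- the family of curves -/
lemma St.fam3 (hS : St C ML r κ ε q qz qw st l) (h : Big C ML r κ ε Λ s) (hε : 0 < ε)
    (hq : Q (S2 (r * s ^ 2)) Λ ε 11 1 δq) (hs : Q (S2 (r * s ^ 4)) Λ ε 12 1 δs)
    (hx : ∀ p ∈ (S2 (r * s ^ 4)).D, (δq (rot C.ν p) + δq (rot C.ν⁻¹ p)) / 2 = (p.1 - p.2) ^ 2 * δs p) :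
    (S3 (r * s ^ 4) ((Λ ^ 13 * ε)⁻¹)).B (Λ ^ 9) (fun x => Uf C.μ l (q (rot C.ν⁻¹ x.1) + x.2 * δq (rot C.ν⁻¹ x.1)) (q (rot C.ν x.1) + x.2 * δq (rot C.ν x.1))) ∧
    (S3 (r * s ^ 4) ((Λ ^ 13 * ε)⁻¹)).B (Λ ^ 9) (fun x => Uf C.μ l (q (rot C.ν x.1) + x.2 * δq (rot C.ν x.1)) (q (rot C.ν⁻¹ x.1) + x.2 * δq (rot C.ν⁻¹ x.1))) ∧
    (S3 (r * s ^ 4) ((Λ ^ 13 * ε)⁻¹)).B (Λ ^ 10) (fun x => S12f C.μ l (q (rot C.ν⁻¹ x.1) + x.2 * δq (rot C.ν⁻¹ x.1)) (q (rot C.ν x.1) + x.2 * δq (rot C.ν x.1))) ∧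
    (S3 (r * s ^ 4) ((Λ ^ 13 * ε)⁻¹)).B (Λ ^ 6) (fun x => Wf C.μ l (q (rot C.ν⁻¹ x.1) + x.2 * δq (rot C.ν⁻¹ x.1)) (q (rot C.ν x.1) + x.2 * δq (rot C.ν x.1))) := by
  have hΛ0 := h.Λ0
  have hτ1 := h.τ1 hε
  have hτ0 : 0 < (Λ ^ 13 * ε)⁻¹ := by linarith
  have h42 : r * s ^ 4 ≤ r * s ^ 2 := h.rk (by norm_num)
  have h43 : r * s ^ 4 ≤ r * s ^ 3 := h.rk (by norm_num)
  have hκ := h.hκ
  have hiΛ := h.invΛ
  set τ := (Λ ^ 13 * ε)⁻¹ with hτ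
  have hZ : (S3 (r * s ^ 4) τ).B (r * s ^ 3) (fun x => x.1.1) := (B3_lift (B_fst (h.rpos 4))).mono h43
  have hY : (S3 (r * s ^ 4) τ).B (r * s ^ 3) (fun x => x.1.2) := (B3_lift (B_snd (h.rpos 4))).mono h43
  have ht := B3_t (r := r * s ^ 4) hτ0
  have hst : (S3 (r * s ^ 4) τ).B (1 / 200) (fun x => st x.1 + x.2 * δs x.1) := by
    have h1 := B3_lift (τ := τ) (B_rmono (h.rpos 4) (h.rle 4) hS.bs le_rfl)
    have h2 := ht.mul (B3_lift (τ := τ) hs)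
    refine (h1.add h2).mono ?_
    have : τ * (Λ ^ 12 * ε ^ 1) = Λ⁻¹ := by
      rw [hτ]; field_simp
    rw [this]; linarith
  have hqB : Q (S2 (r * s ^ 4)) Λ ε 11 1 δq := Q_r hq (h.rpos 4) h42
  have hD : (S3 (r * s ^ 4) τ).B (4 * |C.T| + 2) (fun x => ((q (rot C.ν x.1) + x.2 * δq (rot C.ν x.1)) - (q (rot C.ν⁻¹ x.1) + x.2 * δq (rot C.ν⁻¹ x.1))) / 2) := by
    have h1 := B3_lift (τ := τ) (B_rmono (h.rpos 4) (h.rle 4) (hS.D_B h) le_rfl)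
    have h2 := half_B (B_rot C.hν hqB) (B_rot C.hν' hqB).neg
    have h3 := ht.mul (B3_lift (τ := τ) h2)
    refine ((h1.add h3).mono ?_).congr (fun x _ => by ring)
    have : τ * (Λ ^ 11 * ε ^ 1) = Λ⁻¹ * Λ⁻¹ := by
      rw [hτ]; field_simp
    rw [this]
    have h4 : 0 < Λ⁻¹ := inv_pos.mpr hΛ0
    nlinarith
  exact base_fam (S := S3 (r * s ^ 4) τ) h (hS.MLle h) hS.bl hZ hY hst hD (fun x hxD => by
    have hp : x.1 ∈ (S2 (r * s ^ 4)).D := hxD.1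
    have e1 := hS.xrel x.1 (mem_mono (h.rpos 4) (h.rle 4) hp)
    have e2 := hx x.1 hp
    linear_combination e1 + x.2 * e2)

/-- error of the updated curve, before the update of the table -/
lemma St.updE (hS : St C ML r κ ε q qz qw st l) (h : Big C ML r κ ε Λ s) (hε : 0 < ε)
    (hq : Q (S2 (r * s ^ 2)) Λ ε 11 1 δq) (hs : Q (S2 (r * s ^ 4)) Λ ε 12 1 δs)
    (he2 : Q (S2 (r * s ^ 4)) Λ ε 11 2 e2)
    (hx : ∀ p ∈ (S2 (r * s ^ 4)).D, (δq (rot C.ν p) + δq (rot C.ν⁻¹ p)) / 2 = (p.1 - p.2) ^ 2 * δs p)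
    (hlin : ∀ p ∈ (S2 (r * s ^ 4)).D, C.Ef l q p + C.Jf l q δq p = e2 p) :
    Q (S2 (r * s ^ 4)) Λ ε 37 2 (C.Ef l (fun p => q p + δq p)) := by
  have hΛ0 := h.Λ0
  have hτ1 := h.τ1 hε
  obtain ⟨u1, u2, u3, u4⟩ := hS.fam3 h hε hq hs hx
  have v1 := B3_rot C.hν u1
  have v2 := B3_rot C.hν' u2
  have v := v1.add v2
  obtain ⟨F1, f1, f2, f3, f4, f5, f6⟩ := B3_extract hτ1 v
  have hF1 : ∀ p ∈ (S2 (r * s ^ 4)).D, F1 p = C.Jf l q δq p := by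
    intro p hp
    have h0 := f6 p hp
    have hp2 := mem_mono (h.rpos 4) (h.rk (by norm_num : 2 ≤ 4)) hp
    obtain ⟨m1, m2, m3⟩ := hS.mid_lt h hp2
    have dlin : ∀ a b : ℂ, HasDerivAt (fun t : ℂ => a + t * b) b 0 := fun a b => by
      have := ((hasDerivAt_id (0 : ℂ)).mul_const b).const_add a
      simpa using this
    have w1 := U_deriv h.r1 h.hs0 h.hs1 hS.bl C.hμ0.ne' (dlin (q p) (δq p)) (dlin (q (rot (C.ν ^ 2) p)) (δq (rot (C.ν ^ 2) p))) (by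
      simpa using m1)
    have w2 := U_deriv h.r1 h.hs0 h.hs1 hS.bl C.hμ0.ne' (dlin (q p) (δq p)) (dlin (q (rot (C.ν ^ 2)⁻¹ p)) (δq (rot (C.ν ^ 2)⁻¹ p))) (by
      simpa using m2)
    have w := w1.add w2
    simp only [C.rot_vv, C.rot_v'v, C.rot_vv', C.rot_v'v'] at h0
    have e := h0.unique w
    rw [e]
    unfold Cst.Jf
    simp only [zero_mul, add_zero]
    ring
  have h1 := Sys.B.add he2 f2
  refine (h1.mono ?_).congr (fun p hp => ?_)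
  · have e : (Λ ^ 9 + Λ ^ 9) / ((Λ ^ 13 * ε)⁻¹) ^ 2 = 2 * Λ ^ 35 * ε ^ 2 := by
      field_simp
      norm_num
    rw [e]
    have h2 : Λ ^ 11 ≤ Λ ^ 36 := pow_le_pow_right₀ h.Λ1 (by norm_num)
    have h3 : 2 * Λ ^ 35 ≤ Λ ^ 36 := by
      have := h.Λ2
      calc 2 * Λ ^ 35 ≤ Λ * Λ ^ 35 := by gcongr
        _ = Λ ^ 36 := by ring
    have h4 : 2 * Λ ^ 36 ≤ Λ ^ 37 := by
      have := h.Λ2
      calc 2 * Λ ^ 36 ≤ Λ * Λ ^ 36 := by gcongr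
        _ = Λ ^ 37 := by ring
    calc Λ ^ 11 * ε ^ 2 + 2 * Λ ^ 35 * ε ^ 2 ≤ Λ ^ 36 * ε ^ 2 + Λ ^ 36 * ε ^ 2 := by gcongr
      _ = 2 * Λ ^ 36 * ε ^ 2 := by ring
      _ ≤ Λ ^ 37 * ε ^ 2 := by gcongr
  · rw [← hlin p hp, hF1 p hp]
    simp only [C.rot_vv, C.rot_v'v, C.rot_vv', C.rot_v'v', zero_mul, add_zero, one_mul]
    unfold Cst.Ef
    ring

/-- twist of the updated curve -/
lemma St.upd12 (hS : St C ML r κ ε q qz qw st l) (h : Big C ML r κ ε Λ s) (hε : 0 < ε)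
    (hq : Q (S2 (r * s ^ 2)) Λ ε 11 1 δq) (hs : Q (S2 (r * s ^ 4)) Λ ε 12 1 δs)
    (hx : ∀ p ∈ (S2 (r * s ^ 4)).D, (δq (rot C.ν p) + δq (rot C.ν⁻¹ p)) / 2 = (p.1 - p.2) ^ 2 * δs p) :
    Q (S2 (r * s ^ 4)) Λ ε 23 1 (fun p => S12f C.μ l (q p + δq p) (q (rot (C.ν ^ 2) p) + δq (rot (C.ν ^ 2) p))
      - S12f C.μ l (q p) (q (rot (C.ν ^ 2) p))) := by
  have hΛ0 := h.Λ0
  have hτ1 := h.τ1 hε
  obtain ⟨u1, u2, u3, u4⟩ := hS.fam3 h hε hq hs hx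
  have v := B3_rot C.hν u3
  obtain ⟨F1, f1, f2, f3, f4, f5, f6⟩ := B3_extract hτ1 v
  refine (f3.mono ?_).congr (fun p hp => ?_)
  · apply le_of_eq; field_simp
  · simp only [C.rot_vv, C.rot_v'v, C.rot_vv', C.rot_v'v', zero_mul, add_zero, one_mul]

/-- mean of the action of the updated curve -/
lemma St.updW (hS : St C ML r κ ε q qz qw st l) (h : Big C ML r κ ε Λ s) (hε : 0 < ε)
    (hq : Q (S2 (r * s ^ 2)) Λ ε 11 1 δq) (hs : Q (S2 (r * s ^ 4)) Λ ε 12 1 δs)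
    (hx : ∀ p ∈ (S2 (r * s ^ 4)).D, (δq (rot C.ν p) + δq (rot C.ν⁻¹ p)) / 2 = (p.1 - p.2) ^ 2 * δs p) :
    ∃ a K, (S2 (r * s ^ 4)).BC K a (C.Wh l (fun p => q p + δq p)) ∧
      Summable (fun m : ℕ => ‖a (m, m)‖ * (r * s ^ 4) ^ (2 * m)) ∧
      ∑' m : ℕ, ‖a (m, m)‖ * (r * s ^ 4) ^ (2 * m) ≤ Λ ^ 33 * ε ^ 2 := by
  have hΛ0 := h.Λ0
  have hτ1 := h.τ1 hε
  obtain ⟨u1, u2, u3, u4⟩ := hS.fam3 h hε hq hs hx
  obtain ⟨F1, f1, ⟨c2, f2⟩, f3, f4, ⟨a, f5⟩, f6⟩ := B3_extract hτ1 u4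
  obtain ⟨c1, f1⟩ := f1
  obtain ⟨a0, K0, ha0, hd0⟩ := hS.avg
  have ha0' := BC_rmono (h.rpos 4) (h.rle 4) ha0 le_rfl
  have h43 : r * s ^ 4 ≤ r * s ^ 3 := h.rk (by norm_num)
  have h42 : r * s ^ 4 ≤ r * s ^ 2 := h.rk (by norm_num)
  have hq4 := Q_r hq (h.rpos 4) h42
  have hE4 : Q (S2 (r * s ^ 4)) Λ ε 0 1 (C.Ef l q) := B_rmono (h.rpos 4) (h.rle 4) hS.bE (by simp)
  obtain ⟨c3, h3⟩ := hE4.mul hq4 h.Λ2 h.hε0 (p := 11) (j := 2) (by norm_num) (by norm_num)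
  obtain ⟨w1, w2, -, -⟩ := hS.base h
  obtain ⟨α, hα⟩ := (B_rmono (h.rpos 4) h43 w1 le_rfl).mul (B_rot C.hν' hq4)
  obtain ⟨β, hβ⟩ := (B_rmono (h.rpos 4) h43 w2 le_rfl).mul (B_rot C.hν hq4)
  -- first order part
  have e1 := BC_unique (h.rpos 4) f1 ((hα.add hβ).const_mul (1 / 2)) (fun p hp => by
    have h0 := f6 p hp
    have hp2 := mem_mono (h.rpos 4) (h.rk (by norm_num : 2 ≤ 4)) hp
    obtain ⟨m1, m2, m3⟩ := hS.mid_lt h hp2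
    have dlin : ∀ a b : ℂ, HasDerivAt (fun t : ℂ => a + t * b) b 0 := fun a b => by
      have := ((hasDerivAt_id (0 : ℂ)).mul_const b).const_add a
      simpa using this
    have w1 := W_deriv h.r1 h.hs0 h.hs1 hS.bl C.hμ0.ne' (dlin (q (rot C.ν⁻¹ p)) (δq (rot C.ν⁻¹ p)))
      (dlin (q (rot C.ν p)) (δq (rot C.ν p))) (by simpa using m3)
    have e := h0.unique w1
    rw [e]
    simp only [zero_mul, add_zero])
  have e3 := BC_unique (h.rpos 4) h3 ((BC_rot C.hν hα).add (BC_rot C.hν' hβ)) (fun p hp => by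
    rw [C.rot_v'v, C.rot_vv, C.rot_vv', C.rot_v'v']
    unfold Cst.Ef; ring)
  have hWnew : (S2 (r * s ^ 4)).BC _ a (C.Wh l (fun p => q p + δq p)) := f5.congr (fun p hp => by
    unfold Cst.Wh; simp only [one_mul])
  have e4 := BC_unique (h.rpos 4) hWnew ((ha0'.add f1).add f2) (fun p hp => by
    unfold Cst.Wh; simp only [one_mul, zero_mul, add_zero]; ring)
  have hdiag : ∀ m : ℕ, a (m, m) = 1 / 2 * c3 (m, m) + c2 (m, m) := by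
    intro m
    have g1 := congrFun e1 (m, m)
    have g3 := congrFun e3 (m, m)
    have g4 := congrFun e4 (m, m)
    simp only at g1 g3 g4
    have hν0 := C.ν0
    have k1 : C.ν ^ m * C.ν⁻¹ ^ m = 1 := by rw [← mul_pow, mul_inv_cancel₀ hν0, one_pow]
    have k2 : C.ν⁻¹ ^ m * C.ν⁻¹⁻¹ ^ m = 1 := by rw [← mul_pow, mul_inv_cancel₀ (inv_ne_zero hν0), one_pow]
    rw [k1, k2] at g3
    rw [hd0 m] at g4
    rw [g4, g1, g3]; ring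
  obtain ⟨s3, t3⟩ := diag_tsum (h.rpos 4) h3
  obtain ⟨s2, t2⟩ := diag_tsum (h.rpos 4) f2
  have t3' : ∑' m : ℕ, ‖c3 (m, m)‖ * (r * s ^ 4) ^ (2 * m) ≤ Λ ^ 11 * ε ^ 2 := by
    rw [t3]; exact (Summable.tsum_le_tsum (fun i => by
      have := mul_nonneg (norm_nonneg (c3 i)) ((S2 (r * s ^ 4)).W_pos i).le
      unfold dgw; split_ifs
      · rw [one_mul]
      · rw [zero_mul]; exact this) (dg_summable h3) h3.1).trans h3.2.1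
  have t2' : ∑' m : ℕ, ‖c2 (m, m)‖ * (r * s ^ 4) ^ (2 * m) ≤ Λ ^ 6 / ((Λ ^ 13 * ε)⁻¹) ^ 2 := by
    rw [t2]; exact (Summable.tsum_le_tsum (fun i => by
      have := mul_nonneg (norm_nonneg (c2 i)) ((S2 (r * s ^ 4)).W_pos i).le
      unfold dgw; split_ifs
      · rw [one_mul]
      · rw [zero_mul]; exact this) (dg_summable f2) f2.1).trans f2.2.1
  have hle : ∀ m : ℕ, ‖a (m, m)‖ * (r * s ^ 4) ^ (2 * m) ≤ ‖c3 (m, m)‖ * (r * s ^ 4) ^ (2 * m) + ‖c2 (m, m)‖ * (r * s ^ 4) ^ (2 * m) := by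
    intro m
    rw [← add_mul]
    have hr4 := h.rpos 4
    have : ‖a (m, m)‖ ≤ ‖c3 (m, m)‖ + ‖c2 (m, m)‖ := by
      rw [hdiag m]
      refine (norm_add_le _ _).trans ?_
      rw [norm_mul]
      have n2 : ‖(1 / 2 : ℂ)‖ = 1 / 2 := by norm_num
      rw [n2]
      have := norm_nonneg (c3 (m, m))
      linarith
    gcongr
  have hr4 := h.rpos 4
  have hsum : Summable (fun m : ℕ => ‖a (m, m)‖ * (r * s ^ 4) ^ (2 * m)) :=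
    Summable.of_nonneg_of_le (fun m => by positivity) hle (s3.add s2)
  refine ⟨a, _, hWnew, hsum, ?_⟩
  refine (hsum.tsum_le_tsum hle (s3.add s2)).trans ?_
  rw [s3.tsum_add s2]
  refine (add_le_add t3' t2').trans ?_
  have e : Λ ^ 6 / ((Λ ^ 13 * ε)⁻¹) ^ 2 = Λ ^ 32 * ε ^ 2 := by
    field_simp
  rw [e]
  have h2 : Λ ^ 11 ≤ Λ ^ 32 := pow_le_pow_right₀ h.Λ1 (by norm_num)
  calc Λ ^ 11 * ε ^ 2 + Λ ^ 32 * ε ^ 2 ≤ Λ ^ 32 * ε ^ 2 + Λ ^ 32 * ε ^ 2 := by gcongr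
    _ = 2 * (Λ ^ 32 * ε ^ 2) := by ring
    _ ≤ Λ * (Λ ^ 32 * ε ^ 2) := by
        have := h.Λ2
        gcongr
    _ = Λ ^ 33 * ε ^ 2 := by ring

end st

end Pool.Agent.Helper649.Bil
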