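import Pool.Agent.Helper649.BilAbel3

set_option autoImplicit false

namespace Pool.Agent.Helper649.Bil

open Complex

section gen

variable {Ω ι : Type} [AddCommMonoid ι] {S : Sys Ω ι}

lemma cos_B {M μ : ℝ} {D : Ω → ℂ} (hD : S.B M D) (hμ0 : 0 ≤ μ) (hμ1 : μ ≤ 1) :
    S.B (μ ^ 2 * Real.cosh M) (fun x => Complex.cos (μ * D x) - 1) := by
  have hM := hD.nonneg
  have hC := Real.hasSum_cosh M
  have hC1 : Summable (fun n : ℕ => M ^ (2 * (n + 1)) / ((2 * (n + 1)).factorial : ℝ)) := (summable_nat_add_iff 1).mpr hC.summable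
  have hC2 : ∑' n : ℕ, M ^ (2 * (n + 1)) / ((2 * (n + 1)).factorial : ℝ) ≤ Real.cosh M := by
    have h1 := hC.tsum_eq
    rw [hC.summable.tsum_eq_zero_add] at h1
    rw [← h1]
    have : (0 : ℝ) ≤ M ^ (2 * 0) / ((2 * 0).factorial : ℝ) := by positivity
    linarith
  have hf : ∀ n : ℕ, S.B (μ ^ 2 * (M ^ (2 * (n + 1)) / ((2 * (n + 1)).factorial : ℝ)))
      (fun x => (-1) ^ (n + 1) * (μ * D x) ^ (2 * (n + 1)) / ((2 * (n + 1)).factorial : ℂ)) := by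
    intro n
    have h1 := (hD.pow (2 * (n + 1))).const_mul ((-1) ^ (n + 1) * (μ : ℂ) ^ (2 * (n + 1)) / ((2 * (n + 1)).factorial : ℂ))
    have e : (fun p => (-1) ^ (n + 1) * (μ : ℂ) ^ (2 * (n + 1)) / ((2 * (n + 1)).factorial : ℂ) * D p ^ (2 * (n + 1)))
        = fun x => (-1) ^ (n + 1) * (μ * D x) ^ (2 * (n + 1)) / ((2 * (n + 1)).factorial : ℂ) := by
      funext x; rw [mul_pow]; ring
    rw [e] at h1
    refine h1.mono ?_
    rw [norm_div, norm_mul, norm_pow, norm_neg, norm_one, one_pow, one_mul, norm_pow, Complex.norm_real,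
      Real.norm_of_nonneg hμ0, Complex.norm_natCast]
    have h2 : μ ^ (2 * (n + 1)) ≤ μ ^ 2 := pow_le_pow_of_le_one hμ0 hμ1 (by omega)
    calc μ ^ (2 * (n + 1)) / ((2 * (n + 1)).factorial : ℝ) * M ^ (2 * (n + 1))
        ≤ μ ^ 2 / ((2 * (n + 1)).factorial : ℝ) * M ^ (2 * (n + 1)) := by gcongr
      _ = _ := by ring
  have h := Sys.B.tsum hf (hC1.mul_left _)
  rw [tsum_mul_left] at h
  refine (h.mono (by gcongr)).congr (fun x _ => ?_)
  have h3 := Complex.hasSum_cos (μ * D x)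
  have h4 := h3.tsum_eq
  rw [h3.summable.tsum_eq_zero_add] at h4
  rw [← h4]; simp

lemma sin_B {M μ : ℝ} {D : Ω → ℂ} (hD : S.B M D) (hμ0 : 0 < μ) (hμ1 : μ ≤ 1) :
    S.B (μ ^ 2 * Real.cosh M) (fun x => Complex.sin (μ * D x) / μ - D x) := by
  have hM := hD.nonneg
  have hC := Real.hasSum_sinh M
  have hμc : (μ : ℂ) ≠ 0 := by exact_mod_cast hμ0.ne'
  have hC1 : Summable (fun n : ℕ => M ^ (2 * (n + 1) + 1) / ((2 * (n + 1) + 1).factorial : ℝ)) := (summable_nat_add_iff 1).mpr hC.summable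
  have hC2 : ∑' n : ℕ, M ^ (2 * (n + 1) + 1) / ((2 * (n + 1) + 1).factorial : ℝ) ≤ Real.cosh M := by
    have h1 := hC.tsum_eq
    rw [hC.summable.tsum_eq_zero_add] at h1
    have : (0 : ℝ) ≤ M ^ (2 * 0 + 1) / ((2 * 0 + 1).factorial : ℝ) := by positivity
    have := (Real.sinh_lt_cosh M).le
    linarith
  have hf : ∀ n : ℕ, S.B (μ ^ 2 * (M ^ (2 * (n + 1) + 1) / ((2 * (n + 1) + 1).factorial : ℝ)))
      (fun x => ((-1) ^ (n + 1) * (μ * D x) ^ (2 * (n + 1) + 1) / ((2 * (n + 1) + 1).factorial : ℂ)) / μ) := by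
    intro n
    have h1 := (hD.pow (2 * (n + 1) + 1)).const_mul ((-1) ^ (n + 1) * (μ : ℂ) ^ (2 * (n + 1)) / ((2 * (n + 1) + 1).factorial : ℂ))
    have e : (fun p => (-1) ^ (n + 1) * (μ : ℂ) ^ (2 * (n + 1)) / ((2 * (n + 1) + 1).factorial : ℂ) * D p ^ (2 * (n + 1) + 1))
        = fun x => ((-1) ^ (n + 1) * (μ * D x) ^ (2 * (n + 1) + 1) / ((2 * (n + 1) + 1).factorial : ℂ)) / μ := by
      funext x; rw [mul_pow, pow_succ (μ : ℂ)]; field_simp
    rw [e] at h1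
    refine h1.mono ?_
    rw [norm_div, norm_mul, norm_pow, norm_neg, norm_one, one_pow, one_mul, norm_pow, Complex.norm_real,
      Real.norm_of_nonneg hμ0.le, Complex.norm_natCast]
    have h2 : μ ^ (2 * (n + 1)) ≤ μ ^ 2 := pow_le_pow_of_le_one hμ0.le hμ1 (by omega)
    calc μ ^ (2 * (n + 1)) / ((2 * (n + 1) + 1).factorial : ℝ) * M ^ (2 * (n + 1) + 1)
        ≤ μ ^ 2 / ((2 * (n + 1) + 1).factorial : ℝ) * M ^ (2 * (n + 1) + 1) := by gcongr
      _ = _ := by ring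
  have h := Sys.B.tsum hf (hC1.mul_left _)
  rw [tsum_mul_left] at h
  refine (h.mono (by gcongr)).congr (fun x _ => ?_)
  have h3 := (Complex.hasSum_sin (μ * D x)).div_const (μ : ℂ)
  have h4 := h3.tsum_eq
  rw [h3.summable.tsum_eq_zero_add] at h4
  rw [← h4]; simp
  field_simp
  ring

end gen

/-- derivative of the function of a coefficient sequence -/
lemma Lf_deriv {r M : ℝ} {l : ℕ → ℝ} (hr : 0 < r) (h : NL r M l) {y : ℂ} (hy : ‖y‖ < 4 * r ^ 2) :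
    HasDerivAt (Lf l) (Lf (dl l) y) y := by
  obtain ⟨h1, h2⟩ := h
  have hR : 0 < 4 * r ^ 2 := by positivity
  obtain ⟨ρ, hρ1, hρ2⟩ := exists_between hy
  have hρ0 : 0 < ρ := lt_of_le_of_lt (norm_nonneg _) hρ1
  set s : ℝ := ρ / (4 * r ^ 2) with hs
  have hs0 : 0 < s := div_pos hρ0 hR
  have hs1 : s < 1 := by rw [hs, div_lt_one hR]; exact hρ2
  have h1s : 0 < 1 - s := by linarith
  have hρs : ρ = (4 * r ^ 2) * s := by rw [hs]; field_simp
  have hmb : ∀ m : ℕ, (m : ℝ) * ρ ^ (m - 1) ≤ (1 / ((4 * r ^ 2) * (1 - s))) * (4 * r ^ 2) ^ m := by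
    intro m
    rcases m with _ | m
    · simp; positivity
    · have h := succ_mul_pow_le hs0.le hs1 m
      have e1 : ((m + 1 : ℕ) : ℝ) * ρ ^ (m + 1 - 1) = (((m : ℝ) + 1) * s ^ m) * (4 * r ^ 2) ^ m := by
        rw [show m + 1 - 1 = m from by omega, hρs, mul_pow _ s]; push_cast; ring
      have e2 : (1 / ((4 * r ^ 2) * (1 - s))) * (4 * r ^ 2) ^ (m + 1) = (1 / (1 - s)) * (4 * r ^ 2) ^ m := by
        have e3 : (4 * r ^ 2) ^ (m + 1) = (4 * r ^ 2) ^ m * (4 * r ^ 2) := pow_succ _ _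
        rw [e3]; field_simp
      rw [e1, e2]
      gcongr
  have key := hasDerivAt_tsum_of_isPreconnected (𝕜 := ℂ) (F := ℂ) (α := ℕ)
    (g := fun j z => (l j : ℂ) * z ^ j)
    (g' := fun j z => (l j : ℂ) * ((j : ℂ) * z ^ (j - 1)))
    (u := fun j => (1 / ((4 * r ^ 2) * (1 - s))) * (|l j| * (4 * r ^ 2) ^ j))
    (t := Metric.ball (0 : ℂ) ρ) (y₀ := 0) (y := y) (h1.mul_left _) Metric.isOpen_ball
    (convex_ball (0 : ℂ) ρ).isPreconnected
    (fun j z _ => (hasDerivAt_pow j z).const_mul (l j : ℂ))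
    (fun j z hz => by
      rw [mem_ball_zero_iff] at hz
      rw [norm_mul, norm_mul, norm_pow, Complex.norm_natCast, Complex.norm_real, Real.norm_eq_abs]
      have h3 : ‖z‖ ^ (j - 1) ≤ ρ ^ (j - 1) := pow_le_pow_left₀ (norm_nonneg _) hz.le _
      have h4 := hmb j
      calc |l j| * ((j : ℝ) * ‖z‖ ^ (j - 1)) ≤ |l j| * ((j : ℝ) * ρ ^ (j - 1)) := by gcongr
        _ ≤ |l j| * ((1 / ((4 * r ^ 2) * (1 - s))) * (4 * r ^ 2) ^ j) := by gcongr
        _ = _ := by ring)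
    (by simpa using hρ0)
    (by
      have : HasSum (fun j : ℕ => (l j : ℂ) * (0 : ℂ) ^ j) (l 0 : ℂ) := by
        have := hasSum_single (f := fun j : ℕ => (l j : ℂ) * (0 : ℂ) ^ j) 0 (by intro j hj; simp [hj])
        simpa using this
      exact this.summable)
    (by rw [mem_ball_zero_iff]; exact hρ1)
  refine (key.congr_deriv ?_)
  have hinj : Function.Injective (fun j : ℕ => j + 1) := fun a b h => by simpa using h
  have h5 := hinj.tsum_eq (f := fun j : ℕ => (l j : ℂ) * ((j : ℂ) * y ^ (j - 1))) (by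
    intro j hj
    rcases j with _ | j
    · simp at hj
    · exact ⟨j, rfl⟩)
  rw [← h5]
  unfold Lf dl
  refine tsum_congr (fun j => ?_)
  rw [show j + 1 - 1 = j from by omega]
  push_cast; ring

/-- first derivative of the generating function -/
noncomputable def Uf (μ : ℝ) (l : ℕ → ℝ) (a b : ℂ) : ℂ :=
  2 * ((a + b) / 2) * Lf (dl l) (((a + b) / 2) ^ 2) * Complex.cos (μ * ((b - a) / 2))
    + (1 + (μ : ℂ) ^ 2 * Lf l (((a + b) / 2) ^ 2)) * (Complex.sin (μ * ((b - a) / 2)) / μ)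

/-- half the generating function -/
noncomputable def Wf (μ : ℝ) (l : ℕ → ℝ) (a b : ℂ) : ℂ :=
  Lf l (((a + b) / 2) ^ 2) * Complex.cos (μ * ((b - a) / 2))
    + (Complex.cos (μ * ((b - a) / 2)) - 1) / (μ : ℂ) ^ 2

noncomputable def S12f (μ : ℝ) (l : ℕ → ℝ) (a b : ℂ) : ℂ :=
  (Lf (dl l) (((a + b) / 2) ^ 2) + 2 * ((a + b) / 2) ^ 2 * Lf (dl (dl l)) (((a + b) / 2) ^ 2)
    + 1 / 2 * (1 + (μ : ℂ) ^ 2 * Lf l (((a + b) / 2) ^ 2))) * Complex.cos (μ * ((b - a) / 2))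

noncomputable def S11f (μ : ℝ) (l : ℕ → ℝ) (a b : ℂ) : ℂ :=
  (Lf (dl l) (((a + b) / 2) ^ 2) + 2 * ((a + b) / 2) ^ 2 * Lf (dl (dl l)) (((a + b) / 2) ^ 2)
    - 1 / 2 * (1 + (μ : ℂ) ^ 2 * Lf l (((a + b) / 2) ^ 2))) * Complex.cos (μ * ((b - a) / 2))
    + 2 * (μ : ℂ) ^ 2 * ((a + b) / 2) * Lf (dl l) (((a + b) / 2) ^ 2) * (Complex.sin (μ * ((b - a) / 2)) / μ)

lemma S12f_symm (μ : ℝ) (l : ℕ → ℝ) (a b : ℂ) : S12f μ l b a = S12f μ l a b := by
  unfold S12f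
  have e : (μ : ℂ) * ((a - b) / 2) = -(μ * ((b - a) / 2)) := by ring
  rw [add_comm b a, e, Complex.cos_neg]

lemma Wf_symm (μ : ℝ) (l : ℕ → ℝ) (a b : ℂ) : Wf μ l b a = Wf μ l a b := by
  unfold Wf
  have e : (μ : ℂ) * ((a - b) / 2) = -(μ * ((b - a) / 2)) := by ring
  rw [add_comm b a, e, Complex.cos_neg]

lemma neg_half (a b : ℂ) : (-a + -b) / 2 = -((a + b) / 2) := by ring
lemma neg_half' (a b : ℂ) : (-b - -a) / 2 = -((b - a) / 2) := by ring

lemma Uf_neg (μ : ℝ) (l : ℕ → ℝ) (a b : ℂ) : Uf μ l (-a) (-b) = -Uf μ l a b := by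
  unfold Uf
  rw [neg_half, neg_half', neg_sq]
  simp only [mul_neg, Complex.cos_neg, Complex.sin_neg]; ring

lemma Wf_neg (μ : ℝ) (l : ℕ → ℝ) (a b : ℂ) : Wf μ l (-a) (-b) = Wf μ l a b := by
  unfold Wf
  rw [neg_half, neg_half', neg_sq, mul_neg, Complex.cos_neg]

lemma S12f_neg (μ : ℝ) (l : ℕ → ℝ) (a b : ℂ) : S12f μ l (-a) (-b) = S12f μ l a b := by
  unfold S12f
  rw [neg_half, neg_half', neg_sq, mul_neg, Complex.cos_neg]

lemma S11f_neg (μ : ℝ) (l : ℕ → ℝ) (a b : ℂ) : S11f μ l (-a) (-b) = S11f μ l a b := by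
  unfold S11f
  rw [neg_half, neg_half', neg_sq]
  simp only [mul_neg, Complex.cos_neg, Complex.sin_neg]; ring

lemma Lf_conj (l : ℕ → ℝ) (y : ℂ) : starRingEnd ℂ (Lf l y) = Lf l (starRingEnd ℂ y) := by
  unfold Lf
  rw [Complex.conj_tsum]
  refine tsum_congr (fun j => ?_)
  rw [map_mul, map_pow, Complex.conj_ofReal]

lemma conj_half (a b : ℂ) : starRingEnd ℂ ((a + b) / 2) = (starRingEnd ℂ a + starRingEnd ℂ b) / 2 := by
  rw [map_div₀, map_add, map_ofNat]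

lemma conj_half' (a b : ℂ) : starRingEnd ℂ ((b - a) / 2) = (starRingEnd ℂ b - starRingEnd ℂ a) / 2 := by
  rw [map_div₀, map_sub, map_ofNat]

lemma Uf_conj (μ : ℝ) (l : ℕ → ℝ) (a b : ℂ) :
    starRingEnd ℂ (Uf μ l a b) = Uf μ l (starRingEnd ℂ a) (starRingEnd ℂ b) := by
  unfold Uf
  simp only [map_add, map_mul, map_div₀, map_pow, map_sub, map_one, map_ofNat, Lf_conj, ← Complex.cos_conj, ← Complex.sin_conj, Complex.conj_ofReal]

lemma Wf_conj (μ : ℝ) (l : ℕ → ℝ) (a b : ℂ) :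
    starRingEnd ℂ (Wf μ l a b) = Wf μ l (starRingEnd ℂ a) (starRingEnd ℂ b) := by
  unfold Wf
  simp only [map_add, map_mul, map_div₀, map_pow, map_sub, map_one, map_ofNat, Lf_conj, ← Complex.cos_conj, Complex.conj_ofReal]

lemma S12f_conj (μ : ℝ) (l : ℕ → ℝ) (a b : ℂ) :
    starRingEnd ℂ (S12f μ l a b) = S12f μ l (starRingEnd ℂ a) (starRingEnd ℂ b) := by
  unfold S12f
  simp only [map_add, map_mul, map_div₀, map_pow, map_sub, map_one, map_ofNat, Lf_conj, ← Complex.cos_conj, Complex.conj_ofReal]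

lemma S11f_conj (μ : ℝ) (l : ℕ → ℝ) (a b : ℂ) :
    starRingEnd ℂ (S11f μ l a b) = S11f μ l (starRingEnd ℂ a) (starRingEnd ℂ b) := by
  unfold S11f
  simp only [map_add, map_mul, map_div₀, map_pow, map_sub, map_one, map_ofNat, Lf_conj, ← Complex.cos_conj, ← Complex.sin_conj, Complex.conj_ofReal]

lemma U_deriv {r M μ s : ℝ} {l : ℕ → ℝ} (hr : 1 ≤ r) (hs0 : 0 < s) (hs1 : s < 1) (h : NL r M l) (hμ : μ ≠ 0)
    {a b : ℂ → ℂ} {a' b' t : ℂ} (ha : HasDerivAt a a' t) (hb : HasDerivAt b b' t)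
    (hm : ‖((a t + b t) / 2) ^ 2‖ < 4 * (r * s) ^ 2) :
    HasDerivAt (fun t => Uf μ l (a t) (b t)) (S11f μ l (a t) (b t) * a' + S12f μ l (a t) (b t) * b') t := by
  have hr0 : 0 < r := by linarith
  have hrs : 0 < r * s := by positivity
  have hμc : (μ : ℂ) ≠ 0 := by exact_mod_cast hμ
  have hrs1 : 4 * (r * s) ^ 2 ≤ 4 * r ^ 2 := by
    have : r * s ≤ r := by nlinarith
    have := pow_le_pow_left₀ hrs.le this 2
    linarith
  have hd := NL.deriv hr hs0 hs1 h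
  have hmid : HasDerivAt (fun t => (a t + b t) / 2) ((a' + b') / 2) t := (ha.add hb).div_const 2
  have hdif : HasDerivAt (fun t => (b t - a t) / 2) ((b' - a') / 2) t := (hb.sub ha).div_const 2
  have hm2 := hmid.pow 2
  have hL := (Lf_deriv hr0 h (hm.trans_le hrs1)).comp t hm2
  have hL1 := (Lf_deriv hrs hd hm).comp t hm2
  have hmu := hdif.const_mul (μ : ℂ)
  have hcos := hmu.ccos
  have hsin := hmu.csin
  have h1 := (((hmid.const_mul (2 : ℂ)).mul hL1).mul hcos).add (((hL.const_mul ((μ : ℂ) ^ 2)).const_add 1).mul (hsin.div_const (μ : ℂ)))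
  refine h1.congr_deriv ?_
  unfold S11f S12f
  simp only [Function.comp, Pi.mul_apply, Pi.pow_apply]
  field_simp
  ring

lemma W_deriv {r M μ s : ℝ} {l : ℕ → ℝ} (hr : 1 ≤ r) (hs0 : 0 < s) (hs1 : s < 1) (h : NL r M l) (hμ : μ ≠ 0)
    {a b : ℂ → ℂ} {a' b' t : ℂ} (ha : HasDerivAt a a' t) (hb : HasDerivAt b b' t)
    (hm : ‖((a t + b t) / 2) ^ 2‖ < 4 * (r * s) ^ 2) :
    HasDerivAt (fun t => Wf μ l (a t) (b t)) (1 / 2 * (Uf μ l (a t) (b t) * a' + Uf μ l (b t) (a t) * b')) t := by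
  have hr0 : 0 < r := by linarith
  have hrs : 0 < r * s := by positivity
  have hμc : (μ : ℂ) ≠ 0 := by exact_mod_cast hμ
  have hrs1 : 4 * (r * s) ^ 2 ≤ 4 * r ^ 2 := by
    have : r * s ≤ r := by nlinarith
    have := pow_le_pow_left₀ hrs.le this 2
    linarith
  have hmid : HasDerivAt (fun t => (a t + b t) / 2) ((a' + b') / 2) t := (ha.add hb).div_const 2
  have hdif : HasDerivAt (fun t => (b t - a t) / 2) ((b' - a') / 2) t := (hb.sub ha).div_const 2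
  have hm2 := hmid.pow 2
  have hL := (Lf_deriv hr0 h (hm.trans_le hrs1)).comp t hm2
  have hmu := hdif.const_mul (μ : ℂ)
  have hcos := hmu.ccos
  have h1 := (hL.mul hcos).add ((hcos.sub_const 1).div_const ((μ : ℂ) ^ 2))
  refine h1.congr_deriv ?_
  have e1 : Uf μ l (b t) (a t) = 2 * ((a t + b t) / 2) * Lf (dl l) (((a t + b t) / 2) ^ 2) * Complex.cos (μ * ((b t - a t) / 2))
    - (1 + (μ : ℂ) ^ 2 * Lf l (((a t + b t) / 2) ^ 2)) * (Complex.sin (μ * ((b t - a t) / 2)) / μ) := by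
    unfold Uf
    have e : (μ : ℂ) * ((a t - b t) / 2) = -(μ * ((b t - a t) / 2)) := by ring
    rw [add_comm (b t) (a t), e, Complex.cos_neg, Complex.sin_neg]; ring
  rw [e1]
  unfold Uf
  simp only [Function.comp, Pi.mul_apply, Pi.pow_apply]
  field_simp
  ring

end Pool.Agent.Helper649.Bil
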