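import Pool.Agent.Helper649.BilF

set_option autoImplicit false

namespace Pool.Agent.Helper649.Bil

open Complex

lemma add_all {R M N s : ℝ} {l k : ℕ → ℝ} (hs0 : 0 < s) (hs1 : s < 1) (hR : 1 ≤ R * s ^ 2) (hl : NL R M l)
    (hk : NL R N k) {y : ℂ} (hy : ‖y‖ ≤ 4 * (R * s ^ 2) ^ 2) :
    Lf (fun j => l j + k j) y = Lf l y + Lf k y ∧
    Lf (dl (fun j => l j + k j)) y = Lf (dl l) y + Lf (dl k) y ∧
    Lf (dl (dl (fun j => l j + k j))) y = Lf (dl (dl l)) y + Lf (dl (dl k)) y := by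
  have hs2 : s ^ 2 ≤ 1 := pow_le_one₀ hs0.le hs1.le
  have hs21 : s ^ 2 ≤ s := by nlinarith
  have hs20 : 0 < s ^ 2 := by positivity
  have hR0 : 0 < R := by
    by_contra hc; push Not at hc; nlinarith
  have hR1 : 1 ≤ R := by nlinarith
  have hRs : 1 ≤ R * s := by nlinarith
  have e2 : R * s * s = R * s ^ 2 := by ring
  have h1 := NL.deriv hR1 hs0 hs1 hl
  have h2 := NL.deriv hR1 hs0 hs1 hk
  have h3 := NL.deriv hRs hs0 hs1 h1
  have h4 := NL.deriv hRs hs0 hs1 h2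
  rw [e2] at h3 h4
  have le1 : 4 * (R * s ^ 2) ^ 2 ≤ 4 * (R * s) ^ 2 := by
    have : R * s ^ 2 ≤ R * s := by nlinarith
    have := pow_le_pow_left₀ (by positivity) this 2
    linarith
  have le2 : 4 * (R * s) ^ 2 ≤ 4 * R ^ 2 := by
    have : R * s ≤ R := by nlinarith
    have := pow_le_pow_left₀ (by positivity) this 2
    linarith
  refine ⟨Lf_add hl hk (hy.trans (le1.trans le2)), ?_, ?_⟩
  · rw [dl_add]; exact Lf_add h1 h2 (hy.trans le1)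
  · rw [dl_add, dl_add]; exact Lf_add h3 h4 hy

section st

variable {C : Cst} {ML r κ ε Λ s : ℝ} {q qz qw st : ℂ × ℂ → ℂ} {l : ℕ → ℝ} {δq δs e2 : ℂ × ℂ → ℂ}

lemma Big.small (h : Big C ML r κ ε Λ s) {n : ℕ} (hn : n ≤ 43) : Λ ^ n * ε ≤ 1 / 400 := by
  have h1 := h.hε
  have h2 := h.invΛ
  have hΛ0 := h.Λ0
  have hε0 := h.hε0
  have h3 : Λ ^ n ≤ Λ ^ 43 := pow_le_pow_right₀ h.Λ1 hn
  have h4 : Λ ^ 43 * ε ≤ Λ⁻¹ := by
    have e : Λ ^ 43 * ε = (Λ ^ 44 * ε) * Λ⁻¹ := by field_simp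
    rw [e]
    have : 0 < Λ⁻¹ := inv_pos.mpr hΛ0
    nlinarith
  calc Λ ^ n * ε ≤ Λ ^ 43 * ε := by gcongr
    _ ≤ 1 / 400 := h4.trans h2

/-- the update of the table -/
lemma St.updL (hS : St C ML r κ ε q qz qw st l) (h : Big C ML r κ ε Λ s) (hε : 0 < ε)
    (hq : Q (S2 (r * s ^ 2)) Λ ε 11 1 δq) (hs : Q (S2 (r * s ^ 4)) Λ ε 12 1 δs)
    (hreal : ∀ p ∈ (S2 (r * s ^ 2)).D, starRingEnd ℂ (δq (cj p)) = δq p)
    (hsreal : ∀ p ∈ (S2 (r * s ^ 4)).D, starRingEnd ℂ (δs (cj p)) = δs p)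
    (hx : ∀ p ∈ (S2 (r * s ^ 4)).D, (δq (rot C.ν p) + δq (rot C.ν⁻¹ p)) / 2 = (p.1 - p.2) ^ 2 * δs p) :
    ∃ δl : ℕ → ℝ, NL (r * s ^ 5) (Λ ^ 35 * ε ^ 2) δl ∧
      ∃ a K, (S2 (r * s ^ 6)).BC K a (C.Wh (fun j => l j + δl j) (fun p => q p + δq p)) ∧ ∀ m : ℕ, a (m, m) = 0 := by
  have hΛ0 := h.Λ0
  have hs0 := h.hs0
  have hs1 := h.hs1
  have hκ := h.hκ
  have hr4 := h.rpos 4
  have h42 : r * s ^ 4 ≤ r * s ^ 2 := h.rk (by norm_num)
  have h4r := h.rle 4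
  have hq4 := Q_r hq hr4 h42
  -- bounds
  have hst' : (S2 (r * s ^ 4)).B (1 / 200) (fun p => st p + δs p) := by
    refine ((B_rmono hr4 h4r hS.bs le_rfl).add hs).mono ?_
    have := h.small (n := 12) (by norm_num)
    rw [pow_one]; linarith
  have hbq' : (S2 (r * s ^ 4)).B 1 (fun p => (q p + δq p) - C.q1 * (p.1 + p.2)) := by
    refine (((B_rmono hr4 h4r hS.bq le_rfl).add hq4).mono ?_).congr (fun p _ => by ring)
    have := h.small (n := 11) (by norm_num)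
    rw [pow_one]; linarith
  have hD := D_bound (C := C) hr4 (h.rk2 4) le_rfl hbq'
  have hD' := hD.mono (by linarith : 4 * |C.T| + 1 ≤ 4 * |C.T| + 2)
  have hcos := cos_B hD' C.hμ0.le C.hμ1
  have hcos8 := hcos.mono h.hμ8
  have hss := ss_B (S := S2 (r * s ^ 4)) (B_fst hr4) (B_snd hr4) hst' (h.rk2 4) le_rfl
  -- reality
  have hqr : ∀ p ∈ (S2 (r * s ^ 4)).D, starRingEnd ℂ (q (cj p) + δq (cj p)) = q p + δq p := fun p hp => by
    rw [map_add, hS.real p (mem_mono hr4 h4r hp), hreal p (mem_mono hr4 h42 hp)]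
  have hssr : ∀ p ∈ (S2 (r * s ^ 4)).D, starRingEnd ℂ (ss (fun p => p.1) (fun p => p.2) (fun p => st p + δs p) (cj p))
      = ss (fun p => p.1) (fun p => p.2) (fun p => st p + δs p) p := by
    intro p hp
    unfold ss
    simp only [map_add, map_mul, map_pow, map_sub, map_ofNat]
    have e1 : starRingEnd ℂ (cj p).1 = p.1 := by unfold cj; simp
    have e2 : starRingEnd ℂ (cj p).2 = p.2 := by unfold cj; simp
    rw [e1, e2, hS.sreal p (mem_mono hr4 h4r hp), hsreal p hp]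
  have hDr : ∀ p ∈ (S2 (r * s ^ 4)).D, starRingEnd ℂ (((q (rot C.ν (cj p)) + δq (rot C.ν (cj p))) - (q (rot C.ν⁻¹ (cj p)) + δq (rot C.ν⁻¹ (cj p)))) / 2)
      = -(((q (rot C.ν p) + δq (rot C.ν p)) - (q (rot C.ν⁻¹ p) + δq (rot C.ν⁻¹ p))) / 2) := by
    intro p hp
    rw [map_div₀, map_sub, map_ofNat, rot_cj C.hν, rot_cj C.hν', inv_inv, hqr _ (rot_mem C.hν hp), hqr _ (rot_mem C.hν' hp)]
    ring
  have hcr : ∀ p ∈ (S2 (r * s ^ 4)).D, starRingEnd ℂ (Complex.cos (C.μ * (((q (rot C.ν (cj p)) + δq (rot C.ν (cj p))) - (q (rot C.ν⁻¹ (cj p)) + δq (rot C.ν⁻¹ (cj p)))) / 2)))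
      = Complex.cos (C.μ * (((q (rot C.ν p) + δq (rot C.ν p)) - (q (rot C.ν⁻¹ p) + δq (rot C.ν⁻¹ p))) / 2)) := by
    intro p hp
    rw [← Complex.cos_conj, map_mul, hDr p hp, Complex.conj_ofReal, mul_neg, Complex.cos_neg]
  -- the mean
  obtain ⟨a, K, haB, hsum, hsumle⟩ := hS.updW h hε hq hs hx
  have hWr : ∀ p ∈ (S2 (r * s ^ 4)).D, starRingEnd ℂ (C.Wh l (fun p => q p + δq p) (cj p)) = C.Wh l (fun p => q p + δq p) p := by
    intro p hp
    unfold Cst.Wh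
    rw [Wf_conj, rot_cj C.hν, rot_cj C.hν', inv_inv, hqr _ (rot_mem C.hν hp), hqr _ (rot_mem C.hν' hp), Wf_symm]
  have har := coef_real hr4 haB hWr
  have hare : ∀ i, ((a i).re : ℂ) = a i := fun i => Complex.conj_eq_iff_re.mp (har i)
  have hga : ∀ m : ℕ, |-(a (m, m)).re| = ‖a (m, m)‖ := fun m => by
    rw [abs_neg, ← hare (m, m), Complex.ofReal_re, Complex.norm_real, Real.norm_eq_abs]
  obtain ⟨δl, hl1, hl2, hl3⟩ := abel hr4 hss hcos8 hssr hcr (fun m => -(a (m, m)).re) (by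
    simp only [hga]; exact hsum)
  simp only [hga] at hl2
  have hl2' : ∑' j, |δl j| * ((Nat.centralBinom j : ℝ) * (r * s ^ 4) ^ (2 * j)) ≤ 2 * (Λ ^ 33 * ε ^ 2) :=
    hl2.trans (by linarith)
  obtain ⟨a2, K2, ha2, ha2m⟩ := hl3 s hs0 hs1
  have e5 : r * s ^ 4 * s = r * s ^ 5 := by ring
  rw [e5] at ha2
  -- the norm of the update
  have h1s : 0 < 1 - s := by linarith
  have hNL : NL (r * s ^ 5) (Λ ^ 35 * ε ^ 2) δl := by
    have hle : ∀ j, |δl j| * (4 * (r * s ^ 5) ^ 2) ^ j ≤ (2 / (1 - s)) * (|δl j| * ((Nat.centralBinom j : ℝ) * (r * s ^ 4) ^ (2 * j))) := by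
      intro j
      have h4 : (4 : ℝ) ^ j ≤ (2 * (j : ℝ) + 1) * Nat.centralBinom j := by
        rcases Nat.eq_zero_or_pos j with h | h
        · subst h; simp
        · have h5 := Nat.four_pow_le_two_mul_self_mul_centralBinom j h
          have h6 : ((4 ^ j : ℕ) : ℝ) ≤ ((2 * j * Nat.centralBinom j : ℕ) : ℝ) := by exact_mod_cast h5
          push_cast at h6
          have : (0 : ℝ) ≤ Nat.centralBinom j := Nat.cast_nonneg _
          nlinarith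
      have h3 := succ_mul_pow_le hs0.le hs1 j
      have e1 : (4 * (r * s ^ 5) ^ 2) ^ j = 4 ^ j * (r * s ^ 4) ^ (2 * j) * (s ^ j * s ^ j) := by
        have key : ∀ u : ℝ, (4 * (u * s) ^ 2) ^ j = 4 ^ j * u ^ (2 * j) * (s ^ j * s ^ j) := fun u => by
          have : (4 * (u * s) ^ 2) = 4 * (u ^ 2) * (s * s) := by ring
          rw [this, mul_pow, mul_pow, mul_pow, ← pow_mul]
        rw [← key, mul_assoc r, ← pow_succ]
      have h5 : s ^ j ≤ 1 := pow_le_one₀ hs0.le hs1.le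
      rw [e1]
      calc |δl j| * (4 ^ j * (r * s ^ 4) ^ (2 * j) * (s ^ j * s ^ j))
          ≤ |δl j| * (((2 * (j : ℝ) + 1) * Nat.centralBinom j) * (r * s ^ 4) ^ (2 * j) * (s ^ j * 1)) := by gcongr
        _ ≤ |δl j| * (((2 * ((j : ℝ) + 1)) * Nat.centralBinom j) * (r * s ^ 4) ^ (2 * j) * (s ^ j * 1)) := by
            gcongr; linarith
        _ = 2 * (((j : ℝ) + 1) * s ^ j) * (|δl j| * ((Nat.centralBinom j : ℝ) * (r * s ^ 4) ^ (2 * j))) := by ring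
        _ ≤ 2 * (1 / (1 - s)) * (|δl j| * ((Nat.centralBinom j : ℝ) * (r * s ^ 4) ^ (2 * j))) := by gcongr
        _ = _ := by ring
    have hs' : Summable (fun j => |δl j| * (4 * (r * s ^ 5) ^ 2) ^ j) :=
      Summable.of_nonneg_of_le (fun j => by positivity) hle (hl1.mul_left _)
    refine ⟨hs', (hs'.tsum_le_tsum hle (hl1.mul_left _)).trans ?_⟩
    rw [tsum_mul_left]
    have h7 : 2 / (1 - s) ≤ 2 * Λ := by
      have := h.hsΛ
      have e : 2 / (1 - s) = 2 * (1 / (1 - s)) := by ring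
      rw [e]; linarith
    have h8 := h.hΛ
    calc 2 / (1 - s) * ∑' j, |δl j| * ((Nat.centralBinom j : ℝ) * (r * s ^ 4) ^ (2 * j))
        ≤ (2 * Λ) * (2 * (Λ ^ 33 * ε ^ 2)) := by
          have : 0 ≤ ∑' j, |δl j| * ((Nat.centralBinom j : ℝ) * (r * s ^ 4) ^ (2 * j)) :=
            tsum_nonneg fun j => by positivity
          gcongr
      _ = 4 * (Λ ^ 34 * ε ^ 2) := by ring
      _ ≤ Λ * (Λ ^ 34 * ε ^ 2) := by
          have : (4 : ℝ) ≤ Λ := by linarith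
          gcongr
      _ = Λ ^ 35 * ε ^ 2 := by ring
  refine ⟨δl, hNL, ?_⟩
  have h65 : r * s ^ 6 ≤ r * s ^ 5 := h.rk (by norm_num)
  have h64 : r * s ^ 6 ≤ r * s ^ 4 := h.rk (by norm_num)
  have hsum2 := (BC_rmono (h.rpos 6) h64 haB le_rfl).add (BC_rmono (h.rpos 6) h65 ha2 le_rfl)
  refine ⟨_, _, hsum2.congr (fun p hp => ?_), fun m => ?_⟩
  · have hp4 := mem_mono (h.rpos 6) h64 hp
    have hpr := mem_mono (h.rpos 6) (h.rle 6) hp
    obtain ⟨b1, b2⟩ := memlt (h.rpos 6) (h.rlt (a := 5) (b := 6) (by norm_num)) hp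
    have hxs := xsq_lt b1 b2 (hst'.norm_le hp4) (h.rk2 5)
    have hmid : ((q (rot C.ν⁻¹ p) + δq (rot C.ν⁻¹ p)) + (q (rot C.ν p) + δq (rot C.ν p))) / 2
        = (p.1 + p.2) + (p.1 - p.2) ^ 2 * (st p + δs p) := by
      have e1 := hS.xrel p hpr
      have e2 := hx p hp4
      linear_combination e1 + e2
    have hl5 : NL (r * s ^ 5) (ML + κ) l := hS.bl.mono (h.rpos 5).le (h.rle 5) le_rfl
    have hLadd := Lf_add hl5 hNL hxs.le
    unfold Cst.Wh Wf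
    rw [hmid, hLadd]
    have e3 : ((p.1 + p.2) + (p.1 - p.2) ^ 2 * (st p + δs p)) ^ 2
        = (p.1 + p.2) ^ 2 + (p.1 - p.2) ^ 2 * ss (fun p => p.1) (fun p => p.2) (fun p => st p + δs p) p := by
      unfold ss; ring
    rw [← e3]
    ring
  · show a (m, m) + a2 (m, m) = 0
    rw [ha2m m]
    push_cast
    rw [hare]; ring

end st

end Pool.Agent.Helper649.Bil
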