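import Pool.Agent.Helper649.BilG

set_option autoImplicit false

namespace Pool.Agent.Helper649.Bil

open Complex

lemma Uf_addl {μ R M N s : ℝ} {l k : ℕ → ℝ} (hs0 : 0 < s) (hs1 : s < 1) (hR : 1 ≤ R * s ^ 2) (hl : NL R M l)
    (hk : NL R N k) {a b : ℂ} (hy : ‖((a + b) / 2) ^ 2‖ ≤ 4 * (R * s ^ 2) ^ 2) :
    Uf μ (fun j => l j + k j) a b = Uf μ l a b + Uh μ k a b ∧
    S12f μ (fun j => l j + k j) a b = S12f μ l a b + S12h μ k a b := by
  obtain ⟨e1, e2, e3⟩ := add_all hs0 hs1 hR hl hk hy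
  unfold Uf Uh S12f S12h
  rw [e1, e2, e3]
  constructor <;> ring

section st

variable {C : Cst} {ML r κ ε Λ s : ℝ} {q qz qw st : ℂ × ℂ → ℂ} {l : ℕ → ℝ}

/-- The Newton step. -/
theorem St.step (hS : St C ML r κ ε q qz qw st l) (h : Big C ML r κ ε Λ s) (hε : 0 < ε) :
    ∃ (q' qz' qw' st' : ℂ × ℂ → ℂ) (l' : ℕ → ℝ),
      St C ML (r * s ^ 8) (κ + Λ ^ 24 * ε) (Λ ^ 44 * ε ^ 2) q' qz' qw' st' l' ∧
      (S2 (r * s ^ 8)).B (Λ ^ 24 * ε) (fun p => q' p - q p) ∧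
      NL (r * s ^ 8) (Λ ^ 24 * ε) (fun j => l' j - l j) := by
  have hΛ0 := h.Λ0
  have hΛ1 := h.Λ1
  have hΛ2 := h.Λ2
  have hε0 := h.hε0
  have hs0 := h.hs0
  have hs1 := h.hs1
  have hκ := h.hκ
  obtain ⟨δq, δz, δw, δs, e2, hq, hdz, hdw, hds, he2, dz, dw, sy, od, re, sre, hx, hlin⟩ := hS.corr h
  obtain ⟨δl, hNL, a, K, haB, ham⟩ := hS.updL h hε hq hds re sre hx
  have hE37 := hS.updE h hε hq hds he2 hx hlin
  have h12 := hS.upd12 h hε hq hds hx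
  have p8 := h.rpos 8
  have le8 := h.rle 8
  have h82 : r * s ^ 8 ≤ r * s ^ 2 := h.rk (by norm_num)
  have h83 : r * s ^ 8 ≤ r * s ^ 3 := h.rk (by norm_num)
  have h84 : r * s ^ 8 ≤ r * s ^ 4 := h.rk (by norm_num)
  have h85 : r * s ^ 8 ≤ r * s ^ 5 := h.rk (by norm_num)
  have h86 : r * s ^ 8 ≤ r * s ^ 6 := h.rk (by norm_num)
  have pw : ∀ {n : ℕ}, n ≤ 24 → Λ ^ n * ε ≤ Λ ^ 24 * ε := fun {n} hn => by
    have := pow_le_pow_right₀ hΛ1 hn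
    gcongr
  have pw1 : ∀ {n : ℕ}, n ≤ 24 → Λ ^ n * ε ^ 1 ≤ Λ ^ 24 * ε := fun {n} hn => by
    rw [pow_one]; exact pw hn
  have hsm : ∀ n : ℕ, n ≤ 43 → Λ ^ n * ε ^ 2 ≤ ε := fun n hn => by
    have := h.small (n := n) hn
    have e : Λ ^ n * ε ^ 2 = (Λ ^ n * ε) * ε := by ring
    rw [e]; nlinarith
  have hε24 : ε ≤ Λ ^ 24 * ε := by
    have : 1 ≤ Λ ^ 24 := one_le_pow₀ hΛ1
    nlinarith
  have hε23 : ε ≤ Λ ^ 23 * ε := by
    have : 1 ≤ Λ ^ 23 := one_le_pow₀ hΛ1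
    nlinarith
  -- new midpoint relation
  have hmid : ∀ p ∈ (S2 (r * s ^ 4)).D, ((q (rot C.ν p) + δq (rot C.ν p)) + (q (rot C.ν⁻¹ p) + δq (rot C.ν⁻¹ p))) / 2
      = (p.1 + p.2) + (p.1 - p.2) ^ 2 * (st p + δs p) := by
    intro p hp
    have e1 := hS.xrel p (mem_mono (h.rpos 4) (h.rle 4) hp)
    have e2 := hx p hp
    linear_combination e1 + e2
  -- bounds
  have hst4 : (S2 (r * s ^ 4)).B (1 / 200) (fun p => st p + δs p) := by
    refine ((B_rmono (h.rpos 4) (h.rle 4) hS.bs le_rfl).add hds).mono ?_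
    have := h.small (n := 12) (by norm_num)
    rw [pow_one]; linarith
  have hbq' : (S2 (r * s ^ 4)).B 1 (fun p => (q p + δq p) - C.q1 * (p.1 + p.2)) := by
    refine (((B_rmono (h.rpos 4) (h.rle 4) hS.bq le_rfl).add (Q_r hq (h.rpos 4) (h.rk (by norm_num)))).mono ?_).congr (fun p _ => by ring)
    have := h.small (n := 11) (by norm_num)
    rw [pow_one]; linarith
  have hD := D_bound (C := C) (h.rpos 4) (h.rk2 4) le_rfl hbq'
  have hD' := B_rmono p8 h84 hD (by linarith : 4 * |C.T| + 1 ≤ 4 * |C.T| + 2)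
  have hst8 := B_rmono p8 h84 hst4 le_rfl
  -- the terms from the update of the table
  have e8 : r * s ^ 5 * s ^ 3 = r * s ^ 8 := by ring
  have hZ : (S2 (r * s ^ 8)).B (r * s ^ 5 * s ^ 3) (fun p => p.1) := by rw [e8]; exact B_fst p8
  have hY : (S2 (r * s ^ 8)).B (r * s ^ 5 * s ^ 3) (fun p => p.2) := by rw [e8]; exact B_snd p8
  have h1rs : 1 ≤ r * s ^ 5 * s ^ 3 := by rw [e8]; exact h.hr1
  have h2rs : r * s ^ 5 * s ^ 3 ≤ 2 := by rw [e8]; exact h.rk2 8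
  have hA := fam_h (S := S2 (r * s ^ 8)) (μ := C.μ) h.hΛ hs0 hs1 h.hsΛ (h.rk1 (by norm_num : 5 ≤ 8)) h2rs h1rs hNL hZ hY hst8
    le_rfl hD' h.hT h.hTc C.hμ0 C.hμ1 (a := fun p => q (rot C.ν⁻¹ p) + δq (rot C.ν⁻¹ p)) (b := fun p => q (rot C.ν p) + δq (rot C.ν p))
    (fun p hp => by
      have := hmid p (mem_mono p8 h84 hp)
      show _ = (p.1 + p.2) + (p.1 - p.2) ^ 2 * (st p + δs p)
      rw [← this]; ring)
    (fun p hp => rfl)
  have hA' := fam_h (S := S2 (r * s ^ 8)) (μ := C.μ) h.hΛ hs0 hs1 h.hsΛ (h.rk1 (by norm_num : 5 ≤ 8)) h2rs h1rs hNL hZ hY hst8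
    le_rfl hD'.neg h.hT h.hTc C.hμ0 C.hμ1 (a := fun p => q (rot C.ν p) + δq (rot C.ν p)) (b := fun p => q (rot C.ν⁻¹ p) + δq (rot C.ν⁻¹ p))
    (fun p hp => by
      have := hmid p (mem_mono p8 h84 hp)
      show _ = (p.1 + p.2) + (p.1 - p.2) ^ 2 * (st p + δs p)
      rw [← this])
    (fun p hp => by ring)
  have hU1 := B_rot C.hν hA.1
  have hU2 := B_rot C.hν' hA'.1
  have hS1 := B_rot C.hν hA.2.1
  -- additivity
  have e7 : r * s ^ 5 * s ^ 2 = r * s ^ 7 := by ring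
  have hR : 1 ≤ r * s ^ 5 * s ^ 2 := by rw [e7]; exact h.rk1 (by norm_num)
  have hl5 : NL (r * s ^ 5) (ML + κ) l := hS.bl.mono (h.rpos 5).le (h.rle 5) le_rfl
  have hmidv : ∀ p ∈ (S2 (r * s ^ 8)).D, ((q p + δq p) + (q (rot (C.ν ^ 2) p) + δq (rot (C.ν ^ 2) p))) / 2
      = ((rot C.ν p).1 + (rot C.ν p).2) + ((rot C.ν p).1 - (rot C.ν p).2) ^ 2 * (st (rot C.ν p) + δs (rot C.ν p)) := by
    intro p hp
    rw [← hmid _ (rot_mem C.hν (mem_mono p8 h84 hp)), C.rot_vv, C.rot_v'v]; ring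
  have hmidv' : ∀ p ∈ (S2 (r * s ^ 8)).D, ((q p + δq p) + (q (rot (C.ν ^ 2)⁻¹ p) + δq (rot (C.ν ^ 2)⁻¹ p))) / 2
      = ((rot C.ν⁻¹ p).1 + (rot C.ν⁻¹ p).2) + ((rot C.ν⁻¹ p).1 - (rot C.ν⁻¹ p).2) ^ 2 * (st (rot C.ν⁻¹ p) + δs (rot C.ν⁻¹ p)) := by
    intro p hp
    rw [← hmid _ (rot_mem C.hν' (mem_mono p8 h84 hp)), C.rot_vv', C.rot_v'v']
  have hlt87 : r * s ^ 8 < r * s ^ 7 := h.rlt (by norm_num)
  have hy1 : ∀ p ∈ (S2 (r * s ^ 8)).D, ‖(((q p + δq p) + (q (rot (C.ν ^ 2) p) + δq (rot (C.ν ^ 2) p))) / 2) ^ 2‖ ≤ 4 * (r * s ^ 5 * s ^ 2) ^ 2 := by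
    intro p hp
    obtain ⟨b1, b2⟩ := memlt p8 hlt87 hp
    obtain ⟨b3, b4⟩ := rot_lt C.hν b1 b2
    rw [hmidv p hp, e7]
    exact (xsq_lt b3 b4 (hst4.norm_le (rot_mem C.hν (mem_mono p8 h84 hp))) (h.rk2 7)).le
  have hy2 : ∀ p ∈ (S2 (r * s ^ 8)).D, ‖(((q p + δq p) + (q (rot (C.ν ^ 2)⁻¹ p) + δq (rot (C.ν ^ 2)⁻¹ p))) / 2) ^ 2‖ ≤ 4 * (r * s ^ 5 * s ^ 2) ^ 2 := by
    intro p hp
    obtain ⟨b1, b2⟩ := memlt p8 hlt87 hp
    obtain ⟨b3, b4⟩ := rot_lt C.hν' b1 b2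
    rw [hmidv' p hp, e7]
    exact (xsq_lt b3 b4 (hst4.norm_le (rot_mem C.hν' (mem_mono p8 h84 hp))) (h.rk2 7)).le
  refine ⟨fun p => q p + δq p, fun p => qz p + δz p, fun p => qw p + δw p, fun p => st p + δs p, fun j => l j + δl j, ?_, ?_, ?_⟩
  · refine ⟨?_, ?_, ?_, ?_, ?_, ?_, ?_, ?_, ?_, ?_, ?_, ?_, ?_, ?_, ?_⟩
    · intro p h1 h2
      exact (hS.dz p (h1.trans_le le8) (h2.trans_le le8)).add (dz p (h1.trans_le h82) (h2.trans_le h82))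
    · intro p h1 h2
      exact (hS.dw p (h1.trans_le le8) (h2.trans_le le8)).add (dw p (h1.trans_le h82) (h2.trans_le h82))
    · intro p hp
      simp only [hS.sym p (mem_mono p8 le8 hp), sy p (mem_mono p8 h82 hp)]
    · intro p hp
      simp only [hS.odd p (mem_mono p8 le8 hp), od p (mem_mono p8 h82 hp)]; ring
    · intro p hp
      simp only [map_add, hS.real p (mem_mono p8 le8 hp), re p (mem_mono p8 h82 hp)]
    · intro p hp
      simp only [map_add, hS.sreal p (mem_mono p8 le8 hp), sre p (mem_mono p8 h84 hp)]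
    · intro p hp
      exact hmid p (mem_mono p8 h84 hp)
    · refine (((B_rmono p8 le8 hS.bq le_rfl).add (B_rmono p8 h82 hq le_rfl)).mono ?_).congr (fun p _ => by ring)
      have := pw1 (n := 11) (by norm_num)
      linarith
    · refine (((B_rmono p8 le8 hS.bqz le_rfl).add (B_rmono p8 h83 hdz le_rfl)).mono ?_).congr (fun p _ => by ring)
      have := pw1 (n := 12) (by norm_num)
      linarith
    · refine (((B_rmono p8 le8 hS.bqw le_rfl).add (B_rmono p8 h83 hdw le_rfl)).mono ?_).congr (fun p _ => by ring)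
      have := pw1 (n := 12) (by norm_num)
      linarith
    · refine ((B_rmono p8 le8 hS.bs le_rfl).add (B_rmono p8 h84 hds le_rfl)).mono ?_
      have := pw1 (n := 12) (by norm_num)
      linarith
    · refine ((hS.bl.mono p8.le le8 le_rfl).add (hNL.mono p8.le h85 le_rfl)).mono p8.le le_rfl ?_
      have := hsm 35 (by norm_num)
      linarith
    · -- twist
      have h1 := (((B_rmono p8 h84 h12 le_rfl).add hS1).add (B_rmono p8 le8 hS.b12 le_rfl))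
      refine (h1.mono ?_).congr (fun p hp => ?_)
      · have f1 : Λ ^ 8 * (Λ ^ 35 * ε ^ 2) ≤ ε := by
          have := hsm 43 (by norm_num)
          calc Λ ^ 8 * (Λ ^ 35 * ε ^ 2) = Λ ^ 43 * ε ^ 2 := by ring
            _ ≤ ε := this
        have f2 : 2 * (Λ ^ 23 * ε) ≤ Λ ^ 24 * ε := by
          calc 2 * (Λ ^ 23 * ε) ≤ Λ * (Λ ^ 23 * ε) := by gcongr
            _ = Λ ^ 24 * ε := by ring
        rw [pow_one]; linarith
      · have f1 := (Uf_addl (μ := C.μ) hs0 hs1 hR hl5 hNL (hy1 p hp)).2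
        simp only [C.rot_vv, C.rot_v'v]
        rw [f1]; ring
    · refine ⟨a, K, BC_rmono p8 h86 haB le_rfl, ham⟩
    · -- the error
      have h1 := ((B_rmono p8 h84 hE37 le_rfl).add hU1).add hU2
      refine (h1.mono ?_).congr (fun p hp => ?_)
      · have f1 : Λ ^ 37 ≤ Λ ^ 42 := pow_le_pow_right₀ hΛ1 (by norm_num)
        calc Λ ^ 37 * ε ^ 2 + Λ ^ 7 * (Λ ^ 35 * ε ^ 2) + Λ ^ 7 * (Λ ^ 35 * ε ^ 2)
            ≤ Λ ^ 42 * ε ^ 2 + Λ ^ 7 * (Λ ^ 35 * ε ^ 2) + Λ ^ 7 * (Λ ^ 35 * ε ^ 2) := by gcongr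
          _ = 3 * (Λ ^ 42 * ε ^ 2) := by ring
          _ ≤ Λ * Λ * (Λ ^ 42 * ε ^ 2) := by
              have : (3 : ℝ) ≤ Λ * Λ := by nlinarith
              gcongr
          _ = Λ ^ 44 * ε ^ 2 := by ring
      · have f1 := (Uf_addl (μ := C.μ) hs0 hs1 hR hl5 hNL (hy1 p hp)).1
        have f2 := (Uf_addl (μ := C.μ) hs0 hs1 hR hl5 hNL (hy2 p hp)).1
        unfold Cst.Ef
        simp only [C.rot_vv, C.rot_v'v, C.rot_vv', C.rot_v'v']
        rw [f1, f2]; ring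
  · refine ((B_rmono p8 h82 hq le_rfl).mono (pw1 (by norm_num))).congr (fun p _ => by ring)
  · have h1 := hNL.mono p8.le h85 (N := Λ ^ 24 * ε) (by
      have := hsm 35 (by norm_num)
      linarith)
    have e : (fun j => (l j + δl j) - l j) = δl := by funext j; ring
    rw [e]; exact h1

end st

end Pool.Agent.Helper649.Bil
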