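import Pool.Agent.Helper649.BilH

set_option autoImplicit false

namespace Pool.Agent.Helper649.Bil

open Complex

lemma St.mono {C : Cst} {ML r κ ε r' κ' ε' : ℝ} {q qz qw st : ℂ × ℂ → ℂ} {l : ℕ → ℝ}
    (h : St C ML r κ ε q qz qw st l) (hr' : 0 < r') (hr : r' ≤ r) (hκ : κ ≤ κ') (hε : ε ≤ ε') :
    St C ML r' κ' ε' q qz qw st l := by
  obtain ⟨a, K, haB, ham⟩ := h.avg
  exact ⟨fun p h1 h2 => h.dz p (h1.trans_le hr) (h2.trans_le hr), fun p h1 h2 => h.dw p (h1.trans_le hr) (h2.trans_le hr),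
    fun p hp => h.sym p (mem_mono hr' hr hp), fun p hp => h.odd p (mem_mono hr' hr hp),
    fun p hp => h.real p (mem_mono hr' hr hp), fun p hp => h.sreal p (mem_mono hr' hr hp),
    fun p hp => h.xrel p (mem_mono hr' hr hp),
    B_rmono hr' hr h.bq hκ, B_rmono hr' hr h.bqz hκ, B_rmono hr' hr h.bqw hκ, B_rmono hr' hr h.bs hκ,
    h.bl.mono hr'.le hr (by linarith), B_rmono hr' hr h.b12 hκ, ⟨a, K, BC_rmono hr' hr haB le_rfl, ham⟩,
    B_rmono hr' hr h.bE hε⟩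

/-- conditions for the iteration -/
structure Gd (C : Cst) (ML κ0 L : ℝ) : Prop where
  hL : 1600 ≤ L
  hML : ML + 1 ≤ L
  hML0 : 0 ≤ ML
  hκ0 : 0 ≤ κ0
  hq1 : 4 * |C.q1| + 1 ≤ L
  hT : 4 * |C.T| + 2 ≤ L
  hTc : Real.cosh (4 * |C.T| + 2) ≤ L
  hΓ : C.Γ ≤ L
  hg : 2 / ‖C.g0‖ ≤ L
  hg0 : C.g0 ≠ 0
  hκ : κ0 + 2 / L ≤ 1 / 400
  hκg : (2 * (C.T ^ 2 + 1 + |C.q1| + 1) * (|C.q1| + 1) ^ 2 * 2) * (κ0 + 2 / L) ≤ ‖C.g0‖ / 2
  hμ8 : C.μ ^ 2 * Real.cosh (4 * |C.T| + 2) ≤ 1 / 8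

/-- one step of the iteration with explicit parameters -/
lemma iter_one {C : Cst} {ML κ0 L t : ℝ} (hG : Gd C ML κ0 L) (ht0 : 0 < t) (ht1 : t ≤ 1)
    {q qz qw st : ℂ × ℂ → ℂ} {l : ℕ → ℝ}
    (hS : St C ML (3 / 2 + t / 2) (κ0 + 2 / L * (1 - t)) ((t / (2 * L)) ^ 44) q qz qw st l) :
    ∃ (q' qz' qw' st' : ℂ × ℂ → ℂ) (l' : ℕ → ℝ),
      St C ML (3 / 2 + (t / 2) / 2) (κ0 + 2 / L * (1 - t / 2)) (((t / 2) / (2 * L)) ^ 44) q' qz' qw' st' l' ∧
      (S2 (3 / 2)).B (t / L) (fun p => q' p - q p) ∧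
      NL (3 / 2) (t / L) (fun j => l' j - l j) := by
  have hL := hG.hL
  have hL0 : 0 < L := by linarith
  have hLt : L ≤ L / t := by rw [le_div_iff₀ ht0]; nlinarith
  set ε := (t / (2 * L)) ^ 44 with hεd
  have hε : 0 < ε := by positivity
  set s := 1 - t / L with hs
  have htL : t / L ≤ 1 / 1600 := by
    rw [div_le_div_iff₀ hL0 (by norm_num)]; nlinarith
  have htL0 : 0 < t / L := by positivity
  have hs0 : 0 < s := by rw [hs]; linarith
  have hs1 : s < 1 := by rw [hs]; linarith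
  have h1s : 1 - s = t / L := by rw [hs]; ring
  have hΛε : (L / t) ^ 44 * ε = (1 / 2) ^ 44 := by
    rw [hεd, ← mul_pow]; congr 1; field_simp
  have hs8 : 1 - 8 * (t / L) ≤ s ^ 8 := by
    have := one_add_mul_le_pow (a := -(t / L)) (by linarith) 8
    have e : 1 + -(t / L) = s := by rw [hs]; ring
    rw [e] at this
    push_cast at this
    linarith
  set r := 3 / 2 + t / 2 with hr
  have hr2 : r ≤ 2 := by rw [hr]; linarith
  have hr0 : 0 < r := by rw [hr]; positivity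
  have hrs : 3 / 2 + (t / 2) / 2 ≤ r * s ^ 8 := by
    have h1 : r * (1 - 8 * (t / L)) ≤ r * s ^ 8 := by gcongr
    refine le_trans ?_ h1
    have h2 : r * (8 * (t / L)) ≤ 2 * (8 * (t / L)) := by gcongr
    have h3 : 2 * (8 * (t / L)) ≤ t / 4 := by
      have : t / L ≤ t / 1600 := by gcongr
      linarith
    rw [hr] at h2 ⊢
    nlinarith
  have hκle : κ0 + 2 / L * (1 - t) ≤ κ0 + 2 / L := by
    have : 0 < 2 / L := by positivity
    nlinarith
  have hB : Big C ML r (κ0 + 2 / L * (1 - t)) ε (L / t) s := by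
    refine ⟨by linarith, hs0, hs1, ?_, hr2, ?_, by have := hG.hML; linarith, hG.hML0, by have := hG.hq1; linarith,
      by have := hG.hT; linarith, by have := hG.hTc; linarith, by have := hG.hΓ; linarith, by have := hG.hg; linarith,
      hG.hg0, by have := hG.hκ; linarith, ?_, hG.hμ8, hε.le, ?_⟩
    · rw [h1s, one_div_div]
    · linarith
    · refine le_trans ?_ hG.hκg
      have : 0 ≤ (2 * (C.T ^ 2 + 1 + |C.q1| + 1) * (|C.q1| + 1) ^ 2 * 2) := by positivity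
      gcongr
    · rw [hΛε]; norm_num
  obtain ⟨q', qz', qw', st', l', hS', hqd, hld⟩ := hS.step hB hε
  have h24 : (L / t) ^ 24 * ε ≤ t / L := by
    have h1 : (L / t) ^ 24 * ε = (1 / 2) ^ 44 * (t / L) ^ 20 := by
      rw [hεd]
      have : (t / (2 * L)) ^ 44 = (1 / 2) ^ 44 * (t / L) ^ 44 := by
        rw [← mul_pow]; congr 1; field_simp
      rw [this]
      have h2 : (L / t) ^ 24 * (t / L) ^ 24 = 1 := by
        rw [← mul_pow]
        have : L / t * (t / L) = 1 := by field_simp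
        rw [this, one_pow]
      calc (L / t) ^ 24 * ((1 / 2) ^ 44 * (t / L) ^ 44) = (1 / 2) ^ 44 * ((L / t) ^ 24 * (t / L) ^ 24) * (t / L) ^ 20 := by ring
        _ = _ := by rw [h2, mul_one]
    rw [h1]
    have h3 : (t / L) ^ 20 ≤ t / L := by
      calc (t / L) ^ 20 ≤ (t / L) ^ 1 := pow_le_pow_of_le_one htL0.le (by linarith) (by norm_num)
        _ = t / L := pow_one _
    calc (1 / 2) ^ 44 * (t / L) ^ 20 ≤ 1 * (t / L) := by
          gcongr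
          norm_num
      _ = t / L := one_mul _
  have h32 : (3 / 2 : ℝ) ≤ r * s ^ 8 := by linarith
  refine ⟨q', qz', qw', st', l', hS'.mono (by positivity) hrs ?_ ?_, B_rmono (by norm_num) h32 hqd h24,
    hld.mono (by norm_num) h32 h24⟩
  · have e : κ0 + 2 / L * (1 - t / 2) = κ0 + 2 / L * (1 - t) + t / L := by ring
    rw [e]; linarith
  · apply le_of_eq
    have h1 : (L / t) ^ 44 * ε ^ 2 = (1 / 2) ^ 44 * ε := by
      calc (L / t) ^ 44 * ε ^ 2 = ((L / t) ^ 44 * ε) * ε := by ring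
        _ = _ := by rw [hΛε]
    rw [h1, hεd, ← mul_pow]
    congr 1
    field_simp

/-- the data of a state -/
structure Dat where
  q : ℂ × ℂ → ℂ
  qz : ℂ × ℂ → ℂ
  qw : ℂ × ℂ → ℂ
  st : ℂ × ℂ → ℂ
  l : ℕ → ℝ

def Dat.Ok (C : Cst) (ML κ0 L : ℝ) (n : ℕ) (d : Dat) : Prop :=
  St C ML (3 / 2 + (1 / 2) ^ n / 2) (κ0 + 2 / L * (1 - (1 / 2) ^ n)) (((1 / 2) ^ n / (2 * L)) ^ 44) d.q d.qz d.qw d.st d.l

lemma exists_seq {C : Cst} {ML κ0 L : ℝ} (hG : Gd C ML κ0 L) (d0 : Dat) (h0 : d0.Ok C ML κ0 L 0) :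
    ∃ d : ℕ → Dat, d 0 = d0 ∧ (∀ n, (d n).Ok C ML κ0 L n) ∧
      (∀ n, (S2 (3 / 2)).B ((1 / 2) ^ n / L) (fun p => (d (n + 1)).q p - (d n).q p)) ∧
      (∀ n, NL (3 / 2) ((1 / 2) ^ n / L) (fun j => (d (n + 1)).l j - (d n).l j)) := by
  have step : ∀ n, ∀ d : Dat, d.Ok C ML κ0 L n → ∃ d' : Dat, d'.Ok C ML κ0 L (n + 1) ∧
      (S2 (3 / 2)).B ((1 / 2) ^ n / L) (fun p => d'.q p - d.q p) ∧
      NL (3 / 2) ((1 / 2) ^ n / L) (fun j => d'.l j - d.l j) := by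
    intro n d hd
    have ht0 : (0 : ℝ) < (1 / 2) ^ n := by positivity
    have ht1 : (1 / 2 : ℝ) ^ n ≤ 1 := pow_le_one₀ (by norm_num) (by norm_num)
    obtain ⟨q', qz', qw', st', l', h1, h2, h3⟩ := iter_one hG ht0 ht1 hd
    refine ⟨⟨q', qz', qw', st', l'⟩, ?_, h2, h3⟩
    have e : (1 / 2 : ℝ) ^ (n + 1) = (1 / 2) ^ n / 2 := by rw [pow_succ]; ring
    unfold Dat.Ok
    rw [e]; exact h1
  choose! F hF using step
  let d : ℕ → Dat := fun n => Nat.rec d0 (fun n x => F n x) n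
  have hd : ∀ n, (d n).Ok C ML κ0 L n := by
    intro n
    induction n with
    | zero => exact h0
    | succ n ih => exact (hF n (d n) ih).1
  exact ⟨d, rfl, hd, fun n => (hF n (d n) (hd n)).2.1, fun n => (hF n (d n) (hd n)).2.2⟩

end Pool.Agent.Helper649.Bil
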