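import Pool.Agent.Helper649.BilI

set_option autoImplicit false

namespace Pool.Agent.Helper649.Bil

open Complex Filter Topology

lemma NL.tsum {R : ℝ} (hR : 0 < R) {c : ℕ → ℝ} {k : ℕ → ℕ → ℝ} (hk : ∀ n, NL R (c n) (k n)) (hc : Summable c) :
    (∀ j, Summable (fun n => k n j)) ∧ NL R (∑' n, c n) (fun j => ∑' n, k n j) := by
  have hF : Summable (fun x : ℕ × ℕ => |k x.1 x.2| * (4 * R ^ 2) ^ x.2) := by
    rw [summable_prod_of_nonneg (fun x => by positivity)]
    exact ⟨fun n => (hk n).1, Summable.of_nonneg_of_le (fun n => tsum_nonneg fun j => by positivity) (fun n => (hk n).2) hc⟩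
  have hF' : Summable (fun x : ℕ × ℕ => |k x.2 x.1| * (4 * R ^ 2) ^ x.1) :=
    (Equiv.prodComm ℕ ℕ).summable_iff.mpr hF
  have hrow : ∀ j, Summable (fun n => |k n j|) := fun j => by
    refine ((hF'.prod_factor j).mul_right ((4 * R ^ 2) ^ j)⁻¹).congr (fun n => ?_)
    have : (4 * R ^ 2) ^ j ≠ 0 := by positivity
    field_simp
  have hle : ∀ j, |∑' n, k n j| * (4 * R ^ 2) ^ j ≤ ∑' n, |k n j| * (4 * R ^ 2) ^ j := fun j => by
    rw [tsum_mul_right]
    have : |∑' n, k n j| ≤ ∑' n, |k n j| := by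
      have := norm_tsum_le_tsum_norm (f := fun n => k n j) (hrow j)
      simpa [Real.norm_eq_abs] using this
    gcongr
  have hs : Summable (fun j => |∑' n, k n j| * (4 * R ^ 2) ^ j) :=
    Summable.of_nonneg_of_le (fun j => by positivity) hle hF'.prod
  refine ⟨fun j => (hrow j).of_abs, hs, ?_⟩
  calc ∑' j, |∑' n, k n j| * (4 * R ^ 2) ^ j ≤ ∑' j, ∑' n, |k n j| * (4 * R ^ 2) ^ j := hs.tsum_le_tsum hle hF'.prod
    _ = ∑' n, ∑' j, |k n j| * (4 * R ^ 2) ^ j := swap_tsum (fun j n => |k n j| * (4 * R ^ 2) ^ j) hF'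
    _ ≤ ∑' n, c n := (hF.prod).tsum_le_tsum (fun n => (hk n).2) hc

lemma Lf_bound {R M : ℝ} {k : ℕ → ℝ} (hk : NL R M k) {y : ℂ} (hy : ‖y‖ ≤ 4 * R ^ 2) : ‖Lf k y‖ ≤ M := by
  unfold Lf
  have hle : ∀ j, ‖(k j : ℂ) * y ^ j‖ ≤ |k j| * (4 * R ^ 2) ^ j := fun j => by
    rw [norm_mul, norm_pow, Complex.norm_real, Real.norm_eq_abs]
    have := pow_le_pow_left₀ (norm_nonneg _) hy j
    gcongr
  exact (tsum_of_norm_bounded hk.1.hasSum hle).trans hk.2

lemma Lf_tendsto {R M : ℝ} (hR : 0 < R) {l : ℕ → ℝ} {k : ℕ → ℕ → ℝ} {t : ℕ → ℝ} (hl : NL R M l) (hk : ∀ n, NL R (t n) (k n))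
    (ht : Tendsto t atTop (𝓝 0)) {y : ℕ → ℂ} {y0 : ℂ} (hy : Tendsto y atTop (𝓝 y0)) (hy0 : ‖y0‖ < 4 * R ^ 2) :
    Tendsto (fun n => Lf (fun j => l j + k n j) (y n)) atTop (𝓝 (Lf l y0)) := by
  have h1 : Tendsto (fun n => Lf l (y n)) atTop (𝓝 (Lf l y0)) :=
    ((Lf_deriv hR hl hy0).continuousAt.tendsto).comp hy
  have hev : ∀ᶠ n in atTop, ‖y n‖ ≤ 4 * R ^ 2 := by
    have := (hy.norm).eventually (gt_mem_nhds hy0)
    filter_upwards [this] with n hn using le_of_lt hn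
  have h2 : Tendsto (fun n => Lf (k n) (y n)) atTop (𝓝 0) := by
    rw [tendsto_zero_iff_norm_tendsto_zero]
    refine squeeze_zero' (Eventually.of_forall fun n => norm_nonneg _) ?_ ht
    filter_upwards [hev] with n hn using Lf_bound (hk n) hn
  have h3 := h1.add h2
  rw [add_zero] at h3
  refine h3.congr' ?_
  filter_upwards [hev] with n hn using (Lf_add hl (hk n) hn).symm

lemma Uf_tendsto {R M s μ : ℝ} (hR : 1 ≤ R) (hs0 : 0 < s) (hs1 : s < 1) {l : ℕ → ℝ} {k : ℕ → ℕ → ℝ} {t : ℕ → ℝ}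
    (hl : NL R M l) (hk : ∀ n, NL R (t n) (k n))
    (ht : Tendsto t atTop (𝓝 0)) {a b : ℕ → ℂ} {a0 b0 : ℂ} (ha : Tendsto a atTop (𝓝 a0)) (hb : Tendsto b atTop (𝓝 b0))
    (hy0 : ‖((a0 + b0) / 2) ^ 2‖ < 4 * (R * s) ^ 2) :
    Tendsto (fun n => Uf μ (fun j => l j + k n j) (a n) (b n)) atTop (𝓝 (Uf μ l a0 b0)) := by
  have hR0 : 0 < R := by linarith
  have hRs : 0 < R * s := by positivity
  have h1s : 0 < 1 - s := by linarith
  have hle : 4 * (R * s) ^ 2 ≤ 4 * R ^ 2 := by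
    have : R * s ≤ R := by nlinarith
    have := pow_le_pow_left₀ hRs.le this 2
    linarith
  have hm : Tendsto (fun n => (a n + b n) / 2) atTop (𝓝 ((a0 + b0) / 2)) := (ha.add hb).div_const 2
  have hd : Tendsto (fun n => (b n - a n) / 2) atTop (𝓝 ((b0 - a0) / 2)) := (hb.sub ha).div_const 2
  have h1 := Lf_tendsto hR0 hl hk ht (hm.pow 2) (hy0.trans_le hle)
  have ht' : Tendsto (fun n => 1 / (1 - s) * t n) atTop (𝓝 0) := by
    have := ht.const_mul (1 / (1 - s))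
    rwa [mul_zero] at this
  have h2 := Lf_tendsto hRs (NL.deriv hR hs0 hs1 hl) (fun n => NL.deriv hR hs0 hs1 (hk n)) ht' (hm.pow 2) hy0
  have hcos := (Complex.continuous_cos.tendsto _).comp (hd.const_mul (μ : ℂ))
  have hsin := (Complex.continuous_sin.tendsto _).comp (hd.const_mul (μ : ℂ))
  unfold Uf
  simp only [dl_add]
  exact (((hm.const_mul 2).mul h2).mul hcos).add (((h1.const_mul ((μ : ℂ) ^ 2)).const_add 1).mul (hsin.div_const _))

/-- coefficients of the linear problem -/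
noncomputable def Cst.llin (C : Cst) (j : ℕ) : ℝ := if j = 1 then C.T ^ 2 / 2 else 0

/-- solution of the conjugacy problem -/
structure Sol (C : Cst) (η : ℝ) (q : ℂ × ℂ → ℂ) (l : ℕ → ℝ) : Prop where
  sym : ∀ p ∈ (S2 (3 / 2)).D, q p.swap = q p
  odd : ∀ p ∈ (S2 (3 / 2)).D, q (-p) = -q p
  real : ∀ p ∈ (S2 (3 / 2)).D, starRingEnd ℂ (q (cj p)) = q p
  bq : (S2 (3 / 2)).B η (fun p => q p - C.q1 * (p.1 + p.2))
  bl : NL (3 / 2) η (fun j => l j - C.llin j)
  eq : ∀ p ∈ (S2 1).D, C.Ef l q p = 0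

lemma llin_NL (C : Cst) {R : ℝ} : NL R (C.T ^ 2 / 2 * (4 * R ^ 2)) C.llin := by
  have h : HasSum (fun j => |C.llin j| * (4 * R ^ 2) ^ j) (C.T ^ 2 / 2 * (4 * R ^ 2)) := by
    have := hasSum_single (f := fun j => |C.llin j| * (4 * R ^ 2) ^ j) 1 (by
      intro j hj; unfold Cst.llin; rw [if_neg hj]; simp)
    unfold Cst.llin at this
    rw [if_pos rfl, pow_one, abs_of_nonneg (by positivity)] at this
    exact this
  exact ⟨h.summable, h.tsum_eq.le⟩

theorem limit {C : Cst} {ML κ0 L : ℝ} (hG : Gd C ML κ0 L) (d0 : Dat) (h0 : d0.Ok C ML κ0 L 0)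
    (hl0 : NL (3 / 2) κ0 (fun j => d0.l j - C.llin j)) :
    ∃ (q : ℂ × ℂ → ℂ) (l : ℕ → ℝ), Sol C (κ0 + 2 / L) q l := by
  obtain ⟨d, hd0, hd, hdq, hdl⟩ := exists_seq hG d0 h0
  have hL0 : 0 < L := by have := hG.hL; linarith
  have hgeo : Summable (fun n : ℕ => (1 / 2 : ℝ) ^ n / L) :=
    (summable_geometric_of_lt_one (by norm_num) (by norm_num)).div_const L
  have hgeos : ∑' n : ℕ, (1 / 2 : ℝ) ^ n / L = 2 / L := by
    rw [tsum_div_const, tsum_geometric_of_lt_one (by norm_num) (by norm_num)]; norm_num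
  have h32 : (0 : ℝ) < 3 / 2 := by norm_num
  have hrn : ∀ n : ℕ, (3 / 2 : ℝ) ≤ 3 / 2 + (1 / 2) ^ n / 2 := fun n => by
    have : (0 : ℝ) < (1 / 2) ^ n := by positivity
    linarith
  set q : ℂ × ℂ → ℂ := fun p => d0.q p + ∑' n, ((d (n + 1)).q p - (d n).q p) with hq
  set l : ℕ → ℝ := fun j => d0.l j + ∑' n, ((d (n + 1)).l j - (d n).l j) with hl
  have hqs : ∀ p ∈ (S2 (3 / 2)).D, Summable (fun n => (d (n + 1)).q p - (d n).q p) := fun p hp => by
    apply Summable.of_norm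
    exact Summable.of_nonneg_of_le (fun _ => norm_nonneg _) (fun n => (hdq n).norm_le hp) hgeo
  have hqt : ∀ p ∈ (S2 (3 / 2)).D, Tendsto (fun n => (d n).q p) atTop (𝓝 (q p)) := by
    intro p hp
    have h1 := (hqs p hp).hasSum.tendsto_sum_nat
    have h2 : ∀ n, ∑ i ∈ Finset.range n, ((d (i + 1)).q p - (d i).q p) = (d n).q p - d0.q p := fun n => by
      rw [Finset.sum_range_sub (fun n => (d n).q p) n, hd0]
    simp only [h2] at h1
    have h3 := h1.const_add (d0.q p)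
    simpa using h3
  obtain ⟨hls, hlN⟩ := NL.tsum h32 hdl hgeo
  rw [hgeos] at hlN
  -- tails
  have htail : ∀ n, NL (3 / 2) ((1 / 2) ^ n * (2 / L)) (fun j => (d n).l j - l j) := by
    intro n
    have hgn : Summable (fun k : ℕ => (1 / 2 : ℝ) ^ (n + k) / L) := by
      have := hgeo.mul_left ((1 / 2 : ℝ) ^ n)
      refine this.congr (fun k => ?_)
      rw [pow_add]; ring
    obtain ⟨g1, g2⟩ := NL.tsum h32 (fun k => hdl (n + k)) hgn
    have e1 : ∑' k : ℕ, (1 / 2 : ℝ) ^ (n + k) / L = (1 / 2) ^ n * (2 / L) := by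
      rw [← hgeos, ← tsum_mul_left]
      refine tsum_congr (fun k => ?_)
      rw [pow_add]; ring
    rw [e1] at g2
    have e2 : (fun j => (d n).l j - l j) = fun j => -∑' k, ((d (n + k + 1)).l j - (d (n + k)).l j) := by
      funext j
      have h1 := (hls j).sum_add_tsum_nat_add n
      have h2 : ∑ i ∈ Finset.range n, ((d (i + 1)).l j - (d i).l j) = (d n).l j - d0.l j := by
        rw [Finset.sum_range_sub (fun n => (d n).l j) n, hd0]
      have h3 : ∑' k, ((d (n + k + 1)).l j - (d (n + k)).l j) = ∑' k, ((d (k + n + 1)).l j - (d (k + n)).l j) := by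
        refine tsum_congr (fun k => ?_)
        rw [add_comm n k]
      simp only [hl]
      rw [h3]
      linarith
    rw [e2]
    refine ⟨?_, ?_⟩
    · simpa using g2.1
    · simpa using g2.2
  have htt : Tendsto (fun n : ℕ => (1 / 2 : ℝ) ^ n * (2 / L)) atTop (𝓝 0) := by
    have := (tendsto_pow_atTop_nhds_zero_of_lt_one (r := (1 / 2 : ℝ)) (by norm_num) (by norm_num)).mul_const (2 / L)
    rwa [zero_mul] at this
  have hlN2 : NL (3 / 2) (κ0 + 2 / L) (fun j => l j - C.llin j) := by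
    have h1 := hl0.add hlN
    have e : (fun j => l j - C.llin j) = fun j => (d0.l j - C.llin j) + ∑' n, ((d (n + 1)).l j - (d n).l j) := by
      funext j; simp only [hl]; ring
    rw [e]; exact h1
  have hlNL : ∃ M, NL (3 / 2) M l := by
    refine ⟨(κ0 + 2 / L) + C.T ^ 2 / 2 * (4 * (3 / 2) ^ 2), ?_⟩
    · have h1 := hlN2.add (llin_NL C (R := 3 / 2))
      have e : (fun j => (l j - C.llin j) + C.llin j) = l := by funext j; ring
      rw [e] at h1
      exact h1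
  obtain ⟨M, hM⟩ := hlNL
  have hbq : (S2 (3 / 2)).B (κ0 + 2 / L) (fun p => q p - C.q1 * (p.1 + p.2)) := by
    have hS0 : St C ML (3 / 2 + (1 / 2) ^ 0 / 2) (κ0 + 2 / L * (1 - (1 / 2) ^ 0)) (((1 / 2) ^ 0 / (2 * L)) ^ 44) d0.q d0.qz d0.qw d0.st d0.l := h0
    have h1 := B_rmono h32 (hrn 0) hS0.bq (N := κ0) (by simp)
    have h2 := Sys.B.tsum hdq hgeo
    rw [hgeos] at h2
    refine (h1.add h2).congr (fun p _ => ?_)
    simp only [hq]; ring
  refine ⟨q, l, ?_, ?_, ?_, hbq, hlN2, ?_⟩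
  · intro p hp
    have h1 := hqt p hp
    have h2 := hqt p.swap (swap_mem hp)
    refine tendsto_nhds_unique h2 (h1.congr (fun n => ?_))
    exact ((hd n).sym p (mem_mono h32 (hrn n) hp)).symm
  · intro p hp
    have h1 := (hqt p hp).neg
    have h2 := hqt (-p) (neg_mem hp)
    refine tendsto_nhds_unique h2 (h1.congr (fun n => ?_))
    exact ((hd n).odd p (mem_mono h32 (hrn n) hp)).symm
  · intro p hp
    have h1 := hqt p hp
    have h2 := (Complex.continuous_conj.tendsto _).comp (hqt (cj p) (cj_mem hp))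
    refine tendsto_nhds_unique h2 (h1.congr (fun n => ?_))
    exact ((hd n).real p (mem_mono h32 (hrn n) hp)).symm
  · intro p hp
    have h13 : (1 : ℝ) ≤ 3 / 2 := by norm_num
    have hp32 := mem_mono one_pos h13 hp
    have hκ := hG.hκ
    -- bound of midpoints
    have hmid : ∀ c : ℂ, ‖c‖ = 1 → ∀ c' : ℂ, ‖c'‖ = 1 → (C.q1 : ℂ) * (1 + c) = 2 * c' →
        (C.q1 : ℂ) * (1 + c⁻¹) = 2 * c'⁻¹ →
        ‖((q p + q (rot c p)) / 2) ^ 2‖ < 4 * (3 / 2 * (9 / 10)) ^ 2 := by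
      intro c hc c' hc' hcc hcc'
      have h1 := hbq.norm_le hp32
      have h2 := hbq.norm_le (rot_mem hc hp32)
      rw [mem_S2 one_pos] at hp
      have e : (q p + q (rot c p)) / 2 = (c' * p.1 + c'⁻¹ * p.2) + ((q p - C.q1 * (p.1 + p.2)) + (q (rot c p) - C.q1 * ((rot c p).1 + (rot c p).2))) / 2 := by
        simp only [rot]
        linear_combination (1 / 2 * p.1) * hcc + (1 / 2 * p.2) * hcc'
      have h3 : ‖(q p + q (rot c p)) / 2‖ ≤ 2 + 1 / 400 := by
        rw [e]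
        refine (norm_add_le _ _).trans ?_
        have h4 : ‖c' * p.1 + c'⁻¹ * p.2‖ ≤ 2 := by
          refine (norm_add_le _ _).trans ?_
          rw [norm_mul, norm_mul, norm_inv, hc']
          linarith [hp.1, hp.2]
        have h5 : ‖((q p - C.q1 * (p.1 + p.2)) + (q (rot c p) - C.q1 * ((rot c p).1 + (rot c p).2))) / 2‖ ≤ 1 / 400 := by
          rw [norm_div]
          have n2 : ‖(2 : ℂ)‖ = 2 := by norm_num
          rw [n2]
          have := norm_add_le (q p - C.q1 * (p.1 + p.2)) (q (rot c p) - C.q1 * ((rot c p).1 + (rot c p).2))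
          linarith
        linarith
      rw [norm_pow]
      have := pow_le_pow_left₀ (norm_nonneg _) h3 2
      refine this.trans_lt ?_
      norm_num
    have hν0 := C.ν0
    have hq1 := C.hq1
    have m1 := hmid (C.ν ^ 2) C.hω C.ν C.hν (by
      have : (C.q1 : ℂ) * (1 + C.ν ^ 2) = C.ν * (C.q1 * (C.ν + C.ν⁻¹)) := by field_simp; ring
      rw [this, hq1]; ring) (by
      have : (C.q1 : ℂ) * (1 + (C.ν ^ 2)⁻¹) = C.ν⁻¹ * (C.q1 * (C.ν + C.ν⁻¹)) := by field_simp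
      rw [this, hq1]; ring)
    have m2 := hmid (C.ν ^ 2)⁻¹ C.hω' C.ν⁻¹ C.hν' (by
      have : (C.q1 : ℂ) * (1 + (C.ν ^ 2)⁻¹) = C.ν⁻¹ * (C.q1 * (C.ν + C.ν⁻¹)) := by field_simp
      rw [this, hq1]; ring) (by
      have : (C.q1 : ℂ) * (1 + (C.ν ^ 2)⁻¹⁻¹) = C.ν * (C.q1 * (C.ν + C.ν⁻¹)) := by rw [inv_inv]; field_simp; ring
      rw [this, hq1, inv_inv]; ring)
    have hpq := hqt p hp32
    have hpq1 := hqt _ (rot_mem C.hω hp32)
    have hpq2 := hqt _ (rot_mem C.hω' hp32)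
    have t1 := Uf_tendsto (μ := C.μ) h13 (s := 9 / 10) (by norm_num) (by norm_num) hM htail htt hpq hpq1 m1
    have t2 := Uf_tendsto (μ := C.μ) h13 (s := 9 / 10) (by norm_num) (by norm_num) hM htail htt hpq hpq2 m2
    have t3 := t1.add t2
    have e3 : ∀ n, (fun j => l j + ((d n).l j - l j)) = (d n).l := fun n => by funext j; ring
    simp only [e3] at t3
    have t4 : Tendsto (fun n => C.Ef (d n).l (d n).q p) atTop (𝓝 0) := by
      rw [tendsto_zero_iff_norm_tendsto_zero]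
      refine squeeze_zero (fun n => norm_nonneg _) (fun n => (hd n).bE.norm_le (mem_mono h32 (hrn n) hp32)) ?_
      have := ((tendsto_pow_atTop_nhds_zero_of_lt_one (r := (1 / 2 : ℝ)) (by norm_num) (by norm_num)).div_const (2 * L)).pow 44
      simpa using this
    exact tendsto_nhds_unique t3 t4

end Pool.Agent.Helper649.Bil
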