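import Pool.Agent.Helper649.BilJ

set_option autoImplicit false

namespace Pool.Agent.Helper649.Bil

open Complex

section gen

variable {Ω ι : Type} [AddCommMonoid ι] {S : Sys Ω ι}

lemma cos2_B {M μ : ℝ} {D : Ω → ℂ} (hD : S.B M D) (hμ0 : 0 < μ) (hμ1 : μ ≤ 1) :
    S.B (μ ^ 2 * Real.cosh M) (fun x => (Complex.cos (μ * D x) - 1) / (μ : ℂ) ^ 2 + D x ^ 2 / 2) := by
  have hM := hD.nonneg
  have hμc : (μ : ℂ) ≠ 0 := by exact_mod_cast hμ0.ne'
  have hC := Real.hasSum_cosh M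
  have hC1 : Summable (fun n : ℕ => M ^ (2 * (n + 2)) / ((2 * (n + 2)).factorial : ℝ)) := (summable_nat_add_iff 2).mpr hC.summable
  have hC2 : ∑' n : ℕ, M ^ (2 * (n + 2)) / ((2 * (n + 2)).factorial : ℝ) ≤ Real.cosh M := by
    have h1 := hC.summable.sum_add_tsum_nat_add 2
    rw [hC.tsum_eq] at h1
    have : 0 ≤ ∑ i ∈ Finset.range 2, M ^ (2 * i) / ((2 * i).factorial : ℝ) := Finset.sum_nonneg (fun i _ => by positivity)
    linarith
  have hf : ∀ n : ℕ, S.B (μ ^ 2 * (M ^ (2 * (n + 2)) / ((2 * (n + 2)).factorial : ℝ)))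
      (fun x => ((-1) ^ (n + 2) * (μ * D x) ^ (2 * (n + 2)) / ((2 * (n + 2)).factorial : ℂ)) / (μ : ℂ) ^ 2) := by
    intro n
    have h1 := (hD.pow (2 * (n + 2))).const_mul ((-1) ^ (n + 2) * (μ : ℂ) ^ (2 * (n + 1)) / ((2 * (n + 2)).factorial : ℂ))
    have e : (fun p => (-1) ^ (n + 2) * (μ : ℂ) ^ (2 * (n + 1)) / ((2 * (n + 2)).factorial : ℂ) * D p ^ (2 * (n + 2)))
        = fun x => ((-1) ^ (n + 2) * (μ * D x) ^ (2 * (n + 2)) / ((2 * (n + 2)).factorial : ℂ)) / (μ : ℂ) ^ 2 := by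
      funext x
      have : (μ : ℂ) ^ (2 * (n + 2)) = (μ : ℂ) ^ (2 * (n + 1)) * (μ : ℂ) ^ 2 := by
        rw [← pow_add, show 2 * (n + 2) = 2 * (n + 1) + 2 from by ring]
      rw [mul_pow, this]; field_simp
    rw [e] at h1
    refine h1.mono ?_
    rw [norm_div, norm_mul, norm_pow, norm_neg, norm_one, one_pow, one_mul, norm_pow, Complex.norm_real,
      Real.norm_of_nonneg hμ0.le, Complex.norm_natCast]
    have h2 : μ ^ (2 * (n + 1)) ≤ μ ^ 2 := pow_le_pow_of_le_one hμ0.le hμ1 (by omega)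
    calc μ ^ (2 * (n + 1)) / ((2 * (n + 2)).factorial : ℝ) * M ^ (2 * (n + 2))
        ≤ μ ^ 2 / ((2 * (n + 2)).factorial : ℝ) * M ^ (2 * (n + 2)) := by gcongr
      _ = _ := by ring
  have h := Sys.B.tsum hf (hC1.mul_left _)
  rw [tsum_mul_left] at h
  refine (h.mono (by gcongr)).congr (fun x _ => ?_)
  have h3 := Complex.hasSum_cos (μ * D x)
  have h4 := h3.summable.sum_add_tsum_nat_add 2
  rw [h3.tsum_eq] at h4
  rw [← h4, tsum_div_const]
  simp only [Finset.sum_range_succ, Finset.range_zero, Finset.sum_empty]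
  norm_num
  field_simp
  ring

end gen

lemma NL_of_abel {r s G : ℝ} (hr : 0 < r) (hs0 : 0 < s) (hs1 : s < 1) {δl : ℕ → ℝ}
    (hl1 : Summable (fun j => |δl j| * ((Nat.centralBinom j : ℝ) * r ^ (2 * j))))
    (hl2 : ∑' j, |δl j| * ((Nat.centralBinom j : ℝ) * r ^ (2 * j)) ≤ G) :
    NL (r * s) (2 / (1 - s) * G) δl := by
  have h1s : 0 < 1 - s := by linarith
  have hle : ∀ j, |δl j| * (4 * (r * s) ^ 2) ^ j ≤ (2 / (1 - s)) * (|δl j| * ((Nat.centralBinom j : ℝ) * r ^ (2 * j))) := by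
    intro j
    have h4 : (4 : ℝ) ^ j ≤ (2 * (j : ℝ) + 1) * Nat.centralBinom j := by
      rcases Nat.eq_zero_or_pos j with h | h
      · subst h; simp
      · have h5 := Nat.four_pow_le_two_mul_self_mul_centralBinom j h
        have h6 : ((4 ^ j : ℕ) : ℝ) ≤ ((2 * j * Nat.centralBinom j : ℕ) : ℝ) := by exact_mod_cast h5
        push_cast at h6
        have : (0 : ℝ) ≤ Nat.centralBinom j := Nat.cast_nonneg _
        nlinarith
    have h3 := succ_mul_pow_le hs0.le hs1 j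
    have e1 : (4 * (r * s) ^ 2) ^ j = 4 ^ j * r ^ (2 * j) * (s ^ j * s ^ j) := by
      have : (4 * (r * s) ^ 2) = 4 * (r ^ 2) * (s * s) := by ring
      rw [this, mul_pow, mul_pow, mul_pow, ← pow_mul]
    have h5 : s ^ j ≤ 1 := pow_le_one₀ hs0.le hs1.le
    rw [e1]
    calc |δl j| * (4 ^ j * r ^ (2 * j) * (s ^ j * s ^ j))
        ≤ |δl j| * (((2 * (j : ℝ) + 1) * Nat.centralBinom j) * r ^ (2 * j) * (s ^ j * 1)) := by gcongr
      _ ≤ |δl j| * (((2 * ((j : ℝ) + 1)) * Nat.centralBinom j) * r ^ (2 * j) * (s ^ j * 1)) := by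
          gcongr; linarith
      _ = 2 * (((j : ℝ) + 1) * s ^ j) * (|δl j| * ((Nat.centralBinom j : ℝ) * r ^ (2 * j))) := by ring
      _ ≤ 2 * (1 / (1 - s)) * (|δl j| * ((Nat.centralBinom j : ℝ) * r ^ (2 * j))) := by gcongr
      _ = _ := by ring
  have hs' : Summable (fun j => |δl j| * (4 * (r * s) ^ 2) ^ j) :=
    Summable.of_nonneg_of_le (fun j => by positivity) hle (hl1.mul_left _)
  refine ⟨hs', (hs'.tsum_le_tsum hle (hl1.mul_left _)).trans ?_⟩
  rw [tsum_mul_left]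
  gcongr

lemma Lf_llin (C : Cst) (y : ℂ) : Lf C.llin y = (C.T : ℂ) ^ 2 / 2 * y := by
  unfold Lf
  have := hasSum_single (f := fun j => (C.llin j : ℂ) * y ^ j) 1 (by
    intro j hj; unfold Cst.llin; rw [if_neg hj]; simp)
  rw [this.tsum_eq]
  unfold Cst.llin
  rw [if_pos rfl]; push_cast; ring

lemma dl_llin (C : Cst) : dl C.llin = fun j => if j = 0 then C.T ^ 2 / 2 else 0 := by
  funext j
  unfold dl Cst.llin
  rcases j with _ | j
  · simp
  · simp

lemma Lf_dllin (C : Cst) (y : ℂ) : Lf (dl C.llin) y = (C.T : ℂ) ^ 2 / 2 := by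
  rw [dl_llin]
  unfold Lf
  have := hasSum_single (f := fun j => (((if j = 0 then C.T ^ 2 / 2 else 0 : ℝ)) : ℂ) * y ^ j) 0 (by
    intro j hj; rw [if_neg hj]; simp)
  rw [this.tsum_eq]
  rw [if_pos rfl]; push_cast; ring

lemma Lf_ddllin (C : Cst) (y : ℂ) : Lf (dl (dl C.llin)) y = 0 := by
  have : dl (dl C.llin) = fun _ => 0 := by
    rw [dl_llin]; funext j; unfold dl; simp
  rw [this]; unfold Lf; simp

/-- The linear curve. -/
noncomputable def Cst.qlin (C : Cst) (p : ℂ × ℂ) : ℂ := C.q1 * (p.1 + p.2)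

lemma qlin_mid (C : Cst) (p : ℂ × ℂ) : (C.qlin (rot C.ν⁻¹ p) + C.qlin (rot C.ν p)) / 2 = p.1 + p.2 := by
  unfold Cst.qlin rot
  simp only [inv_inv]
  linear_combination (1 / 2 * (p.1 + p.2)) * C.hq1

lemma qlin_dif (C : Cst) (p : ℂ × ℂ) : (C.qlin (rot C.ν p) - C.qlin (rot C.ν⁻¹ p)) / 2 = I * C.T * (p.1 - p.2) := by
  unfold Cst.qlin rot
  simp only [inv_inv]
  linear_combination (1 / 2 * (p.1 - p.2)) * C.hT

/-- the initial table -/
lemma init_l (C : Cst) {M0 : ℝ} (hM0 : 64 * |C.T| ≤ M0) (hμ : C.μ ^ 2 * Real.cosh M0 ≤ 1 / 8) :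
    ∃ δl : ℕ → ℝ, NL 16 (C.μ ^ 2 * (8 * ((2048 * C.T ^ 2 + 1) * Real.cosh M0))) δl ∧
      ∃ a K, (S2 16).BC K a (C.Wh (fun j => C.llin j + δl j) C.qlin) ∧ ∀ m : ℕ, a (m, m) = 0 := by
  have h32 : (0 : ℝ) < 32 := by norm_num
  have h16 : (0 : ℝ) < 16 := by norm_num
  have hμ0 := C.hμ0
  have hμ1 := C.hμ1
  have hμc : (C.μ : ℂ) ≠ 0 := by exact_mod_cast hμ0.ne'
  have hch := Real.cosh_pos M0
  set D : ℂ × ℂ → ℂ := fun p => I * C.T * (p.1 - p.2) with hDdef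
  have hD : (S2 32).B M0 D := by
    have h1 := ((B_fst h32).sub (B_snd h32)).const_mul (I * C.T)
    refine h1.mono ?_
    rw [norm_mul, Complex.norm_I, one_mul, Complex.norm_real, Real.norm_eq_abs]
    linarith
  have hcos := cos_B hD hμ0.le hμ1
  have hcos8 := hcos.mono hμ
  have hcos2 := cos2_B hD hμ0 hμ1
  -- the remainder of the action
  have hX2 : (S2 32).B (2048 * C.T ^ 2) (fun p => (C.T : ℂ) ^ 2 / 2 * (p.1 + p.2) ^ 2) := by
    have h1 := (((B_fst h32).add (B_snd h32)).pow 2).const_mul ((C.T : ℂ) ^ 2 / 2)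
    refine h1.mono ?_
    have : ‖(C.T : ℂ) ^ 2 / 2‖ = C.T ^ 2 / 2 := by
      have e : (C.T : ℂ) ^ 2 / 2 = ((C.T ^ 2 / 2 : ℝ) : ℂ) := by push_cast; ring
      rw [e, Complex.norm_real, Real.norm_of_nonneg (by positivity)]
    rw [this]
    apply le_of_eq; ring
  have hRm := (hX2.mul hcos).add hcos2
  obtain ⟨b, hb⟩ := hRm
  have hlin := ((Sys.BC.single (S2 32) ((C.T : ℂ) ^ 2) (2, 0)).add (Sys.BC.single (S2 32) ((C.T : ℂ) ^ 2) (0, 2)))
  have hWB := (hlin.add hb).congr (g := C.Wh C.llin C.qlin) (fun p hp => by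
    unfold Cst.Wh Wf
    rw [qlin_mid, qlin_dif, Lf_llin]
    simp only [chi_S2, pow_zero, mul_one, one_mul, hDdef]
    have e : (I * (C.T : ℂ) * (p.1 - p.2)) ^ 2 = -((C.T : ℂ) ^ 2 * (p.1 - p.2) ^ 2) := by
      rw [mul_pow, mul_pow, Complex.I_sq]; ring
    rw [e]; ring)
  set a : ℕ × ℕ → ℂ := _ with ha
  have haB : (S2 32).BC _ a (C.Wh C.llin C.qlin) := hWB
  have hadiag : ∀ m : ℕ, a (m, m) = b (m, m) := fun m => by
    simp only [ha, Prod.mk.injEq]
    have h1 : ¬ (m = 2 ∧ m = 0) := by omega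
    have h2 : ¬ (m = 0 ∧ m = 2) := by omega
    rw [if_neg h1, if_neg h2]; ring
  obtain ⟨s1, t1⟩ := diag_tsum h32 hb
  have t1' : ∑' m : ℕ, ‖b (m, m)‖ * (32 : ℝ) ^ (2 * m) ≤ C.μ ^ 2 * ((2048 * C.T ^ 2 + 1) * Real.cosh M0) := by
    rw [t1]
    refine (Summable.tsum_le_tsum (fun i => by
      have := mul_nonneg (norm_nonneg (b i)) ((S2 32).W_pos i).le
      unfold dgw; split_ifs
      · rw [one_mul]
      · rw [zero_mul]; exact this) (dg_summable hb) hb.1).trans (hb.2.1.trans (le_of_eq (by ring)))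
  -- reality
  have hqr : ∀ p, starRingEnd ℂ (C.qlin (cj p)) = C.qlin p := fun p => by
    unfold Cst.qlin cj; simp
  have hWr : ∀ p ∈ (S2 32).D, starRingEnd ℂ (C.Wh C.llin C.qlin (cj p)) = C.Wh C.llin C.qlin p := by
    intro p hp
    unfold Cst.Wh
    rw [Wf_conj, rot_cj C.hν, rot_cj C.hν', inv_inv, hqr, hqr, Wf_symm]
  have har := coef_real h32 haB hWr
  have hare : ∀ i, ((a i).re : ℂ) = a i := fun i => Complex.conj_eq_iff_re.mp (har i)
  have hga : ∀ m : ℕ, |-(a (m, m)).re| = ‖b (m, m)‖ := fun m => by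
    rw [abs_neg, ← hadiag m, ← hare (m, m), Complex.ofReal_re, Complex.norm_real, Real.norm_eq_abs]
  have hDr : ∀ p, starRingEnd ℂ (D (cj p)) = -D p := fun p => by
    simp only [hDdef, cj, map_mul, map_sub, Complex.conj_I, Complex.conj_ofReal, Complex.conj_conj]; ring
  obtain ⟨δl, hl1, hl2, hl3⟩ := abel h32 (s2 := fun _ => 0) (c := fun p => Complex.cos (C.μ * D p))
    ((Sys.B.zero (S2 32)).mono (by norm_num)) hcos8 (fun p _ => by simp)
    (fun p _ => by rw [← Complex.cos_conj, map_mul, hDr p, Complex.conj_ofReal, mul_neg, Complex.cos_neg])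
    (fun m => -(a (m, m)).re) (by simp only [hga]; exact s1)
  simp only [hga] at hl2
  have hNL := NL_of_abel h32 (s := 1 / 2) (by norm_num) (by norm_num) hl1 (hl2.trans (mul_le_mul_of_nonneg_left t1' (by norm_num)))
  have e16 : (32 : ℝ) * (1 / 2) = 16 := by norm_num
  rw [e16] at hNL
  obtain ⟨a2, K2, ha2, ha2m⟩ := hl3 (1 / 2) (by norm_num) (by norm_num)
  rw [e16] at ha2
  refine ⟨δl, hNL.mono h16.le le_rfl (le_of_eq (by norm_num; ring)), ?_⟩
  refine ⟨_, _, ((BC_rmono h16 (by norm_num) haB le_rfl).add ha2).congr (fun p hp => ?_), fun m => ?_⟩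
  · rw [mem_S2 h16] at hp
    have hy : ‖(p.1 + p.2) ^ 2‖ ≤ 4 * (16 : ℝ) ^ 2 := by
      rw [norm_pow]
      have h1 : ‖p.1 + p.2‖ ≤ 32 := (norm_add_le _ _).trans (by linarith [hp.1, hp.2])
      have := pow_le_pow_left₀ (norm_nonneg _) h1 2
      linarith
    have hadd := Lf_add (llin_NL C (R := 16)) hNL hy
    unfold Cst.Wh Wf
    rw [qlin_mid, qlin_dif, hadd]
    simp only [mul_zero, add_zero, hDdef]
    ring
  · show a (m, m) + a2 (m, m) = 0
    rw [ha2m m]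
    push_cast
    rw [hare]; ring

end Pool.Agent.Helper649.Bil
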