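import Pool.Agent.Helper649.BilK

set_option autoImplicit false

namespace Pool.Agent.Helper649.Bil

open Complex

noncomputable def M0i (T : ℝ) : ℝ := 64 * |T| + 1
noncomputable def chi (T : ℝ) : ℝ := Real.cosh (M0i T)
noncomputable def Λi (T : ℝ) : ℝ := 400 + M0i T + chi T
noncomputable def K1i (T : ℝ) : ℝ := 8 * ((2048 * T ^ 2 + 1) * chi T)
noncomputable def Ki (T : ℝ) : ℝ :=
  2 * (Λi T ^ 8 * K1i T) + 2 * (4 * T ^ 2 * chi T + chi T + 8 * T ^ 2 * (M0i T + chi T)) + (T ^ 2 + 1) * chi T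
    + 4 * T ^ 2 * (1 + chi T)

lemma chi_ge (T : ℝ) : 1 ≤ chi T := Real.one_le_cosh _
lemma M0i_ge (T : ℝ) : 1 ≤ M0i T := by unfold M0i; have := abs_nonneg T; linarith
lemma Λi_ge (T : ℝ) : 400 ≤ Λi T := by unfold Λi; have := chi_ge T; have := M0i_ge T; linarith
lemma K1i_ge (T : ℝ) : 8 ≤ K1i T := by
  unfold K1i; have := chi_ge T; have := sq_nonneg T
  nlinarith

lemma Ki_ge (T : ℝ) : chi T ≤ Ki T ∧ K1i T ≤ Ki T := by
  have h1 := chi_ge T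
  have h2 := M0i_ge T
  have h3 := Λi_ge T
  have h4 := K1i_ge T
  have h5 := sq_nonneg T
  have h6 : 1 ≤ Λi T ^ 8 := one_le_pow₀ (by linarith)
  have h7 : 1 * K1i T ≤ Λi T ^ 8 * K1i T := by gcongr
  have h8 : 0 ≤ 4 * T ^ 2 * chi T + chi T + 8 * T ^ 2 * (M0i T + chi T) := by positivity
  have h9 : chi T ≤ (T ^ 2 + 1) * chi T := by nlinarith
  have h10 : 0 ≤ 4 * T ^ 2 * (1 + chi T) := by positivity
  unfold Ki
  constructor <;> nlinarith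

lemma init_St (C : Cst) (hμ : C.μ ^ 2 * Ki C.T ≤ 1 / 8) :
    ∃ l : ℕ → ℝ, St C (8 * C.T ^ 2) 2 (C.μ ^ 2 * Ki C.T) (C.μ ^ 2 * Ki C.T) C.qlin (fun _ => C.q1) (fun _ => C.q1) (fun _ => 0) l ∧
      NL 2 (C.μ ^ 2 * Ki C.T) (fun j => l j - C.llin j) := by
  have h2 : (0 : ℝ) < 2 := by norm_num
  have hμ0 := C.hμ0
  have hμ1 := C.hμ1
  have hμ20 : 0 ≤ C.μ ^ 2 := sq_nonneg _
  have hμ21 : C.μ ^ 2 ≤ 1 := pow_le_one₀ hμ0.le hμ1
  have hchge := chi_ge C.T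
  have hMge := M0i_ge C.T
  have hΛge := Λi_ge C.T
  have hK1ge := K1i_ge C.T
  obtain ⟨hKc, hK1⟩ := Ki_ge C.T
  have hT2 := sq_nonneg C.T
  have hK0 : 0 ≤ Ki C.T := by linarith
  have hch1 : C.μ ^ 2 * Real.cosh (M0i C.T) ≤ 1 / 8 := by
    refine le_trans ?_ hμ
    have : Real.cosh (M0i C.T) ≤ Ki C.T := hKc
    gcongr
  obtain ⟨δl, hNL, a, K, haB, ham⟩ := init_l C (M0 := M0i C.T) (by unfold M0i; linarith) hch1
  have hNL' : NL 16 (C.μ ^ 2 * K1i C.T) δl := hNL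
  have hδ2 : NL 2 (C.μ ^ 2 * Ki C.T) δl := hNL'.mono (by norm_num) (by norm_num) (by gcongr)
  -- base functions on the bidisc of radius two
  set D : ℂ × ℂ → ℂ := fun p => I * C.T * (p.1 - p.2) with hDdef
  have hD : (S2 2).B (M0i C.T) D := by
    have h1 := ((B_fst h2).sub (B_snd h2)).const_mul (I * C.T)
    refine h1.mono ?_
    rw [norm_mul, Complex.norm_I, one_mul, Complex.norm_real, Real.norm_eq_abs]
    unfold M0i
    have := abs_nonneg C.T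
    linarith
  have hcos := cos_B hD hμ0.le hμ1
  have hsin := sin_B hD hμ0 hμ1
  have hX : (S2 2).B 4 (fun p => p.1 + p.2) := ((B_fst h2).add (B_snd h2)).mono (by norm_num)
  have nT2 : ‖(C.T : ℂ) ^ 2‖ = C.T ^ 2 := by
    rw [norm_pow, Complex.norm_real, Real.norm_eq_abs, sq_abs]
  have nμ2 : ‖(C.μ : ℂ) ^ 2‖ = C.μ ^ 2 := by
    rw [norm_pow, Complex.norm_real, Real.norm_eq_abs, sq_abs]
  -- homogeneous terms
  have e2 : (16 : ℝ) * (1 / 2) ^ 3 = 2 := by norm_num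
  have hZ : (S2 2).B (16 * (1 / 2) ^ 3) (fun p => p.1) := by rw [e2]; exact B_fst h2
  have hY : (S2 2).B (16 * (1 / 2) ^ 3) (fun p => p.2) := by rw [e2]; exact B_snd h2
  have hst : (S2 2).B (1 / 200) (fun _ => (0 : ℂ)) := (Sys.B.zero (S2 2)).mono (by norm_num)
  have hΛM : M0i C.T ≤ Λi C.T := by unfold Λi; linarith
  have hΛc : Real.cosh (M0i C.T) ≤ Λi C.T := by
    have : Real.cosh (M0i C.T) = chi C.T := rfl
    rw [this]; unfold Λi; linarith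
  have hA := fam_h (S := S2 2) (s := 1 / 2) (μ := C.μ) hΛge (by norm_num) (by norm_num) (by norm_num; linarith) (by norm_num : (1 : ℝ) ≤ 16)
    (by norm_num) (by norm_num) hNL' hZ hY hst le_rfl hD hΛM hΛc hμ0 hμ1 (a := fun p => C.qlin (rot C.ν⁻¹ p)) (b := fun p => C.qlin (rot C.ν p))
    (fun p _ => by rw [qlin_mid]; unfold xx; ring) (fun p _ => by rw [qlin_dif])
  have hA' := fam_h (S := S2 2) (s := 1 / 2) (μ := C.μ) hΛge (by norm_num) (by norm_num) (by norm_num; linarith) (by norm_num : (1 : ℝ) ≤ 16)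
    (by norm_num) (by norm_num) hNL' hZ hY hst le_rfl hD.neg hΛM hΛc hμ0 hμ1 (a := fun p => C.qlin (rot C.ν p)) (b := fun p => C.qlin (rot C.ν⁻¹ p))
    (fun p _ => by rw [add_comm, qlin_mid]; unfold xx; ring) (fun p _ => by
      have := qlin_dif C p
      show _ = -(I * C.T * (p.1 - p.2))
      rw [← this]; ring)
  have hU1 := B_rot C.hν hA.1
  have hU2 := B_rot C.hν' hA'.1
  have hS1 := B_rot C.hν hA.2.1
  -- additivity
  have hR : (1 : ℝ) ≤ 16 * (1 / 2) ^ 2 := by norm_num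
  have hadd : ∀ x y : ℂ, ‖((x + y) / 2) ^ 2‖ ≤ 16 → Uf C.μ (fun j => C.llin j + δl j) x y = Uf C.μ C.llin x y + Uh C.μ δl x y ∧
      S12f C.μ (fun j => C.llin j + δl j) x y = S12f C.μ C.llin x y + S12h C.μ δl x y := fun x y hxy =>
    Uf_addl (s := 1 / 2) (by norm_num) (by norm_num) hR (llin_NL C) hNL' (hxy.trans (by norm_num))
  have hrotmid : ∀ p, (C.qlin p + C.qlin (rot (C.ν ^ 2) p)) / 2 = (rot C.ν p).1 + (rot C.ν p).2 := fun p => by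
    have := qlin_mid C (rot C.ν p)
    rw [C.rot_v'v, C.rot_vv] at this; exact this
  have hrotdif : ∀ p, (C.qlin (rot (C.ν ^ 2) p) - C.qlin p) / 2 = D (rot C.ν p) := fun p => by
    have := qlin_dif C (rot C.ν p)
    rw [C.rot_v'v, C.rot_vv] at this; exact this
  have hrotmid' : ∀ p, (C.qlin p + C.qlin (rot (C.ν ^ 2)⁻¹ p)) / 2 = (rot C.ν⁻¹ p).1 + (rot C.ν⁻¹ p).2 := fun p => by
    have := qlin_mid C (rot C.ν⁻¹ p)
    rw [C.rot_v'v', C.rot_vv', add_comm] at this; exact this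
  have hrotdif' : ∀ p, (C.qlin (rot (C.ν ^ 2)⁻¹ p) - C.qlin p) / 2 = -D (rot C.ν⁻¹ p) := fun p => by
    have := qlin_dif C (rot C.ν⁻¹ p)
    rw [C.rot_v'v', C.rot_vv'] at this
    rw [hDdef]
    simp only
    rw [← this]; ring
  have hsum4 : ∀ p ∈ (S2 2).D, ‖(p.1 + p.2) ^ 2‖ ≤ 16 := fun p hp => by
    rw [mem_S2 h2] at hp
    rw [norm_pow]
    have h1 : ‖p.1 + p.2‖ ≤ 4 := (norm_add_le _ _).trans (by linarith [hp.1, hp.2])
    have := pow_le_pow_left₀ (norm_nonneg _) h1 2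
    linarith
  -- error terms of the linear table
  have herr : (S2 2).B (C.μ ^ 2 * (4 * C.T ^ 2 * chi C.T + chi C.T + 8 * C.T ^ 2 * (M0i C.T + chi C.T)))
      (fun p => (C.T : ℂ) ^ 2 * (p.1 + p.2) * (Complex.cos (C.μ * D p) - 1) + (Complex.sin (C.μ * D p) / C.μ - D p)
        + (C.μ : ℂ) ^ 2 * ((C.T : ℂ) ^ 2 / 2 * (p.1 + p.2) ^ 2) * (Complex.sin (C.μ * D p) / C.μ)) := by
    have h1 := ((hX.const_mul ((C.T : ℂ) ^ 2)).mul hcos)
    have h3 := hsin.add hD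
    simp only [sub_add_cancel] at h3
    have h4 := (((hX.pow 2).const_mul ((C.T : ℂ) ^ 2 / 2)).const_mul ((C.μ : ℂ) ^ 2)).mul h3
    refine ((h1.add hsin).add h4).mono ?_
    rw [norm_div, nT2, nμ2]
    have n2 : ‖(2 : ℂ)‖ = 2 := by norm_num
    have ec : Real.cosh (M0i C.T) = chi C.T := rfl
    rw [n2, ec]
    have : C.μ ^ 2 * chi C.T + M0i C.T ≤ M0i C.T + chi C.T := by nlinarith
    calc C.T ^ 2 * 4 * (C.μ ^ 2 * chi C.T) + C.μ ^ 2 * chi C.T + C.μ ^ 2 * (C.T ^ 2 / 2 * 4 ^ 2) * (C.μ ^ 2 * chi C.T + M0i C.T)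
        ≤ C.T ^ 2 * 4 * (C.μ ^ 2 * chi C.T) + C.μ ^ 2 * chi C.T + C.μ ^ 2 * (C.T ^ 2 / 2 * 4 ^ 2) * (M0i C.T + chi C.T) := by gcongr
      _ = _ := by ring
  have herr' : (S2 2).B (C.μ ^ 2 * (4 * C.T ^ 2 * chi C.T + chi C.T + 8 * C.T ^ 2 * (M0i C.T + chi C.T)))
      (fun p => (C.T : ℂ) ^ 2 * (p.1 + p.2) * (Complex.cos (C.μ * D p) - 1) - (Complex.sin (C.μ * D p) / C.μ - D p)
        - (C.μ : ℂ) ^ 2 * ((C.T : ℂ) ^ 2 / 2 * (p.1 + p.2) ^ 2) * (Complex.sin (C.μ * D p) / C.μ)) := by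
    have h1 := ((hX.const_mul ((C.T : ℂ) ^ 2)).mul hcos)
    have h3 := hsin.add hD
    simp only [sub_add_cancel] at h3
    have h4 := (((hX.pow 2).const_mul ((C.T : ℂ) ^ 2 / 2)).const_mul ((C.μ : ℂ) ^ 2)).mul h3
    refine ((h1.sub hsin).sub h4).mono ?_
    rw [norm_div, nT2, nμ2]
    have n2 : ‖(2 : ℂ)‖ = 2 := by norm_num
    have ec : Real.cosh (M0i C.T) = chi C.T := rfl
    rw [n2, ec]
    have : C.μ ^ 2 * chi C.T + M0i C.T ≤ M0i C.T + chi C.T := by nlinarith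
    calc C.T ^ 2 * 4 * (C.μ ^ 2 * chi C.T) + C.μ ^ 2 * chi C.T + C.μ ^ 2 * (C.T ^ 2 / 2 * 4 ^ 2) * (C.μ ^ 2 * chi C.T + M0i C.T)
        ≤ C.T ^ 2 * 4 * (C.μ ^ 2 * chi C.T) + C.μ ^ 2 * chi C.T + C.μ ^ 2 * (C.T ^ 2 / 2 * 4 ^ 2) * (M0i C.T + chi C.T) := by gcongr
      _ = _ := by ring
  have herr12 : (S2 2).B (C.μ ^ 2 * ((C.T ^ 2 + 1) * chi C.T + 4 * C.T ^ 2 * (1 + chi C.T)))
      (fun p => ((C.T : ℂ) ^ 2 + 1) / 2 * (Complex.cos (C.μ * D p) - 1)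
        + (C.μ : ℂ) ^ 2 * ((C.T : ℂ) ^ 2 / 4 * (p.1 + p.2) ^ 2) * Complex.cos (C.μ * D p)) := by
    have h1 := hcos.const_mul (((C.T : ℂ) ^ 2 + 1) / 2)
    have h3 := hcos.add (Sys.B.const (S2 2) 1)
    simp only [sub_add_cancel, norm_one] at h3
    have h4 := (((hX.pow 2).const_mul ((C.T : ℂ) ^ 2 / 4)).const_mul ((C.μ : ℂ) ^ 2)).mul h3
    refine (h1.add h4).mono ?_
    have n1 : ‖((C.T : ℂ) ^ 2 + 1) / 2‖ = (C.T ^ 2 + 1) / 2 := by
      have e : ((C.T : ℂ) ^ 2 + 1) / 2 = (((C.T ^ 2 + 1) / 2 : ℝ) : ℂ) := by push_cast; ring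
      rw [e, Complex.norm_real, Real.norm_of_nonneg (by positivity)]
    have n4 : ‖(4 : ℂ)‖ = 4 := by norm_num
    have ec : Real.cosh (M0i C.T) = chi C.T := rfl
    rw [n1, norm_div, nT2, nμ2, n4, ec]
    have : C.μ ^ 2 * chi C.T + 1 ≤ 1 + chi C.T := by nlinarith
    calc (C.T ^ 2 + 1) / 2 * (C.μ ^ 2 * chi C.T) + C.μ ^ 2 * (C.T ^ 2 / 4 * 4 ^ 2) * (C.μ ^ 2 * chi C.T + 1)
        ≤ (C.T ^ 2 + 1) / 1 * (C.μ ^ 2 * chi C.T) + C.μ ^ 2 * (C.T ^ 2 / 4 * 4 ^ 2) * (1 + chi C.T) := by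
          gcongr
          norm_num
      _ = _ := by ring
  refine ⟨fun j => C.llin j + δl j, ?_, ?_⟩
  swap
  · have e : (fun j => (C.llin j + δl j) - C.llin j) = δl := by funext j; ring
    rw [e]; exact hδ2
  have hz : (S2 2).B (C.μ ^ 2 * Ki C.T) (fun _ => (0 : ℂ)) := (Sys.B.zero (S2 2)).mono (by positivity)
  refine ⟨?_, ?_, ?_, ?_, ?_, ?_, ?_, ?_, ?_, ?_, ?_, ?_, ?_, ?_, ?_⟩
  · intro p _ _
    have := ((hasDerivAt_id p.1).add_const p.2).const_mul (C.q1 : ℂ)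
    rw [mul_one] at this; exact this
  · intro p _ _
    have := ((hasDerivAt_id p.2).const_add p.1).const_mul (C.q1 : ℂ)
    rw [mul_one] at this; exact this
  · intro p _
    unfold Cst.qlin; simp only [Prod.fst_swap, Prod.snd_swap]; ring
  · intro p _
    unfold Cst.qlin; simp only [Prod.fst_neg, Prod.snd_neg]; ring
  · intro p _
    unfold Cst.qlin cj; simp
  · intro p _; simp
  · intro p _
    rw [add_comm, qlin_mid]; ring
  · exact hz.congr (fun p _ => by unfold Cst.qlin; ring)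
  · exact hz.congr (fun p _ => by ring)
  · exact hz.congr (fun p _ => by ring)
  · exact hz
  · have := (llin_NL C (R := 2)).add hδ2
    exact this.mono (by norm_num) le_rfl (by linarith)
  · -- twist
    refine (((B_rot C.hν herr12).add hS1).mono ?_).congr (fun p hp => ?_)
    · have h3 : (1 : ℝ) ≤ Λi C.T ^ 8 := one_le_pow₀ (by linarith)
      have h5 : Λi C.T ^ 8 * (C.μ ^ 2 * K1i C.T) = C.μ ^ 2 * (Λi C.T ^ 8 * K1i C.T) := by ring
      rw [h5, ← mul_add]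
      have h6 : 0 ≤ Λi C.T ^ 8 * K1i C.T := by positivity
      have h8 : 0 ≤ 4 * C.T ^ 2 * chi C.T + chi C.T + 8 * C.T ^ 2 * (M0i C.T + chi C.T) := by positivity
      have h7 : (C.T ^ 2 + 1) * chi C.T + 4 * C.T ^ 2 * (1 + chi C.T) + Λi C.T ^ 8 * K1i C.T ≤ Ki C.T := by
        unfold Ki; linarith
      gcongr
    · have hp' := rot_mem C.hν hp
      rw [(hadd _ _ (by rw [hrotmid]; exact hsum4 _ hp')).2]
      have e : S12f C.μ C.llin (C.qlin p) (C.qlin (rot (C.ν ^ 2) p)) = (((C.T : ℂ) ^ 2 + 1) / 2 + (C.μ : ℂ) ^ 2 * ((C.T : ℂ) ^ 2 / 4 * ((rot C.ν p).1 + (rot C.ν p).2) ^ 2)) * Complex.cos (C.μ * D (rot C.ν p)) := by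
        unfold S12f
        rw [hrotmid, hrotdif, Lf_llin, Lf_dllin, Lf_ddllin]; ring
      rw [e]
      simp only [C.rot_vv, C.rot_v'v]
      ring
  · exact ⟨a, K, BC_rmono h2 (by norm_num) haB le_rfl, ham⟩
  · -- error
    refine ((((B_rot C.hν herr).add (B_rot C.hν' herr')).add (hU1.add hU2)).mono ?_).congr (fun p hp => ?_)
    · have h3 : Λi C.T ^ 7 ≤ Λi C.T ^ 8 := pow_le_pow_right₀ (by linarith) (by norm_num)
      have h5 : Λi C.T ^ 7 * (C.μ ^ 2 * K1i C.T) = C.μ ^ 2 * (Λi C.T ^ 7 * K1i C.T) := by ring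
      rw [h5, ← mul_add, ← mul_add, ← mul_add]
      have h6 : Λi C.T ^ 7 * K1i C.T ≤ Λi C.T ^ 8 * K1i C.T := by gcongr
      have h8 : 0 ≤ (C.T ^ 2 + 1) * chi C.T := by positivity
      have h9 : 0 ≤ 4 * C.T ^ 2 * (1 + chi C.T) := by positivity
      refine mul_le_mul_of_nonneg_left ?_ hμ20
      unfold Ki; linarith
    · have hp1 := rot_mem C.hν hp
      have hp2 := rot_mem C.hν' hp
      have q1ne : (C.q1 : ℂ) ≠ 0 := by
        intro h0; have := C.hq1; rw [h0, zero_mul] at this; norm_num at this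
      have hlin0 : (C.T : ℂ) * (C.ν + C.ν⁻¹) + I * (C.ν - C.ν⁻¹) = 0 := by
        have h1 : (C.q1 : ℂ) * ((C.T : ℂ) * (C.ν + C.ν⁻¹) + I * (C.ν - C.ν⁻¹)) = 0 := by
          have h3 : (C.q1 : ℂ) * ((C.T : ℂ) * (C.ν + C.ν⁻¹) + I * (C.ν - C.ν⁻¹)) = C.T * (C.q1 * (C.ν + C.ν⁻¹)) + I * (C.q1 * (C.ν - C.ν⁻¹)) := by ring
          rw [h3, C.hq1, C.hT]
          have := Complex.I_mul_I
          linear_combination (2 * (C.T : ℂ)) * this
        rcases mul_eq_zero.mp h1 with h | h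
        · exact absurd h q1ne
        · exact h
      unfold Cst.Ef
      rw [(hadd _ _ (by rw [hrotmid]; exact hsum4 _ hp1)).1, (hadd _ _ (by rw [hrotmid']; exact hsum4 _ hp2)).1]
      have e1 : Uf C.μ C.llin (C.qlin p) (C.qlin (rot (C.ν ^ 2) p)) = (C.T : ℂ) ^ 2 * ((rot C.ν p).1 + (rot C.ν p).2) * Complex.cos (C.μ * D (rot C.ν p))
          + (1 + (C.μ : ℂ) ^ 2 * ((C.T : ℂ) ^ 2 / 2 * ((rot C.ν p).1 + (rot C.ν p).2) ^ 2)) * (Complex.sin (C.μ * D (rot C.ν p)) / C.μ) := by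
        unfold Uf
        rw [hrotmid, hrotdif, Lf_llin, Lf_dllin]; ring
      have e2 : Uf C.μ C.llin (C.qlin p) (C.qlin (rot (C.ν ^ 2)⁻¹ p)) = (C.T : ℂ) ^ 2 * ((rot C.ν⁻¹ p).1 + (rot C.ν⁻¹ p).2) * Complex.cos (C.μ * D (rot C.ν⁻¹ p))
          - (1 + (C.μ : ℂ) ^ 2 * ((C.T : ℂ) ^ 2 / 2 * ((rot C.ν⁻¹ p).1 + (rot C.ν⁻¹ p).2) ^ 2)) * (Complex.sin (C.μ * D (rot C.ν⁻¹ p)) / C.μ) := by
        unfold Uf
        rw [hrotmid', hrotdif', Lf_llin, Lf_dllin, mul_neg, Complex.cos_neg, Complex.sin_neg]; ring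
      rw [e1, e2]
      simp only [C.rot_vv, C.rot_v'v, C.rot_vv', C.rot_v'v']
      have e3 : (C.T : ℂ) ^ 2 * ((rot C.ν p).1 + (rot C.ν p).2) + D (rot C.ν p) + ((C.T : ℂ) ^ 2 * ((rot C.ν⁻¹ p).1 + (rot C.ν⁻¹ p).2) - D (rot C.ν⁻¹ p)) = 0 := by
        simp only [hDdef, rot, inv_inv]
        linear_combination ((C.T : ℂ) * (p.1 + p.2)) * hlin0
      linear_combination (-1 : ℂ) * e3

end Pool.Agent.Helper649.Bil
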