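import Pool.Agent.Helper649.BilL

set_option autoImplicit false

namespace Pool.Agent.Helper649.Bil

open Complex

/-- change of the scale parameter -/
noncomputable def Cst.wμ (C : Cst) (μ : ℝ) (h0 : 0 < μ) (h1 : μ ≤ 1) : Cst :=
  { C with μ := μ, hμ0 := h0, hμ1 := h1 }

lemma Cst.q1ne (C : Cst) : (C.q1 : ℂ) ≠ 0 := by
  intro h0; have := C.hq1; rw [h0, zero_mul] at this; norm_num at this

lemma Cst.g0ne (C : Cst) : C.g0 ≠ 0 := by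
  unfold Cst.g0
  have h1 : ((C.T : ℂ) ^ 2 + 1) / 2 ≠ 0 := by
    have e : ((C.T : ℂ) ^ 2 + 1) / 2 = (((C.T ^ 2 + 1) / 2 : ℝ) : ℂ) := by push_cast; ring
    rw [e]
    have : (C.T ^ 2 + 1) / 2 ≠ 0 := by positivity
    exact_mod_cast this
  have h2 : (C.q1 : ℂ) ^ 2 ≠ 0 := pow_ne_zero _ C.q1ne
  have h3 : (C.ν ^ 2)⁻¹ - C.ν ^ 2 ≠ 0 := by
    intro h
    have hω0 := C.ω0
    have h4 : (C.ν ^ 2) ^ (2 : ℤ) - 1 = 0 := by
      have : (C.ν ^ 2) ^ (2 : ℤ) = C.ν ^ 2 * C.ν ^ 2 := by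
        rw [show (2 : ℤ) = ((2 : ℕ) : ℤ) from rfl, zpow_natCast, sq (C.ν ^ 2)]
      rw [this]
      have h5 : (C.ν ^ 2)⁻¹ = C.ν ^ 2 := sub_eq_zero.mp h
      have h6 : (C.ν ^ 2)⁻¹ * C.ν ^ 2 = 1 := inv_mul_cancel₀ hω0
      rw [h5] at h6
      rw [h6, sub_self]
    have := C.hdiv 2 (by norm_num)
    rw [h4, norm_zero, mul_zero] at this
    norm_num at this
  exact mul_ne_zero (mul_ne_zero h1 h2) h3

/-- Main analytic theorem. -/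
theorem main_an (C0 : Cst) {η : ℝ} (hη : 0 < η) :
    ∃ μ0 : ℝ, 0 < μ0 ∧ μ0 ≤ 1 ∧ ∀ (μ : ℝ) (h0 : 0 < μ) (h1 : μ ≤ 1), μ ≤ μ0 →
      ∃ (q : ℂ × ℂ → ℂ) (l : ℕ → ℝ), Sol (C0.wμ μ h0 h1) η q l := by
  have hg0 := C0.g0ne
  have hgn : 0 < ‖C0.g0‖ := norm_pos_iff.mpr hg0
  set K0 : ℝ := (2 * (C0.T ^ 2 + 1 + |C0.q1| + 1) * (|C0.q1| + 1) ^ 2 * 2) with hK0
  have hK0p : 0 ≤ K0 := by positivity
  have ha1 := abs_nonneg C0.q1
  have ha2 := abs_nonneg C0.T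
  have ha3 := sq_nonneg C0.T
  have ha4 := Real.cosh_pos (4 * |C0.T| + 2)
  have ha5 := C0.hΓ
  have ha6 : 0 < 2 / ‖C0.g0‖ := by positivity
  have ha7 : 0 < 4 / η := by positivity
  have ha8 : 0 ≤ 8 * K0 / ‖C0.g0‖ := by positivity
  obtain ⟨L, hL1, hL2, hL3, hL4, hL5, hL6, hL7, hL8, hL9⟩ : ∃ L : ℝ, 1600 ≤ L ∧ 8 * C0.T ^ 2 + 1 ≤ L ∧ 4 * |C0.q1| + 1 ≤ L ∧
      4 * |C0.T| + 2 ≤ L ∧ Real.cosh (4 * |C0.T| + 2) ≤ L ∧ C0.Γ ≤ L ∧ 2 / ‖C0.g0‖ ≤ L ∧ 4 / η ≤ L ∧ 8 * K0 / ‖C0.g0‖ ≤ L := by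
    refine ⟨1600 + (8 * C0.T ^ 2 + 1) + (4 * |C0.q1| + 1) + (4 * |C0.T| + 2) + Real.cosh (4 * |C0.T| + 2) + C0.Γ + 2 / ‖C0.g0‖
      + 4 / η + 8 * K0 / ‖C0.g0‖, ?_, ?_, ?_, ?_, ?_, ?_, ?_, ?_, ?_⟩ <;> linarith
  have hL0 : 0 < L := by linarith
  have hKi : 0 ≤ Ki C0.T := by have := (Ki_ge C0.T).1; have := chi_ge C0.T; linarith
  set A : ℝ := Ki C0.T + Real.cosh (4 * |C0.T| + 2) + 1 with hA
  have hA1 : 1 ≤ A := by rw [hA]; linarith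
  set δ : ℝ := min (1 / 8) (min (2 / L) ((1 / (2 * L)) ^ 44)) with hδ
  have hδ0 : 0 < δ := by
    rw [hδ]; refine lt_min (by norm_num) (lt_min (by positivity) (by positivity))
  have hδ1 : δ ≤ 1 / 8 := min_le_left _ _
  have hδ2 : δ ≤ 2 / L := (min_le_right _ _).trans (min_le_left _ _)
  have hδ3 : δ ≤ (1 / (2 * L)) ^ 44 := (min_le_right _ _).trans (min_le_right _ _)
  refine ⟨δ / A, by positivity, by rw [div_le_one (by linarith)]; linarith, fun μ h0 h1 hμ => ?_⟩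
  have hμA : μ ^ 2 * A ≤ δ := by
    have h2 : μ ^ 2 ≤ μ := by nlinarith
    have h3 : μ * A ≤ δ := by rwa [le_div_iff₀ (by linarith)] at hμ
    have h4 : μ ^ 2 * A ≤ μ * A := by gcongr
    linarith
  have hμK : μ ^ 2 * Ki C0.T ≤ δ := by
    refine le_trans ?_ hμA
    have : Ki C0.T ≤ A := by rw [hA]; linarith
    gcongr
  have hμc : μ ^ 2 * Real.cosh (4 * |C0.T| + 2) ≤ δ := by
    refine le_trans ?_ hμA
    have : Real.cosh (4 * |C0.T| + 2) ≤ A := by rw [hA]; linarith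
    gcongr
  set C := C0.wμ μ h0 h1 with hC
  obtain ⟨l, hS, hNL⟩ := init_St C (hμK.trans hδ1)
  have hGd : Gd C (8 * C.T ^ 2) (2 / L) L := by
    have e4 : 2 / L + 2 / L = 4 / L := by ring
    refine ⟨hL1, hL2, by positivity, by positivity, hL3, hL4, hL5, hL6, hL7, hg0, ?_, ?_, hμc.trans hδ1⟩
    · rw [e4, div_le_div_iff₀ hL0 (by norm_num)]; linarith
    · rw [e4]
      show K0 * (4 / L) ≤ ‖C0.g0‖ / 2
      rw [div_le_iff₀ hgn] at hL9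
      rw [mul_div_assoc', div_le_div_iff₀ hL0 (by norm_num)]
      linarith
  have h0' : (Dat.mk C.qlin (fun _ => C.q1) (fun _ => C.q1) (fun _ => 0) l).Ok C (8 * C.T ^ 2) (2 / L) L 0 := by
    unfold Dat.Ok
    simp only [pow_zero]
    refine hS.mono (by norm_num) (by norm_num) ?_ ?_
    · refine (hμK.trans hδ2).trans (le_of_eq ?_); ring
    · exact hμK.trans hδ3
  obtain ⟨q, l', hSol⟩ := limit hGd _ h0' (hNL.mono (by norm_num) (by norm_num) (hμK.trans hδ2))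
  refine ⟨q, l', ?_⟩
  have hη4 : 2 / L + 2 / L ≤ η := by
    have e4 : 2 / L + 2 / L = 4 / L := by ring
    rw [e4]
    rw [div_le_iff₀ hη] at hL8
    rw [div_le_iff₀ hL0]; linarith
  exact ⟨hSol.sym, hSol.odd, hSol.real, hSol.bq.mono hη4, hSol.bl.mono (by norm_num) le_rfl hη4, hSol.eq⟩

end Pool.Agent.Helper649.Bil
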