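import Pool.Agent.Helper649.BilM

set_option autoImplicit false

namespace Pool.Agent.Helper649.Bil

open Complex Filter Topology

/-- open bidisc -/
def OB (r : ℝ) : Set (ℂ × ℂ) := {p | ‖p.1‖ < r ∧ ‖p.2‖ < r}

lemma OB_open (r : ℝ) : IsOpen (OB r) :=
  (isOpen_lt (continuous_fst.norm) continuous_const).inter (isOpen_lt (continuous_snd.norm) continuous_const)

lemma OB_convex (r : ℝ) : Convex ℝ (OB r) := by
  have h1 : OB r = (Metric.ball (0 : ℂ) r) ×ˢ (Metric.ball (0 : ℂ) r) := by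
    ext p; simp [OB]
  rw [h1]
  exact (convex_ball _ _).prod (convex_ball _ _)

/-- derivative of a double power series -/
lemma B_hasFDerivAt {r M s : ℝ} (hr : 0 < r) (hs0 : 0 < s) (hs1 : s < 1) {f : ℂ × ℂ → ℂ} (hf : (S2 r).B M f) :
    ∃ fz fw : ℂ × ℂ → ℂ, (S2 (r * s)).B (1 / (r * (1 - s)) * M) fz ∧ (S2 (r * s)).B (1 / (r * (1 - s)) * M) fw ∧
      ∀ p ∈ OB (r * s), HasFDerivAt f (fz p • ContinuousLinearMap.fst ℂ ℂ ℂ + fw p • ContinuousLinearMap.snd ℂ ℂ ℂ) p := by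
  obtain ⟨fz, hz1, hz2⟩ := B_dz hr hs0 hs1 hf
  obtain ⟨fw, hw1, hw2⟩ := B_dw hr hs0 hs1 hf
  refine ⟨fz, fw, hz1, hw1, fun p hp => ?_⟩
  obtain ⟨a, f1, f2, f3⟩ := hf
  have hrs0 : 0 < r * s := by positivity
  have hrs : r * s < r := by nlinarith
  have h1s : 0 < 1 - s := by linarith
  set ρ := r * s with hρ
  have hmb : ∀ m : ℕ, (m : ℝ) * ρ ^ (m - 1) ≤ (1 / (r * (1 - s))) * r ^ m := by
    intro m
    rcases m with _ | m
    · simp; positivity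
    · have h := succ_mul_pow_le hs0.le hs1 m
      have e1 : ((m + 1 : ℕ) : ℝ) * ρ ^ (m + 1 - 1) = (((m : ℝ) + 1) * s ^ m) * r ^ m := by
        rw [show m + 1 - 1 = m from by omega, hρ, mul_pow]; push_cast; ring
      have e2 : (1 / (r * (1 - s))) * r ^ (m + 1) = (1 / (1 - s)) * r ^ m := by
        field_simp; ring
      rw [e1, e2]
      gcongr
  have hu : Summable (fun i : ℕ × ℕ => (2 / (r * (1 - s))) * (‖a i‖ * (S2 r).W i)) := f1.mul_left _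
  have key := hasFDerivAt_tsum_of_isPreconnected (𝕜 := ℂ) (E := ℂ × ℂ) (F := ℂ) (α := ℕ × ℕ)
    (f := fun i p => a i * (p.1 ^ i.1 * p.2 ^ i.2))
    (f' := fun i p => a i • (p.1 ^ i.1 • ((i.2 : ℂ) * p.2 ^ (i.2 - 1)) • ContinuousLinearMap.snd ℂ ℂ ℂ
        + p.2 ^ i.2 • ((i.1 : ℂ) * p.1 ^ (i.1 - 1)) • ContinuousLinearMap.fst ℂ ℂ ℂ))
    (u := fun i => (2 / (r * (1 - s))) * (‖a i‖ * (S2 r).W i))
    (s := OB ρ) (x₀ := 0) (x := p) hu (OB_open ρ)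
    (OB_convex ρ).isPreconnected
    (fun i p _ => by
      have h1 : HasFDerivAt (fun p : ℂ × ℂ => p.1 ^ i.1) (((i.1 : ℂ) * p.1 ^ (i.1 - 1)) • ContinuousLinearMap.fst ℂ ℂ ℂ) p :=
        (hasDerivAt_pow i.1 p.1).comp_hasFDerivAt p hasFDerivAt_fst
      have h2 : HasFDerivAt (fun p : ℂ × ℂ => p.2 ^ i.2) (((i.2 : ℂ) * p.2 ^ (i.2 - 1)) • ContinuousLinearMap.snd ℂ ℂ ℂ) p :=
        (hasDerivAt_pow i.2 p.2).comp_hasFDerivAt p hasFDerivAt_snd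
      exact (h1.mul h2).const_mul (a i))
    (fun i p hp => by
      obtain ⟨hp1, hp2⟩ := hp
      rw [norm_smul]
      have n1 : ‖(ContinuousLinearMap.fst ℂ ℂ ℂ)‖ ≤ 1 := ContinuousLinearMap.norm_fst_le _ _ _
      have n2 : ‖(ContinuousLinearMap.snd ℂ ℂ ℂ)‖ ≤ 1 := ContinuousLinearMap.norm_snd_le _ _ _
      have h1 : ‖p.1‖ ^ (i.1 - 1) ≤ ρ ^ (i.1 - 1) := pow_le_pow_left₀ (norm_nonneg _) hp1.le _
      have h2 : ‖p.2‖ ^ (i.2 - 1) ≤ ρ ^ (i.2 - 1) := pow_le_pow_left₀ (norm_nonneg _) hp2.le _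
      have h3 : ‖p.1‖ ^ i.1 ≤ r ^ i.1 := pow_le_pow_left₀ (norm_nonneg _) (hp1.le.trans hrs.le) _
      have h4 : ‖p.2‖ ^ i.2 ≤ r ^ i.2 := pow_le_pow_left₀ (norm_nonneg _) (hp2.le.trans hrs.le) _
      have m1 := hmb i.1
      have m2 := hmb i.2
      have t1 : ‖p.1 ^ i.1 • ((i.2 : ℂ) * p.2 ^ (i.2 - 1)) • ContinuousLinearMap.snd ℂ ℂ ℂ‖ ≤ r ^ i.1 * ((1 / (r * (1 - s))) * r ^ i.2) := by
        rw [norm_smul, norm_smul, norm_pow, norm_mul, norm_pow, Complex.norm_natCast]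
        calc ‖p.1‖ ^ i.1 * ((i.2 : ℝ) * ‖p.2‖ ^ (i.2 - 1) * ‖ContinuousLinearMap.snd ℂ ℂ ℂ‖)
            ≤ r ^ i.1 * ((i.2 : ℝ) * ρ ^ (i.2 - 1) * 1) := by gcongr
          _ ≤ r ^ i.1 * ((1 / (r * (1 - s))) * r ^ i.2) := by rw [mul_one]; gcongr
      have t2 : ‖p.2 ^ i.2 • ((i.1 : ℂ) * p.1 ^ (i.1 - 1)) • ContinuousLinearMap.fst ℂ ℂ ℂ‖ ≤ r ^ i.2 * ((1 / (r * (1 - s))) * r ^ i.1) := by
        rw [norm_smul, norm_smul, norm_pow, norm_mul, norm_pow, Complex.norm_natCast]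
        calc ‖p.2‖ ^ i.2 * ((i.1 : ℝ) * ‖p.1‖ ^ (i.1 - 1) * ‖ContinuousLinearMap.fst ℂ ℂ ℂ‖)
            ≤ r ^ i.2 * ((i.1 : ℝ) * ρ ^ (i.1 - 1) * 1) := by gcongr
          _ ≤ r ^ i.2 * ((1 / (r * (1 - s))) * r ^ i.1) := by rw [mul_one]; gcongr
      calc ‖a i‖ * ‖p.1 ^ i.1 • ((i.2 : ℂ) * p.2 ^ (i.2 - 1)) • ContinuousLinearMap.snd ℂ ℂ ℂ
            + p.2 ^ i.2 • ((i.1 : ℂ) * p.1 ^ (i.1 - 1)) • ContinuousLinearMap.fst ℂ ℂ ℂ‖
          ≤ ‖a i‖ * (r ^ i.1 * ((1 / (r * (1 - s))) * r ^ i.2) + r ^ i.2 * ((1 / (r * (1 - s))) * r ^ i.1)) := by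
            gcongr
            exact (norm_add_le _ _).trans (add_le_add t1 t2)
        _ = (2 / (r * (1 - s))) * (‖a i‖ * r ^ (i.1 + i.2)) := by rw [pow_add]; ring
        _ = _ := by rw [W_S2 hr])
    (by constructor <;> simpa using hrs0)
    (by
      have := f3 0 (by rw [mem_S2 hr]; constructor <;> simpa using hr.le)
      exact this.summable)
    hp
  have hnear : f =ᶠ[nhds p] fun p => ∑' i : ℕ × ℕ, a i * (p.1 ^ i.1 * p.2 ^ i.2) := by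
    filter_upwards [(OB_open ρ).mem_nhds hp] with x hx
    exact ((f3 x (by rw [mem_S2 hr]; exact ⟨hx.1.le.trans hrs.le, hx.2.le.trans hrs.le⟩)).tsum_eq).symm
  have h1 := key.congr_of_eventuallyEq hnear
  set F' := ∑' i : ℕ × ℕ, a i • (p.1 ^ i.1 • ((i.2 : ℂ) * p.2 ^ (i.2 - 1)) • ContinuousLinearMap.snd ℂ ℂ ℂ
        + p.2 ^ i.2 • ((i.1 : ℂ) * p.1 ^ (i.1 - 1)) • ContinuousLinearMap.fst ℂ ℂ ℂ) with hF'
  have g1 : HasDerivAt (fun z => f (z, p.2)) (F' (1, 0)) p.1 := by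
    have h2 : HasDerivAt (fun z : ℂ => ((z, p.2) : ℂ × ℂ)) (1, 0) p.1 := (hasDerivAt_id p.1).prodMk (hasDerivAt_const p.1 p.2)
    exact HasFDerivAt.comp_hasDerivAt (x := p.1) (l := f) (f := fun z : ℂ => ((z, p.2) : ℂ × ℂ)) h1 h2
  have g2 : HasDerivAt (fun w => f (p.1, w)) (F' (0, 1)) p.2 := by
    have h2 : HasDerivAt (fun w : ℂ => ((p.1, w) : ℂ × ℂ)) (0, 1) p.2 := (hasDerivAt_const p.2 p.1).prodMk (hasDerivAt_id p.2)
    exact HasFDerivAt.comp_hasDerivAt (x := p.2) (l := f) (f := fun w : ℂ => ((p.1, w) : ℂ × ℂ)) h1 h2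
  have e1 := g1.unique (hz2 p (hp.1.trans hrs) (hp.2.trans hrs))
  have e2 := g2.unique (hw2 p (hp.1.trans hrs) (hp.2.trans hrs))
  have e3 : F' = fz p • ContinuousLinearMap.fst ℂ ℂ ℂ + fw p • ContinuousLinearMap.snd ℂ ℂ ℂ := by
    apply ContinuousLinearMap.ext
    intro v
    have : v = v.1 • ((1, 0) : ℂ × ℂ) + v.2 • ((0, 1) : ℂ × ℂ) := by ext <;> simp
    conv_lhs => rw [this]
    rw [map_add, map_smul, map_smul, e1, e2]
    simp [mul_comm]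
  rw [e3] at h1
  exact h1

/-- double power series are smooth -/
lemma B_contDiffOn (n : ℕ) : ∀ {r M : ℝ} {f : ℂ × ℂ → ℂ}, 0 < r → (S2 r).B M f → ContDiffOn ℂ n f (OB r) := by
  induction n with
  | zero =>
    intro r M f hr hf
    rw [show ((0 : ℕ) : WithTop ℕ∞) = 0 from rfl, contDiffOn_zero]
    intro p hp
    obtain ⟨s, hs0, hs1, hps⟩ : ∃ s, 0 < s ∧ s < 1 ∧ p ∈ OB (r * s) := by
      obtain ⟨ρ, h1, h2⟩ := exists_between (max_lt hp.1 hp.2)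
      refine ⟨ρ / r, ?_, by rw [div_lt_one hr]; exact h2, ?_⟩
      · have : 0 < ρ := lt_of_le_of_lt (norm_nonneg p.1) ((le_max_left _ _).trans_lt h1)
        positivity
      · have e : r * (ρ / r) = ρ := by field_simp
        rw [e]; exact ⟨(le_max_left _ _).trans_lt h1, (le_max_right _ _).trans_lt h1⟩
    obtain ⟨fz, fw, _, _, h3⟩ := B_hasFDerivAt hr hs0 hs1 hf
    exact (h3 p hps).continuousAt.continuousWithinAt
  | succ n ih =>
    intro r M f hr hf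
    have hloc : ∀ p ∈ OB r, ∃ s, 0 < s ∧ s < 1 ∧ p ∈ OB (r * s) := by
      intro p hp
      obtain ⟨ρ, h1, h2⟩ := exists_between (max_lt hp.1 hp.2)
      refine ⟨ρ / r, ?_, by rw [div_lt_one hr]; exact h2, ?_⟩
      · have : 0 < ρ := lt_of_le_of_lt (norm_nonneg p.1) ((le_max_left _ _).trans_lt h1)
        positivity
      · have e : r * (ρ / r) = ρ := by field_simp
        rw [e]; exact ⟨(le_max_left _ _).trans_lt h1, (le_max_right _ _).trans_lt h1⟩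
    rw [show ((n + 1 : ℕ) : WithTop ℕ∞) = (n : WithTop ℕ∞) + 1 from by push_cast; rfl,
      contDiffOn_succ_iff_fderiv_of_isOpen (OB_open r)]
    refine ⟨?_, by simp, ?_⟩
    · intro p hp
      obtain ⟨s, hs0, hs1, hps⟩ := hloc p hp
      obtain ⟨fz, fw, _, _, h3⟩ := B_hasFDerivAt hr hs0 hs1 hf
      exact (h3 p hps).differentiableAt.differentiableWithinAt
    · intro p hp
      obtain ⟨s, hs0, hs1, hps⟩ := hloc p hp
      obtain ⟨fz, fw, hz, hw, h3⟩ := B_hasFDerivAt hr hs0 hs1 hf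
      have hrs : 0 < r * s := by positivity
      have c1 := (ih hrs hz).contDiffAt ((OB_open _).mem_nhds hps)
      have c2 := (ih hrs hw).contDiffAt ((OB_open _).mem_nhds hps)
      have c3 : ContDiffAt ℂ n (fun p => fz p • ContinuousLinearMap.fst ℂ ℂ ℂ + fw p • ContinuousLinearMap.snd ℂ ℂ ℂ) p :=
        (c1.smul contDiffAt_const).add (c2.smul contDiffAt_const)
      refine (c3.congr_of_eventuallyEq ?_).contDiffWithinAt
      filter_upwards [(OB_open _).mem_nhds hps] with x hx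
      exact (h3 x hx).fderiv

lemma B_contDiffAt {r M : ℝ} {f : ℂ × ℂ → ℂ} (hr : 0 < r) (hf : (S2 r).B M f) {p : ℂ × ℂ} (hp : p ∈ OB r) :
    ContDiffAt ℂ (⊤ : ℕ∞) f p := by
  have : ContDiffOn ℂ (⊤ : ℕ∞) f (OB r) := by
    rw [contDiffOn_infty]
    exact fun n => B_contDiffOn n hr hf
  exact this.contDiffAt ((OB_open r).mem_nhds hp)

/-- smoothness of the functions of coefficient sequences -/
lemma Lf_contDiffAt {r M : ℝ} {l : ℕ → ℝ} (hr : 0 < r) (h : NL r M l) {y : ℂ} (hy : ‖y‖ < 4 * r ^ 2) :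
    ContDiffAt ℂ (⊤ : ℕ∞) (Lf l) y := by
  have hd : DifferentiableOn ℂ (Lf l) (Metric.ball 0 (4 * r ^ 2)) := fun z hz => by
    rw [mem_ball_zero_iff] at hz
    exact (Lf_deriv hr h hz).differentiableAt.differentiableWithinAt
  exact (hd.analyticAt (Metric.isOpen_ball.mem_nhds (by rw [mem_ball_zero_iff]; exact hy))).contDiffAt

end Pool.Agent.Helper649.Bil
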