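import Pool.Agent.Helper649.BilN

set_option autoImplicit false

namespace Pool.Agent.Helper649.Bil

open Complex Filter Topology

/-- real version of the function of a coefficient sequence -/
noncomputable def LR (l : ℕ → ℝ) (y : ℝ) : ℝ := (Lf l (y : ℂ)).re

lemma Lf_real (l : ℕ → ℝ) (y : ℝ) : Lf l (y : ℂ) = ((LR l y : ℝ) : ℂ) := by
  have h := Lf_conj l (y : ℂ)
  rw [Complex.conj_ofReal] at h
  exact (Complex.conj_eq_iff_re.mp h).symm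

lemma LR_deriv {r M : ℝ} {l : ℕ → ℝ} (hr : 0 < r) (h : NL r M l) {y : ℝ} (hy : |y| < 4 * r ^ 2) :
    HasDerivAt (LR l) (LR (dl l) y) y := by
  have h1 := Lf_deriv hr h (y := (y : ℂ)) (by rw [Complex.norm_real]; exact hy)
  exact h1.real_of_complex

lemma LR_contDiffAt {r M : ℝ} {l : ℕ → ℝ} (hr : 0 < r) (h : NL r M l) {y : ℝ} (hy : |y| < 4 * r ^ 2) :
    ContDiffAt ℝ (⊤ : ℕ∞) (LR l) y := by
  have h1 := (Lf_contDiffAt hr h (y := (y : ℂ)) (by rw [Complex.norm_real]; exact hy)).restrict_scalars ℝ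
  have h2 : ContDiffAt ℝ (⊤ : ℕ∞) (fun y : ℝ => (y : ℂ)) y := Complex.ofRealCLM.contDiff.contDiffAt
  exact Complex.reCLM.contDiff.contDiffAt.comp y (h1.comp y h2)

/-- real version of `Uf` -/
noncomputable def UR (μ : ℝ) (l : ℕ → ℝ) (a b : ℝ) : ℝ :=
  2 * ((a + b) / 2) * LR (dl l) (((a + b) / 2) ^ 2) * Real.cos (μ * ((b - a) / 2))
    + (1 + μ ^ 2 * LR l (((a + b) / 2) ^ 2)) * (Real.sin (μ * ((b - a) / 2)) / μ)

lemma Uf_real (μ : ℝ) (l : ℕ → ℝ) (a b : ℝ) : Uf μ l (a : ℂ) (b : ℂ) = ((UR μ l a b : ℝ) : ℂ) := by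
  unfold Uf UR
  have e1 : (((a : ℂ) + b) / 2) = (((a + b) / 2 : ℝ) : ℂ) := by push_cast; ring
  have e2 : (μ : ℂ) * (((b : ℂ) - a) / 2) = ((μ * ((b - a) / 2) : ℝ) : ℂ) := by push_cast; ring
  have e3 : (((a + b) / 2 : ℝ) : ℂ) ^ 2 = ((((a + b) / 2) ^ 2 : ℝ) : ℂ) := by push_cast; ring
  rw [e1, e2, e3, Lf_real, Lf_real]
  push_cast
  ring

/-- local support function -/
noncomputable def HH (μ : ℝ) (l : ℕ → ℝ) (t : ℝ) : ℝ := 1 + μ ^ 2 * LR l (t ^ 2 / μ ^ 2)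
noncomputable def HH1 (μ : ℝ) (l : ℕ → ℝ) (t : ℝ) : ℝ := 2 * t * LR (dl l) (t ^ 2 / μ ^ 2)
noncomputable def HH2 (μ : ℝ) (l : ℕ → ℝ) (t : ℝ) : ℝ :=
  2 * LR (dl l) (t ^ 2 / μ ^ 2) + 4 * t ^ 2 / μ ^ 2 * LR (dl (dl l)) (t ^ 2 / μ ^ 2)

lemma UR_HH {μ : ℝ} (hμ : μ ≠ 0) (l : ℕ → ℝ) (a b : ℝ) :
    μ * UR μ l a b = HH μ l ((μ * a + μ * b) / 2) * Real.sin ((μ * b - μ * a) / 2)
      + HH1 μ l ((μ * a + μ * b) / 2) * Real.cos ((μ * b - μ * a) / 2) := by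
  unfold UR HH HH1
  have e1 : ((μ * a + μ * b) / 2) ^ 2 / μ ^ 2 = ((a + b) / 2) ^ 2 := by field_simp
  have e2 : μ * ((b - a) / 2) = (μ * b - μ * a) / 2 := by ring
  rw [e1, e2]
  field_simp
  ring

lemma UR_HH' {μ : ℝ} (hμ : μ ≠ 0) (l : ℕ → ℝ) (a b : ℝ) :
    -(μ * UR μ l b a) = HH μ l ((μ * a + μ * b) / 2) * Real.sin ((μ * b - μ * a) / 2)
      - HH1 μ l ((μ * a + μ * b) / 2) * Real.cos ((μ * b - μ * a) / 2) := by
  have e1 : (μ * b + μ * a) / 2 = (μ * a + μ * b) / 2 := by ring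
  have e2 : (μ * a - μ * b) / 2 = -((μ * b - μ * a) / 2) := by ring
  rw [UR_HH hμ, e1, e2, Real.sin_neg, Real.cos_neg]
  ring

section der

variable {μ M : ℝ} {l : ℕ → ℝ}

lemma sq_div_lt (hμ : 0 < μ) {t : ℝ} (ht : t ∈ Set.Ioo (-μ) μ) : |t ^ 2 / μ ^ 2| < 1 := by
  have h1 : t ^ 2 < μ ^ 2 := sq_lt_sq' ht.1 ht.2
  rw [abs_of_nonneg (by positivity), div_lt_one (by positivity)]
  exact h1

lemma NL_dl (h : NL (3 / 2) M l) : ∃ M1, NL (5 / 4) M1 (dl l) := by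
  have h1 := NL.deriv (s := 5 / 6) (by norm_num) (by norm_num) (by norm_num) h
  exact ⟨_, h1.mono (by norm_num) (by norm_num) le_rfl⟩

lemma NL_ddl (h : NL (3 / 2) M l) : ∃ M1, NL 1 M1 (dl (dl l)) := by
  obtain ⟨M1, h1⟩ := NL_dl h
  have h2 := NL.deriv (s := 4 / 5) (by norm_num) (by norm_num) (by norm_num) h1
  exact ⟨_, h2.mono (by norm_num) (by norm_num) le_rfl⟩

lemma HH_deriv (hμ : 0 < μ) (h : NL (3 / 2) M l) {t : ℝ} (ht : t ∈ Set.Ioo (-μ) μ) : HasDerivAt (HH μ l) (HH1 μ l t) t := by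
  have hy := sq_div_lt hμ ht
  have h1 := LR_deriv (by norm_num) h (y := t ^ 2 / μ ^ 2) (hy.trans (by norm_num))
  have h2 : HasDerivAt (fun t : ℝ => t ^ 2 / μ ^ 2) (2 * t / μ ^ 2) t := by
    have := (hasDerivAt_pow 2 t).div_const (μ ^ 2)
    simpa using this
  have h3 := ((HasDerivAt.comp t h1 h2).const_mul (μ ^ 2)).const_add 1
  refine h3.congr_deriv ?_
  unfold HH1
  field_simp

lemma HH1_deriv (hμ : 0 < μ) (h : NL (3 / 2) M l) {t : ℝ} (ht : t ∈ Set.Ioo (-μ) μ) : HasDerivAt (HH1 μ l) (HH2 μ l t) t := by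
  have hy := sq_div_lt hμ ht
  obtain ⟨M1, hM1⟩ := NL_dl h
  have h1 := LR_deriv (by norm_num) hM1 (y := t ^ 2 / μ ^ 2) (hy.trans (by norm_num))
  have h2 : HasDerivAt (fun t : ℝ => t ^ 2 / μ ^ 2) (2 * t / μ ^ 2) t := by
    have := (hasDerivAt_pow 2 t).div_const (μ ^ 2)
    simpa using this
  have h3 : HasDerivAt (fun t : ℝ => 2 * t) 2 t := by
    have := (hasDerivAt_id t).const_mul (2 : ℝ)
    simpa using this
  have h4 := h3.mul (HasDerivAt.comp t h1 h2)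
  refine h4.congr_deriv ?_
  unfold HH2
  simp only [Function.comp]
  field_simp
  ring

lemma HH_smooth (hμ : 0 < μ) (h : NL (3 / 2) M l) :
    ContDiffOn ℝ (⊤ : ℕ∞) (fun t => HH μ l t + HH2 μ l t) (Set.Ioo (-μ) μ) := by
  intro t ht
  apply ContDiffAt.contDiffWithinAt
  have hy := sq_div_lt hμ ht
  obtain ⟨M1, hM1⟩ := NL_dl h
  obtain ⟨M2, hM2⟩ := NL_ddl h
  have h1 := LR_contDiffAt (by norm_num) h (y := t ^ 2 / μ ^ 2) (hy.trans (by norm_num))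
  have h2 := LR_contDiffAt (by norm_num) hM1 (y := t ^ 2 / μ ^ 2) (hy.trans (by norm_num))
  have h3 := LR_contDiffAt (by norm_num) hM2 (y := t ^ 2 / μ ^ 2) (hy.trans (by norm_num))
  have h4 : ContDiffAt ℝ (⊤ : ℕ∞) (fun t : ℝ => t ^ 2 / μ ^ 2) t := by fun_prop
  have g1 := h1.comp t h4
  have g2 := h2.comp t h4
  have g3 := h3.comp t h4
  have h5 : ContDiffAt ℝ (⊤ : ℕ∞) (fun t : ℝ => 4 * t ^ 2 / μ ^ 2) t := by fun_prop
  exact (contDiffAt_const.add (contDiffAt_const.mul g1)).add ((contDiffAt_const.mul g2).add (h5.mul g3))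

lemma LR_zero (l : ℕ → ℝ) : LR l 0 = l 0 := by
  unfold LR Lf
  have := hasSum_single (f := fun j => (l j : ℂ) * ((0 : ℝ) : ℂ) ^ j) 0 (by
    intro j hj; simp [hj])
  rw [this.tsum_eq]; simp

end der

end Pool.Agent.Helper649.Bil
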