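import Pool.Agent.Helper649.BilO

set_option autoImplicit false

namespace Pool.Agent.Helper649.Bil

open Complex Filter Topology

/-- the real slice -/
noncomputable def sl (ζ : ℂ) : ℂ × ℂ := (ζ, starRingEnd ℂ ζ)

lemma sl_mem {r : ℝ} (hr : 0 < r) {ζ : ℂ} (h : ‖ζ‖ ≤ r) : sl ζ ∈ (S2 r).D := by
  rw [mem_S2 hr]; exact ⟨h, by show ‖starRingEnd ℂ ζ‖ ≤ r; rw [RCLike.norm_conj]; exact h⟩

lemma rot_sl {c : ℂ} (hc : ‖c‖ = 1) (ζ : ℂ) : rot c (sl ζ) = sl (c * ζ) := by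
  unfold rot sl
  rw [map_mul, ← Complex.inv_eq_conj hc]

noncomputable def qr (q : ℂ × ℂ → ℂ) (ζ : ℂ) : ℝ := (q (sl ζ)).re

section sol

variable {C : Cst} {η : ℝ} {q : ℂ × ℂ → ℂ} {l : ℕ → ℝ}

lemma Sol.q_real (S : Sol C η q l) {ζ : ℂ} (h : ‖ζ‖ ≤ 3 / 2) : q (sl ζ) = ((qr q ζ : ℝ) : ℂ) := by
  have hm := sl_mem (by norm_num : (0 : ℝ) < 3 / 2) h
  have h1 := S.real _ hm
  have e : cj (sl ζ) = (sl ζ).swap := by unfold cj sl; simp
  rw [e, S.sym _ hm] at h1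
  exact (Complex.conj_eq_iff_re.mp h1).symm

lemma Sol.qr_zero (S : Sol C η q l) : qr q 0 = 0 := by
  have hm := sl_mem (by norm_num : (0 : ℝ) < 3 / 2) (ζ := 0) (by rw [norm_zero]; norm_num)
  have h1 := S.odd _ hm
  have e : -sl 0 = sl 0 := by unfold sl; simp
  rw [e] at h1
  have h2 : q (sl 0) = 0 := by
    have : (2 : ℂ) * q (sl 0) = 0 := by linear_combination h1
    simpa using this
  unfold qr; rw [h2]; simp

lemma Sol.eq_real (S : Sol C η q l) {ζ : ℂ} (h : ‖ζ‖ ≤ 1) :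
    UR C.μ l (qr q ζ) (qr q (C.ν ^ 2 * ζ)) + UR C.μ l (qr q ζ) (qr q ((C.ν ^ 2)⁻¹ * ζ)) = 0 := by
  have h1 := S.eq _ (sl_mem one_pos h)
  unfold Cst.Ef at h1
  have h32 : ‖ζ‖ ≤ 3 / 2 := by linarith
  have n1 : ‖C.ν ^ 2 * ζ‖ ≤ 3 / 2 := by rw [norm_mul, C.hω, one_mul]; exact h32
  have n2 : ‖(C.ν ^ 2)⁻¹ * ζ‖ ≤ 3 / 2 := by rw [norm_mul, C.hω', one_mul]; exact h32
  rw [rot_sl C.hω, rot_sl C.hω', S.q_real h32, S.q_real n1, S.q_real n2, Uf_real, Uf_real] at h1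
  exact_mod_cast h1

/-- coordinates of the line -/
noncomputable def Psi (C : Cst) (q : ℂ × ℂ → ℂ) (l : ℕ → ℝ) (ζ : ℂ) : ℝ × ℝ :=
  (C.μ * qr q ζ, C.μ * UR C.μ l (qr q ζ) (qr q (C.ν ^ 2 * ζ)))

lemma Sol.NLl (S : Sol C η q l) : ∃ M, NL (3 / 2) M l := by
  have h1 := S.bl.add (llin_NL C (R := 3 / 2))
  have e : (fun j => (l j - C.llin j) + C.llin j) = l := by funext j; ring
  rw [e] at h1
  exact ⟨_, h1⟩

lemma Cst.q1_ge (C : Cst) : 1 ≤ |C.q1| := by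
  have h := C.hq1
  have h1 : ‖(C.q1 : ℂ) * (C.ν + C.ν⁻¹)‖ = 2 := by rw [h]; norm_num
  rw [norm_mul, Complex.norm_real, Real.norm_eq_abs] at h1
  have h2 : ‖C.ν + C.ν⁻¹‖ ≤ 2 := (norm_add_le _ _).trans (by rw [C.hν, C.hν']; norm_num)
  have h3 := abs_nonneg C.q1
  nlinarith

/-- derivative of `q` at the origin -/
lemma Sol.q_deriv (S : Sol C η q l) (hη : η ≤ 1 / 2) :
    ∃ a : ℝ, a ≠ 0 ∧ HasFDerivAt (qr q) (a • Complex.reCLM) 0 := by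
  obtain ⟨gz, gw, hz, hw, hd⟩ := B_hasFDerivAt (by norm_num : (0 : ℝ) < 3 / 2) (by norm_num : (0 : ℝ) < 1 / 2) (by norm_num) S.bq
  have h0 : (0 : ℂ × ℂ) ∈ OB (3 / 2 * (1 / 2)) := by constructor <;> norm_num
  have h1 := hd 0 h0
  have h2 : HasFDerivAt (fun p : ℂ × ℂ => (C.q1 : ℂ) * (p.1 + p.2)) ((C.q1 : ℂ) • (ContinuousLinearMap.fst ℂ ℂ ℂ + ContinuousLinearMap.snd ℂ ℂ ℂ)) 0 :=
    (hasFDerivAt_fst.add hasFDerivAt_snd).const_mul _
  have h3 := h1.add h2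
  have e3 : (fun p : ℂ × ℂ => q p - C.q1 * (p.1 + p.2)) + (fun p : ℂ × ℂ => (C.q1 : ℂ) * (p.1 + p.2)) = q := by
    funext p; simp
  rw [e3] at h3
  -- symmetry
  have hOBn : OB (3 / 2) ∈ 𝓝 (0 : ℂ × ℂ) := (OB_open _).mem_nhds (by constructor <;> norm_num)
  have gzw : gz 0 = gw 0 := by
    have d1 : HasDerivAt (fun z : ℂ => q (z, 0)) (gz 0 + C.q1) 0 := by
      have hh : HasDerivAt (fun z : ℂ => ((z, 0) : ℂ × ℂ)) (1, 0) 0 := (hasDerivAt_id 0).prodMk (hasDerivAt_const 0 0)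
      have := HasFDerivAt.comp_hasDerivAt (x := (0 : ℂ)) (l := q) (f := fun z : ℂ => ((z, 0) : ℂ × ℂ)) h3 hh
      refine this.congr_deriv ?_
      simp
    have d2 : HasDerivAt (fun w : ℂ => q (0, w)) (gw 0 + C.q1) 0 := by
      have hh : HasDerivAt (fun w : ℂ => ((0, w) : ℂ × ℂ)) (0, 1) 0 := (hasDerivAt_const 0 0).prodMk (hasDerivAt_id 0)
      have := HasFDerivAt.comp_hasDerivAt (x := (0 : ℂ)) (l := q) (f := fun w : ℂ => ((0, w) : ℂ × ℂ)) h3 hh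
      refine this.congr_deriv ?_
      simp
    have hev : (fun w : ℂ => q (0, w)) =ᶠ[𝓝 0] fun z : ℂ => q (z, 0) := by
      filter_upwards [Metric.ball_mem_nhds (0 : ℂ) (by norm_num : (0 : ℝ) < 3 / 2)] with z hz
      rw [mem_ball_zero_iff] at hz
      have := S.sym (z, 0) (by rw [mem_S2 (by norm_num)]; exact ⟨hz.le, by simp; norm_num⟩)
      exact this
    have := d2.unique (d1.congr_of_eventuallyEq hev)
    linear_combination -this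
  -- the slice
  have h4 := h3.restrictScalars ℝ
  have hsl : HasFDerivAt sl ((ContinuousLinearMap.id ℝ ℂ).prod (Complex.conjCLE : ℂ →L[ℝ] ℂ)) 0 :=
    (hasFDerivAt_id _).prodMk (Complex.conjCLE.hasFDerivAt)
  have hsl0 : sl 0 = 0 := by unfold sl; simp
  have h5 : HasFDerivAt (fun ζ => q (sl ζ)) _ 0 := HasFDerivAt.comp (x := (0 : ℂ)) (g := q) (f := sl) (by rw [hsl0]; exact h4) hsl
  have h6 := (Complex.reCLM.hasFDerivAt (x := q (sl 0))).comp 0 h5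
  refine ⟨2 * ((gz 0).re + C.q1), ?_, ?_⟩
  · have h7 := hz.norm_le (p := 0) (by rw [mem_S2 (by norm_num)]; constructor <;> norm_num)
    have h8 := (Complex.abs_re_le_norm (gz 0)).trans h7
    have h9 := C.q1_ge
    intro h0
    have h10 : C.q1 = -(gz 0).re := by linarith
    rw [h10, abs_neg] at h9
    have : (1 / (3 / 2 * (1 - 1 / 2)) * η : ℝ) < 1 := by norm_num; linarith
    linarith
  · refine h6.congr_fderiv ?_
    ext v
    simp [gzw]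
    try ring

end sol

end Pool.Agent.Helper649.Bil
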