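import Pool.Agent.Helper649.BilDec
import Pool.Agent.Helper649.BilComb

set_option autoImplicit false

namespace Pool.Agent.Helper649.Bil

open Complex Finset

section gen

variable {Ω ι : Type} [AddCommMonoid ι] {S : Sys Ω ι}

lemma poly_B {R : ℝ} {Z Y : Ω → ℂ} (hZ : S.B R Z) (hY : S.B R Y) (a b : ℕ) :
    S.B ((∑ p ∈ range (2 * a + 2 * b + 1), |(Pq (2 * a) (2 * b)).coeff p|) * R ^ (2 * (a + b)))
      (fun x => (Z x + Y x) ^ (2 * a) * (Z x - Y x) ^ (2 * b)) := by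
  have h := Sys.B.finset_sum (S := S) (C := fun p => |(Pq (2 * a) (2 * b)).coeff p| * R ^ (2 * (a + b)))
    (f := fun p x => ((Pq (2 * a) (2 * b)).coeff p : ℂ) * (Z x ^ p * Y x ^ (2 * a + 2 * b - p)))
    (range (2 * a + 2 * b + 1)) (fun p hp => by
      have h1 := ((hZ.pow p).mul (hY.pow (2 * a + 2 * b - p))).const_mul (((Pq (2 * a) (2 * b)).coeff p : ℝ) : ℂ)
      refine h1.mono ?_
      rw [Complex.norm_real, Real.norm_eq_abs, ← pow_add]
      have := Finset.mem_range.mp hp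
      have e : p + (2 * a + 2 * b - p) = 2 * (a + b) := by omega
      rw [e])
  rw [← Finset.sum_mul] at h
  refine h.congr (fun x _ => ?_)
  rw [homog]

/-- power bound: the key to composition without loss -/
lemma X_pow_B {R σ : ℝ} {Z Y s2 : Ω → ℂ} (hZ : S.B R Z) (hY : S.B R Y) (hs : S.B σ s2) (hσ : σ ≤ 1 / 4)
    (k : ℕ) : S.B (2 * (2 * (k : ℝ) + 1) * (4 * R ^ 2) ^ k)
      (fun x => ((Z x + Y x) ^ 2 + (Z x - Y x) ^ 2 * s2 x) ^ k) := by
  have hR := hZ.nonneg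
  have hσ0 := hs.nonneg
  have h := Sys.B.finset_sum (S := S)
    (C := fun m => (2 * (k : ℝ) + 1) * (4 * R ^ 2) ^ k * (1 / 2) ^ (k - m))
    (f := fun m x => ((Z x + Y x) ^ 2) ^ m * ((Z x - Y x) ^ 2 * s2 x) ^ (k - m) * (k.choose m : ℂ))
    (range (k + 1)) (fun m hm => by
      have hmk : m ≤ k := Nat.lt_succ_iff.mp (Finset.mem_range.mp hm)
      obtain ⟨b, rfl⟩ : ∃ b, k = m + b := ⟨k - m, by omega⟩
      have e0 : m + b - m = b := by omega
      rw [e0]
      have h1 := ((poly_B hZ hY m b).mul (hs.pow b)).const_mul (((m + b).choose m : ℝ) : ℂ)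
      have e : (fun p => ((((m + b).choose m : ℝ) : ℂ)) * ((Z p + Y p) ^ (2 * m) * (Z p - Y p) ^ (2 * b) * s2 p ^ b))
          = fun x => ((Z x + Y x) ^ 2) ^ m * ((Z x - Y x) ^ 2 * s2 x) ^ b * (((m + b).choose m : ℕ) : ℂ) := by
        funext x
        generalize Z x + Y x = u
        generalize Z x - Y x = v
        push_cast; ring
      rw [e] at h1
      refine h1.mono ?_
      rw [Complex.norm_real, Real.norm_eq_abs, abs_of_nonneg (by positivity)]
      have h2 := comb_sum m b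
      have h3 : σ ^ b ≤ (1 / 4) ^ b := pow_le_pow_left₀ hσ0 hσ b
      calc ((m + b).choose m : ℝ) * ((∑ p ∈ range (2 * m + 2 * b + 1), |(Pq (2 * m) (2 * b)).coeff p|) * R ^ (2 * (m + b)) * σ ^ b)
          = (((m + b).choose m : ℝ) * (∑ p ∈ range (2 * m + 2 * b + 1), |(Pq (2 * m) (2 * b)).coeff p|)) * R ^ (2 * (m + b)) * σ ^ b := by ring
        _ ≤ ((2 * ((m + b : ℕ) : ℝ) + 1) * 2 ^ b * 4 ^ (m + b)) * R ^ (2 * (m + b)) * (1 / 4) ^ b := by gcongr
        _ = (2 * ((m + b : ℕ) : ℝ) + 1) * (4 * R ^ 2) ^ (m + b) * (1 / 2) ^ b := by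
            have : (2 : ℝ) ^ b * (1 / 4) ^ b = (1 / 2) ^ b := by rw [← mul_pow]; norm_num
            calc _ = (2 * ((m + b : ℕ) : ℝ) + 1) * (4 ^ (m + b) * (R ^ 2) ^ (m + b)) * (2 ^ b * (1 / 4) ^ b) := by
                  rw [← pow_mul]; ring
              _ = _ := by rw [this, mul_pow])
  have h2 : ∑ m ∈ range (k + 1), (2 * (k : ℝ) + 1) * (4 * R ^ 2) ^ k * (1 / 2 : ℝ) ^ (k - m)
      ≤ 2 * (2 * (k : ℝ) + 1) * (4 * R ^ 2) ^ k := by
    rw [← Finset.mul_sum]
    have e1 : ∑ m ∈ range (k + 1), (1 / 2 : ℝ) ^ (k - m) = ∑ m ∈ range (k + 1), (1 / 2 : ℝ) ^ m := by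
      have := Finset.sum_range_reflect (fun m => (1 / 2 : ℝ) ^ m) (k + 1)
      rw [← this]
      refine Finset.sum_congr rfl (fun m _ => ?_)
      congr 1
    have e2 : ∑ m ∈ range (k + 1), (1 / 2 : ℝ) ^ m ≤ 2 := by
      have h3 := (summable_geometric_of_lt_one (r := (1 / 2 : ℝ)) (by norm_num) (by norm_num)).sum_le_tsum (range (k + 1))
        (fun i _ => by positivity)
      rw [tsum_geometric_of_lt_one (by norm_num) (by norm_num)] at h3
      norm_num at h3 ⊢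
      exact h3
    rw [e1]
    have : (0 : ℝ) ≤ (2 * (k : ℝ) + 1) * (4 * R ^ 2) ^ k := by positivity
    nlinarith
  refine (h.mono h2).congr (fun x _ => ?_)
  exact (add_pow _ _ k).symm

end gen

end Pool.Agent.Helper649.Bil
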