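import Pool.Agent.Helper649.BilThree

set_option autoImplicit false

namespace Pool.Agent.Helper649.Bil

open Complex

section gen

variable {Ω ι : Type} [AddCommMonoid ι] {S : Sys Ω ι}

/-- Bound by a power of a large constant times a power of the error. -/
def Q (S : Sys Ω ι) (Λ ε : ℝ) (n k : ℕ) (f : Ω → ℂ) : Prop := S.B (Λ ^ n * ε ^ k) f

lemma Q.up {Λ ε : ℝ} {n k p : ℕ} {f : Ω → ℂ} (h : Q S Λ ε n k f) (hΛ : 2 ≤ Λ) (hε : 0 ≤ ε) (hp : n ≤ p) :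
    Q S Λ ε p k f := by
  refine Sys.B.mono h ?_
  have : Λ ^ n ≤ Λ ^ p := pow_le_pow_right₀ (by linarith) hp
  gcongr

lemma Q.congr {Λ ε : ℝ} {n k : ℕ} {f g : Ω → ℂ} (h : Q S Λ ε n k f) (hfg : ∀ p ∈ S.D, f p = g p) :
    Q S Λ ε n k g := Sys.B.congr h hfg

lemma Q.add {Λ ε : ℝ} {n m k p : ℕ} {f g : Ω → ℂ} (hf : Q S Λ ε n k f) (hg : Q S Λ ε m k g)
    (hΛ : 2 ≤ Λ) (hε : 0 ≤ ε) (hn : n + 1 ≤ p) (hm : m + 1 ≤ p) :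
    Q S Λ ε p k (fun t => f t + g t) := by
  have h := Sys.B.add hf hg
  refine h.mono ?_
  have hΛ1 : 1 ≤ Λ := by linarith
  have h1 : Λ ^ n ≤ Λ ^ (p - 1) := pow_le_pow_right₀ hΛ1 (by omega)
  have h2 : Λ ^ m ≤ Λ ^ (p - 1) := pow_le_pow_right₀ hΛ1 (by omega)
  have h3 : Λ ^ p = Λ ^ (p - 1) * Λ := by rw [← pow_succ]; congr 1; omega
  have h4 : 0 ≤ Λ ^ (p - 1) := by positivity
  rw [← add_mul]
  have : Λ ^ n + Λ ^ m ≤ Λ ^ p := by rw [h3]; nlinarith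
  gcongr

lemma Q.neg {Λ ε : ℝ} {n k : ℕ} {f : Ω → ℂ} (hf : Q S Λ ε n k f) : Q S Λ ε n k (fun t => -f t) :=
  Sys.B.neg hf

lemma Q.sub {Λ ε : ℝ} {n m k p : ℕ} {f g : Ω → ℂ} (hf : Q S Λ ε n k f) (hg : Q S Λ ε m k g)
    (hΛ : 2 ≤ Λ) (hε : 0 ≤ ε) (hn : n + 1 ≤ p) (hm : m + 1 ≤ p) :
    Q S Λ ε p k (fun t => f t - g t) := by
  have := hf.add hg.neg hΛ hε hn hm
  simpa [sub_eq_add_neg] using this

lemma Q.mul {Λ ε : ℝ} {n m k l p j : ℕ} {f g : Ω → ℂ} (hf : Q S Λ ε n k f) (hg : Q S Λ ε m l g)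
    (hΛ : 2 ≤ Λ) (hε : 0 ≤ ε) (hn : n + m ≤ p) (hm : k + l = j) :
    Q S Λ ε p j (fun t => f t * g t) := by
  have h := Sys.B.mul hf hg
  have e : Λ ^ n * ε ^ k * (Λ ^ m * ε ^ l) = Λ ^ (n + m) * ε ^ j := by
    rw [← hm, pow_add, pow_add]; ring
  rw [e] at h
  exact Q.up h hΛ hε hn

lemma Q.cmul {Λ ε : ℝ} {n k : ℕ} {f : Ω → ℂ} (c : ℂ) (hc : ‖c‖ ≤ 1) (hf : Q S Λ ε n k f)
    (hΛ : 2 ≤ Λ) (hε : 0 ≤ ε) :
    Q S Λ ε n k (fun t => c * f t) := by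
  have h := Sys.B.const_mul c hf
  refine h.mono ?_
  have : 0 ≤ Λ ^ n * ε ^ k := by positivity
  nlinarith

lemma Q.of_B {Λ ε M : ℝ} {n k : ℕ} {f : Ω → ℂ} (hf : S.B M f) (hM : M ≤ Λ ^ n * ε ^ k) : Q S Λ ε n k f :=
  hf.mono hM

end gen

lemma Q_r {r r' Λ ε : ℝ} {n k : ℕ} {f : ℂ × ℂ → ℂ} (hf : Q (S2 r) Λ ε n k f) (hr' : 0 < r') (h : r' ≤ r) :
    Q (S2 r') Λ ε n k f := B_rmono hr' h hf le_rfl

lemma Q_rot {r Λ ε : ℝ} {n k : ℕ} {f : ℂ × ℂ → ℂ} {l : ℂ} (hl : ‖l‖ = 1) (hf : Q (S2 r) Λ ε n k f) :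
    Q (S2 r) Λ ε n k (fun p => f (rot l p)) := B_rot hl hf

/-- homogeneous part of `Uf` in `l` -/
noncomputable def Uh (μ : ℝ) (l : ℕ → ℝ) (a b : ℂ) : ℂ :=
  2 * ((a + b) / 2) * Lf (dl l) (((a + b) / 2) ^ 2) * Complex.cos (μ * ((b - a) / 2))
    + ((μ : ℂ) ^ 2 * Lf l (((a + b) / 2) ^ 2)) * (Complex.sin (μ * ((b - a) / 2)) / μ)

noncomputable def S12h (μ : ℝ) (l : ℕ → ℝ) (a b : ℂ) : ℂ :=
  (Lf (dl l) (((a + b) / 2) ^ 2) + 2 * ((a + b) / 2) ^ 2 * Lf (dl (dl l)) (((a + b) / 2) ^ 2)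
    + 1 / 2 * ((μ : ℂ) ^ 2 * Lf l (((a + b) / 2) ^ 2))) * Complex.cos (μ * ((b - a) / 2))

lemma Uf_eq (μ : ℝ) (l : ℕ → ℝ) (a b : ℂ) :
    Uf μ l a b = Uh μ l a b + Complex.sin (μ * ((b - a) / 2)) / μ := by
  unfold Uf Uh; ring

lemma S12f_eq (μ : ℝ) (l : ℕ → ℝ) (a b : ℂ) :
    S12f μ l a b = S12h μ l a b + 1 / 2 * Complex.cos (μ * ((b - a) / 2)) := by
  unfold S12f S12h; ring

lemma NL.summable {r M : ℝ} {l : ℕ → ℝ} (h : NL r M l) {y : ℂ} (hy : ‖y‖ ≤ 4 * r ^ 2) :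
    Summable (fun j => (l j : ℂ) * y ^ j) := by
  apply Summable.of_norm
  refine Summable.of_nonneg_of_le (fun _ => norm_nonneg _) (fun j => ?_) h.1
  rw [norm_mul, norm_pow, Complex.norm_real, Real.norm_eq_abs]
  have := pow_le_pow_left₀ (norm_nonneg _) hy j
  gcongr

lemma Lf_add {r M N : ℝ} {l k : ℕ → ℝ} (h : NL r M l) (h' : NL r N k) {y : ℂ} (hy : ‖y‖ ≤ 4 * r ^ 2) :
    Lf (fun j => l j + k j) y = Lf l y + Lf k y := by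
  unfold Lf
  rw [← (h.summable hy).tsum_add (h'.summable hy)]
  exact tsum_congr (fun j => by push_cast; ring)

lemma dl_add (l k : ℕ → ℝ) : dl (fun j => l j + k j) = fun j => dl l j + dl k j := by
  funext j; unfold dl; ring

section fam

variable {Ω ι : Type} [AddCommMonoid ι] {S : Sys Ω ι}

/-- the argument of the curvature function -/
def xx (Z Y st : Ω → ℂ) (x : Ω) : ℂ := (Z x + Y x) + (Z x - Y x) ^ 2 * st x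

def ss (Z Y st : Ω → ℂ) (x : Ω) : ℂ := 2 * (Z x + Y x) * st x + (Z x - Y x) ^ 2 * st x ^ 2

lemma xx_sq (Z Y st : Ω → ℂ) (x : Ω) :
    xx Z Y st x ^ 2 = (Z x + Y x) ^ 2 + (Z x - Y x) ^ 2 * ss Z Y st x := by
  unfold xx ss; ring

lemma ss_B {ρ σ : ℝ} {Z Y st : Ω → ℂ} (hZ : S.B ρ Z) (hY : S.B ρ Y) (hst : S.B σ st) (hρ2 : ρ ≤ 2)
    (hσ : σ ≤ 1 / 200) : S.B (1 / 16) (ss Z Y st) := by
  have hρ := hZ.nonneg
  have hσ0 := hst.nonneg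
  have h1 := ((hZ.add hY).const_mul 2).mul hst
  have h2 := ((hZ.sub hY).pow 2).mul (hst.pow 2)
  refine (h1.add h2).mono ?_
  have : ‖(2 : ℂ)‖ = 2 := by norm_num
  rw [this]
  have h3 : ρ * σ ≤ 2 * (1 / 200) := by gcongr
  have h4 : (ρ * σ) ^ 2 ≤ (2 * (1 / 200)) ^ 2 := by gcongr
  nlinarith

lemma xx_B {ρ σ : ℝ} {Z Y st : Ω → ℂ} (hZ : S.B ρ Z) (hY : S.B ρ Y) (hst : S.B σ st) (hρ2 : ρ ≤ 2)
    (hσ : σ ≤ 1 / 200) : S.B 5 (xx Z Y st) := by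
  have hρ := hZ.nonneg
  have hσ0 := hst.nonneg
  have h1 := (hZ.add hY).add (((hZ.sub hY).pow 2).mul hst)
  refine h1.mono ?_
  have h3 : (ρ + ρ) ^ 2 * σ ≤ (2 + 2) ^ 2 * (1 / 200) := by gcongr
  nlinarith

/-- bounds for the functions of the square -/
lemma fam_L {r s σ M Λ : ℝ} {l : ℕ → ℝ} {Z Y st : Ω → ℂ} (hΛ : 400 ≤ Λ) (hs0 : 0 < s) (hs1 : s < 1)
    (hsΛ : 1 / (1 - s) ≤ Λ) (hr : 1 ≤ r) (hr2 : r * s ^ 3 ≤ 2) (h1rs : 1 ≤ r * s ^ 3) (h : NL r M l) (hZ : S.B (r * s ^ 3) Z)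
    (hY : S.B (r * s ^ 3) Y) (hst : S.B σ st) (hσ : σ ≤ 1 / 200) :
    S.B (Λ ^ 2 * M) (fun x => Lf l (xx Z Y st x ^ 2)) ∧
    S.B (Λ ^ 3 * M) (fun x => Lf (dl l) (xx Z Y st x ^ 2)) ∧
    S.B (Λ ^ 4 * M) (fun x => Lf (dl (dl l)) (xx Z Y st x ^ 2)) := by
  have hM := h.nonneg
  have hr0 : 0 < r := by linarith
  have h1s : 0 < 1 - s := by linarith
  have hs3 : s ^ 3 ≤ s ^ 2 := pow_le_pow_of_le_one hs0.le hs1.le (by norm_num)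
  have hs2 : s ^ 2 ≤ s := by nlinarith
  have hρ2 : r * s ^ 3 ≤ 2 := hr2
  have hss := ss_B hZ hY hst hρ2 hσ
  have h1rs1 : 1 ≤ r * s := by nlinarith
  have h1rs2 : 1 ≤ r * s ^ 2 := by nlinarith
  have hd1 := NL.deriv hr hs0 hs1 h
  have hd2 := NL.deriv h1rs1 hs0 hs1 hd1
  have hZ1 : S.B (r * s) Z := hZ.mono (by nlinarith)
  have hY1 : S.B (r * s) Y := hY.mono (by nlinarith)
  have e2 : r * s * s = r * s ^ 2 := by ring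
  have e3 : r * s * s * s = r * s ^ 3 := by ring
  have hZ2 : S.B (r * s * s) Z := hZ.mono (by rw [e2]; nlinarith)
  have hY2 : S.B (r * s * s) Y := hY.mono (by rw [e2]; nlinarith)
  have hZ3 : S.B (r * s * s * s) Z := by rw [e3]; exact hZ
  have hY3 : S.B (r * s * s * s) Y := by rw [e3]; exact hY
  have c1 := (NL.comp (S := S) hs0 hs1 hr0 h hZ1 hY1 hss (by norm_num)).1
  have c2 := (NL.comp (S := S) hs0 hs1 (by positivity) hd1 hZ2 hY2 hss (by norm_num)).1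
  have c3 := (NL.comp (S := S) hs0 hs1 (by positivity) hd2 hZ3 hY3 hss (by norm_num)).1
  have hL0 : 0 ≤ 1 / (1 - s) := by positivity
  have h4 : 4 / (1 - s) ≤ Λ ^ 2 := by
    have : 4 / (1 - s) = 4 * (1 / (1 - s)) := by ring
    rw [this]; nlinarith
  have hΛ0 : 0 ≤ Λ := by linarith
  refine ⟨(c1.mono ?_).congr (fun x _ => by rw [xx_sq]), (c2.mono ?_).congr (fun x _ => by rw [xx_sq]),
    (c3.mono ?_).congr (fun x _ => by rw [xx_sq])⟩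
  · gcongr
  · calc 4 / (1 - s) * (1 / (1 - s) * M) ≤ Λ ^ 2 * (Λ * M) := by gcongr
      _ = Λ ^ 3 * M := by ring
  · calc 4 / (1 - s) * (1 / (1 - s) * (1 / (1 - s) * M)) ≤ Λ ^ 2 * (Λ * (Λ * M)) := by gcongr
      _ = Λ ^ 4 * M := by ring

/-- bounds for the homogeneous parts -/
lemma fam_h {r s σ M Λ μ MD : ℝ} {l : ℕ → ℝ} {Z Y st D a b : Ω → ℂ} (hΛ : 400 ≤ Λ) (hs0 : 0 < s) (hs1 : s < 1)
    (hsΛ : 1 / (1 - s) ≤ Λ) (hr : 1 ≤ r) (hr2 : r * s ^ 3 ≤ 2) (h1rs : 1 ≤ r * s ^ 3) (h : NL r M l) (hZ : S.B (r * s ^ 3) Z)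
    (hY : S.B (r * s ^ 3) Y) (hst : S.B σ st) (hσ : σ ≤ 1 / 200) (hD : S.B MD D) (hMD : MD ≤ Λ)
    (hcosh : Real.cosh MD ≤ Λ) (hμ0 : 0 < μ) (hμ1 : μ ≤ 1)
    (hx : ∀ x ∈ S.D, (a x + b x) / 2 = xx Z Y st x) (hd : ∀ x ∈ S.D, (b x - a x) / 2 = D x) :
    S.B (Λ ^ 7 * M) (fun x => Uh μ l (a x) (b x)) ∧
    S.B (Λ ^ 8 * M) (fun x => S12h μ l (a x) (b x)) ∧
    S.B (Λ ^ 4 * M) (fun x => Lf l (((a x + b x) / 2) ^ 2) * Complex.cos (μ * ((b x - a x) / 2))) ∧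
    S.B (Λ ^ 2) (fun x => Complex.sin (μ * ((b x - a x) / 2)) / μ) ∧
    S.B (Λ ^ 2) (fun x => Complex.cos (μ * ((b x - a x) / 2))) ∧
    S.B Λ (fun x => (Complex.cos (μ * ((b x - a x) / 2)) - 1) / (μ : ℂ) ^ 2) := by
  have hM := h.nonneg
  have hΛ0 : 0 ≤ Λ := by linarith
  have hs3 : s ^ 3 ≤ 1 := pow_le_one₀ hs0.le hs1.le
  have hρ2 : r * s ^ 3 ≤ 2 := hr2
  obtain ⟨c1, c2, c3⟩ := fam_L (S := S) hΛ hs0 hs1 hsΛ hr hr2 h1rs h hZ hY hst hσ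
  have hxB := xx_B hZ hY hst hρ2 hσ
  have hμc : (μ : ℂ) ≠ 0 := by exact_mod_cast hμ0.ne'
  have hcos := cos_B hD hμ0.le hμ1
  have hsin := sin_B hD hμ0 hμ1
  have hμ2 : μ ^ 2 ≤ 1 := pow_le_one₀ hμ0.le hμ1
  have hch := Real.cosh_pos MD
  have hcosB : S.B (Λ ^ 2) (fun x => Complex.cos (μ * D x)) := by
    have h1 := hcos.add (Sys.B.const S 1)
    simp only [sub_add_cancel, norm_one] at h1
    refine h1.mono ?_
    nlinarith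
  have hsinB : S.B (Λ ^ 2) (fun x => Complex.sin (μ * D x) / μ) := by
    have h1 := hsin.add hD
    simp only [sub_add_cancel] at h1
    refine h1.mono ?_
    nlinarith
  have hverB : S.B Λ (fun x => (Complex.cos (μ * D x) - 1) / (μ : ℂ) ^ 2) := by
    have h1 := hcos.const_mul (((μ : ℂ) ^ 2)⁻¹)
    refine (h1.mono ?_).congr (fun x _ => by rw [div_eq_inv_mul])
    rw [norm_inv, norm_pow, Complex.norm_real, Real.norm_of_nonneg hμ0.le]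
    have : (μ ^ 2)⁻¹ * (μ ^ 2 * Real.cosh MD) = Real.cosh MD := by field_simp
    rw [this]; exact hcosh
  have hμn : ‖(μ : ℂ) ^ 2‖ ≤ 1 := by
    rw [norm_pow, Complex.norm_real, Real.norm_of_nonneg hμ0.le]; exact hμ2
  have hl1 := c1.const_mul ((μ : ℂ) ^ 2)
  have hl1' : S.B (Λ ^ 2 * M) (fun x => (μ : ℂ) ^ 2 * Lf l (xx Z Y st x ^ 2)) := by
    refine hl1.mono ?_
    have : 0 ≤ Λ ^ 2 * M := by positivity
    nlinarith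
  have hx2 : S.B Λ (fun x => 2 * xx Z Y st x) := by
    have h1 := hxB.const_mul 2
    refine h1.mono ?_
    have : ‖(2 : ℂ)‖ = 2 := by norm_num
    rw [this]; linarith
  have hΛ4 : 2 * Λ ^ 4 ≤ Λ ^ 6 := by
    have : 2 ≤ Λ ^ 2 := by nlinarith
    calc 2 * Λ ^ 4 ≤ Λ ^ 2 * Λ ^ 4 := by gcongr
      _ = Λ ^ 6 := by ring
  refine ⟨?_, ?_, ?_, ?_, ?_, ?_⟩
  · have h1 := ((hx2.mul c2).mul hcosB).add (hl1'.mul hsinB)
    refine (h1.mono ?_).congr (fun x hxD => ?_)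
    · calc Λ * (Λ ^ 3 * M) * Λ ^ 2 + Λ ^ 2 * M * Λ ^ 2 = (Λ ^ 6 + Λ ^ 4) * M := by ring
        _ ≤ (Λ ^ 6 + Λ ^ 6) * M := by
            have : Λ ^ 4 ≤ Λ ^ 6 := pow_le_pow_right₀ (by linarith) (by norm_num)
            gcongr
        _ = 2 * Λ ^ 6 * M := by ring
        _ ≤ Λ * Λ ^ 6 * M := by
            have : (2 : ℝ) ≤ Λ := by linarith
            gcongr
        _ = Λ ^ 7 * M := by ring
    · unfold Uh; rw [hx x hxD, hd x hxD]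
  · have h0 := ((hxB.pow 2).const_mul 2).mul c3
    have h1 := (c2.add h0).add (hl1'.const_mul (1 / 2 : ℂ))
    have h2 := h1.mul hcosB
    refine (h2.mono ?_).congr (fun x hxD => ?_)
    · have n2 : ‖(2 : ℂ)‖ = 2 := by norm_num
      have n3 : ‖(1 / 2 : ℂ)‖ = 1 / 2 := by norm_num
      rw [n2, n3]
      calc (Λ ^ 3 * M + 2 * 5 ^ 2 * (Λ ^ 4 * M) + 1 / 2 * (Λ ^ 2 * M)) * Λ ^ 2
          = (Λ ^ 5 + 50 * Λ ^ 6 + 1 / 2 * Λ ^ 4) * M := by ring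
        _ ≤ (Λ ^ 6 + 50 * Λ ^ 6 + 1 / 2 * Λ ^ 6) * M := by
            have h5 : Λ ^ 4 ≤ Λ ^ 6 := pow_le_pow_right₀ (by linarith) (by norm_num)
            have h6 : Λ ^ 5 ≤ Λ ^ 6 := pow_le_pow_right₀ (by linarith) (by norm_num)
            gcongr
        _ = (103 / 2) * Λ ^ 6 * M := by ring
        _ ≤ Λ ^ 2 * Λ ^ 6 * M := by
            have : (103 / 2 : ℝ) ≤ Λ ^ 2 := by nlinarith
            gcongr
        _ = Λ ^ 8 * M := by ring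
    · unfold S12h; rw [hx x hxD, hd x hxD]
  · have h1 := c1.mul hcosB
    refine (h1.mono (le_of_eq (by ring))).congr (fun x hxD => ?_)
    rw [hx x hxD, hd x hxD]
  · exact hsinB.congr (fun x hxD => by rw [hd x hxD])
  · exact hcosB.congr (fun x hxD => by rw [hd x hxD])
  · exact hverB.congr (fun x hxD => by rw [hd x hxD])

/-- bounds for the full functions -/
lemma fam_f {r s σ M Λ μ MD : ℝ} {l : ℕ → ℝ} {Z Y st D a b : Ω → ℂ} (hΛ : 400 ≤ Λ) (hs0 : 0 < s) (hs1 : s < 1)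
    (hsΛ : 1 / (1 - s) ≤ Λ) (hr : 1 ≤ r) (hr2 : r * s ^ 3 ≤ 2) (h1rs : 1 ≤ r * s ^ 3) (h : NL r M l) (hMΛ : M ≤ Λ) (hZ : S.B (r * s ^ 3) Z)
    (hY : S.B (r * s ^ 3) Y) (hst : S.B σ st) (hσ : σ ≤ 1 / 200) (hD : S.B MD D) (hMD : MD ≤ Λ)
    (hcosh : Real.cosh MD ≤ Λ) (hμ0 : 0 < μ) (hμ1 : μ ≤ 1)
    (hx : ∀ x ∈ S.D, (a x + b x) / 2 = xx Z Y st x) (hd : ∀ x ∈ S.D, (b x - a x) / 2 = D x) :
    S.B (Λ ^ 9) (fun x => Uf μ l (a x) (b x)) ∧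
    S.B (Λ ^ 10) (fun x => S12f μ l (a x) (b x)) ∧
    S.B (Λ ^ 6) (fun x => Wf μ l (a x) (b x)) := by
  obtain ⟨h1, h2, h3, h4, h5, h6⟩ := fam_h (S := S) hΛ hs0 hs1 hsΛ hr hr2 h1rs h hZ hY hst hσ hD hMD hcosh hμ0 hμ1 hx hd
  have hΛ0 : 0 ≤ Λ := by linarith
  have hΛ1 : 1 ≤ Λ := by linarith
  have key : ∀ n : ℕ, 2 * Λ ^ n ≤ Λ ^ (n + 1) := fun n => by
    rw [pow_succ, mul_comm]
    have : 0 ≤ Λ ^ n := by positivity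
    nlinarith
  have hle : ∀ m n : ℕ, m ≤ n → Λ ^ m ≤ Λ ^ n := fun m n hmn => pow_le_pow_right₀ hΛ1 hmn
  refine ⟨?_, ?_, ?_⟩
  · refine ((h1.add h4).mono ?_).congr (fun x _ => (Uf_eq _ _ _ _).symm)
    have e1 : Λ ^ 7 * M ≤ Λ ^ 8 := by
      calc Λ ^ 7 * M ≤ Λ ^ 7 * Λ := by gcongr
        _ = Λ ^ 8 := by ring
    have k8 : 2 * Λ ^ 8 ≤ Λ ^ 9 := key 8
    have k2 := hle 2 8 (by norm_num)
    linarith
  · have h5' := h5.const_mul (1 / 2 : ℂ)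
    refine ((h2.add h5').mono ?_).congr (fun x _ => (S12f_eq _ _ _ _).symm)
    have n3 : ‖(1 / 2 : ℂ)‖ = 1 / 2 := by norm_num
    rw [n3]
    have e1 : Λ ^ 8 * M ≤ Λ ^ 9 := by
      calc Λ ^ 8 * M ≤ Λ ^ 8 * Λ := by gcongr
        _ = Λ ^ 9 := by ring
    have : 0 ≤ Λ ^ 2 := by positivity
    have k8 : 2 * Λ ^ 9 ≤ Λ ^ 10 := key 9
    have k2 := hle 2 9 (by norm_num)
    linarith
  · refine ((h3.add h6).mono ?_).congr (fun x _ => by unfold Wf; rfl)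
    have e1 : Λ ^ 4 * M ≤ Λ ^ 5 := by
      calc Λ ^ 4 * M ≤ Λ ^ 4 * Λ := by gcongr
        _ = Λ ^ 5 := by ring
    have e2 : Λ ≤ Λ ^ 5 := by
      have := hle 1 5 (by norm_num)
      rwa [pow_one] at this
    have k8 : 2 * Λ ^ 5 ≤ Λ ^ 6 := key 5
    linarith

end fam

end Pool.Agent.Helper649.Bil
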