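import Pool.Agent.Helper649.BilP

set_option autoImplicit false

namespace Pool.Agent.Helper649.Bil

open Complex Filter Topology

lemma NL.term {R M : ℝ} {k : ℕ → ℝ} (h : NL R M k) (j : ℕ) : |k j| * (4 * R ^ 2) ^ j ≤ M :=
  (h.1.le_tsum j (fun i _ => by positivity)).trans h.2

lemma UR_contDiffAt {μ M : ℝ} {l : ℕ → ℝ} (h : NL (3 / 2) M l) {x : ℝ × ℝ} (hx : ((x.1 + x.2) / 2) ^ 2 < 1) :
    ContDiffAt ℝ (⊤ : ℕ∞) (fun x : ℝ × ℝ => UR μ l x.1 x.2) x := by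
  obtain ⟨M1, hM1⟩ := NL_dl h
  have hx0 : |((x.1 + x.2) / 2) ^ 2| < 1 := by rw [abs_of_nonneg (by positivity)]; exact hx
  have h1 := LR_contDiffAt (by norm_num) h (y := ((x.1 + x.2) / 2) ^ 2) (hx0.trans (by norm_num))
  have h2 := LR_contDiffAt (by norm_num) hM1 (y := ((x.1 + x.2) / 2) ^ 2) (hx0.trans (by norm_num))
  have hm : ContDiffAt ℝ (⊤ : ℕ∞) (fun x : ℝ × ℝ => ((x.1 + x.2) / 2)) x := by fun_prop
  have hm2 : ContDiffAt ℝ (⊤ : ℕ∞) (fun x : ℝ × ℝ => ((x.1 + x.2) / 2) ^ 2) x := by fun_prop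
  have hd : ContDiffAt ℝ (⊤ : ℕ∞) (fun x : ℝ × ℝ => μ * ((x.2 - x.1) / 2)) x := by fun_prop
  have g1 := h1.comp x hm2
  have g2 := h2.comp x hm2
  have hc := (Real.contDiff_cos (n := (⊤ : ℕ∞))).contDiffAt.comp x hd
  have hs := (Real.contDiff_sin (n := (⊤ : ℕ∞))).contDiffAt.comp x hd
  exact (((contDiffAt_const.mul hm).mul g2).mul hc).add ((contDiffAt_const.add (contDiffAt_const.mul g1)).mul (hs.div_const μ))

section sol

variable {C : Cst} {η : ℝ} {q : ℂ × ℂ → ℂ} {l : ℕ → ℝ}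

lemma Sol.qr_contDiffAt (S : Sol C η q l) {ζ : ℂ} (h : ‖ζ‖ < 3 / 2) : ContDiffAt ℝ (⊤ : ℕ∞) (qr q) ζ := by
  have h32 : (0 : ℝ) < 3 / 2 := by norm_num
  have h1 := S.bq.add (((B_fst h32).add (B_snd h32)).const_mul (C.q1 : ℂ))
  simp only [sub_add_cancel] at h1
  have hp : sl ζ ∈ OB (3 / 2) := ⟨h, by show ‖starRingEnd ℂ ζ‖ < 3 / 2; rw [RCLike.norm_conj]; exact h⟩
  have h2 := (B_contDiffAt h32 h1 hp).restrict_scalars ℝ
  have h3 : ContDiffAt ℝ (⊤ : ℕ∞) sl ζ := contDiffAt_id.prodMk (Complex.conjCLE.contDiff.contDiffAt)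
  exact Complex.reCLM.contDiff.contDiffAt.comp ζ (h2.comp ζ h3)

lemma Sol.Psi_contDiffAt (S : Sol C η q l) {ζ : ℂ} (h : ‖ζ‖ < 3 / 2)
    (hm : ((qr q ζ + qr q (C.ν ^ 2 * ζ)) / 2) ^ 2 < 1) : ContDiffAt ℝ (⊤ : ℕ∞) (Psi C q l) ζ := by
  obtain ⟨M, hM⟩ := S.NLl
  have h1 := S.qr_contDiffAt h
  have h2 : ContDiffAt ℝ (⊤ : ℕ∞) (fun ζ => qr q (C.ν ^ 2 * ζ)) ζ := by
    have h3 := S.qr_contDiffAt (ζ := C.ν ^ 2 * ζ) (by rw [norm_mul, C.hω, one_mul]; exact h)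
    have h4 : ContDiffAt ℝ (⊤ : ℕ∞) (fun ζ : ℂ => C.ν ^ 2 * ζ) ζ := contDiffAt_const.mul contDiffAt_id
    exact h3.comp ζ h4
  have h5 := UR_contDiffAt (μ := C.μ) hM (x := (qr q ζ, qr q (C.ν ^ 2 * ζ))) hm
  have h6 := h5.comp ζ (h1.prodMk h2)
  exact (contDiffAt_const.mul h1).prodMk (contDiffAt_const.mul h6)

lemma Cst.ω_im (C : Cst) : (C.ν ^ 2).im ≠ 0 := by
  intro h0
  have h1 : starRingEnd ℂ (C.ν ^ 2) = C.ν ^ 2 := Complex.conj_eq_iff_im.mpr h0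
  rw [C.conj_ω] at h1
  have h3 : (C.ν ^ 2)⁻¹ * C.ν ^ 2 = 1 := inv_mul_cancel₀ C.ω0
  rw [h1] at h3
  have h4 := C.hdiv 2 (by norm_num)
  have h5 : (C.ν ^ 2) ^ (2 : ℤ) = C.ν ^ 2 * C.ν ^ 2 := by
    rw [show (2 : ℤ) = ((2 : ℕ) : ℤ) from rfl, zpow_natCast, sq (C.ν ^ 2)]
  rw [h5, h3, sub_self, norm_zero, mul_zero] at h4
  norm_num at h4

lemma Sol.coef (S : Sol C η q l) (hη : η ≤ 1 / 2) : |l 0| ≤ 1 / 2 ∧ -(1 / 18) ≤ l 1 := by
  have h0 := S.bl.term 0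
  have h1 := S.bl.term 1
  unfold Cst.llin at h0 h1
  simp at h0
  constructor
  · linarith
  · rw [if_pos rfl] at h1
    norm_num at h1
    have h2 : |l 1 - C.T ^ 2 / 2| ≤ 1 / 18 := by linarith
    have h3 := (abs_le.mp h2).1
    have := sq_nonneg C.T
    linarith

lemma Sol.Psi_deriv (S : Sol C η q l) (hη : η ≤ 1 / 2) :
    ∃ E : ℂ ≃L[ℝ] ℝ × ℝ, HasFDerivAt (Psi C q l) (E : ℂ →L[ℝ] ℝ × ℝ) 0 := by
  obtain ⟨a, ha, hqa⟩ := S.q_deriv hη
  obtain ⟨M, hM⟩ := S.NLl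
  have hμ0 := C.hμ0
  have hμ1 := C.hμ1
  have hq0 := S.qr_zero
  have hω : HasFDerivAt (fun ζ : ℂ => C.ν ^ 2 * ζ) ((C.ν ^ 2) • ContinuousLinearMap.id ℝ ℂ) 0 :=
    (hasFDerivAt_id (𝕜 := ℝ) (0 : ℂ)).const_smul (C.ν ^ 2)
  have hqω : HasFDerivAt (fun ζ => qr q (C.ν ^ 2 * ζ)) ((a • Complex.reCLM).comp ((C.ν ^ 2) • ContinuousLinearMap.id ℝ ℂ)) 0 := by
    refine HasFDerivAt.comp (x := (0 : ℂ)) (g := qr q) (f := fun ζ : ℂ => C.ν ^ 2 * ζ) ?_ hω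
    simp only [mul_zero]; exact hqa
  have hpair := hqa.prodMk hqω
  have hUc := UR_contDiffAt (μ := C.μ) hM (x := (0, 0)) (by norm_num)
  have hU : HasFDerivAt (fun x : ℝ × ℝ => UR C.μ l x.1 x.2) (fderiv ℝ (fun x : ℝ × ℝ => UR C.μ l x.1 x.2) (0, 0)) (0, 0) :=
    (hUc.differentiableAt (by simp)).hasFDerivAt
  set D := fderiv ℝ (fun x : ℝ × ℝ => UR C.μ l x.1 x.2) (0, 0) with hD
  have hcomp : HasFDerivAt (fun ζ => UR C.μ l (qr q ζ) (qr q (C.ν ^ 2 * ζ))) (D.comp ((a • Complex.reCLM).prod ((a • Complex.reCLM).comp ((C.ν ^ 2) • ContinuousLinearMap.id ℝ ℂ)))) 0 := by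
    refine HasFDerivAt.comp (x := (0 : ℂ)) (g := fun x : ℝ × ℝ => UR C.μ l x.1 x.2) (f := fun ζ => (qr q ζ, qr q (C.ν ^ 2 * ζ))) ?_ hpair
    simp only [mul_zero, hq0]; exact hU
  have hPsi : HasFDerivAt (Psi C q l) ((C.μ • (a • Complex.reCLM)).prod (C.μ • (D.comp ((a • Complex.reCLM).prod ((a • Complex.reCLM).comp ((C.ν ^ 2) • ContinuousLinearMap.id ℝ ℂ)))))) 0 :=
    (hqa.const_smul C.μ).prodMk (hcomp.const_smul C.μ)
  -- the twist
  have hD01 : D (0, 1) = l 1 + 1 / 2 * (1 + C.μ ^ 2 * l 0) := by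
    have h1 : HasDerivAt (fun t : ℝ => UR C.μ l 0 t) (D (0, 1)) 0 := by
      have hh : HasDerivAt (fun t : ℝ => ((0, t) : ℝ × ℝ)) (0, 1) 0 := (hasDerivAt_const 0 0).prodMk (hasDerivAt_id 0)
      exact HasFDerivAt.comp_hasDerivAt (x := (0 : ℝ)) (l := fun x : ℝ × ℝ => UR C.μ l x.1 x.2) (f := fun t : ℝ => ((0, t) : ℝ × ℝ)) hU hh
    have h2 := U_deriv (s := 1 / 2) (by norm_num) (by norm_num) (by norm_num) hM hμ0.ne' (a := fun _ => (0 : ℂ)) (b := fun t => t)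
      (t := ((0 : ℝ) : ℂ)) (hasDerivAt_const _ _) (hasDerivAt_id _) (by norm_num)
    have h3 := h2.real_of_complex
    have e : (fun t : ℝ => (Uf C.μ l (0 : ℂ) (t : ℂ)).re) = fun t : ℝ => UR C.μ l 0 t := by
      funext t
      have := Uf_real C.μ l 0 t
      rw [Complex.ofReal_zero] at this
      rw [this]; simp
    rw [e] at h3
    rw [h1.unique h3]
    unfold S12f
    have z1 : Lf l 0 = (l 0 : ℂ) := by
      have := Lf_real l 0
      rw [LR_zero] at this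
      simpa using this
    have z2 : Lf (dl l) 0 = (l 1 : ℂ) := by
      have := Lf_real (dl l) 0
      rw [LR_zero] at this
      unfold dl at this ⊢
      simpa using this
    simp [z1, z2]
    left
    rw [← Complex.ofReal_pow, Complex.ofReal_re]
  have hD01pos : 0 < D (0, 1) := by
    rw [hD01]
    obtain ⟨c0, c1⟩ := S.coef hη
    have h4 : C.μ ^ 2 ≤ 1 := pow_le_one₀ hμ0.le hμ1
    have h5 := (abs_le.mp c0).1
    have h6 : -(1 / 2) ≤ C.μ ^ 2 * l 0 := by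
      have := sq_nonneg C.μ
      nlinarith
    linarith
  set P' := (C.μ • (a • Complex.reCLM)).prod (C.μ • (D.comp ((a • Complex.reCLM).prod ((a • Complex.reCLM).comp ((C.ν ^ 2) • ContinuousLinearMap.id ℝ ℂ))))) with hP'
  have hinj : Function.Injective (P' : ℂ →ₗ[ℝ] ℝ × ℝ) := by
    rw [← LinearMap.ker_eq_bot, LinearMap.ker_eq_bot']
    intro v hv
    have hv1 : C.μ * (a * v.re) = 0 := congrArg Prod.fst hv
    have hv2 : C.μ * (D (a * v.re, a * (C.ν ^ 2 * v).re)) = 0 := congrArg Prod.snd hv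
    have hre : v.re = 0 := by
      rcases mul_eq_zero.mp hv1 with h | h
      · exact absurd h hμ0.ne'
      · rcases mul_eq_zero.mp h with h | h
        · exact absurd h ha
        · exact h
    rw [hre, mul_zero] at hv2
    have h7 : ((0 : ℝ), a * (C.ν ^ 2 * v).re) = (a * (C.ν ^ 2 * v).re) • ((0 : ℝ), (1 : ℝ)) := by ext <;> simp
    rw [h7, map_smul, smul_eq_mul] at hv2
    have h8 : (C.ν ^ 2 * v).re = 0 := by
      rcases mul_eq_zero.mp hv2 with h | h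
      · exact absurd h hμ0.ne'
      · rcases mul_eq_zero.mp h with h | h
        · rcases mul_eq_zero.mp h with h | h
          · exact absurd h ha
          · exact h
        · exact absurd h hD01pos.ne'
    rw [Complex.mul_re, hre, mul_zero, zero_sub, neg_eq_zero] at h8
    have him : v.im = 0 := by
      rcases mul_eq_zero.mp h8 with h | h
      · exact absurd h C.ω_im
      · exact h
    exact Complex.ext hre him
  have hdim : Module.finrank ℝ ℂ = Module.finrank ℝ (ℝ × ℝ) := by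
    rw [Complex.finrank_real_complex]; simp
  refine ⟨(LinearMap.linearEquivOfInjective (P' : ℂ →ₗ[ℝ] ℝ × ℝ) hinj hdim).toContinuousLinearEquiv, ?_⟩
  refine hPsi.congr_fderiv ?_
  ext v <;> rfl

end sol

end Pool.Agent.Helper649.Bil
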