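import Pool.Agent.Helper649.GeoB

set_option autoImplicit false

namespace Pool.Agent.Helper649.Geo

open Complex Filter Topology MeasureTheory

/-- A table with a prescribed germ of the support function. -/
theorem exists_rho {δ : ℝ} (hδ : 0 < δ) {H H1 H2 : ℝ → ℝ}
    (hd1 : ∀ t ∈ Set.Ioo (-δ) δ, HasDerivAt H (H1 t) t) (hd2 : ∀ t ∈ Set.Ioo (-δ) δ, HasDerivAt H1 (H2 t) t)
    (hsm : ContDiffOn ℝ (⊤ : ℕ∞) (fun t => H t + H2 t) (Set.Ioo (-δ) δ))
    (he : ∀ t, H (-t) = H t) (he2 : ∀ t, H2 (-t) = H2 t) (h10 : H1 0 = 0) (hH0 : 0 < H 0) (hG0 : 0 < H 0 + H2 0) :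
    ∃ ρ : ℝ → ℝ, Rho ρ (H 0) ∧ ∃ δ' : ℝ, 0 < δ' ∧ ∀ t : ℝ, |t| < δ' →
      gam ρ (H 0) t = ((H t : ℂ) + I * (H1 t : ℂ)) * (I * cexp (t * I)) := by
  set G : ℝ → ℝ := fun s => H (Real.arcsin s) + H2 (Real.arcsin s) with hG
  have hGsm : ∀ s : ℝ, |s| < 1 → Real.arcsin s ∈ Set.Ioo (-δ) δ → ContDiffAt ℝ (⊤ : ℕ∞) G s := by
    intro s hs hs2
    rw [abs_lt] at hs
    have h1 : ContDiffAt ℝ (⊤ : ℕ∞) (fun t => H t + H2 t) (Real.arcsin s) :=
      hsm.contDiffAt (isOpen_Ioo.mem_nhds hs2)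
    exact h1.comp s (Real.contDiffAt_arcsin (by linarith) (by linarith))
  have ha0 : Real.arcsin 0 ∈ Set.Ioo (-δ) δ := by rw [Real.arcsin_zero]; exact ⟨by linarith, hδ⟩
  have hG00 : G 0 = H 0 + H2 0 := by simp only [hG, Real.arcsin_zero]
  have hGc : ContinuousAt G 0 := (hGsm 0 (by simp) ha0).continuousAt
  have hac : ContinuousAt Real.arcsin 0 := Real.continuous_arcsin.continuousAt
  obtain ⟨δ1, hδ1, hδ1h⟩ : ∃ δ1 > 0, ∀ s : ℝ, |s| < δ1 → Real.arcsin s ∈ Set.Ioo (-δ) δ ∧ 0 < G s ∧ G s < G 0 + 1 := by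
    have e1 : ∀ᶠ s in 𝓝 (0 : ℝ), Real.arcsin s ∈ Set.Ioo (-δ) δ := hac.preimage_mem_nhds (isOpen_Ioo.mem_nhds ha0)
    have e2 : ∀ᶠ s in 𝓝 (0 : ℝ), 0 < G s := hGc.eventually (lt_mem_nhds (by rw [hG00]; exact hG0))
    have e3 : ∀ᶠ s in 𝓝 (0 : ℝ), G s < G 0 + 1 := hGc.eventually (gt_mem_nhds (by linarith))
    obtain ⟨ε, hε, hb⟩ := Metric.eventually_nhds_iff.mp (e1.and (e2.and e3))
    exact ⟨ε, hε, fun s hs => hb (by rw [Real.dist_eq, sub_zero]; exact hs)⟩
  have hG0p : 0 < G 0 := by rw [hG00]; exact hG0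
  set δ2 : ℝ := min (δ1 / 2) (min (1 / 2) (H 0 / (4 * (G 0 + 1)))) with hδ2
  have hδ2p : 0 < δ2 := by
    rw [hδ2]; refine lt_min (by linarith) (lt_min (by norm_num) (by positivity))
  have hδ21 : δ2 ≤ δ1 / 2 := min_le_left _ _
  have hδ22 : δ2 ≤ 1 / 2 := (min_le_right _ _).trans (min_le_left _ _)
  have hδ23 : δ2 ≤ H 0 / (4 * (G 0 + 1)) := (min_le_right _ _).trans (min_le_right _ _)
  let χ : ContDiffBump (0 : ℝ) := ⟨δ2 / 2, δ2, by linarith, by linarith⟩
  have hχ0 : ∀ s : ℝ, δ2 ≤ |s| → χ s = 0 := fun s hs => χ.zero_of_le_dist (by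
    show δ2 ≤ dist s 0
    rw [Real.dist_eq, sub_zero]; exact hs)
  have hχ1 : ∀ s : ℝ, |s| ≤ δ2 / 2 → χ s = 1 := fun s hs => χ.one_of_mem_closedBall (by
    show dist s 0 ≤ δ2 / 2
    rw [Real.dist_eq, sub_zero]; exact hs)
  have hχsm : ContDiff ℝ (⊤ : ℕ∞) χ := χ.contDiff
  set K : ℝ → ℝ := fun s => χ s * G s with hK
  have hKsm : ContDiff ℝ (⊤ : ℕ∞) K := by
    rw [contDiff_iff_contDiffAt]
    intro s
    rcases lt_or_ge |s| (min δ1 1) with hs | hs
    · have h1 : |s| < 1 := lt_of_lt_of_le hs (min_le_right _ _)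
      have h2 : |s| < δ1 := lt_of_lt_of_le hs (min_le_left _ _)
      exact hχsm.contDiffAt.mul (hGsm s h1 (hδ1h s h2).1)
    · have hopen : IsOpen {x : ℝ | δ2 < |x|} := isOpen_lt continuous_const continuous_abs
      have hmem : s ∈ {x : ℝ | δ2 < |x|} := by
        show δ2 < |s|
        have : δ2 < min δ1 1 := lt_min (by linarith) (by linarith)
        linarith
      refine contDiffAt_const (c := (0 : ℝ)) |>.congr_of_eventuallyEq ?_
      filter_upwards [hopen.mem_nhds hmem] with x hx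
      simp only [hK]
      rw [hχ0 x (le_of_lt hx), zero_mul]
  have hpi := Real.pi_pos
  have hpi4 : Real.pi ≤ 4 := Real.pi_le_four
  have hsin0 : ∀ u ∈ Set.Icc (0 : ℝ) (Real.pi / 2), 0 ≤ Real.sin u := fun u hu =>
    Real.sin_nonneg_of_nonneg_of_le_pi hu.1 (by linarith [hu.2])
  have hKc : Continuous (fun u : ℝ => K (Real.sin u) * Real.sin u) :=
    (hKsm.continuous.comp Real.continuous_sin).mul Real.continuous_sin
  have hχc : Continuous (fun u : ℝ => χ (Real.sin u) * Real.sin u) :=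
    (hχsm.continuous.comp Real.continuous_sin).mul Real.continuous_sin
  have hKle : ∀ u ∈ Set.Icc (0 : ℝ) (Real.pi / 2), K (Real.sin u) * Real.sin u ≤ (G 0 + 1) * δ2 := by
    intro u hu
    have h0 := hsin0 u hu
    have hR : 0 ≤ (G 0 + 1) * δ2 := by positivity
    rcases lt_or_ge |Real.sin u| δ2 with h1 | h1
    · have h2 := hδ1h (Real.sin u) (by linarith)
      have h3 := χ.nonneg (x := Real.sin u)
      have h4 := χ.le_one (x := Real.sin u)
      rw [abs_of_nonneg h0] at h1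
      simp only [hK]
      have h5 : χ (Real.sin u) * G (Real.sin u) ≤ 1 * (G 0 + 1) := by
        have := h2.2.1.le
        have := h2.2.2.le
        gcongr
      calc χ (Real.sin u) * G (Real.sin u) * Real.sin u ≤ 1 * (G 0 + 1) * δ2 := by gcongr
        _ = _ := by ring
    · simp only [hK]
      rw [hχ0 _ h1, zero_mul, zero_mul]; exact hR
  have hχle : ∀ u ∈ Set.Icc (0 : ℝ) (Real.pi / 2), χ (Real.sin u) * Real.sin u ≤ δ2 := by
    intro u hu
    have h0 := hsin0 u hu
    rcases lt_or_ge |Real.sin u| δ2 with h1 | h1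
    · have h3 := χ.nonneg (x := Real.sin u)
      have h4 := χ.le_one (x := Real.sin u)
      rw [abs_of_nonneg h0] at h1
      calc χ (Real.sin u) * Real.sin u ≤ 1 * δ2 := by gcongr
        _ = δ2 := one_mul _
    · rw [hχ0 _ h1, zero_mul]; exact hδ2p.le
  have hp2 : (0 : ℝ) ≤ Real.pi / 2 := by positivity
  have hA : ∫ u in (0 : ℝ)..(Real.pi / 2), K (Real.sin u) * Real.sin u < H 0 := by
    have h1 := intervalIntegral.integral_mono_on hp2 (hKc.intervalIntegrable (μ := volume) 0 (Real.pi / 2))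
      (continuous_const.intervalIntegrable (μ := volume) 0 (Real.pi / 2)) hKle
    rw [intervalIntegral.integral_const, smul_eq_mul, sub_zero] at h1
    refine lt_of_le_of_lt h1 ?_
    have h2 : (G 0 + 1) * δ2 ≤ H 0 / 4 := by
      calc (G 0 + 1) * δ2 ≤ (G 0 + 1) * (H 0 / (4 * (G 0 + 1))) := by gcongr
        _ = H 0 / 4 := by field_simp
    have h3 : Real.pi / 2 * ((G 0 + 1) * δ2) ≤ 2 * (H 0 / 4) := by
      have : Real.pi / 2 ≤ 2 := by linarith
      gcongr
    linarith
  have hsinint : ∫ u in (0 : ℝ)..(Real.pi / 2), Real.sin u = 1 := by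
    rw [integral_sin]; simp
  have hBc : ∫ u in (0 : ℝ)..(Real.pi / 2), χ (Real.sin u) * Real.sin u < 1 := by
    have h1 := intervalIntegral.integral_mono_on hp2 (hχc.intervalIntegrable (μ := volume) 0 (Real.pi / 2))
      (continuous_const.intervalIntegrable (μ := volume) 0 (Real.pi / 2)) hχle
    rw [intervalIntegral.integral_const, smul_eq_mul, sub_zero] at h1
    refine lt_of_le_of_lt h1 ?_
    have : Real.pi < 4 := Real.pi_lt_four
    nlinarith
  set A := ∫ u in (0 : ℝ)..(Real.pi / 2), K (Real.sin u) * Real.sin u with hAd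
  set Bc := ∫ u in (0 : ℝ)..(Real.pi / 2), χ (Real.sin u) * Real.sin u with hBd
  set c0 : ℝ := (H 0 - A) / (1 - Bc) with hc0
  have hc0p : 0 < c0 := div_pos (by linarith) (by linarith)
  set ρ : ℝ → ℝ := fun t => K (Real.sin t) + (1 - χ (Real.sin t)) * c0 with hρ
  have hRho : Rho ρ (H 0) := by
    refine ⟨?_, ?_, ?_, ?_, ?_⟩
    · have h1 : ContDiff ℝ (⊤ : ℕ∞) Real.sin := Real.contDiff_sin
      exact (hKsm.comp h1).add ((contDiff_const.sub (hχsm.comp h1)).mul contDiff_const)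
    · intro t
      have h3 := χ.nonneg (x := Real.sin t)
      have h4 := χ.le_one (x := Real.sin t)
      simp only [hρ, hK]
      rcases lt_or_ge |Real.sin t| δ2 with h1 | h1
      · have h2 := (hδ1h (Real.sin t) (by linarith)).2.1
        rcases h3.lt_or_eq with h5 | h5
        · have : 0 < χ (Real.sin t) * G (Real.sin t) := mul_pos h5 h2
          have : 0 ≤ (1 - χ (Real.sin t)) * c0 := mul_nonneg (by linarith) hc0p.le
          linarith
        · rw [← h5]; simpa using hc0p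
      · rw [hχ0 _ h1]; simpa using hc0p
    · intro t
      simp only [hρ, hK, Real.sin_add_pi, χ.neg, hG, Real.arcsin_neg, he, he2]
    · intro t
      simp only [hρ, hK, Real.sin_neg, χ.neg, hG, Real.arcsin_neg, he, he2]
    · have e1 : (fun u => ρ u * Real.sin u) = fun u => K (Real.sin u) * Real.sin u + (c0 * Real.sin u - c0 * (χ (Real.sin u) * Real.sin u)) := by
        funext u; simp only [hρ]; ring
      rw [e1, intervalIntegral.integral_add, intervalIntegral.integral_sub, intervalIntegral.integral_const_mul,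
        intervalIntegral.integral_const_mul, hsinint, ← hAd, ← hBd, hc0]
      · have : 1 - Bc ≠ 0 := by linarith
        field_simp
        ring
      · exact (continuous_const.mul Real.continuous_sin).intervalIntegrable _ _
      · exact (continuous_const.mul hχc).intervalIntegrable _ _
      · exact hKc.intervalIntegrable _ _
      · exact ((continuous_const.mul Real.continuous_sin).sub (continuous_const.mul hχc)).intervalIntegrable _ _
  refine ⟨ρ, hRho, min δ (δ2 / 2), lt_min hδ (by linarith), ?_⟩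
  set δ' := min δ (δ2 / 2) with hδ'
  have hδ'p : 0 < δ' := lt_min hδ (by linarith)
  have hδ'1 : δ' ≤ δ := min_le_left _ _
  have hδ'2 : δ' ≤ δ2 / 2 := min_le_right _ _
  have hρt : ∀ t : ℝ, |t| < δ' → ρ t = H t + H2 t := by
    intro t ht
    have h1 : |Real.sin t| ≤ δ2 / 2 := (Real.abs_sin_le_abs).trans (by linarith)
    have h2 : Real.arcsin (Real.sin t) = t := by
      rw [abs_lt] at ht
      exact Real.arcsin_sin (by linarith [Real.pi_gt_three]) (by linarith [Real.pi_gt_three])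
    simp only [hρ, hK, hG]
    rw [hχ1 _ h1, h2]; ring
  have hmemI : ∀ t : ℝ, |t| < δ' → t ∈ Set.Ioo (-δ) δ := fun t ht => by
    rw [abs_lt] at ht; exact ⟨by linarith, by linarith⟩
  have hderR : ∀ t : ℝ, |t| < δ' → HasDerivAt (fun t : ℝ => ((H t : ℂ) + I * (H1 t : ℂ)) * (I * cexp (t * I)))
      (-((ρ t : ℂ) * cexp (t * I))) t := by
    intro t ht
    have h1 := (hd1 t (hmemI t ht)).ofReal_comp
    have h2 := (hd2 t (hmemI t ht)).ofReal_comp
    have h3 : HasDerivAt (fun t : ℝ => cexp (t * I)) (cexp (t * I) * I) t := by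
      have h4 : HasDerivAt (fun t : ℝ => (t : ℂ) * I) I t := by
        have := (Complex.ofRealCLM.hasDerivAt (x := t)).mul_const I
        simpa using this
      exact h4.cexp
    have h5 := (h1.add (h2.const_mul I)).mul (h3.const_mul I)
    refine h5.congr_deriv ?_
    rw [hρt t ht]
    simp only [Pi.add_apply]
    push_cast
    have hI := Complex.I_mul_I
    linear_combination ((H2 t : ℂ) * cexp (t * I) + (H t : ℂ) * cexp (t * I) + (H1 t : ℂ) * I * cexp (t * I)) * hI
  intro t ht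
  have hEq : Set.EqOn (gam ρ (H 0)) (fun t : ℝ => ((H t : ℂ) + I * (H1 t : ℂ)) * (I * cexp (t * I))) (Set.Ioo (-δ') δ') := by
    refine IsOpen.eqOn_of_deriv_eq isOpen_Ioo isPreconnected_Ioo
      (fun s _ => (gam_deriv hRho s).differentiableAt.differentiableWithinAt)
      (fun s hs => (hderR s (abs_lt.mpr hs)).differentiableAt.differentiableWithinAt)
      (fun s hs => ?_) (x := 0) ⟨by linarith, hδ'p⟩ ?_
    · rw [(gam_deriv hRho s).deriv, (hderR s (abs_lt.mpr hs)).deriv]
    · rw [gam_zero]; simp [h10]; ring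
  exact hEq (abs_lt.mp ht)

end Pool.Agent.Helper649.Geo
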