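import Pool.Agent.Helper649.GeoC
import Pool.Agent.Helper649.GeoD

set_option autoImplicit false

namespace Pool.Agent.Helper649.Geo

open Complex Filter Topology Billiard

/-- the upward oriented line with inclination `φ` -/
noncomputable def lnu (φ d : ℝ) : OLine := (Circle.exp (φ + Real.pi / 2), d)

/-- the opposite direction -/
noncomputable def lnd (φ d : ℝ) : OLine := (-Circle.exp (φ + Real.pi / 2), d)

lemma coe_neg_circle (u : Circle) : ((-u : Circle) : ℂ) = -(u : ℂ) := rfl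

lemma lnu_coe (φ : ℝ) : ((Circle.exp (φ + Real.pi / 2) : Circle) : ℂ) = I * cexp (φ * I) := by
  rw [Circle.coe_exp]
  push_cast
  rw [add_mul, Complex.exp_add, Complex.exp_pi_div_two_mul_I]; ring

/-- central symmetry -/
lemma reflects_neg {ρ : ℝ → ℝ} {H0 : ℝ} (h : Rho ρ H0) {ℓ ℓ' : OLine} (hr : Reflects (Om ρ H0) (gam ρ H0) ℓ ℓ') :
    Reflects (Om ρ H0) (gam ρ H0) (-ℓ.1, ℓ.2) (-ℓ'.1, ℓ'.2) := by
  obtain ⟨t, h1, ⟨s, hs, hm⟩, h2, h3⟩ := hr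
  have hd : deriv (gam ρ H0) (t + Real.pi) = -deriv (gam ρ H0) t := by
    rw [(gam_deriv h _).deriv, (gam_deriv h _).deriv, h.per]
    push_cast
    rw [add_mul, Complex.exp_add, Complex.exp_pi_mul_I]; ring
  refine ⟨t + Real.pi, ?_, ⟨s, hs, ?_⟩, ?_, ?_⟩
  · show (starRingEnd ℂ ((-ℓ.1 : Circle) : ℂ) * gam ρ H0 (t + Real.pi)).im = ℓ.2
    rw [gam_pi h, coe_neg_circle, map_neg, neg_mul_neg]; exact h1
  · rw [gam_pi h]
    show -gam ρ H0 t - s * ((-ℓ.1 : Circle) : ℂ) ∈ Om ρ H0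
    rw [coe_neg_circle]
    have e : -gam ρ H0 t - s * -(ℓ.1 : ℂ) = -(gam ρ H0 t - s * (ℓ.1 : ℂ)) := by ring
    rw [e]; exact Om_neg h hm
  · show (starRingEnd ℂ ((-ℓ'.1 : Circle) : ℂ) * gam ρ H0 (t + Real.pi)).im = ℓ'.2
    rw [gam_pi h, coe_neg_circle, map_neg, neg_mul_neg]; exact h2
  · show ((-ℓ'.1 : Circle) : ℂ) = _
    rw [coe_neg_circle, hd, h3, norm_neg, neg_sq]
    show _ = deriv (gam ρ H0) t ^ 2 / (‖deriv (gam ρ H0) t‖ : ℂ) ^ 2 * starRingEnd ℂ ((-ℓ.1 : Circle) : ℂ)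
    rw [coe_neg_circle, map_neg]; ring

/-- local reflection law -/
lemma reflects_up {ρ : ℝ → ℝ} {H0 : ℝ} (h : Rho ρ H0) {Ht H1t φ φ' d d' : ℝ}
    (hg : gam ρ H0 ((φ + φ') / 2) = ((Ht : ℂ) + I * (H1t : ℂ)) * (I * cexp (((φ + φ') / 2 : ℝ) * I)))
    (hd : d = Ht * Real.sin ((φ' - φ) / 2) + H1t * Real.cos ((φ' - φ) / 2))
    (hd' : d' = Ht * Real.sin ((φ' - φ) / 2) - H1t * Real.cos ((φ' - φ) / 2))
    {s : ℝ} (hs : 0 < s) (hm : gam ρ H0 ((φ + φ') / 2) - s * (I * cexp (φ * I)) ∈ Om ρ H0) :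
    Reflects (Om ρ H0) (gam ρ H0) (lnu φ d) (lnd φ' d') := by
  set t : ℝ := (φ + φ') / 2 with ht
  have hconj : ∀ x : ℝ, starRingEnd ℂ (I * cexp (x * I)) = -I * cexp (-(x * I)) := fun x => by
    rw [map_mul, Complex.conj_I, ← Complex.exp_conj, map_mul, Complex.conj_ofReal, Complex.conj_I, mul_neg]
  have hexp : ∀ x : ℝ, cexp (x * I) = ((Real.cos x : ℝ) : ℂ) + ((Real.sin x : ℝ) : ℂ) * I := fun x => by
    rw [Complex.exp_mul_I, Complex.ofReal_cos, Complex.ofReal_sin]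
  refine ⟨t, ?_, ⟨s, hs, ?_⟩, ?_, ?_⟩
  · show (starRingEnd ℂ ((Circle.exp (φ + Real.pi / 2) : Circle) : ℂ) * gam ρ H0 t).im = d
    rw [lnu_coe, hconj, hg]
    have e1 : -I * cexp (-((φ : ℂ) * I)) * (((Ht : ℂ) + I * (H1t : ℂ)) * (I * cexp ((t : ℝ) * I)))
        = ((Ht : ℂ) + I * (H1t : ℂ)) * cexp ((((φ' - φ) / 2 : ℝ) : ℂ) * I) := by
      have e2 : cexp ((((φ' - φ) / 2 : ℝ) : ℂ) * I) = cexp (-((φ : ℂ) * I)) * cexp ((t : ℝ) * I) := by
        rw [← Complex.exp_add]; congr 1; rw [ht]; push_cast; ring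
      rw [e2]
      linear_combination (-(cexp (-((φ : ℂ) * I)) * (((Ht : ℂ) + I * (H1t : ℂ)) * cexp ((t : ℝ) * I)))) * Complex.I_mul_I
    rw [e1, hexp, hd]
    simp only [add_re, add_im, mul_re, mul_im, ofReal_re, ofReal_im, I_re, I_im]
    ring
  · show gam ρ H0 t - s * ((Circle.exp (φ + Real.pi / 2) : Circle) : ℂ) ∈ Om ρ H0
    rw [lnu_coe]; exact hm
  · show (starRingEnd ℂ ((-Circle.exp (φ' + Real.pi / 2) : Circle) : ℂ) * gam ρ H0 t).im = d'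
    rw [coe_neg_circle, lnu_coe, map_neg, hconj, hg]
    have e1 : -(-I * cexp (-((φ' : ℂ) * I))) * (((Ht : ℂ) + I * (H1t : ℂ)) * (I * cexp ((t : ℝ) * I)))
        = -(((Ht : ℂ) + I * (H1t : ℂ)) * cexp (((-((φ' - φ) / 2) : ℝ) : ℂ) * I)) := by
      have e2 : cexp (((-((φ' - φ) / 2) : ℝ) : ℂ) * I) = cexp (-((φ' : ℂ) * I)) * cexp ((t : ℝ) * I) := by
        rw [← Complex.exp_add]; congr 1; rw [ht]; push_cast; ring
      rw [e2]
      linear_combination (cexp (-((φ' : ℂ) * I)) * (((Ht : ℂ) + I * (H1t : ℂ)) * cexp ((t : ℝ) * I))) * Complex.I_mul_I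
    rw [e1, hexp, hd', Real.cos_neg, Real.sin_neg]
    simp only [neg_im, add_re, add_im, mul_re, mul_im, ofReal_re, ofReal_im, I_re, I_im]
    ring
  · show ((-Circle.exp (φ' + Real.pi / 2) : Circle) : ℂ) = deriv (gam ρ H0) t ^ 2 / (‖deriv (gam ρ H0) t‖ : ℂ) ^ 2
      * starRingEnd ℂ ((Circle.exp (φ + Real.pi / 2) : Circle) : ℂ)
    rw [coe_neg_circle, lnu_coe, lnu_coe, hconj, (gam_deriv h t).deriv, norm_neg, norm_mul, Complex.norm_real,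
      Real.norm_of_nonneg (h.pos t).le, Complex.norm_exp_ofReal_mul_I, mul_one]
    have hρ : (ρ t : ℂ) ≠ 0 := by exact_mod_cast (h.pos t).ne'
    have e2 : (-((ρ t : ℂ) * cexp (t * I))) ^ 2 / (ρ t : ℂ) ^ 2 = cexp (t * I) * cexp (t * I) := by
      field_simp
    rw [e2]
    have e3 : cexp (t * I) * cexp (t * I) * (-I * cexp (-((φ : ℂ) * I))) = -(I * (cexp (t * I) * cexp (t * I) * cexp (-((φ : ℂ) * I)))) := by ring
    rw [e3, ← Complex.exp_add, ← Complex.exp_add]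
    congr 3
    rw [ht]; push_cast; ring

end Pool.Agent.Helper649.Geo
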