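import Pool.Agent.Helper649.BilR
import Pool.Agent.Helper649.GeoE

set_option autoImplicit false

namespace Pool.Agent.Helper649.Bil

open Complex Filter Topology Billiard Geo

/-- the local inverse -/
lemma exists_local {f : ℂ → ℝ × ℝ} {E : ℂ ≃L[ℝ] ℝ × ℝ} (hE : HasFDerivAt f (E : ℂ →L[ℝ] ℝ × ℝ) 0)
    (hc : ∀ᶠ ζ in 𝓝 (0 : ℂ), ContDiffAt ℝ (⊤ : ℕ∞) f ζ) :
    ∃ e : OpenPartialHomeomorph ℂ (ℝ × ℝ), (0 : ℂ) ∈ e.source ∧ (∀ ζ, e ζ = f ζ) ∧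
      ∀ ζ ∈ e.source, ContDiffAt ℝ (⊤ : ℕ∞) f ζ ∧ ContDiffAt ℝ (⊤ : ℕ∞) e.symm (f ζ) := by
  have hc0 : ContDiffAt ℝ (⊤ : ℕ∞) f 0 := hc.self_of_nhds
  have hn : ((⊤ : ℕ∞) : WithTop ℕ∞) ≠ 0 := by simp
  set e0 := hc0.toOpenPartialHomeomorph f hE hn with he0
  have h0 : (0 : ℂ) ∈ e0.source := hc0.mem_toOpenPartialHomeomorph_source hE hn
  have hfd : ∀ᶠ ζ in 𝓝 (0 : ℂ), fderiv ℝ f ζ ∈ Set.range ((↑) : (ℂ ≃L[ℝ] ℝ × ℝ) → (ℂ →L[ℝ] ℝ × ℝ)) := by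
    have h1 : ContinuousAt (fderiv ℝ f) 0 := hc0.continuousAt_fderiv hn
    have h2 : Set.range ((↑) : (ℂ ≃L[ℝ] ℝ × ℝ) → (ℂ →L[ℝ] ℝ × ℝ)) ∈ 𝓝 (fderiv ℝ f 0) := by
      rw [hE.fderiv]; exact ContinuousLinearEquiv.nhds E
    exact h1.preimage_mem_nhds h2
  obtain ⟨U, hU, hUo, hU0⟩ := eventually_nhds_iff.mp (hc.and hfd)
  refine ⟨e0.restrOpen U hUo, ⟨h0, hU0⟩, fun ζ => rfl, fun ζ hζ => ?_⟩
  obtain ⟨h3, h4⟩ := hζ
  obtain ⟨c1, ⟨E1, hE1⟩⟩ := hU ζ h4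
  refine ⟨c1, ?_⟩
  have h5 : HasFDerivAt f (E1 : ℂ →L[ℝ] ℝ × ℝ) ζ := by
    rw [hE1]; exact (c1.differentiableAt hn).hasFDerivAt
  have hsrc : ζ ∈ (e0.restrOpen U hUo).source := ⟨h3, h4⟩
  have hsym : (e0.restrOpen U hUo).symm (f ζ) = ζ := (e0.restrOpen U hUo).left_inv hsrc
  have htgt : f ζ ∈ (e0.restrOpen U hUo).target := (e0.restrOpen U hUo).map_source hsrc
  refine OpenPartialHomeomorph.contDiffAt_symm (e0.restrOpen U hUo) (f₀' := E1) htgt ?_ ?_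
  · rw [hsym]; exact h5
  · rw [hsym]; exact c1

/-- the oriented `y`-axis, upwards -/
noncomputable def zUp : OLine := (Circle.exp (Real.pi / 2), 0)
/-- the oriented `y`-axis, downwards -/
noncomputable def zDown : OLine := (Circle.exp (-(Real.pi / 2)), 0)

lemma neg_exp (x : ℝ) : -Circle.exp (x + Real.pi / 2) = Circle.exp (x - Real.pi / 2) := by
  apply Subtype.ext
  rw [coe_neg_circle, lnu_coe, Circle.coe_exp]
  push_cast
  rw [sub_mul, Complex.exp_sub, Complex.exp_pi_div_two_mul_I, div_eq_mul_inv, Complex.inv_I]; ring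

lemma lnd_eq (φ d : ℝ) : lnd φ d = (Circle.exp (φ - Real.pi / 2), d) := by
  unfold lnd; rw [neg_exp]

theorem local_conj {C : Cst} {η : ℝ} {q : ℂ × ℂ → ℂ} {l : ℕ → ℝ} (S : Sol C η q l) (hη : η ≤ 1 / 2) :
    ∃ (Ω : Set ℂ) (γ : ℝ → ℂ), IsTable Ω γ ∧ EllipseSymm Ω ∧ Reflects Ω γ zUp zDown ∧ Reflects Ω γ zDown zUp ∧
      ∃ h : OpenPartialHomeomorph OLine ℂ, zUp ∈ h.source ∧ h zUp = 0 ∧
        (∀ ℓ ∈ h.source, ∃ ℓ' ℓ'', Reflects Ω γ ℓ ℓ' ∧ Reflects Ω γ ℓ' ℓ'' ∧ ℓ'' ∈ h.source ∧ h ℓ'' = C.ν ^ 4 * h ℓ) ∧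
        ContDiffOn ℝ (⊤ : ℕ∞) (fun x : ℝ × ℝ => h (Circle.exp x.1, x.2)) {x | (Circle.exp x.1, x.2) ∈ h.source} ∧
        ∃ g : ℂ → ℝ × ℝ, ContDiffOn ℝ (⊤ : ℕ∞) g h.target ∧ ∀ z ∈ h.target, h.symm z = (Circle.exp (g z).1, (g z).2) := by
  have hμ0 := C.hμ0
  have hμ1 := C.hμ1
  obtain ⟨M, hM⟩ := S.NLl
  obtain ⟨c0, c1⟩ := S.coef hη
  have hμ2 : C.μ ^ 2 ≤ 1 := pow_le_one₀ hμ0.le hμ1
  have hμ20 : 0 ≤ C.μ ^ 2 := sq_nonneg _
  have c0' := (abs_le.mp c0).1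
  have hl0 : -(1 / 2) ≤ C.μ ^ 2 * l 0 := by nlinarith
  have e0 : HH C.μ l 0 = 1 + C.μ ^ 2 * l 0 := by
    unfold HH; rw [zero_pow (by norm_num), zero_div, LR_zero]
  have e2 : HH2 C.μ l 0 = 2 * l 1 := by
    unfold HH2; rw [zero_pow (by norm_num), zero_div, LR_zero]; unfold dl; simp
  obtain ⟨ρ, hR, δ', hδ', hloc⟩ := exists_rho (δ := C.μ) hμ0 (H := HH C.μ l) (H1 := HH1 C.μ l) (H2 := HH2 C.μ l)
    (fun t ht => HH_deriv hμ0 hM ht) (fun t ht => HH1_deriv hμ0 hM ht) (HH_smooth hμ0 hM)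
    (fun t => by unfold HH; rw [neg_sq]) (fun t => by unfold HH2; rw [neg_sq]) (by unfold HH1; simp)
    (by rw [e0]; linarith) (by rw [e0, e2]; linarith)
  set H0 := HH C.μ l 0 with hH0
  set Ω := Om ρ H0 with hΩ
  set γ := gam ρ H0 with hγ
  have hH0p : 0 < H0 := by rw [e0]; linarith
  have hT := table hR
  have hq0 := S.qr_zero
  -- continuity of the coordinates
  have hqc : ContinuousAt (qr q) 0 := (S.qr_contDiffAt (by norm_num)).continuousAt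
  have hqc' : ContinuousAt (fun ζ => qr q (C.ν ^ 2 * ζ)) 0 := by
    have h1 : ContinuousAt (fun ζ : ℂ => C.ν ^ 2 * ζ) 0 := (continuous_const.mul continuous_id).continuousAt
    have h2 : ContinuousAt (qr q) (C.ν ^ 2 * 0) := by rw [mul_zero]; exact hqc
    exact ContinuousAt.comp (g := qr q) (f := fun ζ : ℂ => C.ν ^ 2 * ζ) h2 h1
  have htc : ContinuousAt (fun ζ => (C.μ * qr q ζ + C.μ * qr q (C.ν ^ 2 * ζ)) / 2) 0 :=
    ((hqc.const_mul C.μ).add (hqc'.const_mul C.μ)).div_const 2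
  have ht0 : (C.μ * qr q 0 + C.μ * qr q (C.ν ^ 2 * 0)) / 2 = 0 := by rw [mul_zero, hq0]; ring
  have ev1 : ∀ᶠ ζ in 𝓝 (0 : ℂ), |(C.μ * qr q ζ + C.μ * qr q (C.ν ^ 2 * ζ)) / 2| < δ' := by
    have h1 := htc.abs
    have h2 : |(C.μ * qr q 0 + C.μ * qr q (C.ν ^ 2 * 0)) / 2| < δ' := by rw [ht0, abs_zero]; exact hδ'
    exact h1.eventually (gt_mem_nhds h2)
  have ev2 : ∀ᶠ ζ in 𝓝 (0 : ℂ), γ ((C.μ * qr q ζ + C.μ * qr q (C.ν ^ 2 * ζ)) / 2) - H0 * (I * cexp ((C.μ * qr q ζ : ℝ) * I)) ∈ Ω := by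
    have h1 : ContinuousAt (fun ζ => γ ((C.μ * qr q ζ + C.μ * qr q (C.ν ^ 2 * ζ)) / 2) - H0 * (I * cexp ((C.μ * qr q ζ : ℝ) * I))) 0 := by
      have h2 : ContinuousAt (fun ζ => γ ((C.μ * qr q ζ + C.μ * qr q (C.ν ^ 2 * ζ)) / 2)) 0 :=
        ContinuousAt.comp (g := γ) (f := fun ζ => (C.μ * qr q ζ + C.μ * qr q (C.ν ^ 2 * ζ)) / 2) (gam_smooth hR).continuous.continuousAt htc
      have h3 : ContinuousAt (fun ζ => (H0 : ℂ) * (I * cexp ((C.μ * qr q ζ : ℝ) * I))) 0 := by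
        have h4 : Continuous (fun x : ℝ => (H0 : ℂ) * (I * cexp ((x : ℝ) * I))) := by fun_prop
        exact ContinuousAt.comp (g := fun x : ℝ => (H0 : ℂ) * (I * cexp ((x : ℝ) * I))) (f := fun ζ => C.μ * qr q ζ) h4.continuousAt (hqc.const_mul C.μ)
      exact h2.sub h3
    refine h1.preimage_mem_nhds (hT.isOpen.mem_nhds ?_)
    have : γ ((C.μ * qr q 0 + C.μ * qr q (C.ν ^ 2 * 0)) / 2) - H0 * (I * cexp ((C.μ * qr q 0 : ℝ) * I)) = 0 := by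
      rw [ht0, hq0, hγ, gam_zero]
      simp
      ring
    rw [this]; exact Om_zero hR
  have ev3 : ∀ᶠ ζ in 𝓝 (0 : ℂ), ‖ζ‖ < 1 := by
    filter_upwards [Metric.ball_mem_nhds (0 : ℂ) one_pos] with ζ hζ
    rwa [mem_ball_zero_iff] at hζ
  obtain ⟨ε0, hε0, hgood⟩ := Metric.eventually_nhds_iff.mp (ev1.and (ev2.and ev3))
  -- one reflection
  have refl1 : ∀ ζ : ℂ, ‖ζ‖ < ε0 → Reflects Ω γ (lnu (Psi C q l ζ).1 (Psi C q l ζ).2) (lnd (Psi C q l (C.ν ^ 2 * ζ)).1 (Psi C q l (C.ν ^ 2 * ζ)).2) := by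
    intro ζ hζ
    obtain ⟨g1, g2, g3⟩ := hgood (y := ζ) (by rw [dist_zero_right]; exact hζ)
    have hωζ : ‖C.ν ^ 2 * ζ‖ ≤ 1 := by rw [norm_mul, C.hω, one_mul]; exact g3.le
    have heq := S.eq_real hωζ
    rw [inv_mul_cancel_left₀ C.ω0] at heq
    refine reflects_up hR (Ht := HH C.μ l ((C.μ * qr q ζ + C.μ * qr q (C.ν ^ 2 * ζ)) / 2))
      (H1t := HH1 C.μ l ((C.μ * qr q ζ + C.μ * qr q (C.ν ^ 2 * ζ)) / 2)) (hloc _ g1) (UR_HH hμ0.ne' l _ _) ?_ hH0p g2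
    rw [show (Psi C q l (C.ν ^ 2 * ζ)).1 = C.μ * qr q (C.ν ^ 2 * ζ) from rfl,
      show (Psi C q l ζ).1 = C.μ * qr q ζ from rfl, ← UR_HH' hμ0.ne' l (qr q ζ) (qr q (C.ν ^ 2 * ζ))]
    show C.μ * UR C.μ l (qr q (C.ν ^ 2 * ζ)) (qr q (C.ν ^ 2 * (C.ν ^ 2 * ζ))) = _
    linear_combination C.μ * heq
  have refl2 : ∀ ζ : ℂ, ‖ζ‖ < ε0 → Reflects Ω γ (lnd (Psi C q l ζ).1 (Psi C q l ζ).2) (lnu (Psi C q l (C.ν ^ 2 * ζ)).1 (Psi C q l (C.ν ^ 2 * ζ)).2) := by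
    intro ζ hζ
    have h1 := reflects_neg hR (refl1 ζ hζ)
    have e : (-(lnd (Psi C q l (C.ν ^ 2 * ζ)).1 (Psi C q l (C.ν ^ 2 * ζ)).2).1, (lnd (Psi C q l (C.ν ^ 2 * ζ)).1 (Psi C q l (C.ν ^ 2 * ζ)).2).2)
        = lnu (Psi C q l (C.ν ^ 2 * ζ)).1 (Psi C q l (C.ν ^ 2 * ζ)).2 := by
      unfold lnd lnu; simp
    rw [e] at h1
    exact h1
  have hPsi0 : Psi C q l 0 = (0, 0) := by
    unfold Psi UR; rw [mul_zero, hq0]; simp
  have hup : lnu (Psi C q l 0).1 (Psi C q l 0).2 = zUp := by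
    rw [hPsi0]; unfold lnu zUp; simp
  have hdown : lnd (Psi C q l 0).1 (Psi C q l 0).2 = zDown := by
    rw [hPsi0, lnd_eq]; unfold zDown; simp
  have r1 := refl1 0 (by rw [norm_zero]; exact hε0)
  have r2 := refl2 0 (by rw [norm_zero]; exact hε0)
  rw [mul_zero, hup, hdown] at r1
  rw [mul_zero, hup, hdown] at r2
  refine ⟨Ω, γ, hT, Om_symm hR, r1, r2, ?_⟩
  -- the local homeomorphism
  obtain ⟨E, hE⟩ := S.Psi_deriv hη
  have hcd : ∀ᶠ ζ in 𝓝 (0 : ℂ), ContDiffAt ℝ (⊤ : ℕ∞) (Psi C q l) ζ := by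
    have h1 : ContinuousAt (fun ζ => ((qr q ζ + qr q (C.ν ^ 2 * ζ)) / 2) ^ 2) 0 := ((hqc.add hqc').div_const 2).pow 2
    have h2 : ((qr q 0 + qr q (C.ν ^ 2 * 0)) / 2) ^ 2 < 1 := by rw [mul_zero, hq0]; norm_num
    filter_upwards [h1.eventually (gt_mem_nhds h2), ev3] with ζ h3 h4
    exact S.Psi_contDiffAt (h4.trans (by norm_num)) h3
  obtain ⟨e1, h10, h1e, h1c⟩ := exists_local hE hcd
  obtain ⟨E0, hE0s, hE0⟩ := isLocalHomeomorph_circleExp (Real.pi / 2)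
  let sh : OpenPartialHomeomorph (ℝ × ℝ) (ℝ × ℝ) :=
    ((Homeomorph.addRight (Real.pi / 2)).prodCongr (Homeomorph.refl ℝ)).toOpenPartialHomeomorph
  let K0 : OpenPartialHomeomorph ℂ OLine := e1.trans (sh.trans (E0.prod (OpenPartialHomeomorph.refl ℝ)))
  have hK0 : ∀ ζ, K0 ζ = (Circle.exp ((Psi C q l ζ).1 + Real.pi / 2), (Psi C q l ζ).2) := by
    intro ζ
    show (E0 ((e1 ζ).1 + Real.pi / 2), (e1 ζ).2) = _
    rw [h1e, ← hE0]
  have hK00 : (0 : ℂ) ∈ K0.source := by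
    show 0 ∈ (e1.trans (sh.trans (E0.prod (OpenPartialHomeomorph.refl ℝ)))).source
    rw [OpenPartialHomeomorph.trans_source]
    refine ⟨h10, ?_⟩
    show e1 0 ∈ (sh.trans (E0.prod (OpenPartialHomeomorph.refl ℝ))).source
    rw [OpenPartialHomeomorph.trans_source, h1e, hPsi0]
    refine ⟨by trivial, ?_⟩
    show ((0 : ℝ) + Real.pi / 2, (0 : ℝ)) ∈ (E0.prod (OpenPartialHomeomorph.refl ℝ)).source
    rw [OpenPartialHomeomorph.prod_source]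
    refine ⟨?_, by trivial⟩
    show (0 : ℝ) + Real.pi / 2 ∈ E0.source
    rw [zero_add]; exact hE0s
  obtain ⟨ε1, hε1, hball1⟩ := Metric.isOpen_iff.mp K0.open_source 0 hK00
  set ε := min ε0 ε1 with hε
  have hεp : 0 < ε := lt_min hε0 hε1
  have hballK : Metric.ball (0 : ℂ) ε ⊆ K0.source := (Metric.ball_subset_ball (min_le_right _ _)).trans hball1
  let K := K0.restrOpen (Metric.ball (0 : ℂ) ε) Metric.isOpen_ball
  have hKs : K.source = Metric.ball (0 : ℂ) ε := by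
    show (K0.restrOpen (Metric.ball (0 : ℂ) ε) Metric.isOpen_ball).source = _
    rw [OpenPartialHomeomorph.restrOpen_source]
    exact Set.inter_eq_right.mpr hballK
  have hK : ∀ ζ, K ζ = (Circle.exp ((Psi C q l ζ).1 + Real.pi / 2), (Psi C q l ζ).2) := fun ζ => hK0 ζ
  have hKl : ∀ ζ, K ζ = lnu (Psi C q l ζ).1 (Psi C q l ζ).2 := fun ζ => hK ζ
  have h0K : (0 : ℂ) ∈ K.source := by rw [hKs]; exact Metric.mem_ball_self hεp
  have hK0up : K 0 = zUp := by rw [hKl, hup]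
  refine ⟨K.symm, ?_, ?_, ?_, ?_, ?_⟩
  · show zUp ∈ K.target
    rw [← hK0up]; exact K.map_source h0K
  · rw [← hK0up]; exact K.left_inv h0K
  · intro ℓ hℓ
    have hℓt : ℓ ∈ K.target := hℓ
    set ζ := K.symm ℓ with hζ
    have hζs : ζ ∈ K.source := K.map_target hℓt
    have hζb : ‖ζ‖ < ε := by rw [hKs, mem_ball_zero_iff] at hζs; exact hζs
    have hζ0 : ‖ζ‖ < ε0 := hζb.trans_le (min_le_left _ _)
    have hℓe : ℓ = lnu (Psi C q l ζ).1 (Psi C q l ζ).2 := by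
      rw [← hKl]; exact (K.right_inv hℓt).symm
    have hωζ : ‖C.ν ^ 2 * ζ‖ < ε0 := by rw [norm_mul, C.hω, one_mul]; exact hζ0
    have hω2s : C.ν ^ 2 * (C.ν ^ 2 * ζ) ∈ K.source := by
      rw [hKs, mem_ball_zero_iff, norm_mul, norm_mul, C.hω, one_mul, one_mul]; exact hζb
    refine ⟨lnd (Psi C q l (C.ν ^ 2 * ζ)).1 (Psi C q l (C.ν ^ 2 * ζ)).2, K (C.ν ^ 2 * (C.ν ^ 2 * ζ)), ?_, ?_, ?_, ?_⟩
    · rw [hℓe]; exact refl1 ζ hζ0
    · rw [hKl]; exact refl2 _ hωζ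
    · exact K.map_source hω2s
    · rw [K.left_inv hω2s]; ring
  · -- smoothness of the conjugacy
    intro x hx
    have hxt : (Circle.exp x.1, x.2) ∈ K.target := hx
    set ζ := K.symm (Circle.exp x.1, x.2) with hζ
    have hζs : ζ ∈ K.source := K.map_target hxt
    have hKζ : K ζ = (Circle.exp x.1, x.2) := K.right_inv hxt
    rw [hK] at hKζ
    have a1 := congrArg Prod.fst hKζ
    have a2 := congrArg Prod.snd hKζ
    simp only at a1 a2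
    obtain ⟨m, hm⟩ := Circle.exp_eq_exp.mp a1.symm
    have hζb := hζs
    rw [hKs] at hζb
    have hζ1 : ζ ∈ e1.source := (hballK hζb).1
    obtain ⟨b1, b2⟩ := h1c ζ hζ1
    set w : ℝ × ℝ → ℝ × ℝ := fun y => (y.1 - Real.pi / 2 - m * (2 * Real.pi), y.2) with hw
    have hwx : w x = Psi C q l ζ := by
      simp only [hw]
      ext
      · show x.1 - Real.pi / 2 - m * (2 * Real.pi) = (Psi C q l ζ).1
        rw [hm]; ring
      · exact a2.symm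
    have hwc : ContDiff ℝ (⊤ : ℕ∞) w := by
      simp only [hw]
      fun_prop
    have hws : ContDiffAt ℝ (⊤ : ℕ∞) (fun y => e1.symm (w y)) x := by
      have : ContDiffAt ℝ (⊤ : ℕ∞) e1.symm (w x) := by rw [hwx]; exact b2
      exact this.comp x hwc.contDiffAt
    have htgt : w x ∈ e1.target := by rw [hwx, ← h1e]; exact e1.map_source hζ1
    have hsymx : e1.symm (w x) = ζ := by rw [hwx, ← h1e]; exact e1.left_inv hζ1
    have hev1 : ∀ᶠ y in 𝓝 x, w y ∈ e1.target := hwc.continuous.continuousAt.preimage_mem_nhds (e1.open_target.mem_nhds htgt)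
    have hev2 : ∀ᶠ y in 𝓝 x, e1.symm (w y) ∈ Metric.ball (0 : ℂ) ε :=
      hws.continuousAt.preimage_mem_nhds (Metric.isOpen_ball.mem_nhds (by rw [hsymx]; exact hζb))
    refine (hws.congr_of_eventuallyEq ?_).contDiffWithinAt
    filter_upwards [hev1, hev2] with y h3 h4
    have h5 : e1.symm (w y) ∈ K.source := by rw [hKs]; exact h4
    have h6 : Psi C q l (e1.symm (w y)) = w y := by rw [← h1e]; exact e1.right_inv h3
    have h7 : K (e1.symm (w y)) = (Circle.exp y.1, y.2) := by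
      rw [hK, h6]
      simp only [hw]
      congr 1
      rw [Circle.exp_eq_exp]
      exact ⟨-m, by push_cast; ring⟩
    show K.symm (Circle.exp y.1, y.2) = e1.symm (w y)
    rw [← h7]; exact K.left_inv h5
  · refine ⟨fun ζ => ((Psi C q l ζ).1 + Real.pi / 2, (Psi C q l ζ).2), ?_, ?_⟩
    · intro ζ hζ
      have hζs : ζ ∈ K.source := hζ
      rw [hKs] at hζs
      have b1 := (h1c ζ (hballK hζs).1).1
      apply ContDiffAt.contDiffWithinAt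
      exact ((contDiffAt_fst.comp ζ b1).add contDiffAt_const).prodMk (contDiffAt_snd.comp ζ b1)
    · intro ζ hζ
      show K.symm.symm ζ = _
      rw [OpenPartialHomeomorph.symm_symm, hK]

end Pool.Agent.Helper649.Bil
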