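import Mathlib

set_option autoImplicit false

namespace Pool.Agent.Helper649.Bil

open Complex

/-- A multiplicative system of monomials with weights. -/
structure Sys (Ω ι : Type) [AddCommMonoid ι] where
  D : Set Ω
  χ : Ω → ι → ℂ
  W : ι → ℝ
  χ_add : ∀ p i j, χ p (i + j) = χ p i * χ p j
  χ_zero : ∀ p, χ p 0 = 1
  W_add : ∀ i j, W (i + j) = W i * W j
  W_zero : W 0 = 1
  W_pos : ∀ i, 0 < W i
  norm_le : ∀ p ∈ D, ∀ i, ‖χ p i‖ ≤ W i

namespace Sys

variable {Ω ι : Type} [AddCommMonoid ι] (S : Sys Ω ι)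

def BC (M : ℝ) (a : ι → ℂ) (f : Ω → ℂ) : Prop :=
  Summable (fun i => ‖a i‖ * S.W i) ∧ ∑' i, ‖a i‖ * S.W i ≤ M ∧
    ∀ p ∈ S.D, HasSum (fun i => a i * S.χ p i) (f p)

def B (M : ℝ) (f : Ω → ℂ) : Prop := ∃ a, S.BC M a f

variable {S}

lemma BC.nonneg {M : ℝ} {a : ι → ℂ} {f : Ω → ℂ} (h : S.BC M a f) : 0 ≤ M :=
  le_trans (tsum_nonneg fun i => mul_nonneg (norm_nonneg _) (S.W_pos i).le) h.2.1

lemma B.nonneg {M : ℝ} {f : Ω → ℂ} (h : S.B M f) : 0 ≤ M := by
  obtain ⟨a, h⟩ := h; exact h.nonneg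

lemma BC.mono {M N : ℝ} {a : ι → ℂ} {f : Ω → ℂ} (h : S.BC M a f) (hM : M ≤ N) : S.BC N a f :=
  ⟨h.1, h.2.1.trans hM, h.2.2⟩

lemma B.mono {M N : ℝ} {f : Ω → ℂ} (h : S.B M f) (hM : M ≤ N) : S.B N f := by
  obtain ⟨a, h⟩ := h; exact ⟨a, h.mono hM⟩

lemma BC.congr {M : ℝ} {a : ι → ℂ} {f g : Ω → ℂ} (h : S.BC M a f) (hfg : ∀ p ∈ S.D, f p = g p) :
    S.BC M a g :=
  ⟨h.1, h.2.1, fun p hp => by rw [← hfg p hp]; exact h.2.2 p hp⟩

lemma B.congr {M : ℝ} {f g : Ω → ℂ} (h : S.B M f) (hfg : ∀ p ∈ S.D, f p = g p) : S.B M g := by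
  obtain ⟨a, h⟩ := h; exact ⟨a, h.congr hfg⟩

lemma BC.norm_le {M : ℝ} {a : ι → ℂ} {f : Ω → ℂ} (h : S.BC M a f) {p : Ω} (hp : p ∈ S.D) :
    ‖f p‖ ≤ M := by
  have hle : ∀ i, ‖a i * S.χ p i‖ ≤ ‖a i‖ * S.W i := fun i => by
    rw [norm_mul]; exact mul_le_mul_of_nonneg_left (S.norm_le p hp i) (norm_nonneg _)
  have hn : Summable (fun i => ‖a i * S.χ p i‖) :=
    Summable.of_nonneg_of_le (fun _ => norm_nonneg _) hle h.1
  rw [← (h.2.2 p hp).tsum_eq]
  exact (norm_tsum_le_tsum_norm hn).trans ((hn.tsum_le_tsum hle h.1).trans h.2.1)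

lemma B.norm_le {M : ℝ} {f : Ω → ℂ} (h : S.B M f) {p : Ω} (hp : p ∈ S.D) : ‖f p‖ ≤ M := by
  obtain ⟨a, h⟩ := h; exact h.norm_le hp

lemma summable_term {a : ι → ℂ} (h : Summable (fun i => ‖a i‖ * S.W i)) {p : Ω} (hp : p ∈ S.D) :
    Summable (fun i => a i * S.χ p i) := by
  apply Summable.of_norm
  refine Summable.of_nonneg_of_le (fun _ => norm_nonneg _) (fun i => ?_) h
  rw [norm_mul]; exact mul_le_mul_of_nonneg_left (S.norm_le p hp i) (norm_nonneg _)

/-- The coefficients of a family. -/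
noncomputable def fam {J : Type} (c : J → ℂ) (e : J → ι) (i : ι) : ℂ := ∑' j : {j // e j = i}, c j

omit [AddCommMonoid ι] in
lemma fiber_summable {J : Type} {u : J → ℝ} (e : J → ι) (hu : Summable u) (i : ι) :
    Summable (fun j : {j // e j = i} => u j) :=
  hu.comp_injective Subtype.val_injective

omit [AddCommMonoid ι] in
lemma fiber_sum {J : Type} {u : J → ℝ} (e : J → ι) (hu : Summable u) :
    HasSum (fun i => ∑' j : {j // e j = i}, u j) (∑' j, u j) := by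
  have h1 : HasSum (u ∘ (Equiv.sigmaFiberEquiv e)) (∑' j, u j) :=
    (Equiv.sigmaFiberEquiv e).hasSum_iff.mpr hu.hasSum
  exact HasSum.sigma h1 (fun i => (fiber_summable e hu i).hasSum)

lemma fam_norm {J : Type} {c : J → ℂ} {e : J → ι} (hs : Summable fun j => ‖c j‖ * S.W (e j)) (i : ι) :
    Summable (fun j : {j // e j = i} => ‖c j‖) := by
  have h := fiber_summable e hs i
  have h2 := h.mul_right (S.W i)⁻¹
  refine h2.congr (fun j => ?_)
  have hj : e j = i := j.2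
  rw [hj, mul_assoc, mul_inv_cancel₀ (S.W_pos i).ne', mul_one]

lemma fam_le {J : Type} {c : J → ℂ} {e : J → ι} (hs : Summable fun j => ‖c j‖ * S.W (e j)) (i : ι) :
    ‖fam c e i‖ * S.W i ≤ ∑' j : {j // e j = i}, ‖c j‖ * S.W (e j) := by
  have h1 := fam_norm hs i
  have h2 : ‖fam c e i‖ ≤ ∑' j : {j // e j = i}, ‖c j‖ := norm_tsum_le_tsum_norm h1
  have h3 : ∑' j : {j // e j = i}, ‖c j‖ * S.W (e j) = (∑' j : {j // e j = i}, ‖c j‖) * S.W i := by
    rw [← tsum_mul_right]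
    refine tsum_congr (fun j => ?_)
    have hj : e j = i := j.2
    rw [hj]
  rw [h3]
  exact mul_le_mul_of_nonneg_right h2 (S.W_pos i).le

lemma fam_weight {J : Type} {c : J → ℂ} {e : J → ι} (hs : Summable fun j => ‖c j‖ * S.W (e j))
    {g : ι → ℝ} (hg : ∀ i, 0 ≤ g i) (hgs : Summable (fun j => g (e j) * (‖c j‖ * S.W (e j)))) :
    Summable (fun i => g i * (‖fam c e i‖ * S.W i)) ∧
      ∑' i, g i * (‖fam c e i‖ * S.W i) ≤ ∑' j, g (e j) * (‖c j‖ * S.W (e j)) := by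
  have h1 := fiber_sum e hgs
  have h2 : ∀ i, g i * (‖fam c e i‖ * S.W i) ≤ ∑' j : {j // e j = i}, g (e j) * (‖c j‖ * S.W (e j)) := by
    intro i
    have h3 : ∑' j : {j // e j = i}, g (e j) * (‖c j‖ * S.W (e j))
        = g i * ∑' j : {j // e j = i}, (‖c j‖ * S.W (e j)) := by
      rw [← tsum_mul_left]
      refine tsum_congr (fun j => ?_)
      have hj : e j = i := j.2
      rw [hj]
    rw [h3]
    exact mul_le_mul_of_nonneg_left (fam_le hs i) (hg i)
  have h0 : ∀ i, 0 ≤ g i * (‖fam c e i‖ * S.W i) := fun i =>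
    mul_nonneg (hg i) (mul_nonneg (norm_nonneg _) (S.W_pos i).le)
  have hsm := Summable.of_nonneg_of_le h0 h2 h1.summable
  exact ⟨hsm, (hsm.tsum_le_tsum h2 h1.summable).trans h1.tsum_eq.le⟩

lemma fam_hasSum {J : Type} {c : J → ℂ} {e : J → ι} (hs : Summable fun j => ‖c j‖ * S.W (e j))
    {p : Ω} {y : ℂ} (h : HasSum (fun j => c j * S.χ p (e j)) y) :
    HasSum (fun i => fam c e i * S.χ p i) y := by
  have h1 : HasSum ((fun j => c j * S.χ p (e j)) ∘ (Equiv.sigmaFiberEquiv e)) y :=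
    (Equiv.sigmaFiberEquiv e).hasSum_iff.mpr h
  refine HasSum.sigma h1 (fun i => ?_)
  have h2 : Summable (fun j : {j // e j = i} => c j) := (fam_norm hs i).of_norm
  have h3 := h2.hasSum.mul_right (S.χ p i)
  refine h3.congr_fun ?_
  intro j
  simp only [Function.comp, Equiv.sigmaFiberEquiv_apply]
  have hj : e j = i := j.2
  rw [hj]

lemma BC_of_family {J : Type} {c : J → ℂ} {e : J → ι} {M : ℝ} {f : Ω → ℂ}
    (hs : Summable fun j => ‖c j‖ * S.W (e j)) (hM : ∑' j, ‖c j‖ * S.W (e j) ≤ M)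
    (hf : ∀ p ∈ S.D, HasSum (fun j => c j * S.χ p (e j)) (f p)) : S.BC M (fam c e) f := by
  have h1 := fam_weight hs (g := fun _ => 1) (fun _ => zero_le_one) (by simpa using hs)
  simp only [one_mul] at h1
  exact ⟨h1.1, h1.2.trans hM, fun p hp => fam_hasSum hs (hf p hp)⟩

lemma BC.add {M N : ℝ} {a b : ι → ℂ} {f g : Ω → ℂ} (hf : S.BC M a f) (hg : S.BC N b g) :
    S.BC (M + N) (fun i => a i + b i) (fun p => f p + g p) := by
  obtain ⟨f1, f2, f3⟩ := hf
  obtain ⟨g1, g2, g3⟩ := hg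
  have hle : ∀ i, ‖a i + b i‖ * S.W i ≤ ‖a i‖ * S.W i + ‖b i‖ * S.W i := by
    intro i
    rw [← add_mul]
    exact mul_le_mul_of_nonneg_right (norm_add_le _ _) (S.W_pos i).le
  have hs : Summable (fun i => ‖a i + b i‖ * S.W i) :=
    Summable.of_nonneg_of_le (fun i => mul_nonneg (norm_nonneg _) (S.W_pos i).le) hle (f1.add g1)
  refine ⟨hs, ?_, fun p hp => ?_⟩
  · refine (hs.tsum_le_tsum hle (f1.add g1)).trans ?_
    rw [f1.tsum_add g1]; linarith
  · have := (f3 p hp).add (g3 p hp)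
    simpa [add_mul] using this

lemma BC.const_mul {M : ℝ} {a : ι → ℂ} {f : Ω → ℂ} (c : ℂ) (hf : S.BC M a f) :
    S.BC (‖c‖ * M) (fun i => c * a i) (fun p => c * f p) := by
  obtain ⟨f1, f2, f3⟩ := hf
  have e : (fun i => ‖c * a i‖ * S.W i) = fun i => ‖c‖ * (‖a i‖ * S.W i) := by
    funext i; rw [norm_mul, mul_assoc]
  refine ⟨by rw [e]; exact f1.mul_left _, ?_, fun p hp => ?_⟩
  · rw [e, tsum_mul_left]
    exact mul_le_mul_of_nonneg_left f2 (norm_nonneg _)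
  · have := (f3 p hp).mul_left c
    simpa [mul_assoc] using this

lemma BC.neg {M : ℝ} {a : ι → ℂ} {f : Ω → ℂ} (hf : S.BC M a f) :
    S.BC M (fun i => -a i) (fun p => -f p) := by
  have := hf.const_mul (-1)
  simpa using this

lemma BC.sub {M N : ℝ} {a b : ι → ℂ} {f g : Ω → ℂ} (hf : S.BC M a f) (hg : S.BC N b g) :
    S.BC (M + N) (fun i => a i - b i) (fun p => f p - g p) := by
  have := hf.add hg.neg
  simpa [sub_eq_add_neg] using this

lemma B.add {M N : ℝ} {f g : Ω → ℂ} (hf : S.B M f) (hg : S.B N g) :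
    S.B (M + N) (fun p => f p + g p) := by
  obtain ⟨a, ha⟩ := hf; obtain ⟨b, hb⟩ := hg; exact ⟨_, ha.add hb⟩

lemma B.sub {M N : ℝ} {f g : Ω → ℂ} (hf : S.B M f) (hg : S.B N g) :
    S.B (M + N) (fun p => f p - g p) := by
  obtain ⟨a, ha⟩ := hf; obtain ⟨b, hb⟩ := hg; exact ⟨_, ha.sub hb⟩

lemma B.neg {M : ℝ} {f : Ω → ℂ} (hf : S.B M f) : S.B M (fun p => -f p) := by
  obtain ⟨a, ha⟩ := hf; exact ⟨_, ha.neg⟩

lemma B.const_mul {M : ℝ} {f : Ω → ℂ} (c : ℂ) (hf : S.B M f) : S.B (‖c‖ * M) (fun p => c * f p) := by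
  obtain ⟨a, ha⟩ := hf; exact ⟨_, ha.const_mul c⟩

variable (S) in
lemma BC.single [DecidableEq ι] (c : ℂ) (k : ι) :
    S.BC (‖c‖ * S.W k) (fun i => if i = k then c else 0) (fun p => c * S.χ p k) := by
  have h1 : HasSum (fun i : ι => ‖(if i = k then c else 0 : ℂ)‖ * S.W i) (‖c‖ * S.W k) := by
    have := hasSum_single (f := fun i : ι => ‖(if i = k then c else 0 : ℂ)‖ * S.W i) k
      (by intro i hi; simp [hi])
    simpa using this
  refine ⟨h1.summable, h1.tsum_eq.le, fun p _ => ?_⟩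
  have := hasSum_single (f := fun i : ι => (if i = k then c else 0 : ℂ) * S.χ p i) k
      (by intro i hi; simp [hi])
  simpa using this

variable (S) in
lemma B.single (c : ℂ) (k : ι) : S.B (‖c‖ * S.W k) (fun p => c * S.χ p k) := by
  classical
  exact ⟨_, BC.single S c k⟩

variable (S) in
lemma B.const (c : ℂ) : S.B ‖c‖ (fun _ => c) := by
  have h := B.single S c 0
  simp only [S.χ_zero, S.W_zero, mul_one] at h
  exact h

variable (S) in
lemma B.zero : S.B 0 (fun _ => 0) := by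
  have h := B.const S 0
  simpa using h

lemma B.mul {M N : ℝ} {f g : Ω → ℂ} (hf : S.B M f) (hg : S.B N g) :
    S.B (M * N) (fun p => f p * g p) := by
  have hM := hf.nonneg
  have hN := hg.nonneg
  obtain ⟨a, f1, f2, f3⟩ := hf
  obtain ⟨b, g1, g2, g3⟩ := hg
  have e1 : (fun x : ι × ι => ‖a x.1 * b x.2‖ * S.W (x.1 + x.2))
      = fun x : ι × ι => (‖a x.1‖ * S.W x.1) * (‖b x.2‖ * S.W x.2) := by
    funext x; rw [norm_mul, S.W_add]; ring
  have hF0 : ∀ i, 0 ≤ ‖a i‖ * S.W i := fun i => mul_nonneg (norm_nonneg _) (S.W_pos i).le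
  have hG0 : ∀ i, 0 ≤ ‖b i‖ * S.W i := fun i => mul_nonneg (norm_nonneg _) (S.W_pos i).le
  have hFG : Summable (fun x : ι × ι => (‖a x.1‖ * S.W x.1) * (‖b x.2‖ * S.W x.2)) :=
    f1.mul_of_nonneg g1 hF0 hG0
  refine ⟨_, BC_of_family (J := ι × ι) (c := fun x => a x.1 * b x.2) (e := fun x => x.1 + x.2) ?_ ?_ ?_⟩
  · rw [e1]; exact hFG
  · rw [e1, ← f1.tsum_mul_tsum g1 hFG]
    exact mul_le_mul f2 g2 (tsum_nonneg hG0) hM
  · intro p hp
    have hs : Summable (fun x : ι × ι => (a x.1 * S.χ p x.1) * (b x.2 * S.χ p x.2)) := by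
      apply Summable.of_norm
      refine Summable.of_nonneg_of_le (fun x => norm_nonneg _) (fun x => ?_) hFG
      rw [norm_mul, norm_mul, norm_mul]
      have h1 := S.norm_le p hp x.1
      have h2 := S.norm_le p hp x.2
      have := S.W_pos x.1
      have := S.W_pos x.2
      gcongr
    have h2 := HasSum.mul (f3 p hp) (g3 p hp) hs
    refine h2.congr_fun (fun x => ?_)
    rw [S.χ_add]; ring

lemma B.pow {M : ℝ} {f : Ω → ℂ} (hf : S.B M f) (n : ℕ) : S.B (M ^ n) (fun p => f p ^ n) := by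
  induction n with
  | zero => simpa using B.const S 1
  | succ n ih =>
    have := ih.mul hf
    simpa [pow_succ] using this

/-- sums of sequences of functions -/
lemma B.tsum {J : Type} {C : J → ℝ} {f : J → Ω → ℂ} (hf : ∀ j, S.B (C j) (f j)) (hC : Summable C) :
    S.B (∑' j, C j) (fun p => ∑' j, f j p) := by
  choose a ha using hf
  have h0 : ∀ x : (_ : J) × ι, 0 ≤ ‖a x.1 x.2‖ * S.W x.2 := fun x =>
    mul_nonneg (norm_nonneg _) (S.W_pos _).le
  have hs : Summable (fun x : (_ : J) × ι => ‖a x.1 x.2‖ * S.W x.2) := by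
    rw [summable_sigma_of_nonneg h0]
    refine ⟨fun j => (ha j).1, ?_⟩
    exact Summable.of_nonneg_of_le (fun j => tsum_nonneg fun i => h0 ⟨j, i⟩) (fun j => (ha j).2.1) hC
  refine ⟨_, BC_of_family (J := (_ : J) × ι) (c := fun x => a x.1 x.2) (e := fun x => x.2) hs ?_ ?_⟩
  · rw [hs.tsum_sigma]
    refine Summable.tsum_le_tsum (fun j => (ha j).2.1) ?_ hC
    exact hs.sigma
  · intro p hp
    have hsp : Summable (fun x : (_ : J) × ι => a x.1 x.2 * S.χ p x.2) := by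
      apply Summable.of_norm
      refine Summable.of_nonneg_of_le (fun x => norm_nonneg _) (fun x => ?_) hs
      rw [norm_mul]; exact mul_le_mul_of_nonneg_left (S.norm_le p hp _) (norm_nonneg _)
    have h1 := hsp.hasSum
    have h2 : ∑' x : (_ : J) × ι, a x.1 x.2 * S.χ p x.2 = ∑' j, f j p := by
      rw [hsp.tsum_sigma]
      exact tsum_congr (fun j => ((ha j).2.2 p hp).tsum_eq)
    rw [h2] at h1
    exact h1

/-- composition with a power series -/
lemma B.comp {C : ℕ → ℝ} {f : Ω → ℂ} {φ : ℕ → ℂ} (hf : ∀ j, S.B (C j) (fun p => f p ^ j))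
    (hC : Summable (fun j => ‖φ j‖ * C j)) :
    S.B (∑' j, ‖φ j‖ * C j) (fun p => ∑' j, φ j * f p ^ j) :=
  B.tsum (fun j => (hf j).const_mul (φ j)) hC

lemma B.summable_comp {C : ℕ → ℝ} {f : Ω → ℂ} {φ : ℕ → ℂ} (hf : ∀ j, S.B (C j) (fun p => f p ^ j))
    (hC : Summable (fun j => ‖φ j‖ * C j)) {p : Ω} (hp : p ∈ S.D) :
    Summable (fun j => φ j * f p ^ j) := by
  apply Summable.of_norm
  refine Summable.of_nonneg_of_le (fun x => norm_nonneg _) (fun j => ?_) hC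
  rw [norm_mul]
  exact mul_le_mul_of_nonneg_left ((hf j).norm_le hp) (norm_nonneg _)

/-- inverse of a function close to a constant -/
lemma B.inv {c : ℂ} (hc : c ≠ 0) {f : Ω → ℂ} (hf : S.B (‖c‖ / 2) (fun p => f p - c)) :
    S.B (2 / ‖c‖) (fun p => (f p)⁻¹) ∧ ∀ p ∈ S.D, f p ≠ 0 := by
  have hcn : 0 < ‖c‖ := norm_pos_iff.mpr hc
  have hne : ∀ p ∈ S.D, f p ≠ 0 := by
    intro p hp h0
    have := hf.norm_le hp
    rw [h0, zero_sub, norm_neg] at this
    linarith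
  refine ⟨?_, hne⟩
  have hg : S.B (1 / 2) (fun p => -c⁻¹ * (f p - c)) := by
    have := hf.const_mul (-c⁻¹)
    have e : ‖-c⁻¹‖ * (‖c‖ / 2) = 1 / 2 := by
      rw [norm_neg, norm_inv]; field_simp
    rw [e] at this; exact this
  have h1 := B.comp (S := S) (f := fun p => -c⁻¹ * (f p - c)) (φ := fun _ => 1) (C := fun j => (1/2 : ℝ) ^ j)
    (fun j => hg.pow j) (by simpa using (summable_geometric_of_lt_one (r := (1 / 2 : ℝ)) (by norm_num) (by norm_num)))
  have h2 := h1.const_mul c⁻¹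
  simp only [norm_one, one_mul] at h2
  rw [tsum_geometric_of_lt_one (by norm_num) (by norm_num)] at h2
  have e : ‖c⁻¹‖ * (1 - 1 / 2 : ℝ)⁻¹ = 2 / ‖c‖ := by
    rw [norm_inv]; norm_num; field_simp
  rw [e] at h2
  refine h2.congr (fun p hp => ?_)
  have hlt : ‖-c⁻¹ * (f p - c)‖ < 1 := lt_of_le_of_lt (hg.norm_le hp) (by norm_num)
  rw [tsum_geometric_of_norm_lt_one hlt]
  have : (1 : ℂ) - -c⁻¹ * (f p - c) = c⁻¹ * f p := by field_simp; ring
  rw [this]
  have := hne p hp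
  field_simp

end Sys

end Pool.Agent.Helper649.Bil
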