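import Pool.Agent.Helper649.BilS

set_option autoImplicit false

namespace Pool.Agent.Helper649.Bil

open Complex Filter Topology

lemma cst_of_beta {β Γ : ℝ} (hΓ : ∀ k : ℤ, k ≠ 0 → 1 ≤ Γ * (k : ℝ) ^ 2 * ‖cexp ((k * β : ℝ) * I) - 1‖) :
    ∃ C : Cst, C.ν ^ 4 = cexp (β * I) := by
  have hexp : ∀ x : ℝ, cexp (x * I) = ((Real.cos x : ℝ) : ℂ) + ((Real.sin x : ℝ) : ℂ) * I := fun x => by
    rw [Complex.exp_mul_I, Complex.ofReal_cos, Complex.ofReal_sin]
  set ν : ℂ := cexp ((β / 4 : ℝ) * I) with hν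
  have hν4 : ν ^ 4 = cexp (β * I) := by
    rw [hν, ← Complex.exp_nat_mul]; congr 1; push_cast; ring
  have hνinv : ν⁻¹ = cexp ((-(β / 4) : ℝ) * I) := by
    rw [hν, ← Complex.exp_neg]; congr 1; push_cast; ring
  have hνn : ‖ν‖ = 1 := Complex.norm_exp_ofReal_mul_I _
  have hΓ0 : 0 < Γ := by
    have h1 := hΓ 1 (by norm_num)
    by_contra hc
    push Not at hc
    have : Γ * ((1 : ℤ) : ℝ) ^ 2 * ‖cexp (((1 : ℤ) * β : ℝ) * I) - 1‖ ≤ 0 := by
      apply mul_nonpos_of_nonpos_of_nonneg _ (norm_nonneg _)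
      simpa using hc
    linarith
  have hcos : Real.cos (β / 4) ≠ 0 := by
    intro hc
    have h1 : ν = ((Real.sin (β / 4) : ℝ) : ℂ) * I := by rw [hν, hexp, hc]; simp
    have h2 : Real.sin (β / 4) ^ 2 = 1 := by
      have := Real.sin_sq_add_cos_sq (β / 4)
      rw [hc] at this; linarith
    have h3 : ν ^ 4 = 1 := by
      have h4 : ν ^ 4 = ((Real.sin (β / 4) ^ 2 : ℝ) : ℂ) ^ 2 * (I ^ 2) ^ 2 := by rw [h1]; push_cast; ring
      rw [h4, h2, Complex.I_sq]; norm_num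
    have h5 := hΓ 1 (by norm_num)
    have h6 : cexp (((1 : ℤ) * β : ℝ) * I) - 1 = 0 := by
      rw [Int.cast_one, one_mul, ← hν4, h3, sub_self]
    rw [h6, norm_zero, mul_zero] at h5
    norm_num at h5
  have hsum : ν + ν⁻¹ = 2 * ((Real.cos (β / 4) : ℝ) : ℂ) := by
    rw [hνinv, hν, hexp, hexp, Real.cos_neg, Real.sin_neg]; push_cast; ring
  have hdiff : ν - ν⁻¹ = 2 * I * ((Real.sin (β / 4) : ℝ) : ℂ) := by
    rw [hνinv, hν, hexp, hexp, Real.cos_neg, Real.sin_neg]; push_cast; ring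
  have hcosc : ((Real.cos (β / 4) : ℝ) : ℂ) ≠ 0 := by exact_mod_cast hcos
  refine ⟨{ ν := ν, μ := 1, q1 := 1 / Real.cos (β / 4), T := Real.sin (β / 4) / Real.cos (β / 4), Γ := 2 * Γ,
            hν := hνn, hμ0 := one_pos, hμ1 := le_rfl, hΓ := by positivity, hdiv := ?_, hq1 := ?_, hT := ?_ }, hν4⟩
  · intro k hk
    have h1 := hΓ k hk
    set x := (ν ^ 2) ^ k with hx
    have hxn : ‖x‖ = 1 := by rw [hx, norm_zpow, norm_pow, hνn, one_pow, one_zpow]
    have h2 : cexp ((k * β : ℝ) * I) = x ^ 2 := by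
      have h3 : cexp ((k * β : ℝ) * I) = (cexp (β * I)) ^ k := by
        rw [← Complex.exp_int_mul]; congr 1; push_cast; ring
      rw [h3, ← hν4, hx, ← zpow_natCast, ← zpow_natCast, ← zpow_natCast, ← zpow_mul, ← zpow_mul, ← zpow_mul]
      congr 1
      push_cast; ring
    have h4 : ‖cexp ((k * β : ℝ) * I) - 1‖ ≤ 2 * ‖x - 1‖ := by
      have h5 : cexp ((k * β : ℝ) * I) - 1 = (x + 1) * (x - 1) := by rw [h2]; ring
      rw [h5, norm_mul]
      have h6 : ‖x + 1‖ ≤ 2 := (norm_add_le _ _).trans (by rw [hxn, norm_one]; norm_num)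
      gcongr
    calc (1 : ℝ) ≤ Γ * (k : ℝ) ^ 2 * ‖cexp ((k * β : ℝ) * I) - 1‖ := h1
      _ ≤ Γ * (k : ℝ) ^ 2 * (2 * ‖x - 1‖) := by gcongr
      _ = 2 * Γ * (k : ℝ) ^ 2 * ‖x - 1‖ := by ring
  · show ((1 / Real.cos (β / 4) : ℝ) : ℂ) * (ν + ν⁻¹) = 2
    rw [hsum, Complex.ofReal_div, Complex.ofReal_one]; field_simp
  · rw [hdiff]; push_cast; field_simp

/-- A Diophantine angle. -/
lemma dioph_example : ∃ Γ : ℝ, ∀ k : ℤ, k ≠ 0 → 1 ≤ Γ * (k : ℝ) ^ 2 * ‖cexp ((k * (2 * Real.pi * Real.sqrt 2) : ℝ) * I) - 1‖ := by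
  refine ⟨1, fun k hk => ?_⟩
  set m : ℤ := round (k * Real.sqrt 2) with hm
  set x : ℝ := k * Real.sqrt 2 - m with hx
  have hx2 : |x| ≤ 1 / 2 := abs_sub_round _
  have hs2 : Real.sqrt 2 ^ 2 = 2 := Real.sq_sqrt (by norm_num)
  have hs15 : Real.sqrt 2 ≤ 3 / 2 := by
    rw [Real.sqrt_le_left (by norm_num)]; norm_num
  have hs0 : 0 ≤ Real.sqrt 2 := Real.sqrt_nonneg 2
  -- lower bound for the distance
  have hint : (1 : ℝ) ≤ |2 * (k : ℝ) ^ 2 - (m : ℝ) ^ 2| := by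
    have h1 : (2 * k ^ 2 - m ^ 2 : ℤ) ≠ 0 := by
      intro h0
      have h2 : (m : ℝ) ^ 2 = (k * Real.sqrt 2) ^ 2 := by
        have : ((2 * k ^ 2 - m ^ 2 : ℤ) : ℝ) = 0 := by rw [h0]; simp
        push_cast at this
        rw [mul_pow, hs2]; linarith
      have hirr := irrational_sqrt_two
      rcases sq_eq_sq_iff_eq_or_eq_neg.mp h2 with h3 | h3
      · apply hirr
        refine ⟨(m : ℚ) / k, ?_⟩
        push_cast
        rw [div_eq_iff (by exact_mod_cast hk)]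
        linarith
      · apply hirr
        refine ⟨-(m : ℚ) / k, ?_⟩
        push_cast
        rw [div_eq_iff (by exact_mod_cast hk)]
        linarith
    have h2 := Int.one_le_abs h1
    exact_mod_cast h2
  have hprod : |2 * (k : ℝ) ^ 2 - (m : ℝ) ^ 2| = |x| * |k * Real.sqrt 2 + m| := by
    rw [← abs_mul]; congr 1
    rw [hx]
    linear_combination (-(k : ℝ) ^ 2) * hs2
  have hk1 : (1 : ℝ) ≤ |(k : ℝ)| := by exact_mod_cast Int.one_le_abs hk
  have hsum : |k * Real.sqrt 2 + m| ≤ 4 * |(k : ℝ)| := by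
    have e : k * Real.sqrt 2 + m = 2 * (k * Real.sqrt 2) - x := by rw [hx]; ring
    rw [e]
    refine (abs_sub _ _).trans ?_
    rw [abs_mul, abs_mul, abs_of_nonneg hs0, abs_of_pos (by norm_num : (0 : ℝ) < 2)]
    nlinarith
  have hxlb : 1 ≤ |x| * (4 * |(k : ℝ)|) := by
    calc (1 : ℝ) ≤ |x| * |k * Real.sqrt 2 + m| := by rw [← hprod]; exact hint
      _ ≤ |x| * (4 * |(k : ℝ)|) := by gcongr
  -- lower bound for the exponential
  have hexpx : cexp ((k * (2 * Real.pi * Real.sqrt 2) : ℝ) * I) = cexp (I * ((2 * Real.pi * x : ℝ) : ℂ)) := by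
    have e : (((k * (2 * Real.pi * Real.sqrt 2) : ℝ) : ℂ) * I)
        = I * ((2 * Real.pi * x : ℝ) : ℂ) + (m : ℤ) * (2 * Real.pi * I) := by
      rw [hx]; push_cast; ring
    rw [e, Complex.exp_add, Complex.exp_int_mul_two_pi_mul_I, mul_one]
  have hlb : 4 * |x| ≤ ‖cexp ((k * (2 * Real.pi * Real.sqrt 2) : ℝ) * I) - 1‖ := by
    rw [hexpx, Complex.norm_exp_I_mul_ofReal_sub_one, Real.norm_eq_abs, abs_mul]
    have h2 : |(2 : ℝ)| = 2 := by norm_num
    rw [h2]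
    have e : 2 * Real.pi * x / 2 = Real.pi * x := by ring
    rw [e]
    have h3 : |Real.sin (Real.pi * x)| = Real.sin (Real.pi * |x|) := by
      rcases le_total 0 x with h | h
      · rw [abs_of_nonneg h, abs_of_nonneg]
        apply Real.sin_nonneg_of_nonneg_of_le_pi (by positivity)
        rw [abs_of_nonneg h] at hx2
        nlinarith [Real.pi_pos]
      · rw [abs_of_nonpos h]
        rw [abs_of_nonpos h] at hx2
        have e2 : Real.pi * x = -(Real.pi * -x) := by ring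
        rw [e2, Real.sin_neg, abs_neg, abs_of_nonneg]
        apply Real.sin_nonneg_of_nonneg_of_le_pi
        · have : 0 ≤ -x := by linarith
          positivity
        · nlinarith [Real.pi_pos]
    rw [h3]
    have h4 := Real.mul_le_sin (x := Real.pi * |x|) (by positivity) (by nlinarith [Real.pi_pos])
    have e3 : 2 / Real.pi * (Real.pi * |x|) = 2 * |x| := by
      have := Real.pi_pos.ne'
      field_simp
    rw [e3] at h4
    linarith
  have hk2 : (k : ℝ) ^ 2 = |(k : ℝ)| * |(k : ℝ)| := by rw [← sq_abs, sq]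
  have habs0 : 0 ≤ |x| := abs_nonneg x
  calc (1 : ℝ) ≤ |x| * (4 * |(k : ℝ)|) := hxlb
    _ ≤ |x| * (4 * |(k : ℝ)|) * |(k : ℝ)| := le_mul_of_one_le_right (by positivity) hk1
    _ = 1 * (k : ℝ) ^ 2 * (4 * |x|) := by rw [hk2]; ring
    _ ≤ 1 * (k : ℝ) ^ 2 * ‖cexp ((k * (2 * Real.pi * Real.sqrt 2) : ℝ) * I) - 1‖ := by gcongr

end Pool.Agent.Helper649.Bil
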