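import Pool.Agent.Helper649.BilFun

set_option autoImplicit false

namespace Pool.Agent.Helper649.Bil

open Complex

/-- power series in the bidisc variables and one more variable -/
noncomputable def S3 (r τ : ℝ) : Sys ((ℂ × ℂ) × ℂ) ((ℕ × ℕ) × ℕ) where
  D := {x | x.1 ∈ (S2 r).D ∧ ‖x.2‖ ≤ pr τ}
  χ := fun x i => (S2 r).χ x.1 i.1 * x.2 ^ i.2
  W := fun i => (S2 r).W i.1 * pr τ ^ i.2
  χ_add := fun x i j => by
    rw [Prod.fst_add, Prod.snd_add, (S2 r).χ_add, pow_add]; ring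
  χ_zero := fun x => by
    rw [Prod.fst_zero, Prod.snd_zero, (S2 r).χ_zero]; simp
  W_add := fun i j => by
    rw [Prod.fst_add, Prod.snd_add, (S2 r).W_add, pow_add]; ring
  W_zero := by rw [Prod.fst_zero, Prod.snd_zero, (S2 r).W_zero]; simp
  W_pos := fun i => mul_pos ((S2 r).W_pos _) (pow_pos (pr_pos τ) _)
  norm_le := fun x hx i => by
    rw [norm_mul, norm_pow]
    have h1 := (S2 r).norm_le x.1 hx.1 i.1
    have h2 := pow_le_pow_left₀ (norm_nonneg _) hx.2 i.2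
    exact mul_le_mul h1 h2 (by positivity) ((S2 r).W_pos _).le

lemma mem_S3 {r τ : ℝ} (hτ : 0 < τ) (x : (ℂ × ℂ) × ℂ) : x ∈ (S3 r τ).D ↔ x.1 ∈ (S2 r).D ∧ ‖x.2‖ ≤ τ := by
  show x.1 ∈ (S2 r).D ∧ ‖x.2‖ ≤ pr τ ↔ _
  rw [pr_eq hτ]

lemma B3_lift {r τ M : ℝ} {f : ℂ × ℂ → ℂ} (hf : (S2 r).B M f) : (S3 r τ).B M (fun x => f x.1) := by
  obtain ⟨a, f1, f2, f3⟩ := hf
  have e : ∀ i : ℕ × ℕ, ‖a i‖ * (S3 r τ).W (i, 0) = ‖a i‖ * (S2 r).W i := fun i => by
    show ‖a i‖ * ((S2 r).W i * pr τ ^ 0) = _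
    rw [pow_zero, mul_one]
  refine ⟨_, Sys.BC_of_family (S := S3 r τ) (J := ℕ × ℕ) (c := a) (e := fun i => (i, 0)) ?_ ?_ ?_⟩
  · simp only [e]; exact f1
  · simp only [e]; exact f2
  · intro x hx
    refine (f3 x.1 hx.1).congr_fun (fun i => ?_)
    show a i * ((S2 r).χ x.1 i * x.2 ^ 0) = _
    rw [pow_zero, mul_one]

lemma B3_t {r τ : ℝ} (hτ : 0 < τ) : (S3 r τ).B τ (fun x => x.2) := by
  have h := Sys.B.single (S3 r τ) 1 ((0, 0), 1)
  have e1 : (S3 r τ).W ((0, 0), 1) = τ := by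
    show (S2 r).W 0 * pr τ ^ 1 = τ
    rw [(S2 r).W_zero, pr_eq hτ]; ring
  have e2 : ∀ x : (ℂ × ℂ) × ℂ, (S3 r τ).χ x ((0, 0), 1) = x.2 := fun x => by
    show (S2 r).χ x.1 0 * x.2 ^ 1 = x.2
    rw [(S2 r).χ_zero]; ring
  simp only [e1, e2, norm_one, one_mul] at h
  exact h

lemma B3_rot {r τ M : ℝ} {l : ℂ} (hl : ‖l‖ = 1) {F : (ℂ × ℂ) × ℂ → ℂ} (hF : (S3 r τ).B M F) :
    (S3 r τ).B M (fun x => F (rot l x.1, x.2)) := by
  obtain ⟨a, f1, f2, f3⟩ := hF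
  have hl2 : ∀ i : ℕ × ℕ, ‖l ^ i.1 * (l⁻¹) ^ i.2‖ = 1 := fun i => by
    rw [norm_mul, norm_pow, norm_pow, norm_inv, hl]; simp
  have e : (fun i : (ℕ × ℕ) × ℕ => ‖(l ^ i.1.1 * (l⁻¹) ^ i.1.2) * a i‖ * (S3 r τ).W i) = fun i => ‖a i‖ * (S3 r τ).W i := by
    funext i; rw [norm_mul, hl2, one_mul]
  refine ⟨fun i => (l ^ i.1.1 * (l⁻¹) ^ i.1.2) * a i, by rw [e]; exact f1, by rw [e]; exact f2, fun x hx => ?_⟩
  refine (f3 (rot l x.1, x.2) ⟨rot_mem hl hx.1, hx.2⟩).congr_fun (fun i => ?_)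
  show _ = a i * ((S2 r).χ (rot l x.1) i.1 * x.2 ^ i.2)
  show (l ^ i.1.1 * (l⁻¹) ^ i.1.2) * a i * ((S2 r).χ x.1 i.1 * x.2 ^ i.2) = _
  simp only [chi_S2, rot, mul_pow]; ring

lemma hasDerivAt_of_sq {f : ℂ → ℂ} {f' : ℂ} {C : ℝ} (h : ∀ t : ℂ, ‖t‖ ≤ 1 → ‖f t - f 0 - t * f'‖ ≤ C * ‖t‖ ^ 2) :
    HasDerivAt f f' 0 := by
  rw [hasDerivAt_iff_isLittleO_nhds_zero]
  have h1 : (fun t : ℂ => f (0 + t) - f 0 - t • f') =O[nhds 0] fun t : ℂ => t ^ 2 := by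
    refine Asymptotics.IsBigO.of_bound C ?_
    have : Metric.ball (0 : ℂ) 1 ∈ nhds (0 : ℂ) := Metric.ball_mem_nhds _ one_pos
    filter_upwards [this] with t ht
    rw [mem_ball_zero_iff] at ht
    rw [zero_add, smul_eq_mul, norm_pow]
    exact h t ht.le
  refine h1.trans_isLittleO ?_
  have h2 : (fun t : ℂ => t ^ 2) =o[nhds 0] fun t : ℂ => t ^ 1 := Asymptotics.isLittleO_pow_pow (by norm_num)
  simpa using h2

/-- extraction of the first order part in `t`. -/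
lemma B3_extract {r τ M : ℝ} (hτ : 1 ≤ τ) {F : (ℂ × ℂ) × ℂ → ℂ} (hF : (S3 r τ).B M F) :
    ∃ F1 : ℂ × ℂ → ℂ, (S2 r).B (M / τ) F1 ∧
      (S2 r).B (M / τ ^ 2) (fun p => F (p, 1) - F (p, 0) - F1 p) ∧
      (S2 r).B (M / τ) (fun p => F (p, 1) - F (p, 0)) ∧
      (S2 r).B M (fun p => F (p, 0)) ∧
      (S2 r).B M (fun p => F (p, 1)) ∧
      ∀ p ∈ (S2 r).D, HasDerivAt (fun t => F (p, t)) (F1 p) 0 := by
  have hM := hF.nonneg
  have hτ0 : 0 < τ := by linarith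
  obtain ⟨a, f1, f2, f3⟩ := hF
  have hW : ∀ x : (ℕ × ℕ) × ℕ, ‖a x‖ * (S3 r τ).W x = ‖a x‖ * (S2 r).W x.1 * τ ^ x.2 := fun x => by
    show ‖a x‖ * ((S2 r).W x.1 * pr τ ^ x.2) = _
    rw [pr_eq hτ0]; ring
  have g1 : Summable (fun x : (ℕ × ℕ) × ℕ => ‖a x‖ * (S2 r).W x.1 * τ ^ x.2) := f1.congr (fun x => hW x)
  have g2 : ∑' x : (ℕ × ℕ) × ℕ, ‖a x‖ * (S2 r).W x.1 * τ ^ x.2 ≤ M := by
    rw [← tsum_congr hW]; exact f2
  have g1' : Summable (fun x : ℕ × (ℕ × ℕ) => ‖a (x.2, x.1)‖ * (S2 r).W x.2 * τ ^ x.1) :=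
    (Equiv.prodComm ℕ (ℕ × ℕ)).summable_iff.mpr g1
  have g2' : ∑' x : ℕ × (ℕ × ℕ), ‖a (x.2, x.1)‖ * (S2 r).W x.2 * τ ^ x.1 ≤ M := by
    have := (Equiv.prodComm ℕ (ℕ × ℕ)).tsum_eq (fun x : (ℕ × ℕ) × ℕ => ‖a x‖ * (S2 r).W x.1 * τ ^ x.2)
    exact this.trans_le g2
  set m : ℕ → ℝ := fun k => ∑' i, ‖a (i, k)‖ * (S2 r).W i with hm
  have hrow : ∀ k, Summable (fun i => ‖a (i, k)‖ * (S2 r).W i) := fun k => by
    refine ((g1'.prod_factor k).mul_right (τ ^ k)⁻¹).congr (fun i => ?_)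
    have : τ ^ k ≠ 0 := by positivity
    field_simp
  have hm0 : ∀ k, 0 ≤ m k := fun k => tsum_nonneg fun i => mul_nonneg (norm_nonneg _) ((S2 r).W_pos i).le
  have hmk : ∀ k, ∑' i, ‖a (i, k)‖ * (S2 r).W i * τ ^ k = m k * τ ^ k := fun k => tsum_mul_right
  have hms : Summable (fun k => m k * τ ^ k) := by
    refine (g1'.prod).congr (fun k => ?_)
    exact hmk k
  have hmt : ∑' k, m k * τ ^ k ≤ M := by
    refine le_trans (le_of_eq ?_) g2'
    rw [g1'.tsum_prod]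
    exact tsum_congr (fun k => (hmk k).symm)
  -- the functions
  set Fk : ℕ → ℂ × ℂ → ℂ := fun k p => ∑' i, a (i, k) * (S2 r).χ p i with hFk
  have hFB : ∀ k, (S2 r).B (m k) (Fk k) := fun k =>
    ⟨fun i => a (i, k), hrow k, le_rfl, fun p hp => (Sys.summable_term (hrow k) hp).hasSum⟩
  have hval : ∀ p ∈ (S2 r).D, ∀ t : ℂ, ‖t‖ ≤ τ → HasSum (fun k => Fk k p * t ^ k) (F (p, t)) := by
    intro p hp t ht
    have h1 := f3 (p, t) ((mem_S3 hτ0 (p, t)).mpr ⟨hp, ht⟩)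
    have h2 : HasSum (fun x : ℕ × (ℕ × ℕ) => a (x.2, x.1) * (S3 r τ).χ (p, t) (x.2, x.1)) (F (p, t)) :=
      (Equiv.prodComm ℕ (ℕ × ℕ)).hasSum_iff.mpr h1
    refine h2.prod_fiberwise (fun k => ?_)
    have h3 := (Sys.summable_term (hrow k) hp).hasSum.mul_right (t ^ k)
    refine h3.congr_fun (fun i => ?_)
    show a (i, k) * ((S2 r).χ p i * t ^ k) = _
    ring
  have hms' : Summable m := by
    refine Summable.of_nonneg_of_le hm0 (fun k => ?_) hms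
    exact le_mul_of_one_le_right (hm0 k) (one_le_pow₀ hτ)
  have hmt' : ∑' k, m k ≤ M := by
    refine (hms'.tsum_le_tsum (fun k => ?_) hms).trans hmt
    exact le_mul_of_one_le_right (hm0 k) (one_le_pow₀ hτ)
  have hm1 : ∑' k, m (k + 1) ≤ M / τ := by
    have h1 : Summable (fun k => m (k + 1) * τ ^ (k + 1)) := (summable_nat_add_iff 1).mpr hms
    have h2 : ∑' k, m (k + 1) * τ ^ (k + 1) ≤ M := by
      have := hms.tsum_eq_zero_add
      have h0 := hm0 0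
      simp only [pow_zero, mul_one] at this
      linarith
    rw [le_div_iff₀ hτ0, ← tsum_mul_right]
    refine (Summable.tsum_le_tsum (fun k => ?_) (((summable_nat_add_iff 1).mpr hms').mul_right τ) h1).trans h2
    have : τ ≤ τ ^ (k + 1) := by
      rw [pow_succ]; exact le_mul_of_one_le_left hτ0.le (one_le_pow₀ hτ)
    have := hm0 (k + 1)
    gcongr
  have hm2 : ∑' k, m (k + 2) ≤ M / τ ^ 2 := by
    have h1 : Summable (fun k => m (k + 2) * τ ^ (k + 2)) := (summable_nat_add_iff 2).mpr hms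
    have h2 : ∑' k, m (k + 2) * τ ^ (k + 2) ≤ M := by
      have := hms.sum_add_tsum_nat_add 2
      have h0 : 0 ≤ ∑ i ∈ Finset.range 2, m i * τ ^ i := Finset.sum_nonneg (fun i _ => mul_nonneg (hm0 i) (by positivity))
      linarith
    rw [le_div_iff₀ (by positivity), ← tsum_mul_right]
    refine (Summable.tsum_le_tsum (fun k => ?_) (((summable_nat_add_iff 2).mpr hms').mul_right (τ ^ 2)) h1).trans h2
    have : τ ^ 2 ≤ τ ^ (k + 2) := by
      rw [pow_add]; exact le_mul_of_one_le_left (by positivity) (one_le_pow₀ hτ)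
    have := hm0 (k + 2)
    gcongr
  have hm1' : m 1 ≤ M / τ := by
    refine le_trans ?_ hm1
    exact ((summable_nat_add_iff 1).mpr hms').le_tsum 0 (fun k _ => hm0 (k + 1))
  have hF0 : ∀ p ∈ (S2 r).D, F (p, 0) = Fk 0 p := by
    intro p hp
    have h1 := hval p hp 0 (by simpa using hτ0.le)
    have h2 : HasSum (fun k => Fk k p * (0 : ℂ) ^ k) (Fk 0 p) := by
      have := hasSum_single (f := fun k => Fk k p * (0 : ℂ) ^ k) 0 (by intro k hk; simp [hk])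
      simpa using this
    exact h1.unique h2
  have hF1 : ∀ p ∈ (S2 r).D, HasSum (fun k => Fk k p) (F (p, 1)) := by
    intro p hp
    have h1 := hval p hp 1 (by simpa using hτ)
    simpa using h1
  refine ⟨Fk 1, (hFB 1).mono hm1', ?_, ?_, ?_, ?_, ?_⟩
  · have h1 := Sys.B.tsum (fun k => hFB (k + 2)) ((summable_nat_add_iff 2).mpr hms')
    refine (h1.mono hm2).congr (fun p hp => ?_)
    have h2 := (hF1 p hp).summable.sum_add_tsum_nat_add 2
    rw [(hF1 p hp).tsum_eq] at h2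
    simp only [Finset.sum_range_succ, Finset.range_zero, Finset.sum_empty, zero_add] at h2
    rw [hF0 p hp, ← h2]; ring
  · have h1 := Sys.B.tsum (fun k => hFB (k + 1)) ((summable_nat_add_iff 1).mpr hms')
    refine (h1.mono hm1).congr (fun p hp => ?_)
    have h2 := (hF1 p hp).summable.tsum_eq_zero_add
    rw [(hF1 p hp).tsum_eq] at h2
    rw [hF0 p hp, h2]; ring
  · refine ((hFB 0).mono ?_).congr (fun p hp => (hF0 p hp).symm)
    exact (hms'.le_tsum 0 (fun k _ => hm0 k)).trans hmt'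
  · have h1 := Sys.B.tsum hFB hms'
    exact (h1.mono hmt').congr (fun p hp => (hF1 p hp).tsum_eq)
  · intro p hp
    apply hasDerivAt_of_sq (C := M / τ ^ 2)
    intro t ht
    have h1 := hval p hp t (ht.trans hτ)
    have h2 := h1.summable.sum_add_tsum_nat_add 2
    rw [h1.tsum_eq] at h2
    simp only [Finset.sum_range_succ, Finset.range_zero, Finset.sum_empty, zero_add, pow_zero, mul_one, pow_one] at h2
    have e : F (p, t) - F (p, 0) - t * Fk 1 p = ∑' k, Fk (k + 2) p * t ^ (k + 2) := by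
      rw [hF0 p hp, ← h2]; ring
    rw [e]
    have hle : ∀ k, ‖Fk (k + 2) p * t ^ (k + 2)‖ ≤ m (k + 2) * ‖t‖ ^ 2 := fun k => by
      rw [norm_mul, norm_pow]
      have h3 := (hFB (k + 2)).norm_le hp
      have h4 : ‖t‖ ^ (k + 2) ≤ ‖t‖ ^ 2 := pow_le_pow_of_le_one (norm_nonneg _) ht (by omega)
      have h5 := hm0 (k + 2)
      gcongr
    have h5 : Summable (fun k => m (k + 2) * ‖t‖ ^ 2) := ((summable_nat_add_iff 2).mpr hms').mul_right _
    have h6 := tsum_of_norm_bounded h5.hasSum hle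
    refine h6.trans ?_
    rw [tsum_mul_right]
    gcongr

end Pool.Agent.Helper649.Bil
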