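import Pool.Agent.Helper649.BilSys

set_option autoImplicit false

namespace Pool.Agent.Helper649.Bil

open Complex

/-- positive radius -/
noncomputable def pr (r : ℝ) : ℝ := if 0 < r then r else 1

lemma pr_pos (r : ℝ) : 0 < pr r := by
  unfold pr; split_ifs with h <;> [exact h; norm_num]

lemma pr_eq {r : ℝ} (h : 0 < r) : pr r = r := by simp [pr, h]

/-- Double power series on the bidisc of radius `r`. -/
noncomputable def S2 (r : ℝ) : Sys (ℂ × ℂ) (ℕ × ℕ) where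
  D := {p | ‖p.1‖ ≤ pr r ∧ ‖p.2‖ ≤ pr r}
  χ := fun p i => p.1 ^ i.1 * p.2 ^ i.2
  W := fun i => pr r ^ (i.1 + i.2)
  χ_add := fun p i j => by simp only [Prod.fst_add, Prod.snd_add, pow_add]; ring
  χ_zero := fun p => by simp
  W_add := fun i j => by simp only [Prod.fst_add, Prod.snd_add, pow_add]; ring
  W_zero := by simp
  W_pos := fun i => pow_pos (pr_pos r) _
  norm_le := fun p hp i => by
    rw [norm_mul, norm_pow, norm_pow, pow_add]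
    have h1 := pow_le_pow_left₀ (norm_nonneg _) hp.1 i.1
    have h2 := pow_le_pow_left₀ (norm_nonneg _) hp.2 i.2
    exact mul_le_mul h1 h2 (by positivity) (pow_nonneg (pr_pos r).le _)

lemma mem_S2 {r : ℝ} (hr : 0 < r) (p : ℂ × ℂ) : p ∈ (S2 r).D ↔ ‖p.1‖ ≤ r ∧ ‖p.2‖ ≤ r := by
  show ‖p.1‖ ≤ pr r ∧ ‖p.2‖ ≤ pr r ↔ _
  rw [pr_eq hr]

lemma W_S2 {r : ℝ} (hr : 0 < r) (i : ℕ × ℕ) : (S2 r).W i = r ^ (i.1 + i.2) := by
  show pr r ^ (i.1 + i.2) = _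
  rw [pr_eq hr]

lemma chi_S2 (r : ℝ) (p : ℂ × ℂ) (i : ℕ × ℕ) : (S2 r).χ p i = p.1 ^ i.1 * p.2 ^ i.2 := rfl

lemma mem_mono {r r' : ℝ} (hr' : 0 < r') (h : r' ≤ r) {p : ℂ × ℂ} (hp : p ∈ (S2 r').D) :
    p ∈ (S2 r).D := by
  rw [mem_S2 (hr'.trans_le h)]
  rw [mem_S2 hr'] at hp
  exact ⟨hp.1.trans h, hp.2.trans h⟩

lemma BC_rmono {r r' M N : ℝ} (hr' : 0 < r') (h : r' ≤ r) {a : ℕ × ℕ → ℂ} {f : ℂ × ℂ → ℂ}
    (hf : (S2 r).BC M a f) (hM : M ≤ N) : (S2 r').BC N a f := by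
  obtain ⟨f1, f2, f3⟩ := hf
  have hr : 0 < r := hr'.trans_le h
  have hle : ∀ i, ‖a i‖ * (S2 r').W i ≤ ‖a i‖ * (S2 r).W i := fun i => by
    rw [W_S2 hr, W_S2 hr']
    have := pow_le_pow_left₀ hr'.le h (i.1 + i.2)
    gcongr
  have hs : Summable (fun i => ‖a i‖ * (S2 r').W i) :=
    Summable.of_nonneg_of_le (fun i => mul_nonneg (norm_nonneg _) ((S2 r').W_pos i).le) hle f1
  exact ⟨hs, (hs.tsum_le_tsum hle f1).trans (f2.trans hM), fun p hp => f3 p (mem_mono hr' h hp)⟩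

lemma B_rmono {r r' M N : ℝ} (hr' : 0 < r') (h : r' ≤ r) {f : ℂ × ℂ → ℂ}
    (hf : (S2 r).B M f) (hM : M ≤ N) : (S2 r').B N f := by
  obtain ⟨a, ha⟩ := hf; exact ⟨a, BC_rmono hr' h ha hM⟩

lemma B_fst {r : ℝ} (hr : 0 < r) : (S2 r).B r (fun p => p.1) := by
  have h := Sys.B.single (S2 r) 1 (1, 0)
  simp only [chi_S2, W_S2 hr] at h
  simpa using h

lemma B_snd {r : ℝ} (hr : 0 < r) : (S2 r).B r (fun p => p.2) := by
  have h := Sys.B.single (S2 r) 1 (0, 1)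
  simp only [chi_S2, W_S2 hr] at h
  simpa using h

/-- diagonal coefficient changes -/
lemma BC_of_coef {r r' M C : ℝ} {a b : ℕ × ℕ → ℂ} {f : ℂ × ℂ → ℂ}
    (h : (S2 r).BC M a f) (hC : 0 ≤ C)
    (hle : ∀ i, ‖b i‖ * (S2 r').W i ≤ C * (‖a i‖ * (S2 r).W i)) :
    (S2 r').BC (C * M) b (fun p => ∑' i, b i * (p.1 ^ i.1 * p.2 ^ i.2)) := by
  obtain ⟨h1, h2, h3⟩ := h
  have hs1 : Summable (fun i => C * (‖a i‖ * (S2 r).W i)) := h1.mul_left C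
  have hs : Summable (fun i => ‖b i‖ * (S2 r').W i) :=
    Summable.of_nonneg_of_le (fun i => mul_nonneg (norm_nonneg _) ((S2 r').W_pos i).le) hle hs1
  refine ⟨hs, ?_, fun p hp => ?_⟩
  · refine (hs.tsum_le_tsum hle hs1).trans ?_
    rw [tsum_mul_left]
    exact mul_le_mul_of_nonneg_left h2 hC
  · exact (Sys.summable_term hs hp).hasSum

/-- rotation -/
noncomputable def rot (l : ℂ) (p : ℂ × ℂ) : ℂ × ℂ := (l * p.1, l⁻¹ * p.2)

lemma rot_mem {r : ℝ} {l : ℂ} (hl : ‖l‖ = 1) {p : ℂ × ℂ} (hp : p ∈ (S2 r).D) : rot l p ∈ (S2 r).D := by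
  constructor
  · show ‖l * p.1‖ ≤ _
    rw [norm_mul, hl, one_mul]; exact hp.1
  · show ‖l⁻¹ * p.2‖ ≤ _
    rw [norm_mul, norm_inv, hl, inv_one, one_mul]; exact hp.2

lemma rot_rot (l m : ℂ) (p : ℂ × ℂ) : rot l (rot m p) = rot (l * m) p := by
  unfold rot; ext <;> simp only [mul_inv] <;> ring

lemma rot_one (p : ℂ × ℂ) : rot 1 p = p := by unfold rot; simp

lemma BC_rot {r M : ℝ} {l : ℂ} (hl : ‖l‖ = 1) {a : ℕ × ℕ → ℂ} {f : ℂ × ℂ → ℂ}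
    (hf : (S2 r).BC M a f) :
    (S2 r).BC M (fun i => (l ^ i.1 * (l⁻¹) ^ i.2) * a i) (fun p => f (rot l p)) := by
  obtain ⟨f1, f2, f3⟩ := hf
  have hl2 : ∀ i : ℕ × ℕ, ‖l ^ i.1 * (l⁻¹) ^ i.2‖ = 1 := fun i => by
    rw [norm_mul, norm_pow, norm_pow, norm_inv, hl]; simp
  have e : (fun i : ℕ × ℕ => ‖(l ^ i.1 * (l⁻¹) ^ i.2) * a i‖ * (S2 r).W i) = fun i => ‖a i‖ * (S2 r).W i := by
    funext i; rw [norm_mul, hl2, one_mul]
  refine ⟨by rw [e]; exact f1, by rw [e]; exact f2, fun p hp => ?_⟩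
  refine (f3 _ (rot_mem hl hp)).congr_fun (fun i => ?_)
  simp only [chi_S2, rot, mul_pow]; ring

lemma B_rot {r M : ℝ} {l : ℂ} (hl : ‖l‖ = 1) {f : ℂ × ℂ → ℂ} (hf : (S2 r).B M f) :
    (S2 r).B M (fun p => f (rot l p)) := by
  obtain ⟨a, ha⟩ := hf; exact ⟨_, BC_rot hl ha⟩

lemma swap_mem {r : ℝ} {p : ℂ × ℂ} (hp : p ∈ (S2 r).D) : p.swap ∈ (S2 r).D := ⟨hp.2, hp.1⟩

lemma BC_swap {r M : ℝ} {a : ℕ × ℕ → ℂ} {f : ℂ × ℂ → ℂ} (hf : (S2 r).BC M a f) :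
    (S2 r).BC M (fun i => a i.swap) (fun p => f p.swap) := by
  obtain ⟨f1, f2, f3⟩ := hf
  have e : (fun i : ℕ × ℕ => ‖a i.swap‖ * (S2 r).W i) = (fun i => ‖a i‖ * (S2 r).W i) ∘ (Equiv.prodComm ℕ ℕ) := by
    funext i
    simp only [Function.comp, Equiv.prodComm_apply]
    congr 1
    show pr r ^ (i.1 + i.2) = pr r ^ (i.2 + i.1)
    rw [add_comm]
  refine ⟨?_, ?_, fun p hp => ?_⟩
  · rw [e]; exact (Equiv.prodComm ℕ ℕ).summable_iff.mpr f1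
  · rw [e]
    exact ((Equiv.prodComm ℕ ℕ).tsum_eq (fun i => ‖a i‖ * (S2 r).W i)).trans_le f2
  · have h := (Equiv.prodComm ℕ ℕ).hasSum_iff.mpr (f3 _ (swap_mem hp))
    refine h.congr_fun (fun i => ?_)
    simp only [Function.comp, Equiv.prodComm_apply, chi_S2, Prod.fst_swap, Prod.snd_swap]; ring

lemma B_swap {r M : ℝ} {f : ℂ × ℂ → ℂ} (hf : (S2 r).B M f) : (S2 r).B M (fun p => f p.swap) := by
  obtain ⟨a, ha⟩ := hf; exact ⟨_, BC_swap ha⟩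

lemma neg_mem {r : ℝ} {p : ℂ × ℂ} (hp : p ∈ (S2 r).D) : -p ∈ (S2 r).D := by
  constructor
  · show ‖-p.1‖ ≤ _
    rw [norm_neg]; exact hp.1
  · show ‖-p.2‖ ≤ _
    rw [norm_neg]; exact hp.2

lemma BC_neg {r M : ℝ} {a : ℕ × ℕ → ℂ} {f : ℂ × ℂ → ℂ} (hf : (S2 r).BC M a f) :
    (S2 r).BC M (fun i => (-1) ^ (i.1 + i.2) * a i) (fun p => f (-p)) := by
  obtain ⟨f1, f2, f3⟩ := hf
  have e : (fun i : ℕ × ℕ => ‖(-1) ^ (i.1 + i.2) * a i‖ * (S2 r).W i) = fun i => ‖a i‖ * (S2 r).W i := by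
    funext i; rw [norm_mul, norm_pow, norm_neg, norm_one, one_pow, one_mul]
  refine ⟨by rw [e]; exact f1, by rw [e]; exact f2, fun p hp => ?_⟩
  refine (f3 _ (neg_mem hp)).congr_fun (fun i => ?_)
  simp only [chi_S2, Prod.fst_neg, Prod.snd_neg]
  rw [neg_pow p.1, neg_pow p.2, pow_add]; ring

lemma B_neg {r M : ℝ} {f : ℂ × ℂ → ℂ} (hf : (S2 r).B M f) : (S2 r).B M (fun p => f (-p)) := by
  obtain ⟨a, ha⟩ := hf; exact ⟨_, BC_neg ha⟩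

/-- complex conjugation of points -/
noncomputable def cj (p : ℂ × ℂ) : ℂ × ℂ := (starRingEnd ℂ p.1, starRingEnd ℂ p.2)

lemma cj_mem {r : ℝ} {p : ℂ × ℂ} (hp : p ∈ (S2 r).D) : cj p ∈ (S2 r).D := by
  constructor
  · show ‖starRingEnd ℂ p.1‖ ≤ _
    rw [RCLike.norm_conj]; exact hp.1
  · show ‖starRingEnd ℂ p.2‖ ≤ _
    rw [RCLike.norm_conj]; exact hp.2

lemma BC_cj {r M : ℝ} {a : ℕ × ℕ → ℂ} {f : ℂ × ℂ → ℂ} (hf : (S2 r).BC M a f) :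
    (S2 r).BC M (fun i => starRingEnd ℂ (a i)) (fun p => starRingEnd ℂ (f (cj p))) := by
  obtain ⟨f1, f2, f3⟩ := hf
  have e : (fun i : ℕ × ℕ => ‖starRingEnd ℂ (a i)‖ * (S2 r).W i) = fun i => ‖a i‖ * (S2 r).W i := by
    funext i; rw [RCLike.norm_conj]
  refine ⟨by rw [e]; exact f1, by rw [e]; exact f2, fun p hp => ?_⟩
  have h := (f3 _ (cj_mem hp)).map (starRingEnd ℂ) (Complex.continuous_conj)
  refine h.congr_fun (fun i => ?_)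
  simp only [Function.comp, chi_S2, cj, map_mul, map_pow, Complex.conj_conj]

lemma B_cj {r M : ℝ} {f : ℂ × ℂ → ℂ} (hf : (S2 r).B M f) :
    (S2 r).B M (fun p => starRingEnd ℂ (f (cj p))) := by
  obtain ⟨a, ha⟩ := hf; exact ⟨_, BC_cj ha⟩

lemma succ_mul_pow_le {s : ℝ} (hs0 : 0 ≤ s) (hs1 : s < 1) (m : ℕ) : ((m : ℝ) + 1) * s ^ m ≤ 1 / (1 - s) := by
  have h1 : ∑ k ∈ Finset.range (m + 1), s ^ m ≤ ∑ k ∈ Finset.range (m + 1), s ^ k := by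
    refine Finset.sum_le_sum (fun k hk => ?_)
    have : k ≤ m := Nat.lt_succ_iff.mp (Finset.mem_range.mp hk)
    exact pow_le_pow_of_le_one hs0 hs1.le this
  rw [Finset.sum_const, Finset.card_range, nsmul_eq_mul] at h1
  have h2 : ∑ k ∈ Finset.range (m + 1), s ^ k ≤ ∑' k : ℕ, s ^ k :=
    (summable_geometric_of_lt_one hs0 hs1).sum_le_tsum _ (fun k _ => pow_nonneg hs0 k)
  rw [tsum_geometric_of_lt_one hs0 hs1] at h2
  rw [one_div]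
  push_cast at h1
  linarith

/-- derivative in the first variable: pointwise statement -/
lemma BC_hasDerivAt {r M : ℝ} (hr : 0 < r) {a : ℕ × ℕ → ℂ} {f : ℂ × ℂ → ℂ} (hf : (S2 r).BC M a f)
    {p : ℂ × ℂ} (hp1 : ‖p.1‖ < r) (hp2 : ‖p.2‖ ≤ r) :
    HasDerivAt (fun z => f (z, p.2))
      (∑' i : ℕ × ℕ, (((i.1 : ℂ) + 1) * a (i.1 + 1, i.2)) * (p.1 ^ i.1 * p.2 ^ i.2)) p.1 := by
  obtain ⟨f1, f2, f3⟩ := hf
  obtain ⟨ρ, hρ1, hρ2⟩ := exists_between hp1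
  have hρ0 : 0 < ρ := lt_of_le_of_lt (norm_nonneg _) hρ1
  set s : ℝ := ρ / r with hs
  have hs0 : 0 < s := div_pos hρ0 hr
  have hs1 : s < 1 := by rw [hs, div_lt_one hr]; exact hρ2
  have hρs : ρ = r * s := by rw [hs]; field_simp
  -- the bound
  have hmb : ∀ m : ℕ, (m : ℝ) * ρ ^ (m - 1) ≤ (1 / (r * (1 - s))) * r ^ m := by
    intro m
    rcases m with _ | m
    · simp; have : 0 < 1 - s := by linarith
      positivity
    · have h := succ_mul_pow_le hs0.le hs1 m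
      have e1 : ((m + 1 : ℕ) : ℝ) * ρ ^ (m + 1 - 1) = (((m : ℝ) + 1) * s ^ m) * r ^ m := by
        rw [show m + 1 - 1 = m from by omega, hρs, mul_pow]; push_cast; ring
      have e2 : (1 / (r * (1 - s))) * r ^ (m + 1) = (1 / (1 - s)) * r ^ m := by
        have : 0 < 1 - s := by linarith
        field_simp; ring
      rw [e1, e2]
      gcongr
  have hu : Summable (fun i : ℕ × ℕ => (1 / (r * (1 - s))) * (‖a i‖ * (S2 r).W i)) := f1.mul_left _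
  have hmem : ∀ z : ℂ, ‖z‖ < ρ → ((z, p.2) : ℂ × ℂ) ∈ (S2 r).D := fun z hz => by
    rw [mem_S2 hr]; exact ⟨(hz.le.trans hρ2.le), hp2⟩
  have key := hasDerivAt_tsum_of_isPreconnected (𝕜 := ℂ) (F := ℂ) (α := ℕ × ℕ)
    (g := fun i z => a i * (z ^ i.1 * p.2 ^ i.2))
    (g' := fun i z => a i * (((i.1 : ℂ) * z ^ (i.1 - 1)) * p.2 ^ i.2))
    (u := fun i => (1 / (r * (1 - s))) * (‖a i‖ * (S2 r).W i))
    (t := Metric.ball (0 : ℂ) ρ) (y₀ := 0) (y := p.1) hu Metric.isOpen_ball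
    (convex_ball (0 : ℂ) ρ).isPreconnected
    (fun i z _ => ((hasDerivAt_pow i.1 z).mul_const (p.2 ^ i.2)).const_mul (a i))
    (fun i z hz => by
      rw [mem_ball_zero_iff] at hz
      rw [norm_mul, norm_mul, norm_mul, norm_pow, norm_pow, Complex.norm_natCast, W_S2 hr]
      have h1 : ‖z‖ ^ (i.1 - 1) ≤ ρ ^ (i.1 - 1) := pow_le_pow_left₀ (norm_nonneg _) hz.le _
      have h2 : ‖p.2‖ ^ i.2 ≤ r ^ i.2 := pow_le_pow_left₀ (norm_nonneg _) hp2 _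
      have h3 := hmb i.1
      calc ‖a i‖ * ((i.1 : ℝ) * ‖z‖ ^ (i.1 - 1) * ‖p.2‖ ^ i.2)
          ≤ ‖a i‖ * ((i.1 : ℝ) * ρ ^ (i.1 - 1) * r ^ i.2) := by gcongr
        _ ≤ ‖a i‖ * (((1 / (r * (1 - s))) * r ^ i.1) * r ^ i.2) := by gcongr
        _ = (1 / (r * (1 - s))) * (‖a i‖ * r ^ (i.1 + i.2)) := by rw [pow_add]; ring)
    (by simpa using hρ0)
    (by
      have := f3 (0, p.2) (by rw [mem_S2 hr]; exact ⟨by simpa using hr.le, hp2⟩)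
      exact this.summable)
    (by rw [mem_ball_zero_iff]; exact hρ1)
  have hnear : (fun z => f (z, p.2)) =ᶠ[nhds p.1] fun z => ∑' i : ℕ × ℕ, a i * (z ^ i.1 * p.2 ^ i.2) := by
    have ho : Metric.ball (0 : ℂ) ρ ∈ nhds p.1 := Metric.isOpen_ball.mem_nhds (by rw [mem_ball_zero_iff]; exact hρ1)
    filter_upwards [ho] with z hz
    rw [mem_ball_zero_iff] at hz
    exact ((f3 (z, p.2) (hmem z hz)).tsum_eq).symm
  refine (key.congr_of_eventuallyEq hnear).congr_deriv ?_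
  -- reindex
  have hinj : Function.Injective (fun i : ℕ × ℕ => ((i.1 + 1, i.2) : ℕ × ℕ)) := by
    intro i j h
    simp only [Prod.mk.injEq, Nat.add_right_cancel_iff] at h
    exact Prod.ext h.1 h.2
  have := hinj.tsum_eq (f := fun i : ℕ × ℕ => a i * (((i.1 : ℂ) * p.1 ^ (i.1 - 1)) * p.2 ^ i.2)) (by
    intro i hi
    rcases i with ⟨m, n⟩
    rcases m with _ | m
    · simp at hi
    · exact ⟨(m, n), rfl⟩)
  rw [← this]
  refine tsum_congr (fun i => ?_)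
  simp only [Nat.add_sub_cancel]
  push_cast; ring

/-- derivative in the first variable: norm statement -/
lemma BC_dz {r M s : ℝ} (hr : 0 < r) (hs0 : 0 < s) (hs1 : s < 1) {a : ℕ × ℕ → ℂ} {f : ℂ × ℂ → ℂ}
    (hf : (S2 r).BC M a f) :
    (S2 (r * s)).BC (1 / (r * (1 - s)) * M) (fun i => ((i.1 : ℂ) + 1) * a (i.1 + 1, i.2))
      (fun p => ∑' i : ℕ × ℕ, (((i.1 : ℂ) + 1) * a (i.1 + 1, i.2)) * (p.1 ^ i.1 * p.2 ^ i.2)) := by
  obtain ⟨f1, f2, f3⟩ := hf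
  have h1s : 0 < 1 - s := by linarith
  have hrs : 0 < r * s := mul_pos hr hs0
  have hinj : Function.Injective (fun i : ℕ × ℕ => ((i.1 + 1, i.2) : ℕ × ℕ)) := by
    intro i j h
    simp only [Prod.mk.injEq, Nat.add_right_cancel_iff] at h
    exact Prod.ext h.1 h.2
  have h0 : ∀ i : ℕ × ℕ, 0 ≤ ‖a i‖ * (S2 r).W i := fun i => mul_nonneg (norm_nonneg _) ((S2 r).W_pos i).le
  have g1 : Summable (fun i : ℕ × ℕ => ‖a (i.1 + 1, i.2)‖ * (S2 r).W (i.1 + 1, i.2)) :=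
    f1.comp_injective hinj
  have g2 : ∑' i : ℕ × ℕ, ‖a (i.1 + 1, i.2)‖ * (S2 r).W (i.1 + 1, i.2) ≤ M :=
    (g1.tsum_le_tsum_of_inj _ hinj (fun c _ => h0 c) (fun i => le_rfl) f1).trans f2
  have hle : ∀ i : ℕ × ℕ, ‖((i.1 : ℂ) + 1) * a (i.1 + 1, i.2)‖ * (S2 (r * s)).W i
      ≤ 1 / (r * (1 - s)) * (‖a (i.1 + 1, i.2)‖ * (S2 r).W (i.1 + 1, i.2)) := by
    intro i
    rw [W_S2 hr, W_S2 hrs, norm_mul]
    have e0 : ‖((i.1 : ℂ) + 1)‖ = (i.1 : ℝ) + 1 := by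
      have : ((i.1 : ℂ) + 1) = ((i.1 + 1 : ℕ) : ℂ) := by push_cast; ring
      rw [this, Complex.norm_natCast]; push_cast; ring
    rw [e0, mul_pow]
    have h := succ_mul_pow_le hs0.le hs1 i.1
    have h2 : s ^ (i.1 + i.2) ≤ s ^ i.1 := pow_le_pow_of_le_one hs0.le hs1.le (by omega)
    have e1 : 1 / (r * (1 - s)) * (‖a (i.1 + 1, i.2)‖ * r ^ (i.1 + 1 + i.2))
        = (1 / (1 - s)) * (‖a (i.1 + 1, i.2)‖ * r ^ (i.1 + i.2)) := by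
      field_simp; ring
    rw [e1]
    calc ((i.1 : ℝ) + 1) * ‖a (i.1 + 1, i.2)‖ * (r ^ (i.1 + i.2) * s ^ (i.1 + i.2))
        ≤ ((i.1 : ℝ) + 1) * ‖a (i.1 + 1, i.2)‖ * (r ^ (i.1 + i.2) * s ^ i.1) := by gcongr
      _ = (((i.1 : ℝ) + 1) * s ^ i.1) * (‖a (i.1 + 1, i.2)‖ * r ^ (i.1 + i.2)) := by ring
      _ ≤ _ := by gcongr
  have hs : Summable (fun i : ℕ × ℕ => ‖((i.1 : ℂ) + 1) * a (i.1 + 1, i.2)‖ * (S2 (r * s)).W i) :=
    Summable.of_nonneg_of_le (fun i => mul_nonneg (norm_nonneg _) ((S2 (r*s)).W_pos i).le) hle (g1.mul_left _)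
  refine ⟨hs, ?_, fun p hp => (Sys.summable_term hs hp).hasSum⟩
  refine (hs.tsum_le_tsum hle (g1.mul_left _)).trans ?_
  rw [tsum_mul_left]
  exact mul_le_mul_of_nonneg_left g2 (by positivity)

end Pool.Agent.Helper649.Bil
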