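import Pool.Agent.Helper649.BilTwo

set_option autoImplicit false

namespace Pool.Agent.Helper649.Bil

open Complex

/-- the z-derivative with both statements -/
lemma B_dz {r M s : ℝ} (hr : 0 < r) (hs0 : 0 < s) (hs1 : s < 1) {f : ℂ × ℂ → ℂ} (hf : (S2 r).B M f) :
    ∃ fz : ℂ × ℂ → ℂ, (S2 (r * s)).B (1 / (r * (1 - s)) * M) fz ∧
      ∀ p : ℂ × ℂ, ‖p.1‖ < r → ‖p.2‖ < r → HasDerivAt (fun z => f (z, p.2)) (fz p) p.1 := by
  obtain ⟨a, ha⟩ := hf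
  exact ⟨_, ⟨_, BC_dz hr hs0 hs1 ha⟩, fun p h1 h2 => BC_hasDerivAt hr ha h1 h2.le⟩

lemma BC_dw {r M s : ℝ} (hr : 0 < r) (hs0 : 0 < s) (hs1 : s < 1) {a : ℕ × ℕ → ℂ} {f : ℂ × ℂ → ℂ}
    (hf : (S2 r).BC M a f) :
    ∃ fw : ℂ × ℂ → ℂ, (S2 (r * s)).BC (1 / (r * (1 - s)) * M) (fun i => ((i.2 : ℂ) + 1) * a (i.1, i.2 + 1)) fw ∧
      ∀ p : ℂ × ℂ, ‖p.1‖ < r → ‖p.2‖ < r → HasDerivAt (fun w => f (p.1, w)) (fw p) p.2 := by
  have h := BC_swap hf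
  have h1 := BC_swap (BC_dz hr hs0 hs1 h)
  refine ⟨_, h1, fun p hp1 hp2 => ?_⟩
  have h2 := BC_hasDerivAt hr h (p := p.swap) hp2 hp1.le
  exact h2

lemma B_dw {r M s : ℝ} (hr : 0 < r) (hs0 : 0 < s) (hs1 : s < 1) {f : ℂ × ℂ → ℂ} (hf : (S2 r).B M f) :
    ∃ fw : ℂ × ℂ → ℂ, (S2 (r * s)).B (1 / (r * (1 - s)) * M) fw ∧
      ∀ p : ℂ × ℂ, ‖p.1‖ < r → ‖p.2‖ < r → HasDerivAt (fun w => f (p.1, w)) (fw p) p.2 := by
  obtain ⟨a, ha⟩ := hf
  obtain ⟨fw, h1, h2⟩ := BC_dw hr hs0 hs1 ha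
  exact ⟨fw, ⟨_, h1⟩, h2⟩

/-- uniqueness of coefficients in one variable -/
lemma uniq1 {ρ : ℝ} (hρ : 0 < ρ) {a : ℕ → ℂ} (hs : Summable (fun m => ‖a m‖ * ρ ^ m))
    (h : ∀ z : ℂ, ‖z‖ ≤ ρ → HasSum (fun m => a m * z ^ m) 0) : ∀ m, a m = 0 := by
  intro m
  induction m using Nat.strong_induction_on with
  | _ m ih =>
    by_contra hne
    have hpos : 0 < ‖a m‖ := norm_pos_iff.mpr hne
    have hsC : Summable (fun k => ‖a (k + (m + 1))‖ * ρ ^ k) := by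
      have h1 := (summable_nat_add_iff (m + 1)).mpr hs
      have h2 := h1.mul_right ((ρ ^ (m + 1))⁻¹)
      refine h2.congr (fun k => ?_)
      rw [pow_add]; field_simp
    set C := ∑' k, ‖a (k + (m + 1))‖ * ρ ^ k with hC
    have hC0 : 0 ≤ C := tsum_nonneg fun k => by positivity
    obtain ⟨x, hx0, hx1⟩ : ∃ x : ℝ, 0 < x ∧ (x ≤ ρ ∧ x * C < ‖a m‖) := by
      refine ⟨min ρ (‖a m‖ / (2 * (C + 1))), lt_min hρ (by positivity), min_le_left _ _, ?_⟩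
      calc min ρ (‖a m‖ / (2 * (C + 1))) * C ≤ (‖a m‖ / (2 * (C + 1))) * C := by
            gcongr; exact min_le_right _ _
        _ < ‖a m‖ := by
            rw [div_mul_eq_mul_div, div_lt_iff₀ (by positivity)]
            nlinarith
    obtain ⟨hx1, hx2⟩ := hx1
    have hz : ‖(x : ℂ)‖ ≤ ρ := by rw [Complex.norm_real, Real.norm_of_nonneg hx0.le]; exact hx1
    have hsum := h x hz
    have h3 := (hasSum_nat_add_iff' (m + 1)).mpr hsum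
    have h4 : ∑ i ∈ Finset.range (m + 1), a i * (x : ℂ) ^ i = a m * (x : ℂ) ^ m := by
      rw [Finset.sum_range_succ, Finset.sum_eq_zero, zero_add]
      intro i hi
      rw [ih i (Finset.mem_range.mp hi), zero_mul]
    rw [h4, zero_sub] at h3
    have h5 : ‖-(a m * (x : ℂ) ^ m)‖ ≤ x ^ (m + 1) * C := by
      rw [← h3.tsum_eq]
      have hle : ∀ k, ‖a (k + (m + 1)) * (x : ℂ) ^ (k + (m + 1))‖ ≤ x ^ (m + 1) * (‖a (k + (m + 1))‖ * ρ ^ k) := by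
        intro k
        rw [norm_mul, norm_pow, Complex.norm_real, Real.norm_of_nonneg hx0.le, pow_add]
        have := pow_le_pow_left₀ hx0.le hx1 k
        calc ‖a (k + (m + 1))‖ * (x ^ k * x ^ (m + 1)) ≤ ‖a (k + (m + 1))‖ * (ρ ^ k * x ^ (m + 1)) := by gcongr
          _ = _ := by ring
      have hn : Summable (fun k => ‖a (k + (m + 1)) * (x : ℂ) ^ (k + (m + 1))‖) :=
        Summable.of_nonneg_of_le (fun _ => norm_nonneg _) hle (hsC.mul_left _)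
      refine (norm_tsum_le_tsum_norm hn).trans ?_
      refine (hn.tsum_le_tsum hle (hsC.mul_left _)).trans ?_
      rw [tsum_mul_left]
    rw [norm_neg, norm_mul, norm_pow, Complex.norm_real, Real.norm_of_nonneg hx0.le, pow_succ] at h5
    have h6 : 0 < x ^ m := pow_pos hx0 m
    have h7 : x ^ m * ‖a m‖ ≤ x ^ m * (x * C) := by nlinarith
    have h8 := le_of_mul_le_mul_left h7 h6
    linarith

/-- uniqueness of coefficients on the bidisc -/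
lemma uniq2 {r : ℝ} (hr : 0 < r) {a : ℕ × ℕ → ℂ} (hs : Summable (fun i => ‖a i‖ * (S2 r).W i))
    (h : ∀ p ∈ (S2 r).D, HasSum (fun i => a i * (S2 r).χ p i) 0) : ∀ i, a i = 0 := by
  have hs' : Summable (fun i : ℕ × ℕ => ‖a i‖ * r ^ (i.1 + i.2)) := by
    refine hs.congr (fun i => ?_); rw [W_S2 hr]
  have hrow : ∀ m, Summable (fun n => ‖a (m, n)‖ * r ^ (m + n)) := fun m => hs'.prod_factor m
  have hrow2 : ∀ m, Summable (fun n => ‖a (m, n)‖ * r ^ n) := fun m => by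
    refine ((hrow m).mul_right ((r ^ m)⁻¹)).congr (fun n => ?_)
    rw [pow_add]; field_simp
  have key : ∀ w : ℂ, ‖w‖ ≤ r → ∀ m, ∑' n, a (m, n) * w ^ n = 0 := by
    intro w hw
    have hrw : ∀ m, Summable (fun n => a (m, n) * w ^ n) := fun m => by
      apply Summable.of_norm
      refine Summable.of_nonneg_of_le (fun _ => norm_nonneg _) (fun n => ?_) (hrow2 m)
      rw [norm_mul, norm_pow]
      have := pow_le_pow_left₀ (norm_nonneg _) hw n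
      gcongr
    have hbm : ∀ m, ‖∑' n, a (m, n) * w ^ n‖ * r ^ m ≤ ∑' n, ‖a (m, n)‖ * r ^ (m + n) := by
      intro m
      have h1 : ‖∑' n, a (m, n) * w ^ n‖ ≤ ∑' n, ‖a (m, n)‖ * r ^ n := by
        refine tsum_of_norm_bounded (hrow2 m).hasSum (fun n => ?_)
        rw [norm_mul, norm_pow]
        have := pow_le_pow_left₀ (norm_nonneg _) hw n
        gcongr
      calc ‖∑' n, a (m, n) * w ^ n‖ * r ^ m ≤ (∑' n, ‖a (m, n)‖ * r ^ n) * r ^ m := by gcongr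
        _ = ∑' n, ‖a (m, n)‖ * r ^ (m + n) := by
            rw [← tsum_mul_right]; refine tsum_congr (fun n => ?_); rw [pow_add]; ring
    apply uniq1 hr (a := fun m => ∑' n, a (m, n) * w ^ n)
    · refine Summable.of_nonneg_of_le (fun m => by positivity) hbm ?_
      exact hs'.prod
    · intro z hz
      have hp : ((z, w) : ℂ × ℂ) ∈ (S2 r).D := by rw [mem_S2 hr]; exact ⟨hz, hw⟩
      have h1 := h _ hp
      refine h1.prod_fiberwise (fun m => ?_)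
      have h2 := (hrw m).hasSum.mul_right (z ^ m)
      refine h2.congr_fun (fun n => ?_)
      simp only [chi_S2]; ring
  intro i
  rcases i with ⟨m, n⟩
  refine uniq1 hr (a := fun n => a (m, n)) (hrow2 m) (fun w hw => ?_) n
  have h1 := key w hw m
  have h2 : Summable (fun n => a (m, n) * w ^ n) := by
    apply Summable.of_norm
    refine Summable.of_nonneg_of_le (fun _ => norm_nonneg _) (fun n => ?_) (hrow2 m)
    rw [norm_mul, norm_pow]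
    have := pow_le_pow_left₀ (norm_nonneg _) hw n
    gcongr
  have h3 := h2.hasSum
  rw [h1] at h3; exact h3

lemma BC_unique {r M N : ℝ} (hr : 0 < r) {a b : ℕ × ℕ → ℂ} {f g : ℂ × ℂ → ℂ} (hf : (S2 r).BC M a f)
    (hg : (S2 r).BC N b g) (hfg : ∀ p ∈ (S2 r).D, f p = g p) : a = b := by
  have h := hf.sub hg
  have h0 : ∀ i, a i - b i = 0 := by
    apply uniq2 hr h.1
    intro p hp
    have := h.2.2 p hp
    simp only [hfg p hp, sub_self] at this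
    exact this
  funext i
  exact sub_eq_zero.mp (h0 i)

/-- the divisor lemma -/
lemma div_bound {l : ℂ} {Γ : ℝ}
    (hdiv : ∀ k : ℤ, k ≠ 0 → 1 ≤ Γ * (k : ℝ) ^ 2 * ‖l ^ k - 1‖) (hΓ : 0 ≤ Γ) (m n : ℕ) (k : ℤ) (hk : k ≠ 0)
    (hkm : |k| ≤ m + n + 1) :
    ‖(l ^ k - 1)⁻¹‖ ≤ Γ * ((m : ℝ) + n + 1) ^ 2 := by
  have h := hdiv k hk
  have hpos : 0 < ‖l ^ k - 1‖ := by
    rcases (norm_nonneg (l ^ k - 1)).lt_or_eq with h1 | h1
    · exact h1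
    · rw [← h1] at h; simp at h; linarith
  rw [norm_inv, inv_le_iff_one_le_mul₀ hpos]
  refine h.trans ?_
  have h2 : (k : ℝ) ^ 2 ≤ ((m : ℝ) + n + 1) ^ 2 := by
    rw [sq_le_sq, abs_of_nonneg (by positivity : (0 : ℝ) ≤ (m : ℝ) + n + 1)]
    have : ((|k| : ℤ) : ℝ) ≤ ((m + n + 1 : ℤ) : ℝ) := by exact_mod_cast hkm
    rw [Int.cast_abs] at this
    push_cast at this
    exact this
  gcongr

lemma sq_succ_mul_pow_le {s : ℝ} (hs0 : 0 ≤ s) (hs1 : s < 1) (m n : ℕ) :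
    ((m : ℝ) + n + 1) ^ 2 * (s ^ 2) ^ (m + n) ≤ 1 / (1 - s) ^ 2 := by
  have h := succ_mul_pow_le hs0 hs1 (m + n)
  push_cast at h
  have h0 : 0 ≤ ((m : ℝ) + n + 1) * s ^ (m + n) := by positivity
  have := pow_le_pow_left₀ h0 h 2
  calc ((m : ℝ) + n + 1) ^ 2 * (s ^ 2) ^ (m + n) = (((m : ℝ) + n + 1) * s ^ (m + n)) ^ 2 := by
        rw [mul_pow, ← pow_mul, ← pow_mul, mul_comm 2]
    _ ≤ (1 / (1 - s)) ^ 2 := this
    _ = _ := by rw [one_div, inv_pow, one_div]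

lemma zpow_natsub {l : ℂ} (hl : l ≠ 0) (m n : ℕ) : l ^ m * (l⁻¹) ^ n = l ^ ((m : ℤ) - n) := by
  rw [zpow_sub₀ hl, zpow_natCast, zpow_natCast, inv_pow]; rfl

/-- solution of the cohomological equation with shift `j0 = 1` or `-1`. -/
lemma solve {r M s Γ : ℝ} (hr : 0 < r) (hs0 : 0 < s) (hs1 : s < 1) (hΓ : 0 ≤ Γ) {l : ℂ} (hl : ‖l‖ = 1)
    (hdiv : ∀ k : ℤ, k ≠ 0 → 1 ≤ Γ * (k : ℝ) ^ 2 * ‖l ^ k - 1‖) (j0 : ℤ) (hj0 : |j0| ≤ 1)
    {b : ℕ × ℕ → ℂ} {f : ℂ × ℂ → ℂ} (hf : (S2 r).BC M b f)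
    (hres : ∀ m n : ℕ, (m : ℤ) - n = j0 → b (m, n) = 0) :
    ∃ ξ : ℂ × ℂ → ℂ, (S2 (r * s ^ 2)).B (Γ / (1 - s) ^ 2 * M) ξ ∧
      ∀ p ∈ (S2 (r * s ^ 2)).D, ξ (rot l p) - l ^ j0 * ξ p = f (rot l p) := by
  have hl0 : l ≠ 0 := by intro h; rw [h, norm_zero] at hl; norm_num at hl
  have hrs : 0 < r * s ^ 2 := by positivity
  have h1s : 0 < 1 - s := by linarith
  set c : ℕ × ℕ → ℂ := fun i => l ^ ((i.1 : ℤ) - i.2) * b i / (l ^ ((i.1 : ℤ) - i.2) - l ^ j0) with hc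
  have hcb : ∀ i, ‖c i‖ * (S2 (r * s ^ 2)).W i ≤ (Γ / (1 - s) ^ 2) * (‖b i‖ * (S2 r).W i) := by
    intro i
    rw [W_S2 hr, W_S2 hrs]
    by_cases hk : (i.1 : ℤ) - i.2 = j0
    · have : b i = 0 := hres i.1 i.2 hk
      simp [hc, this]
    · have e1 : l ^ ((i.1 : ℤ) - i.2) - l ^ j0 = l ^ j0 * (l ^ ((i.1 : ℤ) - i.2 - j0) - 1) := by
        rw [zpow_sub₀ hl0 ((i.1 : ℤ) - i.2) j0]
        have : l ^ j0 ≠ 0 := zpow_ne_zero _ hl0
        field_simp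
      have hn : ∀ k : ℤ, ‖l ^ k‖ = 1 := fun k => by rw [norm_zpow, hl, one_zpow]
      have h1 := div_bound hdiv hΓ i.1 i.2 ((i.1 : ℤ) - i.2 - j0) (by omega) (by
        have := abs_sub ((i.1 : ℤ) - i.2) j0
        have h3 : |(i.1 : ℤ) - i.2| ≤ i.1 + i.2 := by
          rw [abs_le]; constructor <;> omega
        omega)
      have h2 : ‖c i‖ ≤ ‖b i‖ * (Γ * ((i.1 : ℝ) + i.2 + 1) ^ 2) := by
        simp only [hc]
        rw [e1, div_eq_mul_inv, mul_inv, norm_mul, norm_mul, norm_mul, norm_inv (l ^ j0), hn, hn, one_mul, inv_one, one_mul]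
        gcongr
      have h3 := sq_succ_mul_pow_le hs0.le hs1 i.1 i.2
      calc ‖c i‖ * (r * s ^ 2) ^ (i.1 + i.2)
          ≤ ‖b i‖ * (Γ * ((i.1 : ℝ) + i.2 + 1) ^ 2) * (r * s ^ 2) ^ (i.1 + i.2) := by gcongr
        _ = Γ * (((i.1 : ℝ) + i.2 + 1) ^ 2 * (s ^ 2) ^ (i.1 + i.2)) * (‖b i‖ * r ^ (i.1 + i.2)) := by
            rw [mul_pow]; ring
        _ ≤ Γ * (1 / (1 - s) ^ 2) * (‖b i‖ * r ^ (i.1 + i.2)) := by gcongr
        _ = _ := by ring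
  have hB := BC_of_coef (r' := r * s ^ 2) hf (by positivity) hcb
  refine ⟨_, ⟨c, hB⟩, fun p hp => ?_⟩
  have hrs2 : r * s ^ 2 ≤ r := by
    have : s ^ 2 ≤ 1 := pow_le_one₀ hs0.le hs1.le
    nlinarith
  have h1 := (BC_rot hl hB).2.2 p hp
  have h2 := (hB.const_mul (l ^ j0)).2.2 p hp
  have h3 := (BC_rot hl (BC_rmono hrs hrs2 hf le_rfl)).2.2 p hp
  have h4 := h1.sub h2
  refine h4.unique (h3.congr_fun (fun i => ?_))
  simp only [zpow_natsub hl0, hc]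
  by_cases hk : (i.1 : ℤ) - i.2 = j0
  · have : b i = 0 := hres i.1 i.2 hk
    simp [this]
  · have hne : l ^ ((i.1 : ℤ) - i.2) - l ^ j0 ≠ 0 := by
      intro h0
      have e1 : l ^ ((i.1 : ℤ) - i.2 - j0) - 1 = 0 := by
        rw [zpow_sub₀ hl0 ((i.1 : ℤ) - i.2) j0, sub_eq_zero.mp h0, div_self (zpow_ne_zero _ hl0), sub_self]
      have := hdiv ((i.1 : ℤ) - i.2 - j0) (by omega)
      rw [e1, norm_zero, mul_zero] at this
      linarith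
    field_simp

/-- the diagonal part -/
noncomputable def dg (a : ℕ × ℕ → ℂ) (i : ℕ × ℕ) : ℂ := if i.1 = i.2 then a i else 0

lemma BC_dg {r M : ℝ} {a : ℕ × ℕ → ℂ} {f : ℂ × ℂ → ℂ} (hf : (S2 r).BC M a f) :
    (S2 r).BC M (dg a) (fun p => ∑' i, dg a i * (p.1 ^ i.1 * p.2 ^ i.2)) := by
  have := BC_of_coef (r' := r) (b := dg a) hf zero_le_one (fun i => by
    rw [one_mul]
    unfold dg; split_ifs
    · exact le_rfl
    · rw [norm_zero, zero_mul]; exact mul_nonneg (norm_nonneg _) ((S2 r).W_pos i).le)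
  rwa [one_mul] at this

lemma dg_rot {a : ℕ × ℕ → ℂ} {l : ℂ} (hl : l ≠ 0) (p : ℂ × ℂ) :
    ∑' i, dg a i * ((rot l p).1 ^ i.1 * (rot l p).2 ^ i.2) = ∑' i, dg a i * (p.1 ^ i.1 * p.2 ^ i.2) := by
  refine tsum_congr (fun i => ?_)
  unfold dg; split_ifs with h
  · rw [h]
    simp only [rot]
    rw [← mul_pow, ← mul_pow]
    congr 2
    field_simp
  · simp

/-- The off-diagonal part is controlled by the defect of invariance. -/
lemma offdiag {r r1 M N s Γ : ℝ} (hr1 : 0 < r1) (hrr : r1 ≤ r) (hs0 : 0 < s) (hs1 : s < 1) (hΓ : 0 ≤ Γ)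
    {l : ℂ} (hl : ‖l‖ = 1)
    (hdiv : ∀ k : ℤ, k ≠ 0 → 1 ≤ Γ * (k : ℝ) ^ 2 * ‖l ^ k - 1‖)
    {a : ℕ × ℕ → ℂ} {g d : ℂ × ℂ → ℂ} (hg : (S2 r).BC M a g) (hd : (S2 r1).B N d)
    (heq : ∀ p ∈ (S2 r1).D, g (rot l p) - g p = d p) :
    (S2 (r1 * s ^ 2)).B (Γ / (1 - s) ^ 2 * N) (fun p => g p - ∑' i, dg a i * (p.1 ^ i.1 * p.2 ^ i.2)) := by
  have hl0 : l ≠ 0 := by intro h; rw [h, norm_zero] at hl; norm_num at hl
  have h1s : 0 < 1 - s := by linarith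
  have hrs : 0 < r1 * s ^ 2 := by positivity
  have hrs1 : r1 * s ^ 2 ≤ r1 := by
    have : s ^ 2 ≤ 1 := pow_le_one₀ hs0.le hs1.le
    nlinarith
  obtain ⟨β, hβ⟩ := hd
  have hg1 := BC_rmono hr1 hrr hg le_rfl
  have hcoef : ∀ i, (l ^ ((i.1 : ℤ) - i.2) - 1) * a i = β i := by
    have := BC_unique hr1 ((BC_rot hl hg1).sub hg1) hβ heq
    intro i
    have h2 := congrFun this i
    simp only [zpow_natsub hl0] at h2
    rw [← h2]; ring
  have hbd : ∀ i, ‖a i - dg a i‖ * (S2 (r1 * s ^ 2)).W i ≤ (Γ / (1 - s) ^ 2) * (‖β i‖ * (S2 r1).W i) := by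
    intro i
    rw [W_S2 hr1, W_S2 hrs]
    unfold dg
    split_ifs with h
    · rw [sub_self, norm_zero, zero_mul]; positivity
    · rw [sub_zero]
      have hk : (i.1 : ℤ) - i.2 ≠ 0 := by omega
      have h1 := div_bound hdiv hΓ i.1 i.2 ((i.1 : ℤ) - i.2) hk (by rw [abs_le]; constructor <;> omega)
      have hne : l ^ ((i.1 : ℤ) - i.2) - 1 ≠ 0 := by
        intro h0
        have := hdiv _ hk
        rw [h0, norm_zero, mul_zero] at this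
        linarith
      have e : a i = (l ^ ((i.1 : ℤ) - i.2) - 1)⁻¹ * β i := by
        rw [← hcoef i]; field_simp
      have h2 : ‖a i‖ ≤ (Γ * ((i.1 : ℝ) + i.2 + 1) ^ 2) * ‖β i‖ := by
        rw [e, norm_mul]; gcongr
      have h3 := sq_succ_mul_pow_le hs0.le hs1 i.1 i.2
      calc ‖a i‖ * (r1 * s ^ 2) ^ (i.1 + i.2)
          ≤ (Γ * ((i.1 : ℝ) + i.2 + 1) ^ 2) * ‖β i‖ * (r1 * s ^ 2) ^ (i.1 + i.2) := by gcongr
        _ = Γ * (((i.1 : ℝ) + i.2 + 1) ^ 2 * (s ^ 2) ^ (i.1 + i.2)) * (‖β i‖ * r1 ^ (i.1 + i.2)) := by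
            rw [mul_pow]; ring
        _ ≤ Γ * (1 / (1 - s) ^ 2) * (‖β i‖ * r1 ^ (i.1 + i.2)) := by gcongr
        _ = _ := by ring
  have hB := BC_of_coef (r' := r1 * s ^ 2) hβ (by positivity) hbd
  refine ⟨_, hB.congr (fun p hp => ?_)⟩
  have h1 := hB.2.2 p hp
  have hg2 := BC_rmono hrs hrs1 hg1 le_rfl
  have h2 := (hg2.sub (BC_dg hg2)).2.2 p hp
  exact h1.unique h2

end Pool.Agent.Helper649.Bil
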