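import Mathlib

set_option autoImplicit false

namespace Pool.Agent.Helper649.Bil

open Complex Filter Topology MeasureTheory

lemma norm_exp_sub_one_ge (y : ℝ) : 4 * |y - round y| ≤ ‖cexp ((2 * Real.pi * y : ℝ) * I) - 1‖ := by
  set m : ℤ := round y with hm
  set x : ℝ := y - m with hx
  have hx2 : |x| ≤ 1 / 2 := abs_sub_round _
  have hexpx : cexp ((2 * Real.pi * y : ℝ) * I) = cexp (I * ((2 * Real.pi * x : ℝ) : ℂ)) := by
    have e : (((2 * Real.pi * y : ℝ) : ℂ) * I)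
        = I * ((2 * Real.pi * x : ℝ) : ℂ) + (m : ℤ) * (2 * Real.pi * I) := by
      rw [hx]; push_cast; ring
    rw [e, Complex.exp_add, Complex.exp_int_mul_two_pi_mul_I, mul_one]
  rw [hexpx, Complex.norm_exp_I_mul_ofReal_sub_one, Real.norm_eq_abs, abs_mul]
  have h2 : |(2 : ℝ)| = 2 := by norm_num
  rw [h2]
  have e : 2 * Real.pi * x / 2 = Real.pi * x := by ring
  rw [e]
  have h3 : |Real.sin (Real.pi * x)| = Real.sin (Real.pi * |x|) := by
    rcases le_total 0 x with h | h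
    · rw [abs_of_nonneg h, abs_of_nonneg]
      apply Real.sin_nonneg_of_nonneg_of_le_pi (by positivity)
      rw [abs_of_nonneg h] at hx2
      nlinarith [Real.pi_pos]
    · rw [abs_of_nonpos h]
      rw [abs_of_nonpos h] at hx2
      have e2 : Real.pi * x = -(Real.pi * -x) := by ring
      rw [e2, Real.sin_neg, abs_neg, abs_of_nonneg]
      apply Real.sin_nonneg_of_nonneg_of_le_pi
      · have : 0 ≤ -x := by linarith
        positivity
      · nlinarith [Real.pi_pos]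
  rw [h3]
  have h4 := Real.mul_le_sin (x := Real.pi * |x|) (by positivity) (by nlinarith [Real.pi_pos])
  have e3 : 2 / Real.pi * (Real.pi * |x|) = 2 * |x| := by
    have := Real.pi_pos.ne'
    field_simp
  rw [e3] at h4
  linarith

lemma exists_pos_le (f : ℕ → ℝ) (hf : ∀ n, 0 < n → 0 < f n) (N : ℕ) (hN : ∀ n, N ≤ n → 1 ≤ f n) :
    ∃ c, 0 < c ∧ ∀ n, 0 < n → c ≤ f n := by
  have key : ∀ M : ℕ, ∃ c, 0 < c ∧ ∀ n, 0 < n → n < M → c ≤ f n := by
    intro M
    induction M with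
    | zero => exact ⟨1, one_pos, fun n _ h => absurd h (Nat.not_lt_zero n)⟩
    | succ M ih =>
      obtain ⟨c, hc, hcn⟩ := ih
      rcases Nat.eq_zero_or_pos M with h0 | h0
      · refine ⟨c, hc, fun n hn hlt => ?_⟩
        omega
      · refine ⟨min c (f M), lt_min hc (hf M h0), fun n hn hlt => ?_⟩
        rcases Nat.lt_succ_iff_lt_or_eq.mp hlt with h1 | h1
        · exact (min_le_left _ _).trans (hcn n hn h1)
        · rw [h1]; exact min_le_right _ _
  obtain ⟨c, hc, hcn⟩ := key N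
  refine ⟨min c 1, lt_min hc one_pos, fun n hn => ?_⟩
  rcases lt_or_ge n N with h1 | h1
  · exact (min_le_left _ _).trans (hcn n hn h1)
  · exact (min_le_right _ _).trans (hN n h1)

lemma dioph_of_not_liouville {α : ℝ} (hirr : Irrational α) (hL : ¬ LiouvilleWith 3 α) :
    ∃ Γ : ℝ, ∀ k : ℤ, k ≠ 0 → 1 ≤ Γ * (k : ℝ) ^ 2 * ‖cexp ((k * (2 * Real.pi * α) : ℝ) * I) - 1‖ := by
  have h1 : ¬ ∃ᶠ n : ℕ in atTop, ∃ m : ℤ, α ≠ m / n ∧ |α - m / n| < 1 / (n : ℝ) ^ (3 : ℝ) := fun h => hL ⟨1, h⟩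
  rw [Filter.not_frequently] at h1
  obtain ⟨N, hN⟩ := Filter.eventually_atTop.mp h1
  set f : ℕ → ℝ := fun n => (n : ℝ) ^ 2 * |n * α - round (n * α)| with hf
  have hfpos : ∀ n : ℕ, 0 < n → 0 < f n := by
    intro n hn
    have hn' : (0 : ℝ) < n := by exact_mod_cast hn
    have h2 : (n : ℝ) * α - round (n * α) ≠ 0 := by
      intro h0
      apply hirr
      refine ⟨(round ((n : ℝ) * α) : ℚ) / n, ?_⟩
      push_cast
      rw [div_eq_iff hn'.ne']
      linarith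
    have : 0 < |(n : ℝ) * α - round (n * α)| := abs_pos.mpr h2
    simp only [hf]; positivity
  have hfN : ∀ n : ℕ, max N 1 ≤ n → 1 ≤ f n := by
    intro n hn
    have hn1 : 1 ≤ n := (le_max_right _ _).trans hn
    have hn' : (0 : ℝ) < n := by exact_mod_cast hn1
    have h2 := hN n ((le_max_left _ _).trans hn)
    have h3 : ¬ |α - (round ((n : ℝ) * α) : ℤ) / n| < 1 / (n : ℝ) ^ (3 : ℝ) := by
      intro h4
      apply h2
      refine ⟨round ((n : ℝ) * α), ?_, h4⟩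
      intro h5
      apply hirr
      refine ⟨(round ((n : ℝ) * α) : ℚ) / n, ?_⟩
      push_cast
      exact h5.symm
    push Not at h3
    have e1 : (n : ℝ) ^ (3 : ℝ) = (n : ℝ) ^ 3 := by
      rw [← Real.rpow_natCast]; norm_num
    rw [e1] at h3
    have e2 : |(n : ℝ) * α - round (n * α)| = n * |α - (round ((n : ℝ) * α) : ℤ) / n| := by
      rw [← abs_of_pos hn', ← abs_mul, abs_of_pos hn']
      congr 1
      field_simp
    simp only [hf]
    rw [e2]
    calc (1 : ℝ) = (n : ℝ) ^ 2 * (n * (1 / (n : ℝ) ^ 3)) := by field_simp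
      _ ≤ (n : ℝ) ^ 2 * (n * |α - (round ((n : ℝ) * α) : ℤ) / n|) := by gcongr
  obtain ⟨c, hc, hcn⟩ := exists_pos_le f hfpos (max N 1) hfN
  refine ⟨1 / (4 * c), fun k hk => ?_⟩
  have main : ∀ n : ℕ, 0 < n → 1 ≤ 1 / (4 * c) * (n : ℝ) ^ 2 * ‖cexp ((n * (2 * Real.pi * α) : ℝ) * I) - 1‖ := by
    intro n hn
    have h2 := hcn n hn
    have h3 := norm_exp_sub_one_ge (n * α)
    have e : (n : ℝ) * (2 * Real.pi * α) = 2 * Real.pi * (n * α) := by ring
    rw [e]
    have h4 : c ≤ (n : ℝ) ^ 2 * |(n : ℝ) * α - round (n * α)| := h2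
    calc (1 : ℝ) = 1 / (4 * c) * (4 * c) := by field_simp
      _ ≤ 1 / (4 * c) * (4 * ((n : ℝ) ^ 2 * |(n : ℝ) * α - round (n * α)|)) := by gcongr
      _ = 1 / (4 * c) * (n : ℝ) ^ 2 * (4 * |(n : ℝ) * α - round (n * α)|) := by ring
      _ ≤ _ := by gcongr
  rcases lt_or_gt_of_ne hk with h | h
  · obtain ⟨n, hn⟩ : ∃ n : ℕ, k = -(n : ℤ) := ⟨k.natAbs, by omega⟩
    have hn0 : 0 < n := by omega
    have h2 := main n hn0
    have e1 : (k : ℝ) = -(n : ℝ) := by rw [hn]; push_cast; ring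
    rw [e1, neg_sq]
    have e2 : ‖cexp ((-(n : ℝ) * (2 * Real.pi * α) : ℝ) * I) - 1‖ = ‖cexp ((n * (2 * Real.pi * α) : ℝ) * I) - 1‖ := by
      rw [← RCLike.norm_conj]
      congr 1
      rw [map_sub, map_one, ← Complex.exp_conj, map_mul, Complex.conj_ofReal, Complex.conj_I]
      congr 2
      push_cast; ring
    rw [e2]; exact h2
  · obtain ⟨n, hn⟩ : ∃ n : ℕ, k = (n : ℤ) := ⟨k.natAbs, by omega⟩
    have hn0 : 0 < n := by omega
    have h2 := main n hn0
    rw [hn]; exact_mod_cast h2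

/-- Almost every angle is Diophantine. -/
lemma ae_dioph : ∀ᵐ β : ℝ, ∃ Γ : ℝ, ∀ k : ℤ, k ≠ 0 → 1 ≤ Γ * (k : ℝ) ^ 2 * ‖cexp ((k * β : ℝ) * I) - 1‖ := by
  have h1 : ∀ᵐ α : ℝ, Irrational α ∧ ¬ LiouvilleWith 3 α := by
    have h2 : ∀ᵐ α : ℝ, Irrational α := by
      have : (volume : Measure ℝ) (Set.range ((↑) : ℚ → ℝ)) = 0 := (Set.countable_range _).measure_zero _
      exact compl_mem_ae_iff.mpr this
    filter_upwards [h2, ae_not_liouvilleWith] with α ha hb
    exact ⟨ha, hb 3 (by norm_num)⟩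
  have hpi : (2 * Real.pi)⁻¹ ≠ 0 := by have := Real.pi_pos; positivity
  have h3 : ∀ᵐ β : ℝ, Irrational ((2 * Real.pi)⁻¹ • β) ∧ ¬ LiouvilleWith 3 ((2 * Real.pi)⁻¹ • β) := by
    rw [ae_iff] at h1 ⊢
    have h4 := Measure.addHaar_preimage_smul (volume : Measure ℝ) hpi {α | ¬ (Irrational α ∧ ¬ LiouvilleWith 3 α)}
    rw [h1, mul_zero] at h4
    exact h4
  filter_upwards [h3] with β hβ
  have h5 := dioph_of_not_liouville hβ.1 hβ.2
  have e : 2 * Real.pi * ((2 * Real.pi)⁻¹ • β) = β := by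
    have := Real.pi_pos
    rw [smul_eq_mul]; field_simp
  rw [e] at h5
  exact h5

end Pool.Agent.Helper649.Bil
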