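import Pool.Agent.Helper649.Herman

set_option autoImplicit false

namespace Pool.Agent.Helper649

open MeasureTheory Set Filter Topology

lemma circ_measure (S : Set ℝ) (hS : MeasurableSet S) (hsub : S ⊆ Ioc (-1 / 2) (-1 / 2 + 1)) :
    AddCircle.haarAddCircle ((fun t : ℝ => (t : AddCircle (1 : ℝ))) '' S) = volume S := by
  have h1 : (volume : Measure (AddCircle (1 : ℝ))) = AddCircle.haarAddCircle := by
    rw [AddCircle.volume_eq_smul_haarAddCircle]; simp
  rw [← h1]
  have himg : (fun t : ℝ => (t : AddCircle (1 : ℝ))) '' S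
      = (AddCircle.measurableEquivIoc (1 : ℝ) (-1 / 2)).symm '' {x | (x : ℝ) ∈ S} := by
    ext x
    constructor
    · rintro ⟨t, ht, rfl⟩
      exact ⟨⟨t, hsub ht⟩, ht, rfl⟩
    · rintro ⟨t, ht, rfl⟩
      exact ⟨t.1, ht, rfl⟩
  have hmeas : MeasurableSet ((fun t : ℝ => (t : AddCircle (1 : ℝ))) '' S) := by
    rw [himg]
    apply (AddCircle.measurableEquivIoc (1 : ℝ) (-1 / 2)).symm.measurableEmbedding.measurableSet_image.mpr
    exact hS.preimage measurable_subtype_coe
  rw [AddCircle.add_projection_respects_measure (1 : ℝ) (-1 / 2) hmeas]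
  congr 1
  ext t
  constructor
  · rintro ⟨⟨s, hs, hst⟩, ht⟩
    have : s = t := by
      have h2 := AddCircle.equivIoc_coe_eq (p := (1 : ℝ)) (hsub hs)
      have h3 := AddCircle.equivIoc_coe_eq (p := (1 : ℝ)) ht
      have h4 : ((s : ℝ) : AddCircle (1 : ℝ)) = ((t : ℝ) : AddCircle (1 : ℝ)) := hst
      rw [h4] at h2
      have := h2.symm.trans h3
      exact congrArg Subtype.val this
    rw [← this]; exact hs
  · intro ht
    exact ⟨⟨t, ht, rfl⟩, hsub ht⟩

lemma good_measurable : MeasurableSet {θ : ℝ | Good θ} := by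
  have e : {θ : ℝ | Good θ} = ⋂ k : ℤ, {θ : ℝ | k ≠ 0 → 1 ≤ (1 / θ) * k ^ 2 * ‖ch k θ - 1‖} := by
    ext θ; simp [Good]
  rw [e]
  refine MeasurableSet.iInter (fun k => ?_)
  by_cases hk : k = 0
  · simp [hk]
  · simp only [ne_eq, hk, not_false_eq_true, true_implies]
    have hc : Continuous (fun θ : ℝ => ch k θ) :=
      continuous_iff_continuousAt.mpr fun t => (ch_hasDerivAt k t).continuousAt
    refine measurableSet_le measurable_const ?_
    exact ((measurable_const.div measurable_id).mul_const _).mul (hc.measurable.sub_const 1).norm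

/-- The exceptional set in a small symmetric interval. -/
def badset (r : ℝ) : Set ℝ := Ioo (-r) r ∩ {t | ¬ (0 < |t| ∧ Good |t|)}

lemma badset_measurable (r : ℝ) : MeasurableSet (badset r) := by
  refine measurableSet_Ioo.inter ?_
  have h1 : MeasurableSet {t : ℝ | Good |t|} := good_measurable.preimage measurable_norm
  have h2 : MeasurableSet {t : ℝ | 0 < |t|} := measurableSet_lt measurable_const measurable_norm
  exact (h2.inter h1).compl

lemma badset_measure : ∃ C : ℝ, 0 ≤ C ∧ ∀ r : ℝ, 0 < r → volume (badset r) ≤ ENNReal.ofReal (C * r ^ 2) := by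
  obtain ⟨C, hC, h⟩ := bad_measure
  refine ⟨2 * C, by positivity, fun r hr => ?_⟩
  have hsub : badset r ⊆ {0} ∪ ((Ioo 0 r ∩ {θ | ¬ Good θ}) ∪ (Neg.neg ⁻¹' (Ioo 0 r ∩ {θ | ¬ Good θ}))) := by
    rintro t ⟨⟨ht1, ht2⟩, ht3⟩
    simp only [mem_ofPred_eq, not_and] at ht3
    rcases lt_trichotomy t 0 with h0 | h0 | h0
    · right; right
      rw [abs_of_neg h0] at ht3
      exact ⟨⟨by linarith, by linarith⟩, ht3 (by linarith)⟩
    · left; exact h0
    · right; left
      rw [abs_of_pos h0] at ht3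
      exact ⟨⟨h0, ht2⟩, ht3 h0⟩
  refine (measure_mono hsub).trans ?_
  refine (measure_union_le _ _).trans ?_
  rw [Real.volume_singleton, zero_add]
  refine (measure_union_le _ _).trans ?_
  have h2 : volume (Neg.neg ⁻¹' (Ioo 0 r ∩ {θ | ¬ Good θ})) = volume (Ioo 0 r ∩ {θ | ¬ Good θ}) :=
    MeasureTheory.Measure.measure_preimage_neg volume _
  rw [h2]
  have := h r hr
  calc volume (Ioo 0 r ∩ {θ | ¬ Good θ}) + volume (Ioo 0 r ∩ {θ | ¬ Good θ})
      ≤ ENNReal.ofReal (C * r ^ 2) + ENNReal.ofReal (C * r ^ 2) := add_le_add this this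
    _ = ENNReal.ofReal (2 * C * r ^ 2) := by
      rw [← ENNReal.ofReal_add (by positivity) (by positivity)]; congr 1; ring

/-- Abstract density statement on the circle. -/
theorem density (Θ : Set (AddCircle (1 : ℝ))) (θ0 : ℝ) (hθ0 : 0 < θ0)
    (h : ∀ t : ℝ, |t| < θ0 → 0 < |t| → Good |t| → (t : AddCircle (1 : ℝ)) ∈ Θ) :
    Tendsto (fun r : ℝ => AddCircle.haarAddCircle (Θ ∩ (fun t : ℝ => (t : AddCircle (1 : ℝ))) '' Ioo (-r) r)
      / ENNReal.ofReal (2 * r)) (𝓝[>] 0) (𝓝 1) ∧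
    Tendsto (fun r : ℝ => AddCircle.haarAddCircle (((fun t : ℝ => (t : AddCircle (1 : ℝ))) '' Ioo (-r) r) \ Θ)
      / ENNReal.ofReal (2 * r)) (𝓝[>] 0) (𝓝 0) := by
  obtain ⟨C, hC, hb⟩ := badset_measure
  obtain ⟨r0, hr0⟩ : ∃ r0 : ℝ, r0 = min θ0 (min (1 / 4) (1 / (C + 1))) := ⟨_, rfl⟩
  have hr0pos : 0 < r0 := by rw [hr0]; positivity
  have hev : ∀ᶠ r : ℝ in 𝓝[>] 0, 0 < r ∧ r < r0 := by
    filter_upwards [Ioo_mem_nhdsGT hr0pos] with r hr
    exact ⟨hr.1, hr.2⟩
  -- the bound on the complement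
  have hcompl : ∀ r : ℝ, 0 < r → r < r0 →
      AddCircle.haarAddCircle (((fun t : ℝ => (t : AddCircle (1 : ℝ))) '' Ioo (-r) r) \ Θ)
        ≤ ENNReal.ofReal (C * r ^ 2) := by
    intro r h1 h2
    have hrθ : r < θ0 := lt_of_lt_of_le h2 (by rw [hr0]; exact min_le_left _ _)
    have hr4 : r < 1 / 4 := lt_of_lt_of_le h2 (by rw [hr0]; exact (min_le_right _ _).trans (min_le_left _ _))
    have hsub : ((fun t : ℝ => (t : AddCircle (1 : ℝ))) '' Ioo (-r) r) \ Θ
        ⊆ (fun t : ℝ => (t : AddCircle (1 : ℝ))) '' badset r := by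
      rintro x ⟨⟨t, ht, rfl⟩, hx⟩
      refine ⟨t, ⟨ht, ?_⟩, rfl⟩
      rintro ⟨g1, g2⟩
      exact hx (h t ((abs_lt.mpr ht).trans hrθ) g1 g2)
    refine (measure_mono hsub).trans ?_
    rw [circ_measure _ (badset_measurable r) (fun t ht => ⟨by linarith [ht.1.1], by linarith [ht.1.2]⟩)]
    exact hb r h1
  have harc : ∀ r : ℝ, 0 < r → r < r0 →
      AddCircle.haarAddCircle ((fun t : ℝ => (t : AddCircle (1 : ℝ))) '' Ioo (-r) r) = ENNReal.ofReal (2 * r) := by
    intro r h1 h2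
    have hr4 : r < 1 / 4 := lt_of_lt_of_le h2 (by rw [hr0]; exact (min_le_right _ _).trans (min_le_left _ _))
    rw [circ_measure _ measurableSet_Ioo (fun t ht => ⟨by linarith [ht.1], by linarith [ht.2]⟩), Real.volume_Ioo]
    congr 1; ring
  have hdivC : ∀ r : ℝ, 0 < r → ENNReal.ofReal (C * r ^ 2) / ENNReal.ofReal (2 * r) = ENNReal.ofReal (C / 2 * r) := by
    intro r hr
    rw [← ENNReal.ofReal_div_of_pos (by positivity)]
    congr 1
    field_simp
  have hlim0 : Tendsto (fun r : ℝ => ENNReal.ofReal (C / 2 * r)) (𝓝[>] 0) (𝓝 0) := by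
    have h1 : Tendsto (fun r : ℝ => C / 2 * r) (𝓝[>] 0) (𝓝 (C / 2 * 0)) :=
      (tendsto_id.const_mul (C / 2)).mono_left nhdsWithin_le_nhds
    rw [mul_zero] at h1
    have := ENNReal.tendsto_ofReal h1
    rwa [ENNReal.ofReal_zero] at this
  have hlim1 : Tendsto (fun r : ℝ => ENNReal.ofReal (1 - C / 2 * r)) (𝓝[>] 0) (𝓝 1) := by
    have h1 : Tendsto (fun r : ℝ => 1 - C / 2 * r) (𝓝[>] 0) (𝓝 (1 - C / 2 * 0)) :=
      ((tendsto_id.const_mul (C / 2)).const_sub 1).mono_left nhdsWithin_le_nhds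
    rw [mul_zero, sub_zero] at h1
    have := ENNReal.tendsto_ofReal h1
    rwa [ENNReal.ofReal_one] at this
  constructor
  · refine tendsto_of_tendsto_of_tendsto_of_le_of_le' hlim1 tendsto_const_nhds ?_ ?_
    · filter_upwards [hev] with r hr
      obtain ⟨h1, h2⟩ := hr
      have hpos : ENNReal.ofReal (2 * r) ≠ 0 := by
        rw [Ne, ENNReal.ofReal_eq_zero, not_le]; positivity
      rw [ENNReal.le_div_iff_mul_le (Or.inl hpos) (Or.inl ENNReal.ofReal_ne_top),
        ← ENNReal.ofReal_mul' (by positivity)]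
      have e : (1 - C / 2 * r) * (2 * r) = 2 * r - C * r ^ 2 := by ring
      rw [e, ENNReal.ofReal_sub _ (by positivity), tsub_le_iff_right, ← harc r h1 h2]
      calc AddCircle.haarAddCircle ((fun t : ℝ => (t : AddCircle (1 : ℝ))) '' Ioo (-r) r)
          ≤ AddCircle.haarAddCircle ((Θ ∩ (fun t : ℝ => (t : AddCircle (1 : ℝ))) '' Ioo (-r) r)
            ∪ (((fun t : ℝ => (t : AddCircle (1 : ℝ))) '' Ioo (-r) r) \ Θ)) := by
            apply measure_mono
            intro x hx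
            by_cases hxΘ : x ∈ Θ
            · exact Or.inl ⟨hxΘ, hx⟩
            · exact Or.inr ⟨hx, hxΘ⟩
        _ ≤ _ := (measure_union_le _ _).trans (by gcongr; exact hcompl r h1 h2)
    · filter_upwards [hev] with r hr
      obtain ⟨h1, h2⟩ := hr
      apply ENNReal.div_le_of_le_mul
      rw [one_mul, ← harc r h1 h2]
      exact measure_mono inter_subset_right
  · refine tendsto_of_tendsto_of_tendsto_of_le_of_le' tendsto_const_nhds hlim0 ?_ ?_
    · exact Eventually.of_forall fun r => zero_le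
    · filter_upwards [hev] with r hr
      obtain ⟨h1, h2⟩ := hr
      rw [← hdivC r h1]
      exact ENNReal.div_le_div_right (hcompl r h1 h2) _

end Pool.Agent.Helper649
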