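import Mathlib

set_option autoImplicit false

namespace Pool.Agent.Helper649

/-- The amplitude function. -/
lemma exists_am (m : ℝ) (hm0 : 0 ≤ m) (hm1 : m < 1) :
    ∃ φ : ℝ → ℝ, (∀ t, HasDerivAt φ (Real.sqrt (1 - m * Real.sin (φ t) ^ 2)) t) ∧
      ∃ T : ℝ, 0 < T ∧ φ 0 = -(Real.pi / 2) ∧ φ T = Real.pi / 2 := by
  set D : ℝ → ℝ := fun s => Real.sqrt (1 - m * Real.sin s ^ 2) with hD
  have hpos : ∀ s, 0 < 1 - m * Real.sin s ^ 2 := by
    intro s
    have := Real.sin_sq_le_one s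
    nlinarith [sq_nonneg (Real.sin s)]
  have hDpos : ∀ s, 0 < D s := fun s => Real.sqrt_pos.mpr (hpos s)
  have hDle : ∀ s, D s ≤ 1 := by
    intro s
    rw [hD]; simp only
    apply Real.sqrt_le_iff.mpr; refine ⟨zero_le_one, ?_⟩
    nlinarith [mul_nonneg hm0 (sq_nonneg (Real.sin s))]
  have hDc : Continuous D := by
    rw [hD]; fun_prop
  set g : ℝ → ℝ := fun s => (D s)⁻¹ with hg
  have hgc : Continuous g := hDc.inv₀ (fun s => (hDpos s).ne')
  have hg1 : ∀ s, 1 ≤ g s := fun s => (one_le_inv₀ (hDpos s)).mpr (hDle s)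
  set G : ℝ → ℝ := fun x => ∫ s in (-(Real.pi / 2))..x, g s with hG
  have hGd : ∀ x, HasDerivAt G (g x) x := fun x =>
    intervalIntegral.integral_hasDerivAt_right (hgc.intervalIntegrable _ _)
      (hgc.stronglyMeasurableAtFilter _ _) hgc.continuousAt
  have hGc : Continuous G := continuous_iff_continuousAt.mpr fun x => (hGd x).continuousAt
  have hGmono : StrictMono G := strictMono_of_deriv_pos (fun x => by
    rw [(hGd x).deriv]; linarith [hg1 x])
  have hGsub : Monotone (fun x => G x - x) := by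
    apply monotone_of_deriv_nonneg
    · exact fun x => ((hGd x).sub (hasDerivAt_id x)).differentiableAt
    · intro x
      have := ((hGd x).sub (hasDerivAt_id x)).deriv
      have h2 : deriv (fun x => G x - x) x = g x - 1 := this
      rw [h2]; linarith [hg1 x]
  have htop : Filter.Tendsto G Filter.atTop Filter.atTop := by
    apply Filter.tendsto_atTop_mono' _ _ (Filter.tendsto_atTop_add_const_right Filter.atTop (G 0) Filter.tendsto_id)
    filter_upwards [Filter.eventually_ge_atTop 0] with x hx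
    have := hGsub hx
    simp at this
    simp; linarith
  have hbot : Filter.Tendsto G Filter.atBot Filter.atBot := by
    apply Filter.tendsto_atBot_mono' _ _ (Filter.tendsto_atBot_add_const_right Filter.atBot (G 0) Filter.tendsto_id)
    filter_upwards [Filter.eventually_le_atBot 0] with x hx
    have := hGsub hx
    simp at this
    simp; linarith
  have hsurj : Function.Surjective G := hGc.surjective htop hbot
  let e : ℝ ≃o ℝ := StrictMono.orderIsoOfSurjective G hGmono hsurj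
  have heG : ∀ x, e x = G x := fun x => rfl
  have hesymm : Continuous e.symm := e.symm.continuous
  refine ⟨fun t => e.symm t, ?_, G (Real.pi / 2), ?_, ?_, ?_⟩
  · intro t
    have h1 : HasDerivAt G (g (e.symm t)) (e.symm t) := hGd _
    have h2 : HasDerivAt (fun t => e.symm t) (g (e.symm t))⁻¹ t := by
      apply HasDerivAt.of_local_left_inverse (f := G) hesymm.continuousAt h1
      · linarith [hg1 (e.symm t)]
      · exact Filter.Eventually.of_forall (fun y => e.apply_symm_apply y)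
    have h3 : (g (e.symm t))⁻¹ = Real.sqrt (1 - m * Real.sin (e.symm t) ^ 2) := by
      rw [hg]; simp [hD]
    rw [← h3]; exact h2
  · have h0 : G (-(Real.pi / 2)) = 0 := by rw [hG]; simp
    rw [← h0]
    exact hGmono (by linarith [Real.pi_pos])
  · have h0 : G (-(Real.pi / 2)) = 0 := by rw [hG]; simp
    show e.symm 0 = _
    rw [OrderIso.symm_apply_eq, heG, h0]
  · show e.symm _ = _
    rw [OrderIso.symm_apply_eq, heG]

/-- The closed orbit of the limiting vector field (half of it). -/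
lemma exists_ode : ∃ (ξ η : ℝ → ℂ) (T : ℝ), 0 < T ∧ (∀ t, HasDerivAt ξ (η t ^ 2) t) ∧
    (∀ t, HasDerivAt η (ξ t ^ 2) t) ∧ ξ 0 + η 0 = 0 ∧ ξ T + η T = 0 ∧ η 0 ≠ 0 ∧ ξ T ≠ 0 := by
  set r3 : ℝ := Real.sqrt 3 with hr3
  have hr3sq : r3 ^ 2 = 3 := Real.sq_sqrt (by norm_num)
  have hr3pos : 0 < r3 := Real.sqrt_pos.mpr (by norm_num)
  have hr3lt : r3 < 2 := by nlinarith
  have hr3gt : 1 < r3 := by nlinarith
  set m : ℝ := (2 - r3) / 4 with hm
  have hm0 : 0 ≤ m := by rw [hm]; linarith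
  have hm1 : m < 1 := by rw [hm]; linarith
  obtain ⟨φ, hφ, T, hT, hφ0, hφT⟩ := exists_am m hm0 hm1
  set k : ℝ := Real.sqrt m with hk
  have hk2 : k ^ 2 = m := Real.sq_sqrt hm0
  set c : ℝ → ℝ := fun t => Real.sqrt (1 - m * Real.sin (φ t) ^ 2) with hc
  set s : ℝ → ℝ := fun t => k * Real.sin (φ t) with hs
  set p : ℝ → ℝ := fun t => k * Real.cos (φ t) with hp
  have hpos : ∀ x, 0 < 1 - m * Real.sin x ^ 2 := by
    intro x
    have := Real.sin_sq_le_one x
    nlinarith [sq_nonneg (Real.sin x)]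
  have hcpos : ∀ t, 0 < c t := fun t => Real.sqrt_pos.mpr (hpos _)
  have hc2 : ∀ t, c t ^ 2 = 1 - s t ^ 2 := by
    intro t
    have h1 : c t ^ 2 = 1 - m * Real.sin (φ t) ^ 2 := Real.sq_sqrt (hpos _).le
    rw [h1]; simp only [hs]; rw [mul_pow, hk2]
  have hp2 : ∀ t, p t ^ 2 = m - s t ^ 2 := by
    intro t
    simp only [hs, hp]
    rw [mul_pow, mul_pow, hk2, Real.cos_sq']; ring
  have hφ' : ∀ t, HasDerivAt φ (c t) t := hφ
  have hsd : ∀ t, HasDerivAt s (p t * c t) t := by
    intro t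
    have := ((hφ' t).sin).const_mul k
    refine this.congr_deriv ?_
    simp only [hp]; ring
  have hpd : ∀ t, HasDerivAt p (-(s t * c t)) t := by
    intro t
    have := ((hφ' t).cos).const_mul k
    refine this.congr_deriv ?_
    simp only [hs]; ring
  have hcd : ∀ t, HasDerivAt c (-(s t * p t)) t := by
    intro t
    have h1 : HasDerivAt (fun t => 1 - m * Real.sin (φ t) ^ 2)
        (-(m * (2 * Real.sin (φ t) * (Real.cos (φ t) * c t)))) t := by
      have h2 := (((hφ' t).sin).pow 2).const_mul m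
      have h3 := h2.const_sub 1
      refine h3.congr_deriv ?_
      simp
    have h4 := h1.sqrt (hpos _).ne'
    refine h4.congr_deriv ?_
    have h5 : Real.sqrt (1 - m * Real.sin (φ t) ^ 2) = c t := rfl
    rw [h5]
    have h6 := (hcpos t).ne'
    have h7 : s t * p t = m * (Real.sin (φ t) * Real.cos (φ t)) := by
      rw [← hk2]; simp only [hs, hp]; ring
    rw [h7]
    field_simp
  set E : ℝ → ℂ := fun t => ((c t : ℂ) + (s t : ℂ) * Complex.I) ^ 2 with hE
  set Ei : ℝ → ℂ := fun t => ((c t : ℂ) - (s t : ℂ) * Complex.I) ^ 2 with hEi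
  have hII : (Complex.I) ^ 2 = -1 := Complex.I_sq
  have hEEi : ∀ t, E t * Ei t = 1 := by
    intro t
    have h1 : ((c t : ℂ)) ^ 2 = 1 - (s t : ℂ) ^ 2 := by exact_mod_cast hc2 t
    simp only [hE, hEi]
    have h2 : ((c t : ℂ) + (s t : ℂ) * Complex.I) * ((c t : ℂ) - (s t : ℂ) * Complex.I) = 1 := by
      linear_combination h1 - (s t : ℂ) ^ 2 * hII
    rw [← mul_pow, h2, one_pow]
  have hEd : ∀ t, HasDerivAt E (2 * Complex.I * p t * E t) t := by
    intro t
    have h1 : HasDerivAt (fun t => (c t : ℂ)) ((-(s t * p t) : ℝ) : ℂ) t := (hcd t).ofReal_comp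
    have h2 : HasDerivAt (fun t => (s t : ℂ)) ((p t * c t : ℝ) : ℂ) t := (hsd t).ofReal_comp
    have h3 := (h1.add (h2.mul_const Complex.I)).pow 2
    refine h3.congr_deriv ?_
    simp only [hE, Pi.add_apply]
    push_cast
    linear_combination (-2 * (s t : ℂ) * p t * (c t + s t * Complex.I)) * hII
  have hEnorm : ∀ t, ‖E t‖ = 1 := by
    intro t
    have h1 : ‖((c t : ℂ) + (s t : ℂ) * Complex.I)‖ ^ 2 = 1 := by
      rw [← Complex.normSq_eq_norm_sq, Complex.normSq_add_mul_I]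
      linarith [hc2 t]
    simp only [hE, norm_pow]; exact h1
  set D : ℝ → ℂ := fun t => (r3 : ℂ) * E t - 1 with hD
  have hDne : ∀ t, D t ≠ 0 := by
    intro t h0
    simp only [hD] at h0
    have h1 : (r3 : ℂ) * E t = 1 := by linear_combination h0
    have h2 := congrArg norm h1
    rw [norm_mul, hEnorm, Complex.norm_real, Real.norm_of_nonneg hr3pos.le] at h2
    simp at h2
    linarith
  have hDd : ∀ t, HasDerivAt D ((r3 : ℂ) * (2 * Complex.I * p t * E t)) t := by
    intro t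
    exact ((hEd t).const_mul (r3 : ℂ)).sub_const 1
  set μ : ℝ := Real.sqrt r3 with hμ
  have hμ2 : μ ^ 2 = r3 := Real.sq_sqrt hr3pos.le
  have hμpos : 0 < μ := Real.sqrt_pos.mpr hr3pos
  set u : ℝ → ℂ := fun t => (2 * (r3 : ℂ) * Complex.I * p t * E t) / D t with hu
  set v : ℝ → ℂ := fun t => (μ : ℂ) / D t with hv
  have hvd : ∀ t, HasDerivAt v (-(u t * v t)) t := by
    intro t
    have h1 := (hasDerivAt_const t (μ : ℂ)).div (hDd t) (hDne t)
    refine h1.congr_deriv ?_
    have := hDne t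
    simp only [hu, hv]
    field_simp
    ring
  have hud : ∀ t, HasDerivAt u ((u t ^ 2 + v t ^ 2) / 2) t := by
    intro t
    have h0 : HasDerivAt (fun t => (p t : ℂ)) ((-(s t * c t) : ℝ) : ℂ) t := (hpd t).ofReal_comp
    have h1 := (((h0.const_mul (2 * (r3 : ℂ) * Complex.I)).mul (hEd t))).div (hDd t) (hDne t)
    refine h1.congr_deriv ?_
    have hDt := hDne t
    simp only [hu, hv, Pi.mul_apply]
    have hI : Complex.I ^ 2 = -1 := hII
    have hr : (r3 : ℂ) ^ 2 = 3 := by exact_mod_cast hr3sq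
    have hm' : (μ : ℂ) ^ 2 = r3 := by exact_mod_cast hμ2
    have hEE := hEEi t
    have hc2' : ((c t : ℂ)) ^ 2 = 1 - (s t : ℂ) ^ 2 := by exact_mod_cast hc2 t
    have hp2' : ((p t : ℂ)) ^ 2 = (2 - r3) / 4 - (s t : ℂ) ^ 2 := by
      have := hp2 t
      rw [hm] at this
      exact_mod_cast this
    have hA : (((-(s t * c t) : ℝ)) : ℂ) = Complex.I * (E t - Ei t) / 4 := by
      simp only [hE, hEi]
      push_cast
      linear_combination (- (c t : ℂ) * s t) * hI
    have hP : ((p t : ℂ)) ^ 2 = (E t + Ei t - r3) / 4 := by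
      simp only [hE, hEi]
      linear_combination hp2' - (1 / 2 : ℂ) * hc2' - (1 / 2 : ℂ) * (s t : ℂ) ^ 2 * hI
    rw [hA]
    have key : (2 * (r3 : ℂ) * Complex.I * (Complex.I * (E t - Ei t) / 4) * E t +
        2 * (r3 : ℂ) * Complex.I * p t * (2 * Complex.I * p t * E t)) * D t -
        2 * (r3 : ℂ) * Complex.I * p t * E t * ((r3 : ℂ) * (2 * Complex.I * p t * E t))
        = ((2 * (r3 : ℂ) * Complex.I * p t * E t) ^ 2 + (μ : ℂ) ^ 2) / 2 := by
      simp only [hD]
      linear_combination (-4 * (r3 : ℂ) * (p t : ℂ) ^ 2 * E t - 2 * (r3 : ℂ) ^ 2 * (p t : ℂ) ^ 2 * E t ^ 2) * hI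
        + (2 * Complex.I * (Complex.I * (E t - Ei t) / 4) * E t ^ 2 + 2 * (p t : ℂ) ^ 2 * E t ^ 2) * hr
        + ((6 * E t ^ 2 - 2 * (r3 : ℂ) * E t) * (E t - Ei t) / 4) * hI
        + (6 * E t ^ 2 + 4 * (r3 : ℂ) * E t) * hP
        + (3 * E t + (r3 : ℂ) / 2) * hEE - E t * hr - (1 / 2 : ℂ) * hm'
    have e1 : ((2 * (r3 : ℂ) * Complex.I * p t * E t / D t) ^ 2 + ((μ : ℂ) / D t) ^ 2) / 2
        = (((2 * (r3 : ℂ) * Complex.I * p t * E t) ^ 2 + (μ : ℂ) ^ 2) / 2) / D t ^ 2 := by
      field_simp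
    rw [e1, ← key]
  have hpz0 : p 0 = 0 := by
    simp only [hp, hφ0, Real.cos_neg, Real.cos_pi_div_two, mul_zero]
  have hpzT : p T = 0 := by
    simp only [hp, hφT, Real.cos_pi_div_two, mul_zero]
  have hu0 : u 0 = 0 := by simp [hu, hpz0]
  have huT : u T = 0 := by simp [hu, hpzT]
  have hvne : ∀ t, v t ≠ 0 := by
    intro t
    simp only [hv]
    exact div_ne_zero (by exact_mod_cast hμpos.ne') (hDne t)
  refine ⟨fun t => (u t + v t) / 2, fun t => (u t - v t) / 2, T, hT, ?_, ?_, ?_, ?_, ?_, ?_⟩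
  · intro t
    have := ((hud t).add (hvd t)).div_const 2
    refine this.congr_deriv ?_
    ring
  · intro t
    have := ((hud t).sub (hvd t)).div_const 2
    refine this.congr_deriv ?_
    ring
  · simp only [hu0]; ring
  · simp only [huT]; ring
  · simp only [hu0]
    simpa using hvne 0
  · simp only [huT]
    simpa using hvne T


open Set in
/-- Uniqueness of solutions. -/
lemma ode_unique (x y x1 y1 : ℝ → ℂ) (hx : ∀ t, HasDerivAt x (y t ^ 2) t) (hy : ∀ t, HasDerivAt y (x t ^ 2) t)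
    (hx1 : ∀ t, HasDerivAt x1 (y1 t ^ 2) t) (hy1 : ∀ t, HasDerivAt y1 (x1 t ^ 2) t) (t0 : ℝ)
    (h0 : x t0 = x1 t0) (h0' : y t0 = y1 t0) (t : ℝ) : x t = x1 t ∧ y t = y1 t := by
  obtain ⟨A, hA0, hAt, hAt0⟩ : ∃ A : ℝ, 0 < A ∧ |t| < A ∧ |t0| < A :=
    ⟨|t| + |t0| + 1, by positivity, by have := abs_nonneg t0; linarith, by have := abs_nonneg t; linarith⟩
  have hcont : ∀ f f' : ℝ → ℂ, (∀ t, HasDerivAt f (f' t) t) → ∃ M : ℝ, 0 ≤ M ∧ ∀ t ∈ Icc (-A) A, ‖f t‖ ≤ M := by
    intro f f' hf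
    have hc : Continuous f := continuous_iff_continuousAt.mpr fun t => (hf t).continuousAt
    obtain ⟨M, hM⟩ := isCompact_Icc.exists_bound_of_continuousOn (hc.continuousOn (s := Icc (-A) A))
    exact ⟨max M 0, le_max_right _ _, fun t ht => (hM t ht).trans (le_max_left _ _)⟩
  obtain ⟨M1, m1, h1⟩ := hcont x _ hx
  obtain ⟨M2, m2, h2⟩ := hcont y _ hy
  obtain ⟨M3, m3, h3⟩ := hcont x1 _ hx1
  obtain ⟨M4, m4, h4⟩ := hcont y1 _ hy1
  obtain ⟨M, hM⟩ : ∃ M : ℝ, M = M1 + M2 + M3 + M4 := ⟨_, rfl⟩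
  have hM0 : 0 ≤ M := by linarith
  let v : ℝ → ℂ × ℂ → ℂ × ℂ := fun _ p => (p.2 ^ 2, p.1 ^ 2)
  let s : ℝ → Set (ℂ × ℂ) := fun _ => {p | ‖p.1‖ ≤ M ∧ ‖p.2‖ ≤ M}
  have hv : ∀ t ∈ Ioo (-A) A, LipschitzOnWith (Real.toNNReal (2 * M)) (v t) (s t) := by
    intro t _
    apply LipschitzOnWith.of_dist_le_mul
    rintro ⟨p1, p2⟩ ⟨hp1, hp2⟩ ⟨q1, q2⟩ ⟨hq1, hq2⟩
    rw [Real.coe_toNNReal _ (by linarith)]
    simp only [v, Prod.dist_eq]
    have key : ∀ a b : ℂ, ‖a‖ ≤ M → ‖b‖ ≤ M → dist (a ^ 2) (b ^ 2) ≤ 2 * M * dist a b := by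
      intro a b ha hb
      rw [dist_eq_norm, dist_eq_norm]
      have : a ^ 2 - b ^ 2 = (a + b) * (a - b) := by ring
      rw [this, norm_mul]
      have := norm_add_le a b
      gcongr
      linarith
    have k1 := key p2 q2 hp2 hq2
    have k2 := key p1 q1 hp1 hq1
    have n1 := le_max_left (dist p1 q1) (dist p2 q2)
    have n2 := le_max_right (dist p1 q1) (dist p2 q2)
    apply max_le
    · refine k1.trans ?_
      gcongr
    · refine k2.trans ?_
      gcongr
  have hu := ODE_solution_unique_of_mem_Ioo (v := v) (s := s) (f := fun t => (x t, y t)) (g := fun t => (x1 t, y1 t))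
    (t₀ := t0) hv (abs_lt.mp hAt0)
    (fun t ht => ⟨(hx t).prodMk (hy t), by
      have ht' := Ioo_subset_Icc_self ht
      exact ⟨(h1 t ht').trans (by linarith), (h2 t ht').trans (by linarith)⟩⟩)
    (fun t ht => ⟨(hx1 t).prodMk (hy1 t), by
      have ht' := Ioo_subset_Icc_self ht
      exact ⟨(h3 t ht').trans (by linarith), (h4 t ht').trans (by linarith)⟩⟩)
    (by rw [h0, h0'])
  have h := hu (abs_lt.mp hAt)
  exact ⟨congrArg Prod.fst h, congrArg Prod.snd h⟩

/-- The unperturbed solution: a one-periodic solution of the reversible equation. -/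
theorem exists_w0 : ∃ w : ℝ → ℂ, (∀ t, HasDerivAt w (w (-t) ^ 2) t) ∧ (∀ t, w (t + 1) = w t) ∧ w 0 ≠ 0 := by
  obtain ⟨ξ, η, T, hT, hξ, hη, h0, hTT, hη0, hξT⟩ := exists_ode
  -- reflections
  have hrefl : ∀ c : ℝ, ξ c + η c = 0 → ∀ t, ξ t = -η (2 * c - t) ∧ η t = -ξ (2 * c - t) := by
    intro c hc t
    have hder : ∀ (f f' : ℝ → ℂ), (∀ t, HasDerivAt f (f' t) t) → ∀ t,
        HasDerivAt (fun t => -f (2 * c - t)) (f' (2 * c - t)) t := by
      intro f f' hf t
      have h1 : HasDerivAt (fun t : ℝ => 2 * c - t) (-1) t := by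
        simpa using (hasDerivAt_id t).const_sub (2 * c)
      have h2 := ((hf (2 * c - t)).scomp t h1).neg
      refine h2.congr_deriv ?_
      simp
    refine ode_unique ξ η (fun t => -η (2 * c - t)) (fun t => -ξ (2 * c - t)) hξ hη ?_ ?_ c ?_ ?_ t
    · intro t
      have := hder η _ hη t
      refine this.congr_deriv ?_
      ring
    · intro t
      have := hder ξ _ hξ t
      refine this.congr_deriv ?_
      ring
    · have : 2 * c - c = c := by ring
      rw [this]; linear_combination hc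
    · have : 2 * c - c = c := by ring
      rw [this]; linear_combination hc
  have hr0 := hrefl 0 h0
  have hrT := hrefl T hTT
  have hneg : ∀ t, η t = -ξ (-t) := by
    intro t
    have := (hr0 t).2
    rwa [mul_zero, zero_sub] at this
  have hper : ∀ t, ξ (t + 2 * T) = ξ t := by
    intro t
    have h1 := (hrT (t + 2 * T)).1
    have e : 2 * T - (t + 2 * T) = -t := by ring
    rw [e, hneg (-t), neg_neg, neg_neg] at h1
    exact h1
  refine ⟨fun t => 2 * T * ξ (2 * T * t), ?_, ?_, ?_⟩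
  · intro t
    have h1 : HasDerivAt (fun t : ℝ => 2 * T * t) (2 * T) t := by
      simpa using (hasDerivAt_id t).const_mul (2 * T)
    have h2 := ((hξ (2 * T * t)).scomp t h1).const_mul (2 * T : ℂ)
    refine h2.congr_deriv ?_
    have e : 2 * T * -t = -(2 * T * t) := by ring
    simp only
    rw [hneg, e]
    simp only [Complex.real_smul]
    push_cast
    ring
  · intro t
    have e : 2 * T * (t + 1) = 2 * T * t + 2 * T := by ring
    simp only
    rw [e, hper]
  · simp only [mul_zero]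
    have hT' : (T : ℂ) ≠ 0 := by exact_mod_cast hT.ne'
    have h1 : ξ 0 ≠ 0 := by
      intro h
      rw [h, zero_add] at h0
      exact hη0 h0
    exact mul_ne_zero (mul_ne_zero two_ne_zero hT') h1

end Pool.Agent.Helper649
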