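import Pool.Agent.Helper649.Wiener
import Pool.Agent.Helper649.Ode

set_option autoImplicit false

namespace Pool.Agent.Helper649

/-- Normalised derivatives of a solution of the reversible equation. -/
noncomputable def WW (w : ℝ → ℂ) : ℕ → ℝ → ℂ
  | 0 => w
  | (n + 1) => fun t => (-1) ^ n / ((n : ℂ) + 1) * ∑ j : Fin (n + 1), WW w j.1 (-t) * WW w (n - j.1) (-t)
  termination_by n => n
  decreasing_by
    · exact j.2
    · omega

lemma WW_zero (w : ℝ → ℂ) : WW w 0 = w := by
  rw [WW]

lemma WW_succ (w : ℝ → ℂ) (n : ℕ) (t : ℝ) : WW w (n + 1) t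
    = (-1) ^ n / ((n : ℂ) + 1) * ∑ j ∈ Finset.range (n + 1), WW w j (-t) * WW w (n - j) (-t) := by
  rw [WW]
  rw [Finset.sum_range]

lemma leibniz_sum (a : ℕ → ℂ) (n : ℕ) :
    ∑ j ∈ Finset.range (n + 1), (((j : ℂ) + 1) * a (j + 1) * a (n - j)
      + a j * (((n - j : ℕ) : ℂ) + 1) * a (n - j + 1))
      = ((n : ℂ) + 1) * ∑ j ∈ Finset.range (n + 2), a j * a (n + 1 - j) := by
  have h1 : ∑ j ∈ Finset.range (n + 2), (j : ℂ) * (a j * a (n + 1 - j))
      = ∑ j ∈ Finset.range (n + 1), ((j : ℂ) + 1) * a (j + 1) * a (n - j) := by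
    rw [Finset.sum_range_succ']
    simp only [Nat.cast_zero, zero_mul, add_zero]
    refine Finset.sum_congr rfl (fun j hj => ?_)
    have : n + 1 - (j + 1) = n - j := by omega
    rw [this]; push_cast; ring
  have h2 : ∑ j ∈ Finset.range (n + 2), ((n : ℂ) + 1 - j) * (a j * a (n + 1 - j))
      = ∑ j ∈ Finset.range (n + 1), a j * (((n - j : ℕ) : ℂ) + 1) * a (n - j + 1) := by
    rw [Finset.sum_range_succ]
    have : ((n : ℂ) + 1 - ((n + 1 : ℕ) : ℂ)) = 0 := by push_cast; ring
    rw [this, zero_mul, add_zero]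
    refine Finset.sum_congr rfl (fun j hj => ?_)
    have hj' : j ≤ n := by have := Finset.mem_range.mp hj; omega
    have : n + 1 - j = n - j + 1 := by omega
    rw [this, Nat.cast_sub hj']; ring
  rw [Finset.sum_add_distrib, ← h1, ← h2, ← Finset.sum_add_distrib, Finset.mul_sum]
  refine Finset.sum_congr rfl (fun j hj => ?_)
  ring

lemma WW_deriv (w : ℝ → ℂ) (hw : ∀ t, HasDerivAt w (w (-t) ^ 2) t) (n : ℕ) :
    ∀ t, HasDerivAt (WW w n) (((n : ℂ) + 1) * WW w (n + 1) t) t := by
  induction n using Nat.strong_induction_on with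
  | _ n ih =>
    intro t
    rcases n with _ | n
    · rw [WW_succ]
      rw [WW_zero]
      refine (hw t).congr_deriv ?_
      simp [WW_zero]; ring
    · have hneg : ∀ j, j ≤ n → ∀ t, HasDerivAt (fun t => WW w j (-t)) (-(((j : ℂ) + 1) * WW w (j + 1) (-t))) t := by
        intro j hj t
        have h1 := (ih j (by omega) (-t)).scomp t (hasDerivAt_neg t)
        refine h1.congr_deriv ?_
        simp
      have hn1 : (n : ℂ) + 1 ≠ 0 := by exact_mod_cast Nat.succ_ne_zero n
      have hn2 : (((n + 1 : ℕ) : ℂ)) + 1 ≠ 0 := by exact_mod_cast Nat.succ_ne_zero (n + 1)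
      have hs := HasDerivAt.fun_sum (u := Finset.range (n + 1))
        (A := fun j t => WW w j (-t) * WW w (n - j) (-t))
        (A' := fun j => (-(((j : ℂ) + 1) * WW w (j + 1) (-t))) * WW w (n - j) (-t)
          + WW w j (-t) * (-((((n - j : ℕ) : ℂ) + 1) * WW w (n - j + 1) (-t)))) (x := t)
        (fun j hj => by
          have hj' : j ≤ n := by have := Finset.mem_range.mp hj; omega
          exact (hneg j hj' t).mul (hneg (n - j) (by omega) t))
      have hs2 := hs.const_mul ((-1) ^ n / ((n : ℂ) + 1))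
      have e : (fun t => (-1) ^ n / ((n : ℂ) + 1) * ∑ j ∈ Finset.range (n + 1), WW w j (-t) * WW w (n - j) (-t))
          = WW w (n + 1) := by
        funext t; rw [WW_succ]
      rw [e] at hs2
      refine hs2.congr_deriv ?_
      have hl := leibniz_sum (fun j => WW w j (-t)) n
      have hneg2 : ∑ j ∈ Finset.range (n + 1), ((-(((j : ℂ) + 1) * WW w (j + 1) (-t))) * WW w (n - j) (-t)
          + WW w j (-t) * (-((((n - j : ℕ) : ℂ) + 1) * WW w (n - j + 1) (-t))))
          = - ∑ j ∈ Finset.range (n + 1), (((j : ℂ) + 1) * WW w (j + 1) (-t) * WW w (n - j) (-t)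
      + WW w j (-t) * (((n - j : ℕ) : ℂ) + 1) * WW w (n - j + 1) (-t)) := by
        rw [← Finset.sum_neg_distrib]
        refine Finset.sum_congr rfl (fun j hj => ?_)
        ring
      rw [hneg2, hl, WW_succ w (n + 1) t, pow_succ]
      field_simp

lemma WW_bound (w : ℝ → ℂ) (A : ℝ) (hA : ∀ t, ‖w t‖ ≤ A) (n : ℕ) :
    ∀ t, ‖WW w n t‖ ≤ A ^ (n + 1) := by
  have hA0 : 0 ≤ A := (norm_nonneg _).trans (hA 0)
  induction n using Nat.strong_induction_on with
  | _ n ih =>
    intro t
    rcases n with _ | n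
    · rw [WW_zero]; simpa using hA t
    · rw [WW_succ, norm_mul, norm_div, norm_pow, norm_neg, norm_one, one_pow]
      have h1 : ‖(n : ℂ) + 1‖ = (n : ℝ) + 1 := by
        have : ((n : ℂ) + 1) = (((n : ℝ) + 1 : ℝ) : ℂ) := by push_cast; ring
        rw [this, Complex.norm_real, Real.norm_of_nonneg (by positivity)]
      rw [h1]
      have h2 : ‖∑ j ∈ Finset.range (n + 1), WW w j (-t) * WW w (n - j) (-t)‖
          ≤ ∑ j ∈ Finset.range (n + 1), A ^ (n + 1 + 1) := by
        refine (norm_sum_le _ _).trans (Finset.sum_le_sum (fun j hj => ?_))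
        have hj' : j ≤ n := by have := Finset.mem_range.mp hj; omega
        rw [norm_mul]
        have h3 := ih j (by omega) (-t)
        have h4 := ih (n - j) (by omega) (-t)
        calc ‖WW w j (-t)‖ * ‖WW w (n - j) (-t)‖ ≤ A ^ (j + 1) * A ^ (n - j + 1) := by gcongr
          _ = A ^ (n + 1 + 1) := by rw [← pow_add]; congr 1; omega
      rw [Finset.sum_const, Finset.card_range, nsmul_eq_mul] at h2
      push_cast at h2
      calc 1 / ((n : ℝ) + 1) * ‖∑ j ∈ Finset.range (n + 1), WW w j (-t) * WW w (n - j) (-t)‖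
          ≤ 1 / ((n : ℝ) + 1) * (((n : ℝ) + 1) * A ^ (n + 1 + 1)) := by gcongr
        _ = A ^ (n + 1 + 1) := by field_simp

lemma WW_per (w : ℝ → ℂ) (hper : ∀ t, w (t + 1) = w t) (n : ℕ) :
    ∀ t, WW w n (t + 1) = WW w n t := by
  induction n using Nat.strong_induction_on with
  | _ n ih =>
    intro t
    rcases n with _ | n
    · rw [WW_zero]; exact hper t
    · rw [WW_succ, WW_succ]
      congr 1
      refine Finset.sum_congr rfl (fun j hj => ?_)
      have hj' : j ≤ n := by have := Finset.mem_range.mp hj; omega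
      have h3 := ih j (by omega) (-(t + 1))
      have h4 := ih (n - j) (by omega) (-(t + 1))
      have e : -(t + 1) + 1 = -t := by ring
      rw [e] at h3 h4
      rw [h3, h4]

open intervalIntegral in
/-- integration by parts -/
lemma fourier_ibp (f f' : ℝ → ℂ) (hf : ∀ t, HasDerivAt f (f' t) t) (hf' : Continuous f')
    (hper : ∀ t, f (t + 1) = f t) (k : ℤ) :
    ∫ t in (0 : ℝ)..1, f' t * ch (-k) t = 2 * Real.pi * Complex.I * k * ∫ t in (0 : ℝ)..1, f t * ch (-k) t := by
  have hfc : Continuous f := continuous_iff_continuousAt.mpr fun t => (hf t).continuousAt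
  have hch : Continuous (fun t => ch (-k) t) :=
    continuous_iff_continuousAt.mpr fun t => (ch_hasDerivAt (-k) t).continuousAt
  have hd : ∀ t, HasDerivAt (fun t => f t * ch (-k) t)
      (f' t * ch (-k) t - 2 * Real.pi * Complex.I * k * (f t * ch (-k) t)) t := by
    intro t
    refine ((hf t).mul (ch_hasDerivAt (-k) t)).congr_deriv ?_
    push_cast; ring
  have i1 : IntervalIntegrable (fun t => f' t * ch (-k) t) MeasureTheory.volume 0 1 :=
    (hf'.mul hch).intervalIntegrable 0 1
  have i2 : IntervalIntegrable (fun t => 2 * Real.pi * Complex.I * k * (f t * ch (-k) t))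
      MeasureTheory.volume 0 1 := ((hfc.mul hch).const_mul _).intervalIntegrable 0 1
  have hi := integral_eq_sub_of_hasDerivAt (a := 0) (b := 1) (fun t _ => hd t) (i1.sub i2)
  have h01 : f 1 = f 0 := by simpa using hper 0
  have c1 : ch (-k) 1 = 1 := by simpa using ch_int (-k) 1
  have c0 : ch (-k) 0 = 1 := by simpa using ch_int (-k) 0
  rw [h01, c1, c0, sub_self] at hi
  rw [integral_sub i1 i2, integral_const_mul] at hi
  linear_combination hi

/-- Exponential decay of the Fourier coefficients. -/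
lemma coef_decay (w : ℝ → ℂ) (A : ℝ) (hA0 : 0 < A) (hw : ∀ t, HasDerivAt w (w (-t) ^ 2) t)
    (hper : ∀ t, w (t + 1) = w t) (hA : ∀ t, ‖w t‖ ≤ A) (k : ℤ) :
    ‖∫ t in (0 : ℝ)..1, w t * ch (-k) t‖ * Real.exp (Real.pi * |(k : ℝ)| / A) ≤ 2 * A := by
  have hcont : ∀ n, Continuous (WW w n) := fun n =>
    continuous_iff_continuousAt.mpr fun t => (WW_deriv w hw n t).continuousAt
  -- the recursion
  have hrec : ∀ n : ℕ, (n.factorial : ℂ) * ∫ t in (0 : ℝ)..1, WW w n t * ch (-k) t
      = (2 * Real.pi * Complex.I * k) ^ n * ∫ t in (0 : ℝ)..1, w t * ch (-k) t := by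
    intro n
    induction n with
    | zero => simp [WW_zero]
    | succ n ih =>
      have h1 := fourier_ibp (WW w n) (fun t => ((n : ℂ) + 1) * WW w (n + 1) t) (WW_deriv w hw n)
        ((hcont (n + 1)).const_mul _) (WW_per w hper n) k
      have h2 : ∫ t in (0 : ℝ)..1, ((n : ℂ) + 1) * WW w (n + 1) t * ch (-k) t
          = ((n : ℂ) + 1) * ∫ t in (0 : ℝ)..1, WW w (n + 1) t * ch (-k) t := by
        rw [← intervalIntegral.integral_const_mul]
        congr 1; funext t; ring
      rw [h2] at h1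
      rw [Nat.factorial_succ, pow_succ]
      push_cast
      linear_combination (n.factorial : ℂ) * h1 + (2 * Real.pi * Complex.I * k) * ih
  have hbd : ∀ n : ℕ, ‖∫ t in (0 : ℝ)..1, WW w n t * ch (-k) t‖ ≤ A ^ (n + 1) := by
    intro n
    have := intervalIntegral.norm_integral_le_of_norm_le_const (a := (0 : ℝ)) (b := 1)
      (f := fun t => WW w n t * ch (-k) t) (C := A ^ (n + 1))
      (fun t _ => by
        rw [norm_mul, norm_ch, mul_one]
        exact WW_bound w A hA n t)
    simpa using this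
  obtain ⟨I, hI⟩ : ∃ I : ℝ, I = ‖∫ t in (0 : ℝ)..1, w t * ch (-k) t‖ := ⟨_, rfl⟩
  rw [← hI]
  have hterm : ∀ n : ℕ, I * ((Real.pi * |(k : ℝ)| / A) ^ n / n.factorial) ≤ A * (1 / 2) ^ n := by
    intro n
    have h1 := congrArg norm (hrec n)
    rw [norm_mul, norm_mul, norm_pow, norm_mul, norm_mul, norm_mul] at h1
    simp only [Complex.norm_I, mul_one, Complex.norm_ofNat, Complex.norm_real, Complex.norm_natCast,
      Complex.norm_intCast] at h1
    rw [Real.norm_of_nonneg Real.pi_pos.le, ← hI] at h1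
    have h2 := hbd n
    have hfac : (0 : ℝ) < n.factorial := by exact_mod_cast n.factorial_pos
    have h3 : (2 * Real.pi * |(k : ℝ)|) ^ n * I ≤ n.factorial * A ^ (n + 1) := by
      rw [← h1]; gcongr
    have e : I * ((Real.pi * |(k : ℝ)| / A) ^ n / n.factorial)
        = ((2 * Real.pi * |(k : ℝ)|) ^ n * I) / (n.factorial * (2 * A) ^ n) := by
      rw [div_pow, mul_pow, mul_pow, mul_pow, mul_pow]
      field_simp
    rw [e, div_le_iff₀ (by positivity)]
    refine h3.trans (le_of_eq ?_)
    rw [mul_pow, div_pow, pow_succ]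
    field_simp
    rw [one_pow]
  have hexp : HasSum (fun n : ℕ => (Real.pi * |(k : ℝ)| / A) ^ n / n.factorial)
      (Real.exp (Real.pi * |(k : ℝ)| / A)) := by
    rw [Real.exp_eq_exp_ℝ]
    exact NormedSpace.expSeries_div_hasSum_exp _
  have hgeo : HasSum (fun n : ℕ => A * (1 / 2 : ℝ) ^ n) (2 * A) := by
    have := (hasSum_geometric_of_lt_one (r := (1 / 2 : ℝ)) (by norm_num) (by norm_num)).mul_left A
    have e : A * (1 - 1 / 2)⁻¹ = 2 * A := by norm_num; ring
    rw [e] at this; exact this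
  exact hasSum_le hterm (hexp.mul_left I) hgeo

end Pool.Agent.Helper649
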