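import Pool.Agent.Helper649.Wiener

set_option autoImplicit false

namespace Pool.Agent.Helper649

open MeasureTheory Set

/-- The Diophantine condition with constant one, scaled with the rotation number. -/
def Good (θ : ℝ) : Prop := ∀ k : ℤ, k ≠ 0 → 1 ≤ (1 / θ) * k ^ 2 * ‖ch k θ - 1‖

lemma norm_ch_sub_one_lb (k : ℤ) (θ : ℝ) : 4 * |k * θ - round (k * θ)| ≤ ‖ch k θ - 1‖ := by
  set x : ℝ := k * θ - round (k * θ) with hx
  have h1 : ch k θ = Complex.exp (Complex.I * ((2 * Real.pi * x : ℝ) : ℂ)) := by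
    unfold ch
    have e : (2 * Real.pi * Complex.I * k * θ : ℂ)
        = Complex.I * ((2 * Real.pi * x : ℝ) : ℂ) + (round (k * θ) : ℤ) * (2 * Real.pi * Complex.I) := by
      rw [hx]; push_cast; ring
    rw [e, Complex.exp_add, Complex.exp_int_mul_two_pi_mul_I, mul_one]
  rw [h1, Complex.norm_exp_I_mul_ofReal_sub_one, Real.norm_eq_abs, abs_mul]
  have h2 : |x| ≤ 1 / 2 := abs_sub_round (k * θ)
  have hπ := Real.pi_pos
  have h3 : |2 * Real.pi * x / 2| ≤ Real.pi / 2 := by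
    have : 2 * Real.pi * x / 2 = Real.pi * x := by ring
    rw [this, abs_mul, abs_of_pos hπ]; nlinarith
  have h4 := Real.mul_abs_le_abs_sin h3
  have h5 : |2 * Real.pi * x / 2| = Real.pi * |x| := by
    have : 2 * Real.pi * x / 2 = Real.pi * x := by ring
    rw [this, abs_mul, abs_of_pos hπ]
  rw [h5] at h4
  have h6 : 2 / Real.pi * (Real.pi * |x|) = 2 * |x| := by field_simp
  rw [h6] at h4
  have : |(2 : ℝ)| = 2 := abs_of_pos two_pos
  rw [this]; linarith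

lemma norm_ch_neg_sub_one (k : ℤ) (θ : ℝ) : ‖ch (-k) θ - 1‖ = ‖ch k θ - 1‖ := by
  have h1 : ch (-k) θ * ch k θ = 1 := by
    rw [← ch_add_int]; simp [ch_zero]
  have h2 : ch (-k) θ - 1 = -(ch (-k) θ * (ch k θ - 1)) := by
    rw [mul_sub, h1]; ring
  rw [h2, norm_neg, norm_mul, norm_ch, one_mul]

lemma bad_subset (ρ : ℝ) (hρ : 0 < ρ) :
    Ioo 0 ρ ∩ {θ | ¬ Good θ} ⊆ ⋃ n : ℕ, ⋃ l ∈ Finset.Icc 1 ⌊2 * ((n : ℝ) + 1) * ρ⌋₊,
      Metric.ball ((l : ℝ) / ((n : ℝ) + 1)) (ρ / (4 * ((n : ℝ) + 1) ^ 3)) := by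
  rintro θ ⟨⟨h0, h1⟩, hbad⟩
  simp only [mem_ofPred_eq] at hbad
  unfold Good at hbad
  push Not at hbad
  obtain ⟨k, hk0, hk⟩ := hbad
  -- positive frequency
  obtain ⟨n, hn⟩ : ∃ n : ℕ, (1 / θ) * ((n : ℝ) + 1) ^ 2 * ‖ch ((n : ℤ) + 1) θ - 1‖ < 1 := by
    rcases lt_or_gt_of_ne hk0 with hneg | hpos
    · refine ⟨(-k - 1).toNat, ?_⟩
      have e : (((-k - 1).toNat : ℕ) : ℤ) = -k - 1 := Int.toNat_of_nonneg (by omega)
      have e2 : (((-k - 1).toNat : ℕ) : ℝ) = -k - 1 := by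
        have : ((((-k - 1).toNat : ℕ) : ℤ) : ℝ) = ((-k - 1 : ℤ) : ℝ) := by rw [e]
        push_cast at this
        exact this
      rw [e, e2]
      have e3 : (-k - 1 + 1 : ℤ) = -k := by ring
      have e4 : (-(k : ℝ) - 1 + 1) ^ 2 = (k : ℝ) ^ 2 := by ring
      rw [e3, e4, norm_ch_neg_sub_one]
      exact hk
    · refine ⟨(k - 1).toNat, ?_⟩
      have e : (((k - 1).toNat : ℕ) : ℤ) = k - 1 := Int.toNat_of_nonneg (by omega)
      have e2 : (((k - 1).toNat : ℕ) : ℝ) = k - 1 := by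
        have : ((((k - 1).toNat : ℕ) : ℤ) : ℝ) = ((k - 1 : ℤ) : ℝ) := by rw [e]
        push_cast at this
        exact this
      rw [e, e2]
      have e3 : (k - 1 + 1 : ℤ) = k := by ring
      have e4 : ((k : ℝ) - 1 + 1) ^ 2 = (k : ℝ) ^ 2 := by ring
      rw [e3, e4]
      exact hk
  obtain ⟨m, hm⟩ : ∃ m : ℝ, m = (n : ℝ) + 1 := ⟨_, rfl⟩
  have hm1 : 1 ≤ m := by rw [hm]; have : (0 : ℝ) ≤ n := n.cast_nonneg
                         linarith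
  have hm0 : 0 < m := by linarith
  have hlb := norm_ch_sub_one_lb ((n : ℤ) + 1) θ
  push_cast at hlb
  rw [← hm] at hlb hn
  obtain ⟨l, hl⟩ : ∃ l : ℤ, l = round (m * θ) := ⟨_, rfl⟩
  rw [← hl] at hlb
  have hclose : 4 * m ^ 2 * |m * θ - l| < θ := by
    have h2 : (1 / θ) * m ^ 2 * (4 * |m * θ - l|) < 1 := by
      refine lt_of_le_of_lt ?_ hn
      gcongr
    have e : (1 / θ) * m ^ 2 * (4 * |m * θ - l|) = (4 * m ^ 2 * |m * θ - l|) / θ := by ring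
    rw [e, div_lt_one h0] at h2
    exact h2
  have hm2 : 1 ≤ m ^ 2 := one_le_pow₀ hm1
  have hclose2 : 4 * |m * θ - l| < θ := by
    refine lt_of_le_of_lt ?_ hclose
    have := abs_nonneg (m * θ - l)
    nlinarith
  have hab := abs_lt.mp (show |m * θ - l| < θ / 4 by linarith)
  have hl1 : 1 ≤ l := by
    by_contra hcon
    have hl0 : (l : ℝ) ≤ 0 := by
      have : l ≤ 0 := by omega
      exact_mod_cast this
    nlinarith
  have hl2 : (l : ℝ) ≤ 2 * m * ρ := by nlinarith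
  obtain ⟨j, rfl⟩ : ∃ j : ℕ, l = j := ⟨l.toNat, (Int.toNat_of_nonneg (by omega)).symm⟩
  simp only [mem_iUnion]
  refine ⟨n, j, ?_, ?_⟩
  · rw [Finset.mem_Icc]
    refine ⟨by exact_mod_cast hl1, ?_⟩
    apply Nat.le_floor
    rw [← hm]
    exact_mod_cast hl2
  · rw [Metric.mem_ball, Real.dist_eq, ← hm]
    have e : θ - (j : ℝ) / m = (m * θ - ((j : ℕ) : ℤ)) / m := by
      push_cast; field_simp
    rw [e, abs_div, abs_of_pos hm0, div_lt_div_iff₀ hm0 (by positivity)]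
    have : 4 * m ^ 2 * |m * θ - ((j : ℕ) : ℤ)| < ρ := by linarith
    calc |m * θ - ((j : ℕ) : ℤ)| * (4 * m ^ 3) = (4 * m ^ 2 * |m * θ - ((j : ℕ) : ℤ)|) * m := by ring
      _ < ρ * m := by gcongr

lemma bad_measure : ∃ C : ℝ, 0 ≤ C ∧ ∀ ρ : ℝ, 0 < ρ →
    volume (Ioo 0 ρ ∩ {θ | ¬ Good θ}) ≤ ENNReal.ofReal (C * ρ ^ 2) := by
  have hsum : Summable (fun n : ℕ => 1 / ((n : ℝ) + 1) ^ 2) := by
    have := (summable_nat_add_iff 1).mpr (Real.summable_one_div_nat_pow.mpr (one_lt_two))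
    simpa using this
  refine ⟨∑' n : ℕ, 1 / ((n : ℝ) + 1) ^ 2, tsum_nonneg fun n => by positivity, ?_⟩
  intro ρ hρ
  refine (measure_mono (bad_subset ρ hρ)).trans ?_
  refine (measure_iUnion_le _).trans ?_
  have h1 : ∀ n : ℕ, volume (⋃ l ∈ Finset.Icc 1 ⌊2 * ((n : ℝ) + 1) * ρ⌋₊,
      Metric.ball ((l : ℝ) / ((n : ℝ) + 1)) (ρ / (4 * ((n : ℝ) + 1) ^ 3)))
      ≤ ENNReal.ofReal (ρ ^ 2 * (1 / ((n : ℝ) + 1) ^ 2)) := by
    intro n
    refine (measure_biUnion_finset_le _ _).trans ?_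
    simp only [Real.volume_ball]
    rw [Finset.sum_const, Nat.card_Icc, Nat.add_sub_cancel, nsmul_eq_mul]
    have hn : (0 : ℝ) < (n : ℝ) + 1 := by positivity
    have e : ((⌊2 * ((n : ℝ) + 1) * ρ⌋₊ : ℕ) : ENNReal) = ENNReal.ofReal (⌊2 * ((n : ℝ) + 1) * ρ⌋₊ : ℝ) := by
      rw [ENNReal.ofReal_natCast]
    rw [e, ← ENNReal.ofReal_mul (by positivity)]
    apply ENNReal.ofReal_le_ofReal
    have hf := Nat.floor_le (show 0 ≤ 2 * ((n : ℝ) + 1) * ρ by positivity)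
    calc (⌊2 * ((n : ℝ) + 1) * ρ⌋₊ : ℝ) * (2 * (ρ / (4 * ((n : ℝ) + 1) ^ 3)))
        ≤ (2 * ((n : ℝ) + 1) * ρ) * (2 * (ρ / (4 * ((n : ℝ) + 1) ^ 3))) := by gcongr
      _ = ρ ^ 2 * (1 / ((n : ℝ) + 1) ^ 2) := by field_simp; norm_num
  refine (ENNReal.tsum_le_tsum h1).trans ?_
  rw [← ENNReal.ofReal_tsum_of_nonneg (fun n => by positivity) (hsum.mul_left _), tsum_mul_left, mul_comm]

end Pool.Agent.Helper649
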