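import Pool.Agent.Helper649.Decay

set_option autoImplicit false

namespace Pool.Agent.Helper649

lemma summable_pow_natAbs {ρ : ℝ} (h0 : 0 ≤ ρ) (h1 : ρ < 1) : Summable (fun k : ℤ => ρ ^ k.natAbs) := by
  have hs := summable_geometric_of_lt_one h0 h1
  refine Summable.of_nat_of_neg ?_ ?_
  · simpa using hs
  · simpa using hs

theorem periodic_B (w : ℝ → ℂ) (hw : ∀ t, HasDerivAt w (w (-t) ^ 2) t)
    (hper : ∀ t, w (t + 1) = w t) : ∃ R M : ℝ, 1 < R ∧ B R M w := by
  have hc : Continuous w := continuous_iff_continuousAt.mpr fun t => (hw t).continuousAt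
  have hperf : Function.Periodic w 1 := hper
  -- boundedness
  obtain ⟨A, hA0, hA⟩ : ∃ A : ℝ, 0 < A ∧ ∀ t, ‖w t‖ ≤ A := by
    obtain ⟨M, hM⟩ := isCompact_Icc.exists_bound_of_continuousOn (hc.continuousOn (s := Set.Icc 0 1))
    refine ⟨max M 1, by positivity, fun t => ?_⟩
    obtain ⟨y, hy, hyt⟩ := hperf.exists_mem_Ico₀ one_pos t
    rw [hyt]
    exact (hM y (Set.Ico_subset_Icc_self hy)).trans (le_max_left _ _)
  obtain ⟨a, ha⟩ : ∃ a : ℤ → ℂ, a = fun k => ∫ t in (0 : ℝ)..1, w t * ch (-k) t := ⟨_, rfl⟩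
  have hdec : ∀ k, ‖a k‖ * Real.exp (Real.pi * |(k : ℝ)| / A) ≤ 2 * A := by
    intro k
    rw [ha]
    exact coef_decay w A hA0 hw hper hA k
  have hπ := Real.pi_pos
  obtain ⟨R, hR⟩ : ∃ R : ℝ, R = Real.exp (Real.pi / (2 * A)) := ⟨_, rfl⟩
  have hR1 : 1 < R := by rw [hR]; exact Real.one_lt_exp_iff.mpr (by positivity)
  have hR0 : 0 < R := by linarith
  have hexp : ∀ k : ℤ, Real.exp (Real.pi * |(k : ℝ)| / A) = R ^ k.natAbs * R ^ k.natAbs := by
    intro k
    rw [hR, ← Real.exp_nat_mul, ← Real.exp_add]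
    congr 1
    have : ((k.natAbs : ℕ) : ℝ) = |(k : ℝ)| := by rw [Nat.cast_natAbs, Int.cast_abs]
    rw [this]
    field_simp
    ring
  have hle : ∀ k : ℤ, ‖a k‖ * R ^ k.natAbs ≤ 2 * A * (R⁻¹) ^ k.natAbs := by
    intro k
    have h1 := hdec k
    rw [hexp k] at h1
    rw [inv_pow]
    have hp : 0 < R ^ k.natAbs := by positivity
    rw [← div_eq_mul_inv, le_div_iff₀ hp]
    linarith
  have hsum : Summable (fun k : ℤ => ‖a k‖ * R ^ k.natAbs) := by
    refine Summable.of_nonneg_of_le (fun k => by positivity) hle ?_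
    exact (summable_pow_natAbs (by positivity) (inv_lt_one_of_one_lt₀ hR1)).mul_left _
  refine ⟨R, _, hR1, a, hsum, le_rfl, ?_⟩
  -- the Fourier series
  have : Fact (0 < (1 : ℝ)) := ⟨one_pos⟩
  let F : C(AddCircle (1 : ℝ), ℂ) := ⟨hperf.lift, by
    exact continuous_coinduced_dom.mpr hc⟩
  have hF : ∀ t : ℝ, F (t : AddCircle (1 : ℝ)) = w t := fun t => hperf.lift_coe t
  have hfour : ∀ (k : ℤ) (t : ℝ), fourier k (t : AddCircle (1 : ℝ)) = ch k t := by
    intro k t
    rw [fourier_coe_apply]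
    unfold ch
    simp
  have hcoef : ∀ k, fourierCoeff F k = a k := by
    intro k
    rw [fourierCoeff_eq_intervalIntegral F k 0, ha]
    simp only [zero_add, div_one, one_smul]
    congr 1
    funext t
    rw [hF, hfour, smul_eq_mul, mul_comm]
  have hsum2 : Summable (fourierCoeff F) := by
    have : fourierCoeff F = a := funext hcoef
    rw [this]
    exact (summable_of_norm_weight hR1.le hsum).of_norm
  intro t
  have := has_pointwise_sum_fourier_series_of_summable hsum2 (t : AddCircle (1 : ℝ))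
  rw [hF] at this
  have e : (fun i => fourierCoeff F i • fourier i (t : AddCircle (1 : ℝ))) = fun k => a k * ch k t := by
    funext k
    rw [hcoef, hfour, smul_eq_mul]
  rw [e] at this
  exact this

end Pool.Agent.Helper649
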