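import Pool.Agent.Helper649.KamMain
import Pool.Agent.Helper649.ExpB

set_option autoImplicit false

namespace Pool.Agent.Helper649

open Filter Topology

/-- The complex character. -/
noncomputable def cc (k : ℤ) (z : ℂ) : ℂ := Complex.exp (2 * Real.pi * Complex.I * k * z)

lemma cc_ofReal (k : ℤ) (t : ℝ) : cc k (t : ℂ) = ch k t := rfl

lemma cc_one (k : ℤ) (z : ℂ) : cc k (z + 1) = cc k z := by
  unfold cc
  have : (2 * Real.pi * Complex.I * k * (z + 1) : ℂ) = 2 * Real.pi * Complex.I * k * z + k * (2 * Real.pi * Complex.I) := by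
    ring
  rw [this, Complex.exp_add, Complex.exp_int_mul_two_pi_mul_I, mul_one]

lemma norm_cc_le (k : ℤ) (z : ℂ) (h : ℝ) (hz : |z.im| < h) :
    ‖cc k z‖ ≤ (Real.exp (2 * Real.pi * h)) ^ k.natAbs := by
  unfold cc
  rw [Complex.norm_exp, ← Real.exp_nat_mul]
  apply Real.exp_le_exp.mpr
  have e : (2 * Real.pi * Complex.I * k * z : ℂ).re = -(2 * Real.pi * (k * z.im)) := by
    have : (2 * Real.pi * Complex.I * k * z : ℂ) = ((2 * Real.pi * k : ℝ) : ℂ) * (Complex.I * z) := by
      push_cast; ring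
    rw [this, Complex.re_ofReal_mul]
    simp
    ring
  rw [e]
  have h1 : -(k * z.im) ≤ k.natAbs * h := by
    calc -(k * z.im) ≤ |(k : ℝ) * z.im| := neg_le_abs _
      _ = |(k : ℝ)| * |z.im| := abs_mul _ _
      _ = k.natAbs * |z.im| := by rw [Nat.cast_natAbs, Int.cast_abs]
      _ ≤ k.natAbs * h := by gcongr
  have := Real.pi_pos
  nlinarith

lemma strip_convex (h : ℝ) : Convex ℝ {z : ℂ | |z.im| < h} := by
  intro x hx y hy a b ha hb hab
  change |x.im| < h at hx
  change |y.im| < h at hy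
  change |(a • x + b • y).im| < h
  have : (a • x + b • y).im = a * x.im + b * y.im := by simp
  rw [this]
  calc |a * x.im + b * y.im| ≤ |a * x.im| + |b * y.im| := abs_add_le _ _
    _ = a * |x.im| + b * |y.im| := by rw [abs_mul, abs_mul, abs_of_nonneg ha, abs_of_nonneg hb]
    _ < h := by
      rcases ha.eq_or_lt with h0 | h0
      · subst h0
        have : b = 1 := by linarith
        subst this; linarith
      · have h1 : a * |x.im| < a * h := by gcongr
        have h2 : b * |y.im| ≤ b * h := by gcongr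
        have h3 : a * h + b * h = h := by rw [← add_mul, hab, one_mul]
        linarith

lemma strip_open (h : ℝ) : IsOpen {z : ℂ | |z.im| < h} :=
  isOpen_lt (continuous_abs.comp Complex.continuous_im) continuous_const

/-- Holomorphic extension of a function in the Wiener algebra. -/
lemma B.extend {r M : ℝ} {w : ℝ → ℂ} (hr : 1 < r) (hw : B r M w) :
    ∃ (h : ℝ) (W : ℂ → ℂ), 0 < h ∧ DifferentiableOn ℂ W {z : ℂ | |z.im| < h} ∧
      (∀ z, W (z + 1) = W z) ∧ ∀ t : ℝ, W t = w t := by
  obtain ⟨a, ha1, ha2, ha3⟩ := hw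
  have hπ := Real.pi_pos
  obtain ⟨h, hh⟩ : ∃ h : ℝ, h = Real.log r / (2 * Real.pi) := ⟨_, rfl⟩
  have hh0 : 0 < h := by rw [hh]; have := Real.log_pos hr; positivity
  have hexp : Real.exp (2 * Real.pi * h) = r := by
    rw [hh]
    have : 2 * Real.pi * (Real.log r / (2 * Real.pi)) = Real.log r := by field_simp
    rw [this, Real.exp_log (by linarith)]
  refine ⟨h, fun z => ∑' k : ℤ, a k * cc k z, hh0, ?_, ?_, ?_⟩
  · refine Complex.differentiableOn_tsum_of_summable_norm ha1 (fun k => ?_) (strip_open h) (fun k z hz => ?_)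
    · apply Differentiable.differentiableOn
      unfold cc
      fun_prop
    · have := norm_cc_le k z h hz
      rw [hexp] at this
      rw [norm_mul]
      gcongr
  · intro z
    simp only [cc_one]
  · intro t
    simp only [cc_ofReal]
    exact (ha3 t).tsum_eq

/-- The quadratic map. -/
def H2 (p : ℂ × ℂ) : ℂ × ℂ := (p.2, p.1 + p.2 ^ 2)

lemma freq_real {P : ℂ → Prop} (h : ∀ t : ℝ, P t) : ∃ᶠ z in 𝓝[≠] (0 : ℂ), P z := by
  have h1 : Tendsto (fun t : ℝ => (t : ℂ)) (𝓝[≠] 0) (𝓝[≠] 0) := by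
    apply tendsto_nhdsWithin_of_tendsto_nhds_of_eventually_within
    · have : Tendsto (fun t : ℝ => (t : ℂ)) (𝓝 0) (𝓝 ((0 : ℝ) : ℂ)) := Complex.continuous_ofReal.tendsto 0
      rw [Complex.ofReal_zero] at this
      exact this.mono_left nhdsWithin_le_nhds
    · filter_upwards [self_mem_nhdsWithin] with t ht
      simpa using ht
  exact h1.frequently (Frequently.of_forall h)

theorem ring_of_solution {r M θ : ℝ} {w : ℝ → ℂ} (hr : 1 < r) (hw : B r M w) (hθ : θ ≠ 0)
    (heq : ∀ t, w (t + θ) - w t = θ * w (-t) ^ 2) (hne : w 0 ≠ 0) :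
    ∃ h : ℝ, 0 < h ∧ ∃ φ : ℂ → ℂ × ℂ, DifferentiableOn ℂ φ {z : ℂ | |z.im| < h} ∧
      (∀ z, φ (z + 1) = φ z) ∧ (∃ z z' : ℂ, |z.im| < h ∧ |z'.im| < h ∧ φ z ≠ φ z') ∧
      (∀ z : ℂ, |z.im| < h → H2^[2] (φ z) = φ (z + θ)) ∧
      ∀ t : ℝ, φ t = (θ * w t, -(θ * w (-t))) := by
  obtain ⟨h, W, hh0, hW1, hW2, hW3⟩ := hw.extend hr
  have hneg : ∀ z : ℂ, |z.im| < h → |(-z).im| < h := by
    intro z hz
    rw [Complex.neg_im, abs_neg]; exact hz
  have hadd : ∀ z : ℂ, |z.im| < h → |(z + θ).im| < h := by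
    intro z hz
    rw [Complex.add_im, Complex.ofReal_im, add_zero]; exact hz
  have hWm : ∀ z, W (z - 1) = W z := by
    intro z
    have := hW2 (z - 1)
    rw [sub_add_cancel] at this
    exact this.symm
  have hθc : (θ : ℂ) ≠ 0 := by exact_mod_cast hθ
  -- the functional equation
  have hWneg : DifferentiableOn ℂ (fun z => W (-z)) {z : ℂ | |z.im| < h} := by
    refine hW1.comp (differentiable_neg.differentiableOn) (fun z hz => hneg z hz)
  have hWadd : DifferentiableOn ℂ (fun z => W (z + θ)) {z : ℂ | |z.im| < h} := by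
    refine hW1.comp ((differentiable_id.add_const _).differentiableOn) (fun z hz => hadd z hz)
  have hfun : ∀ z : ℂ, |z.im| < h → W (z + θ) - W z = θ * W (-z) ^ 2 := by
    have a1 : AnalyticOnNhd ℂ (fun z => W (z + θ) - W z) {z : ℂ | |z.im| < h} :=
      (hWadd.sub hW1).analyticOnNhd (strip_open h)
    have a2 : AnalyticOnNhd ℂ (fun z => θ * W (-z) ^ 2) {z : ℂ | |z.im| < h} :=
      ((hWneg.pow 2).const_mul _).analyticOnNhd (strip_open h)
    have := AnalyticOnNhd.eqOn_of_preconnected_of_frequently_eq a1 a2 (strip_convex h).isPreconnected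
      (z₀ := 0) (by simpa using hh0) (freq_real (P := fun z => W (z + θ) - W z = θ * W (-z) ^ 2) (fun t => by
        have e1 : ((t : ℂ) + θ) = ((t + θ : ℝ) : ℂ) := by push_cast; ring
        have e2 : (-(t : ℂ)) = ((-t : ℝ) : ℂ) := by push_cast; ring
        rw [e1, e2, hW3, hW3, hW3]
        exact heq t))
    intro z hz
    exact this hz
  refine ⟨h, hh0, fun z => (θ * W z, -(θ * W (-z))), ?_, ?_, ?_, ?_, ?_⟩
  · exact (hW1.const_mul _).prodMk ((hWneg.const_mul _).neg)
  · intro z
    have e : -(z + 1) = -z - 1 := by ring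
    simp only [e, hWm, hW2]
  · by_contra hcon
    push Not at hcon
    have hc : ∀ t : ℝ, w t = w 0 := by
      intro t
      have := hcon t 0 (by simpa using hh0) (by simpa using hh0)
      have h1 := congrArg Prod.fst this
      simp only at h1
      have h2 := mul_left_cancel₀ hθc h1
      have h0 : W 0 = w 0 := by have := hW3 0; rwa [Complex.ofReal_zero] at this
      rw [hW3, h0] at h2
      exact h2
    have h1 := heq 0
    rw [hc (0 + θ), hc (-0), sub_self] at h1
    have h2 : w 0 ^ 2 = 0 := by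
      rcases mul_eq_zero.mp h1.symm with h3 | h3
      · exact absurd h3 hθc
      · exact h3
    exact hne (pow_eq_zero_iff (two_ne_zero) |>.mp h2)
  · intro z hz
    have f1 := hfun z hz
    have hz2 : |(-(z + θ)).im| < h := hneg _ (hadd z hz)
    have f2 := hfun (-(z + θ)) hz2
    have e1 : -(z + θ) + θ = -z := by ring
    rw [e1, neg_neg] at f2
    have k1 : θ * W z + (-(θ * W (-z))) ^ 2 = θ * W (z + θ) := by
      linear_combination -(θ : ℂ) * f1
    have k2 : -(θ * W (-z)) + (θ * W (z + θ)) ^ 2 = -(θ * W (-(z + θ))) := by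
      linear_combination -(θ : ℂ) * f2
    simp only [Function.iterate_succ, Function.iterate_zero, Function.comp_apply, id, H2]
    rw [k1, k2]
  · intro t
    have e2 : (-(t : ℂ)) = ((-t : ℝ) : ℂ) := by push_cast; ring
    simp only
    rw [e2, hW3, hW3]

end Pool.Agent.Helper649
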