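import Mathlib

/-!
Monic orthogonal polynomials of a positive weight (Stieltjes procedure).
This file is extracted from `Pool/Agent/Results/MP_e8d659_an/NoLimit.lean` of helper469.
-/

set_option autoImplicit false

open Polynomial MeasureTheory Filter Topology

namespace Pool.Agent.Helper649.Frd



/-- Positive measurable weights on the line with finite moments. -/
structure IsWeight (w : ℝ → ℝ) : Prop where
  meas : Measurable w
  pos : ∀ x, 0 < w x
  mom : ∀ k : ℕ, Integrable (fun x => x ^ k * w x)

theorem IsWeight.integrable {w : ℝ → ℝ} (hw : IsWeight w) (p : ℝ[X]) :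
    Integrable (fun x => p.eval x * w x) := by
  have : (fun x => p.eval x * w x) =
      fun x => ∑ i ∈ Finset.range (p.natDegree + 1), p.coeff i * (x ^ i * w x) := by
    funext x
    rw [eval_eq_sum_range, Finset.sum_mul]
    exact Finset.sum_congr rfl fun i _ => by ring
  rw [this]
  exact integrable_finsetSum _ fun i _ => (hw.mom i).const_mul _

theorem IsWeight.integrable₂ {w : ℝ → ℝ} (hw : IsWeight w) (p q : ℝ[X]) :
    Integrable (fun x => p.eval x * q.eval x * w x) := by
  have := hw.integrable (p * q)
  simpa only [eval_mul] using this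

/-- The inner product of polynomials for the weight `w`. -/
noncomputable def B (w : ℝ → ℝ) (p q : ℝ[X]) : ℝ := ∫ x, p.eval x * q.eval x * w x

theorem B_comm (w : ℝ → ℝ) (p q : ℝ[X]) : B w p q = B w q p := by
  unfold B
  congr 1
  funext x
  ring

theorem B_add_left {w : ℝ → ℝ} (hw : IsWeight w) (p q r : ℝ[X]) :
    B w (p + q) r = B w p r + B w q r := by
  unfold B
  rw [← integral_add (hw.integrable₂ p r) (hw.integrable₂ q r)]
  congr 1
  funext x
  rw [eval_add]; ring

theorem B_sub_left {w : ℝ → ℝ} (hw : IsWeight w) (p q r : ℝ[X]) :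
    B w (p - q) r = B w p r - B w q r := by
  unfold B
  rw [← integral_sub (hw.integrable₂ p r) (hw.integrable₂ q r)]
  congr 1
  funext x
  rw [eval_sub]; ring

theorem B_C_mul_left (w : ℝ → ℝ) (c : ℝ) (p r : ℝ[X]) :
    B w (C c * p) r = c * B w p r := by
  unfold B
  rw [← integral_const_mul]
  congr 1
  funext x
  rw [eval_mul, eval_C]; ring

theorem B_X_mul (w : ℝ → ℝ) (p q : ℝ[X]) : B w (X * p) q = B w p (X * q) := by
  unfold B
  congr 1
  funext x
  simp only [eval_mul, eval_X]; ring

theorem B_add_right {w : ℝ → ℝ} (hw : IsWeight w) (p q r : ℝ[X]) :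
    B w r (p + q) = B w r p + B w r q := by
  rw [B_comm, B_add_left hw, B_comm w p, B_comm w q]

theorem B_sub_right {w : ℝ → ℝ} (hw : IsWeight w) (p q r : ℝ[X]) :
    B w r (p - q) = B w r p - B w r q := by
  rw [B_comm, B_sub_left hw, B_comm w p, B_comm w q]

theorem B_C_mul_right (w : ℝ → ℝ) (c : ℝ) (p r : ℝ[X]) :
    B w r (C c * p) = c * B w r p := by
  rw [B_comm, B_C_mul_left, B_comm]

theorem B_pos {w : ℝ → ℝ} (hw : IsWeight w) {p : ℝ[X]} (hp : p ≠ 0) : 0 < B w p p := by
  unfold B
  have hnn : 0 ≤ fun x => p.eval x * p.eval x * w x := fun x =>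
    mul_nonneg (mul_self_nonneg _) (hw.pos x).le
  rw [integral_pos_iff_support_of_nonneg hnn (hw.integrable₂ p p)]
  have hsub : (p.roots.toFinset : Set ℝ)ᶜ ⊆ Function.support fun x => p.eval x * p.eval x * w x := by
    intro x hx
    rw [Function.mem_support]
    have hx' : p.eval x ≠ 0 := by
      intro h
      apply hx
      simp [hp, h]
    exact mul_ne_zero (mul_self_ne_zero.2 hx') (hw.pos x).ne'
  refine lt_of_lt_of_le ?_ (measure_mono hsub)
  have hfin : volume (p.roots.toFinset : Set ℝ) = 0 := (Finset.finite_toSet _).measure_zero _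
  rw [measure_compl (Finset.finite_toSet _).measurableSet (by rw [hfin]; exact ENNReal.zero_ne_top),
    hfin]
  simp

/-- Monic orthogonal polynomials (Stieltjes procedure). -/
noncomputable def op (w : ℝ → ℝ) : ℕ → ℝ[X]
  | 0 => 1
  | 1 => X - C (B w (X * 1) 1 / B w 1 1)
  | n + 2 => (X - C (B w (X * op w (n + 1)) (op w (n + 1)) / B w (op w (n + 1)) (op w (n + 1)))) *
      op w (n + 1) - C (B w (op w (n + 1)) (op w (n + 1)) / B w (op w n) (op w n)) * op w n

/-- Squared norm of the monic orthogonal polynomial. -/
noncomputable def hn (w : ℝ → ℝ) (n : ℕ) : ℝ := B w (op w n) (op w n)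

/-- The diagonal recurrence coefficient. -/
noncomputable def bn (w : ℝ → ℝ) (n : ℕ) : ℝ := B w (X * op w n) (op w n) / hn w n

theorem op_zero (w : ℝ → ℝ) : op w 0 = 1 := rfl

theorem op_one (w : ℝ → ℝ) : op w 1 = (X - C (bn w 0)) * op w 0 := by
  simp only [op, bn, hn, mul_one]

theorem op_succ_succ (w : ℝ → ℝ) (n : ℕ) : op w (n + 2) =
    (X - C (bn w (n + 1))) * op w (n + 1) - C (hn w (n + 1) / hn w n) * op w n := by
  simp only [op, bn, hn]

theorem op_monic (w : ℝ → ℝ) (n : ℕ) : (op w n).Monic ∧ (op w n).natDegree = n := by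
  induction n using Nat.twoStepInduction with
  | zero => simp [op]
  | one =>
    rw [op_one, op_zero, mul_one]
    exact ⟨monic_X_sub_C _, natDegree_X_sub_C _⟩
  | more n ih1 ih2 =>
    rw [op_succ_succ]
    have hm : ((X - C (bn w (n + 1))) * op w (n + 1)).Monic := (monic_X_sub_C _).mul ih2.1
    have hd : ((X - C (bn w (n + 1))) * op w (n + 1)).natDegree = n + 2 := by
      rw [(monic_X_sub_C _).natDegree_mul ih2.1, natDegree_X_sub_C, ih2.2]; ring
    have hl : (C (hn w (n + 1) / hn w n) * op w n).natDegree ≤ n :=
      (natDegree_C_mul_le _ _).trans ih1.2.le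
    have hlt : (C (hn w (n + 1) / hn w n) * op w n).degree <
        ((X - C (bn w (n + 1))) * op w (n + 1)).degree := by
      rw [degree_eq_natDegree hm.ne_zero, hd]
      refine lt_of_le_of_lt degree_le_natDegree ?_
      exact_mod_cast (by omega : (C (hn w (n + 1) / hn w n) * op w n).natDegree < n + 2)
    refine ⟨hm.sub_of_left hlt, ?_⟩
    rw [natDegree_sub_eq_left_of_natDegree_lt (by omega), hd]

theorem op_ne_zero (w : ℝ → ℝ) (n : ℕ) : op w n ≠ 0 := (op_monic w n).1.ne_zero

theorem hn_pos {w : ℝ → ℝ} (hw : IsWeight w) (n : ℕ) : 0 < hn w n := B_pos hw (op_ne_zero w n)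

/-- Recurrence relation for the monic polynomials. -/
theorem X_mul_op (w : ℝ → ℝ) (n : ℕ) : X * op w (n + 1) =
    op w (n + 2) + C (bn w (n + 1)) * op w (n + 1) + C (hn w (n + 1) / hn w n) * op w n := by
  rw [op_succ_succ]; ring

theorem X_mul_op_zero (w : ℝ → ℝ) : X * op w 0 = op w 1 + C (bn w 0) * op w 0 := by
  rw [op_one]; ring

theorem op_orth {w : ℝ → ℝ} (hw : IsWeight w) (n : ℕ) : ∀ m, m < n → B w (op w m) (op w n) = 0 := by
  induction n using Nat.strong_induction_on with
  | _ n ih =>
    intro m hm
    rcases n with _ | _ | n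
    · omega
    · have : m = 0 := by omega
      subst this
      rw [zero_add, op_one, sub_mul, B_sub_right hw, B_C_mul_right]
      have h0 := hn_pos hw 0
      rw [← B_X_mul, bn]
      field_simp
      rw [hn]; ring
    · have h0 := hn_pos hw n
      have h1 := hn_pos hw (n + 1)
      rw [op_succ_succ, sub_mul, B_sub_right hw, B_sub_right hw, B_C_mul_right, B_C_mul_right,
        ← B_X_mul]
      rcases Nat.lt_or_ge m n with h | h
      · -- m < n
        have e1 : B w (op w m) (op w (n + 1)) = 0 := ih (n + 1) (by omega) m (by omega)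
        have e2 : B w (op w m) (op w n) = 0 := ih n (by omega) m h
        have e3 : B w (X * op w m) (op w (n + 1)) = 0 := by
          rcases m with _ | m
          · rw [X_mul_op_zero, B_add_left hw, B_C_mul_left, ih (n + 1) (by omega) 1 (by omega),
              ih (n + 1) (by omega) 0 (by omega)]
            ring
          · rw [X_mul_op, B_add_left hw, B_add_left hw, B_C_mul_left, B_C_mul_left,
              ih (n + 1) (by omega) (m + 2) (by omega), ih (n + 1) (by omega) (m + 1) (by omega),
              ih (n + 1) (by omega) m (by omega)]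
            ring
        rw [e1, e2, e3]; ring
      · rcases Nat.lt_or_ge m (n + 1) with h' | h'
        · have hmn : m = n := by omega
          subst hmn
          have e1 : B w (op w m) (op w (m + 1)) = 0 := ih (m + 1) (by omega) m (by omega)
          have e3 : B w (X * op w m) (op w (m + 1)) = hn w (m + 1) := by
            rcases m with _ | m
            · rw [X_mul_op_zero, B_add_left hw, B_C_mul_left, e1]
              rw [hn]; ring
            · rw [X_mul_op, B_add_left hw, B_add_left hw, B_C_mul_left, B_C_mul_left, e1,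
                ih (m + 2) (by omega) m (by omega)]
              have : B w (op w (m + 2)) (op w (m + 1 + 1)) = hn w (m + 1 + 1) := rfl
              rw [this]; ring
          rw [e1, e3]
          have : B w (op w m) (op w m) = hn w m := rfl
          rw [this]
          field_simp
          ring
        · have hmn : m = n + 1 := by omega
          subst hmn
          have e1 : B w (op w (n + 1)) (op w n) = 0 := by
            rw [B_comm]; exact ih (n + 1) (by omega) n (by omega)
          rw [e1]
          have : B w (op w (n + 1)) (op w (n + 1)) = hn w (n + 1) := rfl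
          rw [this, bn]
          field_simp
          ring

/-- Orthogonality to all polynomials of lower degree. -/
theorem op_orth_lower {w : ℝ → ℝ} (hw : IsWeight w) (n : ℕ) : ∀ m, m ≤ n → ∀ R : ℝ[X],
    R.degree < (m : WithBot ℕ) → B w R (op w n) = 0 := by
  intro m
  induction m with
  | zero =>
    intro _ R hR
    have : R = 0 := by
      rw [← degree_eq_bot]
      exact Nat.WithBot.lt_zero_iff.1 (by exact_mod_cast hR)
    rw [this]
    simp [B]
  | succ m ih =>
    intro hm R hR
    have hR' : (R - C (R.coeff m) * op w m).degree < (m : WithBot ℕ) := by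
      rw [degree_lt_iff_coeff_zero]
      intro k hk
      rw [coeff_sub, coeff_C_mul]
      rcases Nat.lt_or_ge m k with h | h
      · rw [(degree_lt_iff_coeff_zero R (m + 1)).1 hR k h,
          coeff_eq_zero_of_natDegree_lt (p := op w m) (by rw [(op_monic w m).2]; exact h)]
        ring
      · have : k = m := by omega
        rw [this]
        have h1 : (op w m).coeff m = 1 := by
          have := (op_monic w m).1.coeff_natDegree
          rwa [(op_monic w m).2] at this
        rw [h1]; ring
    have h2 := ih (by omega) _ hR'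
    rw [B_sub_left hw, B_C_mul_left, op_orth hw n m (by omega)] at h2
    linarith


variable {w : ℝ → ℝ}

/-- Parity of orthogonal polynomials for even weights. -/
theorem bn_zero_of_parity (heven : ∀ x, w (-x) = w x) (n : ℕ)
    (hpar : ∀ x, (op w n).eval (-x) = (-1) ^ n * (op w n).eval x) : bn w n = 0 := by
  have h : B w (X * op w n) (op w n) = 0 := by
    have h1 : B w (X * op w n) (op w n) = - B w (X * op w n) (op w n) := by
      conv_lhs => rw [B, ← integral_neg_eq_self]
      rw [B, ← integral_neg]
      congr 1
      funext x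
      rw [eval_mul, eval_mul, eval_X, eval_X, hpar, heven]
      have : ((-1 : ℝ) ^ n) * (-1) ^ n = 1 := by rw [← mul_pow]; norm_num
      linear_combination (-x * (op w n).eval x * (op w n).eval x * w x) * this
    linarith
  rw [bn, h, zero_div]

theorem parity (heven : ∀ x, w (-x) = w x) (n : ℕ) :
    ∀ x, (op w n).eval (-x) = (-1) ^ n * (op w n).eval x := by
  induction n using Nat.twoStepInduction with
  | zero => intro x; simp [op_zero]
  | one =>
    intro x
    have h0 : bn w 0 = 0 := bn_zero_of_parity heven 0 (by intro x; simp [op_zero])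
    rw [op_one, h0, op_zero]
    simp
  | more n ih1 ih2 =>
    intro x
    have h0 : bn w (n + 1) = 0 := bn_zero_of_parity heven (n + 1) ih2
    rw [op_succ_succ, h0]
    simp only [map_zero, sub_zero, eval_sub, eval_mul, eval_X, eval_C, ih1, ih2]
    ring

theorem bn_zero (heven : ∀ x, w (-x) = w x) (n : ℕ) : bn w n = 0 :=
  bn_zero_of_parity heven n (parity heven n)


end Pool.Agent.Helper649.Frd
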