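import Mathlib
import Pool.Agent.Helper649.FrdA1

/-!
Hankel determinants and the functions of the second kind on the imaginary axis.
-/

set_option autoImplicit false

open Polynomial MeasureTheory Filter Topology

namespace Pool.Agent.Helper649.Frd

variable {w : ℝ → ℝ}

/-- moments -/
noncomputable def mom (w : ℝ → ℝ) (k : ℕ) : ℝ := ∫ x, x ^ k * w x

theorem B_eq_sum (hw : IsWeight w) (p q : ℝ[X]) (n : ℕ) (hp : p.natDegree < n) (hq : q.natDegree < n) :
    B w p q = ∑ i : Fin n, ∑ j : Fin n, p.coeff i * q.coeff j * mom w (i + j) := by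
  unfold B mom
  have h1 : ∀ x : ℝ, p.eval x * q.eval x * w x =
      ∑ i : Fin n, ∑ j : Fin n, p.coeff i * q.coeff j * (x ^ ((i : ℕ) + (j : ℕ)) * w x) := by
    intro x
    rw [eval_eq_sum_range' hp, eval_eq_sum_range' hq, Finset.sum_range, Finset.sum_range,
      Finset.sum_mul_sum, Finset.sum_mul]
    refine Finset.sum_congr rfl fun i _ => ?_
    rw [Finset.sum_mul]
    refine Finset.sum_congr rfl fun j _ => ?_
    rw [pow_add]; ring
  simp only [h1]
  rw [integral_finsetSum _ (fun i _ => integrable_finsetSum _ fun j _ => (hw.mom _).const_mul _)]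
  refine Finset.sum_congr rfl fun i _ => ?_
  rw [integral_finsetSum _ (fun j _ => (hw.mom _).const_mul _)]
  refine Finset.sum_congr rfl fun j _ => ?_
  rw [integral_const_mul]

/-- Hankel determinants are products of the squared norms. -/
theorem hankel_det (hw : IsWeight w) (n : ℕ) :
    (Matrix.of fun i j : Fin n => mom w (i.val + j.val)).det = ∏ k ∈ Finset.range n, hn w k := by
  set G : Matrix (Fin n) (Fin n) ℝ := Matrix.of fun i j : Fin n => mom w (i.val + j.val) with hG
  set U : Matrix (Fin n) (Fin n) ℝ := Matrix.of fun i j : Fin n => (op w i).coeff j with hU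
  have hUdet : U.det = 1 := by
    rw [Matrix.det_of_lowerTriangular U]
    · refine Finset.prod_eq_one fun i _ => ?_
      have := (op_monic w i).1.coeff_natDegree
      rw [(op_monic w i).2] at this
      simpa [hU] using this
    · intro i j hij
      have hij' : (i : ℕ) < (j : ℕ) := by simpa using hij
      simp only [hU, Matrix.of_apply]
      exact coeff_eq_zero_of_natDegree_lt (by rw [(op_monic w i).2]; exact hij')
  have hprod : U * G * U.transpose = Matrix.diagonal fun k : Fin n => hn w k := by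
    ext i j
    rw [Matrix.mul_apply]
    have e1 : ∀ l : Fin n, (U * G) i l * U.transpose l j =
        ∑ k : Fin n, (op w i).coeff k * (op w j).coeff l * mom w (k + l) := by
      intro l
      rw [Matrix.mul_apply, Finset.sum_mul]
      refine Finset.sum_congr rfl fun k _ => ?_
      simp only [hU, hG, Matrix.of_apply, Matrix.transpose_apply]
      ring
    simp only [e1]
    rw [Finset.sum_comm, ← B_eq_sum hw _ _ n (by rw [(op_monic w i).2]; exact i.2)
      (by rw [(op_monic w j).2]; exact j.2)]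
    rw [Matrix.diagonal_apply]
    split_ifs with h
    · rw [h]; rfl
    · have h' : (i : ℕ) ≠ (j : ℕ) := fun h2 => h (Fin.ext h2)
      rcases Nat.lt_or_gt_of_ne h' with h2 | h2
      · exact op_orth hw j i h2
      · rw [B_comm]; exact op_orth hw i j h2
  have hdet := congrArg Matrix.det hprod
  rw [Matrix.det_mul, Matrix.det_mul, Matrix.det_transpose, hUdet, Matrix.det_diagonal, one_mul,
    mul_one] at hdet
  rw [hdet, Finset.prod_range]

theorem a_eq (hw : IsWeight w) (D : ℕ → ℝ)
    (hD : ∀ m : ℕ, D m = (Matrix.of fun i j : Fin m => mom w (i.val + j.val)).det)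
    (a : ℕ → ℝ) (ha : ∀ n : ℕ, 1 ≤ n → a n = Real.sqrt (D (n + 1) * D (n - 1) / D n ^ 2)) (n : ℕ) :
    0 < a (n + 1) ∧ a (n + 1) ^ 2 = hn w (n + 1) / hn w n := by
  have h0 := hn_pos hw n
  have h1 := hn_pos hw (n + 1)
  have hDn : D n = ∏ k ∈ Finset.range n, hn w k := by rw [hD, hankel_det hw]
  have hDpos : 0 < D n := by
    rw [hDn]; exact Finset.prod_pos fun k _ => hn_pos hw k
  have hD1 : D (n + 1) = D n * hn w n := by
    rw [hD (n + 1), hankel_det hw, Finset.prod_range_succ, ← hDn]
  have hD2 : D (n + 2) = D n * hn w n * hn w (n + 1) := by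
    rw [hD (n + 2), hankel_det hw, Finset.prod_range_succ, Finset.prod_range_succ, ← hDn]
  have e : D (n + 1 + 1) * D (n + 1 - 1) / D (n + 1) ^ 2 = hn w (n + 1) / hn w n := by
    rw [Nat.add_sub_cancel, show n + 1 + 1 = n + 2 from rfl, hD1, hD2]
    field_simp
  have hpos : 0 < hn w (n + 1) / hn w n := div_pos h1 h0
  rw [ha (n + 1) (by omega), e]
  exact ⟨Real.sqrt_pos.2 hpos, Real.sq_sqrt hpos.le⟩

/-- the weight divided by `x ^ 2 + t ^ 2` -/
noncomputable def wt (w : ℝ → ℝ) (t : ℝ) (x : ℝ) : ℝ := w x / (x ^ 2 + t ^ 2)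

theorem wt_isWeight (hw : IsWeight w) {t : ℝ} (ht : 0 < t) : IsWeight (wt w t) where
  meas := hw.meas.div (by fun_prop)
  pos x := div_pos (hw.pos x) (by positivity)
  mom k := by
    refine Integrable.mono' ((hw.mom k).norm.const_mul (1 / t ^ 2))
      (((measurable_id.pow_const k).mul (hw.meas.div (by fun_prop))).aestronglyMeasurable)
      (Eventually.of_forall fun x => ?_)
    have h1 : 0 < x ^ 2 + t ^ 2 := by positivity
    have h2 : x ^ k * wt w t x = (x ^ k * w x) * (1 / (x ^ 2 + t ^ 2)) := by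
      unfold wt; ring
    have h3 : ‖id x ^ k * wt w t x‖ = ‖x ^ k * w x‖ * (1 / (x ^ 2 + t ^ 2)) := by
      rw [id, h2, norm_mul, Real.norm_of_nonneg (by positivity : (0:ℝ) ≤ 1 / (x ^ 2 + t ^ 2))]
    show ‖x ^ k * wt w t x‖ ≤ 1 / t ^ 2 * ‖x ^ k * w x‖
    rw [show x ^ k * wt w t x = id x ^ k * wt w t x from rfl, h3, mul_comm]
    refine mul_le_mul_of_nonneg_right ?_ (norm_nonneg _)
    exact one_div_le_one_div_of_le (by positivity) (by nlinarith [sq_nonneg x])

theorem B_wt (hw : IsWeight w) {t : ℝ} (ht : 0 < t) (p q : ℝ[X]) :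
    B w p q = B (wt w t) (X * p) (X * q) + t ^ 2 * B (wt w t) p q := by
  have h := wt_isWeight hw ht
  rw [← B_C_mul_left, ]
  unfold B
  rw [← integral_add (h.integrable₂ (X * p) (X * q)) (h.integrable₂ (C (t ^ 2) * p) q)]
  congr 1
  funext x
  have h1 : x ^ 2 + t ^ 2 ≠ 0 := by positivity
  simp only [eval_mul, eval_X, eval_C, wt]
  field_simp

/-- recurrence of the monic polynomials for an even weight -/
theorem op_rec_even (heven : ∀ x, w (-x) = w x) (n : ℕ) :
    op w (n + 2) = X * op w (n + 1) - C (hn w (n + 1) / hn w n) * op w n := by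
  rw [op_succ_succ, bn_zero heven, map_zero, sub_zero]

theorem op_one_even (heven : ∀ x, w (-x) = w x) : op w 1 = X := by
  rw [op_one, bn_zero heven, op_zero]; simp

/-- odd integrands integrate to zero -/
theorem B_odd_zero (hev : ∀ x, w (-x) = w x) {p q : ℝ[X]}
    (hpq : ∀ x, p.eval (-x) * q.eval (-x) = - (p.eval x * q.eval x)) : B w p q = 0 := by
  have h1 : B w p q = - B w p q := by
    conv_lhs => rw [B, ← integral_neg_eq_self]
    rw [B, ← integral_neg]
    congr 1
    funext x
    rw [hpq, hev]; ring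
  linarith

/-- the numbers `P̂_k(t)`: `P̂_0 = 1`, `P̂_1 = t`, `P̂_{k+2} = t P̂_{k+1} + β_{k+1} P̂_k` -/
noncomputable def Ph (w : ℝ → ℝ) (t : ℝ) : ℕ → ℝ
  | 0 => 1
  | 1 => t
  | n + 2 => t * Ph w t (n + 1) + hn w (n + 1) / hn w n * Ph w t n

theorem Ph_pos (hw : IsWeight w) {t : ℝ} (ht : 0 < t) (n : ℕ) : 0 < Ph w t n := by
  induction n using Nat.twoStepInduction with
  | zero => simp [Ph]
  | one => simpa [Ph] using ht
  | more n ih1 ih2 =>
    have h0 := hn_pos hw n
    have h1 := hn_pos hw (n + 1)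
    simp only [Ph]
    positivity

/-- `W_{n,k} = t B(op n, op k) + i B(X op n, op k)` for the weight `w / (x^2 + t^2)` -/
noncomputable def Wc (w : ℝ → ℝ) (t : ℝ) (n k : ℕ) : ℂ :=
  (t * B (wt w t) (op w n) (op w k) : ℝ) + Complex.I * (B (wt w t) (X * op w n) (op w k) : ℝ)

theorem wt_even (hev : ∀ x, w (-x) = w x) (t : ℝ) : ∀ x, wt w t (-x) = wt w t x := by
  intro x; unfold wt; rw [hev, neg_sq]

theorem Wc_one (hw : IsWeight w) (hev : ∀ x, w (-x) = w x) {t : ℝ} (ht : 0 < t) (n : ℕ) (hn1 : 1 ≤ n) :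
    Wc w t n 1 = -Complex.I * t * Wc w t n 0 := by
  have h := wt_isWeight hw ht
  have e0 : B w (op w n) (op w 0) = 0 := by rw [B_comm]; exact op_orth hw n 0 (by omega)
  have e1 := B_wt hw ht (op w n) (op w 0)
  rw [e0] at e1
  have e2 : B (wt w t) (X * op w n) (op w 1) = B (wt w t) (X * op w n) (X * op w 0) := by
    rw [op_one_even hev, op_zero, mul_one]
  have e3 : B (wt w t) (op w n) (op w 1) = B (wt w t) (X * op w n) (op w 0) := by
    rw [op_one_even hev, op_zero, B_X_mul, mul_one]
  unfold Wc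
  rw [e2, e3]
  have e4 : B (wt w t) (X * op w n) (X * op w 0) = - (t ^ 2 * B (wt w t) (op w n) (op w 0)) := by
    linarith
  rw [e4]
  push_cast
  linear_combination ((B (wt w t) (X * op w n) (op w 0) : ℂ) * t) * Complex.I_sq

theorem Wc_step (hw : IsWeight w) (hev : ∀ x, w (-x) = w x) {t : ℝ} (ht : 0 < t) (n k : ℕ)
    (hk : k + 1 < n) :
    Wc w t n (k + 2) = -Complex.I * t * Wc w t n (k + 1) -
      (hn w (k + 1) / hn w k : ℝ) * Wc w t n k := by
  have h := wt_isWeight hw ht
  have e0 : B w (op w n) (op w (k + 1)) = 0 := by rw [B_comm]; exact op_orth hw n (k + 1) hk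
  have e1 := B_wt hw ht (op w n) (op w (k + 1))
  rw [e0] at e1
  have e4 : B (wt w t) (X * op w n) (X * op w (k + 1)) =
      - (t ^ 2 * B (wt w t) (op w n) (op w (k + 1))) := by linarith
  unfold Wc
  rw [op_rec_even hev, B_sub_right h, B_sub_right h, B_C_mul_right, B_C_mul_right, e4, ← B_X_mul]
  push_cast
  linear_combination ((B (wt w t) (X * op w n) (op w (k + 1)) : ℂ) * t) * Complex.I_sq

theorem Wc_eq (hw : IsWeight w) (hev : ∀ x, w (-x) = w x) {t : ℝ} (ht : 0 < t) (n : ℕ) :
    ∀ k, k ≤ n → Wc w t n k = (-Complex.I) ^ k * Ph w t k * Wc w t n 0 := by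
  intro k
  induction k using Nat.twoStepInduction with
  | zero => intro _; simp [Ph]
  | one => intro h; rw [Wc_one hw hev ht n h]; simp [Ph]
  | more k ih1 ih2 =>
    intro h
    rw [Wc_step hw hev ht n k (by omega), ih1 (by omega), ih2 (by omega)]
    simp only [Ph]
    push_cast
    ring_nf
    simp only [Complex.I_sq]
    ring

/-- function of the second kind -/
noncomputable def Qc (w : ℝ → ℝ) (t : ℝ) (n : ℕ) : ℂ := (-Complex.I) ^ n * Wc w t n 0

theorem Qc_mul (hw : IsWeight w) (hev : ∀ x, w (-x) = w x) {t : ℝ} (ht : 0 < t) (n : ℕ) :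
    Qc w t n * Ph w t n = (t * B (wt w t) (op w n) (op w n) : ℝ) := by
  have h1 := Wc_eq hw hev ht n n le_rfl
  have h2 : B (wt w t) (X * op w n) (op w n) = 0 := by
    refine B_odd_zero (wt_even hev t) fun x => ?_
    rw [eval_mul, eval_mul, eval_X, eval_X, parity hev]
    have : ((-1 : ℝ) ^ n) * (-1) ^ n = 1 := by rw [← mul_pow]; norm_num
    linear_combination (-x * (op w n).eval x * (op w n).eval x) * this
  have h3 : Wc w t n n = (t * B (wt w t) (op w n) (op w n) : ℝ) := by
    unfold Wc; rw [h2]; simp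
  rw [← h3, h1, Qc]; ring

theorem Qc_rec (hw : IsWeight w) (hev : ∀ x, w (-x) = w x) {t : ℝ} (ht : 0 < t) (n : ℕ) :
    Qc w t (n + 2) = -t * Qc w t (n + 1) + (hn w (n + 1) / hn w n : ℝ) * Qc w t n := by
  have h := wt_isWeight hw ht
  have e0 : B w (op w (n + 1)) (op w 0) = 0 := by rw [B_comm]; exact op_orth hw (n + 1) 0 (by omega)
  have e1 := B_wt hw ht (op w (n + 1)) (op w 0)
  rw [e0] at e1
  have e5 : B (wt w t) (X * (X * op w (n + 1))) (op w 0) =
      - (t ^ 2 * B (wt w t) (op w (n + 1)) (op w 0)) := by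
    rw [B_X_mul]; linarith
  have e6 : B (wt w t) (X * op w (n + 2)) (op w 0) =
      B (wt w t) (X * (X * op w (n + 1))) (op w 0) -
        (hn w (n + 1) / hn w n) * B (wt w t) (X * op w n) (op w 0) := by
    rw [op_rec_even hev, mul_sub, B_sub_left h, show X * (C (hn w (n + 1) / hn w n) * op w n) =
      C (hn w (n + 1) / hn w n) * (X * op w n) by ring, B_C_mul_left]
  have e7 : B (wt w t) (op w (n + 2)) (op w 0) =
      B (wt w t) (X * op w (n + 1)) (op w 0) -
        (hn w (n + 1) / hn w n) * B (wt w t) (op w n) (op w 0) := by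
    rw [op_rec_even hev, B_sub_left h, B_C_mul_left]
  unfold Qc Wc
  rw [e6, e7, e5, pow_succ, pow_succ]
  push_cast
  have hI := Complex.I_sq
  ring_nf
  simp only [hI, show Complex.I ^ 3 = -Complex.I by rw [pow_succ, hI]; ring]
  ring


theorem Ph_mul_Q (hw : IsWeight w) (hev : ∀ x, w (-x) = w x) {t : ℝ} (ht : 0 < t) (n : ℕ) :
    0 < (Qc w t n).re ∧ (Qc w t n).im = 0 := by
  have h := Qc_mul hw hev ht n
  have hP := Ph_pos hw ht n
  have hB := hn_pos (wt_isWeight hw ht) 0
  have hpos : 0 < t * B (wt w t) (op w n) (op w n) :=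
    mul_pos ht (B_pos (wt_isWeight hw ht) (op_ne_zero w n))
  have h1 : Qc w t n = ((t * B (wt w t) (op w n) (op w n) / Ph w t n : ℝ) : ℂ) := by
    have hP' : (Ph w t n : ℂ) ≠ 0 := by exact_mod_cast hP.ne'
    rw [Complex.ofReal_div, ← h]
    field_simp
  rw [h1, Complex.ofReal_re, Complex.ofReal_im]
  exact ⟨div_pos hpos hP, rfl⟩

/-- the S-fraction of an even weight: for every `t > 0` the continued fraction recursion has a
positive solution starting at `μ₀ / m(t)` -/
theorem sfrac (hw : IsWeight w) (hev : ∀ x, w (-x) = w x) {t : ℝ} (ht : 0 < t) :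
    ∃ r : ℕ → ℝ, (∀ n, 0 < r n) ∧ (∀ n, r n = t + hn w (n + 1) / hn w n / r (n + 1)) ∧
      r 0 = mom w 0 / ∫ x, t / (x ^ 2 + t ^ 2) * w x := by
  set Q : ℕ → ℝ := fun n => (Qc w t n).re with hQ
  have hpos : ∀ n, 0 < Q n := fun n => (Ph_mul_Q hw hev ht n).1
  have hcast : ∀ n, Qc w t n = (Q n : ℂ) := fun n => by
    apply Complex.ext
    · simp [hQ]
    · simpa using (Ph_mul_Q hw hev ht n).2
  have hrec : ∀ n, Q (n + 2) = -t * Q (n + 1) + hn w (n + 1) / hn w n * Q n := by
    intro n
    have := Qc_rec hw hev ht n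
    rw [hcast, hcast, hcast] at this
    exact_mod_cast this
  have hQ0 : Q 0 = ∫ x, t / (x ^ 2 + t ^ 2) * w x := by
    simp only [hQ, Qc, Wc, pow_zero, one_mul, Complex.add_re, Complex.ofReal_re, Complex.mul_re,
      Complex.I_re, Complex.I_im, Complex.ofReal_im, Complex.one_re, Complex.one_im, zero_mul, sub_zero]
    rw [B, ← integral_const_mul, op_zero]
    have : ∀ x : ℝ, t * (eval x (1 : ℝ[X]) * eval x (1 : ℝ[X]) * wt w t x) =
        t / (x ^ 2 + t ^ 2) * w x := by
      intro x; simp only [eval_one, wt]; ring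
    simp only [this]
    ring
  have hV0 : B (wt w t) X 1 = 0 := by
    refine B_odd_zero (wt_even hev t) fun x => ?_
    simp
  have hQ1 : Q 1 = mom w 0 - t * Q 0 := by
    have e1 := B_wt hw ht 1 1
    have e2 : B w 1 1 = mom w 0 := by simp [B, mom]
    rw [e2, mul_one] at e1
    have e3 : Q 0 = t * B (wt w t) 1 1 := by
      simp only [hQ, Qc, Wc, pow_zero, one_mul, Complex.add_re, Complex.ofReal_re, Complex.mul_re,
        Complex.I_re, Complex.I_im, Complex.ofReal_im, op_zero, Complex.one_re, Complex.one_im]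
      ring
    have e4 : Q 1 = B (wt w t) X X := by
      simp only [hQ, Qc, Wc, pow_one, op_zero, op_one_even hev]
      have : B (wt w t) (X * X) 1 = B (wt w t) X X := by rw [B_X_mul, mul_one]
      rw [this, hV0]
      simp
    rw [e4, e3, e1]; ring
  refine ⟨fun n => t + Q (n + 1) / Q n, fun n => ?_, fun n => ?_, ?_⟩
  · have := hpos n; have := hpos (n + 1); positivity
  · have h0 := hpos n
    have h1 := hpos (n + 1)
    have h2 := hpos (n + 2)
    have hb : 0 < hn w (n + 1) / hn w n := div_pos (hn_pos hw _) (hn_pos hw _)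
    have e : t + Q (n + 1 + 1) / Q (n + 1) = hn w (n + 1) / hn w n * Q n / Q (n + 1) := by
      rw [show n + 1 + 1 = n + 2 from rfl, hrec n]
      field_simp
      ring
    show t + Q (n + 1) / Q n = t + hn w (n + 1) / hn w n / (t + Q (n + 1 + 1) / Q (n + 1))
    rw [e]
    congr 1
    generalize hn w (n + 1) / hn w n = b at hb
    field_simp
  · show t + Q (0 + 1) / Q 0 = _
    rw [zero_add, hQ1, ← hQ0]
    have h0 := hpos 0
    field_simp
    ring

end Pool.Agent.Helper649.Frd
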