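import Mathlib
import Pool.Agent.Helper649.FrdA2

/-!
Orthonormal polynomials (partly extracted from `Pool/Agent/Results/MP_e8d659_an/NoLimit.lean` of
helper469) and uniqueness of the recurrence coefficients.
-/

set_option autoImplicit false

open Polynomial MeasureTheory Filter Topology

namespace Pool.Agent.Helper649.Frd

/-- Orthonormal polynomials. -/
noncomputable def pn (w : ℝ → ℝ) (n : ℕ) : ℝ[X] := C (1 / √(hn w n)) * op w n

/-- The off-diagonal recurrence coefficients. -/
noncomputable def an (w : ℝ → ℝ) (n : ℕ) : ℝ := √(hn w n / hn w (n - 1))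

variable {w : ℝ → ℝ}

theorem an_pos (hw : IsWeight w) (n : ℕ) : 0 < an w n :=
  Real.sqrt_pos.2 (div_pos (hn_pos hw _) (hn_pos hw _))

theorem an_sq (hw : IsWeight w) (n : ℕ) : an w (n + 1) ^ 2 = hn w (n + 1) / hn w n := by
  rw [an, Real.sq_sqrt (div_pos (hn_pos hw _) (hn_pos hw _)).le, Nat.add_sub_cancel]

theorem an_succ (hw : IsWeight w) (n : ℕ) : an w (n + 1) = √(hn w (n + 1)) / √(hn w n) := by
  rw [an, Nat.add_sub_cancel, Real.sqrt_div (hn_pos hw _).le]

theorem pn_orthonormal (hw : IsWeight w) (m n : ℕ) :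
    B w (pn w m) (pn w n) = if m = n then 1 else 0 := by
  rw [pn, pn, B_C_mul_left, B_C_mul_right]
  split_ifs with h
  · subst h
    have h1 := hn_pos hw m
    have h2 : B w (op w m) (op w m) = hn w m := rfl
    rw [h2]
    have h3 : √(hn w m) ≠ 0 := (Real.sqrt_pos.2 h1).ne'
    field_simp
    exact (Real.sq_sqrt h1.le).symm
  · rcases Nat.lt_or_gt_of_ne h with h | h
    · rw [op_orth hw n m h]; ring
    · rw [B_comm, op_orth hw m n h]; ring

theorem pn_natDegree (hw : IsWeight w) (n : ℕ) : (pn w n).natDegree = n := by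
  have h1 : (1 / √(hn w n)) ≠ 0 := by
    have := Real.sqrt_pos.2 (hn_pos hw n)
    positivity
  rw [pn, natDegree_C_mul h1, (op_monic w n).2]

theorem pn_leadingCoeff (hw : IsWeight w) (n : ℕ) : 0 < (pn w n).leadingCoeff := by
  rw [pn, leadingCoeff_C_mul_of_isUnit, (op_monic w n).1.leadingCoeff, mul_one]
  · have := Real.sqrt_pos.2 (hn_pos hw n)
    positivity
  · have := Real.sqrt_pos.2 (hn_pos hw n)
    exact (by positivity : (1 / √(hn w n)) ≠ 0).isUnit

theorem X_mul_pn (hw : IsWeight w) (n : ℕ) : X * pn w (n + 1) =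
    C (an w (n + 2)) * pn w (n + 2) + C (bn w (n + 1)) * pn w (n + 1) +
      C (an w (n + 1)) * pn w n := by
  have s0 := Real.sqrt_pos.2 (hn_pos hw n)
  have s1 := Real.sqrt_pos.2 (hn_pos hw (n + 1))
  have s2 := Real.sqrt_pos.2 (hn_pos hw (n + 2))
  have e1 : X * pn w (n + 1) = C (1 / √(hn w (n + 1))) * (X * op w (n + 1)) := by
    rw [pn]; ring
  rw [e1, X_mul_op, an_succ hw, an_succ hw, pn, pn, pn, mul_add, mul_add]
  have c1 : (C (√(hn w (n + 1 + 1)) / √(hn w (n + 1))) : ℝ[X]) * (C (1 / √(hn w (n + 2))) * op w (n + 2)) =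
      C (1 / √(hn w (n + 1))) * op w (n + 2) := by
    rw [← mul_assoc, ← C_mul]
    congr 2
    field_simp
  have c2 : (C (√(hn w (n + 1)) / √(hn w n)) : ℝ[X]) * (C (1 / √(hn w n)) * op w n) =
      C (1 / √(hn w (n + 1))) * (C (hn w (n + 1) / hn w n) * op w n) := by
    rw [← mul_assoc, ← mul_assoc, ← C_mul, ← C_mul]
    congr 2
    have q0 : hn w n = √(hn w n) ^ 2 := (Real.sq_sqrt (hn_pos hw n).le).symm
    have q1 : hn w (n + 1) = √(hn w (n + 1)) ^ 2 := (Real.sq_sqrt (hn_pos hw (n + 1)).le).symm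
    have : hn w (n + 1) / hn w n = √(hn w (n + 1)) ^ 2 / √(hn w n) ^ 2 := by rw [← q0, ← q1]
    rw [this]
    field_simp
  rw [c1, c2]
  ring

theorem X_mul_pn_zero (hw : IsWeight w) : X * pn w 0 =
    C (an w 1) * pn w 1 + C (bn w 0) * pn w 0 := by
  have s0 := Real.sqrt_pos.2 (hn_pos hw 0)
  have s1 := Real.sqrt_pos.2 (hn_pos hw 1)
  have e1 : X * pn w 0 = C (1 / √(hn w 0)) * (X * op w 0) := by
    rw [pn]; ring
  rw [e1, X_mul_op_zero, an_succ hw, pn, pn, mul_add]
  have c1 : (C (√(hn w (0 + 1)) / √(hn w 0)) : ℝ[X]) * (C (1 / √(hn w 1)) * op w 1) =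
      C (1 / √(hn w 0)) * op w 1 := by
    rw [← mul_assoc, ← C_mul]
    congr 2
    field_simp
  rw [c1]
  ring

theorem X_mul_pn_even (hw : IsWeight w) (heven : ∀ x, w (-x) = w x) (n : ℕ) :
    X * pn w (n + 1) = C (an w (n + 2)) * pn w (n + 2) + C (an w (n + 1)) * pn w n := by
  rw [X_mul_pn hw, bn_zero heven, map_zero, zero_mul, add_zero]


/-- uniqueness: orthonormal polynomials with their recurrence have the expected coefficients -/
theorem rec_unique (hw : IsWeight w) (heven : ∀ x, w (-x) = w x) {p : ℕ → ℝ[X]} {a : ℕ → ℝ}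
    (hdeg : ∀ n, (p n).natDegree = n ∧ 0 < (p n).leadingCoeff)
    (horth : ∀ m n, B w (p m) (p n) = if m = n then 1 else 0)
    (ha : ∀ n, 0 < a (n + 1)) (h0 : X * p 0 = C (a 1) * p 1)
    (hrec : ∀ n, X * p (n + 1) = C (a (n + 2)) * p (n + 2) + C (a (n + 1)) * p n) (n : ℕ) :
    a (n + 1) ^ 2 = hn w (n + 1) / hn w n := by
  set γ : ℕ → ℝ := fun n => (p n).leadingCoeff with hγ
  have hγc : ∀ n, (p n).coeff n = γ n := fun n => by
    simp only [hγ, leadingCoeff, (hdeg n).1]
  have hγpos : ∀ n, 0 < γ n := fun n => (hdeg n).2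
  have hγa : ∀ n, γ n = a (n + 1) * γ (n + 1) := by
    intro n
    rcases n with _ | n
    · have := congrArg (fun q : ℝ[X] => q.coeff 1) h0
      simp only [coeff_X_mul, coeff_C_mul] at this
      rw [← hγc 0, this, ← hγc 1]
    · have := congrArg (fun q : ℝ[X] => q.coeff (n + 1 + 1)) (hrec n)
      simp only [coeff_X_mul, coeff_C_mul, coeff_add] at this
      rw [coeff_eq_zero_of_natDegree_lt (p := p n) (by rw [(hdeg n).1]; omega), mul_zero, add_zero] at this
      rw [← hγc (n + 1), this, ← hγc (n + 1 + 1)]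
  have hnorm : ∀ n, p n = C (γ n) * op w n → γ n ^ 2 * hn w n = 1 := by
    intro n h
    have h1 := horth n n
    rw [h, B_C_mul_left, B_C_mul_right, if_pos rfl] at h1
    have h2 : B w (op w n) (op w n) = hn w n := rfl
    rw [h2] at h1
    linarith
  have hp : ∀ n, p n = C (γ n) * op w n := by
    intro n
    induction n using Nat.twoStepInduction with
    | zero =>
      have h1 := eq_C_of_natDegree_eq_zero (hdeg 0).1
      rw [h1, op_zero, mul_one, ← hγc 0]
    | one =>
      have h1 := eq_C_of_natDegree_eq_zero (hdeg 0).1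
      have ha0 := (ha 0).ne'
      rw [op_one_even heven]
      have h2 : C (a 1) * p 1 = C (a 1) * (C (γ 1) * X) := by
        rw [← h0, h1, hγc 0, hγa 0, C_mul]; ring
      exact mul_left_cancel₀ (by rw [Ne, C_eq_zero]; exact ha0) h2
    | more n ih1 ih2 =>
      have hn1 := hnorm n ih1
      have hn2 := hnorm (n + 1) ih2
      have ha1 := hγa n
      have ha2 := hγa (n + 1)
      have hh0 := hn_pos hw n
      have hh1 := hn_pos hw (n + 1)
      have g0 := hγpos n
      have g1 := hγpos (n + 1)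
      have e1 : a (n + 1) * γ n = γ (n + 1) * (hn w (n + 1) / hn w n) := by
        have hq : hn w (n + 1) / hn w n = γ n ^ 2 / γ (n + 1) ^ 2 := by
          rw [div_eq_div_iff hh0.ne' (by positivity)]
          linear_combination hn2 - hn1
        rw [hq, ha1]
        field_simp
      have h2 : C (a (n + 2)) * p (n + 2) = C (a (n + 2)) * (C (γ (n + 2)) * op w (n + 2)) := by
        have h3 : C (a (n + 2)) * p (n + 2) = X * p (n + 1) - C (a (n + 1)) * p n := by
          rw [hrec n]; ring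
        rw [h3, ih1, ih2, op_rec_even heven, ← mul_assoc (C (a (n + 2))), ← C_mul, ← ha2]
        have e2 : C (a (n + 1)) * (C (γ n) * op w n) = C (γ (n + 1) * (hn w (n + 1) / hn w n)) * op w n := by
          rw [← mul_assoc, ← C_mul, e1]
        rw [e2, C_mul]
        ring
      exact mul_left_cancel₀ (by rw [Ne, C_eq_zero]; exact (ha (n + 1)).ne') h2
  have hn1 := hnorm n (hp n)
  have hn2 := hnorm (n + 1) (hp (n + 1))
  have hh0 := hn_pos hw n
  have g1 := hγpos (n + 1)
  have ha1 := hγa n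
  rw [eq_div_iff hh0.ne']
  have h5 : γ (n + 1) ^ 2 * (a (n + 1) ^ 2 * hn w n) = γ (n + 1) ^ 2 * hn w (n + 1) := by
    rw [hn2, ← hn1, ha1]; ring
  exact mul_left_cancel₀ (by positivity) h5

end Pool.Agent.Helper649.Frd
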