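import Mathlib
import Pool.Agent.Helper649.FrdA2
import Pool.Agent.Helper615.LogA.Core
import Pool.Agent.Helper615.LogA.B1
import Pool.Agent.Helper615.LogA.D1

/-!
Assembly: the recurrence coefficients of `exp(-|x|^3)` have no pure power expansion. The analytic
core is the theorem `core` of `Pool.Agent.Helper615.LogA.Core` (helper615).
-/

set_option autoImplicit false

open Filter Asymptotics Topology MeasureTheory Polynomial

namespace Pool.Agent.Helper649.Frd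

/-- the weight -/
noncomputable def w3 (x : ℝ) : ℝ := Real.exp (-(|x| ^ 3))

theorem w3_even (x : ℝ) : w3 (-x) = w3 x := by unfold w3; rw [abs_neg]

theorem w3_isWeight : IsWeight w3 := by
  have hm : Measurable w3 := by
    unfold w3
    exact Real.measurable_exp.comp (((measurable_norm (α := ℝ)).pow_const 3).neg)
  refine ⟨hm, fun x => Real.exp_pos _, ?_⟩
  intro k
  have hmeas : Measurable fun x : ℝ => x ^ k * w3 x := (measurable_id.pow_const k).mul hm
  have h1 : IntegrableOn (fun x : ℝ => x ^ (k : ℝ) * Real.exp (-1 * x ^ (3 : ℝ))) (Set.Ioi 0) :=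
    integrableOn_rpow_mul_exp_neg_mul_rpow (by
      have : (0 : ℝ) ≤ k := Nat.cast_nonneg k
      linarith) (by norm_num) one_pos
  have h2 : IntegrableOn (fun x : ℝ => x ^ k * w3 x) (Set.Ioi 0) := by
    refine h1.congr_fun (fun x hx => ?_) measurableSet_Ioi
    have hx' : 0 < x := hx
    simp only [w3]
    have h3 : x ^ (3 : ℝ) = x ^ 3 := by exact_mod_cast Real.rpow_natCast x 3
    rw [Real.rpow_natCast, abs_of_pos hx', h3, neg_one_mul]
  have h3 : IntegrableOn (fun x : ℝ => x ^ k * w3 x) (Set.Iio 0) := by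
    have h4 := h2.comp_neg
    rw [Set.neg_Ioi, neg_zero] at h4
    refine Integrable.mono h4 hmeas.aestronglyMeasurable ?_
    refine Filter.Eventually.of_forall fun x => ?_
    simp only [w3_even, norm_mul, norm_pow, norm_neg]
    exact le_rfl
  rw [← integrableOn_univ, ← Set.Iic_union_Ioi (a := (0 : ℝ))]
  have h5 : IntegrableOn (fun x : ℝ => x ^ k * w3 x) (Set.Iic 0) := by
    rw [integrableOn_Iic_iff_integrableOn_Iio]
    exact h3
  exact h5.union h2

/-- functions of the second kind on the imaginary axis, in real form -/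
theorem second_kind {w : ℝ → ℝ} (hw : IsWeight w) (hev : ∀ x, w (-x) = w x) {t : ℝ} (ht : 0 < t) :
    ∃ Q : ℕ → ℝ, (∀ n, 0 < Q n) ∧ Q 1 = mom w 0 - t * Q 0 ∧
      (∀ n, Q (n + 2) = hn w (n + 1) / hn w n * Q n - t * Q (n + 1)) ∧
      Q 0 = ∫ x, t / (x ^ 2 + t ^ 2) * w x := by
  set Q : ℕ → ℝ := fun n => (Qc w t n).re with hQ
  have hpos : ∀ n, 0 < Q n := fun n => (Ph_mul_Q hw hev ht n).1
  have hcast : ∀ n, Qc w t n = (Q n : ℂ) := fun n => by
    apply Complex.ext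
    · simp [hQ]
    · simpa using (Ph_mul_Q hw hev ht n).2
  have hrec : ∀ n, Q (n + 2) = -t * Q (n + 1) + hn w (n + 1) / hn w n * Q n := by
    intro n
    have := Qc_rec hw hev ht n
    rw [hcast, hcast, hcast] at this
    exact_mod_cast this
  have hQ0 : Q 0 = ∫ x, t / (x ^ 2 + t ^ 2) * w x := by
    simp only [hQ, Qc, Wc, pow_zero, one_mul, Complex.add_re, Complex.ofReal_re, Complex.mul_re,
      Complex.I_re, Complex.I_im, Complex.ofReal_im, Complex.one_re, Complex.one_im, zero_mul, sub_zero]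
    rw [B, ← integral_const_mul, op_zero]
    have : ∀ x : ℝ, t * (eval x (1 : ℝ[X]) * eval x (1 : ℝ[X]) * wt w t x) =
        t / (x ^ 2 + t ^ 2) * w x := by
      intro x; simp only [eval_one, wt]; ring
    simp only [this]
    ring
  have hV0 : B (wt w t) X 1 = 0 := by
    refine B_odd_zero (wt_even hev t) fun x => ?_
    simp
  have hQ1 : Q 1 = mom w 0 - t * Q 0 := by
    have e1 := B_wt hw ht 1 1
    have e2 : B w 1 1 = mom w 0 := by simp [B, mom]
    rw [e2, mul_one] at e1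
    have e3 : Q 0 = t * B (wt w t) 1 1 := by
      simp only [hQ, Qc, Wc, pow_zero, one_mul, Complex.add_re, Complex.ofReal_re, Complex.mul_re,
        Complex.I_re, Complex.I_im, Complex.ofReal_im, op_zero, Complex.one_re, Complex.one_im]
      ring
    have e4 : Q 1 = B (wt w t) X X := by
      simp only [hQ, Qc, Wc, pow_one, op_zero, op_one_even hev]
      have : B (wt w t) (X * X) 1 = B (wt w t) X X := by rw [B_X_mul, mul_one]
      rw [this, hV0]
      simp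
    rw [e4, e3, e1]; ring
  exact ⟨Q, hpos, hQ1, fun n => by rw [hrec n]; ring, hQ0⟩

open Pool.Agent.Helper615.LogA in
/-- If `a_{n+1}^2 = h_{n+1} / h_n` for the weight `exp(-|x|^3)` and `a_n / (n / C)^{1/3}` has an
expansion `1 + α₁ + (-1)^n (γ + b0 n^{-3}) + O(n^{-11})` with `α₁` a combination of powers
`n^{-x}`, `x ≥ δ > 0`, and `γ` a combination of powers with `x ≥ 3 + δ`, then `False`. -/
theorem final_L {C : ℝ} (hC : 0 < C) {a : ℕ → ℝ}
    (ha : ∀ n, 0 < a (n + 1) ∧ a (n + 1) ^ 2 = hn w3 (n + 1) / hn w3 n)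
    {δ : ℝ} (hδ : 0 < δ) (hδ4 : δ ≤ 1 / 4) {α₁ γ e₁ : ℕ → ℝ} {b0 : ℝ} (hα : α₁ ∈ PW δ)
    (hγ : γ ∈ PW (3 + δ)) (he : e₁ =O[atTop] pw 11)
    (h : ∀ n : ℕ, 1 ≤ n → a n / ((n : ℝ) / C) ^ (1 / 3 : ℝ)
      = 1 + α₁ n + (-1 : ℝ) ^ n * (γ n + b0 * pw 3 n) + e₁ n) : False := by
  obtain ⟨δ', β₀, α, β, e, h1, h2, h3, h4, h5, h6⟩ :=
    b1_j5798_main a C hC δ hδ hδ4 α₁ γ e₁ b0 hα hγ he h
  have hex : ∀ t : ℝ, ∃ Q : ℕ → ℝ, 0 < t → (∀ n, 0 < Q n) ∧ Q 1 = mom w3 0 - t * Q 0 ∧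
      (∀ n, Q (n + 2) = hn w3 (n + 1) / hn w3 n * Q n - t * Q (n + 1)) ∧
      Q 0 = ∫ x, t / (x ^ 2 + t ^ 2) * w3 x := by
    intro t
    by_cases ht : 0 < t
    · obtain ⟨r, hr⟩ := second_kind w3_isWeight w3_even ht
      exact ⟨r, fun _ => hr⟩
    · exact ⟨fun _ => 0, fun h => absurd h ht⟩
  choose Q hQ using hex
  obtain ⟨v, Cm, hv0, hm⟩ := m_expansion
  have hmom : 0 < mom w3 0 := by
    have e2 : B w3 1 1 = mom w3 0 := by simp [B, mom]
    rw [← e2]
    exact B_pos w3_isWeight one_ne_zero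
  refine core (fun n => a n ^ 2) (C ^ (-(2 / 3) : ℝ)) δ' β₀ (Real.rpow_pos_of_pos hC _) h1 h2 α β e
    h3 h4 h5 (fun n hn => ⟨?_, h6 n hn⟩) (mom w3 0) hmom (fun n t => Q t n) (fun t ht => ?_) v Cm hv0
    (fun t ht ht1 => ?_)
  · obtain ⟨m, rfl⟩ : ∃ m, n = m + 1 := ⟨n - 1, by omega⟩
    exact pow_pos (ha m).1 2
  · obtain ⟨g1, g2, g3, -⟩ := hQ t ht
    refine ⟨g1, g2, fun n hn => ?_⟩
    obtain ⟨m, rfl⟩ : ∃ m, n = m + 1 := ⟨n - 1, by omega⟩
    show Q t (m + 2) = a (m + 1) ^ 2 * Q t m - t * Q t (m + 1)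
    rw [g3 m, (ha m).2]
  · obtain ⟨-, -, -, g4⟩ := hQ t ht
    have e1 : Q t 0 = ∫ x : ℝ, Real.exp (-(|x| ^ (3 : ℝ))) * t / (x ^ 2 + t ^ 2) := by
      rw [g4]
      congr 1
      funext x
      have e3 : |x| ^ (3 : ℝ) = |x| ^ 3 := by exact_mod_cast Real.rpow_natCast |x| 3
      rw [e3, w3]
      ring
    show |Q t 0 - (∑ j ∈ Finset.range 7, v j * t ^ j) + 2 * t ^ 3 * Real.log t| ≤ Cm * t ^ 7
    rw [e1]
    exact hm t ht ht1

end Pool.Agent.Helper649.Frd
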