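import Mathlib

set_option autoImplicit false

namespace Pool.Agent.Helper649.Geo

open Complex Filter Topology MeasureTheory

/-- radius of curvature of a centrally symmetric table -/
structure Rho (ρ : ℝ → ℝ) (H0 : ℝ) : Prop where
  sm : ContDiff ℝ (⊤ : ℕ∞) ρ
  pos : ∀ t, 0 < ρ t
  per : ∀ t, ρ (t + Real.pi) = ρ t
  ev : ∀ t, ρ (-t) = ρ t
  int : ∫ u in (0 : ℝ)..(Real.pi / 2), ρ u * Real.sin u = H0

/-- the curve with the given radius of curvature -/
noncomputable def gam (ρ : ℝ → ℝ) (H0 : ℝ) (t : ℝ) : ℂ :=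
  I * H0 - ∫ u in (0 : ℝ)..t, (ρ u : ℂ) * cexp (u * I)

/-- the outward normal -/
noncomputable def NN (t : ℝ) : ℂ := I * cexp (t * I)

/-- inner product -/
noncomputable def ip (a b : ℂ) : ℝ := (a * starRingEnd ℂ b).re

lemma ip_eq (a b : ℂ) : ip a b = a.re * b.re + a.im * b.im := by
  unfold ip; simp

lemma exp_tI (t : ℝ) : cexp (t * I) = ⟨Real.cos t, Real.sin t⟩ := by
  rw [Complex.exp_mul_I]
  apply Complex.ext
  · simp [Complex.cos_ofReal_re, Complex.sin_ofReal_im]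
  · simp [Complex.sin_ofReal_re, Complex.cos_ofReal_im]

lemma NN_eq (t : ℝ) : NN t = ⟨-Real.sin t, Real.cos t⟩ := by
  unfold NN; rw [exp_tI]
  apply Complex.ext <;> simp

lemma NN_norm (t : ℝ) : ‖NN t‖ = 1 := by
  unfold NN
  rw [norm_mul, Complex.norm_I, one_mul, Complex.norm_exp_ofReal_mul_I]

section
variable {ρ : ℝ → ℝ} {H0 : ℝ}

lemma gam_deriv (h : Rho ρ H0) (t : ℝ) : HasDerivAt (gam ρ H0) (-((ρ t : ℂ) * cexp (t * I))) t := by
  have hc : Continuous (fun u : ℝ => (ρ u : ℂ) * cexp (u * I)) := by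
    have := h.sm.continuous
    fun_prop
  have h1 := intervalIntegral.integral_hasDerivAt_right (hc.intervalIntegrable 0 t)
    (hc.stronglyMeasurableAtFilter _ _) hc.continuousAt
  exact h1.const_sub _

lemma gam_zero (ρ : ℝ → ℝ) (H0 : ℝ) : gam ρ H0 0 = I * H0 := by
  unfold gam; simp

lemma gam_smooth (h : Rho ρ H0) : ContDiff ℝ (⊤ : ℕ∞) (gam ρ H0) := by
  rw [contDiff_infty_iff_deriv]
  refine ⟨fun t => (gam_deriv h t).differentiableAt, ?_⟩
  have : deriv (gam ρ H0) = fun t : ℝ => -((ρ t : ℂ) * cexp (t * I)) := by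
    funext t; exact (gam_deriv h t).deriv
  rw [this]
  have h1 : ContDiff ℝ (⊤ : ℕ∞) (fun t : ℝ => (ρ t : ℂ)) := Complex.ofRealCLM.contDiff.comp h.sm
  have h2 : ContDiff ℝ (⊤ : ℕ∞) (fun t : ℝ => (t : ℂ)) := Complex.ofRealCLM.contDiff
  have h3 : ContDiff ℝ (⊤ : ℕ∞) (fun t : ℝ => cexp (t * I)) := (h2.mul contDiff_const).cexp
  exact (h1.mul h3).neg

lemma gam_neg (h : Rho ρ H0) (t : ℝ) : gam ρ H0 (-t) = -starRingEnd ℂ (gam ρ H0 t) := by
  have hd : ∀ t, HasDerivAt (fun t => gam ρ H0 (-t) + starRingEnd ℂ (gam ρ H0 t)) 0 t := by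
    intro t
    have h1 : HasDerivAt (fun t : ℝ => gam ρ H0 (-t)) ((ρ (-t) : ℂ) * cexp ((-t : ℝ) * I)) t := by
      exact (HasDerivAt.scomp t (gam_deriv h (-t)) (hasDerivAt_neg t)).congr_deriv (by simp)
    have h2 : HasDerivAt (fun t : ℝ => starRingEnd ℂ (gam ρ H0 t)) (starRingEnd ℂ (-((ρ t : ℂ) * cexp (t * I)))) t :=
      (gam_deriv h t).star
    refine (h1.add h2).congr_deriv ?_
    rw [h.ev, map_neg, map_mul, Complex.conj_ofReal, ← Complex.exp_conj, map_mul, Complex.conj_ofReal, Complex.conj_I]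
    push_cast
    rw [neg_mul, mul_neg]; ring
  have h1 := is_const_of_deriv_eq_zero (f := fun t => gam ρ H0 (-t) + starRingEnd ℂ (gam ρ H0 t))
    (fun t => (hd t).differentiableAt) (fun t => (hd t).deriv) t 0
  simp only [neg_zero, gam_zero, map_mul, Complex.conj_I, Complex.conj_ofReal] at h1
  linear_combination h1

lemma gam_half (h : Rho ρ H0) : (gam ρ H0 (Real.pi / 2)).im = 0 := by
  unfold gam
  have hc : Continuous (fun u : ℝ => (ρ u : ℂ) * cexp (u * I)) := by
    have := h.sm.continuous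
    fun_prop
  rw [Complex.sub_im]
  have h1 := (Complex.imCLM).intervalIntegral_comp_comm (hc.intervalIntegrable (μ := volume) 0 (Real.pi / 2))
  simp only [Complex.imCLM_apply] at h1
  rw [← h1]
  have h2 : ∀ u : ℝ, ((ρ u : ℂ) * cexp (u * I)).im = ρ u * Real.sin u := fun u => by
    rw [exp_tI]; simp
  simp only [h2]
  rw [h.int]; simp

lemma gam_pi (h : Rho ρ H0) (t : ℝ) : gam ρ H0 (t + Real.pi) = -gam ρ H0 t := by
  have hd : ∀ t, HasDerivAt (fun t => gam ρ H0 (t + Real.pi) + gam ρ H0 t) 0 t := by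
    intro t
    have h1 : HasDerivAt (fun t : ℝ => gam ρ H0 (t + Real.pi)) (-((ρ (t + Real.pi) : ℂ) * cexp ((t + Real.pi : ℝ) * I))) t := by
      have h0 : HasDerivAt (fun t : ℝ => t + Real.pi) 1 t := (hasDerivAt_id t).add_const Real.pi
      exact (HasDerivAt.scomp t (gam_deriv h (t + Real.pi)) h0).congr_deriv (one_smul _ _)
    refine (h1.add (gam_deriv h t)).congr_deriv ?_
    rw [h.per]
    have : cexp ((t + Real.pi : ℝ) * I) = -cexp (t * I) := by
      push_cast
      rw [add_mul, Complex.exp_add, Complex.exp_pi_mul_I]; ring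
    rw [this]; ring
  have h1 := is_const_of_deriv_eq_zero (f := fun t => gam ρ H0 (t + Real.pi) + gam ρ H0 t)
    (fun t => (hd t).differentiableAt) (fun t => (hd t).deriv) t (-(Real.pi / 2))
  have e1 : -(Real.pi / 2) + Real.pi = Real.pi / 2 := by ring
  simp only [e1, gam_neg h (Real.pi / 2)] at h1
  have e2 : gam ρ H0 (Real.pi / 2) + -starRingEnd ℂ (gam ρ H0 (Real.pi / 2)) = 0 := by
    apply Complex.ext
    · simp
    · simp [gam_half h]
  rw [e2] at h1
  linear_combination h1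

lemma gam_2pi (h : Rho ρ H0) (t : ℝ) : gam ρ H0 (t + 2 * Real.pi) = gam ρ H0 t := by
  have : t + 2 * Real.pi = (t + Real.pi) + Real.pi := by ring
  rw [this, gam_pi h, gam_pi h, neg_neg]

lemma NN_pi (t : ℝ) : NN (t + Real.pi) = -NN t := by
  rw [NN_eq, NN_eq, Real.sin_add_pi, Real.cos_add_pi]
  apply Complex.ext <;> simp

lemma NN_2pi (t : ℝ) : NN (t + 2 * Real.pi) = NN t := by
  rw [NN_eq, NN_eq, Real.sin_add_two_pi, Real.cos_add_two_pi]

lemma NN_neg (t : ℝ) : NN (-t) = -starRingEnd ℂ (NN t) := by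
  rw [NN_eq, NN_eq, Real.sin_neg, Real.cos_neg]
  apply Complex.ext <;> simp

/-- derivative of the height function -/
lemma ht_deriv (h : Rho ρ H0) (t s : ℝ) : HasDerivAt (fun s => ip (gam ρ H0 s) (NN t)) (-(ρ s * Real.sin (s - t))) s := by
  have h1 := (gam_deriv h s).mul_const (starRingEnd ℂ (NN t))
  have h2 : HasDerivAt (fun s => ip (gam ρ H0 s) (NN t)) ((-((ρ s : ℂ) * cexp (s * I)) * starRingEnd ℂ (NN t)).re) s :=
    Complex.reCLM.hasFDerivAt.comp_hasDerivAt s h1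
  refine h2.congr_deriv ?_
  rw [NN_eq, exp_tI, Real.sin_sub]
  simp
  ring

lemma ht_anti (h : Rho ρ H0) (t : ℝ) : StrictAntiOn (fun s => ip (gam ρ H0 s) (NN t)) (Set.Icc t (t + Real.pi)) := by
  apply strictAntiOn_of_deriv_neg (convex_Icc _ _)
  · exact fun s _ => (ht_deriv h t s).continuousAt.continuousWithinAt
  · intro s hs
    rw [interior_Icc] at hs
    rw [(ht_deriv h t s).deriv]
    have : 0 < Real.sin (s - t) := Real.sin_pos_of_pos_of_lt_pi (by linarith [hs.1]) (by linarith [hs.2])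
    have := h.pos s
    have : 0 < ρ s * Real.sin (s - t) := by positivity
    linarith

lemma ht_mono (h : Rho ρ H0) (t : ℝ) : StrictMonoOn (fun s => ip (gam ρ H0 s) (NN t)) (Set.Icc (t - Real.pi) t) := by
  apply strictMonoOn_of_deriv_pos (convex_Icc _ _)
  · exact fun s _ => (ht_deriv h t s).continuousAt.continuousWithinAt
  · intro s hs
    rw [interior_Icc] at hs
    rw [(ht_deriv h t s).deriv]
    have h1 : Real.sin (s - t) < 0 := Real.sin_neg_of_neg_of_neg_pi_lt (by linarith [hs.2]) (by linarith [hs.1])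
    have := h.pos s
    nlinarith

lemma gam_int (h : Rho ρ H0) (t : ℝ) (n : ℤ) : gam ρ H0 (t + n * (2 * Real.pi)) = gam ρ H0 t := by
  have hp : Function.Periodic (gam ρ H0) (2 * Real.pi) := gam_2pi h
  have := hp.int_mul n t
  rw [this]

/-- the strict support inequality -/
lemma supp_lt (h : Rho ρ H0) (s t : ℝ) (hst : ∀ n : ℤ, s ≠ t + n * (2 * Real.pi)) :
    ip (gam ρ H0 s) (NN t) < ip (gam ρ H0 t) (NN t) := by
  have hpi := Real.pi_pos
  obtain ⟨n, hn⟩ : ∃ n : ℤ, s - n * (2 * Real.pi) ∈ Set.Ioc (t - Real.pi) (t + Real.pi) := by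
    obtain ⟨m, hm, -⟩ := existsUnique_sub_zsmul_mem_Ioc (by positivity : 0 < 2 * Real.pi) s (t - Real.pi)
    refine ⟨m, ?_⟩
    have e : t - Real.pi + 2 * Real.pi = t + Real.pi := by ring
    rw [e, zsmul_eq_mul] at hm
    exact hm
  have e : gam ρ H0 s = gam ρ H0 (s - n * (2 * Real.pi)) := by
    have := gam_int h (s - n * (2 * Real.pi)) n
    rw [← this]; congr 1; ring
  rw [e]
  rcases lt_trichotomy (s - n * (2 * Real.pi)) t with h1 | h1 | h1
  · exact ht_mono h t ⟨hn.1.le, h1.le⟩ ⟨by linarith, le_rfl⟩ h1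
  · exact absurd (by linarith) (hst n)
  · exact ht_anti h t ⟨le_rfl, by linarith⟩ ⟨h1.le, hn.2⟩ h1

/-- support function -/
noncomputable def sf (ρ : ℝ → ℝ) (H0 : ℝ) (t : ℝ) : ℝ := ip (gam ρ H0 t) (NN t)

lemma supp_le (h : Rho ρ H0) (s t : ℝ) : ip (gam ρ H0 s) (NN t) ≤ sf ρ H0 t := by
  by_cases hst : ∀ n : ℤ, s ≠ t + n * (2 * Real.pi)
  · exact (supp_lt h s t hst).le
  · push Not at hst
    obtain ⟨n, hn⟩ := hst
    rw [hn, gam_int h]; exact le_rfl

lemma sf_pos (h : Rho ρ H0) (t : ℝ) : 0 < sf ρ H0 t := by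
  have hpi := Real.pi_pos
  have h1 := supp_lt h (t + Real.pi) t (fun n hn => by
    have h2 : Real.pi = n * (2 * Real.pi) := by linarith
    have h3 : (1 : ℝ) = n * 2 := by
      have : Real.pi * 1 = Real.pi * (n * 2) := by linarith
      exact mul_left_cancel₀ hpi.ne' this
    have h4 : (1 : ℤ) = n * 2 := by exact_mod_cast h3
    omega)
  rw [gam_pi h] at h1
  have h2 : ip (-gam ρ H0 t) (NN t) = -sf ρ H0 t := by
    unfold sf; rw [ip_eq, ip_eq]; simp; ring
  rw [h2] at h1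
  have : ip (gam ρ H0 t) (NN t) = sf ρ H0 t := rfl
  rw [this] at h1
  linarith

lemma sf_pi (h : Rho ρ H0) (t : ℝ) : sf ρ H0 (t + Real.pi) = sf ρ H0 t := by
  unfold sf; rw [gam_pi h, NN_pi, ip_eq, ip_eq]; simp

lemma sf_neg (h : Rho ρ H0) (t : ℝ) : sf ρ H0 (-t) = sf ρ H0 t := by
  unfold sf; rw [gam_neg h, NN_neg, ip_eq, ip_eq]; simp

lemma sf_cont (h : Rho ρ H0) : Continuous (sf ρ H0) := by
  have h1 := (gam_smooth h).continuous
  have h2 : Continuous NN := by unfold NN; fun_prop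
  exact Complex.continuous_re.comp (h1.mul (Complex.continuous_conj.comp h2))

/-- derivative of the support function -/
lemma sf_deriv (h : Rho ρ H0) (t : ℝ) : HasDerivAt (sf ρ H0) (ip (gam ρ H0 t) (I * NN t)) t := by
  have h1 := gam_deriv h t
  have h2 : HasDerivAt NN (I * NN t) t := by
    have h3 : HasDerivAt (fun t : ℝ => cexp (t * I)) (cexp (t * I) * I) t := by
      have h4 : HasDerivAt (fun t : ℝ => (t : ℂ) * I) I t := by
        have := (Complex.ofRealCLM.hasDerivAt (x := t)).mul_const I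
        simpa using this
      exact h4.cexp
    have := h3.const_mul I
    refine this.congr_deriv ?_
    unfold NN; ring
  have h3 : HasDerivAt (fun t => starRingEnd ℂ (NN t)) (starRingEnd ℂ (I * NN t)) t := h2.star
  have h4 := h1.mul h3
  have h5 : HasDerivAt (sf ρ H0) ((-((ρ t : ℂ) * cexp (t * I)) * starRingEnd ℂ (NN t) + gam ρ H0 t * starRingEnd ℂ (I * NN t)).re) t :=
    Complex.reCLM.hasFDerivAt.comp_hasDerivAt t h4
  refine h5.congr_deriv ?_
  rw [Complex.add_re]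
  have e : (-((ρ t : ℂ) * cexp (t * I)) * starRingEnd ℂ (NN t)).re = 0 := by
    rw [NN_eq, exp_tI]; simp; ring
  rw [e, zero_add]; rfl

end

end Pool.Agent.Helper649.Geo
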