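import Pool.Agent.Helper649.GeoA
import Pool.Agent.Helper649.BilDef

set_option autoImplicit false

namespace Pool.Agent.Helper649.Geo

open Complex Filter Topology

/-- the open table -/
def Om (ρ : ℝ → ℝ) (H0 : ℝ) : Set ℂ := {P | ∀ t, ip P (NN t) < sf ρ H0 t}

/-- the closed table -/
def CC (ρ : ℝ → ℝ) (H0 : ℝ) : Set ℂ := {P | ∀ t, ip P (NN t) ≤ sf ρ H0 t}

lemma ip_add (a b c : ℂ) : ip (a + b) c = ip a c + ip b c := by simp only [ip_eq, add_re, add_im]; ring
lemma ip_sub (a b c : ℂ) : ip (a - b) c = ip a c - ip b c := by simp only [ip_eq, sub_re, sub_im]; ring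
lemma ip_smul (r : ℝ) (a c : ℂ) : ip (r • a) c = r * ip a c := by simp [ip_eq]; ring
lemma ip_neg (a c : ℂ) : ip (-a) c = -ip a c := by simp only [ip_eq, neg_re, neg_im]; ring

lemma ip_le (a : ℂ) (t : ℝ) : ip a (NN t) ≤ ‖a‖ := by
  unfold ip
  refine (Complex.re_le_norm _).trans ?_
  rw [norm_mul, RCLike.norm_conj, NN_norm, mul_one]

lemma ip_zero_of (a : ℂ) (t : ℝ) (h1 : ip a (NN t) = 0) (h2 : ip a (I * NN t) = 0) : a = 0 := by
  have e : I * NN t = ⟨-Real.cos t, -Real.sin t⟩ := by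
    rw [NN_eq]; apply Complex.ext <;> simp
  rw [e, ip_eq] at h2
  rw [NN_eq, ip_eq] at h1
  simp only at h1 h2
  have h3 := Real.sin_sq_add_cos_sq t
  apply Complex.ext
  · simp only [zero_re]
    have : a.re * (Real.sin t ^ 2 + Real.cos t ^ 2) = 0 := by linear_combination (-Real.sin t) * h1 + (-Real.cos t) * h2
    rw [h3, mul_one] at this; exact this
  · simp only [zero_im]
    have : a.im * (Real.sin t ^ 2 + Real.cos t ^ 2) = 0 := by linear_combination (Real.cos t) * h1 + (-Real.sin t) * h2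
    rw [h3, mul_one] at this; exact this

lemma ip_NN_deriv (P : ℂ) (t : ℝ) : HasDerivAt (fun t => ip P (NN t)) (ip P (I * NN t)) t := by
  have h2 : HasDerivAt NN (I * NN t) t := by
    have h3 : HasDerivAt (fun t : ℝ => cexp (t * I)) (cexp (t * I) * I) t := by
      have h4 : HasDerivAt (fun t : ℝ => (t : ℂ) * I) I t := by
        have := (Complex.ofRealCLM.hasDerivAt (x := t)).mul_const I
        simpa using this
      exact h4.cexp
    have := h3.const_mul I
    refine this.congr_deriv ?_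
    unfold NN; ring
  have h3 : HasDerivAt (fun t => starRingEnd ℂ (NN t)) (starRingEnd ℂ (I * NN t)) t := h2.star
  exact Complex.reCLM.hasFDerivAt.comp_hasDerivAt t (h3.const_mul P)

lemma NN_cont : Continuous NN := by unfold NN; fun_prop

lemma ip_cont (t : ℝ) : Continuous (fun P : ℂ => ip P (NN t)) := by
  unfold ip; fun_prop

section
variable {ρ : ℝ → ℝ} {H0 : ℝ}

lemma touch (h : Rho ρ H0) {P : ℂ} (hP : P ∈ CC ρ H0) {t : ℝ} (ht : ip P (NN t) = sf ρ H0 t) : P = gam ρ H0 t := by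
  have hd : HasDerivAt (fun t => sf ρ H0 t - ip P (NN t)) (ip (gam ρ H0 t) (I * NN t) - ip P (I * NN t)) t :=
    (sf_deriv h t).sub (ip_NN_deriv P t)
  have hmin : IsLocalMin (fun t => sf ρ H0 t - ip P (NN t)) t := by
    refine Eventually.of_forall (fun s => ?_)
    show sf ρ H0 t - ip P (NN t) ≤ sf ρ H0 s - ip P (NN s)
    rw [ht, sub_self]
    have := hP s
    linarith
  have h0 := hmin.hasDerivAt_eq_zero hd
  have h1 : ip (P - gam ρ H0 t) (NN t) = 0 := by
    rw [ip_sub, ht]; unfold sf; ring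
  have h2 : ip (P - gam ρ H0 t) (I * NN t) = 0 := by
    rw [ip_sub]; linarith
  exact sub_eq_zero.mp (ip_zero_of _ t h1 h2)

lemma gam_mem (h : Rho ρ H0) (t : ℝ) : gam ρ H0 t ∈ CC ρ H0 := fun s => supp_le h t s

lemma Om_sub : Om ρ H0 ⊆ CC ρ H0 := fun _ hP t => (hP t).le

lemma Om_open (h : Rho ρ H0) : IsOpen (Om ρ H0) := by
  rw [Metric.isOpen_iff]
  intro P hP
  have hpi := Real.pi_pos
  have hc : Continuous (fun t => sf ρ H0 t - ip P (NN t)) :=
    (sf_cont h).sub (Complex.continuous_re.comp (continuous_const.mul (Complex.continuous_conj.comp NN_cont)))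
  obtain ⟨t0, ht0, hmin⟩ := (isCompact_Icc (a := (0 : ℝ)) (b := 2 * Real.pi)).exists_isMinOn
    ⟨0, by constructor <;> linarith⟩ hc.continuousOn
  refine ⟨sf ρ H0 t0 - ip P (NN t0), by have := hP t0; linarith, fun Q hQ t => ?_⟩
  rw [Metric.mem_ball, Complex.dist_eq] at hQ
  have hper : Function.Periodic (fun t => sf ρ H0 t - ip P (NN t)) (2 * Real.pi) := fun t => by
    have e : t + 2 * Real.pi = (t + Real.pi) + Real.pi := by ring
    show sf ρ H0 (t + 2 * Real.pi) - ip P (NN (t + 2 * Real.pi)) = _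
    rw [NN_2pi, e, sf_pi h, sf_pi h]
  obtain ⟨t1, ht1, hmin1⟩ := hper.exists_mem_Ico₀ (by linarith) t
  have h1 := hmin ⟨ht1.1, ht1.2.le⟩
  simp only [Set.mem_setOf_eq] at h1
  have h2 : ip (Q - P) (NN t) ≤ ‖Q - P‖ := ip_le _ _
  rw [ip_sub] at h2
  linarith

lemma Om_convex : Convex ℝ (Om ρ H0) := by
  intro x hx y hy a b ha hb hab t
  rw [ip_add, ip_smul, ip_smul]
  have h1 := hx t
  have h2 := hy t
  rcases ha.eq_or_lt with h0 | h0
  · rw [← h0] at hab ⊢
    rw [zero_add] at hab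
    rw [hab]; linarith
  · have h3 : a * ip x (NN t) < a * sf ρ H0 t := by gcongr
    have h4 : b * ip y (NN t) ≤ b * sf ρ H0 t := by gcongr
    have : a * sf ρ H0 t + b * sf ρ H0 t = sf ρ H0 t := by rw [← add_mul, hab, one_mul]
    linarith

lemma CC_closed : IsClosed (CC ρ H0) := by
  have : CC ρ H0 = ⋂ t, {P : ℂ | ip P (NN t) ≤ sf ρ H0 t} := by
    ext P; simp [CC]
  rw [this]
  exact isClosed_iInter (fun t => isClosed_le (ip_cont t) continuous_const)

lemma closure_Om (h : Rho ρ H0) : closure (Om ρ H0) = CC ρ H0 := by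
  apply Set.Subset.antisymm
  · exact closure_minimal Om_sub CC_closed
  · intro P hP
    have h1 : Tendsto (fun c : ℝ => c • P) (𝓝[<] 1) (𝓝 P) := by
      have : Tendsto (fun c : ℝ => c • P) (𝓝 1) (𝓝 ((1 : ℝ) • P)) :=
        (tendsto_id.smul_const P)
      rw [one_smul] at this
      exact this.mono_left nhdsWithin_le_nhds
    refine mem_closure_of_tendsto h1 ?_
    have hev : ∀ᶠ c : ℝ in 𝓝[<] 1, c ∈ Set.Ioo (0 : ℝ) 1 := Ioo_mem_nhdsLT (by norm_num)
    filter_upwards [hev] with c hc t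
    rw [ip_smul]
    have h2 := hP t
    have h3 := sf_pos h t
    have h4 : c * ip P (NN t) ≤ c * sf ρ H0 t := by
      have := hc.1.le
      gcongr
    have h5 : c * sf ρ H0 t < 1 * sf ρ H0 t := by
      have := hc.2
      gcongr
    linarith

lemma CC_strict (h : Rho ρ H0) : StrictConvex ℝ (CC ρ H0) := by
  intro x hx y hy hxy a b ha hb hab
  refine interior_maximal Om_sub (Om_open h) ?_
  intro t
  rw [ip_add, ip_smul, ip_smul]
  have h1 := hx t
  have h2 := hy t
  have e : a * sf ρ H0 t + b * sf ρ H0 t = sf ρ H0 t := by rw [← add_mul, hab, one_mul]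
  rcases h1.eq_or_lt with h3 | h3
  · rcases h2.eq_or_lt with h4 | h4
    · exact absurd ((touch h hx h3).trans (touch h hy h4).symm) hxy
    · have : b * ip y (NN t) < b * sf ρ H0 t := by gcongr
      rw [h3]; linarith
  · have h5 : a * ip x (NN t) < a * sf ρ H0 t := by gcongr
    have h6 : b * ip y (NN t) ≤ b * sf ρ H0 t := by gcongr
    linarith

lemma frontier_Om (h : Rho ρ H0) : frontier (Om ρ H0) = Set.range (gam ρ H0) := by
  rw [(Om_open h).frontier_eq, closure_Om h]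
  apply Set.Subset.antisymm
  · rintro P ⟨hP, hPn⟩
    have : ∃ t, sf ρ H0 t ≤ ip P (NN t) := by
      by_contra hc
      push Not at hc
      exact hPn hc
    obtain ⟨t, ht⟩ := this
    exact ⟨t, (touch h hP (le_antisymm (hP t) ht)).symm⟩
  · rintro P ⟨t, rfl⟩
    exact ⟨gam_mem h t, fun hc => lt_irrefl _ (hc t)⟩

lemma exists_NN (P : ℂ) : ∃ t, ip P (NN t) = ‖P‖ := by
  refine ⟨Complex.arg P - Real.pi / 2, ?_⟩
  rw [NN_eq, ip_eq, Real.sin_sub_pi_div_two, Real.cos_sub_pi_div_two, neg_neg]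
  simp only
  have h1 := Complex.norm_mul_cos_arg P
  have h2 := Complex.norm_mul_sin_arg P
  have h3 := Real.sin_sq_add_cos_sq (Complex.arg P)
  rw [← h1, ← h2]
  have : ‖P‖ * Real.cos P.arg * Real.cos P.arg + ‖P‖ * Real.sin P.arg * Real.sin P.arg = ‖P‖ * (Real.sin P.arg ^ 2 + Real.cos P.arg ^ 2) := by ring
  rw [h1, h2] at this ⊢
  rw [this, h3, mul_one]

lemma Om_bounded (h : Rho ρ H0) : Bornology.IsBounded (Om ρ H0) := by
  have hpi := Real.pi_pos
  obtain ⟨t0, ht0, hmax⟩ := (isCompact_Icc (a := (0 : ℝ)) (b := 2 * Real.pi)).exists_isMaxOn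
    ⟨0, by constructor <;> linarith⟩ (sf_cont h).continuousOn
  rw [isBounded_iff_forall_norm_le]
  refine ⟨sf ρ H0 t0, fun P hP => ?_⟩
  obtain ⟨t, ht⟩ := exists_NN P
  rw [← ht]
  have hper : Function.Periodic (sf ρ H0) (2 * Real.pi) := fun t => by
    have e : t + 2 * Real.pi = (t + Real.pi) + Real.pi := by ring
    rw [e, sf_pi h, sf_pi h]
  obtain ⟨t1, ht1, h1⟩ := hper.exists_mem_Ico₀ (by linarith) t
  have h2 := hmax ⟨ht1.1, ht1.2.le⟩
  simp only [Set.mem_setOf_eq] at h2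
  have h3 := hP t
  rw [h1] at h3
  linarith

lemma gam_injOn (h : Rho ρ H0) : Set.InjOn (gam ρ H0) (Set.Ico 0 (2 * Real.pi)) := by
  intro s hs t ht hst
  by_contra hne
  have hpi := Real.pi_pos
  have h1 := supp_lt h s t (fun n hn => by
    have h2 : (n : ℝ) * (2 * Real.pi) < 1 * (2 * Real.pi) := by linarith [hs.2, ht.1]
    have h3 : (-1 : ℝ) * (2 * Real.pi) < n * (2 * Real.pi) := by linarith [hs.1, ht.2]
    have h4 : (n : ℝ) < 1 := lt_of_mul_lt_mul_right h2 (by positivity)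
    have h5 : (-1 : ℝ) < n := lt_of_mul_lt_mul_right h3 (by positivity)
    have h6 : n < 1 := by exact_mod_cast h4
    have h7 : -1 < n := by exact_mod_cast h5
    have h8 : n = 0 := by omega
    rw [h8] at hn
    simp at hn
    exact hne hn)
  rw [hst] at h1
  exact lt_irrefl _ h1

lemma gam_regular (h : Rho ρ H0) (t : ℝ) : deriv (gam ρ H0) t ≠ 0 := by
  rw [(gam_deriv h t).deriv, neg_ne_zero]
  have : (ρ t : ℂ) ≠ 0 := by exact_mod_cast (h.pos t).ne'
  exact mul_ne_zero this (Complex.exp_ne_zero _)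

lemma gam_curved (h : Rho ρ H0) (t : ℝ) :
    0 < (starRingEnd ℂ (deriv (gam ρ H0) t) * deriv (deriv (gam ρ H0)) t).im := by
  have hd : deriv (gam ρ H0) = fun t : ℝ => -((ρ t : ℂ) * cexp (t * I)) := by
    funext t; exact (gam_deriv h t).deriv
  have h1 : HasDerivAt ρ (deriv ρ t) t := (h.sm.differentiable (by simp) t).hasDerivAt
  have h3 : HasDerivAt (fun t : ℝ => cexp (t * I)) (cexp (t * I) * I) t := by
    have h4 : HasDerivAt (fun t : ℝ => (t : ℂ) * I) I t := by
      have := (Complex.ofRealCLM.hasDerivAt (x := t)).mul_const I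
      simpa using this
    exact h4.cexp
  have h5 := (h1.ofReal_comp.mul h3).neg
  have h6 : deriv (fun t : ℝ => -((ρ t : ℂ) * cexp (t * I))) t = -(((deriv ρ t : ℝ) : ℂ) * cexp (t * I) + (ρ t : ℂ) * (cexp (t * I) * I)) := h5.deriv
  rw [hd, h6]
  have hp := h.pos t
  have h7 := Real.sin_sq_add_cos_sq t
  have hre : (cexp ((t : ℂ) * I)).re = Real.cos t := Complex.exp_ofReal_mul_I_re t
  have him : (cexp ((t : ℂ) * I)).im = Real.sin t := Complex.exp_ofReal_mul_I_im t
  simp only [map_neg, map_mul, Complex.conj_ofReal, mul_im, mul_re, neg_im, neg_re, add_re, add_im, ofReal_re, ofReal_im,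
    I_re, I_im, Complex.conj_re, Complex.conj_im, hre, him]
  have e : ρ t ^ 2 * (Real.sin t ^ 2 + Real.cos t ^ 2) = ρ t ^ 2 := by rw [h7, mul_one]
  have hpos : 0 < ρ t ^ 2 := by positivity
  rw [← e] at hpos
  refine lt_of_lt_of_eq hpos ?_
  ring

lemma Om_zero (h : Rho ρ H0) : (0 : ℂ) ∈ Om ρ H0 := fun t => by
  rw [ip_eq]; simpa using sf_pos h t

lemma table (h : Rho ρ H0) : Billiard.IsTable (Om ρ H0) (gam ρ H0) where
  isOpen := Om_open h
  nonempty := ⟨0, Om_zero h⟩
  convex := Om_convex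
  bounded := Om_bounded h
  strictConvex := by rw [closure_Om h]; exact CC_strict h
  smooth := gam_smooth h
  periodic := gam_2pi h
  injOn := gam_injOn h
  regular := gam_regular h
  curved := gam_curved h
  boundary := frontier_Om h

lemma Om_negconj (h : Rho ρ H0) {P : ℂ} (hP : P ∈ Om ρ H0) : -starRingEnd ℂ P ∈ Om ρ H0 := by
  intro t
  have h1 := hP (-t)
  rw [sf_neg h, NN_neg] at h1
  have e : ip (-starRingEnd ℂ P) (NN t) = ip P (-starRingEnd ℂ (NN t)) := by
    rw [ip_eq, ip_eq]; simp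
  rw [e]; exact h1

lemma Om_neg (h : Rho ρ H0) {P : ℂ} (hP : P ∈ Om ρ H0) : -P ∈ Om ρ H0 := by
  intro t
  have h1 := hP (t + Real.pi)
  rw [sf_pi h, NN_pi] at h1
  have e : ip (-P) (NN t) = ip P (-NN t) := by
    rw [ip_eq, ip_eq]; simp
  rw [e]; exact h1

lemma Om_symm (h : Rho ρ H0) : Billiard.EllipseSymm (Om ρ H0) := by
  refine ⟨fun P hP => ?_, fun P hP => Om_negconj h hP⟩
  have := Om_neg h (Om_negconj h hP)
  rwa [neg_neg] at this

end

end Pool.Agent.Helper649.Geo
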