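import Pool.Agent.Helper649.BilDef

set_option autoImplicit false

namespace Pool.Agent.Helper649.Billiard

open Complex Filter Topology

variable {Ω : Set ℂ} {γ : ℝ → ℂ}

lemma IsTable.frontier_not_mem (h : IsTable Ω γ) (t : ℝ) : γ t ∉ Ω ∧ γ t ∈ closure Ω := by
  have h1 : γ t ∈ frontier Ω := by rw [h.boundary]; exact ⟨t, rfl⟩
  rw [h.isOpen.frontier_eq] at h1
  exact ⟨h1.2, h1.1⟩

lemma line_diff {ℓ : OLine} {P Q : ℂ} (hP : P ∈ pts ℓ) (hQ : Q ∈ pts ℓ) : ∃ c : ℝ, Q = P + c * (ℓ.1 : ℂ) := by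
  have hu : (ℓ.1 : ℂ) * starRingEnd ℂ (ℓ.1 : ℂ) = 1 := by
    rw [Complex.mul_conj, Complex.normSq_eq_norm_sq]; simp
  refine ⟨(starRingEnd ℂ (ℓ.1 : ℂ) * (Q - P)).re, ?_⟩
  have h1 : (starRingEnd ℂ (ℓ.1 : ℂ) * (Q - P)).im = 0 := by
    rw [mul_sub, Complex.sub_im]
    have h2 : (starRingEnd ℂ (ℓ.1 : ℂ) * P).im = ℓ.2 := hP
    have h3 : (starRingEnd ℂ (ℓ.1 : ℂ) * Q).im = ℓ.2 := hQ
    rw [h2, h3, sub_self]
  have h2 : (((starRingEnd ℂ (ℓ.1 : ℂ) * (Q - P)).re : ℝ) : ℂ) = starRingEnd ℂ (ℓ.1 : ℂ) * (Q - P) := by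
    apply Complex.ext
    · simp
    · rw [h1]; simp
  rw [h2]
  linear_combination (-(Q - P)) * hu

lemma exit_unique (h : IsTable Ω γ) {ℓ : OLine} {s1 s2 t1 t2 : ℝ} (h1 : γ t1 ∈ pts ℓ) (h2 : γ t2 ∈ pts ℓ)
    (hs1 : 0 < s1) (hs2 : 0 < s2) (m1 : γ t1 - s1 * (ℓ.1 : ℂ) ∈ Ω) (m2 : γ t2 - s2 * (ℓ.1 : ℂ) ∈ Ω) : γ t1 = γ t2 := by
  have key : ∀ (P Q : ℂ) (c s : ℝ), Q = P + c * (ℓ.1 : ℂ) → 0 < c → 0 < s → P - s * (ℓ.1 : ℂ) ∈ Ω → P ∉ Ω → Q ∈ closure Ω → False := by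
    intro P Q c s hQ hc hs hm hP hQc
    have h3 := h.convex.openSegment_interior_closure_subset_interior (by rw [h.isOpen.interior_eq]; exact hm) hQc
    rw [h.isOpen.interior_eq] at h3
    apply hP
    apply h3
    refine ⟨c / (c + s), s / (c + s), by positivity, by positivity, by field_simp, ?_⟩
    rw [hQ, Complex.real_smul, Complex.real_smul]
    have : ((c : ℂ) + s) ≠ 0 := by exact_mod_cast (by positivity : (c + s) ≠ 0)
    push_cast
    field_simp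
    ring
  obtain ⟨a1, a2⟩ := h.frontier_not_mem t1
  obtain ⟨b1, b2⟩ := h.frontier_not_mem t2
  obtain ⟨c, hc⟩ := line_diff h1 h2
  rcases lt_trichotomy c 0 with hc0 | hc0 | hc0
  · exact (key (γ t2) (γ t1) (-c) s2 (by rw [hc]; push_cast; ring) (by linarith) hs2 m2 b1 a2).elim
  · rw [hc, hc0]; simp
  · exact (key (γ t1) (γ t2) c s1 hc hc0 hs1 m1 a1 b2).elim

lemma deriv_periodic (h : IsTable Ω γ) (t : ℝ) : deriv γ (t + 2 * Real.pi) = deriv γ t := by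
  have h1 := deriv_comp_add_const γ (2 * Real.pi) t
  have h2 : (fun x => γ (x + 2 * Real.pi)) = γ := by funext x; exact h.periodic x
  rw [h2] at h1
  exact h1.symm

lemma deriv_eq (h : IsTable Ω γ) {s t : ℝ} (hst : γ s = γ t) : deriv γ s = deriv γ t := by
  have hpi := Real.pi_pos
  have hper : Function.Periodic (fun t => (γ t, deriv γ t)) (2 * Real.pi) := fun t => by
    show (γ (t + 2 * Real.pi), deriv γ (t + 2 * Real.pi)) = _
    rw [h.periodic, deriv_periodic h]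
  obtain ⟨s', hs', es⟩ := hper.exists_mem_Ico₀ (by positivity) s
  obtain ⟨t', ht', et⟩ := hper.exists_mem_Ico₀ (by positivity) t
  have e1 := congrArg Prod.fst es
  have e2 := congrArg Prod.snd es
  have e3 := congrArg Prod.fst et
  have e4 := congrArg Prod.snd et
  simp only at e1 e2 e3 e4
  have : s' = t' := h.injOn hs' ht' (by rw [← e1, ← e3, hst])
  rw [e2, e4, this]

lemma Reflects.unique (h : IsTable Ω γ) {ℓ ℓ1 ℓ2 : OLine} (h1 : Reflects Ω γ ℓ ℓ1) (h2 : Reflects Ω γ ℓ ℓ2) : ℓ1 = ℓ2 := by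
  obtain ⟨t1, a1, ⟨s1, hs1, m1⟩, b1, c1⟩ := h1
  obtain ⟨t2, a2, ⟨s2, hs2, m2⟩, b2, c2⟩ := h2
  have e := exit_unique h a1 a2 hs1 hs2 m1 m2
  have e' := deriv_eq h e
  rw [e'] at c1
  have hu : ℓ1.1 = ℓ2.1 := Subtype.ext (c1.trans c2.symm)
  refine Prod.ext hu ?_
  have b1' : (starRingEnd ℂ (ℓ1.1 : ℂ) * γ t1).im = ℓ1.2 := b1
  have b2' : (starRingEnd ℂ (ℓ2.1 : ℂ) * γ t2).im = ℓ2.2 := b2
  rw [← b1', ← b2', hu, e]

lemma billiard_eq (h : IsTable Ω γ) {ℓ ℓ' : OLine} (h1 : Reflects Ω γ ℓ ℓ') : billiard Ω γ ℓ = ℓ' := by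
  unfold billiard
  have hex : ∃ ℓ', Reflects Ω γ ℓ ℓ' := ⟨ℓ', h1⟩
  rw [dif_pos hex]
  exact Reflects.unique h hex.choose_spec h1

/-- Every oriented line that meets the table is reflected. -/
lemma Reflects.exists (h : IsTable Ω γ) {ℓ : OLine} (hm : (pts ℓ ∩ Ω).Nonempty) : ∃ ℓ', Reflects Ω γ ℓ ℓ' := by
  obtain ⟨z, hz1, hz2⟩ := hm
  set u : ℂ := (ℓ.1 : ℂ) with hu
  have hun : ‖u‖ = 1 := Circle.norm_coe ℓ.1
  have hu1 : starRingEnd ℂ u * u = 1 := by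
    rw [mul_comm, Complex.mul_conj, Complex.normSq_eq_norm_sq, hun]; simp
  set A : Set ℝ := {s | 0 ≤ s ∧ z + s * u ∈ closure Ω} with hA
  have hcont : Continuous (fun s : ℝ => z + s * u) := by fun_prop
  have hAclosed : IsClosed A := by
    have : A = Set.Ici 0 ∩ (fun s : ℝ => z + s * u) ⁻¹' closure Ω := by ext s; simp [hA]
    rw [this]
    exact isClosed_Ici.inter (isClosed_closure.preimage hcont)
  obtain ⟨M, hM⟩ := (isBounded_iff_forall_norm_le.mp h.bounded.closure)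
  have hAb : BddAbove A := by
    refine ⟨M + ‖z‖, fun s hs => ?_⟩
    have h1 := hM _ hs.2
    have h2 : ‖(s : ℂ) * u‖ ≤ ‖z + s * u‖ + ‖z‖ := by
      have : (s : ℂ) * u = (z + s * u) - z := by ring
      rw [this]; exact norm_sub_le _ _ |>.trans (by simp)
    rw [norm_mul, hun, mul_one, Complex.norm_real, Real.norm_of_nonneg hs.1] at h2
    linarith
  have hAn : A.Nonempty := ⟨0, le_rfl, by simpa using subset_closure hz2⟩
  have hsA : sSup A ∈ A := hAclosed.csSup_mem hAn hAb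
  set s := sSup A with hs
  have hPn : z + s * u ∉ Ω := by
    intro hP
    have hev : ∀ᶠ x : ℝ in 𝓝 s, z + (x : ℂ) * u ∈ Ω := hcont.continuousAt.preimage_mem_nhds (h.isOpen.mem_nhds hP)
    obtain ⟨ε, hε, hball⟩ := Metric.eventually_nhds_iff.mp hev
    have h1 : s + ε / 2 ∈ A := by
      refine ⟨by have := hsA.1; linarith, subset_closure (hball ?_)⟩
      rw [Real.dist_eq, add_sub_cancel_left, abs_of_pos (by linarith)]; linarith
    have := le_csSup hAb h1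
    linarith
  have hfr : z + s * u ∈ frontier Ω := by
    rw [h.isOpen.frontier_eq]; exact ⟨hsA.2, hPn⟩
  rw [h.boundary] at hfr
  obtain ⟨t, ht⟩ := hfr
  have hs0 : 0 < s := by
    rcases hsA.1.lt_or_eq with h1 | h1
    · exact h1
    · exfalso; apply hPn; rw [← h1]; simpa using hz2
  have hn : (‖deriv γ t‖ : ℂ) ≠ 0 := by
    have := h.regular t
    rw [Ne, Complex.ofReal_eq_zero, norm_eq_zero]; exact this
  have hun' : ‖deriv γ t ^ 2 / (‖deriv γ t‖ : ℂ) ^ 2 * starRingEnd ℂ u‖ = 1 := by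
    rw [norm_mul, RCLike.norm_conj, hun, mul_one, norm_div, norm_pow, norm_pow, Complex.norm_real, norm_norm, div_self]
    have := h.regular t
    exact pow_ne_zero _ (norm_ne_zero_iff.mpr this)
  have hmemc : deriv γ t ^ 2 / (‖deriv γ t‖ : ℂ) ^ 2 * starRingEnd ℂ u ∈ Submonoid.unitSphere ℂ := by
    rw [Submonoid.unitSphere, ← SetLike.mem_coe]
    simpa using hun'
  refine ⟨(⟨_, hmemc⟩, (starRingEnd ℂ (deriv γ t ^ 2 / (‖deriv γ t‖ : ℂ) ^ 2 * starRingEnd ℂ u) * γ t).im), t, ?_, ⟨s, hs0, ?_⟩, ?_, ?_⟩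
  · show (starRingEnd ℂ u * γ t).im = ℓ.2
    have h1 : (starRingEnd ℂ u * z).im = ℓ.2 := hz1
    rw [ht, mul_add, Complex.add_im, h1]
    have : starRingEnd ℂ u * (s * u) = (s : ℂ) := by linear_combination (s : ℂ) * hu1
    rw [this]; simp
  · have e : γ t - (s : ℂ) * (ℓ.1 : ℂ) = z := by
      rw [ht]; simp only [hu]; ring
    rw [e]; exact hz2
  · rfl
  · rfl

end Pool.Agent.Helper649.Billiard
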