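import Pool.Agent.Helper649.GeoC

set_option autoImplicit false

namespace Pool.Agent.Helper649.Billiard

open Complex Filter Topology

variable {Ω : Set ℂ} {γ : ℝ → ℂ}

lemma IsTable.hasDerivAt (h : IsTable Ω γ) (t : ℝ) : HasDerivAt γ (deriv γ t) t :=
  (h.smooth.differentiable (by simp) t).hasDerivAt

lemma Reflects.meets (h : IsTable Ω γ) {ℓ ℓ' : OLine} (h1 : Reflects Ω γ ℓ ℓ') : (pts ℓ ∩ Ω).Nonempty := by
  obtain ⟨t, a, ⟨s, hs, m⟩, b, c⟩ := h1
  refine ⟨_, ?_, m⟩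
  have hu1 : starRingEnd ℂ (ℓ.1 : ℂ) * (ℓ.1 : ℂ) = 1 := by
    rw [mul_comm, Complex.mul_conj, Complex.normSq_eq_norm_sq]; simp
  show (starRingEnd ℂ (ℓ.1 : ℂ) * (γ t - s * (ℓ.1 : ℂ))).im = ℓ.2
  have a' : (starRingEnd ℂ (ℓ.1 : ℂ) * γ t).im = ℓ.2 := a
  have e : starRingEnd ℂ (ℓ.1 : ℂ) * (γ t - s * (ℓ.1 : ℂ)) = starRingEnd ℂ (ℓ.1 : ℂ) * γ t - (s : ℂ) := by
    linear_combination (-(s : ℂ)) * hu1
  rw [e, Complex.sub_im, a']; simp

lemma not_tangent (h : IsTable Ω γ) {ℓ : OLine} {t : ℝ} (ht : γ t ∈ pts ℓ) (hm : (pts ℓ ∩ Ω).Nonempty) :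
    (starRingEnd ℂ (ℓ.1 : ℂ) * deriv γ t).im ≠ 0 := by
  intro h0
  obtain ⟨f, hf⟩ := geometric_hahn_banach_open_point h.convex h.isOpen (h.frontier_not_mem t).1
  have hcl : ∀ s, f (γ s) ≤ f (γ t) := by
    intro s
    have h1 : closure Ω ⊆ {z | f z ≤ f (γ t)} :=
      closure_minimal (fun z hz => (hf z hz).le) (isClosed_le f.continuous continuous_const)
    exact h1 (h.frontier_not_mem s).2
  have hd : HasDerivAt (fun s => f (γ s)) (f (deriv γ t)) t := f.hasFDerivAt.comp_hasDerivAt t (h.hasDerivAt t)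
  have hmax : IsLocalMax (fun s => f (γ s)) t := Filter.Eventually.of_forall hcl
  have hz : f (deriv γ t) = 0 := hmax.hasDerivAt_eq_zero hd
  obtain ⟨P, hP1, hP2⟩ := hm
  obtain ⟨c, hc⟩ := line_diff ht hP1
  have hu1 : (ℓ.1 : ℂ) * starRingEnd ℂ (ℓ.1 : ℂ) = 1 := by
    rw [Complex.mul_conj, Complex.normSq_eq_norm_sq]; simp
  set r : ℝ := (starRingEnd ℂ (ℓ.1 : ℂ) * deriv γ t).re with hr
  have h2 : (r : ℂ) = starRingEnd ℂ (ℓ.1 : ℂ) * deriv γ t := by
    apply Complex.ext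
    · simp [hr]
    · rw [h0]; simp
  have h3 : deriv γ t = r • (ℓ.1 : ℂ) := by
    rw [Complex.real_smul, h2]; linear_combination (-(deriv γ t)) * hu1
  have hr0 : r ≠ 0 := by
    intro hr0
    apply h.regular t
    rw [h3, hr0, zero_smul]
  have h4 : f (ℓ.1 : ℂ) = 0 := by
    rw [h3, map_smul, smul_eq_mul] at hz
    exact (mul_eq_zero.mp hz).resolve_left hr0
  have h5 := hf P hP2
  have h6 : P = γ t + c • (ℓ.1 : ℂ) := by rw [hc, Complex.real_smul]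
  rw [h6, map_add, map_smul, h4, smul_zero, add_zero] at h5
  exact lt_irrefl _ h5

lemma meets_of_transversal (h : IsTable Ω γ) {ℓ : OLine} {t : ℝ} (ht : γ t ∈ pts ℓ)
    (h0 : (starRingEnd ℂ (ℓ.1 : ℂ) * deriv γ t).im ≠ 0) : (pts ℓ ∩ Ω).Nonempty := by
  by_contra hne
  set F : ℂ → ℝ := fun z => (starRingEnd ℂ (ℓ.1 : ℂ) * z).im with hF
  have hFc : Continuous F := by fun_prop
  have hno : ∀ z ∈ Ω, F z ≠ ℓ.2 := fun z hz he => hne ⟨z, he, hz⟩
  have hFt : F (γ t) = ℓ.2 := ht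
  have hd : HasDerivAt (fun s => F (γ s)) ((starRingEnd ℂ (ℓ.1 : ℂ) * deriv γ t).im) t := by
    have h1 := (h.hasDerivAt t).const_mul (starRingEnd ℂ (ℓ.1 : ℂ))
    exact (Complex.imCLM.hasFDerivAt.comp_hasDerivAt t h1)
  have hpre : IsPreconnected (F '' Ω) := h.convex.isPreconnected.image F hFc.continuousOn
  obtain ⟨z0, hz0⟩ := h.nonempty
  rcases lt_or_gt_of_ne (hno z0 hz0) with hlt | hgt
  · have hall : ∀ z ∈ Ω, F z ≤ ℓ.2 := by
      intro z hz
      by_contra hc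
      push Not at hc
      have h1 := hpre.Icc_subset ⟨z0, hz0, rfl⟩ ⟨z, hz, rfl⟩ (⟨hlt.le, hc.le⟩ : ℓ.2 ∈ Set.Icc (F z0) (F z))
      obtain ⟨w, hw, he⟩ := h1
      exact hno w hw he
    have hcl : ∀ s, F (γ s) ≤ F (γ t) := by
      intro s
      rw [hFt]
      have h1 : closure Ω ⊆ {z | F z ≤ ℓ.2} := closure_minimal hall (isClosed_le hFc continuous_const)
      exact h1 (h.frontier_not_mem s).2
    have hmax : IsLocalMax (fun s => F (γ s)) t := Filter.Eventually.of_forall hcl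
    exact h0 (hmax.hasDerivAt_eq_zero hd)
  · have hall : ∀ z ∈ Ω, ℓ.2 ≤ F z := by
      intro z hz
      by_contra hc
      push Not at hc
      have h1 := hpre.Icc_subset ⟨z, hz, rfl⟩ ⟨z0, hz0, rfl⟩ (⟨hc.le, hgt.le⟩ : ℓ.2 ∈ Set.Icc (F z) (F z0))
      obtain ⟨w, hw, he⟩ := h1
      exact hno w hw he
    have hcl : ∀ s, F (γ t) ≤ F (γ s) := by
      intro s
      rw [hFt]
      have h1 : closure Ω ⊆ {z | ℓ.2 ≤ F z} := closure_minimal hall (isClosed_le continuous_const hFc)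
      exact h1 (h.frontier_not_mem s).2
    have hmin : IsLocalMin (fun s => F (γ s)) t := Filter.Eventually.of_forall hcl
    exact h0 (hmin.hasDerivAt_eq_zero hd)

/-- The reflected line meets the table again. -/
lemma Reflects.meets' (h : IsTable Ω γ) {ℓ ℓ' : OLine} (h1 : Reflects Ω γ ℓ ℓ') : (pts ℓ' ∩ Ω).Nonempty := by
  have hm := Reflects.meets h h1
  obtain ⟨t, a, ⟨s, hs, m⟩, b, c⟩ := h1
  apply meets_of_transversal h b
  have h2 := not_tangent h a hm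
  have hn : (‖deriv γ t‖ : ℂ) ≠ 0 := by
    have := h.regular t
    rw [Ne, Complex.ofReal_eq_zero, norm_eq_zero]; exact this
  have hn2 : deriv γ t * starRingEnd ℂ (deriv γ t) = (‖deriv γ t‖ : ℂ) ^ 2 := by
    rw [Complex.mul_conj, Complex.normSq_eq_norm_sq]; push_cast; rfl
  have e : starRingEnd ℂ (ℓ'.1 : ℂ) * deriv γ t = starRingEnd ℂ (starRingEnd ℂ (ℓ.1 : ℂ) * deriv γ t) := by
    rw [c]
    simp only [map_mul, map_div₀, map_pow, Complex.conj_ofReal, Complex.conj_conj]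
    rw [← hn2] at *
    have hd0 : deriv γ t ≠ 0 := h.regular t
    have hd1 : starRingEnd ℂ (deriv γ t) ≠ 0 := by simpa using hd0
    field_simp
  rw [e, Complex.conj_im]
  exact neg_ne_zero.mpr h2

end Pool.Agent.Helper649.Billiard
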