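import Pool.Agent.Helper649.Extend
import Pool.Agent.Helper649.Dio

set_option autoImplicit false

namespace Pool.Agent.Helper649

open MeasureTheory Set

lemma Good.irrational {θ : ℝ} (h : Good θ) : Irrational θ := by
  rintro ⟨q, hq⟩
  have hden : (q.den : ℤ) ≠ 0 := by exact_mod_cast q.den_nz
  have h1 := h (q.den : ℤ) hden
  have h2 : ch (q.den : ℤ) θ = 1 := by
    have e : ((q.den : ℤ) : ℝ) * θ = ((q.num : ℤ) : ℝ) := by
      rw [← hq]
      have := Rat.den_mul_eq_num q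
      have h3 : (((q.den : ℚ) * q : ℚ) : ℝ) = ((q.num : ℚ) : ℝ) := by rw [this]
      push_cast at h3 ⊢
      exact h3
    unfold ch
    have e2 : (2 * Real.pi * Complex.I * ((q.den : ℤ) : ℂ) * θ : ℂ) = ((q.num : ℤ) : ℂ) * (2 * Real.pi * Complex.I) := by
      have h3 : (((q.den : ℤ) : ℂ)) * (θ : ℂ) = ((q.num : ℤ) : ℂ) := by exact_mod_cast congrArg (fun x : ℝ => (x : ℂ)) e
      linear_combination (2 * Real.pi * Complex.I) * h3
    rw [e2, Complex.exp_int_mul_two_pi_mul_I]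
  rw [h2, sub_self, norm_zero, mul_zero] at h1
  linarith

/-- Small rotation numbers with the Diophantine property are rotation numbers of Herman rings. -/
theorem rings : ∃ θ0 : ℝ, 0 < θ0 ∧ ∀ θ : ℝ, 0 < θ → θ < θ0 → Good θ →
    Irrational θ ∧ ∃ h : ℝ, 0 < h ∧ ∃ φ : ℂ → ℂ × ℂ, DifferentiableOn ℂ φ {z : ℂ | |z.im| < h} ∧
      (∀ z, φ (z + 1) = φ z) ∧ (∃ z z' : ℂ, |z.im| < h ∧ |z'.im| < h ∧ φ z ≠ φ z') ∧
      (∀ z : ℂ, |z.im| < h → H2^[2] (φ z) = φ (z + θ)) := by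
  obtain ⟨w, hw, hper, hw0⟩ := exists_w0
  obtain ⟨R, M, hR, hB⟩ := periodic_B w hw hper
  -- the determinant is constant
  have hdet : ∀ t, det w (fun t => w (-t) ^ 2) t = -2 * w 0 ^ 3 := by
    have hd : ∀ t, HasDerivAt (fun t => det w (fun t => w (-t) ^ 2) t) 0 t := by
      intro t
      have h1 : HasDerivAt (fun t => w (-t)) (-(w t ^ 2)) t := by
        have := (hw (-t)).scomp t (hasDerivAt_neg t)
        refine this.congr_deriv ?_
        simp
      have h2 := ((h1.pow 3).add ((hw t).pow 3)).neg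
      have e : (fun t => det w (fun t => w (-t) ^ 2) t) = fun t => -(w (-t) ^ 3 + w t ^ 3) := by
        funext t
        unfold det
        simp only [neg_neg]; ring
      rw [e]
      refine h2.congr_deriv ?_
      push_cast
      ring
    intro t
    have hdiff : Differentiable ℝ (fun t => det w (fun t => w (-t) ^ 2) t) := fun t => (hd t).differentiableAt
    have := is_const_of_deriv_eq_zero hdiff (fun t => (hd t).deriv) t 0
    rw [this]
    unfold det
    simp only [neg_zero]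
    ring
  have hd0 : (-2 * w 0 ^ 3 : ℂ) ≠ 0 := mul_ne_zero (by norm_num) (pow_ne_zero 3 hw0)
  have hn0 : 0 < ‖w 0‖ := norm_pos_iff.mpr hw0
  obtain ⟨θ0, hθ0, hK⟩ := kam_main (G := 1) (η := ‖w 0‖ / 2) hR hB hw (fun t => rfl) hd0 hdet zero_le_one (by positivity)
  refine ⟨θ0, hθ0, fun θ h1 h2 hg => ⟨hg.irrational, ?_⟩⟩
  obtain ⟨r, hr, M', w1, hB1, heq, hcl⟩ := hK θ h1 h2 hg
  have hne : w1 0 ≠ 0 := by
    intro h0
    have := hcl 0
    rw [h0, zero_sub, norm_neg] at this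
    linarith
  obtain ⟨h, hh, φ, p1, p2, p3, p4, -⟩ := ring_of_solution hr hB1 h1.ne' heq hne
  exact ⟨h, hh, φ, p1, p2, p3, p4⟩

/-- The Diophantine property holds for arbitrarily small numbers. -/
theorem exists_good (ρ : ℝ) (hρ : 0 < ρ) : ∃ θ : ℝ, 0 < θ ∧ θ < ρ ∧ Good θ := by
  obtain ⟨C, hC, hbad⟩ := bad_measure
  by_contra hcon
  push Not at hcon
  obtain ⟨x, hx⟩ : ∃ x : ℝ, x = min ρ (1 / (2 * (C + 1))) := ⟨_, rfl⟩
  have hx0 : 0 < x := by rw [hx]; positivity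
  have hxρ : x ≤ ρ := by rw [hx]; exact min_le_left _ _
  have hxC : x ≤ 1 / (2 * (C + 1)) := by rw [hx]; exact min_le_right _ _
  have h1 : Ioo 0 x ∩ {θ | ¬ Good θ} = Ioo 0 x := by
    apply inter_eq_left.mpr
    intro θ hθ
    exact hcon θ hθ.1 (lt_of_lt_of_le hθ.2 hxρ)
  have h2 := hbad x hx0
  rw [h1, Real.volume_Ioo, sub_zero, ENNReal.ofReal_le_ofReal_iff (by positivity)] at h2
  rw [le_div_iff₀ (by positivity)] at hxC
  nlinarith

end Pool.Agent.Helper649
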