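import Pool.Agent.Helper649.KamStep2

set_option autoImplicit false

namespace Pool.Agent.Helper649

/-- Near the unperturbed solution the determinant and the twist are under control. -/
lemma close_bounds (Λ κ θ r : ℝ) (d0 : ℂ) (w w' w0 w0' e0 : ℝ → ℂ)
    (hΛ : 2 ≤ Λ) (hκ : 0 ≤ κ) (hθ0 : 0 < θ) (hθκ : θ ≤ κ) (hr : 1 ≤ r) (hd0 : d0 ≠ 0)
    (hdΛ : 2 / ‖d0‖ ≤ Λ) (hdΛ' : 2 * ‖d0‖ ≤ Λ) (hsmall : Λ ^ 16 * κ ≤ 1)
    (hw0 : B r (Λ / 2) w0) (hw0' : B r (Λ / 2) w0')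
    (hode : ∀ t, w0' t = w0 (-t) ^ 2) (hdet0 : ∀ t, det w0 w0' t = d0)
    (he0 : B r 1 e0) (heq0 : ∀ t, w0 (t + θ) - w0 t = θ * ((-w0 (-t)) ^ 2 + e0 t))
    (hw : B r κ (fun t => w t - w0 t)) (hw' : B r κ (fun t => w' t - w0' t)) :
    B r Λ w ∧ B r Λ w' ∧ B r (‖d0‖ / 2) (fun t => det w w' t - d0) ∧
      B r (1 / (2 * ‖d0‖)) (fun t => tw θ w w' t - 1 / d0) := by
  have hr0 : 0 ≤ r := by linarith
  have hΛ1 : 1 ≤ Λ := by linarith
  have hκ1 : κ ≤ 1 := by
    have : 1 ≤ Λ ^ 16 := one_le_pow₀ hΛ1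
    nlinarith
  have hθ1 : θ ≤ 1 := hθκ.trans hκ1
  have hnθ : ‖(θ : ℂ)‖ ≤ 1 := by
    rw [Complex.norm_real, Real.norm_of_nonneg hθ0.le]; exact hθ1
  have hd0pos : 0 < ‖d0‖ := norm_pos_iff.mpr hd0
  have hwB : B r Λ w := by
    have h := hw0.add hr0 hw
    have e : (fun t => w0 t + (w t - w0 t)) = w := by funext t; ring
    rw [e] at h
    exact h.mono hr0 le_rfl (by linarith)
  have hw'B : B r Λ w' := by
    have h := hw0'.add hr0 hw'
    have e : (fun t => w0' t + (w' t - w0' t)) = w' := by funext t; ring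
    rw [e] at h
    exact h.mono hr0 le_rfl (by linarith)
  have qw : Q r Λ κ 1 0 w := by simpa [Q] using hwB
  have qw' : Q r Λ κ 1 0 w' := by simpa [Q] using hw'B
  have qw0 : Q r Λ κ 1 0 w0 := by
    refine B.mono hw0 hr0 le_rfl ?_
    rw [pow_zero, pow_one]; linarith
  have qw0' : Q r Λ κ 1 0 w0' := by
    refine B.mono hw0' hr0 le_rfl ?_
    rw [pow_zero, pow_one]; linarith
  have qdw : Q r Λ κ 0 1 (fun t => w t - w0 t) := by simpa [Q] using hw
  have qdw' : Q r Λ κ 0 1 (fun t => w' t - w0' t) := by simpa [Q] using hw'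
  have qv : Q r Λ κ 1 0 (fun t => -w (-t)) := qw.refl.neg
  have qv0 : Q r Λ κ 1 0 (fun t => -w0 (-t)) := qw0.refl.neg
  have qdv : Q r Λ κ 0 1 (fun t => -(w (-t) - w0 (-t))) := qdw.refl.neg
  have qdv' : Q r Λ κ 0 1 (fun t => w' (-t) - w0' (-t)) := qdw'.refl
  have qU : Q r Λ κ 1 0 (fun t => w (t + θ)) := qw.shift θ
  -- the determinant
  have qd : Q r Λ κ 3 1 (fun t => det w w' t - d0) := by
    have c1 := qdw'.mul qv hΛ hκ hr (p := 1) (j := 1) (by norm_num) (by norm_num)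
    have c2 := qw0'.mul qdv hΛ hκ hr (p := 1) (j := 1) (by norm_num) (by norm_num)
    have c3 := qdv'.mul qw hΛ hκ hr (p := 1) (j := 1) (by norm_num) (by norm_num)
    have c4 := (qw0'.refl).mul qdw hΛ hκ hr (p := 1) (j := 1) (by norm_num) (by norm_num)
    have c5 := (c1.add c2 hΛ hκ hr0 (p := 2) (by norm_num) (by norm_num)).sub
      (c3.add c4 hΛ hκ hr0 (p := 2) (by norm_num) (by norm_num)) hΛ hκ hr0 (p := 3)
      (by norm_num) (by norm_num)
    have e : (fun t => det w w' t - d0) = fun t => (w' t - w0' t) * -w (-t) + w0' t * -(w (-t) - w0 (-t))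
        - ((w' (-t) - w0' (-t)) * w t + w0' (-t) * (w t - w0 t)) := by
      funext t
      rw [← hdet0 t]
      unfold det; ring
    rw [e]; exact c5
  have hη : Λ ^ 3 * κ ≤ ‖d0‖ / 2 := by
    have h1 : Λ ^ 4 * κ ≤ 1 := by
      refine le_trans ?_ hsmall
      have := pow_le_pow_right₀ hΛ1 (show 4 ≤ 16 by norm_num)
      gcongr
    have h2 : 2 ≤ Λ * ‖d0‖ := by
      rw [div_le_iff₀ hd0pos] at hdΛ; exact hdΛ
    have h3 : 0 ≤ Λ ^ 3 * κ := by positivity
    nlinarith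
  have hdetB : B r (‖d0‖ / 2) (fun t => det w w' t - d0) := by
    refine B.mono qd hr0 le_rfl ?_
    rw [pow_one]; exact hη
  have hinv := B.inv (f := det w w') hr hdetB (by linarith)
  have hdne : ∀ t, det w w' t ≠ 0 := hinv.2
  have qdi : Q r Λ κ 1 0 (fun t => (det w w' t)⁻¹) := by
    have h := hinv.1
    refine B.mono h hr0 le_rfl ?_
    have : 1 / (‖d0‖ - ‖d0‖ / 2) = 2 / ‖d0‖ := by field_simp; norm_num
    rw [this]; simpa using hdΛ
  have qDi : Q r Λ κ 1 0 (fun t => (det w w' (t + θ))⁻¹) := qdi.shift θ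
  refine ⟨hwB, hw'B, hdetB, ?_⟩
  -- the shift of w0
  have qs0 : Q r Λ κ 3 1 (fun t => w0 (t + θ) - w0 t) := by
    have c1 : Q r Λ κ 2 0 (fun t => (-w0 (-t)) * (-w0 (-t))) :=
      qv0.mul qv0 hΛ hκ hr (by norm_num) (by norm_num)
    have c2 : Q r Λ κ 0 0 e0 := by simpa [Q] using he0
    have c3 := c1.add c2 hΛ hκ hr0 (p := 3) (by norm_num) (by norm_num)
    have c4 := B.const_mul (θ : ℂ) c3
    have e : (fun t => w0 (t + θ) - w0 t) = fun t => (θ : ℂ) * (-w0 (-t) * -w0 (-t) + e0 t) := by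
      funext t; rw [heq0 t]; ring
    rw [e]
    refine B.mono c4 hr0 le_rfl ?_
    rw [Complex.norm_real, Real.norm_of_nonneg hθ0.le]
    simp only [pow_zero, mul_one, pow_one]
    have : 0 ≤ Λ ^ 3 := by positivity
    nlinarith
  have qUw : Q r Λ κ 4 1 (fun t => w (t + θ) - w0 t) := by
    have c1 := (qdw.shift θ).add qs0 hΛ hκ hr0 (p := 4) (by norm_num) (by norm_num)
    have e : (fun t => w (t + θ) - w0 t) = fun t => w (t + θ) - w0 (t + θ) + (w0 (t + θ) - w0 t) := by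
      funext t; ring
    rw [e]; exact c1
  -- the numerator
  have qN : Q r Λ κ 11 1 (fun t => ((-w (-t)) ^ 3 - w (t + θ) ^ 3 - θ * w (t + θ) ^ 2 * (-w (-t)) ^ 2) - d0) := by
    have s1 : Q r Λ κ 4 0 (fun t => (-w (-t)) * (-w (-t)) + (-w (-t)) * (-w0 (-t)) + (-w0 (-t)) * (-w0 (-t))) := by
      have c1 := qv.mul qv hΛ hκ hr (p := 2) (j := 0) (by norm_num) (by norm_num)
      have c2 := qv.mul qv0 hΛ hκ hr (p := 2) (j := 0) (by norm_num) (by norm_num)
      have c3 := qv0.mul qv0 hΛ hκ hr (p := 2) (j := 0) (by norm_num) (by norm_num)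
      exact (c1.add c2 hΛ hκ hr0 (p := 3) (by norm_num) (by norm_num)).add c3 hΛ hκ hr0
        (by norm_num) (by norm_num)
    have s2 : Q r Λ κ 4 0 (fun t => w (t + θ) * w (t + θ) + w (t + θ) * w0 t + w0 t * w0 t) := by
      have c1 := qU.mul qU hΛ hκ hr (p := 2) (j := 0) (by norm_num) (by norm_num)
      have c2 := qU.mul qw0 hΛ hκ hr (p := 2) (j := 0) (by norm_num) (by norm_num)
      have c3 := qw0.mul qw0 hΛ hκ hr (p := 2) (j := 0) (by norm_num) (by norm_num)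
      exact (c1.add c2 hΛ hκ hr0 (p := 3) (by norm_num) (by norm_num)).add c3 hΛ hκ hr0
        (by norm_num) (by norm_num)
    have s3 : Q r Λ κ 4 1 (fun t => (θ : ℂ) * ((w (t + θ) * w (t + θ)) * ((-w (-t)) * (-w (-t))))) := by
      have c1 := (qU.mul qU hΛ hκ hr (p := 2) (j := 0) (by norm_num) (by norm_num)).mul
        (qv.mul qv hΛ hκ hr (p := 2) (j := 0) (by norm_num) (by norm_num)) hΛ hκ hr (p := 4) (j := 0)
        (by norm_num) (by norm_num)
      have c4 := B.const_mul (θ : ℂ) c1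
      refine B.mono c4 hr0 le_rfl ?_
      rw [Complex.norm_real, Real.norm_of_nonneg hθ0.le]
      simp only [pow_zero, mul_one, pow_one]
      have : 0 ≤ Λ ^ 4 := by positivity
      nlinarith
    have c1 := qdv.mul s1 hΛ hκ hr (p := 4) (j := 1) (by norm_num) (by norm_num)
    have c2 := qUw.mul s2 hΛ hκ hr (p := 8) (j := 1) (by norm_num) (by norm_num)
    have c3 := (c1.sub c2 hΛ hκ hr0 (p := 9) (by norm_num) (by norm_num)).sub s3 hΛ hκ hr0 (p := 11)
      (by norm_num) (by norm_num)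
    have e : (fun t => ((-w (-t)) ^ 3 - w (t + θ) ^ 3 - θ * w (t + θ) ^ 2 * (-w (-t)) ^ 2) - d0)
        = fun t => -(w (-t) - w0 (-t)) *
        (-w (-t) * -w (-t) + -w (-t) * -w0 (-t) + -w0 (-t) * -w0 (-t)) -
        (w (t + θ) - w0 t) * (w (t + θ) * w (t + θ) + w (t + θ) * w0 t + w0 t * w0 t) -
        (θ : ℂ) * ((w (t + θ) * w (t + θ)) * ((-w (-t)) * (-w (-t)))) := by
      funext t
      rw [← hdet0 t]
      unfold det
      rw [hode t, hode (-t), neg_neg]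
      ring
    rw [e]; exact c3
  have qdDi : Q r Λ κ 2 0 (fun t => (det w w' t)⁻¹ * (det w w' (t + θ))⁻¹) :=
    qdi.mul qDi hΛ hκ hr (by norm_num) (by norm_num)
  have c1 := qN.mul qdDi hΛ hκ hr (p := 13) (j := 1) (by norm_num) (by norm_num)
  have c2 := (qd.shift θ).mul qdDi hΛ hκ hr (p := 5) (j := 1) (by norm_num) (by norm_num)
  have qc : Q r Λ κ 1 0 (fun _ => 1 / d0) := by
    refine B.mono (B.const (r := r) (1 / d0)) hr0 le_rfl ?_
    rw [norm_div, norm_one, pow_zero, mul_one, pow_one]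
    refine le_trans ?_ hdΛ
    gcongr; norm_num
  have c3 := (qd.mul qdi hΛ hκ hr (p := 4) (j := 1) (by norm_num) (by norm_num)).mul qc hΛ hκ hr
    (p := 5) (j := 1) (by norm_num) (by norm_num)
  have c4 := (c1.sub c2 hΛ hκ hr0 (p := 14) (by norm_num) (by norm_num)).sub c3 hΛ hκ hr0 (p := 15)
      (by norm_num) (by norm_num)
  have e : (fun t => tw θ w w' t - 1 / d0) = fun t =>
      (((-w (-t)) ^ 3 - w (t + θ) ^ 3 - θ * w (t + θ) ^ 2 * (-w (-t)) ^ 2) - d0) *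
        ((det w w' t)⁻¹ * (det w w' (t + θ))⁻¹) -
      (det w w' (t + θ) - d0) * ((det w w' t)⁻¹ * (det w w' (t + θ))⁻¹) -
      (det w w' t - d0) * (det w w' t)⁻¹ * (1 / d0) := by
    funext t
    have h1 := hdne t
    have h2 := hdne (t + θ)
    unfold tw
    field_simp
    ring
  rw [e]
  refine B.mono c4 hr0 le_rfl ?_
  rw [pow_one, le_div_iff₀ (by positivity)]
  calc Λ ^ 15 * κ * (2 * ‖d0‖) ≤ Λ ^ 15 * κ * Λ := by gcongr
    _ = Λ ^ 16 * κ := by ring
    _ ≤ 1 := hsmall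

end Pool.Agent.Helper649
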