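import Pool.Agent.Helper649.KamClose

set_option autoImplicit false

namespace Pool.Agent.Helper649

open Filter Topology

/-- The state after some Newton steps. -/
structure St (θ : ℝ) (w0 w0' : ℝ → ℂ) (r ρ ε : ℝ) (x : (ℝ → ℂ) × (ℝ → ℂ) × (ℝ → ℂ)) : Prop where
  der : ∀ t, HasDerivAt x.1 (x.2.1 t) t
  cl : B r ρ (fun t => x.1 t - w0 t)
  cl' : B r ρ (fun t => x.2.1 t - w0' t)
  er : B r ε x.2.2
  eq : ∀ t, x.1 (t + θ) - x.1 t = θ * ((-x.1 (-t)) ^ 2 + x.2.2 t)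

/-- The step of the iteration. -/
lemma iter_step (L G θ κ R σ ε0 K : ℝ) (n : ℕ) (d0 : ℂ) (w0 w0' e0 : ℝ → ℂ)
    (hL : 2 ≤ L) (hLπ : 2 * Real.pi ≤ L) (hG0 : 0 ≤ G) (hGL : G ≤ L)
    (hR : 1 < R) (hσ : σ = (R - 1) / (10 * R)) (hσL : 1 / σ ≤ L)
    (hκ : 0 ≤ κ) (hθ0 : 0 < θ) (hθκ : θ ≤ κ) (hd0 : d0 ≠ 0)
    (hdL : 2 / ‖d0‖ ≤ L) (hdL' : 2 * ‖d0‖ ≤ L) (hsmall : L ^ 16 * κ ≤ 1)
    (hε0 : 0 ≤ ε0) (hε1 : L ^ 38 * 2 ^ 76 * ε0 ≤ 1) (hK : K = L ^ 20 * 2 ^ 20 * ε0) (hKκ : 2 * K ≤ κ)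
    (hw0 : B R (L / 2) w0) (hw0' : B R (L / 2) w0')
    (hode : ∀ t, w0' t = w0 (-t) ^ 2) (hdet0 : ∀ t, det w0 w0' t = d0)
    (he0 : B R 1 e0) (heq0 : ∀ t, w0 (t + θ) - w0 t = θ * ((-w0 (-t)) ^ 2 + e0 t))
    (hdiv : ∀ k : ℤ, k ≠ 0 → 1 ≤ (G / θ) * k ^ 2 * ‖ch k θ - 1‖)
    (x : (ℝ → ℂ) × (ℝ → ℂ) × (ℝ → ℂ))
    (hx : St θ w0 w0' (R * (1 - 5 * σ * (1 - (1 / 2) ^ n))) (2 * K * (1 - (1 / 2) ^ n))
      (ε0 * (1 / 2) ^ (38 * n)) x) :
    ∃ y : (ℝ → ℂ) × (ℝ → ℂ) × (ℝ → ℂ),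
      St θ w0 w0' (R * (1 - 5 * σ * (1 - (1 / 2) ^ (n + 1)))) (2 * K * (1 - (1 / 2) ^ (n + 1)))
      (ε0 * (1 / 2) ^ (38 * (n + 1))) y ∧
      B ((R + 1) / 2) (K * (1 / 2) ^ n) (fun t => y.1 t - x.1 t) := by
  have hR0 : 0 < R := by linarith
  have hσ0 : 0 < σ := by rw [hσ]; apply div_pos <;> linarith
  have hσR : σ * R = (R - 1) / 10 := by rw [hσ]; field_simp
  have hσ1 : σ < 1 / 10 := by
    rw [hσ, div_lt_div_iff₀ (by linarith) (by norm_num)]; linarith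
  set q : ℝ := (1 / 2) ^ n with hq
  have hq0 : 0 < q := by positivity
  have hq1 : q ≤ 1 := pow_le_one₀ (by norm_num) (by norm_num)
  have hqs : (1 / 2 : ℝ) ^ (n + 1) = q / 2 := by rw [pow_succ, ← hq]; ring
  set r : ℝ := R * (1 - 5 * σ * (1 - q)) with hr
  have hr_lb : (R + 1) / 2 ≤ r := by
    have : r = R - 5 * (σ * R) * (1 - q) := by rw [hr]; ring
    rw [this, hσR]; nlinarith
  have hr_ub : r ≤ R := by
    rw [hr]
    have h1 : 0 ≤ 5 * σ * (1 - q) := by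
      have : 0 ≤ 1 - q := by linarith
      positivity
    nlinarith
  have hr1 : 1 ≤ r := by linarith
  have hr0 : 0 ≤ r := by linarith
  set s : ℝ := 1 - σ * (q / 2) with hs
  have hs1 : s < 1 := by rw [hs]; have : 0 < σ * (q / 2) := by positivity
                         linarith
  have hs0 : 0 < s := by
    rw [hs]
    have : σ * (q / 2) ≤ (1 / 10) * (1 / 2) := by
      apply mul_le_mul hσ1.le (by linarith) (by positivity) (by norm_num)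
    linarith
  set r1 : ℝ := R * (1 - 5 * σ * (1 - q / 2)) with hr1d
  have hr1_lb : (R + 1) / 2 ≤ r1 := by
    have : r1 = R - 5 * (σ * R) * (1 - q / 2) := by rw [hr1d]; ring
    rw [this, hσR]; nlinarith
  have hrs : r1 ≤ r * s ^ 5 := by
    have hb : 1 - 5 * (σ * (q / 2)) ≤ s ^ 5 := by
      have := one_add_mul_le_pow (a := -(σ * (q / 2))) (by
        have : σ * (q / 2) ≤ (1 / 10) * (1 / 2) := by
          apply mul_le_mul hσ1.le (by linarith) (by positivity) (by norm_num)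
        linarith) 5
      have e : 1 + -(σ * (q / 2)) = s := by rw [hs]; ring
      rw [e] at this
      push_cast at this
      linarith
    have h1 : r * (1 - 5 * (σ * (q / 2))) ≤ r * s ^ 5 := by gcongr
    refine le_trans ?_ h1
    have h2 : r * (σ * q) ≤ R * (σ * q) := by gcongr
    have e1 : r1 = R * (1 - 5 * σ * (1 - q)) - 5 / 2 * (R * (σ * q)) := by rw [hr1d]; ring
    have e2 : r * (1 - 5 * (σ * (q / 2))) = R * (1 - 5 * σ * (1 - q)) - 5 / 2 * (r * (σ * q)) := by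
      rw [hr]; ring
    rw [e1, e2]; linarith
  have hrs1 : 1 ≤ r * s ^ 5 := by linarith
  -- bounds
  have hcb := close_bounds L κ θ r d0 x.1 x.2.1 w0 w0' e0 hL hκ hθ0 hθκ hr1 hd0 hdL hdL' hsmall
    (hw0.mono hr0 hr_ub le_rfl) (hw0'.mono hr0 hr_ub le_rfl) hode hdet0 (he0.mono hr0 hr_ub le_rfl) heq0
    (hx.cl.mono hr0 le_rfl (by
      have hK0 : 0 ≤ K := by rw [hK]; positivity
      nlinarith))
    (hx.cl'.mono hr0 le_rfl (by
      have hK0 : 0 ≤ K := by rw [hK]; positivity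
      nlinarith))
  obtain ⟨hwB, hwB', hdet, htw⟩ := hcb
  have hΛL : L ≤ L * (2 / q) := by
    have : 1 ≤ 2 / q := by rw [le_div_iff₀ hq0]; linarith
    nlinarith
  have hθ1 : θ ≤ 1 := by
    have : 1 ≤ L ^ 16 := one_le_pow₀ (by linarith)
    nlinarith
  obtain ⟨δ, δ', e1, h1, h2, h3, h4, h5⟩ := kam_step (L * (2 / q)) G θ r s (ε0 * (1 / 2) ^ (38 * n)) d0 x.1 x.2.1 x.2.2
    (by linarith) (by linarith) hG0 (by linarith) hs0 hs1
    (by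
      have : 1 / (1 - s) = (1 / σ) * (2 / q) := by
        rw [hs]; field_simp; ring
      rw [this]; gcongr) hθ0 hθ1 hd0 (by linarith) (by linarith) hrs1 hr0 hdiv (by positivity) hx.der
    (hwB.mono hr0 le_rfl hΛL) (hwB'.mono hr0 le_rfl hΛL) hx.er hx.eq hdet htw
  have hq38 : (1 / 2 : ℝ) ^ (38 * n) = q ^ 38 := by rw [hq, ← pow_mul, mul_comm]
  have hq38' : (1 / 2 : ℝ) ^ (38 * (n + 1)) = (q / 2) ^ 38 := by
    rw [← hqs, ← pow_mul, mul_comm]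
  have hδle : (L * (2 / q)) ^ 20 * (ε0 * (1 / 2) ^ (38 * n)) ≤ K * q := by
    rw [hq38, hK]
    have e : (L * (2 / q)) ^ 20 * (ε0 * q ^ 38) = L ^ 20 * 2 ^ 20 * ε0 * (q ^ 18) := by
      field_simp
    rw [e]
    have : q ^ 18 ≤ q := by
      calc q ^ 18 ≤ q ^ 1 := pow_le_pow_of_le_one hq0.le hq1 (by norm_num)
        _ = q := pow_one q
    have hL0 : 0 ≤ L := by linarith
    gcongr
  have hele : (L * (2 / q)) ^ 38 * (ε0 * (1 / 2) ^ (38 * n)) ^ 2 ≤ ε0 * (q / 2) ^ 38 := by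
    rw [hq38]
    have e : (L * (2 / q)) ^ 38 * (ε0 * q ^ 38) ^ 2 = (L ^ 38 * 2 ^ 76 * ε0) * (ε0 * (q / 2) ^ 38) := by
      field_simp
    rw [e]
    have : 0 ≤ ε0 * (q / 2) ^ 38 := by positivity
    nlinarith
  have hr10 : 0 ≤ r1 := by linarith
  have hδB : B r1 (K * q) δ := h3.mono hr10 hrs hδle
  have hδB' : B r1 (K * q) δ' := h4.mono hr10 hrs hδle
  have hr1r : r1 ≤ r := by
    have h1 : s ^ 5 ≤ 1 := pow_le_one₀ hs0.le hs1.le
    nlinarith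
  have hρ : 2 * K * (1 - q) + K * q = 2 * K * (1 - q / 2) := by ring
  refine ⟨(fun t => x.1 t + δ t, fun t => x.2.1 t + δ' t, e1), ⟨?_, ?_, ?_, ?_, ?_⟩, ?_⟩
  · intro t
    exact (hx.der t).add (h1 t)
  · rw [hqs, ← hρ]
    have := (hx.cl.mono hr10 hr1r le_rfl).add hr10 hδB
    have e : (fun t => x.1 t - w0 t + δ t) = fun t => (x.1 t + δ t) - w0 t := by funext t; ring
    rw [e] at this
    exact this
  · rw [hqs, ← hρ]
    have := (hx.cl'.mono hr10 hr1r le_rfl).add hr10 hδB'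
    have e : (fun t => x.2.1 t - w0' t + δ' t) = fun t => (x.2.1 t + δ' t) - w0' t := by funext t; ring
    rw [e] at this
    exact this
  · rw [hqs, hq38']
    exact h5.mono hr10 hrs hele
  · exact h2
  · have := hδB.mono (by linarith) hr1_lb le_rfl
    have e : (fun t => x.1 t + δ t - x.1 t) = δ := by funext t; ring
    simp only [e]
    exact this

/-- The Newton iteration converges. -/
theorem kam_converge (L G θ κ R σ ε0 K : ℝ) (d0 : ℂ) (w0 w0' e0 : ℝ → ℂ)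
    (hL : 2 ≤ L) (hLπ : 2 * Real.pi ≤ L) (hG0 : 0 ≤ G) (hGL : G ≤ L)
    (hR : 1 < R) (hσ : σ = (R - 1) / (10 * R)) (hσL : 1 / σ ≤ L)
    (hκ : 0 ≤ κ) (hθ0 : 0 < θ) (hθκ : θ ≤ κ) (hd0 : d0 ≠ 0)
    (hdL : 2 / ‖d0‖ ≤ L) (hdL' : 2 * ‖d0‖ ≤ L) (hsmall : L ^ 16 * κ ≤ 1)
    (hε0 : 0 ≤ ε0) (hε1 : L ^ 38 * 2 ^ 76 * ε0 ≤ 1) (hε2 : ε0 ≤ 1) (hK : K = L ^ 20 * 2 ^ 20 * ε0) (hKκ : 2 * K ≤ κ)
    (hder : ∀ t, HasDerivAt w0 (w0' t) t)
    (hw0 : B R (L / 2) w0) (hw0' : B R (L / 2) w0')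
    (hode : ∀ t, w0' t = w0 (-t) ^ 2) (hdet0 : ∀ t, det w0 w0' t = d0)
    (he0 : B R ε0 e0) (heq0 : ∀ t, w0 (t + θ) - w0 t = θ * ((-w0 (-t)) ^ 2 + e0 t))
    (hdiv : ∀ k : ℤ, k ≠ 0 → 1 ≤ (G / θ) * k ^ 2 * ‖ch k θ - 1‖) :
    ∃ w : ℝ → ℂ, (∃ M, B ((R + 1) / 2) M w) ∧ (∀ t, w (t + θ) - w t = θ * w (-t) ^ 2) ∧
      ∀ t, ‖w t - w0 t‖ ≤ κ := by
  have hK0 : 0 ≤ K := by rw [hK]; positivity
  have hR0 : 0 < R := by linarith
  have hP : ∀ (n : ℕ) (x : {x : (ℝ → ℂ) × (ℝ → ℂ) × (ℝ → ℂ) // St θ w0 w0' (R * (1 - 5 * σ * (1 - (1 / 2) ^ n)))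
      (2 * K * (1 - (1 / 2) ^ n)) (ε0 * (1 / 2) ^ (38 * n)) x}),
      ∃ y : {x : (ℝ → ℂ) × (ℝ → ℂ) × (ℝ → ℂ) // St θ w0 w0' (R * (1 - 5 * σ * (1 - (1 / 2) ^ (n + 1))))
      (2 * K * (1 - (1 / 2) ^ (n + 1))) (ε0 * (1 / 2) ^ (38 * (n + 1))) x},
      B ((R + 1) / 2) (K * (1 / 2) ^ n) (fun t => y.1.1 t - x.1.1 t) := by
    intro n x
    obtain ⟨y, hy1, hy2⟩ := iter_step L G θ κ R σ ε0 K n d0 w0 w0' e0 hL hLπ hG0 hGL hR hσ hσL hκ hθ0 hθκ hd0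
      hdL hdL' hsmall hε0 hε1 hK hKκ hw0 hw0' hode hdet0 (he0.mono hR0.le le_rfl hε2) heq0 hdiv x.1 x.2
    exact ⟨⟨y, hy1⟩, hy2⟩
  choose F hF using hP
  have h0 : St θ w0 w0' (R * (1 - 5 * σ * (1 - (1 / 2) ^ 0))) (2 * K * (1 - (1 / 2) ^ 0))
      (ε0 * (1 / 2) ^ (38 * 0)) (w0, w0', e0) := by
    have hz : ∀ f : ℝ → ℂ, B R 0 (fun t => f t - f t) := by
      intro f
      have := B.const (r := R) (0 : ℂ)
      rw [norm_zero] at this
      have e : (fun t => f t - f t) = fun _ => (0 : ℂ) := by funext t; ring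
      rw [e]; exact this
    refine ⟨hder, ?_, ?_, ?_, heq0⟩
    · simpa using hz w0
    · simpa using hz w0'
    · simpa using he0
  let X : (n : ℕ) → {x : (ℝ → ℂ) × (ℝ → ℂ) × (ℝ → ℂ) // St θ w0 w0' (R * (1 - 5 * σ * (1 - (1 / 2) ^ n)))
      (2 * K * (1 - (1 / 2) ^ n)) (ε0 * (1 / 2) ^ (38 * n)) x} :=
    fun n => Nat.rec ⟨_, h0⟩ (fun n x => F n x) n
  have hX : ∀ n, X (n + 1) = F n (X n) := fun n => rfl
  have hX0 : (X 0).1 = (w0, w0', e0) := rfl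
  obtain ⟨w, hw⟩ : ∃ w : ℕ → ℝ → ℂ, w = fun n => (X n).1.1 := ⟨_, rfl⟩
  obtain ⟨e, he⟩ : ∃ e : ℕ → ℝ → ℂ, e = fun n => (X n).1.2.2 := ⟨_, rfl⟩
  have hw00 : w 0 = w0 := by
    rw [hw]
    show (X 0).1.1 = w0
    rw [hX0]
  have hδ : ∀ n, B ((R + 1) / 2) (K * (1 / 2) ^ n) (fun t => w (n + 1) t - w n t) := by
    intro n
    have := hF n (X n)
    rw [← hX n] at this
    rw [hw]; exact this
  have hE : ∀ n, B ((R + 1) / 2) (ε0 * (1 / 2) ^ (38 * n)) (e n) := by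
    intro n
    rw [he]
    refine (X n).2.er.mono (by linarith) ?_ le_rfl
    have hσR : σ * R = (R - 1) / 10 := by rw [hσ]; field_simp
    have hq0 : 0 < (1 / 2 : ℝ) ^ n := by positivity
    have hq1 : (1 / 2 : ℝ) ^ n ≤ 1 := pow_le_one₀ (by norm_num) (by norm_num)
    have : R * (1 - 5 * σ * (1 - (1 / 2) ^ n)) = R - 5 * (σ * R) * (1 - (1 / 2) ^ n) := by ring
    rw [this, hσR]; nlinarith
  have hEq : ∀ n t, w n (t + θ) - w n t = θ * ((-w n (-t)) ^ 2 + e n t) := by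
    intro n t
    rw [hw, he]
    exact (X n).2.eq t
  have hR1 : 1 ≤ (R + 1) / 2 := by linarith
  have hsum : Summable (fun n : ℕ => K * (1 / 2 : ℝ) ^ n) :=
    (summable_geometric_of_lt_one (by norm_num) (by norm_num)).mul_left K
  have hT := B.tsum hR1 hsum hδ
  have htot : ∑' n : ℕ, K * (1 / 2 : ℝ) ^ n = 2 * K := by
    rw [tsum_mul_left, tsum_geometric_of_lt_one (by norm_num) (by norm_num)]; norm_num; ring
  rw [htot] at hT
  have hlim : ∀ t, Tendsto (fun n => w n t) atTop (𝓝 (w0 t + ∑' n, (w (n + 1) t - w n t))) := by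
    intro t
    have hs : Summable (fun n => w (n + 1) t - w n t) :=
      Summable.of_norm_bounded hsum (fun n => (hδ n).norm_le hR1 t)
    have h1 := hs.hasSum.tendsto_sum_nat
    have h2 : (fun n => ∑ i ∈ Finset.range n, (w (i + 1) t - w i t)) = fun n => w n t - w0 t := by
      funext n
      rw [Finset.sum_range_sub (fun i => w i t), hw00]
    rw [h2] at h1
    have h3 := h1.const_add (w0 t)
    have h4 : (fun n => w0 t + (w n t - w0 t)) = fun n => w n t := by funext n; ring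
    rw [h4] at h3
    exact h3
  have helim : ∀ t, Tendsto (fun n => e n t) atTop (𝓝 0) := by
    intro t
    rw [tendsto_zero_iff_norm_tendsto_zero]
    refine squeeze_zero (fun n => norm_nonneg _) (fun n => (hE n).norm_le hR1 t) ?_
    have h1 : Tendsto (fun n : ℕ => ((1 / 2 : ℝ) ^ 38) ^ n) atTop (𝓝 0) :=
      tendsto_pow_atTop_nhds_zero_of_lt_one (by positivity) (by norm_num)
    have h2 := h1.const_mul ε0
    rw [mul_zero] at h2
    refine h2.congr (fun n => ?_)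
    rw [pow_mul]
  refine ⟨fun t => w0 t + ∑' n, (w (n + 1) t - w n t), ⟨_, (hw0.mono (by linarith) (by linarith) le_rfl).add (by linarith) hT⟩, ?_, ?_⟩
  · intro t
    have l1 := (hlim (t + θ)).sub (hlim t)
    have l2 := ((((hlim (-t)).neg).pow 2).add (helim t)).const_mul (θ : ℂ)
    have e1 : (fun n => w n (t + θ) - w n t) = fun n => (θ : ℂ) * ((-w n (-t)) ^ 2 + e n t) := by
      funext n; exact hEq n t
    rw [e1] at l1
    have := tendsto_nhds_unique l1 l2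
    simp only at this ⊢
    rw [this]; ring
  · intro t
    have h1 := hT.norm_le hR1 t
    have h2 : w0 t + ∑' n, (w (n + 1) t - w n t) - w0 t = ∑' n, (w (n + 1) t - w n t) := by ring
    rw [h2]; linarith

end Pool.Agent.Helper649
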