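import Pool.Agent.Helper649.KamIter

set_option autoImplicit false

namespace Pool.Agent.Helper649

open Filter Topology

lemma norm_ch_taylor (k : ℤ) (θ : ℝ) :
    ‖ch k θ - 1 - 2 * Real.pi * Complex.I * k * θ‖ ≤ 120 * (k : ℝ) ^ 2 * θ ^ 2 := by
  set z : ℂ := 2 * Real.pi * Complex.I * k * θ with hz
  have hzn : ‖z‖ = 2 * Real.pi * |(k : ℝ)| * |θ| := by
    rw [hz, norm_mul, norm_mul, norm_mul, norm_mul]
    simp only [Complex.norm_I, mul_one, Complex.norm_ofNat, Complex.norm_real, Real.norm_eq_abs,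
      Complex.norm_intCast]
    rw [abs_of_pos Real.pi_pos]
  have hch : ch k θ = Complex.exp z := rfl
  have hπ : Real.pi ^ 2 ≤ 10 := by
    have := Real.pi_lt_d2
    have := Real.pi_pos
    nlinarith
  have hfin : 3 * ‖z‖ ^ 2 ≤ 120 * (k : ℝ) ^ 2 * θ ^ 2 := by
    rw [hzn]
    have e : 3 * (2 * Real.pi * |(k : ℝ)| * |θ|) ^ 2 = 12 * Real.pi ^ 2 * ((k : ℝ) ^ 2 * θ ^ 2) := by
      rw [mul_pow, mul_pow, mul_pow, sq_abs, sq_abs]; ring
    rw [e]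
    have : 0 ≤ (k : ℝ) ^ 2 * θ ^ 2 := by positivity
    nlinarith
  refine le_trans ?_ hfin
  rw [hch]
  by_cases h : ‖z‖ ≤ 1
  · have := Complex.norm_exp_sub_one_sub_id_le h
    nlinarith [sq_nonneg ‖z‖]
  · push Not at h
    have h1 : ‖Complex.exp z - 1 - z‖ ≤ ‖Complex.exp z‖ + 1 + ‖z‖ := by
      calc ‖Complex.exp z - 1 - z‖ ≤ ‖Complex.exp z - 1‖ + ‖z‖ := norm_sub_le _ _
        _ ≤ ‖Complex.exp z‖ + ‖(1 : ℂ)‖ + ‖z‖ := by gcongr; exact norm_sub_le _ _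
        _ = _ := by rw [norm_one]
    have h2 : ‖Complex.exp z‖ = 1 := by rw [← hch, norm_ch]
    rw [h2] at h1
    nlinarith

lemma init_error {R M s θ : ℝ} {w w' : ℝ → ℂ} (hw : B R M w) (hd : ∀ t, HasDerivAt w (w' t) t)
    (hs0 : 0 < s) (hs1 : s < 1) (hR : 0 ≤ R) (hrs : 1 ≤ R * s ^ 2) (hθ : 0 < θ) :
    B (R * s ^ 2) (120 * θ / (1 - s) ^ 2 * M) (fun t => (w (t + θ) - w t) / θ - w' t) := by
  obtain ⟨a, ha⟩ := hw
  have h1s : 0 < 1 - s := by linarith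
  have hrs1 : 1 ≤ R * s := by
    have : R * s ^ 2 ≤ R * s := by
      have : s ^ 2 ≤ s := by nlinarith
      gcongr
    linarith
  have hle : ∀ k : ℤ, ‖a k * ((ch k θ - 1) / θ - 2 * Real.pi * Complex.I * k)‖ * (R * s ^ 2) ^ k.natAbs
      ≤ (120 * θ / (1 - s) ^ 2) * (‖a k‖ * R ^ k.natAbs) := by
    intro k
    have h2 := nat_mul_pow_le hs0.le hs1 k.natAbs
    have hk2 : ((k : ℝ)) ^ 2 = (k.natAbs : ℝ) ^ 2 := by
      rw [Nat.cast_natAbs, Int.cast_abs, sq_abs]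
    have h3 : 0 ≤ (k.natAbs : ℝ) * s ^ k.natAbs := by positivity
    have h4 : ((k.natAbs : ℝ) * s ^ k.natAbs) ^ 2 ≤ 1 / (1 - s) ^ 2 := by
      rw [← one_div_pow]
      exact pow_le_pow_left₀ h3 h2 2
    have h5 : ‖(ch k θ - 1) / θ - 2 * Real.pi * Complex.I * k‖ ≤ 120 * (k : ℝ) ^ 2 * θ := by
      have hθc : (θ : ℂ) ≠ 0 := by exact_mod_cast hθ.ne'
      have e : (ch k θ - 1) / θ - 2 * Real.pi * Complex.I * k
          = (ch k θ - 1 - 2 * Real.pi * Complex.I * k * θ) / θ := by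
        field_simp
      rw [e, norm_div, Complex.norm_real, Real.norm_of_nonneg hθ.le, div_le_iff₀ hθ]
      have := norm_ch_taylor k θ
      linarith
    rw [norm_mul, mul_pow]
    calc ‖a k‖ * ‖(ch k θ - 1) / θ - 2 * Real.pi * Complex.I * k‖ * (R ^ k.natAbs * (s ^ 2) ^ k.natAbs)
        ≤ ‖a k‖ * (120 * (k : ℝ) ^ 2 * θ) * (R ^ k.natAbs * (s ^ 2) ^ k.natAbs) := by gcongr
      _ = (‖a k‖ * R ^ k.natAbs) * (120 * θ) * (((k.natAbs : ℝ) * s ^ k.natAbs) ^ 2) := by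
          rw [hk2, mul_pow, ← pow_mul, ← pow_mul, mul_comm k.natAbs 2]; ring
      _ ≤ (‖a k‖ * R ^ k.natAbs) * (120 * θ) * (1 / (1 - s) ^ 2) := by gcongr
      _ = _ := by ring
  have hb := ha.of_coef (b := fun k => a k * ((ch k θ - 1) / θ - 2 * Real.pi * Complex.I * k))
    (r' := R * s ^ 2) (by positivity) hrs hle
  refine ⟨_, hb.1, hb.2.1, fun t => ?_⟩
  obtain ⟨f', hf1, hf2⟩ := ha.deriv hs0 hs1 hrs1
  have hf' : f' t = w' t := (hf1 t).unique (hd t)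
  have s1 := hf2.2.2 t
  rw [hf'] at s1
  have s2 := ((ha.2.2 (t + θ)).sub (ha.2.2 t)).div_const (θ : ℂ)
  have s3 := s2.sub s1
  have e : (fun b : ℤ => (a b * ch b (t + θ) - a b * ch b t) / (θ : ℂ)
      - (fun k : ℤ => 2 * Real.pi * Complex.I * k * a k) b * ch b t)
      = fun k => (a k * ((ch k θ - 1) / θ - 2 * Real.pi * Complex.I * k)) * ch k t := by
    funext k
    simp only
    rw [ch_add]
    ring
  rw [e] at s3
  exact s3

/-- For all small Diophantine rotation numbers the functional equation has an analytic solution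
near the unperturbed one. -/
theorem kam_main {R0 M0 G η : ℝ} {d0 : ℂ} {w0 w0' : ℝ → ℂ} (hR0 : 1 < R0) (hw0 : B R0 M0 w0)
    (hder : ∀ t, HasDerivAt w0 (w0' t) t) (hode : ∀ t, w0' t = w0 (-t) ^ 2)
    (hd0 : d0 ≠ 0) (hdet0 : ∀ t, det w0 w0' t = d0) (hG : 0 ≤ G) (hη : 0 < η) :
    ∃ θ0 : ℝ, 0 < θ0 ∧ ∀ θ : ℝ, 0 < θ → θ < θ0 →
      (∀ k : ℤ, k ≠ 0 → 1 ≤ (G / θ) * k ^ 2 * ‖ch k θ - 1‖) →
      ∃ r : ℝ, 1 < r ∧ ∃ (M : ℝ) (w : ℝ → ℂ), B r M w ∧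
        (∀ t, w (t + θ) - w t = θ * w (-t) ^ 2) ∧ ∀ t, ‖w t - w0 t‖ ≤ η := by
  have hR00 : 0 < R0 := by linarith
  obtain ⟨s, hs⟩ : ∃ s : ℝ, s = (1 + 1 / R0) / 2 := ⟨_, rfl⟩
  have hx1 : 1 / R0 < 1 := by rw [div_lt_one hR00]; exact hR0
  have hx0 : 0 < 1 / R0 := by positivity
  have hs0 : 0 < s := by rw [hs]; linarith
  have hs1 : s < 1 := by rw [hs]; linarith
  obtain ⟨R, hRd⟩ : ∃ R : ℝ, R = R0 * s ^ 2 := ⟨_, rfl⟩
  have hR : 1 < R := by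
    have h1 : 1 / R0 < s ^ 2 := by
      rw [hs]; nlinarith [sq_nonneg (1 - 1 / R0), mul_pos (sub_pos.mpr hx1) (sub_pos.mpr hx1)]
    rw [div_lt_iff₀ hR00] at h1
    rw [hRd]; linarith
  have hRR : R ≤ R0 := by
    rw [hRd]
    have : s ^ 2 ≤ 1 := pow_le_one₀ hs0.le hs1.le
    nlinarith
  have hM0 : 0 ≤ M0 := hw0.nonneg hR00.le
  have hw0' : B R0 (M0 ^ 2) w0' := by
    have := (hw0.refl).pow hR0.le 2
    have e : (fun t => w0 (-t) ^ 2) = w0' := by funext t; rw [hode t]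
    rw [e] at this; exact this
  have hd0pos : 0 < ‖d0‖ := norm_pos_iff.mpr hd0
  obtain ⟨σ, hσ⟩ : ∃ σ : ℝ, σ = (R - 1) / (10 * R) := ⟨_, rfl⟩
  have hσ0 : 0 < σ := by rw [hσ]; apply div_pos <;> linarith
  obtain ⟨L, hL⟩ : ∃ L : ℝ, L = 2 + 2 * Real.pi + G + 1 / σ + 2 / ‖d0‖ + 2 * ‖d0‖ + 2 * M0 + 2 * M0 ^ 2 :=
    ⟨_, rfl⟩
  have p1 := Real.pi_pos
  have p2 : 0 < 1 / σ := by positivity
  have p3 : 0 < 2 / ‖d0‖ := by positivity
  have p4 : 0 ≤ M0 ^ 2 := by positivity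
  have hL2 : 2 ≤ L := by rw [hL]; linarith
  have hLπ : 2 * Real.pi ≤ L := by rw [hL]; linarith
  have hLG : G ≤ L := by rw [hL]; linarith
  have hLσ : 1 / σ ≤ L := by rw [hL]; linarith
  have hLd : 2 / ‖d0‖ ≤ L := by rw [hL]; linarith
  have hLd' : 2 * ‖d0‖ ≤ L := by rw [hL]; linarith
  have hLM : M0 ≤ L / 2 := by rw [hL]; linarith
  have hLM' : M0 ^ 2 ≤ L / 2 := by rw [hL]; linarith
  have hL0 : 0 < L := by linarith
  obtain ⟨C, hC⟩ : ∃ C : ℝ, C = 120 / (1 - s) ^ 2 * M0 + 1 := ⟨_, rfl⟩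
  have h1s : 0 < 1 - s := by linarith
  have hC0 : 0 < C := by rw [hC]; positivity
  obtain ⟨D, hD⟩ : ∃ D : ℝ, D = L ^ 20 * 2 ^ 21 * C + 1 := ⟨_, rfl⟩
  have hD0 : 0 < D := by rw [hD]; positivity
  refine ⟨min (min (1 / (L ^ 16 * D)) (1 / (L ^ 38 * 2 ^ 76 * C))) (min (1 / C) (η / D)), by positivity, ?_⟩
  intro θ hθ0 hθ1 hdiv
  rw [lt_min_iff, lt_min_iff, lt_min_iff] at hθ1
  obtain ⟨⟨t1, t2⟩, t3, t4⟩ := hθ1
  rw [lt_div_iff₀ (by positivity)] at t1 t2 t3 t4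
  have hθc : (θ : ℂ) ≠ 0 := by exact_mod_cast hθ0.ne'
  have he := init_error hw0 hder hs0 hs1 hR00.le (by rw [← hRd]; exact hR.le) hθ0
  rw [← hRd] at he
  have he2 : B R (C * θ) (fun t => (w0 (t + θ) - w0 t) / θ - w0' t) := by
    refine he.mono (by linarith) le_rfl ?_
    rw [hC]
    have : 120 * θ / (1 - s) ^ 2 * M0 = 120 / (1 - s) ^ 2 * M0 * θ := by ring
    rw [this, add_mul]; linarith
  obtain ⟨w, ⟨M, hM⟩, hw2, hw3⟩ := kam_converge L G θ (D * θ) R σ (C * θ) (L ^ 20 * 2 ^ 20 * (C * θ)) d0 w0 w0'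
    (fun t => (w0 (t + θ) - w0 t) / θ - w0' t) hL2 hLπ hG hLG hR hσ hLσ (by positivity) hθ0
    (by
      rw [hD]
      have : 0 ≤ L ^ 20 * 2 ^ 21 * C := by positivity
      nlinarith) hd0 hLd hLd' (by linarith) (by positivity) (by linarith) (by linarith) rfl
    (by rw [hD]; nlinarith) hder (hw0.mono (by linarith) hRR hLM) (hw0'.mono (by linarith) hRR hLM')
    hode hdet0 he2
    (by
      intro t
      rw [hode t]
      field_simp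
      ring) hdiv
  exact ⟨(R + 1) / 2, by linarith, M, w, hM, hw2, fun t => (hw3 t).trans (by linarith)⟩

end Pool.Agent.Helper649
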