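import Pool.Agent.Helper649.WienerB

set_option autoImplicit false

namespace Pool.Agent.Helper649

/-- The pointwise algebraic identity behind one Newton step. -/
lemma kam_identity (θ w v w' v' e e' et et' U V P R d D a b g2 g1 g1s T Ks : ℂ)
    (hw : w = U - θ * (v ^ 2 + e)) (hV : V = v + θ * (U ^ 2 + et))
    (hw' : w' = P - θ * (2 * v * v' + e')) (hR : R = v' + θ * (2 * U * P + et'))
    (hd : d = w' * v - v' * w) (hD : D = P * V - R * U) (hd0 : d ≠ 0) (hD0 : D ≠ 0)
    (hg2 : g2 = θ * (v' * e - P * et))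
    (hg1 : g1 = θ * (-(e * v) + et * U + θ * U ^ 2 * e) * D⁻¹)
    (hg1s : g1s = θ * (et * U - e * v + θ * v ^ 2 * et) * d⁻¹)
    (hT : T = θ * (v ^ 3 - U ^ 3 - θ * U ^ 2 * v ^ 2) * (d⁻¹ * D⁻¹))
    (hKs : Ks = ((T * b + g1) + (T * (b + g2) + g1s)) / 2) :
    ((U + ((a + Ks) * P + (b + g2) * D⁻¹ * U)) - (w + (a * w' + b * d⁻¹ * w)))
      = θ * ((v + (a * v' + b * d⁻¹ * v)) ^ 2 +
        (θ * e * (P * et - et' * U) * D⁻¹
          + b * (d⁻¹ * D⁻¹) * (U * (v' * e - e' * v - P * et + et' * U) - θ * v ^ 2 * (P * et - et' * U))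
          + a * e' + b * d⁻¹ * e
          + θ / 2 * P * (d⁻¹ * D⁻¹) * ((et * U - e * v) * ((P * et - et' * U) - (v' * e - e' * v))
              + θ * (v ^ 2 * et * (P * et - et' * U) - U ^ 2 * e * (v' * e - e' * v)))
          - (a * v' + b * d⁻¹ * v) ^ 2)) := by
  obtain ⟨di, hdi⟩ : ∃ di : ℂ, di = d⁻¹ := ⟨_, rfl⟩
  obtain ⟨Di, hDi⟩ : ∃ Di : ℂ, Di = D⁻¹ := ⟨_, rfl⟩
  have hddi : d * di = 1 := by rw [hdi]; exact mul_inv_cancel₀ hd0
  have hDDi : D * Di = 1 := by rw [hDi]; exact mul_inv_cancel₀ hD0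
  rw [← hdi] at hg1s hT ⊢
  rw [← hDi] at hg1 hT ⊢
  -- expansions of the determinants
  have hd' : d = P * v - v' * U - θ * v ^ 2 * v' + θ * (v' * e - e' * v) := by
    rw [hd, hw, hw']; ring
  have hD' : D = P * v - v' * U - θ * P * U ^ 2 + θ * (P * et - et' * U) := by
    rw [hD, hV, hR]; ring
  have h1 : g1 * P + g2 * Di * U = -(θ * e) + θ ^ 2 * e * (P * et - et' * U) * Di := by
    have : θ * (-(e * v) + et * U + θ * U ^ 2 * e) * P + θ * (v' * e - P * et) * U
        = -(θ * e) * D + θ ^ 2 * e * (P * et - et' * U) := by rw [hD']; ring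
    rw [hg1, hg2]
    linear_combination Di * this - (θ * e) * hDDi
  have h2 : T * b * P + b * Di * U - b * di * (U + θ * v ^ 2)
      = θ * (b * (di * Di) * (U * (v' * e - e' * v - P * et + et' * U) - θ * v ^ 2 * (P * et - et' * U))) := by
    have : θ * (v ^ 3 - U ^ 3 - θ * U ^ 2 * v ^ 2) * P + d * U - (U + θ * v ^ 2) * D
        = θ * (U * (v' * e - e' * v - P * et + et' * U) - θ * v ^ 2 * (P * et - et' * U)) := by
      rw [hD', hd']; ring
    rw [hT]
    linear_combination (b * di * Di) * this - (b * Di * U) * hddi + (b * di * (U + θ * v ^ 2)) * hDDi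
  have h3 : T * g2 + g1s - g1 = θ ^ 2 * (di * Di) * ((et * U - e * v) * ((P * et - et' * U) - (v' * e - e' * v))
              + θ * (v ^ 2 * et * (P * et - et' * U) - U ^ 2 * e * (v' * e - e' * v))) := by
    have : (v ^ 3 - U ^ 3 - θ * U ^ 2 * v ^ 2) * (θ * (v' * e - P * et))
        + (et * U - e * v + θ * v ^ 2 * et) * D - (-(e * v) + et * U + θ * U ^ 2 * e) * d
        = θ * ((et * U - e * v) * ((P * et - et' * U) - (v' * e - e' * v))
              + θ * (v ^ 2 * et * (P * et - et' * U) - U ^ 2 * e * (v' * e - e' * v))) := by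
      rw [hD', hd']; ring
    rw [hT, hg2, hg1s, hg1]
    linear_combination (θ * di * Di) * this - (θ * (et * U - e * v + θ * v ^ 2 * et) * di) * hDDi
      + (θ * (-(e * v) + et * U + θ * U ^ 2 * e) * Di) * hddi
  have hKs' : Ks = T * b + g1 + (T * g2 + g1s - g1) / 2 := by rw [hKs]; ring
  have hUw : U - w = θ * (v ^ 2 + e) := by rw [hw]; ring
  rw [hKs', h3]
  have hPw : P - w' = θ * (2 * v * v' + e') := by rw [hw']; ring
  linear_combination h1 + h2 + a * hPw + (1 + b * di) * hUw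

end Pool.Agent.Helper649
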