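import Pool.Agent.Helper649.KamStep

set_option autoImplicit false

namespace Pool.Agent.Helper649

/-- Bound by a power of a large constant times a power of the error. -/
def Q (r Λ ε : ℝ) (n k : ℕ) (f : ℝ → ℂ) : Prop := B r (Λ ^ n * ε ^ k) f

lemma Q.mono {r r' Λ ε : ℝ} {n k p : ℕ} {f : ℝ → ℂ} (h : Q r Λ ε n k f) (hΛ : 2 ≤ Λ) (hε : 0 ≤ ε)
    (hr' : 0 ≤ r') (hr : r' ≤ r) (hp : n ≤ p) : Q r' Λ ε p k f := by
  refine B.mono h hr' hr ?_
  have : Λ ^ n ≤ Λ ^ p := pow_le_pow_right₀ (by linarith) hp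
  gcongr

lemma Q.add {r Λ ε : ℝ} {n m k p : ℕ} {f g : ℝ → ℂ} (hf : Q r Λ ε n k f) (hg : Q r Λ ε m k g)
    (hΛ : 2 ≤ Λ) (hε : 0 ≤ ε) (hr : 0 ≤ r) (hn : n + 1 ≤ p) (hm : m + 1 ≤ p) :
    Q r Λ ε p k (fun t => f t + g t) := by
  have h := B.add hr hf hg
  refine B.mono h hr le_rfl ?_
  have hΛ1 : 1 ≤ Λ := by linarith
  have h1 : Λ ^ n ≤ Λ ^ (p - 1) := pow_le_pow_right₀ hΛ1 (by omega)
  have h2 : Λ ^ m ≤ Λ ^ (p - 1) := pow_le_pow_right₀ hΛ1 (by omega)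
  have h3 : Λ ^ p = Λ ^ (p - 1) * Λ := by rw [← pow_succ]; congr 1; omega
  have hx : 0 ≤ ε ^ k := by positivity
  have h4 : 0 ≤ Λ ^ (p - 1) := by positivity
  rw [← add_mul]
  have : Λ ^ n + Λ ^ m ≤ Λ ^ p := by
    rw [h3]; nlinarith
  gcongr

lemma Q.neg {r Λ ε : ℝ} {n k : ℕ} {f : ℝ → ℂ} (hf : Q r Λ ε n k f) : Q r Λ ε n k (fun t => -f t) :=
  B.neg hf

lemma Q.sub {r Λ ε : ℝ} {n m k p : ℕ} {f g : ℝ → ℂ} (hf : Q r Λ ε n k f) (hg : Q r Λ ε m k g)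
    (hΛ : 2 ≤ Λ) (hε : 0 ≤ ε) (hr : 0 ≤ r) (hn : n + 1 ≤ p) (hm : m + 1 ≤ p) :
    Q r Λ ε p k (fun t => f t - g t) := by
  have := hf.add hg.neg hΛ hε hr hn hm
  simpa [sub_eq_add_neg] using this

lemma Q.mul {r Λ ε : ℝ} {n m k l p j : ℕ} {f g : ℝ → ℂ} (hf : Q r Λ ε n k f) (hg : Q r Λ ε m l g)
    (hΛ : 2 ≤ Λ) (hε : 0 ≤ ε) (hr : 1 ≤ r) (hn : n + m ≤ p) (hm : k + l = j) :
    Q r Λ ε p j (fun t => f t * g t) := by
  have h := B.mul hr hf hg
  have e : Λ ^ n * ε ^ k * (Λ ^ m * ε ^ l) = Λ ^ (n + m) * ε ^ j := by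
    rw [← hm, pow_add, pow_add]; ring
  rw [e] at h
  exact Q.mono h hΛ hε (by linarith) le_rfl hn

lemma Q.cmul {r Λ ε : ℝ} {n k : ℕ} {f : ℝ → ℂ} (c : ℂ) (hc : ‖c‖ ≤ 1) (hf : Q r Λ ε n k f)
    (hΛ : 2 ≤ Λ) (hε : 0 ≤ ε) (hr : 0 ≤ r) :
    Q r Λ ε n k (fun t => c * f t) := by
  have h := B.const_mul c hf
  refine B.mono h hr le_rfl ?_
  have : 0 ≤ Λ ^ n * ε ^ k := by positivity
  nlinarith

lemma Q.shift {r Λ ε : ℝ} {n k : ℕ} {f : ℝ → ℂ} (s : ℝ) (hf : Q r Λ ε n k f) :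
    Q r Λ ε n k (fun t => f (t + s)) := B.shift s hf

lemma Q.refl {r Λ ε : ℝ} {n k : ℕ} {f : ℝ → ℂ} (hf : Q r Λ ε n k f) :
    Q r Λ ε n k (fun t => f (-t)) := B.refl hf

lemma Q.refl_shift {r Λ ε : ℝ} {n k : ℕ} {f : ℝ → ℂ} (s : ℝ) (hf : Q r Λ ε n k f) :
    Q r Λ ε n k (fun t => f (-t - s)) := B.refl_shift s hf

/-- The determinant. -/
noncomputable def det (w w' : ℝ → ℂ) (t : ℝ) : ℂ := w' t * (-w (-t)) - w' (-t) * w t

/-- The normalised twist. -/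
noncomputable def tw (θ : ℝ) (w w' : ℝ → ℂ) (t : ℝ) : ℂ :=
  ((-w (-t)) ^ 3 - w (t + θ) ^ 3 - θ * w (t + θ) ^ 2 * (-w (-t)) ^ 2)
    * ((det w w' t)⁻¹ * (det w w' (t + θ))⁻¹)

lemma det_even (w w' : ℝ → ℂ) (t : ℝ) : det w w' (-t) = det w w' t := by
  unfold det; simp only [neg_neg]; ring

lemma tw_symm (θ : ℝ) (w w' : ℝ → ℂ) (t : ℝ) : tw θ w w' (-t - θ) = tw θ w w' t := by
  unfold tw
  have e1 : -(-t - θ) = t + θ := by ring
  have e2 : -t - θ + θ = -t := by ring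
  have e3 : det w w' (-t - θ) = det w w' (t + θ) := by
    rw [← det_even w w' (t + θ)]; congr 1; ring
  rw [e1, e2, e3, det_even]
  ring

/-- One Newton step. -/
theorem kam_step (Λ G θ r s ε : ℝ) (d0 : ℂ) (w w' e : ℝ → ℂ)
    (hΛ : 2 ≤ Λ) (hΛπ : 2 * Real.pi ≤ Λ) (hG0 : 0 ≤ G) (hGΛ : G ≤ Λ) (hs0 : 0 < s) (hs1 : s < 1)
    (hsΛ : 1 / (1 - s) ≤ Λ) (hθ0 : 0 < θ) (hθ1 : θ ≤ 1) (hd0 : d0 ≠ 0) (hdΛ : 2 / ‖d0‖ ≤ Λ)
    (hdΛ' : 2 * ‖d0‖ ≤ Λ) (hrs : 1 ≤ r * s ^ 5) (hr0 : 0 ≤ r)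
    (hdiv : ∀ k : ℤ, k ≠ 0 → 1 ≤ (G / θ) * k ^ 2 * ‖ch k θ - 1‖)
    (hε : 0 ≤ ε) (hwd : ∀ t, HasDerivAt w (w' t) t)
    (hw : B r Λ w) (hw' : B r Λ w') (he : B r ε e)
    (heq : ∀ t, w (t + θ) - w t = θ * ((-w (-t)) ^ 2 + e t))
    (hdet : B r (‖d0‖ / 2) (fun t => det w w' t - d0))
    (htw : B r (1 / (2 * ‖d0‖)) (fun t => tw θ w w' t - 1 / d0)) :
    ∃ δ δ' e1 : ℝ → ℂ, (∀ t, HasDerivAt δ (δ' t) t) ∧
      (∀ t, (w (t + θ) + δ (t + θ)) - (w t + δ t) = θ * ((-(w (-t) + δ (-t))) ^ 2 + e1 t)) ∧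
      B (r * s ^ 5) (Λ ^ 20 * ε) δ ∧ B (r * s ^ 5) (Λ ^ 20 * ε) δ' ∧
      B (r * s ^ 5) (Λ ^ 38 * ε ^ 2) e1 := by
  have h1s : 0 < 1 - s := by linarith
  have hΛ1 : 1 ≤ Λ := by linarith
  have hΛ0 : 0 ≤ Λ := by linarith
  -- the levels
  have hsp : ∀ n : ℕ, s ^ n ≤ 1 := fun n => pow_le_one₀ hs0.le hs1.le
  have hlev : ∀ m n : ℕ, m ≤ n → r * s ^ n ≤ r * s ^ m := by
    intro m n hmn
    have := pow_le_pow_of_le_one hs0.le hs1.le hmn
    gcongr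
  have hr1 : 1 ≤ r := hrs.trans (by have := hlev 0 5 (by norm_num); simpa using this)
  have hrs1 : 1 ≤ r * s := hrs.trans (by have := hlev 1 5 (by norm_num); simpa using this)
  have hrs2 : 1 ≤ r * s ^ 2 := hrs.trans (hlev 2 5 (by norm_num))
  have hrs4 : 1 ≤ r * s ^ 4 := hrs.trans (hlev 4 5 (by norm_num))
  have hl2 : r * s ^ 2 ≤ r := by simpa using hlev 0 2 (by norm_num)
  have hl1 : r * s ≤ r := by simpa using hlev 0 1 (by norm_num)
  have hl42 : r * s ^ 4 ≤ r * s ^ 2 := hlev 2 4 (by norm_num)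
  have hl4 : r * s ^ 4 ≤ r := by simpa using hlev 0 4 (by norm_num)
  have hl41 : r * s ^ 4 ≤ r * s := by simpa using hlev 1 4 (by norm_num)
  have hl54 : r * s ^ 5 ≤ r * s ^ 4 := hlev 4 5 (by norm_num)
  have hnθ : ‖(θ : ℂ)‖ ≤ 1 := by
    rw [Complex.norm_real, Real.norm_of_nonneg hθ0.le]; exact hθ1
  have hd0pos : 0 < ‖d0‖ := norm_pos_iff.mpr hd0
  -- the derivative of the error
  obtain ⟨e', hed, heB'⟩ := he.deriv hs0 hs1 hrs1
  -- Q bounds at level r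
  have qw : Q r Λ ε 1 0 w := by simpa [Q] using hw
  have qw' : Q r Λ ε 1 0 w' := by simpa [Q] using hw'
  have qe : Q r Λ ε 0 1 e := by simpa [Q] using he
  have qv : Q r Λ ε 1 0 (fun t => -w (-t)) := qw.refl.neg
  have qv' : Q r Λ ε 1 0 (fun t => w' (-t)) := qw'.refl
  have qU : Q r Λ ε 1 0 (fun t => w (t + θ)) := qw.shift θ
  have qP : Q r Λ ε 1 0 (fun t => w' (t + θ)) := qw'.shift θ
  have qet : Q r Λ ε 0 1 (fun t => e (-t - θ)) := qe.refl_shift θ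
  have hinv := B.inv (f := det w w') hr1 hdet (by linarith)
  have hdne : ∀ t, det w w' t ≠ 0 := hinv.2
  have qdi : Q r Λ ε 1 0 (fun t => (det w w' t)⁻¹) := by
    have h := hinv.1
    refine B.mono h hr0 le_rfl ?_
    have : 1 / (‖d0‖ - ‖d0‖ / 2) = 2 / ‖d0‖ := by field_simp; norm_num
    rw [this]; simpa using hdΛ
  have qDi : Q r Λ ε 1 0 (fun t => (det w w' (t + θ))⁻¹) := qdi.shift θ
  have qe' : Q (r * s) Λ ε 2 1 e' := by
    refine B.mono heB' (by linarith) le_rfl ?_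
    have h2 : 2 * Real.pi / (1 - s) ≤ Λ ^ 2 := by
      have : 2 * Real.pi / (1 - s) = 2 * Real.pi * (1 / (1 - s)) := by ring
      rw [this, pow_two]
      have := Real.pi_pos
      gcongr
    simp only [pow_one]
    gcongr
  -- first cohomological equation
  have qF : B r (Λ * ε) (fun t => w' (-t) * e t) := by
    have := qv'.mul qe hΛ hε hr1 (p := 1) (j := 1) (by norm_num) (by norm_num)
    simpa [Q] using this
  obtain ⟨b1, hb1, hb1e, hb1B⟩ := qF.solve_even hs0 hs1 hrs2 hr0 (div_nonneg hG0 hθ0.le) hdiv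
  have qB : Q (r * s ^ 2) Λ ε 5 1 (fun t => θ * b1 t) := by
    have h := hb1B.const_mul (θ : ℂ)
    refine B.mono h (by linarith) le_rfl ?_
    rw [Complex.norm_real, Real.norm_of_nonneg hθ0.le, pow_one]
    have e1 : θ * (G / θ / (1 - s) ^ 2 * (2 * (Λ * ε))) = G * (1 / (1 - s)) ^ 2 * 2 * Λ * ε := by
      field_simp
    rw [e1]
    have h3 : 0 ≤ 1 / (1 - s) := by positivity
    calc G * (1 / (1 - s)) ^ 2 * 2 * Λ * ε ≤ Λ * Λ ^ 2 * Λ * Λ * ε := by gcongr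
      _ = Λ ^ 5 * ε := by ring
  -- second cohomological equation
  have qT : Q r Λ ε 2 0 (tw θ w w') := by
    have h := (B.const (r := r) (1 / d0)).add hr0 htw
    have e : (fun t => 1 / d0 + (tw θ w w' t - 1 / d0)) = tw θ w w' := by funext t; ring
    rw [e] at h
    refine B.mono h hr0 le_rfl ?_
    rw [norm_div, norm_one, pow_zero, mul_one]
    have : 1 / ‖d0‖ + 1 / (2 * ‖d0‖) ≤ 2 / ‖d0‖ := by
      have : 1 / ‖d0‖ + 1 / (2 * ‖d0‖) = (3 / 2) / ‖d0‖ := by field_simp; norm_num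
      rw [this]; gcongr; norm_num
    nlinarith
  have qg1 : Q r Λ ε 5 1 (fun t => (-(e t * (-w (-t))) + e (-t - θ) * w (t + θ)
      + θ * w (t + θ) ^ 2 * e t) * (det w w' (t + θ))⁻¹) := by
    have a1 := (qe.mul qv hΛ hε hr1 (p := 1) (j := 1) (by norm_num) (by norm_num)).neg
    have a2 := qet.mul qU hΛ hε hr1 (p := 1) (j := 1) (by norm_num) (by norm_num)
    have a3 := a1.add a2 hΛ hε hr0 (p := 2) (by norm_num) (by norm_num)
    have a4 := (qU.mul qU hΛ hε hr1 (p := 2) (j := 0) (by norm_num) (by norm_num))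
    have a5 := (a4.cmul (θ : ℂ) hnθ hΛ hε hr0).mul qe hΛ hε hr1 (p := 2) (j := 1) (by norm_num) (by norm_num)
    have a6 := a3.add a5 hΛ hε hr0 (p := 3) (by norm_num) (by norm_num)
    have a7 := a6.mul qDi hΛ hε hr1 (p := 5) (j := 1) (by norm_num) (by norm_num)
    have e : (fun t => (-(e t * (-w (-t))) + e (-t - θ) * w (t + θ)
      + θ * w (t + θ) ^ 2 * e t) * (det w w' (t + θ))⁻¹) = fun t => (-(e t * -w (-t)) + e (-t - θ) * w (t + θ) +
      θ * (w (t + θ) * w (t + θ)) * e t) * (det w w' (t + θ))⁻¹ := by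
      funext t; ring
    rw [e]; exact a7
  have qK0 : Q (r * s ^ 2) Λ ε 8 1 (fun t => tw θ w w' t * (θ * b1 t) + (-(e t * (-w (-t)))
      + e (-t - θ) * w (t + θ) + θ * w (t + θ) ^ 2 * e t) * (det w w' (t + θ))⁻¹) := by
    have a1 := (qT.mono hΛ hε (by linarith) hl2 (p := 2) le_rfl).mul qB hΛ hε hrs2 (p := 7) (j := 1)
      (by norm_num) (by norm_num)
    exact a1.add (qg1.mono hΛ hε (by linarith) hl2 (p := 5) le_rfl) hΛ hε (by linarith) (p := 8)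
      (by norm_num) (by norm_num)
  obtain ⟨bb, a1, hbb, ha1, ha1o, ha1B⟩ := B.solve_odd (r := r * s ^ 2) (s := s) (θ := θ) (G := G / θ)
    (htw.mono (by linarith) hl2 le_rfl)
    (by
      rw [norm_div, norm_one]
      have : 1 / (2 * ‖d0‖) = (1 / 2) * (1 / ‖d0‖) := by field_simp
      have h1 : 0 < 1 / ‖d0‖ := by positivity
      linarith) qK0 hs0 hs1
    (by
      have : r * s ^ 2 * s ^ 2 = r * s ^ 4 := by ring
      rw [this]; exact hrs4) hrs2 (div_nonneg hG0 hθ0.le) hdiv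
  have e24 : r * s ^ 2 * s ^ 2 = r * s ^ 4 := by ring
  rw [e24] at ha1B
  have hbbn : ‖bb‖ ≤ Λ ^ 10 * ε := by
    refine hbb.trans ?_
    rw [norm_div, norm_one]
    have : Λ ^ 8 * ε ^ 1 / (1 / ‖d0‖ - 1 / (2 * ‖d0‖)) = Λ ^ 8 * ε * (2 * ‖d0‖) := by
      field_simp; norm_num
    rw [this]
    calc Λ ^ 8 * ε * (2 * ‖d0‖) ≤ Λ ^ 8 * ε * Λ := by gcongr
      _ = Λ ^ 9 * ε := by ring
      _ ≤ Λ ^ 10 * ε := by
          have := pow_le_pow_right₀ hΛ1 (show 9 ≤ 10 by norm_num)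
          gcongr
  have qa : Q (r * s ^ 4) Λ ε 16 1 (fun t => θ * a1 t) := by
    have h := ha1B.const_mul (θ : ℂ)
    refine B.mono h (by linarith) le_rfl ?_
    rw [Complex.norm_real, Real.norm_of_nonneg hθ0.le, pow_one, norm_div, norm_one]
    have e1 : θ * (G / θ / (1 - s) ^ 2 * (‖bb‖ * (1 / ‖d0‖ + 1 / (2 * ‖d0‖)) + Λ ^ 8 * ε))
        = G * (1 / (1 - s)) ^ 2 * (‖bb‖ * (1 / ‖d0‖ + 1 / (2 * ‖d0‖)) + Λ ^ 8 * ε) := by
      field_simp
    rw [e1]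
    have h3 : 0 ≤ 1 / (1 - s) := by positivity
    have h4 : 1 / ‖d0‖ + 1 / (2 * ‖d0‖) ≤ Λ := by
      have : 1 / ‖d0‖ + 1 / (2 * ‖d0‖) = (3 / 2) / ‖d0‖ := by field_simp; norm_num
      rw [this]
      refine le_trans ?_ hdΛ
      gcongr; norm_num
    have h5 : 0 ≤ 1 / ‖d0‖ + 1 / (2 * ‖d0‖) := by positivity
    calc G * (1 / (1 - s)) ^ 2 * (‖bb‖ * (1 / ‖d0‖ + 1 / (2 * ‖d0‖)) + Λ ^ 8 * ε)
        ≤ Λ * Λ ^ 2 * ((Λ ^ 10 * ε) * Λ + Λ ^ 8 * ε) := by gcongr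
      _ = Λ ^ 14 * ε + Λ ^ 11 * ε := by ring
      _ ≤ Λ ^ 15 * ε + Λ ^ 15 * ε := by
          have := pow_le_pow_right₀ hΛ1 (show 14 ≤ 15 by norm_num)
          have := pow_le_pow_right₀ hΛ1 (show 11 ≤ 15 by norm_num)
          gcongr
      _ = Λ ^ 15 * ε * 2 := by ring
      _ ≤ Λ ^ 15 * ε * Λ := by gcongr
      _ = Λ ^ 16 * ε := by ring
  have qb : Q (r * s ^ 4) Λ ε 11 1 (fun t => bb + θ * b1 t) := by
    have h1 : Q (r * s ^ 4) Λ ε 10 1 (fun _ => bb) := by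
      refine B.mono (B.const (r := r * s ^ 4) bb) (by linarith) le_rfl ?_
      simpa using hbbn
    exact h1.add (qB.mono hΛ hε (by linarith) hl42 (p := 5) le_rfl) hΛ hε (by linarith)
      (by norm_num) (by norm_num)
  -- everything at level r s^4
  have hr4 : (0 : ℝ) ≤ r * s ^ 4 := by linarith
  have qw4 := qw.mono hΛ hε hr4 hl4 (p := 1) le_rfl
  have qw'4 := qw'.mono hΛ hε hr4 hl4 (p := 1) le_rfl
  have qv4 := qv.mono hΛ hε hr4 hl4 (p := 1) le_rfl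
  have qv'4 := qv'.mono hΛ hε hr4 hl4 (p := 1) le_rfl
  have qU4 := qU.mono hΛ hε hr4 hl4 (p := 1) le_rfl
  have qP4 := qP.mono hΛ hε hr4 hl4 (p := 1) le_rfl
  have qe4 := qe.mono hΛ hε hr4 hl4 (p := 0) le_rfl
  have qet4 := qet.mono hΛ hε hr4 hl4 (p := 0) le_rfl
  have qdi4 := qdi.mono hΛ hε hr4 hl4 (p := 1) le_rfl
  have qDi4 := qDi.mono hΛ hε hr4 hl4 (p := 1) le_rfl
  have qe'4 := qe'.mono hΛ hε hr4 hl41 (p := 2) le_rfl
  have qet'4 : Q (r * s ^ 4) Λ ε 2 1 (fun t => -e' (-t - θ)) := (qe'4.refl_shift θ).neg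
  -- the correction
  have qbd : Q (r * s ^ 4) Λ ε 12 1 (fun t => (bb + θ * b1 t) * (det w w' t)⁻¹) :=
    qb.mul qdi4 hΛ hε hrs4 (by norm_num) (by norm_num)
  have qδ : Q (r * s ^ 4) Λ ε 18 1 (fun t => θ * a1 t * w' t + (bb + θ * b1 t) * (det w w' t)⁻¹ * w t) := by
    have c1 := qa.mul qw'4 hΛ hε hrs4 (p := 17) (j := 1) (by norm_num) (by norm_num)
    have c2 := qbd.mul qw4 hΛ hε hrs4 (p := 13) (j := 1) (by norm_num) (by norm_num)
    exact c1.add c2 hΛ hε hr4 (by norm_num) (by norm_num)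
  obtain ⟨δ, hδ⟩ : ∃ δ : ℝ → ℂ, δ = fun t => θ * a1 t * w' t + (bb + θ * b1 t) * (det w w' t)⁻¹ * w t :=
    ⟨_, rfl⟩
  rw [← hδ] at qδ
  have hrs45 : 1 ≤ r * s ^ 4 * s := by
    have : r * s ^ 4 * s = r * s ^ 5 := by ring
    rw [this]; exact hrs
  obtain ⟨δ', hδd, hδB'⟩ := B.deriv qδ hs0 hs1 hrs45
  have e45 : r * s ^ 4 * s = r * s ^ 5 := by ring
  rw [e45] at hδB'
  have qε : Q (r * s ^ 4) Λ ε 18 1 (fun t => θ * a1 t * w' (-t) + (bb + θ * b1 t) * (det w w' t)⁻¹ * (-w (-t))) := by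
    have c1 := qa.mul qv'4 hΛ hε hrs4 (p := 17) (j := 1) (by norm_num) (by norm_num)
    have c2 := qbd.mul qv4 hΛ hε hrs4 (p := 13) (j := 1) (by norm_num) (by norm_num)
    exact c1.add c2 hΛ hε hr4 (by norm_num) (by norm_num)
  -- the pieces of the new error
  have qX : Q (r * s ^ 4) Λ ε 4 1 (fun t => w' (t + θ) * e (-t - θ) - (-e' (-t - θ)) * w (t + θ)) := by
    have c1 := qP4.mul qet4 hΛ hε hrs4 (p := 1) (j := 1) (by norm_num) (by norm_num)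
    have c2 := qet'4.mul qU4 hΛ hε hrs4 (p := 3) (j := 1) (by norm_num) (by norm_num)
    exact c1.sub c2 hΛ hε hr4 (by norm_num) (by norm_num)
  have qY : Q (r * s ^ 4) Λ ε 4 1 (fun t => w' (-t) * e t - e' t * (-w (-t))) := by
    have c1 := qv'4.mul qe4 hΛ hε hrs4 (p := 1) (j := 1) (by norm_num) (by norm_num)
    have c2 := qe'4.mul qv4 hΛ hε hrs4 (p := 3) (j := 1) (by norm_num) (by norm_num)
    exact c1.sub c2 hΛ hε hr4 (by norm_num) (by norm_num)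
  have qdD : Q (r * s ^ 4) Λ ε 2 0 (fun t => (det w w' t)⁻¹ * (det w w' (t + θ))⁻¹) :=
    qdi4.mul qDi4 hΛ hε hrs4 (by norm_num) (by norm_num)
  -- term 1
  have t1 : Q (r * s ^ 4) Λ ε 5 2 (fun t => θ * e t *
      (w' (t + θ) * e (-t - θ) - (-e' (-t - θ)) * w (t + θ)) * (det w w' (t + θ))⁻¹) :=
    ((qe4.cmul (θ : ℂ) hnθ hΛ hε hr4).mul qX hΛ hε hrs4 (p := 4) (j := 2) (by norm_num) (by norm_num)).mul
      qDi4 hΛ hε hrs4 (by norm_num) (by norm_num)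
  -- term 2
  have t2 : Q (r * s ^ 4) Λ ε 22 2 (fun t => (bb + θ * b1 t) * ((det w w' t)⁻¹ * (det w w' (t + θ))⁻¹) *
      (w (t + θ) * ((w' (-t) * e t - e' t * (-w (-t)))
        - (w' (t + θ) * e (-t - θ) - (-e' (-t - θ)) * w (t + θ)))
        - θ * ((-w (-t)) * (-w (-t))) * (w' (t + θ) * e (-t - θ) - (-e' (-t - θ)) * w (t + θ)))) := by
    have c1 := qY.sub qX hΛ hε hr4 (p := 5) (by norm_num) (by norm_num)
    have c2 := qU4.mul c1 hΛ hε hrs4 (p := 6) (j := 1) (by norm_num) (by norm_num)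
    have c3 := (qv4.mul qv4 hΛ hε hrs4 (p := 2) (j := 0) (by norm_num) (by norm_num)).cmul (θ : ℂ) hnθ hΛ hε hr4
    have c4 := c3.mul qX hΛ hε hrs4 (p := 6) (j := 1) (by norm_num) (by norm_num)
    have c5 := c2.sub c4 hΛ hε hr4 (p := 7) (by norm_num) (by norm_num)
    have c6 := qb.mul qdD hΛ hε hrs4 (p := 13) (j := 1) (by norm_num) (by norm_num)
    exact c6.mul c5 hΛ hε hrs4 (by norm_num) (by norm_num)
  -- term 3
  have t3 : Q (r * s ^ 4) Λ ε 18 2 (fun t => θ * a1 t * e' t) :=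
    qa.mul qe'4 hΛ hε hrs4 (by norm_num) (by norm_num)
  have t4 : Q (r * s ^ 4) Λ ε 12 2 (fun t => (bb + θ * b1 t) * (det w w' t)⁻¹ * e t) :=
    qbd.mul qe4 hΛ hε hrs4 (by norm_num) (by norm_num)
  -- term 5
  have t5 : Q (r * s ^ 4) Λ ε 14 2 (fun t => θ / 2 * w' (t + θ) * ((det w w' t)⁻¹ * (det w w' (t + θ))⁻¹) *
      ((e (-t - θ) * w (t + θ) - e t * (-w (-t))) *
        ((w' (t + θ) * e (-t - θ) - (-e' (-t - θ)) * w (t + θ)) - (w' (-t) * e t - e' t * (-w (-t))))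
        + θ * ((-w (-t)) * (-w (-t)) * e (-t - θ) * (w' (t + θ) * e (-t - θ) - (-e' (-t - θ)) * w (t + θ))
          - w (t + θ) * w (t + θ) * e t * (w' (-t) * e t - e' t * (-w (-t)))))) := by
    have c1 := qet4.mul qU4 hΛ hε hrs4 (p := 1) (j := 1) (by norm_num) (by norm_num)
    have c2 := qe4.mul qv4 hΛ hε hrs4 (p := 1) (j := 1) (by norm_num) (by norm_num)
    have c3 := c1.sub c2 hΛ hε hr4 (p := 2) (by norm_num) (by norm_num)
    have c4 := qX.sub qY hΛ hε hr4 (p := 5) (by norm_num) (by norm_num)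
    have c5 := c3.mul c4 hΛ hε hrs4 (p := 7) (j := 2) (by norm_num) (by norm_num)
    have c6 := ((qv4.mul qv4 hΛ hε hrs4 (p := 2) (j := 0) (by norm_num) (by norm_num)).mul qet4
      hΛ hε hrs4 (p := 2) (j := 1) (by norm_num) (by norm_num)).mul qX hΛ hε hrs4 (p := 6) (j := 2)
      (by norm_num) (by norm_num)
    have c7 := ((qU4.mul qU4 hΛ hε hrs4 (p := 2) (j := 0) (by norm_num) (by norm_num)).mul qe4
      hΛ hε hrs4 (p := 2) (j := 1) (by norm_num) (by norm_num)).mul qY hΛ hε hrs4 (p := 6) (j := 2)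
      (by norm_num) (by norm_num)
    have c8 := (c6.sub c7 hΛ hε hr4 (p := 7) (by norm_num) (by norm_num)).cmul (θ : ℂ) hnθ hΛ hε hr4
    have c9 := c5.add c8 hΛ hε hr4 (p := 8) (by norm_num) (by norm_num)
    have hnθ2 : ‖(θ / 2 : ℂ)‖ ≤ 1 := by
      rw [norm_div, Complex.norm_ofNat]; linarith
    have c10 := (qP4.cmul (θ / 2 : ℂ) hnθ2 hΛ hε hr4).mul qdD hΛ hε hrs4 (p := 3) (j := 0)
      (by norm_num) (by norm_num)
    exact c10.mul c9 hΛ hε hrs4 (by norm_num) (by norm_num)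
  have t6 : Q (r * s ^ 4) Λ ε 36 2 (fun t =>
      (θ * a1 t * w' (-t) + (bb + θ * b1 t) * (det w w' t)⁻¹ * (-w (-t))) *
      (θ * a1 t * w' (-t) + (bb + θ * b1 t) * (det w w' t)⁻¹ * (-w (-t)))) :=
    qε.mul qε hΛ hε hrs4 (by norm_num) (by norm_num)
  have tt := ((((t1.add t2 hΛ hε hr4 (p := 23) (by norm_num) (by norm_num)).add t3 hΛ hε hr4 (p := 24)
    (by norm_num) (by norm_num)).add t4 hΛ hε hr4 (p := 25) (by norm_num) (by norm_num)).add t5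
    hΛ hε hr4 (p := 26) (by norm_num) (by norm_num)).sub t6 hΛ hε hr4 (p := 37) (by norm_num) (by norm_num)
  refine ⟨δ, δ', _, hδd, ?_, ?_, ?_, B.mono tt (by linarith) hl54 ?_⟩
  rotate_left
  · refine B.mono qδ (by linarith) hl54 ?_
    have := pow_le_pow_right₀ hΛ1 (show 18 ≤ 20 by norm_num)
    rw [pow_one]; gcongr
  · refine B.mono hδB' (by linarith) le_rfl ?_
    rw [pow_one]
    have : 2 * Real.pi / (1 - s) = 2 * Real.pi * (1 / (1 - s)) := by ring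
    rw [this]
    have := Real.pi_pos
    calc 2 * Real.pi * (1 / (1 - s)) * (Λ ^ 18 * ε) ≤ Λ * Λ * (Λ ^ 18 * ε) := by gcongr
      _ = Λ ^ 20 * ε := by ring
  · have := pow_le_pow_right₀ hΛ1 (show 37 ≤ 38 by norm_num)
    gcongr
  · -- derivative of the equation
    have hP : ∀ t, w' (t + θ) - w' t = θ * (2 * (-w (-t)) * w' (-t) + e' t) := by
      intro t
      have l1 : HasDerivAt (fun t => w (t + θ) - w t) (w' (t + θ) - w' t) t :=
        ((hwd (t + θ)).comp_add_const t θ).sub (hwd t)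
      have l2 : HasDerivAt (fun t => -w (-t)) (w' (-t)) t := by
        have h0 : HasDerivAt (fun t : ℝ => w (-t)) (-w' (-t)) t := by
          have := (hwd (-t)).scomp t (hasDerivAt_neg t)
          simpa [Function.comp_def] using this
        refine h0.neg.congr_deriv (by ring)
      have l3 : HasDerivAt (fun t => (θ : ℂ) * ((-w (-t)) ^ 2 + e t))
          (θ * (2 * (-w (-t)) * w' (-t) + e' t)) t := by
        have := ((l2.pow 2).add (hed t)).const_mul (θ : ℂ)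
        refine this.congr_deriv ?_
        simp
      have e : (fun t => w (t + θ) - w t) = fun t => (θ : ℂ) * ((-w (-t)) ^ 2 + e t) := by
        funext t; exact heq t
      rw [e] at l1
      exact l1.unique l3
    intro t
    have x1 : -t - θ + θ = -t := by ring
    have x2 : -(-t - θ) = t + θ := by ring
    have x3 : -(t + θ) = -t - θ := by ring
    have hPt := hP t
    have hR : w' (-t - θ) - w' (-t) = θ * (2 * w (t + θ) * w' (t + θ) - e' (-t - θ)) := by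
      have := hP (-t - θ)
      rw [x1, x2] at this
      linear_combination -this
    have hVeq : -w (-t - θ) - (-w (-t)) = θ * (w (t + θ) ^ 2 + e (-t - θ)) := by
      have := heq (-t - θ)
      rw [x1, x2] at this
      linear_combination this
    have hwt := heq t
    have hb1t := hb1 t
    rw [x2] at hb1t
    have ha1t := ha1 t
    have htws := tw_symm θ w w' t
    have hb1s : b1 (-t - θ) = b1 (t + θ) := by rw [← x3, hb1e]
    have hdets : det w w' (-t - θ) = det w w' (t + θ) := by rw [← x3, det_even]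
    have hdetn : det w w' (-t) = det w w' t := det_even w w' t
    have hD' : det w w' (t + θ) = w' (t + θ) * (-w (-t - θ)) - w' (-t - θ) * w (t + θ) := by
      unfold det; rw [x3]
    have x4 : t + θ - θ = t := by ring
    rw [x1, x2, x4, htws, hb1s, hdetn] at ha1t
    have key := kam_identity (θ : ℂ) (w t) (-w (-t)) (w' t) (w' (-t)) (e t) (e' t) (e (-t - θ))
      (-e' (-t - θ)) (w (t + θ)) (-w (-t - θ)) (w' (t + θ)) (w' (-t - θ)) (det w w' t)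
      (det w w' (t + θ)) (θ * a1 t) (bb + θ * b1 t)
      (θ * (w' (-t) * e t - w' (t + θ) * e (-t - θ)))
      (θ * (-(e t * (-w (-t))) + e (-t - θ) * w (t + θ) + θ * w (t + θ) ^ 2 * e t) * (det w w' (t + θ))⁻¹)
      (θ * (e (-t - θ) * w (t + θ) - e t * (-w (-t)) + θ * (-w (-t)) ^ 2 * e (-t - θ)) * (det w w' t)⁻¹)
      (θ * ((-w (-t)) ^ 3 - w (t + θ) ^ 3 - θ * w (t + θ) ^ 2 * (-w (-t)) ^ 2)
        * ((det w w' t)⁻¹ * (det w w' (t + θ))⁻¹))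
      (θ * a1 (t + θ) - θ * a1 t)
      (by linear_combination -hwt) (by linear_combination hVeq) (by linear_combination -hPt)
      (by linear_combination hR) (by unfold det; ring) hD' (hdne t) (hdne _) rfl rfl rfl rfl
      (by
        have hg2 : b1 (t + θ) = b1 t + (w' (-t) * e t - w' (t + θ) * e (-t - θ)) := by
          linear_combination hb1t
        have htwt : tw θ w w' t = ((-w (-t)) ^ 3 - w (t + θ) ^ 3 - θ * w (t + θ) ^ 2 * (-w (-t)) ^ 2)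
          * ((det w w' t)⁻¹ * (det w w' (t + θ))⁻¹) := rfl
        rw [hg2, htwt] at ha1t
        linear_combination θ * ha1t)
    have hbp : bb + θ * b1 (t + θ) = bb + θ * b1 t + θ * (w' (-t) * e t - w' (t + θ) * e (-t - θ)) := by
      linear_combination θ * hb1t
    have hδt : δ t = θ * a1 t * w' t + (bb + θ * b1 t) * (det w w' t)⁻¹ * w t := by rw [hδ]
    have hδp : δ (t + θ) = θ * a1 (t + θ) * w' (t + θ) + (bb + θ * b1 t
        + θ * (w' (-t) * e t - w' (t + θ) * e (-t - θ))) * (det w w' (t + θ))⁻¹ * w (t + θ) := by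
      rw [hδ]; simp only; rw [hbp]
    have hδn : δ (-t) = -(θ * a1 t) * w' (-t) + (bb + θ * b1 t) * (det w w' t)⁻¹ * w (-t) := by
      rw [hδ]; simp only; rw [ha1o, hb1e, hdetn]; ring
    rw [hδt, hδp, hδn]
    linear_combination key

end Pool.Agent.Helper649
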