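import Mathlib

set_option autoImplicit false

namespace Pool.Agent.Helper649.ReA

open Complex MeasureTheory Set Filter Topology Metric
open scoped Real ComplexConjugate

/-- the Moebius map z -> (z + ρ)/(1 + ρ z) -/
noncomputable def mob (ρ : ℝ) (z : ℂ) : ℂ := (z + ρ) / (1 + ρ * z)

/-- Cauchy type integral of a real function over the arc exp(it), a ≤ t ≤ b -/
noncomputable def Phi (U : ℝ → ℝ) (a b : ℝ) (z : ℂ) : ℂ :=
  ∫ t in a..b, (U t : ℂ) * (I * exp (t * I) / (exp (t * I) - z))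

/-- difference of two Cauchy type integrals -/
noncomputable def JJ (ρ : ℝ) (U : ℝ → ℝ) (a b : ℝ) (z : ℂ) : ℂ :=
  Phi U a b (mob ρ z) - Phi U a b z

/-- closed lower half disc without the points 1 and -1 -/
def Low : Set ℂ := {z | ‖z‖ ≤ 1 ∧ z.im ≤ 0 ∧ z ≠ 1 ∧ z ≠ -1}

/-- closed upper half disc without the points 1 and -1 -/
def Upp : Set ℂ := {z | ‖z‖ ≤ 1 ∧ 0 ≤ z.im ∧ z ≠ 1 ∧ z ≠ -1}

/-- closed strip -/
def Strip : Set ℂ := {z | |z.im| ≤ π / 2}

/-- open strip -/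
def OStrip : Set ℂ := {z | |z.im| < π / 2}

/-- map of the strip to the disc -/
noncomputable def cay (z : ℂ) : ℂ := (1 - exp z) / (1 + exp z)


lemma mob_facts (ρ : ℝ) (h1 : -1 < ρ) (h2 : ρ < 1) (z : ℂ) (hz : ‖z‖ ≤ 1) :
    (1 + (ρ : ℂ) * z ≠ 0) ∧ ‖mob ρ z‖ ≤ 1 ∧ (‖z‖ < 1 → ‖mob ρ z‖ < 1) ∧ (‖z‖ = 1 → ‖mob ρ z‖ = 1) ∧
    (0 ≤ z.im → 0 ≤ (mob ρ z).im) ∧ (z.im ≤ 0 → (mob ρ z).im ≤ 0) ∧
    (0 < z.im → 0 < (mob ρ z).im) ∧ (z.im < 0 → (mob ρ z).im < 0) ∧
    mob (-ρ) (mob ρ z) = z ∧ mob ρ (conj z) = conj (mob ρ z) ∧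
    (z ≠ 1 → mob ρ z ≠ 1) ∧ (z ≠ -1 → mob ρ z ≠ -1) ∧ mob ρ 1 = 1 ∧ mob ρ (-1) = -1 ∧
    DifferentiableAt ℂ (mob ρ) z := by
  have hρ : ρ ^ 2 < 1 := by nlinarith
  have hzsq : Complex.normSq z ≤ 1 := by
    rw [Complex.normSq_eq_norm_sq]
    have := norm_nonneg z
    nlinarith
  have hd : (1 + (ρ : ℂ) * z ≠ 0) := by
    intro h
    have h3 : (ρ : ℂ) * z = -1 := by linear_combination h
    have h4 : ‖(ρ : ℂ) * z‖ = 1 := by rw [h3]; simp
    rw [norm_mul, Complex.norm_real, Real.norm_eq_abs] at h4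
    have h5 : |ρ| < 1 := abs_lt.2 ⟨h1, h2⟩
    have h6 : |ρ| * ‖z‖ ≤ |ρ| * 1 := mul_le_mul_of_nonneg_left hz (abs_nonneg _)
    linarith
  have hN : 0 < Complex.normSq (1 + (ρ : ℂ) * z) := Complex.normSq_pos.2 hd
  have hkey : Complex.normSq (1 + (ρ : ℂ) * z) - Complex.normSq (z + ρ) =
      (1 - ρ ^ 2) * (1 - Complex.normSq z) := by
    simp only [Complex.normSq_apply, Complex.add_re, Complex.add_im, Complex.mul_re,
      Complex.mul_im, Complex.ofReal_re, Complex.ofReal_im, Complex.one_re, Complex.one_im]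
    ring
  have hnsq : Complex.normSq (mob ρ z) = Complex.normSq (z + ρ) / Complex.normSq (1 + (ρ : ℂ) * z) := by
    unfold mob
    rw [map_div₀]
  have him : (mob ρ z).im = (1 - ρ ^ 2) * z.im / Complex.normSq (1 + (ρ : ℂ) * z) := by
    unfold mob
    rw [Complex.div_im]
    simp only [Complex.add_re, Complex.add_im, Complex.mul_re,
      Complex.mul_im, Complex.ofReal_re, Complex.ofReal_im, Complex.one_re, Complex.one_im]
    rw [← sub_div]
    congr 1
    ring
  have hnn : ∀ w : ℂ, ‖w‖ ^ 2 = Complex.normSq w := fun w => (Complex.normSq_eq_norm_sq w).symm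
  have hρ0 : (0 : ℝ) < 1 - ρ ^ 2 := by linarith
  have h1ρ : (1 : ℂ) - (ρ : ℂ) ^ 2 ≠ 0 := by
    intro h
    have h3 : ((1 - ρ ^ 2 : ℝ) : ℂ) = 0 := by push_cast; exact h
    rw [Complex.ofReal_eq_zero] at h3
    linarith
  have hm1 : (1 : ℂ) - (ρ : ℂ) ≠ 0 := by
    intro h
    have h3 : ((1 - ρ : ℝ) : ℂ) = 0 := by push_cast; exact h
    rw [Complex.ofReal_eq_zero] at h3
    linarith
  have hp1 : (1 : ℂ) + (ρ : ℂ) ≠ 0 := by
    intro h
    have h3 : ((1 + ρ : ℝ) : ℂ) = 0 := by push_cast; exact h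
    rw [Complex.ofReal_eq_zero] at h3
    linarith
  refine ⟨hd, ?_, ?_, ?_, ?_, ?_, ?_, ?_, ?_, ?_, ?_, ?_, ?_, ?_, ?_⟩
  · have h3 : Complex.normSq (mob ρ z) ≤ 1 := by
      rw [hnsq, div_le_one hN]
      nlinarith
    rw [← hnn] at h3
    have := norm_nonneg (mob ρ z)
    nlinarith
  · intro hlt
    have hz2 : Complex.normSq z < 1 := by
      rw [← hnn]
      have := norm_nonneg z
      nlinarith
    have h3 : Complex.normSq (mob ρ z) < 1 := by
      rw [hnsq, div_lt_one hN]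
      nlinarith
    rw [← hnn] at h3
    have := norm_nonneg (mob ρ z)
    nlinarith
  · intro heq
    have hz2 : Complex.normSq z = 1 := by
      rw [← hnn, heq]; norm_num
    have h3 : Complex.normSq (mob ρ z) = 1 := by
      rw [hnsq, div_eq_one_iff_eq hN.ne']
      rw [hz2, sub_self, mul_zero] at hkey
      linarith
    rw [← hnn] at h3
    have h4 := norm_nonneg (mob ρ z)
    have h5 : (‖mob ρ z‖ - 1) * (‖mob ρ z‖ + 1) = 0 := by linarith [h3, sq_nonneg ‖mob ρ z‖, (by ring : (‖mob ρ z‖ - 1) * (‖mob ρ z‖ + 1) = ‖mob ρ z‖ ^ 2 - 1)]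
    rcases mul_eq_zero.1 h5 with h6 | h6
    · linarith
    · linarith
  · intro h
    rw [him]
    positivity
  · intro h
    rw [him]
    exact div_nonpos_of_nonpos_of_nonneg (by nlinarith) hN.le
  · intro h
    rw [him]
    positivity
  · intro h
    rw [him]
    exact div_neg_of_neg_of_pos (by nlinarith) hN
  · unfold mob
    have h3 : (1 : ℂ) + ((-ρ : ℝ) : ℂ) * ((z + ρ) / (1 + ρ * z)) =
        (1 - (ρ : ℂ) ^ 2) / (1 + ρ * z) := by
      push_cast
      field_simp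
      ring
    have h4 : (z + ρ) / (1 + ρ * z) + ((-ρ : ℝ) : ℂ) = z * (1 - (ρ : ℂ) ^ 2) / (1 + ρ * z) := by
      push_cast
      rw [eq_div_iff hd, add_mul, div_mul_cancel₀ _ hd]
      ring
    rw [h3, h4, div_div_div_cancel_right₀ hd, mul_div_assoc, div_self h1ρ, mul_one]
  · unfold mob
    rw [map_div₀, map_add, map_add, map_mul, map_one, Complex.conj_ofReal]
  · intro hne h
    apply hne
    unfold mob at h
    rw [div_eq_one_iff_eq hd] at h
    have h3 : (z - 1) * (1 - (ρ : ℂ)) = 0 := by linear_combination h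
    rcases mul_eq_zero.1 h3 with h4 | h4
    · linear_combination h4
    · exact absurd h4 hm1
  · intro hne h
    apply hne
    unfold mob at h
    rw [div_eq_iff hd] at h
    have h3 : (z + 1) * (1 + (ρ : ℂ)) = 0 := by linear_combination h
    rcases mul_eq_zero.1 h3 with h4 | h4
    · linear_combination h4
    · exact absurd h4 hp1
  · unfold mob
    rw [mul_one, div_self hp1]
  · unfold mob
    have h3 : (1 : ℂ) + ρ * (-1) = 1 - ρ := by ring
    have h4 : (-1 : ℂ) + ρ = -(1 - ρ) := by ring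
    rw [h3, h4, neg_div, div_self hm1]
  · unfold mob
    exact (differentiableAt_id.add_const _).div
      ((differentiableAt_const _).add ((differentiableAt_const _).mul differentiableAt_id)) hd

theorem pt_norm (t : ℝ) : ‖exp (t * I)‖ = 1 := Complex.norm_exp_ofReal_mul_I t

theorem pt_ne (a : ℂ) (ha : ‖a‖ < 1) (t : ℝ) : exp (t * I) - a ≠ 0 := by
  intro h
  have h1 : exp (t * I) = a := sub_eq_zero.1 h
  have h2 := pt_norm t
  rw [h1] at h2
  linarith

theorem pt_cauchy (G : ℂ → ℂ) (hG : DiffContOnCl ℂ G (ball 0 1)) (a : ℂ) (ha : ‖a‖ < 1) :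
    ∫ t in (-π)..π, G (exp (t * I)) * (I * exp (t * I) / (exp (t * I) - a)) = 2 * π * I * G a := by
  have h1 := hG.circleIntegral_sub_inv_smul (w := a) (by simpa using ha)
  have hper : Function.Periodic
      (fun t : ℝ => G (exp (t * I)) * (I * exp (t * I) / (exp (t * I) - a))) (2 * π) := by
    intro t
    have e : exp (((t + 2 * π : ℝ) : ℂ) * I) = exp (t * I) := by
      rw [Complex.ofReal_add, add_mul, Complex.exp_add]
      have : exp (((2 * π : ℝ) : ℂ) * I) = 1 := by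
        rw [Complex.ofReal_mul]
        exact_mod_cast Complex.exp_two_pi_mul_I
      rw [this, mul_one]
    simp only [e]
  have h2 := hper.intervalIntegral_add_eq (-π) 0
  rw [show -π + 2 * π = π by ring, zero_add] at h2
  rw [h2]
  rw [smul_eq_mul] at h1
  rw [← h1]
  unfold circleIntegral
  refine intervalIntegral.integral_congr fun t _ => ?_
  simp only [deriv_circleMap, circleMap, ofReal_one, one_mul, zero_add, smul_eq_mul]
  have := pt_ne a ha t
  field_simp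


lemma phi_total (F : ℂ → ℂ) (hc : ContinuousOn F (closedBall 0 1)) (hd : DifferentiableOn ℂ F (ball 0 1))
    (a : ℂ) (ha : ‖a‖ < 1) :
    Phi (fun t => (F (exp (t * I))).re) (-π) 0 a + Phi (fun t => (F (exp (t * I))).re) 0 π a =
      π * I * (F a + conj (F 0)) := by
  have hDC : DiffContOnCl ℂ F (ball 0 1) :=
    ⟨hd, by rwa [closure_ball _ one_ne_zero]⟩
  have hden : ∀ z ∈ closedBall (0:ℂ) 1, 1 - conj a * z ≠ 0 := by
    intro z hz h
    have hz' : ‖z‖ ≤ 1 := by simpa using hz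
    have h1 : conj a * z = 1 := (sub_eq_zero.1 h).symm
    have h2 : ‖conj a * z‖ = 1 := by rw [h1]; simp
    rw [norm_mul, RCLike.norm_conj] at h2
    nlinarith [norm_nonneg a, norm_nonneg z]
  have hDC2 : DiffContOnCl ℂ (fun z => F z / (1 - conj a * z)) (ball 0 1) := by
    refine ⟨?_, ?_⟩
    · refine DifferentiableOn.div hd (by fun_prop) fun z hz => hden z (ball_subset_closedBall hz)
    · rw [closure_ball _ one_ne_zero]
      refine ContinuousOn.div hc (by fun_prop) fun z hz => hden z hz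
  have hA := pt_cauchy F hDC a ha
  have hB := pt_cauchy _ hDC2 0 (by simp)
  have hexp : Continuous fun t : ℝ => exp (t * I) := by fun_prop
  have hmem : ∀ t : ℝ, exp (t * I) ∈ closedBall (0:ℂ) 1 := by
    intro t
    simp [pt_norm t]
  have hF : Continuous fun t : ℝ => F (exp (t * I)) := hc.comp_continuous hexp hmem
  have hk : Continuous fun t : ℝ => I * exp (t * I) / (exp (t * I) - a) :=
    Continuous.div (by fun_prop) (by fun_prop) (pt_ne a ha)
  have hre : Continuous fun t : ℝ => (((F (exp (t * I))).re : ℝ) : ℂ) *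
      (I * exp (t * I) / (exp (t * I) - a)) :=
    (Complex.continuous_ofReal.comp (Complex.continuous_re.comp hF)).mul hk
  unfold Phi
  rw [intervalIntegral.integral_add_adjacent_intervals (hre.intervalIntegrable _ _)
    (hre.intervalIntegrable _ _)]
  have e1 : ∀ t : ℝ, (((F (exp (t * I))).re : ℝ) : ℂ) * (I * exp (t * I) / (exp (t * I) - a)) =
      (1/2 : ℂ) * (F (exp (t * I)) * (I * exp (t * I) / (exp (t * I) - a))) +
      (1/2 : ℂ) * (conj (F (exp (t * I))) * (I * exp (t * I) / (exp (t * I) - a))) := by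
    intro t
    have h1 : (((F (exp (t * I))).re : ℝ) : ℂ) =
        (F (exp (t * I)) + conj (F (exp (t * I)))) / 2 := by
      rw [Complex.re_eq_add_conj]
    rw [h1]
    ring
  have hc2 : Continuous fun t : ℝ => conj (F (exp (t * I))) *
      (I * exp (t * I) / (exp (t * I) - a)) := (Complex.continuous_conj.comp hF).mul hk
  have c1 : Continuous fun t : ℝ =>
      (1/2 : ℂ) * (F (exp (t * I)) * (I * exp (t * I) / (exp (t * I) - a))) :=
    continuous_const.mul (hF.mul hk)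
  have c2 : Continuous fun t : ℝ =>
      (1/2 : ℂ) * (conj (F (exp (t * I))) * (I * exp (t * I) / (exp (t * I) - a))) :=
    continuous_const.mul hc2
  rw [intervalIntegral.integral_congr (fun t _ => e1 t),
    intervalIntegral.integral_add (c1.intervalIntegrable _ _) (c2.intervalIntegrable _ _),
    intervalIntegral.integral_const_mul, intervalIntegral.integral_const_mul, hA]
  have e2 : ∫ t in (-π)..π, conj (F (exp (t * I))) * (I * exp (t * I) / (exp (t * I) - a)) =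
      2 * π * I * conj (F 0) := by
    have e3 : ∀ t : ℝ, conj (F (exp (t * I))) * (I * exp (t * I) / (exp (t * I) - a)) =
        conj (-((fun z => F z / (1 - conj a * z)) (exp (t * I)) *
          (I * exp (t * I) / (exp (t * I) - 0)))) := by
      intro t
      have n1 := pt_ne a ha t
      have n2 : exp (t * I) ≠ 0 := Complex.exp_ne_zero _
      have n3 := hden _ (hmem t)
      have e4 : conj (exp (t * I)) = (exp (t * I))⁻¹ := by
        rw [← Complex.exp_conj, ← Complex.exp_neg]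
        congr 1
        simp
      simp only [sub_zero, map_neg, map_mul, map_div₀, map_sub, map_one, Complex.conj_conj,
        Complex.conj_I, e4]
      have n4 : 1 - a * (exp (t * I))⁻¹ ≠ 0 := by
        intro h
        apply n1
        have : exp (t * I) * (1 - a * (exp (t * I))⁻¹) = 0 := by rw [h, mul_zero]
        rw [mul_sub, mul_one, mul_comm a, ← mul_assoc, mul_inv_cancel₀ n2, one_mul] at this
        exact this
      field_simp
      try ring
    rw [intervalIntegral.integral_congr (fun t _ => e3 t)]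
    have e5 : ∀ f : ℝ → ℂ, ∫ t in (-π)..π, conj (f t) = conj (∫ t in (-π)..π, f t) := by
      intro f
      simp only [intervalIntegral, integral_conj, map_sub]
    rw [e5, intervalIntegral.integral_neg, hB]
    simp
    exact Or.inl (map_ofNat _ 2)
  rw [e2]
  ring

lemma phi_diff (U : ℝ → ℝ) (hU : Continuous U) (a b : ℝ) (hab : a ≤ b) (z : ℂ)
    (hz : ∀ t ∈ Icc a b, exp ((t : ℂ) * I) ≠ z) : DifferentiableAt ℂ (Phi U a b) z := by
  have hcont : Continuous fun t : ℝ => exp ((t : ℂ) * I) := by fun_prop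
  have hK : IsCompact ((fun t : ℝ => exp ((t : ℂ) * I)) '' Icc a b) :=
    isCompact_Icc.image hcont
  have hzK : z ∈ ((fun t : ℝ => exp ((t : ℂ) * I)) '' Icc a b)ᶜ := by
    rintro ⟨t, ht, h⟩
    exact hz t ht h
  obtain ⟨δ, hδ, hball⟩ := Metric.isOpen_iff.1 hK.isClosed.isOpen_compl z hzK
  have hd : ∀ t ∈ Icc a b, δ ≤ ‖exp ((t : ℂ) * I) - z‖ := by
    intro t ht
    by_contra hlt
    push Not at hlt
    have : exp ((t : ℂ) * I) ∈ ball z δ := by
      rw [mem_ball, dist_eq_norm]; exact hlt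
    exact hball this ⟨t, ht, rfl⟩
  have hd2 : ∀ t ∈ Icc a b, ∀ x ∈ ball z (δ / 2), δ / 2 ≤ ‖exp ((t : ℂ) * I) - x‖ := by
    intro t ht x hx
    rw [mem_ball, dist_eq_norm] at hx
    have h1 := hd t ht
    have h2 : ‖exp ((t : ℂ) * I) - z‖ ≤ ‖exp ((t : ℂ) * I) - x‖ + ‖x - z‖ := by
      have : exp ((t : ℂ) * I) - z = (exp ((t : ℂ) * I) - x) + (x - z) := by ring
      rw [this]
      exact norm_add_le _ _
    linarith
  have hne : ∀ t ∈ Icc a b, ∀ x ∈ ball z (δ / 2), exp ((t : ℂ) * I) - x ≠ 0 := by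
    intro t ht x hx h0
    have := hd2 t ht x hx
    rw [h0, norm_zero] at this
    linarith
  have hcontF : ∀ x ∈ ball z (δ / 2), ContinuousOn
      (fun t : ℝ => (U t : ℂ) * (I * exp (t * I) / (exp (t * I) - x))) (Icc a b) := by
    intro x hx
    refine ContinuousOn.mul (by fun_prop) (ContinuousOn.div (by fun_prop) (by fun_prop) ?_)
    intro t ht
    exact hne t ht x hx
  have hcontF' : ContinuousOn
      (fun t : ℝ => (U t : ℂ) * (I * exp (t * I) / (exp (t * I) - z) ^ 2)) (Icc a b) := by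
    refine ContinuousOn.mul (by fun_prop) (ContinuousOn.div (by fun_prop) (by fun_prop) ?_)
    intro t ht
    exact pow_ne_zero 2 (hne t ht z (mem_ball_self (by linarith)))
  have hsub : uIoc a b ⊆ Icc a b := by
    rw [uIoc_of_le hab]
    exact Ioc_subset_Icc_self
  have key := intervalIntegral.hasDerivAt_integral_of_dominated_loc_of_deriv_le
    (𝕜 := ℂ) (μ := volume) (a := a) (b := b) (x₀ := z) (s := ball z (δ / 2))
    (F := fun x t => (U t : ℂ) * (I * exp (t * I) / (exp (t * I) - x)))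
    (F' := fun x t => (U t : ℂ) * (I * exp (t * I) / (exp (t * I) - x) ^ 2))
    (bound := fun t => |U t| * (1 / (δ / 2) ^ 2))
    (ball_mem_nhds z (by linarith)) ?_ ?_ ?_ ?_ ?_ ?_
  · exact key.2.differentiableAt
  · filter_upwards [ball_mem_nhds z (show (0 : ℝ) < δ / 2 by linarith)] with x hx
    exact ((hcontF x hx).mono hsub).aestronglyMeasurable measurableSet_uIoc
  · refine ContinuousOn.intervalIntegrable ?_
    rw [uIcc_of_le hab]
    exact hcontF z (mem_ball_self (by linarith))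
  · exact (hcontF'.mono hsub).aestronglyMeasurable measurableSet_uIoc
  · refine Eventually.of_forall fun t ht x hx => ?_
    have ht' := hsub ht
    have h1 := hd2 t ht' x hx
    have hpos : 0 < δ / 2 := by linarith
    simp only [norm_mul, norm_div, norm_pow, norm_I, one_mul, norm_exp_ofReal_mul_I,
      norm_real, Real.norm_eq_abs]
    gcongr
  · exact (by fun_prop : Continuous fun t : ℝ => |U t| * (1 / (δ / 2) ^ 2)).intervalIntegrable _ _
  · refine Eventually.of_forall fun t ht x hx => ?_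
    have ht' := hsub ht
    have h0 := hne t ht' x hx
    have h1 : HasDerivAt (fun x : ℂ => exp ((t : ℂ) * I) - x) (-1) x := by
      simpa using (hasDerivAt_id x).const_sub (exp ((t : ℂ) * I))
    have h2 := (h1.inv h0).const_mul ((U t : ℂ) * (I * exp ((t : ℂ) * I)))
    have e1 : (fun y : ℂ => (U t : ℂ) * (I * exp ((t : ℂ) * I) / (exp ((t : ℂ) * I) - y))) =
        fun y => (U t : ℂ) * (I * exp ((t : ℂ) * I)) * (fun x => exp ((t : ℂ) * I) - x)⁻¹ y := by
      funext y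
      simp only [Pi.inv_apply]
      ring
    show HasDerivAt (fun y : ℂ => (U t : ℂ) * (I * exp ((t : ℂ) * I) / (exp ((t : ℂ) * I) - y))) _ x
    rw [e1]
    refine h2.congr_deriv ?_
    ring

lemma jr_re (e z : ℂ) (he : ‖e‖ = 1) (hz : ‖z‖ = 1) (hne : e ≠ z) : (I * e / (e - z)).im = 1 / 2 := by
  have h0 : e - z ≠ 0 := sub_ne_zero.2 hne
  obtain ⟨q, hq⟩ : ∃ q : ℂ, q = e / (e - z) := ⟨_, rfl⟩
  have h1 : q - 1 = z / (e - z) := by
    rw [hq]
    field_simp
    ring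
  have h2 : ‖q‖ = ‖q - 1‖ := by
    rw [h1, hq, norm_div, norm_div, he, hz]
  have h3 : q.re = 1 / 2 := by
    have h4 : ‖q‖ ^ 2 = ‖q - 1‖ ^ 2 := by rw [h2]
    rw [← Complex.normSq_eq_norm_sq, ← Complex.normSq_eq_norm_sq, Complex.normSq_apply,
      Complex.normSq_apply] at h4
    simp only [Complex.sub_re, Complex.sub_im, Complex.one_re, Complex.one_im] at h4
    linarith
  have h5 : I * e / (e - z) = I * q := by rw [hq, mul_div_assoc]
  rw [h5, Complex.I_mul_im, h3]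

lemma jr_phi (U : ℝ → ℝ) (hU : Continuous U) (a b : ℝ) (hab : a ≤ b) (z : ℂ) (hz1 : ‖z‖ = 1)
    (hz : ∀ t ∈ Icc a b, exp ((t : ℂ) * I) ≠ z) :
    (Phi U a b z).im = ∫ t in a..b, U t * (1 / 2) := by
  have hint : IntervalIntegrable
      (fun t : ℝ => (U t : ℂ) * (I * exp (t * I) / (exp (t * I) - z))) volume a b := by
    apply ContinuousOn.intervalIntegrable
    rw [uIcc_of_le hab]
    refine ContinuousOn.mul (Complex.continuous_ofReal.comp hU).continuousOn
      (ContinuousOn.div ?_ ?_ ?_)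
    · exact Continuous.continuousOn (by fun_prop)
    · exact Continuous.continuousOn (by fun_prop)
    · intro t ht
      exact sub_ne_zero.2 (hz t ht)
  have h1 := Complex.imCLM.intervalIntegral_comp_comm hint
  unfold Phi
  have h2 : (∫ t in a..b, (U t : ℂ) * (I * exp (t * I) / (exp (t * I) - z))).im =
      Complex.imCLM (∫ t in a..b, (U t : ℂ) * (I * exp (t * I) / (exp (t * I) - z))) := rfl
  rw [h2, ← h1]
  apply intervalIntegral.integral_congr
  intro t ht
  rw [uIcc_of_le hab] at ht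
  show ((U t : ℂ) * (I * exp (t * I) / (exp (t * I) - z))).im = U t * (1 / 2)
  rw [Complex.im_ofReal_mul, jr_re _ _ (Complex.norm_exp_ofReal_mul_I t) hz1 (hz t ht)]


lemma J_real (ρ : ℝ) (h1 : -1 < ρ) (h2 : ρ < 1) (U : ℝ → ℝ) (hU : Continuous U) (a b : ℝ)
    (hab : a ≤ b) (z : ℂ) (hz1 : ‖z‖ = 1)
    (hz : ∀ t ∈ Icc a b, exp ((t : ℂ) * I) ≠ z)
    (hz' : ∀ t ∈ Icc a b, exp ((t : ℂ) * I) ≠ mob ρ z) : (JJ ρ U a b z).im = 0 := by
  have hm : ‖mob ρ z‖ = 1 := (mob_facts ρ h1 h2 z hz1.le).2.2.2.1 hz1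
  unfold JJ
  rw [Complex.sub_im, jr_phi U hU a b hab z hz1 hz, jr_phi U hU a b hab _ hm hz', sub_self]

lemma low_eq (U : ℝ → ℝ) (z : ℂ) :
    Phi U (-π) 0 z = - conj (Phi (fun t => U (-t)) 0 π (conj z)) := by
  unfold Phi
  have h1 := intervalIntegral.integral_comp_neg (a := 0) (b := π)
    (fun t : ℝ => (U t : ℂ) * (I * exp (t * I) / (exp (t * I) - z)))
  rw [neg_zero] at h1
  rw [← h1, intervalIntegral.integral_of_le Real.pi_pos.le,
    intervalIntegral.integral_of_le Real.pi_pos.le, ← integral_conj, ← integral_neg]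
  refine integral_congr_ae (Filter.Eventually.of_forall ?_)
  intro t
  have he : conj (exp ((t : ℂ) * I)) = exp (((-t : ℝ) : ℂ) * I) := by
    rw [← exp_conj]
    simp
  simp only [map_mul, map_div₀, map_sub, conj_conj, conj_I, conj_ofReal, he]
  ring

lemma Phi_one (w : ℂ) (hw : w ∈ Low) :
    Phi (fun _ => 1) 0 π w = log (-(1 + w) / (1 - w)) := by
  obtain ⟨hn, him, hne1, hne2⟩ := hw
  have hre1 : w.re ≤ 1 := (re_le_norm w).trans hn
  have hre2 : -1 ≤ w.re := by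
    have := abs_re_le_norm w
    have h3 := neg_abs_le w.re
    linarith
  have hnz : ∀ t ∈ Icc (0 : ℝ) π, exp (t * I) - w ≠ 0 := by
    intro t ht h
    have hw' : w = exp (t * I) := (sub_eq_zero.1 h).symm
    have him2 : w.im = Real.sin t := by rw [hw', exp_ofReal_mul_I_im]
    have hre3 : w.re = Real.cos t := by rw [hw', exp_ofReal_mul_I_re]
    have hs : 0 ≤ Real.sin t := Real.sin_nonneg_of_mem_Icc ht
    have hs0 : Real.sin t = 0 := le_antisymm (him2 ▸ him) hs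
    have hc := Real.sin_sq_add_cos_sq t
    rw [hs0] at hc
    have hc2 : (Real.cos t - 1) * (Real.cos t + 1) = 0 := by nlinarith
    rcases mul_eq_zero.1 hc2 with h4 | h4
    · apply hne1
      apply Complex.ext
      · rw [hre3, one_re]; linarith
      · rw [him2, hs0, one_im]
    · apply hne2
      apply Complex.ext
      · rw [hre3, neg_re, one_re]; linarith
      · rw [him2, hs0, neg_im, one_im, neg_zero]
  have hslit : ∀ t ∈ Icc (0 : ℝ) π, -I * (exp (t * I) - w) ∈ slitPlane := by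
    intro t ht
    rw [mem_slitPlane_iff]
    have h1 : (-I * (exp (t * I) - w)).re = Real.sin t - w.im := by
      simp [exp_ofReal_mul_I_im]
    have h2 : (-I * (exp (t * I) - w)).im = -(Real.cos t - w.re) := by
      simp [exp_ofReal_mul_I_re]
    have hs : 0 ≤ Real.sin t := Real.sin_nonneg_of_mem_Icc ht
    by_cases h3 : 0 < Real.sin t - w.im
    · left; rw [h1]; exact h3
    · right
      rw [h2]
      intro h4
      apply hnz t ht
      apply Complex.ext
      · rw [sub_re, exp_ofReal_mul_I_re, zero_re]; linarith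
      · rw [sub_im, exp_ofReal_mul_I_im, zero_im]; linarith
  have hderiv : ∀ t ∈ uIcc (0 : ℝ) π,
      HasDerivAt (fun t : ℝ => log (-I * (exp (t * I) - w)))
        (((fun _ => 1 : ℝ → ℝ) t : ℂ) * (I * exp (t * I) / (exp (t * I) - w))) t := by
    intro t ht
    rw [uIcc_of_le Real.pi_pos.le] at ht
    have h1 : HasDerivAt (fun t : ℝ => (t : ℂ) * I) (1 * I) t :=
      (Complex.ofRealCLM.hasDerivAt (x := t)).mul_const I
    have h2 : HasDerivAt (fun t : ℝ => -I * (exp (t * I) - w)) (-I * (exp (t * I) * (1 * I))) t :=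
      ((h1.cexp).sub_const w).const_mul (-I)
    have h3 := h2.clog_real (hslit t ht)
    have hI : (-I : ℂ) ≠ 0 := neg_ne_zero.2 I_ne_zero
    convert h3 using 1
    have h5 := hnz t ht
    field_simp
    push_cast
    ring
  have hcont : IntervalIntegrable (fun t : ℝ => (((fun _ => 1 : ℝ → ℝ) t : ℂ) *
      (I * exp (t * I) / (exp (t * I) - w)))) volume 0 π := by
    apply ContinuousOn.intervalIntegrable
    rw [uIcc_of_le Real.pi_pos.le]
    apply ContinuousOn.mul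
    · exact continuousOn_const
    · apply ContinuousOn.div
      · fun_prop
      · fun_prop
      · exact hnz
  have hint := intervalIntegral.integral_eq_sub_of_hasDerivAt hderiv hcont
  unfold Phi
  rw [hint]
  have e1 : -I * (exp ((π : ℝ) * I) - w) = I * (1 + w) := by
    rw [exp_pi_mul_I]; ring
  have e2 : -I * (exp (((0 : ℝ) : ℂ) * I) - w) = -I * (1 - w) := by
    rw [ofReal_zero, zero_mul, exp_zero]
  rw [e1, e2]
  have hx0 : I * (1 + w) ≠ 0 := by
    apply mul_ne_zero I_ne_zero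
    intro h
    exact hne2 (by linear_combination h)
  have hy0 : -I * (1 - w) ≠ 0 := by
    apply mul_ne_zero (neg_ne_zero.2 I_ne_zero)
    intro h
    exact hne1 (by linear_combination -h)
  have hy1 : (1 - w) ≠ 0 := by
    intro h
    exact hne1 (by linear_combination -h)
  have hxre : 0 ≤ (I * (1 + w)).re := by
    simp; linarith
  have hxim : 0 ≤ (I * (1 + w)).im := by
    simp; linarith
  have hyre : 0 ≤ (-I * (1 - w)).re := by
    simp; linarith
  have hax : |arg (I * (1 + w))| ≤ π / 2 := abs_arg_le_pi_div_two_iff.2 hxre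
  have hay : |arg (-I * (1 - w))| ≤ π / 2 := abs_arg_le_pi_div_two_iff.2 hyre
  have hax0 : 0 ≤ arg (I * (1 + w)) := arg_nonneg_iff.2 hxim
  rw [abs_le] at hax hay
  have hexp : exp (log (I * (1 + w)) - log (-I * (1 - w))) = -(1 + w) / (1 - w) := by
    rw [exp_sub, exp_log hx0, exp_log hy0]
    have := I_ne_zero
    field_simp
  rw [← hexp, log_exp]
  · rw [sub_im, log_im, log_im]
    linarith [Real.pi_pos]
  · rw [sub_im, log_im, log_im]
    linarith


lemma J_one (ρ : ℝ) (h1 : -1 < ρ) (h2 : ρ < 1) (z : ℂ) (hz : z ∈ Low) :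
    JJ ρ (fun _ => 1) 0 π z = (Real.log ((1 + ρ) / (1 - ρ)) : ℝ) := by
  obtain ⟨hn, him, hne1, hne2⟩ := id hz
  obtain ⟨f1, f2, f3, f4, f5, f6, f7, f8, f9, f10, f11, f12, f13, f14, f15⟩ := mob_facts ρ h1 h2 z hn
  have hm : mob ρ z ∈ Low := ⟨f2, f6 him, f11 hne1, f12 hne2⟩
  unfold JJ
  rw [Phi_one _ hz, Phi_one _ hm]
  have hc : (0 : ℝ) < (1 + ρ) / (1 - ρ) := div_pos (by linarith) (by linarith)
  have hz1 : 1 - z ≠ 0 := fun h => hne1 (by linear_combination -h)
  have hz2 : 1 + z ≠ 0 := fun h => hne2 (by linear_combination h)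
  have hm1 : 1 - mob ρ z ≠ 0 := fun h => f11 hne1 (by linear_combination -h)
  have hr : (1 - (ρ : ℂ)) ≠ 0 := by
    intro h
    have : ((1 - ρ : ℝ) : ℂ) = 0 := by push_cast; exact h
    rw [ofReal_eq_zero] at this
    linarith
  have key : -(1 + mob ρ z) / (1 - mob ρ z) = (((1 + ρ) / (1 - ρ) : ℝ) : ℂ) * (-(1 + z) / (1 - z)) := by
    have e1 : 1 + mob ρ z = (1 + ρ) * (1 + z) / (1 + ρ * z) := by
      rw [eq_div_iff f1]; unfold mob; rw [add_mul, div_mul_cancel₀ _ f1]; ring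
    have e2 : 1 - mob ρ z = (1 - ρ) * (1 - z) / (1 + ρ * z) := by
      rw [eq_div_iff f1]; unfold mob; rw [sub_mul, div_mul_cancel₀ _ f1]; ring
    rw [e1, e2]
    push_cast
    field_simp
  rw [key, log_ofReal_mul hc (div_ne_zero (neg_ne_zero.2 hz2) hz1)]
  ring

lemma dist_right (t : ℝ) (ht0 : 0 ≤ t) (ht1 : t ≤ π / 2) (z : ℂ) (hz : z.im ≤ 0) :
    (t + ‖z - 1‖) / 5 ≤ ‖exp (t * I) - z‖ := by
  have h1 : (2 / π) * t ≤ Real.sin t := Real.mul_le_sin ht0 ht1
  have h2 : Real.sin t ≤ ‖exp (t * I) - z‖ := by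
    have h := (le_abs_self _).trans (Complex.abs_im_le_norm (exp (t * I) - z))
    rw [Complex.sub_im, Complex.exp_ofReal_mul_I_im] at h
    linarith
  have h3 : ‖exp (t * I) - 1‖ ≤ t := by
    have h := Real.norm_exp_I_mul_ofReal_sub_one_le (x := t)
    rw [Real.norm_eq_abs, abs_of_nonneg ht0, mul_comm] at h
    exact h
  have h4 : ‖z - 1‖ ≤ ‖exp (t * I) - z‖ + t := by
    have e : z - 1 = -(exp (t * I) - z) + (exp (t * I) - 1) := by ring
    rw [e]
    refine (norm_add_le _ _).trans ?_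
    rw [norm_neg]
    linarith
  have hpi := Real.pi_pos
  have h5 : t ≤ π / 2 * ‖exp (t * I) - z‖ := by
    have h6 := h1.trans h2
    have h7 : t = π / 2 * ((2 / π) * t) := by field_simp
    calc t = π / 2 * ((2 / π) * t) := h7
      _ ≤ _ := mul_le_mul_of_nonneg_left h6 (by positivity)
  have h8 := Real.pi_lt_d2
  have h9 := norm_nonneg (exp (t * I) - z)
  nlinarith

lemma dist_left (t : ℝ) (ht0 : π / 2 ≤ t) (ht1 : t ≤ π) (z : ℂ) (hz : z.im ≤ 0) :
    ((π - t) + ‖z + 1‖) / 5 ≤ ‖exp (t * I) - z‖ := by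
  set d := ‖exp (t * I) - z‖ with hd
  have h1 : 2 / π * (π - t) ≤ Real.sin (π - t) := by
    apply Real.mul_le_sin
    · linarith
    · linarith
  rw [Real.sin_pi_sub] at h1
  have h2 : Real.sin t ≤ d := by
    have h3 : (exp (t * I) - z).im ≤ d := (le_abs_self _).trans (Complex.abs_im_le_norm _)
    rw [Complex.sub_im, Complex.exp_ofReal_mul_I_im] at h3
    linarith
  have hpi := Real.pi_pos
  have h4 : π - t ≤ π / 2 * d := by
    have h5 : 2 / π * (π - t) ≤ d := h1.trans h2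
    have h6 : π / 2 * (2 / π * (π - t)) = π - t := by field_simp
    rw [← h6]
    exact mul_le_mul_of_nonneg_left h5 (by positivity)
  have h7 : ‖exp (t * I) + 1‖ ≤ π - t := by
    have h8 : exp (t * I) + 1 = -(exp (I * ((t - π : ℝ) : ℂ)) - 1) := by
      have : I * ((t - π : ℝ) : ℂ) = t * I - π * I := by push_cast; ring
      rw [this, Complex.exp_sub, Complex.exp_pi_mul_I]
      ring
    rw [h8, norm_neg]
    refine (Real.norm_exp_I_mul_ofReal_sub_one_le).trans ?_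
    rw [Real.norm_eq_abs, abs_sub_comm, abs_of_nonneg (by linarith)]
  have h9 : ‖z + 1‖ ≤ d + (π - t) := by
    have : z + 1 = -(exp (t * I) - z) + (exp (t * I) + 1) := by ring
    rw [this]
    refine (norm_add_le _ _).trans ?_
    rw [norm_neg]
    linarith
  have hd0 : 0 ≤ d := norm_nonneg _
  have hpi4 : π ≤ 4 := Real.pi_le_four
  nlinarith

lemma kint_a (q : ℝ) (hq : 0 < q) : ∫ t in (0:ℝ)..(π/2), 1/(t+q)^2 ≤ 1/q := by
  have hpi := Real.pi_pos
  have h : ∫ t in (0:ℝ)..(π/2), 1/(t+q)^2 = -(1/(π/2+q)) - (-(1/(0+q))) := by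
    refine intervalIntegral.integral_eq_sub_of_hasDerivAt (f := fun t => -(1/(t+q))) ?_ ?_
    · intro t ht
      rw [uIcc_of_le (by positivity)] at ht
      have h0 : t + q ≠ 0 := by have := ht.1; positivity
      have h1 : HasDerivAt (fun t : ℝ => t + q) 1 t := (hasDerivAt_id' t).add_const q
      have h2 := (h1.inv h0).neg
      have e : (fun t : ℝ => -(1/(t+q))) = fun t => -(t+q)⁻¹ := by
        funext t; rw [one_div]
      rw [e]
      refine h2.congr_deriv ?_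
      rw [neg_div, neg_neg]
    · refine ContinuousOn.intervalIntegrable ?_
      rw [uIcc_of_le (by positivity)]
      refine continuousOn_const.div (by fun_prop) ?_
      intro t ht
      have := ht.1
      positivity
  rw [h, zero_add]
  have : 0 ≤ 1/(π/2+q) := by positivity
  linarith

lemma kint_b (q : ℝ) (hq : 0 < q) : ∫ t in (π/2)..π, 1/((π - t)+q)^2 ≤ 1/q := by
  have h := intervalIntegral.integral_comp_sub_left (a := π/2) (b := π) (fun t : ℝ => 1/(t+q)^2) π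
  rw [h]
  have e1 : π - π = 0 := sub_self π
  have e2 : π - π/2 = π/2 := by ring
  rw [e1, e2]
  exact kint_a q hq


lemma kern_int (ρ : ℝ) (h1 : -1 < ρ) (h2 : ρ < 1) :
    ∃ C : ℝ, ∀ z ∈ Low,
      ∫ t in (0:ℝ)..π, ‖I * exp (t * I) / (exp (t * I) - mob ρ z) - I * exp (t * I) / (exp (t * I) - z)‖ ≤ C := by
  have hpi := Real.pi_pos
  set k : ℝ := 1 - |ρ| with hk
  have hk0 : 0 < k := by
    have : |ρ| < 1 := abs_lt.mpr ⟨h1, h2⟩
    linarith
  have hk1 : k ≤ 1 := by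
    have := abs_nonneg ρ
    linarith
  refine ⟨200 / k^2, fun z hz => ?_⟩
  obtain ⟨hz1, hz2, hz3, hz4⟩ := hz
  obtain ⟨hne, hm1, -, -, -, hmim, -, -, -, -, hmn1, hmn2, -, -, -⟩ := mob_facts ρ h1 h2 z hz1
  have hm2 := hmim hz2
  have hm3 := hmn1 hz3
  have hm4 := hmn2 hz4
  set m := mob ρ z with hm
  have hmdef : m = (z + ρ) / (1 + ρ * z) := rfl
  have hden1 : k ≤ ‖1 + (ρ:ℂ) * z‖ := by
    have h := norm_sub_norm_le (1:ℂ) (-((ρ:ℂ) * z))
    rw [sub_neg_eq_add, norm_neg, norm_mul, norm_one, Complex.norm_real, Real.norm_eq_abs] at h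
    have : |ρ| * ‖z‖ ≤ |ρ| := mul_le_of_le_one_right (abs_nonneg _) hz1
    linarith
  have hden2 : ‖1 + (ρ:ℂ) * z‖ ≤ 2 := by
    have h := norm_add_le (1:ℂ) ((ρ:ℂ) * z)
    rw [norm_mul, norm_one, Complex.norm_real, Real.norm_eq_abs] at h
    have : |ρ| * ‖z‖ ≤ |ρ| := mul_le_of_le_one_right (abs_nonneg _) hz1
    linarith
  have hdpos : 0 < ‖1 + (ρ:ℂ) * z‖ := lt_of_lt_of_le hk0 hden1
  have hmz : m - z = -((ρ:ℂ) * (z - 1) * (z + 1)) / (1 + ρ * z) := by
    rw [hmdef, eq_div_iff hne, sub_mul, div_mul_cancel₀ _ hne]; ring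
  have hm1' : m - 1 = (1 - ρ) * (z - 1) / (1 + ρ * z) := by
    rw [hmdef, eq_div_iff hne, sub_mul, div_mul_cancel₀ _ hne]; ring
  have hmp1 : m + 1 = (1 + ρ) * (z + 1) / (1 + ρ * z) := by
    rw [hmdef, eq_div_iff hne, add_mul, div_mul_cancel₀ _ hne]; ring
  have hz5 : ‖z - 1‖ ≤ 2 := by
    have := norm_sub_le z 1
    rw [norm_one] at this
    linarith
  have hz6 : ‖z + 1‖ ≤ 2 := by
    have := norm_add_le z 1
    rw [norm_one] at this
    linarith
  have hmzn : ‖m - z‖ = |ρ| * ‖z - 1‖ * ‖z + 1‖ / ‖1 + (ρ:ℂ) * z‖ := by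
    rw [hmz, norm_div, norm_neg, norm_mul, norm_mul, Complex.norm_real, Real.norm_eq_abs]
  have hρ1 : |ρ| ≤ 1 := by linarith
  have hA : ‖m - z‖ ≤ 2 * ‖z - 1‖ / k := by
    rw [hmzn]
    have h5 : |ρ| * ‖z - 1‖ * ‖z + 1‖ ≤ 2 * ‖z - 1‖ := by
      calc |ρ| * ‖z - 1‖ * ‖z + 1‖ ≤ 1 * ‖z - 1‖ * 2 := by gcongr
        _ = 2 * ‖z - 1‖ := by ring
    exact div_le_div₀ (by positivity) h5 hk0 hden1
  have hB : ‖m - z‖ ≤ 2 * ‖z + 1‖ / k := by
    rw [hmzn]
    have h5 : |ρ| * ‖z - 1‖ * ‖z + 1‖ ≤ 2 * ‖z + 1‖ := by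
      calc |ρ| * ‖z - 1‖ * ‖z + 1‖ ≤ 1 * 2 * ‖z + 1‖ := by gcongr
        _ = 2 * ‖z + 1‖ := by ring
    exact div_le_div₀ (by positivity) h5 hk0 hden1
  have hρa : ρ ≤ |ρ| := le_abs_self ρ
  have hρb : -ρ ≤ |ρ| := neg_le_abs ρ
  have hA' : k / 2 * ‖z - 1‖ ≤ ‖m - 1‖ := by
    rw [hm1', norm_div, norm_mul]
    have e : ‖(1 - (ρ:ℂ))‖ = 1 - ρ := by
      rw [show (1 - (ρ:ℂ)) = ((1 - ρ : ℝ) : ℂ) by push_cast; ring, Complex.norm_real, Real.norm_eq_abs,
        abs_of_pos (by linarith)]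
    rw [e, le_div_iff₀ hdpos]
    calc k / 2 * ‖z - 1‖ * ‖1 + (ρ:ℂ) * z‖ ≤ k / 2 * ‖z - 1‖ * 2 := by gcongr
      _ = k * ‖z - 1‖ := by ring
      _ ≤ (1 - ρ) * ‖z - 1‖ := mul_le_mul_of_nonneg_right (by linarith) (norm_nonneg _)
  have hB' : k / 2 * ‖z + 1‖ ≤ ‖m + 1‖ := by
    rw [hmp1, norm_div, norm_mul]
    have e : ‖(1 + (ρ:ℂ))‖ = 1 + ρ := by
      rw [show (1 + (ρ:ℂ)) = ((1 + ρ : ℝ) : ℂ) by push_cast; ring, Complex.norm_real, Real.norm_eq_abs,
        abs_of_pos (by linarith)]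
    rw [e, le_div_iff₀ hdpos]
    calc k / 2 * ‖z + 1‖ * ‖1 + (ρ:ℂ) * z‖ ≤ k / 2 * ‖z + 1‖ * 2 := by gcongr
      _ = k * ‖z + 1‖ := by ring
      _ ≤ (1 + ρ) * ‖z + 1‖ := mul_le_mul_of_nonneg_right (by linarith) (norm_nonneg _)
  have hd1 : 0 < ‖z - 1‖ := norm_pos_iff.mpr (sub_ne_zero.mpr hz3)
  have hd2 : 0 < ‖z + 1‖ := by
    refine norm_pos_iff.mpr ?_
    intro h
    exact hz4 (eq_neg_of_add_eq_zero_left h)
  have he : ∀ t : ℝ, ‖exp (t * I)‖ = 1 := fun t => Complex.norm_exp_ofReal_mul_I t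
  -- general kernel bound
  have hker : ∀ (t p P : ℝ), 0 < p → p / 5 ≤ ‖exp (t * I) - z‖ → p / 5 ≤ ‖exp (t * I) - m‖ → ‖m - z‖ ≤ P →
      ‖I * exp (t * I) / (exp (t * I) - m) - I * exp (t * I) / (exp (t * I) - z)‖ ≤ (25 * P) * (1 / p^2) := by
    intro t p P hp hzp hmp hP
    have n1 : exp (t * I) - z ≠ 0 := by
      rw [← norm_pos_iff]; exact lt_of_lt_of_le (by positivity) hzp
    have n2 : exp (t * I) - m ≠ 0 := by
      rw [← norm_pos_iff]; exact lt_of_lt_of_le (by positivity) hmp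
    have e1 : I * exp (t * I) / (exp (t * I) - m) - I * exp (t * I) / (exp (t * I) - z)
        = I * exp (t * I) * (m - z) / ((exp (t * I) - m) * (exp (t * I) - z)) := by
      rw [div_sub_div _ _ n2 n1]
      congr 1
      ring
    rw [e1, norm_div, norm_mul, norm_mul, norm_mul, he, Complex.norm_I, one_mul, one_mul]
    have h3 : (p/5) * (p/5) ≤ ‖exp (t * I) - m‖ * ‖exp (t * I) - z‖ :=
      mul_le_mul hmp hzp (by positivity) (norm_nonneg _)
    calc ‖m - z‖ / (‖exp (t * I) - m‖ * ‖exp (t * I) - z‖) ≤ P / ((p/5) * (p/5)) :=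
          div_le_div₀ ((norm_nonneg _).trans hP) hP (by positivity) h3
      _ = (25 * P) * (1 / p^2) := by field_simp; ring
  have hzr : ∀ t : ℝ, 0 ≤ t → t ≤ π/2 → (t + k/2 * ‖z - 1‖) / 5 ≤ ‖exp (t * I) - z‖ := by
    intro t ht0 ht1
    refine le_trans ?_ (dist_right t ht0 ht1 z hz2)
    have : k / 2 * ‖z - 1‖ ≤ 1 * ‖z - 1‖ := mul_le_mul_of_nonneg_right (by linarith) (norm_nonneg _)
    linarith
  have hmr : ∀ t : ℝ, 0 ≤ t → t ≤ π/2 → (t + k/2 * ‖z - 1‖) / 5 ≤ ‖exp (t * I) - m‖ := by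
    intro t ht0 ht1
    refine le_trans ?_ (dist_right t ht0 ht1 m hm2)
    linarith
  have hzl : ∀ t : ℝ, π/2 ≤ t → t ≤ π → ((π - t) + k/2 * ‖z + 1‖) / 5 ≤ ‖exp (t * I) - z‖ := by
    intro t ht0 ht1
    refine le_trans ?_ (dist_left t ht0 ht1 z hz2)
    have : k / 2 * ‖z + 1‖ ≤ 1 * ‖z + 1‖ := mul_le_mul_of_nonneg_right (by linarith) (norm_nonneg _)
    linarith
  have hml : ∀ t : ℝ, π/2 ≤ t → t ≤ π → ((π - t) + k/2 * ‖z + 1‖) / 5 ≤ ‖exp (t * I) - m‖ := by
    intro t ht0 ht1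
    refine le_trans ?_ (dist_left t ht0 ht1 m hm2)
    linarith
  have hcont : ContinuousOn (fun t : ℝ => ‖I * exp (t * I) / (exp (t * I) - m) - I * exp (t * I) / (exp (t * I) - z)‖)
      (Icc 0 π) := by
    have hpos : ∀ t ∈ Icc (0:ℝ) π, exp (t * I) - m ≠ 0 ∧ exp (t * I) - z ≠ 0 := by
      intro t ht
      rw [← norm_pos_iff, ← norm_pos_iff]
      rcases le_total t (π/2) with h | h
      · have := ht.1
        exact ⟨lt_of_lt_of_le (by positivity) (hmr t ht.1 h), lt_of_lt_of_le (by positivity) (hzr t ht.1 h)⟩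
      · have : 0 ≤ π - t := by linarith [ht.2]
        exact ⟨lt_of_lt_of_le (by positivity) (hml t h ht.2), lt_of_lt_of_le (by positivity) (hzl t h ht.2)⟩
    refine ContinuousOn.norm (ContinuousOn.sub ?_ ?_)
    · exact ContinuousOn.div (by fun_prop) (by fun_prop) fun t ht => (hpos t ht).1
    · exact ContinuousOn.div (by fun_prop) (by fun_prop) fun t ht => (hpos t ht).2
  have hi1 : IntervalIntegrable (fun t : ℝ => ‖I * exp (t * I) / (exp (t * I) - m) - I * exp (t * I) / (exp (t * I) - z)‖)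
      volume 0 (π/2) := by
    refine ContinuousOn.intervalIntegrable ?_
    rw [uIcc_of_le (by positivity)]
    exact hcont.mono (Icc_subset_Icc le_rfl (by linarith))
  have hi2 : IntervalIntegrable (fun t : ℝ => ‖I * exp (t * I) / (exp (t * I) - m) - I * exp (t * I) / (exp (t * I) - z)‖)
      volume (π/2) π := by
    refine ContinuousOn.intervalIntegrable ?_
    rw [uIcc_of_le (by linarith)]
    exact hcont.mono (Icc_subset_Icc (by positivity) le_rfl)
  rw [← intervalIntegral.integral_add_adjacent_intervals hi1 hi2]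
  have hq1 : 0 < k/2 * ‖z - 1‖ := by positivity
  have hq2 : 0 < k/2 * ‖z + 1‖ := by positivity
  have hI1 : ∫ t in (0:ℝ)..(π/2), ‖I * exp (t * I) / (exp (t * I) - m) - I * exp (t * I) / (exp (t * I) - z)‖
      ≤ 100 / k^2 := by
    calc ∫ t in (0:ℝ)..(π/2), ‖I * exp (t * I) / (exp (t * I) - m) - I * exp (t * I) / (exp (t * I) - z)‖
        ≤ ∫ t in (0:ℝ)..(π/2), (25 * (2 * ‖z - 1‖ / k)) * (1 / (t + k/2 * ‖z - 1‖)^2) := by
          refine intervalIntegral.integral_mono_on (by positivity) hi1 ?_ ?_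
          · refine ContinuousOn.intervalIntegrable ?_
            rw [uIcc_of_le (by positivity)]
            refine continuousOn_const.mul (continuousOn_const.div (by fun_prop) ?_)
            intro t ht
            have := ht.1
            positivity
          · intro t ht
            have := ht.1
            exact hker t _ _ (by positivity) (hzr t ht.1 ht.2) (hmr t ht.1 ht.2) hA
      _ = (25 * (2 * ‖z - 1‖ / k)) * ∫ t in (0:ℝ)..(π/2), 1 / (t + k/2 * ‖z - 1‖)^2 :=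
          intervalIntegral.integral_const_mul _ _
      _ ≤ (25 * (2 * ‖z - 1‖ / k)) * (1 / (k/2 * ‖z - 1‖)) :=
          mul_le_mul_of_nonneg_left (kint_a _ hq1) (by positivity)
      _ = 100 / k^2 := by field_simp; norm_num
  have hI2 : ∫ t in (π/2)..π, ‖I * exp (t * I) / (exp (t * I) - m) - I * exp (t * I) / (exp (t * I) - z)‖
      ≤ 100 / k^2 := by
    calc ∫ t in (π/2)..π, ‖I * exp (t * I) / (exp (t * I) - m) - I * exp (t * I) / (exp (t * I) - z)‖
        ≤ ∫ t in (π/2)..π, (25 * (2 * ‖z + 1‖ / k)) * (1 / ((π - t) + k/2 * ‖z + 1‖)^2) := by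
          refine intervalIntegral.integral_mono_on (by linarith) hi2 ?_ ?_
          · refine ContinuousOn.intervalIntegrable ?_
            rw [uIcc_of_le (by linarith)]
            refine continuousOn_const.mul (continuousOn_const.div (by fun_prop) ?_)
            intro t ht
            have : 0 ≤ π - t := by linarith [ht.2]
            positivity
          · intro t ht
            have : 0 ≤ π - t := by linarith [ht.2]
            exact hker t _ _ (by positivity) (hzl t ht.1 ht.2) (hml t ht.1 ht.2) hB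
      _ = (25 * (2 * ‖z + 1‖ / k)) * ∫ t in (π/2)..π, 1 / ((π - t) + k/2 * ‖z + 1‖)^2 :=
          intervalIntegral.integral_const_mul _ _
      _ ≤ (25 * (2 * ‖z + 1‖ / k)) * (1 / (k/2 * ‖z + 1‖)) :=
          mul_le_mul_of_nonneg_left (kint_b _ hq2) (by positivity)
      _ = 100 / k^2 := by field_simp; norm_num
  have : (200:ℝ) / k^2 = 100 / k^2 + 100 / k^2 := by ring
  linarith

lemma J_lim_one_ne (z : ℂ) (hz : z ∈ Low) (t : ℝ) (ht0 : 0 ≤ t) (ht1 : t ≤ π) :
    exp (t * I) - z ≠ 0 := by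
  obtain ⟨-, him, hz1, hz2⟩ := hz
  intro h0
  rcases le_total t (π / 2) with h | h
  · have h3 := dist_right t ht0 h z him
    rw [h0, norm_zero] at h3
    have h4 : 0 < ‖z - 1‖ := norm_pos_iff.mpr (sub_ne_zero.mpr hz1)
    linarith
  · have h3 := dist_left t h ht1 z him
    rw [h0, norm_zero] at h3
    have h4 : 0 < ‖z + 1‖ := by
      apply norm_pos_iff.mpr
      intro h5
      exact hz2 (eq_neg_of_add_eq_zero_left h5)
    linarith

lemma J_lim_one_cont (z : ℂ) (hz : z ∈ Low) :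
    ContinuousOn (fun t : ℝ => I * exp (t * I) / (exp (t * I) - z)) (uIcc 0 π) := by
  rw [uIcc_of_le Real.pi_pos.le]
  apply ContinuousOn.div
  · fun_prop
  · fun_prop
  · intro t ht
    exact J_lim_one_ne z hz t ht.1 ht.2

lemma J_lim_one_int (U : ℝ → ℝ) (hU : Continuous U) (z : ℂ) (hz : z ∈ Low) :
    IntervalIntegrable (fun t : ℝ => (U t : ℂ) * (I * exp (t * I) / (exp (t * I) - z)))
      volume 0 π := by
  apply ContinuousOn.intervalIntegrable
  exact ContinuousOn.mul (by fun_prop) (J_lim_one_cont z hz)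

lemma J_lim_one_mob (ρ : ℝ) (h1 : -1 < ρ) (h2 : ρ < 1) (z : ℂ) (hz : z ∈ Low) :
    mob ρ z ∈ Low := by
  obtain ⟨ha, hb, hc, hd⟩ := hz
  obtain ⟨f1, f2, f3, f4, f5, f6, f7, f8, f9, f10, f11, f12, f13, f14, f15⟩ :=
    mob_facts ρ h1 h2 z ha
  exact ⟨f2, f6 hb, f11 hc, f12 hd⟩

lemma J_lim_one_eq (ρ : ℝ) (h1 : -1 < ρ) (h2 : ρ < 1) (U : ℝ → ℝ) (hU : Continuous U)
    (z : ℂ) (hz : z ∈ Low) :
    JJ ρ U 0 π z = ∫ t in (0:ℝ)..π, (U t : ℂ) *
      (I * exp (t * I) / (exp (t * I) - mob ρ z) - I * exp (t * I) / (exp (t * I) - z)) := by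
  unfold JJ Phi
  rw [← intervalIntegral.integral_sub (J_lim_one_int U hU _ (J_lim_one_mob ρ h1 h2 z hz))
    (J_lim_one_int U hU z hz)]
  congr 1
  ext t
  ring

lemma J_lim_one_sub (ρ : ℝ) (h1 : -1 < ρ) (h2 : ρ < 1) (U : ℝ → ℝ) (hU : Continuous U)
    (z : ℂ) (hz : z ∈ Low) :
    JJ ρ U 0 π z - ((U 0 * Real.log ((1 + ρ) / (1 - ρ)) : ℝ) : ℂ) =
      ∫ t in (0:ℝ)..π, ((U t - U 0 : ℝ) : ℂ) *
      (I * exp (t * I) / (exp (t * I) - mob ρ z) - I * exp (t * I) / (exp (t * I) - z)) := by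
  have hm := J_lim_one_mob ρ h1 h2 z hz
  have e1 := J_lim_one_eq ρ h1 h2 (fun _ => 1) continuous_const z hz
  rw [J_one ρ h1 h2 z hz] at e1
  have hi1 : IntervalIntegrable (fun t : ℝ => (U t : ℂ) *
      (I * exp (t * I) / (exp (t * I) - mob ρ z) - I * exp (t * I) / (exp (t * I) - z)))
      volume 0 π := by
    apply ContinuousOn.intervalIntegrable
    exact ContinuousOn.mul (by fun_prop) ((J_lim_one_cont _ hm).sub (J_lim_one_cont z hz))
  have hi2 : IntervalIntegrable (fun t : ℝ => ((U 0 : ℝ) : ℂ) * ((((1 : ℝ)) : ℂ) *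
      (I * exp (t * I) / (exp (t * I) - mob ρ z) - I * exp (t * I) / (exp (t * I) - z))))
      volume 0 π := by
    apply ContinuousOn.intervalIntegrable
    exact ContinuousOn.mul (by fun_prop) (ContinuousOn.mul (by fun_prop)
      ((J_lim_one_cont _ hm).sub (J_lim_one_cont z hz)))
  rw [J_lim_one_eq ρ h1 h2 U hU z hz, ofReal_mul, e1, ← intervalIntegral.integral_const_mul,
    ← intervalIntegral.integral_sub hi1 hi2]
  congr 1
  ext t
  push_cast
  ring

lemma J_lim_one_kernel (δ : ℝ) (hδ : 0 < δ) (hδ1 : δ ≤ 1) (z w : ℂ) (hz : z ∈ Low) (hw : w ∈ Low)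
    (hz1 : ‖z - 1‖ ≤ 1) (hw1 : ‖w - 1‖ ≤ 1) (t : ℝ) (ht0 : δ ≤ t) (ht1 : t ≤ π) :
    ‖I * exp (t * I) / (exp (t * I) - w) - I * exp (t * I) / (exp (t * I) - z)‖ ≤
      25 * ‖w - z‖ / δ ^ 2 := by
  have hne1 := J_lim_one_ne z hz t (hδ.le.trans ht0) ht1
  have hne2 := J_lim_one_ne w hw t (hδ.le.trans ht0) ht1
  have key : ∀ v : ℂ, v ∈ Low → ‖v - 1‖ ≤ 1 → δ / 5 ≤ ‖exp (t * I) - v‖ := by
    intro v hv hv1
    rcases le_total t (π / 2) with h | h
    · have h3 := dist_right t (hδ.le.trans ht0) h v hv.2.1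
      have h4 : 0 ≤ ‖v - 1‖ := norm_nonneg _
      linarith
    · have h3 := dist_left t h ht1 v hv.2.1
      have h4 : (1:ℝ) ≤ ‖v + 1‖ := by
        have h5 : (2:ℂ) = (v + 1) - (v - 1) := by ring
        have h6 : ‖(2:ℂ)‖ ≤ ‖v + 1‖ + ‖v - 1‖ := by
          rw [h5]; exact norm_sub_le _ _
        have h7 : ‖(2:ℂ)‖ = 2 := by simp
        linarith
      linarith
  have hk1 := key z hz hz1
  have hk2 := key w hw hw1
  have heq : I * exp (t * I) / (exp (t * I) - w) - I * exp (t * I) / (exp (t * I) - z) =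
      I * exp (t * I) * (w - z) / ((exp (t * I) - w) * (exp (t * I) - z)) := by
    rw [div_sub_div _ _ hne2 hne1]
    congr 1
    ring
  rw [heq, norm_div, norm_mul, norm_mul, norm_mul, norm_I, one_mul, norm_exp_ofReal_mul_I, one_mul]
  have hd : 0 < δ / 5 := by positivity
  have hprod : (δ / 5) * (δ / 5) ≤ ‖exp (t * I) - w‖ * ‖exp (t * I) - z‖ :=
    mul_le_mul hk2 hk1 hd.le (norm_nonneg _)
  calc ‖w - z‖ / (‖exp (t * I) - w‖ * ‖exp (t * I) - z‖) ≤ ‖w - z‖ / ((δ / 5) * (δ / 5)) :=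
        div_le_div_of_nonneg_left (norm_nonneg _) (by positivity) hprod
    _ = 25 * ‖w - z‖ / δ ^ 2 := by
        field_simp
        ring


lemma J_lim_one (ρ : ℝ) (h1 : -1 < ρ) (h2 : ρ < 1) (U : ℝ → ℝ) (hU : Continuous U) :
    Tendsto (JJ ρ U 0 π) (𝓝[Low] 1) (𝓝 (((U 0 * Real.log ((1 + ρ) / (1 - ρ)) : ℝ) : ℂ))) := by
  obtain ⟨C, hC⟩ := kern_int ρ h1 h2
  rw [Metric.tendsto_nhds]
  intro ε hε
  -- constants
  set C' : ℝ := max C 0 + 1 with hC'
  have hC'0 : 0 < C' := by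
    have := le_max_right C 0
    linarith
  have hCC' : C ≤ C' := by
    have := le_max_left C 0
    linarith
  obtain ⟨ε₁, hε₁⟩ : ∃ ε₁ : ℝ, ε₁ = ε / (4 * C') := ⟨_, rfl⟩
  have hε₁0 : 0 < ε₁ := by rw [hε₁]; positivity
  obtain ⟨η, hη⟩ : ∃ η : ℝ, η = ε / (4 * π) := ⟨_, rfl⟩
  have hη0 : 0 < η := by rw [hη]; have := Real.pi_pos; positivity
  obtain ⟨δ, hδ0, hδ1, hδ⟩ : ∃ δ : ℝ, 0 < δ ∧ δ ≤ 1 ∧ ∀ t : ℝ, 0 ≤ t → t ≤ δ → |U t - U 0| ≤ ε₁ := by
    have hc := Metric.continuousAt_iff.mp (hU.continuousAt (x := 0)) ε₁ hε₁0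
    obtain ⟨d, hd, hd2⟩ := hc
    refine ⟨min (d / 2) 1, by positivity, min_le_right _ _, ?_⟩
    intro t ht0 ht1
    have h3 : t ≤ d / 2 := ht1.trans (min_le_left _ _)
    have h4 : dist t 0 < d := by
      rw [Real.dist_eq, sub_zero, abs_of_nonneg ht0]
      linarith
    have h5 := hd2 h4
    rw [Real.dist_eq] at h5
    exact h5.le
  obtain ⟨M, hM0, hM⟩ : ∃ M : ℝ, 0 < M ∧ ∀ t ∈ Icc (0:ℝ) π, |U t - U 0| ≤ M := by
    have hcomp : IsCompact (Icc (0:ℝ) π) := isCompact_Icc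
    obtain ⟨M, hM⟩ := hcomp.exists_bound_of_continuousOn (f := fun t => U t - U 0)
      (by fun_prop)
    refine ⟨max M 0 + 1, ?_, ?_⟩
    · have := le_max_right M 0
      linarith
    · intro t ht
      have h3 := hM t ht
      rw [Real.norm_eq_abs] at h3
      have := le_max_left M 0
      linarith
  have hm1 : mob ρ 1 = 1 ∧ ContinuousAt (mob ρ) 1 := by
    obtain ⟨f1, f2, f3, f4, f5, f6, f7, f8, f9, f10, f11, f12, f13, f14, f15⟩ :=
      mob_facts ρ h1 h2 1 (by simp)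
    exact ⟨f13, f15.continuousAt⟩
  have hev1 : ∀ᶠ z in 𝓝[Low] (1:ℂ), ‖z - 1‖ ≤ 1 := by
    apply mem_nhdsWithin_of_mem_nhds
    filter_upwards [Metric.ball_mem_nhds (1:ℂ) one_pos] with z hz
    rw [mem_ball, dist_eq_norm] at hz
    exact hz.le
  have hev2 : ∀ᶠ z in 𝓝[Low] (1:ℂ), ‖mob ρ z - 1‖ ≤ 1 := by
    apply mem_nhdsWithin_of_mem_nhds
    have h3 := hm1.2.tendsto
    rw [hm1.1] at h3
    filter_upwards [h3 (Metric.ball_mem_nhds (1:ℂ) one_pos)] with z hz
    rw [mem_preimage, mem_ball, dist_eq_norm] at hz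
    exact hz.le
  have hev3 : ∀ᶠ z in 𝓝[Low] (1:ℂ), ‖mob ρ z - z‖ ≤ η * δ ^ 2 / (25 * M) := by
    apply mem_nhdsWithin_of_mem_nhds
    have h3 : Tendsto (fun z => mob ρ z - z) (𝓝 1) (𝓝 0) := by
      have h4 := hm1.2.tendsto.sub (tendsto_id (α := ℂ) (x := 𝓝 (1:ℂ)))
      rw [hm1.1] at h4
      simpa using h4
    have hp : 0 < η * δ ^ 2 / (25 * M) := by positivity
    filter_upwards [h3 (Metric.ball_mem_nhds (0:ℂ) hp)] with z hz
    rw [mem_preimage, mem_ball, dist_eq_norm, sub_zero] at hz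
    exact hz.le
  filter_upwards [hev1, hev2, hev3, self_mem_nhdsWithin] with z hz1 hz2 hz3 hzL
  have hmL := J_lim_one_mob ρ h1 h2 z hzL
  rw [dist_eq_norm, J_lim_one_sub ρ h1 h2 U hU z hzL]
  have hkc : ContinuousOn (fun t : ℝ => I * exp (t * I) / (exp (t * I) - mob ρ z) -
      I * exp (t * I) / (exp (t * I) - z)) (uIcc 0 π) :=
    (J_lim_one_cont _ hmL).sub (J_lim_one_cont z hzL)
  have hint1 : IntervalIntegrable (fun t : ℝ => ε₁ * ‖I * exp (t * I) / (exp (t * I) - mob ρ z) -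
      I * exp (t * I) / (exp (t * I) - z)‖) volume 0 π := by
    apply ContinuousOn.intervalIntegrable
    exact continuousOn_const.mul hkc.norm
  have hint2 : IntervalIntegrable (fun t : ℝ => η) volume 0 π := intervalIntegrable_const
  have hle : ‖∫ t in (0:ℝ)..π, ((U t - U 0 : ℝ) : ℂ) *
      (I * exp (t * I) / (exp (t * I) - mob ρ z) - I * exp (t * I) / (exp (t * I) - z))‖ ≤
      ∫ t in (0:ℝ)..π, (ε₁ * ‖I * exp (t * I) / (exp (t * I) - mob ρ z) -
      I * exp (t * I) / (exp (t * I) - z)‖ + η) := by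
    apply intervalIntegral.norm_integral_le_of_norm_le Real.pi_pos.le _ (hint1.add hint2)
    refine Filter.Eventually.of_forall ?_
    intro t ht
    rw [norm_mul, norm_real, Real.norm_eq_abs]
    rcases le_total t δ with h | h
    · have h3 := hδ t ht.1.le h
      have h4 := mul_le_mul_of_nonneg_right h3 (norm_nonneg (I * exp (t * I) /
        (exp (t * I) - mob ρ z) - I * exp (t * I) / (exp (t * I) - z)))
      linarith
    · have h3 := J_lim_one_kernel δ hδ0 hδ1 z (mob ρ z) hzL hmL hz1 hz2 t h ht.2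
      have h4 := hM t ⟨ht.1.le, ht.2⟩
      have h5 : 25 * ‖mob ρ z - z‖ / δ ^ 2 ≤ η / M := by
        rw [div_le_div_iff₀ (by positivity) hM0]
        rw [le_div_iff₀ (by positivity)] at hz3
        linarith
      have h6 := mul_le_mul h4 (h3.trans h5) (norm_nonneg _) hM0.le
      have h7 : M * (η / M) = η := mul_div_cancel₀ _ hM0.ne'
      rw [h7] at h6
      have h8 : 0 ≤ ε₁ * ‖I * exp (t * I) / (exp (t * I) - mob ρ z) -
        I * exp (t * I) / (exp (t * I) - z)‖ := by positivity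
      linarith
  rw [intervalIntegral.integral_add hint1 hint2, intervalIntegral.integral_const_mul,
    intervalIntegral.integral_const, sub_zero, smul_eq_mul] at hle
  have h9 := hC z hzL
  have h10 : ε₁ * (∫ t in (0:ℝ)..π, ‖I * exp (t * I) / (exp (t * I) - mob ρ z) -
      I * exp (t * I) / (exp (t * I) - z)‖) ≤ ε₁ * C' :=
    mul_le_mul_of_nonneg_left (h9.trans hCC') hε₁0.le
  have h11 : ε₁ * C' = ε / 4 := by rw [hε₁]; field_simp
  have h12 : π * η = ε / 4 := by rw [hη]; have := Real.pi_pos; field_simp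
  linarith

lemma low_ne (z : ℂ) (hz : z ∈ Low) (t : ℝ) (ht0 : 0 ≤ t) (ht1 : t ≤ π) :
    exp (t * I) - z ≠ 0 := by
  obtain ⟨_, him, hz1, hz2⟩ := hz
  have h1 : 0 < ‖z - 1‖ := norm_pos_iff.2 (sub_ne_zero.2 hz1)
  have h2 : 0 < ‖z + 1‖ := norm_pos_iff.2 (fun h => hz2 (eq_neg_of_add_eq_zero_left h))
  rcases le_total t (π / 2) with h | h
  · have h3 := dist_right t ht0 h z him
    have : 0 < ‖exp (t * I) - z‖ := by linarith
    exact norm_pos_iff.1 this
  · have h3 := dist_left t h ht1 z him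
    have : 0 < ‖exp (t * I) - z‖ := by linarith
    exact norm_pos_iff.1 this

lemma mob_low (ρ : ℝ) (h1 : -1 < ρ) (h2 : ρ < 1) (z : ℂ) (hz : z ∈ Low) : mob ρ z ∈ Low := by
  have h := mob_facts ρ h1 h2 z hz.1
  exact ⟨h.2.1, h.2.2.2.2.2.1 hz.2.1, h.2.2.2.2.2.2.2.2.2.2.1 hz.2.2.1,
    h.2.2.2.2.2.2.2.2.2.2.2.1 hz.2.2.2⟩

lemma kcont (z : ℂ) (hz : z ∈ Low) :
    ContinuousOn (fun t : ℝ => I * exp (t * I) / (exp (t * I) - z)) (uIcc 0 π) := by
  rw [uIcc_of_le Real.pi_pos.le]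
  apply ContinuousOn.div
  · fun_prop
  · fun_prop
  · intro t ht
    exact low_ne z hz t ht.1 ht.2

/-- kernel -/
noncomputable def kk (ρ : ℝ) (z : ℂ) (t : ℝ) : ℂ :=
  I * exp (t * I) / (exp (t * I) - mob ρ z) - I * exp (t * I) / (exp (t * I) - z)

lemma kk_cont (ρ : ℝ) (h1 : -1 < ρ) (h2 : ρ < 1) (z : ℂ) (hz : z ∈ Low) :
    ContinuousOn (kk ρ z) (uIcc 0 π) :=
  (kcont _ (mob_low ρ h1 h2 z hz)).sub (kcont z hz)

lemma JJ_eq (ρ : ℝ) (h1 : -1 < ρ) (h2 : ρ < 1) (U : ℝ → ℝ) (hU : Continuous U) (z : ℂ)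
    (hz : z ∈ Low) : JJ ρ U 0 π z = ∫ t in (0:ℝ)..π, (U t : ℂ) * kk ρ z t := by
  unfold JJ Phi
  have hUc : Continuous (fun t : ℝ => (U t : ℂ)) := continuous_ofReal.comp hU
  rw [← intervalIntegral.integral_sub]
  · congr 1
    funext t
    unfold kk
    ring
  · exact (hUc.continuousOn.mul (kcont _ (mob_low ρ h1 h2 z hz))).intervalIntegrable
  · exact (hUc.continuousOn.mul (kcont z hz)).intervalIntegrable

lemma kk_bound (ρ : ℝ) (h1 : -1 < ρ) (h2 : ρ < 1) (z : ℂ) (hz : z ∈ Low) (δ : ℝ) (hδ : 0 < δ)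
    (hδ1 : δ ≤ 1) (hz1 : ‖z + 1‖ ≤ (1 - |ρ|) / 2) (t : ℝ) (ht0 : 0 ≤ t) (ht1 : t ≤ π - δ) :
    ‖kk ρ z t‖ ≤ 50 * ‖z + 1‖ / ((1 - |ρ|) * δ ^ 2) := by
  have hρ : |ρ| < 1 := abs_lt.2 ⟨h1, h2⟩
  have hρ0 : 0 < 1 - |ρ| := by linarith
  have hρa := abs_nonneg ρ
  have hf := mob_facts ρ h1 h2 z hz.1
  have hd := hf.1
  have hml := mob_low ρ h1 h2 z hz
  have hnz : ‖z‖ ≤ 1 := hz.1
  -- norm of the denominator 1 + ρ z
  have hden : 1 - |ρ| ≤ ‖1 + (ρ : ℂ) * z‖ := by
    have h3 : ‖(ρ : ℂ) * z‖ ≤ |ρ| := by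
      rw [norm_mul, Complex.norm_real, Real.norm_eq_abs]
      nlinarith
    have h4 : ‖(1 : ℂ)‖ ≤ ‖1 + (ρ : ℂ) * z‖ + ‖(ρ : ℂ) * z‖ := by
      have := norm_sub_le (1 + (ρ : ℂ) * z) ((ρ : ℂ) * z)
      rwa [add_sub_cancel_right] at this
    rw [norm_one] at h4
    linarith
  have hn1 : ‖1 - z‖ ≤ 2 := by
    have := norm_sub_le (1 : ℂ) z
    rw [norm_one] at this
    linarith
  have e1 : mob ρ z - z = (ρ * ((1 - z) * (z + 1))) / (1 + ρ * z) := by
    unfold mob
    rw [eq_div_iff hd, sub_mul, div_mul_cancel₀ _ hd]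
    ring
  have e2 : mob ρ z + 1 = ((1 + ρ) * (z + 1)) / (1 + ρ * z) := by
    unfold mob
    rw [eq_div_iff hd, add_mul, div_mul_cancel₀ _ hd]
    ring
  have b1 : ‖mob ρ z - z‖ ≤ 2 * ‖z + 1‖ / (1 - |ρ|) := by
    rw [e1, norm_div, norm_mul, norm_mul, Complex.norm_real, Real.norm_eq_abs]
    apply div_le_div₀ (by positivity) _ hρ0 hden
    have h5 : ‖1 - z‖ * ‖z + 1‖ ≤ 2 * ‖z + 1‖ := mul_le_mul_of_nonneg_right hn1 (norm_nonneg _)
    have h6 : 0 ≤ ‖1 - z‖ * ‖z + 1‖ := by positivity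
    nlinarith
  have b2 : ‖mob ρ z + 1‖ ≤ 1 := by
    have h7 : ‖mob ρ z + 1‖ ≤ 2 * ‖z + 1‖ / (1 - |ρ|) := by
      rw [e2, norm_div, norm_mul]
      apply div_le_div₀ (by positivity) _ hρ0 hden
      have h8 : ‖(1 + ρ : ℂ)‖ ≤ 2 := by
        have := norm_add_le (1 : ℂ) (ρ : ℂ)
        rw [norm_one, Complex.norm_real, Real.norm_eq_abs] at this
        linarith
      exact mul_le_mul_of_nonneg_right h8 (norm_nonneg _)
    refine h7.trans ?_
    rw [div_le_one hρ0]
    linarith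
  -- lower bound for the denominators
  have key : ∀ w : ℂ, w.im ≤ 0 → ‖w + 1‖ ≤ 1 → δ / 5 ≤ ‖exp (t * I) - w‖ := by
    intro w hw hw1
    rcases le_total t (π / 2) with h | h
    · have h9 := dist_right t ht0 h w hw
      have h10 : (1 : ℝ) ≤ ‖w - 1‖ := by
        have := norm_sub_le (w + 1) (w - 1)
        have e : (w + 1) - (w - 1) = 2 := by ring
        rw [e] at this
        have h11 : ‖(2 : ℂ)‖ = 2 := by norm_num
        rw [h11] at this
        linarith
      linarith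
    · have h9 := dist_left t h (by linarith) w hw
      have := norm_nonneg (w + 1)
      linarith
  have c1 := key z hz.2.1 (by linarith)
  have c2 := key (mob ρ z) hml.2.1 b2
  have hne1 := low_ne z hz t ht0 (by linarith)
  have hne2 := low_ne _ hml t ht0 (by linarith)
  have e3 : kk ρ z t = I * exp (t * I) * (mob ρ z - z) /
      ((exp (t * I) - mob ρ z) * (exp (t * I) - z)) := by
    unfold kk
    rw [div_sub_div _ _ hne2 hne1]
    congr 1
    ring
  have e4 : ‖exp ((t : ℂ) * I)‖ = 1 := Complex.norm_exp_ofReal_mul_I t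
  rw [e3, norm_div, norm_mul, norm_mul, norm_mul, Complex.norm_I, e4, one_mul, one_mul]
  have hpos : 0 < (δ / 5) * (δ / 5) := by positivity
  have h12 : (δ / 5) * (δ / 5) ≤ ‖exp (t * I) - mob ρ z‖ * ‖exp (t * I) - z‖ :=
    mul_le_mul c2 c1 (by positivity) (norm_nonneg _)
  calc ‖mob ρ z - z‖ / (‖exp (t * I) - mob ρ z‖ * ‖exp (t * I) - z‖)
      ≤ (2 * ‖z + 1‖ / (1 - |ρ|)) / ((δ / 5) * (δ / 5)) :=
        div_le_div₀ (by positivity) b1 hpos h12
    _ = 50 * ‖z + 1‖ / ((1 - |ρ|) * δ ^ 2) := by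
        field_simp
        ring



lemma J_lim_neg (ρ : ℝ) (h1 : -1 < ρ) (h2 : ρ < 1) (U : ℝ → ℝ) (hU : Continuous U) :
    Tendsto (JJ ρ U 0 π) (𝓝[Low] (-1)) (𝓝 (((U π * Real.log ((1 + ρ) / (1 - ρ)) : ℝ) : ℂ))) := by
  obtain ⟨C, hC⟩ := kern_int ρ h1 h2
  have hρ : |ρ| < 1 := abs_lt.2 ⟨h1, h2⟩
  have hρ0 : 0 < 1 - |ρ| := by linarith
  have hpi := Real.pi_pos
  obtain ⟨M, hM⟩ := (isCompact_Icc (a := (0:ℝ)) (b := π)).exists_bound_of_continuousOn
    (f := fun t => U t - U π) (hU.sub continuous_const).continuousOn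
  have hM0 : 0 ≤ M := (norm_nonneg _).trans (hM π ⟨hpi.le, le_refl _⟩)
  rw [Metric.tendsto_nhdsWithin_nhds]
  intro ε0 hε0
  obtain ⟨ε, hε⟩ : ∃ ε : ℝ, ε = ε0 / (2 * (|C| + 1)) := ⟨_, rfl⟩
  have hεpos : 0 < ε := by rw [hε]; positivity
  obtain ⟨δ', hδ'0, hδ'⟩ := Metric.continuous_iff.1 hU π ε hεpos
  obtain ⟨δ, hδ⟩ : ∃ δ : ℝ, δ = min (δ' / 2) 1 := ⟨_, rfl⟩
  have hδ0 : 0 < δ := by rw [hδ]; positivity
  have hδ1 : δ ≤ 1 := by rw [hδ]; exact min_le_right _ _
  have hδ2 : δ < δ' := by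
    rw [hδ]
    exact lt_of_le_of_lt (min_le_left _ _) (by linarith)
  have hDpos : 0 < (1 - |ρ|) * δ ^ 2 := by positivity
  obtain ⟨B, hB⟩ : ∃ B : ℝ, B = M * π * (50 / ((1 - |ρ|) * δ ^ 2)) := ⟨_, rfl⟩
  have hB0 : 0 ≤ B := by rw [hB]; positivity
  obtain ⟨r, hr⟩ : ∃ r : ℝ, r = min ((1 - |ρ|) / 2) (ε0 / (2 * (B + 1))) := ⟨_, rfl⟩
  have hr0 : 0 < r := by
    rw [hr]
    exact lt_min (by linarith) (by positivity)
  refine ⟨r, hr0, ?_⟩
  intro z hz hdz
  have hz1 : ‖z + 1‖ < r := by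
    rw [dist_eq_norm] at hdz
    have : z - -1 = z + 1 := by ring
    rwa [this] at hdz
  have hz2 : ‖z + 1‖ ≤ (1 - |ρ|) / 2 := hz1.le.trans (by rw [hr]; exact min_le_left _ _)
  have hz3 : ‖z + 1‖ < ε0 / (2 * (B + 1)) := lt_of_lt_of_le hz1 (by rw [hr]; exact min_le_right _ _)
  have hkc := kk_cont ρ h1 h2 z hz
  have hUc : Continuous (fun t : ℝ => (U t : ℂ)) := continuous_ofReal.comp hU
  have hone : ∫ t in (0:ℝ)..π, kk ρ z t = (Real.log ((1 + ρ) / (1 - ρ)) : ℝ) := by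
    rw [← J_one ρ h1 h2 z hz, JJ_eq ρ h1 h2 (fun _ => 1) continuous_const z hz]
    simp
  have hdiff : JJ ρ U 0 π z - ((U π * Real.log ((1 + ρ) / (1 - ρ)) : ℝ) : ℂ) =
      ∫ t in (0:ℝ)..π, ((U t : ℂ) - (U π : ℂ)) * kk ρ z t := by
    rw [JJ_eq ρ h1 h2 U hU z hz, Complex.ofReal_mul, ← hone, ← intervalIntegral.integral_const_mul,
      ← intervalIntegral.integral_sub]
    · congr 1
      funext t
      ring
    · exact (hUc.continuousOn.mul hkc).intervalIntegrable
    · exact (continuousOn_const.mul hkc).intervalIntegrable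
  rw [dist_eq_norm, hdiff]
  obtain ⟨g, hg⟩ : ∃ g : ℝ, g = 50 * ‖z + 1‖ / ((1 - |ρ|) * δ ^ 2) := ⟨_, rfl⟩
  have hg0 : 0 ≤ g := by rw [hg]; positivity
  have hnk : IntervalIntegrable (fun t => ‖kk ρ z t‖) volume 0 π := hkc.norm.intervalIntegrable
  have hbd : ‖∫ t in (0:ℝ)..π, ((U t : ℂ) - (U π : ℂ)) * kk ρ z t‖ ≤
      ∫ t in (0:ℝ)..π, (ε * ‖kk ρ z t‖ + M * g) := by
    apply intervalIntegral.norm_integral_le_of_norm_le hpi.le
    · refine Filter.Eventually.of_forall fun t ht => ?_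
      have hUt : ‖(U t : ℂ) - (U π : ℂ)‖ = |U t - U π| := by
        rw [← Complex.ofReal_sub, Complex.norm_real, Real.norm_eq_abs]
      rw [norm_mul, hUt]
      have hk0 := norm_nonneg (kk ρ z t)
      rcases le_total t (π - δ) with h | h
      · have h3 : ‖kk ρ z t‖ ≤ g := by
          rw [hg]
          exact kk_bound ρ h1 h2 z hz δ hδ0 hδ1 hz2 t ht.1.le h
        have h4 : |U t - U π| ≤ M := hM t ⟨ht.1.le, ht.2⟩
        have h5 : |U t - U π| * ‖kk ρ z t‖ ≤ M * g :=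
          mul_le_mul h4 h3 hk0 hM0
        have h6 : 0 ≤ ε * ‖kk ρ z t‖ := by positivity
        linarith
      · have h7 : dist t π < δ' := by
          rw [Real.dist_eq, abs_lt]
          constructor
          · linarith
          · have := ht.2
            linarith
        have h8 : |U t - U π| < ε := by
          have := hδ' t h7
          rwa [Real.dist_eq] at this
        have h9 : |U t - U π| * ‖kk ρ z t‖ ≤ ε * ‖kk ρ z t‖ :=
          mul_le_mul_of_nonneg_right h8.le hk0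
        have h10 : 0 ≤ M * g := by positivity
        linarith
    · exact (hnk.const_mul ε).add intervalIntegrable_const
  have hval : ∫ t in (0:ℝ)..π, (ε * ‖kk ρ z t‖ + M * g) =
      ε * (∫ t in (0:ℝ)..π, ‖kk ρ z t‖) + M * g * π := by
    rw [intervalIntegral.integral_add (hnk.const_mul ε) intervalIntegrable_const,
      intervalIntegral.integral_const_mul, intervalIntegral.integral_const, smul_eq_mul]
    ring
  have hCz : ∫ t in (0:ℝ)..π, ‖kk ρ z t‖ ≤ C := hC z hz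
  have hfin1 : ε * (∫ t in (0:ℝ)..π, ‖kk ρ z t‖) ≤ ε0 / 2 := by
    have h11 : ∫ t in (0:ℝ)..π, ‖kk ρ z t‖ ≤ |C| + 1 := by
      have := le_abs_self C
      linarith
    have h12 : ε * (∫ t in (0:ℝ)..π, ‖kk ρ z t‖) ≤ ε * (|C| + 1) :=
      mul_le_mul_of_nonneg_left h11 hεpos.le
    have h13 : ε * (|C| + 1) = ε0 / 2 := by
      rw [hε]
      field_simp
    linarith
  have hfin2 : M * g * π < ε0 / 2 := by
    have h14 : M * g * π = B * ‖z + 1‖ := by
      rw [hg, hB]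
      ring
    have h15 : (B + 1) * ‖z + 1‖ < ε0 / 2 := by
      have h16 : (B + 1) * ‖z + 1‖ < (B + 1) * (ε0 / (2 * (B + 1))) :=
        mul_lt_mul_of_pos_left hz3 (by linarith)
      have h17 : (B + 1) * (ε0 / (2 * (B + 1))) = ε0 / 2 := by
        field_simp
      linarith
    have h18 := norm_nonneg (z + 1)
    rw [h14]
    linarith
  calc ‖∫ t in (0:ℝ)..π, ((U t : ℂ) - (U π : ℂ)) * kk ρ z t‖
      ≤ ε * (∫ t in (0:ℝ)..π, ‖kk ρ z t‖) + M * g * π := by rw [← hval]; exact hbd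
    _ < ε0 := by linarith

lemma J_low_lims (ρ : ℝ) (h1 : -1 < ρ) (h2 : ρ < 1) (U : ℝ → ℝ) (hU : Continuous U) :
    Tendsto (JJ ρ U (-π) 0) (𝓝[Upp] 1) (𝓝 (((-(U 0 * Real.log ((1 + ρ) / (1 - ρ))) : ℝ) : ℂ))) ∧
    Tendsto (JJ ρ U (-π) 0) (𝓝[Upp] (-1)) (𝓝 (((-(U (-π) * Real.log ((1 + ρ) / (1 - ρ))) : ℝ) : ℂ))) := by
  have hV : Continuous (fun t => U (-t)) := hU.comp continuous_neg
  have key : ∀ z ∈ Upp, JJ ρ U (-π) 0 z = - conj (JJ ρ (fun t => U (-t)) 0 π (conj z)) := by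
    intro z hz
    have hm : mob ρ (conj z) = conj (mob ρ z) := by
      obtain ⟨-, -, -, -, -, -, -, -, -, h, -⟩ := mob_facts ρ h1 h2 z hz.1
      exact h
    unfold JJ
    rw [low_eq U (mob ρ z), low_eq U z, hm, map_sub]
    ring
  have hmaps : MapsTo (fun z : ℂ => conj z) Upp Low := by
    rintro z ⟨ha, hb, hc, hd⟩
    refine ⟨?_, ?_, ?_, ?_⟩
    · simpa using ha
    · simpa using hb
    · intro h
      apply hc
      have := congrArg (fun w : ℂ => conj w) h
      simpa using this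
    · intro h
      apply hd
      have := congrArg (fun w : ℂ => conj w) h
      simpa using this
  have hconj : ∀ w : ℂ, conj w = w → Tendsto (fun z : ℂ => conj z) (𝓝[Upp] w) (𝓝[Low] w) := by
    intro w hw
    have h3 : ContinuousWithinAt (fun z : ℂ => conj z) Upp w :=
      Complex.continuous_conj.continuousWithinAt
    have h4 := h3.tendsto_nhdsWithin hmaps
    rw [hw] at h4
    exact h4
  have main : ∀ (w : ℂ) (r : ℝ), conj w = w →
      Tendsto (JJ ρ (fun t => U (-t)) 0 π) (𝓝[Low] w) (𝓝 ((r : ℝ) : ℂ)) →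
      Tendsto (JJ ρ U (-π) 0) (𝓝[Upp] w) (𝓝 (((-r : ℝ) : ℂ))) := by
    intro w r hw ht
    have h3 := ht.comp (hconj w hw)
    have h4 : Tendsto (fun z => - conj (JJ ρ (fun t => U (-t)) 0 π (conj z))) (𝓝[Upp] w)
        (𝓝 (- conj ((r : ℝ) : ℂ))) :=
      ((Complex.continuous_conj.tendsto _).comp h3).neg
    have h5 : (- conj ((r : ℝ) : ℂ)) = (((-r : ℝ) : ℂ)) := by
      rw [Complex.conj_ofReal]
      push_cast
      rfl
    rw [h5] at h4
    refine h4.congr' ?_
    filter_upwards [self_mem_nhdsWithin] with z hz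
    exact (key z hz).symm
  constructor
  · refine main 1 _ (by simp) ?_
    have := J_lim_one ρ h1 h2 (fun t => U (-t)) hV
    simpa using this
  · refine main (-1) _ (by simp) ?_
    have := J_lim_neg ρ h1 h2 (fun t => U (-t)) hV
    simpa using this

lemma corner_JJ_diff (ρ : ℝ) (h1 : -1 < ρ) (h2 : ρ < 1) (U : ℝ → ℝ) (hU : Continuous U) (a b : ℝ)
    (hab : a ≤ b) (z : ℂ) (hz1 : ‖z‖ ≤ 1)
    (hz : ∀ t ∈ Icc a b, exp ((t : ℂ) * I) ≠ z)
    (hz' : ∀ t ∈ Icc a b, exp ((t : ℂ) * I) ≠ mob ρ z) : DifferentiableAt ℂ (JJ ρ U a b) z := by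
  obtain ⟨-, -, -, -, -, -, -, -, -, -, -, -, -, -, hmd⟩ := mob_facts ρ h1 h2 z hz1
  have e1 := (phi_diff U hU a b hab (mob ρ z) hz').comp z hmd
  exact e1.sub (phi_diff U hU a b hab z hz)

lemma corner_re (w : ℂ) : (w / (π * I)).re = w.im / π := by
  have hpi : (π : ℂ) ≠ 0 := by exact_mod_cast Real.pi_ne_zero
  have : w / (π * I) = ((π⁻¹ : ℝ) : ℂ) * (w * (-I)) := by
    push_cast
    field_simp
    rw [I_sq]; ring
  rw [this, re_ofReal_mul]
  simp
  ring

lemma corner_sin1 (t : ℝ) (ht : t ∈ Icc 0 π) : 0 ≤ (exp ((t : ℂ) * I)).im := by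
  rw [Complex.exp_ofReal_mul_I_im]
  exact Real.sin_nonneg_of_mem_Icc ht

lemma corner_sin2 (t : ℝ) (ht : t ∈ Icc (-π) 0) : (exp ((t : ℂ) * I)).im ≤ 0 := by
  rw [Complex.exp_ofReal_mul_I_im]
  exact Real.sin_nonpos_of_nonpos_of_neg_pi_le ht.2 ht.1

lemma corner_im_ne (z : ℂ) (hz : ‖z‖ = 1) (h1 : z ≠ 1) (h2 : z ≠ -1) : z.im ≠ 0 := by
  intro him
  have h3 : z = (z.re : ℂ) := by
    apply Complex.ext <;> simp [him]
  rw [h3, Complex.norm_real, Real.norm_eq_abs] at hz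
  rcases (abs_eq (by norm_num : (0 : ℝ) ≤ 1)).1 hz with h | h
  · apply h1; rw [h3, h]; simp
  · apply h2; rw [h3, h]; simp


lemma corner (ρ : ℝ) (h1 : -1 < ρ) (h2 : ρ < 1) (F : ℂ → ℂ) (hc : ContinuousOn F (closedBall 0 1))
    (hd : DifferentiableOn ℂ F (ball 0 1)) :
    ∃ G : ℂ → ℂ, ContinuousOn G (closedBall 0 1) ∧ DifferentiableOn ℂ G (ball 0 1) ∧
      (∀ z, ‖z‖ = 1 → 0 ≤ z.im → (G z).re = (F (mob ρ z)).re) ∧
      (∀ z, ‖z‖ = 1 → z.im ≤ 0 → (G z).re = (F z).re) := by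
  set U : ℝ → ℝ := fun t => (F (exp (t * I))).re with hU
  have hUc : Continuous U := by
    refine Complex.continuous_re.comp ?_
    refine hc.comp_continuous (by fun_prop) (fun t => ?_)
    rw [mem_closedBall, dist_zero_right, Complex.norm_exp_ofReal_mul_I]
  have hUpi : U (-π) = U π := by
    simp only [hU]
    congr 2
    push_cast
    rw [neg_mul, Complex.exp_neg, Complex.exp_pi_mul_I]
    norm_num
  set L : ℝ := Real.log ((1 + ρ) / (1 - ρ)) with hL
  have hpiI : (π : ℂ) * I ≠ 0 := mul_ne_zero (by exact_mod_cast Real.pi_ne_zero) I_ne_zero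
  set G1 : ℂ → ℂ := fun z => F z + JJ ρ U 0 π z / (π * I) with hG1
  set G2 : ℂ → ℂ := fun z => F (mob ρ z) - JJ ρ U (-π) 0 z / (π * I) with hG2
  have hid : ∀ z, ‖z‖ < 1 → G1 z = G2 z := by
    intro z hz
    obtain ⟨-, -, hm, -⟩ := mob_facts ρ h1 h2 z hz.le
    have e1 := phi_total F hc hd z hz
    have e2 := phi_total F hc hd (mob ρ z) (hm hz)
    change Phi U (-π) 0 z + Phi U 0 π z = _ at e1
    change Phi U (-π) 0 (mob ρ z) + Phi U 0 π (mob ρ z) = _ at e2
    have e3 : JJ ρ U 0 π z + JJ ρ U (-π) 0 z = (π * I) * (F (mob ρ z) - F z) := by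
      unfold JJ
      linear_combination e2 - e1
    have e4 : (JJ ρ U 0 π z + JJ ρ U (-π) 0 z) / (π * I) = F (mob ρ z) - F z := by
      rw [e3, mul_div_cancel_left₀ _ hpiI]
    rw [add_div] at e4
    simp only [hG1, hG2]
    linear_combination e4
  classical
  set G : ℂ → ℂ := fun z => if z = 1 then F 1 + ((U 0 * L : ℝ) : ℂ) / (π * I) else
    if z = -1 then F (-1) + ((U π * L : ℝ) : ℂ) / (π * I) else
    if z.im ≤ 0 then G1 z else G2 z with hG
  have hGone : G 1 = F 1 + ((U 0 * L : ℝ) : ℂ) / (π * I) := by simp [hG]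
  have hGneg : G (-1) = F (-1) + ((U π * L : ℝ) : ℂ) / (π * I) := by
    have : (-1 : ℂ) ≠ 1 := by norm_num
    simp only [hG]
    rw [if_neg this, if_pos trivial]
  have hGlow : ∀ z ∈ Low, G z = G1 z := by
    rintro z ⟨-, h3, h4, h5⟩
    simp only [hG]
    rw [if_neg h4, if_neg h5, if_pos h3]
  have hGupp : ∀ z ∈ Upp, G z = G2 z := by
    rintro z ⟨hn, h3, h4, h5⟩
    simp only [hG]
    rw [if_neg h4, if_neg h5]
    split_ifs with h6
    · have h7 : z.im = 0 := le_antisymm h6 h3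
      have h8 : ‖z‖ < 1 := by
        refine lt_of_le_of_ne hn fun h9 => corner_im_ne z h9 h4 h5 h7
      exact hid z h8
    · rfl
  have hGball : ∀ z, ‖z‖ < 1 → G z = G1 z := by
    intro z hz
    have h4 : z ≠ 1 := by rintro rfl; simp at hz
    have h5 : z ≠ -1 := by rintro rfl; simp at hz
    rcases le_total z.im 0 with h | h
    · exact hGlow z ⟨hz.le, h, h4, h5⟩
    · rw [hGupp z ⟨hz.le, h, h4, h5⟩, hid z hz]
  have hG1d : ∀ z, ‖z‖ < 1 → DifferentiableAt ℂ G1 z := by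
    intro z hz
    obtain ⟨-, -, hm, -⟩ := mob_facts ρ h1 h2 z hz.le
    have hne : ∀ w : ℂ, ‖w‖ < 1 → ∀ t : ℝ, exp ((t : ℂ) * I) ≠ w := by
      rintro w hw t rfl
      rw [Complex.norm_exp_ofReal_mul_I] at hw
      exact lt_irrefl _ hw
    have hF : DifferentiableAt ℂ F z := hd.differentiableAt
      (isOpen_ball.mem_nhds (by rw [mem_ball, dist_zero_right]; exact hz))
    exact hF.add ((corner_JJ_diff ρ h1 h2 U hUc 0 π Real.pi_pos.le z hz.le
      (fun t _ => hne z hz t) (fun t _ => hne _ (hm hz) t)).div_const _)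
  have hGd : DifferentiableOn ℂ G (ball 0 1) := by
    have : DifferentiableOn ℂ G1 (ball 0 1) := fun z hz => by
      rw [mem_ball, dist_zero_right] at hz
      exact (hG1d z hz).differentiableWithinAt
    refine this.congr fun z hz => ?_
    rw [mem_ball, dist_zero_right] at hz
    exact hGball z hz
  have hlowcb : Low ⊆ closedBall (0 : ℂ) 1 := fun z hz => by
    rw [mem_closedBall, dist_zero_right]; exact hz.1
  have huppcb : Upp ⊆ closedBall (0 : ℂ) 1 := fun z hz => by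
    rw [mem_closedBall, dist_zero_right]; exact hz.1
  have hmobcb : ∀ z ∈ closedBall (0 : ℂ) 1, mob ρ z ∈ closedBall (0 : ℂ) 1 := fun z hz => by
    rw [mem_closedBall, dist_zero_right] at hz ⊢
    exact (mob_facts ρ h1 h2 z hz).2.1
  have hmobc : ∀ z ∈ closedBall (0 : ℂ) 1, ContinuousAt (mob ρ) z := fun z hz => by
    rw [mem_closedBall, dist_zero_right] at hz
    obtain ⟨-, -, -, -, -, -, -, -, -, -, -, -, -, -, hmd⟩ := mob_facts ρ h1 h2 z hz
    exact hmd.continuousAt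
  have hFM : ContinuousOn (fun z => F (mob ρ z)) (closedBall 0 1) := by
    refine hc.comp (fun z hz => (hmobc z hz).continuousWithinAt) hmobcb
  have h1cb : (1 : ℂ) ∈ closedBall (0 : ℂ) 1 := by simp
  have hn1cb : (-1 : ℂ) ∈ closedBall (0 : ℂ) 1 := by simp
  obtain ⟨-, -, -, -, -, -, -, -, -, -, -, -, hm1, hmn1, -⟩ := mob_facts ρ h1 h2 0 (by simp)
  have hcover : closedBall (0 : ℂ) 1 ⊆ Low ∪ Upp ∪ {1} ∪ {-1} := by
    intro z hz
    rw [mem_closedBall, dist_zero_right] at hz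
    by_cases h3 : z = 1
    · exact Or.inl (Or.inr h3)
    by_cases h4 : z = -1
    · exact Or.inr h4
    rcases le_total z.im 0 with h | h
    · exact Or.inl (Or.inl (Or.inl ⟨hz, h, h3, h4⟩))
    · exact Or.inl (Or.inl (Or.inr ⟨hz, h, h3, h4⟩))
  -- continuity at the corners
  have hglue : ∀ c v : ℂ, c ∈ closedBall (0 : ℂ) 1 → (c = 1 ∨ c = -1) → G c = v →
      Tendsto G (𝓝[Low] c) (𝓝 v) → Tendsto G (𝓝[Upp] c) (𝓝 v) →
      ContinuousWithinAt G (closedBall 0 1) c := by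
    intro c v _ hc1 hGc hlow hupp
    have e1 : ContinuousWithinAt G Low c := by rw [ContinuousWithinAt, hGc]; exact hlow
    have e2 : ContinuousWithinAt G Upp c := by rw [ContinuousWithinAt, hGc]; exact hupp
    have e3 : ContinuousWithinAt G {(1 : ℂ)} c := by
      rcases hc1 with rfl | rfl
      · exact continuousWithinAt_singleton
      · exact continuousWithinAt_of_notMem_closure (by
          rw [closure_singleton]; norm_num)
    have e4 : ContinuousWithinAt G {(-1 : ℂ)} c := by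
      rcases hc1 with rfl | rfl
      · exact continuousWithinAt_of_notMem_closure (by
          rw [closure_singleton]; norm_num)
      · exact continuousWithinAt_singleton
    exact (((e1.union e2).union e3).union e4).mono hcover
  have hc_one : ContinuousWithinAt G (closedBall 0 1) 1 := by
    refine hglue 1 _ h1cb (Or.inl rfl) hGone ?_ ?_
    · have e1 : Tendsto F (𝓝[Low] 1) (𝓝 (F 1)) := (hc 1 h1cb).mono hlowcb
      have e2 := J_lim_one ρ h1 h2 U hUc
      have e3 := e1.add (e2.div_const ((π : ℂ) * I))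
      refine e3.congr' ?_
      filter_upwards [self_mem_nhdsWithin] with z hz
      rw [hGlow z hz]
    · have e1 : Tendsto (fun z => F (mob ρ z)) (𝓝[Upp] 1) (𝓝 (F (mob ρ 1))) :=
        (hFM 1 h1cb).mono huppcb
      have e2 := (J_low_lims ρ h1 h2 U hUc).1
      have e3 := e1.sub (e2.div_const ((π : ℂ) * I))
      rw [hm1] at e3
      have e4 : F 1 + ((U 0 * L : ℝ) : ℂ) / (π * I) =
          F 1 - (((-(U 0 * Real.log ((1 + ρ) / (1 - ρ))) : ℝ) : ℂ)) / (π * I) := by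
        rw [← hL]; push_cast; ring
      rw [e4]
      refine e3.congr' ?_
      filter_upwards [self_mem_nhdsWithin] with z hz
      rw [hGupp z hz]
  have hc_neg : ContinuousWithinAt G (closedBall 0 1) (-1) := by
    refine hglue (-1) _ hn1cb (Or.inr rfl) hGneg ?_ ?_
    · have e1 : Tendsto F (𝓝[Low] (-1)) (𝓝 (F (-1))) := (hc (-1) hn1cb).mono hlowcb
      have e2 := J_lim_neg ρ h1 h2 U hUc
      have e3 := e1.add (e2.div_const ((π : ℂ) * I))
      refine e3.congr' ?_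
      filter_upwards [self_mem_nhdsWithin] with z hz
      rw [hGlow z hz]
    · have e1 : Tendsto (fun z => F (mob ρ z)) (𝓝[Upp] (-1)) (𝓝 (F (mob ρ (-1)))) :=
        (hFM (-1) hn1cb).mono huppcb
      have e2 := (J_low_lims ρ h1 h2 U hUc).2
      have e3 := e1.sub (e2.div_const ((π : ℂ) * I))
      rw [hmn1] at e3
      have e4 : F (-1) + ((U π * L : ℝ) : ℂ) / (π * I) =
          F (-1) - (((-(U (-π) * Real.log ((1 + ρ) / (1 - ρ))) : ℝ) : ℂ)) / (π * I) := by
        rw [← hL, hUpi]; push_cast; ring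
      rw [e4]
      refine e3.congr' ?_
      filter_upwards [self_mem_nhdsWithin] with z hz
      rw [hGupp z hz]
  -- sides of the arcs
  have hside1 : ∀ z : ℂ, ‖z‖ ≤ 1 → z.im < 0 → (∀ t ∈ Icc (0 : ℝ) π, exp ((t : ℂ) * I) ≠ z) ∧
      (∀ t ∈ Icc (0 : ℝ) π, exp ((t : ℂ) * I) ≠ mob ρ z) := by
    intro z hz him
    obtain ⟨-, -, -, -, -, -, -, hmi, -⟩ := mob_facts ρ h1 h2 z hz
    constructor
    · intro t ht h
      have := corner_sin1 t ht
      rw [h] at this; linarith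
    · intro t ht h
      have := corner_sin1 t ht
      rw [h] at this; linarith [hmi him]
  have hside2 : ∀ z : ℂ, ‖z‖ ≤ 1 → 0 < z.im → (∀ t ∈ Icc (-π) (0 : ℝ), exp ((t : ℂ) * I) ≠ z) ∧
      (∀ t ∈ Icc (-π) (0 : ℝ), exp ((t : ℂ) * I) ≠ mob ρ z) := by
    intro z hz him
    obtain ⟨-, -, -, -, -, -, hmi, -⟩ := mob_facts ρ h1 h2 z hz
    constructor
    · intro t ht h
      have := corner_sin2 t ht
      rw [h] at this; linarith
    · intro t ht h
      have := corner_sin2 t ht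
      rw [h] at this; linarith [hmi him]
  have hnpi : -π ≤ (0 : ℝ) := by linarith [Real.pi_pos]
  refine ⟨G, ?_, hGd, ?_, ?_⟩
  · intro z hz
    have hz' : ‖z‖ ≤ 1 := by rwa [mem_closedBall, dist_zero_right] at hz
    by_cases e1 : z = 1
    · rw [e1]; exact hc_one
    by_cases e2 : z = -1
    · rw [e2]; exact hc_neg
    rcases hz'.lt_or_eq with h | h
    · exact (hGd.differentiableAt (isOpen_ball.mem_nhds
        (by rw [mem_ball, dist_zero_right]; exact h))).continuousAt.continuousWithinAt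
    · have him := corner_im_ne z h e1 e2
      rcases lt_or_gt_of_ne him with h3 | h3
      · have hs := hside1 z hz' h3
        have e3 : ContinuousWithinAt G1 (closedBall 0 1) z :=
          (hc z hz).add ((corner_JJ_diff ρ h1 h2 U hUc 0 π Real.pi_pos.le z hz'
            hs.1 hs.2).continuousAt.continuousWithinAt.div_const _)
        refine e3.congr_of_eventuallyEq ?_ (hGlow z ⟨hz', h3.le, e1, e2⟩)
        have hnb : {w : ℂ | w.im < 0} ∩ {(1 : ℂ)}ᶜ ∩ {(-1 : ℂ)}ᶜ ∈ 𝓝 z := by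
          refine Filter.inter_mem (Filter.inter_mem ?_ ?_) ?_
          · exact (isOpen_lt Complex.continuous_im continuous_const).mem_nhds h3
          · exact isOpen_compl_singleton.mem_nhds e1
          · exact isOpen_compl_singleton.mem_nhds e2
        filter_upwards [mem_nhdsWithin_of_mem_nhds hnb, self_mem_nhdsWithin] with w hw hw2
        rw [mem_closedBall, dist_zero_right] at hw2
        exact hGlow w ⟨hw2, le_of_lt hw.1.1, hw.1.2, hw.2⟩
      · have hs := hside2 z hz' h3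
        have e3 : ContinuousWithinAt G2 (closedBall 0 1) z :=
          (hFM z hz).sub ((corner_JJ_diff ρ h1 h2 U hUc (-π) 0 hnpi z hz'
            hs.1 hs.2).continuousAt.continuousWithinAt.div_const _)
        refine e3.congr_of_eventuallyEq ?_ (hGupp z ⟨hz', h3.le, e1, e2⟩)
        have hnb : {w : ℂ | 0 < w.im} ∩ {(1 : ℂ)}ᶜ ∩ {(-1 : ℂ)}ᶜ ∈ 𝓝 z := by
          refine Filter.inter_mem (Filter.inter_mem ?_ ?_) ?_
          · exact (isOpen_lt continuous_const Complex.continuous_im).mem_nhds h3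
          · exact isOpen_compl_singleton.mem_nhds e1
          · exact isOpen_compl_singleton.mem_nhds e2
        filter_upwards [mem_nhdsWithin_of_mem_nhds hnb, self_mem_nhdsWithin] with w hw hw2
        rw [mem_closedBall, dist_zero_right] at hw2
        exact hGupp w ⟨hw2, le_of_lt hw.1.1, hw.1.2, hw.2⟩
  · intro z hz him
    by_cases e1 : z = 1
    · rw [e1, hGone, hm1, Complex.add_re, corner_re, Complex.ofReal_im]; simp
    by_cases e2 : z = -1
    · rw [e2, hGneg, hmn1, Complex.add_re, corner_re, Complex.ofReal_im]; simp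
    have h3 : 0 < z.im := lt_of_le_of_ne him (Ne.symm (corner_im_ne z hz e1 e2))
    have hs := hside2 z hz.le h3
    rw [hGupp z ⟨hz.le, him, e1, e2⟩]
    simp only [hG2]
    rw [Complex.sub_re, corner_re, J_real ρ h1 h2 U hUc (-π) 0 hnpi z hz hs.1 hs.2]
    simp
  · intro z hz him
    by_cases e1 : z = 1
    · rw [e1, hGone, Complex.add_re, corner_re, Complex.ofReal_im]; simp
    by_cases e2 : z = -1
    · rw [e2, hGneg, Complex.add_re, corner_re, Complex.ofReal_im]; simp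
    have h3 : z.im < 0 := lt_of_le_of_ne him (corner_im_ne z hz e1 e2)
    have hs := hside1 z hz.le h3
    rw [hGlow z ⟨hz.le, him, e1, e2⟩]
    simp only [hG1]
    rw [Complex.add_re, corner_re, J_real ρ h1 h2 U hUc 0 π Real.pi_pos.le z hz hs.1 hs.2]
    simp

lemma corner_eq_pm (z : Circle) (h : (z : ℂ).im = 0) : (z : ℂ) = 1 ∨ (z : ℂ) = -1 := by
  have h1 : ‖(z : ℂ)‖ = 1 := Circle.norm_coe z
  have h2 : (z : ℂ).re * (z : ℂ).re = 1 := by
    have h3 : Complex.normSq (z : ℂ) = 1 := by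
      rw [Complex.normSq_eq_norm_sq, h1]; norm_num
    rw [Complex.normSq_apply, h] at h3
    linarith
  rcases mul_self_eq_one_iff.1 h2 with h3 | h3
  · left
    apply Complex.ext <;> simp [h, h3]
  · right
    apply Complex.ext <;> simp [h, h3]

lemma corner_mob_pm (ρ : ℝ) (h1 : -1 < ρ) (h2 : ρ < 1) (z : Circle) (h : (z : ℂ).im = 0) :
    mob ρ z = z := by
  have hf := mob_facts ρ h1 h2 0 (by simp)
  rcases corner_eq_pm z h with h3 | h3
  · rw [h3]; exact hf.2.2.2.2.2.2.2.2.2.2.2.2.1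
  · rw [h3]; exact hf.2.2.2.2.2.2.2.2.2.2.2.2.2.1

noncomputable def cornerM (ρ : ℝ) (h1 : -1 < ρ) (h2 : ρ < 1) (z : Circle) : Circle :=
  ⟨mob ρ z, mem_sphere_zero_iff_norm.2
    ((mob_facts ρ h1 h2 z (Circle.norm_coe z).le).2.2.2.1 (Circle.norm_coe z))⟩

lemma cornerM_coe (ρ : ℝ) (h1 : -1 < ρ) (h2 : ρ < 1) (z : Circle) :
    (cornerM ρ h1 h2 z : ℂ) = mob ρ z := rfl

lemma cornerM_cont (ρ : ℝ) (h1 : -1 < ρ) (h2 : ρ < 1) : Continuous (cornerM ρ h1 h2) := by
  have : Continuous (fun z : Circle => mob ρ (z : ℂ)) := by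
    rw [continuous_iff_continuousAt]
    intro z
    have hd := (mob_facts ρ h1 h2 z (Circle.norm_coe z).le).2.2.2.2.2.2.2.2.2.2.2.2.2.2
    exact ContinuousAt.comp (g := mob ρ) (f := fun z : Circle => (z : ℂ)) hd.continuousAt
      (continuous_induced_dom : Continuous (fun z : Circle => (z : ℂ))).continuousAt
  exact continuous_induced_rng.2 this

open Classical in
noncomputable def cornerF (ρ : ℝ) (h1 : -1 < ρ) (h2 : ρ < 1) (z : Circle) : Circle :=
  if 0 ≤ (z : ℂ).im then cornerM ρ h1 h2 z else z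

lemma cornerF_cont (ρ : ℝ) (h1 : -1 < ρ) (h2 : ρ < 1) : Continuous (cornerF ρ h1 h2) := by
  unfold cornerF
  refine Continuous.if_le (cornerM_cont ρ h1 h2) continuous_id continuous_const
    (Complex.continuous_im.comp (continuous_induced_dom : Continuous (fun z : Circle => (z : ℂ)))) ?_
  intro z hz
  apply Circle.ext
  rw [cornerM_coe]
  exact corner_mob_pm ρ h1 h2 z hz.symm

lemma cornerF_up (ρ : ℝ) (h1 : -1 < ρ) (h2 : ρ < 1) (z : Circle) (h : 0 ≤ (z : ℂ).im) :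
    (cornerF ρ h1 h2 z : ℂ) = mob ρ z := by
  unfold cornerF
  rw [if_pos h, cornerM_coe]

lemma cornerF_low (ρ : ℝ) (h1 : -1 < ρ) (h2 : ρ < 1) (z : Circle) (h : (z : ℂ).im ≤ 0) :
    cornerF ρ h1 h2 z = z := by
  rcases h.lt_or_eq with h3 | h3
  · unfold cornerF
    rw [if_neg (not_le.2 h3)]
  · apply Circle.ext
    rw [cornerF_up ρ h1 h2 z h3.ge]
    exact corner_mob_pm ρ h1 h2 z h3

lemma cornerF_inv (ρ : ℝ) (h1 : -1 < ρ) (h2 : ρ < 1) (h1' : -1 < -ρ) (h2' : -ρ < 1)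
    (z : Circle) : cornerF (-ρ) h1' h2' (cornerF ρ h1 h2 z) = z := by
  by_cases h : 0 ≤ (z : ℂ).im
  · have hf := mob_facts ρ h1 h2 z (Circle.norm_coe z).le
    apply Circle.ext
    rw [cornerF_up, cornerF_up ρ h1 h2 z h]
    · exact hf.2.2.2.2.2.2.2.2.1
    · rw [cornerF_up ρ h1 h2 z h]
      exact hf.2.2.2.2.1 h
  · push Not at h
    rw [cornerF_low ρ h1 h2 z h.le, cornerF_low _ h1' h2' z h.le]


lemma corner_homeo (ρ : ℝ) (h1 : -1 < ρ) (h2 : ρ < 1) :
    ∃ ψ : Circle ≃ₜ Circle,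
      (∀ z : Circle, 0 ≤ (z : ℂ).im → (ψ z : ℂ) = mob ρ z) ∧
      (∀ z : Circle, (z : ℂ).im ≤ 0 → ψ z = z) ∧
      (∀ z : Circle, 0 ≤ (z : ℂ).im → (ψ.symm z : ℂ) = mob (-ρ) z) ∧
      (∀ z : Circle, (z : ℂ).im ≤ 0 → ψ.symm z = z) := by
  have h1' : -1 < -ρ := by linarith
  have h2' : -ρ < 1 := by linarith
  refine ⟨{ toFun := cornerF ρ h1 h2
            invFun := cornerF (-ρ) h1' h2'
            left_inv := fun z => cornerF_inv ρ h1 h2 h1' h2' z
            right_inv := ?_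
            continuous_toFun := cornerF_cont ρ h1 h2
            continuous_invFun := cornerF_cont (-ρ) h1' h2' }, ?_, ?_, ?_, ?_⟩
  · intro z
    have h := cornerF_inv (-ρ) h1' h2' (by linarith) (by linarith) z
    have e : ∀ (ρ' : ℝ) (a : -1 < ρ') (b : ρ' < 1), ρ' = ρ → ∀ w,
        cornerF ρ' a b w = cornerF ρ h1 h2 w := by
      intro ρ' a b hh w
      subst hh
      rfl
    rw [e _ _ _ (neg_neg ρ)] at h
    exact h
  · exact fun z hz => cornerF_up ρ h1 h2 z hz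
  · exact fun z hz => cornerF_low ρ h1 h2 z hz
  · exact fun z hz => cornerF_up (-ρ) h1' h2' z hz
  · exact fun z hz => cornerF_low (-ρ) h1' h2' z hz

lemma corner_not_diff (ρ : ℝ) (h1 : -1 < ρ) (h2 : ρ < 1) (h0 : ρ ≠ 0) (ψ : Circle ≃ₜ Circle)
    (ha : ∀ z : Circle, 0 ≤ (z : ℂ).im → (ψ z : ℂ) = mob ρ z)
    (hb : ∀ z : Circle, (z : ℂ).im ≤ 0 → ψ z = z)
    (Ψ : ℝ → ℝ) (hΨ : ∀ t : ℝ, ψ (Circle.exp t) = Circle.exp (Ψ t)) : ¬ DifferentiableAt ℝ Ψ 0 := by
  intro hd
  have him : ∀ t : ℝ, ((Circle.exp t : Circle) : ℂ).im = Real.sin t := by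
    intro t
    rw [Circle.coe_exp, Complex.exp_ofReal_mul_I_im]
  have hF0 : Complex.exp (((Ψ 0 : ℝ) : ℂ) * I) = 1 := by
    have e1 := hΨ 0
    rw [hb (Circle.exp 0) (by rw [him]; simp)] at e1
    have e2 := congrArg (fun z : Circle => (z : ℂ)) e1
    simp only [Circle.coe_exp] at e2
    rw [← e2]
    simp
  have hc := hd.hasDerivAt
  set c := deriv Ψ 0
  have hF : HasDerivAt (fun t : ℝ => Complex.exp (((Ψ t : ℝ) : ℂ) * I)) ((c : ℂ) * I) 0 := by
    have e3 := (hc.ofReal_comp.mul_const I).cexp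
    rw [hF0, one_mul] at e3
    exact e3
  have hG : HasDerivAt (fun t : ℝ => Complex.exp ((t : ℂ) * I)) I 0 := by
    have e3 := ((hasDerivAt_id (0 : ℝ)).ofReal_comp.mul_const I).cexp
    simpa using e3
  -- left
  have hL : HasDerivWithinAt (fun t : ℝ => Complex.exp (((Ψ t : ℝ) : ℂ) * I)) I (Iic 0) 0 := by
    apply hG.hasDerivWithinAt.congr_of_eventuallyEq
    · have hnb : Ioo (-π) π ∈ 𝓝[Iic 0] (0 : ℝ) :=
        mem_nhdsWithin_of_mem_nhds (Ioo_mem_nhds (by linarith [Real.pi_pos]) Real.pi_pos)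
      filter_upwards [hnb, self_mem_nhdsWithin] with t ht ht0
      have e1 := hΨ t
      rw [hb (Circle.exp t) (by
        rw [him]
        exact Real.sin_nonpos_of_nonpos_of_neg_pi_le ht0 ht.1.le)] at e1
      have e2 := congrArg (fun z : Circle => (z : ℂ)) e1
      simp only [Circle.coe_exp] at e2
      exact e2.symm
    · rw [hF0]; simp
  have hcI := (uniqueDiffWithinAt_Iic (0 : ℝ)).eq_deriv _ hF.hasDerivWithinAt hL
  have hc1 : (c : ℂ) = 1 := by
    have : (c : ℂ) * I = 1 * I := by rw [hcI, one_mul]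
    exact mul_right_cancel₀ I_ne_zero this
  -- right
  have h1ρ : (1 : ℂ) + ρ ≠ 0 := by
    intro h
    have : ((1 + ρ : ℝ) : ℂ) = 0 := by push_cast; exact h
    rw [Complex.ofReal_eq_zero] at this
    linarith
  have hM : HasDerivAt (mob ρ) ((1 - ρ) / (1 + ρ)) 1 := by
    have e4 : HasDerivAt (fun z : ℂ => z + ρ) 1 1 := (hasDerivAt_id (1 : ℂ)).add_const _
    have e5 : HasDerivAt (fun z : ℂ => 1 + ρ * z) ρ 1 := by
      have := ((hasDerivAt_id (1 : ℂ)).const_mul (ρ : ℂ)).const_add 1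
      simpa using this
    have e6 := e4.div e5 (by rw [mul_one]; exact h1ρ)
    have e7 : (1 * (1 + (ρ : ℂ) * 1) - (1 + (ρ : ℂ)) * ρ) / (1 + (ρ : ℂ) * 1) ^ 2 = (1 - ρ) / (1 + ρ) := by
      field_simp
    rw [← e7]
    exact e6
  have hMG : HasDerivAt (fun t : ℝ => mob ρ (Complex.exp ((t : ℂ) * I))) (((1 - ρ) / (1 + ρ)) * I) 0 := by
    have e8 : HasDerivAt (mob ρ) ((1 - ρ) / (1 + ρ)) (Complex.exp (((0 : ℝ) : ℂ) * I)) := by
      simpa using hM
    exact HasDerivAt.comp (0 : ℝ) e8 hG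
  have hR : HasDerivWithinAt (fun t : ℝ => Complex.exp (((Ψ t : ℝ) : ℂ) * I))
      (((1 - ρ) / (1 + ρ)) * I) (Ici 0) 0 := by
    apply hMG.hasDerivWithinAt.congr_of_eventuallyEq
    · have hnb : Ioo (-π) π ∈ 𝓝[Ici 0] (0 : ℝ) :=
        mem_nhdsWithin_of_mem_nhds (Ioo_mem_nhds (by linarith [Real.pi_pos]) Real.pi_pos)
      filter_upwards [hnb, self_mem_nhdsWithin] with t ht ht0
      have e1 := hΨ t
      have e2 := ha (Circle.exp t) (by
        rw [him]
        exact Real.sin_nonneg_of_nonneg_of_le_pi ht0 ht.2.le)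
      rw [e1] at e2
      simp only [Circle.coe_exp] at e2
      exact e2
    · rw [hF0]
      simp only [mob, ofReal_zero, zero_mul, Complex.exp_zero, mul_one]
      rw [div_self h1ρ]
  have hcR := (uniqueDiffWithinAt_Ici (0 : ℝ)).eq_deriv _ hF.hasDerivWithinAt hR
  have hc2 : (c : ℂ) = (1 - ρ) / (1 + ρ) := mul_right_cancel₀ I_ne_zero hcR
  rw [hc1, eq_div_iff h1ρ, one_mul] at hc2
  have hc3 : ((1 + ρ : ℝ) : ℂ) = ((1 - ρ : ℝ) : ℂ) := by push_cast; exact hc2
  have hc4 := Complex.ofReal_injective hc3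
  apply h0
  linarith

end Pool.Agent.Helper649.ReA
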