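import Pool.Agent.Helper649.ReaA

set_option autoImplicit false

namespace Pool.Agent.Helper649.ReA

open Complex MeasureTheory Set Filter Topology Metric
open scoped Real ComplexConjugate

lemma rect (g : ℂ → ℂ) (hc : ContinuousOn g Strip) (hd : DifferentiableOn ℂ g OStrip) (B : ℝ)
    (hB : ∀ z ∈ Strip, ‖g z‖ ≤ B) (X Y : ℝ) :
    |∫ x in X..Y, ((g (x + (π / 2 : ℝ) * I)).re - (g (x - (π / 2 : ℝ) * I)).re)| ≤ 2 * π * B := by
  have hpi := Real.pi_pos
  -- the four sides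
  have mS : ∀ x y : ℝ, |y| ≤ π / 2 → ((x : ℂ) + (y : ℂ) * I) ∈ Strip := by
    intro x y hy
    simpa [Strip] using hy
  have key := Complex.integral_boundary_rect_eq_zero_of_continuousOn_of_differentiableOn g
    ((X : ℂ) + ((-(π / 2) : ℝ) : ℂ) * I) ((Y : ℂ) + ((π / 2 : ℝ) : ℂ) * I) ?_ ?_
  rotate_left
  · refine hc.mono ?_
    intro z hz
    have h2 := hz.2
    simp only [Set.mem_preimage] at h2
    have e1 : ((X : ℂ) + ((-(π / 2) : ℝ) : ℂ) * I).im = -(π / 2) := by simp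
    have e2 : ((Y : ℂ) + ((π / 2 : ℝ) : ℂ) * I).im = π / 2 := by simp
    rw [e1, e2, Set.uIcc_of_le (by linarith)] at h2
    exact abs_le.2 ⟨h2.1, h2.2⟩
  · refine hd.mono ?_
    intro z hz
    have h2 := hz.2
    simp only [Set.mem_preimage] at h2
    have e1 : ((X : ℂ) + ((-(π / 2) : ℝ) : ℂ) * I).im = -(π / 2) := by simp
    have e2 : ((Y : ℂ) + ((π / 2 : ℝ) : ℂ) * I).im = π / 2 := by simp
    rw [e1, e2, min_eq_left (by linarith), max_eq_right (by linarith)] at h2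
    exact abs_lt.2 ⟨h2.1, h2.2⟩
  have r1 : ((X : ℂ) + ((-(π / 2) : ℝ) : ℂ) * I).re = X := by simp
  have r2 : ((Y : ℂ) + ((π / 2 : ℝ) : ℂ) * I).re = Y := by simp
  have i1 : ((X : ℂ) + ((-(π / 2) : ℝ) : ℂ) * I).im = -(π / 2) := by simp
  have i2 : ((Y : ℂ) + ((π / 2 : ℝ) : ℂ) * I).im = π / 2 := by simp
  rw [r1, r2, i1, i2] at key
  have cS : ∀ y : ℝ, |y| ≤ π / 2 → Continuous (fun x : ℝ => g ((x : ℂ) + (y : ℂ) * I)) := by
    intro y hy
    refine hc.comp_continuous (by fun_prop) ?_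
    intro x
    exact mS x y hy
  have a1 : |(-(π / 2) : ℝ)| ≤ π / 2 := by rw [abs_neg, abs_of_pos (by linarith)]
  have a2 : |(π / 2 : ℝ)| ≤ π / 2 := by rw [abs_of_pos (by linarith)]
  have side : ∀ x : ℝ, ‖∫ y : ℝ in (-(π / 2))..(π / 2), g ((x : ℂ) + (y : ℂ) * I)‖ ≤ B * π := by
    intro x
    have := intervalIntegral.norm_integral_le_of_norm_le_const (a := -(π / 2)) (b := π / 2)
      (f := fun y : ℝ => g ((x : ℂ) + (y : ℂ) * I)) (C := B) ?_
    · have e : |π / 2 - -(π / 2)| = π := by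
        rw [abs_of_pos (by linarith)]
        ring
      rw [e] at this
      exact this
    · intro y hy
      rw [Set.uIoc_of_le (by linarith)] at hy
      exact hB _ (mS x y (abs_le.2 ⟨hy.1.le, hy.2⟩))
  have hint : ∫ x in X..Y, (g (x + (π / 2 : ℝ) * I) - g (x - (π / 2 : ℝ) * I))
      = (∫ x in X..Y, g ((x : ℂ) + ((π / 2 : ℝ) : ℂ) * I))
        - ∫ x in X..Y, g ((x : ℂ) + ((-(π / 2) : ℝ) : ℂ) * I) := by
    rw [← intervalIntegral.integral_sub ((cS _ a2).intervalIntegrable _ _)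
      ((cS _ a1).intervalIntegrable _ _)]
    congr 1
    ext x
    congr 2
    push_cast
    ring
  have hbd : ‖∫ x in X..Y, (g (x + (π / 2 : ℝ) * I) - g (x - (π / 2 : ℝ) * I))‖ ≤ 2 * π * B := by
    rw [hint]
    have e : (∫ x in X..Y, g ((x : ℂ) + ((π / 2 : ℝ) : ℂ) * I))
        - ∫ x in X..Y, g ((x : ℂ) + ((-(π / 2) : ℝ) : ℂ) * I)
        = I • (∫ y : ℝ in (-(π / 2))..(π / 2), g ((Y : ℂ) + (y : ℂ) * I))
          - I • ∫ y : ℝ in (-(π / 2))..(π / 2), g ((X : ℂ) + (y : ℂ) * I) := by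
      linear_combination (-1 : ℂ) * key
    rw [e]
    refine (norm_sub_le _ _).trans ?_
    rw [norm_smul, norm_smul, norm_I, one_mul, one_mul]
    have s1 := side Y
    have s2 := side X
    linarith
  have hre : ∫ x in X..Y, ((g (x + (π / 2 : ℝ) * I)).re - (g (x - (π / 2 : ℝ) * I)).re)
      = (∫ x in X..Y, (g (x + (π / 2 : ℝ) * I) - g (x - (π / 2 : ℝ) * I))).re := by
    have hi : IntervalIntegrable (fun x : ℝ => g (x + (π / 2 : ℝ) * I) - g (x - (π / 2 : ℝ) * I))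
        volume X Y := by
      apply Continuous.intervalIntegrable
      refine (cS _ a2).sub ?_
      have := cS _ a1
      convert this using 2 with x
      push_cast
      congr 1
      ring
    have := Complex.reCLM.intervalIntegral_comp_comm hi
    simp only [Complex.reCLM_apply, Complex.sub_re] at this
    exact this
  rw [hre]
  exact (Complex.abs_re_le_norm _).trans hbd

lemma cay_facts (z : ℂ) (hz : z ∈ Strip) :
    1 + exp z ≠ 0 ∧ ‖cay z‖ ≤ 1 ∧ (z ∈ OStrip → ‖cay z‖ < 1) ∧ DifferentiableAt ℂ cay z ∧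
    cay z ≠ 1 ∧ cay z ≠ -1 ∧ Complex.log ((1 - cay z) / (1 + cay z)) = z := by
  have hy : |z.im| ≤ π / 2 := hz
  obtain ⟨hy1, hy2⟩ := abs_le.1 hy
  have hre : 0 ≤ (exp z).re := by
    rw [Complex.exp_re]
    exact mul_nonneg (Real.exp_pos _).le (Real.cos_nonneg_of_neg_pi_div_two_le_of_le hy1 hy2)
  have hw0 : exp z ≠ 0 := Complex.exp_ne_zero z
  have h1 : 1 + exp z ≠ 0 := by
    intro h
    have := congrArg Complex.re h
    simp only [Complex.add_re, Complex.one_re, Complex.zero_re] at this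
    linarith
  have hn : 0 < ‖1 + exp z‖ := norm_pos_iff.2 h1
  have hsq : ‖1 + exp z‖ ^ 2 - ‖1 - exp z‖ ^ 2 = 4 * (exp z).re := by
    rw [← Complex.normSq_eq_norm_sq, ← Complex.normSq_eq_norm_sq, Complex.normSq_apply,
      Complex.normSq_apply]
    simp only [Complex.add_re, Complex.one_re, Complex.add_im, Complex.one_im, Complex.sub_re,
      Complex.sub_im]
    ring
  have e1 : 1 - cay z = 2 * exp z / (1 + exp z) := by
    unfold cay; field_simp; ring
  have e2 : 1 + cay z = 2 / (1 + exp z) := by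
    unfold cay; field_simp; ring
  refine ⟨h1, ?_, ?_, ?_, ?_, ?_, ?_⟩
  · unfold cay
    rw [norm_div, div_le_one hn]
    nlinarith [norm_nonneg (1 - exp z), norm_nonneg (1 + exp z)]
  · intro ho
    have ho' : |z.im| < π / 2 := ho
    obtain ⟨o1, o2⟩ := abs_lt.1 ho'
    have hre' : 0 < (exp z).re := by
      rw [Complex.exp_re]
      exact mul_pos (Real.exp_pos _) (Real.cos_pos_of_mem_Ioo ⟨o1, o2⟩)
    unfold cay
    rw [norm_div, div_lt_one hn]
    nlinarith [norm_nonneg (1 - exp z), norm_nonneg (1 + exp z)]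
  · have d1 : DifferentiableAt ℂ (fun z : ℂ => 1 - exp z) z :=
      (differentiableAt_const _).sub Complex.differentiableAt_exp
    have d2 : DifferentiableAt ℂ (fun z : ℂ => 1 + exp z) z :=
      (differentiableAt_const _).add Complex.differentiableAt_exp
    exact d1.div d2 h1
  · intro h
    rw [h, sub_self] at e1
    have : (2 : ℂ) * exp z / (1 + exp z) ≠ 0 := div_ne_zero (mul_ne_zero two_ne_zero hw0) h1
    exact this e1.symm
  · intro h
    rw [h, add_neg_cancel] at e2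
    exact (div_ne_zero two_ne_zero h1) e2.symm
  · have : (1 - cay z) / (1 + cay z) = exp z := by
      rw [e1, e2]; field_simp
    rw [this]
    exact Complex.log_exp (by linarith [Real.pi_pos]) (by linarith [Real.pi_pos])

lemma cay_line (x : ℝ) :
    cay (x - (π / 2 : ℝ) * I) = exp ((2 * Real.arctan (Real.exp x) : ℝ) * I) ∧
    cay (x + (π / 2 : ℝ) * I) = exp ((-(2 * Real.arctan (Real.exp x)) : ℝ) * I) := by
  set t : ℝ := Real.exp x with ht
  have htpos : 0 < t := Real.exp_pos x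
  set s : ℝ := Real.arctan t with hs
  have hc : 0 < Real.cos s := Real.cos_arctan_pos t
  have hsin : Real.sin s = t * Real.cos s := by
    have h1 : Real.tan s = t := Real.tan_arctan t
    rw [Real.tan_eq_sin_div_cos] at h1
    field_simp at h1
    rw [h1]; ring
  have hcs : Real.cos s ^ 2 * (1 + t ^ 2) = 1 := by
    have := Real.sin_sq_add_cos_sq s
    rw [hsin] at this
    nlinarith
  have hcsC : ((Real.cos s : ℝ) : ℂ) ^ 2 * (1 + (t : ℂ) ^ 2) = 1 := by
    exact_mod_cast hcs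
  have hI : (I : ℂ) ^ 2 = -1 := I_sq
  have hcosC : Complex.cos (s : ℂ) = ((Real.cos s : ℝ) : ℂ) := (Complex.ofReal_cos s).symm
  have hsinC : Complex.sin (s : ℂ) = (t : ℂ) * ((Real.cos s : ℝ) : ℂ) := by
    rw [← Complex.ofReal_sin, hsin, Complex.ofReal_mul]
  have e1 : exp ((2 * s : ℝ) * I) = (((Real.cos s : ℝ) : ℂ) * (1 + t * I)) ^ 2 := by
    have : (((2 * s : ℝ) : ℂ)) * I = (s : ℂ) * I + (s : ℂ) * I := by push_cast; ring
    rw [this, exp_add, exp_mul_I, hcosC, hsinC]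
    ring
  have e2 : exp ((-(2 * s) : ℝ) * I) = (((Real.cos s : ℝ) : ℂ) * (1 - t * I)) ^ 2 := by
    have : (((-(2 * s) : ℝ) : ℂ)) * I = (((-s : ℝ)) : ℂ) * I + (((-s : ℝ)) : ℂ) * I := by
      push_cast; ring
    rw [this, exp_add, exp_mul_I, Complex.ofReal_neg, Complex.cos_neg, Complex.sin_neg,
      hcosC, hsinC]
    ring
  have htC : exp (x : ℂ) = (t : ℂ) := by rw [ht, Complex.ofReal_exp]
  have f1 : exp ((x : ℂ) - (π / 2 : ℝ) * I) = -(t : ℂ) * I := by
    have h1 : exp (((π / 2 : ℝ) : ℂ) * I) = I := by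
      push_cast
      exact Complex.exp_pi_div_two_mul_I
    rw [exp_sub, h1, htC]
    field_simp
    rw [hI]
    ring
  have f2 : exp ((x : ℂ) + (π / 2 : ℝ) * I) = (t : ℂ) * I := by
    have h1 : exp (((π / 2 : ℝ) : ℂ) * I) = I := by
      push_cast
      exact Complex.exp_pi_div_two_mul_I
    rw [exp_add, h1, htC]
  have n1 : (1 : ℂ) - (t : ℂ) * I ≠ 0 := by
    intro h
    have := congrArg Complex.re h
    simp at this
  have n2 : (1 : ℂ) + (t : ℂ) * I ≠ 0 := by
    intro h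
    have := congrArg Complex.re h
    simp at this
  constructor
  · unfold cay
    rw [f1, e1]
    have : (1 : ℂ) + -(t : ℂ) * I = 1 - (t : ℂ) * I := by ring
    rw [this, div_eq_iff n1]
    have h5 : (1 - -(t : ℂ) * I) = 1 + (t : ℂ) * I := by ring
    rw [h5]
    calc (1 : ℂ) + t * I = (((Real.cos s : ℝ) : ℂ) ^ 2 * (1 + (t : ℂ) ^ 2)) * (1 + t * I) := by
          rw [hcsC, one_mul]
      _ = (((Real.cos s : ℝ) : ℂ) * (1 + t * I)) ^ 2 * (1 - t * I) := by
          linear_combination (((Real.cos s : ℝ) : ℂ) ^ 2 * (1 + t * I) * (t : ℂ) ^ 2) * hI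
  · unfold cay
    rw [f2, e2, div_eq_iff n2]
    calc (1 : ℂ) - t * I = (((Real.cos s : ℝ) : ℂ) ^ 2 * (1 + (t : ℂ) ^ 2)) * (1 - t * I) := by
          rw [hcsC, one_mul]
      _ = (((Real.cos s : ℝ) : ℂ) * (1 - t * I)) ^ 2 * (1 + t * I) := by
          linear_combination (((Real.cos s : ℝ) : ℂ) ^ 2 * (1 - t * I) * (t : ℂ) ^ 2) * hI

lemma ptd_re (w : ℂ) (h1 : w ≠ -1) : ((1 - w) / (1 + w)).re = (1 - ‖w‖ ^ 2) / normSq (1 + w) := by
  have h0 : (1 + w) ≠ 0 := by
    intro h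
    apply h1
    linear_combination h
  have hn : normSq (1 + w) ≠ 0 := fun h => h0 (normSq_eq_zero.mp h)
  rw [Complex.div_re, ← Complex.normSq_eq_norm_sq]
  simp only [Complex.normSq_apply, Complex.sub_re, Complex.add_re, Complex.one_re, Complex.sub_im,
    Complex.add_im, Complex.one_im] at hn ⊢
  rw [← add_div]
  congr 1
  ring

lemma ptd_ne (w : ℂ) (h1 : w ≠ 1) (h2 : w ≠ -1) : (1 - w) ≠ 0 ∧ (1 + w) ≠ 0 := by
  constructor
  · intro h
    apply h1
    linear_combination -h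
  · intro h
    apply h2
    linear_combination h

lemma ptd_pos (w : ℂ) (h1 : w ≠ -1) : 0 < normSq (1 + w) := by
  rw [Complex.normSq_pos]
  intro h
  apply h1
  linear_combination h

lemma ptd_strip (w : ℂ) (hw : ‖w‖ ≤ 1) (h1 : w ≠ 1) (h2 : w ≠ -1) :
    Complex.log ((1 - w) / (1 + w)) ∈ Strip := by
  have hre : 0 ≤ ((1 - w) / (1 + w)).re := by
    rw [ptd_re w h2]
    have := ptd_pos w h2
    have h3 : 0 ≤ 1 - ‖w‖ ^ 2 := by nlinarith [norm_nonneg w]
    positivity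
  show |(Complex.log ((1 - w) / (1 + w))).im| ≤ π / 2
  rw [Complex.log_im, Complex.abs_arg_le_pi_div_two_iff]
  exact hre

lemma ptd_ostrip (w : ℂ) (hw : ‖w‖ < 1) (h1 : w ≠ 1) (h2 : w ≠ -1) :
    Complex.log ((1 - w) / (1 + w)) ∈ OStrip := by
  have hre : 0 < ((1 - w) / (1 + w)).re := by
    rw [ptd_re w h2]
    have := ptd_pos w h2
    have h3 : 0 < 1 - ‖w‖ ^ 2 := by nlinarith [norm_nonneg w]
    positivity
  show |(Complex.log ((1 - w) / (1 + w))).im| < π / 2
  rw [Complex.log_im, Complex.abs_arg_lt_pi_div_two_iff]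
  exact Or.inl hre

lemma ptd_slit (w : ℂ) (hw : ‖w‖ ≤ 1) (h1 : w ≠ 1) (h2 : w ≠ -1) :
    (1 - w) / (1 + w) ∈ slitPlane := by
  have hre : 0 ≤ ((1 - w) / (1 + w)).re := by
    rw [ptd_re w h2]
    have := ptd_pos w h2
    have h3 : 0 ≤ 1 - ‖w‖ ^ 2 := by nlinarith [norm_nonneg w]
    positivity
  have hne : (1 - w) / (1 + w) ≠ 0 := div_ne_zero (ptd_ne w h1 h2).1 (ptd_ne w h1 h2).2
  rw [Complex.mem_slitPlane_iff]
  rcases hre.lt_or_eq with h | h
  · exact Or.inl h
  · right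
    intro him
    exact hne (Complex.ext h.symm him)

lemma ptd_diff (w : ℂ) (hw : ‖w‖ ≤ 1) (h1 : w ≠ 1) (h2 : w ≠ -1) :
    DifferentiableAt ℂ (fun w : ℂ => Complex.log ((1 - w) / (1 + w))) w := by
  refine DifferentiableAt.clog ?_ (ptd_slit w hw h1 h2)
  exact DifferentiableAt.div (by fun_prop) (by fun_prop) (ptd_ne w h1 h2).2


lemma pull_to_disc (f : ℂ → ℂ) (hc : ContinuousOn f Strip) (hd : DifferentiableOn ℂ f OStrip)
    (hlim : ∀ ε : ℝ, 0 < ε → ∃ N : ℝ, ∀ z ∈ Strip, N ≤ |z.re| → ‖f z‖ < ε) :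
    ∃ F : ℂ → ℂ, ContinuousOn F (closedBall 0 1) ∧ DifferentiableOn ℂ F (ball 0 1) ∧
      ∀ z ∈ Strip, F (cay z) = f z := by
  classical
  let F : ℂ → ℂ := fun w => if w = 1 ∨ w = -1 then 0 else f (Complex.log ((1 - w) / (1 + w)))
  have hFne : ∀ w : ℂ, w ≠ 1 → w ≠ -1 → F w = f (Complex.log ((1 - w) / (1 + w))) := by
    intro w h1 h2
    simp only [F]
    rw [if_neg (not_or.mpr ⟨h1, h2⟩)]
  have hF1 : ∀ w : ℂ, w = 1 ∨ w = -1 → F w = 0 := by
    intro w h
    simp only [F]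
    rw [if_pos h]
  refine ⟨F, ?_, ?_, ?_⟩
  · intro w0 hw0
    rw [mem_closedBall_zero_iff] at hw0
    by_cases h : w0 = 1 ∨ w0 = -1
    · -- limit zero
      rw [ContinuousWithinAt, hF1 w0 h, Metric.tendsto_nhds]
      intro ε hε
      obtain ⟨N, hN⟩ := hlim ε hε
      have key : ∀ᶠ w in 𝓝[closedBall 0 1] w0, w ≠ 1 → w ≠ -1 →
          N ≤ |(Complex.log ((1 - w) / (1 + w))).re| := by
        rcases h with rfl | rfl
        · have hcq : ContinuousAt (fun w : ℂ => ‖(1 - w) / (1 + w)‖) 1 := by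
            refine ContinuousAt.norm (ContinuousAt.div (by fun_prop) (by fun_prop) (by norm_num))
          have h3 : ∀ᶠ w in 𝓝 (1:ℂ), ‖(1 - w) / (1 + w)‖ < Real.exp (-|N|) :=
            hcq.eventually_lt continuousAt_const (by simp [Real.exp_pos])
          filter_upwards [nhdsWithin_le_nhds h3] with w hw h1 h2
          have hpos : 0 < ‖(1 - w) / (1 + w)‖ :=
            norm_pos_iff.mpr (div_ne_zero (ptd_ne w h1 h2).1 (ptd_ne w h1 h2).2)
          rw [Complex.log_re]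
          have h4 : Real.log ‖(1 - w) / (1 + w)‖ < -|N| := by
            rw [← Real.log_exp (-|N|)]
            exact Real.log_lt_log hpos hw
          have h5 := neg_le_abs (Real.log ‖(1 - w) / (1 + w)‖)
          have h6 := le_abs_self N
          linarith
        · have hcq : ContinuousAt (fun w : ℂ => ‖(1 + w) / (1 - w)‖) (-1) := by
            refine ContinuousAt.norm (ContinuousAt.div (by fun_prop) (by fun_prop) (by norm_num))
          have h3 : ∀ᶠ w in 𝓝 (-1:ℂ), ‖(1 + w) / (1 - w)‖ < Real.exp (-|N|) :=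
            hcq.eventually_lt continuousAt_const (by simp [Real.exp_pos])
          filter_upwards [nhdsWithin_le_nhds h3] with w hw h1 h2
          have hpos : 0 < ‖(1 + w) / (1 - w)‖ :=
            norm_pos_iff.mpr (div_ne_zero (ptd_ne w h1 h2).2 (ptd_ne w h1 h2).1)
          rw [Complex.log_re]
          have h4 : Real.log ‖(1 + w) / (1 - w)‖ < -|N| := by
            rw [← Real.log_exp (-|N|)]
            exact Real.log_lt_log hpos hw
          have h7 : Real.log ‖(1 - w) / (1 + w)‖ = - Real.log ‖(1 + w) / (1 - w)‖ := by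
            rw [← Real.log_inv, ← norm_inv, inv_div]
          have h5 := le_abs_self (Real.log ‖(1 - w) / (1 + w)‖)
          have h6 := le_abs_self N
          linarith
      filter_upwards [key, self_mem_nhdsWithin] with w hw hwb
      rw [dist_zero_right]
      rw [mem_closedBall_zero_iff] at hwb
      by_cases h' : w = 1 ∨ w = -1
      · rw [hF1 w h', norm_zero]; exact hε
      · rw [not_or] at h'
        rw [hFne w h'.1 h'.2]
        exact hN _ (ptd_strip w hwb h'.1 h'.2) (hw h'.1 h'.2)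
    · rw [not_or] at h
      have h1 : ContinuousWithinAt (fun w => f (Complex.log ((1 - w) / (1 + w))))
          (closedBall 0 1 \ {1, -1}) w0 := by
        refine ContinuousWithinAt.comp (t := Strip) (hc _ (ptd_strip w0 hw0 h.1 h.2))
          (ptd_diff w0 hw0 h.1 h.2).continuousAt.continuousWithinAt ?_
        intro w hw
        have hw1 := mem_closedBall_zero_iff.mp hw.1
        have hw2 : w ≠ 1 ∧ w ≠ -1 := by
          have := hw.2
          simp only [mem_insert_iff, mem_singleton_iff, not_or] at this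
          exact this
        exact ptd_strip w hw1 hw2.1 hw2.2
      have h2 : ContinuousWithinAt F (closedBall 0 1 \ {1, -1}) w0 := by
        refine h1.congr ?_ (hFne w0 h.1 h.2)
        intro w hw
        have hw2 : w ≠ 1 ∧ w ≠ -1 := by
          have := hw.2
          simp only [mem_insert_iff, mem_singleton_iff, not_or] at this
          exact this
        exact hFne w hw2.1 hw2.2
      refine h2.mono_of_mem_nhdsWithin ?_
      refine Filter.inter_mem self_mem_nhdsWithin ?_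
      refine nhdsWithin_le_nhds (IsOpen.mem_nhds ?_ ?_)
      · exact (Set.Finite.isClosed (by simp)).isOpen_compl
      · intro hmem
        simp only [mem_insert_iff, mem_singleton_iff] at hmem
        rcases hmem with hmem | hmem
        · exact h.1 hmem
        · exact h.2 hmem
  · have h1 : DifferentiableOn ℂ (fun w => f (Complex.log ((1 - w) / (1 + w)))) (ball 0 1) := by
      refine DifferentiableOn.comp (t := OStrip) hd (fun w hw => ?_) (fun w hw => ?_)
      · have hw1 := mem_ball_zero_iff.mp hw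
        have h3 : w ≠ 1 := by rintro rfl; simp at hw1
        have h4 : w ≠ -1 := by rintro rfl; simp at hw1
        exact (ptd_diff w hw1.le h3 h4).differentiableWithinAt
      · have hw1 := mem_ball_zero_iff.mp hw
        have h3 : w ≠ 1 := by rintro rfl; simp at hw1
        have h4 : w ≠ -1 := by rintro rfl; simp at hw1
        exact ptd_ostrip w hw1 h3 h4
    refine h1.congr (fun w hw => ?_)
    have hw1 := mem_ball_zero_iff.mp hw
    have h3 : w ≠ 1 := by rintro rfl; simp at hw1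
    have h4 : w ≠ -1 := by rintro rfl; simp at hw1
    exact hFne w h3 h4
  · intro z hz
    obtain ⟨_, _, _, _, h1, h2, h3⟩ := cay_facts z hz
    rw [hFne _ h1 h2, h3]

lemma Cf_slit (z : ℂ) (hz : |z.im| < 2) : z ^ 2 + 4 ∈ slitPlane := by
  left
  have h1 : (z ^ 2 + 4).re = z.re ^ 2 - z.im ^ 2 + 4 := by
    rw [sq]
    simp
    ring
  rw [h1]
  have h2 : z.im ^ 2 < 2 ^ 2 := by
    rw [← sq_abs]
    exact pow_lt_pow_left₀ hz (abs_nonneg _) two_ne_zero
  nlinarith [sq_nonneg z.re]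


lemma Cf_deriv (z : ℂ) (hz : |z.im| < 2) :
    HasDerivAt (fun z : ℂ => sin z * (z ^ 2 + 4) ^ (-(1 / 4) : ℂ))
      (cos z * (z ^ 2 + 4) ^ (-(1 / 4) : ℂ) + sin z * (-(z / 2) * (z ^ 2 + 4) ^ (-(5 / 4) : ℂ))) z ∧
    DifferentiableAt ℂ (fun z : ℂ => cos z * (z ^ 2 + 4) ^ (-(1 / 4) : ℂ)
      + sin z * (-(z / 2) * (z ^ 2 + 4) ^ (-(5 / 4) : ℂ))) z := by
  have hs := Cf_slit z hz
  have hp : HasDerivAt (fun z : ℂ => z ^ 2 + 4) (2 * z) z := by
    have := (hasDerivAt_pow 2 z).add_const (4 : ℂ)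
    simpa using this
  have hc : ∀ c : ℂ, HasDerivAt (fun z : ℂ => (z ^ 2 + 4) ^ c)
      (c * (z ^ 2 + 4) ^ (c - 1) * (2 * z)) z := fun c => hp.cpow_const hs
  constructor
  · have h0 := hc (-(1 / 4))
    have e1 : (-(1 / 4) : ℂ) - 1 = -(5 / 4) := by norm_num
    rw [e1] at h0
    refine HasDerivAt.congr_deriv (HasDerivAt.mul (hasDerivAt_sin z) h0) ?_
    ring
  · have h1 := (hc (-(1 / 4))).differentiableAt
    have h2 := (hc (-(5 / 4))).differentiableAt
    have h3 : DifferentiableAt ℂ (fun z : ℂ => -(z / 2)) z := by fun_prop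
    exact ((hasDerivAt_cos z).differentiableAt.mul h1).add
      ((hasDerivAt_sin z).differentiableAt.mul (h3.mul h2))

lemma cfl_K (z : ℂ) (hz : z ∈ Strip) : ‖sin z‖ ≤ Real.exp (π / 2) ∧ ‖cos z‖ ≤ Real.exp (π / 2) := by
  have hy : |z.im| ≤ π / 2 := hz
  rw [abs_le] at hy
  have h1 : ‖exp (z * I)‖ ≤ Real.exp (π / 2) := by
    rw [Complex.norm_exp]
    apply Real.exp_le_exp.mpr
    simp
    linarith [hy.1]
  have h2 : ‖exp (-z * I)‖ ≤ Real.exp (π / 2) := by
    rw [Complex.norm_exp]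
    apply Real.exp_le_exp.mpr
    simp
    linarith [hy.2]
  constructor
  · rw [Complex.sin, norm_div, norm_mul, Complex.norm_I, mul_one]
    have h3 : ‖exp (-z * I) - exp (z * I)‖ ≤ ‖exp (-z * I)‖ + ‖exp (z * I)‖ := norm_sub_le _ _
    have h4 : ‖(2 : ℂ)‖ = 2 := by simp
    rw [h4]
    linarith
  · rw [Complex.cos, norm_div]
    have h3 : ‖exp (z * I) + exp (-z * I)‖ ≤ ‖exp (z * I)‖ + ‖exp (-z * I)‖ := norm_add_le _ _
    have h4 : ‖(2 : ℂ)‖ = 2 := by simp
    rw [h4]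
    linarith

lemma cfl_w (z : ℂ) (hz : z ∈ Strip) : |z.re| ^ 2 ≤ ‖z ^ 2 + 4‖ := by
  have hy : |z.im| ≤ π / 2 := hz
  have h0 : (z ^ 2 + 4).re ≤ ‖z ^ 2 + 4‖ := Complex.re_le_norm _
  have h1 : (z ^ 2 + 4).re = z.re ^ 2 - z.im ^ 2 + 4 := by
    simp [pow_two]
  have h2 : z.im ^ 2 ≤ 4 := by
    have h3 : |z.im| ≤ 2 := by
      have := Real.pi_lt_four
      linarith
    have h5 : |z.im| ^ 2 ≤ 2 ^ 2 := pow_le_pow_left₀ (abs_nonneg _) h3 2
    rw [sq_abs] at h5
    linarith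
  rw [sq_abs]
  linarith

lemma cfl_z (z : ℂ) (hz : z ∈ Strip) (hx : 2 ≤ |z.re|) : ‖z‖ ≤ 2 * |z.re| := by
  have hy : |z.im| ≤ π / 2 := hz
  have h0 := Complex.norm_le_abs_re_add_abs_im z
  have := Real.pi_lt_four
  linarith

lemma cfl_pow (z : ℂ) (hz : z ∈ Strip) (hx : 2 ≤ |z.re|) (r : ℝ) (hr : 0 ≤ r) :
    ‖(z ^ 2 + 4) ^ ((-r : ℝ) : ℂ)‖ ≤ |z.re| ^ (-(2 * r)) := by
  rw [Complex.norm_cpow_real]
  have h1 := cfl_w z hz
  have h2 : 0 < |z.re| ^ 2 := by positivity
  have h3 : ‖z ^ 2 + 4‖ ^ (-r) ≤ (|z.re| ^ 2) ^ (-r) :=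
    Real.rpow_le_rpow_of_nonpos h2 h1 (by linarith)
  have h4 : (|z.re| ^ 2) ^ (-r) = |z.re| ^ (-(2 * r)) := by
    rw [← Real.rpow_natCast, ← Real.rpow_mul (abs_nonneg _)]
    congr 1
    push_cast
    ring
  rw [← h4]
  exact h3


lemma Cf_lim (ε : ℝ) (hε : 0 < ε) : ∃ N : ℝ, ∀ z ∈ Strip, N ≤ |z.re| →
    ‖sin z * (z ^ 2 + 4) ^ (-(1 / 4) : ℂ)‖ < ε ∧
    ‖cos z * (z ^ 2 + 4) ^ (-(1 / 4) : ℂ) + sin z * (-(z / 2) * (z ^ 2 + 4) ^ (-(5 / 4) : ℂ))‖ < ε := by
  have hK : 0 < Real.exp (π / 2) := Real.exp_pos _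
  have hlim : Tendsto (fun t : ℝ => 2 * Real.exp (π / 2) * t ^ (-(1 / 2) : ℝ)) atTop (𝓝 0) := by
    have := (tendsto_rpow_neg_atTop (show (0 : ℝ) < 1 / 2 by norm_num)).const_mul
      (2 * Real.exp (π / 2))
    rw [mul_zero] at this
    exact this
  have hev : ∀ᶠ t : ℝ in atTop, 2 * Real.exp (π / 2) * t ^ (-(1 / 2) : ℝ) < ε :=
    hlim.eventually (gt_mem_nhds hε)
  obtain ⟨N, hN⟩ := Filter.eventually_atTop.mp hev
  refine ⟨max N 2, fun z hz hx => ?_⟩
  have hxN : N ≤ |z.re| := le_trans (le_max_left _ _) hx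
  have hx2 : 2 ≤ |z.re| := le_trans (le_max_right _ _) hx
  have hb := hN _ hxN
  have hq1 : ‖(z ^ 2 + 4) ^ (-(1 / 4) : ℂ)‖ ≤ |z.re| ^ (-(1 / 2) : ℝ) := by
    have h := cfl_pow z hz hx2 (1 / 4) (by norm_num)
    have e1 : (((-(1 / 4) : ℝ)) : ℂ) = (-(1 / 4) : ℂ) := by push_cast; ring
    rw [e1] at h
    have e2 : (-(2 * (1 / 4)) : ℝ) = -(1 / 2) := by norm_num
    rw [e2] at h
    exact h
  have hq2 : ‖(z ^ 2 + 4) ^ (-(5 / 4) : ℂ)‖ ≤ |z.re| ^ (-(5 / 2) : ℝ) := by
    have h := cfl_pow z hz hx2 (5 / 4) (by norm_num)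
    have e1 : (((-(5 / 4) : ℝ)) : ℂ) = (-(5 / 4) : ℂ) := by push_cast; ring
    rw [e1] at h
    have e2 : (-(2 * (5 / 4)) : ℝ) = -(5 / 2) := by norm_num
    rw [e2] at h
    exact h
  obtain ⟨hs, hc⟩ := cfl_K z hz
  have hxpos : 0 < |z.re| := by linarith
  have hq0 : 0 < |z.re| ^ (-(1 / 2) : ℝ) := Real.rpow_pos_of_pos hxpos _
  have hzn := cfl_z z hz hx2
  have hq3 : |z.re| * |z.re| ^ (-(5 / 2) : ℝ) ≤ |z.re| ^ (-(1 / 2) : ℝ) := by
    have e : |z.re| * |z.re| ^ (-(5 / 2) : ℝ) = |z.re| ^ (-(3 / 2) : ℝ) := by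
      have h := Real.rpow_add hxpos 1 (-(5 / 2))
      rw [Real.rpow_one] at h
      rw [← h]
      norm_num
    rw [e]
    exact Real.rpow_le_rpow_of_exponent_le (by linarith) (by norm_num)
  constructor
  · rw [norm_mul]
    calc ‖sin z‖ * ‖(z ^ 2 + 4) ^ (-(1 / 4) : ℂ)‖
        ≤ Real.exp (π / 2) * |z.re| ^ (-(1 / 2) : ℝ) :=
          mul_le_mul hs hq1 (norm_nonneg _) hK.le
      _ ≤ 2 * Real.exp (π / 2) * |z.re| ^ (-(1 / 2) : ℝ) := by nlinarith [mul_pos hK hq0]
      _ < ε := hb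
  · have h1 : ‖cos z * (z ^ 2 + 4) ^ (-(1 / 4) : ℂ)‖ ≤ Real.exp (π / 2) * |z.re| ^ (-(1 / 2) : ℝ) := by
      rw [norm_mul]
      exact mul_le_mul hc hq1 (norm_nonneg _) hK.le
    have h2 : ‖sin z * (-(z / 2) * (z ^ 2 + 4) ^ (-(5 / 4) : ℂ))‖ ≤
        Real.exp (π / 2) * |z.re| ^ (-(1 / 2) : ℝ) := by
      rw [norm_mul]
      refine mul_le_mul hs ?_ (norm_nonneg _) hK.le
      rw [norm_mul, norm_neg, norm_div]
      have h4 : ‖(2 : ℂ)‖ = 2 := by simp
      rw [h4]
      calc ‖z‖ / 2 * ‖(z ^ 2 + 4) ^ (-(5 / 4) : ℂ)‖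
          ≤ |z.re| * |z.re| ^ (-(5 / 2) : ℝ) := by
            refine mul_le_mul (by linarith) hq2 (norm_nonneg _) hxpos.le
        _ ≤ |z.re| ^ (-(1 / 2) : ℝ) := hq3
    calc ‖cos z * (z ^ 2 + 4) ^ (-(1 / 4) : ℂ) + sin z * (-(z / 2) * (z ^ 2 + 4) ^ (-(5 / 4) : ℂ))‖
        ≤ _ := norm_add_le _ _
      _ ≤ Real.exp (π / 2) * |z.re| ^ (-(1 / 2) : ℝ) + Real.exp (π / 2) * |z.re| ^ (-(1 / 2) : ℝ) :=
          add_le_add h1 h2
      _ = 2 * Real.exp (π / 2) * |z.re| ^ (-(1 / 2) : ℝ) := by ring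
      _ < ε := hb

lemma Cf_sym (z : ℂ) (hz : z ∈ Strip) :
    (sin (conj z) * ((conj z) ^ 2 + 4) ^ (-(1 / 4) : ℂ)) = conj (sin z * (z ^ 2 + 4) ^ (-(1 / 4) : ℂ)) ∧
    (cos (conj z) * ((conj z) ^ 2 + 4) ^ (-(1 / 4) : ℂ)
      + sin (conj z) * (-((conj z) / 2) * ((conj z) ^ 2 + 4) ^ (-(5 / 4) : ℂ)))
    = conj (cos z * (z ^ 2 + 4) ^ (-(1 / 4) : ℂ) + sin z * (-(z / 2) * (z ^ 2 + 4) ^ (-(5 / 4) : ℂ))) := by
  have hz' : |z.im| ≤ π / 2 := hz
  have hre : 0 < (z ^ 2 + 4).re := by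
    have h1 : (z ^ 2 + 4).re = z.re ^ 2 - z.im ^ 2 + 4 := by
      simp [pow_two]
    rw [h1]
    have h2 : z.im ^ 2 ≤ (π / 2) ^ 2 := by
      rw [← sq_abs]
      exact pow_le_pow_left₀ (abs_nonneg _) hz' 2
    have h3 : π < 3.15 := Real.pi_lt_d2
    have h4 : 0 < π := Real.pi_pos
    nlinarith [sq_nonneg z.re]
  have harg : (z ^ 2 + 4).arg ≠ π := by
    intro h
    rw [Complex.arg_eq_pi_iff] at h
    linarith [h.1]
  have hw : (conj z) ^ 2 + 4 = conj (z ^ 2 + 4) := by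
    rw [map_add, map_pow, map_ofNat]
  have hn1 : conj (-(1 / 4) : ℂ) = -(1 / 4) := by
    rw [map_neg, map_div₀, map_one, map_ofNat]
  have hn2 : conj (-(5 / 4) : ℂ) = -(5 / 4) := by
    rw [map_neg, map_div₀, map_ofNat, map_ofNat]
  have e1 : ((conj z) ^ 2 + 4) ^ (-(1 / 4) : ℂ) = conj ((z ^ 2 + 4) ^ (-(1 / 4) : ℂ)) := by
    rw [hw, Complex.conj_cpow _ _ harg, hn1]
  have e2 : ((conj z) ^ 2 + 4) ^ (-(5 / 4) : ℂ) = conj ((z ^ 2 + 4) ^ (-(5 / 4) : ℂ)) := by
    rw [hw, Complex.conj_cpow _ _ harg, hn2]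
  rw [e1, e2, Complex.sin_conj, Complex.cos_conj]
  constructor
  · rw [map_mul]
  · simp only [map_add, map_mul, map_neg, map_div₀, map_ofNat]

lemma aux_log34019 (x : ℝ) (hx : x ≤ -16) (z : ℂ) (hz : z = x - (π / 2 : ℝ) * I) :
    ∃ L : ℂ, ‖L‖ ≤ 12 / |x| ∧ z ^ 2 + 4 ≠ 0 ∧ log (z ^ 2 + 4) = 2 * (Real.log |x| : ℝ) + L := by
  have hr : 16 ≤ |x| := by rw [abs_of_neg (by linarith)]; linarith
  have hx0 : x ≠ 0 := by intro h; rw [h] at hx; norm_num at hx
  have hxc : (x : ℂ) ≠ 0 := by exact_mod_cast hx0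
  have hpi := Real.pi_pos
  have hpi4 := Real.pi_le_four
  set η : ℂ := (-I * π * x + (4 - (π : ℝ) ^ 2 / 4 : ℝ)) / ((x ^ 2 : ℝ) : ℂ) with hη
  have h1 : z ^ 2 + 4 = ((x ^ 2 : ℝ) : ℂ) * (1 + η) := by
    rw [hη, mul_add, mul_div_cancel₀ _ (by exact_mod_cast (pow_ne_zero 2 hx0)), hz]
    push_cast
    ring_nf
    rw [I_sq]
    ring
  have h2 : ‖η‖ ≤ 8 / |x| := by
    rw [hη, norm_div, norm_real, Real.norm_of_nonneg (by positivity), ← sq_abs x]
    have h3 : ‖-I * π * x + ((4 - (π : ℝ) ^ 2 / 4 : ℝ) : ℂ)‖ ≤ 8 * |x| := by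
      calc ‖-I * π * x + ((4 - (π : ℝ) ^ 2 / 4 : ℝ) : ℂ)‖
          ≤ ‖-I * π * x‖ + ‖((4 - (π : ℝ) ^ 2 / 4 : ℝ) : ℂ)‖ := norm_add_le _ _
        _ = π * |x| + |4 - (π : ℝ) ^ 2 / 4| := by
            rw [norm_mul, norm_mul, norm_neg, norm_I, one_mul, norm_real, norm_real, norm_real,
              Real.norm_eq_abs, Real.norm_eq_abs, Real.norm_eq_abs, abs_of_pos hpi]
        _ ≤ 4 * |x| + 4 := by
            apply add_le_add
            · exact mul_le_mul_of_nonneg_right hpi4 (abs_nonneg x)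
            · rw [abs_le]; constructor <;> nlinarith
        _ ≤ 8 * |x| := by linarith
    rw [div_le_div_iff₀ (by positivity) (by positivity)]
    nlinarith [abs_nonneg x]
  have h3 : ‖η‖ ≤ 1 / 2 := by
    refine h2.trans ?_
    rw [div_le_div_iff₀ (by positivity) (by norm_num)]
    linarith
  have h4 : 1 + η ≠ 0 := by
    intro h
    have h5 : η = -1 := by linear_combination h
    rw [h5] at h3
    norm_num at h3
  refine ⟨log (1 + η), ?_, ?_, ?_⟩
  · refine (norm_log_one_add_half_le_self h3).trans ?_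
    calc (3 / 2) * ‖η‖ ≤ 3 / 2 * (8 / |x|) := by gcongr
      _ = 12 / |x| := by ring
  · rw [h1]
    exact mul_ne_zero (by exact_mod_cast (pow_ne_zero 2 hx0)) h4
  · rw [h1, log_ofReal_mul (by positivity) h4]
    congr 1
    rw [← sq_abs x, Real.log_pow]
    push_cast
    ring

lemma n234019 : ‖(2 : ℂ)‖ = 2 := by norm_num

lemma aux_cos34019 (x : ℝ) (z : ℂ) (hz : z = x - (π / 2 : ℝ) * I) :
    ‖cos z‖ ≤ Real.exp (π / 2) ∧ ‖sin z‖ ≤ Real.exp (π / 2) := by
  have hpi := Real.pi_pos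
  have h1 : ‖exp (z * I)‖ ≤ Real.exp (π / 2) := by
    rw [norm_exp]
    apply Real.exp_le_exp.2
    rw [hz]; simp
  have h2 : ‖exp (-z * I)‖ ≤ Real.exp (π / 2) := by
    rw [norm_exp]
    apply Real.exp_le_exp.2
    rw [hz]; simp
    linarith
  constructor
  · unfold cos
    rw [norm_div, n234019]
    have := norm_add_le (exp (z * I)) (exp (-z * I))
    linarith
  · unfold sin
    rw [norm_div, n234019, norm_mul, norm_I, mul_one]
    have := norm_sub_le (exp (-z * I)) (exp (z * I))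
    linarith

lemma aux_recos34019 (x : ℝ) (z : ℂ) (hz : z = x - (π / 2 : ℝ) * I) :
    (cos z).re = Real.cosh (π / 2) * Real.cos x := by
  have h1 : z = (x : ℂ) + ((-(π / 2) : ℝ) : ℂ) * I := by rw [hz]; push_cast; ring
  rw [h1, cos_add_mul_I, ← ofReal_cos, ← ofReal_sin, ← ofReal_cosh, ← ofReal_sinh]
  rw [Real.cosh_neg]
  simp only [sub_re, mul_re, ofReal_re, ofReal_im, I_re, I_im, mul_im]
  ring


lemma Cf_asym : ∃ K X : ℝ, 1 ≤ X ∧ 0 ≤ K ∧ ∀ x : ℝ, x ≤ -X → ∀ z : ℂ, z = x - (π / 2 : ℝ) * I →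
    |(cos z * (z ^ 2 + 4) ^ (-(1 / 4) : ℂ) + sin z * (-(z / 2) * (z ^ 2 + 4) ^ (-(5 / 4) : ℂ))).re
      - Real.cosh (π / 2) * Real.cos x * |x| ^ (-(1 / 2) : ℝ)| ≤ K * |x| ^ (-(3 / 2) : ℝ) := by
  refine ⟨21 / 2 * Real.exp (π / 2), 16, by norm_num, by positivity, ?_⟩
  intro x hx z hz
  obtain ⟨L, hL, hw, hlog⟩ := aux_log34019 x hx z hz
  obtain ⟨hc, hs⟩ := aux_cos34019 x z hz
  have hrec := aux_recos34019 x z hz
  have hr : 16 ≤ |x| := by rw [abs_of_neg (by linarith)]; linarith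
  have hr0 : 0 < |x| := by linarith
  set r : ℝ := |x| with hrdef
  set M : ℝ := Real.exp (π / 2) with hM
  have hM0 : 0 < M := Real.exp_pos _
  set R : ℝ := r ^ (-(1 / 2) : ℝ) with hR
  have hR0 : 0 < R := Real.rpow_pos_of_pos hr0 _
  have hL1 : ‖L‖ ≤ 3 / 4 := hL.trans (by rw [div_le_div_iff₀ hr0 (by norm_num)]; linarith)
  -- powers
  have hRexp : R = Real.exp (Real.log r * (-(1 / 2))) := by rw [hR, Real.rpow_def_of_pos hr0]
  have hp1 : (z ^ 2 + 4) ^ (-(1 / 4) : ℂ) = (R : ℂ) * exp (-(L / 4)) := by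
    rw [cpow_def_of_ne_zero hw, hlog, hRexp, ofReal_exp, ← exp_add]
    congr 1
    push_cast
    ring
  have hR2 : r ^ (-(3 / 2) : ℝ) = R / r := by
    have h9 : R / r = r ^ (-(1 / 2) : ℝ) * r ^ (-1 : ℝ) := by rw [Real.rpow_neg_one]; rfl
    rw [h9, ← Real.rpow_add hr0]
    norm_num
  have hR3 : R / r ^ 2 = Real.exp (Real.log r * (-(5 / 2))) := by
    rw [← Real.rpow_def_of_pos hr0, hR, div_eq_mul_inv, ← Real.rpow_natCast, ← Real.rpow_neg hr0.le,
      ← Real.rpow_add hr0]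
    norm_num
  have hp2 : (z ^ 2 + 4) ^ (-(5 / 4) : ℂ) = ((R / r ^ 2 : ℝ) : ℂ) * exp (-(5 / 4 * L)) := by
    rw [cpow_def_of_ne_zero hw, hlog, hR3, ofReal_exp, ← exp_add]
    congr 1
    push_cast
    ring
  have hznorm : ‖z‖ ≤ 3 * r := by
    rw [hz]
    calc ‖(x : ℂ) - ((π / 2 : ℝ) : ℂ) * I‖ ≤ ‖(x : ℂ)‖ + ‖((π / 2 : ℝ) : ℂ) * I‖ := norm_sub_le _ _
      _ = r + π / 2 := by
          rw [norm_mul, norm_I, mul_one, norm_real, norm_real, Real.norm_eq_abs,
            Real.norm_of_nonneg (by positivity)]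
      _ ≤ 3 * r := by linarith [Real.pi_le_four]
  rw [hp1, hp2, hR2]
  have hsplit : (cos z * ((R : ℂ) * exp (-(L / 4))) +
      sin z * (-(z / 2) * (((R / r ^ 2 : ℝ) : ℂ) * exp (-(5 / 4 * L))))).re -
      Real.cosh (π / 2) * Real.cos x * R =
      (cos z * (R : ℂ) * (exp (-(L / 4)) - 1) +
      sin z * (-(z / 2) * (((R / r ^ 2 : ℝ) : ℂ) * exp (-(5 / 4 * L))))).re := by
    rw [← hrec]
    have : (cos z).re * R = (cos z * (R : ℂ)).re := by rw [re_mul_ofReal]
    rw [this, ← sub_re]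
    congr 1
    ring
  rw [hsplit]
  refine (abs_re_le_norm _).trans ?_
  have hb1 : ‖exp (-(L / 4)) - 1‖ ≤ 6 / r := by
    have h1 : ‖-(L / 4)‖ = ‖L‖ / 4 := by rw [norm_neg, norm_div]; norm_num
    have h2 := norm_exp_sub_one_le (x := -(L / 4)) (by rw [h1]; linarith)
    rw [h1] at h2
    refine h2.trans ?_
    calc 2 * (‖L‖ / 4) ≤ 2 * ((12 / r) / 4) := by gcongr
      _ = 6 / r := by ring
  have hb2 : ‖exp (-(5 / 4 * L))‖ ≤ 3 := by
    rw [norm_exp]
    have h1 : (-(5 / 4 * L)).re ≤ 1 := by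
      refine (re_le_norm _).trans ?_
      rw [norm_neg, norm_mul]
      norm_num
      linarith
    refine (Real.exp_le_exp.2 h1).trans ?_
    have := Real.exp_one_lt_d9
    linarith
  have ht1 : ‖cos z * (R : ℂ) * (exp (-(L / 4)) - 1)‖ ≤ M * R * (6 / r) := by
    rw [norm_mul, norm_mul, norm_real, Real.norm_of_nonneg hR0.le]
    gcongr
  have ht2 : ‖sin z * (-(z / 2) * (((R / r ^ 2 : ℝ) : ℂ) * exp (-(5 / 4 * L))))‖ ≤
      M * ((3 * r / 2) * ((R / r ^ 2) * 3)) := by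
    rw [norm_mul, norm_mul, norm_mul, norm_neg, norm_div, n234019, norm_real,
      Real.norm_of_nonneg (by positivity)]
    gcongr
  calc _ ≤ ‖cos z * (R : ℂ) * (exp (-(L / 4)) - 1)‖ +
        ‖sin z * (-(z / 2) * (((R / r ^ 2 : ℝ) : ℂ) * exp (-(5 / 4 * L))))‖ := norm_add_le _ _
    _ ≤ M * R * (6 / r) + M * ((3 * r / 2) * ((R / r ^ 2) * 3)) := add_le_add ht1 ht2
    _ = 21 / 2 * M * (R / r) := by
        field_simp
        ring

/-- a primitive -/
noncomputable def FF (K y : ℝ) : ℝ :=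
  (1 / 4) * Real.log y + Real.sin (2 * y) / (8 * y) + 1 / (8 * y) + K ^ 2 / (2 * y ^ 2)

/-- its derivative -/
noncomputable def FF' (K y : ℝ) : ℝ :=
  Real.cos y ^ 2 / (2 * y) - (Real.sin (2 * y) + 1) / (8 * y ^ 2) - K ^ 2 / y ^ 3

lemma FF_deriv (K y : ℝ) (hy : 0 < y) : HasDerivAt (FF K) (FF' K y) y := by
  have h1 : HasDerivAt (fun y : ℝ => (1 / 4) * Real.log y) ((1 / 4) * y⁻¹) y :=
    (Real.hasDerivAt_log hy.ne').const_mul _
  have h2a : HasDerivAt (fun y : ℝ => Real.sin (2 * y)) (Real.cos (2 * y) * (2 * 1)) y :=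
    ((hasDerivAt_id y).const_mul 2).sin
  have h2b : HasDerivAt (fun y : ℝ => 8 * y) (8 * 1) y := (hasDerivAt_id y).const_mul 8
  have h8 : (8 * y : ℝ) ≠ 0 := by positivity
  have h2 : HasDerivAt (fun y : ℝ => Real.sin (2 * y) / (8 * y)) _ y := h2a.div h2b h8
  have h3 : HasDerivAt (fun y : ℝ => 1 / (8 * y)) _ y := (hasDerivAt_const y (1:ℝ)).div h2b h8
  have h4a : HasDerivAt (fun y : ℝ => 2 * y ^ 2) (2 * ((2:ℕ) * y ^ (2 - 1))) y :=
    (hasDerivAt_pow 2 y).const_mul 2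
  have h4b : (2 * y ^ 2 : ℝ) ≠ 0 := by positivity
  have h4 : HasDerivAt (fun y : ℝ => K ^ 2 / (2 * y ^ 2)) _ y :=
    (hasDerivAt_const y (K ^ 2)).div h4a h4b
  have h5 := ((h1.add h2).add h3).add h4
  refine h5.congr_deriv ?_
  unfold FF'
  rw [Real.cos_two_mul]
  push_cast
  field_simp
  ring

lemma FF_lower (K y : ℝ) (hy : 0 < y) : (1 / 4) * Real.log y ≤ FF K y := by
  unfold FF
  have h1 : 0 ≤ Real.sin (2 * y) / (8 * y) + 1 / (8 * y) := by
    rw [← add_div]
    apply div_nonneg _ (by positivity)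
    linarith [Real.neg_one_le_sin (2 * y)]
  have h2 : 0 ≤ K ^ 2 / (2 * y ^ 2) := by positivity
  linarith


lemma diverge (u : ℝ → ℝ) (hu : Continuous u) (c K X : ℝ) (hc : 1 ≤ c) (hX : 1 ≤ X) (hK : 0 ≤ K)
    (h : ∀ x : ℝ, x ≤ -X → |u x - c * Real.cos x * |x| ^ (-(1 / 2) : ℝ)| ≤ K * |x| ^ (-(3 / 2) : ℝ))
    (B : ℝ) : ∃ N : ℝ, 0 < N ∧ B ≤ ∫ x in (-N)..0, u x ^ 2 := by
  set N : ℝ := max X (Real.exp (4 * (B + FF K X))) with hN
  have hXN : X ≤ N := le_max_left _ _
  have hX0 : 0 < X := by linarith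
  have hN0 : 0 < N := by linarith
  refine ⟨N, hN0, ?_⟩
  have hlog : B + FF K X ≤ (1 / 4) * Real.log N := by
    have h1 : Real.exp (4 * (B + FF K X)) ≤ N := le_max_right _ _
    have h2 := Real.log_le_log (Real.exp_pos _) h1
    rw [Real.log_exp] at h2
    linarith
  have hFN := FF_lower K N hN0
  have hcu : Continuous (fun x => u x ^ 2) := hu.pow 2
  have hint : ∀ a b : ℝ, IntervalIntegrable (fun x => u x ^ 2) volume a b :=
    fun a b => hcu.intervalIntegrable a b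
  have hsplit : ∫ x in (-N)..0, u x ^ 2 =
      (∫ x in (-N)..(-X), u x ^ 2) + ∫ x in (-X)..0, u x ^ 2 :=
    (intervalIntegral.integral_add_adjacent_intervals (hint _ _) (hint _ _)).symm
  have hpos : 0 ≤ ∫ x in (-X)..0, u x ^ 2 :=
    intervalIntegral.integral_nonneg (by linarith) (fun x _ => sq_nonneg _)
  have hmain : (-FF K (- -X)) - (-FF K (- -N)) ≤ ∫ x in (-N)..(-X), u x ^ 2 := by
    have hd : ∀ x : ℝ, x < 0 → HasDerivAt (fun x => -FF K (-x)) (FF' K (-x)) x := by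
      intro x hx
      have h1 := ((FF_deriv K (-x) (by linarith)).comp x (hasDerivAt_neg x)).neg
      refine h1.congr_deriv ?_
      ring
    apply intervalIntegral.sub_le_integral_of_hasDeriv_right_of_le (g := fun x => -FF K (-x))
      (g' := fun x => FF' K (-x)) (by linarith)
    · intro x hx
      exact (hd x (by linarith [hx.2])).continuousAt.continuousWithinAt
    · intro x hx
      exact (hd x (by linarith [hx.2])).hasDerivWithinAt
    · exact hcu.continuousOn.integrableOn_compact isCompact_Icc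
    · intro x hx
      have hxX : x ≤ -X := hx.2.le
      have hy : 0 < -x := by linarith
      have habs : |x| = -x := abs_of_neg (by linarith)
      have h1 := h x hxX
      rw [habs] at h1
      set y : ℝ := -x with hydef
      set p : ℝ := y ^ (-(1 / 2) : ℝ) with hp
      have hp2 : p ^ 2 = y⁻¹ := by
        rw [hp, ← Real.rpow_natCast, ← Real.rpow_mul hy.le, ← Real.rpow_neg_one]
        norm_num
      have hq2 : (y ^ (-(3 / 2) : ℝ)) ^ 2 = (y ^ 3)⁻¹ := by
        rw [← Real.rpow_natCast, ← Real.rpow_mul hy.le, ← Real.rpow_natCast, ← Real.rpow_neg hy.le]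
        norm_num
      have h2 : (u x - c * Real.cos x * p) ^ 2 ≤ K ^ 2 * (y ^ 3)⁻¹ := by
        have h3 := sq_le_sq' (by linarith [abs_nonneg (u x - c * Real.cos x * p)]) h1
        rw [sq_abs, mul_pow, hq2] at h3
        exact h3
      have h4 : (c * Real.cos x * p) ^ 2 ≤ 2 * u x ^ 2 + 2 * (u x - c * Real.cos x * p) ^ 2 := by
        nlinarith [sq_nonneg (2 * u x - c * Real.cos x * p)]
      have h5 : (c * Real.cos x * p) ^ 2 = c ^ 2 * Real.cos x ^ 2 * y⁻¹ := by
        rw [mul_pow, mul_pow, hp2]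
      have h6 : Real.cos x ^ 2 * y⁻¹ ≤ c ^ 2 * Real.cos x ^ 2 * y⁻¹ := by
        have hc2 : 1 ≤ c ^ 2 := by nlinarith
        have h7 : 0 ≤ Real.cos x ^ 2 * y⁻¹ := by positivity
        nlinarith
      have h8 : Real.cos y = Real.cos x := by rw [hydef, Real.cos_neg]
      show FF' K y ≤ u x ^ 2
      unfold FF'
      rw [h8]
      have h9 : 0 ≤ (Real.sin (2 * y) + 1) / (8 * y ^ 2) := by
        apply div_nonneg _ (by positivity)
        linarith [Real.neg_one_le_sin (2 * y)]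
      have h10 : Real.cos x ^ 2 / (2 * y) = (1 / 2) * (Real.cos x ^ 2 * y⁻¹) := by
        field_simp
      have h11 : K ^ 2 / y ^ 3 = K ^ 2 * (y ^ 3)⁻¹ := div_eq_mul_inv _ _
      rw [h10, h11]
      linarith
  rw [neg_neg, neg_neg] at hmain
  rw [hsplit]
  linarith

lemma exists_C : ∃ C D : ℂ → ℂ, ContinuousOn C Strip ∧ DifferentiableOn ℂ C OStrip ∧
    ContinuousOn D Strip ∧ DifferentiableOn ℂ D OStrip ∧
    (∀ z ∈ Strip, HasDerivAt C (D z) z) ∧
    (∀ ε : ℝ, 0 < ε → ∃ N : ℝ, ∀ z ∈ Strip, N ≤ |z.re| → ‖C z‖ < ε ∧ ‖D z‖ < ε) ∧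
    (∀ x : ℝ, (D (x + (π / 2 : ℝ) * I)).re = (D (x - (π / 2 : ℝ) * I)).re) ∧
    (∀ x : ℝ, |(D (x - (π / 2 : ℝ) * I)).re| ≤ 1 / 2) ∧
    (∀ B : ℝ, ∃ N : ℝ, 0 < N ∧ B ≤ ∫ x in (-N)..0, (D (x - (π / 2 : ℝ) * I)).re ^ 2) := by
  have hpi : π / 2 < 2 := by linarith [Real.pi_lt_d2]
  have hpi0 : 0 < π / 2 := by positivity
  set C0 : ℂ → ℂ := fun z => sin z * (z ^ 2 + 4) ^ (-(1 / 4) : ℂ) with hC0
  set D0 : ℂ → ℂ := fun z => cos z * (z ^ 2 + 4) ^ (-(1 / 4) : ℂ)
      + sin z * (-(z / 2) * (z ^ 2 + 4) ^ (-(5 / 4) : ℂ)) with hD0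
  have hder : ∀ z ∈ Strip, HasDerivAt C0 (D0 z) z := fun z hz =>
    (Cf_deriv z (lt_of_le_of_lt hz hpi)).1
  have hdd : ∀ z ∈ Strip, DifferentiableAt ℂ D0 z := fun z hz =>
    (Cf_deriv z (lt_of_le_of_lt hz hpi)).2
  have hOS : OStrip ⊆ Strip := fun z (hz : |z.im| < π / 2) => show |z.im| ≤ π / 2 from hz.le
  have hl : ∀ x : ℝ, ((x : ℂ) - (π / 2 : ℝ) * I) ∈ Strip := by
    intro x
    change |((x : ℂ) - (π / 2 : ℝ) * I).im| ≤ π / 2
    simp only [sub_im, ofReal_im, mul_im, ofReal_re, I_im, I_re, mul_one, mul_zero, add_zero, zero_sub,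
      abs_neg]
    rw [abs_of_pos hpi0]
  have hlre : ∀ x : ℝ, ((x : ℂ) - (π / 2 : ℝ) * I).re = x := by
    intro x
    simp
  set u0 : ℝ → ℝ := fun x => (D0 ((x : ℂ) - (π / 2 : ℝ) * I)).re with hu0
  have hu0c : Continuous u0 := by
    apply continuous_re.comp
    rw [continuous_iff_continuousAt]
    intro x
    have h1 : ContinuousAt D0 ((x : ℂ) - (π / 2 : ℝ) * I) := (hdd _ (hl x)).continuousAt
    have h2 : ContinuousAt (fun x : ℝ => ((x : ℂ) - (π / 2 : ℝ) * I)) x := by fun_prop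
    exact ContinuousAt.comp (f := fun x : ℝ => ((x : ℂ) - (π / 2 : ℝ) * I)) (g := D0) h1 h2
  obtain ⟨N0, hN0⟩ := Cf_lim 1 one_pos
  obtain ⟨M1, hM1⟩ := (isCompact_Icc (a := -|N0|) (b := |N0|)).exists_bound_of_continuousOn
    hu0c.continuousOn
  have hbd : ∀ x, |u0 x| ≤ max 1 M1 := by
    intro x
    by_cases h : N0 ≤ |x|
    · have h1 := (hN0 _ (hl x) (by rw [hlre]; exact h)).2
      refine le_trans ?_ (le_max_left _ _)
      exact (abs_re_le_norm _).trans h1.le
    · have h1 : |x| ≤ |N0| := (not_le.1 h).le.trans (le_abs_self _)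
      have h2 := hM1 x ⟨(abs_le.1 h1).1, (abs_le.1 h1).2⟩
      exact le_trans h2 (le_max_right _ _)
  set M : ℝ := max 1 M1 with hM
  have hM1' : 1 ≤ M := le_max_left _ _
  set κ : ℝ := 1 / (2 * M) with hκ
  have hκ0 : 0 < κ := by positivity
  have hκ1 : κ ≤ 1 := by
    rw [hκ, div_le_one (by positivity)]
    linarith
  have hnκ : ‖(κ : ℂ)‖ = κ := by
    rw [norm_real, Real.norm_of_nonneg hκ0.le]
  have hreκ : ∀ w : ℂ, ((κ : ℂ) * w).re = κ * w.re := fun w => re_ofReal_mul κ w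
  refine ⟨fun z => (κ : ℂ) * C0 z, fun z => (κ : ℂ) * D0 z, ?_, ?_, ?_, ?_, ?_, ?_, ?_, ?_, ?_⟩
  · intro z hz
    exact ((hder z hz).continuousAt.const_mul _).continuousWithinAt
  · intro z hz
    exact ((hder z (hOS hz)).differentiableAt.const_mul _).differentiableWithinAt
  · intro z hz
    exact ((hdd z hz).continuousAt.const_mul _).continuousWithinAt
  · intro z hz
    exact ((hdd z (hOS hz)).const_mul _).differentiableWithinAt
  · intro z hz
    exact (hder z hz).const_mul _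
  · intro ε hε
    obtain ⟨N, hN⟩ := Cf_lim ε hε
    refine ⟨N, fun z hz hzN => ?_⟩
    obtain ⟨h1, h2⟩ := hN z hz hzN
    refine ⟨?_, ?_⟩
    · rw [norm_mul, hnκ]
      have : ‖C0 z‖ < ε := h1
      nlinarith [norm_nonneg (C0 z)]
    · rw [norm_mul, hnκ]
      have : ‖D0 z‖ < ε := h2
      nlinarith [norm_nonneg (D0 z)]
  · intro x
    have h1 := (Cf_sym _ (hl x)).2
    have h2 : conj ((x : ℂ) - (π / 2 : ℝ) * I) = (x : ℂ) + (π / 2 : ℝ) * I := by
      rw [map_sub, map_mul, conj_ofReal, conj_ofReal, conj_I]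
      ring
    rw [h2] at h1
    have h3 : D0 ((x : ℂ) + (π / 2 : ℝ) * I) = conj (D0 ((x : ℂ) - (π / 2 : ℝ) * I)) := h1
    rw [hreκ, hreκ, h3, conj_re]
  · intro x
    rw [hreκ, abs_mul, abs_of_pos hκ0]
    have h1 := hbd x
    calc κ * |u0 x| ≤ κ * M := mul_le_mul_of_nonneg_left h1 hκ0.le
      _ = 1 / 2 := by rw [hκ]; field_simp
  · intro B
    obtain ⟨K, X, hX, hK, hKX⟩ := Cf_asym
    obtain ⟨N, hN, hB⟩ := diverge u0 hu0c (Real.cosh (π / 2)) K X (Real.one_le_cosh _) hX hK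
      (fun x hx => hKX x hx _ rfl) (B / κ ^ 2)
    refine ⟨N, hN, ?_⟩
    have h1 : ∫ x in (-N)..0, ((κ : ℂ) * D0 ((x : ℂ) - (π / 2 : ℝ) * I)).re ^ 2 =
        κ ^ 2 * ∫ x in (-N)..0, u0 x ^ 2 := by
      rw [← intervalIntegral.integral_const_mul]
      refine intervalIntegral.integral_congr (fun x _ => ?_)
      rw [hreκ]
      ring
    rw [h1]
    rw [div_le_iff₀ (by positivity)] at hB
    linarith

lemma lift_homeo_int (Ψ : ℝ → ℝ) (hp : ∀ t, Ψ (t + 2 * π) = Ψ t + 2 * π) (t : ℝ) (n : ℤ) :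
    Ψ (t + n * (2 * π)) = Ψ t + n * (2 * π) := by
  have hnat : ∀ (k : ℕ) (t : ℝ), Ψ (t + k * (2 * π)) = Ψ t + k * (2 * π) := by
    intro k
    induction k with
    | zero => simp
    | succ k ih =>
      intro t
      have e : t + ((k + 1 : ℕ) : ℝ) * (2 * π) = (t + k * (2 * π)) + 2 * π := by
        push_cast
        ring
      rw [e, hp, ih]
      push_cast
      ring
  rcases Int.le_total 0 n with h | h
  · obtain ⟨k, rfl⟩ := Int.eq_ofNat_of_zero_le h
    exact_mod_cast hnat k t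
  · obtain ⟨k, hk⟩ := Int.eq_ofNat_of_zero_le (Int.neg_nonneg_of_nonpos h)
    have hn : n = -(k : ℤ) := by omega
    subst hn
    have h1 := hnat k (t + ((-(k : ℤ) : ℤ) : ℝ) * (2 * π))
    have e : t + ((-(k : ℤ) : ℤ) : ℝ) * (2 * π) + k * (2 * π) = t := by
      push_cast
      ring
    rw [e] at h1
    rw [h1]
    push_cast
    ring

lemma lift_homeo_surj (Ψ : ℝ → ℝ) (hc : Continuous Ψ)
    (hp : ∀ t, Ψ (t + 2 * π) = Ψ t + 2 * π) (y : ℝ) : ∃ t, Ψ t = y := by
  have hpi : 0 < 2 * π := by positivity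
  set n : ℤ := ⌊(y - Ψ 0) / (2 * π)⌋ with hn
  have h1 : (n : ℝ) ≤ (y - Ψ 0) / (2 * π) := Int.floor_le _
  have h2 : (y - Ψ 0) / (2 * π) < n + 1 := Int.lt_floor_add_one _
  rw [le_div_iff₀ hpi] at h1
  rw [div_lt_iff₀ hpi] at h2
  have a1 := lift_homeo_int Ψ hp 0 n
  have a2 := lift_homeo_int Ψ hp 0 (n + 1)
  have hle : (0 : ℝ) + n * (2 * π) ≤ 0 + ((n + 1 : ℤ) : ℝ) * (2 * π) := by
    push_cast
    nlinarith
  obtain ⟨t, _, ht⟩ := intermediate_value_Icc hle hc.continuousOn (show y ∈ Icc _ _ from by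
    rw [a1, a2]
    push_cast
    exact ⟨by linarith, by linarith⟩)
  exact ⟨t, ht⟩


lemma lift_homeo (Ψ : ℝ → ℝ) (hc : Continuous Ψ) (hm : StrictMono Ψ)
    (hp : ∀ t, Ψ (t + 2 * π) = Ψ t + 2 * π) :
    ∃ ψ : Circle ≃ₜ Circle, ∀ t : ℝ, ψ (Circle.exp t) = Circle.exp (Ψ t) := by
  have hper : Function.Periodic (fun t => Circle.exp (Ψ t)) (2 * π) := by
    intro t
    change Circle.exp (Ψ (t + 2 * π)) = Circle.exp (Ψ t)
    rw [hp, Circle.periodic_exp]
  let F : Circle → Circle := fun z => hper.lift (AddCircle.homeomorphCircle'.symm z)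
  have hF : ∀ t : ℝ, F (Circle.exp t) = Circle.exp (Ψ t) := by
    intro t
    have h1 : AddCircle.homeomorphCircle'.symm (Circle.exp t) = (t : AddCircle (2 * π)) := by
      rw [← AddCircle.homeomorphCircle'_apply_mk, Homeomorph.symm_apply_apply]
    change hper.lift (AddCircle.homeomorphCircle'.symm (Circle.exp t)) = _
    rw [h1]
    rfl
  have hFc : Continuous F := by
    refine Continuous.comp ?_ AddCircle.homeomorphCircle'.symm.continuous
    exact (Circle.exp.continuous.comp hc).quotient_liftOn' _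
  have hbij : Function.Bijective F := by
    constructor
    · intro z w hzw
      rw [← Circle.exp_arg z, ← Circle.exp_arg w] at hzw ⊢
      rw [hF, hF, Circle.exp_eq_exp] at hzw
      obtain ⟨n, hn⟩ := hzw
      rw [← lift_homeo_int Ψ hp] at hn
      rw [Circle.exp_eq_exp]
      exact ⟨n, hm.injective hn⟩
    · intro z
      obtain ⟨t, ht⟩ := lift_homeo_surj Ψ hc hp (Complex.arg z)
      refine ⟨Circle.exp t, ?_⟩
      rw [hF, ht, Circle.exp_arg]
  have hc2 : Continuous (Equiv.ofBijective F hbij) := hFc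
  exact ⟨hc2.homeoOfEquivCompactToT2, hF⟩

lemma P_cont_aux (R u : ℝ → ℝ) (L : ℝ → ℝ) (l : Filter ℝ) (t0 : ℝ) (hl : l ≤ 𝓝 t0)
    (hu : Tendsto (fun t => u (L t)) l (𝓝 0)) (hR : Tendsto (fun t => R (L t)) l (𝓝 0)) :
    Tendsto (fun t => (1 + u (L t)) *
        (2 * Real.exp (R (L t)) /
          ((1 + Real.cos t) + Real.exp (R (L t)) ^ 2 * (1 - Real.cos t)))) l (𝓝 1) := by
  have hc : Tendsto Real.cos l (𝓝 (Real.cos t0)) :=
    (Real.continuous_cos.tendsto t0).mono_left hl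
  have hE : Tendsto (fun t => Real.exp (R (L t))) l (𝓝 1) := by
    have := (Real.continuous_exp.tendsto 0).comp hR
    rwa [Real.exp_zero] at this
  have hD : Tendsto (fun t => (1 + Real.cos t) + Real.exp (R (L t)) ^ 2 * (1 - Real.cos t)) l
      (𝓝 2) := by
    have h1 : Tendsto (fun t => (1 + Real.cos t) + Real.exp (R (L t)) ^ 2 * (1 - Real.cos t)) l
        (𝓝 ((1 + Real.cos t0) + 1 ^ 2 * (1 - Real.cos t0))) :=
      (tendsto_const_nhds.add hc).add ((hE.pow 2).mul (tendsto_const_nhds.sub hc))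
    have h2 : (1 + Real.cos t0) + 1 ^ 2 * (1 - Real.cos t0) = 2 := by ring
    rwa [h2] at h1
  have h3 : Tendsto (fun t => (1 + u (L t)) *
        (2 * Real.exp (R (L t)) /
          ((1 + Real.cos t) + Real.exp (R (L t)) ^ 2 * (1 - Real.cos t)))) l
      (𝓝 ((1 + 0) * (2 * 1 / 2))) :=
    (tendsto_const_nhds.add hu).mul (((hE.const_mul 2)).div hD (by norm_num))
  have h4 : ((1 : ℝ) + 0) * (2 * 1 / 2) = 1 := by norm_num
  rwa [h4] at h3

lemma P_cont (R u : ℝ → ℝ) (hR : ∀ x, HasDerivAt R (u x) x) (hu : Continuous u)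
    (hRb : Tendsto R atBot (𝓝 0)) (hRt : Tendsto R atTop (𝓝 0))
    (hub : Tendsto u atBot (𝓝 0)) (hut : Tendsto u atTop (𝓝 0)) :
    Continuous (fun t : ℝ => if 0 < Real.sin t then
      (1 + u (Real.log (Real.sin t / (1 + Real.cos t)))) *
        (2 * Real.exp (R (Real.log (Real.sin t / (1 + Real.cos t)))) /
          ((1 + Real.cos t) + Real.exp (R (Real.log (Real.sin t / (1 + Real.cos t)))) ^ 2 * (1 - Real.cos t)))
      else 1) := by
  have hRc : Continuous R := continuous_iff_continuousAt.2 (fun x => (hR x).continuousAt)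
  have hpos : ∀ t : ℝ, 0 < Real.sin t → 0 < 1 + Real.cos t ∧ 0 < 1 - Real.cos t := by
    intro t ht
    have h1 := Real.sin_sq_add_cos_sq t
    have h2 : Real.cos t ^ 2 < 1 := by nlinarith [mul_pos ht ht]
    constructor
    · nlinarith [Real.neg_one_le_cos t, Real.cos_le_one t]
    · nlinarith [Real.neg_one_le_cos t, Real.cos_le_one t]
  rw [continuous_iff_continuousAt]
  intro t0
  rcases lt_trichotomy (Real.sin t0) 0 with h | h | h
  · -- negative
    have hev : ∀ᶠ t in 𝓝 t0, Real.sin t < 0 :=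
      (Real.continuous_sin.tendsto t0).eventually (eventually_lt_nhds h)
    refine (continuousAt_const (y := (1 : ℝ))).congr ?_
    filter_upwards [hev] with t ht
    rw [if_neg (not_lt.2 ht.le)]
  · -- zero
    have hval : (fun t : ℝ => if 0 < Real.sin t then
      (1 + u (Real.log (Real.sin t / (1 + Real.cos t)))) *
        (2 * Real.exp (R (Real.log (Real.sin t / (1 + Real.cos t)))) /
          ((1 + Real.cos t) + Real.exp (R (Real.log (Real.sin t / (1 + Real.cos t)))) ^ 2 * (1 - Real.cos t)))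
      else 1) t0 = 1 := by
      show (if 0 < Real.sin t0 then _ else (1 : ℝ)) = 1
      rw [if_neg (not_lt.2 h.le)]
    unfold ContinuousAt
    rw [hval]
    have hnb : 𝓝[{t | 0 < Real.sin t}] t0 ≤ 𝓝 t0 := nhdsWithin_le_nhds
    have hev : ∀ᶠ t in 𝓝[{t | 0 < Real.sin t}] t0, 0 < Real.sin t := eventually_mem_nhdsWithin
    have hs : Tendsto Real.sin (𝓝[{t | 0 < Real.sin t}] t0) (𝓝 0) := by
      have := (Real.continuous_sin.tendsto t0).mono_left hnb
      rwa [h] at this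
    have hc : Tendsto Real.cos (𝓝[{t | 0 < Real.sin t}] t0) (𝓝 (Real.cos t0)) :=
      (Real.continuous_cos.tendsto t0).mono_left hnb
    have hcos : Real.cos t0 = 1 ∨ Real.cos t0 = -1 := by
      have h1 := Real.sin_sq_add_cos_sq t0
      rw [h] at h1
      have h2 : (Real.cos t0 - 1) * (Real.cos t0 + 1) = 0 := by nlinarith
      rcases mul_eq_zero.1 h2 with h3 | h3
      · left; linarith
      · right; linarith
    have key : Tendsto (fun t : ℝ => (1 + u (Real.log (Real.sin t / (1 + Real.cos t)))) *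
        (2 * Real.exp (R (Real.log (Real.sin t / (1 + Real.cos t)))) /
          ((1 + Real.cos t) + Real.exp (R (Real.log (Real.sin t / (1 + Real.cos t)))) ^ 2 * (1 - Real.cos t))))
        (𝓝[{t | 0 < Real.sin t}] t0) (𝓝 1) := by
      rcases hcos with h1 | h1
      · have hL : Tendsto (fun t => Real.log (Real.sin t / (1 + Real.cos t)))
            (𝓝[{t | 0 < Real.sin t}] t0) atBot := by
          refine Real.tendsto_log_nhdsGT_zero.comp ?_
          rw [tendsto_nhdsWithin_iff]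
          constructor
          · have h2 := hs.div (tendsto_const_nhds (x := (1:ℝ)).add hc) (by rw [h1]; norm_num)
            rwa [zero_div] at h2
          · filter_upwards [hev] with t ht
            exact div_pos ht (hpos t ht).1
        exact P_cont_aux R u _ _ t0 hnb (hub.comp hL) (hRb.comp hL)
      · have hL : Tendsto (fun t => Real.log (Real.sin t / (1 + Real.cos t)))
            (𝓝[{t | 0 < Real.sin t}] t0) atTop := by
          have h3 : Tendsto (fun t => Real.log (Real.sin t / (1 - Real.cos t)))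
              (𝓝[{t | 0 < Real.sin t}] t0) atBot := by
            refine Real.tendsto_log_nhdsGT_zero.comp ?_
            rw [tendsto_nhdsWithin_iff]
            constructor
            · have h2 := hs.div (tendsto_const_nhds (x := (1:ℝ)).sub hc) (by rw [h1]; norm_num)
              rwa [zero_div] at h2
            · filter_upwards [hev] with t ht
              exact div_pos ht (hpos t ht).2
          refine (tendsto_neg_atBot_atTop.comp h3).congr' ?_
          filter_upwards [hev] with t ht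
          show - Real.log (Real.sin t / (1 - Real.cos t)) = _
          rw [← Real.log_inv, inv_div]
          congr 1
          rw [div_eq_div_iff ht.ne' (hpos t ht).1.ne']
          nlinarith [Real.sin_sq_add_cos_sq t]
        exact P_cont_aux R u _ _ t0 hnb (hut.comp hL) (hRt.comp hL)
    refine Tendsto.if ?_ tendsto_const_nhds
    rw [← nhdsWithin]
    exact key
  · -- positive
    have hev : ∀ᶠ t in 𝓝 t0, 0 < Real.sin t :=
      (Real.continuous_sin.tendsto t0).eventually (eventually_gt_nhds h)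
    have hp := hpos t0 h
    have hLc : ContinuousAt (fun t => Real.log (Real.sin t / (1 + Real.cos t))) t0 := by
      refine ContinuousAt.log ?_ (div_pos h hp.1).ne'
      exact Real.continuous_sin.continuousAt.div
        (continuousAt_const.add Real.continuous_cos.continuousAt) hp.1.ne'
    have hRL : ContinuousAt (fun t => R (Real.log (Real.sin t / (1 + Real.cos t)))) t0 :=
      hRc.continuousAt.comp hLc
    have huL : ContinuousAt (fun t => u (Real.log (Real.sin t / (1 + Real.cos t)))) t0 :=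
      hu.continuousAt.comp hLc
    have hE : ContinuousAt (fun t => Real.exp (R (Real.log (Real.sin t / (1 + Real.cos t))))) t0 :=
      Real.continuous_exp.continuousAt.comp hRL
    have hG : ContinuousAt (fun t : ℝ => (1 + u (Real.log (Real.sin t / (1 + Real.cos t)))) *
        (2 * Real.exp (R (Real.log (Real.sin t / (1 + Real.cos t)))) /
          ((1 + Real.cos t) + Real.exp (R (Real.log (Real.sin t / (1 + Real.cos t)))) ^ 2 * (1 - Real.cos t)))) t0 := by
      refine (continuousAt_const.add huL).mul ((continuousAt_const.mul hE).div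
        ((continuousAt_const.add Real.continuous_cos.continuousAt).add
          ((hE.pow 2).mul (continuousAt_const.sub Real.continuous_cos.continuousAt))) ?_)
      have h1 : 0 < Real.exp (R (Real.log (Real.sin t0 / (1 + Real.cos t0)))) ^ 2 * (1 - Real.cos t0) :=
        mul_pos (pow_pos (Real.exp_pos _) 2) hp.2
      have h2 := hp.1
      positivity
    refine hG.congr ?_
    filter_upwards [hev] with t ht
    rw [if_pos ht]

lemma P_deriv (R u : ℝ → ℝ) (hR : ∀ x, HasDerivAt R (u x) x) (t : ℝ) (ht : 0 < t) (ht2 : t < π) :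
    HasDerivAt (fun t : ℝ => 2 * Real.arctan (Real.tan (t / 2) * Real.exp (R (Real.log (Real.tan (t / 2))))))
      ((1 + u (Real.log (Real.sin t / (1 + Real.cos t)))) *
        (2 * Real.exp (R (Real.log (Real.sin t / (1 + Real.cos t)))) /
          ((1 + Real.cos t) + Real.exp (R (Real.log (Real.sin t / (1 + Real.cos t)))) ^ 2 * (1 - Real.cos t)))) t ∧
    Real.tan (t / 2) = Real.sin t / (1 + Real.cos t) ∧ 0 < Real.tan (t / 2) := by
  have hc : 0 < Real.cos (t / 2) := Real.cos_pos_of_mem_Ioo ⟨by linarith, by linarith⟩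
  have hs : 0 < Real.sin (t / 2) := Real.sin_pos_of_pos_of_lt_pi (by linarith) (by linarith)
  have hsc : Real.sin (t / 2) ^ 2 + Real.cos (t / 2) ^ 2 = 1 := Real.sin_sq_add_cos_sq _
  have e1 : Real.sin t = 2 * Real.sin (t / 2) * Real.cos (t / 2) := by
    rw [← Real.sin_two_mul]; congr 1; ring
  have e2 : Real.cos t = 2 * Real.cos (t / 2) ^ 2 - 1 := by
    rw [← Real.cos_two_mul]; congr 1; ring
  have e3 : 1 + Real.cos t = 2 * Real.cos (t / 2) ^ 2 := by rw [e2]; ring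
  have e4 : 1 - Real.cos t = 2 * Real.sin (t / 2) ^ 2 := by rw [e2]; linarith
  have hT : Real.tan (t / 2) = Real.sin (t / 2) / Real.cos (t / 2) := Real.tan_eq_sin_div_cos _
  have e5 : Real.tan (t / 2) = Real.sin t / (1 + Real.cos t) := by
    rw [hT, e1, e3]
    field_simp
  have hTpos : 0 < Real.tan (t / 2) := by rw [hT]; positivity
  refine ⟨?_, e5, hTpos⟩
  rw [← e5, e3, e4]
  have d0 : HasDerivAt (fun t : ℝ => t / 2) (1 / 2) t := (hasDerivAt_id t).div_const 2
  have d1 : HasDerivAt (fun t : ℝ => Real.tan (t / 2)) (1 / Real.cos (t / 2) ^ 2 * (1 / 2)) t :=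
    HasDerivAt.comp (h₂ := Real.tan) t (Real.hasDerivAt_tan hc.ne') d0
  have d2 : HasDerivAt (fun t : ℝ => Real.log (Real.tan (t / 2)))
      (1 / Real.cos (t / 2) ^ 2 * (1 / 2) / Real.tan (t / 2)) t := d1.log hTpos.ne'
  have d3 : HasDerivAt (fun t : ℝ => R (Real.log (Real.tan (t / 2))))
      (u (Real.log (Real.tan (t / 2))) * (1 / Real.cos (t / 2) ^ 2 * (1 / 2) / Real.tan (t / 2))) t :=
    (hR _).comp t d2
  have d4 := d3.exp
  have d5 := d1.mul d4
  have d6 := d5.arctan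
  have d7 := d6.const_mul 2
  refine d7.congr_deriv ?_
  simp only [Pi.mul_apply]
  generalize u (Real.log (Real.tan (t / 2))) = w
  have hE : 0 < Real.exp (R (Real.log (Real.tan (t / 2)))) := Real.exp_pos _
  generalize Real.exp (R (Real.log (Real.tan (t / 2)))) = E at hE ⊢
  rw [hT]
  generalize Real.sin (t / 2) = s at *
  generalize Real.cos (t / 2) = c at *
  have hden : 0 < 2 * c ^ 2 + E ^ 2 * (2 * s ^ 2) := by positivity
  have hden2 : 0 < 1 + (s / c * E) ^ 2 := by positivity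
  have hden3 : 1 + (s / c * E) ^ 2 = (2 * c ^ 2 + E ^ 2 * (2 * s ^ 2)) / (2 * c ^ 2) := by
    field_simp
  rw [hden3]
  field_simp

lemma hom_exists (R u : ℝ → ℝ) (hR : ∀ x, HasDerivAt R (u x) x) (hu : Continuous u)
    (hRb : Tendsto R atBot (𝓝 0)) (hRt : Tendsto R atTop (𝓝 0))
    (hub : Tendsto u atBot (𝓝 0)) (hut : Tendsto u atTop (𝓝 0)) (hu1 : ∀ x, |u x| ≤ 1 / 2) :
    ∃ (ψ : Circle ≃ₜ Circle) (Ψ : ℝ → ℝ), ContDiff ℝ 1 Ψ ∧ (∀ t, 0 < deriv Ψ t) ∧
      (∀ t : ℝ, ψ (Circle.exp t) = Circle.exp (Ψ t)) ∧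
      (∀ x : ℝ, ψ (Circle.exp (2 * Real.arctan (Real.exp x))) =
        Circle.exp (2 * Real.arctan (Real.exp (x + R x)))) ∧
      (∀ x : ℝ, ψ (Circle.exp (-(2 * Real.arctan (Real.exp x)))) =
        Circle.exp (-(2 * Real.arctan (Real.exp x)))) := by
  obtain ⟨P, hPdef⟩ : ∃ P : ℝ → ℝ, P = (fun t : ℝ => if 0 < Real.sin t then
      (1 + u (Real.log (Real.sin t / (1 + Real.cos t)))) *
        (2 * Real.exp (R (Real.log (Real.sin t / (1 + Real.cos t)))) /
          ((1 + Real.cos t) + Real.exp (R (Real.log (Real.sin t / (1 + Real.cos t)))) ^ 2 * (1 - Real.cos t)))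
      else 1) := ⟨_, rfl⟩
  have hPc : Continuous P := by rw [hPdef]; exact P_cont R u hR hu hRb hRt hub hut
  have hPpos : ∀ t, 0 < P t := by
    intro t
    rw [hPdef]
    simp only
    split_ifs with hs
    · have h1 : 0 < 1 + u (Real.log (Real.sin t / (1 + Real.cos t))) := by
        have := (abs_le.1 (hu1 (Real.log (Real.sin t / (1 + Real.cos t))))).1
        linarith
      have hc1 : Real.cos t < 1 := by
        rcases (Real.cos_le_one t).eq_or_lt with h | h
        · have := Real.sin_sq_add_cos_sq t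
          rw [h] at this
          nlinarith
        · exact h
      have hc2 : -1 < Real.cos t := by
        rcases (Real.neg_one_le_cos t).eq_or_lt with h | h
        · have := Real.sin_sq_add_cos_sq t
          rw [← h] at this
          nlinarith
        · exact h
      have h2 : 0 < (1 + Real.cos t) + Real.exp (R (Real.log (Real.sin t / (1 + Real.cos t)))) ^ 2 * (1 - Real.cos t) := by
        have h3 : 0 < 1 - Real.cos t := by linarith
        have h4 : 0 < 1 + Real.cos t := by linarith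
        positivity
      positivity
    · exact one_pos
  have hPper : ∀ t, P (t + 2 * π) = P t := by
    intro t
    rw [hPdef]
    simp only [Real.sin_add_two_pi, Real.cos_add_two_pi]
  obtain ⟨Ψ, hΨ⟩ : ∃ Ψ : ℝ → ℝ, Ψ = fun t => ∫ s in (0 : ℝ)..t, P s := ⟨_, rfl⟩
  have hder : ∀ t, HasDerivAt Ψ (P t) t := by
    intro t
    rw [hΨ]
    exact (hPc.integral_hasStrictDerivAt 0 t).hasDerivAt
  have hderiv : deriv Ψ = P := funext fun t => (hder t).deriv
  have hdiff : Differentiable ℝ Ψ := fun t => (hder t).differentiableAt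
  have hC1 : ContDiff ℝ 1 Ψ := contDiff_one_iff_deriv.2 ⟨hdiff, by rw [hderiv]; exact hPc⟩
  have hmono : StrictMono Ψ := strictMono_of_deriv_pos (fun t => by rw [hderiv]; exact hPpos t)
  have hΨ0 : Ψ 0 = 0 := by rw [hΨ]; simp
  -- the explicit formula
  obtain ⟨Q, hQ⟩ : ∃ Q : ℝ → ℝ, Q = (fun t : ℝ => 2 * Real.arctan (Real.tan (t / 2) *
      Real.exp (R (Real.log (Real.tan (t / 2)))))) := ⟨_, rfl⟩
  have hpi := Real.pi_pos
  have hQd : ∀ t ∈ Ioo (0 : ℝ) π, HasDerivAt Q (P t) t := by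
    intro t ht
    have h1 := (P_deriv R u hR t ht.1 ht.2).1
    rw [hQ, hPdef]
    simp only [Real.sin_pos_of_pos_of_lt_pi ht.1 ht.2, if_true]
    exact h1
  have htan : ∀ t ∈ Ioo (0 : ℝ) π, 0 < Real.tan (t / 2) := fun t ht =>
    (P_deriv R u hR t ht.1 ht.2).2.2
  have hconst : ∀ s ∈ Ioo (0 : ℝ) π, ∀ t ∈ Ioo (0 : ℝ) π, Q s - Ψ s = Q t - Ψ t := by
    intro s hs t ht
    refine isOpen_Ioo.is_const_of_deriv_eq_zero (f := fun r => Q r - Ψ r) isPreconnected_Ioo
      ?_ ?_ hs ht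
    · intro r hr
      exact ((hQd r hr).sub (hder r)).differentiableAt.differentiableWithinAt
    · intro r hr
      have h0 : HasDerivAt (fun r => Q r - Ψ r) (P r - P r) r := (hQd r hr).sub (hder r)
      rw [sub_self] at h0
      exact h0.deriv
  have hIoo0 : Ioo (0 : ℝ) π ∈ 𝓝[>] (0 : ℝ) := Ioo_mem_nhdsGT hpi
  have hIooπ : Ioo (0 : ℝ) π ∈ 𝓝[<] π := Ioo_mem_nhdsLT hpi
  have hT0 : Tendsto (fun t : ℝ => Real.tan (t / 2)) (𝓝[>] 0) (𝓝[>] 0) := by
    refine tendsto_nhdsWithin_iff.2 ⟨?_, ?_⟩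
    · have h1 : ContinuousAt (fun t : ℝ => Real.tan (t / 2)) 0 := by
        have h2 : ContinuousAt Real.tan ((0 : ℝ) / 2) := Real.continuousAt_tan.2 (by simp)
        exact ContinuousAt.comp (f := fun t : ℝ => t / 2) h2 (by fun_prop)
      have h3 := h1.tendsto
      simp only [zero_div, Real.tan_zero] at h3
      exact h3.mono_left nhdsWithin_le_nhds
    · filter_upwards [hIoo0] with t ht using htan t ht
  have hQ0 : Tendsto Q (𝓝[>] 0) (𝓝 0) := by
    have h1 : Tendsto (fun t : ℝ => Real.exp (R (Real.log (Real.tan (t / 2))))) (𝓝[>] 0) (𝓝 1) := by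
      have h2 := hRb.comp (Real.tendsto_log_nhdsGT_zero.comp hT0)
      have h3 := (Real.continuous_exp.tendsto 0).comp h2
      rw [Real.exp_zero] at h3
      exact h3
    have h4 : Tendsto (fun t : ℝ => Real.tan (t / 2)) (𝓝[>] 0) (𝓝 0) :=
      hT0.mono_right nhdsWithin_le_nhds
    have h5 := (Real.continuous_arctan.tendsto (0 * 1)).comp (h4.mul h1)
    have h6 := h5.const_mul 2
    rw [hQ]
    simpa using h6
  have hΨ0' : Tendsto Ψ (𝓝[>] 0) (𝓝 0) := by
    have := hdiff.continuous.tendsto 0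
    rw [hΨ0] at this
    exact this.mono_left nhdsWithin_le_nhds
  have hform : ∀ t ∈ Ioo (0 : ℝ) π, Ψ t = Q t := by
    intro t ht
    have h1 : Tendsto (fun r => Q r - Ψ r) (𝓝[>] 0) (𝓝 (0 - 0)) := hQ0.sub hΨ0'
    have h2 : Tendsto (fun r => Q r - Ψ r) (𝓝[>] 0) (𝓝 (Q t - Ψ t)) := by
      refine tendsto_const_nhds.congr' ?_
      filter_upwards [hIoo0] with r hr
      exact hconst t ht r hr
    have h3 := tendsto_nhds_unique h1 h2
    linarith
  have hTπ : Tendsto (fun t : ℝ => Real.tan (t / 2)) (𝓝[<] π) atTop := by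
    refine Real.tendsto_tan_pi_div_two.comp ?_
    refine tendsto_nhdsWithin_iff.2 ⟨?_, ?_⟩
    · have h1 : ContinuousAt (fun t : ℝ => t / 2) π := by fun_prop
      exact h1.tendsto.mono_left nhdsWithin_le_nhds
    · filter_upwards [self_mem_nhdsWithin] with t ht
      have : t < π := ht
      simp only [mem_Iio]
      linarith
  have hQπ : Tendsto Q (𝓝[<] π) (𝓝 π) := by
    have h1 : Tendsto (fun t : ℝ => Real.exp (R (Real.log (Real.tan (t / 2))))) (𝓝[<] π) (𝓝 1) := by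
      have h2 := hRt.comp (Real.tendsto_log_atTop.comp hTπ)
      have h3 := (Real.continuous_exp.tendsto 0).comp h2
      rw [Real.exp_zero] at h3
      exact h3
    have h4 := hTπ.atTop_mul_pos one_pos h1
    have h5 : Tendsto (fun t : ℝ => Real.arctan (Real.tan (t / 2) *
        Real.exp (R (Real.log (Real.tan (t / 2)))))) (𝓝[<] π) (𝓝 (π / 2)) :=
      (Real.tendsto_arctan_atTop.mono_right nhdsWithin_le_nhds).comp h4
    have h6 := h5.const_mul 2
    rw [hQ]
    have h7 : 2 * (π / 2) = π := by ring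
    rwa [h7] at h6
  have hΨπ : Ψ π = π := by
    have h1 : Tendsto Ψ (𝓝[<] π) (𝓝 (Ψ π)) :=
      (hdiff.continuous.tendsto π).mono_left nhdsWithin_le_nhds
    have h2 : Tendsto Ψ (𝓝[<] π) (𝓝 π) := by
      refine hQπ.congr' ?_
      filter_upwards [hIooπ] with r hr
      exact (hform r hr).symm
    exact tendsto_nhds_unique h1 h2
  have hlow : ∀ t, π ≤ t → t ≤ 2 * π → Ψ t = t := by
    intro t h1 h2
    have h3 : Ψ t = Ψ π + ∫ s in π..t, P s := by
      rw [hΨ]
      exact (intervalIntegral.integral_add_adjacent_intervals (hPc.intervalIntegrable _ _)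
        (hPc.intervalIntegrable _ _)).symm
    have h4 : ∫ s in π..t, P s = ∫ s in π..t, (1 : ℝ) := by
      apply intervalIntegral.integral_congr
      intro s hs
      rw [uIcc_of_le h1] at hs
      have h5 : ¬ (0 < Real.sin s) := by
        have h6 := Real.sin_nonneg_of_nonneg_of_le_pi (x := s - π) (by linarith [hs.1])
          (by linarith [hs.2])
        rw [Real.sin_sub_pi] at h6
        linarith
      rw [hPdef]
      simp only [h5, if_false]
    rw [h3, hΨπ, h4]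
    simp
  have hΨ2π : Ψ (2 * π) = 2 * π := hlow _ (by linarith) le_rfl
  have hper : ∀ t, Ψ (t + 2 * π) = Ψ t + 2 * π := by
    intro t
    have h1 : ∀ r, HasDerivAt (fun r => Ψ (r + 2 * π) - Ψ r) 0 r := by
      intro r
      have h2 : HasDerivAt (fun r => Ψ (r + 2 * π)) (P (r + 2 * π)) r :=
        (hder (r + 2 * π)).comp_add_const r (2 * π)
      have h3 := h2.sub (hder r)
      rw [hPper, sub_self] at h3
      exact h3
    have h4 := is_const_of_deriv_eq_zero (fun r => (h1 r).differentiableAt)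
      (fun r => (h1 r).deriv) t 0
    simp only [zero_add, hΨ2π, hΨ0, sub_zero] at h4
    linarith
  obtain ⟨ψ, hψ⟩ := lift_homeo Ψ hdiff.continuous hmono hper
  have hx : ∀ x : ℝ, 2 * Real.arctan (Real.exp x) ∈ Ioo (0 : ℝ) π := by
    intro x
    constructor
    · have := Real.arctan_pos.2 (Real.exp_pos x)
      linarith
    · have := Real.arctan_lt_pi_div_two (Real.exp x)
      linarith
  refine ⟨ψ, Ψ, hC1, fun t => by rw [hderiv]; exact hPpos t, hψ, ?_, ?_⟩
  · intro x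
    rw [hψ, hform _ (hx x), hQ]
    simp only
    have h1 : 2 * Real.arctan (Real.exp x) / 2 = Real.arctan (Real.exp x) := by ring
    rw [h1, Real.tan_arctan, Real.log_exp, ← Real.exp_add]
  · intro x
    rw [hψ]
    congr 1
    have h1 := hper (-(2 * Real.arctan (Real.exp x)))
    have h2 := hlow (-(2 * Real.arctan (Real.exp x)) + 2 * π) (by linarith [(hx x).2])
      (by linarith [(hx x).1])
    linarith

end Pool.Agent.Helper649.ReA
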