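import Mathlib

set_option autoImplicit false

namespace Pool.Agent.Helper649.ReC

open Complex MeasureTheory Set Filter Topology Metric
open scoped Real ComplexConjugate

/-- conjugate function of a Lipschitz function on the circle -/
noncomputable def conjI (W : Circle → ℝ) (z : Circle) : ℝ :=
  (1 / (2 * π)) * ∫ t in (-π)..π, ((exp (t * I) + z) / (exp (t * I) - z)).im * (W (Circle.exp t) - W z)

/-- Herglotz integral with a subtracted constant -/
noncomputable def HG (W : Circle → ℝ) (c : ℝ) (z : ℂ) : ℂ :=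
  c + (1 / (2 * π)) * ∫ t in (-π)..π,
    ((exp (t * I) + z) / (exp (t * I) - z)) * ((W (Circle.exp t) - c : ℝ) : ℂ)

/-- logarithm of the ratio of chord lengths -/
noncomputable def hh (Ψ : ℝ → ℝ) (x t : ℝ) : ℝ :=
  Real.log (|Real.sin ((Ψ t - Ψ x) / 2)| / |Real.sin ((t - x) / 2)|)

/-- uniformly bounded variation of the logarithm of the ratio of chord lengths -/
def BVcond (Ψ : ℝ → ℝ) (V : ℝ) : Prop :=
  ∀ x : ℝ, eVariationOn (hh Ψ x) (Ioo x (x + 2 * π)) ≤ ENNReal.ofReal V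

/-- increasing lift of a circle homeomorphism -/
def Lift (Ψ : ℝ → ℝ) (ψ : Circle ≃ₜ Circle) : Prop :=
  Continuous Ψ ∧ StrictMono Ψ ∧ (∀ t, Ψ (t + 2 * π) = Ψ t + 2 * π) ∧
    ∀ t : ℝ, ψ (Circle.exp t) = Circle.exp (Ψ t)

/-- composition with ψ is controlled on Lipschitz elements of the disc algebra -/
def Ctrl (ψ : Circle ≃ₜ Circle) (C : ℝ) : Prop :=
  ∀ (F : ℂ → ℂ) (K M : ℝ), ContinuousOn F (closedBall 0 1) → DifferentiableOn ℂ F (ball 0 1) →
    (∀ a b : Circle, ‖F a - F b‖ ≤ K * ‖(a : ℂ) - b‖) → (∀ z ∈ closedBall (0 : ℂ) 1, ‖F z‖ ≤ M) →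
    ∃ G : ℂ → ℂ, ContinuousOn G (closedBall 0 1) ∧ DifferentiableOn ℂ G (ball 0 1) ∧
      (∀ z : Circle, (G z).re = (F (ψ z)).re) ∧ (G 0).im = 0 ∧
      ∀ z ∈ closedBall (0 : ℂ) 1, ‖G z‖ ≤ C * M


lemma HGi_ne (z : ℂ) (hz : ‖z‖ < 1) (t : ℝ) : exp (t * I) - z ≠ 0 := by
  intro h
  have h1 : exp (t * I) = z := sub_eq_zero.mp h
  have h2 : ‖exp (t * I)‖ = 1 := Complex.norm_exp_ofReal_mul_I t
  rw [h1] at h2
  linarith

lemma HGi_cont (z : ℂ) (hz : ‖z‖ < 1) :
    Continuous (fun t : ℝ => (exp (t * I) + z) / (exp (t * I) - z)) := by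
  refine Continuous.div (by fun_prop) (by fun_prop) (fun t => HGi_ne z hz t)

lemma HGi_int (z : ℂ) (hz : ‖z‖ < 1) :
    ∫ t in (-π)..π, ((exp (t * I) + z) / (exp (t * I) - z)) = 2 * π := by
  have hper : Function.Periodic
      (fun t : ℝ => ((exp (t * I) + z) / (exp (t * I) - z))) (2 * π) := by
    intro t
    have : exp (((t + 2 * π : ℝ) : ℂ) * I) = exp (t * I) := by
      push_cast
      rw [add_mul, Complex.exp_add, Complex.exp_two_pi_mul_I, mul_one]
    simp only [this]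
  have h1 := hper.intervalIntegral_add_eq (-π) 0
  have e1 : -π + 2 * π = π := by ring
  have e2 : (0 : ℝ) + 2 * π = 2 * π := by ring
  rw [e1, e2] at h1
  rw [h1]
  have h2 := circleIntegral.integral_sub_inv_of_mem_ball (c := (0 : ℂ)) (w := z) (R := 1)
    (by simpa using hz)
  rw [circleIntegral] at h2
  have h3 : ∀ t : ℝ, (exp (t * I) + z) / (exp (t * I) - z) =
      (2 / I) * (deriv (circleMap 0 1) t • (circleMap 0 1 t - z)⁻¹) - 1 := by
    intro t
    have hne := HGi_ne z hz t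
    rw [deriv_circleMap, smul_eq_mul]
    have e3 : circleMap 0 1 t = exp (t * I) := by simp [circleMap]
    rw [e3]
    field_simp
    ring
  have hcont : Continuous (fun t : ℝ => (deriv (circleMap 0 1) t • (circleMap 0 1 t - z)⁻¹)) := by
    have : (fun t : ℝ => (deriv (circleMap 0 1) t • (circleMap 0 1 t - z)⁻¹)) =
        fun t : ℝ => exp (t * I) * I * (exp (t * I) - z)⁻¹ := by
      funext t
      have e3 : circleMap 0 1 t = exp (t * I) := by simp [circleMap]
      rw [deriv_circleMap, smul_eq_mul, e3]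
    rw [this]
    exact Continuous.mul (by fun_prop) (Continuous.inv₀ (by fun_prop) (fun t => HGi_ne z hz t))
  rw [intervalIntegral.integral_congr (g := fun t : ℝ =>
      (2 / I) * (deriv (circleMap 0 1) t • (circleMap 0 1 t - z)⁻¹) - 1) (fun t _ => h3 t)]
  have hc2 : Continuous (fun t : ℝ =>
      (2 / I) * (deriv (circleMap 0 1) t • (circleMap 0 1 t - z)⁻¹)) :=
    continuous_const.mul hcont
  have hc3 : Continuous (fun _ : ℝ => (1 : ℂ)) := continuous_const
  rw [intervalIntegral.integral_sub (hc2.intervalIntegrable _ _)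
    (hc3.intervalIntegrable _ _), intervalIntegral.integral_const_mul, h2,
    intervalIntegral.integral_const]
  simp only [sub_zero, Complex.real_smul, mul_one]
  have hI : (I : ℂ) ≠ 0 := I_ne_zero
  push_cast
  field_simp
  ring


lemma HG_indep (W : Circle → ℝ) (hW : Continuous W) (c : ℝ) (z : ℂ) (hz : ‖z‖ < 1) :
    HG W c z = HG W 0 z := by
  have hK := HGi_cont z hz
  have hWc : Continuous (fun t : ℝ => ((W (Circle.exp t) : ℝ) : ℂ)) :=
    Complex.continuous_ofReal.comp (hW.comp Circle.exp.continuous)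
  have h1 : ∀ c : ℝ, ∫ t in (-π)..π,
      ((exp (t * I) + z) / (exp (t * I) - z)) * ((W (Circle.exp t) - c : ℝ) : ℂ) =
      (∫ t in (-π)..π, ((exp (t * I) + z) / (exp (t * I) - z)) * ((W (Circle.exp t) : ℝ) : ℂ))
        - 2 * π * c := by
    intro c
    have h2 : ∀ t : ℝ, ((exp (t * I) + z) / (exp (t * I) - z)) * ((W (Circle.exp t) - c : ℝ) : ℂ)
        = ((exp (t * I) + z) / (exp (t * I) - z)) * ((W (Circle.exp t) : ℝ) : ℂ) -
          ((exp (t * I) + z) / (exp (t * I) - z)) * (c : ℂ) := by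
      intro t
      push_cast
      ring
    simp_rw [h2]
    have hc1 : Continuous (fun t : ℝ =>
        ((exp (t * I) + z) / (exp (t * I) - z)) * ((W (Circle.exp t) : ℝ) : ℂ)) := hK.mul hWc
    have hc2 : Continuous (fun t : ℝ =>
        ((exp (t * I) + z) / (exp (t * I) - z)) * (c : ℂ)) := hK.mul continuous_const
    rw [intervalIntegral.integral_sub (hc1.intervalIntegrable _ _)
      (hc2.intervalIntegrable _ _), intervalIntegral.integral_mul_const,
      HGi_int z hz]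
  unfold HG
  rw [h1 c, h1 0]
  generalize (∫ t in (-π)..π,
    ((exp (t * I) + z) / (exp (t * I) - z)) * ((W (Circle.exp t) : ℝ) : ℂ)) = J
  have hpi : (π : ℂ) ≠ 0 := by exact_mod_cast Real.pi_ne_zero
  push_cast
  field_simp
  ring

lemma HG_diff (W : Circle → ℝ) (hW : Continuous W) : DifferentiableOn ℂ (HG W 0) (ball 0 1) := by
  intro z0 hz0
  rw [mem_ball_zero_iff] at hz0
  obtain ⟨M, hM⟩ := isCompact_univ.exists_bound_of_continuousOn (f := W) hW.continuousOn
  have hM0 : 0 ≤ M := (norm_nonneg _).trans (hM 1 (Set.mem_univ _))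
  set r : ℝ := (1 - ‖z0‖) / 2 with hr
  have hr0 : 0 < r := by rw [hr]; linarith
  have hnorm : ∀ t : ℝ, ‖exp (t * I)‖ = 1 := fun t => Complex.norm_exp_ofReal_mul_I t
  have hz : ∀ z ∈ ball z0 r, ‖z‖ ≤ 1 - r := by
    intro z hz
    rw [mem_ball, dist_eq_norm] at hz
    have : ‖z‖ ≤ ‖z0‖ + ‖z - z0‖ := by
      have := norm_add_le z0 (z - z0)
      rwa [add_sub_cancel] at this
    rw [hr] at hz ⊢
    linarith
  have hlow : ∀ z : ℂ, ‖z‖ ≤ 1 - r → ∀ t : ℝ, r ≤ ‖exp (t * I) - z‖ := by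
    intro z hz t
    have := norm_sub_norm_le (exp (t * I)) z
    rw [hnorm] at this
    linarith
  have hne : ∀ z : ℂ, ‖z‖ ≤ 1 - r → ∀ t : ℝ, exp (t * I) - z ≠ 0 := by
    intro z hz t h
    have := hlow z hz t
    rw [h, norm_zero] at this
    linarith
  have hcW : Continuous fun t : ℝ => ((W (Circle.exp t) - 0 : ℝ) : ℂ) :=
    Complex.continuous_ofReal.comp ((hW.comp (Circle.exp.continuous)).sub continuous_const)
  have hce : Continuous fun t : ℝ => exp (t * I) := by fun_prop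
  have hcF : ∀ z : ℂ, ‖z‖ ≤ 1 - r → Continuous fun t : ℝ =>
      ((exp (t * I) + z) / (exp (t * I) - z)) * ((W (Circle.exp t) - 0 : ℝ) : ℂ) := by
    intro z hz
    exact ((hce.add continuous_const).div (hce.sub continuous_const) (hne z hz)).mul hcW
  have hcF' : ∀ z : ℂ, ‖z‖ ≤ 1 - r → Continuous fun t : ℝ =>
      (2 * exp (t * I) / (exp (t * I) - z) ^ 2) * ((W (Circle.exp t) - 0 : ℝ) : ℂ) := by
    intro z hz
    exact ((continuous_const.mul hce).div ((hce.sub continuous_const).pow 2)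
      (fun t => pow_ne_zero 2 (hne z hz t))).mul hcW
  have hz00 : ‖z0‖ ≤ 1 - r := hz z0 (mem_ball_self hr0)
  have key := (intervalIntegral.hasDerivAt_integral_of_dominated_loc_of_deriv_le (𝕜 := ℂ)
    (μ := volume) (a := -π) (b := π)
    (F := fun z t => ((exp (t * I) + z) / (exp (t * I) - z)) * ((W (Circle.exp t) - 0 : ℝ) : ℂ))
    (F' := fun z t => (2 * exp (t * I) / (exp (t * I) - z) ^ 2) * ((W (Circle.exp t) - 0 : ℝ) : ℂ))
    (x₀ := z0) (s := ball z0 r) (bound := fun _ => 2 / r ^ 2 * M)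
    (ball_mem_nhds z0 hr0)
    (by
      filter_upwards [ball_mem_nhds z0 hr0] with z hzz
      exact (hcF z (hz z hzz)).aestronglyMeasurable)
    ((hcF z0 hz00).intervalIntegrable _ _)
    ((hcF' z0 hz00).aestronglyMeasurable)
    (by
      refine Filter.Eventually.of_forall fun t _ z hzz => ?_
      rw [norm_mul, norm_div, norm_mul, norm_pow, hnorm, Complex.norm_real, sub_zero, mul_one]
      have h1 := hlow z (hz z hzz) t
      have h2 : r ^ 2 ≤ ‖exp (t * I) - z‖ ^ 2 := pow_le_pow_left₀ hr0.le h1 2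
      have h3 : ‖(2:ℂ)‖ = 2 := by norm_num
      rw [h3]
      refine mul_le_mul ?_ (hM _ (Set.mem_univ _)) (norm_nonneg _) (by positivity)
      exact div_le_div_of_nonneg_left (by norm_num) (by positivity) h2)
    (intervalIntegrable_const)
    (by
      refine Filter.Eventually.of_forall fun t _ z hzz => ?_
      refine HasDerivAt.mul_const ?_ _
      have hn := hne z (hz z hzz) t
      have h1 : HasDerivAt (fun x : ℂ => exp (t * I) + x) 1 z := by
        simpa using (hasDerivAt_id z).const_add (exp (t * I))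
      have h2 : HasDerivAt (fun x : ℂ => exp (t * I) - x) (-1) z := by
        simpa using (hasDerivAt_id z).const_sub (exp (t * I))
      have h3 := h1.div h2 hn
      convert h3 using 1
      congr 1
      ring)).2
  have h4 : DifferentiableAt ℂ (HG W 0) z0 := by
    have h5 := (key.differentiableAt.const_mul (1 / (2 * (π : ℂ)))).const_add (0 : ℂ)
    have h6 : HG W 0 = fun z => (0 : ℂ) + (1 / (2 * (π : ℂ))) * ∫ t in (-π)..π,
        ((exp (t * I) + z) / (exp (t * I) - z)) * ((W (Circle.exp t) - 0 : ℝ) : ℂ) := by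
      funext z
      unfold HG
      push_cast
      rfl
    rw [h6]
    exact h5
  exact h4.differentiableWithinAt

lemma hgl_K_nonneg (W : Circle → ℝ) (K : ℝ) (hW : ∀ a b : Circle, |W a - W b| ≤ K * ‖(a : ℂ) - b‖) :
    0 ≤ K := by
  have h := hW 1 (-1)
  have e : ‖((1 : Circle) : ℂ) - ((-1 : Circle) : ℂ)‖ = 2 := by
    rw [Circle.coe_neg, Circle.coe_one]
    norm_num
  rw [e] at h
  have := abs_nonneg (W 1 - W (-1))
  linarith

lemma hgl_near (z : ℂ) (hz : ‖z‖ ≤ 1) (e : Circle) :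
    ‖(e : ℂ) - ((Circle.exp (arg z) : Circle) : ℂ)‖ ≤ 2 * ‖(e : ℂ) - z‖ := by
  have h : (‖z‖ : ℂ) * ((Circle.exp (arg z) : Circle) : ℂ) = z := by
    rw [Circle.coe_exp]; exact norm_mul_exp_arg_mul_I z
  obtain ⟨w, hw⟩ : ∃ w : Circle, w = Circle.exp (arg z) := ⟨_, rfl⟩
  rw [← hw] at h ⊢
  have h1 : ‖z - (w : ℂ)‖ = 1 - ‖z‖ := by
    have e1 : z - (w : ℂ) = ((‖z‖ - 1 : ℝ) : ℂ) * (w : ℂ) := by
      push_cast
      rw [sub_mul, h, one_mul]
    rw [e1, norm_mul, Circle.norm_coe, mul_one, Complex.norm_real, Real.norm_eq_abs, abs_of_nonpos]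
    · ring
    · linarith
  have h2 : 1 - ‖z‖ ≤ ‖(e : ℂ) - z‖ := by
    have := norm_sub_norm_le (e : ℂ) z
    rwa [Circle.norm_coe] at this
  have h3 : ‖(e : ℂ) - (w : ℂ)‖ ≤ ‖(e : ℂ) - z‖ + ‖z - (w : ℂ)‖ := by
    have := norm_add_le ((e : ℂ) - z) (z - (w : ℂ))
    simpa using this
  linarith

lemma hgl_tend (W : Circle → ℝ) (K : ℝ) (hW : ∀ a b : Circle, |W a - W b| ≤ K * ‖(a : ℂ) - b‖)
    (z0 : Circle) :
    Tendsto (fun z : ℂ => W (Circle.exp (arg z))) (𝓝[closedBall 0 1] (z0 : ℂ)) (𝓝 (W z0)) := by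
  have hK := hgl_K_nonneg W K hW
  rw [tendsto_iff_dist_tendsto_zero]
  have h0 : Tendsto (fun z : ℂ => K * (2 * ‖(z0 : ℂ) - z‖)) (𝓝[closedBall 0 1] (z0 : ℂ)) (𝓝 0) := by
    have hc : Continuous (fun z : ℂ => K * (2 * ‖(z0 : ℂ) - z‖)) := by fun_prop
    have := (hc.tendsto (z0 : ℂ)).mono_left (nhdsWithin_le_nhds (s := closedBall 0 1))
    simpa using this
  refine squeeze_zero' (Eventually.of_forall fun z => dist_nonneg) ?_ h0
  filter_upwards [self_mem_nhdsWithin] with z hz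
  have hz1 : ‖z‖ ≤ 1 := by simpa using hz
  rw [Real.dist_eq, abs_sub_comm]
  exact (hW z0 (Circle.exp (arg z))).trans
    (mul_le_mul_of_nonneg_left (hgl_near z hz1 z0) hK)

lemma hgl_cont (W : Circle → ℝ) (K : ℝ) (hW : ∀ a b : Circle, |W a - W b| ≤ K * ‖(a : ℂ) - b‖) :
    Continuous (fun t : ℝ => W (Circle.exp t)) := by
  rw [continuous_iff_continuousAt]
  intro t
  rw [ContinuousAt, tendsto_iff_dist_tendsto_zero]
  have hc : Continuous (fun s : ℝ => K * ‖((Circle.exp s : Circle) : ℂ) - ((Circle.exp t : Circle) : ℂ)‖) := by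
    simp only [Circle.coe_exp]
    fun_prop
  have h0 := hc.tendsto t
  simp only [sub_self, norm_zero, mul_zero] at h0
  refine squeeze_zero (fun s => dist_nonneg) (fun s => ?_) h0
  rw [Real.dist_eq]
  exact hW _ _

lemma hgl_bound (W : Circle → ℝ) (K : ℝ) (hW : ∀ a b : Circle, |W a - W b| ≤ K * ‖(a : ℂ) - b‖)
    (z : ℂ) (hz : ‖z‖ ≤ 1) (t : ℝ) :
    ‖((exp (t * I) + z) / (exp (t * I) - z)) *
      ((W (Circle.exp t) - W (Circle.exp (arg z)) : ℝ) : ℂ)‖ ≤ 4 * K := by
  have hK := hgl_K_nonneg W K hW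
  have he : ((Circle.exp t : Circle) : ℂ) = exp (t * I) := Circle.coe_exp t
  rw [← he]
  obtain ⟨e, hee⟩ : ∃ e : Circle, e = Circle.exp t := ⟨_, rfl⟩
  rw [← hee]
  rw [norm_mul, norm_div, Complex.norm_real, Real.norm_eq_abs]
  by_cases h0 : ‖(e : ℂ) - z‖ = 0
  · rw [h0, div_zero, zero_mul]; linarith
  have hpos : 0 < ‖(e : ℂ) - z‖ := lt_of_le_of_ne (norm_nonneg _) (Ne.symm h0)
  have h1 : ‖(e : ℂ) + z‖ ≤ 2 := by
    have := norm_add_le (e : ℂ) z
    rw [Circle.norm_coe] at this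
    linarith
  have h2 : |W e - W (Circle.exp (arg z))| ≤ K * (2 * ‖(e : ℂ) - z‖) :=
    (hW _ _).trans (mul_le_mul_of_nonneg_left (hgl_near z hz e) hK)
  calc ‖(e : ℂ) + z‖ / ‖(e : ℂ) - z‖ * |W e - W (Circle.exp (arg z))|
      ≤ 2 / ‖(e : ℂ) - z‖ * (K * (2 * ‖(e : ℂ) - z‖)) := by
        apply mul_le_mul _ h2 (abs_nonneg _) (by positivity)
        exact div_le_div_of_nonneg_right h1 hpos.le
    _ = 4 * K := by field_simp; ring


lemma HG_lim (W : Circle → ℝ) (K : ℝ) (hW : ∀ a b : Circle, |W a - W b| ≤ K * ‖(a : ℂ) - b‖)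
    (z0 : Circle) :
    Tendsto (fun z : ℂ => HG W (W (Circle.exp (arg z))) z) (𝓝[closedBall 0 1] (z0 : ℂ))
      (𝓝 (HG W (W z0) z0)) := by
  have hK := hgl_K_nonneg W K hW
  have hz00 : W (Circle.exp (arg (z0 : ℂ))) = W z0 := by rw [Circle.exp_arg]
  unfold HG
  have hT := hgl_tend W K hW z0
  have hTc : Tendsto (fun z : ℂ => ((W (Circle.exp (arg z)) : ℝ) : ℂ)) (𝓝[closedBall 0 1] (z0 : ℂ))
      (𝓝 ((W z0 : ℝ) : ℂ)) := (Complex.continuous_ofReal.tendsto _).comp hT
  refine hTc.add (Tendsto.const_mul _ ?_)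
  refine intervalIntegral.tendsto_integral_filter_of_dominated_convergence (fun _ => 4 * K) ?_ ?_ ?_ ?_
  · filter_upwards with z
    apply Measurable.aestronglyMeasurable
    have h1 : Measurable (fun t : ℝ => exp (t * I) + z) := by
      apply Continuous.measurable; fun_prop
    have h2 : Measurable (fun t : ℝ => exp (t * I) - z) := by
      apply Continuous.measurable; fun_prop
    have h3 : Measurable (fun t : ℝ => ((W (Circle.exp t) - W (Circle.exp (arg z)) : ℝ) : ℂ)) := by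
      apply Continuous.measurable
      exact Complex.continuous_ofReal.comp ((hgl_cont W K hW).sub continuous_const)
    exact (h1.div h2).mul h3
  · filter_upwards [self_mem_nhdsWithin] with z hz
    have hz1 : ‖z‖ ≤ 1 := by simpa using hz
    filter_upwards with t _
    exact hgl_bound W K hW z hz1 t
  · exact intervalIntegrable_const
  · have hne : ∀ᵐ t : ℝ ∂volume, t ≠ arg (z0 : ℂ) := by
      rw [ae_iff]
      simp
    filter_upwards [hne] with t ht hmem
    have hpi : -π ≤ π := by linarith [Real.pi_pos]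
    rw [uIoc_of_le hpi] at hmem
    have hne2 : exp (t * I) ≠ (z0 : ℂ) := by
      intro h
      apply ht
      rw [← h, ← Circle.coe_exp, Circle.arg_exp hmem.1 hmem.2]
    have hid : Tendsto (fun z : ℂ => z) (𝓝[closedBall 0 1] (z0 : ℂ)) (𝓝 (z0 : ℂ)) :=
      tendsto_id.mono_left nhdsWithin_le_nhds
    apply Tendsto.mul
    · apply Tendsto.div
      · exact tendsto_const_nhds.add hid
      · exact tendsto_const_nhds.sub hid
      · exact sub_ne_zero.2 hne2
    · exact (Complex.continuous_ofReal.tendsto _).comp (tendsto_const_nhds.sub hT)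

lemma hl_kernel (e z : ℂ) (he : ‖e‖ = 1) (hz : ‖z‖ = 1) :
    (e + z) / (e - z) = ((((e + z) / (e - z)).im : ℝ) : ℂ) * I := by
  have h1 : ((e + z) / (e - z)).re = 0 := by
    rw [Complex.div_re, ← add_div]
    have a1 : e.re ^ 2 + e.im ^ 2 = 1 := by
      have := Complex.sq_norm e
      rw [he, Complex.normSq_apply] at this
      linarith
    have a2 : z.re ^ 2 + z.im ^ 2 = 1 := by
      have := Complex.sq_norm z
      rw [hz, Complex.normSq_apply] at this
      linarith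
    have a3 : (e + z).re * (e - z).re + (e + z).im * (e - z).im = 0 := by
      simp only [Complex.add_re, Complex.sub_re, Complex.add_im, Complex.sub_im]
      linear_combination a1 - a2
    rw [a3, zero_div]
  apply Complex.ext
  · rw [h1]; simp
  · simp

lemma hl_circle (W : Circle → ℝ) (z : Circle) :
    HG W (W z) z = ((W z : ℝ) : ℂ) + ((conjI W z : ℝ) : ℂ) * I := by
  unfold HG conjI
  have e1 : ∫ t in (-π)..π, ((exp (t * I) + z) / (exp (t * I) - z)) *
      ((W (Circle.exp t) - W z : ℝ) : ℂ) =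
      ((∫ t in (-π)..π, ((exp (t * I) + z) / (exp (t * I) - z)).im *
        (W (Circle.exp t) - W z) : ℝ) : ℂ) * I := by
    rw [← intervalIntegral.integral_ofReal, ← intervalIntegral.integral_mul_const]
    refine intervalIntegral.integral_congr fun t _ => ?_
    have h1 : ‖exp (t * I)‖ = 1 := Complex.norm_exp_ofReal_mul_I t
    have h2 := hl_kernel (exp (t * I)) z h1 (Circle.norm_coe z)
    conv_lhs => rw [h2]
    push_cast
    ring
  rw [e1]
  push_cast
  ring

lemma hl_zero (W : Circle → ℝ) (c : ℝ) : (HG W c 0).im = 0 := by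
  unfold HG
  have e1 : ∫ t in (-π)..π, ((exp (t * I) + 0) / (exp (t * I) - 0)) *
      ((W (Circle.exp t) - c : ℝ) : ℂ) =
      ((∫ t in (-π)..π, (W (Circle.exp t) - c) : ℝ) : ℂ) := by
    rw [← intervalIntegral.integral_ofReal]
    refine intervalIntegral.integral_congr fun t _ => ?_
    simp only [add_zero, sub_zero]
    rw [div_self (Complex.exp_ne_zero _), one_mul]
  rw [e1]
  have e2 : ((c : ℝ) : ℂ) + (1 / (2 * (π : ℂ))) *
      ((∫ t in (-π)..π, (W (Circle.exp t) - c) : ℝ) : ℂ) =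
      ((c + 1 / (2 * π) * ∫ t in (-π)..π, (W (Circle.exp t) - c) : ℝ) : ℂ) := by
    push_cast
    ring
  rw [e2, Complex.ofReal_im]

lemma hl_cont (W : Circle → ℝ) (K : ℝ)
    (hW : ∀ a b : Circle, |W a - W b| ≤ K * ‖(a : ℂ) - b‖) : Continuous W := by
  have h : LipschitzWith (Real.toNNReal K) W := by
    refine LipschitzWith.of_dist_le_mul fun a b => ?_
    rw [Real.dist_eq]
    refine (hW a b).trans ?_
    have e : dist a b = ‖(a : ℂ) - b‖ := by
      rw [← dist_eq_norm]; rfl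
    rw [e]
    exact mul_le_mul_of_nonneg_right (Real.le_coe_toNNReal K) (norm_nonneg _)
  exact h.continuous

lemma herglotz_lip (W : Circle → ℝ) (K : ℝ) (hW : ∀ a b : Circle, |W a - W b| ≤ K * ‖(a : ℂ) - b‖) :
    ∃ G : ℂ → ℂ, ContinuousOn G (closedBall 0 1) ∧ DifferentiableOn ℂ G (ball 0 1) ∧
      (∀ z : Circle, (G z).re = W z ∧ (G z).im = conjI W z) ∧ (G 0).im = 0 := by
  have hWc := hl_cont W K hW
  have hin : ∀ z : ℂ, ‖z‖ < 1 → HG W (W (Circle.exp (arg z))) z = HG W 0 z := fun z hz =>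
    HG_indep W hWc _ z hz
  have hdiff : DifferentiableOn ℂ (fun z : ℂ => HG W (W (Circle.exp (arg z))) z) (ball 0 1) :=
    (HG_diff W hWc).congr fun z hz => hin z (mem_ball_zero_iff.1 hz)
  have hcirc : ∀ z : Circle, HG W (W (Circle.exp (arg z))) z = HG W (W z) z := by
    intro z
    rw [Circle.exp_arg]
  refine ⟨fun z => HG W (W (Circle.exp (arg z))) z, ?_, hdiff, ?_, ?_⟩
  · intro z hz
    rcases lt_or_eq_of_le (mem_closedBall_zero_iff.1 hz) with h | h
    · exact (hdiff.continuousOn.continuousAt (isOpen_ball.mem_nhds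
        (mem_ball_zero_iff.2 h))).continuousWithinAt
    · have h1 := HG_lim W K hW ⟨z, mem_sphere_zero_iff_norm.2 h⟩
      have h2 := hcirc ⟨z, mem_sphere_zero_iff_norm.2 h⟩
      rw [← h2] at h1
      exact h1
  · intro z
    simp only
    rw [hcirc z, hl_circle]
    constructor <;> simp
  · exact hl_zero W _

lemma uniq_aux (H : ℂ → ℂ) (hc : ContinuousOn H (closedBall 0 1))
    (hd : DifferentiableOn ℂ H (ball 0 1))
    (hre : ∀ z : Circle, (H z).re = 0) (h0 : (H 0).im = 0) :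
    (∀ z ∈ closedBall (0 : ℂ) 1, (H z).re = 0) ∧ ∀ z ∈ ball (0 : ℂ) 1, exp (H z) = 1 := by
  have hcl : closure (ball (0 : ℂ) 1) = closedBall 0 1 := closure_ball (0 : ℂ) one_ne_zero
  have hfr : frontier (ball (0 : ℂ) 1) = sphere 0 1 := frontier_ball (0 : ℂ) one_ne_zero
  have hD : DiffContOnCl ℂ H (ball 0 1) := ⟨hd, by rw [hcl]; exact hc⟩
  have hreS : ∀ z ∈ sphere (0 : ℂ) 1, (H z).re = 0 := by
    intro z hz
    have hz1 : ‖z‖ = 1 := by simpa using hz
    exact hre ⟨z, mem_sphere_zero_iff_norm.mpr hz1⟩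
  have hE : DiffContOnCl ℂ (fun z => exp (H z)) (ball 0 1) :=
    Complex.differentiable_exp.comp_diffContOnCl hD
  have hE' : DiffContOnCl ℂ (fun z => exp (-H z)) (ball 0 1) :=
    Complex.differentiable_exp.comp_diffContOnCl hD.neg
  have h1 : ∀ z ∈ closedBall (0 : ℂ) 1, (H z).re = 0 := by
    intro z hz
    rw [← hcl] at hz
    have a1 : ‖exp (H z)‖ ≤ 1 := by
      apply Complex.norm_le_of_forall_mem_frontier_norm_le isBounded_ball hE _ hz
      intro w hw
      rw [hfr] at hw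
      rw [Complex.norm_exp, hreS w hw, Real.exp_zero]
    have a2 : ‖exp (-H z)‖ ≤ 1 := by
      apply Complex.norm_le_of_forall_mem_frontier_norm_le isBounded_ball hE' _ hz
      intro w hw
      rw [hfr] at hw
      rw [Complex.norm_exp, Complex.neg_re, hreS w hw, neg_zero, Real.exp_zero]
    rw [Complex.norm_exp, Real.exp_le_one_iff] at a1 a2
    rw [Complex.neg_re] at a2
    linarith
  refine ⟨h1, ?_⟩
  have hm0 : (0 : ℂ) ∈ ball (0 : ℂ) 1 := mem_ball_self one_pos
  have h00 : H 0 = 0 := Complex.ext (h1 0 (ball_subset_closedBall hm0)) h0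
  have hmax : IsMaxOn (norm ∘ fun z => exp (H z)) (ball (0 : ℂ) 1) 0 := by
    intro z hz
    show ‖exp (H z)‖ ≤ ‖exp (H 0)‖
    rw [Complex.norm_exp, Complex.norm_exp, h1 z (ball_subset_closedBall hz), h00, Complex.zero_re]
  have hEq := Complex.eqOn_of_isPreconnected_of_isMaxOn_norm
    (convex_ball (0 : ℂ) 1).isPreconnected isOpen_ball hE.differentiableOn hm0 hmax
  intro z hz
  have := hEq hz
  simp only [Function.const_apply] at this
  rw [this, h00, Complex.exp_zero]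


lemma uniq (H : ℂ → ℂ) (hc : ContinuousOn H (closedBall 0 1)) (hd : DifferentiableOn ℂ H (ball 0 1))
    (hre : ∀ z : Circle, (H z).re = 0) (h0 : (H 0).im = 0) :
    ∀ z ∈ closedBall (0 : ℂ) 1, H z = 0 := by
  have hcl : closure (ball (0 : ℂ) 1) = closedBall 0 1 := closure_ball (0 : ℂ) one_ne_zero
  obtain ⟨h1, -⟩ := uniq_aux H hc hd hre h0
  have hball : EqOn H (fun _ => (0 : ℂ)) (ball (0 : ℂ) 1) := by
    intro z hz
    show H z = 0
    by_contra hne
    set y : ℝ := (H z).im with hy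
    have hzy : H z = (y : ℂ) * I := by
      apply Complex.ext
      · simp [h1 z (ball_subset_closedBall hz)]
      · simp [hy]
    have hy0 : y ≠ 0 := by
      intro h
      apply hne
      rw [hzy, h]
      simp
    obtain ⟨-, h2⟩ := uniq_aux (fun w => ((π / y : ℝ) : ℂ) * H w)
      (continuousOn_const.mul hc) (hd.const_mul _)
      (fun w => by rw [Complex.re_ofReal_mul, hre w, mul_zero])
      (by rw [Complex.im_ofReal_mul, h0, mul_zero])
    have h3 := h2 z hz
    rw [hzy] at h3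
    have h4 : ((π / y : ℝ) : ℂ) * ((y : ℂ) * I) = π * I := by
      have : (y : ℂ) ≠ 0 := by exact_mod_cast hy0
      push_cast
      field_simp
    rw [h4, Complex.exp_pi_mul_I] at h3
    norm_num at h3
  intro z hz
  exact hball.of_subset_closure hc continuousOn_const ball_subset_closedBall
    (by rw [hcl]) hz

lemma stieltjes (a b : ℝ) (hab : a ≤ b) (f g g' : ℝ → ℝ) (hf : ContinuousOn f (Icc a b))
    (hg : ∀ t ∈ Icc a b, HasDerivAt g (g' t) t) (hg' : ContinuousOn g' (Icc a b)) (ε : ℝ) (hε : 0 < ε) :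
    ∃ δ : ℝ, 0 < δ ∧ ∀ (n : ℕ) (t : ℕ → ℝ), Monotone t → t 0 = a → t n = b →
      (∀ i < n, t (i + 1) - t i < δ) →
      |∑ i ∈ Finset.range n, f (t i) * (g (t (i + 1)) - g (t i)) - ∫ s in a..b, f s * g' s| ≤ ε := by
  obtain ⟨G, hG⟩ : ∃ G : ℝ, ∀ s ∈ Icc a b, ‖g' s‖ ≤ G := isCompact_Icc.exists_bound_of_continuousOn hg'
  have hG0 : 0 ≤ G := (norm_nonneg _).trans (hG a ⟨le_rfl, hab⟩)
  have huc := isCompact_Icc.uniformContinuousOn_of_continuous hf
  rw [Metric.uniformContinuousOn_iff] at huc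
  have hD : 0 < (G + 1) * (b - a + 1) := mul_pos (by linarith) (by linarith)
  set η : ℝ := ε / ((G + 1) * (b - a + 1)) with hη
  have hη0 : 0 < η := div_pos hε hD
  have hηε : η * ((G + 1) * (b - a + 1)) = ε := div_mul_cancel₀ _ hD.ne'
  obtain ⟨δ, hδ, h⟩ := huc η hη0
  refine ⟨δ, hδ, fun n t hmono h0 hn hd => ?_⟩
  have hmem : ∀ i ≤ n, t i ∈ Icc a b := fun i hi =>
    ⟨h0 ▸ hmono (Nat.zero_le i), hn ▸ hmono hi⟩
  have hsub : ∀ i < n, uIcc (t i) (t (i + 1)) ⊆ Icc a b := by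
    intro i hi
    rw [uIcc_of_le (hmono (Nat.le_succ i))]
    exact Icc_subset_Icc (hmem i hi.le).1 (hmem (i + 1) hi).2
  have hint1 : ∀ i < n, IntervalIntegrable (fun s => f s * g' s) volume (t i) (t (i + 1)) :=
    fun i hi => ((hf.mul hg').mono (hsub i hi)).intervalIntegrable
  have hsum := intervalIntegral.sum_integral_adjacent_intervals hint1
  rw [h0, hn] at hsum
  rw [← hsum, ← Finset.sum_sub_distrib]
  refine (Finset.abs_sum_le_sum_abs _ _).trans ?_
  have hterm : ∀ i ∈ Finset.range n,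
      |f (t i) * (g (t (i + 1)) - g (t i)) - ∫ s in (t i)..(t (i + 1)), f s * g' s| ≤
        η * G * (t (i + 1) - t i) := by
    intro i hi
    have hi' := Finset.mem_range.1 hi
    have hgi : IntervalIntegrable g' volume (t i) (t (i + 1)) :=
      (hg'.mono (hsub i hi')).intervalIntegrable
    have e1 : ∫ s in (t i)..(t (i + 1)), g' s = g (t (i + 1)) - g (t i) :=
      intervalIntegral.integral_eq_sub_of_hasDerivAt (fun x hx => hg x (hsub i hi' hx)) hgi
    rw [← e1, ← intervalIntegral.integral_const_mul, ← intervalIntegral.integral_sub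
      (hgi.const_mul _) (hint1 i hi'), ← Real.norm_eq_abs]
    have hle := intervalIntegral.norm_integral_le_of_norm_le_const
      (a := t i) (b := t (i + 1)) (C := η * G) (f := fun x => f (t i) * g' x - f x * g' x) (by
        intro x hx
        have hx1 : x ∈ uIcc (t i) (t (i + 1)) := uIoc_subset_uIcc hx
        have hxm := hsub i hi' hx1
        rw [uIcc_of_le (hmono (Nat.le_succ i))] at hx1
        have hdist : dist (t i) x < δ := by
          rw [Real.dist_eq, abs_sub_comm, abs_of_nonneg (by linarith [hx1.1])]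
          linarith [hx1.2, hd i hi']
        have h3 := h (t i) (hmem i hi'.le) x hxm hdist
        rw [Real.dist_eq] at h3
        rw [← sub_mul, norm_mul, Real.norm_eq_abs]
        exact mul_le_mul h3.le (hG x hxm) (norm_nonneg _) hη0.le)
    rwa [abs_of_nonneg (sub_nonneg.2 (hmono (Nat.le_succ i)))] at hle
  refine (Finset.sum_le_sum hterm).trans ?_
  rw [← Finset.mul_sum, Finset.sum_range_sub, h0, hn]
  have hba : 0 ≤ b - a := sub_nonneg.2 hab
  calc η * G * (b - a) ≤ η * ((G + 1) * (b - a + 1)) := by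
        rw [mul_assoc]
        apply mul_le_mul_of_nonneg_left _ hη0.le
        exact mul_le_mul (by linarith) (by linarith) hba (by linarith)
    _ = ε := hηε

lemma two_int (a b : ℝ) (hab : a ≤ b) (Ψ : ℝ → ℝ) (hΨ : Continuous Ψ) (hm : StrictMono Ψ)
    (F g1 g1' g2 g2' : ℝ → ℝ) (hF : Continuous F) (M V : ℝ) (hM : ∀ s, |F s| ≤ M)
    (h1 : ∀ t ∈ Icc a b, HasDerivAt g1 (g1' t) t) (h1' : ContinuousOn g1' (Icc a b))
    (h2 : ∀ t ∈ Icc (Ψ a) (Ψ b), HasDerivAt g2 (g2' t) t) (h2' : ContinuousOn g2' (Icc (Ψ a) (Ψ b)))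
    (hV0 : 0 ≤ V) (hV : eVariationOn (fun t => g2 (Ψ t) - g1 t) (Icc a b) ≤ ENNReal.ofReal V) :
    |(∫ s in (Ψ a)..(Ψ b), F s * g2' s) - ∫ t in a..b, F (Ψ t) * g1' t| ≤ M * V := by
  have hM0 : 0 ≤ M := le_trans (abs_nonneg _) (hM 0)
  apply le_of_forall_pos_le_add
  intro ε hε
  have hΨab : Ψ a ≤ Ψ b := hm.monotone hab
  obtain ⟨δ1, hδ1, H1⟩ := stieltjes a b hab (fun t => F (Ψ t)) g1 g1'
    ((hF.comp hΨ).continuousOn) h1 h1' (ε / 2) (half_pos hε)
  obtain ⟨δ2, hδ2, H2⟩ := stieltjes (Ψ a) (Ψ b) hΨab F g2 g2'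
    hF.continuousOn h2 h2' (ε / 2) (half_pos hε)
  have huc : UniformContinuousOn Ψ (Icc a b) :=
    isCompact_Icc.uniformContinuousOn_of_continuous hΨ.continuousOn
  rw [Metric.uniformContinuousOn_iff] at huc
  obtain ⟨δ3, hδ3, H3⟩ := huc δ2 hδ2
  obtain ⟨n, hn⟩ := exists_nat_gt ((b - a) / min δ1 δ3)
  have hmin : 0 < min δ1 δ3 := lt_min hδ1 hδ3
  have hn0 : (0 : ℝ) < n := lt_of_le_of_lt (div_nonneg (sub_nonneg.2 hab) hmin.le) hn
  have hstep : (b - a) / n < min δ1 δ3 := by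
    rw [div_lt_iff₀ hn0]
    rw [div_lt_iff₀ hmin] at hn
    linarith [mul_comm (n : ℝ) (min δ1 δ3)]
  have hq0 : 0 ≤ (b - a) / n := div_nonneg (sub_nonneg.2 hab) hn0.le
  set t : ℕ → ℝ := fun i => a + ((min i n : ℕ) : ℝ) * ((b - a) / n) with ht
  have htm : Monotone t := by
    intro i j hij
    simp only [ht]
    have : ((min i n : ℕ) : ℝ) ≤ ((min j n : ℕ) : ℝ) := by
      exact_mod_cast min_le_min_right n hij
    nlinarith
  have ht0 : t 0 = a := by simp [ht]
  have htn : t n = b := by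
    simp only [ht, min_self]
    field_simp
    ring
  have htI : ∀ i, t i ∈ Icc a b := by
    intro i
    constructor
    · rw [← ht0]; exact htm (Nat.zero_le i)
    · rcases le_total i n with h | h
      · rw [← htn]; exact htm h
      · have : t i = t n := by simp only [ht, min_eq_right h, min_self]
        rw [this, htn]
  have hts : ∀ i < n, t (i + 1) - t i = (b - a) / n := by
    intro i hi
    simp only [ht]
    rw [min_eq_left (Nat.succ_le_of_lt hi), min_eq_left hi.le]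
    push_cast
    ring
  have A1 := H1 n t htm ht0 htn (fun i hi => by
    rw [hts i hi]; exact lt_of_lt_of_le hstep (min_le_left _ _))
  have A2 := H2 n (fun i => Ψ (t i)) (fun i j hij => hm.monotone (htm hij))
    (by simp only [ht0]) (by simp only [htn]) (fun i hi => by
      have h := H3 (t (i + 1)) (htI _) (t i) (htI _) (by
        rw [Real.dist_eq, hts i hi, abs_of_nonneg hq0]
        exact lt_of_lt_of_le hstep (min_le_right _ _))
      rw [Real.dist_eq] at h
      exact lt_of_le_of_lt (le_abs_self _) h)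
  have A3 : |∑ i ∈ Finset.range n, F (Ψ (t i)) * (g2 (Ψ (t (i + 1))) - g2 (Ψ (t i)))
      - ∑ i ∈ Finset.range n, F (Ψ (t i)) * (g1 (t (i + 1)) - g1 (t i))| ≤ M * V := by
    have hsum : ∑ i ∈ Finset.range n,
        edist ((fun t => g2 (Ψ t) - g1 t) (t (i + 1))) ((fun t => g2 (Ψ t) - g1 t) (t i))
        ≤ ENNReal.ofReal V :=
      le_trans (eVariationOn.sum_le (f := fun t => g2 (Ψ t) - g1 t) htm htI) hV
    have hsum' : ∑ i ∈ Finset.range n,
        |(g2 (Ψ (t (i + 1))) - g1 (t (i + 1))) - (g2 (Ψ (t i)) - g1 (t i))| ≤ V := by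
      have e : ∑ i ∈ Finset.range n,
        edist ((fun t => g2 (Ψ t) - g1 t) (t (i + 1))) ((fun t => g2 (Ψ t) - g1 t) (t i))
        = ENNReal.ofReal (∑ i ∈ Finset.range n,
        |(g2 (Ψ (t (i + 1))) - g1 (t (i + 1))) - (g2 (Ψ (t i)) - g1 (t i))|) := by
        rw [ENNReal.ofReal_sum_of_nonneg (fun i _ => abs_nonneg _)]
        refine Finset.sum_congr rfl (fun i _ => ?_)
        rw [edist_dist, Real.dist_eq]
      rw [e] at hsum
      exact (ENNReal.ofReal_le_ofReal_iff hV0).1 hsum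
    rw [← Finset.sum_sub_distrib]
    refine le_trans (Finset.abs_sum_le_sum_abs _ _) ?_
    calc ∑ i ∈ Finset.range n, |F (Ψ (t i)) * (g2 (Ψ (t (i + 1))) - g2 (Ψ (t i)))
          - F (Ψ (t i)) * (g1 (t (i + 1)) - g1 (t i))|
        ≤ ∑ i ∈ Finset.range n,
          M * |(g2 (Ψ (t (i + 1))) - g1 (t (i + 1))) - (g2 (Ψ (t i)) - g1 (t i))| := by
          refine Finset.sum_le_sum (fun i _ => ?_)
          have : F (Ψ (t i)) * (g2 (Ψ (t (i + 1))) - g2 (Ψ (t i)))
              - F (Ψ (t i)) * (g1 (t (i + 1)) - g1 (t i))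
              = F (Ψ (t i)) * ((g2 (Ψ (t (i + 1))) - g1 (t (i + 1))) - (g2 (Ψ (t i)) - g1 (t i))) := by
            ring
          rw [this, abs_mul]
          exact mul_le_mul_of_nonneg_right (hM _) (abs_nonneg _)
      _ = M * ∑ i ∈ Finset.range n,
          |(g2 (Ψ (t (i + 1))) - g1 (t (i + 1))) - (g2 (Ψ (t i)) - g1 (t i))| := by
          rw [Finset.mul_sum]
      _ ≤ M * V := mul_le_mul_of_nonneg_left hsum' hM0
  have B1 := abs_le.1 A1
  have B2 := abs_le.1 A2
  have B3 := abs_le.1 A3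
  rw [abs_le]
  constructor <;> linarith [B1.1, B1.2, B2.1, B2.2, B3.1, B3.2]

lemma conj_formula (W : Circle → ℝ) (x : ℝ) :
    conjI W (Circle.exp x) = -(1 / (2 * π)) * ∫ t in x..(x + 2 * π),
      (W (Circle.exp t) - W (Circle.exp x)) * (Real.cos ((t - x) / 2) / Real.sin ((t - x) / 2)) := by
  have hratio : ∀ t : ℝ, ((exp (t * I) + (Circle.exp x : ℂ)) / (exp (t * I) - (Circle.exp x : ℂ))).im
      = -(Real.cos ((t - x) / 2) / Real.sin ((t - x) / 2)) := by
    intro t
    have e1 : exp (t * I) = exp (((t + x) / 2 : ℝ) * I) * exp (((t - x) / 2 : ℝ) * I) := by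
      rw [← Complex.exp_add]
      congr 1
      push_cast
      ring
    have e2 : (Circle.exp x : ℂ) = exp (((t + x) / 2 : ℝ) * I) * exp (-((t - x) / 2 : ℝ) * I) := by
      rw [← Complex.exp_add, Circle.coe_exp]
      congr 1
      push_cast
      ring
    have e3 : exp (((t - x) / 2 : ℝ) * I) = (Real.cos ((t - x) / 2) : ℂ) + (Real.sin ((t - x) / 2) : ℂ) * I := by
      rw [Complex.exp_mul_I, Complex.ofReal_cos, Complex.ofReal_sin]
    have e4 : exp (-((t - x) / 2 : ℝ) * I) = (Real.cos ((t - x) / 2) : ℂ) - (Real.sin ((t - x) / 2) : ℂ) * I := by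
      rw [Complex.exp_mul_I, Complex.cos_neg, Complex.sin_neg, Complex.ofReal_cos, Complex.ofReal_sin]
      ring
    have hm : exp (((t + x) / 2 : ℝ) * I) ≠ 0 := Complex.exp_ne_zero _
    have e5 : (exp (t * I) + (Circle.exp x : ℂ)) / (exp (t * I) - (Circle.exp x : ℂ)) =
        ((-(Real.cos ((t - x) / 2) / Real.sin ((t - x) / 2)) : ℝ) : ℂ) * I := by
      rw [e1, e2, ← mul_add, ← mul_sub, mul_div_mul_left _ _ hm, e3, e4]
      have e6 : (Real.cos ((t - x) / 2) : ℂ) + (Real.sin ((t - x) / 2) : ℂ) * I +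
          ((Real.cos ((t - x) / 2) : ℂ) - (Real.sin ((t - x) / 2) : ℂ) * I) =
          2 * (Real.cos ((t - x) / 2) : ℂ) := by ring
      have e7 : (Real.cos ((t - x) / 2) : ℂ) + (Real.sin ((t - x) / 2) : ℂ) * I -
          ((Real.cos ((t - x) / 2) : ℂ) - (Real.sin ((t - x) / 2) : ℂ) * I) =
          2 * ((Real.sin ((t - x) / 2) : ℂ) * I) := by ring
      rw [e6, e7, mul_div_mul_left _ _ two_ne_zero, ← div_div, div_I]
      push_cast
      ring
    rw [e5]
    simp only [Complex.mul_im, Complex.ofReal_re, Complex.ofReal_im, Complex.I_im, Complex.I_re]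
    ring
  have hper : Function.Periodic (fun t : ℝ => (W (Circle.exp t) - W (Circle.exp x)) *
      (Real.cos ((t - x) / 2) / Real.sin ((t - x) / 2))) (2 * π) := by
    intro t
    have h1 : (t + 2 * π - x) / 2 = (t - x) / 2 + π := by ring
    simp only [h1, Real.cos_add_pi, Real.sin_add_pi, neg_div_neg_eq]
    rw [Circle.periodic_exp t]
  have hshift := hper.intervalIntegral_add_eq (-π) x
  have h2 : -π + 2 * π = π := by ring
  rw [h2] at hshift
  unfold conjI
  rw [← hshift, neg_mul, ← mul_neg, ← intervalIntegral.integral_neg]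
  congr 1
  apply intervalIntegral.integral_congr
  intro t _
  simp only []
  rw [hratio t]
  ring

lemma lip_bound_chord (t x : ℝ) :
    ‖((Circle.exp t : Circle) : ℂ) - (Circle.exp x : Circle)‖ = 2 * |Real.sin ((t - x) / 2)| := by
  have h1 : ((Circle.exp t : Circle) : ℂ) - (Circle.exp x : Circle) =
      exp (x * I) * (exp (I * ((t - x : ℝ) : ℂ)) - 1) := by
    rw [Circle.coe_exp, Circle.coe_exp, mul_sub, ← Complex.exp_add, mul_one]
    congr 2
    push_cast
    ring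
  rw [h1, norm_mul, Complex.norm_exp_ofReal_mul_I, one_mul,
    Complex.norm_exp_I_mul_ofReal_sub_one, Real.norm_eq_abs, abs_mul, abs_two]


lemma lip_bound (W : Circle → ℝ) (K : ℝ) (hW : ∀ a b : Circle, |W a - W b| ≤ K * ‖(a : ℂ) - b‖) (x t : ℝ) :
    |(W (Circle.exp t) - W (Circle.exp x)) * (Real.cos ((t - x) / 2) / Real.sin ((t - x) / 2))| ≤ 2 * K ∧
    IntervalIntegrable (fun t => (W (Circle.exp t) - W (Circle.exp x)) *
      (Real.cos ((t - x) / 2) / Real.sin ((t - x) / 2))) volume x (x + 2 * π) := by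
  have hK : 0 ≤ K := by
    have h1 := hW (Circle.exp π) (Circle.exp 0)
    rw [lip_bound_chord] at h1
    have h2 : Real.sin ((π - 0) / 2) = 1 := by
      rw [sub_zero, Real.sin_pi_div_two]
    rw [h2, abs_one] at h1
    have h3 := abs_nonneg (W (Circle.exp π) - W (Circle.exp 0))
    linarith
  have hb : ∀ t : ℝ, |(W (Circle.exp t) - W (Circle.exp x)) *
      (Real.cos ((t - x) / 2) / Real.sin ((t - x) / 2))| ≤ 2 * K := by
    intro t
    by_cases hs : Real.sin ((t - x) / 2) = 0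
    · rw [hs, div_zero, mul_zero, abs_zero]
      linarith
    · have h1 := hW (Circle.exp t) (Circle.exp x)
      rw [lip_bound_chord] at h1
      have hs' : 0 < |Real.sin ((t - x) / 2)| := abs_pos.2 hs
      rw [abs_mul, abs_div]
      calc |W (Circle.exp t) - W (Circle.exp x)| *
          (|Real.cos ((t - x) / 2)| / |Real.sin ((t - x) / 2)|)
          ≤ (K * (2 * |Real.sin ((t - x) / 2)|)) *
          (1 / |Real.sin ((t - x) / 2)|) := by
            apply mul_le_mul h1 _ (by positivity) (by positivity)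
            exact div_le_div_of_nonneg_right (Real.abs_cos_le_one _) hs'.le
        _ = 2 * K := by
            field_simp
  refine ⟨hb t, ?_⟩
  have hWc : Continuous W := by
    have : LipschitzWith K.toNNReal W := by
      apply LipschitzWith.of_dist_le_mul
      intro a b
      have hd : dist a b = dist (a : ℂ) (b : ℂ) := rfl
      rw [Real.dist_eq, Real.coe_toNNReal K hK, hd, dist_eq_norm]
      exact hW a b
    exact this.continuous
  have hmeas : Measurable (fun t : ℝ => (W (Circle.exp t) - W (Circle.exp x)) *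
      (Real.cos ((t - x) / 2) / Real.sin ((t - x) / 2))) := by
    have h1 : Measurable (fun t : ℝ => W (Circle.exp t)) :=
      (hWc.comp Circle.exp.continuous).measurable
    have h2 : Measurable (fun t : ℝ => Real.cos ((t - x) / 2)) := by fun_prop
    have h3 : Measurable (fun t : ℝ => Real.sin ((t - x) / 2)) := by fun_prop
    exact (h1.sub_const _).mul (h2.div h3)
  have hc : IntervalIntegrable (fun _ : ℝ => 2 * K) volume x (x + 2 * π) :=
    intervalIntegrable_const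
  refine hc.mono_fun hmeas.aestronglyMeasurable ?_
  filter_upwards with s
  rw [Real.norm_eq_abs, Real.norm_eq_abs, abs_of_nonneg (by positivity : 0 ≤ 2 * K)]
  exact hb s

lemma aux_lim444 (f : ℝ → ℝ) (p q : ℝ) (hpq : p ≤ q) (hi : IntervalIntegrable f volume p q)
    (u v : ℝ → ℝ) (l : Filter ℝ) (hu : Tendsto u l (𝓝 p)) (hv : Tendsto v l (𝓝 q))
    (hu' : ∀ᶠ δ in l, u δ ∈ Icc p q) (hv' : ∀ᶠ δ in l, v δ ∈ Icc p q) :
    Tendsto (fun δ => ∫ t in (u δ)..(v δ), f t) l (𝓝 (∫ t in p..q, f t)) := by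
  have c := intervalIntegral.continuousOn_primitive_interval' hi left_mem_uIcc
  rw [uIcc_of_le hpq] at c
  have t1 : Tendsto (fun δ => ∫ t in p..(v δ), f t) l (𝓝 (∫ t in p..q, f t)) :=
    ((c q (right_mem_Icc.mpr hpq)).tendsto).comp (tendsto_nhdsWithin_iff.mpr ⟨hv, hv'⟩)
  have t2 : Tendsto (fun δ => ∫ t in p..(u δ), f t) l (𝓝 (∫ t in p..p, f t)) :=
    ((c p (left_mem_Icc.mpr hpq)).tendsto).comp (tendsto_nhdsWithin_iff.mpr ⟨hu, hu'⟩)
  have t3 := t1.sub t2
  rw [intervalIntegral.integral_same, sub_zero] at t3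
  refine t3.congr' ?_
  filter_upwards [hu', hv'] with δ h1 h2
  apply intervalIntegral.integral_interval_sub_left
  · exact hi.mono_set (by rw [uIcc_of_le hpq, uIcc_of_le h2.1]; exact Icc_subset_Icc le_rfl h2.2)
  · exact hi.mono_set (by rw [uIcc_of_le hpq, uIcc_of_le h1.1]; exact Icc_subset_Icc le_rfl h1.2)

lemma aux_deriv444 (c t : ℝ) (h0 : 0 < t - c) (h1 : t - c < 2 * π) :
    0 < Real.sin ((t - c) / 2) ∧
    HasDerivAt (fun t => Real.log (Real.sin ((t - c) / 2)))
      (Real.cos ((t - c) / 2) * (1 / 2) / Real.sin ((t - c) / 2)) t := by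
  have hs : 0 < Real.sin ((t - c) / 2) := Real.sin_pos_of_pos_of_lt_pi (by linarith) (by linarith)
  refine ⟨hs, ?_⟩
  have h2 : HasDerivAt (fun t => (t - c) / 2) (1 / 2) t := ((hasDerivAt_id t).sub_const c).div_const 2
  exact (h2.sin).log hs.ne'

lemma key_est (Ψ : ℝ → ℝ) (ψ : Circle ≃ₜ Circle) (hl : Lift Ψ ψ) (V : ℝ) (hV0 : 0 ≤ V) (hV : BVcond Ψ V)
    (U : Circle → ℝ) (K M : ℝ) (hU : ∀ a b : Circle, |U a - U b| ≤ K * ‖(a : ℂ) - b‖)
    (hUψ : ∀ a b : Circle, |U (ψ a) - U (ψ b)| ≤ K * ‖(a : ℂ) - b‖)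
    (hM : ∀ a, |U a| ≤ M) (z : Circle) :
    |conjI (fun a => U (ψ a)) z - conjI U (ψ z)| ≤ V * M := by
  obtain ⟨hΨc, hΨm, hΨp, hΨe⟩ := hl
  obtain ⟨x, hx⟩ : ∃ x:ℝ, Circle.exp x = z := ⟨arg z, Circle.exp_arg z⟩
  subst hx
  have hMnn : 0 ≤ M := (abs_nonneg _).trans (hM 1)
  have hUc : Continuous U := by
    have : LipschitzWith (Real.toNNReal K) U := by
      apply LipschitzWith.of_dist_le'
      intro a b
      rw [Real.dist_eq]
      refine (hU a b).trans (le_of_eq ?_)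
      rw [← dist_eq_norm]; rfl
    exact this.continuous
  have i1 := (lip_bound (fun a => U (ψ a)) K hUψ x x).2
  have i2 := (lip_bound U K hU (Ψ x) (Ψ x)).2
  rw [hΨe x, conj_formula (fun a => U (ψ a)) x, conj_formula U (Ψ x)]
  simp only [hΨe] at i1 ⊢
  have hpi := Real.pi_pos
  have hbound : ∀ δ ∈ Ioo (0:ℝ) π,
      |(∫ s in (Ψ (x+δ))..(Ψ (x + 2*π - δ)), (U (Circle.exp s) - U (Circle.exp (Ψ x))) *
        (Real.cos ((s - Ψ x) / 2) / Real.sin ((s - Ψ x) / 2))) -
        ∫ t in (x+δ)..(x+2*π-δ), (U (Circle.exp (Ψ t)) - U (Circle.exp (Ψ x))) *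
        (Real.cos ((t - x) / 2) / Real.sin ((t - x) / 2))| ≤ 4 * M * V := by
    intro δ hδ
    obtain ⟨hδ0, hδ1⟩ := hδ
    have ht1 : ∀ t ∈ Icc (x+δ) (x+2*π-δ), 0 < t - x ∧ t - x < 2 * π := by
      intro t ht
      exact ⟨by linarith [ht.1], by linarith [ht.2]⟩
    have ht2 : ∀ t ∈ Icc (Ψ (x+δ)) (Ψ (x+2*π-δ)), 0 < t - Ψ x ∧ t - Ψ x < 2 * π := by
      intro t ht
      have e1 : Ψ x < Ψ (x+δ) := hΨm (by linarith)
      have e2 : Ψ (x+2*π-δ) < Ψ (x+2*π) := hΨm (by linarith)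
      rw [hΨp] at e2
      exact ⟨by linarith [ht.1], by linarith [ht.2]⟩
    have h := two_int (x+δ) (x+2*π-δ) (by linarith) Ψ hΨc hΨm
      (fun s => U (Circle.exp s) - U (Circle.exp (Ψ x)))
      (fun t => Real.log (Real.sin ((t - x) / 2)))
      (fun t => Real.cos ((t - x) / 2) * (1 / 2) / Real.sin ((t - x) / 2))
      (fun t => Real.log (Real.sin ((t - Ψ x) / 2)))
      (fun t => Real.cos ((t - Ψ x) / 2) * (1 / 2) / Real.sin ((t - Ψ x) / 2))
      (by fun_prop) (2*M) V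
      (by
        intro s
        calc |U (Circle.exp s) - U (Circle.exp (Ψ x))| ≤ |U (Circle.exp s)| + |U (Circle.exp (Ψ x))| := abs_sub _ _
          _ ≤ 2 * M := by linarith [hM (Circle.exp s), hM (Circle.exp (Ψ x))])
      (fun t ht => (aux_deriv444 x t (ht1 t ht).1 (ht1 t ht).2).2)
      (by
        apply ContinuousOn.div
        · fun_prop
        · fun_prop
        · intro t ht
          exact (aux_deriv444 x t (ht1 t ht).1 (ht1 t ht).2).1.ne')
      (fun t ht => (aux_deriv444 (Ψ x) t (ht2 t ht).1 (ht2 t ht).2).2)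
      (by
        apply ContinuousOn.div
        · fun_prop
        · fun_prop
        · intro t ht
          exact (aux_deriv444 (Ψ x) t (ht2 t ht).1 (ht2 t ht).2).1.ne')
      hV0
      (by
        refine le_trans (le_of_eq ?_) ((eVariationOn.mono (hh Ψ x) (?_ : Icc (x+δ) (x+2*π-δ) ⊆ Ioo x (x+2*π))).trans (hV x))
        · apply eVariationOn.eq_of_eqOn
          intro t ht
          have p1 := (aux_deriv444 x t (ht1 t ht).1 (ht1 t ht).2).1
          have hΨt : Ψ t ∈ Icc (Ψ (x+δ)) (Ψ (x+2*π-δ)) := ⟨hΨm.monotone ht.1, hΨm.monotone ht.2⟩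
          have p2 := (aux_deriv444 (Ψ x) (Ψ t) (ht2 _ hΨt).1 (ht2 _ hΨt).2).1
          show Real.log (Real.sin ((Ψ t - Ψ x) / 2)) - Real.log (Real.sin ((t - x) / 2)) = hh Ψ x t
          unfold hh
          rw [abs_of_pos p1, abs_of_pos p2, Real.log_div p2.ne' p1.ne']
        · intro t ht
          exact ⟨by linarith [ht.1], by linarith [ht.2]⟩)
    have e2 : (∫ s in (Ψ (x+δ))..(Ψ (x + 2*π - δ)), (U (Circle.exp s) - U (Circle.exp (Ψ x))) *
        (Real.cos ((s - Ψ x) / 2) * (1 / 2) / Real.sin ((s - Ψ x) / 2)))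
        = (1/2) * ∫ s in (Ψ (x+δ))..(Ψ (x + 2*π - δ)), (U (Circle.exp s) - U (Circle.exp (Ψ x))) *
        (Real.cos ((s - Ψ x) / 2) / Real.sin ((s - Ψ x) / 2)) := by
      rw [← intervalIntegral.integral_const_mul]
      congr 1; ext s; ring
    have e1 : (∫ t in (x+δ)..(x+2*π-δ), (U (Circle.exp (Ψ t)) - U (Circle.exp (Ψ x))) *
        (Real.cos ((t - x) / 2) * (1/2) / Real.sin ((t - x) / 2)))
        = (1/2) * ∫ t in (x+δ)..(x+2*π-δ), (U (Circle.exp (Ψ t)) - U (Circle.exp (Ψ x))) *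
        (Real.cos ((t - x) / 2) / Real.sin ((t - x) / 2)) := by
      rw [← intervalIntegral.integral_const_mul]
      congr 1; ext s; ring
    have h' := h
    rw [e2, e1, ← mul_sub, abs_mul, abs_of_pos (by norm_num : (0:ℝ) < 1/2)] at h'
    linarith
  have hev : ∀ᶠ δ in 𝓝[>] (0:ℝ), δ ∈ Ioo (0:ℝ) π := Ioo_mem_nhdsGT hpi
  have u1 : Tendsto (fun δ : ℝ => x + δ) (𝓝[>] 0) (𝓝 x) := by
    have : Tendsto (fun δ : ℝ => x + δ) (𝓝 0) (𝓝 (x + 0)) := (continuous_const.add continuous_id).tendsto 0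
    rw [add_zero] at this
    exact this.mono_left nhdsWithin_le_nhds
  have v1 : Tendsto (fun δ : ℝ => x + 2*π - δ) (𝓝[>] 0) (𝓝 (x + 2*π)) := by
    have : Tendsto (fun δ : ℝ => x + 2*π - δ) (𝓝 0) (𝓝 (x + 2*π - 0)) := (continuous_const.sub continuous_id).tendsto 0
    rw [sub_zero] at this
    exact this.mono_left nhdsWithin_le_nhds
  have u2 : Tendsto (fun δ : ℝ => Ψ (x + δ)) (𝓝[>] 0) (𝓝 (Ψ x)) := (hΨc.tendsto x).comp u1
  have v2 : Tendsto (fun δ : ℝ => Ψ (x + 2*π - δ)) (𝓝[>] 0) (𝓝 (Ψ x + 2*π)) := by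
    have := (hΨc.tendsto (x+2*π)).comp v1
    rw [hΨp] at this
    exact this
  have T1 := aux_lim444 _ x (x+2*π) (by linarith) i1 _ _ _ u1 v1
    (by filter_upwards [hev] with δ hδ; exact ⟨by linarith [hδ.1], by linarith [hδ.2]⟩)
    (by filter_upwards [hev] with δ hδ; exact ⟨by linarith [hδ.2], by linarith [hδ.1]⟩)
  have T2 := aux_lim444 _ (Ψ x) (Ψ x+2*π) (by linarith) i2 _ _ _ u2 v2
    (by
      filter_upwards [hev] with δ hδ
      have e1 : Ψ x < Ψ (x+δ) := hΨm (by linarith [hδ.1])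
      have e2 : Ψ (x+δ) < Ψ (x+2*π) := hΨm (by linarith [hδ.2])
      rw [hΨp] at e2
      exact ⟨e1.le, e2.le⟩)
    (by
      filter_upwards [hev] with δ hδ
      have e1 : Ψ x < Ψ (x+2*π-δ) := hΨm (by linarith [hδ.2])
      have e2 : Ψ (x+2*π-δ) < Ψ (x+2*π) := hΨm (by linarith [hδ.1])
      rw [hΨp] at e2
      exact ⟨e1.le, e2.le⟩)
  have hfin := le_of_tendsto ((T2.sub T1).abs) (by filter_upwards [hev] with δ hδ using hbound δ hδ)
  generalize (∫ t in x..(x+2*π), (U (Circle.exp (Ψ t)) - U (Circle.exp (Ψ x))) *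
        (Real.cos ((t - x) / 2) / Real.sin ((t - x) / 2))) = J1 at *
  generalize (∫ t in (Ψ x)..(Ψ x+2*π), (U (Circle.exp t) - U (Circle.exp (Ψ x))) *
        (Real.cos ((t - Ψ x) / 2) / Real.sin ((t - Ψ x) / 2))) = J2 at *
  have e : -(1 / (2 * π)) * J1 - -(1 / (2 * π)) * J2 = (1/(2*π)) * (J2 - J1) := by ring
  rw [e, abs_mul, abs_of_pos (by positivity : 0 < 1/(2*π))]
  have h3 : (3:ℝ) < π := Real.pi_gt_three
  calc 1/(2*π) * |J2 - J1| ≤ 1/(2*π) * (4*M*V) := mul_le_mul_of_nonneg_left hfin (by positivity)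
    _ ≤ V * M := by
      rw [div_mul_eq_mul_div, div_le_iff₀ (by positivity)]
      have : 0 ≤ V * M := mul_nonneg hV0 hMnn
      nlinarith

lemma bilip_chord (s r : ℝ) :
    ‖(Circle.exp s : ℂ) - Circle.exp r‖ = 2 * |Real.sin ((s - r) / 2)| := by
  have h1 : ‖(Circle.exp s : ℂ) - Circle.exp r‖ ^ 2 = (2 * |Real.sin ((s - r) / 2)|) ^ 2 := by
    rw [Circle.coe_exp, Circle.coe_exp, ← Complex.normSq_eq_norm_sq, Complex.normSq_apply]
    simp only [Complex.sub_re, Complex.sub_im, Complex.exp_ofReal_mul_I_re,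
      Complex.exp_ofReal_mul_I_im]
    rw [mul_pow, sq_abs, Real.sin_sq_eq_half_sub, show 2 * ((s - r) / 2) = s - r by ring,
      Real.cos_sub]
    nlinarith [Real.sin_sq_add_cos_sq s, Real.sin_sq_add_cos_sq r]
  have h2 : 0 ≤ 2 * |Real.sin ((s - r) / 2)| := by positivity
  exact (pow_left_inj₀ (norm_nonneg _) h2 two_ne_zero).mp h1


lemma bilip (Ψ : ℝ → ℝ) (ψ : Circle ≃ₜ Circle) (hl : Lift Ψ ψ) (V : ℝ) (hV0 : 0 ≤ V) (hV : BVcond Ψ V) :
    ∃ L : ℝ, 0 < L ∧ ∀ a b : Circle, ‖(ψ a : ℂ) - ψ b‖ ≤ L * ‖(a : ℂ) - b‖ := by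
  obtain ⟨-, hmono, hper, hlift⟩ := hl
  refine ⟨Real.exp V, Real.exp_pos _, ?_⟩
  have key : ∀ x t : ℝ, x < t → t < x + 2 * π →
      |Real.sin ((Ψ t - Ψ x) / 2)| ≤ Real.exp V * |Real.sin ((t - x) / 2)| := by
    intro x t hxt htx
    have hpi := Real.pi_pos
    have hmem : t ∈ Ioo x (x + 2 * π) := ⟨hxt, htx⟩
    have hmem2 : x + π ∈ Ioo x (x + 2 * π) := ⟨by linarith, by linarith⟩
    have h1 : edist (hh Ψ x t) (hh Ψ x (x + π)) ≤ ENNReal.ofReal V :=
      (eVariationOn.edist_le _ hmem hmem2).trans (hV x)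
    have h2 : dist (hh Ψ x t) (hh Ψ x (x + π)) ≤ V := (edist_le_ofReal hV0).mp h1
    have h3 : hh Ψ x (x + π) ≤ 0 := by
      unfold hh
      apply Real.log_nonpos (by positivity)
      rw [show (x + π - x) / 2 = π / 2 by ring, Real.sin_pi_div_two, abs_one, div_one]
      exact Real.abs_sin_le_one _
    have h4 : hh Ψ x t ≤ V := by
      rw [Real.dist_eq] at h2
      have := (abs_le.mp h2).2
      linarith
    have s1 : 0 < Real.sin ((t - x) / 2) :=
      Real.sin_pos_of_pos_of_lt_pi (by linarith) (by linarith)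
    have s2 : 0 < Real.sin ((Ψ t - Ψ x) / 2) := by
      have e1 := hmono hxt
      have e2 := hmono htx
      rw [hper] at e2
      exact Real.sin_pos_of_pos_of_lt_pi (by linarith) (by linarith)
    unfold hh at h4
    rw [Real.log_le_iff_le_exp (div_pos (abs_pos.mpr s2.ne') (abs_pos.mpr s1.ne')),
      div_le_iff₀ (abs_pos.mpr s1.ne')] at h4
    exact h4
  have key2 : ∀ x t : ℝ, x < t → t < x + 2 * π →
      ‖(ψ (Circle.exp t) : ℂ) - ψ (Circle.exp x)‖ ≤ Real.exp V *
        ‖(Circle.exp t : ℂ) - Circle.exp x‖ := by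
    intro x t h1 h2
    rw [hlift, hlift, bilip_chord, bilip_chord]
    have := key x t h1 h2
    linarith
  intro a b
  obtain ⟨ta, ha1, ha2, ha⟩ : ∃ t : ℝ, -π < t ∧ t ≤ π ∧ Circle.exp t = a :=
    ⟨arg a, Complex.neg_pi_lt_arg _, Complex.arg_le_pi _, Circle.exp_arg a⟩
  obtain ⟨tb, hb1, hb2, hb⟩ : ∃ t : ℝ, -π < t ∧ t ≤ π ∧ Circle.exp t = b :=
    ⟨arg b, Complex.neg_pi_lt_arg _, Complex.arg_le_pi _, Circle.exp_arg b⟩
  rw [← ha, ← hb]
  rcases lt_trichotomy ta tb with h | h | h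
  · rw [norm_sub_rev, norm_sub_rev (Circle.exp ta : ℂ)]
    exact key2 ta tb h (by linarith)
  · rw [h]; simp
  · exact key2 tb ta h (by linarith)

lemma inv_lift (Ψ : ℝ → ℝ) (ψ : Circle ≃ₜ Circle) (hl : Lift Ψ ψ) (V : ℝ) (hV : BVcond Ψ V) :
    ∃ Φ : ℝ → ℝ, Lift Φ ψ.symm ∧ BVcond Φ V := by
  obtain ⟨hc, hm, hp, he⟩ := hl
  have hpn : ∀ n : ℕ, Ψ (2 * π * n) = Ψ 0 + 2 * π * n := by
    intro n
    induction n with
    | zero => simp
    | succ n ih =>
      have := hp (2 * π * n)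
      push_cast
      rw [show 2 * π * ((n : ℝ) + 1) = 2 * π * n + 2 * π by ring, this, ih]
      ring
  have hmn : ∀ n : ℕ, Ψ (-(2 * π * n)) = Ψ 0 - 2 * π * n := by
    intro n
    induction n with
    | zero => simp
    | succ n ih =>
      have := hp (-(2 * π * ((n : ℝ) + 1)))
      rw [show -(2 * π * ((n : ℝ) + 1)) + 2 * π = -(2 * π * n) by ring, ih] at this
      push_cast
      linarith
  have hsurj : Function.Surjective Ψ := by
    apply hc.surjective
    · apply hm.monotone.tendsto_atTop_atTop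
      intro b
      obtain ⟨n, hn⟩ := exists_nat_ge ((b - Ψ 0) / (2 * π))
      refine ⟨2 * π * n, ?_⟩
      rw [hpn n]
      rw [div_le_iff₀ (by positivity)] at hn
      linarith
    · apply hm.monotone.tendsto_atBot_atBot
      intro b
      obtain ⟨n, hn⟩ := exists_nat_ge ((Ψ 0 - b) / (2 * π))
      refine ⟨-(2 * π * n), ?_⟩
      rw [hmn n]
      rw [div_le_iff₀ (by positivity)] at hn
      linarith
  let e : ℝ ≃o ℝ := hm.orderIsoOfSurjective Ψ hsurj
  have hee : ∀ t, e t = Ψ t := fun t => rfl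
  have h1 : ∀ t, Ψ (e.symm t) = t := fun t => e.apply_symm_apply t
  have h2 : ∀ t, e.symm (Ψ t) = t := fun t => e.symm_apply_apply t
  have hper : ∀ t, e.symm (t + 2 * π) = e.symm t + 2 * π := by
    intro t
    apply hm.injective
    rw [h1, hp, h1]
  refine ⟨e.symm, ⟨e.symm.continuous, e.symm.strictMono, hper, ?_⟩, ?_⟩
  · intro t
    rw [Homeomorph.symm_apply_eq, he, h1]
  · intro y
    have hfun : hh e.symm y = (fun s => - s) ∘ ((hh Ψ (e.symm y)) ∘ e.symm) := by
      funext s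
      simp only [hh, Function.comp_apply, h1]
      rw [← Real.log_inv, inv_div]
    rw [hfun]
    have hlip : LipschitzWith 1 (fun s : ℝ => - s) := by
      apply LipschitzWith.of_dist_le_mul
      intro a b
      rw [Real.dist_eq, Real.dist_eq, NNReal.coe_one, one_mul, show -a - -b = -(a - b) by ring, abs_neg]
    have h3 := (hlip.lipschitzOnWith (s := Set.univ)).comp_eVariationOn_le
      (g := (hh Ψ (e.symm y)) ∘ e.symm) (s := Ioo y (y + 2 * π)) (Set.mapsTo_univ _ _)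
    have h4 : eVariationOn ((hh Ψ (e.symm y)) ∘ e.symm) (Ioo y (y + 2 * π)) ≤
        eVariationOn (hh Ψ (e.symm y)) (Ioo (e.symm y) (e.symm y + 2 * π)) := by
      apply eVariationOn.comp_le_of_monotoneOn
      · exact e.symm.monotone.monotoneOn _
      · intro s hs
        refine ⟨e.symm.strictMono hs.1, ?_⟩
        rw [← hper]
        exact e.symm.strictMono hs.2
    have h5 := hV (e.symm y)
    calc _ ≤ ((1 : NNReal) : ENNReal) * eVariationOn ((hh Ψ (e.symm y)) ∘ e.symm) (Ioo y (y + 2 * π)) := h3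
      _ = eVariationOn ((hh Ψ (e.symm y)) ∘ e.symm) (Ioo y (y + 2 * π)) := by simp
      _ ≤ _ := h4
      _ ≤ _ := h5

lemma ctrl (Ψ : ℝ → ℝ) (ψ : Circle ≃ₜ Circle) (hl : Lift Ψ ψ) (V : ℝ) (hV0 : 0 ≤ V) (hV : BVcond Ψ V) :
    ∃ C : ℝ, 0 ≤ C ∧ Ctrl ψ C := by
  obtain ⟨L, hL0, hL⟩ := bilip Ψ ψ hl V hV0 hV
  refine ⟨3 + V, by linarith, ?_⟩
  intro F K M hFc hFd hFK hFM
  have hM0 : 0 ≤ M := (norm_nonneg _).trans (hFM 0 (by simp))
  have hcirc : ∀ z : Circle, (z : ℂ) ∈ closedBall (0:ℂ) 1 := by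
    intro z
    simp [Circle.norm_coe]
  obtain ⟨K', hK'⟩ : ∃ K' : ℝ, K' = max K 0 := ⟨_, rfl⟩
  have hK'0 : 0 ≤ K' := by rw [hK']; exact le_max_right _ _
  have hFK' : ∀ a b : Circle, ‖F a - F b‖ ≤ K' * ‖(a : ℂ) - b‖ := fun a b =>
    (hFK a b).trans (mul_le_mul_of_nonneg_right (by rw [hK']; exact le_max_left _ _) (norm_nonneg _))
  have hre : ∀ a b : Circle, |(F a).re - (F b).re| ≤ ‖F a - F b‖ := by
    intro a b
    have := Complex.abs_re_le_norm (F a - F b)
    simpa using this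
  have hU : ∀ a b : Circle, |(F a).re - (F b).re| ≤ (K' * max L 1) * ‖(a : ℂ) - b‖ := by
    intro a b
    refine ((hre a b).trans (hFK' a b)).trans (mul_le_mul_of_nonneg_right ?_ (norm_nonneg _))
    have : K' * 1 ≤ K' * max L 1 := mul_le_mul_of_nonneg_left (le_max_right _ _) hK'0
    linarith
  have hUψ : ∀ a b : Circle, |(F (ψ a)).re - (F (ψ b)).re| ≤ (K' * max L 1) * ‖(a : ℂ) - b‖ := by
    intro a b
    refine ((hre (ψ a) (ψ b)).trans (hFK' (ψ a) (ψ b))).trans ?_
    calc K' * ‖((ψ a : Circle) : ℂ) - (ψ b : Circle)‖ ≤ K' * (L * ‖(a : ℂ) - b‖) :=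
          mul_le_mul_of_nonneg_left (hL a b) hK'0
      _ ≤ K' * (max L 1 * ‖(a : ℂ) - b‖) :=
          mul_le_mul_of_nonneg_left
            (mul_le_mul_of_nonneg_right (le_max_left _ _) (norm_nonneg _)) hK'0
      _ = (K' * max L 1) * ‖(a : ℂ) - b‖ := by ring
  have hUM : ∀ a : Circle, |(F a).re| ≤ M := fun a =>
    (Complex.abs_re_le_norm _).trans (hFM a (hcirc a))
  obtain ⟨G, hGc, hGd, hGb, hG0⟩ := herglotz_lip (fun a => (F (ψ a)).re) _ hUψ
  obtain ⟨G1, hG1c, hG1d, hG1b, hG10⟩ := herglotz_lip (fun a => (F a).re) _ hU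
  have hH := uniq (fun z => G1 z - F z + I * ((F 0).im : ℂ))
    ((hG1c.sub hFc).add continuousOn_const) ((hG1d.sub hFd).add (differentiableOn_const _))
    (by
      intro z
      have := (hG1b z).1
      simp [this])
    (by simp [hG10])
  have h2 : ∀ z : Circle, |conjI (fun a => (F a).re) z| ≤ 2 * M := by
    intro z
    have h := hH z (hcirc z)
    have h3 := congrArg Complex.im h
    have h4 := (hG1b z).2
    have h5 : conjI (fun a => (F a).re) z = (F z).im - (F 0).im := by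
      simp [h4] at h3
      linarith
    rw [h5]
    have h6 := (Complex.abs_im_le_norm (F z)).trans (hFM z (hcirc z))
    have h7 := (Complex.abs_im_le_norm (F 0)).trans (hFM 0 (by simp))
    have h8 := abs_sub (F z).im (F 0).im
    linarith
  have h9 : ∀ z : Circle, |conjI (fun a => (F (ψ a)).re) z| ≤ 2 * M + V * M := by
    intro z
    have h := key_est Ψ ψ hl V hV0 hV (fun a => (F a).re) (K' * max L 1) M hU hUψ hUM z
    have h' := h2 (ψ z)
    have e : conjI (fun a => (F (ψ a)).re) z =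
      (conjI (fun a => (F (ψ a)).re) z - conjI (fun a => (F a).re) (ψ z)) +
        conjI (fun a => (F a).re) (ψ z) := by ring
    rw [e]
    have h'' := abs_add_le (conjI (fun a => (F (ψ a)).re) z - conjI (fun a => (F a).re) (ψ z))
      (conjI (fun a => (F a).re) (ψ z))
    linarith
  refine ⟨G, hGc, hGd, fun z => (hGb z).1, hG0, ?_⟩
  have hbd : ∀ z ∈ frontier (ball (0:ℂ) 1), ‖G z‖ ≤ (3 + V) * M := by
    intro z hz
    rw [frontier_ball (0:ℂ) one_ne_zero] at hz
    have hz' : z ∈ Submonoid.unitSphere ℂ := hz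
    obtain ⟨w, hw⟩ : ∃ w : Circle, (w : ℂ) = z := ⟨⟨z, hz'⟩, rfl⟩
    rw [← hw]
    have h10 := Complex.norm_le_abs_re_add_abs_im (G w)
    have h11 := (hGb w).1
    have h12 := (hGb w).2
    rw [h11, h12] at h10
    have h13 := hUM (ψ w)
    have h14 := h9 w
    linarith
  intro z hz
  refine Complex.norm_le_of_forall_mem_frontier_norm_le isBounded_ball ⟨hGd, ?_⟩ hbd ?_
  · rwa [closure_ball (0:ℂ) one_ne_zero]
  · rwa [closure_ball (0:ℂ) one_ne_zero]

lemma dilate (F : ℂ → ℂ) (hc : ContinuousOn F (closedBall 0 1)) (hd : DifferentiableOn ℂ F (ball 0 1)) :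
    (∀ r : ℝ, 0 ≤ r → r < 1 → ∃ K : ℝ, ∀ a b : Circle, ‖F (r * a) - F (r * b)‖ ≤ K * ‖(a : ℂ) - b‖) ∧
    (∀ ε : ℝ, 0 < ε → ∃ r0 : ℝ, r0 < 1 ∧ ∀ r : ℝ, 0 ≤ r → r0 ≤ r → r < 1 →
      ∀ z ∈ closedBall (0 : ℂ) 1, ‖F (r * z) - F z‖ ≤ ε) := by
  constructor
  · intro r hr0 hr1
    have hsub : closedBall (0 : ℂ) r ⊆ ball 0 1 := closedBall_subset_ball hr1
    have hdc : ContinuousOn (deriv F) (closedBall (0 : ℂ) r) :=
      ((hd.deriv isOpen_ball).continuousOn).mono hsub
    obtain ⟨C, hC⟩ := (isCompact_closedBall (0 : ℂ) r).exists_bound_of_continuousOn hdc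
    refine ⟨C * r, fun a b => ?_⟩
    have hmem : ∀ a : Circle, ((r : ℂ) * (a : ℂ)) ∈ closedBall (0 : ℂ) r := by
      intro a
      rw [mem_closedBall_zero_iff, norm_mul, Circle.norm_coe, mul_one, Complex.norm_real,
        Real.norm_eq_abs, abs_of_nonneg hr0]
    have h := Convex.norm_image_sub_le_of_norm_deriv_le (𝕜 := ℂ) (f := F) (s := closedBall (0 : ℂ) r)
      (C := C) (x := (r : ℂ) * (b : ℂ)) (y := (r : ℂ) * (a : ℂ))
      (fun x hx => hd.differentiableAt (isOpen_ball.mem_nhds (hsub hx))) hC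
      (convex_closedBall _ _) (hmem b) (hmem a)
    refine h.trans (le_of_eq ?_)
    rw [← mul_sub, norm_mul, Complex.norm_real, Real.norm_eq_abs, abs_of_nonneg hr0]
    ring
  · intro ε hε
    have hu := (isCompact_closedBall (0 : ℂ) 1).uniformContinuousOn_of_continuous hc
    rw [Metric.uniformContinuousOn_iff] at hu
    obtain ⟨δ, hδ, h⟩ := hu ε hε
    refine ⟨1 - δ / 2, by linarith, ?_⟩
    intro r hr0 hrr hr1 z hz
    rw [mem_closedBall_zero_iff] at hz
    have h1 : ((r : ℂ) * z) ∈ closedBall (0 : ℂ) 1 := by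
      rw [mem_closedBall_zero_iff, norm_mul, Complex.norm_real, Real.norm_eq_abs, abs_of_nonneg hr0]
      nlinarith [norm_nonneg z]
    have h2 : dist ((r : ℂ) * z) z < δ := by
      rw [dist_eq_norm]
      have : (r : ℂ) * z - z = ((r - 1 : ℝ) : ℂ) * z := by push_cast; ring
      rw [this, norm_mul, Complex.norm_real, Real.norm_eq_abs, abs_of_nonpos (by linarith)]
      nlinarith [norm_nonneg z]
    have h3 := h _ h1 z (by rw [mem_closedBall_zero_iff]; exact hz) h2
    rw [dist_eq_norm] at h3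
    exact h3.le

lemma density (ψ : Circle ≃ₜ Circle) (C : ℝ) (hC : 0 ≤ C) (h : Ctrl ψ C) (F : ℂ → ℂ)
    (hc : ContinuousOn F (closedBall 0 1)) (hd : DifferentiableOn ℂ F (ball 0 1)) :
    ∃ G : ℂ → ℂ, ContinuousOn G (closedBall 0 1) ∧ DifferentiableOn ℂ G (ball 0 1) ∧
      ∀ z : Circle, (G z).re = (F (ψ z)).re := by
  classical
  obtain ⟨hd1, hd2⟩ := dilate F hc hd
  set r : ℕ → ℝ := fun n => 1 - 1 / ((n : ℝ) + 2) with hr
  have hr0 : ∀ n, 0 ≤ r n := by
    intro n
    have h2 : (0 : ℝ) < (n : ℝ) + 2 := by positivity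
    have : 1 / ((n : ℝ) + 2) ≤ 1 := by
      rw [div_le_one h2]
      have : (0 : ℝ) ≤ n := Nat.cast_nonneg n
      linarith
    simp only [hr]
    linarith
  have hr1 : ∀ n, r n < 1 := by
    intro n
    have : (0 : ℝ) < 1 / ((n : ℝ) + 2) := by positivity
    simp only [hr]
    linarith
  have hrt : ∀ r0 : ℝ, r0 < 1 → ∃ N : ℕ, ∀ n, N ≤ n → r0 ≤ r n := by
    intro r0 h0
    obtain ⟨N, hN⟩ := exists_nat_gt (1 / (1 - r0))
    refine ⟨N, fun n hn => ?_⟩
    have h1 : 0 < 1 - r0 := by linarith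
    have h2 : (0 : ℝ) < (n : ℝ) + 2 := by positivity
    have h3 : (N : ℝ) ≤ n := by exact_mod_cast hn
    have h4 : 1 / ((n : ℝ) + 2) ≤ 1 - r0 := by
      rw [div_le_iff₀ h2]
      rw [div_lt_iff₀ h1] at hN
      nlinarith
    simp only [hr]
    linarith
  have hsup : ∀ ε : ℝ, 0 < ε → ∃ N : ℕ, ∀ n, N ≤ n → ∀ z ∈ closedBall (0 : ℂ) 1,
      ‖F ((r n : ℂ) * z) - F z‖ ≤ ε := by
    intro ε hε
    obtain ⟨r0, h0, h1⟩ := hd2 ε hε
    obtain ⟨N, hN⟩ := hrt r0 h0
    exact ⟨N, fun n hn z hz => h1 (r n) (hr0 n) (hN n hn) (hr1 n) z hz⟩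
  obtain ⟨M, hM⟩ := (isCompact_closedBall (0 : ℂ) 1).exists_bound_of_continuousOn hc
  have hmaps : ∀ n, ∀ z ∈ closedBall (0 : ℂ) 1, (r n : ℂ) * z ∈ ball (0 : ℂ) 1 := by
    intro n z hz
    rw [mem_closedBall_zero_iff] at hz
    rw [mem_ball_zero_iff, norm_mul, Complex.norm_real, Real.norm_eq_abs, abs_of_nonneg (hr0 n)]
    calc r n * ‖z‖ ≤ r n * 1 := mul_le_mul_of_nonneg_left hz (hr0 n)
      _ < 1 := by rw [mul_one]; exact hr1 n
  have hFc : ∀ n, ContinuousOn (fun z => F ((r n : ℂ) * z)) (closedBall 0 1) := by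
    intro n
    exact hc.comp (continuousOn_const.mul continuousOn_id)
      (fun z hz => ball_subset_closedBall (hmaps n z hz))
  have hFd : ∀ n, DifferentiableOn ℂ (fun z => F ((r n : ℂ) * z)) (ball 0 1) := by
    intro n
    exact hd.comp ((differentiableOn_const _).mul differentiableOn_id)
      (fun z hz => hmaps n z (ball_subset_closedBall hz))
  have hFM : ∀ n, ∀ z ∈ closedBall (0 : ℂ) 1, ‖F ((r n : ℂ) * z)‖ ≤ M := by
    intro n z hz
    exact hM _ (ball_subset_closedBall (hmaps n z hz))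
  have hG : ∀ n, ∃ G : ℂ → ℂ, ContinuousOn G (closedBall 0 1) ∧ DifferentiableOn ℂ G (ball 0 1) ∧
      (∀ z : Circle, (G z).re = (F ((r n : ℂ) * ψ z)).re) ∧ (G 0).im = 0 := by
    intro n
    obtain ⟨K, hK⟩ := hd1 (r n) (hr0 n) (hr1 n)
    obtain ⟨G, h1, h2, h3, h4, -⟩ := h (fun z => F ((r n : ℂ) * z)) K M (hFc n) (hFd n) hK (hFM n)
    exact ⟨G, h1, h2, h3, h4⟩
  choose Gs hGc hGd hGre hG0 using hG
  have hcau : ∀ ε : ℝ, 0 < ε → ∃ N : ℕ, ∀ m, N ≤ m → ∀ n, N ≤ n → ∀ z ∈ closedBall (0 : ℂ) 1,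
      ‖Gs m z - Gs n z‖ ≤ C * (2 * ε) := by
    intro ε hε
    obtain ⟨N, hN⟩ := hsup ε hε
    refine ⟨N, fun m hm n hn z hz => ?_⟩
    obtain ⟨Km, hKm⟩ := hd1 (r m) (hr0 m) (hr1 m)
    obtain ⟨Kn, hKn⟩ := hd1 (r n) (hr0 n) (hr1 n)
    obtain ⟨G', g1, g2, g3, g4, g5⟩ := h (fun z => F ((r m : ℂ) * z) - F ((r n : ℂ) * z)) (Km + Kn)
      (2 * ε) ((hFc m).sub (hFc n)) ((hFd m).sub (hFd n))
      (by
        intro a b
        calc ‖(F ((r m : ℂ) * a) - F ((r n : ℂ) * a)) - (F ((r m : ℂ) * b) - F ((r n : ℂ) * b))‖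
            = ‖(F ((r m : ℂ) * a) - F ((r m : ℂ) * b)) - (F ((r n : ℂ) * a) - F ((r n : ℂ) * b))‖ := by
              congr 1; ring
          _ ≤ ‖F ((r m : ℂ) * a) - F ((r m : ℂ) * b)‖ + ‖F ((r n : ℂ) * a) - F ((r n : ℂ) * b)‖ :=
              norm_sub_le _ _
          _ ≤ Km * ‖(a : ℂ) - b‖ + Kn * ‖(a : ℂ) - b‖ := add_le_add (hKm a b) (hKn a b)
          _ = (Km + Kn) * ‖(a : ℂ) - b‖ := by ring)
      (by
        intro w hw
        calc ‖F ((r m : ℂ) * w) - F ((r n : ℂ) * w)‖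
            = ‖(F ((r m : ℂ) * w) - F w) - (F ((r n : ℂ) * w) - F w)‖ := by congr 1; ring
          _ ≤ ‖F ((r m : ℂ) * w) - F w‖ + ‖F ((r n : ℂ) * w) - F w‖ := norm_sub_le _ _
          _ ≤ ε + ε := add_le_add (hN m hm w hw) (hN n hn w hw)
          _ = 2 * ε := by ring)
    have hu := uniq (fun z => G' z - (Gs m z - Gs n z)) (g1.sub ((hGc m).sub (hGc n)))
      (g2.sub ((hGd m).sub (hGd n)))
      (by
        intro w
        simp only [Complex.sub_re, g3, hGre]
        ring)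
      (by
        simp only [Complex.sub_im, g4, hG0]
        ring) z hz
    have he : Gs m z - Gs n z = G' z := (sub_eq_zero.1 hu).symm
    rw [he]
    exact g5 z hz
  have hUC : UniformCauchySeqOn Gs atTop (closedBall (0 : ℂ) 1) := by
    rw [Metric.uniformCauchySeqOn_iff]
    intro ε hε
    obtain ⟨N, hN⟩ := hcau (ε / (2 * (C + 1) * 2)) (by positivity)
    refine ⟨N, fun m hm n hn z hz => ?_⟩
    rw [dist_eq_norm]
    refine (hN m hm n hn z hz).trans_lt ?_
    have hC1 : 0 < C + 1 := by linarith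
    have : C * (2 * (ε / (2 * (C + 1) * 2))) = (C / (C + 1)) * (ε / 2) := by
      field_simp
    rw [this]
    have h1 : C / (C + 1) ≤ 1 := by rw [div_le_one hC1]; linarith
    have h2 : (C / (C + 1)) * (ε / 2) ≤ 1 * (ε / 2) :=
      mul_le_mul_of_nonneg_right h1 (by positivity)
    linarith
  set G : ℂ → ℂ := fun z => limUnder atTop (fun n => Gs n z) with hGdef
  have hlim : ∀ z ∈ closedBall (0 : ℂ) 1, Tendsto (fun n => Gs n z) atTop (𝓝 (G z)) := by
    intro z hz
    exact (hUC.cauchySeq hz).tendsto_limUnder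
  have hTU : TendstoUniformlyOn Gs G atTop (closedBall (0 : ℂ) 1) :=
    hUC.tendstoUniformlyOn_of_tendsto hlim
  refine ⟨G, hTU.continuousOn (Frequently.of_forall hGc), ?_, ?_⟩
  · exact ((hTU.mono ball_subset_closedBall).tendstoLocallyUniformlyOn).differentiableOn
      (Eventually.of_forall hGd) isOpen_ball
  · intro z
    have hz : (z : ℂ) ∈ closedBall (0 : ℂ) 1 := by
      rw [mem_closedBall_zero_iff, Circle.norm_coe]
    have hψz : ((ψ z : Circle) : ℂ) ∈ closedBall (0 : ℂ) 1 := by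
      rw [mem_closedBall_zero_iff, Circle.norm_coe]
    have t1 : Tendsto (fun n => (Gs n z).re) atTop (𝓝 (G z).re) :=
      (Complex.continuous_re.tendsto _).comp (hlim z hz)
    have t2 : Tendsto (fun n => F ((r n : ℂ) * (ψ z : Circle))) atTop (𝓝 (F (ψ z : Circle))) := by
      rw [Metric.tendsto_atTop]
      intro ε hε
      obtain ⟨N, hN⟩ := hsup (ε / 2) (by positivity)
      refine ⟨N, fun n hn => ?_⟩
      rw [dist_eq_norm]
      exact (hN n hn _ hψz).trans_lt (by linarith)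
    have t3 : Tendsto (fun n => (Gs n z).re) atTop (𝓝 (F (ψ z : Circle)).re) := by
      simp only [hGre]
      exact (Complex.continuous_re.tendsto _).comp t2
    exact tendsto_nhds_unique t1 t3

theorem holder_core_cot (δ : ℝ) (hδ : 0 < δ) : ∃ M : ℝ, 0 ≤ M ∧ ∀ a : ℝ, 0 < a → a ≤ 2 * π - δ →
    |Real.cos (a / 2) / (2 * Real.sin (a / 2)) - 1 / a| ≤ M := by
  have hπ := Real.pi_pos
  set m : ℝ := min (2 / π) (δ / π ^ 2) with hm
  have hm0 : 0 < m := by rw [hm]; positivity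
  refine ⟨1 / m, by positivity, ?_⟩
  intro a ha ha2
  set y : ℝ := a / 2 with hy
  have hay : a = 2 * y := by rw [hy]; ring
  have hy0 : 0 < y := by rw [hy]; positivity
  have hy1 : y ≤ π - δ / 2 := by rw [hy]; linarith
  have hyπ : y < π := by linarith
  have hsin : m * y ≤ Real.sin y := by
    by_cases h : y ≤ π / 2
    · have h2 := Real.mul_le_sin hy0.le h
      have h3 : m ≤ 2 / π := min_le_left _ _
      nlinarith
    · push Not at h
      have h2 := Real.mul_le_sin (x := π - y) (by linarith) (by linarith)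
      rw [Real.sin_pi_sub] at h2
      have h3 : m ≤ δ / π ^ 2 := min_le_right _ _
      have h4 : δ / 2 ≤ π - y := by linarith
      have h5 : 2 / π * (δ / 2) ≤ 2 / π * (π - y) := by
        apply mul_le_mul_of_nonneg_left h4; positivity
      have h6 : m * y ≤ δ / π ^ 2 * π := by
        apply mul_le_mul h3 hyπ.le hy0.le; positivity
      have h7 : δ / π ^ 2 * π = 2 / π * (δ / 2) := by field_simp
      linarith
  have hs0 : 0 < Real.sin y := lt_of_lt_of_le (by positivity) hsin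
  have hnum : |y * Real.cos y - Real.sin y| ≤ 2 * y ^ 2 := by
    have h1 : |y * (Real.cos y - 1)| ≤ y ^ 2 := by
      rw [abs_mul, abs_of_pos hy0, sq]
      apply mul_le_mul_of_nonneg_left _ hy0.le
      rw [abs_sub_comm, abs_of_nonneg (by linarith [Real.cos_le_one y])]
      by_cases hy2 : y ≤ 2
      · have := Real.one_sub_sq_div_two_le_cos (x := y)
        nlinarith
      · push Not at hy2
        linarith [Real.neg_one_le_cos y]
    have h2 : |y - Real.sin y| ≤ y ^ 2 := by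
      rw [abs_of_nonneg (by linarith [Real.sin_le hy0.le])]
      by_cases hy2 : y ≤ 1
      · have := Real.sin_gt_sub_cube hy0
        nlinarith [mul_pos hy0 hy0]
      · push Not at hy2
        nlinarith
    calc |y * Real.cos y - Real.sin y| = |y * (Real.cos y - 1) + (y - Real.sin y)| := by ring_nf
      _ ≤ |y * (Real.cos y - 1)| + |y - Real.sin y| := abs_add_le _ _
      _ ≤ 2 * y ^ 2 := by linarith
  have e1 : Real.cos y / (2 * Real.sin y) - 1 / a = (y * Real.cos y - Real.sin y) / (2 * y * Real.sin y) := by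
    rw [hay]
    field_simp
  rw [e1, abs_div, abs_of_pos (by positivity : 0 < 2 * y * Real.sin y)]
  rw [div_le_div_iff₀ (by positivity) hm0]
  calc |y * Real.cos y - Real.sin y| * m ≤ 2 * y ^ 2 * m := by
        apply mul_le_mul_of_nonneg_right hnum hm0.le
    _ = 2 * y * (m * y) := by ring
    _ ≤ 2 * y * Real.sin y := by
        apply mul_le_mul_of_nonneg_left hsin; positivity
    _ = 1 * (2 * y * Real.sin y) := by ring

theorem holder_core_est (c C0 K ε M p d s u : ℝ) (hc : 0 < c) (hε : 0 < ε) (hε1 : ε ≤ 1)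
    (hM : 0 ≤ M) (hp0 : 0 < p) (hpC : p ≤ C0) (hd : c ≤ d)
    (hs0 : 0 < s) (hsπ : s ≤ π) (hu : u = d * s) (hpd : |p - d| ≤ K * s ^ ε)
    (h1 : |Real.cos (u / 2) / (2 * Real.sin (u / 2)) - 1 / u| ≤ M)
    (h2 : |Real.cos (s / 2) / (2 * Real.sin (s / 2)) - 1 / s| ≤ M) :
    |p * (Real.cos (u / 2) / (2 * Real.sin (u / 2))) - Real.cos (s / 2) / (2 * Real.sin (s / 2))| ≤
      (K / c + π * (C0 * M + M)) * s ^ (ε - 1) := by
  have hπ := Real.pi_pos
  set g1 := Real.cos (u / 2) / (2 * Real.sin (u / 2))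
  set g2 := Real.cos (s / 2) / (2 * Real.sin (s / 2))
  have hd0 : 0 < d := lt_of_lt_of_le hc hd
  have hu0 : 0 < u := by rw [hu]; positivity
  have hC0 : 0 < C0 := lt_of_lt_of_le hp0 hpC
  have hone : 1 ≤ π * s ^ (ε - 1) := by
    have h3 : π ^ (ε - 1) ≤ s ^ (ε - 1) := Real.rpow_le_rpow_of_nonpos hs0 hsπ (by linarith)
    have h4 : π ^ (-1 : ℝ) ≤ π ^ (ε - 1) := by
      apply Real.rpow_le_rpow_of_exponent_le
      · linarith [Real.pi_gt_three]
      · linarith
    have h5 : π * π ^ (-1 : ℝ) = 1 := by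
      rw [Real.rpow_neg_one]; field_simp
    calc (1 : ℝ) = π * π ^ (-1 : ℝ) := h5.symm
      _ ≤ π * s ^ (ε - 1) := by
        apply mul_le_mul_of_nonneg_left (h4.trans h3) hπ.le
  have hmain : |p / u - 1 / s| ≤ K / c * s ^ (ε - 1) := by
    have e1 : p / u - 1 / s = (p - d) / (d * s) := by
      rw [hu]; field_simp
    rw [e1, abs_div, abs_of_pos (by positivity : 0 < d * s)]
    rw [div_le_iff₀ (by positivity)]
    have hsε : s ^ (ε - 1) * s = s ^ ε := by
      rw [Real.rpow_sub_one hs0.ne']; field_simp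
    have hK : 0 ≤ K := by
      have h6 : 0 ≤ K * s ^ ε := (abs_nonneg _).trans hpd
      have h7 : 0 < s ^ ε := Real.rpow_pos_of_pos hs0 _
      by_contra hneg
      push Not at hneg
      nlinarith
    calc |p - d| ≤ K * s ^ ε := hpd
      _ = K / c * s ^ (ε - 1) * (c * s) := by
        rw [← hsε]; field_simp
      _ ≤ K / c * s ^ (ε - 1) * (d * s) := by
        apply mul_le_mul_of_nonneg_left
        · exact mul_le_mul_of_nonneg_right hd hs0.le
        · have : 0 < s ^ (ε - 1) := Real.rpow_pos_of_pos hs0 _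
          positivity
  calc |p * g1 - g2| = |p * (g1 - 1 / u) + (p / u - 1 / s) - (g2 - 1 / s)| := by
        congr 1; field_simp; ring
    _ ≤ |p * (g1 - 1 / u) + (p / u - 1 / s)| + |g2 - 1 / s| := abs_sub _ _
    _ ≤ |p * (g1 - 1 / u)| + |p / u - 1 / s| + |g2 - 1 / s| := by
        have := abs_add_le (p * (g1 - 1 / u)) (p / u - 1 / s)
        linarith
    _ ≤ C0 * M + K / c * s ^ (ε - 1) + M := by
        have h8 : |p * (g1 - 1 / u)| ≤ C0 * M := by
          rw [abs_mul, abs_of_pos hp0]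
          exact mul_le_mul hpC h1 (abs_nonneg _) hC0.le
        linarith
    _ ≤ (K / c + π * (C0 * M + M)) * s ^ (ε - 1) := by
        have h9 : (C0 * M + M) * 1 ≤ (C0 * M + M) * (π * s ^ (ε - 1)) := by
          apply mul_le_mul_of_nonneg_left hone
          positivity
        nlinarith


lemma holder_core (Ψ : ℝ → ℝ) (h1 : ContDiff ℝ 1 Ψ) (hp : ∀ t, Ψ (t + 2 * π) = Ψ t + 2 * π)
    (hpos : ∀ t, 0 < deriv Ψ t) (ε K : ℝ) (hε : 0 < ε) (hε1 : ε ≤ 1)
    (hH : ∀ s t, |deriv Ψ s - deriv Ψ t| ≤ K * |s - t| ^ ε) :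
    ∃ C : ℝ, 0 ≤ C ∧ ∀ x t : ℝ, t ∈ Ioo x (x + 2 * π) →
      |deriv Ψ t * (Real.cos ((Ψ t - Ψ x) / 2) / (2 * Real.sin ((Ψ t - Ψ x) / 2)))
        - Real.cos ((t - x) / 2) / (2 * Real.sin ((t - x) / 2))| ≤
        C * ((t - x) ^ (ε - 1) + (x + 2 * π - t) ^ (ε - 1)) := by
  have hπ := Real.pi_pos
  have hcont : Continuous (deriv Ψ) := h1.continuous_deriv le_rfl
  have hdiff : Differentiable ℝ Ψ := h1.differentiable (by norm_num)
  have hper : Function.Periodic (deriv Ψ) (2 * π) := by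
    intro t
    have h2 : (fun t => Ψ (t + 2 * π)) = fun t => Ψ t + 2 * π := funext hp
    have h3 : deriv (fun t => Ψ (t + 2 * π)) t = deriv Ψ (t + 2 * π) :=
      deriv_comp_add_const Ψ (2 * π) t
    rw [← h3, h2, deriv_add_const]
  have hne : (Icc (0 : ℝ) (2 * π)).Nonempty := ⟨0, by constructor <;> linarith⟩
  obtain ⟨t0, ht0, hmin⟩ := isCompact_Icc.exists_isMinOn hne hcont.continuousOn
  obtain ⟨t1, ht1, hmax⟩ := isCompact_Icc.exists_isMaxOn hne hcont.continuousOn
  set c := deriv Ψ t0 with hc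
  set C0 := deriv Ψ t1 with hC0
  have hc0 : 0 < c := hpos t0
  have hcle : ∀ t, c ≤ deriv Ψ t := by
    intro t
    obtain ⟨y, hy, he⟩ := hper.exists_mem_Ico₀ (by positivity) t
    rw [he]
    exact hmin ⟨hy.1, hy.2.le⟩
  have hCle : ∀ t, deriv Ψ t ≤ C0 := by
    intro t
    obtain ⟨y, hy, he⟩ := hper.exists_mem_Ico₀ (by positivity) t
    rw [he]
    exact hmax ⟨hy.1, hy.2.le⟩
  have hK : 0 ≤ K := by
    have := (abs_nonneg _).trans (hH 0 1)
    simpa using this
  have hCpos : 0 < C0 := hpos t1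
  have hMVT : ∀ x t : ℝ, x < t → ∃ d, c ≤ d ∧ Ψ t - Ψ x = d * (t - x) ∧
      (∀ r, x ≤ r → r ≤ t → |deriv Ψ r - d| ≤ K * (t - x) ^ ε) := by
    intro x t hxt
    obtain ⟨ξ, hξ, he⟩ := exists_deriv_eq_slope Ψ hxt hdiff.continuous.continuousOn
      (fun y _ => (hdiff y).differentiableWithinAt)
    refine ⟨deriv Ψ ξ, hcle ξ, ?_, ?_⟩
    · rw [he]; field_simp [(sub_pos.2 hxt).ne']
    · intro r hr1 hr2
      refine (hH r ξ).trans ?_
      apply mul_le_mul_of_nonneg_left _ hK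
      apply Real.rpow_le_rpow (abs_nonneg _) _ hε.le
      rw [abs_le]
      constructor <;> linarith [hξ.1, hξ.2]
  obtain ⟨M1, hM1, hM1'⟩ := holder_core_cot (c * π) (by positivity)
  obtain ⟨M2, hM2, hM2'⟩ := holder_core_cot π hπ
  set M := max M1 M2 with hM
  have hM0 : 0 ≤ M := hM1.trans (le_max_left _ _)
  refine ⟨K / c + π * (C0 * M + M), by positivity, ?_⟩
  intro x t ht
  have hs : 0 < t - x := by linarith [ht.1]
  have hs' : 0 < x + 2 * π - t := by linarith [ht.2]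
  have hCC : 0 ≤ K / c + π * (C0 * M + M) := by positivity
  have hr1 : 0 < (t - x) ^ (ε - 1) := Real.rpow_pos_of_pos hs _
  have hr2 : 0 < (x + 2 * π - t) ^ (ε - 1) := Real.rpow_pos_of_pos hs' _
  obtain ⟨d, hd1, hd2, hd3⟩ := hMVT x t ht.1
  obtain ⟨d', hd1', hd2', hd3'⟩ := hMVT t (x + 2 * π) ht.2
  rw [hp x] at hd2'
  by_cases hcase : t - x ≤ π
  · have hu0 : 0 < Ψ t - Ψ x := by
      rw [hd2]; exact mul_pos (lt_of_lt_of_le hc0 hd1) hs
    have hu1 : Ψ t - Ψ x ≤ 2 * π - c * π := by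
      have h5 : c * π ≤ d' * (x + 2 * π - t) := by
        apply mul_le_mul hd1' (by linarith) hπ.le (by linarith)
      linarith
    have h6 := holder_core_est c C0 K ε M (deriv Ψ t) d (t - x) (Ψ t - Ψ x) hc0 hε hε1 hM0
      (hpos t) (hCle t) hd1 hs hcase hd2 (hd3 t ht.1.le le_rfl)
      ((hM1' _ hu0 hu1).trans (le_max_left _ _))
      ((hM2' _ hs (by linarith)).trans (le_max_right _ _))
    refine h6.trans ?_
    apply mul_le_mul_of_nonneg_left _ hCC
    linarith
  · push Not at hcase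
    set s' := x + 2 * π - t with hs'def
    set u' := Ψ x + 2 * π - Ψ t with hu'def
    have hu0 : 0 < u' := by
      rw [hd2']; exact mul_pos (lt_of_lt_of_le hc0 hd1') hs'
    have hu1 : u' ≤ 2 * π - c * π := by
      have h5 : c * π ≤ d * (t - x) := by
        apply mul_le_mul hd1 hcase.le hπ.le (by linarith)
      rw [← hd2] at h5
      rw [hu'def]; linarith
    have h6 := holder_core_est c C0 K ε M (deriv Ψ t) d' s' u' hc0 hε hε1 hM0
      (hpos t) (hCle t) hd1' hs' (by rw [hs'def]; linarith) hd2' (hd3' t le_rfl ht.2.le)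
      ((hM1' _ hu0 hu1).trans (le_max_left _ _))
      ((hM2' _ hs' (by rw [hs'def]; linarith)).trans (le_max_right _ _))
    have flip : ∀ z : ℝ, Real.cos ((2 * π - z) / 2) / (2 * Real.sin ((2 * π - z) / 2)) =
        -(Real.cos (z / 2) / (2 * Real.sin (z / 2))) := by
      intro z
      have e1 : (2 * π - z) / 2 = π - z / 2 := by ring
      rw [e1, Real.cos_pi_sub, Real.sin_pi_sub, neg_div]
    have e2 : Ψ t - Ψ x = 2 * π - u' := by rw [hu'def]; ring
    have e3 : t - x = 2 * π - s' := by rw [hs'def]; ring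
    have e4 : |deriv Ψ t * (Real.cos ((Ψ t - Ψ x) / 2) / (2 * Real.sin ((Ψ t - Ψ x) / 2)))
        - Real.cos ((t - x) / 2) / (2 * Real.sin ((t - x) / 2))| =
        |deriv Ψ t * (Real.cos (u' / 2) / (2 * Real.sin (u' / 2)))
        - Real.cos (s' / 2) / (2 * Real.sin (s' / 2))| := by
      rw [e2, e3, flip, flip, ← abs_neg]
      congr 1
      ring
    rw [e4]
    refine h6.trans ?_
    apply mul_le_mul_of_nonneg_left _ hCC
    linarith

lemma bv_of_bound352 (g B g' B' : ℝ → ℝ) (a b : ℝ)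
    (hg : ∀ t ∈ Ioo a b, HasDerivAt g (g' t) t)
    (hB : ∀ t ∈ Ioo a b, HasDerivAt B (B' t) t)
    (hb : ∀ t ∈ Ioo a b, |g' t| ≤ B' t) :
    ∀ u ∈ Ioo a b, ∀ v ∈ Ioo a b, u ≤ v → |g v - g u| ≤ B v - B u := by
  have h1 : MonotoneOn (fun t => B t - g t) (Ioo a b) := by
    refine monotoneOn_of_deriv_nonneg (convex_Ioo a b) ?_ ?_ ?_
    · intro t ht
      exact ((hB t ht).sub (hg t ht)).continuousAt.continuousWithinAt
    · rw [interior_Ioo]
      intro t ht
      exact ((hB t ht).sub (hg t ht)).differentiableAt.differentiableWithinAt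
    · rw [interior_Ioo]
      intro t ht
      have : deriv (fun t => B t - g t) t = B' t - g' t := ((hB t ht).sub (hg t ht)).deriv
      rw [this]
      have := (abs_le.mp (hb t ht)).2
      linarith
  have h2 : MonotoneOn (fun t => B t + g t) (Ioo a b) := by
    refine monotoneOn_of_deriv_nonneg (convex_Ioo a b) ?_ ?_ ?_
    · intro t ht
      exact ((hB t ht).add (hg t ht)).continuousAt.continuousWithinAt
    · rw [interior_Ioo]
      intro t ht
      exact ((hB t ht).add (hg t ht)).differentiableAt.differentiableWithinAt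
    · rw [interior_Ioo]
      intro t ht
      have : deriv (fun t => B t + g t) t = B' t + g' t := ((hB t ht).add (hg t ht)).deriv
      rw [this]
      have := (abs_le.mp (hb t ht)).1
      linarith
  intro u hu v hv huv
  have e1 := h1 hu hv huv
  have e2 := h2 hu hv huv
  simp only at e1 e2
  rw [abs_le]
  constructor <;> linarith


lemma holder_bv (Ψ : ℝ → ℝ) (h1 : ContDiff ℝ 1 Ψ) (hp : ∀ t, Ψ (t + 2 * π) = Ψ t + 2 * π)
    (hpos : ∀ t, 0 < deriv Ψ t) (ε K : ℝ) (hε : 0 < ε) (hε1 : ε ≤ 1)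
    (hH : ∀ s t, |deriv Ψ s - deriv Ψ t| ≤ K * |s - t| ^ ε) : ∃ V : ℝ, 0 ≤ V ∧ BVcond Ψ V := by
  obtain ⟨C, hC0, hC⟩ := holder_core Ψ h1 hp hpos ε K hε hε1 hH
  have hmono : StrictMono Ψ := strictMono_of_deriv_pos hpos
  have hdiff : Differentiable ℝ Ψ := h1.differentiable (by norm_num)
  refine ⟨2 * C * (2 * π) ^ ε / ε, by positivity, fun x => ?_⟩
  -- the majorant
  set B : ℝ → ℝ := fun t => C * ((t - x) ^ ε - (x + 2 * π - t) ^ ε) / ε with hBdef
  set g : ℝ → ℝ := fun t => Real.log (Real.sin ((Ψ t - Ψ x) / 2)) - Real.log (Real.sin ((t - x) / 2))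
    with hgdef
  have hs1 : ∀ t ∈ Ioo x (x + 2 * π), 0 < Real.sin ((t - x) / 2) := by
    intro t ht
    apply Real.sin_pos_of_pos_of_lt_pi
    · have := ht.1
      linarith
    · have := ht.2
      linarith
  have hs2 : ∀ t ∈ Ioo x (x + 2 * π), 0 < Real.sin ((Ψ t - Ψ x) / 2) := by
    intro t ht
    have e1 := hmono ht.1
    have e2 := hmono ht.2
    rw [hp x] at e2
    apply Real.sin_pos_of_pos_of_lt_pi
    · linarith
    · linarith
  have hhg : ∀ t ∈ Ioo x (x + 2 * π), hh Ψ x t = g t := by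
    intro t ht
    have e1 := hs1 t ht
    have e2 := hs2 t ht
    simp only [hh, hgdef]
    rw [abs_of_pos e1, abs_of_pos e2, Real.log_div e2.ne' e1.ne']
  have hg : ∀ t ∈ Ioo x (x + 2 * π), HasDerivAt g
      (deriv Ψ t * (Real.cos ((Ψ t - Ψ x) / 2) / (2 * Real.sin ((Ψ t - Ψ x) / 2)))
        - Real.cos ((t - x) / 2) / (2 * Real.sin ((t - x) / 2))) t := by
    intro t ht
    have e1 := hs1 t ht
    have e2 := hs2 t ht
    have d1 : HasDerivAt (fun t => (Ψ t - Ψ x) / 2) (deriv Ψ t / 2) t :=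
      ((hdiff t).hasDerivAt.sub_const (Ψ x)).div_const 2
    have d2 : HasDerivAt (fun t : ℝ => (t - x) / 2) (1 / 2) t :=
      ((hasDerivAt_id t).sub_const x).div_const 2
    have d3 := (d1.sin.log e2.ne').sub (d2.sin.log e1.ne')
    refine d3.congr_deriv ?_
    field_simp
  have hB : ∀ t ∈ Ioo x (x + 2 * π), HasDerivAt B
      (C * ((t - x) ^ (ε - 1) + (x + 2 * π - t) ^ (ε - 1))) t := by
    intro t ht
    have e1 : 0 < t - x := by linarith [ht.1]
    have e2 : 0 < x + 2 * π - t := by linarith [ht.2]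
    have d1 : HasDerivAt (fun t : ℝ => (t - x) ^ ε) (1 * ε * (t - x) ^ (ε - 1)) t :=
      ((hasDerivAt_id t).sub_const x).rpow_const (Or.inl e1.ne')
    have d2 : HasDerivAt (fun t : ℝ => (x + 2 * π - t) ^ ε)
        ((-1) * ε * (x + 2 * π - t) ^ (ε - 1)) t :=
      ((hasDerivAt_id t).const_sub (x + 2 * π)).rpow_const (Or.inl e2.ne')
    have d3 := ((d1.sub d2).const_mul C).div_const ε
    refine d3.congr_deriv ?_
    field_simp
    ring
  have key := bv_of_bound352 g B _ _ x (x + 2 * π) hg hB (fun t ht => hC x t ht)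
  have hBm : MonotoneOn B (Icc x (x + 2 * π)) := by
    intro u hu v hv huv
    simp only [hBdef]
    apply div_le_div_of_nonneg_right _ hε.le
    apply mul_le_mul_of_nonneg_left _ hC0
    have e1 : (u - x) ^ ε ≤ (v - x) ^ ε :=
      Real.rpow_le_rpow (by linarith [hu.1]) (by linarith) hε.le
    have e2 : (x + 2 * π - v) ^ ε ≤ (x + 2 * π - u) ^ ε :=
      Real.rpow_le_rpow (by linarith [hv.2]) (by linarith) hε.le
    linarith
  have hpi : x ≤ x + 2 * π := by linarith [Real.pi_pos]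
  have hBv : eVariationOn B (Ioo x (x + 2 * π)) ≤ ENNReal.ofReal (2 * C * (2 * π) ^ ε / ε) := by
    have e1 := hBm.eVariationOn_le (left_mem_Icc.mpr hpi) (right_mem_Icc.mpr hpi)
    rw [inter_self] at e1
    refine (eVariationOn.mono B Ioo_subset_Icc_self).trans (e1.trans ?_)
    apply ENNReal.ofReal_le_ofReal
    apply le_of_eq
    simp only [hBdef]
    rw [show x + 2 * π - x = 2 * π by ring, show x - x = 0 by ring,
      show x + 2 * π - (x + 2 * π) = 0 by ring, Real.zero_rpow hε.ne']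
    ring
  refine le_trans ?_ hBv
  refine iSup_mono fun p => ?_
  refine Finset.sum_le_sum fun i _ => ?_
  have hu1 := p.2.2.2 i
  have hu2 := p.2.2.2 (i + 1)
  have hle := p.2.2.1 (Nat.le_succ i)
  rw [hhg _ hu1, hhg _ hu2, edist_dist, edist_dist]
  apply ENNReal.ofReal_le_ofReal
  rw [Real.dist_eq, Real.dist_eq]
  exact (key _ hu1 _ hu2 hle).trans (le_abs_self _)

end Pool.Agent.Helper649.ReC
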