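import Pool.Agent.Helper649.ReaDef

set_option autoImplicit false

namespace Pool.Agent.Helper649.ReD

open Complex MeasureTheory Set Filter Topology Metric
open scoped Real ComplexConjugate
open Pool.Agent.Helper649.ReDef (IsDiscAlg reA Cond)

/-- Herglotz integral with a subtracted constant -/
noncomputable def HG (W : Circle → ℝ) (c : ℝ) (z : ℂ) : ℂ :=
  c + (1 / (2 * π)) * ∫ t in (-π)..π,
    ((exp (t * I) + z) / (exp (t * I) - z)) * ((W (Circle.exp t) - c : ℝ) : ℂ)

/-- increasing lift of a circle homeomorphism -/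
def Lift (Ψ : ℝ → ℝ) (ψ : Circle ≃ₜ Circle) : Prop :=
  Continuous Ψ ∧ StrictMono Ψ ∧ (∀ t, Ψ (t + 2 * π) = Ψ t + 2 * π) ∧
    ∀ t : ℝ, ψ (Circle.exp t) = Circle.exp (Ψ t)

/-- composition with ψ is controlled on functions holomorphic near the closed disc -/
def CtrlN (ψ : Circle ≃ₜ Circle) (C : ℝ) : Prop :=
  ∀ (F : ℂ → ℂ) (R M : ℝ), 1 < R → DifferentiableOn ℂ F (ball 0 R) →
    (∀ z ∈ closedBall (0 : ℂ) 1, ‖F z‖ ≤ M) →
    ∃ G : ℂ → ℂ, ContinuousOn G (closedBall 0 1) ∧ DifferentiableOn ℂ G (ball 0 1) ∧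
      (∀ z : Circle, (G z).re = (F (ψ z)).re) ∧ (G 0).im = 0 ∧
      ∀ z ∈ closedBall (0 : ℂ) 1, ‖G z‖ ≤ C * M


/-- measure form of the condition: a bounded functional of `C(S¹)` (a complex measure of mass at most
`C`) has the moments `n ∫ e^{ins} log |φ - x| ds`, `n ≥ 0` -/
def CondM0 (φ : Circle → Circle) (C : ℝ) : Prop :=
  ∀ x : Circle, IntervalIntegrable (fun s : ℝ => Real.log ‖(φ (Circle.exp s) : ℂ) - x‖) volume (-π) π ∧
    ∃ Λ : C(Circle, ℂ) →L[ℂ] ℂ, ‖Λ‖ ≤ C ∧ ∀ n : ℕ,
      Λ ⟨fun z : Circle => (z : ℂ) ^ n, by fun_prop⟩ =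
        n * ∫ s in (-π)..π, exp (n * s * I) * (Real.log ‖(φ (Circle.exp s) : ℂ) - x‖ : ℝ)

lemma polyapx705 (F : ℂ → ℂ) (R : ℝ) (hR : 1 < R) (hF : DifferentiableOn ℂ F (ball 0 R))
    (ε : ℝ) (hε : 0 < ε) : ∃ p : Polynomial ℂ, (∀ z : ℂ, ‖z‖ ≤ 1 → ‖F z - p.eval z‖ ≤ ε) ∧
      (∀ z : ℂ, ‖z‖ ≤ 1 → ‖deriv F z - p.derivative.eval z‖ ≤ ε) := by
  obtain ⟨r', hr1, hrR⟩ := exists_between hR
  obtain ⟨r, rfl⟩ : ∃ r : NNReal, (r : ℝ) = r' := ⟨⟨r', by linarith⟩, rfl⟩
  have hr0 : 0 < r := by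
    have : (0:ℝ) < r := by linarith
    exact_mod_cast this
  have hd : DifferentiableOn ℂ F (closedBall 0 r) := hF.mono (closedBall_subset_ball hrR)
  have hps := hd.hasFPowerSeriesOnBall hr0
  obtain ⟨q, hq⟩ : ∃ q, q = cauchyPowerSeries F 0 r := ⟨_, rfl⟩
  rw [← hq] at hps
  have htl := hps.tendstoLocallyUniformlyOn'
  obtain ⟨P, hPdef⟩ : ∃ P : ℕ → Polynomial ℂ, ∀ n, P n =
      ∑ k ∈ Finset.range n, Polynomial.C (q.coeff k) * Polynomial.X ^ k := ⟨_, fun n => rfl⟩
  have hP : (fun n (y : ℂ) => q.partialSum n (y - 0)) = fun n (y : ℂ) => (P n).eval y := by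
    funext n y
    rw [sub_zero, hPdef, FormalMultilinearSeries.partialSum, Polynomial.eval_finset_sum]
    apply Finset.sum_congr rfl
    intro k _
    rw [FormalMultilinearSeries.apply_eq_pow_smul_coeff, Polynomial.eval_mul, Polynomial.eval_C,
      Polynomial.eval_pow, Polynomial.eval_X, smul_eq_mul, mul_comm]
  rw [hP] at htl
  have hU : Metric.eball (0 : ℂ) (r : ENNReal) = ball 0 (r : ℝ) := by
    ext z
    simp [Metric.mem_eball, edist_dist, ENNReal.ofReal_lt_iff_lt_toReal]
  rw [hU] at htl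
  have hder := htl.deriv (Filter.Eventually.of_forall (fun n => (P n).differentiable.differentiableOn))
    isOpen_ball
  have hcomp : IsCompact (closedBall (0 : ℂ) 1) := isCompact_closedBall 0 1
  have hsub : closedBall (0 : ℂ) 1 ⊆ ball 0 (r : ℝ) := closedBall_subset_ball hr1
  have h1 : TendstoUniformlyOn (fun n (y : ℂ) => (P n).eval y) F atTop (closedBall 0 1) :=
    (tendstoLocallyUniformlyOn_iff_forall_isCompact isOpen_ball).mp htl _ hsub hcomp
  have h2 := (tendstoLocallyUniformlyOn_iff_forall_isCompact isOpen_ball).mp hder _ hsub hcomp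
  rw [Metric.tendstoUniformlyOn_iff] at h1 h2
  obtain ⟨n, hn1, hn2⟩ := ((h1 ε hε).and (h2 ε hε)).exists
  refine ⟨P n, fun z hz => ?_, fun z hz => ?_⟩
  · have := hn1 z (by simpa using hz)
    rw [dist_eq_norm] at this
    exact this.le
  · have := hn2 z (by simpa using hz)
    rw [dist_eq_norm, Function.comp_apply, Polynomial.deriv] at this
    exact this.le


lemma cond_ext (φ : Circle → Circle) (C : ℝ) (h : Cond φ C) (x : Circle) (F : ℂ → ℂ) (R M : ℝ)
    (hR : 1 < R) (hF : DifferentiableOn ℂ F (ball 0 R)) (hM : ∀ z : ℂ, ‖z‖ ≤ 1 → ‖F z‖ ≤ M) :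
    0 ≤ C ∧ ‖∫ s in (-π)..π, exp (s * I) * deriv F (exp (s * I)) *
        (Real.log ‖(φ (Circle.exp s) : ℂ) - x‖ : ℝ)‖ ≤ C * M := by
  obtain ⟨hint, hpoly⟩ := h x
  have hC : 0 ≤ C := by
    have := hpoly 0 1 (fun z _ => by simp)
    simpa using this
  refine ⟨hC, ?_⟩
  have hn : ∀ s : ℝ, ‖exp (s * I)‖ = 1 := fun s => Complex.norm_exp_ofReal_mul_I s
  have hpi : -π ≤ π := by linarith [Real.pi_pos]
  have hintC : IntervalIntegrable
      (fun s : ℝ => ((Real.log ‖(φ (Circle.exp s) : ℂ) - x‖ : ℝ) : ℂ)) volume (-π) π :=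
    ⟨hint.1.ofReal, hint.2.ofReal⟩
  have hcF : Continuous (fun s : ℝ => exp (s * I) * deriv F (exp (s * I))) := by
    have hdF : ContinuousOn (deriv F) (ball 0 R) := (hF.deriv isOpen_ball).continuousOn
    have he : Continuous (fun s : ℝ => exp (s * I)) := by fun_prop
    apply he.mul
    apply hdF.comp_continuous he
    intro s
    rw [mem_ball_zero_iff, hn s]
    exact hR
  have hIF : IntervalIntegrable (fun s : ℝ => exp (s * I) * deriv F (exp (s * I)) *
        ((Real.log ‖(φ (Circle.exp s) : ℂ) - x‖ : ℝ) : ℂ)) volume (-π) π :=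
    hintC.continuousOn_mul hcF.continuousOn
  obtain ⟨K, hK⟩ : ∃ K : ℝ, K = ∫ s in (-π)..π, |Real.log ‖(φ (Circle.exp s) : ℂ) - x‖| :=
    ⟨_, rfl⟩
  have hK0 : 0 ≤ K := by
    rw [hK]
    exact intervalIntegral.integral_nonneg hpi (fun s _ => abs_nonneg _)
  have key : ∀ ε : ℝ, 0 < ε → ‖∫ s in (-π)..π, exp (s * I) * deriv F (exp (s * I)) *
        (Real.log ‖(φ (Circle.exp s) : ℂ) - x‖ : ℝ)‖ ≤ C * (M + ε) + ε * K := by
    intro ε hε
    obtain ⟨p, hp1, hp2⟩ := polyapx705 F R hR hF ε hε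
    have hpM : ∀ z : ℂ, ‖z‖ ≤ 1 → ‖p.eval z‖ ≤ M + ε := by
      intro z hz
      have e : p.eval z = F z - (F z - p.eval z) := by ring
      rw [e]
      exact (norm_sub_le _ _).trans (add_le_add (hM z hz) (hp1 z hz))
    have h1 := hpoly p (M + ε) hpM
    have hcP : Continuous (fun s : ℝ => exp (s * I) * p.derivative.eval (exp (s * I))) := by
      have he : Continuous (fun s : ℝ => exp (s * I)) := by fun_prop
      exact he.mul (p.derivative.continuous.comp he)
    have hIP : IntervalIntegrable (fun s : ℝ => exp (s * I) * p.derivative.eval (exp (s * I)) *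
        ((Real.log ‖(φ (Circle.exp s) : ℂ) - x‖ : ℝ) : ℂ)) volume (-π) π :=
      hintC.continuousOn_mul hcP.continuousOn
    have h2 : ‖(∫ s in (-π)..π, exp (s * I) * deriv F (exp (s * I)) *
        (Real.log ‖(φ (Circle.exp s) : ℂ) - x‖ : ℝ)) -
        ∫ s in (-π)..π, exp (s * I) * p.derivative.eval (exp (s * I)) *
        (Real.log ‖(φ (Circle.exp s) : ℂ) - x‖ : ℝ)‖ ≤ ε * K := by
      rw [← intervalIntegral.integral_sub hIF hIP, hK, ← intervalIntegral.integral_const_mul]
      apply intervalIntegral.norm_integral_le_of_norm_le hpi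
      · apply Filter.Eventually.of_forall
        intro s _
        have e : exp (s * I) * deriv F (exp (s * I)) *
            ((Real.log ‖(φ (Circle.exp s) : ℂ) - x‖ : ℝ) : ℂ) -
            exp (s * I) * p.derivative.eval (exp (s * I)) *
            ((Real.log ‖(φ (Circle.exp s) : ℂ) - x‖ : ℝ) : ℂ) =
            exp (s * I) * (deriv F (exp (s * I)) - p.derivative.eval (exp (s * I))) *
            ((Real.log ‖(φ (Circle.exp s) : ℂ) - x‖ : ℝ) : ℂ) := by ring
        rw [e, norm_mul, norm_mul, hn s, one_mul, Complex.norm_real, Real.norm_eq_abs]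
        exact mul_le_mul_of_nonneg_right (hp2 _ (hn s).le) (abs_nonneg _)
      · exact (hint.abs).const_mul ε
    have h3 := norm_add_le ((∫ s in (-π)..π, exp (s * I) * deriv F (exp (s * I)) *
        (Real.log ‖(φ (Circle.exp s) : ℂ) - x‖ : ℝ)) -
        ∫ s in (-π)..π, exp (s * I) * p.derivative.eval (exp (s * I)) *
        (Real.log ‖(φ (Circle.exp s) : ℂ) - x‖ : ℝ))
        (∫ s in (-π)..π, exp (s * I) * p.derivative.eval (exp (s * I)) *
        (Real.log ‖(φ (Circle.exp s) : ℂ) - x‖ : ℝ))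
    rw [sub_add_cancel] at h3
    linarith
  apply le_of_forall_pos_le_add
  intro δ hδ
  have hpos : 0 < C + K + 1 := by linarith
  have h4 := key (δ / (C + K + 1)) (by positivity)
  have h5 : (C + K) * (δ / (C + K + 1)) ≤ δ := by
    rw [mul_div_assoc', div_le_iff₀ hpos]
    nlinarith
  nlinarith

lemma by_parts_E (Ψ : ℝ → ℝ) (hc : Continuous Ψ) (L L' : ℝ → ℂ)
    (hL : ∀ t, HasDerivAt L (L' t) t) (f' : ℝ → ℝ) (hf' : Continuous f')
    (Φ : ℝ → ℝ) (hΦΨ : ∀ t, Φ (Ψ t) = t) (τ : ℝ) :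
    HasDerivAt (fun x => ∫ s in (Ψ τ)..(Ψ x), (L (Φ s) - L τ) * (f' s : ℂ)) 0 τ := by
  rw [hasDerivAt_iff_isLittleO, Asymptotics.isLittleO_iff]
  intro c hcpos
  obtain ⟨K0, hK0⟩ := (hL τ).isBigO_sub.bound
  rw [Metric.eventually_nhds_iff] at hK0
  obtain ⟨δ, hδ, hK1⟩ := hK0
  set K : ℝ := max K0 0 with hKdef
  have hK : ∀ t : ℝ, |t - τ| < δ → ‖L t - L τ‖ ≤ K * |t - τ| := by
    intro t ht
    have h1 := hK1 (y := t) (by rw [Real.dist_eq]; exact ht)
    rw [Real.norm_eq_abs] at h1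
    exact h1.trans (mul_le_mul_of_nonneg_right (le_max_left _ _) (abs_nonneg _))
  have hKnn : 0 ≤ K := le_max_right _ _
  set M : ℝ := |f' (Ψ τ)| + 1 with hMdef
  have hMpos : 0 < M := by positivity
  have hM0 : ∀ᶠ s in 𝓝 (Ψ τ), |f' s| < M :=
    (hf'.abs.continuousAt (x := Ψ τ)).eventually_lt_const (by simp [hMdef])
  rw [Metric.eventually_nhds_iff] at hM0
  obtain ⟨δ2, hδ2, hM⟩ := hM0
  set η : ℝ := min δ2 (c / (K * M + 1)) with hη
  have hKM : 0 < K * M + 1 := by positivity
  have hηpos : 0 < η := lt_min hδ2 (by positivity)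
  have ev1 : ∀ᶠ x in 𝓝 τ, |x - τ| < δ := by
    have := Metric.ball_mem_nhds τ hδ
    filter_upwards [this] with x hx
    rw [Metric.mem_ball, Real.dist_eq] at hx
    exact hx
  have ev2 : ∀ᶠ x in 𝓝 τ, |Ψ x - Ψ τ| < η := by
    have := (hc.continuousAt (x := τ)).eventually (Metric.ball_mem_nhds (Ψ τ) hηpos)
    filter_upwards [this] with x hx
    rw [Real.dist_eq] at hx
    exact hx
  filter_upwards [ev1, ev2] with x hx1 hx2
  have hzero : (∫ s in (Ψ τ)..(Ψ τ), (L (Φ s) - L τ) * (f' s : ℂ)) = 0 :=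
    intervalIntegral.integral_same
  rw [hzero]
  have hb : ∀ s ∈ Set.uIoc (Ψ τ) (Ψ x), ‖(L (Φ s) - L τ) * (f' s : ℂ)‖ ≤ K * |x - τ| * M := by
    intro s hs
    have hs' : s ∈ Set.uIcc (Ψ τ) (Ψ x) := Set.uIoc_subset_uIcc hs
    obtain ⟨t, ht, hts⟩ := intermediate_value_uIcc (a := τ) (b := x) hc.continuousOn hs'
    have htx : |t - τ| ≤ |x - τ| := Set.abs_sub_left_of_mem_uIcc ht
    have hsx : |s - Ψ τ| ≤ |Ψ x - Ψ τ| := Set.abs_sub_left_of_mem_uIcc hs'
    rw [norm_mul, Complex.norm_real, Real.norm_eq_abs]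
    have e1 : ‖L (Φ s) - L τ‖ ≤ K * |x - τ| := by
      rw [← hts, hΦΨ]
      exact (hK t (lt_of_le_of_lt htx hx1)).trans (mul_le_mul_of_nonneg_left htx hKnn)
    have e2 : |f' s| ≤ M := by
      have := hM (y := s) (by
        rw [Real.dist_eq]
        exact lt_of_le_of_lt hsx (lt_of_lt_of_le hx2 (min_le_left _ _)))
      exact this.le
    exact mul_le_mul e1 e2 (abs_nonneg _) (by positivity)
  have hfin := intervalIntegral.norm_integral_le_of_norm_le_const hb
  have e3 : |Ψ x - Ψ τ| ≤ c / (K * M + 1) := (hx2.le).trans (min_le_right _ _)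
  have e4 : K * M * |Ψ x - Ψ τ| ≤ c := by
    have h1 : K * M * |Ψ x - Ψ τ| ≤ K * M * (c / (K * M + 1)) :=
      mul_le_mul_of_nonneg_left e3 (by positivity)
    have h2 : K * M * (c / (K * M + 1)) ≤ c := by
      rw [← mul_div_assoc, div_le_iff₀ hKM]
      nlinarith
    linarith
  simp only [smul_zero, sub_zero]
  rw [Real.norm_eq_abs]
  calc ‖∫ s in (Ψ τ)..(Ψ x), (L (Φ s) - L τ) * (f' s : ℂ)‖
      ≤ K * |x - τ| * M * |Ψ x - Ψ τ| := hfin
    _ = (K * M * |Ψ x - Ψ τ|) * |x - τ| := by ring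
    _ ≤ c * |x - τ| := mul_le_mul_of_nonneg_right e4 (abs_nonneg _)

lemma by_parts_P (Ψ : ℝ → ℝ) (hc : Continuous Ψ) (L L' : ℝ → ℂ)
    (hL : ∀ t, HasDerivAt L (L' t) t) (f : ℝ → ℝ) (hf : Continuous f) (τ : ℝ) :
    HasDerivAt (fun x => (f (Ψ x) : ℂ) * (L x - L τ)) ((f (Ψ τ) : ℂ) * L' τ) τ := by
  rw [hasDerivAt_iff_tendsto_slope]
  have h1 := (hasDerivAt_iff_tendsto_slope.mp (hL τ))
  have h2 : Tendsto (fun x => (f (Ψ x) : ℂ)) (𝓝[≠] τ) (𝓝 (f (Ψ τ) : ℂ)) := by
    have : Continuous (fun x => (f (Ψ x) : ℂ)) := by fun_prop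
    exact (this.tendsto τ).mono_left nhdsWithin_le_nhds
  have h3 := h2.mul h1
  refine h3.congr (fun x => ?_)
  simp only [slope_def_module, sub_self, mul_zero, sub_zero]
  rw [mul_smul_comm]

lemma by_parts (Ψ : ℝ → ℝ) (ψ : Circle ≃ₜ Circle) (hl : Lift Ψ ψ) (L L' : ℝ → ℂ)
    (hL : ∀ t, HasDerivAt L (L' t) t) (hL' : Continuous L') (hper : ∀ t, L (t + 2 * π) = L t)
    (f f' : ℝ → ℝ) (hf : ∀ s, HasDerivAt f (f' s) s) (hf' : Continuous f')
    (hfper : ∀ s, f (s + 2 * π) = f s) (Φ : ℝ → ℝ) (hΦ : Continuous Φ) (hΦΨ : ∀ t, Φ (Ψ t) = t) :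
    (∫ t in (-π)..π, (f (Ψ t) : ℂ) * L' t) = - ∫ s in (Ψ (-π))..(Ψ π), L (Φ s) * (f' s : ℂ) := by
  obtain ⟨hc, hmono, hΨper, -⟩ := hl
  have hLc : Continuous L := continuous_iff_continuousAt.mpr fun t => (hL t).continuousAt
  have hfc : Continuous f := continuous_iff_continuousAt.mpr fun t => (hf t).continuousAt
  have hc1 : Continuous (fun t => (f (Ψ t) : ℂ) * L' t) := by fun_prop
  have hc2 : Continuous (fun s => L (Φ s) * (f' s : ℂ)) := by fun_prop
  set H : ℝ → ℂ := fun x => (∫ t in (-π)..x, (f (Ψ t) : ℂ) * L' t) +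
    (∫ s in (Ψ (-π))..(Ψ x), L (Φ s) * (f' s : ℂ)) - (f (Ψ x) : ℂ) * L x with hH
  have hfint : ∀ a b : ℝ, (∫ s in a..b, (f' s : ℂ)) = (f b : ℂ) - (f a : ℂ) := by
    intro a b
    rw [intervalIntegral.integral_ofReal,
      intervalIntegral.integral_eq_sub_of_hasDerivAt (fun s _ => hf s)
        (hf'.intervalIntegrable _ _)]
    push_cast
    rfl
  have hder : ∀ τ, HasDerivAt H 0 τ := by
    intro τ
    have hH' : H = fun x => (∫ t in (-π)..x, (f (Ψ t) : ℂ) * L' t) +
        (∫ s in (Ψ τ)..(Ψ x), (L (Φ s) - L τ) * (f' s : ℂ)) - (f (Ψ x) : ℂ) * (L x - L τ) +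
        ((∫ s in (Ψ (-π))..(Ψ τ), L (Φ s) * (f' s : ℂ)) - (f (Ψ τ) : ℂ) * L τ) := by
      funext x
      simp only [hH]
      have e1 : (∫ s in (Ψ (-π))..(Ψ x), L (Φ s) * (f' s : ℂ)) =
          (∫ s in (Ψ (-π))..(Ψ τ), L (Φ s) * (f' s : ℂ)) +
          ∫ s in (Ψ τ)..(Ψ x), L (Φ s) * (f' s : ℂ) :=
        (intervalIntegral.integral_add_adjacent_intervals (hc2.intervalIntegrable _ _)
          (hc2.intervalIntegrable _ _)).symm
      have e2 : (∫ s in (Ψ τ)..(Ψ x), (L (Φ s) - L τ) * (f' s : ℂ)) =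
          (∫ s in (Ψ τ)..(Ψ x), L (Φ s) * (f' s : ℂ)) - L τ * ((f (Ψ x) : ℂ) - (f (Ψ τ) : ℂ)) := by
        rw [← hfint, ← intervalIntegral.integral_const_mul, ← intervalIntegral.integral_sub
          (hc2.intervalIntegrable _ _)
          ((by fun_prop : Continuous fun s => L τ * (f' s : ℂ)).intervalIntegrable _ _)]
        refine intervalIntegral.integral_congr (fun s _ => ?_)
        ring
      rw [e1, e2]
      ring
    have d1 : HasDerivAt (fun x => ∫ t in (-π)..x, (f (Ψ t) : ℂ) * L' t)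
        ((f (Ψ τ) : ℂ) * L' τ) τ :=
      intervalIntegral.integral_hasDerivAt_right (hc1.intervalIntegrable _ _)
        (hc1.stronglyMeasurableAtFilter _ _) hc1.continuousAt
    have d2 := by_parts_E Ψ hc L L' hL f' hf' Φ hΦΨ τ
    have d3 := by_parts_P Ψ hc L L' hL f hfc τ
    rw [hH']
    have d4 := ((d1.add d2).sub d3).add_const
      ((∫ s in (Ψ (-π))..(Ψ τ), L (Φ s) * (f' s : ℂ)) - (f (Ψ τ) : ℂ) * L τ)
    have hz : (f (Ψ τ) : ℂ) * L' τ + 0 - (f (Ψ τ) : ℂ) * L' τ = 0 := by ring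
    rw [hz] at d4
    exact d4
  have hconst : H π = H (-π) :=
    is_const_of_deriv_eq_zero (fun x => (hder x).differentiableAt) (fun x => (hder x).deriv) _ _
  have hp1 : Ψ π = Ψ (-π) + 2 * π := by
    rw [← hΨper]; congr 1; ring
  have hp2 : L π = L (-π) := by
    rw [← hper (-π)]; congr 1; ring
  have hp3 : f (Ψ π) = f (Ψ (-π)) := by rw [hp1, hfper]
  simp only [hH, intervalIntegral.integral_same] at hconst
  rw [hp3, hp2] at hconst
  linear_combination hconst

lemma lift_inv (Ψ : ℝ → ℝ) (hc : Continuous Ψ) (hm : StrictMono Ψ)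
    (hp : ∀ t, Ψ (t + 2 * π) = Ψ t + 2 * π) :
    ∃ Φ : ℝ → ℝ, Continuous Φ ∧ (∀ t, Φ (Ψ t) = t) ∧ (∀ s, Ψ (Φ s) = s) := by
  have hadd : ∀ n : ℕ, ∀ t, Ψ (t + n * (2 * π)) = Ψ t + n * (2 * π) := by
    intro n
    induction n with
    | zero => intro t; simp
    | succ n ih =>
      intro t
      have : t + ((n + 1 : ℕ) : ℝ) * (2 * π) = (t + n * (2 * π)) + 2 * π := by push_cast; ring
      rw [this, hp, ih]
      push_cast; ring
  have hsub : ∀ n : ℕ, ∀ t, Ψ (t - n * (2 * π)) = Ψ t - n * (2 * π) := by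
    intro n t
    have := hadd n (t - n * (2 * π))
    rw [sub_add_cancel] at this
    linarith
  have hsurj : Function.Surjective Ψ := by
    intro s
    have h2pi : 0 < 2 * π := Real.two_pi_pos
    obtain ⟨n, hn⟩ := exists_nat_gt (|s - Ψ 0| / (2 * π))
    rw [div_lt_iff₀ h2pi] at hn
    have habs := abs_le.mp (le_refl |s - Ψ 0|)
    refine mem_range_of_exists_le_of_exists_ge hc ⟨0 - n * (2 * π), ?_⟩ ⟨0 + n * (2 * π), ?_⟩
    · rw [hsub]; linarith [habs.1]
    · rw [hadd]; linarith [habs.2]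
  let e : ℝ ≃o ℝ := StrictMono.orderIsoOfSurjective Ψ hm hsurj
  refine ⟨e.symm, e.symm.continuous, fun t => e.symm_apply_apply t, fun s => e.apply_symm_apply s⟩


lemma repr (Ψ : ℝ → ℝ) (ψ : Circle ≃ₜ Circle) (hl : Lift Ψ ψ) (R : ℝ) (hR : 1 < R) (F : ℂ → ℂ)
    (hF : DifferentiableOn ℂ F (ball 0 R)) (z : ℂ) (hz : ‖z‖ < 1) :
    (HG (fun a => (F (ψ a)).re) 0 z).im = (1 / π) * ∫ s in (-π)..π,
      Real.log ‖(ψ.symm (Circle.exp s) : ℂ) - z‖ * (I * exp (s * I) * deriv F (exp (s * I))).re := by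
  obtain ⟨hc, hm, hp, he⟩ := id hl
  obtain ⟨Φ, hΦ, hΦΨ, hΨΦ⟩ := lift_inv Ψ hc hm hp
  have hpi := Real.pi_pos
  -- points of the circle
  have hball : ∀ s : ℝ, exp (s * I) ∈ ball (0 : ℂ) R := by
    intro s
    rw [mem_ball_zero_iff, norm_exp_ofReal_mul_I]
    exact hR
  have hexpc : Continuous fun s : ℝ => exp (s * I) := by fun_prop
  have hexpper : ∀ s : ℝ, exp (((s + 2 * π : ℝ) : ℂ) * I) = exp (s * I) := by
    intro s
    push_cast
    rw [add_mul, exp_add, exp_two_pi_mul_I, mul_one]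
  -- the function f
  let f : ℝ → ℝ := fun s => (F (exp (s * I))).re
  let f' : ℝ → ℝ := fun s => (I * exp (s * I) * deriv F (exp (s * I))).re
  have hf : ∀ s, HasDerivAt f (f' s) s := by
    intro s
    have h1 : HasDerivAt F (deriv F (exp (s * I))) (exp (s * I)) :=
      ((hF _ (hball s)).differentiableAt (isOpen_ball.mem_nhds (hball s))).hasDerivAt
    have h2 : HasDerivAt (fun s : ℝ => exp (s * I)) (exp (s * I) * (1 * I)) s := by
      have h3 : HasDerivAt (fun s : ℝ => (s : ℂ) * I) (1 * I) s :=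
        (Complex.ofRealCLM.hasDerivAt (x := s)).mul_const I
      exact h3.cexp
    have h4 := h1.comp s h2
    have h5 := (Complex.reCLM.hasFDerivAt (x := F (exp (s * I)))).comp_hasDerivAt s h4
    convert! h5 using 1
    show (I * exp (s * I) * deriv F (exp (s * I))).re = (deriv F (exp (s * I)) * (exp (s * I) * (1 * I))).re
    congr 1
    ring
  have hdF : Continuous fun s : ℝ => deriv F (exp (s * I)) :=
    (hF.deriv isOpen_ball).continuousOn.comp_continuous hexpc hball
  have hf' : Continuous f' := by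
    exact Complex.continuous_re.comp ((continuous_const.mul hexpc).mul hdF)
  have hfper : ∀ s, f (s + 2 * π) = f s := by
    intro s
    show (F (exp (((s + 2 * π : ℝ) : ℂ) * I))).re = _
    rw [hexpper]
  have hf'per : ∀ s, f' (s + 2 * π) = f' s := by
    intro s
    show (I * exp (((s + 2 * π : ℝ) : ℂ) * I) * deriv F (exp (((s + 2 * π : ℝ) : ℂ) * I))).re = _
    rw [hexpper]
  -- the logarithm
  have hu0 : ∀ t : ℝ, exp (t * I) ≠ 0 := fun t => exp_ne_zero _
  let v : ℝ → ℂ := fun t => 1 - z * exp (-(t * I))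
  have hnv : ∀ t : ℝ, ‖z * exp (-(t * I))‖ < 1 := by
    intro t
    have : -((t : ℂ) * I) = ((-t : ℝ) : ℂ) * I := by push_cast; ring
    rw [norm_mul, this, norm_exp_ofReal_mul_I, mul_one]
    exact hz
  have hvre : ∀ t, 0 < (v t).re := by
    intro t
    have h1 := Complex.re_le_norm (z * exp (-(t * I)))
    have h2 := hnv t
    show 0 < (1 - z * exp (-(t * I))).re
    rw [sub_re, one_re]
    linarith
  have hv0 : ∀ t, v t ≠ 0 := by
    intro t h
    have := hvre t
    rw [h] at this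
    simp at this
  let L : ℝ → ℂ := fun t => log (v t)
  let L' : ℝ → ℂ := fun t => (z * exp (-(t * I)) * I) / v t
  have hL : ∀ t, HasDerivAt L (L' t) t := by
    intro t
    have h3 : HasDerivAt (fun t : ℝ => -((t : ℂ) * I)) (-(1 * I)) t :=
      ((Complex.ofRealCLM.hasDerivAt (x := t)).mul_const I).neg
    have h4 : HasDerivAt v (-(z * (exp (-(t * I)) * (-(1 * I))))) t :=
      ((h3.cexp).const_mul z).const_sub 1
    have h5 := h4.clog_real (Or.inl (hvre t))
    convert! h5 using 1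
    show (z * exp (-(t * I)) * I) / v t = _
    congr 1
    ring
  have hvc : Continuous v := by
    show Continuous fun t : ℝ => 1 - z * exp (-((t : ℂ) * I))
    fun_prop
  have hL'c : Continuous L' := by
    refine Continuous.div ?_ hvc hv0
    fun_prop
  have hvper : ∀ t, v (t + 2 * π) = v t := by
    intro t
    show 1 - z * exp (-(((t + 2 * π : ℝ) : ℂ) * I)) = 1 - z * exp (-((t : ℂ) * I))
    rw [exp_neg, hexpper, ← exp_neg]
  have hLper : ∀ t, L (t + 2 * π) = L t := by
    intro t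
    show log (v (t + 2 * π)) = log (v t)
    rw [hvper]
  have hbp := by_parts Ψ ψ hl L L' hL hL'c hLper f f' hf hf' hfper Φ hΦ hΦΨ
  -- the function W
  have hW : ∀ t : ℝ, (F (ψ (Circle.exp t))).re = f (Ψ t) := by
    intro t
    rw [he t]
    rfl
  have hfc : Continuous f := continuous_iff_continuousAt.mpr fun s => (hf s).continuousAt
  have hac : Continuous fun t : ℝ => ((f (Ψ t) : ℝ) : ℂ) :=
    Complex.continuous_ofReal.comp (hfc.comp hc)
  -- kernel
  have hker : ∀ t : ℝ, ((exp (t * I) + z) / (exp (t * I) - z)) = 1 - 2 * I * L' t := by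
    intro t
    have hne : exp (t * I) - z ≠ 0 := by
      intro h
      have h1 : exp (t * I) = z := by linear_combination h
      have h2 := congrArg norm h1
      rw [norm_exp_ofReal_mul_I] at h2
      linarith
    have hv : v t = (exp (t * I) - z) / exp (t * I) := by
      show 1 - z * exp (-(t * I)) = _
      rw [exp_neg]
      field_simp [hu0 t]
    show _ = 1 - 2 * I * ((z * exp (-(t * I)) * I) / v t)
    rw [hv, exp_neg]
    have hu := hu0 t
    field_simp
    ring_nf
    rw [I_sq]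
    ring
  have hHG : HG (fun a => (F (ψ a)).re) 0 z =
      (1 / (2 * π)) * (((∫ t in (-π)..π, f (Ψ t) : ℝ) : ℂ) +
        2 * I * ∫ s in (Ψ (-π))..(Ψ π), L (Φ s) * (f' s : ℂ)) := by
    unfold HG
    have e1 : ∀ t : ℝ, ((exp (t * I) + z) / (exp (t * I) - z)) *
        (((fun a => (F (ψ a)).re) (Circle.exp t) - 0 : ℝ) : ℂ) =
        ((f (Ψ t) : ℝ) : ℂ) - 2 * I * (((f (Ψ t) : ℝ) : ℂ) * L' t) := by
      intro t
      rw [hker]
      show (1 - 2 * I * L' t) * (((F (ψ (Circle.exp t))).re - 0 : ℝ) : ℂ) = _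
      rw [hW, sub_zero]
      ring
    simp_rw [e1]
    have hi2 : IntervalIntegrable (fun t : ℝ => 2 * I * (((f (Ψ t) : ℝ) : ℂ) * L' t))
        volume (-π) π :=
      (continuous_const.mul (hac.mul hL'c)).intervalIntegrable _ _
    rw [intervalIntegral.integral_sub (hac.intervalIntegrable _ _) hi2,
      intervalIntegral.integral_const_mul, hbp, intervalIntegral.integral_ofReal]
    push_cast
    ring
  -- the real part of the second integral
  have hint : IntervalIntegrable (fun s => L (Φ s) * (f' s : ℂ)) volume (Ψ (-π)) (Ψ π) := by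
    refine Continuous.intervalIntegrable ?_ _ _
    have hLc : Continuous L := continuous_iff_continuousAt.mpr fun s => (hL s).continuousAt
    exact (hLc.comp hΦ).mul (Complex.continuous_ofReal.comp hf')
  have hre : (∫ s in (Ψ (-π))..(Ψ π), L (Φ s) * (f' s : ℂ)).re =
      ∫ s in (Ψ (-π))..(Ψ π), (L (Φ s) * (f' s : ℂ)).re := by
    have := Complex.reCLM.intervalIntegral_comp_comm hint
    exact this.symm
  have hpt : ∀ s : ℝ, (L (Φ s) * (f' s : ℂ)).re =
      Real.log ‖(ψ.symm (Circle.exp s) : ℂ) - z‖ * f' s := by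
    intro s
    rw [re_mul_ofReal]
    congr 1
    show (log (v (Φ s))).re = _
    rw [log_re]
    congr 1
    have h1 : ψ.symm (Circle.exp s) = Circle.exp (Φ s) := by
      rw [Homeomorph.symm_apply_eq, he, hΨΦ]
    rw [h1, Circle.coe_exp]
    have hv : exp (Φ s * I) - z = v (Φ s) * exp (Φ s * I) := by
      show _ = (1 - z * exp (-(Φ s * I))) * exp (Φ s * I)
      rw [exp_neg]
      field_simp [hu0 (Φ s)]
    rw [hv, norm_mul, norm_exp_ofReal_mul_I, mul_one]
  have hshift : (∫ s in (Ψ (-π))..(Ψ π), Real.log ‖(ψ.symm (Circle.exp s) : ℂ) - z‖ * f' s) =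
      ∫ s in (-π)..π, Real.log ‖(ψ.symm (Circle.exp s) : ℂ) - z‖ * f' s := by
    have hper : Function.Periodic
        (fun s : ℝ => Real.log ‖(ψ.symm (Circle.exp s) : ℂ) - z‖ * f' s) (2 * π) := by
      intro s
      show Real.log ‖(ψ.symm (Circle.exp (s + 2 * π)) : ℂ) - z‖ * f' (s + 2 * π) = _
      have h1 : Circle.exp (s + 2 * π) = Circle.exp s := by
        apply Circle.ext
        rw [Circle.coe_exp, Circle.coe_exp]
        exact hexpper s
      rw [h1, hf'per]
    have h2 : Ψ π = Ψ (-π) + 2 * π := by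
      rw [← hp]
      congr 1
      ring
    have h3 : π = -π + 2 * π := by ring
    rw [h2, hper.intervalIntegral_add_eq (Ψ (-π)) (-π), ← h3]
  rw [hHG]
  have hfin : ∀ (A : ℝ) (B : ℂ), ((1 / (2 * π)) * ((A : ℂ) + 2 * I * B) : ℂ).im = (1 / π) * B.re := by
    intro A B
    have e1 : ((1 / (2 * π)) * ((A : ℂ) + 2 * I * B) : ℂ) = ((1 / (2 * π) : ℝ) : ℂ) * ((A : ℂ) + 2 * I * B) := by
      push_cast; rfl
    rw [e1, im_ofReal_mul, add_im, ofReal_im]
    have e2 : (2 * I * B).im = 2 * B.re := by simp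
    rw [e2]
    field_simp
    ring
  rw [hfin, hre]
  simp_rw [hpt]
  rw [hshift]

lemma half_dist (y x z : ℂ) (hy : ‖y‖ = 1) (hx : ‖x‖ = 1) (hne : y ≠ x) (r : ℝ) (h0 : 0 ≤ r)
    (h1 : r ≤ 1) (hz : z = r * x) :
    ‖y - x‖ ≤ 2 * ‖y - z‖ ∧ ‖y - z‖ ≤ 2 ∧ |Real.log ‖y - z‖| ≤ 2 * Real.log 2 + |Real.log ‖y - x‖| := by
  have hzn : ‖z‖ = r := by
    rw [hz, norm_mul, hx, mul_one, Complex.norm_real, Real.norm_eq_abs, abs_of_nonneg h0]
  have hzx : ‖z - x‖ = 1 - r := by
    have h2 : z - x = ((r - 1 : ℝ) : ℂ) * x := by rw [hz]; push_cast; ring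
    rw [h2, norm_mul, hx, mul_one, Complex.norm_real, Real.norm_eq_abs, abs_of_nonpos (by linarith)]
    ring
  have hyz : 1 - r ≤ ‖y - z‖ := by
    have h3 := norm_sub_norm_le y z
    rw [hy, hzn] at h3
    exact h3
  have hA : ‖y - x‖ ≤ 2 * ‖y - z‖ := by
    have h4 : ‖y - x‖ ≤ ‖y - z‖ + ‖z - x‖ := norm_sub_le_norm_sub_add_norm_sub y z x
    rw [hzx] at h4
    linarith
  have hB : ‖y - z‖ ≤ 2 := by
    have h5 := norm_sub_le y z
    rw [hy, hzn] at h5
    linarith
  have hD : 0 < ‖y - x‖ := norm_pos_iff.mpr (sub_ne_zero.mpr hne)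
  have hd : 0 < ‖y - z‖ := by linarith
  have hl2 : 0 < Real.log 2 := Real.log_pos (by norm_num)
  refine ⟨hA, hB, ?_⟩
  have h6 : Real.log ‖y - z‖ ≤ Real.log 2 := Real.log_le_log hd hB
  have h7 : Real.log ‖y - x‖ ≤ Real.log 2 + Real.log ‖y - z‖ := by
    rw [← Real.log_mul (by norm_num) hd.ne']
    exact Real.log_le_log hD hA
  have h8 := neg_abs_le (Real.log ‖y - x‖)
  rw [abs_le]
  constructor
  · linarith
  · have := abs_nonneg (Real.log ‖y - x‖)
    linarith

lemma far_bound (φ : Circle ≃ₜ Circle) (c : ℝ) (hc : 0 < c) :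
    ∃ B : ℝ, 0 < B ∧ ∀ x y : Circle, c ≤ ‖(y : ℂ) - φ.symm x‖ → |Real.log ‖(φ y : ℂ) - x‖| ≤ B := by
  let K : Set (Circle × Circle) := {p | c ≤ ‖(p.2 : ℂ) - φ.symm p.1‖}
  have hcont1 : Continuous (fun p : Circle × Circle => ‖(p.2 : ℂ) - φ.symm p.1‖) :=
    ((continuous_subtype_val.comp continuous_snd).sub
      (continuous_subtype_val.comp (φ.symm.continuous.comp continuous_fst))).norm
  have hcont2 : Continuous (fun p : Circle × Circle => ‖(φ p.2 : ℂ) - p.1‖) :=
    ((continuous_subtype_val.comp (φ.continuous.comp continuous_snd)).sub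
      (continuous_subtype_val.comp continuous_fst)).norm
  have hK : IsClosed K := isClosed_le continuous_const hcont1
  have hKc : IsCompact K := hK.isCompact
  have hf : ContinuousOn (fun p : Circle × Circle => Real.log ‖(φ p.2 : ℂ) - p.1‖) K := by
    apply ContinuousOn.log hcont2.continuousOn
    intro p hp h0
    rw [norm_eq_zero, sub_eq_zero] at h0
    have h1 : φ p.2 = p.1 := Circle.ext h0
    have h2 : φ.symm p.1 = p.2 := by rw [← h1]; simp
    have h3 : c ≤ ‖(p.2 : ℂ) - φ.symm p.1‖ := hp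
    rw [h2, sub_self, norm_zero] at h3
    linarith
  obtain ⟨B, hB⟩ := hKc.exists_bound_of_continuousOn hf
  exact ⟨|B| + 1, by positivity, fun x y h => (hB (x,y) h).trans (by linarith [le_abs_self B])⟩

lemma glob (φ : Circle ≃ₜ Circle) (C : ℝ) (h : Cond φ C) :
    ∃ B : ℝ, ∀ x : Circle, ∫ s in (-π)..π, |Real.log ‖(φ (Circle.exp s) : ℂ) - x‖| ≤ B := by
  obtain ⟨B, hB, hfar⟩ := far_bound φ 1 one_pos
  refine ⟨2 * C + 2 * π * (3 * Real.log 2 + 3 * B), fun x => ?_⟩
  obtain ⟨hi, hp⟩ := h x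
  have h1 := hp (Polynomial.C (conj ((φ.symm x : Circle) : ℂ)) * Polynomial.X) 1 (by
    intro z hz
    simp only [Polynomial.eval_mul, Polynomial.eval_C, Polynomial.eval_X, norm_mul]
    have : ‖conj ((φ.symm x : Circle) : ℂ)‖ = 1 := by
      rw [Complex.norm_conj]; exact Circle.norm_coe _
    rw [this]; linarith)
  have hder : (Polynomial.derivative (Polynomial.C (conj ((φ.symm x : Circle) : ℂ)) * Polynomial.X))
      = Polynomial.C (conj ((φ.symm x : Circle) : ℂ)) := by
    simp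
  rw [hder] at h1
  simp only [Polynomial.eval_C] at h1
  have hgi : IntervalIntegrable (fun s : ℝ => exp (s * I) * conj ((φ.symm x : Circle) : ℂ) *
      ((Real.log ‖(φ (Circle.exp s) : ℂ) - x‖ : ℝ) : ℂ)) volume (-π) π := by
    have h2 : IntervalIntegrable (fun s : ℝ => ((Real.log ‖(φ (Circle.exp s) : ℂ) - x‖ : ℝ) : ℂ))
        volume (-π) π := by
      have := hi
      rw [intervalIntegrable_iff] at this ⊢
      exact this.ofReal
    refine h2.continuousOn_mul ?_
    exact Continuous.continuousOn (by fun_prop)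
  have hre : ∫ s in (-π)..π, (exp (s * I) * conj ((φ.symm x : Circle) : ℂ) *
      ((Real.log ‖(φ (Circle.exp s) : ℂ) - x‖ : ℝ) : ℂ)).re = (∫ s in (-π)..π,
        exp (s * I) * conj ((φ.symm x : Circle) : ℂ) *
      ((Real.log ‖(φ (Circle.exp s) : ℂ) - x‖ : ℝ) : ℂ)).re := by
    have := Complex.reCLM.intervalIntegral_comp_comm hgi
    simpa using this
  have hrei : IntervalIntegrable (fun s : ℝ => (exp (s * I) * conj ((φ.symm x : Circle) : ℂ) *
      ((Real.log ‖(φ (Circle.exp s) : ℂ) - x‖ : ℝ) : ℂ)).re) volume (-π) π := by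
    have := hgi
    rw [intervalIntegrable_iff] at this ⊢
    exact this.re
  have hpt : ∀ s ∈ Icc (-π) π, |Real.log ‖(φ (Circle.exp s) : ℂ) - x‖| ≤
      (-2) * (exp (s * I) * conj ((φ.symm x : Circle) : ℂ) *
      ((Real.log ‖(φ (Circle.exp s) : ℂ) - x‖ : ℝ) : ℂ)).re + (3 * Real.log 2 + 3 * B) := by
    intro s _
    rw [Complex.re_mul_ofReal]
    set l := Real.log ‖(φ (Circle.exp s) : ℂ) - x‖ with hl
    set w := exp (s * I) * conj ((φ.symm x : Circle) : ℂ) with hw
    have hnw : ‖w‖ = 1 := by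
      rw [hw, norm_mul, Complex.norm_conj, Circle.norm_coe, Complex.norm_exp_ofReal_mul_I]; norm_num
    have hwre : |w.re| ≤ 1 := by rw [← hnw]; exact Complex.abs_re_le_norm w
    obtain ⟨hw1, hw2⟩ := abs_le.1 hwre
    have hlog2 : 0 < Real.log 2 := Real.log_pos (by norm_num)
    have hl2 : l ≤ Real.log 2 := by
      rw [hl]
      have hn2 : ‖(φ (Circle.exp s) : ℂ) - x‖ ≤ 2 := by
        refine (norm_sub_le _ _).trans ?_
        rw [Circle.norm_coe, Circle.norm_coe]; norm_num
      rcases eq_or_lt_of_le (norm_nonneg ((φ (Circle.exp s) : ℂ) - x)) with h0 | h0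
      · rw [← h0, Real.log_zero]; exact hlog2.le
      · exact Real.log_le_log h0 hn2
    by_cases hc : (1 : ℝ) ≤ ‖((Circle.exp s : Circle) : ℂ) - φ.symm x‖
    · have h3 := hfar x (Circle.exp s) hc
      rw [← hl] at h3
      obtain ⟨h4, h5⟩ := abs_le.1 h3
      have h6 : |w.re * l| ≤ B := by
        rw [abs_mul]
        calc |w.re| * |l| ≤ 1 * B := mul_le_mul hwre h3 (abs_nonneg _) zero_le_one
          _ = B := one_mul B
      obtain ⟨h7, h8⟩ := abs_le.1 h6
      nlinarith
    · push_neg at hc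
      have hns : Complex.normSq (((Circle.exp s : Circle) : ℂ) - φ.symm x) = 2 - 2 * w.re := by
        rw [Complex.normSq_sub, Circle.coe_exp, ← hw, Complex.normSq_eq_norm_sq,
          Complex.normSq_eq_norm_sq, Circle.norm_coe, Complex.norm_exp_ofReal_mul_I]
        norm_num
      rw [Complex.normSq_eq_norm_sq] at hns
      have hhalf : 1 / 2 < w.re := by nlinarith [norm_nonneg (((Circle.exp s : Circle) : ℂ) - φ.symm x)]
      rcases le_total l 0 with hl0 | hl0
      · rw [abs_of_nonpos hl0]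
        nlinarith
      · rw [abs_of_nonneg hl0]
        nlinarith
  have hpi : (-π : ℝ) ≤ π := by linarith [Real.pi_pos]
  have hmono := intervalIntegral.integral_mono_on (μ := volume) hpi hi.abs
    ((hrei.const_mul (-2)).add (intervalIntegrable_const (c := 3 * Real.log 2 + 3 * B))) hpt
  rw [intervalIntegral.integral_add (hrei.const_mul (-2)) intervalIntegrable_const,
    intervalIntegral.integral_const_mul, hre, intervalIntegral.integral_const] at hmono
  have h9 := (Complex.abs_re_le_norm _).trans h1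
  obtain ⟨h10, -⟩ := abs_le.1 h9
  simp only [smul_eq_mul] at hmono
  linarith

lemma pois_test (ρ : ℝ) (h0 : 1 / 2 ≤ ρ) (h1 : ρ < 1) (w : ℂ) (hw : ‖w‖ = 1) :
    (∃ R : ℝ, 1 < R ∧ DifferentiableOn ℂ (fun z => log (1 - ρ * w * z)) (ball 0 R)) ∧
    (∀ z : ℂ, ‖z‖ ≤ 1 → ‖log (1 - ρ * w * z)‖ ≤ 2 + Real.log (1 / (1 - ρ))) ∧
    (∀ z : ℂ, ‖z‖ = 1 → -(z * deriv (fun z => log (1 - ρ * w * z)) z).re =
      ((1 - ρ ^ 2) / ‖1 - ρ * w * z‖ ^ 2 - 1) / 2) := by
  have hρ : 0 < ρ := by linarith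
  have hnorm : ∀ z : ℂ, ‖(ρ:ℂ) * w * z‖ = ρ * ‖z‖ := by
    intro z
    rw [norm_mul, norm_mul, hw, mul_one, Complex.norm_real, Real.norm_of_nonneg hρ.le]
  have hslit : ∀ z : ℂ, ρ * ‖z‖ < 1 → 0 < (1 - (ρ:ℂ) * w * z).re := by
    intro z hz
    have h2 : ((ρ:ℂ) * w * z).re ≤ ‖(ρ:ℂ) * w * z‖ := Complex.re_le_norm _
    rw [hnorm] at h2
    rw [Complex.sub_re, Complex.one_re]
    linarith
  have hder : ∀ z : ℂ, ρ * ‖z‖ < 1 →
      HasDerivAt (fun z => log (1 - (ρ:ℂ) * w * z)) (-((ρ:ℂ) * w) / (1 - (ρ:ℂ) * w * z)) z := by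
    intro z hz
    have h3 : HasDerivAt (fun z : ℂ => 1 - (ρ:ℂ) * w * z) (-((ρ:ℂ) * w)) z := by
      have := ((hasDerivAt_id z).const_mul ((ρ:ℂ) * w)).const_sub 1
      simpa using this
    exact h3.clog (Or.inl (hslit z hz))
  refine ⟨⟨1 / ρ, ?_, ?_⟩, ?_, ?_⟩
  · rw [lt_div_iff₀ hρ]; linarith
  · intro z hz
    rw [mem_ball_zero_iff, lt_div_iff₀ hρ] at hz
    exact (hder z (by linarith)).differentiableAt.differentiableWithinAt
  · intro z hz
    have hz1 : ρ * ‖z‖ < 1 := by nlinarith [norm_nonneg z]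
    have hre := hslit z hz1
    set u : ℂ := 1 - (ρ:ℂ) * w * z with hu
    have hlow : 1 - ρ ≤ ‖u‖ := by
      have h4 : ‖(1:ℂ)‖ - ‖(ρ:ℂ) * w * z‖ ≤ ‖(1:ℂ) - (ρ:ℂ) * w * z‖ := norm_sub_norm_le _ _
      rw [hnorm, norm_one] at h4
      have h5 : ρ * ‖z‖ ≤ ρ := by nlinarith [norm_nonneg z]
      linarith
    have hup : ‖u‖ ≤ 2 := by
      have h4 : ‖(1:ℂ) - (ρ:ℂ) * w * z‖ ≤ ‖(1:ℂ)‖ + ‖(ρ:ℂ) * w * z‖ := norm_sub_le _ _
      rw [hnorm, norm_one] at h4
      linarith
    have hpos : 0 < ‖u‖ := by linarith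
    have h1ρ : 0 < 1 - ρ := by linarith
    have harg : |arg u| ≤ π / 2 := Complex.abs_arg_le_pi_div_two_iff.2 hre.le
    have hlog : |Real.log ‖u‖| ≤ Real.log (1 / (1 - ρ)) := by
      rw [abs_le]
      constructor
      · rw [one_div, Real.log_inv, neg_neg]
        exact Real.log_le_log h1ρ hlow
      · refine Real.log_le_log hpos (hup.trans ?_)
        rw [le_div_iff₀ h1ρ]
        linarith
    have hL : log u = ((Real.log ‖u‖ : ℝ) : ℂ) + (arg u : ℂ) * I := rfl
    have hn : ‖log u‖ ≤ |Real.log ‖u‖| + |arg u| := by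
      rw [hL]
      refine (norm_add_le _ _).trans ?_
      rw [norm_mul, Complex.norm_I, mul_one, Complex.norm_real, Complex.norm_real, Real.norm_eq_abs,
        Real.norm_eq_abs]
    have hπ : π / 2 ≤ 2 := by linarith [Real.pi_le_four]
    linarith
  · intro z hz
    have hz1 : ρ * ‖z‖ < 1 := by rw [hz]; linarith
    rw [(hder z hz1).deriv]
    have hre := hslit z hz1
    have hna := hnorm z
    rw [hz, mul_one] at hna
    have h6 : z * (-((ρ:ℂ) * w) / (1 - (ρ:ℂ) * w * z)) = -(((ρ:ℂ) * w * z) / (1 - (ρ:ℂ) * w * z)) := by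
      ring
    rw [h6, Complex.neg_re, neg_neg]
    generalize (ρ:ℂ) * w * z = a at hre hna ⊢
    have h7 : ρ ^ 2 = a.re ^ 2 + a.im ^ 2 := by
      rw [← hna, Complex.sq_norm, Complex.normSq_apply]
      ring
    have h8 : ‖1 - a‖ ^ 2 = (1 - a.re) ^ 2 + a.im ^ 2 := by
      rw [Complex.sq_norm, Complex.normSq_apply]
      simp only [Complex.sub_re, Complex.one_re, Complex.sub_im, Complex.one_im]
      ring
    rw [Complex.sub_re, Complex.one_re] at hre
    have h9 : (0:ℝ) < (1 - a.re) ^ 2 + a.im ^ 2 := by positivity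
    rw [Complex.div_re, h7, h8, Complex.normSq_apply]
    simp only [Complex.sub_re, Complex.one_re, Complex.sub_im, Complex.one_im]
    have h10 : (1 - a.re) * (1 - a.re) + (0 - a.im) * (0 - a.im) = (1 - a.re) ^ 2 + a.im ^ 2 := by ring
    rw [h10]
    field_simp
    ring

lemma unif_int (φ : Circle ≃ₜ Circle) (C : ℝ) (h : Cond φ C) (ε : ℝ) (hε : 0 < ε) :
    ∃ δ : ℝ, 0 < δ ∧ ∀ (x : Circle) (s0 : ℝ),
      ∫ s in (s0 - δ)..(s0 + δ), |Real.log ‖(φ (Circle.exp s) : ℂ) - x‖| ≤ ε := by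
  obtain ⟨B, hB⟩ := glob φ C h
  have hlog2 : 0 < Real.log 2 := Real.log_pos (by norm_num)
  have key : ∀ δ : ℝ, 0 < δ → δ ≤ 1/2 → ∀ (x : Circle) (s0 : ℝ),
      ∫ s in (s0 - δ)..(s0 + δ), |Real.log ‖(φ (Circle.exp s) : ℂ) - x‖| ≤
        4*δ*(2*(C*(2 + Real.log (1/δ))) + (2*π*Real.log 2 + B)) + 2*δ*Real.log 2 := by
    intro δ hδ hδ2 x s0
    have hpi : (3:ℝ) < π := Real.pi_gt_three
    obtain ⟨g, hg⟩ : ∃ g : ℝ → ℝ, g = fun s => Real.log ‖(φ (Circle.exp s) : ℂ) - x‖ := ⟨_, rfl⟩
    have hgper : Function.Periodic g (2*π) := by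
      intro s
      simp only [hg]
      rw [Circle.periodic_exp s]
    have hg0 : IntervalIntegrable g volume (-π) π := by rw [hg]; exact (h x).1
    have hgint : ∀ a b, IntervalIntegrable g volume a b := by
      intro a b
      refine hgper.intervalIntegrable (by positivity) (t := -π) ?_ a b
      rw [show -π + 2 * π = π by ring]
      exact hg0
    have hgle : ∀ s, g s ≤ Real.log 2 := by
      intro s
      simp only [hg]
      by_cases h0 : ‖(φ (Circle.exp s) : ℂ) - x‖ = 0
      · rw [h0, Real.log_zero]; exact hlog2.le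
      · refine Real.log_le_log (lt_of_le_of_ne (norm_nonneg _) (Ne.symm h0)) ?_
        calc ‖(φ (Circle.exp s) : ℂ) - x‖ ≤ ‖(φ (Circle.exp s) : ℂ)‖ + ‖(x : ℂ)‖ := norm_sub_le _ _
          _ = 2 := by rw [Circle.norm_coe, Circle.norm_coe]; norm_num
    obtain ⟨l, hl⟩ : ∃ l : ℝ → ℝ, l = fun s => Real.log 2 - g s := ⟨_, rfl⟩
    have hl0 : ∀ s, 0 ≤ l s := fun s => by rw [hl]; exact sub_nonneg.2 (hgle s)
    have hlint : ∀ a b, IntervalIntegrable l volume a b := by
      intro a b
      rw [hl]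
      exact intervalIntegrable_const.sub (hgint a b)
    have hlper : Function.Periodic l (2*π) := by
      intro s
      simp only [hl]
      rw [hgper s]
    -- the test function
    obtain ⟨w, hw⟩ : ∃ w : ℂ, w = exp (((-s0 : ℝ) : ℂ) * I) := ⟨_, rfl⟩
    have hw1 : ‖w‖ = 1 := by rw [hw]; exact Complex.norm_exp_ofReal_mul_I _
    obtain ⟨⟨R, hR, hFd⟩, hFM, hFre⟩ := pois_test (1 - δ) (by linarith) (by linarith) w hw1
    obtain ⟨F, hF⟩ : ∃ F : ℂ → ℂ, F = fun z => log (1 - ((1 - δ : ℝ) : ℂ) * w * z) := ⟨_, rfl⟩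
    rw [← hF] at hFd hFre
    have hFM' : ∀ z : ℂ, ‖z‖ ≤ 1 → ‖F z‖ ≤ 2 + Real.log (1 / δ) := by
      intro z hz
      have := hFM z hz
      rw [show (1:ℝ) - (1 - δ) = δ by ring] at this
      rw [hF]
      exact this
    obtain ⟨hC0, hCM⟩ := cond_ext φ C h x F R (2 + Real.log (1 / δ)) hR hFd hFM'
    obtain ⟨K, hK⟩ : ∃ K : ℝ → ℂ, K = fun s : ℝ => exp ((s : ℂ) * I) * deriv F (exp ((s : ℂ) * I)) := ⟨_, rfl⟩
    have hmem : ∀ s : ℝ, exp ((s : ℂ) * I) ∈ ball (0 : ℂ) R := by
      intro s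
      rw [mem_ball_zero_iff, Complex.norm_exp_ofReal_mul_I]
      exact hR
    have hKc : Continuous K := by
      have h1 : ContinuousOn (deriv F) (ball 0 R) := (hFd.deriv isOpen_ball).continuousOn
      have h2 : Continuous (fun s : ℝ => exp ((s : ℂ) * I)) := by fun_prop
      have h3 : Continuous (fun s : ℝ => deriv F (exp ((s : ℂ) * I))) :=
        h1.comp_continuous h2 hmem
      rw [hK]
      exact h2.mul h3
    have hKint : ∫ s in (-π)..π, K s = 0 := by
      have hd : ∀ s ∈ Set.uIcc (-π) π, HasDerivAt (fun s : ℝ => F (exp ((s : ℂ) * I))) (I * K s) s := by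
        intro s _
        have h1 : HasDerivAt (fun s : ℝ => exp ((s : ℂ) * I)) (exp ((s : ℂ) * I) * I) s := by
          have := ((hasDerivAt_id (s : ℂ)).mul_const I).cexp.comp_ofReal
          simpa using this
        have h2 : HasDerivAt F (deriv F (exp ((s : ℂ) * I))) (exp ((s : ℂ) * I)) :=
          (hFd.differentiableAt (isOpen_ball.mem_nhds (hmem s))).hasDerivAt
        have h3 := h2.comp s h1
        have e : I * K s = deriv F (exp ((s : ℂ) * I)) * (exp ((s : ℂ) * I) * I) := by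
          rw [hK]; ring
        rw [e]
        exact h3
      have h4 := intervalIntegral.integral_eq_sub_of_hasDerivAt hd
        ((continuous_const.mul hKc).intervalIntegrable _ _)
      rw [intervalIntegral.integral_const_mul] at h4
      have h5 : exp (((π : ℝ) : ℂ) * I) = exp (((-π : ℝ) : ℂ) * I) := by
        rw [Complex.exp_pi_mul_I]
        push_cast
        rw [neg_mul, Complex.exp_neg, Complex.exp_pi_mul_I]
        norm_num
      rw [h5, sub_self] at h4
      exact (mul_eq_zero.1 h4).resolve_left I_ne_zero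
    have hgC : IntervalIntegrable (fun s => ((g s : ℝ) : ℂ)) volume (-π) π :=
      ⟨hg0.1.ofReal, hg0.2.ofReal⟩
    have hlC : IntervalIntegrable (fun s => ((l s : ℝ) : ℂ)) volume (-π) π :=
      ⟨(hlint _ _).1.ofReal, (hlint _ _).2.ofReal⟩
    have hKg : IntervalIntegrable (fun s => K s * ((g s : ℝ) : ℂ)) volume (-π) π :=
      hgC.continuousOn_mul hKc.continuousOn
    have hKl : IntervalIntegrable (fun s => K s * ((l s : ℝ) : ℂ)) volume (-π) π :=
      hlC.continuousOn_mul hKc.continuousOn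
    have hKlb : ‖∫ s in (-π)..π, K s * ((l s : ℝ) : ℂ)‖ ≤ C * (2 + Real.log (1 / δ)) := by
      have e1 : ∫ s in (-π)..π, K s * ((l s : ℝ) : ℂ) =
          (∫ s in (-π)..π, K s * ((Real.log 2 : ℝ) : ℂ)) - ∫ s in (-π)..π, K s * ((g s : ℝ) : ℂ) := by
        have hK2 : IntervalIntegrable (fun s => K s * ((Real.log 2 : ℝ) : ℂ)) volume (-π) π :=
          (hKc.mul continuous_const).intervalIntegrable _ _
        rw [← intervalIntegral.integral_sub hK2 hKg]
        congr 1
        funext s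
        rw [hl]; push_cast; ring
      rw [e1, intervalIntegral.integral_mul_const, hKint, zero_mul, zero_sub, norm_neg]
      rw [hK, hg]
      exact hCM
    have hre : ∫ s in (-π)..π, (K s).re * l s = (∫ s in (-π)..π, K s * ((l s : ℝ) : ℂ)).re := by
      have := Complex.reCLM.intervalIntegral_comp_comm hKl
      simp only [Complex.reCLM_apply] at this
      rw [← this]
      congr 1
      funext s
      simp
    have hreb : -(C * (2 + Real.log (1 / δ))) ≤ ∫ s in (-π)..π, (K s).re * l s := by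
      rw [hre]
      exact (abs_le.1 ((Complex.abs_re_le_norm _).trans hKlb)).1
    obtain ⟨P, hP⟩ : ∃ P : ℝ → ℝ, P = fun s => 1 - 2 * (K s).re := ⟨_, rfl⟩
    have hKrec : Continuous (fun s => (K s).re) := Complex.continuous_re.comp hKc
    have hPc : Continuous P := by rw [hP]; exact continuous_const.sub (continuous_const.mul hKrec)
    have hKper : Function.Periodic K (2*π) := by
      intro s
      have : exp (((s + 2 * π : ℝ) : ℂ) * I) = exp ((s : ℂ) * I) := by
        push_cast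
        rw [add_mul, Complex.exp_add, Complex.exp_two_pi_mul_I, mul_one]
      simp only [hK]
      rw [this]
    have hPlper : Function.Periodic (fun s => P s * l s) (2*π) := by
      intro s
      simp only [hP]
      rw [hKper s, hlper s]
    have hPlint : ∀ a b, IntervalIntegrable (fun s => P s * l s) volume a b := fun a b =>
      (hlint a b).continuousOn_mul hPc.continuousOn
    have hPl : ∫ s in (-π)..π, P s * l s ≤ 2*(C*(2 + Real.log (1/δ))) + (2*π*Real.log 2 + B) := by
      have e1 : ∫ s in (-π)..π, P s * l s =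
          (∫ s in (-π)..π, l s) - 2 * ∫ s in (-π)..π, (K s).re * l s := by
        rw [← intervalIntegral.integral_const_mul, ← intervalIntegral.integral_sub (hlint _ _)
          (((hlint _ _).continuousOn_mul hKrec.continuousOn).const_mul 2)]
        congr 1
        funext s
        rw [hP]; ring
      have e2 : ∫ s in (-π)..π, l s ≤ 2 * π * Real.log 2 + B := by
        have e3 : ∫ s in (-π)..π, l s = (∫ s in (-π)..π, Real.log 2) - ∫ s in (-π)..π, g s := by
          rw [hl, intervalIntegral.integral_sub intervalIntegrable_const hg0]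
        have e4 : -(∫ s in (-π)..π, g s) ≤ ∫ s in (-π)..π, |g s| := by
          have := intervalIntegral.abs_integral_le_integral_abs (f := g) (μ := volume)
            (show -π ≤ π by linarith)
          exact (neg_le_abs _).trans this
        have e5 : ∫ s in (-π)..π, |g s| ≤ B := by rw [hg]; exact hB x
        rw [e3, intervalIntegral.integral_const, smul_eq_mul]
        have e6 : (π - -π) * Real.log 2 = 2 * π * Real.log 2 := by ring
        rw [e6]
        linarith
      rw [e1]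
      linarith
    have hPre : ∀ s : ℝ, P s = (1 - (1 - δ) ^ 2) / ‖1 - ((1 - δ : ℝ) : ℂ) * w * exp ((s : ℂ) * I)‖ ^ 2 := by
      intro s
      have := hFre (exp ((s : ℂ) * I)) (Complex.norm_exp_ofReal_mul_I _)
      have hKs : K s = exp ((s : ℂ) * I) * deriv F (exp ((s : ℂ) * I)) := by rw [hK]
      rw [← hKs] at this
      have hPs : P s = 1 - 2 * (K s).re := by rw [hP]
      rw [hPs]
      linarith
    have hP0 : ∀ s, 0 ≤ P s := by
      intro s
      rw [hPre]
      apply div_nonneg _ (sq_nonneg _)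
      nlinarith
    have hPlow : ∀ s, |s - s0| ≤ δ → 1 ≤ 4 * δ * P s := by
      intro s hs
      have hwz : w * exp ((s : ℂ) * I) = exp (I * ((s - s0 : ℝ) : ℂ)) := by
        rw [hw, ← Complex.exp_add]
        congr 1
        push_cast
        ring
      have hn1 : ‖exp (I * ((s - s0 : ℝ) : ℂ)) - 1‖ ≤ δ := by
        refine (Real.norm_exp_I_mul_ofReal_sub_one_le).trans ?_
        rw [Real.norm_eq_abs]
        exact hs
      have hN : ‖1 - ((1 - δ : ℝ) : ℂ) * w * exp ((s : ℂ) * I)‖ ≤ 2 * δ := by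
        rw [mul_assoc, hwz]
        have e : (1 : ℂ) - ((1 - δ : ℝ) : ℂ) * exp (I * ((s - s0 : ℝ) : ℂ)) =
            (δ : ℂ) - ((1 - δ : ℝ) : ℂ) * (exp (I * ((s - s0 : ℝ) : ℂ)) - 1) := by
          push_cast; ring
        rw [e]
        refine (norm_sub_le _ _).trans ?_
        rw [norm_mul, Complex.norm_real, Complex.norm_real, Real.norm_eq_abs, Real.norm_eq_abs,
          abs_of_pos hδ, abs_of_pos (show (0:ℝ) < 1 - δ by linarith)]
        have := mul_le_mul_of_nonneg_left hn1 (show (0:ℝ) ≤ 1 - δ by linarith)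
        nlinarith
      have hNpos : 0 < ‖1 - ((1 - δ : ℝ) : ℂ) * w * exp ((s : ℂ) * I)‖ := by
        rw [mul_assoc, hwz]
        have e1 : ‖((1 - δ : ℝ) : ℂ) * exp (I * ((s - s0 : ℝ) : ℂ))‖ = 1 - δ := by
          rw [norm_mul, mul_comm I, Complex.norm_exp_ofReal_mul_I, Complex.norm_real,
            Real.norm_eq_abs, abs_of_pos (show (0:ℝ) < 1 - δ by linarith), mul_one]
        have e2 := norm_sub_norm_le (1 : ℂ) (((1 - δ : ℝ) : ℂ) * exp (I * ((s - s0 : ℝ) : ℂ)))
        rw [e1, norm_one] at e2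
        linarith
      rw [hPre]
      set N := ‖1 - ((1 - δ : ℝ) : ℂ) * w * exp ((s : ℂ) * I)‖
      have hN2 : N ^ 2 ≤ 4 * δ ^ 2 := by nlinarith
      rw [← mul_div_assoc, le_div_iff₀ (by positivity)]
      nlinarith [mul_pos hδ hδ, mul_pos (mul_pos hδ hδ) hδ]
    have hloc : ∫ s in (s0 - δ)..(s0 + δ), l s ≤
        4 * δ * (2*(C*(2 + Real.log (1/δ))) + (2*π*Real.log 2 + B)) := by
      have e1 : ∫ s in (s0 - δ)..(s0 + δ), l s ≤ ∫ s in (s0 - δ)..(s0 + δ), 4 * δ * (P s * l s) := by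
        refine intervalIntegral.integral_mono_on (by linarith) (hlint _ _)
          ((hPlint _ _).const_mul _) ?_
        intro s hs
        have h1 := hPlow s (by rw [abs_le]; constructor <;> linarith [hs.1, hs.2])
        have h2 := mul_le_mul_of_nonneg_right h1 (hl0 s)
        rw [one_mul] at h2
        linarith
      have e2 : ∫ s in (s0 - δ)..(s0 + δ), 4 * δ * (P s * l s) ≤
          ∫ s in (s0 - π)..(s0 + π), 4 * δ * (P s * l s) := by
        refine intervalIntegral.integral_mono_interval (by linarith) (by linarith) (by linarith)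
          ?_ ((hPlint _ _).const_mul _)
        refine Filter.Eventually.of_forall fun s => ?_
        have := mul_nonneg (hP0 s) (hl0 s)
        show 0 ≤ 4 * δ * (P s * l s)
        positivity
      have e3 : ∫ s in (s0 - π)..(s0 + π), P s * l s = ∫ s in (-π)..π, P s * l s := by
        have := hPlper.intervalIntegral_add_eq (s0 - π) (-π)
        rw [show s0 - π + 2 * π = s0 + π by ring, show -π + 2 * π = π by ring] at this
        exact this
      rw [intervalIntegral.integral_const_mul (4 * δ) (fun s => P s * l s) (a := s0 - π), e3] at e2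
      refine e1.trans (e2.trans ?_)
      exact mul_le_mul_of_nonneg_left hPl (by positivity)
    have hfin : ∫ s in (s0 - δ)..(s0 + δ), |g s| ≤ ∫ s in (s0 - δ)..(s0 + δ), (l s + Real.log 2) := by
      refine intervalIntegral.integral_mono_on (by linarith) (hgint _ _).abs
        ((hlint _ _).add intervalIntegrable_const) ?_
      intro s _
      have h1 := hl0 s
      have h2 : g s = Real.log 2 - l s := by rw [hl]; ring
      rw [h2, abs_le]
      constructor <;> linarith
    rw [intervalIntegral.integral_add (hlint _ _) intervalIntegrable_const,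
      intervalIntegral.integral_const, smul_eq_mul] at hfin
    have e7 : (s0 + δ - (s0 - δ)) * Real.log 2 = 2 * δ * Real.log 2 := by ring
    rw [e7] at hfin
    have e8 : ∫ s in (s0 - δ)..(s0 + δ), |Real.log ‖(φ (Circle.exp s) : ℂ) - x‖| =
        ∫ s in (s0 - δ)..(s0 + δ), |g s| := by rw [hg]
    rw [e8]
    linarith
  have hlim : Tendsto (fun δ : ℝ => 4*δ*(2*(C*(2 + Real.log (1/δ))) + (2*π*Real.log 2 + B)) +
      2*δ*Real.log 2) (𝓝[>] 0) (𝓝 0) := by
    have h1 : Tendsto (fun δ : ℝ => δ) (𝓝[>] 0) (𝓝 0) := tendsto_id.mono_left nhdsWithin_le_nhds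
    have h2 : Tendsto (fun δ : ℝ => Real.log δ * δ) (𝓝[>] 0) (𝓝 0) := by
      simpa only [Real.rpow_one] using tendsto_log_mul_rpow_nhdsGT_zero zero_lt_one
    have h3 : Tendsto (fun δ : ℝ => (16 * C + 4 * (2*π*Real.log 2 + B) + 2 * Real.log 2) * δ -
        8 * C * (Real.log δ * δ)) (𝓝[>] 0)
        (𝓝 ((16 * C + 4 * (2*π*Real.log 2 + B) + 2 * Real.log 2) * 0 - 8 * C * 0)) :=
      (h1.const_mul _).sub (h2.const_mul _)
    rw [mul_zero, mul_zero, sub_zero] at h3
    refine h3.congr fun δ => ?_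
    rw [one_div, Real.log_inv]
    ring
  have hev1 := hlim.eventually (eventually_lt_nhds hε)
  have hev2 : ∀ᶠ δ : ℝ in 𝓝[>] 0, δ ∈ Set.Ioc (0:ℝ) (1/2) :=
    Ioc_mem_nhdsGT (by norm_num)
  obtain ⟨δ, h1, h2⟩ := (hev1.and hev2).exists
  exact ⟨δ, h2.1, fun x s0 => (key δ h2.1 h2.2 x s0).trans h1.le⟩

lemma pc_ae (w : Circle) : ∀ᵐ s : ℝ, Circle.exp s ≠ w := by
  have hc : {s : ℝ | Circle.exp s = w}.Countable := by
    have : {s : ℝ | Circle.exp s = w} ⊆ Set.range (fun m : ℤ => arg (w : ℂ) + m * (2 * π)) := by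
      intro s hs
      have hs' : Circle.exp s = w := hs
      rw [← Circle.exp_arg w, Circle.exp_eq_exp] at hs'
      obtain ⟨m, hm⟩ := hs'
      exact ⟨m, hm.symm⟩
    exact (Set.countable_range _).mono this
  have h0 := hc.measure_zero volume
  rw [ae_iff]
  simpa using h0

lemma pc_dist (s s0 : ℝ) : ‖((Circle.exp s : Circle) : ℂ) - (Circle.exp s0 : Circle)‖ =
    2 * |Real.sin ((s - s0) / 2)| := by
  have h1 : ((Circle.exp s : Circle) : ℂ) - (Circle.exp s0 : Circle) =
      ((Circle.exp s0 : Circle) : ℂ) * (exp (I * ((s - s0 : ℝ) : ℂ)) - 1) := by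
    rw [Circle.coe_exp, Circle.coe_exp, mul_sub, mul_one, ← Complex.exp_add]
    congr 2
    push_cast
    ring
  rw [h1, norm_mul, Circle.norm_coe, one_mul, Complex.norm_exp_I_mul_ofReal_sub_one,
    Real.norm_eq_abs, abs_mul, abs_of_pos (by norm_num : (0:ℝ) < 2)]

lemma pc_int (φ : Circle ≃ₜ Circle) (C : ℝ) (h : Cond φ C) (x : Circle) (a b : ℝ) :
    IntervalIntegrable (fun s : ℝ => |Real.log ‖(φ (Circle.exp s) : ℂ) - x‖|) volume a b := by
  have h1 := (h x).1
  have hper : Function.Periodic (fun s : ℝ => Real.log ‖(φ (Circle.exp s) : ℂ) - x‖) (2 * π) := by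
    intro s
    simp only [Circle.exp_add, Circle.exp_two_pi, mul_one]
  have h2 : IntervalIntegrable (fun s : ℝ => Real.log ‖(φ (Circle.exp s) : ℂ) - x‖) volume
      (-π) (-π + 2 * π) := by
    have : -π + 2 * π = π := by ring
    rw [this]; exact h1
  exact (hper.intervalIntegrable (by positivity) h2 a b).abs

lemma pc_polar (z : ℂ) (hz : z ∈ closedBall (0 : ℂ) 1) :
    ∃ (x : Circle) (r : ℝ), 0 ≤ r ∧ r ≤ 1 ∧ z = r * (x : ℂ) := by
  rw [mem_closedBall_zero_iff] at hz
  refine ⟨Circle.exp (arg z), ‖z‖, norm_nonneg _, hz, ?_⟩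
  rw [Circle.coe_exp]
  exact (Complex.norm_mul_exp_arg_mul_I z).symm

lemma pc_logbd (φ : Circle ≃ₜ Circle) (x : Circle) (z : ℂ) (r : ℝ) (h0 : 0 ≤ r) (h1 : r ≤ 1)
    (hz : z = r * x) (s : ℝ) (hs : Circle.exp s ≠ φ.symm x) :
    ‖(φ (Circle.exp s) : ℂ) - x‖ ≤ 2 * ‖(φ (Circle.exp s) : ℂ) - z‖ ∧
    |Real.log ‖(φ (Circle.exp s) : ℂ) - z‖| ≤
      2 * Real.log 2 + |Real.log ‖(φ (Circle.exp s) : ℂ) - x‖| := by
  have hne : (φ (Circle.exp s) : ℂ) ≠ (x : ℂ) := by
    intro he
    have he' : φ (Circle.exp s) = x := Subtype.ext he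
    apply hs
    rw [← he', Homeomorph.symm_apply_apply]
  obtain ⟨a, -, c⟩ := half_dist (φ (Circle.exp s)) x z (Circle.norm_coe _) (Circle.norm_coe _) hne r h0 h1 hz
  exact ⟨a, c⟩

lemma pc_cont (φ : Circle ≃ₜ Circle) : Continuous (fun s : ℝ => (φ (Circle.exp s) : ℂ)) :=
  continuous_subtype_val.comp (φ.continuous.comp Circle.exp.continuous)

lemma pc_intz (φ : Circle ≃ₜ Circle) (C : ℝ) (h : Cond φ C) (z : ℂ)
    (hz : z ∈ closedBall (0 : ℂ) 1) (a b : ℝ) :
    IntervalIntegrable (fun s : ℝ => Real.log ‖(φ (Circle.exp s) : ℂ) - z‖) volume a b := by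
  obtain ⟨x, r, h0, h1, hzr⟩ := pc_polar z hz
  have hg : IntervalIntegrable (fun s : ℝ => 2 * Real.log 2 +
      |Real.log ‖(φ (Circle.exp s) : ℂ) - x‖|) volume a b :=
    intervalIntegrable_const.add (pc_int φ C h x a b)
  refine hg.mono_fun' ?_ ?_
  · have hc : Continuous (fun s : ℝ => ‖(φ (Circle.exp s) : ℂ) - z‖) :=
      ((pc_cont φ).sub continuous_const).norm
    exact (Real.measurable_log.comp hc.measurable).aestronglyMeasurable
  · refine ae_restrict_of_ae ?_
    filter_upwards [pc_ae (φ.symm x)] with s hs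
    rw [Real.norm_eq_abs]
    exact (pc_logbd φ x z r h0 h1 hzr s hs).2

lemma pc_tail (φ : Circle ≃ₜ Circle) (C : ℝ) (h : Cond φ C) (ε : ℝ) (hε : 0 < ε) :
    ∃ M : ℝ, ∀ z ∈ closedBall (0 : ℂ) 1,
      ∫ s in (-π)..π, |Real.log (max ‖(φ (Circle.exp s) : ℂ) - z‖ (Real.exp (-M))) -
        Real.log ‖(φ (Circle.exp s) : ℂ) - z‖| ≤ ε := by
  have hpi := Real.pi_pos
  have hl2 : 0 < Real.log 2 := Real.log_pos (by norm_num)
  obtain ⟨δ0, hδ0, hD⟩ := unif_int φ C h (ε / 2) (by positivity)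
  set δ := min δ0 (min (π / 2) (ε / (8 * Real.log 2))) with hδ
  have hδpos : 0 < δ := lt_min hδ0 (lt_min (by positivity) (by positivity))
  have hδ1 : δ ≤ δ0 := min_le_left _ _
  have hδ2 : δ ≤ π / 2 := (min_le_right _ _).trans (min_le_left _ _)
  have hδ3 : δ ≤ ε / (8 * Real.log 2) := (min_le_right _ _).trans (min_le_right _ _)
  set c := 2 * Real.sin (δ / 2) with hc
  have hsin : 0 < Real.sin (δ / 2) := Real.sin_pos_of_pos_of_lt_pi (by linarith) (by linarith)
  have hcpos : 0 < c := by positivity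
  obtain ⟨B, hB, hfar⟩ := far_bound φ c hcpos
  refine ⟨B + Real.log 2, fun z hz => ?_⟩
  obtain ⟨x, r, h0, h1, hzr⟩ := pc_polar z hz
  set s0 : ℝ := arg ((φ.symm x : Circle) : ℂ) with hs0
  have hexp : Circle.exp s0 = φ.symm x := Circle.exp_arg _
  set g : ℝ → ℝ := fun s => Real.log (max ‖(φ (Circle.exp s) : ℂ) - z‖ (Real.exp (-(B + Real.log 2)))) -
        Real.log ‖(φ (Circle.exp s) : ℂ) - z‖ with hg
  have hEM : Real.exp (-(B + Real.log 2)) = Real.exp (-B) / 2 := by
    rw [neg_add, Real.exp_add, Real.exp_neg (Real.log 2), Real.exp_log (by norm_num : (0:ℝ) < 2)]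
    rfl
  -- claim 1
  have claim1 : ∀ s, c ≤ ‖((Circle.exp s : Circle) : ℂ) - φ.symm x‖ → g s = 0 := by
    intro s hs
    have hne : Circle.exp s ≠ φ.symm x := by
      intro he
      rw [he, sub_self, norm_zero] at hs
      linarith
    have hb := hfar x (Circle.exp s) hs
    obtain ⟨ha, -⟩ := pc_logbd φ x z r h0 h1 hzr s hne
    have hne' : (φ (Circle.exp s) : ℂ) ≠ (x : ℂ) := by
      intro he
      have he' : φ (Circle.exp s) = x := Subtype.ext he
      apply hne
      rw [← he', Homeomorph.symm_apply_apply]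
    have hpos : 0 < ‖(φ (Circle.exp s) : ℂ) - x‖ := norm_pos_iff.mpr (sub_ne_zero.mpr hne')
    have h3 : Real.exp (-B) ≤ ‖(φ (Circle.exp s) : ℂ) - x‖ := by
      rw [← Real.le_log_iff_exp_le hpos]
      exact (abs_le.mp hb).1
    have h4 : Real.exp (-(B + Real.log 2)) ≤ ‖(φ (Circle.exp s) : ℂ) - z‖ := by
      rw [hEM]; linarith
    simp only [hg]
    rw [max_eq_left h4, sub_self]
  -- claim 2
  have claim2 : ∀ s, Circle.exp s ≠ φ.symm x →
      |g s| ≤ 2 * Real.log 2 + |Real.log ‖(φ (Circle.exp s) : ℂ) - x‖| := by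
    intro s hs
    obtain ⟨ha, hb⟩ := pc_logbd φ x z r h0 h1 hzr s hs
    have hne' : (φ (Circle.exp s) : ℂ) ≠ (x : ℂ) := by
      intro he
      have he' : φ (Circle.exp s) = x := Subtype.ext he
      apply hs
      rw [← he', Homeomorph.symm_apply_apply]
    have hpos : 0 < ‖(φ (Circle.exp s) : ℂ) - x‖ := norm_pos_iff.mpr (sub_ne_zero.mpr hne')
    have hposz : 0 < ‖(φ (Circle.exp s) : ℂ) - z‖ := by linarith
    refine le_trans ?_ hb
    simp only [hg]
    rcases le_total (Real.exp (-(B + Real.log 2))) ‖(φ (Circle.exp s) : ℂ) - z‖ with h4 | h4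
    · rw [max_eq_left h4, sub_self, abs_zero]
      exact abs_nonneg _
    · rw [max_eq_right h4, Real.log_exp]
      have h5 : Real.log ‖(φ (Circle.exp s) : ℂ) - z‖ ≤ -(B + Real.log 2) := by
        rw [← Real.log_exp (-(B + Real.log 2))]
        exact Real.log_le_log hposz h4
      rw [abs_of_nonneg (by linarith), abs_of_nonpos (by linarith)]
      linarith
  have gper : Function.Periodic (fun s => |g s|) (2 * π) := by
    intro s
    simp only [hg, Circle.exp_add, Circle.exp_two_pi, mul_one]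
  have gint : ∀ a b, IntervalIntegrable (fun s => |g s|) volume a b := by
    intro a b
    have hc1 : Continuous (fun s : ℝ => Real.log (max ‖(φ (Circle.exp s) : ℂ) - z‖
        (Real.exp (-(B + Real.log 2))))) := by
      refine Continuous.log ?_ ?_
      · exact (((pc_cont φ).sub continuous_const).norm).max continuous_const
      · intro s
        exact (lt_max_of_lt_right (Real.exp_pos _)).ne'
    exact ((hc1.intervalIntegrable a b).sub (pc_intz φ C h z hz a b)).abs
  have hshift : ∫ s in (-π)..π, |g s| = ∫ s in (s0 - π)..(s0 + π), |g s| := by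
    have h2 := gper.intervalIntegral_add_eq (-π) (s0 - π)
    have e1 : -π + 2 * π = π := by ring
    have e2 : s0 - π + 2 * π = s0 + π := by ring
    rw [e1, e2] at h2
    exact h2
  show ∫ s in (-π)..π, |g s| ≤ ε
  rw [hshift, ← intervalIntegral.integral_add_adjacent_intervals (gint (s0 - π) (s0 - δ)) (gint (s0 - δ) (s0 + π)),
    ← intervalIntegral.integral_add_adjacent_intervals (gint (s0 - δ) (s0 + δ)) (gint (s0 + δ) (s0 + π))]
  have hfarc : ∀ s, δ ≤ |s - s0| → |s - s0| ≤ π → g s = 0 := by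
    intro s hs1 hs2
    apply claim1
    rw [← hexp, pc_dist, hc]
    have h3 : Real.sin (δ / 2) ≤ |Real.sin ((s - s0) / 2)| := by
      have h4 : |Real.sin ((s - s0) / 2)| = Real.sin (|s - s0| / 2) := by
        rcases abs_cases (s - s0) with ⟨h5, h6⟩ | ⟨h5, h6⟩
        · rw [h5] at hs2 ⊢
          exact abs_of_nonneg (Real.sin_nonneg_of_nonneg_of_le_pi (by linarith) (by linarith))
        · rw [h5] at hs2 ⊢
          rw [neg_div, Real.sin_neg]
          exact abs_of_nonpos (Real.sin_nonpos_of_nonpos_of_neg_pi_le (by linarith) (by linarith))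
      rw [h4]
      exact Real.sin_le_sin_of_le_of_le_pi_div_two (by linarith) (by linarith) (by linarith)
    linarith
  have hz1 : ∫ s in (s0 - π)..(s0 - δ), |g s| = 0 := by
    have : ∫ s in (s0 - π)..(s0 - δ), |g s| = ∫ s in (s0 - π)..(s0 - δ), (0:ℝ) := by
      refine intervalIntegral.integral_congr fun s hs => ?_
      rw [Set.uIcc_of_le (by linarith)] at hs
      have hs1 := hs.1
      have hs2 := hs.2
      have : |s - s0| = s0 - s := by rw [abs_of_nonpos (by linarith)]; ring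
      rw [hfarc s (by rw [this]; linarith) (by rw [this]; linarith), abs_zero]
    rw [this]; simp
  have hz2 : ∫ s in (s0 + δ)..(s0 + π), |g s| = 0 := by
    have : ∫ s in (s0 + δ)..(s0 + π), |g s| = ∫ s in (s0 + δ)..(s0 + π), (0:ℝ) := by
      refine intervalIntegral.integral_congr fun s hs => ?_
      rw [Set.uIcc_of_le (by linarith)] at hs
      have hs1 := hs.1
      have hs2 := hs.2
      have : |s - s0| = s - s0 := abs_of_nonneg (by linarith)
      rw [hfarc s (by rw [this]; linarith) (by rw [this]; linarith), abs_zero]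
    rw [this]; simp
  rw [hz1, hz2, zero_add, add_zero]
  have hmid : ∫ s in (s0 - δ)..(s0 + δ), |g s| ≤
      ∫ s in (s0 - δ)..(s0 + δ), (2 * Real.log 2 + |Real.log ‖(φ (Circle.exp s) : ℂ) - x‖|) := by
    refine intervalIntegral.integral_mono_ae (by linarith) (gint _ _)
      (intervalIntegrable_const.add (pc_int φ C h x _ _)) ?_
    filter_upwards [pc_ae (φ.symm x)] with s hs
    exact claim2 s hs
  refine hmid.trans ?_
  rw [intervalIntegral.integral_add intervalIntegrable_const (pc_int φ C h x _ _),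
    intervalIntegral.integral_const]
  have hDδ : ∫ s in (s0 - δ)..(s0 + δ), |Real.log ‖(φ (Circle.exp s) : ℂ) - x‖| ≤ ε / 2 := by
    refine le_trans ?_ (hD x s0)
    refine intervalIntegral.integral_mono_interval (by linarith) (by linarith) (by linarith) ?_
      (pc_int φ C h x _ _)
    exact Filter.Eventually.of_forall fun s => abs_nonneg _
  have h5 : (s0 + δ - (s0 - δ)) • (2 * Real.log 2) ≤ ε / 2 := by
    rw [smul_eq_mul]
    rw [le_div_iff₀ (by positivity)] at hδ3
    nlinarith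
  linarith

lemma pot_cont (φ : Circle ≃ₜ Circle) (C : ℝ) (h : Cond φ C) (q : ℝ → ℝ) (hq : Continuous q)
    (hper : ∀ s, q (s + 2 * π) = q s) :
    ContinuousOn (fun z : ℂ => ∫ s in (-π)..π, Real.log ‖(φ (Circle.exp s) : ℂ) - z‖ * q s)
      (closedBall 0 1) := by
  have hpi := Real.pi_pos
  obtain ⟨Q, hQ⟩ : ∃ Q : ℝ, ∀ s ∈ Set.Icc (-π) π, |q s| ≤ Q := by
    obtain ⟨Q, hQ⟩ := (isCompact_Icc (a := -π) (b := π)).exists_bound_of_continuousOn hq.continuousOn
    exact ⟨Q, fun s hs => by simpa using hQ s hs⟩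
  have hQ0 : 0 ≤ Q := (abs_nonneg _).trans (hQ 0 ⟨by linarith, by linarith⟩)
  refine continuousOn_of_uniform_approx_of_continuousOn fun u hu => ?_
  obtain ⟨ε, hε, hεu⟩ := Metric.mem_uniformity_dist.mp hu
  obtain ⟨M, hM⟩ := pc_tail φ C h (ε / (2 * (Q + 1))) (by positivity)
  refine ⟨fun z => ∫ s in (-π)..π, Real.log (max ‖(φ (Circle.exp s) : ℂ) - z‖ (Real.exp (-M))) * q s,
    ?_, ?_⟩
  · refine Continuous.continuousOn ?_
    refine intervalIntegral.continuous_parametric_intervalIntegral_of_continuous' ?_ _ _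
    have h1 : Continuous (fun p : ℂ × ℝ => Real.log (max ‖(φ (Circle.exp p.2) : ℂ) - p.1‖
        (Real.exp (-M)))) := by
      refine Continuous.log ?_ ?_
      · exact ((((pc_cont φ).comp continuous_snd).sub continuous_fst).norm).max continuous_const
      · intro p
        exact (lt_max_of_lt_right (Real.exp_pos _)).ne'
    exact h1.mul (hq.comp continuous_snd)
  · intro z hz
    apply hεu
    rw [dist_comm, Real.dist_eq]
    have hc1 : Continuous (fun s : ℝ => Real.log (max ‖(φ (Circle.exp s) : ℂ) - z‖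
        (Real.exp (-M)))) := by
      refine Continuous.log ?_ ?_
      · exact (((pc_cont φ).sub continuous_const).norm).max continuous_const
      · intro s
        exact (lt_max_of_lt_right (Real.exp_pos _)).ne'
    have i1 : IntervalIntegrable (fun s : ℝ => Real.log (max ‖(φ (Circle.exp s) : ℂ) - z‖
        (Real.exp (-M))) * q s) volume (-π) π := (hc1.mul hq).intervalIntegrable _ _
    have i2 : IntervalIntegrable (fun s : ℝ => Real.log ‖(φ (Circle.exp s) : ℂ) - z‖ * q s) volume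
        (-π) π := (pc_intz φ C h z hz _ _).mul_continuousOn hq.continuousOn
    have i3 : IntervalIntegrable (fun s : ℝ => |Real.log (max ‖(φ (Circle.exp s) : ℂ) - z‖
        (Real.exp (-M))) - Real.log ‖(φ (Circle.exp s) : ℂ) - z‖|) volume (-π) π :=
      ((hc1.intervalIntegrable _ _).sub (pc_intz φ C h z hz _ _)).abs
    rw [← intervalIntegral.integral_sub i1 i2]
    calc |∫ s in (-π)..π, (Real.log (max ‖(φ (Circle.exp s) : ℂ) - z‖ (Real.exp (-M))) * q s -
          Real.log ‖(φ (Circle.exp s) : ℂ) - z‖ * q s)|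
        ≤ ∫ s in (-π)..π, |Real.log (max ‖(φ (Circle.exp s) : ℂ) - z‖ (Real.exp (-M))) * q s -
          Real.log ‖(φ (Circle.exp s) : ℂ) - z‖ * q s| :=
          intervalIntegral.abs_integral_le_integral_abs (by linarith)
      _ ≤ ∫ s in (-π)..π, Q * |Real.log (max ‖(φ (Circle.exp s) : ℂ) - z‖ (Real.exp (-M))) -
          Real.log ‖(φ (Circle.exp s) : ℂ) - z‖| := by
          refine intervalIntegral.integral_mono_on (by linarith) (i1.sub i2).abs (i3.const_mul Q) ?_
          intro s hs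
          rw [← sub_mul, abs_mul, mul_comm]
          exact mul_le_mul_of_nonneg_right (hQ s hs) (abs_nonneg _)
      _ = Q * ∫ s in (-π)..π, |Real.log (max ‖(φ (Circle.exp s) : ℂ) - z‖ (Real.exp (-M))) -
          Real.log ‖(φ (Circle.exp s) : ℂ) - z‖| := intervalIntegral.integral_const_mul _ _
      _ ≤ Q * (ε / (2 * (Q + 1))) := mul_le_mul_of_nonneg_left (hM z hz) hQ0
      _ < ε := by
          have h6 : Q * (ε / (2 * (Q + 1))) = ε * (Q / (2 * (Q + 1))) := by ring
          rw [h6]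
          have h7 : Q / (2 * (Q + 1)) < 1 := by
            rw [div_lt_one (by positivity)]
            linarith
          nlinarith

lemma poisson_lim (W : Circle → ℝ) (hW : Continuous W) (x : Circle) :
    Tendsto (fun z => (HG W 0 z).re) (𝓝[ball 0 1] (x : ℂ)) (𝓝 (W x)) := by
  have hnorm : ∀ t : ℝ, ‖exp (t * I)‖ = 1 := fun t => norm_exp_ofReal_mul_I t
  have hne : ∀ z ∈ ball (0:ℂ) 1, ∀ t : ℝ, exp (t * I) - z ≠ 0 := by
    intro z hz t h
    have h1 : exp (t*I) = z := sub_eq_zero.1 h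
    have h2 := hnorm t
    rw [h1] at h2
    rw [mem_ball_zero_iff] at hz
    linarith
  have hKform : ∀ (z : ℂ) (t : ℝ), ((exp (t * I) + z) / (exp (t * I) - z)).re
      = (1 - ‖z‖^2) / ‖exp (t*I) - z‖^2 := by
    intro z t
    have h := congrFun (poissonKernel_eq_re_herglotzRieszKernel (c := 0) (w := z)) (exp (t*I))
    rw [Function.comp_apply, poissonKernel_def, herglotzRieszKernel_def] at h
    simp only [sub_zero, hnorm, one_pow] at h
    exact h.symm
  have hcontK : ∀ z ∈ ball (0:ℂ) 1, Continuous fun t : ℝ =>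
      (exp (t * I) + z) / (exp (t * I) - z) := by
    intro z hz
    exact Continuous.div (by fun_prop) (by fun_prop) (hne z hz)
  have hcontKr : ∀ z ∈ ball (0:ℂ) 1, Continuous fun t : ℝ =>
      (1 - ‖z‖^2) / ‖exp (t*I) - z‖^2 := by
    intro z hz
    have := continuous_re.comp (hcontK z hz)
    refine this.congr fun t => hKform z t
  have hmean : ∀ z ∈ ball (0:ℂ) 1, ∫ t in (-π)..π, (1 - ‖z‖^2) / ‖exp (t*I) - z‖^2 = 2 * π := by
    intro z hz
    have h := (diffContOnCl_const (c := (1:ℂ)) (𝕜 := ℂ) (s := ball (0:ℂ) 1)).circleAverage_poissonKernel_smul' hz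
    rw [Real.circleAverage_def] at h
    simp only [sub_zero] at h
    have hper : Function.Periodic (fun t : ℝ => (1 - ‖z‖^2) / ‖exp (t*I) - z‖^2) (2*π) := by
      intro t
      have : exp (((t + 2*π : ℝ) : ℂ) * I) = exp (t * I) := by
        push_cast
        rw [add_mul, exp_add]
        simp [Complex.exp_two_pi_mul_I]
      simp only [this]
    have h2 := hper.intervalIntegral_add_eq (-π) 0
    have h3 : -π + 2*π = π := by ring
    rw [h3, zero_add] at h2
    rw [h2]
    have h4 : (∫ θ in (0:ℝ)..2*π, ((‖circleMap 0 1 θ‖ ^ 2 - ‖z‖ ^ 2) / ‖circleMap 0 1 θ - z‖ ^ 2) • (1:ℂ))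
        = ((∫ θ in (0:ℝ)..2*π, (1 - ‖z‖^2) / ‖exp (θ*I) - z‖^2 : ℝ) : ℂ) := by
      rw [← intervalIntegral.integral_ofReal]
      congr 1
      funext θ
      simp [circleMap]
    rw [h4] at h
    have h5 : ((2*π)⁻¹ : ℝ) * (∫ θ in (0:ℝ)..2*π, (1 - ‖z‖^2) / ‖exp (θ*I) - z‖^2 : ℝ) = 1 := by
      have := congrArg Complex.re h
      simpa using this
    field_simp at h5
    linarith
  obtain ⟨M, hM⟩ := (isCompact_univ (X := Circle)).exists_bound_of_continuousOn hW.continuousOn
  have hM' : ∀ y, |W y| ≤ M := fun y => hM y (mem_univ _)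
  have hM0 : 0 ≤ M := (abs_nonneg _).trans (hM' x)
  have hHG : ∀ z ∈ ball (0:ℂ) 1, (HG W 0 z).re - W x =
      (1/(2*π)) * ∫ t in (-π)..π, ((1 - ‖z‖^2) / ‖exp (t*I) - z‖^2) * (W (Circle.exp t) - W x) := by
    intro z hz
    have hWc : Continuous fun t : ℝ => W (Circle.exp t) := hW.comp Circle.exp.continuous
    have e1 : (HG W 0 z).re = (1/(2*π)) * ∫ t in (-π)..π,
        ((1 - ‖z‖^2) / ‖exp (t*I) - z‖^2) * W (Circle.exp t) := by
      have hint : IntervalIntegrable (fun t : ℝ => ((exp (t * I) + z) / (exp (t * I) - z)) *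
          ((W (Circle.exp t) - 0 : ℝ) : ℂ)) volume (-π) π := by
        apply Continuous.intervalIntegrable
        exact (hcontK z hz).mul (continuous_ofReal.comp (hWc.sub continuous_const))
      have h6 := Complex.reCLM.intervalIntegral_comp_comm hint
      have h7 : (HG W 0 z).re = (1/(2*π)) * (∫ t in (-π)..π, ((exp (t * I) + z) / (exp (t * I) - z)) *
          ((W (Circle.exp t) - 0 : ℝ) : ℂ)).re := by
        unfold HG
        rw [add_re]
        have : (1 / (2 * (π:ℂ))) = ((1/(2*π) : ℝ) : ℂ) := by push_cast; ring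
        rw [this, re_ofReal_mul]
        simp
      rw [h7]
      congr 1
      rw [Complex.reCLM_apply] at h6
      rw [← h6]
      congr 1
      funext t
      rw [Complex.reCLM_apply, re_mul_ofReal, hKform, sub_zero]
    have e2 : W x = (1/(2*π)) * ∫ t in (-π)..π, ((1 - ‖z‖^2) / ‖exp (t*I) - z‖^2) * W x := by
      rw [intervalIntegral.integral_mul_const, hmean z hz]
      field_simp
    rw [e1]
    conv_lhs => rw [e2]
    rw [← mul_sub, ← intervalIntegral.integral_sub]
    · congr 2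
      funext t
      ring
    · exact ((hcontKr z hz).mul hWc).intervalIntegrable _ _
    · exact ((hcontKr z hz).mul continuous_const).intervalIntegrable _ _
  rw [Metric.tendsto_nhdsWithin_nhds]
  intro ε hε
  obtain ⟨δ, hδ, hδW⟩ := Metric.continuous_iff.1 hW x (ε/2) (half_pos hε)
  -- the far bound
  set C : ℝ := 2 * M * (4 / δ^2) with hC
  have hC0 : 0 ≤ C := by positivity
  have key : ∀ z ∈ ball (0:ℂ) 1, dist z x < δ/2 →
      |(HG W 0 z).re - W x| ≤ ε/2 + C * (1 - ‖z‖^2) := by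
    intro z hz hzx
    have hz1 : ‖z‖ < 1 := by simpa using hz
    have hz2 : 0 < 1 - ‖z‖^2 := by nlinarith [norm_nonneg z]
    rw [hHG z hz, abs_mul, abs_of_pos (by positivity : (0:ℝ) < 1/(2*π))]
    have hb : ∀ t : ℝ, ‖((1 - ‖z‖^2) / ‖exp (t*I) - z‖^2) * (W (Circle.exp t) - W x)‖ ≤
        (ε/2) * ((1 - ‖z‖^2) / ‖exp (t*I) - z‖^2) + C * (1 - ‖z‖^2) := by
      intro t
      have hpos : 0 < ‖exp (t*I) - z‖ := norm_pos_iff.2 (hne z hz t)
      have hk : 0 ≤ (1 - ‖z‖^2) / ‖exp (t*I) - z‖^2 := by positivity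
      rw [norm_mul, Real.norm_eq_abs, Real.norm_eq_abs, abs_of_nonneg hk]
      rcases lt_or_ge (dist (Circle.exp t) x) δ with h | h
      · have h8 := (hδW _ h).le
        rw [Real.dist_eq] at h8
        have : 0 ≤ C * (1 - ‖z‖^2) := by positivity
        nlinarith [mul_le_mul_of_nonneg_left h8 hk]
      · have h9 : |W (Circle.exp t) - W x| ≤ 2 * M := by
          have := abs_sub (W (Circle.exp t)) (W x)
          linarith [hM' (Circle.exp t), hM' x]
        have h10 : δ/2 ≤ ‖exp (t*I) - z‖ := by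
          have h11 : dist (exp (t*I)) (x:ℂ) ≥ δ := by
            have : dist (Circle.exp t) x = dist ((Circle.exp t : Circle) : ℂ) (x:ℂ) := rfl
            rw [this, Circle.coe_exp] at h
            exact h
          have h12 := dist_triangle (exp (t*I)) z (x:ℂ)
          rw [← dist_eq_norm]
          linarith
        have h13 : (1 - ‖z‖^2) / ‖exp (t*I) - z‖^2 ≤ (4/δ^2) * (1 - ‖z‖^2) := by
          rw [div_le_iff₀ (by positivity)]
          have h14 : (δ/2)^2 ≤ ‖exp (t*I) - z‖^2 := by gcongr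
          have h15 : 1 ≤ (4/δ^2) * ‖exp (t*I) - z‖^2 := by
            calc (1:ℝ) = (4/δ^2) * (δ/2)^2 := by field_simp; norm_num
              _ ≤ _ := by gcongr
          nlinarith
        have h16 : 0 ≤ (ε/2) * ((1 - ‖z‖^2) / ‖exp (t*I) - z‖^2) := by positivity
        calc (1 - ‖z‖^2) / ‖exp (t*I) - z‖^2 * |W (Circle.exp t) - W x|
            ≤ ((4/δ^2) * (1 - ‖z‖^2)) * (2 * M) := by
              apply mul_le_mul h13 h9 (abs_nonneg _) (by positivity)
          _ = C * (1 - ‖z‖^2) := by rw [hC]; ring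
          _ ≤ _ := by linarith
    have hi1 : IntervalIntegrable (fun t : ℝ => (ε/2) * ((1 - ‖z‖^2) / ‖exp (t*I) - z‖^2) + C * (1 - ‖z‖^2)) volume (-π) π :=
      ((continuous_const.mul (hcontKr z hz)).add continuous_const).intervalIntegrable _ _
    have h17 := intervalIntegral.norm_integral_le_of_norm_le (a := -π) (b := π) (μ := volume)
      (by linarith [Real.pi_pos]) (Filter.Eventually.of_forall fun t _ => hb t) hi1
    have h18 : ∫ t in (-π)..π, ((ε/2) * ((1 - ‖z‖^2) / ‖exp (t*I) - z‖^2) + C * (1 - ‖z‖^2))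
        = (ε/2) * (2*π) + (2*π) * (C * (1 - ‖z‖^2)) := by
      rw [intervalIntegral.integral_add, intervalIntegral.integral_const_mul, hmean z hz,
        intervalIntegral.integral_const]
      · simp only [smul_eq_mul]
        ring
      · exact (continuous_const.mul (hcontKr z hz)).intervalIntegrable _ _
      · exact continuous_const.intervalIntegrable _ _
    rw [h18, Real.norm_eq_abs] at h17
    calc (1/(2*π)) * |∫ t in (-π)..π, ((1 - ‖z‖^2) / ‖exp (t*I) - z‖^2) * (W (Circle.exp t) - W x)|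
        ≤ (1/(2*π)) * ((ε/2) * (2*π) + (2*π) * (C * (1 - ‖z‖^2))) := by gcongr
      _ = ε/2 + C * (1 - ‖z‖^2) := by field_simp
  refine ⟨min (δ/2) (ε / (2 * (2 * C + 1))), by positivity, ?_⟩
  intro z hz hzx
  rw [Real.dist_eq]
  have h20 := key z hz (lt_of_lt_of_le hzx (min_le_left _ _))
  have h21 : dist z x < ε / (2 * (2 * C + 1)) := lt_of_lt_of_le hzx (min_le_right _ _)
  have hz1 : ‖z‖ < 1 := by simpa using hz
  have h22 : 1 - ‖z‖ ≤ dist z x := by
    have h23 : ‖(x:ℂ)‖ = 1 := Circle.norm_coe x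
    have h24 := norm_sub_norm_le (x:ℂ) z
    rw [h23, ← dist_eq_norm, dist_comm] at h24
    exact h24
  have h25 : 1 - ‖z‖^2 ≤ 2 * dist z x := by nlinarith [norm_nonneg z]
  have h26 : dist z x * (2 * (2 * C + 1)) < ε := by
    rwa [lt_div_iff₀ (by positivity)] at h21
  have h27 : C * (1 - ‖z‖^2) ≤ C * (2 * dist z x) := by gcongr
  have h28 : 0 ≤ dist z (x:ℂ) := dist_nonneg
  have h29 : C * (2 * dist z x) < ε/2 ∨ C * (2 * dist z x) < ε / 2 := by
    left
    by_cases hd : dist z (x:ℂ) = 0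
    · rw [hd]; simp; exact hε
    · have : 0 < dist z (x:ℂ) := lt_of_le_of_ne h28 (Ne.symm hd)
      nlinarith
  rcases h29 with h | h <;> linarith

lemma HG_zero_ne (x : ℂ) (hx : ‖x‖ < 1) (t : ℝ) : exp (t * I) - x ≠ 0 := by
  intro h
  have h1 : exp (t * I) = x := sub_eq_zero.1 h
  have h2 : ‖exp (t * I)‖ = 1 := Complex.norm_exp_ofReal_mul_I t
  rw [h1] at h2
  linarith

lemma HG_zero_cont (W : Circle → ℝ) (hW : Continuous W) (x : ℂ) (hx : ‖x‖ < 1) :
    Continuous (fun t : ℝ => ((exp (t * I) + x) / (exp (t * I) - x)) * ((W (Circle.exp t) - 0 : ℝ) : ℂ)) := by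
  have h1 : Continuous (fun t : ℝ => exp (t * I)) := by fun_prop
  have h2 : Continuous (fun t : ℝ => ((W (Circle.exp t) - 0 : ℝ) : ℂ)) := by
    have : Continuous (fun t : ℝ => W (Circle.exp t) - 0) := (hW.comp Circle.exp.continuous).sub continuous_const
    exact Complex.continuous_ofReal.comp this
  exact ((h1.add continuous_const).div (h1.sub continuous_const) (HG_zero_ne x hx)).mul h2

lemma HG_zero_cont' (W : Circle → ℝ) (hW : Continuous W) (x : ℂ) (hx : ‖x‖ < 1) :
    Continuous (fun t : ℝ => (2 * exp (t * I) / (exp (t * I) - x) ^ 2) * ((W (Circle.exp t) - 0 : ℝ) : ℂ)) := by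
  have h1 : Continuous (fun t : ℝ => exp (t * I)) := by fun_prop
  have h2 : Continuous (fun t : ℝ => ((W (Circle.exp t) - 0 : ℝ) : ℂ)) := by
    have : Continuous (fun t : ℝ => W (Circle.exp t) - 0) := (hW.comp Circle.exp.continuous).sub continuous_const
    exact Complex.continuous_ofReal.comp this
  exact ((continuous_const.mul h1).div ((h1.sub continuous_const).pow 2)
    (fun t => pow_ne_zero 2 (HG_zero_ne x hx t))).mul h2


lemma HG_zero (W : Circle → ℝ) (hW : Continuous W) :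
    DifferentiableOn ℂ (HG W 0) (ball 0 1) ∧ (HG W 0 0).im = 0 := by
  constructor
  · intro z0 hz0
    rw [mem_ball_zero_iff] at hz0
    obtain ⟨M, hM⟩ : ∃ M : ℝ, ∀ z : Circle, ‖W z‖ ≤ M := by
      obtain ⟨M, hM⟩ := (isCompact_univ : IsCompact (univ : Set Circle)).exists_bound_of_continuousOn
        hW.continuousOn
      exact ⟨M, fun z => hM z (mem_univ z)⟩
    have hM0 : 0 ≤ M := (norm_nonneg _).trans (hM 1)
    set δ : ℝ := (1 - ‖z0‖) / 2 with hδ
    have hδ0 : 0 < δ := by rw [hδ]; linarith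
    have hx1 : ∀ x ∈ ball z0 δ, ‖x‖ ≤ 1 - δ := by
      intro x hx
      rw [mem_ball, dist_eq_norm] at hx
      have : ‖x‖ ≤ ‖x - z0‖ + ‖z0‖ := by
        have := norm_add_le (x - z0) z0
        simpa using this
      rw [hδ] at hx ⊢
      linarith
    have key := intervalIntegral.hasDerivAt_integral_of_dominated_loc_of_deriv_le
      (μ := volume) (a := -π) (b := π) (x₀ := z0) (s := ball z0 δ)
      (F := fun (x : ℂ) (t : ℝ) => ((exp (t * I) + x) / (exp (t * I) - x)) * ((W (Circle.exp t) - 0 : ℝ) : ℂ))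
      (F' := fun (x : ℂ) (t : ℝ) => (2 * exp (t * I) / (exp (t * I) - x) ^ 2) * ((W (Circle.exp t) - 0 : ℝ) : ℂ))
      (bound := fun _ => 2 / δ ^ 2 * M)
      (ball_mem_nhds z0 hδ0) ?_ ?_ ?_ ?_ ?_ ?_
    · have h2 : HasDerivAt (HG W 0) ((1 / (2 * π)) * (∫ t in (-π)..π, (2 * exp (t * I) / (exp (t * I) - z0) ^ 2) * ((W (Circle.exp t) - 0 : ℝ) : ℂ))) z0 := by
        have h3 := (key.2.const_mul ((1 : ℂ) / (2 * π))).const_add ((0 : ℝ) : ℂ)
        exact h3
      exact h2.differentiableAt.differentiableWithinAt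
    · have : ∀ᶠ x in 𝓝 z0, x ∈ ball z0 δ := ball_mem_nhds z0 hδ0
      filter_upwards [this] with x hx
      have := hx1 x hx
      exact (HG_zero_cont W hW x (by linarith)).aestronglyMeasurable
    · exact (HG_zero_cont W hW z0 hz0).intervalIntegrable _ _
    · exact (HG_zero_cont' W hW z0 hz0).aestronglyMeasurable
    · refine Filter.Eventually.of_forall fun t _ x hx => ?_
      have hxn := hx1 x hx
      have he : ‖exp (t * I)‖ = 1 := Complex.norm_exp_ofReal_mul_I t
      have hd : δ ≤ ‖exp (t * I) - x‖ := by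
        have := norm_sub_norm_le (exp (t * I)) x
        rw [he] at this
        linarith
      rw [norm_mul, norm_div, norm_mul, norm_pow, he, Complex.norm_real, Complex.norm_ofNat, mul_one]
      have hW1 : ‖W (Circle.exp t) - 0‖ ≤ M := by rw [sub_zero]; exact hM _
      have hpow : δ ^ 2 ≤ ‖exp (t * I) - x‖ ^ 2 := pow_le_pow_left₀ hδ0.le hd 2
      have hdiv : 2 / ‖exp (t * I) - x‖ ^ 2 ≤ 2 / δ ^ 2 :=
        div_le_div_of_nonneg_left (by norm_num) (by positivity) hpow
      exact mul_le_mul hdiv hW1 (norm_nonneg _) (by positivity)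
    · exact intervalIntegrable_const
    · refine Filter.Eventually.of_forall fun t _ x hx => ?_
      have hxn := hx1 x hx
      have hne := HG_zero_ne x (by linarith) t
      have h1 : HasDerivAt (fun x : ℂ => exp (t * I) + x) 1 x := (hasDerivAt_id x).const_add _
      have h2 : HasDerivAt (fun x : ℂ => exp (t * I) - x) (-1) x := (hasDerivAt_id x).const_sub _
      have h3 : HasDerivAt (fun y : ℂ => ((exp (t * I) + y) / (exp (t * I) - y)) * ((W (Circle.exp t) - 0 : ℝ) : ℂ))
        ((1 * (exp (t * I) - x) - (exp (t * I) + x) * -1) / (exp (t * I) - x) ^ 2 * ((W (Circle.exp t) - 0 : ℝ) : ℂ)) x :=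
        (h1.div h2 hne).mul_const ((W (Circle.exp t) - 0 : ℝ) : ℂ)
      have e : (1 * (exp (t * I) - x) - (exp (t * I) + x) * -1) = 2 * exp (t * I) := by ring
      rw [e] at h3
      exact h3
  · unfold HG
    have h : ∀ t : ℝ, ((exp (t * I) + 0) / (exp (t * I) - 0)) * ((W (Circle.exp t) - 0 : ℝ) : ℂ)
        = ((W (Circle.exp t) - 0 : ℝ) : ℂ) := by
      intro t
      rw [add_zero, sub_zero, div_self (Complex.exp_ne_zero _), one_mul]
    simp_rw [h]
    rw [intervalIntegral.integral_ofReal]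
    have e : ((0 : ℝ) : ℂ) + 1 / (2 * (π : ℂ)) * ((∫ t in (-π)..π, (W (Circle.exp t) - 0) : ℝ) : ℂ) =
        ((0 + 1 / (2 * π) * ∫ t in (-π)..π, (W (Circle.exp t) - 0) : ℝ) : ℂ) := by
      push_cast
      ring
    rw [e]
    exact Complex.ofReal_im _

lemma schwarz (G : ℂ → ℂ) (hc : ContinuousOn G (closedBall 0 1)) (hd : DifferentiableOn ℂ G (ball 0 1))
    (z : ℂ) (hz : ‖z‖ < 1) : HG (fun a => (G a).re) 0 z = G z - I * (G 0).im := by
  have hz' : z ∈ ball (0:ℂ) |(1:ℝ)| := by simpa using hz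
  have hG : DiffContOnCl ℂ G (ball 0 |(1:ℝ)|) := by
    rw [abs_one]
    exact ⟨hd, by rwa [closure_ball (0:ℂ) one_ne_zero]⟩
  have m1 : Real.circleAverage G 0 1 = G 0 := hG.circleAverage
  have m2 : Real.circleAverage (fun ζ => ((ζ - 0) / (ζ - z)) • G ζ) 0 1 = G z :=
    hG.circleAverage_smul_div hz'
  have hne : ∀ ζ ∈ closure (ball (0:ℂ) |(1:ℝ)|), 1 - conj z * ζ ≠ 0 := by
    intro ζ hζ h
    rw [abs_one, closure_ball (0:ℂ) one_ne_zero, mem_closedBall_zero_iff] at hζ
    have h1 : conj z * ζ = 1 := (sub_eq_zero.1 h).symm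
    have h2 : ‖z‖ * ‖ζ‖ = 1 := by
      rw [← Complex.norm_conj z, ← norm_mul, h1, norm_one]
    nlinarith [norm_nonneg z, norm_nonneg ζ]
  have hden : DiffContOnCl ℂ (fun ζ : ℂ => 1 - conj z * ζ) (ball 0 |(1:ℝ)|) :=
    ⟨by fun_prop, by fun_prop⟩
  have hK : DiffContOnCl ℂ (fun ζ => (1 - conj z * ζ)⁻¹ • G ζ) (ball 0 |(1:ℝ)|) :=
    (hden.inv hne).smul hG
  have m3 : Real.circleAverage (fun ζ => (1 - conj z * ζ)⁻¹ • G ζ) 0 1 = G 0 := by
    have := hK.circleAverage
    simpa using this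
  have hGs : ContinuousOn G (sphere 0 |(1:ℝ)|) := by
    rw [abs_one]; exact hc.mono sphere_subset_closedBall
  have hsp : ∀ ζ ∈ sphere (0:ℂ) |(1:ℝ)|, ζ - z ≠ 0 := by
    intro ζ hζ h
    have h1 : ζ = z := sub_eq_zero.1 h
    rw [abs_one, mem_sphere_zero_iff_norm, h1] at hζ
    linarith
  have hKs : ContinuousOn (fun ζ => (1 - conj z * ζ)⁻¹ • G ζ) (sphere 0 |(1:ℝ)|) := by
    refine hK.continuousOn.mono ?_
    rw [abs_one, closure_ball (0:ℂ) one_ne_zero]
    exact sphere_subset_closedBall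
  have c1 : CircleIntegrable G 0 1 := hGs.circleIntegrable'
  have c2 : CircleIntegrable (fun ζ => ((ζ - 0) / (ζ - z)) • G ζ) 0 1 :=
    ContinuousOn.circleIntegrable' (by
      have h1 : ContinuousOn (fun ζ : ℂ => (ζ - 0) / (ζ - z)) (sphere 0 |(1:ℝ)|) :=
        ContinuousOn.div (by fun_prop) (by fun_prop) hsp
      exact h1.smul hGs)
  have c3 : CircleIntegrable (fun ζ => (1 - conj z * ζ)⁻¹ • G ζ) 0 1 := hKs.circleIntegrable'
  have n1 : Real.circleAverage (fun ζ => conj (G ζ)) 0 1 = conj (G 0) := by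
    have h := ContinuousLinearMap.circleAverage_comp_comm (Complex.conjCLE : ℂ →L[ℝ] ℂ) c1
    rw [m1] at h
    exact h
  have n3 : Real.circleAverage (fun ζ => conj ((1 - conj z * ζ)⁻¹ • G ζ)) 0 1 = conj (G 0) := by
    have h := ContinuousLinearMap.circleAverage_comp_comm (Complex.conjCLE : ℂ →L[ℝ] ℂ) c3
    rw [m3] at h
    exact h
  have d1 : CircleIntegrable (fun ζ => conj (G ζ)) 0 1 :=
    ContinuousOn.circleIntegrable' (Complex.continuous_conj.comp_continuousOn hGs)
  have d3 : CircleIntegrable (fun ζ => conj ((1 - conj z * ζ)⁻¹ • G ζ)) 0 1 :=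
    ContinuousOn.circleIntegrable' (Complex.continuous_conj.comp_continuousOn hKs)
  have key : Real.circleAverage (fun ζ => ((ζ + z) / (ζ - z)) * (((G ζ).re : ℝ) : ℂ)) 0 1
      = G z - I * (G 0).im := by
    obtain ⟨F1, hF1⟩ : ∃ F : ℂ → ℂ, F = fun ζ => ((ζ - 0) / (ζ - z)) • G ζ := ⟨_, rfl⟩
    obtain ⟨F3, hF3⟩ : ∃ F : ℂ → ℂ, F = fun ζ => conj ((1 - conj z * ζ)⁻¹ • G ζ) := ⟨_, rfl⟩
    obtain ⟨Gc, hGc⟩ : ∃ F : ℂ → ℂ, F = fun ζ => conj (G ζ) := ⟨_, rfl⟩
    rw [← hF1] at c2 m2
    rw [← hF3] at d3 n3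
    rw [← hGc] at d1 n1
    have e : Set.EqOn (fun ζ => ((ζ + z) / (ζ - z)) * (((G ζ).re : ℝ) : ℂ))
        ((F1 + F3) - ((1/2 : ℂ) • G + (1/2 : ℂ) • Gc)) (sphere 0 |(1:ℝ)|) := by
      intro ζ hζ
      have h0 := hsp ζ hζ
      have hn : ‖ζ‖ = 1 := by simpa using hζ
      have hζ0 : ζ ≠ 0 := by
        intro h; rw [h, norm_zero] at hn; exact zero_ne_one hn
      have hζc : conj ζ = ζ⁻¹ := by
        rw [Complex.inv_def, Complex.normSq_eq_norm_sq, hn]; simp
      have hre : (((G ζ).re : ℝ) : ℂ) = (G ζ + conj (G ζ)) / 2 := by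
        rw [Complex.re_eq_add_conj]
      have hcK : conj ((1 - conj z * ζ)⁻¹ • G ζ) = (ζ / (ζ - z)) * conj (G ζ) := by
        rw [smul_eq_mul, map_mul, map_inv₀, map_sub, map_one, map_mul, Complex.conj_conj, hζc]
        congr 1
        have : 1 - z * ζ⁻¹ = (ζ - z) / ζ := by field_simp
        rw [this, inv_div]
      have hF3ζ : F3 ζ = (ζ / (ζ - z)) * conj (G ζ) := by rw [hF3]; exact hcK
      have hF1ζ : F1 ζ = ζ / (ζ - z) * G ζ := by rw [hF1]; simp
      have hGcζ : Gc ζ = conj (G ζ) := by rw [hGc]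
      simp only [Pi.sub_apply, Pi.add_apply, Pi.smul_apply, hF3ζ, hF1ζ, hGcζ, hre, smul_eq_mul]
      field_simp
      ring
    rw [Real.circleAverage_congr_sphere e]
    have c1' : CircleIntegrable ((1/2 : ℂ) • G) 0 1 := c1.const_smul
    have d1' : CircleIntegrable ((1/2 : ℂ) • Gc) 0 1 := d1.const_smul
    rw [Real.circleAverage_sub (c2.add d3) (c1'.add d1'), Real.circleAverage_add c2 d3,
      Real.circleAverage_add c1' d1', Real.circleAverage_smul, Real.circleAverage_smul,
      m2, n3, m1, n1]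
    apply Complex.ext <;> simp <;> ring
  rw [← key, Real.circleAverage_eq_integral_add (-π)]
  unfold HG
  have hI : (∫ t in (-π)..π, ((exp (t * I) + z) / (exp (t * I) - z)) *
      (((fun a : Circle => (G a).re) (Circle.exp t) - 0 : ℝ) : ℂ))
      = ∫ θ in (0:ℝ)..(2 * π), (fun ζ => ((ζ + z) / (ζ - z)) * (((G ζ).re : ℝ) : ℂ))
        (circleMap 0 1 (θ + -π)) := by
    rw [intervalIntegral.integral_comp_add_right (fun θ => (fun ζ => ((ζ + z) / (ζ - z)) * (((G ζ).re : ℝ) : ℂ))
        (circleMap 0 1 θ))]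
    have e1 : (0:ℝ) + -π = -π := by ring
    have e2 : 2 * π + -π = π := by ring
    rw [e1, e2]
    refine intervalIntegral.integral_congr (fun t _ => ?_)
    simp [circleMap, Circle.coe_exp]
  rw [hI]
  simp

lemma suff_ctrl (Ψ : ℝ → ℝ) (ψ : Circle ≃ₜ Circle) (hl : Lift Ψ ψ) (C : ℝ) (h : Cond ψ.symm C) :
    ∃ C' : ℝ, 0 ≤ C' ∧ CtrlN ψ C' := by
  refine ⟨1 + |C|, by positivity, ?_⟩
  intro F R M hR hF hM
  have hM0 : 0 ≤ M := le_trans (norm_nonneg _) (hM 0 (by simp))
  have hcirc : ∀ a : Circle, (a : ℂ) ∈ ball (0 : ℂ) R := by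
    intro a
    rw [mem_ball_zero_iff, Circle.norm_coe]
    exact hR
  set W : Circle → ℝ := fun a => (F (ψ a)).re with hWdef
  have hWc : Continuous W := by
    apply Complex.continuous_re.comp
    exact hF.continuousOn.comp_continuous (continuous_subtype_val.comp ψ.continuous)
      (fun a => hcirc (ψ a))
  set q : ℝ → ℝ := fun s => (I * exp (s * I) * deriv F (exp (s * I))).re with hqdef
  have hexpb : ∀ s : ℝ, exp (s * I) ∈ ball (0 : ℂ) R := by
    intro s
    rw [mem_ball_zero_iff, Complex.norm_exp_ofReal_mul_I]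
    exact hR
  have hdF : Continuous (fun s : ℝ => deriv F (exp (s * I))) := by
    have h1 : ContinuousOn (deriv F) (ball 0 R) := (hF.deriv isOpen_ball).continuousOn
    exact h1.comp_continuous (by fun_prop) hexpb
  have hqc : Continuous q := by
    apply Complex.continuous_re.comp
    exact (by fun_prop : Continuous (fun s : ℝ => I * exp (s * I))).mul hdF
  have hqper : ∀ s, q (s + 2 * π) = q s := by
    intro s
    have he : exp (((s + 2 * π : ℝ) : ℂ) * I) = exp (s * I) := by
      push_cast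
      rw [add_mul, Complex.exp_add, Complex.exp_two_pi_mul_I, mul_one]
    simp only [hqdef]
    rw [he]
  set P : ℂ → ℝ := fun z => (1 / π) * ∫ s in (-π)..π,
      Real.log ‖(ψ.symm (Circle.exp s) : ℂ) - z‖ * q s with hPdef
  have hPc : ContinuousOn P (closedBall 0 1) :=
    continuousOn_const.mul (pot_cont ψ.symm C h q hqc hqper)
  have hHGd := (HG_zero W hWc).1
  have hHG0 := (HG_zero W hWc).2
  have him : ∀ z : ℂ, ‖z‖ < 1 → (HG W 0 z).im = P z := fun z hz => repr Ψ ψ hl R hR F hF z hz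
  let U : ℂ → ℝ := fun z => if hz : ‖z‖ = 1 then W ⟨z, mem_sphere_zero_iff_norm.2 hz⟩
    else (HG W 0 z).re
  have hU1 : ∀ z : ℂ, ‖z‖ < 1 → U z = (HG W 0 z).re := by
    intro z hz
    simp only [U]
    rw [dif_neg hz.ne]
  have hU2 : ∀ a : Circle, U a = W a := by
    intro a
    simp only [U]
    rw [dif_pos (Circle.norm_coe a)]
    rfl
  have hUs : ContinuousOn U (sphere 0 1) := by
    rw [continuousOn_iff_continuous_domRestrict]
    have : (sphere (0 : ℂ) 1).domRestrict U = fun z : sphere (0 : ℂ) 1 => W (⟨z.1, z.2⟩ : Circle) := by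
      funext z
      exact hU2 ⟨z.1, z.2⟩
    rw [this]
    apply hWc.comp
    exact Continuous.subtype_mk continuous_subtype_val _
  have hUc : ContinuousOn U (closedBall 0 1) := by
    intro x hx
    rw [mem_closedBall_zero_iff] at hx
    rcases lt_or_eq_of_le hx with hlt | heq
    · have hb : ball (0 : ℂ) 1 ∈ 𝓝 x := isOpen_ball.mem_nhds (by rw [mem_ball_zero_iff]; exact hlt)
      have h1 : ContinuousAt (fun z => (HG W 0 z).re) x :=
        Complex.continuous_re.continuousAt.comp (hHGd.continuousOn.continuousAt hb)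
      have h2 : U =ᶠ[𝓝 x] fun z => (HG W 0 z).re := by
        filter_upwards [hb] with z hz
        exact hU1 z (by rwa [mem_ball_zero_iff] at hz)
      exact (h1.congr h2.symm).continuousWithinAt
    · rw [← ball_union_sphere]
      rw [continuousWithinAt_union]
      constructor
      · have h1 := poisson_lim W hWc ⟨x, mem_sphere_zero_iff_norm.2 heq⟩
        have h2 : U x = W ⟨x, mem_sphere_zero_iff_norm.2 heq⟩ := hU2 ⟨x, mem_sphere_zero_iff_norm.2 heq⟩
        unfold ContinuousWithinAt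
        rw [h2]
        refine Tendsto.congr' ?_ h1
        filter_upwards [self_mem_nhdsWithin] with z hz
        exact (hU1 z (by rwa [mem_ball_zero_iff] at hz)).symm
      · exact hUs x (mem_sphere_zero_iff_norm.2 heq)
  let G : ℂ → ℂ := fun z => (U z : ℂ) + (P z : ℂ) * I
  have hGre : ∀ z, (G z).re = U z := by intro z; simp [G]
  have hGim : ∀ z, (G z).im = P z := by intro z; simp [G]
  have hGin : ∀ z : ℂ, ‖z‖ < 1 → G z = HG W 0 z := by
    intro z hz
    apply Complex.ext
    · rw [hGre, hU1 z hz]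
    · rw [hGim, him z hz]
  have hGc : ContinuousOn G (closedBall 0 1) := by
    apply ContinuousOn.add
    · exact Complex.continuous_ofReal.comp_continuousOn hUc
    · exact (Complex.continuous_ofReal.comp_continuousOn hPc).mul continuousOn_const
  have hGd : DifferentiableOn ℂ G (ball 0 1) := by
    apply hHGd.congr
    intro z hz
    exact hGin z (by rwa [mem_ball_zero_iff] at hz)
  refine ⟨G, hGc, hGd, ?_, ?_, ?_⟩
  · intro z
    rw [hGre, hU2]
  · rw [hGin 0 (by simp)]
    exact hHG0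
  · have hb : ∀ z ∈ frontier (ball (0 : ℂ) 1), ‖G z‖ ≤ (1 + |C|) * M := by
      intro z hz
      rw [frontier_ball (0 : ℂ) one_ne_zero] at hz
      have hz1 : ‖z‖ = 1 := mem_sphere_zero_iff_norm.1 hz
      set x : Circle := ⟨z, hz⟩ with hx
      have hxz : (x : ℂ) = z := rfl
      have hre : |(G z).re| ≤ M := by
        rw [hGre, ← hxz, hU2]
        refine le_trans (Complex.abs_re_le_norm _) (hM _ ?_)
        rw [mem_closedBall_zero_iff, Circle.norm_coe]
      have hbd := cond_ext ψ.symm C h x F R M hR hF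
        (fun z hz => hM z (by rwa [mem_closedBall_zero_iff]))
      have hint : IntervalIntegrable (fun s : ℝ => exp (s * I) * deriv F (exp (s * I)) *
          (Real.log ‖(ψ.symm (Circle.exp s) : ℂ) - x‖ : ℝ)) volume (-π) π := by
        apply IntervalIntegrable.continuousOn_mul
        · have := (h x).1
          exact ⟨this.1.ofReal, this.2.ofReal⟩
        · exact ((by fun_prop : Continuous (fun s : ℝ => exp (s * I))).mul hdF).continuousOn
      have hPi : ∫ s in (-π)..π, Real.log ‖(ψ.symm (Circle.exp s) : ℂ) - z‖ * q s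
          = (I * ∫ s in (-π)..π, exp (s * I) * deriv F (exp (s * I)) *
          (Real.log ‖(ψ.symm (Circle.exp s) : ℂ) - x‖ : ℝ)).re := by
        rw [← intervalIntegral.integral_const_mul]
        have h3 := Complex.reCLM.intervalIntegral_comp_comm (hint.const_mul I)
        have h4 : (I * ∫ s in (-π)..π, exp (s * I) * deriv F (exp (s * I)) *
          (Real.log ‖(ψ.symm (Circle.exp s) : ℂ) - x‖ : ℝ)).re = (I * ∫ s in (-π)..π, exp (s * I) * deriv F (exp (s * I)) *
          (Real.log ‖(ψ.symm (Circle.exp s) : ℂ) - x‖ : ℝ)).re := rfl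
        rw [Complex.reCLM_apply] at h3
        rw [← h3]
        apply intervalIntegral.integral_congr
        intro s _
        simp only [hqdef, Complex.reCLM_apply, hxz]
        have : I * (exp (s * I) * deriv F (exp (s * I)) *
          ((Real.log ‖(ψ.symm (Circle.exp s) : ℂ) - z‖ : ℝ) : ℂ)) =
          (I * exp (s * I) * deriv F (exp (s * I))) * ((Real.log ‖(ψ.symm (Circle.exp s) : ℂ) - z‖ : ℝ) : ℂ) := by ring
        rw [this, Complex.re_mul_ofReal]
        ring
      have him2 : |(G z).im| ≤ |C| * M := by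
        rw [hGim]
        simp only [hPdef]
        rw [hPi, abs_mul]
        have h5 : |(I * ∫ s in (-π)..π, exp (s * I) * deriv F (exp (s * I)) *
          (Real.log ‖(ψ.symm (Circle.exp s) : ℂ) - x‖ : ℝ)).re| ≤ |C| * M := by
          refine le_trans (Complex.abs_re_le_norm _) ?_
          rw [norm_mul, Complex.norm_I, one_mul]
          refine le_trans hbd.2 ?_
          exact mul_le_mul_of_nonneg_right (le_abs_self C) hM0
        have h6 : |1 / π| ≤ 1 := by
          rw [abs_of_pos (by positivity)]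
          rw [div_le_one Real.pi_pos]
          linarith [Real.pi_gt_three]
        calc |1 / π| * |(I * ∫ s in (-π)..π, exp (s * I) * deriv F (exp (s * I)) *
          (Real.log ‖(ψ.symm (Circle.exp s) : ℂ) - x‖ : ℝ)).re| ≤ 1 * (|C| * M) :=
              mul_le_mul h6 h5 (abs_nonneg _) zero_le_one
          _ = |C| * M := one_mul _
      calc ‖G z‖ ≤ |(G z).re| + |(G z).im| := Complex.norm_le_abs_re_add_abs_im _
        _ ≤ M + |C| * M := add_le_add hre him2
        _ = (1 + |C|) * M := by ring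
    intro z hz
    apply Complex.norm_le_of_forall_mem_frontier_norm_le (U := ball (0 : ℂ) 1) isBounded_ball _ hb
    · rw [closure_ball (0 : ℂ) one_ne_zero]; exact hz
    · refine ⟨hGd, ?_⟩
      rw [closure_ball (0 : ℂ) one_ne_zero]
      exact hGc

lemma uniq2 (H : ℂ → ℂ) (hc : ContinuousOn H (closedBall 0 1)) (hd : DifferentiableOn ℂ H (ball 0 1))
    (hre : ∀ z : Circle, (H z).re = 0) (h0 : (H 0).im = 0) :
    ∀ z ∈ closedBall (0 : ℂ) 1, H z = 0 := by
  have hcl : closure (ball (0 : ℂ) 1) = closedBall 0 1 := closure_ball 0 one_ne_zero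
  have hfr : frontier (ball (0 : ℂ) 1) = sphere 0 1 := frontier_ball 0 one_ne_zero
  have key : ∀ t : ℝ, ∀ z ∈ closedBall (0 : ℂ) 1, ‖exp ((t : ℂ) * H z)‖ ≤ 1 := by
    intro t z hz
    have hdc : DiffContOnCl ℂ (fun z => exp ((t : ℂ) * H z)) (ball 0 1) := by
      refine ⟨(hd.const_mul _).cexp, ?_⟩
      rw [hcl]
      exact (continuousOn_const.mul hc).cexp
    refine Complex.norm_le_of_forall_mem_frontier_norm_le isBounded_ball hdc ?_
      (by rw [hcl]; exact hz)
    intro w hw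
    rw [hfr] at hw
    have h1 : (H w).re = 0 := hre ⟨w, hw⟩
    simp only [Complex.norm_exp]
    have h2 : ((t : ℂ) * H w).re = 0 := by
      rw [Complex.re_ofReal_mul, h1, mul_zero]
    rw [h2, Real.exp_zero]
  have hrez : ∀ z ∈ closedBall (0 : ℂ) 1, (H z).re = 0 := by
    intro z hz
    have h1 := key 1 z hz
    have h2 := key (-1) z hz
    rw [Complex.norm_exp, Complex.re_ofReal_mul, Real.exp_le_one_iff] at h1 h2
    linarith
  have h00 : (0 : ℂ) ∈ closedBall (0 : ℂ) 1 := by simp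
  have hH0 : H 0 = 0 := Complex.ext (hrez 0 h00) h0
  have hball : ∀ z ∈ ball (0 : ℂ) 1, H z = 0 := by
    intro z hz
    have hone : ∀ t : ℝ, exp ((t : ℂ) * H z) = 1 := by
      intro t
      have hdf : DifferentiableOn ℂ (fun z => exp ((t : ℂ) * H z)) (ball 0 1) :=
        (hd.const_mul _).cexp
      have hmax : IsMaxOn (norm ∘ (fun z => exp ((t : ℂ) * H z))) (ball (0 : ℂ) 1) 0 := by
        intro w hw
        simp only [Set.mem_ofPred_eq, Function.comp_apply, hH0, mul_zero, Complex.exp_zero, norm_one]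
        exact key t w (ball_subset_closedBall hw)
      have := Complex.eqOn_of_isPreconnected_of_isMaxOn_norm
        (convex_ball (0 : ℂ) 1).isPreconnected isOpen_ball hdf (by simp) hmax hz
      simpa [hH0] using this
    by_contra hne
    have hre0 := hrez z (ball_subset_closedBall hz)
    have him : (H z).im ≠ 0 := fun h => hne (Complex.ext hre0 h)
    have h3 := hone (π / (H z).im)
    have h4 : ((π / (H z).im : ℝ) : ℂ) * H z = π * I := by
      have h5 : H z = ((H z).im : ℂ) * I := by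
        apply Complex.ext <;> simp [hre0]
      have h6 : ((H z).im : ℂ) ≠ 0 := by exact_mod_cast him
      rw [h5]
      simp only [Complex.mul_im, Complex.ofReal_re, Complex.I_im, mul_one, Complex.ofReal_im,
        Complex.I_re, mul_zero, add_zero, zero_mul]
      push_cast
      field_simp
    rw [h4, Complex.exp_pi_mul_I] at h3
    norm_num at h3
  have heq : Set.EqOn H (fun _ => (0 : ℂ)) (closedBall (0 : ℂ) 1) :=
    Set.EqOn.of_subset_closure (s := ball (0 : ℂ) 1) (fun z hz => hball z hz) hc continuousOn_const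
      ball_subset_closedBall (by rw [hcl])
  exact fun z hz => heq hz

lemma density2 (ψ : Circle ≃ₜ Circle) (C : ℝ) (hC : 0 ≤ C) (h : CtrlN ψ C) (F : ℂ → ℂ)
    (hc : ContinuousOn F (closedBall 0 1)) (hd : DifferentiableOn ℂ F (ball 0 1)) :
    ∃ G : ℂ → ℂ, ContinuousOn G (closedBall 0 1) ∧ DifferentiableOn ℂ G (ball 0 1) ∧
      ∀ z : Circle, (G z).re = (F (ψ z)).re := by
  obtain ⟨s, hs0, hs1, hst⟩ : ∃ s : ℕ → ℝ, (∀ n, 0 < s n) ∧ (∀ n, s n < 1) ∧
      Tendsto s atTop (𝓝 1) := by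
    refine ⟨fun n => 1 - 1 / ((n : ℝ) + 2), ?_, ?_, ?_⟩
    · intro n
      have hn : (0 : ℝ) ≤ n := Nat.cast_nonneg n
      have h2 : (0 : ℝ) < (n : ℝ) + 2 := by linarith
      have : 1 / ((n : ℝ) + 2) < 1 := by
        rw [div_lt_one h2]; linarith
      simp only
      linarith
    · intro n
      have hn : (0 : ℝ) ≤ n := Nat.cast_nonneg n
      have h2 : (0 : ℝ) < (n : ℝ) + 2 := by linarith
      have : 0 < 1 / ((n : ℝ) + 2) := by positivity
      simp only
      linarith
    · have h1 : Tendsto (fun n : ℕ => 1 / ((n : ℝ) + 2)) atTop (𝓝 0) := by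
        have h2 : Tendsto (fun n : ℕ => (n : ℝ) + 2) atTop atTop :=
          tendsto_atTop_add_const_right _ _ tendsto_natCast_atTop_atTop
        have h3 := h2.inv_tendsto_atTop
        refine h3.congr ?_
        intro n
        simp
      have := (tendsto_const_nhds (x := (1 : ℝ))).sub h1
      simpa using this
  have hmaps : ∀ n, ∀ z ∈ closedBall (0 : ℂ) 1, (s n : ℂ) * z ∈ closedBall (0 : ℂ) 1 := by
    intro n z hz
    rw [mem_closedBall_zero_iff] at hz ⊢
    rw [norm_mul, Complex.norm_real, Real.norm_eq_abs, abs_of_pos (hs0 n)]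
    have := hs0 n
    have := hs1 n
    nlinarith [norm_nonneg z]
  have hR : ∀ n, 1 < 1 / s n := by
    intro n
    rw [lt_div_iff₀ (hs0 n)]
    linarith [hs1 n]
  have hdF : ∀ n, DifferentiableOn ℂ (fun z => F ((s n : ℂ) * z)) (ball 0 (1 / s n)) := by
    intro n
    refine hd.comp ((differentiable_id.const_mul _).differentiableOn) ?_
    intro z hz
    rw [mem_ball_zero_iff] at hz ⊢
    rw [norm_mul, Complex.norm_real, Real.norm_eq_abs, abs_of_pos (hs0 n)]
    rw [lt_div_iff₀ (hs0 n)] at hz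
    linarith
  obtain ⟨M, hM⟩ := (isCompact_closedBall (0 : ℂ) 1).exists_bound_of_continuousOn hc
  choose G hGc hGd hGr hG0 hGb using fun n => h (fun z => F ((s n : ℂ) * z)) (1 / s n) M (hR n)
    (hdF n) (fun z hz => hM _ (hmaps n z hz))
  have huc := (isCompact_closedBall (0 : ℂ) 1).uniformContinuousOn_of_continuous hc
  rw [Metric.uniformContinuousOn_iff] at huc
  have hcauchy : UniformCauchySeqOn G atTop (closedBall (0 : ℂ) 1) := by
    rw [Metric.uniformCauchySeqOn_iff]
    intro ε hε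
    obtain ⟨δ, hδ, hδ2⟩ := huc (ε / (C + 1)) (by positivity)
    have hev : ∀ᶠ n in atTop, |s n - 1| < δ / 2 := by
      have := (Metric.tendsto_nhds.1 hst) (δ / 2) (by positivity)
      simpa [Real.dist_eq] using this
    obtain ⟨N, hN⟩ := eventually_atTop.1 hev
    refine ⟨N, ?_⟩
    intro m hm n hn z hz
    have hmn : |s m - s n| < δ := by
      have h1 := hN m hm
      have h2 := hN n hn
      have h3 : |s m - s n| ≤ |s m - 1| + |s n - 1| := by
        have : s m - s n = (s m - 1) - (s n - 1) := by ring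
        rw [this]
        exact abs_sub _ _
      linarith
    have hclose : ∀ z ∈ closedBall (0 : ℂ) 1,
        ‖F ((s m : ℂ) * z) - F ((s n : ℂ) * z)‖ ≤ ε / (C + 1) := by
      intro z hz
      have := hδ2 _ (hmaps m z hz) _ (hmaps n z hz) (by
        rw [dist_eq_norm, ← sub_mul, norm_mul, ← Complex.ofReal_sub, Complex.norm_real,
          Real.norm_eq_abs]
        rw [mem_closedBall_zero_iff] at hz
        nlinarith [norm_nonneg z, abs_nonneg (s m - s n)])
      rw [dist_eq_norm] at this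
      exact this.le
    obtain ⟨G', hc', hd', hr', h0', hb'⟩ := h
      (fun z => F ((s m : ℂ) * z) - F ((s n : ℂ) * z)) (min (1 / s m) (1 / s n)) (ε / (C + 1))
      (lt_min (hR m) (hR n))
      (((hdF m).mono (ball_subset_ball (min_le_left _ _))).sub
        ((hdF n).mono (ball_subset_ball (min_le_right _ _)))) hclose
    have hu := uniq2 (fun z => G' z - (G m z - G n z)) (hc'.sub ((hGc m).sub (hGc n)))
      (hd'.sub ((hGd m).sub (hGd n))) (by
        intro z
        simp only [Complex.sub_re]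
        rw [hr' z, hGr m z, hGr n z]
        simp) (by
        simp only [Complex.sub_im]
        rw [h0', hG0 m, hG0 n]
        simp) z hz
    have hb := hb' z hz
    have he : G m z - G n z = G' z := by
      have := sub_eq_zero.1 hu
      exact this.symm
    rw [dist_eq_norm, he]
    refine lt_of_le_of_lt hb ?_
    rw [mul_div_assoc', div_lt_iff₀ (by linarith)]
    nlinarith
  have hlim : ∀ z : ℂ, ∃ g : ℂ, z ∈ closedBall (0 : ℂ) 1 →
      Tendsto (fun n => G n z) atTop (𝓝 g) := by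
    intro z
    by_cases hz : z ∈ closedBall (0 : ℂ) 1
    · obtain ⟨g, hg⟩ := cauchySeq_tendsto_of_complete (hcauchy.cauchySeq hz)
      exact ⟨g, fun _ => hg⟩
    · exact ⟨0, fun h => absurd h hz⟩
  choose g hg using hlim
  have hunif : TendstoUniformlyOn G g atTop (closedBall (0 : ℂ) 1) :=
    hcauchy.tendstoUniformlyOn_of_tendsto (fun z hz => hg z hz)
  refine ⟨g, ?_, ?_, ?_⟩
  · exact hunif.continuousOn (Filter.Frequently.of_forall hGc)
  · exact (hunif.mono ball_subset_closedBall).tendstoLocallyUniformlyOn.differentiableOn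
      (Filter.Eventually.of_forall hGd) isOpen_ball
  · intro z
    have hz : (z : ℂ) ∈ closedBall (0 : ℂ) 1 := by
      rw [mem_closedBall_zero_iff]; simp
    have h1 : Tendsto (fun n => (G n z).re) atTop (𝓝 (g z).re) :=
      (Complex.continuous_re.tendsto _).comp (hg z hz)
    have hpz : ((ψ z : Circle) : ℂ) ∈ closedBall (0 : ℂ) 1 := by
      rw [mem_closedBall_zero_iff]; simp
    have h2 : Tendsto (fun n => F ((s n : ℂ) * (ψ z : ℂ))) atTop (𝓝 (F (ψ z : ℂ))) := by
      have h3 : Tendsto (fun n => (s n : ℂ) * (ψ z : ℂ)) atTop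
          (𝓝[closedBall (0 : ℂ) 1] (ψ z : ℂ)) := by
        rw [tendsto_nhdsWithin_iff]
        refine ⟨?_, Filter.Eventually.of_forall fun n => hmaps n _ hpz⟩
        have h4 : Tendsto (fun n => (s n : ℂ)) atTop (𝓝 ((1 : ℝ) : ℂ)) :=
          (Complex.continuous_ofReal.tendsto 1).comp hst
        have h5 := h4.mul_const (ψ z : ℂ)
        simpa using h5
      exact (hc _ hpz).tendsto.comp h3
    have h3 : Tendsto (fun n => (G n z).re) atTop (𝓝 (F (ψ z : ℂ)).re) := by
      have h4 := (Complex.continuous_re.tendsto _).comp h2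
      refine h4.congr ?_
      intro n
      simp only [Function.comp]
      exact (hGr n z).symm
    exact tendsto_nhds_unique h1 h3

/-- extension by zero -/
noncomputable def ext' (f : C(closedBall (0 : ℂ) 1, ℂ)) (z : ℂ) : ℂ :=
  open Classical in if h : z ∈ closedBall (0 : ℂ) 1 then f ⟨z, h⟩ else 0

lemma ext'_mem (f : C(closedBall (0 : ℂ) 1, ℂ)) (z : ℂ) (h : z ∈ closedBall (0 : ℂ) 1) :
    ext' f z = f ⟨z, h⟩ := by simp only [ext', dif_pos h]

lemma ext'_cont (f : C(closedBall (0 : ℂ) 1, ℂ)) : ContinuousOn (ext' f) (closedBall 0 1) := by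
  rw [continuousOn_iff_continuous_domRestrict]
  have : (closedBall (0 : ℂ) 1).domRestrict (ext' f) = f := by
    funext z
    exact ext'_mem f z z.2
  rw [this]
  exact f.continuous

lemma ext'_add (f g : C(closedBall (0 : ℂ) 1, ℂ)) (z : ℂ) : ext' (f + g) z = ext' f z + ext' g z := by
  by_cases h : z ∈ closedBall (0 : ℂ) 1
  · rw [ext'_mem _ _ h, ext'_mem _ _ h, ext'_mem _ _ h]; rfl
  · simp only [ext', dif_neg h, add_zero]

lemma ext'_smul (c : ℝ) (f : C(closedBall (0 : ℂ) 1, ℂ)) (z : ℂ) : ext' (c • f) z = c • ext' f z := by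
  by_cases h : z ∈ closedBall (0 : ℂ) 1
  · rw [ext'_mem _ _ h, ext'_mem _ _ h]; rfl
  · simp only [ext', dif_neg h, smul_zero]

/-- the real Banach space of disc algebra functions with real value at zero -/
noncomputable def XX : Submodule ℝ C(closedBall (0 : ℂ) 1, ℂ) where
  carrier := {f | DifferentiableOn ℂ (ext' f) (ball 0 1) ∧ (ext' f 0).im = 0}
  add_mem' := by
    rintro f g ⟨h1, h2⟩ ⟨h3, h4⟩
    have e : ext' (f + g) = fun z => ext' f z + ext' g z := funext (ext'_add f g)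
    refine ⟨?_, ?_⟩
    · rw [e]; exact h1.add h3
    · rw [e]; simp [h2, h4]
  zero_mem' := by
    have e : ext' (0 : C(closedBall (0 : ℂ) 1, ℂ)) = fun _ => 0 := by
      funext z
      by_cases h : z ∈ closedBall (0 : ℂ) 1
      · rw [ext'_mem _ _ h]; rfl
      · simp only [ext', dif_neg h]
    refine ⟨?_, ?_⟩
    · rw [e]; exact differentiableOn_const 0
    · rw [e]; rfl
  smul_mem' := by
    rintro c f ⟨h1, h2⟩
    have e : ext' (c • f) = fun z => c • ext' f z := funext (ext'_smul c f)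
    refine ⟨?_, ?_⟩
    · rw [e]; exact h1.const_smul c
    · rw [e]; simp [h2]

lemma XX_closed : IsClosed (XX : Set C(closedBall (0 : ℂ) 1, ℂ)) := by
  refine IsSeqClosed.isClosed ?_
  intro u f hu hf
  have h0 : (0 : ℂ) ∈ closedBall (0 : ℂ) 1 := by simp
  have hunif : TendstoUniformlyOn (fun n => ext' (u n)) (ext' f) atTop (ball 0 1) := by
    rw [Metric.tendstoUniformlyOn_iff]
    intro ε hε
    filter_upwards [(Metric.tendsto_nhds.1 hf) ε hε] with n hn z hz
    have hz' : z ∈ closedBall (0 : ℂ) 1 := ball_subset_closedBall hz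
    rw [ext'_mem _ _ hz', ext'_mem _ _ hz', dist_comm]
    exact lt_of_le_of_lt (ContinuousMap.dist_apply_le_dist _) hn
  refine ⟨?_, ?_⟩
  · exact hunif.tendstoLocallyUniformlyOn.differentiableOn
      (Filter.Eventually.of_forall fun n => (hu n).1) isOpen_ball
  · have h1 : Tendsto (fun n => (ext' (u n) 0).im) atTop (𝓝 (ext' f 0).im) := by
      refine (Complex.continuous_im.tendsto _).comp ?_
      rw [ext'_mem _ _ h0]
      have : (fun n => ext' (u n) 0) = fun n => u n ⟨0, h0⟩ := by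
        funext n; exact ext'_mem _ _ h0
      rw [this]
      have hc : Continuous fun g : C(closedBall (0 : ℂ) 1, ℂ) => g ⟨0, h0⟩ :=
        continuous_eval_const (⟨0, h0⟩ : closedBall (0 : ℂ) 1)
      exact (hc.tendsto f).comp hf
    have h2 : (fun n => (ext' (u n) 0).im) = fun _ => 0 := by
      funext n; exact (hu n).2
    rw [h2] at h1
    exact tendsto_nhds_unique h1 tendsto_const_nhds |>.symm ▸ rfl

/-- restriction to the closed disc -/
noncomputable def mk' (F : ℂ → ℂ) (hF : ContinuousOn F (closedBall 0 1)) :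
    C(closedBall (0 : ℂ) 1, ℂ) :=
  ⟨(closedBall (0 : ℂ) 1).domRestrict F, continuousOn_iff_continuous_domRestrict.1 hF⟩

lemma ext'_mk' (F : ℂ → ℂ) (hF : ContinuousOn F (closedBall 0 1)) (z : ℂ)
    (hz : z ∈ closedBall (0 : ℂ) 1) : ext' (mk' F hF) z = F z := by
  rw [ext'_mem _ _ hz]; rfl

lemma mk'_mem (F : ℂ → ℂ) (hF : ContinuousOn F (closedBall 0 1))
    (hd : DifferentiableOn ℂ F (ball 0 1)) (h0 : (F 0).im = 0) : mk' F hF ∈ XX := by
  refine ⟨?_, ?_⟩
  · exact hd.congr fun z hz => ext'_mk' F hF z (ball_subset_closedBall hz)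
  · rw [ext'_mk' F hF 0 (by simp)]; exact h0

lemma circ_mem (z : Circle) : (z : ℂ) ∈ closedBall (0 : ℂ) 1 := by
  rw [mem_closedBall_zero_iff, Circle.norm_coe]

lemma XX_ext {f g : C(closedBall (0 : ℂ) 1, ℂ)} (hf : f ∈ XX) (hg : g ∈ XX)
    (h : ∀ z : Circle, (ext' f z).re = (ext' g z).re) : f = g := by
  have key := uniq2 (fun z => ext' f z - ext' g z) ((ext'_cont f).sub (ext'_cont g))
    (hf.1.sub hg.1) (fun z => by simp [h z]) (by simp [hf.2, hg.2])
  ext z
  have := key z z.2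
  rw [ext'_mem _ _ z.2, ext'_mem _ _ z.2] at this
  exact sub_eq_zero.1 this

lemma exists_T (ψ : Circle ≃ₜ Circle) (h : ∀ u ∈ reA, (fun z => u (ψ z)) ∈ reA)
    (f : C(closedBall (0 : ℂ) 1, ℂ)) (hf : f ∈ XX) :
    ∃ g ∈ XX, ∀ z : Circle, (ext' g z).re = (ext' f (ψ z)).re := by
  have h1 : (fun z : Circle => (ext' f z).re) ∈ reA :=
    ⟨fun z => ext' f z, ⟨ext' f, ext'_cont f, hf.1, fun z => rfl⟩, fun z => rfl⟩
  obtain ⟨g, ⟨G, hGc, hGd, hGg⟩, hg⟩ := h _ h1
  refine ⟨mk' (fun z => G z - ((G 0).im : ℂ) * I) (hGc.sub continuousOn_const),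
    mk'_mem _ _ (hGd.sub (differentiableOn_const _)) (by simp), ?_⟩
  intro z
  rw [ext'_mk' _ _ _ (circ_mem z)]
  have := hg z
  simp only at this
  rw [this, ← hGg z]
  simp


lemma closed_graph (ψ : Circle ≃ₜ Circle) (h : ∀ u ∈ reA, (fun z => u (ψ z)) ∈ reA) :
    ∃ C : ℝ, 0 ≤ C ∧ ∀ (F : ℂ → ℂ) (M : ℝ), ContinuousOn F (closedBall 0 1) →
      DifferentiableOn ℂ F (ball 0 1) → (∀ z ∈ closedBall (0 : ℂ) 1, ‖F z‖ ≤ M) →
      ∃ G : ℂ → ℂ, ContinuousOn G (closedBall 0 1) ∧ DifferentiableOn ℂ G (ball 0 1) ∧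
        (∀ z : Circle, (G z).re = (F (ψ z)).re) ∧ (G 0).im = 0 ∧
        ∀ z ∈ closedBall (0 : ℂ) 1, ‖G z‖ ≤ C * M := by
  classical
  have hcomp : CompleteSpace XX := XX_closed.completeSpace_coe
  choose T hT1 hT2 using fun f : XX => exists_T ψ h f f.2
  let TT : XX →ₗ[ℝ] XX :=
    { toFun := fun f => ⟨T f, hT1 f⟩
      map_add' := by
        intro f g
        apply Subtype.ext
        refine XX_ext (hT1 _) (XX.add_mem (hT1 f) (hT1 g)) ?_
        intro z
        have e1 : (ext' (T (f + g)) z).re =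
            (ext' ((f : C(closedBall (0 : ℂ) 1, ℂ)) + g) (ψ z)).re := hT2 (f + g) z
        have e2 : (ext' (T f + T g) z).re = (ext' (T f) z).re + (ext' (T g) z).re := by
          rw [ext'_add, Complex.add_re]
        refine e1.trans (Eq.trans ?_ e2.symm)
        rw [ext'_add, Complex.add_re, hT2 f z, hT2 g z]
      map_smul' := by
        intro c f
        apply Subtype.ext
        refine XX_ext (hT1 _) (XX.smul_mem c (hT1 f)) ?_
        intro z
        have e1 : (ext' (T (c • f)) z).re =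
            (ext' (c • (f : C(closedBall (0 : ℂ) 1, ℂ))) (ψ z)).re := hT2 (c • f) z
        have e2 : (ext' (c • T f) z).re = c * (ext' (T f) z).re := by
          rw [ext'_smul, Complex.real_smul, Complex.re_ofReal_mul]
        refine e1.trans (Eq.trans ?_ e2.symm)
        rw [ext'_smul, Complex.real_smul, Complex.re_ofReal_mul, hT2 f z] }
  have hev : ∀ (z : ℂ) (hz : z ∈ closedBall (0 : ℂ) 1) (u : ℕ → XX) (f : XX),
      Tendsto u atTop (𝓝 f) → Tendsto (fun n => (ext' (u n) z).re) atTop (𝓝 (ext' f z).re) := by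
    intro z hz u f hu
    refine (Complex.continuous_re.tendsto _).comp ?_
    rw [ext'_mem _ _ hz]
    have e : (fun n => ext' (u n : C(closedBall (0 : ℂ) 1, ℂ)) z) = fun n => (u n : C(closedBall (0 : ℂ) 1, ℂ)) ⟨z, hz⟩ := by
      funext n; exact ext'_mem _ _ hz
    rw [e]
    have hc : Continuous fun g : C(closedBall (0 : ℂ) 1, ℂ) => g ⟨z, hz⟩ :=
      continuous_eval_const (⟨z, hz⟩ : closedBall (0 : ℂ) 1)
    exact (hc.tendsto (f : C(closedBall (0 : ℂ) 1, ℂ))).comp
      ((continuous_subtype_val.tendsto f).comp hu)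
  have hcont : Continuous TT := by
    refine LinearMap.continuous_of_seq_closed_graph TT ?_
    intro u f g hu hg
    apply Subtype.ext
    refine XX_ext g.2 (hT1 f) ?_
    intro z
    refine Eq.trans ?_ (hT2 f z).symm
    have h1 := hev z (circ_mem z) _ _ hg
    have h2 := hev (ψ z) (circ_mem (ψ z)) _ _ hu
    have h3 : (fun n => (ext' ((TT ∘ u) n : C(closedBall (0 : ℂ) 1, ℂ)) z).re) =
        fun n => (ext' (u n : C(closedBall (0 : ℂ) 1, ℂ)) (ψ z)).re := by
      funext n
      exact hT2 (u n) z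
    rw [h3] at h1
    exact tendsto_nhds_unique h1 h2
  let TC : XX →L[ℝ] XX := ⟨TT, hcont⟩
  refine ⟨‖TC‖ * 2, by positivity, ?_⟩
  intro F M hFc hFd hFM
  have hM : 0 ≤ M := (norm_nonneg _).trans (hFM 0 (by simp))
  let f0 : C(closedBall (0 : ℂ) 1, ℂ) :=
    mk' (fun z => F z - ((F 0).im : ℂ) * I) (hFc.sub continuousOn_const)
  have hf0 : f0 ∈ XX := mk'_mem _ _ (hFd.sub (differentiableOn_const _)) (by simp)
  let f : XX := ⟨f0, hf0⟩
  have hfn : ‖f‖ ≤ 2 * M := by
    show ‖f0‖ ≤ 2 * M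
    rw [ContinuousMap.norm_le _ (by positivity)]
    intro z
    show ‖F z - ((F 0).im : ℂ) * I‖ ≤ 2 * M
    have h1 := hFM z z.2
    have h2 := hFM 0 (by simp)
    have h3 : ‖((F 0).im : ℂ) * I‖ ≤ M := by
      rw [norm_mul, Complex.norm_I, mul_one, Complex.norm_real]
      exact (Complex.abs_im_le_norm _).trans h2
    calc ‖F z - ((F 0).im : ℂ) * I‖ ≤ ‖F z‖ + ‖((F 0).im : ℂ) * I‖ := norm_sub_le _ _
      _ ≤ 2 * M := by linarith
  refine ⟨ext' (T f), ext'_cont _, (hT1 f).1, ?_, (hT1 f).2, ?_⟩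
  · intro z
    rw [hT2]
    show (ext' f0 (ψ z)).re = _
    rw [ext'_mk' _ _ _ (circ_mem (ψ z))]
    simp
  · intro z hz
    rw [ext'_mem _ _ hz]
    have h1 : ‖(T f) ⟨z, hz⟩‖ ≤ ‖T f‖ := ContinuousMap.norm_coe_le_norm _ _
    have h2 : ‖TC f‖ ≤ ‖TC‖ * ‖f‖ := TC.le_opNorm f
    have h3 : ‖TC f‖ = ‖T f‖ := rfl
    calc ‖(T f) ⟨z, hz⟩‖ ≤ ‖T f‖ := h1
      _ ≤ ‖TC‖ * ‖f‖ := by rw [← h3]; exact h2
      _ ≤ ‖TC‖ * (2 * M) := by
        have h5 : (0 : ℝ) ≤ ‖TC‖ := norm_nonneg TC
        exact mul_le_mul_of_nonneg_left hfn h5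
      _ = ‖TC‖ * 2 * M := by ring

lemma nec_bdd (Ψ : ℝ → ℝ) (ψ : Circle ≃ₜ Circle) (hl : Lift Ψ ψ)
    (h : ∀ u ∈ reA, (fun z => u (ψ z)) ∈ reA) :
    ∃ C : ℝ, 0 ≤ C ∧ ∀ (z : ℂ), ‖z‖ < 1 → ∀ (p : Polynomial ℂ) (M : ℝ),
      (∀ z : ℂ, ‖z‖ ≤ 1 → ‖p.eval z‖ ≤ M) →
      |∫ s in (-π)..π, Real.log ‖(ψ.symm (Circle.exp s) : ℂ) - z‖ *
        (I * exp (s * I) * p.derivative.eval (exp (s * I))).re| ≤ C * M := by
  obtain ⟨C0, hC0, hcg⟩ := closed_graph ψ h
  refine ⟨π * C0, mul_nonneg Real.pi_pos.le hC0, ?_⟩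
  intro z hz p M hM
  obtain ⟨G, hGc, hGd, hre, hG0, hGb⟩ := hcg (fun w => p.eval w) M p.continuous.continuousOn
    p.differentiable.differentiableOn (fun w hw => hM w (by simpa using hw))
  have h1 := repr Ψ ψ hl 2 (by norm_num) (fun w => p.eval w) p.differentiable.differentiableOn z hz
  have h2 := schwarz G hGc hGd z hz
  have h3 : (fun a : Circle => ((fun w : ℂ => p.eval w) (ψ a)).re) = fun a : Circle => (G a).re := by
    funext a
    exact (hre a).symm
  rw [h3, h2, hG0] at h1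
  simp only [Polynomial.deriv] at h1
  have h4 : (G z - I * ((0 : ℝ) : ℂ)).im = (G z).im := by simp
  rw [h4] at h1
  have h5 : (∫ s in (-π)..π, Real.log ‖(ψ.symm (Circle.exp s) : ℂ) - z‖ *
        (I * exp (s * I) * p.derivative.eval (exp (s * I))).re) = π * (G z).im := by
    rw [h1]
    field_simp
  rw [h5, abs_mul, abs_of_pos Real.pi_pos, mul_assoc]
  have h6 : |(G z).im| ≤ C0 * M := (abs_im_le_norm _).trans (hGb z (by simpa using hz.le))
  exact mul_le_mul_of_nonneg_left h6 Real.pi_pos.le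

lemma h319_re (a b : ℂ) (ha : ‖a‖ = 1) (hb : ‖b‖ = 1) :
    (a * (starRingEnd ℂ) b).re = 1 - ‖a - b‖ ^ 2 / 2 := by
  have h1 : ‖a - b‖ ^ 2 = Complex.normSq (a - b) := (Complex.normSq_eq_norm_sq _).symm
  have h2 : Complex.normSq a = 1 := by rw [Complex.normSq_eq_norm_sq, ha]; norm_num
  have h3 : Complex.normSq b = 1 := by rw [Complex.normSq_eq_norm_sq, hb]; norm_num
  rw [h1, Complex.normSq_sub, h2, h3]
  ring


lemma nec_integrable (φ : Circle ≃ₜ Circle) (C : ℝ) (hC : 0 ≤ C)
    (h : ∀ (z : ℂ), ‖z‖ < 1 → ∀ (p : Polynomial ℂ) (M : ℝ),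
      (∀ z : ℂ, ‖z‖ ≤ 1 → ‖p.eval z‖ ≤ M) →
      |∫ s in (-π)..π, Real.log ‖(φ (Circle.exp s) : ℂ) - z‖ *
        (I * exp (s * I) * p.derivative.eval (exp (s * I))).re| ≤ C * M) (x : Circle) :
    IntervalIntegrable (fun s : ℝ => Real.log ‖(φ (Circle.exp s) : ℂ) - x‖) volume (-π) π := by
  set y0 : ℂ := (φ.symm x : ℂ) with hy0
  have hy0n : ‖y0‖ = 1 := Circle.norm_coe _
  have hxn : ‖(x : ℂ)‖ = 1 := Circle.norm_coe _
  set y : ℝ → ℂ := fun s => (φ (Circle.exp s) : ℂ) with hy
  have hyn : ∀ s, ‖y s‖ = 1 := fun s => Circle.norm_coe _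
  have hyc : Continuous y := continuous_induced_dom.comp (φ.continuous.comp Circle.exp.continuous)
  set e : ℝ → ℂ := fun s => (Circle.exp s : ℂ) with he
  have hen : ∀ s, ‖e s‖ = 1 := fun s => Circle.norm_coe _
  have hec : Continuous e := continuous_induced_dom.comp Circle.exp.continuous
  obtain ⟨B, hB0, hB⟩ := far_bound φ (1/2) (by norm_num)
  -- the weight
  set c : ℝ → ℝ := fun s => (e s * (starRingEnd ℂ) y0).re with hc
  have hcc : Continuous c := Complex.continuous_re.comp (hec.mul continuous_const)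
  have hce : ∀ s, c s = 1 - ‖e s - y0‖ ^ 2 / 2 := fun s => h319_re _ _ (hen s) hy0n
  have hc1 : ∀ s, |c s| ≤ 1 := by
    intro s
    refine (Complex.abs_re_le_norm _).trans ?_
    rw [norm_mul, hen, Complex.norm_conj, hy0n]
    norm_num
  set p : Polynomial ℂ := Polynomial.C (-I * (starRingEnd ℂ) y0) * Polynomial.X with hp
  have hpder : ∀ z : ℂ, p.derivative.eval z = -I * (starRingEnd ℂ) y0 := by
    intro z
    rw [hp]
    simp
  have hpn : ∀ z : ℂ, ‖z‖ ≤ 1 → ‖p.eval z‖ ≤ 1 := by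
    intro z hz
    rw [hp]
    simp only [Polynomial.eval_mul, Polynomial.eval_C, Polynomial.eval_X, norm_mul, norm_neg,
      Complex.norm_I, Complex.norm_conj, hy0n]
    linarith
  have hw : ∀ s : ℝ, (I * exp (s * I) * p.derivative.eval (exp (s * I))).re = c s := by
    intro s
    rw [hpder, hc]
    simp only [he, Circle.coe_exp]
    congr 1
    linear_combination (-(exp (s * I) * (starRingEnd ℂ) y0)) * Complex.I_mul_I
  -- radii
  set r : ℕ → ℝ := fun n => 1 - 1 / ((n:ℝ) + 2) with hr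
  have hr0 : ∀ n, 0 ≤ r n := by
    intro n
    have h1 : (0:ℝ) ≤ n := Nat.cast_nonneg n
    have h2 : 1 / ((n:ℝ) + 2) ≤ 1 := by
      rw [div_le_one (by linarith)]
      linarith
    simp only [hr]
    linarith
  have hr1 : ∀ n, r n < 1 := by
    intro n
    have h1 : (0:ℝ) ≤ n := Nat.cast_nonneg n
    have h2 : 0 < 1 / ((n:ℝ) + 2) := by positivity
    simp only [hr]
    linarith
  have hrlim : Tendsto r atTop (𝓝 1) := by
    have h1 : Tendsto (fun n : ℕ => 1 / ((n:ℝ) + 2)) atTop (𝓝 0) := by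
      have h2 : Tendsto (fun n : ℕ => (n:ℝ) + 2) atTop atTop :=
        tendsto_atTop_add_const_right _ _ tendsto_natCast_atTop_atTop
      simp only [one_div]
      exact tendsto_inv_atTop_zero.comp h2
    have h3 := h1.const_sub 1
    simpa [hr] using h3
  have hzn : ∀ n, ‖((r n : ℝ) : ℂ) * x‖ = r n := by
    intro n
    rw [norm_mul, Complex.norm_real, Real.norm_eq_abs, abs_of_nonneg (hr0 n), hxn, mul_one]
  have hpos : ∀ n s, 0 < ‖y s - ((r n : ℝ) : ℂ) * x‖ := by
    intro n s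
    rw [norm_pos_iff, sub_ne_zero]
    intro hh
    have h1 := hyn s
    rw [hh, hzn] at h1
    linarith [hr1 n]
  have hle2 : ∀ n s, ‖y s - ((r n : ℝ) : ℂ) * x‖ ≤ 2 := by
    intro n s
    refine (norm_sub_le _ _).trans ?_
    rw [hyn, hzn]
    linarith [hr1 n]
  set f : ℕ → ℝ → ℝ := fun n s => Real.log ‖y s - ((r n : ℝ) : ℂ) * x‖ with hf
  have hfc : ∀ n, Continuous (f n) := fun n =>
    (hyc.sub continuous_const).norm.log fun s => (hpos n s).ne'
  set L : ℕ → ℝ → ℝ := fun n s => Real.log 2 - f n s with hL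
  have hLc : ∀ n, Continuous (L n) := fun n => continuous_const.sub (hfc n)
  have hL0 : ∀ n s, 0 ≤ L n s := by
    intro n s
    have := Real.log_le_log (hpos n s) (hle2 n s)
    simp only [hL, hf]
    linarith
  have hlog2 : 0 ≤ Real.log 2 := Real.log_nonneg (by norm_num)
  -- the sets
  set S : Set ℝ := Ioc (-π) π with hS
  set t : Set ℝ := {s | ‖e s - y0‖ < 1/2} with ht
  have htm : MeasurableSet t := (isOpen_lt (hec.sub continuous_const).norm continuous_const).measurableSet
  have hSm : MeasurableSet S := measurableSet_Ioc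
  have hSf : volume S < ⊤ := by rw [hS, Real.volume_Ioc]; exact ENNReal.ofReal_lt_top
  have hSr : volume.real S = 2 * π := by
    rw [hS, Real.volume_real_Ioc_of_le (by linarith [Real.pi_pos])]
    ring
  have hNf : volume (S ∩ t) < ⊤ := (measure_mono inter_subset_left).trans_lt hSf
  have hFf : volume (S \ t) < ⊤ := (measure_mono sdiff_subset).trans_lt hSf
  have hNr : volume.real (S ∩ t) ≤ 2 * π := by
    rw [← hSr]; exact measureReal_mono inter_subset_left hSf.ne
  have hFr : volume.real (S \ t) ≤ 2 * π := by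
    rw [← hSr]; exact measureReal_mono sdiff_subset hSf.ne
  have hne : ∀ s, s ∉ t → y s ≠ x := by
    intro s hs hh
    apply hs
    have h1 : φ (Circle.exp s) = x := Subtype.ext hh
    have h2 : Circle.exp s = φ.symm x := by rw [← h1, φ.symm_apply_apply]
    show ‖e s - y0‖ < 1/2
    simp only [he, hy0]
    rw [h2, sub_self, norm_zero]
    norm_num
  have hfar : ∀ s, s ∉ t → |Real.log ‖y s - x‖| ≤ B := by
    intro s hs
    refine hB x (Circle.exp s) ?_
    have h1 : ¬ ‖e s - y0‖ < 1/2 := hs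
    push Not at h1
    exact h1
  have hfarn : ∀ n s, s ∉ t → |f n s| ≤ 2 * Real.log 2 + B := by
    intro n s hs
    have h1 := half_dist (y s) x (((r n : ℝ) : ℂ) * x) (hyn s) hxn (hne s hs) (r n) (hr0 n)
      (hr1 n).le rfl
    have h2 := hfar s hs
    have h3 := h1.2.2
    simp only [hf]
    linarith
  have hcN : ∀ s ∈ t, 1/2 ≤ c s := by
    intro s hs
    have h1 : ‖e s - y0‖ < 1/2 := hs
    rw [hce]
    nlinarith [norm_nonneg (e s - y0)]
  have hInt : ∀ g : ℝ → ℝ, Continuous g → ∀ u : Set ℝ, u ⊆ S → IntegrableOn g u := by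
    intro g hg u hu
    refine IntegrableOn.mono_set ?_ hu
    rw [hS]
    exact (hg.integrableOn_Icc (a := -π) (b := π)).mono_set Ioc_subset_Icc_self
  set K : ℝ := Real.log 2 * (2 * π) + (C * 1 + (2 * Real.log 2 + B) * (2 * π)) with hK
  have hkey : ∀ n, ∫ s in S ∩ t, L n s ≤ 2 * K := by
    intro n
    have h1 := h (((r n : ℝ) : ℂ) * x) (by rw [hzn]; exact hr1 n) p 1 hpn
    simp only [hw] at h1
    rw [intervalIntegral.integral_of_le (by linarith [Real.pi_pos])] at h1
    have hfci : IntegrableOn (fun s => f n s * c s) S := hInt _ ((hfc n).mul hcc) S subset_rfl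
    have h2 := integral_inter_add_sdiff htm hfci
    have h3 : ‖∫ s in S \ t, f n s * c s‖ ≤ (2 * Real.log 2 + B) * volume.real (S \ t) := by
      refine norm_setIntegral_le_of_norm_le_const hFf fun s hs => ?_
      rw [Real.norm_eq_abs, abs_mul]
      have h4 := hfarn n s hs.2
      calc |f n s| * |c s| ≤ |f n s| * 1 := mul_le_mul_of_nonneg_left (hc1 s) (abs_nonneg _)
        _ ≤ _ := by rw [mul_one]; exact h4
    have h3' : ‖∫ s in S \ t, f n s * c s‖ ≤ (2 * Real.log 2 + B) * (2 * π) :=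
      h3.trans (mul_le_mul_of_nonneg_left hFr (by positivity))
    have h5 : ‖∫ s in S ∩ t, Real.log 2 * c s‖ ≤ Real.log 2 * volume.real (S ∩ t) := by
      refine norm_setIntegral_le_of_norm_le_const hNf fun s hs => ?_
      rw [Real.norm_eq_abs, abs_mul, abs_of_nonneg hlog2]
      calc Real.log 2 * |c s| ≤ Real.log 2 * 1 := mul_le_mul_of_nonneg_left (hc1 s) hlog2
        _ = _ := mul_one _
    have h5' : ‖∫ s in S ∩ t, Real.log 2 * c s‖ ≤ Real.log 2 * (2 * π) :=
      h5.trans (mul_le_mul_of_nonneg_left hNr hlog2)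
    have h6 : ∫ s in S ∩ t, (Real.log 2 * c s - f n s * c s) =
        (∫ s in S ∩ t, Real.log 2 * c s) - ∫ s in S ∩ t, f n s * c s :=
      integral_sub (hInt _ (continuous_const.mul hcc) _ inter_subset_left)
        (hInt _ ((hfc n).mul hcc) _ inter_subset_left)
    have h7 : ∫ s in S ∩ t, L n s ≤ ∫ s in S ∩ t, 2 * (Real.log 2 * c s - f n s * c s) := by
      refine setIntegral_mono_on (hInt _ (hLc n) _ inter_subset_left)
        (hInt _ (continuous_const.mul ((continuous_const.mul hcc).sub ((hfc n).mul hcc))) _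
          inter_subset_left) (hSm.inter htm) fun s hs => ?_
      have h8 := hcN s hs.2
      have h9 := hL0 n s
      have h10 : 2 * (Real.log 2 * c s - f n s * c s) = L n s * (2 * c s) := by
        simp only [hL]
        ring
      rw [h10]
      exact le_mul_of_one_le_right h9 (by linarith)
    rw [integral_const_mul] at h7
    rw [Real.norm_eq_abs] at h3' h5'
    have a1 := abs_le.1 h3'
    have a2 := abs_le.1 h5'
    have a3 := abs_le.1 h1
    have h2' : (∫ s in S ∩ t, f n s * c s) + (∫ s in S \ t, f n s * c s) =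
      ∫ s in Ioc (-π) π, Real.log ‖(φ (Circle.exp s) : ℂ) - ((r n : ℝ) : ℂ) * x‖ * c s := h2
    rw [h6] at h7
    rw [hK]
    linarith [a1.1, a1.2, a2.1, a2.2, a3.1, a3.2]
  -- the limit
  set F : ℝ → ℝ := fun s => Real.log ‖y s - x‖ with hF
  have hFm : Measurable F := Real.measurable_log.comp (hyc.sub continuous_const).norm.measurable
  have hnle : ∀ s, ‖y s - x‖ ≤ 2 := by
    intro s
    refine (norm_sub_le _ _).trans ?_
    rw [hyn, hxn]
    norm_num
  have hLinf0 : ∀ s, 0 ≤ Real.log 2 - F s := by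
    intro s
    rcases (norm_nonneg (y s - x)).eq_or_lt with h1 | h1
    · simp only [hF]
      rw [← h1, Real.log_zero]
      linarith
    · have := Real.log_le_log h1 (hnle s)
      simp only [hF]
      linarith
  have hpt : ∀ s, ENNReal.ofReal (Real.log 2 - F s) ≤
      liminf (fun n => ENNReal.ofReal (L n s)) atTop := by
    intro s
    by_cases hs : y s = x
    · refine le_liminf_of_le (by isBoundedDefault) (Eventually.of_forall fun n => ?_)
      apply ENNReal.ofReal_le_ofReal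
      simp only [hL, hf, hF, hs]
      rw [sub_self, norm_zero, Real.log_zero]
      have h1 : ‖(x : ℂ) - ((r n : ℝ) : ℂ) * x‖ ≤ 1 := by
        have h2 : (x : ℂ) - ((r n : ℝ) : ℂ) * x = ((1 - r n : ℝ) : ℂ) * x := by
          push_cast
          ring
        rw [h2, norm_mul, Complex.norm_real, hxn, mul_one, Real.norm_eq_abs, abs_of_nonneg
          (by linarith [hr1 n])]
        linarith [hr0 n]
      have h3 := Real.log_nonpos (norm_nonneg _) h1
      linarith
    · have h1 : Tendsto (fun n => L n s) atTop (𝓝 (Real.log 2 - F s)) := by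
        have h2 : Tendsto (fun n => y s - ((r n : ℝ) : ℂ) * x) atTop (𝓝 (y s - x)) := by
          have h3 : Tendsto (fun n => ((r n : ℝ) : ℂ)) atTop (𝓝 ((1:ℝ) : ℂ)) :=
            (Complex.continuous_ofReal.tendsto 1).comp hrlim
          have h4 := (h3.mul_const (x : ℂ)).const_sub (y s)
          simpa using h4
        have h5 := (h2.norm).log (by rw [norm_ne_zero_iff]; exact sub_ne_zero.2 hs)
        exact h5.const_sub (Real.log 2)
      have h6 := (ENNReal.tendsto_ofReal h1).liminf_eq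
      rw [h6]
  have hfatou : ∫⁻ s in S ∩ t, ENNReal.ofReal (Real.log 2 - F s) ≤ ENNReal.ofReal (2 * K) := by
    calc ∫⁻ s in S ∩ t, ENNReal.ofReal (Real.log 2 - F s)
        ≤ ∫⁻ s in S ∩ t, liminf (fun n => ENNReal.ofReal (L n s)) atTop := lintegral_mono hpt
      _ ≤ liminf (fun n => ∫⁻ s in S ∩ t, ENNReal.ofReal (L n s)) atTop :=
          lintegral_liminf_le fun n => ENNReal.measurable_ofReal.comp (hLc n).measurable
      _ ≤ ENNReal.ofReal (2 * K) := by
          refine liminf_le_of_frequently_le' (Frequently.of_forall fun n => ?_)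
          rw [← ofReal_integral_eq_lintegral_ofReal (hInt _ (hLc n) _ inter_subset_left)
            (Eventually.of_forall (hL0 n))]
          exact ENNReal.ofReal_le_ofReal (hkey n)
  have hLi : IntegrableOn (fun s => Real.log 2 - F s) (S ∩ t) := by
    refine ⟨(measurable_const.sub hFm).aestronglyMeasurable, ?_⟩
    rw [hasFiniteIntegral_iff_ofReal (Eventually.of_forall hLinf0)]
    exact hfatou.trans_lt ENNReal.ofReal_lt_top
  have hFN : IntegrableOn F (S ∩ t) := by
    have h1 : IntegrableOn (fun _ : ℝ => Real.log 2) (S ∩ t) :=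
      integrableOn_const hNf.ne
    have h2 := h1.sub hLi
    refine h2.congr (Eventually.of_forall fun s => ?_)
    simp
  have hFF : IntegrableOn F (S \ t) := by
    refine Measure.integrableOn_of_bounded (M := B) hFf.ne hFm.aestronglyMeasurable ?_
    refine (ae_restrict_mem (hSm.diff htm)).mono fun s hs => ?_
    exact hfar s hs.2
  rw [intervalIntegrable_iff_integrableOn_Ioc_of_le (by linarith [Real.pi_pos])]
  have h1 : S = (S ∩ t) ∪ (S \ t) := (inter_union_sdiff S t).symm
  show IntegrableOn F S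
  rw [h1]
  exact hFN.union hFF

lemma nec_claimA (φ : Circle ≃ₜ Circle) (C : ℝ)
    (h : ∀ (z : ℂ), ‖z‖ < 1 → ∀ (p : Polynomial ℂ) (M : ℝ),
      (∀ z : ℂ, ‖z‖ ≤ 1 → ‖p.eval z‖ ≤ M) →
      |∫ s in (-π)..π, Real.log ‖(φ (Circle.exp s) : ℂ) - z‖ *
        (I * exp (s * I) * p.derivative.eval (exp (s * I))).re| ≤ C * M) (x : Circle)
    (hi : IntervalIntegrable (fun s : ℝ => Real.log ‖(φ (Circle.exp s) : ℂ) - x‖) volume (-π) π)
    (p : Polynomial ℂ) (M : ℝ) (hp : ∀ z : ℂ, ‖z‖ ≤ 1 → ‖p.eval z‖ ≤ M) :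
    |∫ s in (-π)..π, Real.log ‖(φ (Circle.exp s) : ℂ) - x‖ *
        (I * exp (s * I) * p.derivative.eval (exp (s * I))).re| ≤ C * M := by
  have hgc : Continuous (fun s : ℝ => (I * exp (s * I) * p.derivative.eval (exp (s * I))).re) := by
    have h1 : Continuous fun s : ℝ => p.derivative.eval (exp (s * I)) :=
      p.derivative.continuous.comp (by fun_prop)
    fun_prop
  have hr0 : ∀ n : ℕ, (0 : ℝ) ≤ 1 - 1 / ((n : ℝ) + 1) := by
    intro n
    rw [sub_nonneg, div_le_one (by positivity)]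
    have : (0 : ℝ) ≤ n := Nat.cast_nonneg n
    linarith
  have hr1 : ∀ n : ℕ, (1 : ℝ) - 1 / ((n : ℝ) + 1) < 1 := by
    intro n
    have : (0 : ℝ) < 1 / ((n : ℝ) + 1) := by positivity
    linarith
  have hrt : Tendsto (fun n : ℕ => (1 : ℝ) - 1 / ((n : ℝ) + 1)) atTop (𝓝 1) := by
    have := tendsto_one_div_add_atTop_nhds_zero_nat (𝕜 := ℝ)
    simpa using this.const_sub 1
  have hcφ : Continuous fun s : ℝ => (φ (Circle.exp s) : ℂ) :=
    continuous_subtype_val.comp (φ.continuous.comp Circle.exp.continuous)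
  have hae : ∀ᵐ s : ℝ ∂volume, s ∈ uIoc (-π) π → (φ (Circle.exp s) : ℂ) ≠ x := by
    have h1 : ({s : ℝ | s ∈ uIoc (-π) π ∧ (φ (Circle.exp s) : ℂ) = x}).Subsingleton := by
      rintro s ⟨hs, hs'⟩ t ⟨ht, ht'⟩
      rw [uIoc_of_le (by linarith [Real.pi_pos])] at hs ht
      have h2 : (φ (Circle.exp s)) = (φ (Circle.exp t)) := by
        apply Circle.coe_injective
        rw [hs', ht']
      have h3 := φ.injective h2
      have h4 := Circle.arg_exp hs.1 hs.2
      have h5 := Circle.arg_exp ht.1 ht.2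
      rw [← h4, ← h5, h3]
    have h2 := h1.measure_zero (volume : Measure ℝ)
    rw [ae_iff]
    convert h2 using 2
    ext s
    simp
  have hlim : Tendsto (fun n : ℕ => ∫ s in (-π)..π,
      Real.log ‖(φ (Circle.exp s) : ℂ) - ((1 - 1 / ((n : ℝ) + 1) : ℝ) : ℂ) * x‖ *
        (I * exp (s * I) * p.derivative.eval (exp (s * I))).re) atTop
      (𝓝 (∫ s in (-π)..π, Real.log ‖(φ (Circle.exp s) : ℂ) - x‖ *
        (I * exp (s * I) * p.derivative.eval (exp (s * I))).re)) := by
    refine intervalIntegral.tendsto_integral_filter_of_dominated_convergence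
      (fun s => (2 * Real.log 2 + |Real.log ‖(φ (Circle.exp s) : ℂ) - x‖|) *
        |(I * exp (s * I) * p.derivative.eval (exp (s * I))).re|) ?_ ?_ ?_ ?_
    · refine Eventually.of_forall fun n => ?_
      have h1 : Measurable fun s : ℝ =>
          Real.log ‖(φ (Circle.exp s) : ℂ) - ((1 - 1 / ((n : ℝ) + 1) : ℝ) : ℂ) * x‖ :=
        Real.measurable_log.comp ((hcφ.sub continuous_const).norm.measurable)
      exact (h1.mul hgc.measurable).aestronglyMeasurable
    · refine Eventually.of_forall fun n => ?_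
      filter_upwards [hae] with s hs hs'
      have h1 := (half_dist (φ (Circle.exp s) : ℂ) x _ (Circle.norm_coe _) (Circle.norm_coe _) (hs hs')
        (1 - 1 / ((n : ℝ) + 1)) (hr0 n) (hr1 n).le rfl).2.2
      rw [norm_mul, Real.norm_eq_abs, Real.norm_eq_abs]
      exact mul_le_mul_of_nonneg_right h1 (abs_nonneg _)
    · refine IntervalIntegrable.mul_continuousOn ?_ hgc.abs.continuousOn
      exact (intervalIntegrable_const).add hi.abs
    · filter_upwards [hae] with s hs hs'
      refine Tendsto.mul_const _ ?_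
      have h1 : ‖(φ (Circle.exp s) : ℂ) - x‖ ≠ 0 := by
        rw [norm_ne_zero_iff, sub_ne_zero]
        exact hs hs'
      refine (Real.continuousAt_log h1).tendsto.comp ?_
      refine Tendsto.norm ?_
      refine Tendsto.sub tendsto_const_nhds ?_
      have h2 : Tendsto (fun n : ℕ => ((1 - 1 / ((n : ℝ) + 1) : ℝ) : ℂ) * (x : ℂ)) atTop
          (𝓝 (((1 : ℝ) : ℂ) * (x : ℂ))) :=
        ((Complex.continuous_ofReal.tendsto 1).comp hrt).mul_const _
      simpa using h2
  refine le_of_tendsto hlim.abs (Eventually.of_forall fun n => ?_)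
  refine h _ ?_ p M hp
  rw [norm_mul, Circle.norm_coe, mul_one, Complex.norm_real, Real.norm_eq_abs, abs_of_nonneg (hr0 n)]
  exact hr1 n


lemma nec_cond (φ : Circle ≃ₜ Circle) (C : ℝ) (hC : 0 ≤ C)
    (h : ∀ (z : ℂ), ‖z‖ < 1 → ∀ (p : Polynomial ℂ) (M : ℝ),
      (∀ z : ℂ, ‖z‖ ≤ 1 → ‖p.eval z‖ ≤ M) →
      |∫ s in (-π)..π, Real.log ‖(φ (Circle.exp s) : ℂ) - z‖ *
        (I * exp (s * I) * p.derivative.eval (exp (s * I))).re| ≤ C * M) : Cond φ (2 * C) := by
  intro x
  have hi := nec_integrable φ C hC h x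
  refine ⟨hi, fun p M hp => ?_⟩
  have hA := nec_claimA φ C h x hi p M hp
  have hB := nec_claimA φ C h x hi (Polynomial.C I * p) M (fun z hz => by
    rw [Polynomial.eval_mul, Polynomial.eval_C, norm_mul, Complex.norm_I, one_mul]
    exact hp z hz)
  have hwc : Continuous (fun s : ℝ => exp (s * I) * p.derivative.eval (exp (s * I))) := by
    have h1 : Continuous fun s : ℝ => p.derivative.eval (exp (s * I)) :=
      p.derivative.continuous.comp (by fun_prop)
    fun_prop
  have hint : IntervalIntegrable (fun s : ℝ => exp (s * I) * p.derivative.eval (exp (s * I)) *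
        (Real.log ‖(φ (Circle.exp s) : ℂ) - x‖ : ℝ)) volume (-π) π := by
    have h1 : IntervalIntegrable (fun s : ℝ => ((Real.log ‖(φ (Circle.exp s) : ℂ) - x‖ : ℝ) : ℂ))
        volume (-π) π := ⟨hi.1.ofReal, hi.2.ofReal⟩
    exact h1.continuousOn_mul hwc.continuousOn
  have hre : (∫ s in (-π)..π, exp (s * I) * p.derivative.eval (exp (s * I)) *
        (Real.log ‖(φ (Circle.exp s) : ℂ) - x‖ : ℝ)).re = -∫ s in (-π)..π,
        Real.log ‖(φ (Circle.exp s) : ℂ) - x‖ *
        (I * exp (s * I) * (Polynomial.C I * p).derivative.eval (exp (s * I))).re := by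
    have h1 := Complex.reCLM.intervalIntegral_comp_comm hint
    simp only [Complex.reCLM_apply] at h1
    rw [← h1, ← intervalIntegral.integral_neg]
    refine intervalIntegral.integral_congr fun s _ => ?_
    simp only [Polynomial.derivative_C_mul, Polynomial.eval_mul, Polynomial.eval_C]
    have h2 : I * exp (s * I) * (I * p.derivative.eval (exp (s * I))) =
        -(exp (s * I) * p.derivative.eval (exp (s * I))) := by
      linear_combination (exp (s * I) * p.derivative.eval (exp (s * I))) * Complex.I_mul_I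
    rw [h2, Complex.neg_re, Complex.re_mul_ofReal]
    ring
  have him : (∫ s in (-π)..π, exp (s * I) * p.derivative.eval (exp (s * I)) *
        (Real.log ‖(φ (Circle.exp s) : ℂ) - x‖ : ℝ)).im = -∫ s in (-π)..π,
        Real.log ‖(φ (Circle.exp s) : ℂ) - x‖ *
        (I * exp (s * I) * p.derivative.eval (exp (s * I))).re := by
    have h1 := Complex.imCLM.intervalIntegral_comp_comm hint
    simp only [Complex.imCLM_apply] at h1
    rw [← h1, ← intervalIntegral.integral_neg]
    refine intervalIntegral.integral_congr fun s _ => ?_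
    have h2 : I * exp (s * I) * p.derivative.eval (exp (s * I)) =
        I * (exp (s * I) * p.derivative.eval (exp (s * I))) := by ring
    rw [h2, Complex.I_mul_re, Complex.im_mul_ofReal]
    ring
  refine (Complex.norm_le_abs_re_add_abs_im _).trans ?_
  rw [hre, him, abs_neg, abs_neg]
  linarith

lemma lift_aux (f : C(Circle, Circle)) : ∃ (F : ℝ → ℝ) (k : ℤ), Continuous F ∧
    (∀ t, Circle.exp (F t) = f (Circle.exp t)) ∧ ∀ t, F (t + 2 * π) = F t + k * (2 * π) := by
  have hc : Continuous (fun t : ℝ => (Circle.exp t : Circle)) := Circle.exp.continuous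
  obtain ⟨e₀, he₀⟩ : ∃ e₀ : ℝ, Circle.exp e₀ = f (Circle.exp 0) :=
    ⟨_, Circle.exp_arg (f (Circle.exp 0))⟩
  obtain ⟨F, ⟨hF0, hF⟩, -⟩ := Circle.isCoveringMap_exp.existsUnique_continuousMap_lifts
    (A := ℝ) (f.comp ⟨fun t : ℝ => (Circle.exp t : Circle), hc⟩) 0 e₀ he₀
  have hF' : ∀ t, Circle.exp (F t) = f (Circle.exp t) := fun t => congrFun hF t
  obtain ⟨k, hk⟩ : ∃ k : ℤ, F (0 + 2 * π) = F 0 + k * (2 * π) := by
    apply Circle.exp_eq_exp.mp
    rw [hF', hF', Circle.exp_add_two_pi]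
  refine ⟨F, k, F.continuous, hF', ?_⟩
  have := Circle.isCoveringMap_exp.eq_of_comp_eq (A := ℝ) (g₁ := fun t => F (t + 2 * π))
    (g₂ := fun t => F t + k * (2 * π)) (by fun_prop) (by fun_prop) (by
      funext t
      simp only [Function.comp_apply]
      have h2 : Circle.exp (F t + k * (2 * π)) = Circle.exp (F t) :=
        Circle.exp_eq_exp.mpr ⟨k, rfl⟩
      rw [h2, hF', hF', Circle.exp_add_two_pi]) 0 hk
  exact fun t => congrFun this t


lemma lift_exists (ψ : Circle ≃ₜ Circle) : ∃ Ψ : ℝ → ℝ,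
    Lift Ψ ψ ∨ Lift Ψ ((Homeomorph.inv Circle).trans ψ) := by
  obtain ⟨Ψ, k, hΨc, hΨ, hΨk⟩ := lift_aux ⟨ψ, ψ.continuous⟩
  obtain ⟨Φ, l, hΦc, hΦ, hΦl⟩ := lift_aux ⟨ψ.symm, ψ.symm.continuous⟩
  simp only [ContinuousMap.coe_mk] at hΨ hΦ
  obtain ⟨m, hm⟩ : ∃ m : ℤ, Φ (Ψ 0) = 0 + m * (2 * π) := by
    apply Circle.exp_eq_exp.mp
    rw [hΦ, hΨ, ψ.symm_apply_apply]
  have hcomp : ∀ t, Φ (Ψ t) = t + m * (2 * π) := by
    have := Circle.isCoveringMap_exp.eq_of_comp_eq (A := ℝ) (g₁ := fun t => Φ (Ψ t))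
      (g₂ := fun t => t + m * (2 * π)) (by fun_prop) (by fun_prop) (by
        funext t
        simp only [Function.comp_apply]
        have h2 : Circle.exp (t + m * (2 * π)) = Circle.exp t :=
          Circle.exp_eq_exp.mpr ⟨m, rfl⟩
        rw [h2, hΦ, hΨ, ψ.symm_apply_apply]) 0 hm
    exact fun t => congrFun this t
  have hinj : Function.Injective Ψ := by
    intro s t h
    have h1 := hcomp s
    rw [h, hcomp t] at h1
    linarith
  have hΦl' : ∀ n : ℕ, ∀ t, Φ (t + n * (2 * π)) = Φ t + n * (l * (2 * π)) := by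
    intro n
    induction n with
    | zero => intro t; simp
    | succ n ih =>
      intro t
      have h1 := hΦl (t + n * (2 * π))
      rw [ih t] at h1
      have h2 : t + ((n + 1 : ℕ) : ℝ) * (2 * π) = t + n * (2 * π) + 2 * π := by
        push_cast; ring
      rw [h2, h1]; push_cast; ring
  have hΦz : ∀ n : ℤ, ∀ t, Φ (t + n * (2 * π)) = Φ t + n * (l * (2 * π)) := by
    intro n t
    obtain ⟨j, rfl | rfl⟩ := n.eq_nat_or_neg
    · simpa using hΦl' j t
    · have h1 := hΦl' j (t + ((-(j : ℤ) : ℤ) : ℝ) * (2 * π))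
      have h2 : t + ((-(j : ℤ) : ℤ) : ℝ) * (2 * π) + (j : ℝ) * (2 * π) = t := by
        push_cast; ring
      rw [h2] at h1
      rw [h1]; push_cast; ring
  have hkl : k * l = 1 := by
    have h1 := hcomp (0 + 2 * π)
    rw [hΨk 0, hΦz k, hcomp 0] at h1
    have h2 : ((k : ℝ) * l - 1) * (2 * π) = 0 := by linarith
    have h3 : (k : ℝ) * l - 1 = 0 := by
      rcases mul_eq_zero.mp h2 with h | h
      · exact h
      · exact absurd h (by positivity)
    have h4 : (k : ℝ) * l = 1 := by linarith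
    exact_mod_cast h4
  have hk : k = 1 ∨ k = -1 := Int.isUnit_iff.mp (IsUnit.of_mul_eq_one l hkl)
  have hpi : (0 : ℝ) < 2 * π := by positivity
  rcases hΨc.strictMono_of_inj hinj with hmono | hanti
  · refine ⟨Ψ, Or.inl ⟨hΨc, hmono, ?_, fun t => (hΨ t).symm⟩⟩
    rcases hk with rfl | rfl
    · intro t; rw [hΨk t]; push_cast; ring
    · exfalso
      have h1 := hΨk 0
      have h2 := hmono (show (0 : ℝ) < 0 + 2 * π by linarith)
      push_cast at h1
      linarith
  · refine ⟨fun t => Ψ (-t), Or.inr ⟨by fun_prop, ?_, ?_, ?_⟩⟩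
    · intro s t h
      exact hanti (neg_lt_neg h)
    · rcases hk with rfl | rfl
      · exfalso
        have h1 := hΨk 0
        have h2 := hanti (show (0 : ℝ) < 0 + 2 * π by linarith)
        push_cast at h1
        linarith
      · intro t
        have h1 := hΨk (-(t + 2 * π))
        have h2 : -(t + 2 * π) + 2 * π = -t := by ring
        rw [h2] at h1
        push_cast at h1
        show Ψ (-(t + 2 * π)) = Ψ (-t) + 2 * π
        linarith
    · intro t
      show ψ ((Circle.exp t)⁻¹) = Circle.exp (Ψ (-t))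
      rw [hΨ, Circle.exp_neg]

/-- restriction of polynomials to the circle -/
noncomputable def resP : Polynomial ℂ →ₗ[ℂ] C(Circle, ℂ) where
  toFun p := ⟨fun z : Circle => p.eval (z : ℂ), by fun_prop⟩
  map_add' p q := by ext z; simp
  map_smul' c p := by ext z; simp

lemma resP_apply (p : Polynomial ℂ) (z : Circle) : resP p z = p.eval (z : ℂ) := rfl

lemma resP_inj : Function.Injective resP := by
  rw [← LinearMap.ker_eq_bot, LinearMap.ker_eq_bot']
  intro p hp
  apply Polynomial.eq_zero_of_infinite_isRoot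
  have hI : Infinite Circle := by
    have : Infinite (Set.Ioc (-π) π) := (Set.Ioc_infinite (by linarith [Real.pi_pos])).to_subtype
    exact Infinite.of_injective Circle.argEquiv.symm Circle.argEquiv.symm.injective
  have : (Set.range (fun z : Circle => (z : ℂ))).Infinite := by
    exact @Set.infinite_range_of_injective Circle ℂ hI _ Circle.coe_injective
  refine this.mono ?_
  rintro _ ⟨z, rfl⟩
  have := congrArg (fun f : C(Circle, ℂ) => f z) hp
  simpa [resP_apply] using this

lemma resP_bound (p : Polynomial ℂ) (z : ℂ) (hz : ‖z‖ ≤ 1) : ‖p.eval z‖ ≤ ‖resP p‖ := by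
  have h := Complex.norm_le_of_forall_mem_frontier_norm_le (U := ball (0:ℂ) 1) (f := fun z => p.eval z)
    isBounded_ball (by
      apply DifferentiableOn.diffContOnCl
      exact p.differentiable.differentiableOn) (C := ‖resP p‖) (by
      intro w hw
      rw [frontier_ball (0:ℂ) one_ne_zero, mem_sphere_zero_iff_norm] at hw
      have h3 : w ∈ Submonoid.unitSphere ℂ := by simpa [Submonoid.unitSphere] using hw
      have := (resP p).norm_coe_le_norm (⟨w, h3⟩ : Circle)
      exact this) (z := z) (by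
      rw [closure_ball (0:ℂ) one_ne_zero]; simpa using hz)
  simpa using h

lemma cond_meas (φ : Circle → Circle) (C : ℝ) : Cond φ C ↔ CondM0 φ C := by
  have hlin : ∀ x : Circle, IntervalIntegrable (fun s : ℝ => Real.log ‖(φ (Circle.exp s) : ℂ) - x‖) volume (-π) π →
      ∀ p : Polynomial ℂ, IntervalIntegrable (fun s : ℝ => exp (s * I) * p.derivative.eval (exp (s * I)) *
        ((Real.log ‖(φ (Circle.exp s) : ℂ) - x‖ : ℝ) : ℂ)) volume (-π) π := by
    intro x hx p
    have h1 : IntervalIntegrable (fun s : ℝ => ((Real.log ‖(φ (Circle.exp s) : ℂ) - x‖ : ℝ) : ℂ)) volume (-π) π :=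
      ⟨hx.1.ofReal, hx.2.ofReal⟩
    exact h1.continuousOn_mul (by fun_prop)
  have hmon : ∀ (x : Circle) (n : ℕ), ∫ s in (-π)..π, exp (s * I) * (Polynomial.X ^ n : Polynomial ℂ).derivative.eval (exp (s * I)) *
        ((Real.log ‖(φ (Circle.exp s) : ℂ) - x‖ : ℝ) : ℂ) = n * ∫ s in (-π)..π, exp (n * s * I) * (Real.log ‖(φ (Circle.exp s) : ℂ) - x‖ : ℝ) := by
    intro x n
    rw [← intervalIntegral.integral_const_mul]
    congr 1
    ext s
    rcases n with _ | n
    · simp
    · have : exp ((((n + 1 : ℕ) : ℂ)) * s * I) = exp (s * I) * exp (s * I) ^ n := by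
        rw [mul_assoc, Complex.exp_nat_mul, pow_succ]; ring
      rw [this]
      simp
      ring
  have hT : ∀ x : Circle, IntervalIntegrable (fun s : ℝ => Real.log ‖(φ (Circle.exp s) : ℂ) - x‖) volume (-π) π →
      ∃ T : Polynomial ℂ →ₗ[ℂ] ℂ, ∀ p, T p = ∫ s in (-π)..π, exp (s * I) * p.derivative.eval (exp (s * I)) *
          ((Real.log ‖(φ (Circle.exp s) : ℂ) - x‖ : ℝ) : ℂ) := by
    intro x hint
    refine ⟨{ toFun := fun p => ∫ s in (-π)..π, exp (s * I) * p.derivative.eval (exp (s * I)) *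
          ((Real.log ‖(φ (Circle.exp s) : ℂ) - x‖ : ℝ) : ℂ)
              map_add' := ?_
              map_smul' := ?_ }, fun p => rfl⟩
    · intro p q
      rw [← intervalIntegral.integral_add (hlin x hint p) (hlin x hint q)]
      congr 1
      ext s
      simp
      ring
    · intro c p
      simp only [RingHom.id_apply, smul_eq_mul]
      rw [← intervalIntegral.integral_const_mul]
      congr 1
      ext s
      simp
      ring
  constructor
  · intro h x
    obtain ⟨hint, hb⟩ := h x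
    refine ⟨hint, ?_⟩
    have hC : 0 ≤ C := by
      have := hb 0 1 (by intro z _; simp)
      simpa using this
    obtain ⟨T, hTe⟩ := hT x hint
    let e := LinearEquiv.ofInjective resP resP_inj
    let g : (LinearMap.range resP) →ₗ[ℂ] ℂ := T.comp e.symm.toLinearMap
    have hg : ∀ y : LinearMap.range resP, ‖g y‖ ≤ C * ‖y‖ := by
      intro y
      obtain ⟨p, rfl⟩ := e.surjective y
      have h1 : g (e p) = T p := by simp [g]
      have h2 : ‖(e p : LinearMap.range resP)‖ = ‖resP p‖ := rfl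
      rw [h1, h2, hTe]
      exact hb p ‖resP p‖ (fun z hz => resP_bound p z hz)
    let G : StrongDual ℂ (LinearMap.range resP) := g.mkContinuous C hg
    obtain ⟨Λ, hΛ, hn⟩ := exists_extension_norm_eq (LinearMap.range resP) G
    refine ⟨Λ, ?_, ?_⟩
    · rw [hn]
      exact LinearMap.mkContinuous_norm_le g hC hg
    · intro n
      rw [← hmon x n]
      have h1 : (⟨fun z : Circle => (z : ℂ) ^ n, by fun_prop⟩ : C(Circle, ℂ)) = (e (Polynomial.X ^ n) : LinearMap.range resP) := by
        have : ((e (Polynomial.X ^ n) : LinearMap.range resP) : C(Circle, ℂ)) = resP (Polynomial.X ^ n) := rfl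
        rw [this]
        ext z
        simp [resP_apply]
      rw [h1, hΛ]
      have h2 : G (e (Polynomial.X ^ n)) = T (Polynomial.X ^ n) := by simp [G, g]
      rw [h2, hTe]
  · intro h x
    obtain ⟨hint, Λ, hn, hm⟩ := h x
    refine ⟨hint, ?_⟩
    intro p M hM
    obtain ⟨T, hTe⟩ := hT x hint
    have hTL : T = Λ.toLinearMap.comp resP := by
      apply (Polynomial.basisMonomials ℂ).ext
      intro n
      rw [Polynomial.coe_basisMonomials]
      show T (Polynomial.monomial n 1) = (Λ.toLinearMap.comp resP) (Polynomial.monomial n 1)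
      rw [Polynomial.monomial_one_right_eq_X_pow, hTe, hmon, ← hm]
      show _ = Λ (resP (Polynomial.X ^ n))
      congr 1
      ext z
      simp [resP_apply]
    rw [← hTe, hTL]
    have hM0 : 0 ≤ M := (norm_nonneg _).trans (hM 0 (by simp))
    have h1 : ‖resP p‖ ≤ M := by
      rw [ContinuousMap.norm_le _ hM0]
      exact fun z : Circle => hM z (by rw [Circle.norm_coe])
    calc ‖(Λ.toLinearMap.comp resP) p‖ = ‖Λ (resP p)‖ := rfl
      _ ≤ ‖Λ‖ * ‖resP p‖ := Λ.le_opNorm _
      _ ≤ C * M := mul_le_mul hn h1 (norm_nonneg _) ((norm_nonneg _).trans hn)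

end Pool.Agent.Helper649.ReD
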