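import Mathlib

/-!
Definitions for the statements on circle homeomorphisms and the real parts of the disc algebra.
-/

set_option autoImplicit false

namespace Pool.Agent.Helper649.ReDef

open Complex MeasureTheory Set Filter Topology Metric
open scoped Real

/-- a function of the circle belongs to the disc algebra -/
def IsDiscAlg (f : Circle → ℂ) : Prop :=
  ∃ F : ℂ → ℂ, ContinuousOn F (closedBall 0 1) ∧ DifferentiableOn ℂ F (ball 0 1) ∧
    ∀ z : Circle, F z = f z

/-- real parts of the disc algebra -/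
def reA : Set (Circle → ℝ) := {u | ∃ f, IsDiscAlg f ∧ ∀ z, u z = (f z).re}

/-- composition with the homeomorphism maps the real part of the disc algebra onto itself -/
def Preserves (ψ : Circle ≃ₜ Circle) : Prop := reA = {v | ∃ u ∈ reA, v = fun z => u (ψ z)}

/-- for every `x` the function `log |φ - x|` is integrable on the circle and its pairing with the
tangential derivative of a polynomial `p` is at most `C` times the maximum of `|p|` on the disc -/
def Cond (φ : Circle → Circle) (C : ℝ) : Prop :=
  ∀ x : Circle, IntervalIntegrable (fun s : ℝ => Real.log ‖(φ (Circle.exp s) : ℂ) - x‖) volume (-π) π ∧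
    ∀ (p : Polynomial ℂ) (M : ℝ), (∀ z : ℂ, ‖z‖ ≤ 1 → ‖p.eval z‖ ≤ M) →
      ‖∫ s in (-π)..π, exp (s * I) * p.derivative.eval (exp (s * I)) *
        (Real.log ‖(φ (Circle.exp s) : ℂ) - x‖ : ℝ)‖ ≤ C * M

/-- measure form: for every `x` the function `log |φ - x|` is integrable on the circle and some bounded
functional of `C(S¹)` (a complex measure) of norm at most `C` takes the value
`n ∫ e^{ins} log |φ - x| ds` at `z ^ n` for all `n ≥ 0` -/
def CondM (φ : Circle → Circle) (C : ℝ) : Prop :=
  ∀ x : Circle, IntervalIntegrable (fun s : ℝ => Real.log ‖(φ (Circle.exp s) : ℂ) - x‖) volume (-π) π ∧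
    ∃ L : C(Circle, ℂ) →L[ℂ] ℂ, ‖L‖ ≤ C ∧ ∀ (n : ℕ) (f : C(Circle, ℂ)), (∀ z, f z = (z : ℂ) ^ n) →
      L f = n * ∫ s in (-π)..π, exp (n * s * I) * (Real.log ‖(φ (Circle.exp s) : ℂ) - x‖ : ℝ)

/-- bounded variation form: for every `x` the function `log |φ - x|` is integrable on the circle and has
the same Fourier coefficients `∫ e^{ins} · ds`, `n ≥ 1`, as a complex function `β` of variation at most
`C`; for the real function `log |φ - x|` this says that it is the sum of a constant, `Re β` and the
conjugate function of `∓ Im β` -/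
def CondBV (φ : Circle → Circle) (C : ℝ) : Prop :=
  ∀ x : Circle, IntervalIntegrable (fun s : ℝ => Real.log ‖(φ (Circle.exp s) : ℂ) - x‖) volume (-π) π ∧
    ∃ β : ℝ → ℂ, eVariationOn β (Icc (-π) π) ≤ ENNReal.ofReal C ∧ ∀ n : ℕ, 1 ≤ n →
      ∫ s in (-π)..π, exp (n * s * I) * (Real.log ‖(φ (Circle.exp s) : ℂ) - x‖ : ℝ) =
        ∫ s in (-π)..π, exp (n * s * I) * β s

/-- uniformly bounded variation of the logarithm of the ratio of chord lengths -/
def ChordBV (ψ : Circle → Circle) : Prop :=
  ∃ V : ℝ, ∀ x : ℝ, eVariationOn (fun t : ℝ => Real.log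
      (‖(ψ (Circle.exp t) : ℂ) - ψ (Circle.exp x)‖ / ‖(Circle.exp t : ℂ) - Circle.exp x‖))
    (Ioo x (x + 2 * π)) ≤ ENNReal.ofReal V

end Pool.Agent.Helper649.ReDef
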