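import Pool.Agent.Helper649.ReaB
import Pool.Agent.Helper649.ReaC
import Pool.Agent.Helper649.ReaD


set_option autoImplicit false

namespace Pool.Agent.Helper649.ReE

open Complex MeasureTheory Set Filter Topology Metric
open scoped Real ComplexConjugate
open Pool.Agent.Helper649.ReD Pool.Agent.Helper649.ReDef

/-- composition with the homeomorphism maps the real part of the disc algebra into itself -/
def Incl (ψ : Circle ≃ₜ Circle) : Prop := ∀ u ∈ reA, (fun z => u (ψ z)) ∈ reA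

lemma preserves_iff (ψ : Circle ≃ₜ Circle) : Preserves ψ ↔ Incl ψ ∧ Incl ψ.symm := by
  constructor
  · intro h
    unfold Preserves at h
    constructor
    · intro u hu
      rw [h]
      exact ⟨u, hu, rfl⟩
    · intro u hu
      rw [h] at hu
      obtain ⟨v, hv, rfl⟩ := hu
      have : (fun z => v (ψ (ψ.symm z))) = v := by
        funext z
        rw [Homeomorph.apply_symm_apply]
      show (fun z => v (ψ (ψ.symm z))) ∈ reA
      rw [this]
      exact hv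
  · rintro ⟨h1, h2⟩
    unfold Preserves
    ext v
    constructor
    · intro hv
      refine ⟨fun z => v (ψ.symm z), h2 v hv, ?_⟩
      funext z
      show v z = v (ψ.symm (ψ z))
      rw [Homeomorph.symm_apply_apply]
    · rintro ⟨u, hu, rfl⟩
      exact h1 u hu

lemma reA_inv (u : Circle → ℝ) (hu : u ∈ reA) : (fun z : Circle => u z⁻¹) ∈ reA := by
  obtain ⟨f, ⟨F, hc, hd, hF⟩, hf⟩ := hu
  refine ⟨fun z => conj (F (conj (z : ℂ))), ⟨fun z => conj (F (conj z)), ?_, ?_, fun z => rfl⟩, ?_⟩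
  · refine Complex.continuous_conj.comp_continuousOn (hc.comp Complex.continuous_conj.continuousOn ?_)
    intro z hz
    simpa using hz
  · intro z hz
    have hz' : conj z ∈ ball (0 : ℂ) 1 := by simpa using hz
    have h1 : DifferentiableAt ℂ F (conj z) := (hd _ hz').differentiableAt (isOpen_ball.mem_nhds hz')
    have h2 := h1.star_star
    simp only [Complex.star_def, Complex.conj_conj] at h2
    exact h2.differentiableWithinAt
  · intro z
    show u z⁻¹ = (conj (F (conj (z : ℂ)))).re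
    rw [hf z⁻¹, ← hF z⁻¹, Complex.conj_re, Circle.coe_inv_eq_conj]

lemma incl_inv (ψ : Circle ≃ₜ Circle) :
    Incl ((Homeomorph.inv Circle).trans ψ) ↔ Incl ψ := by
  constructor
  · intro h u hu
    have h1 := reA_inv _ (h u hu)
    have h2 : (fun z : Circle => u (((Homeomorph.inv Circle).trans ψ) z⁻¹)) = fun z => u (ψ z) := by
      funext z
      show u (ψ (z⁻¹)⁻¹) = u (ψ z)
      rw [inv_inv]
    exact h2 ▸ h1
  · intro h u hu
    exact reA_inv _ (h u hu)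

lemma cond_inv (ψ : Circle ≃ₜ Circle) (C : ℝ) :
    Cond ((Homeomorph.inv Circle).trans ψ).symm C ↔ Cond ψ.symm C := by
  have key : ∀ (a x : Circle), ‖((a⁻¹ : Circle) : ℂ) - x‖ = ‖(a : ℂ) - (x⁻¹ : Circle)‖ := by
    intro a x
    rw [Circle.coe_inv_eq_conj, Circle.coe_inv_eq_conj, ← Complex.norm_conj ((conj (a : ℂ)) - x)]
    simp
  have hφ : ∀ y : Circle, ((Homeomorph.inv Circle).trans ψ).symm y = (ψ.symm y)⁻¹ := fun y => rfl
  constructor
  · intro h x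
    have h1 := h x⁻¹
    simp only [hφ, key, inv_inv] at h1
    exact h1
  · intro h x
    have h1 := h x⁻¹
    simp only [hφ, key]
    exact h1

lemma incl_iff (ψ : Circle ≃ₜ Circle) : Incl ψ ↔ ∃ C : ℝ, Cond ψ.symm C := by
  have main : ∀ (Ψ : ℝ → ℝ) (ψ : Circle ≃ₜ Circle), Lift Ψ ψ → (Incl ψ ↔ ∃ C : ℝ, Cond ψ.symm C) := by
    intro Ψ ψ hl
    constructor
    · intro h
      obtain ⟨C, hC, hb⟩ := nec_bdd Ψ ψ hl h
      exact ⟨2 * C, nec_cond ψ.symm C hC hb⟩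
    · rintro ⟨C, hC⟩ u ⟨f, ⟨F, hc, hd, hF⟩, hf⟩
      obtain ⟨C', hC', hctrl⟩ := suff_ctrl Ψ ψ hl C hC
      obtain ⟨G, hGc, hGd, hG⟩ := density2 ψ C' hC' hctrl F hc hd
      refine ⟨fun z => G z, ⟨G, hGc, hGd, fun z => rfl⟩, fun z => ?_⟩
      show u (ψ z) = (G z).re
      rw [hf, ← hF, hG z]
  obtain ⟨Ψ, hl | hl⟩ := lift_exists ψ
  · exact main Ψ ψ hl
  · rw [← incl_inv, main Ψ _ hl]
    exact exists_congr fun C => cond_inv ψ C

lemma chord_len (a b : ℝ) : ‖(Circle.exp a : ℂ) - Circle.exp b‖ = 2 * |Real.sin ((a - b) / 2)| := by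
  rw [Circle.coe_exp, Circle.coe_exp]
  have h1 : exp (a * I) - exp (b * I) =
      exp (((a + b) / 2 : ℝ) * I) * (2 * I * ((Real.sin ((a - b) / 2) : ℝ) : ℂ)) := by
    have e1 : ((Real.sin ((a - b) / 2) : ℝ) : ℂ) =
        (exp (-(((a - b) / 2 : ℝ) : ℂ) * I) - exp ((((a - b) / 2 : ℝ) : ℂ) * I)) * I / 2 := by
      rw [Complex.ofReal_sin]
      rfl
    rw [e1]
    have e2 : exp (a * I) = exp (((a + b) / 2 : ℝ) * I) * exp ((((a - b) / 2 : ℝ) : ℂ) * I) := by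
      rw [← Complex.exp_add]; congr 1; push_cast; ring
    have e3 : exp (b * I) = exp (((a + b) / 2 : ℝ) * I) * exp (-(((a - b) / 2 : ℝ) : ℂ) * I) := by
      rw [← Complex.exp_add]; congr 1; push_cast; ring
    rw [e2, e3]
    have hI : I * I = -1 := Complex.I_mul_I
    linear_combination (exp (((a + b) / 2 : ℝ) * I) * (exp (-(((a - b) / 2 : ℝ) : ℂ) * I)
      - exp ((((a - b) / 2 : ℝ) : ℂ) * I))) * (-hI)
  rw [h1, norm_mul, Complex.norm_exp_ofReal_mul_I, one_mul, norm_mul, norm_mul, Complex.norm_I,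
    Complex.norm_real, Real.norm_eq_abs]
  norm_num

lemma hh_eq (Ψ : ℝ → ℝ) (ψ : Circle ≃ₜ Circle) (hψ : ∀ t : ℝ, ψ (Circle.exp t) = Circle.exp (Ψ t)) (x : ℝ) :
    (fun t : ℝ => Real.log
      (‖(ψ (Circle.exp t) : ℂ) - ψ (Circle.exp x)‖ / ‖(Circle.exp t : ℂ) - Circle.exp x‖)) =
        Pool.Agent.Helper649.ReC.hh Ψ x := by
  funext t
  rw [hψ t, hψ x, chord_len, chord_len]
  unfold Pool.Agent.Helper649.ReC.hh
  rw [mul_div_mul_left _ _ (two_ne_zero)]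

lemma bv_lift (Ψ : ℝ → ℝ) (ψ : Circle ≃ₜ Circle) (hl : Lift Ψ ψ) (h : ChordBV ψ) :
    Incl ψ ∧ Incl ψ.symm := by
  obtain ⟨V0, hV0⟩ := h
  set V := max V0 0 with hVdef
  have hBV : Pool.Agent.Helper649.ReC.BVcond Ψ V := by
    intro x
    have h1 := hV0 x
    have h2 := hh_eq Ψ ψ hl.2.2.2 x
    rw [h2] at h1
    exact h1.trans (ENNReal.ofReal_le_ofReal (le_max_left _ _))
  have hl' : Pool.Agent.Helper649.ReC.Lift Ψ ψ := hl
  have hVn : 0 ≤ V := le_max_right _ _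
  have step : ∀ (Ψ : ℝ → ℝ) (ψ : Circle ≃ₜ Circle), Pool.Agent.Helper649.ReC.Lift Ψ ψ →
      Pool.Agent.Helper649.ReC.BVcond Ψ V → Incl ψ := by
    rintro Ψ ψ hl hV u ⟨f, ⟨F, hc, hd, hF⟩, hf⟩
    obtain ⟨C, hC, hctrl⟩ := Pool.Agent.Helper649.ReC.ctrl Ψ ψ hl V hVn hV
    obtain ⟨G, hGc, hGd, hG⟩ := Pool.Agent.Helper649.ReC.density ψ C hC hctrl F hc hd
    refine ⟨fun z => G z, ⟨G, hGc, hGd, fun z => rfl⟩, fun z => ?_⟩
    show u (ψ z) = (G z).re
    rw [hf, ← hF, hG z]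
  obtain ⟨Φ, hΦl, hΦV⟩ := Pool.Agent.Helper649.ReC.inv_lift Ψ ψ hl' V hBV
  exact ⟨step Ψ ψ hl' hBV, step Φ ψ.symm hΦl hΦV⟩

lemma chordBV_inv (ψ : Circle ≃ₜ Circle) (h : ChordBV ψ) :
    ChordBV ((Homeomorph.inv Circle).trans ψ) := by
  obtain ⟨V, hV⟩ := h
  refine ⟨V, fun x => ?_⟩
  have h1 := hV (-x - 2 * π)
  have hper : ∀ t : ℝ, Circle.exp (t - 2 * π) = Circle.exp t := by
    intro t
    rw [Circle.exp_sub, Circle.exp_two_pi, div_one]
  have hneg : ∀ t : ℝ, (Circle.exp t)⁻¹ = Circle.exp (-t) := fun t => (Circle.exp_neg t).symm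
  have e1 : (fun t : ℝ => Real.log
      (‖(((Homeomorph.inv Circle).trans ψ) (Circle.exp t) : ℂ) - ((Homeomorph.inv Circle).trans ψ) (Circle.exp x)‖
        / ‖(Circle.exp t : ℂ) - Circle.exp x‖)) =
      (fun t : ℝ => Real.log
      (‖(ψ (Circle.exp t) : ℂ) - ψ (Circle.exp (-x - 2 * π))‖ / ‖(Circle.exp t : ℂ) - Circle.exp (-x - 2 * π)‖))
      ∘ (fun t => -t) := by
    funext t
    show Real.log (‖(ψ (Circle.exp t)⁻¹ : ℂ) - ψ (Circle.exp x)⁻¹‖ / ‖(Circle.exp t : ℂ) - Circle.exp x‖) =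
      Real.log (‖(ψ (Circle.exp (-t)) : ℂ) - ψ (Circle.exp (-x - 2 * π))‖
        / ‖(Circle.exp (-t) : ℂ) - Circle.exp (-x - 2 * π)‖)
    rw [hper, hneg, hneg]
    congr 2
    rw [← hneg, ← hneg, Circle.coe_inv_eq_conj, Circle.coe_inv_eq_conj, ← map_sub, Complex.norm_conj]
  rw [e1]
  refine le_trans ?_ h1
  refine eVariationOn.comp_le_of_antitoneOn _ (t := Ioo x (x + 2 * π)) (fun t => -t) ?_ ?_
  · intro a _ b _ hab
    exact neg_le_neg hab
  · intro t ht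
    exact ⟨by linarith [ht.2], by linarith [ht.1]⟩

lemma chordBV_preserves (ψ : Circle ≃ₜ Circle) (h : ChordBV ψ) : Preserves ψ := by
  rw [preserves_iff]
  obtain ⟨Ψ, hl | hl⟩ := lift_exists ψ
  · exact bv_lift Ψ ψ hl h
  · obtain ⟨h1, h2⟩ := bv_lift Ψ _ hl (chordBV_inv ψ h)
    refine ⟨(incl_inv ψ).mp h1, ?_⟩
    intro u hu
    have h3 := h2 (fun z => u z⁻¹) (reA_inv u hu)
    have h4 : (fun z : Circle => (fun z : Circle => u z⁻¹) (((Homeomorph.inv Circle).trans ψ).symm z)) =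
        fun z => u (ψ.symm z) := by
      funext z
      show u ((ψ.symm z)⁻¹)⁻¹ = u (ψ.symm z)
      rw [inv_inv]
    exact h4 ▸ h3

lemma holder_chordBV (Ψ : ℝ → ℝ) (ψ : Circle ≃ₜ Circle) (hψ : ∀ t : ℝ, ψ (Circle.exp t) = Circle.exp (Ψ t))
    (h1 : ContDiff ℝ 1 Ψ) (hp : ∀ t, Ψ (t + 2 * π) = Ψ t + 2 * π) (hpos : ∀ t, 0 < deriv Ψ t)
    (ε K : ℝ) (hε : 0 < ε) (hε1 : ε ≤ 1) (hH : ∀ s t, |deriv Ψ s - deriv Ψ t| ≤ K * |s - t| ^ ε) :
    ChordBV ψ := by
  obtain ⟨V, hV0, hV⟩ := Pool.Agent.Helper649.ReC.holder_bv Ψ h1 hp hpos ε K hε hε1 hH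
  refine ⟨V, fun x => ?_⟩
  rw [hh_eq Ψ ψ hψ x]
  exact hV x


lemma cond_mono (φ : Circle → Circle) (C C' : ℝ) (hCC : C ≤ C') (h : Cond φ C) : Cond φ C' := by
  intro x
  obtain ⟨h1, h2⟩ := h x
  refine ⟨h1, fun p M hM => (h2 p M hM).trans ?_⟩
  have hM0 : 0 ≤ M := (norm_nonneg _).trans (hM 0 (by simp))
  exact mul_le_mul_of_nonneg_right hCC hM0

lemma char_poly (ψ : Circle ≃ₜ Circle) : Preserves ψ ↔ ∃ C : ℝ, Cond ψ C ∧ Cond ψ.symm C := by
  rw [preserves_iff, incl_iff, incl_iff]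
  constructor
  · rintro ⟨⟨C1, h1⟩, ⟨C2, h2⟩⟩
    exact ⟨max C1 C2, cond_mono _ _ _ (le_max_right _ _) h2, cond_mono _ _ _ (le_max_left _ _) h1⟩
  · rintro ⟨C, h1, h2⟩
    exact ⟨⟨C, h2⟩, ⟨C, h1⟩⟩

lemma condM_iff (φ : Circle → Circle) (C : ℝ) : CondM0 φ C ↔ CondM φ C := by
  refine forall_congr' fun x => and_congr Iff.rfl (exists_congr fun L => and_congr Iff.rfl ?_)
  constructor
  · intro h n f hf
    have e : f = ⟨fun z : Circle => (z : ℂ) ^ n, by fun_prop⟩ := by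
      ext z
      exact hf z
    rw [e]
    exact h n
  · intro h n
    exact h n _ fun z => rfl

lemma char_meas (ψ : Circle ≃ₜ Circle) : Preserves ψ ↔ ∃ C : ℝ, CondM ψ C ∧ CondM ψ.symm C := by
  rw [char_poly]
  exact exists_congr fun C => and_congr ((cond_meas _ C).trans (condM_iff _ C))
    ((cond_meas _ C).trans (condM_iff _ C))

section

open Pool.Agent.Helper649.ReA

lemma pres_corner (ρ : ℝ) (h1 : -1 < ρ) (h2 : ρ < 1) (ψ : Circle ≃ₜ Circle)
    (ha : ∀ z : Circle, 0 ≤ (z : ℂ).im → (ψ z : ℂ) = mob ρ z)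
    (hb : ∀ z : Circle, (z : ℂ).im ≤ 0 → ψ z = z) (u : Circle → ℝ) (hu : u ∈ reA) :
    (fun z => u (ψ z)) ∈ reA := by
  obtain ⟨f, ⟨F, hc, hd, hF⟩, hf⟩ := hu
  obtain ⟨G, hGc, hGd, hG1, hG2⟩ := corner ρ h1 h2 F hc hd
  refine ⟨fun z => G z, ⟨G, hGc, hGd, fun z => rfl⟩, fun z => ?_⟩
  show u (ψ z) = (G z).re
  rw [hf (ψ z), ← hF (ψ z)]
  rcases le_total 0 (z : ℂ).im with h | h
  · rw [ha z h, hG1 z (Circle.norm_coe z) h]
  · rw [hb z h, hG2 z (Circle.norm_coe z) h]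

lemma part_one (ρ : ℝ) (h1 : -1 < ρ) (h2 : ρ < 1) : ∃ ψ : Circle ≃ₜ Circle,
      (∀ z : Circle, 0 ≤ (z : ℂ).im → (ψ z : ℂ) = (z + ρ) / (1 + ρ * z)) ∧
      (∀ z : Circle, (z : ℂ).im ≤ 0 → ψ z = z) ∧
      Preserves ψ ∧
      (ρ ≠ 0 → ∀ Ψ : ℝ → ℝ, (∀ t : ℝ, ψ (Circle.exp t) = Circle.exp (Ψ t)) →
        ¬ DifferentiableAt ℝ Ψ 0) := by
  obtain ⟨ψ, ha, hb, hc, hd⟩ := corner_homeo ρ h1 h2
  refine ⟨ψ, ha, hb, ?_, fun h0 Ψ hΨ => corner_not_diff ρ h1 h2 h0 ψ ha hb Ψ hΨ⟩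
  unfold Preserves
  ext v
  constructor
  · intro hv
    refine ⟨fun z => v (ψ.symm z), ?_, ?_⟩
    · exact pres_corner (-ρ) (by linarith) (by linarith) ψ.symm hc hd v hv
    · funext z
      show v z = v (ψ.symm (ψ z))
      rw [Homeomorph.symm_apply_apply]
  · rintro ⟨u, hu, rfl⟩
    exact pres_corner ρ h1 h2 ψ ha hb u hu

lemma part_two : ∃ (ψ : Circle ≃ₜ Circle) (Ψ : ℝ → ℝ), ContDiff ℝ 1 Ψ ∧ (∀ t, 0 < deriv Ψ t) ∧
      (∀ t : ℝ, ψ (Circle.exp t) = Circle.exp (Ψ t)) ∧ ¬ Preserves ψ := by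
  obtain ⟨C, D, hC, hCd, hD, hDd, hCD, hlim, hsym, hhalf, hdiv⟩ := exists_C
  have hmem : ∀ x : ℝ, ((x : ℂ) - (π / 2 : ℝ) * I) ∈ Strip := by
    intro x
    simp only [Strip, Set.mem_setOf_eq]
    have : ((x : ℂ) - ((π / 2 : ℝ) : ℂ) * I).im = -(π / 2) := by simp
    rw [this, abs_neg, abs_of_pos (by positivity)]
  have hmem' : ∀ x : ℝ, ((x : ℂ) + (π / 2 : ℝ) * I) ∈ Strip := by
    intro x
    simp only [Strip, Set.mem_setOf_eq]
    have : ((x : ℂ) + ((π / 2 : ℝ) : ℂ) * I).im = (π / 2) := by simp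
    rw [this, abs_of_pos (by positivity)]
  have hre : ∀ x : ℝ, ((x : ℂ) - ((π / 2 : ℝ) : ℂ) * I).re = x := by intro x; simp
  set R : ℝ → ℝ := fun x => (C (x - (π / 2 : ℝ) * I)).re with hRdef
  set u : ℝ → ℝ := fun x => (D (x - (π / 2 : ℝ) * I)).re with hudef
  have hR : ∀ x, HasDerivAt R (u x) x := by
    intro x
    have h1 : HasDerivAt (fun z : ℂ => C (z - (π / 2 : ℝ) * I)) (D ((x : ℂ) - (π / 2 : ℝ) * I)) (x : ℂ) := by
      have := (hCD _ (hmem x)).comp_sub_const (x : ℂ) (((π / 2 : ℝ) : ℂ) * I)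
      exact this
    exact h1.real_of_complex
  have hu : Continuous u := by
    have h1 : Continuous (fun x : ℝ => D ((x : ℂ) - (π / 2 : ℝ) * I)) :=
      hD.comp_continuous (by fun_prop) hmem
    exact Complex.continuous_re.comp h1
  have habsR : ∀ ε : ℝ, 0 < ε → ∃ N : ℝ, ∀ x : ℝ, N ≤ |x| → |R x| < ε ∧ |u x| < ε := by
    intro ε hε
    obtain ⟨N, hN⟩ := hlim ε hε
    refine ⟨N, fun x hx => ?_⟩
    obtain ⟨h1, h2⟩ := hN _ (hmem x) (by rw [hre]; exact hx)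
    exact ⟨lt_of_le_of_lt (Complex.abs_re_le_norm _) h1, lt_of_le_of_lt (Complex.abs_re_le_norm _) h2⟩
  have hRb : Tendsto R atBot (𝓝 0) := by
    rw [Metric.tendsto_nhds]
    intro ε hε
    obtain ⟨N, hN⟩ := habsR ε hε
    filter_upwards [eventually_le_atBot (-N)] with x hx
    rw [Real.dist_eq, sub_zero]
    exact (hN x (by have := neg_le_abs x; linarith)).1
  have hRt : Tendsto R atTop (𝓝 0) := by
    rw [Metric.tendsto_nhds]
    intro ε hε
    obtain ⟨N, hN⟩ := habsR ε hε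
    filter_upwards [eventually_ge_atTop N] with x hx
    rw [Real.dist_eq, sub_zero]
    exact (hN x (by have := le_abs_self x; linarith)).1
  have hub : Tendsto u atBot (𝓝 0) := by
    rw [Metric.tendsto_nhds]
    intro ε hε
    obtain ⟨N, hN⟩ := habsR ε hε
    filter_upwards [eventually_le_atBot (-N)] with x hx
    rw [Real.dist_eq, sub_zero]
    exact (hN x (by have := neg_le_abs x; linarith)).2
  have hut : Tendsto u atTop (𝓝 0) := by
    rw [Metric.tendsto_nhds]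
    intro ε hε
    obtain ⟨N, hN⟩ := habsR ε hε
    filter_upwards [eventually_ge_atTop N] with x hx
    rw [Real.dist_eq, sub_zero]
    exact (hN x (by have := le_abs_self x; linarith)).2
  have hRcont : Continuous R := continuous_iff_continuousAt.mpr fun x => (hR x).continuousAt
  obtain ⟨M, hM⟩ : ∃ M : ℝ, ∀ x, |R x| ≤ M := by
    obtain ⟨N, hN⟩ := habsR 1 one_pos
    obtain ⟨M, hM⟩ := (isCompact_Icc (a := -N) (b := N)).exists_bound_of_continuousOn hRcont.continuousOn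
    refine ⟨max M 1, fun x => ?_⟩
    rcases le_or_gt N |x| with h | h
    · exact le_trans (hN x h).1.le (le_max_right _ _)
    · refine le_trans ?_ (le_max_left _ _)
      have := hM x ⟨by have := neg_abs_le x; linarith, by have := le_abs_self x; linarith⟩
      simpa using this
  obtain ⟨ψ, Ψ, hΨ1, hΨ2, hΨ3, hup, hlow⟩ := hom_exists R u hR hu hRb hRt hub hut hhalf
  refine ⟨ψ, Ψ, hΨ1, hΨ2, hΨ3, ?_⟩
  intro hpres
  obtain ⟨F, hFc, hFd, hF⟩ := pull_to_disc D hD hDd (fun ε hε => by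
    obtain ⟨N, hN⟩ := hlim ε hε
    exact ⟨N, fun z hz h => (hN z hz h).2⟩)
  have hmemF : (fun z : Circle => (F z).re) ∈ reA :=
    ⟨fun z => F z, ⟨F, hFc, hFd, fun z => rfl⟩, fun z => rfl⟩
  rw [Preserves] at hpres
  rw [hpres] at hmemF
  obtain ⟨u0, ⟨g, ⟨G, hGc, hGd, hG⟩, hg⟩, hu0⟩ := hmemF
  have hu0' : ∀ z : Circle, (F z).re = (G (ψ z)).re := by
    intro z
    have h1 : (F z).re = u0 (ψ z) := congrFun hu0 z
    rw [h1, hg (ψ z), hG (ψ z)]
  obtain ⟨B, hB⟩ := (isCompact_closedBall (0 : ℂ) 1).exists_bound_of_continuousOn hGc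
  have hexp : ∀ t : ℝ, ((Circle.exp t : Circle) : ℂ) = exp (t * I) := fun t => Circle.coe_exp t
  set gt : ℂ → ℂ := fun z => G (cay z) with hgt
  have hgc : ContinuousOn gt Strip := by
    refine hGc.comp (fun z hz => (cay_facts z hz).2.2.2.1.continuousAt.continuousWithinAt) ?_
    intro z hz
    simpa using (cay_facts z hz).2.1
  have hO : OStrip ⊆ Strip := by
    intro z hz
    have h1 : |z.im| < π / 2 := hz
    show |z.im| ≤ π / 2
    exact h1.le
  have hgd : DifferentiableOn ℂ gt OStrip := by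
    refine hGd.comp (fun z hz => (cay_facts z (hO hz)).2.2.2.1.differentiableWithinAt) ?_
    intro z hz
    simpa using (cay_facts z (hO hz)).2.2.1 hz
  have hgB : ∀ z ∈ Strip, ‖gt z‖ ≤ B := by
    intro z hz
    exact hB _ (by simpa using (cay_facts z hz).2.1)
  have hv : ∀ s : ℝ, (gt (((s + R s : ℝ) : ℂ) - (π / 2 : ℝ) * I)).re = u s := by
    intro s
    have e1 := hu0' (Circle.exp (2 * Real.arctan (Real.exp s)))
    rw [hup s, hexp, hexp, ← (cay_line s).1, ← (cay_line (s + R s)).1, hF _ (hmem s)] at e1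
    exact e1.symm
  have hw : ∀ s : ℝ, (gt ((s : ℂ) + (π / 2 : ℝ) * I)).re = u s := by
    intro s
    have e1 := hu0' (Circle.exp (-(2 * Real.arctan (Real.exp s))))
    rw [hlow s, hexp, ← (cay_line s).2, hF _ (hmem' s), hsym s] at e1
    exact e1.symm
  have hvc : Continuous (fun x : ℝ => (gt ((x : ℂ) - (π / 2 : ℝ) * I)).re) :=
    Complex.continuous_re.comp (hgc.comp_continuous (by fun_prop) hmem)
  obtain ⟨N, hN0, hN⟩ := hdiv (4 * M + 2 * π * B + 1)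
  have hsub : ∫ s in (-N)..0, u s * (1 + u s) =
      ∫ y in ((-N) + R (-N))..(0 + R 0), (gt ((y : ℂ) - (π / 2 : ℝ) * I)).re := by
    rw [← intervalIntegral.integral_comp_mul_deriv (f := fun s => s + R s) (f' := fun s => 1 + u s)
      (g := fun y : ℝ => (gt ((y : ℂ) - (π / 2 : ℝ) * I)).re)
      (fun s _ => (hasDerivAt_id s).add (hR s)) (by fun_prop) hvc]
    refine intervalIntegral.integral_congr fun s _ => ?_
    show u s * (1 + u s) = (gt (((s + R s : ℝ) : ℂ) - (π / 2 : ℝ) * I)).re * (1 + u s)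
    rw [hv s]
  have hrect := rect gt hgc hgd B hgB ((-N) + R (-N)) (0 + R 0)
  have hsplit : ∫ x in ((-N) + R (-N))..(0 + R 0), ((gt (x + (π / 2 : ℝ) * I)).re - (gt (x - (π / 2 : ℝ) * I)).re)
      = (∫ x in ((-N) + R (-N))..(0 + R 0), u x)
        - ∫ x in ((-N) + R (-N))..(0 + R 0), (gt (x - (π / 2 : ℝ) * I)).re := by
    rw [← intervalIntegral.integral_sub (hu.intervalIntegrable _ _) (hvc.intervalIntegrable _ _)]
    refine intervalIntegral.integral_congr fun s _ => ?_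
    show (gt (s + (π / 2 : ℝ) * I)).re - (gt (s - (π / 2 : ℝ) * I)).re =
      u s - (gt (s - (π / 2 : ℝ) * I)).re
    rw [hw s]
  have hftc : ∀ a b : ℝ, ∫ x in a..b, u x = R b - R a := fun a b =>
    intervalIntegral.integral_eq_sub_of_hasDerivAt (fun x _ => hR x) (hu.intervalIntegrable _ _)
  have hsq : ∫ s in (-N)..0, u s ^ 2 = (∫ s in (-N)..0, u s * (1 + u s)) - ∫ s in (-N)..0, u s := by
    rw [← intervalIntegral.integral_sub ((by fun_prop : Continuous fun s => u s * (1 + u s)).intervalIntegrable _ _)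
      (hu.intervalIntegrable _ _)]
    refine intervalIntegral.integral_congr fun s _ => ?_
    show u s ^ 2 = u s * (1 + u s) - u s
    ring
  rw [hsplit, hftc, ← hsub] at hrect
  rw [hftc] at hsq
  have b1 := abs_le.mp hrect
  have c1 := abs_le.mp (hM (0 + R 0))
  have c2 := abs_le.mp (hM (-N + R (-N)))
  have c3 := abs_le.mp (hM 0)
  have c4 := abs_le.mp (hM (-N))
  have hN' : 4 * M + 2 * π * B + 1 ≤ ∫ s in (-N)..0, u s ^ 2 := hN
  linarith [b1.1, b1.2, c1.1, c1.2, c2.1, c2.2, c3.1, c3.2, c4.1, c4.2]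

end

end Pool.Agent.Helper649.ReE
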