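import Pool.Agent.Helper649.ReaC

set_option autoImplicit false

namespace Pool.Agent.Helper649.ReG

open Complex MeasureTheory Set Filter Topology Metric
open scoped Real ComplexConjugate
open Pool.Agent.Helper649.ReC

theorem dini_core_cot (δ : ℝ) (hδ : 0 < δ) : ∃ M : ℝ, 0 ≤ M ∧ ∀ a : ℝ, 0 < a → a ≤ 2 * π - δ →
    |Real.cos (a / 2) / (2 * Real.sin (a / 2)) - 1 / a| ≤ M := by
  have hπ := Real.pi_pos
  set m : ℝ := min (2 / π) (δ / π ^ 2) with hm
  have hm0 : 0 < m := by rw [hm]; positivity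
  refine ⟨1 / m, by positivity, ?_⟩
  intro a ha ha2
  set y : ℝ := a / 2 with hy
  have hay : a = 2 * y := by rw [hy]; ring
  have hy0 : 0 < y := by rw [hy]; positivity
  have hy1 : y ≤ π - δ / 2 := by rw [hy]; linarith
  have hyπ : y < π := by linarith
  have hsin : m * y ≤ Real.sin y := by
    by_cases h : y ≤ π / 2
    · have h2 := Real.mul_le_sin hy0.le h
      have h3 : m ≤ 2 / π := min_le_left _ _
      nlinarith
    · push Not at h
      have h2 := Real.mul_le_sin (x := π - y) (by linarith) (by linarith)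
      rw [Real.sin_pi_sub] at h2
      have h3 : m ≤ δ / π ^ 2 := min_le_right _ _
      have h4 : δ / 2 ≤ π - y := by linarith
      have h5 : 2 / π * (δ / 2) ≤ 2 / π * (π - y) := by
        apply mul_le_mul_of_nonneg_left h4; positivity
      have h6 : m * y ≤ δ / π ^ 2 * π := by
        apply mul_le_mul h3 hyπ.le hy0.le; positivity
      have h7 : δ / π ^ 2 * π = 2 / π * (δ / 2) := by field_simp
      linarith
  have hs0 : 0 < Real.sin y := lt_of_lt_of_le (by positivity) hsin
  have hnum : |y * Real.cos y - Real.sin y| ≤ 2 * y ^ 2 := by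
    have h1 : |y * (Real.cos y - 1)| ≤ y ^ 2 := by
      rw [abs_mul, abs_of_pos hy0, sq]
      apply mul_le_mul_of_nonneg_left _ hy0.le
      rw [abs_sub_comm, abs_of_nonneg (by linarith [Real.cos_le_one y])]
      by_cases hy2 : y ≤ 2
      · have := Real.one_sub_sq_div_two_le_cos (x := y)
        nlinarith
      · push Not at hy2
        linarith [Real.neg_one_le_cos y]
    have h2 : |y - Real.sin y| ≤ y ^ 2 := by
      rw [abs_of_nonneg (by linarith [Real.sin_le hy0.le])]
      by_cases hy2 : y ≤ 1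
      · have := Real.sin_gt_sub_cube hy0
        nlinarith [mul_pos hy0 hy0]
      · push Not at hy2
        nlinarith
    calc |y * Real.cos y - Real.sin y| = |y * (Real.cos y - 1) + (y - Real.sin y)| := by ring_nf
      _ ≤ |y * (Real.cos y - 1)| + |y - Real.sin y| := abs_add_le _ _
      _ ≤ 2 * y ^ 2 := by linarith
  have e1 : Real.cos y / (2 * Real.sin y) - 1 / a = (y * Real.cos y - Real.sin y) / (2 * y * Real.sin y) := by
    rw [hay]
    field_simp
  rw [e1, abs_div, abs_of_pos (by positivity : 0 < 2 * y * Real.sin y)]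
  rw [div_le_div_iff₀ (by positivity) hm0]
  calc |y * Real.cos y - Real.sin y| * m ≤ 2 * y ^ 2 * m := by
        apply mul_le_mul_of_nonneg_right hnum hm0.le
    _ = 2 * y * (m * y) := by ring
    _ ≤ 2 * y * Real.sin y := by
        apply mul_le_mul_of_nonneg_left hsin; positivity
    _ = 1 * (2 * y * Real.sin y) := by ring

theorem dini_core_est (c C0 K M p d s u : ℝ) (hc : 0 < c) (hK : 0 ≤ K)
    (hM : 0 ≤ M) (hp0 : 0 < p) (hpC : p ≤ C0) (hd : c ≤ d)
    (hs0 : 0 < s) (hu : u = d * s) (hpd : |p - d| ≤ K)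
    (h1 : |Real.cos (u / 2) / (2 * Real.sin (u / 2)) - 1 / u| ≤ M)
    (h2 : |Real.cos (s / 2) / (2 * Real.sin (s / 2)) - 1 / s| ≤ M) :
    |p * (Real.cos (u / 2) / (2 * Real.sin (u / 2))) - Real.cos (s / 2) / (2 * Real.sin (s / 2))| ≤
      (1 / c + (C0 * M + M)) * (1 + K / s) := by
  set g1 := Real.cos (u / 2) / (2 * Real.sin (u / 2))
  set g2 := Real.cos (s / 2) / (2 * Real.sin (s / 2))
  have hd0 : 0 < d := lt_of_lt_of_le hc hd
  have hu0 : 0 < u := by rw [hu]; positivity
  have hC0 : 0 < C0 := lt_of_lt_of_le hp0 hpC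
  have hy : 0 ≤ K / s := div_nonneg hK hs0.le
  have hmain : |p / u - 1 / s| ≤ 1 / c * (K / s) := by
    have e1 : p / u - 1 / s = (p - d) / (d * s) := by
      rw [hu]; field_simp
    rw [e1, abs_div, abs_of_pos (by positivity : 0 < d * s)]
    rw [div_le_iff₀ (by positivity)]
    calc |p - d| ≤ K := hpd
      _ = 1 / c * (K / s) * (c * s) := by
        field_simp
      _ ≤ 1 / c * (K / s) * (d * s) := by
        apply mul_le_mul_of_nonneg_left
        · exact mul_le_mul_of_nonneg_right hd hs0.le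
        · positivity
  calc |p * g1 - g2| = |p * (g1 - 1 / u) + (p / u - 1 / s) - (g2 - 1 / s)| := by
        congr 1; field_simp; ring
    _ ≤ |p * (g1 - 1 / u) + (p / u - 1 / s)| + |g2 - 1 / s| := abs_sub _ _
    _ ≤ |p * (g1 - 1 / u)| + |p / u - 1 / s| + |g2 - 1 / s| := by
        have := abs_add_le (p * (g1 - 1 / u)) (p / u - 1 / s)
        linarith
    _ ≤ C0 * M + 1 / c * (K / s) + M := by
        have h8 : |p * (g1 - 1 / u)| ≤ C0 * M := by
          rw [abs_mul, abs_of_pos hp0]
          exact mul_le_mul hpC h1 (abs_nonneg _) hC0.le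
        linarith
    _ ≤ (1 / c + (C0 * M + M)) * (1 + K / s) := by
        have h9 : 0 ≤ (C0 * M + M) * (K / s) := by positivity
        have h10 : 0 ≤ 1 / c := by positivity
        nlinarith


lemma dini_core (Ψ : ℝ → ℝ) (h1 : ContDiff ℝ 1 Ψ) (hp : ∀ t, Ψ (t + 2 * π) = Ψ t + 2 * π)
    (hpos : ∀ t, 0 < deriv Ψ t) (ω : ℝ → ℝ) (hmono : Monotone ω) (hω : ∀ r, 0 ≤ ω r)
    (hH : ∀ s t, |deriv Ψ s - deriv Ψ t| ≤ ω |s - t|) :
    ∃ C : ℝ, 0 ≤ C ∧ ∀ x t : ℝ, t ∈ Ioo x (x + 2 * π) →
      |deriv Ψ t * (Real.cos ((Ψ t - Ψ x) / 2) / (2 * Real.sin ((Ψ t - Ψ x) / 2)))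
        - Real.cos ((t - x) / 2) / (2 * Real.sin ((t - x) / 2))| ≤
        C * (1 + ω (t - x) / (t - x) + ω (x + 2 * π - t) / (x + 2 * π - t)) := by
  have hπ := Real.pi_pos
  have hcont : Continuous (deriv Ψ) := h1.continuous_deriv le_rfl
  have hdiff : Differentiable ℝ Ψ := h1.differentiable (by norm_num)
  have hper : Function.Periodic (deriv Ψ) (2 * π) := by
    intro t
    have h2 : (fun t => Ψ (t + 2 * π)) = fun t => Ψ t + 2 * π := funext hp
    have h3 : deriv (fun t => Ψ (t + 2 * π)) t = deriv Ψ (t + 2 * π) :=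
      deriv_comp_add_const Ψ (2 * π) t
    rw [← h3, h2, deriv_add_const]
  have hne : (Icc (0 : ℝ) (2 * π)).Nonempty := ⟨0, by constructor <;> linarith⟩
  obtain ⟨t0, ht0, hmin⟩ := isCompact_Icc.exists_isMinOn hne hcont.continuousOn
  obtain ⟨t1, ht1, hmax⟩ := isCompact_Icc.exists_isMaxOn hne hcont.continuousOn
  set c := deriv Ψ t0 with hc
  set C0 := deriv Ψ t1 with hC0
  have hc0 : 0 < c := hpos t0
  have hcle : ∀ t, c ≤ deriv Ψ t := by
    intro t
    obtain ⟨y, hy, he⟩ := hper.exists_mem_Ico₀ (by positivity) t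
    rw [he]
    exact hmin ⟨hy.1, hy.2.le⟩
  have hCle : ∀ t, deriv Ψ t ≤ C0 := by
    intro t
    obtain ⟨y, hy, he⟩ := hper.exists_mem_Ico₀ (by positivity) t
    rw [he]
    exact hmax ⟨hy.1, hy.2.le⟩
  have hCpos : 0 < C0 := hpos t1
  have hMVT : ∀ x t : ℝ, x < t → ∃ d, c ≤ d ∧ Ψ t - Ψ x = d * (t - x) ∧
      (∀ r, x ≤ r → r ≤ t → |deriv Ψ r - d| ≤ ω (t - x)) := by
    intro x t hxt
    obtain ⟨ξ, hξ, he⟩ := exists_deriv_eq_slope Ψ hxt hdiff.continuous.continuousOn
      (fun y _ => (hdiff y).differentiableWithinAt)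
    refine ⟨deriv Ψ ξ, hcle ξ, ?_, ?_⟩
    · rw [he]; field_simp [(sub_pos.2 hxt).ne']
    · intro r hr1 hr2
      refine (hH r ξ).trans ?_
      apply hmono
      rw [abs_le]
      constructor <;> linarith [hξ.1, hξ.2]
  obtain ⟨M1, hM1, hM1'⟩ := dini_core_cot (c * π) (by positivity)
  obtain ⟨M2, hM2, hM2'⟩ := dini_core_cot π hπ
  set M := max M1 M2 with hM
  have hM0 : 0 ≤ M := hM1.trans (le_max_left _ _)
  refine ⟨1 / c + (C0 * M + M), by positivity, ?_⟩
  intro x t ht
  have hs : 0 < t - x := by linarith [ht.1]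
  have hs' : 0 < x + 2 * π - t := by linarith [ht.2]
  have hCC : 0 ≤ 1 / c + (C0 * M + M) := by positivity
  have hr1 : 0 ≤ ω (t - x) / (t - x) := div_nonneg (hω _) hs.le
  have hr2 : 0 ≤ ω (x + 2 * π - t) / (x + 2 * π - t) := div_nonneg (hω _) hs'.le
  obtain ⟨d, hd1, hd2, hd3⟩ := hMVT x t ht.1
  obtain ⟨d', hd1', hd2', hd3'⟩ := hMVT t (x + 2 * π) ht.2
  rw [hp x] at hd2'
  by_cases hcase : t - x ≤ π
  · have hu0 : 0 < Ψ t - Ψ x := by
      rw [hd2]; exact mul_pos (lt_of_lt_of_le hc0 hd1) hs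
    have hu1 : Ψ t - Ψ x ≤ 2 * π - c * π := by
      have h5 : c * π ≤ d' * (x + 2 * π - t) := by
        apply mul_le_mul hd1' (by linarith) hπ.le (by linarith)
      linarith
    have h6 := dini_core_est c C0 (ω (t - x)) M (deriv Ψ t) d (t - x) (Ψ t - Ψ x) hc0 (hω _) hM0
      (hpos t) (hCle t) hd1 hs hd2 (hd3 t ht.1.le le_rfl)
      ((hM1' _ hu0 hu1).trans (le_max_left _ _))
      ((hM2' _ hs (by linarith)).trans (le_max_right _ _))
    refine h6.trans ?_
    apply mul_le_mul_of_nonneg_left _ hCC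
    linarith
  · push Not at hcase
    set s' := x + 2 * π - t with hs'def
    set u' := Ψ x + 2 * π - Ψ t with hu'def
    have hu0 : 0 < u' := by
      rw [hd2']; exact mul_pos (lt_of_lt_of_le hc0 hd1') hs'
    have hu1 : u' ≤ 2 * π - c * π := by
      have h5 : c * π ≤ d * (t - x) := by
        apply mul_le_mul hd1 hcase.le hπ.le (by linarith)
      rw [← hd2] at h5
      rw [hu'def]; linarith
    have h6 := dini_core_est c C0 (ω s') M (deriv Ψ t) d' s' u' hc0 (hω _) hM0
      (hpos t) (hCle t) hd1' hs' hd2' (hd3' t le_rfl ht.2.le)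
      ((hM1' _ hu0 hu1).trans (le_max_left _ _))
      ((hM2' _ hs' (by rw [hs'def]; linarith)).trans (le_max_right _ _))
    have flip : ∀ z : ℝ, Real.cos ((2 * π - z) / 2) / (2 * Real.sin ((2 * π - z) / 2)) =
        -(Real.cos (z / 2) / (2 * Real.sin (z / 2))) := by
      intro z
      have e1 : (2 * π - z) / 2 = π - z / 2 := by ring
      rw [e1, Real.cos_pi_sub, Real.sin_pi_sub, neg_div]
    have e2 : Ψ t - Ψ x = 2 * π - u' := by rw [hu'def]; ring
    have e3 : t - x = 2 * π - s' := by rw [hs'def]; ring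
    have e4 : |deriv Ψ t * (Real.cos ((Ψ t - Ψ x) / 2) / (2 * Real.sin ((Ψ t - Ψ x) / 2)))
        - Real.cos ((t - x) / 2) / (2 * Real.sin ((t - x) / 2))| =
        |deriv Ψ t * (Real.cos (u' / 2) / (2 * Real.sin (u' / 2)))
        - Real.cos (s' / 2) / (2 * Real.sin (s' / 2))| := by
      rw [e2, e3, flip, flip, ← abs_neg]
      congr 1
      ring
    rw [e4]
    refine h6.trans ?_
    apply mul_le_mul_of_nonneg_left _ hCC
    linarith




lemma dini_bv (Ψ : ℝ → ℝ) (h1 : ContDiff ℝ 1 Ψ) (hp : ∀ t, Ψ (t + 2 * π) = Ψ t + 2 * π)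
    (hpos : ∀ t, 0 < deriv Ψ t) (ω : ℝ → ℝ) (hmono : Monotone ω) (hω : ∀ r, 0 ≤ ω r)
    (hH : ∀ s t, |deriv Ψ s - deriv Ψ t| ≤ ω |s - t|)
    (hD : IntervalIntegrable (fun r => ω r / r) volume 0 (2 * π)) : ∃ V : ℝ, 0 ≤ V ∧ BVcond Ψ V := by
  obtain ⟨C, hC0, hC⟩ := dini_core Ψ h1 hp hpos ω hmono hω hH
  have hmonoΨ : StrictMono Ψ := strictMono_of_deriv_pos hpos
  have hdiff : Differentiable ℝ Ψ := h1.differentiable (by norm_num)
  have hdc : Continuous (deriv Ψ) := h1.continuous_deriv (by norm_num)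
  have h2pi : (0:ℝ) ≤ 2 * π := by positivity
  set f : ℝ → ℝ := fun r => ω r / r with hf
  have hfnn : ∀ r, 0 ≤ r → 0 ≤ f r := fun r hr => div_nonneg (hω r) hr
  have hsub : ∀ a b, 0 ≤ a → a ≤ b → b ≤ 2 * π → IntervalIntegrable f volume a b := by
    intro a b ha hab hb
    apply hD.mono_set
    rw [uIcc_of_le hab, uIcc_of_le h2pi]
    exact Icc_subset_Icc ha hb
  have hI0 : 0 ≤ ∫ r in (0:ℝ)..(2*π), f r :=
    intervalIntegral.integral_nonneg h2pi (fun r hr => hfnn r hr.1)
  refine ⟨C * (2 * π) + 2 * C * ∫ r in (0:ℝ)..(2*π), f r, by positivity, fun x => ?_⟩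
  set B : ℝ → ℝ := fun t => C * (t - x) + C * (∫ r in (0:ℝ)..(t - x), f r)
    - C * (∫ r in (0:ℝ)..(x + 2 * π - t), f r) with hBdef
  have hBdiff : ∀ u v, x ≤ u → u ≤ v → v ≤ x + 2 * π → B v - B u =
      C * (v - u) + C * (∫ r in (u - x)..(v - x), f r)
        + C * (∫ r in (x + 2 * π - v)..(x + 2 * π - u), f r) := by
    intro u v hu huv hv
    have e1 := intervalIntegral.integral_interval_sub_left (μ := volume)
      (hsub 0 (v - x) le_rfl (by linarith) (by linarith))
      (hsub 0 (u - x) le_rfl (by linarith) (by linarith))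
    have e2 := intervalIntegral.integral_interval_sub_left (μ := volume)
      (hsub 0 (x + 2 * π - u) le_rfl (by linarith) (by linarith))
      (hsub 0 (x + 2 * π - v) le_rfl (by linarith) (by linarith))
    simp only [hBdef]
    rw [← e1, ← e2]
    ring
  set g : ℝ → ℝ := fun t => Real.log (Real.sin ((Ψ t - Ψ x) / 2)) - Real.log (Real.sin ((t - x) / 2))
    with hgdef
  have hs1 : ∀ t ∈ Ioo x (x + 2 * π), 0 < Real.sin ((t - x) / 2) := by
    intro t ht
    apply Real.sin_pos_of_pos_of_lt_pi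
    · have := ht.1
      linarith
    · have := ht.2
      linarith
  have hs2 : ∀ t ∈ Ioo x (x + 2 * π), 0 < Real.sin ((Ψ t - Ψ x) / 2) := by
    intro t ht
    have e1 := hmonoΨ ht.1
    have e2 := hmonoΨ ht.2
    rw [hp x] at e2
    apply Real.sin_pos_of_pos_of_lt_pi
    · linarith
    · linarith
  have hhg : ∀ t ∈ Ioo x (x + 2 * π), hh Ψ x t = g t := by
    intro t ht
    have e1 := hs1 t ht
    have e2 := hs2 t ht
    simp only [hh, hgdef]
    rw [abs_of_pos e1, abs_of_pos e2, Real.log_div e2.ne' e1.ne']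
  set g' : ℝ → ℝ := fun t => deriv Ψ t * (Real.cos ((Ψ t - Ψ x) / 2) / (2 * Real.sin ((Ψ t - Ψ x) / 2)))
        - Real.cos ((t - x) / 2) / (2 * Real.sin ((t - x) / 2)) with hg'def
  have hg : ∀ t ∈ Ioo x (x + 2 * π), HasDerivAt g (g' t) t := by
    intro t ht
    have e1 := hs1 t ht
    have e2 := hs2 t ht
    have d1 : HasDerivAt (fun t => (Ψ t - Ψ x) / 2) (deriv Ψ t / 2) t :=
      ((hdiff t).hasDerivAt.sub_const (Ψ x)).div_const 2
    have d2 : HasDerivAt (fun t : ℝ => (t - x) / 2) (1 / 2) t :=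
      ((hasDerivAt_id t).sub_const x).div_const 2
    have d3 := (d1.sin.log e2.ne').sub (d2.sin.log e1.ne')
    refine d3.congr_deriv ?_
    simp only [hg'def]
    field_simp
  have key : ∀ u ∈ Ioo x (x + 2 * π), ∀ v ∈ Ioo x (x + 2 * π), u ≤ v →
      |g v - g u| ≤ B v - B u := by
    intro u hu v hv huv
    have hsubI : uIcc u v ⊆ Ioo x (x + 2 * π) := by
      rw [uIcc_of_le huv]
      exact fun t ht => ⟨lt_of_lt_of_le hu.1 ht.1, lt_of_le_of_lt ht.2 hv.2⟩
    have hcont : ContinuousOn g' (uIcc u v) := by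
      have c1 : Continuous fun t => (Ψ t - Ψ x) / 2 := (hdiff.continuous.sub continuous_const).div_const 2
      have c2 : Continuous fun t : ℝ => (t - x) / 2 := (continuous_id.sub continuous_const).div_const 2
      apply ContinuousOn.sub
      · apply ContinuousOn.mul hdc.continuousOn
        apply ContinuousOn.div
        · exact (Real.continuous_cos.comp c1).continuousOn
        · exact (continuous_const.mul (Real.continuous_sin.comp c1)).continuousOn
        · intro t ht
          have := hs2 t (hsubI ht)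
          positivity
      · apply ContinuousOn.div
        · exact (Real.continuous_cos.comp c2).continuousOn
        · exact (continuous_const.mul (Real.continuous_sin.comp c2)).continuousOn
        · intro t ht
          have := hs1 t (hsubI ht)
          positivity
    have hFTC : ∫ t in u..v, g' t = g v - g u :=
      intervalIntegral.integral_eq_sub_of_hasDerivAt (fun t ht => hg t (hsubI ht))
        hcont.intervalIntegrable
    have i1 : IntervalIntegrable (fun t => f (t - x)) volume u v := by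
      have := (hsub (u - x) (v - x) (by linarith [hu.1]) (by linarith) (by linarith [hv.2])).comp_sub_right x
      simpa using this
    have i2 : IntervalIntegrable (fun t => f (x + 2 * π - t)) volume u v := by
      have := ((hsub (x + 2 * π - v) (x + 2 * π - u) (by linarith [hv.2]) (by linarith)
        (by linarith [hu.1])).comp_sub_left (x + 2 * π)).symm
      simpa using this
    have i0 : IntervalIntegrable (fun _ : ℝ => (1:ℝ)) volume u v := intervalIntegrable_const
    have iall : IntervalIntegrable (fun t => C * (1 + f (t - x) + f (x + 2 * π - t))) volume u v :=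
      ((i0.add i1).add i2).const_mul C
    have hval : ∫ t in u..v, C * (1 + f (t - x) + f (x + 2 * π - t)) = B v - B u := by
      rw [hBdiff u v hu.1.le huv hv.2.le, intervalIntegral.integral_const_mul,
        intervalIntegral.integral_add (i0.add i1) i2, intervalIntegral.integral_add i0 i1,
        intervalIntegral.integral_comp_sub_right (fun r => f r) x,
        intervalIntegral.integral_comp_sub_left (fun r => f r) (x + 2 * π)]
      simp only [intervalIntegral.integral_const, smul_eq_mul, mul_one]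
      ring
    rw [← hFTC, ← hval, ← Real.norm_eq_abs]
    apply intervalIntegral.norm_integral_le_of_norm_le huv _ iall
    refine Filter.Eventually.of_forall fun t ht => ?_
    rw [Real.norm_eq_abs]
    exact hC x t ⟨lt_trans hu.1 ht.1, lt_of_le_of_lt ht.2 hv.2⟩
  have hBm : MonotoneOn B (Icc x (x + 2 * π)) := by
    intro u hu v hv huv
    have e := hBdiff u v hu.1 huv hv.2
    have a1 : 0 ≤ ∫ r in (u - x)..(v - x), f r :=
      intervalIntegral.integral_nonneg (by linarith) (fun r hr => hfnn r (by linarith [hr.1, hu.1]))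
    have a2 : 0 ≤ ∫ r in (x + 2 * π - v)..(x + 2 * π - u), f r :=
      intervalIntegral.integral_nonneg (by linarith) (fun r hr => hfnn r (by linarith [hr.1, hv.2]))
    have a3 : 0 ≤ C * (v - u) := mul_nonneg hC0 (by linarith)
    have a4 := mul_nonneg hC0 a1
    have a5 := mul_nonneg hC0 a2
    linarith
  have hpi : x ≤ x + 2 * π := by linarith [Real.pi_pos]
  have hBv : eVariationOn B (Ioo x (x + 2 * π)) ≤
      ENNReal.ofReal (C * (2 * π) + 2 * C * ∫ r in (0:ℝ)..(2*π), f r) := by
    have e1 := hBm.eVariationOn_le (left_mem_Icc.mpr hpi) (right_mem_Icc.mpr hpi)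
    rw [inter_self] at e1
    refine (eVariationOn.mono B Ioo_subset_Icc_self).trans (e1.trans ?_)
    apply ENNReal.ofReal_le_ofReal
    apply le_of_eq
    rw [hBdiff x (x + 2 * π) le_rfl hpi le_rfl]
    rw [show x + 2 * π - x = 2 * π by ring, show x - x = 0 by ring,
      show x + 2 * π - (x + 2 * π) = 0 by ring]
    ring
  refine le_trans ?_ hBv
  refine iSup_mono fun p => ?_
  refine Finset.sum_le_sum fun i _ => ?_
  have hu1 := p.2.2.2 i
  have hu2 := p.2.2.2 (i + 1)
  have hle := p.2.2.1 (Nat.le_succ i)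
  rw [hhg _ hu1, hhg _ hu2, edist_dist, edist_dist]
  apply ENNReal.ofReal_le_ofReal
  rw [Real.dist_eq, Real.dist_eq]
  exact (key _ hu1 _ hu2 hle).trans (le_abs_self _)



end Pool.Agent.Helper649.ReG
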