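import Pool.Agent.Helper649.ReaD

set_option autoImplicit false

namespace Pool.Agent.Helper649.ReQ

open Complex MeasureTheory Set Filter Topology Metric
open scoped Real ComplexConjugate
open Pool.Agent.Helper649.ReD
open Pool.Agent.Helper649.ReDef (IsDiscAlg reA Cond)

/-- Poisson kernel -/
noncomputable def PP (ρ s : ℝ) : ℝ := (1 - ρ ^ 2) / ‖1 - (ρ : ℂ) * exp (s * I)‖ ^ 2

/-- minus the logarithm of half the chord between the images of `s0 + s` and `s0` -/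
noncomputable def ell (Ψ : ℝ → ℝ) (s0 s : ℝ) : ℝ := -Real.log |Real.sin ((Ψ (s0 + s) - Ψ s0) / 2)|

/-- the two Poisson kernels are at bounded distance -/
def Near (ρ₁ ρ₂ s₁ s₂ : ℝ) : Prop :=
  1 / 2 ≤ ρ₁ ∧ ρ₁ < 1 ∧ 1 / 2 ≤ ρ₂ ∧ ρ₂ < 1 ∧ 1 - ρ₁ ≤ 8 * (1 - ρ₂) ∧ 1 - ρ₂ ≤ 8 * (1 - ρ₁) ∧
    |s₁ - s₂| ≤ 8 * (1 - ρ₁) ∧ |s₁ - s₂| ≤ 8 * (1 - ρ₂)

noncomputable def QS1_W (s : ℝ) : ℂ := exp (((-s : ℝ) : ℂ) * I)

lemma QS1_W_norm (s : ℝ) : ‖QS1_W s‖ = 1 := Complex.norm_exp_ofReal_mul_I _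

lemma QS1_W_sub (s₁ s₂ : ℝ) : ‖QS1_W s₁ - QS1_W s₂‖ ≤ |s₁ - s₂| := by
  have h1 : QS1_W s₁ - QS1_W s₂ = QS1_W s₂ * (exp (I * ((s₂ - s₁ : ℝ) : ℂ)) - 1) := by
    unfold QS1_W
    rw [mul_sub, ← Complex.exp_add, mul_one]
    congr 2
    push_cast
    ring
  rw [h1, norm_mul, QS1_W_norm, one_mul]
  refine (Real.norm_exp_I_mul_ofReal_sub_one_le).trans ?_
  rw [Real.norm_eq_abs, abs_sub_comm]

lemma QS1_near_symm {ρ₁ ρ₂ s₁ s₂ : ℝ} (h : Near ρ₁ ρ₂ s₁ s₂) : Near ρ₂ ρ₁ s₂ s₁ := by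
  obtain ⟨a1, a2, a3, a4, a5, a6, a7, a8⟩ := h
  refine ⟨a3, a4, a1, a2, a6, a5, ?_, ?_⟩
  · rw [abs_sub_comm]; exact a8
  · rw [abs_sub_comm]; exact a7

lemma QS1_low (ρ s : ℝ) (h0 : 1 / 2 ≤ ρ) (z : ℂ) (hz : ‖z‖ ≤ 1) :
    1 - ρ ≤ ‖1 - (ρ : ℂ) * QS1_W s * z‖ := by
  have h1 := norm_sub_norm_le (1 : ℂ) ((ρ : ℂ) * QS1_W s * z)
  have h2 : ‖(ρ : ℂ) * QS1_W s * z‖ ≤ ρ := by
    rw [norm_mul, norm_mul, QS1_W_norm, mul_one, Complex.norm_real, Real.norm_eq_abs,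
      abs_of_nonneg (by linarith)]
    have := mul_le_mul_of_nonneg_left hz (show 0 ≤ ρ by linarith)
    linarith
  rw [norm_one] at h1
  linarith

lemma QS1_cmp (ρ₁ ρ₂ s₁ s₂ : ℝ) (h : Near ρ₁ ρ₂ s₁ s₂) (z : ℂ) (hz : ‖z‖ ≤ 1) :
    ‖1 - (ρ₁ : ℂ) * QS1_W s₁ * z‖ ≤ 17 * ‖1 - (ρ₂ : ℂ) * QS1_W s₂ * z‖ := by
  obtain ⟨a1, a2, a3, a4, a5, a6, a7, a8⟩ := h
  have h1 := QS1_low ρ₂ s₂ a3 z hz
  have h2 : 1 - (ρ₁ : ℂ) * QS1_W s₁ * z = (1 - (ρ₂ : ℂ) * QS1_W s₂ * z) -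
      (((ρ₁ - ρ₂ : ℝ) : ℂ) * QS1_W s₁ * z + (ρ₂ : ℂ) * (QS1_W s₁ - QS1_W s₂) * z) := by
    push_cast
    ring
  have h3 : ‖((ρ₁ - ρ₂ : ℝ) : ℂ) * QS1_W s₁ * z‖ ≤ |ρ₁ - ρ₂| := by
    rw [norm_mul, norm_mul, QS1_W_norm, mul_one, Complex.norm_real, Real.norm_eq_abs]
    have := mul_le_mul_of_nonneg_left hz (abs_nonneg (ρ₁ - ρ₂))
    linarith
  have h4 : ‖(ρ₂ : ℂ) * (QS1_W s₁ - QS1_W s₂) * z‖ ≤ |s₁ - s₂| := by
    rw [norm_mul, norm_mul, Complex.norm_real, Real.norm_eq_abs, abs_of_nonneg (by linarith)]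
    have e1 := QS1_W_sub s₁ s₂
    calc ρ₂ * ‖QS1_W s₁ - QS1_W s₂‖ * ‖z‖ ≤ 1 * |s₁ - s₂| * 1 := by
          apply mul_le_mul _ hz (norm_nonneg _) (by positivity)
          exact mul_le_mul a4.le e1 (norm_nonneg _) (by norm_num)
      _ = |s₁ - s₂| := by ring
  have h5 : |ρ₁ - ρ₂| ≤ 8 * (1 - ρ₂) := by
    rw [abs_le]
    constructor <;> linarith
  rw [h2]
  refine (norm_sub_le _ _).trans ?_
  have h6 := norm_add_le (((ρ₁ - ρ₂ : ℝ) : ℂ) * QS1_W s₁ * z)
    ((ρ₂ : ℂ) * (QS1_W s₁ - QS1_W s₂) * z)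
  linarith

lemma QS1_bd (ρ₁ ρ₂ s₁ s₂ : ℝ) (h : Near ρ₁ ρ₂ s₁ s₂) (z : ℂ) (hz : ‖z‖ ≤ 1) :
    ‖log (1 - (ρ₁ : ℂ) * QS1_W s₁ * z) - log (1 - (ρ₂ : ℂ) * QS1_W s₂ * z)‖ ≤
      Real.log 17 + 2 * π := by
  have c1 := QS1_cmp ρ₁ ρ₂ s₁ s₂ h z hz
  have c2 := QS1_cmp ρ₂ ρ₁ s₂ s₁ (QS1_near_symm h) z hz
  have p1 : 0 < ‖1 - (ρ₁ : ℂ) * QS1_W s₁ * z‖ := by
    have := QS1_low ρ₁ s₁ h.1 z hz
    have := h.2.1
    linarith
  have p2 : 0 < ‖1 - (ρ₂ : ℂ) * QS1_W s₂ * z‖ := by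
    have := QS1_low ρ₂ s₂ h.2.2.1 z hz
    have := h.2.2.2.1
    linarith
  refine (Complex.norm_le_abs_re_add_abs_im _).trans ?_
  rw [Complex.sub_re, Complex.sub_im, Complex.log_re, Complex.log_re, Complex.log_im,
    Complex.log_im]
  have e1 : Real.log ‖1 - (ρ₁ : ℂ) * QS1_W s₁ * z‖ ≤
      Real.log 17 + Real.log ‖1 - (ρ₂ : ℂ) * QS1_W s₂ * z‖ := by
    rw [← Real.log_mul (by norm_num) p2.ne']
    exact Real.log_le_log p1 c1
  have e2 : Real.log ‖1 - (ρ₂ : ℂ) * QS1_W s₂ * z‖ ≤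
      Real.log 17 + Real.log ‖1 - (ρ₁ : ℂ) * QS1_W s₁ * z‖ := by
    rw [← Real.log_mul (by norm_num) p1.ne']
    exact Real.log_le_log p2 c2
  apply add_le_add
  · rw [abs_le]
    constructor <;> linarith
  · have f1 := Complex.abs_arg_le_pi (1 - (ρ₁ : ℂ) * QS1_W s₁ * z)
    have f2 := Complex.abs_arg_le_pi (1 - (ρ₂ : ℂ) * QS1_W s₂ * z)
    have f3 := abs_sub (arg (1 - (ρ₁ : ℂ) * QS1_W s₁ * z)) (arg (1 - (ρ₂ : ℂ) * QS1_W s₂ * z))
    linarith

lemma QS1_PP (ρ s₁ s : ℝ) :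
    (1 - ρ ^ 2) / ‖1 - (ρ : ℂ) * QS1_W s₁ * exp (s * I)‖ ^ 2 = PP ρ (s - s₁) := by
  unfold PP
  have : (ρ : ℂ) * QS1_W s₁ * exp (s * I) = (ρ : ℂ) * exp (((s - s₁ : ℝ) : ℂ) * I) := by
    unfold QS1_W
    rw [mul_assoc, ← Complex.exp_add]
    congr 2
    push_cast
    ring
  rw [this]


lemma QS1 (φ : Circle → Circle) (C : ℝ) (h : Cond φ C) :
    ∃ A : ℝ, 0 ≤ A ∧ ∀ (x : Circle) (ρ₁ ρ₂ s₁ s₂ : ℝ), Near ρ₁ ρ₂ s₁ s₂ →
      |∫ s in (-π)..π, (PP ρ₁ (s - s₁) - PP ρ₂ (s - s₂)) *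
        Real.log ‖(φ (Circle.exp s) : ℂ) - x‖| ≤ A := by
  have hM0 : 0 ≤ Real.log 17 + 2 * π := by
    have := Real.log_nonneg (show (1:ℝ) ≤ 17 by norm_num)
    positivity
  refine ⟨2 * (|C| * (Real.log 17 + 2 * π)), by positivity, fun x ρ₁ ρ₂ s₁ s₂ hN => ?_⟩
  obtain ⟨⟨R1, hR1, hd1⟩, -, t1⟩ := pois_test ρ₁ hN.1 hN.2.1 (QS1_W s₁) (QS1_W_norm s₁)
  obtain ⟨⟨R2, hR2, hd2⟩, -, t2⟩ := pois_test ρ₂ hN.2.2.1 hN.2.2.2.1 (QS1_W s₂) (QS1_W_norm s₂)
  obtain ⟨R, hRd⟩ : ∃ R : ℝ, R = min R1 R2 := ⟨_, rfl⟩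
  have hR : 1 < R := by rw [hRd]; exact lt_min hR1 hR2
  have hs1 : ball (0:ℂ) R ⊆ ball 0 R1 := ball_subset_ball (by rw [hRd]; exact min_le_left _ _)
  have hs2 : ball (0:ℂ) R ⊆ ball 0 R2 := ball_subset_ball (by rw [hRd]; exact min_le_right _ _)
  obtain ⟨F, hF⟩ : ∃ F : ℂ → ℂ, F = fun z => log (1 - (ρ₁ : ℂ) * QS1_W s₁ * z) -
      log (1 - (ρ₂ : ℂ) * QS1_W s₂ * z) := ⟨_, rfl⟩
  have hFd : DifferentiableOn ℂ F (ball 0 R) := by
    rw [hF]
    exact (hd1.mono hs1).sub (hd2.mono hs2)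
  have hmem : ∀ z : ℂ, ‖z‖ = 1 → z ∈ ball (0:ℂ) R := by
    intro z hz
    rw [mem_ball_zero_iff, hz]
    exact hR
  have hcond := (cond_ext φ C h x F R (Real.log 17 + 2 * π) hR hFd (by
    intro z hz
    rw [hF]
    exact QS1_bd ρ₁ ρ₂ s₁ s₂ hN z hz)).2
  have hder : ∀ z : ℂ, ‖z‖ = 1 → -(z * deriv F z).re =
      ((1 - ρ₁ ^ 2) / ‖1 - (ρ₁ : ℂ) * QS1_W s₁ * z‖ ^ 2 -
        (1 - ρ₂ ^ 2) / ‖1 - (ρ₂ : ℂ) * QS1_W s₂ * z‖ ^ 2) / 2 := by
    intro z hz
    have e1 : DifferentiableAt ℂ (fun z => log (1 - (ρ₁ : ℂ) * QS1_W s₁ * z)) z :=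
      (hd1.mono hs1).differentiableAt (isOpen_ball.mem_nhds (hmem z hz))
    have e2 : DifferentiableAt ℂ (fun z => log (1 - (ρ₂ : ℂ) * QS1_W s₂ * z)) z :=
      (hd2.mono hs2).differentiableAt (isOpen_ball.mem_nhds (hmem z hz))
    have e3 : deriv F z = deriv (fun z => log (1 - (ρ₁ : ℂ) * QS1_W s₁ * z)) z -
        deriv (fun z => log (1 - (ρ₂ : ℂ) * QS1_W s₂ * z)) z := by
      rw [hF]
      exact deriv_fun_sub e1 e2
    have e4 := t1 z hz
    have e5 := t2 z hz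
    rw [e3, mul_sub, Complex.sub_re]
    linarith
  have hexp1 : ∀ s : ℝ, ‖exp ((s:ℂ) * I)‖ = 1 := fun s => Complex.norm_exp_ofReal_mul_I s
  have hint : IntervalIntegrable (fun s : ℝ => exp (s * I) * deriv F (exp (s * I)) *
      (Real.log ‖(φ (Circle.exp s) : ℂ) - x‖ : ℝ)) volume (-π) π := by
    have e1 : IntervalIntegrable (fun s : ℝ => ((Real.log ‖(φ (Circle.exp s) : ℂ) - x‖ : ℝ) : ℂ))
        volume (-π) π := ⟨(h x).1.1.ofReal, (h x).1.2.ofReal⟩
    apply e1.continuousOn_mul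
    apply Continuous.continuousOn
    have c1 : Continuous (fun s : ℝ => exp ((s:ℂ) * I)) := by fun_prop
    apply c1.mul
    exact (hFd.deriv isOpen_ball).continuousOn.comp_continuous c1 (fun s => hmem _ (hexp1 s))
  have heq : ∀ s : ℝ, (PP ρ₁ (s - s₁) - PP ρ₂ (s - s₂)) *
        Real.log ‖(φ (Circle.exp s) : ℂ) - x‖ =
      (-2) * Complex.reCLM (exp (s * I) * deriv F (exp (s * I)) *
        (Real.log ‖(φ (Circle.exp s) : ℂ) - x‖ : ℝ)) := by
    intro s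
    have e1 := hder (exp (s * I)) (hexp1 s)
    rw [QS1_PP, QS1_PP] at e1
    rw [Complex.reCLM_apply, Complex.re_mul_ofReal]
    have e2 : PP ρ₁ (s - s₁) - PP ρ₂ (s - s₂) = (-2) * (exp (s * I) * deriv F (exp (s * I))).re := by
      linarith
    rw [e2]
    ring
  simp only [heq]
  rw [intervalIntegral.integral_const_mul, Complex.reCLM.intervalIntegral_comp_comm hint,
    Complex.reCLM_apply, abs_mul]
  have e1 := Complex.abs_re_le_norm (∫ s in (-π)..π, exp (s * I) * deriv F (exp (s * I)) *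
        (Real.log ‖(φ (Circle.exp s) : ℂ) - x‖ : ℝ))
  have e2 : C * (Real.log 17 + 2 * π) ≤ |C| * (Real.log 17 + 2 * π) :=
    mul_le_mul_of_nonneg_right (le_abs_self C) hM0
  have e3 : |(-2:ℝ)| = 2 := by norm_num
  rw [e3]
  linarith

lemma PPden (ρ s : ℝ) : ‖1 - (ρ : ℂ) * exp (s * I)‖ ^ 2 = 1 - 2 * ρ * Real.cos s + ρ ^ 2 := by
  rw [Complex.sq_norm, Complex.normSq_apply]
  have hre : (1 - (ρ : ℂ) * exp (s * I)).re = 1 - ρ * Real.cos s := by
    simp [Complex.exp_ofReal_mul_I_re]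
  have him : (1 - (ρ : ℂ) * exp (s * I)).im = -(ρ * Real.sin s) := by
    simp [Complex.exp_ofReal_mul_I_im]
  rw [hre, him]
  have := Real.sin_sq_add_cos_sq s
  nlinarith

lemma PPint (ρ : ℝ) (h0 : 0 ≤ ρ) (h1 : ρ < 1) :
    ∫ s in (0:ℝ)..(2 * π), (1 - ρ ^ 2) / (1 - 2 * ρ * Real.cos s + ρ ^ 2) = 2 * π := by
  have hharm : InnerProductSpace.HarmonicOnNhd (fun _ : ℂ => (1:ℝ)) (closedBall (0:ℂ) 1) := by
    exact InnerProductSpace.harmonicOnNhd_const (1:ℝ)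
  have hw : (ρ : ℂ) ∈ ball (0:ℂ) 1 := by
    rw [mem_ball_zero_iff, Complex.norm_real, Real.norm_eq_abs, abs_of_nonneg h0]
    exact h1
  have key := InnerProductSpace.HarmonicOnNhd.circleAverage_poissonKernel_smul hharm hw
  rw [Real.circleAverage_def] at key
  have hfun : ∀ θ : ℝ, (poissonKernel 0 (ρ : ℂ) • (fun _ : ℂ => (1:ℝ))) (circleMap 0 1 θ) =
      (1 - ρ ^ 2) / (1 - 2 * ρ * Real.cos θ + ρ ^ 2) := by
    intro θ
    have e1 : circleMap 0 1 θ = exp (θ * I) := by simp [circleMap]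
    have h2 : ‖exp (θ * I) - (ρ:ℂ)‖ ^ 2 = 1 - 2 * ρ * Real.cos θ + ρ ^ 2 := by
      rw [Complex.sq_norm, Complex.normSq_apply]
      have hre : (exp (θ * I) - (ρ : ℂ)).re = Real.cos θ - ρ := by
        simp [Complex.exp_ofReal_mul_I_re]
      have him : (exp (θ * I) - (ρ : ℂ)).im = Real.sin θ := by
        simp [Complex.exp_ofReal_mul_I_im]
      rw [hre, him]
      have := Real.sin_sq_add_cos_sq θ
      nlinarith
    have h3 : ‖exp (θ * I)‖ = 1 := Complex.norm_exp_ofReal_mul_I θ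
    have h4 : ‖(ρ:ℂ)‖ ^ 2 = ρ ^ 2 := by
      rw [Complex.norm_real, Real.norm_eq_abs, sq_abs]
    simp only [Pi.smul_apply', smul_eq_mul, mul_one, poissonKernel_def, e1, sub_zero]
    rw [h2, h3, h4, one_pow]
  simp only [hfun] at key
  rw [smul_eq_mul] at key
  have hpi : (0:ℝ) < 2 * π := by positivity
  field_simp at key
  linarith

lemma PPfacts (ρ : ℝ) (h0 : 1 / 2 ≤ ρ) (h1 : ρ < 1) :
    (∀ s, PP ρ s = (1 - ρ ^ 2) / (1 - 2 * ρ * Real.cos s + ρ ^ 2)) ∧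
    (∀ s, 0 < PP ρ s) ∧ (∀ s, PP ρ s ≤ 2 / (1 - ρ)) ∧
    (∀ s, (1 - ρ ^ 2) / ((1 - ρ) ^ 2 + s ^ 2) ≤ PP ρ s) ∧ Continuous (PP ρ) ∧
    (∀ s, PP ρ (-s) = PP ρ s) ∧ (∀ s, PP ρ (s + 2 * π) = PP ρ s) ∧
    (∀ a, ∫ s in (-π)..π, PP ρ (s - a) = 2 * π) ∧ (∫ s in (0:ℝ)..π, PP ρ s = π) := by
  have hPP : ∀ s, PP ρ s = (1 - ρ ^ 2) / (1 - 2 * ρ * Real.cos s + ρ ^ 2) := by
    intro s; unfold PP; rw [PPden]
  have hρ : 0 < 1 - ρ := by linarith
  have hnum : 0 < 1 - ρ ^ 2 := by nlinarith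
  have hden : ∀ s, (1 - ρ) ^ 2 ≤ 1 - 2 * ρ * Real.cos s + ρ ^ 2 := by
    intro s
    have := Real.cos_le_one s
    nlinarith
  have hdpos : ∀ s, 0 < 1 - 2 * ρ * Real.cos s + ρ ^ 2 := fun s =>
    lt_of_lt_of_le (by positivity) (hden s)
  have hfunext : PP ρ = fun s => (1 - ρ ^ 2) / (1 - 2 * ρ * Real.cos s + ρ ^ 2) := funext hPP
  have hcont : Continuous (PP ρ) := by
    rw [hfunext]
    apply Continuous.div (by fun_prop) (by fun_prop)
    intro s
    exact (hdpos s).ne'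
  have heven : ∀ s, PP ρ (-s) = PP ρ s := by
    intro s; rw [hPP, hPP, Real.cos_neg]
  have hper : ∀ s, PP ρ (s + 2 * π) = PP ρ s := by
    intro s; rw [hPP, hPP, Real.cos_add_two_pi]
  have hfull : ∫ s in (0:ℝ)..(2 * π), PP ρ s = 2 * π := by
    rw [hfunext]
    exact PPint ρ (by linarith) h1
  have hP : Function.Periodic (PP ρ) (2 * π) := hper
  have hshift : ∀ a, ∫ s in (-π)..π, PP ρ (s - a) = 2 * π := by
    intro a
    rw [intervalIntegral.integral_comp_sub_right (fun s => PP ρ s) a]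
    have e := hP.intervalIntegral_add_eq (-π - a) 0
    rw [zero_add, hfull] at e
    have e2 : -π - a + 2 * π = π - a := by ring
    rw [e2] at e
    exact e
  refine ⟨hPP, ?_, ?_, ?_, hcont, heven, hper, hshift, ?_⟩
  · intro s
    rw [hPP]
    exact div_pos hnum (hdpos s)
  · intro s
    rw [hPP, div_le_div_iff₀ (hdpos s) hρ]
    have := hden s
    nlinarith [this, hρ, mul_pos hρ hρ]
  · intro s
    rw [hPP]
    apply div_le_div_of_nonneg_left hnum.le (hdpos s)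
    have h2 := Real.one_sub_sq_div_two_le_cos (x := s)
    have h3 := Real.cos_le_one s
    nlinarith [mul_nonneg (sub_nonneg.2 h3) hρ.le]
  · have h2 := hshift 0
    simp only [sub_zero] at h2
    have hi1 : IntervalIntegrable (PP ρ) volume (-π) 0 := hcont.intervalIntegrable _ _
    have hi2 : IntervalIntegrable (PP ρ) volume 0 π := hcont.intervalIntegrable _ _
    rw [← intervalIntegral.integral_add_adjacent_intervals hi1 hi2] at h2
    have h3 : ∫ s in (-π)..0, PP ρ s = ∫ s in (0:ℝ)..π, PP ρ s := by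
      have := intervalIntegral.integral_comp_neg (a := 0) (b := π) (fun s => PP ρ s)
      simp only [heven, neg_zero] at this
      exact this.symm
    rw [h3] at h2
    linarith

lemma QS2 (Ψ : ℝ → ℝ) (φ : Circle ≃ₜ Circle) (hl : Lift Ψ φ) (C : ℝ) (h : Cond φ C) :
    ∃ A : ℝ, 0 ≤ A ∧ ∀ s0 : ℝ, IntervalIntegrable (ell Ψ s0) volume (-π) π ∧
      ∀ ρ₁ ρ₂ s₁ s₂ : ℝ, Near ρ₁ ρ₂ s₁ s₂ →
      |∫ s in (-π)..π, (PP ρ₁ (s - s₁) - PP ρ₂ (s - s₂)) * ell Ψ s0 s| ≤ A := by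
  obtain ⟨A, hA0, hA⟩ := QS1 φ C h
  obtain ⟨hΨc, hΨm, hΨp, hΨl⟩ := hl
  refine ⟨A, hA0, ?_⟩
  intro s0
  obtain ⟨x, hx⟩ : ∃ x : Circle, x = Circle.exp (Ψ s0) := ⟨_, rfl⟩
  obtain ⟨L, hL⟩ : ∃ L : ℝ → ℝ, L = fun s : ℝ => Real.log ‖(φ (Circle.exp s) : ℂ) - x‖ := ⟨_, rfl⟩
  have hLper : Function.Periodic L (2 * π) := by
    intro s
    rw [hL]
    show Real.log ‖(φ (Circle.exp (s + 2 * π)) : ℂ) - x‖ = Real.log ‖(φ (Circle.exp s) : ℂ) - x‖
    rw [Circle.periodic_exp s]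
  have hpi := Real.pi_pos
  have hLint : ∀ a b : ℝ, IntervalIntegrable L volume a b := by
    intro a b
    have h1 : IntervalIntegrable L volume (-π) (-π + 2 * π) := by
      have := (h x).1
      rw [show -π + 2 * π = π by ring, hL]
      exact this
    exact hLper.intervalIntegrable (by positivity) h1 a b
  have hnorm : ∀ s : ℝ, ‖(φ (Circle.exp (s0 + s)) : ℂ) - x‖ = 2 * |Real.sin ((Ψ (s0 + s) - Ψ s0) / 2)| := by
    intro s
    rw [hΨl, hx, Circle.coe_exp, Circle.coe_exp]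
    have e1 : exp ((Ψ (s0 + s) : ℂ) * I) - exp ((Ψ s0 : ℂ) * I) =
        exp ((Ψ s0 : ℂ) * I) * (exp (I * ((Ψ (s0 + s) - Ψ s0 : ℝ) : ℂ)) - 1) := by
      rw [mul_sub, ← Complex.exp_add, mul_one]
      congr 2
      push_cast
      ring
    rw [e1, norm_mul, Complex.norm_exp_ofReal_mul_I, one_mul, Complex.norm_exp_I_mul_ofReal_sub_one,
      norm_mul, Real.norm_eq_abs, Real.norm_eq_abs, abs_of_pos (by norm_num : (0:ℝ) < 2)]
  have hsin : ∀ s : ℝ, -π ≤ s → s ≤ π → s ≠ 0 → Real.sin ((Ψ (s0 + s) - Ψ s0) / 2) ≠ 0 := by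
    intro s h1 h2 h3
    rcases lt_or_gt_of_ne h3 with h4 | h4
    · have a1 : Ψ (s0 + s) < Ψ s0 := hΨm (by linarith)
      have a2 : Ψ s0 - 2 * π < Ψ (s0 + s) := by
        have b1 := hΨp (s0 - 2 * π)
        rw [sub_add_cancel] at b1
        have b2 : Ψ (s0 - 2 * π) < Ψ (s0 + s) := hΨm (by linarith)
        linarith
      exact (Real.sin_neg_of_neg_of_neg_pi_lt (by linarith) (by linarith)).ne
    · have a1 : Ψ s0 < Ψ (s0 + s) := hΨm (by linarith)
      have a2 : Ψ (s0 + s) < Ψ s0 + 2 * π := by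
        rw [← hΨp]
        exact hΨm (by linarith)
      exact (Real.sin_pos_of_pos_of_lt_pi (by linarith) (by linarith)).ne'
  have hell : ∀ s : ℝ, -π ≤ s → s ≤ π → s ≠ 0 → ell Ψ s0 s = Real.log 2 - L (s0 + s) := by
    intro s h1 h2 h3
    rw [hL]
    show -Real.log |Real.sin ((Ψ (s0 + s) - Ψ s0) / 2)| =
      Real.log 2 - Real.log ‖(φ (Circle.exp (s0 + s)) : ℂ) - x‖
    rw [hnorm, Real.log_mul (by norm_num) (abs_pos.mpr (hsin s h1 h2 h3)).ne']
    ring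
  have hne : ∀ᵐ s : ℝ ∂volume, s ≠ 0 := by
    have := (MeasureTheory.measure_eq_zero_iff_ae_notMem (μ := (volume : Measure ℝ)) (s := {(0 : ℝ)})).mp (by simp)
    simpa using this
  have hae : ∀ᵐ s : ℝ ∂volume, s ∈ Set.uIoc (-π) π → ell Ψ s0 s = Real.log 2 - L (s0 + s) := by
    filter_upwards [hne] with s hs hmem
    rw [Set.uIoc_of_le (by linarith)] at hmem
    exact hell s hmem.1.le hmem.2 hs
  have hL0 : IntervalIntegrable (fun s => L (s0 + s)) volume (-π) π := by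
    have h1 := (hLint (s0 + -π) (s0 + π)).comp_add_left s0
    simpa using h1
  have hRint : IntervalIntegrable (fun s => Real.log 2 - L (s0 + s)) volume (-π) π :=
    intervalIntegrable_const.sub hL0
  refine ⟨?_, ?_⟩
  · refine hRint.congr_ae ?_
    rw [Filter.EventuallyEq, ae_restrict_iff' measurableSet_uIoc]
    filter_upwards [hae] with s hs hmem
    exact (hs hmem).symm
  · intro ρ₁ ρ₂ s₁ s₂ hN
    have hN' : Near ρ₁ ρ₂ (s0 + s₁) (s0 + s₂) := by
      unfold Near at hN ⊢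
      have : s0 + s₁ - (s0 + s₂) = s₁ - s₂ := by ring
      rw [this]
      exact hN
    obtain ⟨hr1, hr1', hr2, hr2', _⟩ := hN
    obtain ⟨_, _, _, _, hc1, _, hp1, hi1, _⟩ := PPfacts ρ₁ hr1 hr1'
    obtain ⟨_, _, _, _, hc2, _, hp2, hi2, _⟩ := PPfacts ρ₂ hr2 hr2'
    obtain ⟨K, hK⟩ : ∃ K : ℝ → ℝ, K = fun s : ℝ => PP ρ₁ (s - s₁) - PP ρ₂ (s - s₂) := ⟨_, rfl⟩
    have hKc : Continuous K := by
      rw [hK]
      exact (hc1.comp (continuous_id.sub continuous_const)).sub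
        (hc2.comp (continuous_id.sub continuous_const))
    have hKp : Function.Periodic K (2 * π) := by
      intro s
      rw [hK]
      show PP ρ₁ (s + 2 * π - s₁) - PP ρ₂ (s + 2 * π - s₂) = PP ρ₁ (s - s₁) - PP ρ₂ (s - s₂)
      rw [show s + 2 * π - s₁ = s - s₁ + 2 * π by ring, show s + 2 * π - s₂ = s - s₂ + 2 * π by ring,
        hp1, hp2]
    have hK0 : ∫ s in (-π)..π, K s = 0 := by
      rw [hK]
      rw [intervalIntegral.integral_sub]
      · rw [hi1, hi2, sub_self]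
      · exact (hc1.comp (continuous_id.sub continuous_const)).intervalIntegrable _ _
      · exact (hc2.comp (continuous_id.sub continuous_const)).intervalIntegrable _ _
    have e1 : ∫ s in (-π)..π, (PP ρ₁ (s - s₁) - PP ρ₂ (s - s₂)) * ell Ψ s0 s =
        ∫ s in (-π)..π, (Real.log 2 * K s - K s * L (s0 + s)) := by
      apply intervalIntegral.integral_congr_ae
      filter_upwards [hae] with s hs hmem
      rw [hs hmem, hK]
      ring
    have e2 : ∫ s in (-π)..π, (Real.log 2 * K s - K s * L (s0 + s)) =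
        -∫ s in (-π)..π, K s * L (s0 + s) := by
      rw [intervalIntegral.integral_sub]
      · rw [intervalIntegral.integral_const_mul, hK0]
        ring
      · exact (continuous_const.mul hKc).intervalIntegrable _ _
      · exact hL0.continuousOn_mul hKc.continuousOn
    have e3 : ∫ s in (-π)..π, K s * L (s0 + s) = ∫ t in (s0 - π)..(s0 + π), K (t - s0) * L t := by
      have h1 := intervalIntegral.integral_comp_add_left (a := -π) (b := π) (fun t => K (t - s0) * L t) s0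
      simp only [add_sub_cancel_left] at h1
      rw [h1]
      rfl
    have hP : Function.Periodic (fun t => K (t - s0) * L t) (2 * π) := by
      intro t
      show K (t + 2 * π - s0) * L (t + 2 * π) = K (t - s0) * L t
      rw [hLper t, show t + 2 * π - s0 = t - s0 + 2 * π by ring, hKp]
    have e4 : ∫ t in (s0 - π)..(s0 + π), K (t - s0) * L t = ∫ t in (-π)..π, K (t - s0) * L t := by
      have h1 := hP.intervalIntegral_add_eq (s0 - π) (-π)
      rw [show s0 - π + 2 * π = s0 + π by ring, show -π + 2 * π = π by ring] at h1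
      exact h1
    have e5 : ∫ t in (-π)..π, K (t - s0) * L t =
        ∫ s in (-π)..π, (PP ρ₁ (s - (s0 + s₁)) - PP ρ₂ (s - (s0 + s₂))) *
        Real.log ‖(φ (Circle.exp s) : ℂ) - x‖ := by
      apply intervalIntegral.integral_congr
      intro t _
      rw [hK, hL]
      show (PP ρ₁ (t - s0 - s₁) - PP ρ₂ (t - s0 - s₂)) * _ = _
      rw [sub_sub, sub_sub]
    rw [e1, e2, abs_neg, e3, e4, e5]
    exact hA x ρ₁ ρ₂ (s0 + s₁) (s0 + s₂) hN'

lemma ellG (Ψ : ℝ → ℝ) (φ : Circle ≃ₜ Circle) (hl : Lift Ψ φ) :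
    ∃ B : ℝ, 0 ≤ B ∧ ∀ s0 s : ℝ, 0 < s → s ≤ π →
      |ell Ψ s0 s + Real.log (Ψ (s0 + s) - Ψ s0)| ≤ B ∧
      |ell Ψ s0 (-s) + Real.log (Ψ s0 - Ψ (s0 - s))| ≤ B := by
  obtain ⟨hcont, hmono, hper, -⟩ := hl
  have hpi := Real.pi_pos
  set D : ℝ → ℝ := fun t => Ψ (t + π) - Ψ t with hD
  have hDc : Continuous D := (hcont.comp (continuous_id.add continuous_const)).sub hcont
  have hDp : Function.Periodic D (2 * π) := by
    intro t
    simp only [hD]
    rw [show t + 2 * π + π = (t + π) + 2 * π by ring, hper, hper]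
    ring
  obtain ⟨tm, htm, hmax⟩ := (isCompact_Icc (a := (0:ℝ)) (b := 2 * π)).exists_isMaxOn
    ⟨0, by constructor <;> linarith⟩ hDc.continuousOn
  set V : ℝ := D tm with hV
  have hV2 : V < 2 * π := by
    have h1 : Ψ (tm + π) < Ψ (tm + 2 * π) := hmono (by linarith)
    rw [hper] at h1
    simp only [hV, hD]
    linarith
  have hDle : ∀ t, D t ≤ V := by
    intro t
    obtain ⟨y, hy, hty⟩ := hDp.exists_mem_Ico₀ (by linarith) t
    rw [hty]
    exact hmax ⟨hy.1, hy.2.le⟩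
  have hV0 : 0 < V := by
    have h1 : Ψ tm < Ψ (tm + π) := hmono (by linarith)
    simp only [hV, hD]
    linarith
  have hsV : 0 < Real.sin (V / 2) := Real.sin_pos_of_pos_of_lt_pi (by linarith) (by linarith)
  set k : ℝ := Real.sin (V / 2) / V with hk
  have hk0 : 0 < k := by positivity
  have key : ∀ v : ℝ, 0 < v → v ≤ V →
      |-Real.log |Real.sin (v / 2)| + Real.log v| ≤ |Real.log k| := by
    intro v hv hvV
    have h1 : k * v ≤ Real.sin (v / 2) := by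
      have hc := strictConcaveOn_sin_Icc.concaveOn
      have hx : (0:ℝ) ∈ Icc 0 π := ⟨le_rfl, hpi.le⟩
      have hy : V / 2 ∈ Icc (0:ℝ) π := ⟨by linarith, by linarith⟩
      have ha : 0 ≤ 1 - v / V := by
        rw [sub_nonneg, div_le_one hV0]; exact hvV
      have hb : 0 ≤ v / V := by positivity
      have h2 := hc.2 hx hy ha hb (by ring)
      simp only [smul_eq_mul, mul_zero, Real.sin_zero, zero_add] at h2
      have h3 : v / V * (V / 2) = v / 2 := by field_simp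
      rw [h3] at h2
      calc k * v = v / V * Real.sin (V / 2) := by rw [hk]; ring
        _ ≤ Real.sin (v / 2) := h2
    have hs0 : 0 < Real.sin (v / 2) := lt_of_lt_of_le (by positivity) h1
    rw [abs_of_pos hs0]
    have h4 : Real.log k + Real.log v ≤ Real.log (Real.sin (v / 2)) := by
      rw [← Real.log_mul hk0.ne' hv.ne']
      exact Real.log_le_log (by positivity) h1
    have h5 : Real.log (Real.sin (v / 2)) ≤ Real.log v := by
      apply Real.log_le_log hs0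
      have := Real.sin_le (by linarith : 0 ≤ v / 2)
      linarith
    rw [abs_of_nonneg (by linarith)]
    have h6 := neg_abs_le (Real.log k)
    linarith
  refine ⟨|Real.log k|, abs_nonneg _, fun s0 s hs hsπ => ⟨?_, ?_⟩⟩
  · have hv : 0 < Ψ (s0 + s) - Ψ s0 := sub_pos.2 (hmono (by linarith))
    have hvV : Ψ (s0 + s) - Ψ s0 ≤ V := by
      have h1 : Ψ (s0 + s) ≤ Ψ (s0 + π) := hmono.monotone (by linarith)
      have h2 := hDle s0
      simp only [hD] at h2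
      linarith
    exact key _ hv hvV
  · have hv : 0 < Ψ s0 - Ψ (s0 - s) := sub_pos.2 (hmono (by linarith))
    have hvV : Ψ s0 - Ψ (s0 - s) ≤ V := by
      have h1 : Ψ (s0 - π) ≤ Ψ (s0 - s) := hmono.monotone (by linarith)
      have h2 := hDle (s0 - π)
      simp only [hD] at h2
      rw [sub_add_cancel] at h2
      linarith
    have h3 := key _ hv hvV
    unfold ell
    have h4 : |Real.sin ((Ψ (s0 + -s) - Ψ s0) / 2)| = |Real.sin ((Ψ s0 - Ψ (s0 - s)) / 2)| := by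
      rw [← sub_eq_add_neg, show (Ψ (s0 - s) - Ψ s0) / 2 = -((Ψ s0 - Ψ (s0 - s)) / 2) by ring,
        Real.sin_neg, abs_neg]
    rw [h4]
    exact h3

lemma cross (T : ℝ → ℝ) (hT : AntitoneOn T (Ioc 0 π)) (hi : IntervalIntegrable T volume 0 π) (δ : ℝ)
    (h0 : 0 < δ) (h1 : δ ≤ 1 / 16) :
    (1 / 2) * (T δ - T (2 * δ)) ≤ ∫ s in (0:ℝ)..π, (PP (1 - δ) s - PP (1 - 8 * δ) s) * T s := by
  have hpi := Real.pi_gt_three
  obtain ⟨f1, p1, u1, l1, c1, -, -, -, i1⟩ := PPfacts (1 - δ) (by linarith) (by linarith)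
  obtain ⟨f2, p2, u2, l2, c2, -, -, -, i2⟩ := PPfacts (1 - 8 * δ) (by linarith) (by linarith)
  obtain ⟨D, hD⟩ : ∃ D : ℝ → ℝ, D = fun s => PP (1 - δ) s - PP (1 - 8 * δ) s := ⟨_, rfl⟩
  have hDs : ∀ s, D s = PP (1 - δ) s - PP (1 - 8 * δ) s := fun s => by rw [hD]
  have cD : Continuous D := by rw [hD]; exact c1.sub c2
  obtain ⟨L, hLd⟩ : ∃ L : ℝ → ℝ, L = fun x => (1 - (1 - δ) ^ 2) * (1 - 2 * (1 - 8 * δ) * x + (1 - 8 * δ) ^ 2)
      - (1 - (1 - 8 * δ) ^ 2) * (1 - 2 * (1 - δ) * x + (1 - δ) ^ 2) := ⟨_, rfl⟩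
  have hL : ∀ x y : ℝ, x ≤ y → L x ≤ L y := by
    intro x y h
    have e : L y - L x = 2 * (y - x) * (7 * δ) * (1 + (1 - δ) * (1 - 8 * δ)) := by
      rw [hLd]; ring
    have : 0 ≤ 2 * (y - x) * (7 * δ) * (1 + (1 - δ) * (1 - 8 * δ)) := by
      have h1' : 0 ≤ (1 - δ) := by linarith
      have h2' : 0 ≤ (1 - 8 * δ) := by linarith
      have h3' : 0 ≤ y - x := by linarith
      positivity
    linarith
  have den1 : ∀ s, 0 < 1 - 2 * (1 - δ) * Real.cos s + (1 - δ) ^ 2 := by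
    intro s
    nlinarith [mul_nonneg (show (0:ℝ) ≤ 1 - δ by linarith) (sub_nonneg.2 (Real.cos_le_one s)), mul_pos h0 h0]
  have den2 : ∀ s, 0 < 1 - 2 * (1 - 8 * δ) * Real.cos s + (1 - 8 * δ) ^ 2 := by
    intro s
    nlinarith [mul_nonneg (show (0:ℝ) ≤ 1 - 8 * δ by linarith) (sub_nonneg.2 (Real.cos_le_one s)), mul_pos h0 h0]
  have hDL : ∀ s, D s = L (Real.cos s) / ((1 - 2 * (1 - δ) * Real.cos s + (1 - δ) ^ 2) *
      (1 - 2 * (1 - 8 * δ) * Real.cos s + (1 - 8 * δ) ^ 2)) := by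
    intro s
    rw [hDs, f1, f2, hLd, div_sub_div _ _ (den1 s).ne' (den2 s).ne']
    ring
  have hDnn : ∀ s, 0 ≤ L (Real.cos s) → 0 ≤ D s := fun s h => by
    rw [hDL]; exact div_nonneg h (mul_pos (den1 s) (den2 s)).le
  have hDnp : ∀ s, L (Real.cos s) ≤ 0 → D s ≤ 0 := fun s h => by
    rw [hDL]; exact div_nonpos_of_nonpos_of_nonneg h (mul_pos (den1 s) (den2 s)).le
  -- values
  have hU2 : ∀ s, PP (1 - 8 * δ) s ≤ (1 / 4) / δ := by
    intro s
    have h := u2 s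
    have e : (2 : ℝ) / (1 - (1 - 8 * δ)) = (1 / 4) / δ := by
      rw [show (1 - (1 - 8 * δ)) = 8 * δ by ring]
      field_simp; norm_num
    linarith [e ▸ h]
  have hD2 : 0 ≤ D (2 * δ) := by
    have h := l1 (2 * δ)
    have e : (1 - (1 - δ) ^ 2) / ((1 - (1 - δ)) ^ 2 + (2 * δ) ^ 2) = (2 - δ) / 5 / δ := by
      rw [show (1 - (1 - δ)) ^ 2 + (2 * δ) ^ 2 = 5 * δ * δ by ring, show 1 - (1 - δ) ^ 2 = δ * (2 - δ) by ring]
      field_simp
    rw [e] at h
    have h2 := hU2 (2 * δ)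
    have h3 : (1 / 4) / δ ≤ (2 - δ) / 5 / δ := by
      apply div_le_div_of_nonneg_right _ h0.le
      linarith
    rw [hDs]; linarith
  have hD1 : ∀ s, 0 ≤ s → s ≤ δ → (1 / 2) / δ ≤ D s := by
    intro s hs0 hs1
    have h := l1 s
    have h2 := hU2 s
    have e : (2 - δ) / 2 / δ ≤ (1 - (1 - δ) ^ 2) / ((1 - (1 - δ)) ^ 2 + s ^ 2) := by
      rw [div_div, div_le_div_iff₀ (by positivity) (by nlinarith [sq_nonneg s, mul_pos h0 h0])]
      have hss : s ^ 2 ≤ δ ^ 2 := by nlinarith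
      have h2d : 0 < 2 - δ := by linarith
      nlinarith [mul_nonneg h2d.le (sub_nonneg.2 hss)]
    have h3 : (1 / 2) / δ + (1 / 4) / δ ≤ (2 - δ) / 2 / δ := by
      rw [← add_div]
      apply div_le_div_of_nonneg_right _ h0.le
      linarith
    rw [hDs]; linarith
  have hDπ : D π ≤ 0 := by
    apply hDnp
    rw [Real.cos_pi, hLd]
    have : (1 - (1 - δ) ^ 2) * (1 - 2 * (1 - 8 * δ) * (-1) + (1 - 8 * δ) ^ 2)
      - (1 - (1 - 8 * δ) ^ 2) * (1 - 2 * (1 - δ) * (-1) + (1 - δ) ^ 2) = -(14 * δ * (2 - δ) * (2 - 8 * δ)) := by ring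
    simp only
    rw [this]
    have h1' : 0 ≤ (2 - δ) := by linarith
    have h2' : 0 ≤ (2 - 8 * δ) := by linarith
    have : 0 ≤ 14 * δ * (2 - δ) * (2 - 8 * δ) := by positivity
    linarith
  obtain ⟨sc, hsc, hsc0⟩ := intermediate_value_Icc' (show 2 * δ ≤ π by linarith) cD.continuousOn ⟨hDπ, hD2⟩
  have hLsc : L (Real.cos sc) = 0 := by
    have := hDL sc
    rw [hsc0] at this
    rcases div_eq_zero_iff.1 this.symm with h | h
    · exact h
    · exact absurd h (mul_pos (den1 sc) (den2 sc)).ne'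
  have hscp : 0 < sc := by linarith [hsc.1]
  -- nonnegativity of the integrand
  have hnn : ∀ s, 0 < s → s ≤ π → 0 ≤ D s * (T s - T sc) := by
    intro s hs0 hs1
    rcases le_total s sc with h | h
    · have h1 : 0 ≤ D s := hDnn s (by
        rw [← hLsc]
        exact hL _ _ (Real.cos_le_cos_of_nonneg_of_le_pi hs0.le hsc.2 h))
      have h2 : T sc ≤ T s := hT ⟨hs0, hs1⟩ ⟨hscp, hsc.2⟩ h
      exact mul_nonneg h1 (by linarith)
    · have h1 : D s ≤ 0 := hDnp s (by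
        rw [← hLsc]
        exact hL _ _ (Real.cos_le_cos_of_nonneg_of_le_pi hscp.le hs1 h))
      have h2 : T s ≤ T sc := hT ⟨hscp, hsc.2⟩ ⟨hs0, hs1⟩ h
      exact mul_nonneg_of_nonpos_of_nonpos h1 (by linarith)
  have hDT : IntervalIntegrable (fun s => D s * T s) volume 0 π := hi.continuousOn_mul cD.continuousOn
  have hDc : IntervalIntegrable (fun s => D s * T sc) volume 0 π := (cD.mul continuous_const).intervalIntegrable _ _
  have hint : IntervalIntegrable (fun s => D s * (T s - T sc)) volume 0 π := by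
    simpa only [mul_sub] using hDT.sub hDc
  have hD0 : ∫ s in (0:ℝ)..π, D s = 0 := by
    rw [hD, intervalIntegral.integral_sub (c1.intervalIntegrable _ _) (c2.intervalIntegrable _ _), i1, i2, sub_self]
  have hmain : ∫ s in (0:ℝ)..π, D s * T s = ∫ s in (0:ℝ)..π, D s * (T s - T sc) := by
    have : ∫ s in (0:ℝ)..π, D s * (T s - T sc) = (∫ s in (0:ℝ)..π, D s * T s) - ∫ s in (0:ℝ)..π, D s * T sc := by
      rw [← intervalIntegral.integral_sub hDT hDc]
      congr 1; ext s; ring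
    rw [this, intervalIntegral.integral_mul_const, hD0]; ring
  have hgoal : ∫ s in (0:ℝ)..π, (PP (1 - δ) s - PP (1 - 8 * δ) s) * T s = ∫ s in (0:ℝ)..π, D s * T s := by
    rw [hD]
  rw [hgoal, hmain]
  have hδπ : δ ≤ π := by linarith
  have hi1 : IntervalIntegrable (fun s => D s * (T s - T sc)) volume 0 δ :=
    hint.mono_set (by rw [uIcc_of_le h0.le, uIcc_of_le Real.pi_pos.le]; exact Icc_subset_Icc le_rfl hδπ)
  have hi2 : IntervalIntegrable (fun s => D s * (T s - T sc)) volume δ π :=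
    hint.mono_set (by rw [uIcc_of_le hδπ, uIcc_of_le Real.pi_pos.le]; exact Icc_subset_Icc h0.le le_rfl)
  rw [← intervalIntegral.integral_add_adjacent_intervals hi1 hi2]
  have hb : 0 ≤ ∫ s in δ..π, D s * (T s - T sc) :=
    intervalIntegral.integral_nonneg hδπ (fun u hu => hnn u (lt_of_lt_of_le h0 hu.1) hu.2)
  have ha : (1 / 2) * (T δ - T (2 * δ)) ≤ ∫ s in (0:ℝ)..δ, D s * (T s - T sc) := by
    have hc : (1 / 2) * (T δ - T (2 * δ)) = ∫ _ in (0:ℝ)..δ, (1 / 2) / δ * (T δ - T (2 * δ)) := by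
      rw [intervalIntegral.integral_const]
      simp only [sub_zero, smul_eq_mul]
      field_simp
    rw [hc]
    apply intervalIntegral.integral_mono_on_of_le_Ioo h0.le (intervalIntegrable_const) hi1
    intro x hx
    have h2δ : T (2 * δ) ≤ T δ := hT ⟨h0, hδπ⟩ ⟨by linarith, by linarith⟩ (by linarith)
    have hx1 : T δ ≤ T x := hT ⟨hx.1, by linarith [hx.2]⟩ ⟨h0, hδπ⟩ hx.2.le
    have hx2 : T sc ≤ T (2 * δ) := hT ⟨by linarith, by linarith⟩ ⟨hscp, hsc.2⟩ hsc.1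
    have hDx := hD1 x hx.1.le hx.2.le
    have hpos : 0 < (1 / 2) / δ := by positivity
    calc (1 / 2) / δ * (T δ - T (2 * δ)) ≤ (1 / 2) / δ * (T x - T sc) := by
          apply mul_le_mul_of_nonneg_left _ hpos.le; linarith
      _ ≤ D x * (T x - T sc) := by
          apply mul_le_mul_of_nonneg_right hDx; linarith
  linarith

lemma QS3 (Ψ : ℝ → ℝ) (φ : Circle ≃ₜ Circle) (hl : Lift Ψ φ) (C : ℝ) (h : Cond φ C) :
    ∃ B : ℝ, 0 ≤ B ∧ ∀ s0 δ : ℝ, 0 < δ → δ ≤ 1 / 16 →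
      (Real.log (Ψ (s0 + 2 * δ) - Ψ s0) - Real.log (Ψ (s0 + δ) - Ψ s0)) +
      (Real.log (Ψ s0 - Ψ (s0 - 2 * δ)) - Real.log (Ψ s0 - Ψ (s0 - δ))) ≤ B := by
  obtain ⟨A, hA, hQ⟩ := QS2 Ψ φ hl C h
  obtain ⟨B, hB, hE⟩ := ellG Ψ φ hl
  have hmono : StrictMono Ψ := hl.2.1
  have hpi := Real.pi_pos
  refine ⟨2 * (A + 4 * π * B), by positivity, ?_⟩
  intro s0 δ hδ hδ'
  obtain ⟨hint, hQ'⟩ := hQ s0
  obtain ⟨T, hT⟩ : ∃ T : ℝ → ℝ, T = fun s => -(Real.log (Ψ (s0 + s) - Ψ s0) +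
    Real.log (Ψ s0 - Ψ (s0 - s))) := ⟨_, rfl⟩
  have hTanti : AntitoneOn T (Ioc 0 π) := by
    intro s hs t ht hst
    rw [hT]
    simp only
    have h1 : Real.log (Ψ (s0 + s) - Ψ s0) ≤ Real.log (Ψ (s0 + t) - Ψ s0) := by
      apply Real.log_le_log
      · have := hmono (show s0 < s0 + s by linarith [hs.1])
        linarith
      · have := hmono.monotone (show s0 + s ≤ s0 + t by linarith)
        linarith
    have h2 : Real.log (Ψ s0 - Ψ (s0 - s)) ≤ Real.log (Ψ s0 - Ψ (s0 - t)) := by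
      apply Real.log_le_log
      · have := hmono (show s0 - s < s0 by linarith [hs.1])
        linarith
      · have := hmono.monotone (show s0 - t ≤ s0 - s by linarith)
        linarith
    linarith
  have hdiff : ∀ s, 0 < s → s ≤ π → |ell Ψ s0 s + ell Ψ s0 (-s) - T s| ≤ 2 * B := by
    intro s h1 h2
    obtain ⟨e1, e2⟩ := hE s0 s h1 h2
    rw [hT]
    simp only
    have : ell Ψ s0 s + ell Ψ s0 (-s) - -(Real.log (Ψ (s0 + s) - Ψ s0) +
        Real.log (Ψ s0 - Ψ (s0 - s))) = (ell Ψ s0 s + Real.log (Ψ (s0 + s) - Ψ s0)) +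
        (ell Ψ s0 (-s) + Real.log (Ψ s0 - Ψ (s0 - s))) := by ring
    rw [this]
    calc _ ≤ _ := abs_add_le _ _
      _ ≤ 2 * B := by linarith
  have hi1 : IntervalIntegrable (fun s => ell Ψ s0 s) volume 0 π :=
    hint.mono_set (by
      rw [uIcc_of_le hpi.le, uIcc_of_le (by linarith)]
      exact Icc_subset_Icc (by linarith) le_rfl)
  have hi2 : IntervalIntegrable (fun s => ell Ψ s0 s) volume (-π) 0 :=
    hint.mono_set (by
      rw [uIcc_of_le (by linarith), uIcc_of_le (by linarith)]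
      exact Icc_subset_Icc le_rfl (by linarith))
  have hneg : ∀ F : ℝ → ℝ, IntervalIntegrable F volume (-π) 0 →
      IntervalIntegrable (fun s => F (-s)) volume 0 π := by
    intro F hF
    have h1 := hF.comp_mul_left (c := -1)
    have h2 := h1.symm
    simpa using h2
  have hi3 : IntervalIntegrable (fun s => ell Ψ s0 (-s)) volume 0 π := hneg _ hi2
  have hiE : IntervalIntegrable (fun s => ell Ψ s0 s + ell Ψ s0 (-s)) volume 0 π := hi1.add hi3
  have hiT : IntervalIntegrable T volume 0 π := by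
    rw [intervalIntegrable_iff_integrableOn_Ioc_of_le hpi.le] at hiE ⊢
    have hb : IntegrableOn (fun s => |ell Ψ s0 s + ell Ψ s0 (-s)| + 2 * B) (Ioc 0 π) :=
      hiE.abs.add (continuous_const.integrableOn_Ioc)
    refine Integrable.mono' hb
      (aemeasurable_restrict_of_antitoneOn measurableSet_Ioc hTanti).aestronglyMeasurable ?_
    refine (ae_restrict_iff' measurableSet_Ioc).2 (Filter.Eventually.of_forall fun s hs => ?_)
    have := hdiff s hs.1 hs.2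
    rw [Real.norm_eq_abs]
    have h3 : T s = (ell Ψ s0 s + ell Ψ s0 (-s)) - (ell Ψ s0 s + ell Ψ s0 (-s) - T s) := by ring
    calc |T s| = |(ell Ψ s0 s + ell Ψ s0 (-s)) - (ell Ψ s0 s + ell Ψ s0 (-s) - T s)| := by rw [← h3]
      _ ≤ _ := abs_sub _ _
      _ ≤ _ := by linarith
  -- the kernels
  obtain ⟨-, p1pos, -, -, p1c, p1e, -, -, p1i⟩ := PPfacts (1 - δ) (by linarith) (by linarith)
  obtain ⟨-, p2pos, -, -, p2c, p2e, -, -, p2i⟩ := PPfacts (1 - 8 * δ) (by linarith) (by linarith)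
  have hNear : Near (1 - δ) (1 - 8 * δ) 0 0 := by
    refine ⟨by linarith, by linarith, by linarith, by linarith, by linarith, by linarith, ?_, ?_⟩
    · simp; linarith
    · simp; linarith
  have hq := hQ' _ _ _ _ hNear
  simp only [sub_zero] at hq
  obtain ⟨g, hg⟩ : ∃ g : ℝ → ℝ, g = fun s => PP (1 - δ) s - PP (1 - 8 * δ) s := ⟨_, rfl⟩
  have hgc : Continuous g := by rw [hg]; exact p1c.sub p2c
  have hge : ∀ s, g (-s) = g s := by intro s; rw [hg]; simp only [p1e, p2e]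
  have hq2 : ∫ s in (0:ℝ)..π, g s * (ell Ψ s0 s + ell Ψ s0 (-s)) ≤ A := by
    have e1 : ∫ s in (-π)..π, g s * ell Ψ s0 s =
        (∫ s in (-π)..0, g s * ell Ψ s0 s) + ∫ s in (0:ℝ)..π, g s * ell Ψ s0 s :=
      (intervalIntegral.integral_add_adjacent_intervals
        (hi2.continuousOn_mul hgc.continuousOn) (hi1.continuousOn_mul hgc.continuousOn)).symm
    have e2 : ∫ s in (-π)..0, g s * ell Ψ s0 s = ∫ s in (0:ℝ)..π, g s * ell Ψ s0 (-s) := by
      have := intervalIntegral.integral_comp_neg (a := 0) (b := π) (fun s => g s * ell Ψ s0 s)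
      simp only [neg_zero, hge] at this
      exact this.symm
    have e3 : ∫ s in (0:ℝ)..π, g s * (ell Ψ s0 s + ell Ψ s0 (-s)) =
        ∫ s in (-π)..π, g s * ell Ψ s0 s := by
      rw [e1, e2, ← intervalIntegral.integral_add (hi3.continuousOn_mul hgc.continuousOn)
        (hi1.continuousOn_mul hgc.continuousOn)]
      congr 1
      funext s
      ring
    rw [e3]
    have := (abs_le.1 hq).2
    rw [hg]
    exact this
  have hcr := cross T hTanti hiT δ hδ hδ'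
  have hq3 : ∫ s in (0:ℝ)..π, g s * T s ≤
      ∫ s in (0:ℝ)..π, (g s * (ell Ψ s0 s + ell Ψ s0 (-s)) +
        2 * B * (PP (1 - δ) s + PP (1 - 8 * δ) s)) := by
    apply intervalIntegral.integral_mono_on_of_le_Ioo hpi.le
      (hiT.continuousOn_mul hgc.continuousOn)
    · exact (hiE.continuousOn_mul hgc.continuousOn).add
        ((continuous_const.mul (p1c.add p2c)).intervalIntegrable _ _)
    · intro s hs
      have hd := hdiff s hs.1 hs.2.le
      have hgab : |g s| ≤ PP (1 - δ) s + PP (1 - 8 * δ) s := by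
        rw [hg]
        have h1 := (p1pos s).le
        have h2 := (p2pos s).le
        rw [abs_le]
        constructor <;> linarith
      have h1 : |g s * (ell Ψ s0 s + ell Ψ s0 (-s) - T s)| ≤
          (PP (1 - δ) s + PP (1 - 8 * δ) s) * (2 * B) := by
        rw [abs_mul]
        exact mul_le_mul hgab hd (abs_nonneg _) (by linarith [p1pos s, p2pos s])
      have h2 := (abs_le.1 h1).1
      nlinarith
  have hsplit : ∫ s in (0:ℝ)..π, (g s * (ell Ψ s0 s + ell Ψ s0 (-s)) +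
        2 * B * (PP (1 - δ) s + PP (1 - 8 * δ) s)) =
      (∫ s in (0:ℝ)..π, g s * (ell Ψ s0 s + ell Ψ s0 (-s))) + 2 * B * (π + π) := by
    have i2 : IntervalIntegrable (fun s => 2 * B * (PP (1 - δ) s + PP (1 - 8 * δ) s)) volume 0 π :=
      (continuous_const.mul (p1c.add p2c)).intervalIntegrable _ _
    rw [intervalIntegral.integral_add (hiE.continuousOn_mul hgc.continuousOn) i2,
      intervalIntegral.integral_const_mul,
      intervalIntegral.integral_add (p1c.intervalIntegrable _ _) (p2c.intervalIntegrable _ _),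
      p1i, p2i]
  rw [hsplit] at hq3
  have hcr' : (1 / 2) * (T δ - T (2 * δ)) ≤ ∫ s in (0:ℝ)..π, g s * T s := by
    rw [hg]; exact hcr
  have hfin : (Real.log (Ψ (s0 + 2 * δ) - Ψ s0) - Real.log (Ψ (s0 + δ) - Ψ s0)) +
      (Real.log (Ψ s0 - Ψ (s0 - 2 * δ)) - Real.log (Ψ s0 - Ψ (s0 - δ))) = T δ - T (2 * δ) := by
    rw [hT]; ring
  rw [hfin]
  nlinarith

lemma qs_iter (f : ℝ → ℝ) (B0 B1 : ℝ) (hB0 : 0 ≤ B0) (hB1 : 0 ≤ B1)
    (mono : ∀ x y, 0 < x → x ≤ y → f x ≤ f y)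
    (dbl : ∀ δ, 0 < δ → δ ≤ 1 / 16 → f (2 * δ) - f δ ≤ B0)
    (big : ∀ x y, 1 / 16 ≤ x → x ≤ y → y ≤ π → f y - f x ≤ B1) :
    ∀ a b, 0 < a → a ≤ b → b ≤ π →
      f b - f a ≤ (B0 / Real.log 2 + B0 + B1) * (1 + Real.log (b / a)) := by
  have key : ∀ n : ℕ, ∀ a b : ℝ, 0 < a → a ≤ b → b ≤ π → b ≤ 2 ^ n * a →
      f b - f a ≤ n * B0 + B1 := by
    intro n
    induction n with
    | zero =>
      intro a b ha hab hb hn
      have : b = a := le_antisymm (by simpa using hn) hab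
      subst this
      simpa using hB1
    | succ n ih =>
      intro a b ha hab hb hn
      push_cast
      have hnB : 0 ≤ (n : ℝ) * B0 := by positivity
      rcases le_or_gt (1 / 16) a with h16 | h16
      · have := big a b h16 hab hb
        nlinarith
      · have h2 := dbl a ha h16.le
        rcases le_or_gt b (2 * a) with h3 | h3
        · have := mono b (2 * a) (by linarith) h3
          nlinarith
        · have := ih (2 * a) b (by linarith) h3.le hb (by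
            rw [pow_succ] at hn
            linarith)
          nlinarith
  intro a b ha hab hb
  have hl2 : 0 < Real.log 2 := Real.log_pos (by norm_num)
  have hba : 1 ≤ b / a := by
    rw [le_div_iff₀ ha]
    linarith
  have hL : 0 ≤ Real.log (b / a) := Real.log_nonneg hba
  set n := ⌈Real.log (b / a) / Real.log 2⌉₊ with hn
  have h1 : Real.log (b / a) / Real.log 2 ≤ n := Nat.le_ceil _
  have h2 : (n : ℝ) < Real.log (b / a) / Real.log 2 + 1 := Nat.ceil_lt_add_one (by positivity)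
  have h3 : b ≤ 2 ^ n * a := by
    rw [← div_le_iff₀ ha]
    have hpos : 0 < b / a := by linarith
    rw [← Real.log_le_log_iff hpos (by positivity), Real.log_pow]
    rw [div_le_iff₀ hl2] at h1
    exact h1
  have h4 := key n a b ha hab hb h3
  have h5 : (n : ℝ) * B0 ≤ (Real.log (b / a) / Real.log 2 + 1) * B0 :=
    mul_le_mul_of_nonneg_right h2.le hB0
  have h6 : (Real.log (b / a) / Real.log 2 + 1) * B0 = B0 / Real.log 2 * Real.log (b / a) + B0 := by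
    ring
  have h7 : 0 ≤ B0 / Real.log 2 := by positivity
  nlinarith [mul_nonneg (add_nonneg hB0 hB1) hL]

lemma qs_low (Ψ : ℝ → ℝ) (φ : Circle ≃ₜ Circle) (hl : Lift Ψ φ) :
    ∃ c : ℝ, 0 < c ∧ ∀ s, c ≤ Ψ (s + 1 / 16) - Ψ s := by
  obtain ⟨hc, hm, hp, _⟩ := hl
  have hper : Function.Periodic (fun s => Ψ (s + 1 / 16) - Ψ s) (2 * π) := by
    intro s
    have e1 : s + 2 * π + 1 / 16 = (s + 1 / 16) + 2 * π := by ring
    simp only [e1, hp]
    ring
  have hcont : Continuous (fun s => Ψ (s + 1 / 16) - Ψ s) := by fun_prop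
  obtain ⟨m, _, hmin⟩ := (isCompact_Icc (a := (0:ℝ)) (b := 2 * π)).exists_isMinOn
    ⟨0, by constructor <;> positivity⟩ hcont.continuousOn
  refine ⟨Ψ (m + 1 / 16) - Ψ m, sub_pos.mpr (hm (by linarith)), fun s => ?_⟩
  obtain ⟨y, hy, hsy⟩ := hper.exists_mem_Ico₀ (by positivity) s
  have := hmin (Ico_subset_Icc_self hy)
  simp only [mem_setOf_eq] at this
  rw [show Ψ (s + 1 / 16) - Ψ s = Ψ (y + 1 / 16) - Ψ y from hsy]
  exact this


lemma QS3b (Ψ : ℝ → ℝ) (φ : Circle ≃ₜ Circle) (hl : Lift Ψ φ) (B0 : ℝ) (hB0 : 0 ≤ B0)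
    (h : ∀ s0 δ : ℝ, 0 < δ → δ ≤ 1 / 16 →
      (Real.log (Ψ (s0 + 2 * δ) - Ψ s0) - Real.log (Ψ (s0 + δ) - Ψ s0)) +
      (Real.log (Ψ s0 - Ψ (s0 - 2 * δ)) - Real.log (Ψ s0 - Ψ (s0 - δ))) ≤ B0) :
    ∃ B : ℝ, 0 ≤ B ∧ ∀ s0 a b : ℝ, 0 < a → a ≤ b → b ≤ π →
      Real.log (Ψ (s0 + b) - Ψ s0) - Real.log (Ψ (s0 + a) - Ψ s0) ≤ B * (1 + Real.log (b / a)) ∧
      0 ≤ Real.log (Ψ (s0 + b) - Ψ s0) - Real.log (Ψ (s0 + a) - Ψ s0) ∧
      Real.log (Ψ s0 - Ψ (s0 - b)) - Real.log (Ψ s0 - Ψ (s0 - a)) ≤ B * (1 + Real.log (b / a)) ∧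
      0 ≤ Real.log (Ψ s0 - Ψ (s0 - b)) - Real.log (Ψ s0 - Ψ (s0 - a)) := by
  obtain ⟨c, hc0, hc⟩ := qs_low Ψ φ hl
  obtain ⟨hcont, hm, hp, _⟩ := hl
  have hpi := Real.pi_pos
  have hc2 : c ≤ 2 * π := by
    have h1 := hc 0
    have h2 := hp 0
    have h3 : Ψ (0 + 1 / 16) ≤ Ψ (0 + 2 * π) := hm.monotone (by
      have := Real.pi_gt_three
      linarith)
    linarith
  have hB1 : 0 ≤ Real.log (2 * π) - Real.log c := by
    have := Real.log_le_log hc0 hc2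
    linarith
  have fpos : ∀ s0 x, 0 < x → 0 < Ψ (s0 + x) - Ψ s0 := fun s0 x hx =>
    sub_pos.mpr (hm (by linarith))
  have gpos : ∀ s0 x, 0 < x → 0 < Ψ s0 - Ψ (s0 - x) := fun s0 x hx =>
    sub_pos.mpr (hm (by linarith))
  have fmono : ∀ s0 x y, 0 < x → x ≤ y →
      Real.log (Ψ (s0 + x) - Ψ s0) ≤ Real.log (Ψ (s0 + y) - Ψ s0) := fun s0 x y hx hxy =>
    Real.log_le_log (fpos s0 x hx) (by
      have := hm.monotone (show s0 + x ≤ s0 + y by linarith)
      linarith)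
  have gmono : ∀ s0 x y, 0 < x → x ≤ y →
      Real.log (Ψ s0 - Ψ (s0 - x)) ≤ Real.log (Ψ s0 - Ψ (s0 - y)) := fun s0 x y hx hxy =>
    Real.log_le_log (gpos s0 x hx) (by
      have := hm.monotone (show s0 - y ≤ s0 - x by linarith)
      linarith)
  have fdbl : ∀ s0 δ, 0 < δ → δ ≤ 1 / 16 →
      Real.log (Ψ (s0 + 2 * δ) - Ψ s0) - Real.log (Ψ (s0 + δ) - Ψ s0) ≤ B0 := by
    intro s0 δ h1 h2
    have h3 := h s0 δ h1 h2
    have h4 := gmono s0 δ (2 * δ) h1 (by linarith)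
    linarith
  have gdbl : ∀ s0 δ, 0 < δ → δ ≤ 1 / 16 →
      Real.log (Ψ s0 - Ψ (s0 - 2 * δ)) - Real.log (Ψ s0 - Ψ (s0 - δ)) ≤ B0 := by
    intro s0 δ h1 h2
    have h3 := h s0 δ h1 h2
    have h4 := fmono s0 δ (2 * δ) h1 (by linarith)
    linarith
  have fbig : ∀ s0 x y, 1 / 16 ≤ x → x ≤ y → y ≤ π →
      Real.log (Ψ (s0 + y) - Ψ s0) - Real.log (Ψ (s0 + x) - Ψ s0) ≤
        Real.log (2 * π) - Real.log c := by
    intro s0 x y h1 h2 h3
    have hx : 0 < x := by linarith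
    have e1 : Real.log (Ψ (s0 + y) - Ψ s0) ≤ Real.log (2 * π) :=
      Real.log_le_log (fpos s0 y (by linarith)) (by
        have := hm.monotone (show s0 + y ≤ s0 + 2 * π by linarith)
        have := hp s0
        linarith)
    have e2 : Real.log c ≤ Real.log (Ψ (s0 + x) - Ψ s0) :=
      Real.log_le_log hc0 (by
        have := hm.monotone (show s0 + 1 / 16 ≤ s0 + x by linarith)
        have := hc s0
        linarith)
    linarith
  have gbig : ∀ s0 x y, 1 / 16 ≤ x → x ≤ y → y ≤ π →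
      Real.log (Ψ s0 - Ψ (s0 - y)) - Real.log (Ψ s0 - Ψ (s0 - x)) ≤
        Real.log (2 * π) - Real.log c := by
    intro s0 x y h1 h2 h3
    have hx : 0 < x := by linarith
    have e1 : Real.log (Ψ s0 - Ψ (s0 - y)) ≤ Real.log (2 * π) :=
      Real.log_le_log (gpos s0 y (by linarith)) (by
        have := hm.monotone (show s0 - 2 * π ≤ s0 - y by linarith)
        have h5 := hp (s0 - 2 * π)
        rw [sub_add_cancel] at h5
        linarith)
    have e2 : Real.log c ≤ Real.log (Ψ s0 - Ψ (s0 - x)) :=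
      Real.log_le_log hc0 (by
        have := hm.monotone (show s0 - x ≤ s0 - 1 / 16 by linarith)
        have h5 := hc (s0 - 1 / 16)
        rw [sub_add_cancel] at h5
        linarith)
    linarith
  have hl2 : 0 < Real.log 2 := Real.log_pos (by norm_num)
  refine ⟨B0 / Real.log 2 + B0 + (Real.log (2 * π) - Real.log c), by positivity, ?_⟩
  intro s0 a b ha hab hb
  refine ⟨?_, ?_, ?_, ?_⟩
  · exact qs_iter (fun x => Real.log (Ψ (s0 + x) - Ψ s0)) B0 _ hB0 hB1 (fmono s0) (fdbl s0)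
      (fbig s0) a b ha hab hb
  · have := fmono s0 a b ha hab
    linarith
  · exact qs_iter (fun x => Real.log (Ψ s0 - Ψ (s0 - x))) B0 _ hB0 hB1 (gmono s0) (gdbl s0)
      (gbig s0) a b ha hab hb
  · have := gmono s0 a b ha hab
    linarith

lemma Wform (ρ s δ : ℝ) (h1 : 1 - 2 * ρ * Real.cos (s - δ) + ρ ^ 2 ≠ 0)
    (h2 : 1 - 2 * ρ * Real.cos (s + δ) + ρ ^ 2 ≠ 0) :
    (1 - ρ ^ 2) / (1 - 2 * ρ * Real.cos (s - δ) + ρ ^ 2) -
      (1 - ρ ^ 2) / (1 - 2 * ρ * Real.cos (s + δ) + ρ ^ 2) =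
    (1 - ρ ^ 2) * (4 * ρ * Real.sin s * Real.sin δ) /
      ((1 - 2 * ρ * Real.cos (s - δ) + ρ ^ 2) * (1 - 2 * ρ * Real.cos (s + δ) + ρ ^ 2)) := by
  have e : Real.cos (s - δ) - Real.cos (s + δ) = 2 * Real.sin s * Real.sin δ := by
    rw [Real.cos_sub, Real.cos_add]; ring
  rw [div_sub_div _ _ h1 h2]
  congr 1
  linear_combination (1 - ρ ^ 2) * 2 * ρ * e

lemma Dlow (δ x : ℝ) (h0 : 0 < δ) (h1 : δ ≤ 1 / 16) (hx : |x| ≤ π) :
    δ ^ 2 + x ^ 2 / 3 ≤ 1 - 2 * (1 - δ) * Real.cos x + (1 - δ) ^ 2 := by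
  have hc := Real.cos_le_one_sub_mul_cos_sq hx
  have hpi : π ^ 2 < 10 := by
    have := Real.pi_lt_d2
    have h3 := Real.pi_pos
    nlinarith
  have hpp : 0 < π ^ 2 := by positivity
  have h2 : 1 / 5 ≤ 2 / π ^ 2 := by
    rw [div_le_div_iff₀ (by norm_num) hpp]; linarith
  have hx2 : 0 ≤ x ^ 2 := sq_nonneg x
  have h3 : Real.cos x ≤ 1 - 1 / 5 * x ^ 2 := by nlinarith
  nlinarith [mul_nonneg (show (0:ℝ) ≤ 1 - δ by linarith) (show 0 ≤ 1 - 1 / 5 * x ^ 2 - Real.cos x by linarith)]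

lemma D1low (δ s : ℝ) (h0 : 0 < δ) (h1 : δ ≤ 1 / 16) (hs : s ∈ Icc 0 π) :
    (s ^ 2 + δ ^ 2) / 6 ≤ 1 - 2 * (1 - δ) * Real.cos (s - δ) + (1 - δ) ^ 2 := by
  have h3 := Real.pi_gt_three
  have hx : |s - δ| ≤ π := by
    rw [abs_le]; constructor <;> linarith [hs.1, hs.2]
  have := Dlow δ (s - δ) h0 h1 hx
  nlinarith [sq_nonneg (s - 2 * δ)]

lemma D2low (δ s : ℝ) (h0 : 0 < δ) (h1 : δ ≤ 1 / 16) (hs : s ∈ Icc 0 π) :
    (s ^ 2 + δ ^ 2) / 12 ≤ 1 - 2 * (1 - δ) * Real.cos (s + δ) + (1 - δ) ^ 2 := by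
  have h3 := Real.pi_gt_three
  have h4 := Real.pi_lt_d2
  have hs0 := hs.1
  have hs1 := hs.2
  by_cases h : s + δ ≤ π
  · have hx : |s + δ| ≤ π := by
      rw [abs_le]; constructor <;> linarith
    have := Dlow δ (s + δ) h0 h1 hx
    nlinarith [mul_nonneg hs0 h0.le, sq_nonneg s, sq_nonneg δ]
  · push Not at h
    have hc : Real.cos (s + δ) ≤ 0 := by
      apply Real.cos_nonpos_of_pi_div_two_le_of_le <;> linarith
    have hp : 0 ≤ (1 - δ) * (-Real.cos (s + δ)) := mul_nonneg (by linarith) (by linarith)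
    have hs2 : s ^ 2 ≤ 10 := by nlinarith
    have hd2 : δ ^ 2 ≤ 1 := by nlinarith
    nlinarith [sq_nonneg (1 - δ)]

lemma ulog (u : ℝ) (hu : 0 < u) : u * |Real.log u| / (1 + u ^ 2) ^ 2 ≤ 2 / (1 + u ^ 2) := by
  have hp : 0 < 1 + u ^ 2 := by positivity
  rw [div_le_div_iff₀ (by positivity) hp]
  have key : u * |Real.log u| ≤ 1 + u ^ 2 := by
    by_cases h : 1 ≤ u
    · rw [abs_of_nonneg (Real.log_nonneg h)]
      have := Real.log_le_sub_one_of_pos hu
      nlinarith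
    · push Not at h
      rw [abs_of_nonpos (Real.log_nonpos hu.le h.le)]
      have h2 := Real.log_le_sub_one_of_pos (inv_pos.mpr hu)
      rw [Real.log_inv] at h2
      have h3 : u * (-Real.log u) ≤ u * (u⁻¹ - 1) := mul_le_mul_of_nonneg_left h2 hu.le
      have h4 : u * (u⁻¹ - 1) = 1 - u := by field_simp
      nlinarith [sq_nonneg u]
  nlinarith [mul_le_mul_of_nonneg_right key hp.le]

lemma Wup (δ s : ℝ) (h0 : 0 < δ) (h1 : δ ≤ 1 / 16) (hs : s ∈ Icc 0 π) :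
    0 ≤ PP (1 - δ) (s - δ) - PP (1 - δ) (s + δ) ∧
    (PP (1 - δ) (s - δ) - PP (1 - δ) (s + δ)) * |Real.log (s / δ)| ≤
      1152 * (δ / (δ ^ 2 + s ^ 2)) := by
  obtain ⟨hP, -⟩ := PPfacts (1 - δ) (by linarith) (by linarith)
  have hd1 := D1low δ s h0 h1 hs
  have hd2 := D2low δ s h0 h1 hs
  set D1 := 1 - 2 * (1 - δ) * Real.cos (s - δ) + (1 - δ) ^ 2 with hD1
  set D2 := 1 - 2 * (1 - δ) * Real.cos (s + δ) + (1 - δ) ^ 2 with hD2
  have hs0 := hs.1
  have hq : 0 < s ^ 2 + δ ^ 2 := by positivity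
  have hD1p : 0 < D1 := by linarith
  have hD2p : 0 < D2 := by linarith
  have hW : PP (1 - δ) (s - δ) - PP (1 - δ) (s + δ) =
      (1 - (1 - δ) ^ 2) * (4 * (1 - δ) * Real.sin s * Real.sin δ) / (D1 * D2) := by
    rw [hP, hP]
    exact Wform (1 - δ) s δ hD1p.ne' hD2p.ne'
  have h3 := Real.pi_gt_three
  have hsin : 0 ≤ Real.sin s := Real.sin_nonneg_of_mem_Icc hs
  have hsind : 0 ≤ Real.sin δ := Real.sin_nonneg_of_nonneg_of_le_pi h0.le (by linarith)
  have hsl : Real.sin s ≤ s := Real.sin_le hs0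
  have hsld : Real.sin δ ≤ δ := Real.sin_le h0.le
  have hr1 : 0 ≤ 1 - (1 - δ) ^ 2 := by nlinarith
  have hr2 : 1 - (1 - δ) ^ 2 ≤ 2 * δ := by nlinarith
  have hnum0 : 0 ≤ (1 - (1 - δ) ^ 2) * (4 * (1 - δ) * Real.sin s * Real.sin δ) := by
    have : 0 ≤ 1 - δ := by linarith
    positivity
  have hnum : (1 - (1 - δ) ^ 2) * (4 * (1 - δ) * Real.sin s * Real.sin δ) ≤ 8 * δ ^ 2 * s := by
    have e1 : 4 * (1 - δ) * Real.sin s * Real.sin δ ≤ 4 * 1 * s * δ := by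
      have : 0 ≤ 1 - δ := by linarith
      gcongr
      linarith
    calc (1 - (1 - δ) ^ 2) * (4 * (1 - δ) * Real.sin s * Real.sin δ)
        ≤ (2 * δ) * (4 * 1 * s * δ) := by
          apply mul_le_mul hr2 e1 _ (by positivity)
          have : 0 ≤ 1 - δ := by linarith
          positivity
      _ = 8 * δ ^ 2 * s := by ring
  refine ⟨by rw [hW]; positivity, ?_⟩
  rw [hW]
  rcases eq_or_lt_of_le hs0 with h | h
  · rw [← h]
    simp
    positivity
  · have hDD : (s ^ 2 + δ ^ 2) ^ 2 / 72 ≤ D1 * D2 := by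
      calc (s ^ 2 + δ ^ 2) ^ 2 / 72 = ((s ^ 2 + δ ^ 2) / 6) * ((s ^ 2 + δ ^ 2) / 12) := by ring
        _ ≤ D1 * D2 := by
          apply mul_le_mul hd1 hd2 (by positivity) hD1p.le
    have hb : (1 - (1 - δ) ^ 2) * (4 * (1 - δ) * Real.sin s * Real.sin δ) / (D1 * D2) ≤
        (8 * δ ^ 2 * s) / ((s ^ 2 + δ ^ 2) ^ 2 / 72) := by
      apply div_le_div₀ (by positivity) hnum (by positivity) hDD
    have hu := ulog (s / δ) (by positivity)
    calc (1 - (1 - δ) ^ 2) * (4 * (1 - δ) * Real.sin s * Real.sin δ) / (D1 * D2) *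
          |Real.log (s / δ)|
        ≤ (8 * δ ^ 2 * s) / ((s ^ 2 + δ ^ 2) ^ 2 / 72) * |Real.log (s / δ)| :=
          mul_le_mul_of_nonneg_right hb (abs_nonneg _)
      _ = 576 / δ * (s / δ * |Real.log (s / δ)| / (1 + (s / δ) ^ 2) ^ 2) := by
          field_simp
          ring
      _ ≤ 576 / δ * (2 / (1 + (s / δ) ^ 2)) :=
          mul_le_mul_of_nonneg_left hu (by positivity)
      _ = 1152 * (δ / (δ ^ 2 + s ^ 2)) := by
          field_simp
          ring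

lemma Gint (δ : ℝ) (h0 : 0 < δ) :
    ∫ s in (0:ℝ)..π, 1152 * (δ / (δ ^ 2 + s ^ 2)) ≤ 1152 * π := by
  have hcont : Continuous (fun s : ℝ => 1152 * (δ / (δ ^ 2 + s ^ 2))) := by
    apply continuous_const.mul
    apply continuous_const.div (by fun_prop)
    intro x
    positivity
  have hder : ∀ x : ℝ, HasDerivAt (fun s : ℝ => 1152 * Real.arctan (s / δ))
      (1152 * (δ / (δ ^ 2 + x ^ 2))) x := by
    intro x
    have h1 := ((Real.hasDerivAt_arctan (x / δ)).comp x ((hasDerivAt_id x).div_const δ)).const_mul 1152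
    refine h1.congr_deriv ?_
    field_simp
  rw [intervalIntegral.integral_eq_sub_of_hasDerivAt (fun x _ => hder x)
    (hcont.intervalIntegrable _ _)]
  have h1 := Real.arctan_lt_pi_div_two (π / δ)
  simp only [zero_div, Real.arctan_zero, mul_zero, sub_zero]
  nlinarith [Real.pi_pos]

lemma Wlow (δ : ℝ) (h0 : 0 < δ) (h1 : δ ≤ 1 / 16) :
    1 ≤ ∫ s in (0:ℝ)..π, (PP (1 - δ) (s - δ) - PP (1 - δ) (s + δ)) := by
  obtain ⟨hP, -, -, hlow, hcont, -⟩ := PPfacts (1 - δ) (by linarith) (by linarith)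
  have hI : ∀ a b : ℝ, IntervalIntegrable (PP (1 - δ)) volume a b :=
    fun a b => hcont.intervalIntegrable a b
  have h3 := Real.pi_gt_three
  have i1 : IntervalIntegrable (fun s : ℝ => PP (1 - δ) (s - δ)) volume 0 π :=
    (hcont.comp (continuous_id.sub continuous_const)).intervalIntegrable _ _
  have i2 : IntervalIntegrable (fun s : ℝ => PP (1 - δ) (s + δ)) volume 0 π :=
    (hcont.comp (continuous_id.add continuous_const)).intervalIntegrable _ _
  rw [intervalIntegral.integral_sub i1 i2]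
  rw [intervalIntegral.integral_comp_sub_right (PP (1 - δ)) δ,
    intervalIntegral.integral_comp_add_right (PP (1 - δ)) δ]
  have e1 := intervalIntegral.integral_add_adjacent_intervals (hI (0 - δ) δ) (hI δ (π - δ))
  have e2 := intervalIntegral.integral_add_adjacent_intervals (hI (0 + δ) (π - δ))
    (hI (π - δ) (π + δ))
  rw [← e1, ← e2]
  have e3 : (∫ x in (0 + δ)..(π - δ), PP (1 - δ) x) = ∫ x in δ..(π - δ), PP (1 - δ) x := by
    rw [zero_add]
  rw [e3]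
  have f1 : (2 - δ) ≤ ∫ x in (0 - δ)..δ, PP (1 - δ) x := by
    have := intervalIntegral.integral_mono_on (μ := volume) (a := 0 - δ) (b := δ) (by linarith)
      (f := fun _ => (2 - δ) / (2 * δ)) (g := PP (1 - δ))
      intervalIntegrable_const (hI _ _) (by
        intro x hx
        refine le_trans ?_ (hlow x)
        have hx2 : x ^ 2 ≤ δ ^ 2 := by
          have := hx.1; have := hx.2
          nlinarith
        rw [div_le_div_iff₀ (by positivity) (by nlinarith [sq_nonneg x])]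
        nlinarith [mul_nonneg (show (0:ℝ) ≤ 2 - δ by linarith) (sub_nonneg.mpr hx2)])
    rw [intervalIntegral.integral_const, smul_eq_mul] at this
    have h5 : (δ - (0 - δ)) * ((2 - δ) / (2 * δ)) = 2 - δ := by field_simp; ring
    linarith
  have f2 : (∫ x in (π - δ)..(π + δ), PP (1 - δ) x) ≤ 4 * δ ^ 2 := by
    have := intervalIntegral.integral_mono_on (μ := volume) (a := π - δ) (b := π + δ) (by linarith)
      (f := PP (1 - δ)) (g := fun _ => 2 * δ)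
      (hI _ _) intervalIntegrable_const (by
        intro x hx
        rw [hP]
        have hc : Real.cos x ≤ 0 := by
          apply Real.cos_nonpos_of_pi_div_two_le_of_le <;> linarith [hx.1, hx.2]
        have hp : 0 ≤ (1 - δ) * (-Real.cos x) := mul_nonneg (by linarith) (by linarith)
        have hD : 1 ≤ 1 - 2 * (1 - δ) * Real.cos x + (1 - δ) ^ 2 := by
          nlinarith [sq_nonneg (1 - δ)]
        rw [div_le_iff₀ (by linarith)]
        nlinarith)
    rw [intervalIntegral.integral_const, smul_eq_mul] at this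
    have h5 : (π + δ - (π - δ)) * (2 * δ) = 4 * δ ^ 2 := by ring
    linarith
  nlinarith


lemma Wfacts : ∃ c C : ℝ, 0 < c ∧ 0 ≤ C ∧ ∀ δ : ℝ, 0 < δ → δ ≤ 1 / 16 →
    (∀ s ∈ Icc 0 π, 0 ≤ PP (1 - δ) (s - δ) - PP (1 - δ) (s + δ)) ∧
    c ≤ (∫ s in (0:ℝ)..π, (PP (1 - δ) (s - δ) - PP (1 - δ) (s + δ))) ∧
    IntervalIntegrable (fun s => (PP (1 - δ) (s - δ) - PP (1 - δ) (s + δ)) * |Real.log (s / δ)|) volume 0 π ∧
    (∫ s in (0:ℝ)..π, (PP (1 - δ) (s - δ) - PP (1 - δ) (s + δ)) * |Real.log (s / δ)|) ≤ C := by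
  refine ⟨1, 1152 * π, one_pos, by positivity, fun δ h0 h1 => ?_⟩
  have hcG : Continuous (fun s : ℝ => 1152 * (δ / (δ ^ 2 + s ^ 2))) := by
    apply continuous_const.mul
    apply continuous_const.div (by fun_prop)
    intro x
    positivity
  obtain ⟨hP, -, -, hlow, hcont, -⟩ := PPfacts (1 - δ) (by linarith) (by linarith)
  have hint : IntervalIntegrable (fun s => (PP (1 - δ) (s - δ) - PP (1 - δ) (s + δ)) *
      |Real.log (s / δ)|) volume 0 π := by
    refine IntervalIntegrable.mono_fun' (hcG.intervalIntegrable 0 π) ?_ ?_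
    · refine Measurable.aestronglyMeasurable ?_
      have m1 : Measurable (fun s : ℝ => PP (1 - δ) (s - δ)) :=
        (hcont.comp (continuous_id.sub continuous_const)).measurable
      have m2 : Measurable (fun s : ℝ => PP (1 - δ) (s + δ)) :=
        (hcont.comp (continuous_id.add continuous_const)).measurable
      have m3 : Measurable (fun s : ℝ => |Real.log (s / δ)|) := by
        have : Measurable (fun s : ℝ => Real.log (s / δ)) :=
          Real.measurable_log.comp (measurable_id.div_const δ)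
        exact this.abs
      exact (m1.sub m2).mul m3
    · rw [Filter.EventuallyLE, ae_restrict_iff' measurableSet_uIoc]
      refine Filter.Eventually.of_forall fun s hs => ?_
      rw [uIoc_of_le Real.pi_pos.le] at hs
      have h := Wup δ s h0 h1 ⟨hs.1.le, hs.2⟩
      rw [Real.norm_eq_abs, abs_of_nonneg (mul_nonneg h.1 (abs_nonneg _))]
      exact h.2
  refine ⟨fun s hs => (Wup δ s h0 h1 hs).1, Wlow δ h0 h1, hint, ?_⟩
  refine le_trans (intervalIntegral.integral_mono_on Real.pi_pos.le hint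
    (hcG.intervalIntegrable 0 π) (fun s hs => (Wup δ s h0 h1 hs).2)) (Gint δ h0)

lemma QS4 (Ψ : ℝ → ℝ) (φ : Circle ≃ₜ Circle) (hl : Lift Ψ φ) (C : ℝ) (h : Cond φ C) :
    ∃ B : ℝ, 0 ≤ B ∧ ∀ s0 δ : ℝ, 0 < δ → δ ≤ 1 / 16 →
      |Real.log (Ψ (s0 + δ) - Ψ s0) - Real.log (Ψ s0 - Ψ (s0 - δ))| ≤ B := by
  obtain ⟨A, hA, hQ2⟩ := QS2 Ψ φ hl C h
  obtain ⟨B, hB, hell⟩ := ellG Ψ φ hl
  obtain ⟨B0, hB0, hQ3⟩ := QS3 Ψ φ hl C h
  obtain ⟨B', hB', hQ3b⟩ := QS3b Ψ φ hl B0 hB0 hQ3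
  obtain ⟨c, C', hc, hC', hW⟩ := Wfacts
  have hpi := Real.pi_pos
  refine ⟨(A + (2 * B + 2 * B') * (2 * π) + 2 * B' * C') / c, by positivity,
    fun s0 δ hδ hδ1 => ?_⟩
  obtain ⟨hW0, hWc, hWi, hWC⟩ := hW δ hδ hδ1
  obtain ⟨hei, he⟩ := hQ2 s0
  have hρ0 : (1:ℝ) / 2 ≤ 1 - δ := by linarith
  have hρ1 : 1 - δ < 1 := by linarith
  obtain ⟨_, hPpos, _, _, hPcont, hPeven, _, hPint, _⟩ := PPfacts (1 - δ) hρ0 hρ1
  have habs : |δ - (-δ)| ≤ 8 * (1 - (1 - δ)) := by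
    rw [abs_of_pos (by linarith)]; linarith
  have hmain := he (1 - δ) (1 - δ) δ (-δ)
    ⟨hρ0, hρ1, hρ0, hρ1, by linarith, by linarith, habs, habs⟩
  set w : ℝ → ℝ := fun s => PP (1 - δ) (s - δ) - PP (1 - δ) (s + δ) with hw
  have hwc : Continuous w := (hPcont.comp (continuous_id.sub continuous_const)).sub
    (hPcont.comp (continuous_id.add continuous_const))
  have hwodd : ∀ s, w (-s) = - w s := by
    intro s
    simp only [hw]
    rw [show -s - δ = -(s + δ) by ring, show -s + δ = -(s - δ) by ring, hPeven, hPeven]; ring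
  have hwe : IntervalIntegrable (fun s => w s * ell Ψ s0 s) volume (-π) π :=
    hei.continuousOn_mul hwc.continuousOn
  have hmain' : |∫ s in (-π)..π, w s * ell Ψ s0 s| ≤ A := by
    have e1 : (fun s => w s * ell Ψ s0 s) =
        fun s => (PP (1 - δ) (s - δ) - PP (1 - δ) (s - -δ)) * ell Ψ s0 s := by
      funext s; simp only [hw, sub_neg_eq_add]
    rw [e1]; exact hmain
  have hsub1 : uIcc (-π) 0 ⊆ uIcc (-π) π := by
    rw [uIcc_of_le (by linarith), uIcc_of_le (by linarith)]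
    exact Icc_subset_Icc le_rfl hpi.le
  have hsub2 : uIcc 0 π ⊆ uIcc (-π) π := by
    rw [uIcc_of_le hpi.le, uIcc_of_le (by linarith)]
    exact Icc_subset_Icc (by linarith) le_rfl
  have hI0 : IntervalIntegrable (fun s => w s * ell Ψ s0 s) volume (-π) 0 := hwe.mono_set hsub1
  have hI1 : IntervalIntegrable (fun s => w s * ell Ψ s0 s) volume 0 π := hwe.mono_set hsub2
  have hI2 : IntervalIntegrable (fun s => w (-s) * ell Ψ s0 (-s)) volume 0 π := by
    have h1 := (IntervalIntegrable.iff_comp_neg).mp hI0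
    simp only [neg_neg, neg_zero] at h1
    exact h1.symm
  have hsplit : (∫ s in (-π)..π, w s * ell Ψ s0 s) =
      ∫ s in (0:ℝ)..π, w s * (ell Ψ s0 s - ell Ψ s0 (-s)) := by
    rw [← intervalIntegral.integral_add_adjacent_intervals hI0 hI1]
    have h1 : (∫ s in (-π)..0, w s * ell Ψ s0 s) =
        ∫ s in (0:ℝ)..π, w (-s) * ell Ψ s0 (-s) := by
      rw [intervalIntegral.integral_comp_neg (fun s => w s * ell Ψ s0 s)]
      simp
    rw [h1, ← intervalIntegral.integral_add hI2 hI1]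
    congr 1
    funext s
    rw [hwodd]; ring
  set K : ℝ := Real.log (Ψ (s0 + δ) - Ψ s0) - Real.log (Ψ s0 - Ψ (s0 - δ)) with hK
  have hwi : IntervalIntegrable w volume 0 π := hwc.intervalIntegrable 0 π
  have hI3 : IntervalIntegrable (fun s => w s * (ell Ψ s0 s - ell Ψ s0 (-s))) volume 0 π := by
    have h1 := hI1.add hI2
    have e1 : (fun s => w s * (ell Ψ s0 s - ell Ψ s0 (-s))) =
        (fun s => w s * ell Ψ s0 s) + fun s => w (-s) * ell Ψ s0 (-s) := by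
      funext s
      simp only [Pi.add_apply]
      rw [hwodd]; ring
    rw [e1]; exact h1
  have hcomb : (∫ s in (0:ℝ)..π, w s * (ell Ψ s0 s - ell Ψ s0 (-s))) + K * ∫ s in (0:ℝ)..π, w s =
      ∫ s in (0:ℝ)..π, w s * (ell Ψ s0 s - ell Ψ s0 (-s) + K) := by
    rw [← intervalIntegral.integral_const_mul,
      ← intervalIntegral.integral_add hI3 (hwi.const_mul K)]
    congr 1
    funext s; ring
  have hpt : ∀ s, 0 < s → s ≤ π → |ell Ψ s0 s - ell Ψ s0 (-s) + K| ≤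
      (2 * B + 2 * B') + 2 * B' * |Real.log (s / δ)| := by
    intro s hs0 hsπ
    obtain ⟨h1, h2⟩ := hell s0 s hs0 hsπ
    have hδπ : δ ≤ π := by linarith [Real.pi_gt_three]
    rcases le_or_gt δ s with h3 | h3
    · obtain ⟨q1, q2, q3, q4⟩ := hQ3b s0 δ s hδ h3 hsπ
      have hlog : 0 ≤ Real.log (s / δ) := Real.log_nonneg ((one_le_div hδ).mpr h3)
      rw [abs_of_nonneg hlog]
      rw [abs_le] at h1 h2 ⊢
      constructor <;> nlinarith [h1.1, h1.2, h2.1, h2.2, mul_nonneg hB' hlog]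
    · obtain ⟨q1, q2, q3, q4⟩ := hQ3b s0 s δ hs0 h3.le hδπ
      have hlog : Real.log (s / δ) = - Real.log (δ / s) := by
        rw [← Real.log_inv, inv_div]
      have hlog2 : 0 ≤ Real.log (δ / s) := Real.log_nonneg ((one_le_div hs0).mpr h3.le)
      rw [hlog, abs_neg, abs_of_nonneg hlog2]
      rw [abs_le] at h1 h2 ⊢
      constructor <;> nlinarith [h1.1, h1.2, h2.1, h2.2, mul_nonneg hB' hlog2]
  have hgi : IntervalIntegrable (fun s => (2 * B + 2 * B') * w s +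
      2 * B' * (w s * |Real.log (s / δ)|)) volume 0 π :=
    (hwi.const_mul _).add (hWi.const_mul _)
  have hest : |∫ s in (0:ℝ)..π, w s * (ell Ψ s0 s - ell Ψ s0 (-s) + K)| ≤
      ∫ s in (0:ℝ)..π, ((2 * B + 2 * B') * w s + 2 * B' * (w s * |Real.log (s / δ)|)) := by
    rw [← Real.norm_eq_abs]
    refine intervalIntegral.norm_integral_le_of_norm_le hpi.le ?_ hgi
    refine Filter.Eventually.of_forall fun s hs => ?_
    have hws : 0 ≤ w s := hW0 s ⟨hs.1.le, hs.2⟩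
    rw [Real.norm_eq_abs, abs_mul, abs_of_nonneg hws]
    calc w s * |ell Ψ s0 s - ell Ψ s0 (-s) + K|
        ≤ w s * ((2 * B + 2 * B') + 2 * B' * |Real.log (s / δ)|) :=
          mul_le_mul_of_nonneg_left (hpt s hs.1 hs.2) hws
      _ = _ := by ring
  have hgint : (∫ s in (0:ℝ)..π, ((2 * B + 2 * B') * w s + 2 * B' * (w s * |Real.log (s / δ)|))) =
      (2 * B + 2 * B') * (∫ s in (0:ℝ)..π, w s) +
        2 * B' * ∫ s in (0:ℝ)..π, w s * |Real.log (s / δ)| := by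
    rw [intervalIntegral.integral_add (hwi.const_mul _) (hWi.const_mul _),
      intervalIntegral.integral_const_mul, intervalIntegral.integral_const_mul]
  have hW2π : (∫ s in (0:ℝ)..π, w s) ≤ 2 * π := by
    have hPi : ∀ a b : ℝ, IntervalIntegrable (fun s => PP (1 - δ) (s - δ)) volume a b := fun a b =>
      (hPcont.comp (continuous_id.sub continuous_const)).intervalIntegrable a b
    calc (∫ s in (0:ℝ)..π, w s) ≤ ∫ s in (0:ℝ)..π, PP (1 - δ) (s - δ) := by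
          apply intervalIntegral.integral_mono_on hpi.le hwi (hPi _ _)
          intro s _
          have := hPpos (s + δ)
          simp only [hw]; linarith
      _ ≤ (∫ s in (-π)..0, PP (1 - δ) (s - δ)) + ∫ s in (0:ℝ)..π, PP (1 - δ) (s - δ) := by
          have : 0 ≤ ∫ s in (-π)..0, PP (1 - δ) (s - δ) :=
            intervalIntegral.integral_nonneg (by linarith) (fun s _ => (hPpos _).le)
          linarith
      _ = ∫ s in (-π)..π, PP (1 - δ) (s - δ) :=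
          intervalIntegral.integral_add_adjacent_intervals (hPi _ _) (hPi _ _)
      _ = 2 * π := hPint δ
  rw [hgint] at hest
  rw [← hcomb, ← hsplit] at hest
  have hWpos : 0 < ∫ s in (0:ℝ)..π, w s := lt_of_lt_of_le hc hWc
  have h1 : |K * ∫ s in (0:ℝ)..π, w s| ≤ A + (2 * B + 2 * B') * (2 * π) + 2 * B' * C' := by
    have e2 : K * (∫ s in (0:ℝ)..π, w s) =
        ((∫ s in (-π)..π, w s * ell Ψ s0 s) + K * ∫ s in (0:ℝ)..π, w s) +
        (-(∫ s in (-π)..π, w s * ell Ψ s0 s)) := by ring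
    rw [e2]
    have h3 := abs_add_le ((∫ s in (-π)..π, w s * ell Ψ s0 s) + K * ∫ s in (0:ℝ)..π, w s)
      (-(∫ s in (-π)..π, w s * ell Ψ s0 s))
    rw [abs_neg] at h3
    have h4 : (2 * B + 2 * B') * (∫ s in (0:ℝ)..π, w s) ≤ (2 * B + 2 * B') * (2 * π) :=
      mul_le_mul_of_nonneg_left hW2π (by positivity)
    have h5 : 2 * B' * (∫ s in (0:ℝ)..π, w s * |Real.log (s / δ)|) ≤ 2 * B' * C' :=
      mul_le_mul_of_nonneg_left hWC (by positivity)
    linarith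
  rw [abs_mul, abs_of_pos hWpos] at h1
  rw [le_div_iff₀ hc]
  calc |K| * c ≤ |K| * ∫ s in (0:ℝ)..π, w s := mul_le_mul_of_nonneg_left hWc (abs_nonneg _)
    _ ≤ _ := h1

lemma QS5_int (Ψ : ℝ → ℝ) (hp : ∀ t, Ψ (t + 2 * π) = Ψ t + 2 * π) (t : ℝ) (n : ℤ) :
    Ψ (t + n * (2 * π)) = Ψ t + n * (2 * π) := by
  have hnat : ∀ (k : ℕ) (t : ℝ), Ψ (t + k * (2 * π)) = Ψ t + k * (2 * π) := by
    intro k
    induction k with
    | zero => simp
    | succ k ih =>
      intro t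
      have e : t + ((k + 1 : ℕ) : ℝ) * (2 * π) = (t + k * (2 * π)) + 2 * π := by
        push_cast
        ring
      rw [e, hp, ih]
      push_cast
      ring
  rcases Int.le_total 0 n with h | h
  · obtain ⟨k, rfl⟩ := Int.eq_ofNat_of_zero_le h
    exact_mod_cast hnat k t
  · obtain ⟨k, hk⟩ := Int.eq_ofNat_of_zero_le (Int.neg_nonneg_of_nonpos h)
    have hn : n = -(k : ℤ) := by omega
    subst hn
    have h1 := hnat k (t + ((-(k : ℤ) : ℤ) : ℝ) * (2 * π))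
    have e : t + ((-(k : ℤ) : ℤ) : ℝ) * (2 * π) + k * (2 * π) = t := by
      push_cast
      ring
    rw [e] at h1
    rw [h1]
    push_cast
    ring

lemma QS5_min (Ψ : ℝ → ℝ) (hc : Continuous Ψ) (hm : StrictMono Ψ)
    (hp : ∀ t, Ψ (t + 2 * π) = Ψ t + 2 * π) :
    ∃ m : ℝ, 0 < m ∧ ∀ s, m ≤ Ψ (s + 1 / 16) - Ψ s := by
  have hpi : 0 < 2 * π := by positivity
  have hcont : Continuous (fun s => Ψ (s + 1 / 16) - Ψ s) := by fun_prop
  obtain ⟨x, hx, hmin⟩ := isCompact_Icc.exists_isMinOn (Set.nonempty_Icc.2 hpi.le)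
    (hcont.continuousOn (s := Icc 0 (2 * π)))
  refine ⟨Ψ (x + 1 / 16) - Ψ x, sub_pos.2 (hm (by linarith)), ?_⟩
  intro s
  set n : ℤ := ⌊s / (2 * π)⌋ with hn
  have h1 : (n : ℝ) ≤ s / (2 * π) := Int.floor_le _
  have h2 : s / (2 * π) < n + 1 := Int.lt_floor_add_one _
  rw [le_div_iff₀ hpi] at h1
  rw [div_lt_iff₀ hpi] at h2
  have h3 : s - n * (2 * π) ∈ Icc 0 (2 * π) := ⟨by linarith, by linarith⟩
  have h4 := hmin h3
  have e1 := QS5_int Ψ hp (s - n * (2 * π)) n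
  have e2 := QS5_int Ψ hp (s - n * (2 * π) + 1 / 16) n
  have e3 : s - n * (2 * π) + n * (2 * π) = s := by ring
  have e4 : s - n * (2 * π) + 1 / 16 + n * (2 * π) = s + 1 / 16 := by ring
  rw [e3] at e1
  rw [e4] at e2
  have h5 : Ψ (x + 1 / 16) - Ψ x ≤ Ψ (s - n * (2 * π) + 1 / 16) - Ψ (s - n * (2 * π)) := h4
  linarith

lemma QS5_chord (a b : ℝ) : ‖(Circle.exp a : ℂ) - Circle.exp b‖ = 2 * |Real.sin ((a - b) / 2)| := by
  have h1 : (Circle.exp a : ℂ) - Circle.exp b =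
      (Circle.exp b : ℂ) * (exp (I * ((a - b : ℝ) : ℂ)) - 1) := by
    rw [Circle.coe_exp, Circle.coe_exp, mul_sub, ← Complex.exp_add, mul_one]
    congr 2
    push_cast
    ring
  rw [h1, norm_mul, Circle.norm_coe, one_mul, Complex.norm_exp_I_mul_ofReal_sub_one,
    Real.norm_eq_abs, abs_mul, abs_of_pos (by norm_num : (0 : ℝ) < 2)]

lemma QS5_exp {X Z B : ℝ} (hX : 0 < X) (hZ : 0 < Z) (h : |-Real.log Z + Real.log X| ≤ B) :
    Real.exp (-B) * X ≤ Z ∧ Z ≤ Real.exp B * X := by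
  obtain ⟨h1, h2⟩ := abs_le.1 h
  constructor
  · rw [← Real.exp_log hX, ← Real.exp_add, ← Real.exp_log hZ, Real.exp_le_exp]
    linarith
  · rw [← Real.exp_log hX, ← Real.exp_add, ← Real.exp_log hZ, Real.exp_le_exp]
    linarith

lemma QS5_pos (Ψ : ℝ → ℝ) (hm : StrictMono Ψ) (hp : ∀ t, Ψ (t + 2 * π) = Ψ t + 2 * π)
    (a b : ℝ) (hab : a < b) (hb : b ≤ a + π) : 0 < Real.sin ((Ψ b - Ψ a) / 2) := by
  have h1 : Ψ a < Ψ b := hm hab
  have h2 : Ψ b < Ψ a + 2 * π := by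
    rw [← hp]
    exact hm (by linarith [Real.pi_pos])
  exact Real.sin_pos_of_pos_of_lt_pi (by linarith) (by linarith)

lemma QS5_core (Ψ : ℝ → ℝ) (φ : Circle ≃ₜ Circle) (hl : Lift Ψ φ) (B : ℝ)
    (h : ∀ s0 δ : ℝ, 0 < δ → δ ≤ 1 / 16 →
      |Real.log (Ψ (s0 + δ) - Ψ s0) - Real.log (Ψ s0 - Ψ (s0 - δ))| ≤ B) :
    ∃ K : ℝ, 0 ≤ K ∧ ∀ s δ : ℝ, 0 < δ → δ ≤ π →
      |Real.sin ((Ψ (s + δ) - Ψ s) / 2)| ≤ K * |Real.sin ((Ψ (s - δ) - Ψ s) / 2)| ∧
      |Real.sin ((Ψ (s - δ) - Ψ s) / 2)| ≤ K * |Real.sin ((Ψ (s + δ) - Ψ s) / 2)| := by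
  obtain ⟨B1, hB1, hG⟩ := ellG Ψ φ hl
  obtain ⟨hc, hm, hp, -⟩ := hl
  obtain ⟨m, hm0, hmin⟩ := QS5_min Ψ hc hm hp
  refine ⟨Real.exp B1 * Real.exp B * Real.exp B1 + Real.exp B1 / m, by positivity, ?_⟩
  intro s δ hδ hδπ
  have hX : 0 < Ψ (s + δ) - Ψ s := sub_pos.2 (hm (by linarith))
  have hY : 0 < Ψ s - Ψ (s - δ) := sub_pos.2 (hm (by linarith))
  have p1 : 0 < |Real.sin ((Ψ (s + δ) - Ψ s) / 2)| :=
    abs_pos.2 (QS5_pos Ψ hm hp s (s + δ) (by linarith) (by linarith)).ne'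
  have p2 : 0 < |Real.sin ((Ψ (s - δ) - Ψ s) / 2)| := by
    have h1 := QS5_pos Ψ hm hp (s - δ) s (by linarith) (by linarith)
    have e : (Ψ (s - δ) - Ψ s) / 2 = -((Ψ s - Ψ (s - δ)) / 2) := by ring
    rw [e, Real.sin_neg, abs_neg]
    exact abs_pos.2 h1.ne'
  obtain ⟨g1, g2⟩ := hG s δ hδ hδπ
  have g2' : |-Real.log |Real.sin ((Ψ (s - δ) - Ψ s) / 2)| + Real.log (Ψ s - Ψ (s - δ))| ≤ B1 := by
    have e : s + -δ = s - δ := by ring
    unfold ell at g2
    rw [e] at g2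
    exact g2
  obtain ⟨a1, a2⟩ := QS5_exp hX p1 g1
  obtain ⟨b1, b2⟩ := QS5_exp hY p2 g2'
  set X := Ψ (s + δ) - Ψ s with hXd
  set Y := Ψ s - Ψ (s - δ) with hYd
  set P := |Real.sin (X / 2)| with hP
  set Q := |Real.sin ((Ψ (s - δ) - Ψ s) / 2)| with hQ
  have eB : Real.exp B1 * Real.exp (-B1) = 1 := by
    rw [← Real.exp_add]
    simp
  have b1' : Y ≤ Real.exp B1 * Q := by
    have := mul_le_mul_of_nonneg_left b1 (Real.exp_pos B1).le
    rw [← mul_assoc, eB, one_mul] at this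
    exact this
  have a1' : X ≤ Real.exp B1 * P := by
    have := mul_le_mul_of_nonneg_left a1 (Real.exp_pos B1).le
    rw [← mul_assoc, eB, one_mul] at this
    exact this
  by_cases hd : δ ≤ 1 / 16
  · have h1 := h s δ hδ hd
    have h2 : |-Real.log X + Real.log Y| ≤ B := by
      rw [abs_sub_comm] at h1
      have e : -Real.log X + Real.log Y = Real.log Y - Real.log X := by ring
      rw [e]
      exact h1
    have h3 : |-Real.log Y + Real.log X| ≤ B := by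
      have e : -Real.log Y + Real.log X = -(-Real.log X + Real.log Y) := by ring
      rw [e, abs_neg]
      exact h2
    have c1 := (QS5_exp hY hX h2).2
    have c2 := (QS5_exp hX hY h3).2
    constructor
    · calc P ≤ Real.exp B1 * X := a2
        _ ≤ Real.exp B1 * (Real.exp B * Y) := by gcongr
        _ ≤ Real.exp B1 * (Real.exp B * (Real.exp B1 * Q)) := by gcongr
        _ = Real.exp B1 * Real.exp B * Real.exp B1 * Q := by ring
        _ ≤ _ := by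
            apply mul_le_mul_of_nonneg_right _ p2.le
            have : 0 ≤ Real.exp B1 / m := by positivity
            linarith
    · calc Q ≤ Real.exp B1 * Y := b2
        _ ≤ Real.exp B1 * (Real.exp B * X) := by gcongr
        _ ≤ Real.exp B1 * (Real.exp B * (Real.exp B1 * P)) := by gcongr
        _ = Real.exp B1 * Real.exp B * Real.exp B1 * P := by ring
        _ ≤ _ := by
            apply mul_le_mul_of_nonneg_right _ p1.le
            have : 0 ≤ Real.exp B1 / m := by positivity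
            linarith
  · have hd' : 1 / 16 < δ := not_le.1 hd
    have hmX : m ≤ X := by
      have h1 := hmin s
      have h2 : Ψ (s + 1 / 16) ≤ Ψ (s + δ) := hm.monotone (by linarith)
      linarith
    have hmY : m ≤ Y := by
      have h1 := hmin (s - 1 / 16)
      have e : s - 1 / 16 + 1 / 16 = s := by ring
      rw [e] at h1
      have h2 : Ψ (s - δ) ≤ Ψ (s - 1 / 16) := hm.monotone (by linarith)
      linarith
    have hP1 : P ≤ 1 := Real.abs_sin_le_one _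
    have hQ1 : Q ≤ 1 := Real.abs_sin_le_one _
    have key : ∀ Z W : ℝ, 0 < Z → W ≤ 1 → m ≤ Real.exp B1 * Z →
        W ≤ (Real.exp B1 * Real.exp B * Real.exp B1 + Real.exp B1 / m) * Z := by
      intro Z W hZ hW hmZ
      have h1 : 1 ≤ Real.exp B1 / m * Z := by
        rw [div_mul_eq_mul_div, le_div_iff₀ hm0, one_mul]
        exact hmZ
      have h2 : 0 ≤ Real.exp B1 * Real.exp B * Real.exp B1 * Z := by positivity
      rw [add_mul]
      linarith
    exact ⟨key Q P p2 hP1 (hmY.trans b1'), key P Q p1 hQ1 (hmX.trans a1')⟩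


lemma QS5 (Ψ : ℝ → ℝ) (φ : Circle ≃ₜ Circle) (hl : Lift Ψ φ) (B : ℝ) (hB : 0 ≤ B)
    (h : ∀ s0 δ : ℝ, 0 < δ → δ ≤ 1 / 16 →
      |Real.log (Ψ (s0 + δ) - Ψ s0) - Real.log (Ψ s0 - Ψ (s0 - δ))| ≤ B) :
    ∃ K : ℝ, ∀ s δ : ℝ, ‖(φ (Circle.exp (s + δ)) : ℂ) - φ (Circle.exp s)‖ ≤
      K * ‖(φ (Circle.exp (s - δ)) : ℂ) - φ (Circle.exp s)‖ := by
  obtain ⟨K, hK0, hK⟩ := QS5_core Ψ φ hl B h
  obtain ⟨hc, hm, hp, hφ⟩ := hl
  refine ⟨K, ?_⟩
  have main : ∀ s δ : ℝ, -π ≤ δ → δ ≤ π → ‖(φ (Circle.exp (s + δ)) : ℂ) - φ (Circle.exp s)‖ ≤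
      K * ‖(φ (Circle.exp (s - δ)) : ℂ) - φ (Circle.exp s)‖ := by
    intro s δ h1 h2
    rw [hφ, hφ, hφ, QS5_chord, QS5_chord]
    rcases lt_trichotomy δ 0 with hδ | hδ | hδ
    · have h3 := (hK s (-δ) (by linarith) (by linarith)).2
      have e1 : s - -δ = s + δ := by ring
      have e2 : s + -δ = s - δ := by ring
      rw [e1, e2] at h3
      linarith
    · subst hδ
      simp
    · have h3 := (hK s δ hδ h2).1
      linarith
  intro s δ
  have hpi : 0 < 2 * π := by positivity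
  set n : ℤ := ⌊(δ + π) / (2 * π)⌋ with hn
  have h1 : (n : ℝ) ≤ (δ + π) / (2 * π) := Int.floor_le _
  have h2 : (δ + π) / (2 * π) < n + 1 := Int.lt_floor_add_one _
  rw [le_div_iff₀ hpi] at h1
  rw [div_lt_iff₀ hpi] at h2
  have h3 := main s (δ - n * (2 * π)) (by linarith) (by linarith)
  have e1 : Circle.exp (s + (δ - n * (2 * π))) = Circle.exp (s + δ) :=
    Circle.exp_eq_exp.2 ⟨-n, by push_cast; ring⟩
  have e2 : Circle.exp (s - (δ - n * (2 * π))) = Circle.exp (s - δ) :=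
    Circle.exp_eq_exp.2 ⟨n, by ring⟩
  rw [e1, e2] at h3
  exact h3

end Pool.Agent.Helper649.ReQ
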