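import Pool.Agent.Helper649.ReaE
import Pool.Agent.Helper649.ReaQ
import Pool.Agent.Helper649.ReaG

set_option autoImplicit false

namespace Pool.Agent.Helper649.ReF

open Complex MeasureTheory Set Filter Topology Metric
open scoped Real ComplexConjugate
open Pool.Agent.Helper649.ReD Pool.Agent.Helper649.ReDef Pool.Agent.Helper649.ReE

lemma preserves_inv (ψ : Circle ≃ₜ Circle) (h : Preserves ψ) :
    Preserves ((Homeomorph.inv Circle).trans ψ) := by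
  rw [preserves_iff] at h ⊢
  obtain ⟨h1, h2⟩ := h
  refine ⟨(incl_inv ψ).mpr h1, ?_⟩
  intro u hu
  exact h2 (fun z => u z⁻¹) (reA_inv u hu)

lemma quasi (ψ : Circle ≃ₜ Circle) (h : Preserves ψ) : ∃ K : ℝ, ∀ s δ : ℝ,
    ‖(ψ (Circle.exp (s + δ)) : ℂ) - ψ (Circle.exp s)‖ ≤
      K * ‖(ψ (Circle.exp (s - δ)) : ℂ) - ψ (Circle.exp s)‖ := by
  have main : ∀ (Ψ : ℝ → ℝ) (ψ : Circle ≃ₜ Circle), Lift Ψ ψ → Preserves ψ → ∃ K : ℝ, ∀ s δ : ℝ,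
      ‖(ψ (Circle.exp (s + δ)) : ℂ) - ψ (Circle.exp s)‖ ≤
        K * ‖(ψ (Circle.exp (s - δ)) : ℂ) - ψ (Circle.exp s)‖ := by
    intro Ψ ψ hl hp
    obtain ⟨C, hC, -⟩ := (char_poly ψ).mp hp
    obtain ⟨B, hB, hb⟩ := Pool.Agent.Helper649.ReQ.QS4 Ψ ψ hl C hC
    exact Pool.Agent.Helper649.ReQ.QS5 Ψ ψ hl B hB hb
  obtain ⟨Ψ, hl | hl⟩ := lift_exists ψ
  · exact main Ψ ψ hl h
  · obtain ⟨K, hK⟩ := main Ψ _ hl (preserves_inv ψ h)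
    refine ⟨K, fun s δ => ?_⟩
    have h1 := hK (-s) (-δ)
    have e : ∀ t : ℝ, ((Homeomorph.inv Circle).trans ψ) (Circle.exp t) = ψ (Circle.exp (-t)) := by
      intro t
      show ψ (Circle.exp t)⁻¹ = ψ (Circle.exp (-t))
      rw [Circle.exp_neg]
    rw [e, e, e] at h1
    have e1 : -(-s + -δ) = s + δ := by ring
    have e2 : -(-s) = s := by ring
    have e3 : -(-s - -δ) = s - δ := by ring
    rw [e1, e2, e3] at h1
    exact h1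

lemma dini_chordBV (Ψ : ℝ → ℝ) (ψ : Circle ≃ₜ Circle) (hψ : ∀ t : ℝ, ψ (Circle.exp t) = Circle.exp (Ψ t))
    (h1 : ContDiff ℝ 1 Ψ) (hp : ∀ t, Ψ (t + 2 * π) = Ψ t + 2 * π) (hpos : ∀ t, 0 < deriv Ψ t)
    (ω : ℝ → ℝ) (hmono : Monotone ω) (hω : ∀ r, 0 ≤ ω r)
    (hH : ∀ s t, |deriv Ψ s - deriv Ψ t| ≤ ω |s - t|)
    (hD : IntervalIntegrable (fun r => ω r / r) volume 0 (2 * π)) : ChordBV ψ := by
  obtain ⟨V, hV0, hV⟩ := Pool.Agent.Helper649.ReG.dini_bv Ψ h1 hp hpos ω hmono hω hH hD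
  refine ⟨V, fun x => ?_⟩
  rw [hh_eq Ψ ψ hψ x]
  exact hV x

end Pool.Agent.Helper649.ReF
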