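import Pool.Agent.Helper649.ReaF

set_option autoImplicit false

namespace Pool.Agent.Helper649.ReH

open Complex MeasureTheory Set Filter Topology Metric
open scoped Real ComplexConjugate
open Pool.Agent.Helper649.ReD
open Pool.Agent.Helper649.ReDef (IsDiscAlg reA Cond CondBV Preserves)

lemma stj (β : ℝ → ℂ) (C : ℝ) (hC : 0 ≤ C) (hβ : eVariationOn β (Icc (-π) π) ≤ ENNReal.ofReal C)
    (g g' : ℝ → ℂ) (hg : ∀ s, HasDerivAt g (g' s) s) (hg' : Continuous g') (hp : g π = g (-π)) (M : ℝ)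
    (hM : ∀ s, ‖g s‖ ≤ M) :
    IntervalIntegrable β volume (-π) π ∧ ‖∫ s in (-π)..π, g' s * β s‖ ≤ 2 * C * M := by
  have hpi := Real.pi_pos
  have hab : (-π) ≤ π := by linarith
  have hbv : BoundedVariationOn β (Icc (-π) π) := ne_top_of_le_ne_top ENNReal.ofReal_ne_top hβ
  have hlb := hbv.locallyBoundedVariationOn
  have hint : IntervalIntegrable β volume (-π) π := by
    have hre : IntervalIntegrable (fun s => (β s).re) volume (-π) π := by
      have h1 : BoundedVariationOn (fun s => (β s).re) (Icc (-π) π) :=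
        (Complex.reCLM.lipschitz).comp_boundedVariationOn hbv
      obtain ⟨p, q, hp1, hq1, hpq⟩ := h1.locallyBoundedVariationOn.exists_monotoneOn_sub_monotoneOn
      rw [hpq]
      rw [← uIcc_of_le hab] at hp1 hq1
      exact hp1.intervalIntegrable.sub hq1.intervalIntegrable
    have him : IntervalIntegrable (fun s => (β s).im) volume (-π) π := by
      have h1 : BoundedVariationOn (fun s => (β s).im) (Icc (-π) π) :=
        (Complex.imCLM.lipschitz).comp_boundedVariationOn hbv
      obtain ⟨p, q, hp1, hq1, hpq⟩ := h1.locallyBoundedVariationOn.exists_monotoneOn_sub_monotoneOn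
      rw [hpq]
      rw [← uIcc_of_le hab] at hp1 hq1
      exact hp1.intervalIntegrable.sub hq1.intervalIntegrable
    have e : β = fun s => ((β s).re : ℂ) + ((β s).im : ℂ) * I := by
      funext s; exact (Complex.re_add_im _).symm
    rw [e]
    have h1 : IntervalIntegrable (fun s => ((β s).re : ℂ)) volume (-π) π :=
      ⟨hre.1.ofReal, hre.2.ofReal⟩
    have h2 : IntervalIntegrable (fun s => ((β s).im : ℂ)) volume (-π) π :=
      ⟨him.1.ofReal, him.2.ofReal⟩
    exact h1.add (h2.mul_const I)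
  refine ⟨hint, ?_⟩
  have hM0 : 0 ≤ M := (norm_nonneg _).trans (hM 0)
  obtain ⟨v, hv⟩ : ∃ v : ℝ → ℝ, v = variationOnFromTo β (Icc (-π) π) (-π) := ⟨_, rfl⟩
  have ha : (-π) ∈ Icc (-π) π := ⟨le_rfl, hab⟩
  have hb : π ∈ Icc (-π) π := ⟨hab, le_rfl⟩
  have hvm : MonotoneOn v (Icc (-π) π) := by rw [hv]; exact variationOnFromTo.monotoneOn hlb ha
  have hva : v (-π) = 0 := by rw [hv]; exact variationOnFromTo.self _ _ _
  have hvb : v π ≤ C := by
    rw [hv, variationOnFromTo.eq_of_le _ _ hab, inter_self]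
    have := ENNReal.toReal_mono ENNReal.ofReal_ne_top hβ
    rwa [ENNReal.toReal_ofReal hC] at this
  have hd : ∀ x ∈ Icc (-π) π, ∀ y ∈ Icc (-π) π, x ≤ y → ‖β y - β x‖ ≤ v y - v x := by
    intro x hx y hy hxy
    have h1 : v y - v x = variationOnFromTo β (Icc (-π) π) x y := by
      have := variationOnFromTo.add hlb ha hx hy
      rw [hv]; linarith
    rw [h1, variationOnFromTo.eq_of_le _ _ hxy, ← dist_eq_norm]
    have h2 : edist (β y) (β x) ≤ eVariationOn β (Icc (-π) π ∩ Icc x y) :=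
      eVariationOn.edist_le β ⟨hy, hxy, le_rfl⟩ ⟨hx, le_rfl, hxy⟩
    have h3 := ENNReal.toReal_mono (hlb x y hx hy) h2
    rwa [edist_dist, ENNReal.toReal_ofReal dist_nonneg] at h3
  obtain ⟨G, hG⟩ := (isCompact_Icc (a := -π) (b := π)).exists_bound_of_continuousOn hg'.continuousOn
  have hG0 : 0 ≤ G := (norm_nonneg _).trans (hG _ ha)
  have key : ∀ n : ℕ, ‖∫ s in (-π)..π, g' s * β s‖ ≤ 2 * C * M + G * C * (2 * π) * (1 / ((n : ℝ) + 1)) := by
    intro n0
    obtain ⟨n, hn⟩ : ∃ n : ℕ, n = n0 + 1 := ⟨_, rfl⟩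
    have hnr : (n : ℝ) = n0 + 1 := by rw [hn]; push_cast; ring
    have hn0 : (0:ℝ) < n := by rw [hnr]; positivity
    obtain ⟨h, hh⟩ : ∃ h : ℝ, h = 2 * π / n := ⟨_, rfl⟩
    have hh0 : 0 < h := by rw [hh]; positivity
    obtain ⟨s, hs⟩ : ∃ s : ℕ → ℝ, ∀ i, s i = -π + i * h := ⟨_, fun _ => rfl⟩
    have hs0 : s 0 = -π := by rw [hs]; simp
    have hsn : s n = π := by
      rw [hs, hh]; field_simp; ring
    have hsm : Monotone s := by
      intro i j hij
      rw [hs, hs]
      have : (i:ℝ) ≤ j := by exact_mod_cast hij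
      nlinarith
    have hsI : ∀ i, i ≤ n → s i ∈ Icc (-π) π := fun i hi =>
      ⟨by rw [← hs0]; exact hsm (Nat.zero_le i), by rw [← hsn]; exact hsm hi⟩
    have hstep : ∀ i, s (i+1) - s i = h := by
      intro i; rw [hs, hs]; push_cast; ring
    have hii : ∀ i, i < n → IntervalIntegrable β volume (s i) (s (i+1)) := by
      intro i hi
      refine hint.mono_set ?_
      rw [uIcc_of_le hab, uIcc_of_le (hsm (Nat.le_succ i))]
      exact Icc_subset_Icc (hsI i hi.le).1 (hsI (i+1) hi).2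
    have hgii : ∀ i, i < n → IntervalIntegrable (fun x => g' x * β x) volume (s i) (s (i+1)) :=
      fun i hi => (hii i hi).continuousOn_mul hg'.continuousOn
    have hsplit : ∫ x in (-π)..π, g' x * β x = ∑ i ∈ Finset.range n, ∫ x in (s i)..(s (i+1)), g' x * β x := by
      rw [intervalIntegral.sum_integral_adjacent_intervals (fun i hi => hgii i hi), hs0, hsn]
    have hE : ∀ i, i < n → ‖(∫ x in (s i)..(s (i+1)), g' x * β x) - β (s i) * (g (s (i+1)) - g (s i))‖
        ≤ G * (v (s (i+1)) - v (s i)) * h := by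
      intro i hi
      have hle : s i ≤ s (i+1) := hsm (Nat.le_succ i)
      have h1 : ∫ x in (s i)..(s (i+1)), g' x = g (s (i+1)) - g (s i) :=
        intervalIntegral.integral_eq_sub_of_hasDerivAt (fun x _ => hg x) (hg'.intervalIntegrable _ _)
      have h2 : β (s i) * (g (s (i+1)) - g (s i)) = ∫ x in (s i)..(s (i+1)), g' x * β (s i) := by
        rw [intervalIntegral.integral_mul_const, h1, mul_comm]
      have h2i : IntervalIntegrable (fun x => g' x * β (s i)) volume (s i) (s (i+1)) :=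
        (hg'.mul continuous_const).intervalIntegrable _ _
      rw [h2, ← intervalIntegral.integral_sub (hgii i hi) h2i]
      have h3 : ∀ x ∈ Set.uIoc (s i) (s (i+1)), ‖g' x * β x - g' x * β (s i)‖ ≤ G * (v (s (i+1)) - v (s i)) := by
        intro x hx
        rw [uIoc_of_le hle] at hx
        have hxI : x ∈ Icc (-π) π := ⟨(hsI i hi.le).1.trans hx.1.le, hx.2.trans (hsI (i+1) hi).2⟩
        rw [← mul_sub, norm_mul]
        have h4 := hd (s i) (hsI i hi.le) x hxI hx.1.le
        have h5 := hvm hxI (hsI (i+1) hi) hx.2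
        exact mul_le_mul (hG x hxI) (h4.trans (by linarith)) (norm_nonneg _) hG0
      have h6 := intervalIntegral.norm_integral_le_of_norm_le_const h3
      rwa [hstep, abs_of_pos hh0] at h6
    have htel : ∑ i ∈ Finset.range n, (v (s (i+1)) - v (s i)) ≤ C := by
      rw [Finset.sum_range_sub (fun i => v (s i)), hs0, hsn, hva]
      linarith
    have hsumE : ‖∑ i ∈ Finset.range n, ((∫ x in (s i)..(s (i+1)), g' x * β x) -
        β (s i) * (g (s (i+1)) - g (s i)))‖ ≤ G * C * h := by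
      refine (norm_sum_le _ _).trans ?_
      calc ∑ i ∈ Finset.range n, ‖(∫ x in (s i)..(s (i+1)), g' x * β x) -
            β (s i) * (g (s (i+1)) - g (s i))‖
          ≤ ∑ i ∈ Finset.range n, G * (v (s (i+1)) - v (s i)) * h :=
            Finset.sum_le_sum (fun i hi => hE i (Finset.mem_range.1 hi))
        _ = G * (∑ i ∈ Finset.range n, (v (s (i+1)) - v (s i))) * h := by
            rw [Finset.mul_sum, Finset.sum_mul]
        _ ≤ G * C * h := by gcongr
    have habel : ∑ i ∈ Finset.range n, β (s i) * (g (s (i+1)) - g (s i)) =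
        (β π - β (-π)) * g π - ∑ i ∈ Finset.range n, g (s (i+1)) * (β (s (i+1)) - β (s i)) := by
      have h1 := Finset.sum_range_sub (fun i => β (s i) * g (s i)) n
      rw [hs0, hsn, ← hp] at h1
      have h2 : ∑ i ∈ Finset.range n, β (s i) * (g (s (i+1)) - g (s i)) +
          ∑ i ∈ Finset.range n, g (s (i+1)) * (β (s (i+1)) - β (s i)) =
          ∑ i ∈ Finset.range n, (β (s (i+1)) * g (s (i+1)) - β (s i) * g (s i)) := by
        rw [← Finset.sum_add_distrib]
        exact Finset.sum_congr rfl (fun i _ => by ring)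
      rw [h1] at h2
      rw [eq_sub_iff_add_eq, h2]; ring
    have hnorm : ‖∑ i ∈ Finset.range n, β (s i) * (g (s (i+1)) - g (s i))‖ ≤ 2 * C * M := by
      rw [habel]
      refine (norm_sub_le _ _).trans ?_
      have h1 : ‖(β π - β (-π)) * g π‖ ≤ C * M := by
        rw [norm_mul]
        have h4 := hd (-π) ha π hb hab
        exact mul_le_mul (by linarith) (hM _) (norm_nonneg _) hC
      have h2 : ‖∑ i ∈ Finset.range n, g (s (i+1)) * (β (s (i+1)) - β (s i))‖ ≤ M * C := by
        refine (norm_sum_le _ _).trans ?_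
        calc ∑ i ∈ Finset.range n, ‖g (s (i+1)) * (β (s (i+1)) - β (s i))‖
            ≤ ∑ i ∈ Finset.range n, M * (v (s (i+1)) - v (s i)) := by
              refine Finset.sum_le_sum (fun i hi => ?_)
              have hi' := Finset.mem_range.1 hi
              rw [norm_mul]
              exact mul_le_mul (hM _) (hd (s i) (hsI i hi'.le) _ (hsI (i+1) hi') (hsm (Nat.le_succ i)))
                (norm_nonneg _) hM0
          _ = M * ∑ i ∈ Finset.range n, (v (s (i+1)) - v (s i)) := by rw [Finset.mul_sum]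
          _ ≤ M * C := mul_le_mul_of_nonneg_left htel hM0
      linarith
    have hfin : ∫ x in (-π)..π, g' x * β x =
        ∑ i ∈ Finset.range n, ((∫ x in (s i)..(s (i+1)), g' x * β x) -
        β (s i) * (g (s (i+1)) - g (s i))) + ∑ i ∈ Finset.range n, β (s i) * (g (s (i+1)) - g (s i)) := by
      rw [hsplit, ← Finset.sum_add_distrib]
      exact Finset.sum_congr rfl (fun i _ => by ring)
    rw [hfin]
    refine (norm_add_le _ _).trans ?_
    have hhe : G * C * h = G * C * (2 * π) * (1 / ((n0 : ℝ) + 1)) := by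
      rw [hh, hnr]; ring
    rw [← hhe]
    linarith
  have hlim : Tendsto (fun n : ℕ => 2 * C * M + G * C * (2 * π) * (1 / ((n : ℝ) + 1))) atTop
      (𝓝 (2 * C * M + G * C * (2 * π) * 0)) :=
    (tendsto_one_div_add_atTop_nhds_zero_nat.const_mul _).const_add _
  rw [mul_zero, add_zero] at hlim
  exact ge_of_tendsto' hlim key




lemma bv_cond (φ : Circle → Circle) (C : ℝ) (hC : 0 ≤ C) (h : CondBV φ C) : Cond φ (2 * C) := by
  intro x
  obtain ⟨hint, β, hβ, hmom⟩ := h x
  refine ⟨hint, fun p M hM => ?_⟩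
  have hβi : IntervalIntegrable β volume (-π) π :=
    (stj β C hC hβ (fun _ => 0) (fun _ => 0) (fun s => hasDerivAt_const s 0) continuous_const rfl 0
      (by intro s; simp)).1
  have hLi : IntervalIntegrable
      (fun s : ℝ => ((Real.log ‖(φ (Circle.exp s) : ℂ) - x‖ : ℝ) : ℂ)) volume (-π) π := by
    exact ⟨hint.1.ofReal, hint.2.ofReal⟩
  have hcE : ∀ q : Polynomial ℂ,
      Continuous (fun s : ℝ => exp (s * I) * q.derivative.eval (exp (s * I))) := by
    intro q
    have h1 : Continuous (fun s : ℝ => exp ((s : ℂ) * I)) := by fun_prop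
    exact h1.mul (q.derivative.continuous.comp h1)
  have key : ∀ q : Polynomial ℂ,
      ∫ s in (-π)..π, exp (s * I) * q.derivative.eval (exp (s * I)) *
        (Real.log ‖(φ (Circle.exp s) : ℂ) - x‖ : ℝ) =
      ∫ s in (-π)..π, exp (s * I) * q.derivative.eval (exp (s * I)) * β s := by
    intro q
    induction q using Polynomial.induction_on' with
    | add q1 q2 ih1 ih2 =>
      have e1 : ∀ (w : ℝ → ℂ), (fun s : ℝ => exp (s * I) * (q1 + q2).derivative.eval (exp (s * I)) * w s)
          = fun s : ℝ => (exp (s * I) * q1.derivative.eval (exp (s * I)) * w s) +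
            (exp (s * I) * q2.derivative.eval (exp (s * I)) * w s) := by
        intro w; funext s
        rw [Polynomial.derivative_add, Polynomial.eval_add]; ring
      rw [e1 (fun s => ((Real.log ‖(φ (Circle.exp s) : ℂ) - x‖ : ℝ) : ℂ)), e1 β]
      rw [intervalIntegral.integral_add, intervalIntegral.integral_add, ih1, ih2]
      · exact hβi.continuousOn_mul (hcE q1).continuousOn
      · exact hβi.continuousOn_mul (hcE q2).continuousOn
      · exact hLi.continuousOn_mul (hcE q1).continuousOn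
      · exact hLi.continuousOn_mul (hcE q2).continuousOn
    | monomial n a =>
      rcases Nat.eq_zero_or_pos n with hn | hn
      · subst hn; simp
      · have e1 : ∀ (w : ℝ → ℂ), (fun s : ℝ => exp (s * I) *
            (Polynomial.monomial n a).derivative.eval (exp (s * I)) * w s)
            = fun s : ℝ => (a * n) * (exp (n * s * I) * w s) := by
          intro w; funext s
          rw [Polynomial.derivative_monomial, Polynomial.eval_monomial]
          have : exp ((n : ℂ) * s * I) = exp ((s : ℂ) * I) ^ n := by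
            rw [← Complex.exp_nat_mul]; ring_nf
          rw [this]
          obtain ⟨m, rfl⟩ : ∃ m, n = m + 1 := ⟨n - 1, by omega⟩
          simp only [Nat.add_sub_cancel]
          rw [pow_succ]; ring
        rw [e1 (fun s => ((Real.log ‖(φ (Circle.exp s) : ℂ) - x‖ : ℝ) : ℂ)), e1 β]
        rw [intervalIntegral.integral_const_mul, intervalIntegral.integral_const_mul, hmom n hn]
  rw [key p]
  have hder : ∀ s : ℝ, HasDerivAt (fun s : ℝ => -I * p.eval (exp ((s : ℂ) * I)))
      (exp (s * I) * p.derivative.eval (exp (s * I))) s := by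
    intro s
    have h1 : HasDerivAt (fun s : ℝ => exp ((s : ℂ) * I)) (exp ((s : ℂ) * I) * I) s := by
      have h0 : HasDerivAt (fun s : ℝ => (s : ℂ) * I) I s := by
        have := (Complex.ofRealCLM.hasDerivAt (x := s)).mul_const I
        simpa using this
      exact h0.cexp
    have h2 := HasDerivAt.scomp (𝕜 := ℝ) (𝕜' := ℂ) s (p.hasDerivAt (exp ((s : ℂ) * I))) h1
    have h3 := h2.const_mul (-I)
    have e : exp ((s : ℂ) * I) * p.derivative.eval (exp ((s : ℂ) * I)) =
        -I * ((exp ((s : ℂ) * I) * I) • p.derivative.eval (exp ((s : ℂ) * I))) := by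
      rw [smul_eq_mul]
      linear_combination (exp ((s : ℂ) * I) * p.derivative.eval (exp ((s : ℂ) * I))) * I_sq
    rw [e]
    exact h3
  have hM' : ∀ s : ℝ, ‖(fun s : ℝ => -I * p.eval (exp ((s : ℂ) * I))) s‖ ≤ M := by
    intro s
    have := hM (exp ((s : ℂ) * I)) (by rw [Complex.norm_exp_ofReal_mul_I])
    simpa using this
  have hper : (fun s : ℝ => -I * p.eval (exp ((s : ℂ) * I))) π =
      (fun s : ℝ => -I * p.eval (exp ((s : ℂ) * I))) (-π) := by
    have e : exp ((π : ℂ) * I) = exp (((-π : ℝ) : ℂ) * I) := by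
      rw [Complex.exp_pi_mul_I]
      push_cast
      rw [neg_mul, Complex.exp_neg, Complex.exp_pi_mul_I]; norm_num
    show -I * p.eval (exp ((π : ℂ) * I)) = -I * p.eval (exp (((-π : ℝ) : ℂ) * I))
    rw [e]
  exact (stj β C hC hβ _ _ hder (hcE p) hper M hM').2



def DC : Type := Circle
instance : TopologicalSpace DC := ⊥
instance : DiscreteTopology DC := ⟨rfl⟩

noncomputable def emb : C(Circle, ℂ) →ₗᵢ[ℂ] (BoundedContinuousFunction DC ℂ) where
  toFun f := BoundedContinuousFunction.ofNormedAddCommGroupDiscrete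
    (fun z : DC => f (z : Circle)) ‖f‖ (fun z => f.norm_coe_le_norm z)
  map_add' f g := by ext z; rfl
  map_smul' c f := by ext z; rfl
  norm_map' f := by
    apply le_antisymm
    · exact (BoundedContinuousFunction.norm_le (norm_nonneg _)).2 (fun z => f.norm_coe_le_norm z)
    · refine (ContinuousMap.norm_le f (norm_nonneg _)).2 (fun z => ?_)
      exact BoundedContinuousFunction.norm_coe_le_norm
        (BoundedContinuousFunction.ofNormedAddCommGroupDiscrete
          (fun z : DC => f (z : Circle)) ‖f‖ (fun z => f.norm_coe_le_norm z)) z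

lemma emb_apply (f : C(Circle, ℂ)) (z : Circle) : (emb f : DC → ℂ) z = f z := rfl

noncomputable def ind (s : ℝ) : BoundedContinuousFunction DC ℂ :=
  BoundedContinuousFunction.ofNormedAddCommGroupDiscrete
    (fun z : DC => if arg ((show Circle from z : Circle) : ℂ) ≤ s then (1:ℂ) else 0) 1
    (fun z => by split_ifs <;> simp)

lemma ind_apply (s : ℝ) (z : Circle) :
    (ind s : DC → ℂ) z = if arg (z : ℂ) ≤ s then (1:ℂ) else 0 := rfl

lemma ext_L (L : C(Circle, ℂ) →L[ℂ] ℂ) (C : ℝ) (hL : ‖L‖ ≤ C) :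
    ∃ L' : (BoundedContinuousFunction DC ℂ) →L[ℂ] ℂ, ‖L'‖ ≤ C ∧ ∀ f, L' (emb f) = L f := by
  obtain ⟨g, hg, hn⟩ := exists_extension_norm_eq (LinearMap.range emb.toLinearMap)
    (L.comp (emb.equivRange.symm.toContinuousLinearEquiv : _ →L[ℂ] C(Circle, ℂ)))
  refine ⟨g, ?_, ?_⟩
  · rw [hn]
    refine le_trans ?_ hL
    refine ContinuousLinearMap.opNorm_le_bound _ (norm_nonneg _) (fun x => ?_)
    refine le_trans (L.le_opNorm _) ?_
    have : ‖(emb.equivRange.symm x)‖ = ‖x‖ := LinearIsometryEquiv.norm_map _ _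
    exact le_of_eq (by
      show ‖L‖ * ‖(emb.equivRange.symm x)‖ = ‖L‖ * ‖x‖
      rw [this])
  · intro f
    have := hg (emb.equivRange f)
    have h2 : (L.comp (emb.equivRange.symm.toContinuousLinearEquiv : _ →L[ℂ] C(Circle, ℂ))) (emb.equivRange f) = L f := by
      show L (emb.equivRange.symm (emb.equivRange f)) = L f
      rw [LinearIsometryEquiv.symm_apply_apply]
    rw [h2] at this
    exact this

lemma sum_bound (L' : (BoundedContinuousFunction DC ℂ) →L[ℂ] ℂ) (C : ℝ) (hL : ‖L'‖ ≤ C)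
    (u : ℕ → ℝ) (hu : Monotone u) (n : ℕ) :
    ∑ i ∈ Finset.range n, ‖L' (ind (u (i+1))) - L' (ind (u i))‖ ≤ C := by
  have hθ : ∀ w : ℂ, ∃ θ : ℂ, ‖θ‖ ≤ 1 ∧ θ * w = (‖w‖ : ℂ) := by
    intro w
    by_cases hw : w = 0
    · exact ⟨0, by simp, by simp [hw]⟩
    · refine ⟨(‖w‖ : ℂ) / w, ?_, ?_⟩
      · rw [norm_div]; simp [hw]
      · field_simp
  choose θ hθ1 hθ2 using hθ
  set d : ℕ → ℂ := fun i => L' (ind (u (i+1))) - L' (ind (u i)) with hd
  have h1 : ((∑ i ∈ Finset.range n, ‖d i‖ : ℝ) : ℂ)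
      = L' (∑ i ∈ Finset.range n, θ (d i) • (ind (u (i+1)) - ind (u i))) := by
    rw [map_sum]
    push_cast
    refine Finset.sum_congr rfl (fun i _ => ?_)
    rw [map_smul, map_sub, smul_eq_mul]
    exact (hθ2 (d i)).symm
  have h2 : ‖∑ i ∈ Finset.range n, θ (d i) • (ind (u (i+1)) - ind (u i))‖ ≤ 1 := by
    refine (BoundedContinuousFunction.norm_le zero_le_one).2 (fun z => ?_)
    rw [BoundedContinuousFunction.sum_apply]
    refine le_trans (norm_sum_le _ _) ?_
    have h3 : ∀ i ∈ Finset.range n, ‖(θ (d i) • (ind (u (i+1)) - ind (u i))) z‖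
        ≤ (if arg ((show Circle from z : Circle) : ℂ) ≤ u (i+1) then (1:ℝ) else 0)
          - (if arg ((show Circle from z : Circle) : ℂ) ≤ u i then (1:ℝ) else 0) := by
      intro i _
      have e : (θ (d i) • (ind (u (i+1)) - ind (u i))) z = θ (d i) *
        ((if arg ((show Circle from z : Circle) : ℂ) ≤ u (i+1) then (1:ℂ) else 0)
          - (if arg ((show Circle from z : Circle) : ℂ) ≤ u i then (1:ℂ) else 0)) := rfl
      rw [e, norm_mul]
      have hm := hu (Nat.le_succ i)
      simp only [Nat.succ_eq_add_one] at hm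
      by_cases ha : arg ((show Circle from z : Circle) : ℂ) ≤ u i
      · have hb : arg ((show Circle from z : Circle) : ℂ) ≤ u (i+1) := ha.trans hm
        simp [ha, hb]
      · by_cases hb : arg ((show Circle from z : Circle) : ℂ) ≤ u (i+1)
        · simp [ha, hb]; exact hθ1 _
        · simp [ha, hb]
    refine le_trans (Finset.sum_le_sum h3) ?_
    rw [Finset.sum_range_sub (fun i => (if arg ((show Circle from z : Circle) : ℂ) ≤ u i then (1:ℝ) else 0))]
    split_ifs <;> norm_num
  have h4 : (∑ i ∈ Finset.range n, ‖d i‖ : ℝ) = ‖((∑ i ∈ Finset.range n, ‖d i‖ : ℝ) : ℂ)‖ := by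
    rw [Complex.norm_real, Real.norm_of_nonneg (Finset.sum_nonneg (fun _ _ => norm_nonneg _))]
  rw [h4, h1]
  refine le_trans (L'.le_opNorm _) ?_
  calc ‖L'‖ * _ ≤ ‖L'‖ * 1 := mul_le_mul_of_nonneg_left h2 (norm_nonneg _)
    _ ≤ C := by rw [mul_one]; exact hL

lemma var_bound (L' : (BoundedContinuousFunction DC ℂ) →L[ℂ] ℂ) (C : ℝ) (hL : ‖L'‖ ≤ C) :
    eVariationOn (fun s => L' (ind s)) (Icc (-π) π) ≤ ENNReal.ofReal C := by
  unfold eVariationOn
  refine iSup_le (fun p => ?_)
  obtain ⟨n, u, hu, hus⟩ := p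
  have : ∀ i ∈ Finset.range n, edist (L' (ind (u (i+1)))) (L' (ind (u i)))
      = ENNReal.ofReal ‖L' (ind (u (i+1))) - L' (ind (u i))‖ := by
    intro i _
    rw [edist_dist, dist_eq_norm]
  rw [Finset.sum_congr rfl this, ← ENNReal.ofReal_sum_of_nonneg (fun _ _ => norm_nonneg _)]
  exact ENNReal.ofReal_le_ofReal (sum_bound L' C hL u hu n)


lemma var_step (β : ℝ → ℂ) (hβ : eVariationOn β (Icc (-π) π) ≠ ⊤) :
    ∃ V : ℝ → ℝ, V (-π) = 0 ∧
      (∀ a s, -π ≤ a → a ≤ s → s ≤ π → ‖β s - β a‖ ≤ V s - V a) := by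
  have hfin : ∀ x y, eVariationOn β (Icc (-π) π ∩ Icc x y) ≠ ⊤ := fun x y =>
    ne_top_of_le_ne_top hβ (eVariationOn.mono β inter_subset_left)
  refine ⟨fun s => (eVariationOn β (Icc (-π) π ∩ Icc (-π) s)).toReal, ?_, ?_⟩
  · simp only
    rw [eVariationOn.subsingleton]
    · rfl
    · intro x hx y hy
      simp only [mem_inter_iff, mem_Icc] at hx hy
      linarith [hx.2.1, hx.2.2, hy.2.1, hy.2.2]
  · intro a s ha has hs
    have h1 := eVariationOn.Icc_add_Icc β (s := Icc (-π) π) ha has ⟨ha, has.trans hs⟩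
    have h2 : edist (β s) (β a) ≤ eVariationOn β (Icc (-π) π ∩ Icc a s) :=
      eVariationOn.edist_le β ⟨⟨ha.trans has, hs⟩, has, le_rfl⟩ ⟨⟨ha, has.trans hs⟩, le_rfl, has⟩
    have h3 : ‖β s - β a‖ ≤ (eVariationOn β (Icc (-π) π ∩ Icc a s)).toReal := by
      rw [← dist_eq_norm, dist_edist]
      exact ENNReal.toReal_mono (hfin _ _) h2
    simp only
    rw [← h1, ENNReal.toReal_add (hfin _ _) (hfin _ _)]
    linarith

lemma bv_int (β : ℝ → ℂ) (hβ : eVariationOn β (Icc (-π) π) ≠ ⊤) :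
    IntervalIntegrable β volume (-π) π := by
  have hpi : -π ≤ π := by linarith [Real.pi_pos]
  have key : ∀ φ : ℂ → ℝ, (∀ x y, dist (φ x) (φ y) ≤ dist x y) →
      IntervalIntegrable (fun s => φ (β s)) volume (-π) π := by
    intro φ hφ
    have hlip : LipschitzWith 1 φ := LipschitzWith.of_dist_le_mul (by simpa using hφ)
    have hb : BoundedVariationOn (fun s => φ (β s)) (Icc (-π) π) :=
      LipschitzOnWith.comp_boundedVariationOn (hlip.lipschitzOnWith (s := univ)) (fun _ _ => mem_univ _) hβ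
    obtain ⟨p, q, hp, hq, he⟩ := hb.locallyBoundedVariationOn.exists_monotoneOn_sub_monotoneOn
    rw [he]
    rw [← uIcc_of_le hpi] at hp hq
    exact hp.intervalIntegrable.sub hq.intervalIntegrable
  have h1 := key Complex.re (fun x y => by
    rw [Real.dist_eq, dist_eq_norm, ← Complex.sub_re]; exact Complex.abs_re_le_norm _)
  have h2 := key Complex.im (fun x y => by
    rw [Real.dist_eq, dist_eq_norm, ← Complex.sub_im]; exact Complex.abs_im_le_norm _)
  have h3 : β = fun s => (((β s).re : ℝ) : ℂ) + (((β s).im : ℝ) : ℂ) * I := by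
    funext s; exact (Complex.re_add_im _).symm
  rw [h3]
  have h1' : IntervalIntegrable (fun s => (((β s).re : ℝ) : ℂ)) volume (-π) π := ⟨h1.1.ofReal, h1.2.ofReal⟩
  have h2' : IntervalIntegrable (fun s => (((β s).im : ℝ) : ℂ)) volume (-π) π := ⟨h2.1.ofReal, h2.2.ofReal⟩
  exact IntervalIntegrable.add h1' (IntervalIntegrable.mul_const h2' I)

lemma main_est (β : ℝ → ℂ) (V : ℝ → ℝ)
    (hV : ∀ a s, -π ≤ a → a ≤ s → s ≤ π → ‖β s - β a‖ ≤ V s - V a)
    (hβi : IntervalIntegrable β volume (-π) π) (g g' : ℝ → ℂ)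
    (hg : ∀ s, HasDerivAt g (g' s) s) (hg' : Continuous g') (M : ℝ)
    (hM : ∀ s ∈ Icc (-π) π, ‖g' s‖ ≤ M) (a b : ℝ) (ha : -π ≤ a) (hab : a ≤ b) (hb : b ≤ π) :
    ‖(∫ s in a..b, g' s * β s) - (g b - g a) * β a‖ ≤ M * (V b - V a) * (b - a) := by
  have hi : IntervalIntegrable β volume a b := by
    refine hβi.mono_set ?_
    rw [uIcc_of_le hab, uIcc_of_le (by linarith)]
    exact Icc_subset_Icc ha hb
  have h1 : (g b - g a) * β a = ∫ s in a..b, g' s * β a := by
    rw [intervalIntegral.integral_mul_const,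
      intervalIntegral.integral_eq_sub_of_hasDerivAt (fun x _ => hg x) (hg'.intervalIntegrable _ _)]
  have hc : IntervalIntegrable (fun s => g' s * β a) volume a b :=
    (hg'.mul continuous_const).intervalIntegrable _ _
  have hd : IntervalIntegrable (fun s => g' s * β s) volume a b := hi.continuousOn_mul hg'.continuousOn
  rw [h1, ← intervalIntegral.integral_sub hd hc]
  have h2 := intervalIntegral.norm_integral_le_of_norm_le_const (a := a) (b := b)
    (f := fun s => g' s * β s - g' s * β a) (C := M * (V b - V a)) (by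
      intro s hs
      rw [uIoc_of_le hab] at hs
      rw [← mul_sub, norm_mul]
      have hs1 : s ∈ Icc (-π) π := ⟨by linarith [hs.1], hs.2.trans hb⟩
      have e1 := hV a s ha hs.1.le hs1.2
      have e2 := hV s b hs1.1 hs.2 hb
      have e3 : ‖β s - β a‖ ≤ V b - V a := by linarith [norm_nonneg (β b - β s)]
      exact mul_le_mul (hM s hs1) e3 (norm_nonneg _) ((norm_nonneg _).trans (hM s hs1)))
  rwa [abs_of_nonneg (by linarith)] at h2

lemma part_est (β : ℝ → ℂ) (V : ℝ → ℝ)
    (hV : ∀ a s, -π ≤ a → a ≤ s → s ≤ π → ‖β s - β a‖ ≤ V s - V a)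
    (hβi : IntervalIntegrable β volume (-π) π) (g g' : ℝ → ℂ)
    (hg : ∀ s, HasDerivAt g (g' s) s) (hg' : Continuous g') (M : ℝ)
    (hM : ∀ s ∈ Icc (-π) π, ‖g' s‖ ≤ M) (h : ℝ) (hh : 0 ≤ h) (n : ℕ) (hn : -π + n * h ≤ π) :
    ‖(∫ s in (-π)..(-π + n * h), g' s * β s) -
      ∑ i ∈ Finset.range n, (g (-π + (i+1 : ℕ) * h) - g (-π + i * h)) * β (-π + i * h)‖
      ≤ M * (V (-π + n * h) - V (-π)) * h := by
  induction n with
  | zero => simp
  | succ n ih =>
    have hn1 : -π + (n:ℝ) * h ≤ -π + ((n+1 : ℕ) : ℝ) * h := by push_cast; nlinarith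
    have hn0 : -π ≤ -π + (n:ℝ) * h := by have := mul_nonneg (Nat.cast_nonneg (α := ℝ) n) hh; linarith
    have ih := ih (hn1.trans hn)
    have e := main_est β V hV hβi g g' hg hg' M hM (-π + (n:ℝ) * h) (-π + ((n+1 : ℕ) : ℝ) * h) hn0 hn1 hn
    have hsub : ∀ x y, -π ≤ x → x ≤ y → y ≤ π → IntervalIntegrable (fun s => g' s * β s) volume x y := by
      intro x y hx hxy hy
      refine IntervalIntegrable.continuousOn_mul ?_ hg'.continuousOn
      refine hβi.mono_set ?_
      rw [uIcc_of_le hxy, uIcc_of_le (by linarith)]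
      exact Icc_subset_Icc hx hy
    rw [Finset.sum_range_succ, ← intervalIntegral.integral_add_adjacent_intervals
      (hsub _ _ le_rfl hn0 (hn1.trans hn)) (hsub _ _ hn0 hn1 hn)]
    have e2 : -π + ((n+1 : ℕ) : ℝ) * h - (-π + (n:ℝ) * h) = h := by push_cast; ring
    rw [e2] at e
    refine le_trans (le_of_eq ?_) (le_trans (norm_add_le _ _) (le_trans (add_le_add ih e) (le_of_eq ?_)))
    · congr 1; ring
    · ring

lemma point_est (g g' : ℝ → ℂ) (hg : ∀ s, HasDerivAt g (g' s) s) (M : ℝ)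
    (hM : ∀ s ∈ Icc (-π) π, ‖g' s‖ ≤ M) (h : ℝ) (hh : 0 ≤ h) (θ : ℝ) (hθ : -π < θ) (hθ' : θ ≤ π) (n : ℕ)
    (hn : -π + n * h ≤ π) :
    (θ ≤ -π + n * h → ‖g θ + (∑ i ∈ Finset.range n, (g (-π + (i+1 : ℕ) * h) - g (-π + i * h)) *
      (if θ ≤ -π + i * h then (1:ℂ) else 0)) - g (-π + n * h)‖ ≤ M * h) ∧
    (-π + n * h < θ → (∑ i ∈ Finset.range n, (g (-π + (i+1 : ℕ) * h) - g (-π + i * h)) *
      (if θ ≤ -π + i * h then (1:ℂ) else 0)) = 0) := by
  induction n with
  | zero =>
    refine ⟨fun h1 => ?_, fun _ => by simp⟩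
    exfalso
    push_cast at h1
    linarith
  | succ n ih =>
    have hn1 : -π + (n:ℝ) * h ≤ -π + ((n+1 : ℕ) : ℝ) * h := by push_cast; nlinarith
    have hn0 : -π ≤ -π + (n:ℝ) * h := by have := mul_nonneg (Nat.cast_nonneg (α := ℝ) n) hh; linarith
    obtain ⟨ih1, ih2⟩ := ih (hn1.trans hn)
    constructor
    · intro h1
      rw [Finset.sum_range_succ]
      by_cases h2 : θ ≤ -π + (n:ℝ) * h
      · rw [if_pos h2]
        refine le_trans (le_of_eq ?_) (ih1 h2)
        congr 1; ring
      · rw [if_neg h2, ih2 (not_le.1 h2)]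
        push Not at h2
        have e := Convex.norm_image_sub_le_of_norm_hasDerivWithin_le (f := g) (f' := g') (s := Icc (-π) π) (C := M)
          (fun x _ => (hg x).hasDerivWithinAt) hM (convex_Icc _ _)
          (x := -π + ((n+1 : ℕ) : ℝ) * h) (y := θ) ⟨hn0.trans hn1, hn⟩ ⟨hθ.le, hθ'⟩
        have hM0 : 0 ≤ M := (norm_nonneg _).trans (hM θ ⟨hθ.le, hθ'⟩)
        have e3 : ‖θ - (-π + ((n+1 : ℕ) : ℝ) * h)‖ ≤ h := by
          rw [Real.norm_eq_abs, abs_le]
          push_cast at h1 ⊢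
          constructor <;> nlinarith
        refine le_trans (le_of_eq ?_) (e.trans (mul_le_mul_of_nonneg_left e3 hM0))
        congr 1; ring
    · intro h1
      rw [Finset.sum_range_succ, ih2 (by linarith), if_neg (by linarith)]
      simp

lemma func_est (L' : (BoundedContinuousFunction DC ℂ) →L[ℂ] ℂ) (C : ℝ) (hL : ‖L'‖ ≤ C)
    (f : C(Circle, ℂ)) (g' : ℝ → ℂ) (hg : ∀ s, HasDerivAt (fun s : ℝ => f (Circle.exp s)) (g' s) s)
    (M : ℝ) (hM : ∀ s ∈ Icc (-π) π, ‖g' s‖ ≤ M) (h : ℝ) (hh : 0 ≤ h) (n : ℕ)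
    (hn : -π + n * h = π) :
    ‖L' (emb f) + (∑ i ∈ Finset.range n, (f (Circle.exp (-π + (i+1 : ℕ) * h)) - f (Circle.exp (-π + i * h))) *
      L' (ind (-π + i * h))) - f (Circle.exp π) * L' (ind π)‖ ≤ C * (M * h) := by
  have hM0 : 0 ≤ M := (norm_nonneg _).trans (hM π ⟨by linarith [Real.pi_pos], le_rfl⟩)
  have h1 : L' (emb f) + (∑ i ∈ Finset.range n, (f (Circle.exp (-π + (i+1 : ℕ) * h)) - f (Circle.exp (-π + i * h))) *
      L' (ind (-π + i * h))) - f (Circle.exp π) * L' (ind π) =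
      L' (emb f + (∑ i ∈ Finset.range n, (f (Circle.exp (-π + (i+1 : ℕ) * h)) - f (Circle.exp (-π + i * h))) •
      (ind (-π + i * h))) - f (Circle.exp π) • (ind π)) := by
    rw [map_sub, map_add, map_sum, map_smul, smul_eq_mul]
    congr 2
    refine Finset.sum_congr rfl (fun i _ => ?_)
    rw [map_smul, smul_eq_mul]
  rw [h1]
  refine (L'.le_opNorm _).trans ?_
  refine mul_le_mul hL ?_ (norm_nonneg _) ((norm_nonneg _).trans hL)
  refine (BoundedContinuousFunction.norm_le (mul_nonneg hM0 hh)).2 (fun z => ?_)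
  have hz : Circle.exp (arg ((show Circle from z : Circle) : ℂ)) = (show Circle from z) := Circle.exp_arg _
  have e := (point_est (fun s : ℝ => f (Circle.exp s)) g' hg M hM h hh
    (arg ((show Circle from z : Circle) : ℂ)) (Complex.neg_pi_lt_arg _) (Complex.arg_le_pi _) n hn.le).1
    (by rw [hn]; exact Complex.arg_le_pi _)
  rw [BoundedContinuousFunction.sub_apply, BoundedContinuousFunction.add_apply, BoundedContinuousFunction.sum_apply]
  have e1 : (f (Circle.exp π) • (ind π)) z = f (Circle.exp π) := by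
    have : (f (Circle.exp π) • (ind π)) z = f (Circle.exp π) *
      (if arg ((show Circle from z : Circle) : ℂ) ≤ π then (1:ℂ) else 0) := rfl
    rw [this, if_pos (Complex.arg_le_pi _), mul_one]
  have e2 : (emb f) z = f (Circle.exp (arg ((show Circle from z : Circle) : ℂ))) := by
    rw [hz]; rfl
  rw [e1, e2]
  refine le_trans (le_of_eq ?_) e
  simp only
  rw [hn]
  rfl



lemma hb (L : C(Circle, ℂ) →L[ℂ] ℂ) (C : ℝ) (hL : ‖L‖ ≤ C) :
    ∃ β : ℝ → ℂ, eVariationOn β (Icc (-π) π) ≤ ENNReal.ofReal C ∧ β (-π) = 0 ∧ β π = L 1 ∧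
      ∀ (f : C(Circle, ℂ)) (g' : ℝ → ℂ), (∀ s, HasDerivAt (fun s : ℝ => f (Circle.exp s)) (g' s) s) →
        Continuous g' → L f = f (Circle.exp π) * β π - ∫ s in (-π)..π, g' s * β s := by
  obtain ⟨L', hL', hext⟩ := ext_L L C hL
  have hvar := var_bound L' C hL'
  have hfin : eVariationOn (fun s => L' (ind s)) (Icc (-π) π) ≠ ⊤ :=
    ne_top_of_le_ne_top ENNReal.ofReal_ne_top hvar
  refine ⟨fun s => L' (ind s), hvar, ?_, ?_, ?_⟩
  · have : ind (-π) = 0 := by
      ext z
      have e : (ind (-π)) z = (if arg ((show Circle from z : Circle) : ℂ) ≤ -π then (1:ℂ) else 0) := rfl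
      rw [e, if_neg (not_le.2 (Complex.neg_pi_lt_arg _))]
      rfl
    simp only [this, map_zero]
  · have : ind π = emb 1 := by
      ext z
      have e : (ind π) z = (if arg ((show Circle from z : Circle) : ℂ) ≤ π then (1:ℂ) else 0) := rfl
      rw [e, if_pos (Complex.arg_le_pi _)]
      rfl
    simp only [this, hext]
  · intro f g' hg hg'
    obtain ⟨V, hV0, hV⟩ := var_step _ hfin
    have hβi := bv_int _ hfin
    obtain ⟨M, hM⟩ := (isCompact_Icc (a := -π) (b := π)).exists_bound_of_continuousOn hg'.continuousOn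
    have key : ∀ n : ℕ, 0 < n → ‖L f - (f (Circle.exp π) * L' (ind π) - ∫ s in (-π)..π, g' s * L' (ind s))‖
        ≤ (C * M + M * V π) * (2 * π) / n := by
      intro n hn
      have hn0 : (n : ℝ) ≠ 0 := by positivity
      have hh : 0 ≤ 2 * π / n := by positivity
      have hnp : -π + n * (2 * π / n) = π := by field_simp; ring
      have e1 := func_est L' C hL' f g' hg M hM (2 * π / n) hh n hnp
      have e2 := part_est (fun s => L' (ind s)) V hV hβi (fun s : ℝ => f (Circle.exp s)) g' hg hg' M hM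
        (2 * π / n) hh n hnp.le
      rw [hnp, hV0, sub_zero] at e2
      rw [hext] at e1
      refine le_trans (le_of_eq ?_) (le_trans (norm_add_le _ _) (le_trans (add_le_add e1 e2) (le_of_eq ?_)))
      · congr 1; ring
      · ring
    have hlim : Tendsto (fun n : ℕ => (C * M + M * V π) * (2 * π) / n) atTop (𝓝 0) :=
      tendsto_const_div_atTop_nhds_zero_nat _
    have h0 : ‖L f - (f (Circle.exp π) * L' (ind π) - ∫ s in (-π)..π, g' s * L' (ind s))‖ ≤ 0 :=
      ge_of_tendsto hlim (eventually_atTop.2 ⟨1, fun n hn => key n hn⟩)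
    exact sub_eq_zero.1 (norm_le_zero_iff.1 h0)




lemma cond_bv (φ : Circle → Circle) (C : ℝ) (h : CondM0 φ C) : CondBV φ C := by
  intro x
  obtain ⟨hint, L, hL, hmom⟩ := h x
  refine ⟨hint, ?_⟩
  obtain ⟨β, hvar, -, hβπ, hform⟩ := hb L C hL
  have hL1 : L 1 = 0 := by
    have h0 := hmom 0
    have he : (⟨fun z : Circle => (z : ℂ) ^ 0, by fun_prop⟩ : C(Circle, ℂ)) = 1 := by
      ext z
      simp
    rw [he] at h0
    rw [h0]
    simp
  have hlip : LipschitzWith 1 (fun w : ℂ => -I * w) := by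
    refine LipschitzWith.of_dist_le_mul fun a b => ?_
    rw [dist_eq_norm, dist_eq_norm, ← mul_sub, norm_mul, norm_neg, Complex.norm_I]
    simp
  refine ⟨fun s => -I * β s, ?_, ?_⟩
  · have h1 := (hlip.lipschitzOnWith (s := Set.univ)).comp_eVariationOn_le (g := β) (s := Icc (-π) π) (fun _ _ => Set.mem_univ _)
    refine le_trans h1 ?_
    simpa using hvar
  · intro n hn
    have hfun : ∀ s : ℝ, ((⟨fun z : Circle => (z : ℂ) ^ n, by fun_prop⟩ : C(Circle, ℂ))
        (Circle.exp s)) = exp (n * s * I) := by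
      intro s
      simp only [ContinuousMap.coe_mk, Circle.coe_exp]
      rw [← Complex.exp_nat_mul]
      ring_nf
    have hder : ∀ s : ℝ, HasDerivAt (fun s : ℝ =>
        (⟨fun z : Circle => (z : ℂ) ^ n, by fun_prop⟩ : C(Circle, ℂ)) (Circle.exp s))
        (exp (n * s * I) * (n * I)) s := by
      intro s
      have h1 : HasDerivAt (fun s : ℝ => (n : ℂ) * (s : ℂ) * I) ((n : ℂ) * I) s := by
        have h2 : HasDerivAt (fun s : ℝ => (s : ℂ)) 1 s := Complex.ofRealCLM.hasDerivAt
        simpa using ((h2.const_mul (n : ℂ)).mul_const I)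
      have h3 := h1.cexp
      refine h3.congr_of_eventuallyEq ?_
      exact Filter.Eventually.of_forall fun t => hfun t
    have hcont : Continuous (fun s : ℝ => exp ((n : ℂ) * s * I) * ((n : ℂ) * I)) := by
      fun_prop
    have hf := hform (⟨fun z : Circle => (z : ℂ) ^ n, by fun_prop⟩ : C(Circle, ℂ))
      (fun s : ℝ => exp (n * s * I) * (n * I)) hder hcont
    rw [hβπ, hL1, mul_zero, zero_sub, hmom n] at hf
    have hn0 : (n : ℂ) ≠ 0 := by
      have : n ≠ 0 := by omega
      exact_mod_cast this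
    have hrw : ∫ s in (-π)..π, exp (n * s * I) * (n * I) * β s =
        -((n : ℂ) * ∫ s in (-π)..π, exp (n * s * I) * (-I * β s)) := by
      rw [← intervalIntegral.integral_const_mul, ← intervalIntegral.integral_neg]
      refine intervalIntegral.integral_congr fun s _ => ?_
      ring
    rw [hrw, neg_neg] at hf
    exact mul_left_cancel₀ hn0 hf



lemma condBV_mono (φ : Circle → Circle) (C C' : ℝ) (hCC : C ≤ C') (h : CondBV φ C) : CondBV φ C' := by
  intro x
  obtain ⟨h1, β, h2, h3⟩ := h x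
  exact ⟨h1, β, h2.trans (ENNReal.ofReal_le_ofReal hCC), h3⟩

lemma char_bv (ψ : Circle ≃ₜ Circle) : Preserves ψ ↔ ∃ C : ℝ, CondBV ψ C ∧ CondBV ψ.symm C := by
  rw [Pool.Agent.Helper649.ReE.char_poly]
  constructor
  · rintro ⟨C, h1, h2⟩
    exact ⟨C, cond_bv _ C ((cond_meas _ C).mp h1), cond_bv _ C ((cond_meas _ C).mp h2)⟩
  · rintro ⟨C, h1, h2⟩
    exact ⟨2 * max C 0, bv_cond _ _ (le_max_right _ _) (condBV_mono _ _ _ (le_max_left _ _) h1),
      bv_cond _ _ (le_max_right _ _) (condBV_mono _ _ _ (le_max_left _ _) h2)⟩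

end Pool.Agent.Helper649.ReH
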