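import Mathlib

set_option autoImplicit false

namespace Pool.Agent.Helper649

open Complex

/-- The character of frequency `k`. -/
noncomputable def ch (k : ℤ) (t : ℝ) : ℂ := Complex.exp (2 * Real.pi * Complex.I * k * t)

lemma ch_add (k : ℤ) (s t : ℝ) : ch k (s + t) = ch k s * ch k t := by
  unfold ch
  rw [← Complex.exp_add]
  congr 1
  push_cast; ring

lemma ch_add_int (j k : ℤ) (t : ℝ) : ch (j + k) t = ch j t * ch k t := by
  unfold ch
  rw [← Complex.exp_add]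
  congr 1
  push_cast; ring

lemma norm_ch (k : ℤ) (t : ℝ) : ‖ch k t‖ = 1 := by
  unfold ch
  have : (2 * Real.pi * Complex.I * k * t : ℂ) = ((2 * Real.pi * k * t : ℝ) : ℂ) * Complex.I := by
    push_cast; ring
  rw [this, Complex.norm_exp_ofReal_mul_I]

lemma ch_neg (k : ℤ) (t : ℝ) : ch k (-t) = ch (-k) t := by
  unfold ch
  congr 1
  push_cast; ring

lemma ch_zero (t : ℝ) : ch 0 t = 1 := by
  unfold ch; simp

lemma ch_int (k : ℤ) (n : ℤ) : ch k (n : ℝ) = 1 := by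
  unfold ch
  have : (2 * Real.pi * Complex.I * k * ((n : ℝ) : ℂ) : ℂ) = ((k * n : ℤ) : ℂ) * (2 * Real.pi * Complex.I) := by
    push_cast; ring
  rw [this, Complex.exp_int_mul_two_pi_mul_I]

lemma ch_hasDerivAt (k : ℤ) (t : ℝ) :
    HasDerivAt (fun t : ℝ => ch k t) (2 * Real.pi * Complex.I * k * ch k t) t := by
  unfold ch
  have h1 : HasDerivAt (fun t : ℝ => (t : ℂ)) 1 t := Complex.ofRealCLM.hasDerivAt (x := t)
  have h2 := (h1.const_mul (2 * Real.pi * Complex.I * k : ℂ)).cexp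
  refine h2.congr_deriv ?_
  ring

/-- `f` has Fourier coefficients `a` with weighted absolute sum at most `M`. -/
def BC (r M : ℝ) (a : ℤ → ℂ) (f : ℝ → ℂ) : Prop :=
  Summable (fun k : ℤ => ‖a k‖ * r ^ k.natAbs) ∧ (∑' k : ℤ, ‖a k‖ * r ^ k.natAbs) ≤ M ∧
    ∀ t : ℝ, HasSum (fun k : ℤ => a k * ch k t) (f t)

def B (r M : ℝ) (f : ℝ → ℂ) : Prop := ∃ a, BC r M a f

lemma BC.nonneg {r M : ℝ} {a : ℤ → ℂ} {f : ℝ → ℂ} (h : BC r M a f) (hr : 0 ≤ r) : 0 ≤ M :=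
  le_trans (tsum_nonneg fun k => by positivity) h.2.1

lemma summable_of_norm_weight {r : ℝ} (hr : 1 ≤ r) {a : ℤ → ℂ}
    (h : Summable (fun k : ℤ => ‖a k‖ * r ^ k.natAbs)) : Summable (fun k : ℤ => ‖a k‖) := by
  refine Summable.of_nonneg_of_le (fun k => norm_nonneg _) (fun k => ?_) h
  exact le_mul_of_one_le_right (norm_nonneg _) (one_le_pow₀ hr)

lemma summable_ch {a : ℤ → ℂ} (h : Summable (fun k : ℤ => ‖a k‖)) (t : ℝ) :
    Summable (fun k : ℤ => a k * ch k t) := by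
  apply Summable.of_norm
  simpa [norm_mul, norm_ch] using h

lemma BC.norm_le {r M : ℝ} {a : ℤ → ℂ} {f : ℝ → ℂ} (h : BC r M a f) (hr : 1 ≤ r) (t : ℝ) :
    ‖f t‖ ≤ M := by
  obtain ⟨h1, h2, h3⟩ := h
  have hs := summable_of_norm_weight hr h1
  have hn : Summable (fun k : ℤ => ‖a k * ch k t‖) := by
    simpa [norm_mul, norm_ch] using hs
  rw [← (h3 t).tsum_eq]
  refine (norm_tsum_le_tsum_norm hn).trans (le_trans ?_ h2)
  refine hn.tsum_le_tsum (fun k => ?_) h1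
  rw [norm_mul, norm_ch, mul_one]
  exact le_mul_of_one_le_right (norm_nonneg _) (one_le_pow₀ hr)

lemma BC.mono {r r' M M' : ℝ} {a : ℤ → ℂ} {f : ℝ → ℂ} (h : BC r M a f) (hr' : 0 ≤ r') (hr : r' ≤ r)
    (hM : M ≤ M') : BC r' M' a f := by
  obtain ⟨h1, h2, h3⟩ := h
  have hle : ∀ k : ℤ, ‖a k‖ * r' ^ k.natAbs ≤ ‖a k‖ * r ^ k.natAbs := fun k => by
    have := pow_le_pow_left₀ hr' hr k.natAbs
    gcongr
  have hs : Summable (fun k : ℤ => ‖a k‖ * r' ^ k.natAbs) :=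
    Summable.of_nonneg_of_le (fun k => by positivity) hle h1
  exact ⟨hs, (hs.tsum_le_tsum hle h1).trans (h2.trans hM), h3⟩

lemma B.mono {r r' M M' : ℝ} {f : ℝ → ℂ} (h : B r M f) (hr' : 0 ≤ r') (hr : r' ≤ r)
    (hM : M ≤ M') : B r' M' f := by
  obtain ⟨a, h⟩ := h
  exact ⟨a, h.mono hr' hr hM⟩

lemma B.norm_le {r M : ℝ} {f : ℝ → ℂ} (h : B r M f) (hr : 1 ≤ r) (t : ℝ) :
    ‖f t‖ ≤ M := by
  obtain ⟨a, h⟩ := h
  exact h.norm_le hr t

lemma B.nonneg {r M : ℝ} {f : ℝ → ℂ} (h : B r M f) (hr : 0 ≤ r) : 0 ≤ M := by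
  obtain ⟨a, h⟩ := h
  exact h.nonneg hr

/-- comparison of coefficients -/
lemma BC.of_coef {r r' M C : ℝ} {a b : ℤ → ℂ} {f : ℝ → ℂ} (h : BC r M a f) (hC : 0 ≤ C)
    (hr' : 1 ≤ r') (hle : ∀ k : ℤ, ‖b k‖ * r' ^ k.natAbs ≤ C * (‖a k‖ * r ^ k.natAbs)) :
    BC r' (C * M) b (fun t => ∑' k : ℤ, b k * ch k t) := by
  obtain ⟨h1, h2, h3⟩ := h
  have hs1 : Summable (fun k : ℤ => C * (‖a k‖ * r ^ k.natAbs)) := h1.mul_left C
  have hs : Summable (fun k : ℤ => ‖b k‖ * r' ^ k.natAbs) :=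
    Summable.of_nonneg_of_le (fun k => by positivity) hle hs1
  refine ⟨hs, ?_, fun t => (summable_ch (summable_of_norm_weight hr' hs) t).hasSum⟩
  refine (hs.tsum_le_tsum hle hs1).trans ?_
  rw [tsum_mul_left]
  gcongr

lemma BC.add {r M N : ℝ} {a b : ℤ → ℂ} {f g : ℝ → ℂ} (hr : 0 ≤ r) (hf : BC r M a f) (hg : BC r N b g) :
    BC r (M + N) (fun k => a k + b k) (fun t => f t + g t) := by
  obtain ⟨f1, f2, f3⟩ := hf
  obtain ⟨g1, g2, g3⟩ := hg
  have hle : ∀ k : ℤ, ‖a k + b k‖ * r ^ k.natAbs ≤ ‖a k‖ * r ^ k.natAbs + ‖b k‖ * r ^ k.natAbs := by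
    intro k
    rw [← add_mul]
    have := norm_add_le (a k) (b k)
    gcongr
  have hs : Summable (fun k : ℤ => ‖a k + b k‖ * r ^ k.natAbs) :=
    Summable.of_nonneg_of_le (fun k => by positivity) hle (f1.add g1)
  refine ⟨hs, ?_, fun t => ?_⟩
  · refine (hs.tsum_le_tsum hle (f1.add g1)).trans ?_
    rw [f1.tsum_add g1]
    gcongr
  · have := (f3 t).add (g3 t)
    simpa [add_mul] using this

lemma BC.const_mul {r M : ℝ} {a : ℤ → ℂ} {f : ℝ → ℂ} (c : ℂ) (hf : BC r M a f) :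
    BC r (‖c‖ * M) (fun k => c * a k) (fun t => c * f t) := by
  obtain ⟨f1, f2, f3⟩ := hf
  have e : (fun k : ℤ => ‖c * a k‖ * r ^ k.natAbs) = fun k => ‖c‖ * (‖a k‖ * r ^ k.natAbs) := by
    funext k; rw [norm_mul, mul_assoc]
  refine ⟨by rw [e]; exact f1.mul_left _, ?_, fun t => ?_⟩
  · rw [e, tsum_mul_left]
    gcongr
  · have := (f3 t).mul_left c
    simpa [mul_assoc] using this

lemma BC.const {r : ℝ} (c : ℂ) : BC r ‖c‖ (fun k => if k = 0 then c else 0) (fun _ => c) := by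
  have h1 : HasSum (fun k : ℤ => ‖(if k = 0 then c else 0 : ℂ)‖ * r ^ k.natAbs) ‖c‖ := by
    have := hasSum_single (f := fun k : ℤ => ‖(if k = 0 then c else 0 : ℂ)‖ * r ^ k.natAbs) 0
      (by intro k hk; simp [hk])
    simpa using this
  refine ⟨h1.summable, h1.tsum_eq.le, fun t => ?_⟩
  have := hasSum_single (f := fun k : ℤ => (if k = 0 then c else 0 : ℂ) * ch k t) 0
      (by intro k hk; simp [hk])
  simpa [ch_zero] using this

lemma BC.shift {r M : ℝ} {a : ℤ → ℂ} {f : ℝ → ℂ} (s : ℝ) (hf : BC r M a f) :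
    BC r M (fun k => ch k s * a k) (fun t => f (t + s)) := by
  obtain ⟨f1, f2, f3⟩ := hf
  have e : (fun k : ℤ => ‖ch k s * a k‖ * r ^ k.natAbs) = fun k => (‖a k‖ * r ^ k.natAbs) := by
    funext k; rw [norm_mul, norm_ch, one_mul]
  refine ⟨by rw [e]; exact f1, by rw [e]; exact f2, fun t => ?_⟩
  have := f3 (t + s)
  convert this using 2 with k
  rw [ch_add]; ring

lemma BC.refl {r M : ℝ} {a : ℤ → ℂ} {f : ℝ → ℂ} (hf : BC r M a f) :
    BC r M (fun k => a (-k)) (fun t => f (-t)) := by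
  obtain ⟨f1, f2, f3⟩ := hf
  have e : (fun k : ℤ => ‖a (-k)‖ * r ^ k.natAbs) = (fun k => (‖a k‖ * r ^ k.natAbs)) ∘ (Equiv.neg ℤ) := by
    funext k; simp
  refine ⟨?_, ?_, fun t => ?_⟩
  · rw [e]; exact (Equiv.neg ℤ).summable_iff.mpr f1
  · rw [e]
    have := (Equiv.neg ℤ).tsum_eq (fun k : ℤ => (‖a k‖ * r ^ k.natAbs))
    exact this.trans_le f2
  · have h := f3 (-t)
    have h2 := (Equiv.neg ℤ).hasSum_iff.mpr h
    convert h2 using 2 with k
    simp [ch_neg]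

lemma BC.mul {r M N : ℝ} {a b : ℤ → ℂ} {f g : ℝ → ℂ} (hr : 1 ≤ r) (hf : BC r M a f) (hg : BC r N b g) :
    BC r (M * N) (fun n => ∑' j, a j * b (n - j)) (fun t => f t * g t) := by
  have hr0 : (0 : ℝ) ≤ r := by linarith
  have hM := hf.nonneg hr0
  have hN := hg.nonneg hr0
  obtain ⟨f1, f2, f3⟩ := hf
  obtain ⟨g1, g2, g3⟩ := hg
  set F : ℤ → ℝ := fun k => ‖a k‖ * r ^ k.natAbs with hF
  set G : ℤ → ℝ := fun k => ‖b k‖ * r ^ k.natAbs with hG
  have hF0 : ∀ k, 0 ≤ F k := fun k => by simp only [hF]; positivity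
  have hG0 : ∀ k, 0 ≤ G k := fun k => by simp only [hG]; positivity
  let e : ℤ × ℤ ≃ ℤ × ℤ :=
    { toFun := fun x => (x.2, x.1 - x.2)
      invFun := fun x => (x.1 + x.2, x.1)
      left_inv := fun x => by ext <;> simp
      right_inv := fun x => by ext <;> simp }
  have hFG : Summable (fun x : ℤ × ℤ => F x.1 * G x.2) := f1.mul_of_nonneg g1 hF0 hG0
  have hFG' : Summable (fun x : ℤ × ℤ => F x.2 * G (x.1 - x.2)) := by
    have := e.summable_iff.mpr hFG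
    exact this
  have hFGt : ∑' x : ℤ × ℤ, F x.2 * G (x.1 - x.2) = (∑' k, F k) * ∑' k, G k := by
    rw [f1.tsum_mul_tsum g1 hFG]
    exact e.tsum_eq (fun x : ℤ × ℤ => F x.1 * G x.2)
  have hle2 : ∀ x : ℤ × ℤ, ‖a x.2 * b (x.1 - x.2)‖ * r ^ x.1.natAbs ≤ F x.2 * G (x.1 - x.2) := by
    intro x
    simp only [hF, hG]
    rw [norm_mul]
    have h1 : r ^ x.1.natAbs ≤ r ^ x.2.natAbs * r ^ (x.1 - x.2).natAbs := by
      rw [← pow_add]
      apply pow_le_pow_right₀ hr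
      have := Int.natAbs_add_le x.2 (x.1 - x.2)
      simpa using this
    calc ‖a x.2‖ * ‖b (x.1 - x.2)‖ * r ^ x.1.natAbs
        ≤ ‖a x.2‖ * ‖b (x.1 - x.2)‖ * (r ^ x.2.natAbs * r ^ (x.1 - x.2).natAbs) := by gcongr
      _ = _ := by ring
  have hS : Summable (fun x : ℤ × ℤ => ‖a x.2 * b (x.1 - x.2)‖ * r ^ x.1.natAbs) :=
    Summable.of_nonneg_of_le (fun x => by positivity) hle2 hFG'
  have hS1 : Summable (fun x : ℤ × ℤ => ‖a x.2 * b (x.1 - x.2)‖) := by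
    refine Summable.of_nonneg_of_le (fun x => by positivity) (fun x => ?_) hS
    exact le_mul_of_one_le_right (norm_nonneg _) (one_le_pow₀ hr)
  have hfib : ∀ n : ℤ, Summable (fun j => ‖a j * b (n - j)‖) := fun n => hS1.prod_factor n
  have hfib2 : ∀ n : ℤ, Summable (fun j => ‖a j * b (n - j)‖ * r ^ n.natAbs) := fun n =>
    (hfib n).mul_right _
  have hle3 : ∀ n : ℤ, ‖∑' j, a j * b (n - j)‖ * r ^ n.natAbs
      ≤ ∑' j, ‖a j * b (n - j)‖ * r ^ n.natAbs := by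
    intro n
    rw [tsum_mul_right]
    have := norm_tsum_le_tsum_norm (hfib n)
    gcongr
  have hS2 : Summable (fun n : ℤ => ∑' j, ‖a j * b (n - j)‖ * r ^ n.natAbs) := hS.prod
  have hs : Summable (fun n : ℤ => ‖∑' j, a j * b (n - j)‖ * r ^ n.natAbs) :=
    Summable.of_nonneg_of_le (fun n => by positivity) hle3 hS2
  refine ⟨hs, ?_, fun t => ?_⟩
  · calc ∑' n : ℤ, ‖∑' j, a j * b (n - j)‖ * r ^ n.natAbs
        ≤ ∑' n : ℤ, ∑' j, ‖a j * b (n - j)‖ * r ^ n.natAbs := hs.tsum_le_tsum hle3 hS2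
      _ = ∑' x : ℤ × ℤ, ‖a x.2 * b (x.1 - x.2)‖ * r ^ x.1.natAbs := by
          rw [hS.tsum_prod]
      _ ≤ ∑' x : ℤ × ℤ, F x.2 * G (x.1 - x.2) := hS.tsum_le_tsum hle2 hFG'
      _ = (∑' k, F k) * ∑' k, G k := hFGt
      _ ≤ M * N := by
          have : 0 ≤ ∑' k, G k := tsum_nonneg hG0
          gcongr
  · have h0 : Summable (fun x : ℤ × ℤ => (a x.1 * ch x.1 t) * (b x.2 * ch x.2 t)) := by
      apply Summable.of_norm
      refine Summable.of_nonneg_of_le (fun x => norm_nonneg _) (fun x => ?_) hFG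
      simp only [hF, hG]
      rw [norm_mul, norm_mul, norm_mul, norm_ch, norm_ch, mul_one, mul_one]
      have h1 : (1 : ℝ) ≤ r ^ x.1.natAbs := one_le_pow₀ hr
      have h2 : (1 : ℝ) ≤ r ^ x.2.natAbs := one_le_pow₀ hr
      have h3 := norm_nonneg (a x.1)
      have h4 := norm_nonneg (b x.2)
      calc ‖a x.1‖ * ‖b x.2‖ = (‖a x.1‖ * 1) * (‖b x.2‖ * 1) := by ring
        _ ≤ _ := by gcongr
    have h1 : HasSum (fun x : ℤ × ℤ => (a x.1 * ch x.1 t) * (b x.2 * ch x.2 t)) (f t * g t) := by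
      have h2 := HasSum.mul (f3 t) (g3 t) h0
      exact h2
    have h2 : HasSum (fun x : ℤ × ℤ => a x.2 * b (x.1 - x.2) * ch x.1 t) (f t * g t) := by
      have := e.hasSum_iff.mpr h1
      convert this using 2 with x
      have h3 : ch x.1 t = ch x.2 t * ch (x.1 - x.2) t := by
        rw [← ch_add_int]; congr 1; ring
      simp only [Function.comp, e, Equiv.coe_fn_mk]
      rw [h3]; ring
    have h5 : ∀ n : ℤ, HasSum (fun j => a j * b (n - j) * ch n t) ((∑' j, a j * b (n - j)) * ch n t) := by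
      intro n
      have h4 : Summable (fun j => a j * b (n - j)) := (hfib n).of_norm
      exact h4.hasSum.mul_right (ch n t)
    exact HasSum.prod_fiberwise (f := fun x : ℤ × ℤ => a x.2 * b (x.1 - x.2) * ch x.1 t)
      (g := fun n : ℤ => (∑' j, a j * b (n - j)) * ch n t) h2 h5

/-- series of functions -/
lemma BC.tsum {r : ℝ} (hr : 1 ≤ r) {M : ℕ → ℝ} {a : ℕ → ℤ → ℂ} {f : ℕ → ℝ → ℂ}
    (hM : Summable M) (h : ∀ n, BC r (M n) (a n) (f n)) :
    BC r (∑' n, M n) (fun k => ∑' n, a n k) (fun t => ∑' n, f n t) := by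
  have hr0 : (0 : ℝ) ≤ r := by linarith
  have hS : Summable (fun x : ℕ × ℤ => ‖a x.1 x.2‖ * r ^ x.2.natAbs) := by
    rw [summable_prod_of_nonneg (fun x => by positivity)]
    refine ⟨fun n => (h n).1, ?_⟩
    exact Summable.of_nonneg_of_le (fun n => tsum_nonneg fun k => by positivity)
      (fun n => (h n).2.1) hM
  have hS' : Summable (fun x : ℤ × ℕ => ‖a x.2 x.1‖ * r ^ x.1.natAbs) := by
    have := (Equiv.prodComm ℤ ℕ).summable_iff.mpr hS
    exact this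
  have hS1 : Summable (fun x : ℤ × ℕ => ‖a x.2 x.1‖) := by
    refine Summable.of_nonneg_of_le (fun x => by positivity) (fun x => ?_) hS'
    exact le_mul_of_one_le_right (norm_nonneg _) (one_le_pow₀ hr)
  have hfib : ∀ k : ℤ, Summable (fun n => ‖a n k‖) := fun k => hS1.prod_factor k
  have hle3 : ∀ k : ℤ, ‖∑' n, a n k‖ * r ^ k.natAbs ≤ ∑' n, ‖a n k‖ * r ^ k.natAbs := by
    intro k
    rw [tsum_mul_right]
    have := norm_tsum_le_tsum_norm (hfib k)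
    gcongr
  have hS2 : Summable (fun k : ℤ => ∑' n, ‖a n k‖ * r ^ k.natAbs) := hS'.prod
  have hs : Summable (fun k : ℤ => ‖∑' n, a n k‖ * r ^ k.natAbs) :=
    Summable.of_nonneg_of_le (fun n => by positivity) hle3 hS2
  refine ⟨hs, ?_, fun t => ?_⟩
  · calc ∑' k : ℤ, ‖∑' n, a n k‖ * r ^ k.natAbs
        ≤ ∑' k : ℤ, ∑' n, ‖a n k‖ * r ^ k.natAbs := hs.tsum_le_tsum hle3 hS2
      _ = ∑' x : ℤ × ℕ, ‖a x.2 x.1‖ * r ^ x.1.natAbs := (hS'.tsum_prod).symm
      _ = ∑' x : ℕ × ℤ, ‖a x.1 x.2‖ * r ^ x.2.natAbs :=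
          (Equiv.prodComm ℤ ℕ).tsum_eq (fun x : ℕ × ℤ => ‖a x.1 x.2‖ * r ^ x.2.natAbs)
      _ = ∑' n, ∑' k : ℤ, ‖a n k‖ * r ^ k.natAbs := hS.tsum_prod
      _ ≤ ∑' n, M n := by
          refine Summable.tsum_le_tsum (fun n => (h n).2.1) ?_ hM
          exact hS.prod
  · have hSt : Summable (fun x : ℕ × ℤ => ‖a x.1 x.2 * ch x.2 t‖) := by
      have : Summable (fun x : ℕ × ℤ => ‖a x.1 x.2‖) := by
        refine Summable.of_nonneg_of_le (fun x => by positivity) (fun x => ?_) hS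
        exact le_mul_of_one_le_right (norm_nonneg _) (one_le_pow₀ hr)
      simpa [norm_mul, norm_ch] using this
    have h1 : Summable (fun x : ℕ × ℤ => a x.1 x.2 * ch x.2 t) := hSt.of_norm
    have h2 : HasSum (fun n => f n t) (∑' x : ℕ × ℤ, a x.1 x.2 * ch x.2 t) :=
      h1.hasSum.prod_fiberwise (fun n => (h n).2.2 t)
    have h1' : HasSum (fun x : ℤ × ℕ => a x.2 x.1 * ch x.1 t) (∑' x : ℕ × ℤ, a x.1 x.2 * ch x.2 t) := by
      have := (Equiv.prodComm ℤ ℕ).hasSum_iff.mpr h1.hasSum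
      exact this
    have h3 := h1'.prod_fiberwise (fun k => ((hfib k).of_norm.hasSum.mul_right (ch k t)))
    rw [← h2.tsum_eq] at h3
    exact h3

lemma nat_mul_pow_le {s : ℝ} (hs0 : 0 ≤ s) (hs1 : s < 1) (n : ℕ) : (n : ℝ) * s ^ n ≤ 1 / (1 - s) := by
  have h1 : (n : ℝ) * s ^ n ≤ ∑ j ∈ Finset.range n, s ^ j := by
    calc (n : ℝ) * s ^ n = ∑ j ∈ Finset.range n, s ^ n := by simp
      _ ≤ ∑ j ∈ Finset.range n, s ^ j := by
          apply Finset.sum_le_sum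
          intro j hj
          exact pow_le_pow_of_le_one hs0 hs1.le (Finset.mem_range.mp hj).le
  have h2 : (∑ j ∈ Finset.range n, s ^ j) * (1 - s) = 1 - s ^ n := geom_sum_mul_neg s n
  rw [le_div_iff₀ (by linarith)]
  have h3 : 0 ≤ s ^ n := pow_nonneg hs0 n
  calc (n : ℝ) * s ^ n * (1 - s) ≤ (∑ j ∈ Finset.range n, s ^ j) * (1 - s) := by
        have : 0 ≤ 1 - s := by linarith
        gcongr
    _ = 1 - s ^ n := h2
    _ ≤ 1 := by linarith

/-- derivative -/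
lemma BC.deriv {r M s : ℝ} {a : ℤ → ℂ} {f : ℝ → ℂ} (hf : BC r M a f) (hs0 : 0 < s) (hs1 : s < 1)
    (hrs : 1 ≤ r * s) :
    ∃ f' : ℝ → ℂ, (∀ t, HasDerivAt f (f' t) t) ∧
      BC (r * s) (2 * Real.pi / (1 - s) * M) (fun k => 2 * Real.pi * Complex.I * k * a k) f' := by
  have hr0 : 0 ≤ r := by
    by_contra h
    push Not at h
    nlinarith
  have h1s : 0 < 1 - s := by linarith
  have hle : ∀ k : ℤ, ‖(2 * Real.pi * Complex.I * k * a k : ℂ)‖ * (r * s) ^ k.natAbs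
      ≤ (2 * Real.pi / (1 - s)) * (‖a k‖ * r ^ k.natAbs) := by
    intro k
    have e1 : ‖(2 * Real.pi * Complex.I * k * a k : ℂ)‖ = 2 * Real.pi * k.natAbs * ‖a k‖ := by
      rw [norm_mul, norm_mul, norm_mul, norm_mul]
      simp only [Complex.norm_I, mul_one, Complex.norm_ofNat, Complex.norm_real]
      rw [Real.norm_of_nonneg Real.pi_pos.le]
      have : ‖(k : ℂ)‖ = (k.natAbs : ℝ) := by
        rw [Complex.norm_intCast, Nat.cast_natAbs, Int.cast_abs]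
      rw [this]
    rw [e1, mul_pow]
    have h2 := nat_mul_pow_le hs0.le hs1 k.natAbs
    calc 2 * Real.pi * k.natAbs * ‖a k‖ * (r ^ k.natAbs * s ^ k.natAbs)
        = 2 * Real.pi * (‖a k‖ * r ^ k.natAbs) * (k.natAbs * s ^ k.natAbs) := by ring
      _ ≤ 2 * Real.pi * (‖a k‖ * r ^ k.natAbs) * (1 / (1 - s)) := by
          have := Real.pi_pos
          gcongr
      _ = _ := by ring
  have hb := hf.of_coef (b := fun k => 2 * Real.pi * Complex.I * k * a k) (r' := r * s)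
    (by have := Real.pi_pos; positivity) hrs hle
  refine ⟨_, ?_, hb⟩
  intro t
  have hsum : Summable (fun k : ℤ => ‖(2 * Real.pi * Complex.I * k * a k : ℂ)‖) :=
    summable_of_norm_weight hrs hb.1
  have h2 := hasDerivAt_tsum (u := fun k : ℤ => ‖(2 * Real.pi * Complex.I * k * a k : ℂ)‖)
    (g := fun (k : ℤ) (t : ℝ) => a k * ch k t)
    (g' := fun (k : ℤ) (t : ℝ) => a k * (2 * Real.pi * Complex.I * k * ch k t)) hsum
    (fun k y => (ch_hasDerivAt k y).const_mul (a k))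
    (fun k y => by
      apply le_of_eq
      have : a k * (2 * Real.pi * Complex.I * k * ch k y) = (2 * Real.pi * Complex.I * k * a k) * ch k y := by
        ring
      rw [this, norm_mul, norm_ch, mul_one])
    (y₀ := t) (hf.2.2 t).summable t
  have e1 : (fun z => ∑' n : ℤ, a n * ch n z) = f := by
    funext z; exact (hf.2.2 z).tsum_eq
  rw [e1] at h2
  refine h2.congr_deriv ?_
  exact tsum_congr (fun k => by ring)

/-- small divisors -/
lemma BC.solve {r M s θ G : ℝ} {a : ℤ → ℂ} {f : ℝ → ℂ} (hf : BC r M a f) (hs0 : 0 < s) (hs1 : s < 1)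
    (hrs : 1 ≤ r * s ^ 2) (hr0 : 0 ≤ r) (hG : 0 ≤ G) (ha0 : a 0 = 0)
    (hdiv : ∀ k : ℤ, k ≠ 0 → 1 ≤ G * k ^ 2 * ‖ch k θ - 1‖) :
    ∃ g : ℝ → ℂ, (∀ t, g (t + θ) - g t = f t) ∧
      B (r * s ^ 2) (G / (1 - s) ^ 2 * M) g := by
  have h1s : 0 < 1 - s := by linarith
  have hne : ∀ k : ℤ, k ≠ 0 → ch k θ - 1 ≠ 0 := by
    intro k hk h0
    have := hdiv k hk
    rw [h0, norm_zero, mul_zero] at this
    linarith
  have hle : ∀ k : ℤ, ‖a k / (ch k θ - 1)‖ * (r * s ^ 2) ^ k.natAbs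
      ≤ (G / (1 - s) ^ 2) * (‖a k‖ * r ^ k.natAbs) := by
    intro k
    by_cases hk : k = 0
    · subst hk; simp [ha0]
    · have hpos : 0 < ‖ch k θ - 1‖ := norm_pos_iff.mpr (hne k hk)
      have h1 := hdiv k hk
      have h2 := nat_mul_pow_le hs0.le hs1 k.natAbs
      have hk2 : ((k : ℝ)) ^ 2 = (k.natAbs : ℝ) ^ 2 := by
        rw [Nat.cast_natAbs, Int.cast_abs, sq_abs]
      rw [norm_div, mul_pow, div_mul_eq_mul_div, div_le_iff₀ hpos]
      have h3 : 0 ≤ (k.natAbs : ℝ) * s ^ k.natAbs := by positivity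
      have h4 : ((k.natAbs : ℝ) * s ^ k.natAbs) ^ 2 ≤ 1 / (1 - s) ^ 2 := by
        rw [← one_div_pow]
        exact pow_le_pow_left₀ h3 h2 2
      calc ‖a k‖ * (r ^ k.natAbs * (s ^ 2) ^ k.natAbs)
          = ‖a k‖ * r ^ k.natAbs * (s ^ 2) ^ k.natAbs * 1 := by ring
        _ ≤ ‖a k‖ * r ^ k.natAbs * (s ^ 2) ^ k.natAbs * (G * (k : ℝ) ^ 2 * ‖ch k θ - 1‖) := by
            gcongr
        _ = (‖a k‖ * r ^ k.natAbs) * G * ‖ch k θ - 1‖ * (((k.natAbs : ℝ) * s ^ k.natAbs) ^ 2) := by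
            rw [hk2, mul_pow, ← pow_mul, ← pow_mul, mul_comm k.natAbs 2]; ring
        _ ≤ (‖a k‖ * r ^ k.natAbs) * G * ‖ch k θ - 1‖ * (1 / (1 - s) ^ 2) := by
            gcongr
        _ = _ := by ring
  have hb := hf.of_coef (b := fun k => a k / (ch k θ - 1)) (r' := r * s ^ 2)
    (by positivity) hrs hle
  refine ⟨_, ?_, ⟨_, hb⟩⟩
  intro t
  have h1 := (hb.2.2 (t + θ)).sub (hb.2.2 t)
  have e : (fun k : ℤ => (fun k => a k / (ch k θ - 1)) k * ch k (t + θ)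
      - (fun k => a k / (ch k θ - 1)) k * ch k t) = fun k => a k * ch k t := by
    funext k
    by_cases hk : k = 0
    · subst hk; simp [ha0]
    · have := hne k hk
      simp only
      rw [ch_add]
      field_simp
  rw [e] at h1
  exact h1.unique (hf.2.2 t)

end Pool.Agent.Helper649
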