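import Pool.Agent.Helper649.Wiener

set_option autoImplicit false

namespace Pool.Agent.Helper649

lemma B.add {r M N : ℝ} {f g : ℝ → ℂ} (hr : 0 ≤ r) (hf : B r M f) (hg : B r N g) :
    B r (M + N) (fun t => f t + g t) := by
  obtain ⟨a, ha⟩ := hf
  obtain ⟨b, hb⟩ := hg
  exact ⟨_, ha.add hr hb⟩

lemma B.mul {r M N : ℝ} {f g : ℝ → ℂ} (hr : 1 ≤ r) (hf : B r M f) (hg : B r N g) :
    B r (M * N) (fun t => f t * g t) := by
  obtain ⟨a, ha⟩ := hf
  obtain ⟨b, hb⟩ := hg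
  exact ⟨_, ha.mul hr hb⟩

lemma B.const_mul {r M : ℝ} {f : ℝ → ℂ} (c : ℂ) (hf : B r M f) :
    B r (‖c‖ * M) (fun t => c * f t) := by
  obtain ⟨a, ha⟩ := hf
  exact ⟨_, ha.const_mul c⟩

lemma B.const {r : ℝ} (c : ℂ) : B r ‖c‖ (fun _ => c) := ⟨_, BC.const c⟩

lemma B.shift {r M : ℝ} {f : ℝ → ℂ} (s : ℝ) (hf : B r M f) : B r M (fun t => f (t + s)) := by
  obtain ⟨a, ha⟩ := hf
  exact ⟨_, ha.shift s⟩

lemma B.refl {r M : ℝ} {f : ℝ → ℂ} (hf : B r M f) : B r M (fun t => f (-t)) := by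
  obtain ⟨a, ha⟩ := hf
  exact ⟨_, ha.refl⟩

lemma B.refl_shift {r M : ℝ} {f : ℝ → ℂ} (s : ℝ) (hf : B r M f) : B r M (fun t => f (-t - s)) := by
  have := (hf.refl).shift s
  have e : (fun t => f (-t - s)) = fun t => f (-(t + s)) := by
    funext t; congr 1; ring
  rw [e]; exact this

lemma B.neg {r M : ℝ} {f : ℝ → ℂ} (hf : B r M f) : B r M (fun t => -f t) := by
  have := hf.const_mul (-1)
  simpa using this

lemma B.sub {r M N : ℝ} {f g : ℝ → ℂ} (hr : 0 ≤ r) (hf : B r M f) (hg : B r N g) :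
    B r (M + N) (fun t => f t - g t) := by
  have := hf.add hr hg.neg
  simpa [sub_eq_add_neg] using this

lemma B.half {r M : ℝ} {f : ℝ → ℂ} (hf : B r M f) : B r (M / 2) (fun t => f t / 2) := by
  have := hf.const_mul (1 / 2 : ℂ)
  have e : ‖(1 / 2 : ℂ)‖ * M = M / 2 := by
    rw [norm_div, norm_one, Complex.norm_ofNat]; ring
  rw [e] at this
  have e2 : (fun t => f t / 2) = fun t => (1 / 2 : ℂ) * f t := by funext t; ring
  rw [e2]; exact this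

lemma B.pow {r M : ℝ} {f : ℝ → ℂ} (hr : 1 ≤ r) (hf : B r M f) (n : ℕ) :
    B r (M ^ n) (fun t => f t ^ n) := by
  induction n with
  | zero => simpa using (B.const (r := r) (1 : ℂ))
  | succ n ih =>
    have := ih.mul hr hf
    simpa [pow_succ] using this

lemma B.tsum {r : ℝ} (hr : 1 ≤ r) {M : ℕ → ℝ} {f : ℕ → ℝ → ℂ}
    (hM : Summable M) (h : ∀ n, B r (M n) (f n)) :
    B r (∑' n, M n) (fun t => ∑' n, f n t) := by
  choose a ha using h
  exact ⟨_, BC.tsum hr hM ha⟩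

lemma B.deriv {r M s : ℝ} {f : ℝ → ℂ} (hf : B r M f) (hs0 : 0 < s) (hs1 : s < 1)
    (hrs : 1 ≤ r * s) :
    ∃ f' : ℝ → ℂ, (∀ t, HasDerivAt f (f' t) t) ∧ B (r * s) (2 * Real.pi / (1 - s) * M) f' := by
  obtain ⟨a, ha⟩ := hf
  obtain ⟨f', h1, h2⟩ := ha.deriv hs0 hs1 hrs
  exact ⟨f', h1, ⟨_, h2⟩⟩

/-- inverse -/
lemma B.inv {r M : ℝ} {f : ℝ → ℂ} {c : ℂ} (hr : 1 ≤ r) (hf : B r M (fun t => f t - c)) (hM : M < ‖c‖) :
    B r (1 / (‖c‖ - M)) (fun t => (f t)⁻¹) ∧ ∀ t, f t ≠ 0 := by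
  have hM0 : 0 ≤ M := hf.nonneg (by linarith)
  have hc : 0 < ‖c‖ := lt_of_le_of_lt hM0 hM
  have hc0 : c ≠ 0 := norm_pos_iff.mp hc
  have hne : ∀ t, f t ≠ 0 := by
    intro t h0
    have := hf.norm_le hr t
    simp only [h0, zero_sub, norm_neg] at this
    linarith
  refine ⟨?_, hne⟩
  -- terms of the Neumann series
  have hterm : ∀ n : ℕ, B r ((M / ‖c‖) ^ n * ‖c‖⁻¹) (fun t => (-(f t - c) / c) ^ n * c⁻¹) := by
    intro n
    have h1 : B r (M / ‖c‖) (fun t => -(f t - c) / c) := by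
      have := (hf.neg).const_mul c⁻¹
      rw [norm_inv] at this
      have e : M / ‖c‖ = ‖c‖⁻¹ * M := by ring
      have e2 : (fun t => -(f t - c) / c) = fun t => c⁻¹ * -(f t - c) := by funext t; ring
      rw [e, e2]; exact this
    have h2 := (h1.pow hr n).const_mul c⁻¹
    rw [norm_inv] at h2
    have e : (M / ‖c‖) ^ n * ‖c‖⁻¹ = ‖c‖⁻¹ * (M / ‖c‖) ^ n := by ring
    have e2 : (fun t => (-(f t - c) / c) ^ n * c⁻¹) = fun t => c⁻¹ * (-(f t - c) / c) ^ n := by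
      funext t; ring
    rw [e, e2]; exact h2
  have hq : M / ‖c‖ < 1 := (div_lt_one hc).mpr hM
  have hq0 : 0 ≤ M / ‖c‖ := by positivity
  have hs : Summable (fun n : ℕ => (M / ‖c‖) ^ n * ‖c‖⁻¹) :=
    (summable_geometric_of_lt_one hq0 hq).mul_right _
  have h := B.tsum hr hs hterm
  have e1 : ∑' n : ℕ, (M / ‖c‖) ^ n * ‖c‖⁻¹ = 1 / (‖c‖ - M) := by
    rw [tsum_mul_right, tsum_geometric_of_lt_one hq0 hq]
    have : ‖c‖ - M ≠ 0 := by linarith
    have : 1 - M / ‖c‖ ≠ 0 := by linarith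
    field_simp
  have e2 : (fun t => ∑' n : ℕ, (-(f t - c) / c) ^ n * c⁻¹) = fun t => (f t)⁻¹ := by
    funext t
    have h3 : ‖-(f t - c) / c‖ < 1 := by
      rw [norm_div, norm_neg]
      have := hf.norm_le hr t
      rw [div_lt_one hc]
      linarith
    rw [tsum_mul_right, tsum_geometric_of_norm_lt_one h3]
    have h4 : 1 - -(f t - c) / c = f t / c := by field_simp; ring
    rw [h4, inv_div]
    field_simp
  rw [e1, e2] at h
  exact h

/-- The first cohomological equation: the right hand side has mean zero by symmetry. -/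
lemma B.solve_even {r M s θ G : ℝ} {F : ℝ → ℂ} (hF : B r M F) (hs0 : 0 < s) (hs1 : s < 1)
    (hrs : 1 ≤ r * s ^ 2) (hr0 : 0 ≤ r) (hG : 0 ≤ G)
    (hdiv : ∀ k : ℤ, k ≠ 0 → 1 ≤ G * k ^ 2 * ‖ch k θ - 1‖) :
    ∃ g : ℝ → ℂ, (∀ t, g (t + θ) - g t = F t - F (-t - θ)) ∧ (∀ t, g (-t) = g t) ∧
      B (r * s ^ 2) (G / (1 - s) ^ 2 * (2 * M)) g := by
  obtain ⟨a, ha⟩ := hF
  have h2 := (ha.refl).shift θ
  have h3 := ha.add hr0 (h2.const_mul (-1))
  have e : M + ‖(-1 : ℂ)‖ * M = 2 * M := by rw [norm_neg, norm_one]; ring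
  rw [e] at h3
  obtain ⟨g, hg, hgB⟩ := h3.solve hs0 hs1 hrs hr0 hG (by simp [ch_zero]) hdiv
  have hg' : ∀ t, g (t + θ) - g t = F t - F (-t - θ) := by
    intro t
    rw [hg t]
    have : -(t + θ) = -t - θ := by ring
    rw [this]; ring
  refine ⟨fun t => (g t + g (-t)) / 2, ?_, ?_, ?_⟩
  · intro t
    have h4 := hg' t
    have h5 := hg' (-t - θ)
    have e1 : -t - θ + θ = -t := by ring
    have e2 : -(-t - θ) - θ = t := by ring
    have e3 : -(t + θ) = -t - θ := by ring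
    rw [e1, e2] at h5
    simp only [e3]
    linear_combination (1 / 2 : ℂ) * h4 - (1 / 2 : ℂ) * h5
  · intro t
    simp only [neg_neg]; ring
  · have hr2 : 0 ≤ r * s ^ 2 := by positivity
    have h6 := (hgB.add hr2 hgB.refl).half
    have e4 : (G / (1 - s) ^ 2 * (2 * M) + G / (1 - s) ^ 2 * (2 * M)) / 2 = G / (1 - s) ^ 2 * (2 * M) := by
      ring
    rw [e4] at h6
    exact h6

/-- The second cohomological equation: the free constant `b` makes the mean vanish. -/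
lemma B.solve_odd {r N Mτ s θ G : ℝ} {T K0 : ℝ → ℂ} {τ : ℂ} (hT : B r Mτ (fun t => T t - τ))
    (hMτ : Mτ < ‖τ‖) (hK : B r N K0) (hs0 : 0 < s) (hs1 : s < 1)
    (hrs : 1 ≤ r * s ^ 2) (hr1 : 1 ≤ r) (hG : 0 ≤ G)
    (hdiv : ∀ k : ℤ, k ≠ 0 → 1 ≤ G * k ^ 2 * ‖ch k θ - 1‖) :
    ∃ (b : ℂ) (a : ℝ → ℂ), ‖b‖ ≤ N / (‖τ‖ - Mτ) ∧
      (∀ t, a (t + θ) - a t = ((b * T t + K0 t) + (b * T (-t - θ) + K0 (-t - θ))) / 2) ∧
      (∀ t, a (-t) = - a t) ∧
      B (r * s ^ 2) (G / (1 - s) ^ 2 * (‖b‖ * (‖τ‖ + Mτ) + N)) a := by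
  have hr0 : 0 ≤ r := by linarith
  obtain ⟨tc, htc⟩ := hT
  obtain ⟨kc, hkc⟩ := hK
  have hcT : BC r (‖τ‖ + Mτ) (fun k => (if k = 0 then τ else 0) + tc k) T := by
    have := (BC.const (r := r) τ).add hr0 htc
    have e : (fun t => τ + (T t - τ)) = T := by funext t; ring
    rw [e] at this
    exact this
  -- zero coefficient of T
  have htc0 : ‖tc 0‖ ≤ Mτ := by
    refine le_trans ?_ htc.2.1
    have := htc.1.le_tsum 0 (fun k _ => by positivity)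
    simpa using this
  have hkc0 : ‖kc 0‖ ≤ N := by
    refine le_trans ?_ hkc.2.1
    have := hkc.1.le_tsum 0 (fun k _ => by positivity)
    simpa using this
  have hlow : ‖τ‖ - Mτ ≤ ‖τ + tc 0‖ := by
    have h1 : ‖τ‖ ≤ ‖τ + tc 0‖ + ‖tc 0‖ := by
      calc ‖τ‖ = ‖(τ + tc 0) - tc 0‖ := by ring_nf
        _ ≤ _ := norm_sub_le _ _
    linarith
  have hpos : 0 < ‖τ‖ - Mτ := by linarith
  have hne : τ + tc 0 ≠ 0 := norm_pos_iff.mp (lt_of_lt_of_le hpos hlow)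
  set b : ℂ := - kc 0 / (τ + tc 0) with hb
  have hbn : ‖b‖ ≤ N / (‖τ‖ - Mτ) := by
    rw [hb, norm_div, norm_neg]
    have hN : 0 ≤ N := le_trans (norm_nonneg _) hkc0
    gcongr
  have hK1 := (hcT.const_mul b).add hr0 hkc
  have hK2 := (hK1.refl).shift θ
  have hK3 := (hK1.add hr0 hK2).const_mul (1 / 2 : ℂ)
  have e0 : ‖(1 / 2 : ℂ)‖ * (‖b‖ * (‖τ‖ + Mτ) + N + (‖b‖ * (‖τ‖ + Mτ) + N)) = ‖b‖ * (‖τ‖ + Mτ) + N := by
    rw [norm_div, norm_one, Complex.norm_ofNat]; ring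
  rw [e0] at hK3
  obtain ⟨g, hg, hgB⟩ := hK3.solve hs0 hs1 hrs hr0 hG (by
    simp only [ch_zero, neg_zero, if_true, hb]
    field_simp
    ring) hdiv
  have hg' : ∀ t, g (t + θ) - g t = ((b * T t + K0 t) + (b * T (-t - θ) + K0 (-t - θ))) / 2 := by
    intro t
    rw [hg t]
    have : -(t + θ) = -t - θ := by ring
    rw [this]; ring
  refine ⟨b, fun t => (g t - g (-t)) / 2, hbn, ?_, ?_, ?_⟩
  · intro t
    have h4 := hg' t
    have h5 := hg' (-t - θ)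
    have e1 : -t - θ + θ = -t := by ring
    have e2 : -(-t - θ) - θ = t := by ring
    have e3 : -(t + θ) = -t - θ := by ring
    rw [e1, e2] at h5
    simp only [e3]
    linear_combination (1 / 2 : ℂ) * h4 + (1 / 2 : ℂ) * h5
  · intro t
    simp only [neg_neg]; ring
  · have hr2 : 0 ≤ r * s ^ 2 := by positivity
    have h6 := (hgB.sub hr2 hgB.refl).half
    have e4 : ∀ x : ℝ, (x + x) / 2 = x := by intro x; ring
    rw [e4] at h6
    exact h6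

end Pool.Agent.Helper649
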