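import Mathlib

set_option autoImplicit false

namespace Pool.Agent.Helper649.Zono

open MeasureTheory ProbabilityTheory Polynomial
open scoped RealInnerProductSpace Nat NNReal

/-- probabilists Hermite polynomial with real coefficients -/
noncomputable def HP (d : ℕ) : ℝ[X] := (Polynomial.hermite d).map (Int.castRingHom ℝ)

/-- its value at a real number -/
noncomputable def He (d : ℕ) (x : ℝ) : ℝ := (HP d).eval x

/-- sign attached to a Boolean -/
def sg (b : Bool) : ℝ := if b then 1 else -1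

lemma poly_integrable_pow (k : ℕ) (v : ℝ≥0) :
    Integrable (fun x : ℝ => x ^ k) (gaussianReal 0 v) := by
  have h := memLp_id_gaussianReal (μ := 0) (v := v) (k : ℝ≥0)
  have h1 : MemLp (id : ℝ → ℝ) (k : ENNReal) (gaussianReal 0 v) := by
    exact_mod_cast h
  have h2 := h1.integrable_norm_pow'
  refine (integrable_norm_iff ?_).1 ?_
  · exact (continuous_pow k).aestronglyMeasurable
  · have h3 : (fun x : ℝ => ‖x ^ k‖) = fun x : ℝ => ‖id x‖ ^ k := by
      funext x
      rw [norm_pow, id]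
    rw [h3]
    exact h2


lemma poly_integrable (p : ℝ[X]) (v : ℝ≥0) :
    Integrable (fun x => p.eval x) (gaussianReal 0 v) := by
  have h : (fun x : ℝ => p.eval x) = fun x => ∑ i ∈ Finset.range (p.natDegree + 1),
      p.coeff i * x ^ i := by
    funext x
    exact Polynomial.eval_eq_sum_range x
  rw [h]
  exact integrable_finsetSum _ fun i _ => (poly_integrable_pow i v).const_mul _

lemma stein_int (q : ℝ[X]) :
    Integrable (fun x => gaussianPDFReal 0 1 x * q.eval x) := by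
  have h := poly_integrable q 1
  rw [gaussianReal_of_var_ne_zero 0 one_ne_zero,
    integrable_withDensity_iff_integrable_smul' (measurable_gaussianPDF _ _)
      (Filter.Eventually.of_forall fun _ => gaussianPDF_lt_top)] at h
  simpa only [toReal_gaussianPDF, smul_eq_mul] using h

lemma stein_deriv (x : ℝ) :
    HasDerivAt (gaussianPDFReal 0 1) (-(x * gaussianPDFReal 0 1 x)) x := by
  have h5 : gaussianPDFReal 0 1 = fun y : ℝ => (Real.sqrt (2 * Real.pi * ((1 : ℝ≥0) : ℝ)))⁻¹ *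
      Real.exp (-y ^ 2 / 2) := by
    funext y
    unfold gaussianPDFReal
    rw [sub_zero, NNReal.coe_one, mul_one, mul_one]
  have h1 : HasDerivAt (fun y : ℝ => -y ^ 2 / 2) (-x) x := by
    have h2 : HasDerivAt (fun y : ℝ => y ^ 2) (2 * x) x := by
      have := hasDerivAt_pow 2 x
      simpa using this
    have h3 : HasDerivAt (fun y : ℝ => -y ^ 2 / 2) (-(2 * x) / 2) x := (h2.fun_neg).div_const 2
    exact h3.congr_deriv (by ring)
  have h4 := (h1.exp).const_mul ((Real.sqrt (2 * Real.pi * ((1 : ℝ≥0) : ℝ)))⁻¹)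
  rw [h5]
  exact h4.congr_deriv (by ring)


lemma stein (p : ℝ[X]) :
    ∫ x, x * p.eval x ∂(gaussianReal 0 1) = ∫ x, p.derivative.eval x ∂(gaussianReal 0 1) := by
  rw [integral_gaussianReal_eq_integral_smul one_ne_zero,
    integral_gaussianReal_eq_integral_smul one_ne_zero]
  have h1 := integral_mul_deriv_eq_deriv_mul_of_integrable
    (u := fun x => p.eval x) (u' := fun x => p.derivative.eval x)
    (v := gaussianPDFReal 0 1) (v' := fun x => -(x * gaussianPDFReal 0 1 x))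
    (fun x _ => p.hasDerivAt x) (fun x _ => stein_deriv x)
    (by
      have := (stein_int (X * p)).neg
      refine this.congr (Filter.Eventually.of_forall fun x => ?_)
      simp only [Pi.neg_apply, Pi.mul_apply, eval_mul, eval_X]
      ring)
    (by
      refine (stein_int p.derivative).congr (Filter.Eventually.of_forall fun x => ?_)
      simp only [Pi.mul_apply]
      ring)
    (by
      refine (stein_int p).congr (Filter.Eventually.of_forall fun x => ?_)
      simp only [Pi.mul_apply]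
      ring)
  have e1 : ∫ x, gaussianPDFReal 0 1 x • (x * p.eval x) =
      - ∫ x, p.eval x * -(x * gaussianPDFReal 0 1 x) := by
    rw [← integral_neg]
    refine integral_congr_ae (Filter.Eventually.of_forall fun x => ?_)
    simp only [smul_eq_mul]
    ring
  have e2 : ∫ x, gaussianPDFReal 0 1 x • p.derivative.eval x =
      ∫ x, p.derivative.eval x * gaussianPDFReal 0 1 x := by
    refine integral_congr_ae (Filter.Eventually.of_forall fun x => ?_)
    simp only [smul_eq_mul]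
    ring
  rw [e1, e2, h1, neg_neg]

lemma HP_succ (d : ℕ) : HP (d + 1) = X * HP d - derivative (HP d) := by
  unfold HP
  rw [Polynomial.hermite_succ, Polynomial.map_sub, Polynomial.map_mul, Polynomial.map_X,
    Polynomial.derivative_map]

lemma HP_deriv (d : ℕ) : derivative (HP (d + 1)) = C ((d : ℝ) + 1) * HP d := by
  induction d with
  | zero =>
    rw [HP_succ]
    simp [HP]
  | succ d ih =>
    rw [HP_succ (d + 1), derivative_sub, derivative_mul, ih, derivative_mul, derivative_X,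
      derivative_C]
    have h := HP_succ d
    have h2 : HP (d + 1) + C ((d : ℝ) + 1) * HP (d + 1) =
        C (((d + 1 : ℕ) : ℝ) + 1) * HP (d + 1) := by
      have : C (((d + 1 : ℕ) : ℝ) + 1) = (1 : ℝ[X]) + C ((d : ℝ) + 1) := by
        rw [← C_1, ← C_add]
        congr 1
        push_cast
        ring
      rw [this]
      ring
    rw [← h2]
    nth_rewrite 3 [h]
    ring

lemma He_ibp (d : ℕ) (p : ℝ[X]) :
    ∫ x, He (d + 1) x * p.eval x ∂(gaussianReal 0 1)
      = ∫ x, He d x * p.derivative.eval x ∂(gaussianReal 0 1) := by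
  have h1 := stein (HP d * p)
  have e1 : ∀ x : ℝ, He (d + 1) x * p.eval x
      = x * (HP d * p).eval x - (derivative (HP d) * p).eval x := by
    intro x
    rw [He, HP_succ]
    simp only [eval_sub, eval_mul, eval_X]
    ring
  have e2 : ∀ x : ℝ, x * (HP d * p).eval x = (X * (HP d * p)).eval x := by
    intro x; simp
  have i1 : Integrable (fun x => x * (HP d * p).eval x) (gaussianReal 0 1) := by
    simp only [e2]
    exact poly_integrable _ 1
  have i2 := poly_integrable (derivative (HP d) * p) 1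
  have i3 := poly_integrable (HP d * derivative p) 1
  simp only [e1]
  rw [integral_sub i1 i2, h1]
  have e3 : ∀ x : ℝ, (derivative (HP d * p)).eval x
      = (derivative (HP d) * p).eval x + (HP d * derivative p).eval x := by
    intro x
    rw [derivative_mul, eval_add]
  simp only [e3]
  rw [integral_add i2 i3, add_sub_cancel_left]
  simp only [He, eval_mul]

lemma He_sq (d : ℕ) : ∫ x, He d x * He d x ∂(gaussianReal 0 1) = (d ! : ℝ) := by
  induction d with
  | zero =>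
    have h : ∀ x, He 0 x = 1 := by
      intro x
      simp [He, HP]
    simp [h]
  | succ d ih =>
    have h := He_ibp d (HP (d + 1))
    have h1 : ∀ x, He (d + 1) x = (HP (d + 1)).eval x := fun x => rfl
    simp_rw [h1] at h ⊢
    rw [h, HP_deriv]
    have h2 : ∀ x, He d x * (C ((d : ℝ) + 1) * HP d).eval x =
        ((d : ℝ) + 1) * (He d x * He d x) := by
      intro x
      rw [eval_mul, eval_C]
      show He d x * (((d : ℝ) + 1) * He d x) = _
      ring
    simp_rw [h2]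
    rw [integral_const_mul, ih, Nat.factorial_succ]
    push_cast
    ring

lemma He_mean (d : ℕ) : ∫ x, He (d + 1) x ∂(gaussianReal 0 1) = 0 := by
  have h := He_ibp d 1
  simpa using h

lemma sm_bound (q : ℝ[X]) (x b M : ℝ) (hx : |x| ≤ M) :
    |q.eval (x + b)| ≤ ∑ n ∈ Finset.range (q.natDegree + 1), |(hasseDeriv n q).eval b| * M ^ n := by
  rw [← taylor_eval, eval_eq_sum_range, natDegree_taylor]
  refine (Finset.abs_sum_le_sum_abs _ _).trans ?_
  refine Finset.sum_le_sum fun n _ => ?_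
  rw [taylor_coeff, abs_mul, abs_pow]
  exact mul_le_mul_of_nonneg_left (pow_le_pow_left₀ (abs_nonneg _) hx n) (abs_nonneg _)

lemma sm_int (p : ℝ[X]) (v : ℝ≥0) (x : ℝ) : Integrable (fun b => p.eval (x + b)) (gaussianReal 0 v) := by
  have h := poly_integrable (p.comp (C x + X)) v
  simpa using h

lemma sm_deriv (p : ℝ[X]) (v : ℝ≥0) (x : ℝ) :
    HasDerivAt (fun x => ∫ b, p.eval (x + b) ∂(gaussianReal 0 v))
      (∫ b, (derivative p).eval (x + b) ∂(gaussianReal 0 v)) x := by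
  refine (hasDerivAt_integral_of_dominated_loc_of_deriv_le (μ := gaussianReal 0 v)
    (F := fun x b => p.eval (x + b)) (F' := fun x b => (derivative p).eval (x + b)) (x₀ := x)
    (s := Metric.ball x 1)
    (bound := fun b => ∑ n ∈ Finset.range ((derivative p).natDegree + 1),
      |(hasseDeriv n (derivative p)).eval b| * (|x| + 1) ^ n)
    (Metric.ball_mem_nhds x one_pos) ?_ (sm_int p v x) ?_ ?_ ?_ ?_).2
  · exact Filter.Eventually.of_forall fun y => (sm_int p v y).aestronglyMeasurable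
  · exact (sm_int _ v x).aestronglyMeasurable
  · refine Filter.Eventually.of_forall fun b y hy => ?_
    refine sm_bound _ y b _ ?_
    rw [Metric.mem_ball, Real.dist_eq] at hy
    have h1 : y = x + (y - x) := by ring
    rw [h1]
    exact (abs_add_le _ _).trans (by linarith)
  · refine integrable_finsetSum _ fun n _ => ?_
    exact ((poly_integrable _ v).abs).mul_const _
  · refine Filter.Eventually.of_forall fun b y hy => ?_
    have h1 := (p.hasDerivAt (y + b)).comp y ((hasDerivAt_id y).add_const b)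
    rw [mul_one] at h1
    exact h1

lemma sm_mean (p : ℝ[X]) (ρ : ℝ) (v : ℝ≥0) (hv : ρ ^ 2 + (v : ℝ) = 1) :
    ∫ u, (∫ b, p.eval (ρ * u + b) ∂(gaussianReal 0 v)) ∂(gaussianReal 0 1) =
      ∫ x, p.eval x ∂(gaussianReal 0 1) := by
  have h1 : gaussianReal 0 (NNReal.mk (ρ ^ 2) (sq_nonneg _) * 1) ∗ gaussianReal 0 v = gaussianReal 0 1 := by
    rw [gaussianReal_conv_gaussianReal]
    congr 1
    · simp
    · rw [← NNReal.coe_inj]
      push_cast
      simpa using hv
  have h2 : gaussianReal 0 (NNReal.mk (ρ ^ 2) (sq_nonneg _) * 1) =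
      Measure.map (fun x => ρ * x) (gaussianReal 0 1) := by
    rw [gaussianReal_map_const_mul, mul_zero]
  have h3 : Continuous (fun x => ∫ b, p.eval (x + b) ∂(gaussianReal 0 v)) := by
    rw [continuous_iff_continuousAt]
    exact fun x => (sm_deriv p v x).continuousAt
  have h4 : ∫ x, p.eval x ∂(gaussianReal 0 1) = ∫ x, p.eval x
      ∂(gaussianReal 0 (NNReal.mk (ρ ^ 2) (sq_nonneg _) * 1) ∗ gaussianReal 0 v) := by rw [h1]
  rw [h4, integral_conv (by rw [h1]; exact poly_integrable p 1), h2]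
  rw [integral_map (by fun_prop) h3.aestronglyMeasurable]


lemma He_smooth (d : ℕ) (ρ : ℝ) (v : ℝ≥0) (hv : ρ ^ 2 + (v : ℝ) = 1) (u : ℝ) :
    ∫ b, He d (ρ * u + b) ∂(gaussianReal 0 v) = ρ ^ d * He d u := by
  induction d generalizing u with
  | zero =>
    have h0 : ∀ x, He 0 x = 1 := by
      intro x
      simp [He, HP]
    simp [h0]
  | succ d ih =>
    have hder : ∀ u, HasDerivAt (fun u => ∫ b, He (d + 1) (ρ * u + b) ∂(gaussianReal 0 v))
        (ρ ^ (d + 1) * ((d + 1) * He d u)) u := by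
      intro u
      have h1 := (sm_deriv (HP (d + 1)) v (ρ * u)).comp u ((hasDerivAt_id u).const_mul ρ)
      refine h1.congr_deriv ?_
      rw [HP_deriv]
      have h2 : ∀ b, eval (ρ * u + b) (C ((d : ℝ) + 1) * HP d) = ((d : ℝ) + 1) * He d (ρ * u + b) := by
        intro b
        simp [He]
      simp only [h2]
      rw [integral_const_mul, ih u]
      ring
    have hder2 : ∀ u, HasDerivAt (fun u => ρ ^ (d + 1) * He (d + 1) u)
        (ρ ^ (d + 1) * ((d + 1) * He d u)) u := by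
      intro u
      have h1 := ((HP (d + 1)).hasDerivAt u).const_mul (ρ ^ (d + 1))
      rw [HP_deriv] at h1
      refine h1.congr_deriv ?_
      simp [He]
    have hd : ∀ u, HasDerivAt (fun u => (∫ b, He (d + 1) (ρ * u + b) ∂(gaussianReal 0 v)) -
        ρ ^ (d + 1) * He (d + 1) u) 0 u := by
      intro u
      have := (hder u).sub (hder2 u)
      rw [sub_self] at this
      exact this
    have hc : ∀ u, (∫ b, He (d + 1) (ρ * u + b) ∂(gaussianReal 0 v)) -
        ρ ^ (d + 1) * He (d + 1) u = (∫ b, He (d + 1) (ρ * 0 + b) ∂(gaussianReal 0 v)) -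
        ρ ^ (d + 1) * He (d + 1) 0 := by
      intro u
      exact is_const_of_deriv_eq_zero (fun x => (hd x).differentiableAt) (fun x => (hd x).deriv) u 0
    obtain ⟨c, hcc⟩ : ∃ c, c = (∫ b, He (d + 1) (ρ * 0 + b) ∂(gaussianReal 0 v)) -
        ρ ^ (d + 1) * He (d + 1) 0 := ⟨_, rfl⟩
    rw [← hcc] at hc
    have hT : ∀ u, (∫ b, He (d + 1) (ρ * u + b) ∂(gaussianReal 0 v)) =
        c + ρ ^ (d + 1) * He (d + 1) u := by
      intro u
      have := hc u
      linarith
    have hI : ∫ u, (∫ b, He (d + 1) (ρ * u + b) ∂(gaussianReal 0 v)) ∂(gaussianReal 0 1) = 0 :=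
      (sm_mean (HP (d + 1)) ρ v hv).trans (He_mean d)
    simp only [hT] at hI
    have hint : Integrable (fun u => He (d + 1) u) (gaussianReal 0 1) := poly_integrable (HP (d + 1)) 1
    rw [integral_add (integrable_const _) (hint.const_mul _), integral_const, integral_const_mul,
      He_mean] at hI
    simp at hI
    rw [hT u, hI, zero_add]

lemma alpha_val_int (P : ℝ[X]) :
    Integrable (fun x : ℝ => P.eval x * Real.exp (-(1/2) * x ^ 2)) := by
  induction P using Polynomial.induction_on' with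
  | add p q hp hq =>
    have := hp.add hq
    refine this.congr (Filter.Eventually.of_forall fun x => ?_)
    simp only [Pi.add_apply, Polynomial.eval_add]
    ring
  | monomial n a =>
    have h := integrable_rpow_mul_exp_neg_mul_sq (b := 1/2) (by norm_num) (s := (n : ℝ))
      (by have : (0:ℝ) ≤ n := Nat.cast_nonneg n
          linarith)
    have h2 := h.const_mul a
    refine h2.congr (Filter.Eventually.of_forall fun x => ?_)
    simp only [Polynomial.eval_monomial, Real.rpow_natCast]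
    ring

lemma alpha_val_deriv (n : ℕ) (x : ℝ) :
    HasDerivAt (fun x : ℝ => He n x * Real.exp (-(1/2) * x ^ 2))
      (-(He (n + 1) x * Real.exp (-(1/2) * x ^ 2))) x := by
  have h1 : HasDerivAt (fun x : ℝ => He n x) ((derivative (HP n)).eval x) x :=
    (HP n).hasDerivAt x
  have h2 : HasDerivAt (fun x : ℝ => Real.exp (-(1/2) * x ^ 2))
      (Real.exp (-(1/2) * x ^ 2) * (-(1/2) * (2 * x))) x := by
    have h3 : HasDerivAt (fun x : ℝ => -(1/2) * x ^ 2) (-(1/2) * (2 * x)) x := by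
      have := (hasDerivAt_pow 2 x).const_mul (-(1/2) : ℝ)
      simpa using this
    exact h3.exp
  have h4 : HasDerivAt (fun x : ℝ => He n x * Real.exp (-(1/2) * x ^ 2)) _ x := h1.mul h2
  refine h4.congr_deriv ?_
  have h5 : He (n + 1) x = x * He n x - (derivative (HP n)).eval x := by
    unfold He
    rw [HP_succ]
    simp
  rw [h5]
  ring

lemma alpha_val_neg (n : ℕ) :
    (∀ x, He n (-x) = (-1) ^ n * He n x) ∧
    (∀ x, (derivative (HP n)).eval (-x) = (-1) ^ (n + 1) * (derivative (HP n)).eval x) := by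
  induction n with
  | zero =>
    have h0 : HP 0 = 1 := by
      unfold HP
      simp
    constructor
    · intro x
      unfold He
      simp [h0]
    · intro x
      simp [h0]
  | succ n ih =>
    obtain ⟨h1, h2⟩ := ih
    constructor
    · intro x
      have h5 : ∀ y, He (n + 1) y = y * He n y - (derivative (HP n)).eval y := by
        intro y
        unfold He
        rw [HP_succ]
        simp
      rw [h5, h5, h1, h2]
      ring
    · intro x
      rw [HP_deriv]
      simp only [Polynomial.eval_mul, Polynomial.eval_C]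
      have h3 : (HP n).eval (-x) = (-1) ^ n * (HP n).eval x := h1 x
      rw [h3]
      ring


lemma alpha_val (k : ℕ) :
    ∫ x, |x| * He (2 * k + 2) x ∂(gaussianReal 0 1) = Real.sqrt (2 / Real.pi) * He (2 * k) 0 := by
  rw [integral_gaussianReal_eq_integral_smul (by norm_num)]
  have heven : ∀ x, He (2 * k + 2) |x| = He (2 * k + 2) x := by
    intro x
    rcases abs_choice x with h | h
    · rw [h]
    · rw [h, (alpha_val_neg (2 * k + 2)).1 x]
      have : ((-1 : ℝ)) ^ (2 * k + 2) = 1 := by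
        rw [show 2 * k + 2 = 2 * (k + 1) by ring, pow_mul]
        simp
      rw [this, one_mul]
  have hfun : (fun x : ℝ => gaussianPDFReal 0 1 x • (|x| * He (2 * k + 2) x)) =
      fun x : ℝ => (fun y : ℝ => (Real.sqrt (2 * Real.pi))⁻¹ *
        (y * (He (2 * k + 2) y * Real.exp (-(1/2) * y ^ 2)))) |x| := by
    funext x
    simp only [gaussianPDFReal, smul_eq_mul, heven, sq_abs]
    have e1 : (-(x - 0) ^ 2 / (2 * ((1 : ℝ≥0) : ℝ))) = -(1/2) * x ^ 2 := by
      simp
      ring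
    rw [e1]
    simp only [NNReal.coe_one, mul_one]
    ring
  rw [hfun, integral_comp_abs (f := fun y : ℝ => (Real.sqrt (2 * Real.pi))⁻¹ *
        (y * (He (2 * k + 2) y * Real.exp (-(1/2) * y ^ 2))))]
  rw [integral_const_mul]
  -- antiderivative
  obtain ⟨F, hF⟩ : ∃ F : ℝ → ℝ, F = fun x => -(x * (He (2 * k + 1) x * Real.exp (-(1/2) * x ^ 2))
      + He (2 * k) x * Real.exp (-(1/2) * x ^ 2)) := ⟨_, rfl⟩
  have hderiv : ∀ x, HasDerivAt F (x * (He (2 * k + 2) x * Real.exp (-(1/2) * x ^ 2))) x := by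
    intro x
    have a1 := alpha_val_deriv (2 * k + 1) x
    have a2 := alpha_val_deriv (2 * k) x
    have a3 : HasDerivAt (fun x => -(x * (He (2 * k + 1) x * Real.exp (-(1/2) * x ^ 2))
      + He (2 * k) x * Real.exp (-(1/2) * x ^ 2))) _ x := (((hasDerivAt_id x).mul a1).add a2).neg
    rw [hF]
    refine a3.congr_deriv ?_
    simp only [id]
    ring
  have hint : Integrable (fun x : ℝ => x * (He (2 * k + 2) x * Real.exp (-(1/2) * x ^ 2))) := by
    have := alpha_val_int (X * HP (2 * k + 2))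
    refine this.congr (Filter.Eventually.of_forall fun x => ?_)
    simp only [Polynomial.eval_mul, Polynomial.eval_X]
    unfold He
    ring
  have hintF : Integrable F := by
    have := alpha_val_int (-(X * HP (2 * k + 1) + HP (2 * k)))
    refine this.congr (Filter.Eventually.of_forall fun x => ?_)
    rw [hF]
    simp only [Polynomial.eval_mul, Polynomial.eval_X, Polynomial.eval_add, Polynomial.eval_neg]
    unfold He
    ring
  have htend : Filter.Tendsto F Filter.atTop (nhds 0) :=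
    tendsto_zero_of_hasDerivAt_of_integrableOn_Ioi (a := 0) (fun x _ => hderiv x)
      hint.integrableOn hintF.integrableOn
  have hFTC := integral_Ioi_of_hasDerivAt_of_tendsto (a := 0) (f := F)
    (hderiv 0).continuousAt.continuousWithinAt (fun x _ => hderiv x) hint.integrableOn htend
  rw [hFTC]
  have hF0 : F 0 = - He (2 * k) 0 := by
    rw [hF]
    simp
  rw [hF0]
  have hpi : (0:ℝ) < Real.pi := Real.pi_pos
  have hs : Real.sqrt (2 / Real.pi) = 2 * (Real.sqrt (2 * Real.pi))⁻¹ := by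
    rw [Real.sqrt_eq_iff_mul_self_eq (by positivity) (by positivity)]
    have h1 : Real.sqrt (2 * Real.pi) * Real.sqrt (2 * Real.pi) = 2 * Real.pi :=
      Real.mul_self_sqrt (by positivity)
    have h2 : (2 * (Real.sqrt (2 * Real.pi))⁻¹) * (2 * (Real.sqrt (2 * Real.pi))⁻¹)
        = 4 * (Real.sqrt (2 * Real.pi) * Real.sqrt (2 * Real.pi))⁻¹ := by
      rw [mul_inv]
      ring
    rw [h2, h1]
    field_simp
    norm_num
  rw [hs]
  ring

lemma He_zero (k : ℕ) : He (2 * k) 0 = (-1 : ℝ) ^ k * ((2 * k - 1)‼ : ℕ) := by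
  unfold He HP
  rw [← Polynomial.coeff_zero_eq_eval_zero, Polynomial.coeff_map]
  have h := Polynomial.coeff_hermite_explicit k 0
  rw [add_zero] at h
  rw [h]
  simp

lemma alpha_bound_rec (k : ℕ) : (2 * (k + 1) - 1)‼ = (2 * k + 1) * (2 * k - 1)‼ := by
  rcases k with _ | k
  · rfl
  · have h1 : 2 * (k + 1 + 1) - 1 = (2 * (k + 1) - 1) + 2 := by omega
    rw [h1, Nat.doubleFactorial_add_two]
    congr 1

lemma alpha_bound_fact (k : ℕ) : (2 * k)! = (2 * k - 1)‼ * (2 ^ k * k !) := by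
  induction k with
  | zero => rfl
  | succ k ih =>
    rw [alpha_bound_rec, show 2 * (k + 1) = 2 * k + 1 + 1 by ring, Nat.factorial_succ,
      Nat.factorial_succ, ih, Nat.factorial_succ, pow_succ]
    ring

lemma alpha_bound_P (k : ℕ) : (2 ^ k * k !) ^ 2 ≤ (4 * k + 1) * ((2 * k - 1)‼) ^ 2 := by
  induction k with
  | zero => decide
  | succ k ih =>
    rw [alpha_bound_rec, Nat.factorial_succ, pow_succ]
    calc (2 ^ k * 2 * ((k + 1) * k !)) ^ 2 = 4 * (k + 1) ^ 2 * (2 ^ k * k !) ^ 2 := by ring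
      _ ≤ 4 * (k + 1) ^ 2 * ((4 * k + 1) * ((2 * k - 1)‼) ^ 2) := Nat.mul_le_mul_left _ ih
      _ = (4 * (k + 1) ^ 2 * (4 * k + 1)) * ((2 * k - 1)‼) ^ 2 := by ring
      _ ≤ ((4 * (k + 1) + 1) * (2 * k + 1) ^ 2) * ((2 * k - 1)‼) ^ 2 := by
          apply Nat.mul_le_mul_right
          nlinarith
      _ = (4 * (k + 1) + 1) * ((2 * k + 1) * (2 * k - 1)‼) ^ 2 := by ring


lemma alpha_bound (k : ℕ) :
    1 / (4 * Real.pi * ((k : ℝ) + 1) ^ (5 / 2 : ℝ)) * ((2 * k + 2)! : ℝ)
      ≤ (Real.sqrt (2 / Real.pi) * ((2 * k - 1)‼ : ℕ)) ^ 2 := by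
  have hpi := Real.pi_pos
  set D : ℝ := (((2 * k - 1)‼ : ℕ) : ℝ) with hD
  set E : ℝ := ((2 ^ k * k ! : ℕ) : ℝ) with hE
  have hD0 : 0 ≤ D := Nat.cast_nonneg _
  have hE0 : 0 ≤ E := Nat.cast_nonneg _
  have hx : (0 : ℝ) < (k : ℝ) + 1 := by positivity
  have hfact : (((2 * k + 2)! : ℕ) : ℝ) = 2 * ((k : ℝ) + 1) * (2 * k + 1) * (D * E) := by
    have h1 : (2 * k + 2)! = (2 * k + 2) * ((2 * k + 1) * ((2 * k - 1)‼ * (2 ^ k * k !))) := by
      rw [← alpha_bound_fact, ← Nat.factorial_succ, ← Nat.factorial_succ]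
    rw [h1, hD, hE]
    push_cast
    ring
  have hP : E ^ 2 ≤ (4 * (k : ℝ) + 1) * D ^ 2 := by
    have := alpha_bound_P k
    rw [hD, hE]
    exact_mod_cast this
  have hpow : ((k : ℝ) + 1) ^ (5 / 2 : ℝ) = ((k : ℝ) + 1) ^ 2 * Real.sqrt ((k : ℝ) + 1) := by
    rw [Real.sqrt_eq_rpow, ← Real.rpow_natCast, ← Real.rpow_add hx]
    norm_num
  have hs : Real.sqrt ((k : ℝ) + 1) ^ 2 = (k : ℝ) + 1 := Real.sq_sqrt hx.le
  have hs0 : 0 < Real.sqrt ((k : ℝ) + 1) := Real.sqrt_pos.2 hx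
  have hmain : (2 * (k : ℝ) + 1) * E ≤ 4 * ((k : ℝ) + 1) * Real.sqrt ((k : ℝ) + 1) * D := by
    apply le_of_sq_le_sq
    · calc ((2 * (k : ℝ) + 1) * E) ^ 2 = (2 * (k : ℝ) + 1) ^ 2 * E ^ 2 := by ring
        _ ≤ (2 * (k : ℝ) + 1) ^ 2 * ((4 * (k : ℝ) + 1) * D ^ 2) :=
            mul_le_mul_of_nonneg_left hP (by positivity)
        _ = ((2 * (k : ℝ) + 1) ^ 2 * (4 * (k : ℝ) + 1)) * D ^ 2 := by ring
        _ ≤ (16 * ((k : ℝ) + 1) ^ 3) * D ^ 2 := by
            apply mul_le_mul_of_nonneg_right _ (sq_nonneg D)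
            have hk : (0 : ℝ) ≤ k := Nat.cast_nonneg k
            nlinarith [mul_nonneg hk hk, mul_nonneg (mul_nonneg hk hk) hk]
        _ = (4 * ((k : ℝ) + 1) * Real.sqrt ((k : ℝ) + 1) * D) ^ 2 := by
            have h2 : (4 * ((k : ℝ) + 1) * Real.sqrt ((k : ℝ) + 1) * D) ^ 2 =
              16 * ((k : ℝ) + 1) ^ 2 * (Real.sqrt ((k : ℝ) + 1) ^ 2) * D ^ 2 := by ring
            rw [h2, hs]; ring
    · positivity
  have hR : (Real.sqrt (2 / Real.pi) * D) ^ 2 = 2 / Real.pi * D ^ 2 := by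
    rw [mul_pow, Real.sq_sqrt (by positivity)]
  rw [hR, hfact, hpow]
  have hden : 0 < 4 * Real.pi * (((k : ℝ) + 1) ^ 2 * Real.sqrt ((k : ℝ) + 1)) := by positivity
  rw [one_div, inv_mul_le_iff₀ hden]
  have h3 : 4 * Real.pi * (((k : ℝ) + 1) ^ 2 * Real.sqrt ((k : ℝ) + 1)) * (2 / Real.pi * D ^ 2)
      = (2 * ((k : ℝ) + 1) * D) * (4 * ((k : ℝ) + 1) * Real.sqrt ((k : ℝ) + 1) * D) := by
    field_simp
  rw [h3]
  calc 2 * ((k : ℝ) + 1) * (2 * k + 1) * (D * E)
      = (2 * ((k : ℝ) + 1) * D) * ((2 * (k : ℝ) + 1) * E) := by ring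
    _ ≤ (2 * ((k : ℝ) + 1) * D) * (4 * ((k : ℝ) + 1) * Real.sqrt ((k : ℝ) + 1) * D) :=
        mul_le_mul_of_nonneg_left hmain (by positivity)

lemma map_inner {n : ℕ} (v : EuclideanSpace ℝ (Fin n)) :
    (stdGaussian (EuclideanSpace ℝ (Fin n))).map (fun g => ⟪v, g⟫) = gaussianReal 0 (‖v‖₊ ^ 2) := by
  have h := IsGaussian.map_eq_gaussianReal (μ := stdGaussian (EuclideanSpace ℝ (Fin n))) (innerSL ℝ v)
  rw [integral_strongDual_stdGaussian, variance_dual_stdGaussian, innerSL_apply_norm] at h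
  have e : (‖v‖ ^ 2).toNNReal = ‖v‖₊ ^ 2 := by
    rw [← coe_nnnorm, ← NNReal.coe_pow, Real.toNNReal_coe]
  rw [e] at h
  exact h

lemma indep_inner {n : ℕ} (v w : EuclideanSpace ℝ (Fin n)) (h : ⟪v, w⟫ = 0) :
    IndepFun (fun g => ⟪v, g⟫) (fun g => ⟪w, g⟫)
      (stdGaussian (EuclideanSpace ℝ (Fin n))) := by
  have hm : MemLp (id : EuclideanSpace ℝ (Fin n) → EuclideanSpace ℝ (Fin n)) 2
      (stdGaussian (EuclideanSpace ℝ (Fin n))) := IsGaussian.memLp_two_id
  apply HasGaussianLaw.indepFun_of_covariance_eq_zero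
  · have h1 : HasGaussianLaw (id : EuclideanSpace ℝ (Fin n) → EuclideanSpace ℝ (Fin n))
        (stdGaussian (EuclideanSpace ℝ (Fin n))) := IsGaussian.hasGaussianLaw_id
    exact h1.map_of_measurable ((innerSL ℝ v).prod (innerSL ℝ w))
      (ContinuousLinearMap.continuous _).measurable
  · rw [← covarianceBilin_apply_eq_cov hm, covarianceBilin_stdGaussian, innerSL_apply_apply]
    exact h

lemma mehler {n : ℕ} (f : ℝ → ℝ) (hf : Measurable f) (hf2 : MemLp f 2 (gaussianReal 0 1)) (d : ℕ)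
    (y z : EuclideanSpace ℝ (Fin n)) (hy : ‖y‖ = 1) (hz : ‖z‖ = 1) :
    ∫ g, f ⟪y, g⟫ * He d ⟪z, g⟫ ∂(stdGaussian (EuclideanSpace ℝ (Fin n)))
      = ⟪y, z⟫ ^ d * ∫ a, f a * He d a ∂(gaussianReal 0 1) := by
  set γ := stdGaussian (EuclideanSpace ℝ (Fin n)) with hγ
  set ρ : ℝ := ⟪y, z⟫ with hρ
  set w := z - ρ • y with hw
  have hyy : ⟪y, y⟫ = (1 : ℝ) := by rw [real_inner_self_eq_norm_sq, hy]; norm_num
  have hyw : ⟪y, w⟫ = (0 : ℝ) := by
    rw [hw, inner_sub_right, inner_smul_right, hyy, ← hρ]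
    ring
  have hwn : ‖w‖ ^ 2 = 1 - ρ ^ 2 := by
    rw [hw, norm_sub_sq_real, norm_smul, inner_smul_right, real_inner_comm, ← hρ, hy, hz, mul_one,
      Real.norm_eq_abs, sq_abs]
    ring
  have hzg : ∀ g : EuclideanSpace ℝ (Fin n), ⟪z, g⟫ = ρ * ⟪y, g⟫ + ⟪w, g⟫ := by
    intro g
    rw [hw, inner_sub_left, real_inner_smul_left]
    ring
  have my : Measurable (fun g : EuclideanSpace ℝ (Fin n) => ⟪y, g⟫) := by fun_prop
  have mz : Measurable (fun g : EuclideanSpace ℝ (Fin n) => ⟪z, g⟫) := by fun_prop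
  have mw : Measurable (fun g : EuclideanSpace ℝ (Fin n) => ⟪w, g⟫) := by fun_prop
  have hHe : Continuous (He d) := (HP d).continuous
  have hmy : γ.map (fun g => ⟪y, g⟫) = gaussianReal 0 1 := by
    rw [hγ, map_inner]
    congr 1
    ext
    simp [hy]
  have hmz : γ.map (fun g => ⟪z, g⟫) = gaussianReal 0 1 := by
    rw [hγ, map_inner]
    congr 1
    ext
    simp [hz]
  have hHe2 : MemLp (He d) 2 (gaussianReal 0 1) := by
    rw [memLp_two_iff_integrable_sq hHe.aestronglyMeasurable]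
    have := poly_integrable ((HP d) ^ 2) 1
    simpa [He] using this
  have hL1 : MemLp (fun g => f ⟪y, g⟫) 2 γ := by
    have h1 : MemLp f 2 (γ.map (fun g => ⟪y, g⟫)) := by rw [hmy]; exact hf2
    exact (memLp_map_measure_iff hf.aestronglyMeasurable my.aemeasurable).1 h1
  have hL2 : MemLp (fun g => He d ⟪z, g⟫) 2 γ := by
    have h1 : MemLp (He d) 2 (γ.map (fun g => ⟪z, g⟫)) := by rw [hmz]; exact hHe2
    exact (memLp_map_measure_iff hHe.aestronglyMeasurable mz.aemeasurable).1 h1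
  have hint : Integrable (fun g => f ⟪y, g⟫ * He d ⟪z, g⟫) γ := hL1.integrable_mul hL2
  have hprod : γ.map (fun g => (⟪y, g⟫, ⟪w, g⟫)) =
      (gaussianReal 0 1).prod (gaussianReal 0 (‖w‖₊ ^ 2)) := by
    have h1 := (indepFun_iff_map_prod_eq_prod_map_map my.aemeasurable mw.aemeasurable).1
      (indep_inner y w hyw)
    rw [← hγ, hmy] at h1
    rw [h1, hγ, map_inner]
  have hF : Measurable (fun p : ℝ × ℝ => f p.1 * He d (ρ * p.1 + p.2)) :=
    (hf.comp measurable_fst).mul (hHe.measurable.comp (by fun_prop))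
  have hmp : Measurable (fun g : EuclideanSpace ℝ (Fin n) => ((⟪y, g⟫ : ℝ), (⟪w, g⟫ : ℝ))) :=
    my.prodMk mw
  have hcong : (fun g : EuclideanSpace ℝ (Fin n) => f ⟪y, g⟫ * He d ⟪z, g⟫) =
      fun g => (fun p : ℝ × ℝ => f p.1 * He d (ρ * p.1 + p.2)) (⟪y, g⟫, ⟪w, g⟫) := by
    funext g
    show f ⟪y, g⟫ * He d ⟪z, g⟫ = f ⟪y, g⟫ * He d (ρ * ⟪y, g⟫ + ⟪w, g⟫)
    rw [hzg]
  have hintF : Integrable (fun p : ℝ × ℝ => f p.1 * He d (ρ * p.1 + p.2))
      ((gaussianReal 0 1).prod (gaussianReal 0 (‖w‖₊ ^ 2))) := by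
    rw [← hprod, integrable_map_measure hF.aestronglyMeasurable hmp.aemeasurable]
    rw [hcong] at hint
    exact hint
  have hv : ρ ^ 2 + ((‖w‖₊ ^ 2 : ℝ≥0) : ℝ) = 1 := by
    push_cast
    rw [hwn]
    ring
  calc ∫ g, f ⟪y, g⟫ * He d ⟪z, g⟫ ∂γ
      = ∫ p : ℝ × ℝ, f p.1 * He d (ρ * p.1 + p.2) ∂(γ.map (fun g => (⟪y, g⟫, ⟪w, g⟫))) := by
        rw [integral_map hmp.aemeasurable hF.aestronglyMeasurable, hcong]
    _ = ∫ a, ∫ b, f a * He d (ρ * a + b) ∂(gaussianReal 0 (‖w‖₊ ^ 2)) ∂(gaussianReal 0 1) := by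
        rw [hprod, integral_prod _ hintF]
    _ = ∫ a, ρ ^ d * (f a * He d a) ∂(gaussianReal 0 1) := by
        refine integral_congr_ae (Filter.Eventually.of_forall (fun a => ?_))
        show ∫ b, f a * He d (ρ * a + b) ∂(gaussianReal 0 (‖w‖₊ ^ 2)) = ρ ^ d * (f a * He d a)
        rw [integral_const_mul, He_smooth d ρ _ hv a]
        ring
    _ = ρ ^ d * ∫ a, f a * He d a ∂(gaussianReal 0 1) := integral_const_mul _ _

lemma radial {n : ℕ} (d : ℕ) (y z : EuclideanSpace ℝ (Fin n)) (hy : ‖y‖ = 1) (hz : ‖z‖ = 1) :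
    ∫ g, ‖g‖ * He d ⟪y, g⟫ ∂(stdGaussian (EuclideanSpace ℝ (Fin n)))
      = ∫ g, ‖g‖ * He d ⟪z, g⟫ ∂(stdGaussian (EuclideanSpace ℝ (Fin n))) := by
  obtain ⟨T, hTy⟩ : ∃ T : EuclideanSpace ℝ (Fin n) ≃ₗᵢ[ℝ] EuclideanSpace ℝ (Fin n), T y = z :=
    ⟨(Submodule.span ℝ {y - z})ᗮ.reflection, Submodule.reflection_sub (by rw [hy, hz])⟩
  have hmap : (stdGaussian (EuclideanSpace ℝ (Fin n))).map T = stdGaussian (EuclideanSpace ℝ (Fin n)) :=
    stdGaussian_map T
  have h1 := integral_map_equiv (μ := stdGaussian (EuclideanSpace ℝ (Fin n)))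
    T.toHomeomorph.toMeasurableEquiv (fun g => ‖g‖ * He d ⟪z, g⟫)
  have h2 : (⇑T.toHomeomorph.toMeasurableEquiv : EuclideanSpace ℝ (Fin n) → EuclideanSpace ℝ (Fin n)) = ⇑T := rfl
  rw [h2, hmap] at h1
  rw [h1]
  apply integral_congr_ae
  filter_upwards with g
  rw [T.norm_map, ← hTy, T.inner_map_map]

lemma nsi_coord {n : ℕ} (i : Fin n) :
    ∫ g, (g i) ^ 2 ∂(stdGaussian (EuclideanSpace ℝ (Fin n))) = 1 := by
  let L : StrongDual ℝ (EuclideanSpace ℝ (Fin n)) := innerSL ℝ (EuclideanSpace.single i (1 : ℝ))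
  have hL : ∀ g, L g = g i := by
    intro g
    simp only [L, innerSL_apply_apply]
    rw [EuclideanSpace.inner_single_left]
    simp
  have hv := variance_dual_stdGaussian L
  have hm : (stdGaussian (EuclideanSpace ℝ (Fin n)))[L] = 0 := integral_strongDual_stdGaussian L
  rw [variance_of_integral_eq_zero (Measurable.aemeasurable (by fun_prop)) hm] at hv
  have hn : ‖L‖ = 1 := by
    simp only [L]
    rw [innerSL_apply_norm]
    simp
  rw [hn, one_pow] at hv
  rw [← hv]
  refine integral_congr_ae (Filter.Eventually.of_forall fun g => ?_)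
  simp only [Pi.pow_apply, hL]

lemma nsi_int {n : ℕ} (i : Fin n) :
    Integrable (fun g : EuclideanSpace ℝ (Fin n) => (g i) ^ 2)
      (stdGaussian (EuclideanSpace ℝ (Fin n))) := by
  let L : StrongDual ℝ (EuclideanSpace ℝ (Fin n)) := innerSL ℝ (EuclideanSpace.single i (1 : ℝ))
  have hL : ∀ g, L g = g i := by
    intro g
    simp only [L, innerSL_apply_apply]
    rw [EuclideanSpace.inner_single_left]
    simp
  have h1 := (IsGaussian.memLp_dual (stdGaussian (EuclideanSpace ℝ (Fin n))) L 2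
    (by norm_num)).integrable_sq
  refine h1.congr (Filter.Eventually.of_forall fun g => ?_)
  simp only [hL]

lemma norm_sq_int {n : ℕ} :
    ∫ g, ‖g‖ ^ 2 ∂(stdGaussian (EuclideanSpace ℝ (Fin n))) = n := by
  have h1 : ∀ g : EuclideanSpace ℝ (Fin n), ‖g‖ ^ 2 = ∑ i, (g i) ^ 2 := by
    intro g
    rw [EuclideanSpace.norm_sq_eq]
    refine Finset.sum_congr rfl fun i _ => ?_
    rw [Real.norm_eq_abs, sq_abs]
  simp only [h1]
  rw [integral_finset_sum _ (fun i _ => nsi_int i)]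
  simp [nsi_coord]

lemma khin_dfact (m : ℕ) : (2 * m)! = 2 ^ m * m ! * (2 * m - 1)‼ := by
  rcases m with _ | m
  · simp
  · have h1 : 2 * (m + 1) = (2 * m + 1) + 1 := by ring
    have h2 : 2 * (m + 1) - 1 = 2 * m + 1 := by omega
    rw [h2, h1, Nat.factorial_eq_mul_doubleFactorial, ← h1, Nat.doubleFactorial_two_mul]

lemma khin_two_pow (j : ℕ) : 2 ^ j * j ! ≤ (2 * j)! := by
  rw [khin_dfact j]
  exact Nat.le_mul_of_pos_right _ (Nat.doubleFactorial_pos _)

lemma khin_choose (j m : ℕ) :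
    (2 * (j + m)).choose (2 * j) * (2 * m - 1)‼ ≤ (2 * (j + m) - 1)‼ * (j + m).choose j := by
  have e1 : (2 * (j + m)).choose (2 * j) * (2 * j)! * (2 * m)! = (2 * (j + m))! := by
    have := Nat.choose_mul_factorial_mul_factorial (n := 2 * (j + m)) (k := 2 * j) (by omega)
    have h : 2 * (j + m) - 2 * j = 2 * m := by omega
    rwa [h] at this
  have e2 : (j + m).choose j * j ! * m ! = (j + m)! := by
    have := Nat.choose_mul_factorial_mul_factorial (n := j + m) (k := j) (by omega)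
    have h : j + m - j = m := by omega
    rwa [h] at this
  have e3 := khin_dfact m
  have e4 := khin_dfact (j + m)
  have e5 := khin_two_pow j
  have hpos : 0 < (2 * j)! * (2 ^ m * m !) := by positivity
  refine le_of_mul_le_mul_right ?_ hpos
  calc (2 * (j + m)).choose (2 * j) * (2 * m - 1)‼ * ((2 * j)! * (2 ^ m * m !))
      = (2 * (j + m)).choose (2 * j) * (2 * j)! * (2 ^ m * m ! * (2 * m - 1)‼) := by ring
    _ = (2 * (j + m))! := by rw [← e3, e1]
    _ = 2 ^ (j + m) * ((j + m).choose j * j ! * m !) * (2 * (j + m) - 1)‼ := by rw [e4, e2]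
    _ = (2 * (j + m) - 1)‼ * (j + m).choose j * (2 ^ j * j !) * (2 ^ m * m !) := by ring
    _ ≤ (2 * (j + m) - 1)‼ * (j + m).choose j * (2 * j)! * (2 ^ m * m !) := by gcongr
    _ = _ := by ring

lemma khin_split (f : ℕ → ℝ) (k : ℕ) :
    ∑ m ∈ Finset.range (2 * k + 1), f m
      = ∑ j ∈ Finset.range (k + 1), f (2 * j) + ∑ j ∈ Finset.range k, f (2 * j + 1) := by
  induction k with
  | zero => simp
  | succ k ih =>
    have h : 2 * (k + 1) + 1 = (2 * k + 1) + 1 + 1 := by ring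
    rw [h, Finset.sum_range_succ, Finset.sum_range_succ, ih, Finset.sum_range_succ _ (k + 1),
      Finset.sum_range_succ (fun j => f (2 * j + 1)) k]
    have h2 : 2 * k + 1 + 1 = 2 * (k + 1) := by ring
    rw [h2]; ring

lemma khin_binom (x y : ℝ) (k : ℕ) :
    (y + x) ^ (2 * k) + (-y + x) ^ (2 * k)
      = 2 * ∑ j ∈ Finset.range (k + 1),
        ((2 * k).choose (2 * j) : ℝ) * (x ^ (2 * (k - j)) * y ^ (2 * j)) := by
  rw [add_pow, add_pow, ← Finset.sum_add_distrib, khin_split, Finset.mul_sum]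
  have h0 : ∑ j ∈ Finset.range k, (y ^ (2 * j + 1) * x ^ (2 * k - (2 * j + 1)) *
      ((2 * k).choose (2 * j + 1) : ℝ) + (-y) ^ (2 * j + 1) * x ^ (2 * k - (2 * j + 1)) *
      ((2 * k).choose (2 * j + 1) : ℝ)) = 0 := by
    apply Finset.sum_eq_zero
    intro j _
    rw [Odd.neg_pow ⟨j, rfl⟩]; ring
  rw [h0, add_zero]
  apply Finset.sum_congr rfl
  intro j _
  rw [Even.neg_pow ⟨j, by ring⟩]
  have h : 2 * k - 2 * j = 2 * (k - j) := by omega
  rw [h]; ring

lemma khin (n k : ℕ) (y : Fin n → ℝ) :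
    ∑ σ : Fin n → Bool, (∑ i, sg (σ i) * y i) ^ (2 * k)
      ≤ 2 ^ n * ((2 * k - 1)‼ : ℕ) * (∑ i, y i ^ 2) ^ k := by
  induction n generalizing k with
  | zero =>
    rcases k with _ | k
    · simp
    · simp
  | succ n ih =>
    set s : ℝ := ∑ i : Fin n, y i.succ ^ 2 with hs
    have hs0 : 0 ≤ s := Finset.sum_nonneg (fun i _ => sq_nonneg _)
    have e1 : ∑ σ : Fin (n + 1) → Bool, (∑ i, sg (σ i) * y i) ^ (2 * k)
        = ∑ τ : Fin n → Bool, ((y 0 + ∑ i, sg (τ i) * y i.succ) ^ (2 * k)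
            + (-(y 0) + ∑ i, sg (τ i) * y i.succ) ^ (2 * k)) := by
      rw [← (Fin.consEquiv (fun _ : Fin (n + 1) => Bool)).sum_comp, Fintype.sum_prod_type,
        Fintype.sum_bool, ← Finset.sum_add_distrib]
      apply Finset.sum_congr rfl
      intro τ _
      simp only [Fin.consEquiv_apply, Fin.sum_univ_succ, Fin.cons_zero, Fin.cons_succ]
      simp [sg]
    rw [e1]
    have e2 : ∀ τ : Fin n → Bool, ((y 0 + ∑ i, sg (τ i) * y i.succ) ^ (2 * k)
            + (-(y 0) + ∑ i, sg (τ i) * y i.succ) ^ (2 * k))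
        = 2 * ∑ j ∈ Finset.range (k + 1), ((2 * k).choose (2 * j) : ℝ) *
          ((∑ i, sg (τ i) * y i.succ) ^ (2 * (k - j)) * y 0 ^ (2 * j)) :=
      fun τ => khin_binom _ _ _
    rw [Finset.sum_congr rfl (fun τ _ => e2 τ), ← Finset.mul_sum, Finset.sum_comm]
    have e3 : ∀ j ∈ Finset.range (k + 1), ∑ τ : Fin n → Bool, ((2 * k).choose (2 * j) : ℝ) *
          ((∑ i, sg (τ i) * y i.succ) ^ (2 * (k - j)) * y 0 ^ (2 * j))
        ≤ 2 ^ n * ((2 * k - 1)‼ : ℕ) * ((y 0 ^ 2) ^ j * s ^ (k - j) * (k.choose j : ℝ)) := by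
      intro j hj
      have hjk : j ≤ k := by
        have := Finset.mem_range.1 hj; omega
      obtain ⟨m, rfl⟩ := Nat.exists_eq_add_of_le hjk
      have hm : j + m - j = m := by omega
      rw [hm]
      have h1 := ih m (fun i => y i.succ)
      have h2 : ((2 * (j + m)).choose (2 * j) : ℝ) * ((2 * m - 1)‼ : ℕ)
          ≤ ((2 * (j + m) - 1)‼ : ℕ) * ((j + m).choose j : ℝ) := by
        exact_mod_cast khin_choose j m
      have h3 : 0 ≤ y 0 ^ (2 * j) := by rw [pow_mul]; positivity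
      calc ∑ τ : Fin n → Bool, ((2 * (j + m)).choose (2 * j) : ℝ) *
          ((∑ i, sg (τ i) * y i.succ) ^ (2 * m) * y 0 ^ (2 * j))
          = ((2 * (j + m)).choose (2 * j) : ℝ) * y 0 ^ (2 * j) *
            ∑ τ : Fin n → Bool, (∑ i, sg (τ i) * y i.succ) ^ (2 * m) := by
            rw [Finset.mul_sum]
            exact Finset.sum_congr rfl (fun τ _ => by ring)
        _ ≤ ((2 * (j + m)).choose (2 * j) : ℝ) * y 0 ^ (2 * j) *
            (2 ^ n * ((2 * m - 1)‼ : ℕ) * s ^ m) := by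
            apply mul_le_mul_of_nonneg_left h1
            positivity
        _ = (((2 * (j + m)).choose (2 * j) : ℝ) * ((2 * m - 1)‼ : ℕ)) *
            (y 0 ^ (2 * j) * 2 ^ n * s ^ m) := by ring
        _ ≤ (((2 * (j + m) - 1)‼ : ℕ) * ((j + m).choose j : ℝ)) *
            (y 0 ^ (2 * j) * 2 ^ n * s ^ m) := by
            apply mul_le_mul_of_nonneg_right h2
            positivity
        _ = _ := by rw [pow_mul]; ring
    have e4 : ∑ i, y i ^ 2 = y 0 ^ 2 + s := by rw [Fin.sum_univ_succ]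
    calc 2 * ∑ j ∈ Finset.range (k + 1), ∑ τ : Fin n → Bool, ((2 * k).choose (2 * j) : ℝ) *
          ((∑ i, sg (τ i) * y i.succ) ^ (2 * (k - j)) * y 0 ^ (2 * j))
        ≤ 2 * ∑ j ∈ Finset.range (k + 1), 2 ^ n * ((2 * k - 1)‼ : ℕ) *
            ((y 0 ^ 2) ^ j * s ^ (k - j) * (k.choose j : ℝ)) := by
          apply mul_le_mul_of_nonneg_left (Finset.sum_le_sum e3) (by norm_num)
      _ = _ := by
          rw [← Finset.mul_sum, ← add_pow, e4]; ring

lemma memLp_poly833 {n : ℕ} (p : ℝ[X]) (v : EuclideanSpace ℝ (Fin n)) :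
    MemLp (fun g => p.eval ⟪v, g⟫) 2 (stdGaussian (EuclideanSpace ℝ (Fin n))) := by
  have hm : Measurable (fun g : EuclideanSpace ℝ (Fin n) => (⟪v, g⟫ : ℝ)) := by fun_prop
  have hpc : Continuous (fun x : ℝ => p.eval x) := p.continuous
  have hpm : Measurable (fun g : EuclideanSpace ℝ (Fin n) => p.eval (⟪v, g⟫ : ℝ)) :=
    hpc.measurable.comp hm
  rw [memLp_two_iff_integrable_sq hpm.aestronglyMeasurable]
  have h1 : Integrable (fun x => (p ^ 2).eval x)
      ((stdGaussian (EuclideanSpace ℝ (Fin n))).map (fun g => ⟪v, g⟫)) := by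
    rw [map_inner v]
    exact poly_integrable (p ^ 2) _
  have h2 := h1.comp_measurable hm
  refine h2.congr ?_
  filter_upwards with g
  simp [Polynomial.eval_pow]

lemma memLp_He833 {n : ℕ} (d : ℕ) (v : EuclideanSpace ℝ (Fin n)) :
    MemLp (fun g => He d ⟪v, g⟫) 2 (stdGaussian (EuclideanSpace ℝ (Fin n))) :=
  memLp_poly833 (HP d) v

lemma memLp_abs833 {n : ℕ} (v : EuclideanSpace ℝ (Fin n)) :
    MemLp (fun g => |(⟪v, g⟫ : ℝ)|) 2 (stdGaussian (EuclideanSpace ℝ (Fin n))) := by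
  have h := (memLp_poly833 Polynomial.X v).abs
  refine h.congr_norm ?_ ?_
  · have hm : Measurable (fun g : EuclideanSpace ℝ (Fin n) => |(⟪v, g⟫ : ℝ)|) := by fun_prop
    exact hm.aestronglyMeasurable
  · filter_upwards with g
    simp

lemma memLp_norm833 {n : ℕ} :
    MemLp (fun g : EuclideanSpace ℝ (Fin n) => ‖g‖) 2 (stdGaussian (EuclideanSpace ℝ (Fin n))) := by
  have h := IsGaussian.memLp_id (stdGaussian (EuclideanSpace ℝ (Fin n))) 2 (by simp)
  exact h.norm

lemma memLp_He_real833 (d : ℕ) : MemLp (He d) 2 (gaussianReal 0 1) := by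
  have hpc : Continuous (fun x : ℝ => (HP d).eval x) := (HP d).continuous
  have hm : AEStronglyMeasurable (He d) (gaussianReal 0 1) := hpc.measurable.aestronglyMeasurable
  rw [memLp_two_iff_integrable_sq hm]
  have h1 := poly_integrable (HP d ^ 2) 1
  refine h1.congr ?_
  filter_upwards with g
  simp [Polynomial.eval_pow, He]

lemma memLp_abs_real833 : MemLp (fun x : ℝ => |x|) 2 (gaussianReal 0 1) := by
  have hm : Measurable (fun x : ℝ => |x|) := by fun_prop
  rw [memLp_two_iff_integrable_sq hm.aestronglyMeasurable]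
  have h1 := poly_integrable (Polynomial.X ^ 2) 1
  refine h1.congr ?_
  filter_upwards with g
  simp

lemma cs833 {Ω : Type*} [MeasurableSpace Ω] (μ : Measure Ω) (f g : Ω → ℝ)
    (hf : MemLp f 2 μ) (hg : MemLp g 2 μ) :
    ∫ a, f a * g a ∂μ ≤ Real.sqrt (∫ a, f a ^ 2 ∂μ) * Real.sqrt (∫ a, g a ^ 2 ∂μ) := by
  have hff : Integrable (fun a => f a ^ 2) μ := hf.integrable_sq
  have hgg : Integrable (fun a => g a ^ 2) μ := hg.integrable_sq
  have hfg : Integrable (fun a => f a * g a) μ := hf.integrable_mul hg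
  have hA : 0 ≤ ∫ a, f a ^ 2 ∂μ := integral_nonneg (fun a => sq_nonneg _)
  have hB : 0 ≤ ∫ a, g a ^ 2 ∂μ := integral_nonneg (fun a => sq_nonneg _)
  have key : ∀ t : ℝ, 0 ≤ (∫ a, f a ^ 2 ∂μ) * (t * t) + (2 * ∫ a, f a * g a ∂μ) * t
      + ∫ a, g a ^ 2 ∂μ := by
    intro t
    have h0 : 0 ≤ ∫ a, (t * f a + g a) ^ 2 ∂μ := integral_nonneg (fun a => sq_nonneg _)
    have h1 : ∫ a, (t * f a + g a) ^ 2 ∂μ
        = ∫ a, ((t * t) * f a ^ 2 + (2 * t) * (f a * g a) + g a ^ 2) ∂μ := by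
      congr 1; ext a; ring
    have h2 : ∫ a, ((t * t) * f a ^ 2 + (2 * t) * (f a * g a) + g a ^ 2) ∂μ
        = (t * t) * ∫ a, f a ^ 2 ∂μ + (2 * t) * ∫ a, f a * g a ∂μ + ∫ a, g a ^ 2 ∂μ := by
      rw [integral_add (f := fun a => (t * t) * f a ^ 2 + (2 * t) * (f a * g a))
        ((hff.const_mul _).add (hfg.const_mul _)) hgg,
        integral_add (hff.const_mul _) (hfg.const_mul _), integral_const_mul, integral_const_mul]
    rw [h1, h2] at h0
    linarith
  have hd := discrim_le_zero key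
  unfold discrim at hd
  rw [← Real.sqrt_mul hA]
  apply Real.le_sqrt_of_sq_le
  nlinarith


lemma core {n N : ℕ} (x y : Fin N → EuclideanSpace ℝ (Fin n)) (r : Fin N → ℝ)
    (hy : ∀ j, ‖y j‖ = 1) (hr : ∀ j, 0 ≤ r j) (hx : ∀ j, x j = r j • y j) (ε : ℝ) (hε : 0 ≤ ε)
    (hap : ∀ v : EuclideanSpace ℝ (Fin n), |∑ j, |⟪x j, v⟫| - ‖v‖| ≤ ε * ‖v‖)
    {I : Type} [Fintype I] (c : I → ℝ) (z : I → EuclideanSpace ℝ (Fin n))
    (hz : ∀ i, ‖z i‖ = 1) (hc : ∑ i, c i = 0) (k : ℕ) :
    |Real.sqrt (2 / Real.pi) * He (2 * k) 0|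
        * |∑ i, ∑ j, c i * r j * ⟪y j, z i⟫ ^ (2 * k + 2)|
      ≤ ε * Real.sqrt n
        * Real.sqrt (((2 * k + 2)! : ℝ) * ∑ i, ∑ i', c i * c i' * ⟪z i, z i'⟫ ^ (2 * k + 2)) := by
  set μ := stdGaussian (EuclideanSpace ℝ (Fin n)) with hμ
  set d := 2 * k + 2 with hd
  set α := Real.sqrt (2 / Real.pi) * He (2 * k) 0 with hα
  -- the functions
  have hH : ∀ i, MemLp (fun g => He d ⟪z i, g⟫) 2 μ := fun i => memLp_He833 d (z i)
  have hA : ∀ j, MemLp (fun g => |(⟪y j, g⟫ : ℝ)|) 2 μ := fun j => memLp_abs833 (y j)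
  have hN : MemLp (fun g : EuclideanSpace ℝ (Fin n) => ‖g‖) 2 μ := memLp_norm833
  obtain ⟨ph, hph⟩ : ∃ ph : EuclideanSpace ℝ (Fin n) → ℝ, ph = fun g => ∑ i, c i * He d ⟪z i, g⟫ :=
    ⟨_, rfl⟩
  have hph2 : MemLp ph 2 μ := by
    rw [hph]
    exact memLp_finsetSum _ (fun i _ => (hH i).const_mul (c i))
  obtain ⟨S, hS⟩ : ∃ S : EuclideanSpace ℝ (Fin n) → ℝ, S = fun g => ∑ j, r j * |(⟪y j, g⟫ : ℝ)| :=
    ⟨_, rfl⟩
  have hS2 : MemLp S 2 μ := by
    rw [hS]
    exact memLp_finsetSum _ (fun j _ => (hA j).const_mul (r j))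
  have hSx : ∀ g, S g = ∑ j, |(⟪x j, g⟫ : ℝ)| := by
    intro g
    rw [hS]
    refine Finset.sum_congr rfl (fun j _ => ?_)
    rw [hx j, real_inner_smul_left, abs_mul, abs_of_nonneg (hr j)]
  -- E[ph‖g‖] = 0
  have h0 : ∫ g, ph g * ‖g‖ ∂μ = 0 := by
    have h1 : ∀ g, ph g * ‖g‖ = ∑ i, c i * (‖g‖ * He d ⟪z i, g⟫) := by
      intro g
      rw [hph, Finset.sum_mul]
      refine Finset.sum_congr rfl (fun i _ => ?_)
      ring
    have h2 : ∫ g, ph g * ‖g‖ ∂μ = ∑ i, c i * ∫ g, ‖g‖ * He d ⟪z i, g⟫ ∂μ := by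
      rw [integral_congr_ae (Filter.Eventually.of_forall h1), integral_finsetSum]
      · refine Finset.sum_congr rfl (fun i _ => ?_)
        rw [integral_const_mul]
      · intro i _
        exact (hN.integrable_mul (hH i)).const_mul (c i)
    rw [h2]
    rcases isEmpty_or_nonempty I with hI | ⟨⟨i0⟩⟩
    · simp
    · have h3 : ∀ i, ∫ g, ‖g‖ * He d ⟪z i, g⟫ ∂μ = ∫ g, ‖g‖ * He d ⟪z i0, g⟫ ∂μ :=
        fun i => radial d (z i) (z i0) (hz i) (hz i0)
      rw [Finset.sum_congr rfl (fun i _ => by rw [h3 i]), ← Finset.sum_mul, hc, zero_mul]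
  -- E[ph S]
  have h1 : ∫ g, ph g * S g ∂μ = α * ∑ i, ∑ j, c i * r j * ⟪y j, z i⟫ ^ d := by
    have e1 : ∀ g, ph g * S g
        = ∑ i, ∑ j, (c i * r j) * (|(⟪y j, g⟫ : ℝ)| * He d ⟪z i, g⟫) := by
      intro g
      rw [hph, hS, Finset.sum_mul]
      refine Finset.sum_congr rfl (fun i _ => ?_)
      rw [Finset.mul_sum]
      refine Finset.sum_congr rfl (fun j _ => ?_)
      ring
    have hint : ∀ i j, Integrable (fun g => (c i * r j) * (|(⟪y j, g⟫ : ℝ)| * He d ⟪z i, g⟫)) μ :=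
      fun i j => ((hA j).integrable_mul (hH i)).const_mul _
    have e2 : ∀ i j, ∫ g, |(⟪y j, g⟫ : ℝ)| * He d ⟪z i, g⟫ ∂μ = ⟪y j, z i⟫ ^ d * α := by
      intro i j
      have h := mehler (fun x : ℝ => |x|) (by fun_prop) memLp_abs_real833 d (y j) (z i)
        (hy j) (hz i)
      rw [alpha_val k] at h
      exact h
    rw [integral_congr_ae (Filter.Eventually.of_forall e1), integral_finsetSum]
    · rw [Finset.mul_sum]
      refine Finset.sum_congr rfl (fun i _ => ?_)
      rw [integral_finsetSum _ (fun j _ => hint i j), Finset.mul_sum]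
      refine Finset.sum_congr rfl (fun j _ => ?_)
      rw [integral_const_mul, e2 i j]
      ring
    · intro i _
      exact integrable_finsetSum _ (fun j _ => hint i j)
  -- E[ph²]
  have h2 : ∫ g, ph g ^ 2 ∂μ = (d ! : ℝ) * ∑ i, ∑ i', c i * c i' * ⟪z i, z i'⟫ ^ d := by
    have e1 : ∀ g, ph g ^ 2
        = ∑ i, ∑ i', (c i * c i') * (He d ⟪z i, g⟫ * He d ⟪z i', g⟫) := by
      intro g
      rw [hph, sq, Finset.sum_mul]
      refine Finset.sum_congr rfl (fun i _ => ?_)
      rw [Finset.mul_sum]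
      refine Finset.sum_congr rfl (fun j _ => ?_)
      ring
    have hint : ∀ i i', Integrable (fun g => (c i * c i') * (He d ⟪z i, g⟫ * He d ⟪z i', g⟫)) μ :=
      fun i j => ((hH i).integrable_mul (hH j)).const_mul _
    have e2 : ∀ i i', ∫ g, He d ⟪z i, g⟫ * He d ⟪z i', g⟫ ∂μ = ⟪z i, z i'⟫ ^ d * (d ! : ℝ) := by
      intro i i'
      have hpc : Continuous (fun x : ℝ => (HP d).eval x) := (HP d).continuous
      have h := mehler (He d) hpc.measurable (memLp_He_real833 d) d (z i) (z i') (hz i) (hz i')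
      rw [He_sq d] at h
      exact h
    rw [integral_congr_ae (Filter.Eventually.of_forall e1), integral_finsetSum]
    · rw [Finset.mul_sum]
      refine Finset.sum_congr rfl (fun i _ => ?_)
      rw [integral_finsetSum _ (fun j _ => hint i j), Finset.mul_sum]
      refine Finset.sum_congr rfl (fun j _ => ?_)
      rw [integral_const_mul, e2 i j]
      ring
    · intro i _
      exact integrable_finsetSum _ (fun j _ => hint i j)
  -- the main inequality
  have hpha : MemLp (fun g => |ph g|) 2 μ := hph2.abs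
  have i1 : Integrable (fun g => ph g * S g) μ := hph2.integrable_mul hS2
  have i2 : Integrable (fun g => ph g * ‖g‖) μ := hph2.integrable_mul hN
  have i3 : Integrable (fun g => |ph g| * ‖g‖) μ := hpha.integrable_mul hN
  have h3 : α * ∑ i, ∑ j, c i * r j * ⟪y j, z i⟫ ^ d = ∫ g, ph g * (S g - ‖g‖) ∂μ := by
    have : ∫ g, ph g * (S g - ‖g‖) ∂μ = ∫ g, ph g * S g ∂μ - ∫ g, ph g * ‖g‖ ∂μ := by
      rw [← integral_sub i1 i2]
      congr 1; ext g; ring
    rw [this, h0, h1, sub_zero]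
  have h4 : |∫ g, ph g * (S g - ‖g‖) ∂μ| ≤ ε * ∫ g, |ph g| * ‖g‖ ∂μ := by
    calc |∫ g, ph g * (S g - ‖g‖) ∂μ| ≤ ∫ g, |ph g * (S g - ‖g‖)| ∂μ := abs_integral_le_integral_abs
      _ ≤ ∫ g, ε * (|ph g| * ‖g‖) ∂μ := by
          refine integral_mono_of_nonneg (Filter.Eventually.of_forall fun g => abs_nonneg _)
            (i3.const_mul ε) (Filter.Eventually.of_forall fun g => ?_)
          show |ph g * (S g - ‖g‖)| ≤ ε * (|ph g| * ‖g‖)
          rw [abs_mul]
          have := hap g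
          rw [← hSx g] at this
          calc |ph g| * |S g - ‖g‖| ≤ |ph g| * (ε * ‖g‖) :=
                mul_le_mul_of_nonneg_left this (abs_nonneg _)
            _ = ε * (|ph g| * ‖g‖) := by ring
      _ = ε * ∫ g, |ph g| * ‖g‖ ∂μ := integral_const_mul _ _
  have h5 := cs833 μ (fun g => |ph g|) (fun g => ‖g‖) hpha hN
  have h6 : ∫ g, |ph g| ^ 2 ∂μ = (d ! : ℝ) * ∑ i, ∑ i', c i * c i' * ⟪z i, z i'⟫ ^ d := by
    rw [← h2]
    congr 1; ext g; exact sq_abs _
  have h7 : ∫ g, ‖g‖ ^ 2 ∂μ = n := norm_sq_int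

  rw [h6, h7] at h5
  rw [← abs_mul, h3]
  calc |∫ g, ph g * (S g - ‖g‖) ∂μ| ≤ ε * ∫ g, |ph g| * ‖g‖ ∂μ := h4
    _ ≤ ε * (Real.sqrt ((d ! : ℝ) * ∑ i, ∑ i', c i * c i' * ⟪z i, z i'⟫ ^ d) * Real.sqrt n) :=
        mul_le_mul_of_nonneg_left h5 hε
    _ = _ := by ring

end Pool.Agent.Helper649.Zono
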