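import Pool.Agent.Helper649.ZonoA

set_option autoImplicit false

namespace Pool.Agent.Helper649.Zono

open MeasureTheory ProbabilityTheory Polynomial
open scoped RealInnerProductSpace Nat NNReal

/-- a vector written as nonnegative multiple of a unit vector -/
lemma exists_unit {n : ℕ} (hn : 1 ≤ n) (x : EuclideanSpace ℝ (Fin n)) :
    ∃ y : EuclideanSpace ℝ (Fin n), ‖y‖ = 1 ∧ x = ‖x‖ • y := by
  by_cases hx : x = 0
  · refine ⟨EuclideanSpace.single ⟨0, hn⟩ 1, by simp, by simp [hx]⟩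
  · have h : ‖x‖ ≠ 0 := norm_ne_zero_iff.mpr hx
    refine ⟨‖x‖⁻¹ • x, ?_, ?_⟩
    · rw [norm_smul, norm_inv, norm_norm, inv_mul_cancel₀ h]
    · rw [smul_smul, mul_inv_cancel₀ h, one_smul]

/-- the unnormalised sign vector -/
noncomputable def sgv {n : ℕ} (σ : Fin n → Bool) : EuclideanSpace ℝ (Fin n) :=
  WithLp.toLp 2 (fun i => sg (σ i))

lemma sgv_norm {n : ℕ} (σ : Fin n → Bool) : ‖sgv σ‖ = Real.sqrt n := by
  rw [EuclideanSpace.norm_eq]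
  congr 1
  have : ∀ i, ‖(sgv σ) i‖ ^ 2 = 1 := by
    intro i
    simp only [sgv, sg]
    split_ifs <;> simp
  rw [Finset.sum_congr rfl (fun i _ => this i)]
  simp

lemma inner_sgv {n : ℕ} (y : EuclideanSpace ℝ (Fin n)) (σ : Fin n → Bool) :
    ⟪y, sgv σ⟫ = ∑ i, sg (σ i) * y i := by
  simp [PiLp.inner_apply, sgv]

lemma khin_unit {n : ℕ} (k : ℕ) (y : EuclideanSpace ℝ (Fin n)) (hy : ‖y‖ = 1) :
    ∑ σ : Fin n → Bool, ⟪y, sgv σ⟫ ^ (2 * k) ≤ 2 ^ n * ((2 * k - 1)‼ : ℕ) := by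
  have h := khin n k (fun i => y i)
  have hs : ∑ i, y i ^ 2 = 1 := by
    have := EuclideanSpace.norm_sq_eq y
    rw [hy] at this
    simpa using this.symm
  simp only [inner_sgv]
  rw [hs, one_pow, mul_one] at h
  exact h

lemma R_low {n N : ℕ} (y : Fin N → EuclideanSpace ℝ (Fin n)) (r : Fin N → ℝ)
    (hy : ∀ j, ‖y j‖ = 1) (hr : ∀ j, 0 ≤ r j) (ε : ℝ)
    (hap : ∀ v : EuclideanSpace ℝ (Fin n), (1 - ε) * ‖v‖ ≤ ∑ j, r j * |⟪y j, v⟫|) :
    (1 - ε) * Real.sqrt n ≤ ∑ j, r j := by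
  have h1 : ∀ σ : Fin n → Bool, (1 - ε) * Real.sqrt n ≤ ∑ j, r j * |⟪y j, sgv σ⟫| := by
    intro σ
    have := hap (sgv σ)
    rwa [sgv_norm] at this
  have h2 : ∀ j, ∑ σ : Fin n → Bool, |⟪y j, sgv σ⟫| ≤ 2 ^ n := by
    intro j
    have hk := khin_unit 1 (y j) (hy j)
    have hk' : ∑ σ : Fin n → Bool, ⟪y j, sgv σ⟫ ^ 2 ≤ 2 ^ n := by
      simpa using hk
    have : ∀ σ : Fin n → Bool, |⟪y j, sgv σ⟫| ≤ (⟪y j, sgv σ⟫ ^ 2 + 1) / 2 := by
      intro σ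
      nlinarith [sq_nonneg (|⟪y j, sgv σ⟫| - 1), sq_abs (⟪y j, sgv σ⟫)]
    calc ∑ σ : Fin n → Bool, |⟪y j, sgv σ⟫|
        ≤ ∑ σ : Fin n → Bool, (⟪y j, sgv σ⟫ ^ 2 + 1) / 2 := Finset.sum_le_sum (fun σ _ => this σ)
      _ = (∑ σ : Fin n → Bool, ⟪y j, sgv σ⟫ ^ 2 + 2 ^ n) / 2 := by
          rw [← Finset.sum_div, Finset.sum_add_distrib]
          simp
      _ ≤ 2 ^ n := by linarith
  have h3 : ∑ _σ : Fin n → Bool, (1 - ε) * Real.sqrt n
      ≤ ∑ σ : Fin n → Bool, ∑ j, r j * |⟪y j, sgv σ⟫| := Finset.sum_le_sum (fun σ _ => h1 σ)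
  rw [Finset.sum_comm] at h3
  have h4 : ∑ j, ∑ σ : Fin n → Bool, r j * |⟪y j, sgv σ⟫| ≤ ∑ j, r j * 2 ^ n := by
    apply Finset.sum_le_sum
    intro j _
    rw [← Finset.mul_sum]
    exact mul_le_mul_of_nonneg_left (h2 j) (hr j)
  rw [← Finset.sum_mul] at h4
  have h5 : (2 : ℝ) ^ n * ((1 - ε) * Real.sqrt n) ≤ (∑ j, r j) * 2 ^ n := by
    have : ∑ _σ : Fin n → Bool, (1 - ε) * Real.sqrt n = 2 ^ n * ((1 - ε) * Real.sqrt n) := by
      simp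
    linarith
  have h6 : (0 : ℝ) < 2 ^ n := by positivity
  nlinarith

/-- normalised sign vector -/
noncomputable def zs {n : ℕ} (σ : Fin n → Bool) : EuclideanSpace ℝ (Fin n) :=
  (Real.sqrt n)⁻¹ • sgv σ

lemma zs_norm {n : ℕ} (hn : 1 ≤ n) (σ : Fin n → Bool) : ‖zs σ‖ = 1 := by
  have h : (0 : ℝ) < Real.sqrt n := Real.sqrt_pos.mpr (by exact_mod_cast hn)
  rw [zs, norm_smul, sgv_norm, norm_inv, Real.norm_of_nonneg h.le, inv_mul_cancel₀ h.ne']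

lemma avg_zs {n : ℕ} (k : ℕ) (y : EuclideanSpace ℝ (Fin n)) (hy : ‖y‖ = 1) :
    ∑ σ : Fin n → Bool, ⟪y, zs σ⟫ ^ (2 * k) ≤ 2 ^ n * (((2 * k - 1)‼ : ℕ) / (n : ℝ) ^ k) := by
  have h := khin_unit k y hy
  have e : ∀ σ : Fin n → Bool, ⟪y, zs σ⟫ ^ (2 * k) = ((n : ℝ) ^ k)⁻¹ * ⟪y, sgv σ⟫ ^ (2 * k) := by
    intro σ
    rw [zs, real_inner_smul_right, mul_pow, inv_pow, pow_mul (Real.sqrt n), Real.sq_sqrt (by positivity)]
  rw [Finset.sum_congr rfl (fun σ _ => e σ), ← Finset.mul_sum]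
  have h2 : ((n : ℝ) ^ k)⁻¹ * ∑ σ : Fin n → Bool, ⟪y, sgv σ⟫ ^ (2 * k)
      ≤ ((n : ℝ) ^ k)⁻¹ * (2 ^ n * ((2 * k - 1)‼ : ℕ)) :=
    mul_le_mul_of_nonneg_left h (by positivity)
  calc _ ≤ _ := h2
    _ = _ := by ring

lemma final_algebra {N : ℕ} (S R T T' m a F ε n : ℝ) (hN : 0 < N) (hn : 0 < n)
    (hR : 0 < R) (hSR : R ^ 2 / N ≤ S) (hT0 : 0 ≤ T) (hT : T ≤ R * m) (hT' : T' ≤ m)
    (hNm : (N : ℝ) * (2 * m) < 1) (ha : 0 < a) (hF : 0 < F) (hε : 0 < ε)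
    (hcore : a * |S - R * T| ≤ ε * Real.sqrt n * Real.sqrt (F * (S - 2 * R * T + R ^ 2 * T'))) :
    a ^ 2 * R ^ 2 ≤ 6 * ε ^ 2 * n * F * N := by
  have hN' : (0 : ℝ) < N := by exact_mod_cast hN
  have hS : 0 < S := lt_of_lt_of_le (by positivity) hSR
  have hRm : R ^ 2 * m ≤ S / 2 := by
    have h1 : R ^ 2 ≤ S * N := by
      rwa [div_le_iff₀ hN'] at hSR
    by_cases hm : 0 ≤ m
    · have : R ^ 2 * m ≤ S * N * m := mul_le_mul_of_nonneg_right h1 hm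
      nlinarith
    · push Not at hm
      nlinarith [sq_nonneg R]
  have hRT : R * T ≤ S / 2 := by
    have : R * T ≤ R * (R * m) := mul_le_mul_of_nonneg_left hT hR.le
    nlinarith
  have hX : S / 2 ≤ |S - R * T| := by
    have := le_abs_self (S - R * T)
    linarith
  have hRT0 : 0 ≤ R * T := mul_nonneg hR.le hT0
  have hY : S - 2 * R * T + R ^ 2 * T' ≤ 3 / 2 * S := by
    have : R ^ 2 * T' ≤ R ^ 2 * m := mul_le_mul_of_nonneg_left hT' (sq_nonneg R)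
    nlinarith
  have h1 : a * (S / 2) ≤ ε * Real.sqrt n * Real.sqrt (F * (3 / 2 * S)) := by
    calc a * (S / 2) ≤ a * |S - R * T| := mul_le_mul_of_nonneg_left hX ha.le
      _ ≤ _ := hcore
      _ ≤ _ := by
        apply mul_le_mul_of_nonneg_left _ (by positivity)
        exact Real.sqrt_le_sqrt (mul_le_mul_of_nonneg_left hY hF.le)
  have h2 : (a * (S / 2)) ^ 2 ≤ (ε * Real.sqrt n * Real.sqrt (F * (3 / 2 * S))) ^ 2 :=
    pow_le_pow_left₀ (by positivity) h1 2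
  rw [mul_pow (ε * Real.sqrt n), mul_pow ε, Real.sq_sqrt hn.le, Real.sq_sqrt (by positivity)] at h2
  have h3 : a ^ 2 * S ≤ 6 * ε ^ 2 * n * F := by
    have : S * (a ^ 2 * S) ≤ S * (6 * ε ^ 2 * n * F) := by nlinarith
    exact le_of_mul_le_mul_left this hS
  have h4 : R ^ 2 ≤ S * N := by
    rwa [div_le_iff₀ hN'] at hSR
  calc a ^ 2 * R ^ 2 ≤ a ^ 2 * (S * N) := mul_le_mul_of_nonneg_left h4 (sq_nonneg a)
    _ = (a ^ 2 * S) * N := by ring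
    _ ≤ _ := mul_le_mul_of_nonneg_right h3 hN'.le

lemma main_dich {n N : ℕ} (hn : 1 ≤ n) (k : ℕ) (ε : ℝ) (hε : 0 < ε) (hε1 : ε < 1)
    (x : Fin N → EuclideanSpace ℝ (Fin n))
    (hap : ∀ v : EuclideanSpace ℝ (Fin n),
      (1 - ε) * ‖v‖ ≤ ∑ j, |⟪v, x j⟫| ∧ ∑ j, |⟪v, x j⟫| ≤ (1 + ε) * ‖v‖) :
    1 ≤ (N : ℝ) * (2 * (((2 * (k + 1) - 1)‼ : ℕ) / (n : ℝ) ^ (k + 1))) ∨
      (1 - ε) ^ 2 / (24 * Real.pi * ((k : ℝ) + 1) ^ (5 / 2 : ℝ) * ε ^ 2) ≤ N := by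
  by_contra hcon
  push Not at hcon
  obtain ⟨hNm, hNb⟩ := hcon
  have hn0 : (0 : ℝ) < n := by exact_mod_cast hn
  choose y hy hxy using fun j => exists_unit hn (x j)
  set r : Fin N → ℝ := fun j => ‖x j‖ with hrdef
  have hr : ∀ j, 0 ≤ r j := fun j => norm_nonneg _
  have habs : ∀ (v : EuclideanSpace ℝ (Fin n)) j, |⟪v, x j⟫| = r j * |⟪y j, v⟫| := by
    intro v j
    conv_lhs => rw [hxy j]
    rw [real_inner_smul_right, abs_mul, abs_of_nonneg (norm_nonneg _), real_inner_comm]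
  have habs' : ∀ (v : EuclideanSpace ℝ (Fin n)) j, |⟪x j, v⟫| = |⟪v, x j⟫| := by
    intro v j
    rw [real_inner_comm]
  have hap1 : ∀ v : EuclideanSpace ℝ (Fin n), (1 - ε) * ‖v‖ ≤ ∑ j, r j * |⟪y j, v⟫| := by
    intro v
    have := (hap v).1
    rwa [Finset.sum_congr rfl (fun j _ => habs v j)] at this
  have hap2 : ∀ v : EuclideanSpace ℝ (Fin n), |∑ j, |⟪x j, v⟫| - ‖v‖| ≤ ε * ‖v‖ := by
    intro v
    rw [Finset.sum_congr rfl (fun j _ => habs' v j), abs_le]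
    constructor
    · linarith [(hap v).1]
    · linarith [(hap v).2]
  obtain ⟨R, hRdef⟩ : ∃ R : ℝ, R = ∑ j, r j := ⟨_, rfl⟩
  have hRlow : (1 - ε) * Real.sqrt n ≤ R := by
    rw [hRdef]
    exact R_low y r hy hr ε hap1
  have hsq : (0 : ℝ) < Real.sqrt n := Real.sqrt_pos.mpr hn0
  have hRpos : 0 < R := lt_of_lt_of_le (mul_pos (by linarith) hsq) hRlow
  have hN : 0 < N := by
    rcases Nat.eq_zero_or_pos N with h | h
    · exfalso
      subst h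
      simp [hRdef] at hRpos
    · exact h
  set d : ℕ := 2 * k + 2 with hd
  have hd2 : d = 2 * (k + 1) := by omega
  set m : ℝ := ((2 * (k + 1) - 1)‼ : ℕ) / (n : ℝ) ^ (k + 1) with hm
  have hp : (0 : ℝ) < 2 ^ n := by positivity
  -- the sums
  set S : ℝ := ∑ i, ∑ j, r i * r j * ⟪y j, y i⟫ ^ d with hS
  set T : ℝ := ∑ j, r j * ((∑ σ : Fin n → Bool, ⟪y j, zs σ⟫ ^ d) / 2 ^ n) with hT
  set T' : ℝ := (∑ σ : Fin n → Bool, (∑ τ : Fin n → Bool, ⟪(zs σ : EuclideanSpace ℝ (Fin n)), zs τ⟫ ^ d) / 2 ^ n) / 2 ^ n with hT'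
  let c : Fin N ⊕ (Fin n → Bool) → ℝ := Sum.elim r (fun _ => -R / 2 ^ n)
  let z : Fin N ⊕ (Fin n → Bool) → EuclideanSpace ℝ (Fin n) := Sum.elim y zs
  have hz : ∀ i, ‖z i‖ = 1 := by
    rintro (j | σ)
    · exact hy j
    · exact zs_norm hn σ
  have hc : ∑ i, c i = 0 := by
    rw [Fintype.sum_sum_type]
    simp only [c, Sum.elim_inl, Sum.elim_inr, Finset.sum_const, Finset.card_univ, nsmul_eq_mul]
    have : ((Fintype.card (Fin n → Bool) : ℕ) : ℝ) = 2 ^ n := by simp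
    rw [this, ← hRdef]
    field_simp
    ring
  have e1 : ∑ i, ∑ j, c i * r j * ⟪y j, z i⟫ ^ (2 * k + 2) = S - R * T := by
    rw [Fintype.sum_sum_type]
    simp only [c, z, Sum.elim_inl, Sum.elim_inr]
    have : ∑ σ : Fin n → Bool, ∑ j, -R / 2 ^ n * r j * ⟪y j, zs σ⟫ ^ (2 * k + 2) = - (R * T) := by
      rw [Finset.sum_comm, hT, Finset.mul_sum, ← Finset.sum_neg_distrib]
      refine Finset.sum_congr rfl (fun j _ => ?_)
      rw [← Finset.mul_sum]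
      ring
    rw [this]
    ring
  have e2 : ∑ i, ∑ i', c i * c i' * ⟪z i, z i'⟫ ^ (2 * k + 2) = S - 2 * R * T + R ^ 2 * T' := by
    rw [Fintype.sum_sum_type]
    simp only [Fintype.sum_sum_type]
    simp only [c, z, Sum.elim_inl, Sum.elim_inr]
    rw [Finset.sum_add_distrib, Finset.sum_add_distrib]
    have a1 : ∑ i, ∑ j, r i * r j * ⟪y i, y j⟫ ^ (2 * k + 2) = S := by
      rw [hS]
      refine Finset.sum_congr rfl (fun i _ => Finset.sum_congr rfl (fun j _ => ?_))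
      rw [real_inner_comm]
    have a2 : ∑ i, ∑ σ : Fin n → Bool, r i * (-R / 2 ^ n) * ⟪y i, zs σ⟫ ^ (2 * k + 2) = - (R * T) := by
      rw [hT, Finset.mul_sum, ← Finset.sum_neg_distrib]
      refine Finset.sum_congr rfl (fun j _ => ?_)
      rw [← Finset.mul_sum]
      ring
    have a3 : ∑ σ : Fin n → Bool, ∑ i, -R / 2 ^ n * r i * ⟪zs σ, y i⟫ ^ (2 * k + 2) = - (R * T) := by
      rw [Finset.sum_comm, ← a2]
      refine Finset.sum_congr rfl (fun i _ => Finset.sum_congr rfl (fun σ _ => ?_))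
      rw [real_inner_comm]
      ring
    have a4 : ∑ σ : Fin n → Bool, ∑ τ : Fin n → Bool,
        -R / 2 ^ n * (-R / 2 ^ n) * ⟪(zs σ : EuclideanSpace ℝ (Fin n)), zs τ⟫ ^ (2 * k + 2) = R ^ 2 * T' := by
      rw [hT', hd]
      simp only [← Finset.mul_sum, ← Finset.sum_div]
      field_simp
    rw [a1, a2, a3, a4]
    ring
  have hdd : ((2 * k + 2)! : ℝ) > 0 := by exact_mod_cast Nat.factorial_pos _
  have hcore := core x y r hy hr (fun j => hxy j) ε hε.le hap2 c z hz hc k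
  rw [e1, e2] at hcore
  set a : ℝ := |Real.sqrt (2 / Real.pi) * He (2 * k) 0| with ha
  have ha2 : a ^ 2 = (Real.sqrt (2 / Real.pi) * ((2 * k - 1)‼ : ℕ)) ^ 2 := by
    rw [ha, sq_abs, He_zero, mul_pow, mul_pow, mul_pow, ← pow_mul, mul_comm k 2, pow_mul]
    simp
  have hb := alpha_bound k
  rw [← ha2] at hb
  have hK : (0 : ℝ) < ((k : ℝ) + 1) ^ (5 / 2 : ℝ) := Real.rpow_pos_of_pos (by positivity) _
  have hapos : 0 < a := by
    have h1 : 0 < a ^ 2 := lt_of_lt_of_le (by positivity) hb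
    have h2 : 0 ≤ a := abs_nonneg _
    rcases h2.lt_or_eq with h | h
    · exact h
    · rw [← h] at h1
      simp at h1
  have hT0 : 0 ≤ T := by
    rw [hT]
    refine Finset.sum_nonneg (fun j _ => mul_nonneg (hr j) (div_nonneg ?_ hp.le))
    refine Finset.sum_nonneg (fun σ _ => ?_)
    rw [hd2, pow_mul]
    positivity
  have hTm : T ≤ R * m := by
    rw [hT, hRdef, Finset.sum_mul]
    refine Finset.sum_le_sum (fun j _ => mul_le_mul_of_nonneg_left ?_ (hr j))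
    rw [div_le_iff₀ hp, hd2]
    have := avg_zs (k + 1) (y j) (hy j)
    linarith
  have hTm' : T' ≤ m := by
    rw [hT', div_le_iff₀ hp]
    calc ∑ σ : Fin n → Bool, (∑ τ : Fin n → Bool, ⟪(zs σ : EuclideanSpace ℝ (Fin n)), zs τ⟫ ^ d) / 2 ^ n
        ≤ ∑ _σ : Fin n → Bool, m := by
          refine Finset.sum_le_sum (fun σ _ => ?_)
          rw [div_le_iff₀ hp, hd2]
          have := avg_zs (k + 1) (zs σ) (zs_norm hn σ)
          linarith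
      _ = m * 2 ^ n := by
          simp [mul_comm]
  have hSR : R ^ 2 / N ≤ S := by
    have hN' : (0 : ℝ) < N := by exact_mod_cast hN
    rw [div_le_iff₀ hN']
    have h1 : R ^ 2 ≤ N * ∑ j, r j ^ 2 := by
      rw [hRdef]
      have := sq_sum_le_card_mul_sum_sq (s := (Finset.univ : Finset (Fin N))) (f := r)
      simpa using this
    have h2 : ∑ j, r j ^ 2 ≤ S := by
      rw [hS]
      refine Finset.sum_le_sum (fun i _ => ?_)
      have h3 : r i * r i * ⟪y i, y i⟫ ^ d ≤ ∑ j, r i * r j * ⟪y j, y i⟫ ^ d := by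
        refine Finset.single_le_sum (f := fun j => r i * r j * ⟪y j, y i⟫ ^ d) (fun j _ => ?_)
          (Finset.mem_univ i)
        have : 0 ≤ ⟪y j, y i⟫ ^ d := by
          rw [hd2, pow_mul]
          positivity
        exact mul_nonneg (mul_nonneg (hr i) (hr j)) this
      rw [real_inner_self_eq_norm_sq, hy i] at h3
      simp only [one_pow, mul_one] at h3
      nlinarith
    nlinarith
  have hfin := final_algebra S R T T' m a ((2 * k + 2)! : ℝ) ε n hN hn0 hRpos hSR hT0 hTm hTm' hNm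
    hapos hdd hε hcore
  -- conclude
  have hR2 : (1 - ε) ^ 2 * n ≤ R ^ 2 := by
    have h := pow_le_pow_left₀ (by nlinarith [hsq]) hRlow 2
    rwa [mul_pow, Real.sq_sqrt hn0.le] at h
  have hNb' : (N : ℝ) * (24 * Real.pi * ((k : ℝ) + 1) ^ (5 / 2 : ℝ) * ε ^ 2) < (1 - ε) ^ 2 := by
    rwa [lt_div_iff₀ (by positivity)] at hNb
  have hpi := Real.pi_pos
  have h1 : 1 / (4 * Real.pi * ((k : ℝ) + 1) ^ (5 / 2 : ℝ)) * ((2 * k + 2)! : ℝ) * ((1 - ε) ^ 2 * n)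
      ≤ 6 * ε ^ 2 * n * ((2 * k + 2)! : ℝ) * N := by
    calc _ ≤ a ^ 2 * R ^ 2 := mul_le_mul hb hR2 (by positivity) (sq_nonneg a)
      _ ≤ _ := hfin
  have h2 : (1 - ε) ^ 2 ≤ (N : ℝ) * (24 * Real.pi * ((k : ℝ) + 1) ^ (5 / 2 : ℝ) * ε ^ 2) := by
    have hX : (0 : ℝ) < ((2 * k + 2)! : ℝ) * n := mul_pos hdd hn0
    have h3 : (((2 * k + 2)! : ℝ) * n) * (1 - ε) ^ 2
        ≤ (((2 * k + 2)! : ℝ) * n) * ((N : ℝ) * (24 * Real.pi * ((k : ℝ) + 1) ^ (5 / 2 : ℝ) * ε ^ 2)) := by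
      have h4 : (0 : ℝ) < 4 * Real.pi * ((k : ℝ) + 1) ^ (5 / 2 : ℝ) := by positivity
      have h5 : 1 / (4 * Real.pi * ((k : ℝ) + 1) ^ (5 / 2 : ℝ)) * ((2 * k + 2)! : ℝ) * ((1 - ε) ^ 2 * n)
        = ((2 * k + 2)! : ℝ) * n * (1 - ε) ^ 2 / (4 * Real.pi * ((k : ℝ) + 1) ^ (5 / 2 : ℝ)) := by
        field_simp
      rw [h5, div_le_iff₀ h4] at h1
      nlinarith
    exact le_of_mul_le_mul_left h3 hX
  linarith

end Pool.Agent.Helper649.Zono
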