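import Pool.Agent.Helper649.ZonoB

set_option autoImplicit false

namespace Pool.Agent.Helper649.Zono

open scoped RealInnerProductSpace Nat

/-- there are `N` vectors `x_j` in Euclidean `n`-space with
`(1-ε)|v| ≤ ∑ |⟨v,x_j⟩| ≤ (1+ε)|v|` for all `v` -/
def Approx (n N : ℕ) (ε : ℝ) : Prop :=
  ∃ x : Fin N → EuclideanSpace ℝ (Fin n), ∀ v : EuclideanSpace ℝ (Fin n),
    (1 - ε) * ‖v‖ ≤ ∑ j, |⟪v, x j⟫| ∧ ∑ j, |⟪v, x j⟫| ≤ (1 + ε) * ‖v‖

theorem boundA (n k N : ℕ) (hn : 1 ≤ n) (hk : 1 ≤ k) (ε : ℝ) (hε : 0 < ε) (hε1 : ε < 1)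
    (h : Approx n N ε) :
    min ((n : ℝ) ^ k / (2 * ((2 * k - 1)‼ : ℕ)))
      ((1 - ε) ^ 2 / (24 * Real.pi * (k : ℝ) ^ (5 / 2 : ℝ) * ε ^ 2)) ≤ N := by
  obtain ⟨x, hx⟩ := h
  obtain ⟨j, rfl⟩ : ∃ j, k = j + 1 := ⟨k - 1, by omega⟩
  have hn0 : (0 : ℝ) < n := by exact_mod_cast hn
  have hdf : (0 : ℝ) < ((2 * (j + 1) - 1)‼ : ℕ) := by
    exact_mod_cast Nat.doubleFactorial_pos _
  rcases main_dich hn j ε hε hε1 x hx with h1 | h1
  · refine le_trans (min_le_left _ _) ?_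
    rw [div_le_iff₀ (by positivity)]
    have h2 : (N : ℝ) * (2 * (((2 * (j + 1) - 1)‼ : ℕ) / (n : ℝ) ^ (j + 1)))
        = (N * (2 * ((2 * (j + 1) - 1)‼ : ℕ))) / (n : ℝ) ^ (j + 1) := by ring
    rw [h2, le_div_iff₀ (by positivity), one_mul] at h1
    exact h1
  · refine le_trans (min_le_right _ _) ?_
    push_cast
    exact h1

theorem boundB (K : ℕ) (hK : 1 ≤ K) : ∃ c : ℝ, 0 < c ∧ ∀ (n N : ℕ) (ε : ℝ), 1 ≤ n → 0 < ε →
    ε ≤ 1 / 2 → Approx n N ε → c * min ((n : ℝ) ^ K) ((1 / ε) ^ 2) ≤ N := by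
  have hA : (0 : ℝ) < (((2 * K - 1)‼ : ℕ) : ℝ) := by exact_mod_cast Nat.doubleFactorial_pos _
  have hK0 : (0 : ℝ) < K := by exact_mod_cast hK
  have hB : (0 : ℝ) < (K : ℝ) ^ (5 / 2 : ℝ) := Real.rpow_pos_of_pos hK0 _
  have hp := Real.pi_pos
  set A : ℝ := (((2 * K - 1)‼ : ℕ) : ℝ) with hAdef
  set B : ℝ := (K : ℝ) ^ (5 / 2 : ℝ) with hBdef
  refine ⟨min (1 / (2 * A)) (1 / (96 * Real.pi * B)), lt_min (by positivity) (by positivity), ?_⟩
  intro n N ε hn hε hε2 h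
  have h1 := boundA n K N hn hK ε hε (by linarith) h
  refine le_trans ?_ h1
  have hc1 : min (1 / (2 * A)) (1 / (96 * Real.pi * B)) ≤ 1 / (2 * A) := min_le_left _ _
  have hc2 : min (1 / (2 * A)) (1 / (96 * Real.pi * B)) ≤ 1 / (96 * Real.pi * B) := min_le_right _ _
  have hc0 : 0 ≤ min (1 / (2 * A)) (1 / (96 * Real.pi * B)) := le_min (by positivity) (by positivity)
  apply le_min
  · calc min (1 / (2 * A)) (1 / (96 * Real.pi * B)) * min ((n : ℝ) ^ K) ((1 / ε) ^ 2)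
        ≤ (1 / (2 * A)) * (n : ℝ) ^ K :=
          mul_le_mul hc1 (min_le_left _ _) (le_min (by positivity) (by positivity)) (by positivity)
      _ = (n : ℝ) ^ K / (2 * A) := by ring
  · have h3 : (1 / 4 : ℝ) ≤ (1 - ε) ^ 2 := by nlinarith
    calc min (1 / (2 * A)) (1 / (96 * Real.pi * B)) * min ((n : ℝ) ^ K) ((1 / ε) ^ 2)
        ≤ (1 / (96 * Real.pi * B)) * (1 / ε) ^ 2 :=
          mul_le_mul hc2 (min_le_right _ _) (le_min (by positivity) (by positivity)) (by positivity)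
      _ = (1 / 4) / (24 * Real.pi * B * ε ^ 2) := by
          field_simp
          ring
      _ ≤ (1 - ε) ^ 2 / (24 * Real.pi * B * ε ^ 2) := by
          apply div_le_div_of_nonneg_right h3 (by positivity)

theorem boundC_df (k : ℕ) : (2 * k - 1)‼ ≤ (2 * k) ^ k := by
  induction k with
  | zero => simp
  | succ k ih =>
    rcases Nat.eq_zero_or_pos k with rfl | hk
    · simp
    · have h1 : 2 * (k + 1) - 1 = (2 * k - 1) + 2 := by omega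
      rw [h1, Nat.doubleFactorial_add_two]
      calc (2 * k - 1 + 2) * (2 * k - 1)‼ ≤ (2 * (k + 1)) * (2 * k) ^ k :=
            Nat.mul_le_mul (by omega) ih
        _ ≤ (2 * (k + 1)) * (2 * (k + 1)) ^ k :=
            Nat.mul_le_mul_left _ (Nat.pow_le_pow_left (by omega) _)
        _ = (2 * (k + 1)) ^ (k + 1) := by ring


theorem boundC (n N : ℕ) (ε : ℝ) (hε : 0 < ε) (hε1 : ε ≤ 1 / 2)
    (hn : 20 * Real.log (1 / ε) ≤ n) (h : Approx n N ε) :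
    (1 / ε) ^ 2 / (20000 * Real.log (1 / ε) ^ (5 / 2 : ℝ)) ≤ N := by
  obtain ⟨L, hL⟩ : ∃ L : ℝ, L = Real.log (1 / ε) := ⟨_, rfl⟩
  rw [← hL] at hn ⊢
  have hε2 : 2 ≤ 1 / ε := by
    rw [le_div_iff₀ hε]
    linarith
  have hie : 0 < 1 / ε := by positivity
  have hlog2 := Real.log_two_gt_d9
  have hL2 : Real.log 2 ≤ L := by
    rw [hL]
    exact Real.log_le_log (by norm_num) hε2
  have hL69 : 0.69 ≤ L := by linarith
  have hL0 : 0 < L := by linarith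
  have hexp : Real.exp L = 1 / ε := by
    rw [hL, Real.exp_log hie]
  obtain ⟨k, hk⟩ : ∃ k : ℕ, k = ⌈3 * L⌉₊ := ⟨_, rfl⟩
  have hk1 : 3 * L ≤ k := by
    rw [hk]
    exact Nat.le_ceil _
  have hk2 : (k : ℝ) < 3 * L + 1 := by
    rw [hk]
    exact Nat.ceil_lt_add_one (by linarith)
  have hk0 : (0 : ℝ) < k := by linarith
  have hkpos : 1 ≤ k := by
    have : (0 : ℝ) < k := hk0
    exact_mod_cast this
  have hn1 : 1 ≤ n := by
    have : (0 : ℝ) < n := by linarith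
    exact_mod_cast this
  have hn4 : 4 * (k : ℝ) ≤ n := by linarith
  have hk5 : (k : ℝ) ≤ 5 * L := by linarith
  have hA := boundA n k N hn1 hkpos ε hε (by linarith) h
  refine le_trans ?_ hA
  have hLp : (1 / 32 : ℝ) ≤ L ^ (5 / 2 : ℝ) := by
    have h1 : (1 / 4 : ℝ) ^ (5 / 2 : ℝ) ≤ L ^ (5 / 2 : ℝ) :=
      Real.rpow_le_rpow (by norm_num) (by linarith) (by norm_num)
    have h2 : (1 / 4 : ℝ) ^ (5 / 2 : ℝ) = 1 / 32 := by
      have h3 : (1 / 4 : ℝ) = (1 / 2 : ℝ) ^ (2 : ℝ) := by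
        rw [show (2 : ℝ) = ((2 : ℕ) : ℝ) by norm_num, Real.rpow_natCast]
        norm_num
      rw [h3, ← Real.rpow_mul (by norm_num), show (2 : ℝ) * (5 / 2) = ((5 : ℕ) : ℝ) by norm_num,
        Real.rpow_natCast]
      norm_num
    linarith
  apply le_min
  · have h1 : (1 / ε) ^ 2 ≤ 2 ^ k := by
      have h2 : (2 : ℝ) ^ k = Real.exp (k * Real.log 2) := by
        rw [Real.exp_nat_mul, Real.exp_log (by norm_num)]
      have h3 : (1 / ε) ^ 2 = Real.exp (2 * L) := by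
        rw [← hexp, ← Real.exp_nat_mul]
        norm_num
      rw [h2, h3]
      apply Real.exp_le_exp.2
      have h4 : 3 * L * Real.log 2 ≤ k * Real.log 2 :=
        mul_le_mul_of_nonneg_right hk1 (by linarith)
      have h5 : 2 * L ≤ 3 * L * Real.log 2 := by nlinarith
      linarith
    have h2 : ((2 * k - 1)‼ : ℝ) ≤ (2 * (k : ℝ)) ^ k := by
      exact_mod_cast boundC_df k
    have h3 : (0 : ℝ) < ((2 * k - 1)‼ : ℝ) := by
      exact_mod_cast Nat.doubleFactorial_pos _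
    have h4 : (2 : ℝ) ^ k * ((2 * k - 1)‼ : ℝ) ≤ (n : ℝ) ^ k := by
      calc (2 : ℝ) ^ k * ((2 * k - 1)‼ : ℝ) ≤ 2 ^ k * (2 * (k : ℝ)) ^ k :=
            mul_le_mul_of_nonneg_left h2 (by positivity)
        _ = (4 * (k : ℝ)) ^ k := by
            rw [← mul_pow]
            congr 1
            ring
        _ ≤ (n : ℝ) ^ k := pow_le_pow_left₀ (by positivity) hn4 k
    rw [div_le_div_iff₀ (by positivity) (by positivity)]
    have h5 : (1 / ε) ^ 2 * (2 * ((2 * k - 1)‼ : ℝ)) ≤ 2 * (n : ℝ) ^ k := by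
      have h6 : (1 / ε) ^ 2 * ((2 * k - 1)‼ : ℝ) ≤ 2 ^ k * ((2 * k - 1)‼ : ℝ) :=
        mul_le_mul_of_nonneg_right h1 h3.le
      linarith
    have h6 : 2 * (n : ℝ) ^ k ≤ (n : ℝ) ^ k * (20000 * L ^ (5 / 2 : ℝ)) := by
      have h7 : (0 : ℝ) ≤ (n : ℝ) ^ k := by positivity
      nlinarith
    linarith
  · have h1 : (k : ℝ) ^ (5 / 2 : ℝ) ≤ 56 * L ^ (5 / 2 : ℝ) := by
      have h2 : (k : ℝ) ^ (5 / 2 : ℝ) ≤ (5 * L) ^ (5 / 2 : ℝ) :=
        Real.rpow_le_rpow hk0.le hk5 (by norm_num)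
      rw [Real.mul_rpow (by norm_num) hL0.le] at h2
      have h3 : (5 : ℝ) ^ (5 / 2 : ℝ) ≤ 56 := by
        have h4 : ((5 : ℝ) ^ (5 / 2 : ℝ)) ^ 2 = 3125 := by
          rw [← Real.rpow_natCast, ← Real.rpow_mul (by norm_num),
            show (5 / 2 : ℝ) * ((2 : ℕ) : ℝ) = ((5 : ℕ) : ℝ) by norm_num, Real.rpow_natCast]
          norm_num
        have h5 : (0 : ℝ) ≤ (5 : ℝ) ^ (5 / 2 : ℝ) := by positivity
        nlinarith
      have h4 : (5 : ℝ) ^ (5 / 2 : ℝ) * L ^ (5 / 2 : ℝ) ≤ 56 * L ^ (5 / 2 : ℝ) :=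
        mul_le_mul_of_nonneg_right h3 (by positivity)
      linarith
    have hkp : (0 : ℝ) < (k : ℝ) ^ (5 / 2 : ℝ) := by positivity
    have hpi := Real.pi_lt_d2
    have hpi0 := Real.pi_pos
    rw [div_le_div_iff₀ (by positivity) (by positivity)]
    have h2 : (1 / ε) ^ 2 * (24 * Real.pi * (k : ℝ) ^ (5 / 2 : ℝ) * ε ^ 2)
        = 24 * Real.pi * (k : ℝ) ^ (5 / 2 : ℝ) := by
      field_simp
    rw [h2]
    have h3 : (1 / 4 : ℝ) ≤ (1 - ε) ^ 2 := by nlinarith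
    have h4 : Real.pi * (k : ℝ) ^ (5 / 2 : ℝ) ≤ 3.15 * (56 * L ^ (5 / 2 : ℝ)) :=
      mul_le_mul hpi.le h1 hkp.le (by norm_num)
    have h5 : (1 / 4 : ℝ) * (20000 * L ^ (5 / 2 : ℝ)) ≤ (1 - ε) ^ 2 * (20000 * L ^ (5 / 2 : ℝ)) :=
      mul_le_mul_of_nonneg_right h3 (by positivity)
    have h6 : (0 : ℝ) < L ^ (5 / 2 : ℝ) := by positivity
    nlinarith

end Pool.Agent.Helper649.Zono
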